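import Pool.Agent.W_93b186_h44.Geo

/-!
# From states and letters to billiard steps in a polygon which contains the trimmed sides
-/

namespace SympB.Quad

open SympB

/-- The data obtained from `ContainsTrimmedSides`. -/
structure On (S T ε : ℝ) {n : ℕ} (v : ZMod n → ℝ × ℝ) (idx : Fin 4 → ZMod n) : Prop where
  mem : ∀ (j : Fin 4) (u : ℝ), In ε u →
    quadL (S + 1) (T + 1) j u ∈ openSegment ℝ (v (idx j)) (v (idx j + 1))
  inj : Function.Injective idx
  par : ∀ (i j k : Fin 4) (u u' : ℝ),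
    cross (quadL (S + 1) (T + 1) i 1 - quadL (S + 1) (T + 1) i 0)
      (quadL (S + 1) (T + 1) k u' - quadL (S + 1) (T + 1) j u) = 0 →
    cross (v (idx i + 1) - v (idx i))
      (quadL (S + 1) (T + 1) k u' - quadL (S + 1) (T + 1) j u) = 0

/-- The direction of the side `j` of `Q`. -/
private noncomputable def dirQ (S T : ℝ) (j : Fin 4) : ℝ × ℝ :=
  quadL (S + 1) (T + 1) j 1 - quadL (S + 1) (T + 1) j 0

private lemma quadL_eq (S T : ℝ) (j : Fin 4) (u : ℝ) :
    quadL (S + 1) (T + 1) j u = quadL (S + 1) (T + 1) j 0 + u • dirQ S T j := by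
  fin_cases j <;> ext <;> simp [quadL, dirQ]
  all_goals ring

private lemma dirQ_cross {S T : ℝ} (hS : 0 < S) (hT : 0 < T) {i j : Fin 4} (hij : i ≠ j) :
    cross (dirQ S T i) (dirQ S T j) ≠ 0 := by
  have h1 : (0 : ℝ) < T + 1 := by linarith
  have h2 : (0 : ℝ) < S + 1 := by linarith
  have h3 : (0 : ℝ) < S + T + 1 := by linarith
  have key : ∀ x y : ℝ, 0 < y → (x = y ∨ x = -y) → x ≠ 0 := by
    rintro x y hy (rfl | rfl)
    · exact hy.ne'
    · exact (neg_neg_iff_pos.2 hy).ne
  fin_cases i <;> fin_cases j <;> first | exact absurd rfl hij | skip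
  · exact key _ (T + 1) h1 (Or.inl (by simp [dirQ, quadL, cross]))
  · exact key _ T hT (Or.inl (by simp [dirQ, quadL, cross]))
  · exact key _ 1 one_pos (Or.inl (by simp [dirQ, quadL, cross]))
  · exact key _ (T + 1) h1 (Or.inr (by simp [dirQ, quadL, cross]))
  · exact key _ (S + T + 1) h3 (Or.inr (by simp [dirQ, quadL, cross]; ring))
  · exact key _ S hS (Or.inl (by simp [dirQ, quadL, cross]))
  · exact key _ T hT (Or.inr (by simp [dirQ, quadL, cross]))
  · exact key _ (S + T + 1) h3 (Or.inl (by simp [dirQ, quadL, cross]; ring))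
  · exact key _ (S + 1) h2 (Or.inl (by simp [dirQ, quadL, cross]))
  · exact key _ 1 one_pos (Or.inr (by simp [dirQ, quadL, cross]))
  · exact key _ S hS (Or.inr (by simp [dirQ, quadL, cross]))
  · exact key _ (S + 1) h2 (Or.inr (by simp [dirQ, quadL, cross]))

private lemma dirQ_ne {S T : ℝ} (hS : 0 < S) (hT : 0 < T) (j : Fin 4) : dirQ S T j ≠ 0 := by
  intro h
  obtain ⟨k, hk⟩ : ∃ k : Fin 4, j ≠ k := ⟨j + 1, by fin_cases j <;> decide⟩
  exact dirQ_cross hS hT hk (by rw [h]; simp [cross])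

private lemma mem_seg {a b x : ℝ × ℝ} (h : x ∈ segment ℝ a b) :
    ∃ θ : ℝ, 0 ≤ θ ∧ θ ≤ 1 ∧ x = a + θ • (b - a) := by
  rw [segment_eq_image'] at h
  obtain ⟨θ, hθ, rfl⟩ := h
  exact ⟨θ, hθ.1, hθ.2, rfl⟩

/-- Proof. Choose `idx` from `ContainsTrimmedSides`. For `ε < u < 1 - ε` the point
`quadL j u` is strictly between the two different points `quadL j ε`, `quadL j (1-ε)` of the closed
side, hence in the open side. The direction `v (i+1) - v i` of the side is a nonzero multiple of
`quadL j 1 - quadL j 0` (compare the two points `quadL j ε ≠ quadL j (1 - ε)` on the side; `v i ≠ v (i+1)`),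
which gives `par`. Injectivity: two different sides of `Q` are not parallel
(the six cross products of the directions `(1,0), (S,T+1), (S+1,T), (0,1)` are nonzero for `S, T > 0`). -/
theorem on_of_trimmed {S T ε : ℝ} (hS : 0 < S) (hT : 0 < T) (hε : 0 < ε) (hε2 : ε < 1 / 2) {n : ℕ}
    {v : ZMod n → ℝ × ℝ} (hv : IsConvexPolygon v)
    (h : ContainsTrimmedSides (S + 1) (T + 1) ε v) : ∃ idx, On S T ε v idx := by
  choose idx hidx using h
  have hd : (0 : ℝ) < 1 - 2 * ε := by linarith
  have key : ∀ j : Fin 4, ∃ θ0 θ1 : ℝ, 0 ≤ θ0 ∧ θ0 ≤ 1 ∧ 0 ≤ θ1 ∧ θ1 ≤ 1 ∧ θ0 ≠ θ1 ∧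
      (1 - 2 * ε) • dirQ S T j = (θ1 - θ0) • (v (idx j + 1) - v (idx j)) ∧
      quadL (S + 1) (T + 1) j ε = v (idx j) + θ0 • (v (idx j + 1) - v (idx j)) := by
    intro j
    obtain ⟨θ0, h00, h01, e0⟩ := mem_seg (hidx j ε le_rfl (by linarith))
    obtain ⟨θ1, h10, h11, e1⟩ := mem_seg (hidx j (1 - ε) (by linarith) le_rfl)
    have e2 : (1 - 2 * ε) • dirQ S T j = (θ1 - θ0) • (v (idx j + 1) - v (idx j)) := by
      have h2 : (1 - 2 * ε) • dirQ S T j =
          quadL (S + 1) (T + 1) j (1 - ε) - quadL (S + 1) (T + 1) j ε := by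
        rw [quadL_eq S T j (1 - ε), quadL_eq S T j ε]
        module
      rw [h2, e0, e1]
      module
    refine ⟨θ0, θ1, h00, h01, h10, h11, ?_, e2, e0⟩
    rintro rfl
    rw [sub_self, zero_smul] at e2
    rcases smul_eq_zero.1 e2 with h3 | h3
    · exact hd.ne' h3
    · exact dirQ_ne hS hT j h3
  refine ⟨idx, ?_, ?_, ?_⟩
  · intro j u hu
    obtain ⟨θ0, θ1, h00, h01, h10, h11, hne, e2, e0⟩ := key j
    have hl0 : 0 < (u - ε) / (1 - 2 * ε) := div_pos (by linarith [hu.1]) hd
    have hl1 : (u - ε) / (1 - 2 * ε) < 1 := (div_lt_one hd).2 (by linarith [hu.2])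
    set l := (u - ε) / (1 - 2 * ε) with hl
    have hlu : u = ε + l * (1 - 2 * ε) := by rw [hl, div_mul_cancel₀ _ hd.ne']; ring
    have e3 : quadL (S + 1) (T + 1) j u =
        v (idx j) + (θ0 + l * (θ1 - θ0)) • (v (idx j + 1) - v (idx j)) := by
      have h2 : quadL (S + 1) (T + 1) j u =
          quadL (S + 1) (T + 1) j ε + l • ((1 - 2 * ε) • dirQ S T j) := by
        rw [quadL_eq S T j u, quadL_eq S T j ε, hlu]
        module
      rw [h2, e2, e0]
      module
    rw [e3, openSegment_eq_image']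
    refine ⟨θ0 + l * (θ1 - θ0), ⟨?_, ?_⟩, rfl⟩
    · rcases lt_or_gt_of_ne hne with h3 | h3
      · nlinarith
      · nlinarith
    · rcases lt_or_gt_of_ne hne with h3 | h3
      · nlinarith
      · nlinarith
  · intro i j hij
    by_contra hne
    obtain ⟨θ0, θ1, -, -, -, -, -, e2, -⟩ := key i
    obtain ⟨θ0', θ1', -, -, -, -, -, e2', -⟩ := key j
    rw [← hij] at e2'
    have h3 : cross ((1 - 2 * ε) • dirQ S T i) ((1 - 2 * ε) • dirQ S T j) = 0 := by
      rw [e2, e2']
      simp only [cross, Prod.smul_fst, Prod.smul_snd, smul_eq_mul]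
      ring
    have h4 : cross ((1 - 2 * ε) • dirQ S T i) ((1 - 2 * ε) • dirQ S T j) =
        (1 - 2 * ε) ^ 2 * cross (dirQ S T i) (dirQ S T j) := by
      simp only [cross, Prod.smul_fst, Prod.smul_snd, smul_eq_mul]
      ring
    rw [h4] at h3
    rcases mul_eq_zero.1 h3 with h5 | h5
    · exact hd.ne' (pow_eq_zero_iff (two_ne_zero) |>.1 h5)
    · exact dirQ_cross hS hT hne h5
  · intro i j k u u' hc
    obtain ⟨θ0, θ1, -, -, -, -, hne, e2, -⟩ := key i
    have hc' : cross (dirQ S T i) (quadL (S + 1) (T + 1) k u' - quadL (S + 1) (T + 1) j u) = 0 := hc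
    generalize quadL (S + 1) (T + 1) k u' - quadL (S + 1) (T + 1) j u = w at hc'
    have h3 : cross ((1 - 2 * ε) • dirQ S T i) w = 0 := by
      have : cross ((1 - 2 * ε) • dirQ S T i) w = (1 - 2 * ε) * cross (dirQ S T i) w := by
        simp only [cross, Prod.smul_fst, Prod.smul_snd, smul_eq_mul]
        ring
      rw [this, hc', mul_zero]
    rw [e2] at h3
    have h4 : cross ((θ1 - θ0) • (v (idx i + 1) - v (idx i))) w =
        (θ1 - θ0) * cross (v (idx i + 1) - v (idx i)) w := by
      simp only [cross, Prod.smul_fst, Prod.smul_snd, smul_eq_mul]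
      ring
    rw [h4] at h3
    exact (mul_eq_zero.1 h3).resolve_left (sub_ne_zero.2 hne.symm)

/-- One step between points on the sides `j, i, k` of `Q`. -/
theorem On.step {S T ε : ℝ} {n : ℕ} {v : ZMod n → ℝ × ℝ} {idx : Fin 4 → ZMod n}
    (hv : IsConvexPolygon v) (h : On S T ε v idx) {i j k : Fin 4} (hij : i ≠ j) (hjk : j ≠ k)
    {a b c : ℝ} (ha : In ε a) (hb : In ε b) (hc : In ε c)
    (hp : cross (quadL (S + 1) (T + 1) i 1 - quadL (S + 1) (T + 1) i 0)
      (quadL (S + 1) (T + 1) k c - quadL (S + 1) (T + 1) j a) = 0) :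
    Step v (quadL (S + 1) (T + 1) j a) (quadL (S + 1) (T + 1) i b)
      (quadL (S + 1) (T + 1) k c) :=
  step_of hv (i := idx i) (j := idx j) (k := idx k) (fun e => hij (h.inj e))
    (fun e => hjk (h.inj e)) (h.mem j a ha) (h.mem i b hb) (h.mem k c hc) (h.par i j k a c hp)

/-- The pair of boundary points of a state. -/
noncomputable def pr (S T : ℝ) (p : ℝ × ℝ) : (ℝ × ℝ) × (ℝ × ℝ) :=
  (quadL (S + 1) (T + 1) 2 p.1, quadL (S + 1) (T + 1) 1 p.2)

/-- A letter is a chain of billiard steps: `x 0, …, x (m+1)` with `m = 3` or `4`.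

Proof. The explicit points of the file docstring of `Core.lean` and `On.step`; for `be` the
parameter of the third point is `x'`. -/
theorem letter_chain {S T ε : ℝ} (hS : 0 < S) (hT : 0 < T) {n : ℕ} {v : ZMod n → ℝ × ℝ}
    {idx : Fin 4 → ZMod n} (hv : IsConvexPolygon v) (h : On S T ε v idx) (c : Letter)
    {p : ℝ × ℝ} (hc : cell S T ε c p) (h1 : In ε (fl S T c p).1) (h2 : In ε (fl S T c p).2) :
    ∃ (m : ℕ) (x : ℕ → ℝ × ℝ), 0 < m ∧ (x 0, x 1) = pr S T p ∧
      (x m, x (m + 1)) = pr S T (fl S T c p) ∧ ∀ j < m, Step v (x j) (x (j + 1)) (x (j + 2)) := by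
  have hS1 : S + 1 ≠ 0 := by linarith
  have hT1 : T + 1 ≠ 0 := by linarith
  have hST : S + T + 1 ≠ 0 := by linarith
  obtain ⟨x, y⟩ := p
  cases c with
  | al =>
    obtain ⟨c1, c2, c3, c4⟩ := hc
    simp only [fl] at h1 h2 c1 c2 c3 c4
    refine ⟨4, fun k => match k with
      | 0 => quadL (S + 1) (T + 1) 2 x
      | 1 => quadL (S + 1) (T + 1) 1 y
      | 2 => quadL (S + 1) (T + 1) 0 (((S + T + 1) * x - S) / (T + 1))
      | 3 => quadL (S + 1) (T + 1) 3 ((T + 1) * y)
      | 4 => quadL (S + 1) (T + 1) 2 (((S + T + 1) * x - S) / ((S + 1) * (T + 1)))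
      | _ => quadL (S + 1) (T + 1) 1 ((T + (S + 1) * (T + 1) * y) / (S + T + 1)),
      by norm_num, rfl, rfl, ?_⟩
    intro j hj
    interval_cases j
    · exact h.step hv (by decide) (by decide) c1 c2 c3
        (by simp only [quadL, cross]; simp; field_simp; ring)
    · exact h.step hv (by decide) (by decide) c2 c3 c4
        (by simp only [quadL, cross]; simp)
    · exact h.step hv (by decide) (by decide) c3 c4 h1
        (by simp only [quadL, cross]; simp; field_simp; ring)
    · exact h.step hv (by decide) (by decide) c4 h1 h2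
        (by simp only [quadL, cross]; simp; field_simp; ring)
  | be =>
    obtain ⟨c1, c2, c3⟩ := hc
    simp only [fl] at h1 h2 c1 c2 c3
    refine ⟨3, fun k => match k with
      | 0 => quadL (S + 1) (T + 1) 2 x
      | 1 => quadL (S + 1) (T + 1) 1 y
      | 2 => quadL (S + 1) (T + 1) 0 (((S + T + 1) * x - S) / (T + 1))
      | 3 => quadL (S + 1) (T + 1) 2 (((T + 1) * y - 1) / T)
      | _ => quadL (S + 1) (T + 1) 1 (T * (1 - x) / (T + 1)),
      by norm_num, rfl, rfl, ?_⟩
    intro j hj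
    interval_cases j
    · exact h.step hv (by decide) (by decide) c1 c2 c3
        (by simp only [quadL, cross]; simp; field_simp; ring)
    · exact h.step hv (by decide) (by decide) c2 c3 h1
        (by simp only [quadL, cross]; simp; field_simp; ring)
    · exact h.step hv (by decide) (by decide) c3 h1 h2
        (by simp only [quadL, cross]; simp; field_simp; ring)
  | ga =>
    obtain ⟨c1, c2, c3⟩ := hc
    simp only [fl] at h1 h2 c1 c2 c3
    refine ⟨3, fun k => match k with
      | 0 => quadL (S + 1) (T + 1) 2 x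
      | 1 => quadL (S + 1) (T + 1) 1 y
      | 2 => quadL (S + 1) (T + 1) 3 (1 - (S + T + 1) * x / S)
      | 3 => quadL (S + 1) (T + 1) 2 ((1 + S * y) / (S + 1))
      | _ => quadL (S + 1) (T + 1) 1 (1 - (S + 1) * x / S),
      by norm_num, rfl, rfl, ?_⟩
    intro j hj
    interval_cases j
    · exact h.step hv (by decide) (by decide) c1 c2 c3
        (by simp only [quadL, cross]; simp; field_simp; ring)
    · exact h.step hv (by decide) (by decide) c2 c3 h1
        (by simp only [quadL, cross]; simp; field_simp; ring)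
    · exact h.step hv (by decide) (by decide) c3 h1 h2
        (by simp only [quadL, cross]; simp; field_simp; ring)

/-- The parametrisation of states is injective. -/
theorem pr_injective {S T : ℝ} (hS : 0 < S) (hT : 0 < T) : Function.Injective (pr S T) := by
  rintro ⟨x, y⟩ ⟨x', y'⟩ h
  simp only [pr, quadL, Prod.mk.injEq] at h
  simp at h
  obtain ⟨⟨h1, -⟩, h2, -⟩ := h
  have e1 : x = x' := by
    rcases h1 with h1 | h1
    · exact h1
    · exact absurd h1 (by linarith)
  have e2 : y = y' := by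
    rcases h2 with h2 | h2
    · exact h2
    · exact absurd h2 (by linarith)
  rw [e1, e2]

end SympB.Quad
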