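import Pool.Agent.W_93b186_h44.Core

/-!
# Heteroclinic connections give `HasConn`
-/

namespace SympB.Quad

variable {S T : ℝ}

theorem fl_affine (l : Letter) (p q : ℝ × ℝ) (c : ℝ) :
    fl S T l (p + c • (q - p)) = fl S T l p + c • (fl S T l q - fl S T l p) := by
  cases l <;>
  · simp only [fl, Prod.fst_add, Prod.snd_add, Prod.smul_fst, Prod.smul_snd, Prod.fst_sub,
      Prod.snd_sub, smul_eq_mul, Prod.mk_sub_mk, Prod.smul_mk, Prod.mk_add_mk, Prod.mk.injEq]
    constructor <;> ring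

/-- `fl` and `run` are affine maps. -/
theorem run_affine (w : List Letter) (p q : ℝ × ℝ) (c : ℝ) :
    run S T w (p + c • (q - p)) = run S T w p + c • (run S T w q - run S T w p) := by
  induction w generalizing p q with
  | nil => simp only [run]
  | cons l w ih =>
    simp only [run]
    rw [fl_affine, ih]

theorem In_convex {ε x y : ℝ} (hx : In ε x) (hy : In ε y) {c : ℝ} (hc : 0 ≤ c) (hc1 : c ≤ 1) :
    In ε (x + c * (y - x)) := by
  obtain ⟨h1, h2⟩ := hx
  obtain ⟨h3, h4⟩ := hy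
  rcases eq_or_lt_of_le hc with h0 | h0
  · subst h0
    simp only [zero_mul, add_zero]
    exact ⟨h1, h2⟩
  · constructor
    · nlinarith [mul_pos h0 (sub_pos.2 h3), mul_nonneg (sub_nonneg.2 hc1) (sub_pos.2 h1).le]
    · nlinarith [mul_pos h0 (sub_pos.2 h4), mul_nonneg (sub_nonneg.2 hc1) (sub_pos.2 h2).le]

theorem cell_convex {ε : ℝ} (l : Letter) {p q : ℝ × ℝ} (hp : cell S T ε l p)
    (hq : cell S T ε l q) {c : ℝ} (hc : 0 ≤ c) (hc1 : c ≤ 1) :
    cell S T ε l (p + c • (q - p)) := by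
  cases l with
  | al =>
    obtain ⟨a1, a2, a3, a4⟩ := hp
    obtain ⟨b1, b2, b3, b4⟩ := hq
    refine ⟨In_convex a1 b1 hc hc1, In_convex a2 b2 hc hc1, ?_, ?_⟩
    · have h := In_convex a3 b3 hc hc1
      convert h using 1
      simp only [Prod.fst_add, Prod.smul_fst, Prod.fst_sub, smul_eq_mul]
      ring
    · have h := In_convex a4 b4 hc hc1
      convert h using 1
      simp only [Prod.snd_add, Prod.smul_snd, Prod.snd_sub, smul_eq_mul]
      ring
  | be =>
    obtain ⟨a1, a2, a3⟩ := hp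
    obtain ⟨b1, b2, b3⟩ := hq
    refine ⟨In_convex a1 b1 hc hc1, In_convex a2 b2 hc hc1, ?_⟩
    have h := In_convex a3 b3 hc hc1
    convert h using 1
    simp only [Prod.fst_add, Prod.smul_fst, Prod.fst_sub, smul_eq_mul]
    ring
  | ga =>
    obtain ⟨a1, a2, a3⟩ := hp
    obtain ⟨b1, b2, b3⟩ := hq
    refine ⟨In_convex a1 b1 hc hc1, In_convex a2 b2 hc hc1, ?_⟩
    have h := In_convex a3 b3 hc hc1
    convert h using 1
    simp only [Prod.fst_add, Prod.smul_fst, Prod.fst_sub, smul_eq_mul]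
    ring

/-- `ok` is stable under convex combinations. -/
theorem ok_convex {ε : ℝ} (w : List Letter) {p q : ℝ × ℝ} (hp : ok S T ε w p)
    (hq : ok S T ε w q) {c : ℝ} (hc : 0 ≤ c) (hc1 : c ≤ 1) :
    ok S T ε w (p + c • (q - p)) := by
  induction w generalizing p q with
  | nil => trivial
  | cons l w ih =>
    obtain ⟨hp1, hp2⟩ := hp
    obtain ⟨hq1, hq2⟩ := hq
    refine ⟨cell_convex l hp1 hq1 hc hc1, ?_⟩
    rw [fl_affine]
    exact ih hp2 hq2

theorem In_mono {ε ε' x : ℝ} (h : ε' ≤ ε) (hx : In ε x) : In ε' x :=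
  ⟨lt_of_le_of_lt h hx.1, by linarith [hx.2]⟩

theorem In_margin {x : ℝ} (hx : In 0 x) : ∃ ε : ℝ, 0 < ε ∧ In ε x := by
  obtain ⟨h1, h2⟩ := hx
  refine ⟨min (x / 2) ((1 - x) / 2), lt_min (by linarith) (by linarith), ?_, ?_⟩
  · exact lt_of_le_of_lt (min_le_left _ _) (by linarith)
  · have h := min_le_right (x / 2) ((1 - x) / 2)
    linarith

theorem cell_mono {ε ε' : ℝ} (h : ε' ≤ ε) (l : Letter) {p : ℝ × ℝ} (hp : cell S T ε l p) :
    cell S T ε' l p := by
  cases l with
  | al => exact ⟨In_mono h hp.1, In_mono h hp.2.1, In_mono h hp.2.2.1, In_mono h hp.2.2.2⟩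
  | be => exact ⟨In_mono h hp.1, In_mono h hp.2.1, In_mono h hp.2.2⟩
  | ga => exact ⟨In_mono h hp.1, In_mono h hp.2.1, In_mono h hp.2.2⟩

theorem cell_margin (l : Letter) {p : ℝ × ℝ} (hp : cell S T 0 l p) :
    ∃ ε : ℝ, 0 < ε ∧ cell S T ε l p := by
  cases l with
  | al =>
    obtain ⟨e1, h1, k1⟩ := In_margin hp.1
    obtain ⟨e2, h2, k2⟩ := In_margin hp.2.1
    obtain ⟨e3, h3, k3⟩ := In_margin hp.2.2.1
    obtain ⟨e4, h4, k4⟩ := In_margin hp.2.2.2
    refine ⟨min (min e1 e2) (min e3 e4), lt_min (lt_min h1 h2) (lt_min h3 h4), ?_, ?_, ?_, ?_⟩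
    · exact In_mono ((min_le_left _ _).trans (min_le_left _ _)) k1
    · exact In_mono ((min_le_left _ _).trans (min_le_right _ _)) k2
    · exact In_mono ((min_le_right _ _).trans (min_le_left _ _)) k3
    · exact In_mono ((min_le_right _ _).trans (min_le_right _ _)) k4
  | be =>
    obtain ⟨e1, h1, k1⟩ := In_margin hp.1
    obtain ⟨e2, h2, k2⟩ := In_margin hp.2.1
    obtain ⟨e3, h3, k3⟩ := In_margin hp.2.2
    refine ⟨min (min e1 e2) e3, lt_min (lt_min h1 h2) h3, ?_, ?_, ?_⟩
    · exact In_mono ((min_le_left _ _).trans (min_le_left _ _)) k1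
    · exact In_mono ((min_le_left _ _).trans (min_le_right _ _)) k2
    · exact In_mono (min_le_right _ _) k3
  | ga =>
    obtain ⟨e1, h1, k1⟩ := In_margin hp.1
    obtain ⟨e2, h2, k2⟩ := In_margin hp.2.1
    obtain ⟨e3, h3, k3⟩ := In_margin hp.2.2
    refine ⟨min (min e1 e2) e3, lt_min (lt_min h1 h2) h3, ?_, ?_, ?_⟩
    · exact In_mono ((min_le_left _ _).trans (min_le_left _ _)) k1
    · exact In_mono ((min_le_left _ _).trans (min_le_right _ _)) k2
    · exact In_mono (min_le_right _ _) k3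

theorem ok_mono_aux {ε ε' : ℝ} (h : ε' ≤ ε) (w : List Letter) {p : ℝ × ℝ}
    (hp : ok S T ε w p) : ok S T ε' w p := by
  induction w generalizing p with
  | nil => trivial
  | cons l w ih => exact ⟨cell_mono h l hp.1, ih hp.2⟩

/-- `ok` with margin `0` implies `ok` with a positive margin. -/
theorem exists_margin (w : List Letter) {p : ℝ × ℝ} (hp : ok S T 0 w p) :
    ∃ ε : ℝ, 0 < ε ∧ ok S T ε w p := by
  induction w generalizing p with
  | nil => exact ⟨1, one_pos, trivial⟩
  | cons l w ih =>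
    obtain ⟨e1, h1, k1⟩ := cell_margin l hp.1
    obtain ⟨e2, h2, k2⟩ := ih hp.2
    exact ⟨min e1 e2, lt_min h1 h2, cell_mono (min_le_left _ _) l k1,
      ok_mono_aux (min_le_right _ _) w k2⟩

theorem ok_mono {ε ε' : ℝ} (h : ε' ≤ ε) (w : List Letter) {p : ℝ × ℝ} (hp : ok S T ε w p) :
    ok S T ε' w p :=
  ok_mono_aux h w hp

theorem cell_of_cond (hS : 0 < S) (hT : 0 < T) (l : Letter) {p : ℝ × ℝ} (hp : Sq p)
    (h : cond S T l p) : cell S T 0 l p ∧ Sq (fl S T l p) := by
  obtain ⟨⟨x0, x1⟩, y0, y1⟩ := hp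
  have hST : 0 < S + T + 1 := by linarith
  have hT1 : 0 < T + 1 := by linarith
  have hS1 : 0 < S + 1 := by linarith
  have i1 : In 0 p.1 := ⟨x0, by linarith⟩
  have i2 : In 0 p.2 := ⟨y0, by linarith⟩
  cases l with
  | al =>
    obtain ⟨h1, h2⟩ := h
    refine ⟨⟨i1, i2, ⟨?_, ?_⟩, ⟨?_, ?_⟩⟩, ⟨?_, ?_⟩, ?_, ?_⟩
    · exact div_pos (by linarith) hT1
    · rw [sub_zero, div_lt_one hT1]
      nlinarith [mul_pos hST (sub_pos.2 x1)]
    · exact mul_pos hT1 y0
    · linarith
    · exact div_pos (by linarith) (mul_pos hS1 hT1)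
    · simp only [fl]
      rw [div_lt_one (mul_pos hS1 hT1)]
      nlinarith [mul_pos hST (sub_pos.2 x1), mul_pos hS hT1]
    · exact div_pos (by nlinarith [mul_pos (mul_pos hS1 hT1) y0]) hST
    · simp only [fl]
      rw [div_lt_one hST]
      nlinarith [mul_pos hS1 (sub_pos.2 h2)]
  | be =>
    obtain ⟨h1, h2⟩ := h
    refine ⟨⟨i1, i2, ⟨?_, ?_⟩⟩, ⟨?_, ?_⟩, ?_, ?_⟩
    · exact div_pos (by linarith) hT1
    · rw [sub_zero, div_lt_one hT1]
      nlinarith [mul_pos hST (sub_pos.2 x1)]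
    · exact div_pos (by linarith) hT
    · simp only [fl]
      rw [div_lt_one hT]
      nlinarith [mul_pos hT1 (sub_pos.2 y1)]
    · exact div_pos (mul_pos hT (by linarith)) hT1
    · simp only [fl]
      rw [div_lt_one hT1]
      nlinarith [mul_pos hT x0]
  | ga =>
    have h1 : (S + T + 1) * p.1 < S := h
    have hd : (S + T + 1) * p.1 / S < 1 := by
      rw [div_lt_one hS]
      exact h1
    have hd0 : 0 < (S + T + 1) * p.1 / S := div_pos (mul_pos hST x0) hS
    refine ⟨⟨i1, i2, ⟨by linarith, by linarith⟩⟩, ⟨?_, ?_⟩, ?_, ?_⟩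
    · exact div_pos (by nlinarith [mul_pos hS y0]) hS1
    · simp only [fl]
      rw [div_lt_one hS1]
      nlinarith [mul_pos hS (sub_pos.2 y1)]
    · simp only [fl]
      rw [sub_pos, div_lt_one hS]
      nlinarith [mul_pos hT x0]
    · simp only [fl]
      have h2 : 0 < (S + 1) * p.1 / S := div_pos (mul_pos hS1 x0) hS
      linarith

/-- In the open unit square the decisive inequalities suffice (each `fl` maps the part of the
square where `cond` holds into the square). -/
theorem ok_of_okc (hS : 0 < S) (hT : 0 < T) (w : List Letter) {p : ℝ × ℝ} (hp : Sq p)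
    (h : okc S T w p) : ok S T 0 w p := by
  induction w generalizing p with
  | nil => trivial
  | cons l w ih =>
    obtain ⟨h1, h2⟩ := h
    obtain ⟨h3, h4⟩ := cell_of_cond hS hT l hp h1
    exact ⟨h3, ih h4 h2⟩

theorem ok_append {ε : ℝ} (u w : List Letter) (p : ℝ × ℝ) :
    ok S T ε (u ++ w) p ↔ ok S T ε u p ∧ ok S T ε w (run S T u p) := by
  induction u generalizing p with
  | nil => simp only [List.nil_append, ok, run, true_and]
  | cons l u ih =>
    simp only [List.cons_append, ok, run]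
    rw [ih, and_assoc]

theorem run_append (u w : List Letter) (p : ℝ × ℝ) :
    run S T (u ++ w) p = run S T w (run S T u p) := by
  induction u generalizing p with
  | nil => simp only [List.nil_append, run]
  | cons l u ih =>
    simp only [List.cons_append, run]
    rw [ih]

/-- The points `P + c^k • d`, `k ≥ 1`, when `-1 < c < 0`: they are convex combinations of
`P + c • d` and `P + c^2 • d`. -/
theorem ok_geom_neg {ε : ℝ} (w : List Letter) {P d : ℝ × ℝ} {c : ℝ} (hc : c < 0) (hc1 : -1 < c)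
    (h1 : ok S T ε w (P + c • d)) (h2 : ok S T ε w (P + c ^ 2 • d)) (k : ℕ) (hk : 1 ≤ k) :
    ok S T ε w (P + c ^ k • d) := by
  have hcc : 0 < c ^ 2 - c := by nlinarith
  have hlo : c ≤ c ^ k ∧ c ^ k ≤ c ^ 2 := by
    obtain ⟨m, rfl⟩ : ∃ m, k = m + 1 := ⟨k - 1, by omega⟩
    have habs : |c| ≤ 1 := by rw [abs_le]; constructor <;> linarith
    have h3 : |c ^ m| ≤ 1 := by
      rw [abs_pow]; exact pow_le_one₀ (abs_nonneg _) habs
    rw [abs_le] at h3
    constructor
    · rw [pow_succ]; nlinarith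
    · rcases Nat.eq_zero_or_pos m with rfl | hm
      · simp; nlinarith
      · obtain ⟨n, rfl⟩ : ∃ n, m = n + 1 := ⟨m - 1, by omega⟩
        have h4 : |c ^ n| ≤ 1 := by
          rw [abs_pow]; exact pow_le_one₀ (abs_nonneg _) habs
        rw [abs_le] at h4
        have : c ^ (n + 1 + 1) = c ^ n * c ^ 2 := by ring
        rw [this]
        nlinarith [sq_nonneg c]
  have hθ0 : 0 ≤ (c ^ k - c) / (c ^ 2 - c) := div_nonneg (by linarith [hlo.1]) hcc.le
  have hθ1 : (c ^ k - c) / (c ^ 2 - c) ≤ 1 := by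
    rw [div_le_one hcc]; linarith [hlo.2]
  have h := ok_convex w h1 h2 hθ0 hθ1
  have he : P + c • d + ((c ^ k - c) / (c ^ 2 - c)) • (P + c ^ 2 • d - (P + c • d))
      = P + c ^ k • d := by
    have h5 : P + c ^ 2 • d - (P + c • d) = (c ^ 2 - c) • d := by
      rw [sub_smul]; abel
    rw [h5, smul_smul, div_mul_cancel₀ _ hcc.ne', sub_smul]
    abel
  rwa [he] at h

/-- The same for `0 < c < 1`, with the limit point `P` instead of the second point. -/
theorem ok_geom_pos {ε : ℝ} (w : List Letter) {P d : ℝ × ℝ} {c : ℝ} (hc : 0 < c) (hc1 : c < 1)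
    (h1 : ok S T ε w (P + c • d)) (h2 : ok S T ε w P) (k : ℕ) (hk : 1 ≤ k) :
    ok S T ε w (P + c ^ k • d) := by
  obtain ⟨m, rfl⟩ : ∃ m, k = m + 1 := ⟨k - 1, by omega⟩
  have h := ok_convex w h2 h1 (pow_nonneg hc.le m) (pow_le_one₀ hc.le hc1.le)
  have he : P + c ^ m • (P + c • d - P) = P + c ^ (m + 1) • d := by
    have h5 : P + c • d - P = c • d := by abel
    rw [h5, smul_smul, pow_succ]
  rwa [he] at h

/-- The connection lemma. `A` is a fixed point of the word `WA`, which expands the direction `dA`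
by the factor `1/ν` (so `ν` is the contraction factor backwards); `B` is a fixed point of the word
`WB`, which contracts the direction `dB` by the factor `κ`. The word `E` carries the point `A + dA`
of the unstable axis of `A` to the point `B + dB` of the stable axis of `B`.

Proof. Take `p (-k) = A + ν^k • dA`, `w (-k) = WA` for `k ≥ 1`; `p 0 = A + dA`, `w 0 = E ++ WB`;
`p k = B + κ^k • dB`, `w k = WB` for `k ≥ 1`. By `run_affine`, `run WA (A + c • dA) = A + (c/ν) • dA`
and `run WB (B + c • dB) = B + (c κ) • dB` for all real `c`. The values `B + κ^k • dB` are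
pairwise different. -/
theorem conn {WA E WB : List Letter} (hWA : WA ≠ []) (hWB : WB ≠ []) {A B dA dB : ℝ × ℝ}
    {ν κ : ℝ} (hν : ν ≠ 0) (hκ : κ ≠ 0) (hκ1 : |κ| < 1) (hdB : dB ≠ 0)
    (hA : run S T WA A = A) (hA1 : run S T WA (A + ν • dA) = A + dA)
    (hB : run S T WB B = B) (hB1 : run S T WB (B + dB) = B + κ • dB)
    (hE : run S T E (A + dA) = B + dB)
    (okA : ∃ ε : ℝ, 0 < ε ∧ ∀ k : ℕ, 1 ≤ k → ok S T ε WA (A + ν ^ k • dA))
    (okE : ok S T 0 E (A + dA))
    (okB : ∃ ε : ℝ, 0 < ε ∧ ∀ k : ℕ, ok S T ε WB (B + κ ^ k • dB)) : HasConn S T := by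
  obtain ⟨εA, hεA, okA⟩ := okA
  obtain ⟨εB, hεB, okB⟩ := okB
  obtain ⟨εE, hεE, okE⟩ := exists_margin E okE
  have runA : ∀ x : ℝ, run S T WA (A + x • (ν • dA)) = A + x • dA := by
    intro x
    have h := run_affine (S := S) (T := T) WA A (A + ν • dA) x
    rw [hA1, hA] at h
    simpa using h
  have runB : ∀ x : ℝ, run S T WB (B + x • dB) = B + x • (κ • dB) := by
    intro x
    have h := run_affine (S := S) (T := T) WB B (B + dB) x
    rw [hB1, hB] at h
    simpa using h
  refine ⟨min εA (min εE εB), lt_min hεA (lt_min hεE hεB),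
    fun k => if k < 0 then WA else if k = 0 then E ++ WB else WB,
    fun k => if k < 0 then A + ν ^ (-k).toNat • dA else
      if k = 0 then A + dA else B + κ ^ k.toNat • dB, ?_, ?_⟩
  · intro k
    rcases lt_trichotomy k 0 with hk | hk | hk
    · obtain ⟨n, rfl⟩ : ∃ n : ℕ, k = -((n : ℤ) + 1) := ⟨(-k - 1).toNat, by omega⟩
      have e1 : (-(-((n : ℤ) + 1))).toNat = n + 1 := by omega
      have hneg : -((n : ℤ) + 1) < 0 := by omega
      refine ⟨by simp only [hneg, if_true]; exact hWA, ?_, ?_⟩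
      · simp only [hneg, if_true, e1]
        exact ok_mono (min_le_left _ _) _ (okA (n + 1) (by omega))
      · simp only [hneg, if_true, e1]
        rw [pow_succ, mul_smul, runA]
        rcases Nat.eq_zero_or_pos n with rfl | hn
        · simp
        · have h1 : -((n : ℤ) + 1) + 1 < 0 := by omega
          have h2 : (-(-((n : ℤ) + 1) + 1)).toNat = n := by omega
          simp only [h1, if_true, h2]
    · subst hk
      refine ⟨by simp [hWB], ?_, ?_⟩
      · simp only [lt_irrefl, if_false, if_true]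
        rw [ok_append]
        refine ⟨ok_mono ((min_le_right _ _).trans (min_le_left _ _)) _ okE, ?_⟩
        rw [hE]
        have := okB 0
        rw [pow_zero, one_smul] at this
        exact ok_mono ((min_le_right _ _).trans (min_le_right _ _)) _ this
      · simp only [lt_irrefl, if_false, if_true]
        rw [run_append, hE, hB1]
        simp
    · obtain ⟨n, rfl⟩ : ∃ n : ℕ, k = (n : ℤ) + 1 := ⟨(k - 1).toNat, by omega⟩
      have h1 : ¬ ((n : ℤ) + 1 < 0) := by omega
      have h2 : ¬ ((n : ℤ) + 1 = 0) := by omega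
      have h3 : ¬ ((n : ℤ) + 1 + 1 < 0) := by omega
      have h4 : ¬ ((n : ℤ) + 1 + 1 = 0) := by omega
      have e1 : ((n : ℤ) + 1).toNat = n + 1 := by omega
      have e2 : ((n : ℤ) + 1 + 1).toNat = n + 1 + 1 := by omega
      refine ⟨by simp only [h1, h2, if_false]; exact hWB, ?_, ?_⟩
      · simp only [h1, h2, if_false, e1]
        exact ok_mono ((min_le_right _ _).trans (min_le_right _ _)) _ (okB (n + 1))
      · simp only [h1, h2, h3, h4, if_false, e1, e2]
        rw [runB, smul_smul, ← pow_succ]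
  · have hinj : Function.Injective (fun n : ℕ => B + κ ^ (n + 1) • dB) := by
      intro m n hmn
      simp only [add_right_inj] at hmn
      have h1 : (κ ^ (m + 1) - κ ^ (n + 1)) • dB = 0 := by
        rw [sub_smul, hmn, sub_self]
      rcases smul_eq_zero.mp h1 with h2 | h2
      · have h3 : |κ| ^ (m + 1) = |κ| ^ (n + 1) := by
          rw [← abs_pow, ← abs_pow, sub_eq_zero.mp h2]
        have h4 := (pow_right_inj₀ (abs_pos.mpr hκ) hκ1.ne).mp h3
        omega
      · exact absurd h2 hdB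
    refine (Set.infinite_range_of_injective hinj).mono ?_
    rintro x ⟨n, rfl⟩
    refine ⟨(n : ℤ) + 1, by omega, ?_⟩
    have h1 : ¬ ((n : ℤ) + 1 < 0) := by omega
    have h2 : ¬ ((n : ℤ) + 1 = 0) := by omega
    have e1 : ((n : ℤ) + 1).toNat = n + 1 := by omega
    simp only [h1, h2, if_false, e1]

end SympB.Quad
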