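import Pool.Agent.W_93b186_h44.Conn

/-!
# Convenient forms of the connection lemma
-/

namespace SympB.Quad

variable {S T : ℝ}

/-- two margins at once -/
theorem two_margins (w : List Letter) {p q : ℝ × ℝ} (hp : ok S T 0 w p) (hq : ok S T 0 w q) :
    ∃ ε : ℝ, 0 < ε ∧ ok S T ε w p ∧ ok S T ε w q := by
  obtain ⟨ε, hε, h1⟩ := exists_margin w hp
  obtain ⟨δ, hδ, h2⟩ := exists_margin w hq
  exact ⟨min ε δ, lt_min hε hδ, ok_mono (min_le_left _ _) w h1, ok_mono (min_le_right _ _) w h2⟩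

theorem okA_neg (hS : 0 < S) (hT : 0 < T) {w : List Letter} {A d P Q : ℝ × ℝ} {c : ℝ}
    (hc : c < 0) (hc1 : -1 < c) (hP : A + c • d = P) (hQ : A + c ^ 2 • d = Q)
    (sP : Sq P) (sQ : Sq Q) (oP : okc S T w P) (oQ : okc S T w Q) :
    ∃ ε : ℝ, 0 < ε ∧ ∀ k : ℕ, 1 ≤ k → ok S T ε w (A + c ^ k • d) := by
  obtain ⟨ε, hε, h1, h2⟩ := two_margins w (ok_of_okc hS hT w sP oP) (ok_of_okc hS hT w sQ oQ)
  refine ⟨ε, hε, fun k hk => ok_geom_neg w hc hc1 ?_ ?_ k hk⟩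
  · rw [hP]; exact h1
  · rw [hQ]; exact h2

theorem okA_pos (hS : 0 < S) (hT : 0 < T) {w : List Letter} {A d P : ℝ × ℝ} {c : ℝ}
    (hc : 0 < c) (hc1 : c < 1) (hP : A + c • d = P)
    (sA : Sq A) (sP : Sq P) (oA : okc S T w A) (oP : okc S T w P) :
    ∃ ε : ℝ, 0 < ε ∧ ∀ k : ℕ, 1 ≤ k → ok S T ε w (A + c ^ k • d) := by
  obtain ⟨ε, hε, h1, h2⟩ := two_margins w (ok_of_okc hS hT w sA oA) (ok_of_okc hS hT w sP oP)
  refine ⟨ε, hε, fun k hk => ok_geom_pos w hc hc1 ?_ h1 k hk⟩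
  rw [hP]; exact h2

theorem okB_neg (hS : 0 < S) (hT : 0 < T) {w : List Letter} {B d r C : ℝ × ℝ} {c : ℝ}
    (hc : c < 0) (hc1 : -1 < c) (hr : B + d = r) (hC : B + c • d = C)
    (sr : Sq r) (sC : Sq C) (orr : okc S T w r) (oC : okc S T w C) :
    ∃ ε : ℝ, 0 < ε ∧ ∀ k : ℕ, ok S T ε w (B + c ^ k • d) := by
  obtain ⟨ε, hε, h1, h2⟩ := two_margins w (ok_of_okc hS hT w sr orr) (ok_of_okc hS hT w sC oC)
  refine ⟨ε, hε, fun k => ?_⟩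
  have e1 : B + c • (c⁻¹ • d) = r := by rw [smul_smul, mul_inv_cancel₀ hc.ne, one_smul, hr]
  have e2 : B + c ^ 2 • (c⁻¹ • d) = C := by
    rw [smul_smul, show c ^ 2 * c⁻¹ = c by rw [pow_two, mul_assoc, mul_inv_cancel₀ hc.ne, mul_one], hC]
  have h := ok_geom_neg (ε := ε) (S := S) (T := T) w (P := B) (d := c⁻¹ • d) hc hc1
    (by rw [e1]; exact h1) (by rw [e2]; exact h2) (k + 1) (by omega)
  rwa [smul_smul, show c ^ (k + 1) * c⁻¹ = c ^ k by rw [pow_succ, mul_assoc, mul_inv_cancel₀ hc.ne, mul_one]] at h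

theorem okB_pos (hS : 0 < S) (hT : 0 < T) {w : List Letter} {B d r : ℝ × ℝ} {c : ℝ}
    (hc : 0 < c) (hc1 : c < 1) (hr : B + d = r)
    (sB : Sq B) (sr : Sq r) (oB : okc S T w B) (orr : okc S T w r) :
    ∃ ε : ℝ, 0 < ε ∧ ∀ k : ℕ, ok S T ε w (B + c ^ k • d) := by
  obtain ⟨ε, hε, h1, h2⟩ := two_margins w (ok_of_okc hS hT w sB oB) (ok_of_okc hS hT w sr orr)
  refine ⟨ε, hε, fun k => ?_⟩
  have e1 : B + c • (c⁻¹ • d) = r := by rw [smul_smul, mul_inv_cancel₀ hc.ne', one_smul, hr]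
  have h := ok_geom_pos (ε := ε) (S := S) (T := T) w (P := B) (d := c⁻¹ • d) hc hc1
    (by rw [e1]; exact h2) h1 (k + 1) (by omega)
  rwa [smul_smul, show c ^ (k + 1) * c⁻¹ = c ^ k by rw [pow_succ, mul_assoc, mul_inv_cancel₀ hc.ne', mul_one]] at h

/-- final form -/
theorem conn_fin (hS : 0 < S) (hT : 0 < T) {WA E WB : List Letter} (hWA : WA ≠ []) (hWB : WB ≠ [])
    {A B dA dB q r P C : ℝ × ℝ} {ν κ : ℝ} (hν : ν ≠ 0) (hκ : κ ≠ 0) (hκ1 : |κ| < 1)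
    (hdB : dB ≠ 0) (hP : A + ν • dA = P) (hq : A + dA = q) (hr : B + dB = r)
    (hC : B + κ • dB = C) (hA : run S T WA A = A) (hA1 : run S T WA P = q)
    (hB : run S T WB B = B) (hB1 : run S T WB r = C) (hE : run S T E q = r)
    (okA : ∃ ε : ℝ, 0 < ε ∧ ∀ k : ℕ, 1 ≤ k → ok S T ε WA (A + ν ^ k • dA))
    (sq : Sq q) (okE : okc S T E q)
    (okB : ∃ ε : ℝ, 0 < ε ∧ ∀ k : ℕ, ok S T ε WB (B + κ ^ k • dB)) : HasConn S T := by
  refine conn hWA hWB hν hκ hκ1 hdB hA (by rw [hP, hA1, hq]) hB (by rw [hr, hB1, hC])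
    (by rw [hq, hE, hr]) okA ?_ okB
  rw [hq]
  exact ok_of_okc hS hT E sq okE

end SympB.Quad
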