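import Pool.Agent.W_93b186_h44.QDefs

/-!
# The return map of the quadrilateral `Q(s,t)`, in terms of `S = s - 1`, `T = t - 1`

A *state* `p = (x,y)` stands for the pair of boundary points
`(quadL s t 2 x, quadL s t 1 y)` (a point of the side `(0,1)–(s,t)` and a point of the side
`(1,0)–(s,t)`).  The billiard map started at this pair comes back to such a pair after 3 or 4
steps; the three possibilities are the *letters* `al, be, ga`:

* `ga` (when `(S+T+1) x < S`): the pairs are `(L2 x, L1 y), (L1 y, L3 z), (L3 z, L2 x'), (L2 x', L1 y')`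
  with `z = 1 - (S+T+1) x / S`;
* `be` (when `(S+T+1) x > S`, `(T+1) y > 1`): `(L2 x, L1 y), (L1 y, L0 z), (L0 z, L2 x'), (L2 x', L1 y')`
  with `z = ((S+T+1) x - S)/(T+1)`;
* `al` (when `(S+T+1) x > S`, `(T+1) y < 1`):
  `(L2 x, L1 y), (L1 y, L0 z), (L0 z, L3 w), (L3 w, L2 x'), (L2 x', L1 y')`
  with `z = ((S+T+1) x - S)/(T+1)`, `w = (T+1) y`;

where `Lj u = quadL (S+1) (T+1) j u` and `(x',y') = fl S T c (x,y)`.
-/

namespace SympB.Quad

/-- The three letters. -/
inductive Letter
  | al
  | be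
  | ga

/-- The affine map of a letter. -/
noncomputable def fl (S T : ℝ) : Letter → ℝ × ℝ → ℝ × ℝ
  | Letter.al, p => (((S + T + 1) * p.1 - S) / ((S + 1) * (T + 1)),
      (T + (S + 1) * (T + 1) * p.2) / (S + T + 1))
  | Letter.be, p => (((T + 1) * p.2 - 1) / T, T * (1 - p.1) / (T + 1))
  | Letter.ga, p => ((1 + S * p.2) / (S + 1), 1 - (S + 1) * p.1 / S)

/-- `x` is in the open unit interval, with margin `ε`. -/
def In (ε x : ℝ) : Prop := ε < x ∧ x < 1 - ε

/-- All boundary points met while the letter `c` is applied to the state `p` are in the relative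
interiors of the sides, with margin `ε`. -/
def cell (S T ε : ℝ) : Letter → ℝ × ℝ → Prop
  | Letter.al, p => In ε p.1 ∧ In ε p.2 ∧ In ε (((S + T + 1) * p.1 - S) / (T + 1)) ∧
      In ε ((T + 1) * p.2)
  | Letter.be, p => In ε p.1 ∧ In ε p.2 ∧ In ε (((S + T + 1) * p.1 - S) / (T + 1))
  | Letter.ga, p => In ε p.1 ∧ In ε p.2 ∧ In ε (1 - (S + T + 1) * p.1 / S)

/-- Apply a word (first letter first). -/
noncomputable def run (S T : ℝ) : List Letter → ℝ × ℝ → ℝ × ℝ
  | [], p => p
  | c :: w, p => run S T w (fl S T c p)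

/-- The word can be applied to the state `p` with margin `ε`. -/
def ok (S T ε : ℝ) : List Letter → ℝ × ℝ → Prop
  | [], _ => True
  | c :: w, p => cell S T ε c p ∧ ok S T ε w (fl S T c p)

/-- There is a bi-infinite sequence of states, joined by nonempty words, with a uniform margin,
whose forward half has infinitely many different values. -/
def HasConn (S T : ℝ) : Prop :=
  ∃ ε : ℝ, 0 < ε ∧ ∃ (w : ℤ → List Letter) (p : ℤ → ℝ × ℝ),
    (∀ k, w k ≠ [] ∧ ok S T ε (w k) (p k) ∧ run S T (w k) (p k) = p (k + 1)) ∧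
    {x | ∃ k : ℤ, 0 ≤ k ∧ p k = x}.Infinite

/-- The inequality which decides the letter (for states in the open unit square). -/
def cond (S T : ℝ) : Letter → ℝ × ℝ → Prop
  | Letter.al, p => S < (S + T + 1) * p.1 ∧ (T + 1) * p.2 < 1
  | Letter.be, p => S < (S + T + 1) * p.1 ∧ 1 < (T + 1) * p.2
  | Letter.ga, p => (S + T + 1) * p.1 < S

/-- The decisive inequalities along a word. -/
def okc (S T : ℝ) : List Letter → ℝ × ℝ → Prop
  | [], _ => True
  | c :: w, p => cond S T c p ∧ okc S T w (fl S T c p)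

/-- The open unit square. -/
def Sq (p : ℝ × ℝ) : Prop := (0 < p.1 ∧ p.1 < 1) ∧ 0 < p.2 ∧ p.2 < 1

end SympB.Quad
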