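import Pool.Agent.W_93b186_h44.FamTools

/-! Machine generated: the connection abb | bgbbag | bab. -/

namespace SympB.Quad

open Letter

set_option maxRecDepth 20000

theorem D_c1 {S T : ℝ} (h4 : 4 ≤ S) (hL : 2*S + S^(2:ℕ) ≤ T) : 0 < S*T^(2:ℕ) + S*T + T^(2:ℕ) - S - 1 := by
  obtain ⟨x, hx, rfl⟩ : ∃ x : ℝ, 0 ≤ x ∧ S = x + 4 := ⟨S - 4, by linarith, by ring⟩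
  obtain ⟨y, hy, rfl⟩ : ∃ y : ℝ, 0 ≤ y ∧ T = 2*(x + 4) + (x + 4)^(2:ℕ) + y := ⟨T - (2*(x + 4) + (x + 4)^(2:ℕ)), by linarith, by ring⟩
  have h : 0 < x^(5:ℕ) + 25*x^(4:ℕ) + 2*x^(3:ℕ)*y + 249*x^(3:ℕ) + 30*x^(2:ℕ)*y + 1234*x^(2:ℕ) + x*y^(2:ℕ) + 149*x*y + 3039*x + 5*y^(2:ℕ) + 244*y + 2971 := by positivity
  refine pos_aux1 (m := 1) (by norm_num) (lt_of_lt_of_eq h ?_)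
  ring

theorem D_c4 {S T : ℝ} (h4 : 4 ≤ S) (hL : 2*S + S^(2:ℕ) ≤ T) : 0 < T^(2:ℕ) - S - 1 := by
  obtain ⟨x, hx, rfl⟩ : ∃ x : ℝ, 0 ≤ x ∧ S = x + 4 := ⟨S - 4, by linarith, by ring⟩
  obtain ⟨y, hy, rfl⟩ : ∃ y : ℝ, 0 ≤ y ∧ T = 2*(x + 4) + (x + 4)^(2:ℕ) + y := ⟨T - (2*(x + 4) + (x + 4)^(2:ℕ)), by linarith, by ring⟩
  have h : 0 < x^(4:ℕ) + 20*x^(3:ℕ) + 2*x^(2:ℕ)*y + 148*x^(2:ℕ) + 20*x*y + 479*x + y^(2:ℕ) + 48*y + 571 := by positivity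
  refine pos_aux1 (m := 1) (by norm_num) (lt_of_lt_of_eq h ?_)
  ring

theorem D_c6 {S T : ℝ} (h4 : 4 ≤ S) (hL : 2*S + S^(2:ℕ) ≤ T) : 0 < -S^(2:ℕ)*T - S^(2:ℕ) - S*T + T^(2:ℕ) - 2*S - 1 := by
  obtain ⟨x, hx, rfl⟩ : ∃ x : ℝ, 0 ≤ x ∧ S = x + 4 := ⟨S - 4, by linarith, by ring⟩
  obtain ⟨y, hy, rfl⟩ : ∃ y : ℝ, 0 ≤ y ∧ T = 2*(x + 4) + (x + 4)^(2:ℕ) + y := ⟨T - (2*(x + 4) + (x + 4)^(2:ℕ)), by linarith, by ring⟩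
  have h : 0 < x^(3:ℕ) + x^(2:ℕ)*y + 13*x^(2:ℕ) + 11*x*y + 54*x + y^(2:ℕ) + 28*y + 71 := by positivity
  refine pos_aux1 (m := 1) (by norm_num) (lt_of_lt_of_eq h ?_)
  ring

theorem D_c7 {S T : ℝ} (h4 : 4 ≤ S) (hL : 2*S + S^(2:ℕ) ≤ T) : 0 < S^(2:ℕ)*T^(3:ℕ) + S^(2:ℕ)*T^(2:ℕ) + 3*S*T^(3:ℕ) - 2*S^(2:ℕ)*T + 3*S*T^(2:ℕ) + 2*T^(3:ℕ) - S^(2:ℕ) - 2*S*T + 3*T^(2:ℕ) - 2*S - 1 := by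
  obtain ⟨x, hx, rfl⟩ : ∃ x : ℝ, 0 ≤ x ∧ S = x + 4 := ⟨S - 4, by linarith, by ring⟩
  obtain ⟨y, hy, rfl⟩ : ∃ y : ℝ, 0 ≤ y ∧ T = 2*(x + 4) + (x + 4)^(2:ℕ) + y := ⟨T - (2*(x + 4) + (x + 4)^(2:ℕ)), by linarith, by ring⟩
  have h : 0 < x^(8:ℕ) + 41*x^(7:ℕ) + 3*x^(6:ℕ)*y + 733*x^(6:ℕ) + 93*x^(5:ℕ)*y + 7463*x^(5:ℕ) + 3*x^(4:ℕ)*y^(2:ℕ) + 1196*x^(4:ℕ)*y + 47325*x^(4:ℕ) + 63*x^(3:ℕ)*y^(2:ℕ) + 8166*x^(3:ℕ)*y + 191378*x^(3:ℕ) + x^(2:ℕ)*y^(3:ℕ) + 493*x^(2:ℕ)*y^(2:ℕ) + 31216*x^(2:ℕ)*y + 481919*x^(2:ℕ) + 11*x*y^(3:ℕ) + 1703*x*y^(2:ℕ) + 63338*x*y + 690838*x + 30*y^(3:ℕ) + 2191*y^(2:ℕ) + 53288*y + 431591 := by positivity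
  refine pos_aux1 (m := 1) (by norm_num) (lt_of_lt_of_eq h ?_)
  ring

theorem D_c8 {S T : ℝ} (h4 : 4 ≤ S) (hL : 2*S + S^(2:ℕ) ≤ T) : 0 < S^(2:ℕ)*T^(4:ℕ) - 2*S^(3:ℕ)*T^(2:ℕ) + 2*S^(2:ℕ)*T^(3:ℕ) + 3*S*T^(4:ℕ) - 4*S^(3:ℕ)*T - 5*S^(2:ℕ)*T^(2:ℕ) + 6*S*T^(3:ℕ) + 2*T^(4:ℕ) - S^(3:ℕ) - 9*S^(2:ℕ)*T + 5*T^(3:ℕ) - 3*S^(2:ℕ) - 6*S*T + 3*T^(2:ℕ) - 3*S - T - 1 := by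
  obtain ⟨x, hx, rfl⟩ : ∃ x : ℝ, 0 ≤ x ∧ S = x + 4 := ⟨S - 4, by linarith, by ring⟩
  obtain ⟨y, hy, rfl⟩ : ∃ y : ℝ, 0 ≤ y ∧ T = 2*(x + 4) + (x + 4)^(2:ℕ) + y := ⟨T - (2*(x + 4) + (x + 4)^(2:ℕ)), by linarith, by ring⟩
  have h : 0 < x^(10:ℕ) + 51*x^(9:ℕ) + 4*x^(8:ℕ)*y + 1168*x^(8:ℕ) + 164*x^(7:ℕ)*y + 15816*x^(7:ℕ) + 6*x^(6:ℕ)*y^(2:ℕ) + 2934*x^(6:ℕ)*y + 140212*x^(6:ℕ) + 186*x^(5:ℕ)*y^(2:ℕ) + 29910*x^(5:ℕ)*y + 850214*x^(5:ℕ) + 4*x^(4:ℕ)*y^(3:ℕ) + 2394*x^(4:ℕ)*y^(2:ℕ) + 190005*x^(4:ℕ)*y + 3570850*x^(4:ℕ) + 84*x^(3:ℕ)*y^(3:ℕ) + 16372*x^(3:ℕ)*y^(2:ℕ) + 770108*x^(3:ℕ)*y + 10255995*x^(3:ℕ) + x^(2:ℕ)*y^(4:ℕ) + 658*x^(2:ℕ)*y^(3:ℕ) + 62734*x^(2:ℕ)*y^(2:ℕ)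 + 1944617*x^(2:ℕ)*y + 19276800*x^(2:ℕ) + 11*x*y^(4:ℕ) + 2278*x*y^(3:ℕ) + 127694*x*y^(2:ℕ) + 2796814*x*y + 21409003*x + 30*y^(4:ℕ) + 2941*y^(3:ℕ) + 107867*y^(2:ℕ) + 1754023*y + 10668139 := by positivity
  refine pos_aux1 (m := 1) (by norm_num) (lt_of_lt_of_eq h ?_)
  ring

theorem D_c11 {S T : ℝ} (h4 : 4 ≤ S) (hL : 2*S + S^(2:ℕ) ≤ T) : 0 < S^(3:ℕ)*T^(4:ℕ) + 3*S^(3:ℕ)*T^(3:ℕ) + 4*S^(2:ℕ)*T^(4:ℕ) + 3*S^(3:ℕ)*T^(2:ℕ) + 12*S^(2:ℕ)*T^(3:ℕ) + 5*S*T^(4:ℕ) + S^(3:ℕ)*T + 12*S^(2:ℕ)*T^(2:ℕ) + 15*S*T^(3:ℕ) + 2*T^(4:ℕ) - S^(3:ℕ) + S^(2:ℕ)*T + 12*S*T^(2:ℕ) + 5*T^(3:ℕ) - 3*S^(2:ℕ) - S*T + 3*T^(2:ℕ) - 3*S - T - 1 := by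
  obtain ⟨x, hx, rfl⟩ : ∃ x : ℝ, 0 ≤ x ∧ S = x + 4 := ⟨S - 4, by linarith, by ring⟩
  obtain ⟨y, hy, rfl⟩ : ∃ y : ℝ, 0 ≤ y ∧ T = 2*(x + 4) + (x + 4)^(2:ℕ) + y := ⟨T - (2*(x + 4) + (x + 4)^(2:ℕ)), by linarith, by ring⟩
  have h : 0 < x^(11:ℕ) + 56*x^(10:ℕ) + 4*x^(9:ℕ)*y + 1424*x^(9:ℕ) + 184*x^(8:ℕ)*y + 21704*x^(8:ℕ) + 6*x^(7:ℕ)*y^(2:ℕ) + 3757*x^(7:ℕ)*y + 220310*x^(7:ℕ) + 216*x^(6:ℕ)*y^(2:ℕ) + 44692*x^(6:ℕ)*y + 1563799*x^(6:ℕ) + 4*x^(5:ℕ)*y^(3:ℕ) + 3327*x^(5:ℕ)*y^(2:ℕ) + 341335*x^(5:ℕ)*y + 7920467*x^(5:ℕ) + 104*x^(4:ℕ)*y^(3:ℕ) + 28422*x^(4:ℕ)*y^(2:ℕ) + 1735747*x^(4:ℕ)*y + 28624550*x^(4:ℕ) + x^(3:ℕ)*y^(4:ℕ) + 1079*x^(3:ℕ)*y^(3:ℕ) + 145440*x^(3:ℕ)*y^(2:ℕ)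 + 5876809*x^(3:ℕ)*y + 72337380*x^(3:ℕ) + 16*x^(2:ℕ)*y^(4:ℕ) + 5584*x^(2:ℕ)*y^(3:ℕ) + 445797*x^(2:ℕ)*y^(2:ℕ) + 12774463*x^(2:ℕ)*y + 121736950*x^(2:ℕ) + 85*x*y^(4:ℕ) + 14415*x*y^(3:ℕ) + 757842*x*y^(2:ℕ) + 16176211*x*y + 122784747*x + 150*y^(4:ℕ) + 14849*y^(3:ℕ) + 551163*y^(2:ℕ) + 9091227*y + 56225611 := by positivity
  refine pos_aux1 (m := 1) (by norm_num) (lt_of_lt_of_eq h ?_)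
  ring

theorem D_c12 {S T : ℝ} (h4 : 4 ≤ S) (hL : 2*S + S^(2:ℕ) ≤ T) : 0 < S^(3:ℕ)*T^(5:ℕ) - S^(4:ℕ)*T^(3:ℕ) + 4*S^(3:ℕ)*T^(4:ℕ) + 4*S^(2:ℕ)*T^(5:ℕ) - 2*S^(4:ℕ)*T^(2:ℕ) + 4*S^(3:ℕ)*T^(3:ℕ) + 16*S^(2:ℕ)*T^(4:ℕ) + 5*S*T^(5:ℕ) - S^(4:ℕ)*T + 23*S^(2:ℕ)*T^(3:ℕ) + 20*S*T^(4:ℕ) + 2*T^(5:ℕ) - S^(4:ℕ) - 5*S^(3:ℕ)*T + 8*S^(2:ℕ)*T^(2:ℕ) + 26*S*T^(3:ℕ) + 7*T^(4:ℕ) - 4*S^(3:ℕ) - 9*S^(2:ℕ)*T + 8*S*T^(2:ℕ) + 8*T^(3:ℕ) - 6*S^(2:ℕ) - 7*S*T + 2*T^(2:ℕ) - 4*S - 2*T - 1 := by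
  obtain ⟨x, hx, rfl⟩ : ∃ x : ℝ, 0 ≤ x ∧ S = x + 4 := ⟨S - 4, by linarith, by ring⟩
  obtain ⟨y, hy, rfl⟩ : ∃ y : ℝ, 0 ≤ y ∧ T = 2*(x + 4) + (x + 4)^(2:ℕ) + y := ⟨T - (2*(x + 4) + (x + 4)^(2:ℕ)), by linarith, by ring⟩
  have h : 0 < x^(13:ℕ) + 66*x^(12:ℕ) + 5*x^(11:ℕ)*y + 2009*x^(11:ℕ) + 280*x^(10:ℕ)*y + 37343*x^(10:ℕ) + 10*x^(9:ℕ)*y^(2:ℕ) + 7121*x^(9:ℕ)*y + 472902*x^(9:ℕ) + 460*x^(8:ℕ)*y^(2:ℕ) + 108563*x^(8:ℕ)*y + 4308464*x^(8:ℕ) + 10*x^(7:ℕ)*y^(3:ℕ) + 9394*x^(7:ℕ)*y^(2:ℕ) + 1102376*x^(7:ℕ)*y + 29053004*x^(7:ℕ) + 360*x^(6:ℕ)*y^(3:ℕ) + 111781*x^(6:ℕ)*y^(2:ℕ) + 7828305*x^(6:ℕ)*y + 146813839*x^(6:ℕ) + 5*x^(5:ℕ)*y^(4:ℕ) + 5546*x^(5:ℕ)*y^(3:ℕ)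 + 854086*x^(5:ℕ)*y^(2:ℕ) + 39670234*x^(5:ℕ)*y + 555962953*x^(5:ℕ) + 130*x^(4:ℕ)*y^(4:ℕ) + 47395*x^(4:ℕ)*y^(3:ℕ) + 4345517*x^(4:ℕ)*y^(2:ℕ) + 143455227*x^(4:ℕ)*y + 1558217330*x^(4:ℕ) + x^(3:ℕ)*y^(5:ℕ) + 1349*x^(3:ℕ)*y^(4:ℕ) + 242652*x^(3:ℕ)*y^(3:ℕ) + 14722576*x^(3:ℕ)*y^(2:ℕ) + 362780435*x^(3:ℕ)*y + 3141771467*x^(3:ℕ) + 16*x^(2:ℕ)*y^(5:ℕ) + 6984*x^(2:ℕ)*y^(4:ℕ) + 744275*x^(2:ℕ)*y^(3:ℕ) + 32027972*x^(2:ℕ)*y^(2:ℕ) + 611014975*x^(2:ℕ)*y + 4315341878*x^(2:ℕ) + 85*x*y^(5:ℕ) + 18040*x*y^(4:ℕ) + 1266346*x*y^(3:ℕ) + 40595032*x*y^(2:ℕ) + 616843113*x*y + 3619039384*x + 150*y^(5:ℕ) + 18599*y^(4:ℕ) + 921984*y^(3:ℕ) + 22840354*y^(2:ℕ) + 282766194*y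 + 1399542719 := by positivity
  refine pos_aux1 (m := 1) (by norm_num) (lt_of_lt_of_eq h ?_)
  ring

theorem D_c14 {S T : ℝ} (h4 : 4 ≤ S) (hL : 2*S + S^(2:ℕ) ≤ T) : 0 < S^(2:ℕ)*T^(2:ℕ) + S^(2:ℕ)*T + S*T^(2:ℕ) - S^(2:ℕ) - S*T - T^(2:ℕ) - 2*S - 2*T - 1 := by
  obtain ⟨x, hx, rfl⟩ : ∃ x : ℝ, 0 ≤ x ∧ S = x + 4 := ⟨S - 4, by linarith, by ring⟩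
  obtain ⟨y, hy, rfl⟩ : ∃ y : ℝ, 0 ≤ y ∧ T = 2*(x + 4) + (x + 4)^(2:ℕ) + y := ⟨T - (2*(x + 4) + (x + 4)^(2:ℕ)), by linarith, by ring⟩
  have h : 0 < x^(6:ℕ) + 29*x^(5:ℕ) + 2*x^(4:ℕ)*y + 348*x^(4:ℕ) + 38*x^(3:ℕ)*y + 2209*x^(3:ℕ) + x^(2:ℕ)*y^(2:ℕ) + 267*x^(2:ℕ)*y + 7811*x^(2:ℕ) + 9*x*y^(2:ℕ) + 819*x*y + 14562*x + 19*y^(2:ℕ) + 922*y + 11159 := by positivity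
  refine pos_aux1 (m := 1) (by norm_num) (lt_of_lt_of_eq h ?_)
  ring

theorem D_c15 {S T : ℝ} (h4 : 4 ≤ S) (hL : 2*S + S^(2:ℕ) ≤ T) : 0 < -S^(2:ℕ) + S + 2*T + 2 := by
  obtain ⟨x, hx, rfl⟩ : ∃ x : ℝ, 0 ≤ x ∧ S = x + 4 := ⟨S - 4, by linarith, by ring⟩
  obtain ⟨y, hy, rfl⟩ : ∃ y : ℝ, 0 ≤ y ∧ T = 2*(x + 4) + (x + 4)^(2:ℕ) + y := ⟨T - (2*(x + 4) + (x + 4)^(2:ℕ)), by linarith, by ring⟩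
  have h : 0 < x^(2:ℕ) + 13*x + 2*y + 38 := by positivity
  refine pos_aux1 (m := 1) (by norm_num) (lt_of_lt_of_eq h ?_)
  ring

theorem D_c16 {S T : ℝ} (h4 : 4 ≤ S) (hL : 2*S + S^(2:ℕ) ≤ T) : 0 < S^(2:ℕ)*T^(3:ℕ) + S^(2:ℕ)*T^(2:ℕ) + 2*S*T^(3:ℕ) - S^(2:ℕ)*T + S*T^(2:ℕ) + S^(2:ℕ) + S*T + T^(2:ℕ) + 2*S + 2*T + 1 := by
  obtain ⟨x, hx, rfl⟩ : ∃ x : ℝ, 0 ≤ x ∧ S = x + 4 := ⟨S - 4, by linarith, by ring⟩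
  obtain ⟨y, hy, rfl⟩ : ∃ y : ℝ, 0 ≤ y ∧ T = 2*(x + 4) + (x + 4)^(2:ℕ) + y := ⟨T - (2*(x + 4) + (x + 4)^(2:ℕ)), by linarith, by ring⟩
  have h : 0 < x^(8:ℕ) + 40*x^(7:ℕ) + 3*x^(6:ℕ)*y + 697*x^(6:ℕ) + 90*x^(5:ℕ)*y + 6909*x^(5:ℕ) + 3*x^(4:ℕ)*y^(2:ℕ) + 1118*x^(4:ℕ)*y + 42604*x^(4:ℕ) + 60*x^(3:ℕ)*y^(2:ℕ) + 7358*x^(3:ℕ)*y + 167335*x^(3:ℕ) + x^(2:ℕ)*y^(3:ℕ) + 445*x^(2:ℕ)*y^(2:ℕ) + 27053*x^(2:ℕ)*y + 408797*x^(2:ℕ) + 10*x*y^(3:ℕ) + 1449*x*y^(2:ℕ) + 52685*x*y + 567966*x + 24*y^(3:ℕ) + 1749*y^(2:ℕ) + 42470*y + 343657 := by positivity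
  refine pos_aux1 (m := 1) (by norm_num) (lt_of_lt_of_eq h ?_)
  ring

theorem D_c17 {S T : ℝ} (h4 : 4 ≤ S) (hL : 2*S + S^(2:ℕ) ≤ T) : 0 < S^(2:ℕ)*T^(4:ℕ) - S^(3:ℕ)*T^(2:ℕ) + 2*S^(2:ℕ)*T^(3:ℕ) + 2*S*T^(4:ℕ) - S^(3:ℕ)*T - S^(2:ℕ)*T^(2:ℕ) + 3*S*T^(3:ℕ) + S^(3:ℕ) + S^(2:ℕ)*T + 3*S*T^(2:ℕ) + T^(3:ℕ) + 3*S^(2:ℕ) + 5*S*T + 3*T^(2:ℕ) + 3*S + 3*T + 1 := by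
  obtain ⟨x, hx, rfl⟩ : ∃ x : ℝ, 0 ≤ x ∧ S = x + 4 := ⟨S - 4, by linarith, by ring⟩
  obtain ⟨y, hy, rfl⟩ : ∃ y : ℝ, 0 ≤ y ∧ T = 2*(x + 4) + (x + 4)^(2:ℕ) + y := ⟨T - (2*(x + 4) + (x + 4)^(2:ℕ)), by linarith, by ring⟩
  have h : 0 < x^(10:ℕ) + 50*x^(9:ℕ) + 4*x^(8:ℕ)*y + 1122*x^(8:ℕ) + 160*x^(7:ℕ)*y + 14878*x^(7:ℕ) + 6*x^(6:ℕ)*y^(2:ℕ) + 2790*x^(6:ℕ)*y + 129086*x^(6:ℕ) + 180*x^(5:ℕ)*y^(2:ℕ) + 27695*x^(5:ℕ)*y + 765636*x^(5:ℕ) + 4*x^(4:ℕ)*y^(3:ℕ) + 2238*x^(4:ℕ)*y^(2:ℕ) + 171141*x^(4:ℕ)*y + 3143646*x^(4:ℕ) + 80*x^(3:ℕ)*y^(3:ℕ) + 14756*x^(3:ℕ)*y^(2:ℕ) + 674081*x^(3:ℕ)*y + 8822664*x^(3:ℕ) + x^(2:ℕ)*y^(4:ℕ) + 594*x^(2:ℕ)*y^(3:ℕ) + 54404*x^(2:ℕ)*y^(2:ℕ)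 + 1652555*x^(2:ℕ)*y + 16197436*x^(2:ℕ) + 10*x*y^(4:ℕ) + 1939*x*y^(3:ℕ) + 106345*x*y^(2:ℕ) + 2305593*x*y + 17566313*x + 24*y^(4:ℕ) + 2349*y^(3:ℕ) + 86119*y^(2:ℕ) + 1401719*y + 8546789 := by positivity
  refine pos_aux1 (m := 1) (by norm_num) (lt_of_lt_of_eq h ?_)
  ring

theorem D_c18 {S T : ℝ} (h4 : 4 ≤ S) (hL : 2*S + S^(2:ℕ) ≤ T) : 0 < S*T^(2:ℕ) - 2*S - 2*T - 2 := by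
  obtain ⟨x, hx, rfl⟩ : ∃ x : ℝ, 0 ≤ x ∧ S = x + 4 := ⟨S - 4, by linarith, by ring⟩
  obtain ⟨y, hy, rfl⟩ : ∃ y : ℝ, 0 ≤ y ∧ T = 2*(x + 4) + (x + 4)^(2:ℕ) + y := ⟨T - (2*(x + 4) + (x + 4)^(2:ℕ)), by linarith, by ring⟩
  have h : 0 < x^(5:ℕ) + 24*x^(4:ℕ) + 2*x^(3:ℕ)*y + 228*x^(3:ℕ) + 28*x^(2:ℕ)*y + 1070*x^(2:ℕ) + x*y^(2:ℕ) + 128*x*y + 2474*x + 4*y^(2:ℕ) + 190*y + 2246 := by positivity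
  refine pos_aux1 (m := 1) (by norm_num) (lt_of_lt_of_eq h ?_)
  ring

theorem D_c19 {S T : ℝ} (h4 : 4 ≤ S) (hL : 2*S + S^(2:ℕ) ≤ T) : 0 < S*T^(2:ℕ) - 2*S^(2:ℕ) - 2*S*T - 4*S - 2*T - 2 := by
  obtain ⟨x, hx, rfl⟩ : ∃ x : ℝ, 0 ≤ x ∧ S = x + 4 := ⟨S - 4, by linarith, by ring⟩
  obtain ⟨y, hy, rfl⟩ : ∃ y : ℝ, 0 ≤ y ∧ T = 2*(x + 4) + (x + 4)^(2:ℕ) + y := ⟨T - (2*(x + 4) + (x + 4)^(2:ℕ)), by linarith, by ring⟩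
  have h : 0 < x^(5:ℕ) + 24*x^(4:ℕ) + 2*x^(3:ℕ)*y + 226*x^(3:ℕ) + 28*x^(2:ℕ)*y + 1040*x^(2:ℕ) + x*y^(2:ℕ) + 126*x*y + 2328*x + 4*y^(2:ℕ) + 182*y + 2014 := by positivity
  refine pos_aux1 (m := 1) (by norm_num) (lt_of_lt_of_eq h ?_)
  ring

theorem D_c20 {S T : ℝ} (h4 : 4 ≤ S) (hL : 2*S + S^(2:ℕ) ≤ T) (hU : T ≤ 19/4 + 2*S + S^(2:ℕ)) : 0 < S^(3:ℕ)*T^(2:ℕ) + 2*S^(3:ℕ)*T + 2*S^(2:ℕ)*T^(2:ℕ) - S*T^(3:ℕ) + 2*S^(3:ℕ) + 8*S^(2:ℕ)*T + 3*S*T^(2:ℕ) + 6*S^(2:ℕ) + 10*S*T + 2*T^(2:ℕ) + 6*S + 4*T + 2 := by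
  obtain ⟨x, hx, rfl⟩ : ∃ x : ℝ, 0 ≤ x ∧ S = x + 4 := ⟨S - 4, by linarith, by ring⟩
  obtain ⟨y, hy, rfl⟩ : ∃ y : ℝ, 0 < y ∧ T = y + (-1/4 + 2*(x + 4) + (x + 4)^(2:ℕ)) := ⟨T - (-1/4 + 2*(x + 4) + (x + 4)^(2:ℕ)), by linarith, by ring⟩
  obtain ⟨z, hz, hz2⟩ : ∃ z : ℝ, 0 < z ∧ z = ((21/4 : ℝ)) - y := ⟨_, by linarith, rfl⟩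
  have hw : 0 < (21/4 : ℝ) := by linarith
  have h : 0 < 336*x^(5:ℕ)*y^(2:ℕ)*z + 672*x^(5:ℕ)*y*z^(2:ℕ) + 336*x^(5:ℕ)*z^(3:ℕ) + 384*x^(4:ℕ)*y^(3:ℕ) + 9216*x^(4:ℕ)*y^(2:ℕ)*z + 17280*x^(4:ℕ)*y*z^(2:ℕ) + 8448*x^(4:ℕ)*z^(3:ℕ) + 7296*x^(3:ℕ)*y^(3:ℕ) + 102528*x^(3:ℕ)*y^(2:ℕ)*z + 179640*x^(3:ℕ)*y*z^(2:ℕ) + 84408*x^(3:ℕ)*z^(3:ℕ) + 54400*x^(2:ℕ)*y^(3:ℕ) + 577152*x^(2:ℕ)*y^(2:ℕ)*z + 941712*x^(2:ℕ)*y*z^(2:ℕ) + 418960*x^(2:ℕ)*z^(3:ℕ) + 186752*x*y^(3:ℕ) + 1644528*x*y^(2:ℕ)*z + 2481840*x*y*z^(2:ℕ) + 1033325*x*z^(3:ℕ) + 249856*y^(3:ℕ) + 1896000*y^(2:ℕ)*z + 2622600*y*z^(2:ℕ) + 1013500*z^(3:ℕ) := by positivity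
  refine pos_aux (m := 64) (w := ((21/4 : ℝ))^(3:ℕ)) (by norm_num) (pow_pos hw 3) (lt_of_lt_of_eq h ?_)
  rw [hz2]; ring

theorem D_c21 {S T : ℝ} (h4 : 4 ≤ S) (hL : 2*S + S^(2:ℕ) ≤ T) : 0 < S*T^(2:ℕ) + S*T + 2*T^(2:ℕ) - S + T - 1 := by
  obtain ⟨x, hx, rfl⟩ : ∃ x : ℝ, 0 ≤ x ∧ S = x + 4 := ⟨S - 4, by linarith, by ring⟩
  obtain ⟨y, hy, rfl⟩ : ∃ y : ℝ, 0 ≤ y ∧ T = 2*(x + 4) + (x + 4)^(2:ℕ) + y := ⟨T - (2*(x + 4) + (x + 4)^(2:ℕ)), by linarith, by ring⟩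
  have h : 0 < x^(5:ℕ) + 26*x^(4:ℕ) + 2*x^(3:ℕ)*y + 269*x^(3:ℕ) + 32*x^(2:ℕ)*y + 1383*x^(2:ℕ) + x*y^(2:ℕ) + 169*x*y + 3529*x + 6*y^(2:ℕ) + 293*y + 3571 := by positivity
  refine pos_aux1 (m := 1) (by norm_num) (lt_of_lt_of_eq h ?_)
  ring

theorem D_c23 {S T : ℝ} (h4 : 4 ≤ S) (hL : 2*S + S^(2:ℕ) ≤ T) : 0 < S*T^(2:ℕ) - S^(2:ℕ) + S*T + 2*T^(2:ℕ) - 2*S + T - 1 := by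
  obtain ⟨x, hx, rfl⟩ : ∃ x : ℝ, 0 ≤ x ∧ S = x + 4 := ⟨S - 4, by linarith, by ring⟩
  obtain ⟨y, hy, rfl⟩ : ∃ y : ℝ, 0 ≤ y ∧ T = 2*(x + 4) + (x + 4)^(2:ℕ) + y := ⟨T - (2*(x + 4) + (x + 4)^(2:ℕ)), by linarith, by ring⟩
  have h : 0 < x^(5:ℕ) + 26*x^(4:ℕ) + 2*x^(3:ℕ)*y + 269*x^(3:ℕ) + 32*x^(2:ℕ)*y + 1382*x^(2:ℕ) + x*y^(2:ℕ) + 169*x*y + 3520*x + 6*y^(2:ℕ) + 293*y + 3551 := by positivity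
  refine pos_aux1 (m := 1) (by norm_num) (lt_of_lt_of_eq h ?_)
  ring

theorem D_c26 {S T : ℝ} (h4 : 4 ≤ S) (hL : 2*S + S^(2:ℕ) ≤ T) : 0 < -S^(3:ℕ)*T^(3:ℕ) - 2*S^(3:ℕ)*T^(2:ℕ) - S^(2:ℕ)*T^(3:ℕ) + S*T^(4:ℕ) - S^(2:ℕ)*T^(2:ℕ) + 2*S*T^(3:ℕ) + 2*S^(3:ℕ) + 6*S^(2:ℕ)*T + 7*S*T^(2:ℕ) + 2*T^(3:ℕ) + 6*S^(2:ℕ) + 12*S*T + 6*T^(2:ℕ) + 6*S + 6*T + 2 := by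
  obtain ⟨x, hx, rfl⟩ : ∃ x : ℝ, 0 ≤ x ∧ S = x + 4 := ⟨S - 4, by linarith, by ring⟩
  obtain ⟨y, hy, rfl⟩ : ∃ y : ℝ, 0 ≤ y ∧ T = 2*(x + 4) + (x + 4)^(2:ℕ) + y := ⟨T - (2*(x + 4) + (x + 4)^(2:ℕ)), by linarith, by ring⟩
  have h : 0 < x^(8:ℕ) + x^(7:ℕ)*y + 38*x^(7:ℕ) + 37*x^(6:ℕ)*y + 633*x^(6:ℕ) + 3*x^(5:ℕ)*y^(2:ℕ) + 578*x^(5:ℕ)*y + 6047*x^(5:ℕ) + 75*x^(4:ℕ)*y^(2:ℕ) + 4960*x^(4:ℕ)*y + 36296*x^(4:ℕ) + 3*x^(3:ℕ)*y^(3:ℕ) + 742*x^(3:ℕ)*y^(2:ℕ) + 25338*x^(3:ℕ)*y + 140414*x^(3:ℕ) + 43*x^(2:ℕ)*y^(3:ℕ) + 3641*x^(2:ℕ)*y^(2:ℕ) + 77310*x^(2:ℕ)*y + 342436*x^(2:ℕ) + x*y^(4:ℕ) + 202*x*y^(3:ℕ) + 8891*x*y^(2:ℕ) + 130868*x*y + 481938*x + 4*y^(4:ℕ) + 314*y^(3:ℕ)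 + 8674*y^(2:ℕ) + 95094*y + 299914 := by positivity
  refine pos_aux1 (m := 1) (by norm_num) (lt_of_lt_of_eq h ?_)
  ring

theorem D_c27 {S T : ℝ} (h4 : 4 ≤ S) (hL : 2*S + S^(2:ℕ) ≤ T) : 0 < S^(2:ℕ)*T^(3:ℕ) + 2*S^(2:ℕ)*T^(2:ℕ) + S*T^(3:ℕ) + S*T^(2:ℕ) - 2*S^(2:ℕ) - 4*S*T - 2*T^(2:ℕ) - 4*S - 4*T - 2 := by
  obtain ⟨x, hx, rfl⟩ : ∃ x : ℝ, 0 ≤ x ∧ S = x + 4 := ⟨S - 4, by linarith, by ring⟩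
  obtain ⟨y, hy, rfl⟩ : ∃ y : ℝ, 0 ≤ y ∧ T = 2*(x + 4) + (x + 4)^(2:ℕ) + y := ⟨T - (2*(x + 4) + (x + 4)^(2:ℕ)), by linarith, by ring⟩
  have h : 0 < x^(8:ℕ) + 39*x^(7:ℕ) + 3*x^(6:ℕ)*y + 664*x^(6:ℕ) + 87*x^(5:ℕ)*y + 6445*x^(5:ℕ) + 3*x^(4:ℕ)*y^(2:ℕ) + 1048*x^(4:ℕ)*y + 38998*x^(4:ℕ) + 57*x^(3:ℕ)*y^(2:ℕ) + 6710*x^(3:ℕ)*y + 150584*x^(3:ℕ) + x^(2:ℕ)*y^(3:ℕ) + 404*x^(2:ℕ)*y^(2:ℕ) + 24072*x^(2:ℕ)*y + 362186*x^(2:ℕ) + 9*x*y^(3:ℕ) + 1265*x*y^(2:ℕ) + 45844*x*y + 495812*x + 20*y^(3:ℕ) + 1474*y^(2:ℕ) + 36172*y + 295534 := by positivity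
  refine pos_aux1 (m := 1) (by norm_num) (lt_of_lt_of_eq h ?_)
  ring

theorem D_c28 {S T : ℝ} (h4 : 4 ≤ S) (hL : 2*S + S^(2:ℕ) ≤ T) : 0 < S^(2:ℕ)*T^(4:ℕ) - S^(3:ℕ)*T^(2:ℕ) + S^(2:ℕ)*T^(3:ℕ) + S*T^(4:ℕ) - 2*S^(3:ℕ)*T - 4*S^(2:ℕ)*T^(2:ℕ) - 2*S^(3:ℕ) - 10*S^(2:ℕ)*T - 9*S*T^(2:ℕ) - 2*T^(3:ℕ) - 6*S^(2:ℕ) - 14*S*T - 6*T^(2:ℕ) - 6*S - 6*T - 2 := by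
  obtain ⟨x, hx, rfl⟩ : ∃ x : ℝ, 0 ≤ x ∧ S = x + 4 := ⟨S - 4, by linarith, by ring⟩
  obtain ⟨y, hy, rfl⟩ : ∃ y : ℝ, 0 ≤ y ∧ T = 2*(x + 4) + (x + 4)^(2:ℕ) + y := ⟨T - (2*(x + 4) + (x + 4)^(2:ℕ)), by linarith, by ring⟩
  have h : 0 < x^(10:ℕ) + 49*x^(9:ℕ) + 4*x^(8:ℕ)*y + 1077*x^(8:ℕ) + 156*x^(7:ℕ)*y + 13981*x^(7:ℕ) + 6*x^(6:ℕ)*y^(2:ℕ) + 2651*x^(6:ℕ)*y + 118686*x^(6:ℕ) + 174*x^(5:ℕ)*y^(2:ℕ) + 25634*x^(5:ℕ)*y + 688301*x^(5:ℕ) + 4*x^(4:ℕ)*y^(3:ℕ) + 2091*x^(4:ℕ)*y^(2:ℕ) + 154226*x^(4:ℕ)*y + 2760900*x^(4:ℕ) + 76*x^(3:ℕ)*y^(3:ℕ) + 13325*x^(3:ℕ)*y^(2:ℕ) + 591012*x^(3:ℕ)*y + 7560880*x^(3:ℕ) + x^(2:ℕ)*y^(4:ℕ) + 537*x^(2:ℕ)*y^(3:ℕ) + 47474*x^(2:ℕ)*y^(2:ℕ)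 + 1408158*x^(2:ℕ)*y + 13523200*x^(2:ℕ) + 9*x*y^(4:ℕ) + 1672*x*y^(3:ℕ) + 89611*x*y^(2:ℕ) + 1906186*x*y + 14256622*x + 20*y^(4:ℕ) + 1934*y^(3:ℕ) + 69958*y^(2:ℕ) + 1121602*y + 6722486 := by positivity
  refine pos_aux1 (m := 1) (by norm_num) (lt_of_lt_of_eq h ?_)
  ring

theorem D_c29 {S T : ℝ} (h4 : 4 ≤ S) (hL : 2*S + S^(2:ℕ) ≤ T) : 0 < -S^(4:ℕ)*T^(4:ℕ) - 3*S^(4:ℕ)*T^(3:ℕ) - 2*S^(3:ℕ)*T^(4:ℕ) + S^(2:ℕ)*T^(5:ℕ) - 3*S^(4:ℕ)*T^(2:ℕ) - 7*S^(3:ℕ)*T^(3:ℕ) + S^(2:ℕ)*T^(4:ℕ) + S*T^(5:ℕ) - 2*S^(4:ℕ)*T - 11*S^(3:ℕ)*T^(2:ℕ) - 7*S^(2:ℕ)*T^(3:ℕ) + S*T^(4:ℕ) - 2*S^(4:ℕ) - 14*S^(3:ℕ)*T - 25*S^(2:ℕ)*T^(2:ℕ) - 11*S*T^(3:ℕ) - 2*T^(4:ℕ) - 8*S^(3:ℕ) - 30*S^(2:ℕ)*T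 - 29*S*T^(2:ℕ) - 8*T^(3:ℕ) - 12*S^(2:ℕ) - 26*S*T - 12*T^(2:ℕ) - 8*S - 8*T - 2 := by
  obtain ⟨x, hx, rfl⟩ : ∃ x : ℝ, 0 ≤ x ∧ S = x + 4 := ⟨S - 4, by linarith, by ring⟩
  obtain ⟨y, hy, rfl⟩ : ∃ y : ℝ, 0 ≤ y ∧ T = 2*(x + 4) + (x + 4)^(2:ℕ) + y := ⟨T - (2*(x + 4) + (x + 4)^(2:ℕ)), by linarith, by ring⟩
  have h : 0 < x^(11:ℕ) + x^(10:ℕ)*y + 52*x^(10:ℕ) + 53*x^(9:ℕ)*y + 1224*x^(9:ℕ) + 4*x^(8:ℕ)*y^(2:ℕ) + 1247*x^(8:ℕ)*y + 17206*x^(8:ℕ) + 162*x^(7:ℕ)*y^(2:ℕ) + 17179*x^(7:ℕ)*y + 160384*x^(7:ℕ) + 6*x^(6:ℕ)*y^(3:ℕ) + 2849*x^(6:ℕ)*y^(2:ℕ) + 153617*x^(6:ℕ)*y + 1039991*x^(6:ℕ) + 178*x^(5:ℕ)*y^(3:ℕ) + 28423*x^(5:ℕ)*y^(2:ℕ) + 932269*x^(5:ℕ)*y + 4781389*x^(5:ℕ)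 + 4*x^(4:ℕ)*y^(4:ℕ) + 2185*x^(4:ℕ)*y^(3:ℕ) + 175950*x^(4:ℕ)*y^(2:ℕ) + 3889732*x^(4:ℕ)*y + 15561852*x^(4:ℕ) + 77*x^(3:ℕ)*y^(4:ℕ) + 14205*x^(3:ℕ)*y^(3:ℕ) + 691986*x^(3:ℕ)*y^(2:ℕ) + 11016784*x^(3:ℕ)*y + 35064158*x^(3:ℕ) + x^(2:ℕ)*y^(5:ℕ) + 551*x^(2:ℕ)*y^(4:ℕ) + 51573*x^(2:ℕ)*y^(3:ℕ) + 1687925*x^(2:ℕ)*y^(2:ℕ) + 20262582*x^(2:ℕ)*y + 51939568*x^(2:ℕ) + 9*x*y^(5:ℕ) + 1737*x*y^(4:ℕ) + 99101*x*y^(3:ℕ) + 2333435*x*y^(2:ℕ) + 21836134*x*y + 45328584*x + 20*y^(5:ℕ) + 2034*y^(4:ℕ) + 78684*y^(3:ℕ) + 1398544*y^(2:ℕ) + 10456624*y + 17544094 := by positivity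
  refine pos_aux1 (m := 1) (by norm_num) (lt_of_lt_of_eq h ?_)
  ring

theorem D_d0 (S T : ℝ) (pT : 0 < T) (c0 : 0 < S*T + 2*S + 2*T + 2) :
    0 < T*(S*T + 2*S + 2*T + 2) := (mul_pos pT c0)

theorem D_d1 (S T : ℝ) (c0 : 0 < S*T + 2*S + 2*T + 2) :
    0 < (S*T + 2*S + 2*T + 2) := c0

theorem D_f0 (S T : ℝ) (pS : 0 < S) (pT : 0 < T) (d0 : 0 < T*(S*T + 2*S + 2*T + 2)) (d1 : 0 < (S*T + 2*S + 2*T + 2)) :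
    fl S T Letter.al (((S*T^(2:ℕ) + S*T + T^(2:ℕ) - S - 1))/(T*(S*T + 2*S + 2*T + 2)), ((S + 1))/((S*T + 2*S + 2*T + 2))) = (((T^(2:ℕ) - S - 1))/(T*(S*T + 2*S + 2*T + 2)), ((S*T + S + 2*T + 1))/((S*T + 2*S + 2*T + 2))) := fl_al' pS pT d0 d1 d0 d1 (by ring) (by ring)

theorem D_f1 (S T : ℝ) (pT : 0 < T) (d0 : 0 < T*(S*T + 2*S + 2*T + 2)) (d1 : 0 < (S*T + 2*S + 2*T + 2)) :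
    fl S T Letter.be (((T^(2:ℕ) - S - 1))/(T*(S*T + 2*S + 2*T + 2)), ((S*T + S + 2*T + 1))/((S*T + 2*S + 2*T + 2))) = (((S*T^(2:ℕ) + S*T + 2*T^(2:ℕ) - S + T - 1))/(T*(S*T + 2*S + 2*T + 2)), ((S + 1)*(T + 1))/((S*T + 2*S + 2*T + 2))) := fl_be' pT d0 d1 d0 d1 (by ring) (by ring)

theorem D_f2 (S T : ℝ) (pT : 0 < T) (d0 : 0 < T*(S*T + 2*S + 2*T + 2)) (d1 : 0 < (S*T + 2*S + 2*T + 2)) :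
    fl S T Letter.be (((S*T^(2:ℕ) + S*T + 2*T^(2:ℕ) - S + T - 1))/(T*(S*T + 2*S + 2*T + 2)), ((S + 1)*(T + 1))/((S*T + 2*S + 2*T + 2))) = (((S*T^(2:ℕ) + S*T + T^(2:ℕ) - S - 1))/(T*(S*T + 2*S + 2*T + 2)), ((S + 1))/((S*T + 2*S + 2*T + 2))) := fl_be' pT d0 d1 d0 d1 (by ring) (by ring)

theorem D_rA (S T : ℝ) (f0 : fl S T Letter.al (((S*T^(2:ℕ) + S*T + T^(2:ℕ) - S - 1))/(T*(S*T + 2*S + 2*T + 2)), ((S + 1))/((S*T + 2*S + 2*T + 2))) = (((T^(2:ℕ) - S - 1))/(T*(S*T + 2*S + 2*T + 2)), ((S*T + S + 2*T + 1))/((S*T + 2*S + 2*T + 2)))) (f1 : fl S T Letter.be (((T^(2:ℕ) - S - 1))/(T*(S*T + 2*S + 2*T + 2)), ((S*T + S + 2*T + 1))/((S*T + 2*S + 2*T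 + 2))) = (((S*T^(2:ℕ) + S*T + 2*T^(2:ℕ) - S + T - 1))/(T*(S*T + 2*S + 2*T + 2)), ((S + 1)*(T + 1))/((S*T + 2*S + 2*T + 2)))) (f2 : fl S T Letter.be (((S*T^(2:ℕ) + S*T + 2*T^(2:ℕ) - S + T - 1))/(T*(S*T + 2*S + 2*T + 2)), ((S + 1)*(T + 1))/((S*T + 2*S + 2*T + 2))) = (((S*T^(2:ℕ) + S*T + T^(2:ℕ) - S - 1))/(T*(S*T + 2*S + 2*T + 2)), ((S + 1))/((S*T + 2*S + 2*T + 2)))) :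
    run S T [Letter.al, Letter.be, Letter.be] (((S*T^(2:ℕ) + S*T + T^(2:ℕ) - S - 1))/(T*(S*T + 2*S + 2*T + 2)), ((S + 1))/((S*T + 2*S + 2*T + 2))) = (((S*T^(2:ℕ) + S*T + T^(2:ℕ) - S - 1))/(T*(S*T + 2*S + 2*T + 2)), ((S + 1))/((S*T + 2*S + 2*T + 2))) := (run_cons' f0 (run_cons' f1 (run_cons' f2 run_nil')))

theorem D_d2 (S T : ℝ) (pA : 0 < (S + 1)) (pB : 0 < (T + 1)) (c0 : 0 < S*T + 2*S + 2*T + 2) :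
    0 < (S + 1)^(2:ℕ)*(T + 1)^(3:ℕ)*(S*T + 2*S + 2*T + 2) := (mul_pos (mul_pos (pow_pos pA 2) (pow_pos pB 3)) c0)

theorem D_d3 (S T : ℝ) (pA : 0 < (S + 1)) (pB : 0 < (T + 1)) (c0 : 0 < S*T + 2*S + 2*T + 2) :
    0 < (S + 1)*(T + 1)^(2:ℕ)*(S*T + 2*S + 2*T + 2) := (mul_pos (mul_pos pA (pow_pos pB 2)) c0)

theorem D_f3 (S T : ℝ) (pS : 0 < S) (pT : 0 < T) (d0 : 0 < T*(S*T + 2*S + 2*T + 2)) (d2 : 0 < (S + 1)^(2:ℕ)*(T + 1)^(3:ℕ)*(S*T + 2*S + 2*T + 2)) (d3 : 0 < (S + 1)*(T + 1)^(2:ℕ)*(S*T + 2*S + 2*T + 2)) :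
    fl S T Letter.al (((S*T^(2:ℕ) + S*T + T^(2:ℕ) - S - 1))/(T*(S*T + 2*S + 2*T + 2)), ((S^(3:ℕ)*T^(3:ℕ) + 2*S^(3:ℕ)*T^(2:ℕ) + 2*S^(2:ℕ)*T^(3:ℕ) + S^(3:ℕ)*T + 4*S^(2:ℕ)*T^(2:ℕ) + S*T^(3:ℕ) + S^(3:ℕ) + 5*S^(2:ℕ)*T + 5*S*T^(2:ℕ) + T^(3:ℕ) + 3*S^(2:ℕ) + 7*S*T + 3*T^(2:ℕ) + 3*S + 3*T + 1))/((S + 1)^(2:ℕ)*(T + 1)^(3:ℕ)*(S*T + 2*S + 2*T + 2))) = (((T^(2:ℕ) - S - 1))/(T*(S*T + 2*S + 2*T + 2)), ((S^(2:ℕ)*T^(3:ℕ) + 2*S^(2:ℕ)*T^(2:ℕ) + 3*S*T^(3:ℕ) + S^(2:ℕ)*T + 6*S*T^(2:ℕ) + 2*T^(3:ℕ) + S^(2:ℕ) + 5*S*T + 5*T^(2:ℕ) + 2*S + 4*T + 1))/((S + 1)*(T + 1)^(2:ℕ)*(S*T + 2*S + 2*T + 2))) := fl_al' pS pT d0 d2 d0 d3 (by ring) (by ring)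

theorem D_d4 (S T : ℝ) (pT : 0 < T) (pA : 0 < (S + 1)) (pB : 0 < (T + 1)) (c0 : 0 < S*T + 2*S + 2*T + 2) :
    0 < T*(S + 1)*(T + 1)*(S*T + 2*S + 2*T + 2) := (mul_pos (mul_pos (mul_pos pT pA) pB) c0)

theorem D_f4 (S T : ℝ) (pT : 0 < T) (d0 : 0 < T*(S*T + 2*S + 2*T + 2)) (d1 : 0 < (S*T + 2*S + 2*T + 2)) (d3 : 0 < (S + 1)*(T + 1)^(2:ℕ)*(S*T + 2*S + 2*T + 2)) (d4 : 0 < T*(S + 1)*(T + 1)*(S*T + 2*S + 2*T + 2)) :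
    fl S T Letter.be (((T^(2:ℕ) - S - 1))/(T*(S*T + 2*S + 2*T + 2)), ((S^(2:ℕ)*T^(3:ℕ) + 2*S^(2:ℕ)*T^(2:ℕ) + 3*S*T^(3:ℕ) + S^(2:ℕ)*T + 6*S*T^(2:ℕ) + 2*T^(3:ℕ) + S^(2:ℕ) + 5*S*T + 5*T^(2:ℕ) + 2*S + 4*T + 1))/((S + 1)*(T + 1)^(2:ℕ)*(S*T + 2*S + 2*T + 2))) = (((S^(2:ℕ)*T^(3:ℕ) + S^(2:ℕ)*T^(2:ℕ) + 3*S*T^(3:ℕ) - 2*S^(2:ℕ)*T + 3*S*T^(2:ℕ) + 2*T^(3:ℕ) - S^(2:ℕ) - 2*S*T + 3*T^(2:ℕ) - 2*S - 1))/(T*(S + 1)*(T + 1)*(S*T + 2*S + 2*T + 2)), ((S + 1)*(T + 1))/((S*T + 2*S + 2*T + 2))) := fl_be' pT d0 d3 d4 d1 (by ring) (by ring)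

theorem D_f5 (S T : ℝ) (pT : 0 < T) (d0 : 0 < T*(S*T + 2*S + 2*T + 2)) (d1 : 0 < (S*T + 2*S + 2*T + 2)) (d3 : 0 < (S + 1)*(T + 1)^(2:ℕ)*(S*T + 2*S + 2*T + 2)) (d4 : 0 < T*(S + 1)*(T + 1)*(S*T + 2*S + 2*T + 2)) :
    fl S T Letter.be (((S^(2:ℕ)*T^(3:ℕ) + S^(2:ℕ)*T^(2:ℕ) + 3*S*T^(3:ℕ) - 2*S^(2:ℕ)*T + 3*S*T^(2:ℕ) + 2*T^(3:ℕ) - S^(2:ℕ) - 2*S*T + 3*T^(2:ℕ) - 2*S - 1))/(T*(S + 1)*(T + 1)*(S*T + 2*S + 2*T + 2)), ((S + 1)*(T + 1))/((S*T + 2*S + 2*T + 2))) = (((S*T^(2:ℕ) + S*T + T^(2:ℕ) - S - 1))/(T*(S*T + 2*S + 2*T + 2)), ((2*S^(2:ℕ)*T^(2:ℕ) + 4*S^(2:ℕ)*T + 4*S*T^(2:ℕ) + S^(2:ℕ) + 6*S*T + T^(2:ℕ) + 2*S + 2*T + 1))/((S + 1)*(T + 1)^(2:ℕ)*(S*T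 + 2*S + 2*T + 2))) := fl_be' pT d4 d1 d0 d3 (by ring) (by ring)

theorem D_rP (S T : ℝ) (f3 : fl S T Letter.al (((S*T^(2:ℕ) + S*T + T^(2:ℕ) - S - 1))/(T*(S*T + 2*S + 2*T + 2)), ((S^(3:ℕ)*T^(3:ℕ) + 2*S^(3:ℕ)*T^(2:ℕ) + 2*S^(2:ℕ)*T^(3:ℕ) + S^(3:ℕ)*T + 4*S^(2:ℕ)*T^(2:ℕ) + S*T^(3:ℕ) + S^(3:ℕ) + 5*S^(2:ℕ)*T + 5*S*T^(2:ℕ) + T^(3:ℕ) + 3*S^(2:ℕ) + 7*S*T + 3*T^(2:ℕ) + 3*S + 3*T + 1))/((S + 1)^(2:ℕ)*(T + 1)^(3:ℕ)*(S*T + 2*S + 2*T + 2))) = (((T^(2:ℕ) - S - 1))/(T*(S*T + 2*S + 2*T + 2)), ((S^(2:ℕ)*T^(3:ℕ) + 2*S^(2:ℕ)*T^(2:ℕ) + 3*S*T^(3:ℕ) + S^(2:ℕ)*T + 6*S*T^(2:ℕ) + 2*T^(3:ℕ) + S^(2:ℕ) + 5*S*T + 5*T^(2:ℕ) + 2*S + 4*T + 1))/((S + 1)*(T + 1)^(2:ℕ)*(S*T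 + 2*S + 2*T + 2)))) (f4 : fl S T Letter.be (((T^(2:ℕ) - S - 1))/(T*(S*T + 2*S + 2*T + 2)), ((S^(2:ℕ)*T^(3:ℕ) + 2*S^(2:ℕ)*T^(2:ℕ) + 3*S*T^(3:ℕ) + S^(2:ℕ)*T + 6*S*T^(2:ℕ) + 2*T^(3:ℕ) + S^(2:ℕ) + 5*S*T + 5*T^(2:ℕ) + 2*S + 4*T + 1))/((S + 1)*(T + 1)^(2:ℕ)*(S*T + 2*S + 2*T + 2))) = (((S^(2:ℕ)*T^(3:ℕ) + S^(2:ℕ)*T^(2:ℕ) + 3*S*T^(3:ℕ) - 2*S^(2:ℕ)*T + 3*S*T^(2:ℕ) + 2*T^(3:ℕ) - S^(2:ℕ) - 2*S*T + 3*T^(2:ℕ) - 2*S - 1))/(T*(S + 1)*(T + 1)*(S*T + 2*S + 2*T + 2)), ((S + 1)*(T + 1))/((S*T + 2*S + 2*T + 2)))) (f5 : fl S T Letter.be (((S^(2:ℕ)*T^(3:ℕ) + S^(2:ℕ)*T^(2:ℕ) + 3*S*T^(3:ℕ) - 2*S^(2:ℕ)*T + 3*S*T^(2:ℕ) + 2*T^(3:ℕ) - S^(2:ℕ) - 2*S*T + 3*T^(2:ℕ)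 - 2*S - 1))/(T*(S + 1)*(T + 1)*(S*T + 2*S + 2*T + 2)), ((S + 1)*(T + 1))/((S*T + 2*S + 2*T + 2))) = (((S*T^(2:ℕ) + S*T + T^(2:ℕ) - S - 1))/(T*(S*T + 2*S + 2*T + 2)), ((2*S^(2:ℕ)*T^(2:ℕ) + 4*S^(2:ℕ)*T + 4*S*T^(2:ℕ) + S^(2:ℕ) + 6*S*T + T^(2:ℕ) + 2*S + 2*T + 1))/((S + 1)*(T + 1)^(2:ℕ)*(S*T + 2*S + 2*T + 2)))) :
    run S T [Letter.al, Letter.be, Letter.be] (((S*T^(2:ℕ) + S*T + T^(2:ℕ) - S - 1))/(T*(S*T + 2*S + 2*T + 2)), ((S^(3:ℕ)*T^(3:ℕ) + 2*S^(3:ℕ)*T^(2:ℕ) + 2*S^(2:ℕ)*T^(3:ℕ) + S^(3:ℕ)*T + 4*S^(2:ℕ)*T^(2:ℕ) + S*T^(3:ℕ) + S^(3:ℕ) + 5*S^(2:ℕ)*T + 5*S*T^(2:ℕ) + T^(3:ℕ) + 3*S^(2:ℕ) + 7*S*T + 3*T^(2:ℕ) + 3*S + 3*T + 1))/((S + 1)^(2:ℕ)*(T +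 1)^(3:ℕ)*(S*T + 2*S + 2*T + 2))) = (((S*T^(2:ℕ) + S*T + T^(2:ℕ) - S - 1))/(T*(S*T + 2*S + 2*T + 2)), ((2*S^(2:ℕ)*T^(2:ℕ) + 4*S^(2:ℕ)*T + 4*S*T^(2:ℕ) + S^(2:ℕ) + 6*S*T + T^(2:ℕ) + 2*S + 2*T + 1))/((S + 1)*(T + 1)^(2:ℕ)*(S*T + 2*S + 2*T + 2))) := (run_cons' f3 (run_cons' f4 (run_cons' f5 run_nil')))

theorem D_d5 (S T : ℝ) (c1 : 0 < S*T^(2:ℕ) + S*T + T^(2:ℕ) - S - 1) :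
    0 < (S*T^(2:ℕ) + S*T + T^(2:ℕ) - S - 1) := c1

theorem D_q0 (S T : ℝ) (d0 : 0 < T*(S*T + 2*S + 2*T + 2)) (d5 : 0 < (S*T^(2:ℕ) + S*T + T^(2:ℕ) - S - 1)) :
    0 < ((S*T^(2:ℕ) + S*T + T^(2:ℕ) - S - 1))/(T*(S*T + 2*S + 2*T + 2)) := div_pos d5 d0

theorem D_d6 (S T : ℝ) (pB : 0 < (T + 1)) (pU : 0 < (S + T + 1)) :
    0 < (T + 1)*(S + T + 1) := (mul_pos pB pU)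

theorem D_q1 (S T : ℝ) (d0 : 0 < T*(S*T + 2*S + 2*T + 2)) (d6 : 0 < (T + 1)*(S + T + 1)) :
    ((S*T^(2:ℕ) + S*T + T^(2:ℕ) - S - 1))/(T*(S*T + 2*S + 2*T + 2)) < 1 := rlt1 d0 d6 d0 (by ring)

theorem D_d7 (S T : ℝ) (c2 : 0 < S^(3:ℕ)*T^(3:ℕ) + 2*S^(3:ℕ)*T^(2:ℕ) + 2*S^(2:ℕ)*T^(3:ℕ) + S^(3:ℕ)*T + 4*S^(2:ℕ)*T^(2:ℕ) + S*T^(3:ℕ) + S^(3:ℕ) + 5*S^(2:ℕ)*T + 5*S*T^(2:ℕ) + T^(3:ℕ) + 3*S^(2:ℕ) + 7*S*T + 3*T^(2:ℕ) + 3*S + 3*T + 1) :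
    0 < (S^(3:ℕ)*T^(3:ℕ) + 2*S^(3:ℕ)*T^(2:ℕ) + 2*S^(2:ℕ)*T^(3:ℕ) + S^(3:ℕ)*T + 4*S^(2:ℕ)*T^(2:ℕ) + S*T^(3:ℕ) + S^(3:ℕ) + 5*S^(2:ℕ)*T + 5*S*T^(2:ℕ) + T^(3:ℕ) + 3*S^(2:ℕ) + 7*S*T + 3*T^(2:ℕ) + 3*S + 3*T + 1) := c2

theorem D_q2 (S T : ℝ) (d2 : 0 < (S + 1)^(2:ℕ)*(T + 1)^(3:ℕ)*(S*T + 2*S + 2*T + 2)) (d7 : 0 < (S^(3:ℕ)*T^(3:ℕ) + 2*S^(3:ℕ)*T^(2:ℕ) + 2*S^(2:ℕ)*T^(3:ℕ) + S^(3:ℕ)*T + 4*S^(2:ℕ)*T^(2:ℕ) + S*T^(3:ℕ) + S^(3:ℕ) + 5*S^(2:ℕ)*T + 5*S*T^(2:ℕ) + T^(3:ℕ) + 3*S^(2:ℕ) + 7*S*T + 3*T^(2:ℕ) + 3*S + 3*T + 1)) :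
    0 < ((S^(3:ℕ)*T^(3:ℕ) + 2*S^(3:ℕ)*T^(2:ℕ) + 2*S^(2:ℕ)*T^(3:ℕ) + S^(3:ℕ)*T + 4*S^(2:ℕ)*T^(2:ℕ) + S*T^(3:ℕ) + S^(3:ℕ) + 5*S^(2:ℕ)*T + 5*S*T^(2:ℕ) + T^(3:ℕ) + 3*S^(2:ℕ) + 7*S*T + 3*T^(2:ℕ) + 3*S + 3*T + 1))/((S + 1)^(2:ℕ)*(T + 1)^(3:ℕ)*(S*T + 2*S + 2*T + 2)) := div_pos d7 d2

theorem D_d8 (S T : ℝ) (c3 : 0 < S^(3:ℕ)*T^(4:ℕ) + 4*S^(3:ℕ)*T^(3:ℕ) + 4*S^(2:ℕ)*T^(4:ℕ) + 7*S^(3:ℕ)*T^(2:ℕ) + 16*S^(2:ℕ)*T^(3:ℕ) + 5*S*T^(4:ℕ) + 6*S^(3:ℕ)*T + 26*S^(2:ℕ)*T^(2:ℕ) + 20*S*T^(3:ℕ) + 2*T^(4:ℕ) + S^(3:ℕ) + 17*S^(2:ℕ)*T + 28*S*T^(2:ℕ) + 7*T^(3:ℕ) + 3*S^(2:ℕ) + 16*S*T + 9*T^(2:ℕ) + 3*S + 5*T + 1) :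
    0 < (S^(3:ℕ)*T^(4:ℕ) + 4*S^(3:ℕ)*T^(3:ℕ) + 4*S^(2:ℕ)*T^(4:ℕ) + 7*S^(3:ℕ)*T^(2:ℕ) + 16*S^(2:ℕ)*T^(3:ℕ) + 5*S*T^(4:ℕ) + 6*S^(3:ℕ)*T + 26*S^(2:ℕ)*T^(2:ℕ) + 20*S*T^(3:ℕ) + 2*T^(4:ℕ) + S^(3:ℕ) + 17*S^(2:ℕ)*T + 28*S*T^(2:ℕ) + 7*T^(3:ℕ) + 3*S^(2:ℕ) + 16*S*T + 9*T^(2:ℕ) + 3*S + 5*T + 1) := c3

theorem D_q3 (S T : ℝ) (d2 : 0 < (S + 1)^(2:ℕ)*(T + 1)^(3:ℕ)*(S*T + 2*S + 2*T + 2)) (d8 : 0 < (S^(3:ℕ)*T^(4:ℕ) + 4*S^(3:ℕ)*T^(3:ℕ) + 4*S^(2:ℕ)*T^(4:ℕ) + 7*S^(3:ℕ)*T^(2:ℕ) + 16*S^(2:ℕ)*T^(3:ℕ) + 5*S*T^(4:ℕ) + 6*S^(3:ℕ)*T + 26*S^(2:ℕ)*T^(2:ℕ) + 20*S*T^(3:ℕ) + 2*T^(4:ℕ) + S^(3:ℕ) + 17*S^(2:ℕ)*T + 28*S*T^(2:ℕ) + 7*T^(3:ℕ) + 3*S^(2:ℕ) + 16*S*T + 9*T^(2:ℕ)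 + 3*S + 5*T + 1)) :
    ((S^(3:ℕ)*T^(3:ℕ) + 2*S^(3:ℕ)*T^(2:ℕ) + 2*S^(2:ℕ)*T^(3:ℕ) + S^(3:ℕ)*T + 4*S^(2:ℕ)*T^(2:ℕ) + S*T^(3:ℕ) + S^(3:ℕ) + 5*S^(2:ℕ)*T + 5*S*T^(2:ℕ) + T^(3:ℕ) + 3*S^(2:ℕ) + 7*S*T + 3*T^(2:ℕ) + 3*S + 3*T + 1))/((S + 1)^(2:ℕ)*(T + 1)^(3:ℕ)*(S*T + 2*S + 2*T + 2)) < 1 := rlt1 d2 d8 d2 (by ring)

theorem D_sP (S T : ℝ) (q0 : 0 < ((S*T^(2:ℕ) + S*T + T^(2:ℕ) - S - 1))/(T*(S*T + 2*S + 2*T + 2))) (q1 : ((S*T^(2:ℕ) + S*T + T^(2:ℕ) - S - 1))/(T*(S*T + 2*S + 2*T + 2)) < 1) (q2 : 0 < ((S^(3:ℕ)*T^(3:ℕ) + 2*S^(3:ℕ)*T^(2:ℕ) + 2*S^(2:ℕ)*T^(3:ℕ) + S^(3:ℕ)*T + 4*S^(2:ℕ)*T^(2:ℕ) + S*T^(3:ℕ) + S^(3:ℕ) + 5*S^(2:ℕ)*T + 5*S*T^(2:ℕ) + T^(3:ℕ)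 + 3*S^(2:ℕ) + 7*S*T + 3*T^(2:ℕ) + 3*S + 3*T + 1))/((S + 1)^(2:ℕ)*(T + 1)^(3:ℕ)*(S*T + 2*S + 2*T + 2))) (q3 : ((S^(3:ℕ)*T^(3:ℕ) + 2*S^(3:ℕ)*T^(2:ℕ) + 2*S^(2:ℕ)*T^(3:ℕ) + S^(3:ℕ)*T + 4*S^(2:ℕ)*T^(2:ℕ) + S*T^(3:ℕ) + S^(3:ℕ) + 5*S^(2:ℕ)*T + 5*S*T^(2:ℕ) + T^(3:ℕ) + 3*S^(2:ℕ) + 7*S*T + 3*T^(2:ℕ) + 3*S + 3*T + 1))/((S + 1)^(2:ℕ)*(T + 1)^(3:ℕ)*(S*T + 2*S + 2*T + 2)) < 1) :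
    Sq (((S*T^(2:ℕ) + S*T + T^(2:ℕ) - S - 1))/(T*(S*T + 2*S + 2*T + 2)), ((S^(3:ℕ)*T^(3:ℕ) + 2*S^(3:ℕ)*T^(2:ℕ) + 2*S^(2:ℕ)*T^(3:ℕ) + S^(3:ℕ)*T + 4*S^(2:ℕ)*T^(2:ℕ) + S*T^(3:ℕ) + S^(3:ℕ) + 5*S^(2:ℕ)*T + 5*S*T^(2:ℕ) + T^(3:ℕ) + 3*S^(2:ℕ) + 7*S*T + 3*T^(2:ℕ) + 3*S + 3*T + 1))/((S + 1)^(2:ℕ)*(T + 1)^(3:ℕ)*(S*T + 2*S + 2*T + 2))) := ⟨⟨q0, q1⟩, q2, q3⟩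

theorem D_d9 (S T : ℝ) (pA : 0 < (S + 1)) (pB : 0 < (T + 1)) (c4 : 0 < T^(2:ℕ) - S - 1) :
    0 < (S + 1)*(T + 1)*(T^(2:ℕ) - S - 1) := (mul_pos (mul_pos pA pB) c4)

theorem D_g0 (S T : ℝ) (d0 : 0 < T*(S*T + 2*S + 2*T + 2)) (d9 : 0 < (S + 1)*(T + 1)*(T^(2:ℕ) - S - 1)) :
    S < (S + T + 1) * (((S*T^(2:ℕ) + S*T + T^(2:ℕ) - S - 1))/(T*(S*T + 2*S + 2*T + 2))) := rgt d0 d9 d0 (by ring)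

theorem D_d10 (S T : ℝ) (pU : 0 < (S + T + 1)) (c5 : 0 < 2*S^(2:ℕ)*T^(2:ℕ) + 4*S^(2:ℕ)*T + 4*S*T^(2:ℕ) + S^(2:ℕ) + 6*S*T + T^(2:ℕ) + 2*S + 2*T + 1) :
    0 < (S + T + 1)*(2*S^(2:ℕ)*T^(2:ℕ) + 4*S^(2:ℕ)*T + 4*S*T^(2:ℕ) + S^(2:ℕ) + 6*S*T + T^(2:ℕ) + 2*S + 2*T + 1) := (mul_pos pU c5)

theorem D_d11 (S T : ℝ) (pA : 0 < (S + 1)) (pB : 0 < (T + 1)) (c0 : 0 < S*T + 2*S + 2*T + 2) :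
    0 < (S + 1)^(2:ℕ)*(T + 1)^(2:ℕ)*(S*T + 2*S + 2*T + 2) := (mul_pos (mul_pos (pow_pos pA 2) (pow_pos pB 2)) c0)

theorem D_g1 (S T : ℝ) (d2 : 0 < (S + 1)^(2:ℕ)*(T + 1)^(3:ℕ)*(S*T + 2*S + 2*T + 2)) (d10 : 0 < (S + T + 1)*(2*S^(2:ℕ)*T^(2:ℕ) + 4*S^(2:ℕ)*T + 4*S*T^(2:ℕ) + S^(2:ℕ) + 6*S*T + T^(2:ℕ) + 2*S + 2*T + 1)) (d11 : 0 < (S + 1)^(2:ℕ)*(T + 1)^(2:ℕ)*(S*T + 2*S + 2*T + 2)) :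
    (T + 1) * (((S^(3:ℕ)*T^(3:ℕ) + 2*S^(3:ℕ)*T^(2:ℕ) + 2*S^(2:ℕ)*T^(3:ℕ) + S^(3:ℕ)*T + 4*S^(2:ℕ)*T^(2:ℕ) + S*T^(3:ℕ) + S^(3:ℕ) + 5*S^(2:ℕ)*T + 5*S*T^(2:ℕ) + T^(3:ℕ) + 3*S^(2:ℕ) + 7*S*T + 3*T^(2:ℕ) + 3*S + 3*T + 1))/((S + 1)^(2:ℕ)*(T + 1)^(3:ℕ)*(S*T + 2*S + 2*T + 2))) < 1 := rlt d2 d10 d11 (by ring)

theorem D_oP_0 (S T : ℝ) (g0 : S < (S + T + 1) * (((S*T^(2:ℕ) + S*T + T^(2:ℕ) - S - 1))/(T*(S*T + 2*S + 2*T + 2)))) (g1 : (T + 1) * (((S^(3:ℕ)*T^(3:ℕ) + 2*S^(3:ℕ)*T^(2:ℕ) + 2*S^(2:ℕ)*T^(3:ℕ) + S^(3:ℕ)*T + 4*S^(2:ℕ)*T^(2:ℕ) + S*T^(3:ℕ) + S^(3:ℕ) + 5*S^(2:ℕ)*T + 5*S*T^(2:ℕ) + T^(3:ℕ) + 3*S^(2:ℕ) + 7*S*T + 3*T^(2:ℕ) + 3*S + 3*T + 1))/((S + 1)^(2:ℕ)*(T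 + 1)^(3:ℕ)*(S*T + 2*S + 2*T + 2))) < 1) :
    cond S T Letter.al (((S*T^(2:ℕ) + S*T + T^(2:ℕ) - S - 1))/(T*(S*T + 2*S + 2*T + 2)), ((S^(3:ℕ)*T^(3:ℕ) + 2*S^(3:ℕ)*T^(2:ℕ) + 2*S^(2:ℕ)*T^(3:ℕ) + S^(3:ℕ)*T + 4*S^(2:ℕ)*T^(2:ℕ) + S*T^(3:ℕ) + S^(3:ℕ) + 5*S^(2:ℕ)*T + 5*S*T^(2:ℕ) + T^(3:ℕ) + 3*S^(2:ℕ) + 7*S*T + 3*T^(2:ℕ) + 3*S + 3*T + 1))/((S + 1)^(2:ℕ)*(T + 1)^(3:ℕ)*(S*T + 2*S + 2*T + 2))) := ⟨g0, g1⟩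

theorem D_d12 (S T : ℝ) (pB : 0 < (T + 1)) (c6 : 0 < -S^(2:ℕ)*T - S^(2:ℕ) - S*T + T^(2:ℕ) - 2*S - 1) :
    0 < (T + 1)*(-S^(2:ℕ)*T - S^(2:ℕ) - S*T + T^(2:ℕ) - 2*S - 1) := (mul_pos pB c6)

theorem D_g2 (S T : ℝ) (d0 : 0 < T*(S*T + 2*S + 2*T + 2)) (d12 : 0 < (T + 1)*(-S^(2:ℕ)*T - S^(2:ℕ) - S*T + T^(2:ℕ) - 2*S - 1)) :
    S < (S + T + 1) * (((T^(2:ℕ) - S - 1))/(T*(S*T + 2*S + 2*T + 2))) := rgt d0 d12 d0 (by ring)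

theorem D_d13 (S T : ℝ) (c7 : 0 < S^(2:ℕ)*T^(3:ℕ) + S^(2:ℕ)*T^(2:ℕ) + 3*S*T^(3:ℕ) - 2*S^(2:ℕ)*T + 3*S*T^(2:ℕ) + 2*T^(3:ℕ) - S^(2:ℕ) - 2*S*T + 3*T^(2:ℕ) - 2*S - 1) :
    0 < (S^(2:ℕ)*T^(3:ℕ) + S^(2:ℕ)*T^(2:ℕ) + 3*S*T^(3:ℕ) - 2*S^(2:ℕ)*T + 3*S*T^(2:ℕ) + 2*T^(3:ℕ) - S^(2:ℕ) - 2*S*T + 3*T^(2:ℕ) - 2*S - 1) := c7

theorem D_d14 (S T : ℝ) (pA : 0 < (S + 1)) (pB : 0 < (T + 1)) (c0 : 0 < S*T + 2*S + 2*T + 2) :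
    0 < (S + 1)*(T + 1)*(S*T + 2*S + 2*T + 2) := (mul_pos (mul_pos pA pB) c0)

theorem D_g3 (S T : ℝ) (d3 : 0 < (S + 1)*(T + 1)^(2:ℕ)*(S*T + 2*S + 2*T + 2)) (d13 : 0 < (S^(2:ℕ)*T^(3:ℕ) + S^(2:ℕ)*T^(2:ℕ) + 3*S*T^(3:ℕ) - 2*S^(2:ℕ)*T + 3*S*T^(2:ℕ) + 2*T^(3:ℕ) - S^(2:ℕ) - 2*S*T + 3*T^(2:ℕ) - 2*S - 1)) (d14 : 0 < (S + 1)*(T + 1)*(S*T + 2*S + 2*T + 2)) :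
    1 < (T + 1) * (((S^(2:ℕ)*T^(3:ℕ) + 2*S^(2:ℕ)*T^(2:ℕ) + 3*S*T^(3:ℕ) + S^(2:ℕ)*T + 6*S*T^(2:ℕ) + 2*T^(3:ℕ) + S^(2:ℕ) + 5*S*T + 5*T^(2:ℕ) + 2*S + 4*T + 1))/((S + 1)*(T + 1)^(2:ℕ)*(S*T + 2*S + 2*T + 2))) := rgt d3 d13 d14 (by ring)

theorem D_oP_1 (S T : ℝ) (g2 : S < (S + T + 1) * (((T^(2:ℕ) - S - 1))/(T*(S*T + 2*S + 2*T + 2)))) (g3 : 1 < (T + 1) * (((S^(2:ℕ)*T^(3:ℕ) + 2*S^(2:ℕ)*T^(2:ℕ) + 3*S*T^(3:ℕ) + S^(2:ℕ)*T + 6*S*T^(2:ℕ) + 2*T^(3:ℕ) + S^(2:ℕ) + 5*S*T + 5*T^(2:ℕ) + 2*S + 4*T + 1))/((S + 1)*(T + 1)^(2:ℕ)*(S*T + 2*S + 2*T + 2)))) :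
    cond S T Letter.be (((T^(2:ℕ) - S - 1))/(T*(S*T + 2*S + 2*T + 2)), ((S^(2:ℕ)*T^(3:ℕ) + 2*S^(2:ℕ)*T^(2:ℕ) + 3*S*T^(3:ℕ) + S^(2:ℕ)*T + 6*S*T^(2:ℕ) + 2*T^(3:ℕ) + S^(2:ℕ) + 5*S*T + 5*T^(2:ℕ) + 2*S + 4*T + 1))/((S + 1)*(T + 1)^(2:ℕ)*(S*T + 2*S + 2*T + 2))) := ⟨g2, g3⟩

theorem D_d15 (S T : ℝ) (c8 : 0 < S^(2:ℕ)*T^(4:ℕ) - 2*S^(3:ℕ)*T^(2:ℕ) + 2*S^(2:ℕ)*T^(3:ℕ) + 3*S*T^(4:ℕ) - 4*S^(3:ℕ)*T - 5*S^(2:ℕ)*T^(2:ℕ) + 6*S*T^(3:ℕ) + 2*T^(4:ℕ) - S^(3:ℕ) - 9*S^(2:ℕ)*T + 5*T^(3:ℕ) - 3*S^(2:ℕ) - 6*S*T + 3*T^(2:ℕ) - 3*S - T - 1) :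
    0 < (S^(2:ℕ)*T^(4:ℕ) - 2*S^(3:ℕ)*T^(2:ℕ) + 2*S^(2:ℕ)*T^(3:ℕ) + 3*S*T^(4:ℕ) - 4*S^(3:ℕ)*T - 5*S^(2:ℕ)*T^(2:ℕ) + 6*S*T^(3:ℕ) + 2*T^(4:ℕ) - S^(3:ℕ) - 9*S^(2:ℕ)*T + 5*T^(3:ℕ) - 3*S^(2:ℕ) - 6*S*T + 3*T^(2:ℕ) - 3*S - T - 1) := c8

theorem D_g4 (S T : ℝ) (d4 : 0 < T*(S + 1)*(T + 1)*(S*T + 2*S + 2*T + 2)) (d15 : 0 < (S^(2:ℕ)*T^(4:ℕ) - 2*S^(3:ℕ)*T^(2:ℕ) + 2*S^(2:ℕ)*T^(3:ℕ) + 3*S*T^(4:ℕ) - 4*S^(3:ℕ)*T - 5*S^(2:ℕ)*T^(2:ℕ) + 6*S*T^(3:ℕ) + 2*T^(4:ℕ) - S^(3:ℕ) - 9*S^(2:ℕ)*T + 5*T^(3:ℕ) - 3*S^(2:ℕ) - 6*S*T + 3*T^(2:ℕ) - 3*S - T - 1)) :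
    S < (S + T + 1) * (((S^(2:ℕ)*T^(3:ℕ) + S^(2:ℕ)*T^(2:ℕ) + 3*S*T^(3:ℕ) - 2*S^(2:ℕ)*T + 3*S*T^(2:ℕ) + 2*T^(3:ℕ) - S^(2:ℕ) - 2*S*T + 3*T^(2:ℕ) - 2*S - 1))/(T*(S + 1)*(T + 1)*(S*T + 2*S + 2*T + 2))) := rgt d4 d15 d4 (by ring)

theorem D_g5 (S T : ℝ) (d1 : 0 < (S*T + 2*S + 2*T + 2)) (d5 : 0 < (S*T^(2:ℕ) + S*T + T^(2:ℕ) - S - 1)) :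
    1 < (T + 1) * (((S + 1)*(T + 1))/((S*T + 2*S + 2*T + 2))) := rgt d1 d5 d1 (by ring)

theorem D_oP_2 (S T : ℝ) (g4 : S < (S + T + 1) * (((S^(2:ℕ)*T^(3:ℕ) + S^(2:ℕ)*T^(2:ℕ) + 3*S*T^(3:ℕ) - 2*S^(2:ℕ)*T + 3*S*T^(2:ℕ) + 2*T^(3:ℕ) - S^(2:ℕ) - 2*S*T + 3*T^(2:ℕ) - 2*S - 1))/(T*(S + 1)*(T + 1)*(S*T + 2*S + 2*T + 2)))) (g5 : 1 < (T + 1) * (((S + 1)*(T + 1))/((S*T + 2*S + 2*T + 2)))) :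
    cond S T Letter.be (((S^(2:ℕ)*T^(3:ℕ) + S^(2:ℕ)*T^(2:ℕ) + 3*S*T^(3:ℕ) - 2*S^(2:ℕ)*T + 3*S*T^(2:ℕ) + 2*T^(3:ℕ) - S^(2:ℕ) - 2*S*T + 3*T^(2:ℕ) - 2*S - 1))/(T*(S + 1)*(T + 1)*(S*T + 2*S + 2*T + 2)), ((S + 1)*(T + 1))/((S*T + 2*S + 2*T + 2))) := ⟨g4, g5⟩

theorem D_oP (S T : ℝ) (f3 : fl S T Letter.al (((S*T^(2:ℕ) + S*T + T^(2:ℕ) - S - 1))/(T*(S*T + 2*S + 2*T + 2)), ((S^(3:ℕ)*T^(3:ℕ) + 2*S^(3:ℕ)*T^(2:ℕ) + 2*S^(2:ℕ)*T^(3:ℕ) + S^(3:ℕ)*T + 4*S^(2:ℕ)*T^(2:ℕ) + S*T^(3:ℕ) + S^(3:ℕ) + 5*S^(2:ℕ)*T + 5*S*T^(2:ℕ) + T^(3:ℕ) + 3*S^(2:ℕ) + 7*S*T + 3*T^(2:ℕ) + 3*S + 3*T + 1))/((S + 1)^(2:ℕ)*(T + 1)^(3:ℕ)*(S*T + 2*S + 2*T + 2))) = (((T^(2:ℕ) - S - 1))/(T*(S*T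 + 2*S + 2*T + 2)), ((S^(2:ℕ)*T^(3:ℕ) + 2*S^(2:ℕ)*T^(2:ℕ) + 3*S*T^(3:ℕ) + S^(2:ℕ)*T + 6*S*T^(2:ℕ) + 2*T^(3:ℕ) + S^(2:ℕ) + 5*S*T + 5*T^(2:ℕ) + 2*S + 4*T + 1))/((S + 1)*(T + 1)^(2:ℕ)*(S*T + 2*S + 2*T + 2)))) (f4 : fl S T Letter.be (((T^(2:ℕ) - S - 1))/(T*(S*T + 2*S + 2*T + 2)), ((S^(2:ℕ)*T^(3:ℕ) + 2*S^(2:ℕ)*T^(2:ℕ) + 3*S*T^(3:ℕ) + S^(2:ℕ)*T + 6*S*T^(2:ℕ) + 2*T^(3:ℕ) + S^(2:ℕ) + 5*S*T + 5*T^(2:ℕ) + 2*S + 4*T + 1))/((S + 1)*(T + 1)^(2:ℕ)*(S*T + 2*S + 2*T + 2))) = (((S^(2:ℕ)*T^(3:ℕ) + S^(2:ℕ)*T^(2:ℕ) + 3*S*T^(3:ℕ) - 2*S^(2:ℕ)*T + 3*S*T^(2:ℕ) + 2*T^(3:ℕ) - S^(2:ℕ) - 2*S*T + 3*T^(2:ℕ) - 2*S - 1))/(T*(S + 1)*(T + 1)*(S*T + 2*S + 2*T + 2)), ((S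 + 1)*(T + 1))/((S*T + 2*S + 2*T + 2)))) (oP_0 : cond S T Letter.al (((S*T^(2:ℕ) + S*T + T^(2:ℕ) - S - 1))/(T*(S*T + 2*S + 2*T + 2)), ((S^(3:ℕ)*T^(3:ℕ) + 2*S^(3:ℕ)*T^(2:ℕ) + 2*S^(2:ℕ)*T^(3:ℕ) + S^(3:ℕ)*T + 4*S^(2:ℕ)*T^(2:ℕ) + S*T^(3:ℕ) + S^(3:ℕ) + 5*S^(2:ℕ)*T + 5*S*T^(2:ℕ) + T^(3:ℕ) + 3*S^(2:ℕ) + 7*S*T + 3*T^(2:ℕ) + 3*S + 3*T + 1))/((S + 1)^(2:ℕ)*(T + 1)^(3:ℕ)*(S*T + 2*S + 2*T + 2)))) (oP_1 : cond S T Letter.be (((T^(2:ℕ) - S - 1))/(T*(S*T + 2*S + 2*T + 2)), ((S^(2:ℕ)*T^(3:ℕ) + 2*S^(2:ℕ)*T^(2:ℕ) + 3*S*T^(3:ℕ) + S^(2:ℕ)*T + 6*S*T^(2:ℕ) + 2*T^(3:ℕ) + S^(2:ℕ) + 5*S*T + 5*T^(2:ℕ) + 2*S + 4*T + 1))/((S + 1)*(T + 1)^(2:ℕ)*(S*T + 2*S + 2*T +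 2)))) (oP_2 : cond S T Letter.be (((S^(2:ℕ)*T^(3:ℕ) + S^(2:ℕ)*T^(2:ℕ) + 3*S*T^(3:ℕ) - 2*S^(2:ℕ)*T + 3*S*T^(2:ℕ) + 2*T^(3:ℕ) - S^(2:ℕ) - 2*S*T + 3*T^(2:ℕ) - 2*S - 1))/(T*(S + 1)*(T + 1)*(S*T + 2*S + 2*T + 2)), ((S + 1)*(T + 1))/((S*T + 2*S + 2*T + 2)))) :
    okc S T [Letter.al, Letter.be, Letter.be] (((S*T^(2:ℕ) + S*T + T^(2:ℕ) - S - 1))/(T*(S*T + 2*S + 2*T + 2)), ((S^(3:ℕ)*T^(3:ℕ) + 2*S^(3:ℕ)*T^(2:ℕ) + 2*S^(2:ℕ)*T^(3:ℕ) + S^(3:ℕ)*T + 4*S^(2:ℕ)*T^(2:ℕ) + S*T^(3:ℕ) + S^(3:ℕ) + 5*S^(2:ℕ)*T + 5*S*T^(2:ℕ) + T^(3:ℕ) + 3*S^(2:ℕ) + 7*S*T + 3*T^(2:ℕ) + 3*S + 3*T + 1))/((S + 1)^(2:ℕ)*(T + 1)^(3:ℕ)*(S*T + 2*S + 2*T + 2))) := (okc_cons' oP_0 f3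 (okc_cons' oP_1 f4 (okc_last' oP_2)))

theorem D_d16 (S T : ℝ) (pA : 0 < (S + 1)) (pB : 0 < (T + 1)) (c0 : 0 < S*T + 2*S + 2*T + 2) :
    0 < (S + 1)^(3:ℕ)*(T + 1)^(4:ℕ)*(S*T + 2*S + 2*T + 2) := (mul_pos (mul_pos (pow_pos pA 3) (pow_pos pB 4)) c0)

theorem D_f6 (S T : ℝ) (pS : 0 < S) (pT : 0 < T) (d0 : 0 < T*(S*T + 2*S + 2*T + 2)) (d2 : 0 < (S + 1)^(2:ℕ)*(T + 1)^(3:ℕ)*(S*T + 2*S + 2*T + 2)) (d16 : 0 < (S + 1)^(3:ℕ)*(T + 1)^(4:ℕ)*(S*T + 2*S + 2*T + 2)) :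
    fl S T Letter.al (((S*T^(2:ℕ) + S*T + T^(2:ℕ) - S - 1))/(T*(S*T + 2*S + 2*T + 2)), ((S^(4:ℕ)*T^(4:ℕ) + 4*S^(4:ℕ)*T^(3:ℕ) + 4*S^(3:ℕ)*T^(4:ℕ) + 7*S^(4:ℕ)*T^(2:ℕ) + 18*S^(3:ℕ)*T^(3:ℕ) + 7*S^(2:ℕ)*T^(4:ℕ) + 6*S^(4:ℕ)*T + 32*S^(3:ℕ)*T^(2:ℕ) + 32*S^(2:ℕ)*T^(3:ℕ) + 6*S*T^(4:ℕ) + S^(4:ℕ) + 22*S^(3:ℕ)*T + 49*S^(2:ℕ)*T^(2:ℕ) + 22*S*T^(3:ℕ) + T^(4:ℕ) + 4*S^(3:ℕ) + 30*S^(2:ℕ)*T + 30*S*T^(2:ℕ) + 4*T^(3:ℕ) + 6*S^(2:ℕ) + 18*S*T + 6*T^(2:ℕ) + 4*S + 4*T + 1))/((S + 1)^(3:ℕ)*(T + 1)^(4:ℕ)*(S*T + 2*S + 2*T + 2))) = (((T^(2:ℕ) - S - 1))/(T*(S*T + 2*S + 2*T + 2)), ((S^(3:ℕ)*T^(4:ℕ) + 4*S^(3:ℕ)*T^(3:ℕ) + 4*S^(2:ℕ)*T^(4:ℕ) + 7*S^(3:ℕ)*T^(2:ℕ) + 16*S^(2:ℕ)*T^(3:ℕ)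 + 5*S*T^(4:ℕ) + 6*S^(3:ℕ)*T + 26*S^(2:ℕ)*T^(2:ℕ) + 20*S*T^(3:ℕ) + 2*T^(4:ℕ) + S^(3:ℕ) + 17*S^(2:ℕ)*T + 28*S*T^(2:ℕ) + 7*T^(3:ℕ) + 3*S^(2:ℕ) + 16*S*T + 9*T^(2:ℕ) + 3*S + 5*T + 1))/((S + 1)^(2:ℕ)*(T + 1)^(3:ℕ)*(S*T + 2*S + 2*T + 2))) := fl_al' pS pT d0 d16 d0 d2 (by ring) (by ring)

theorem D_d17 (S T : ℝ) (pT : 0 < T) (pA : 0 < (S + 1)) (pB : 0 < (T + 1)) (c0 : 0 < S*T + 2*S + 2*T + 2) :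
    0 < T*(S + 1)^(2:ℕ)*(T + 1)^(2:ℕ)*(S*T + 2*S + 2*T + 2) := (mul_pos (mul_pos (mul_pos pT (pow_pos pA 2)) (pow_pos pB 2)) c0)

theorem D_f7 (S T : ℝ) (pT : 0 < T) (d0 : 0 < T*(S*T + 2*S + 2*T + 2)) (d1 : 0 < (S*T + 2*S + 2*T + 2)) (d2 : 0 < (S + 1)^(2:ℕ)*(T + 1)^(3:ℕ)*(S*T + 2*S + 2*T + 2)) (d17 : 0 < T*(S + 1)^(2:ℕ)*(T + 1)^(2:ℕ)*(S*T + 2*S + 2*T + 2)) :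
    fl S T Letter.be (((T^(2:ℕ) - S - 1))/(T*(S*T + 2*S + 2*T + 2)), ((S^(3:ℕ)*T^(4:ℕ) + 4*S^(3:ℕ)*T^(3:ℕ) + 4*S^(2:ℕ)*T^(4:ℕ) + 7*S^(3:ℕ)*T^(2:ℕ) + 16*S^(2:ℕ)*T^(3:ℕ) + 5*S*T^(4:ℕ) + 6*S^(3:ℕ)*T + 26*S^(2:ℕ)*T^(2:ℕ) + 20*S*T^(3:ℕ) + 2*T^(4:ℕ) + S^(3:ℕ) + 17*S^(2:ℕ)*T + 28*S*T^(2:ℕ) + 7*T^(3:ℕ) + 3*S^(2:ℕ) + 16*S*T + 9*T^(2:ℕ) + 3*S + 5*T + 1))/((S + 1)^(2:ℕ)*(T + 1)^(3:ℕ)*(S*T + 2*S + 2*T + 2))) = (((S^(3:ℕ)*T^(4:ℕ) + 3*S^(3:ℕ)*T^(3:ℕ) + 4*S^(2:ℕ)*T^(4:ℕ) + 3*S^(3:ℕ)*T^(2:ℕ) + 12*S^(2:ℕ)*T^(3:ℕ) + 5*S*T^(4:ℕ) + S^(3:ℕ)*T + 12*S^(2:ℕ)*T^(2:ℕ) + 15*S*T^(3:ℕ) + 2*T^(4:ℕ) - S^(3:ℕ) + S^(2:ℕ)*T + 12*S*T^(2:ℕ) + 5*T^(3:ℕ) - 3*S^(2:ℕ) - S*T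 + 3*T^(2:ℕ) - 3*S - T - 1))/(T*(S + 1)^(2:ℕ)*(T + 1)^(2:ℕ)*(S*T + 2*S + 2*T + 2)), ((S + 1)*(T + 1))/((S*T + 2*S + 2*T + 2))) := fl_be' pT d0 d2 d17 d1 (by ring) (by ring)

theorem D_f8 (S T : ℝ) (pT : 0 < T) (d0 : 0 < T*(S*T + 2*S + 2*T + 2)) (d1 : 0 < (S*T + 2*S + 2*T + 2)) (d2 : 0 < (S + 1)^(2:ℕ)*(T + 1)^(3:ℕ)*(S*T + 2*S + 2*T + 2)) (d17 : 0 < T*(S + 1)^(2:ℕ)*(T + 1)^(2:ℕ)*(S*T + 2*S + 2*T + 2)) :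
    fl S T Letter.be (((S^(3:ℕ)*T^(4:ℕ) + 3*S^(3:ℕ)*T^(3:ℕ) + 4*S^(2:ℕ)*T^(4:ℕ) + 3*S^(3:ℕ)*T^(2:ℕ) + 12*S^(2:ℕ)*T^(3:ℕ) + 5*S*T^(4:ℕ) + S^(3:ℕ)*T + 12*S^(2:ℕ)*T^(2:ℕ) + 15*S*T^(3:ℕ) + 2*T^(4:ℕ) - S^(3:ℕ) + S^(2:ℕ)*T + 12*S*T^(2:ℕ) + 5*T^(3:ℕ) - 3*S^(2:ℕ) - S*T + 3*T^(2:ℕ) - 3*S - T - 1))/(T*(S + 1)^(2:ℕ)*(T + 1)^(2:ℕ)*(S*T + 2*S + 2*T + 2)), ((S + 1)*(T + 1))/((S*T + 2*S + 2*T + 2))) = (((S*T^(2:ℕ) + S*T + T^(2:ℕ) - S - 1))/(T*(S*T + 2*S + 2*T + 2)), ((S^(3:ℕ)*T^(3:ℕ) + 2*S^(3:ℕ)*T^(2:ℕ) + 2*S^(2:ℕ)*T^(3:ℕ) + S^(3:ℕ)*T + 4*S^(2:ℕ)*T^(2:ℕ) + S*T^(3:ℕ) + S^(3:ℕ) + 5*S^(2:ℕ)*T + 5*S*T^(2:ℕ) + T^(3:ℕ) + 3*S^(2:ℕ) + 7*S*T + 3*T^(2:ℕ) + 3*S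 + 3*T + 1))/((S + 1)^(2:ℕ)*(T + 1)^(3:ℕ)*(S*T + 2*S + 2*T + 2))) := fl_be' pT d17 d1 d0 d2 (by ring) (by ring)

theorem D_d18 (S T : ℝ) (c9 : 0 < S^(4:ℕ)*T^(4:ℕ) + 4*S^(4:ℕ)*T^(3:ℕ) + 4*S^(3:ℕ)*T^(4:ℕ) + 7*S^(4:ℕ)*T^(2:ℕ) + 18*S^(3:ℕ)*T^(3:ℕ) + 7*S^(2:ℕ)*T^(4:ℕ) + 6*S^(4:ℕ)*T + 32*S^(3:ℕ)*T^(2:ℕ) + 32*S^(2:ℕ)*T^(3:ℕ) + 6*S*T^(4:ℕ) + S^(4:ℕ) + 22*S^(3:ℕ)*T + 49*S^(2:ℕ)*T^(2:ℕ) + 22*S*T^(3:ℕ) + T^(4:ℕ) + 4*S^(3:ℕ) + 30*S^(2:ℕ)*T + 30*S*T^(2:ℕ) + 4*T^(3:ℕ) + 6*S^(2:ℕ) + 18*S*T + 6*T^(2:ℕ) + 4*S + 4*T + 1) :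
    0 < (S^(4:ℕ)*T^(4:ℕ) + 4*S^(4:ℕ)*T^(3:ℕ) + 4*S^(3:ℕ)*T^(4:ℕ) + 7*S^(4:ℕ)*T^(2:ℕ) + 18*S^(3:ℕ)*T^(3:ℕ) + 7*S^(2:ℕ)*T^(4:ℕ) + 6*S^(4:ℕ)*T + 32*S^(3:ℕ)*T^(2:ℕ) + 32*S^(2:ℕ)*T^(3:ℕ) + 6*S*T^(4:ℕ) + S^(4:ℕ) + 22*S^(3:ℕ)*T + 49*S^(2:ℕ)*T^(2:ℕ) + 22*S*T^(3:ℕ) + T^(4:ℕ) + 4*S^(3:ℕ) + 30*S^(2:ℕ)*T + 30*S*T^(2:ℕ) + 4*T^(3:ℕ) + 6*S^(2:ℕ) + 18*S*T + 6*T^(2:ℕ) + 4*S + 4*T + 1) := c9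

theorem D_q4 (S T : ℝ) (d16 : 0 < (S + 1)^(3:ℕ)*(T + 1)^(4:ℕ)*(S*T + 2*S + 2*T + 2)) (d18 : 0 < (S^(4:ℕ)*T^(4:ℕ) + 4*S^(4:ℕ)*T^(3:ℕ) + 4*S^(3:ℕ)*T^(4:ℕ) + 7*S^(4:ℕ)*T^(2:ℕ) + 18*S^(3:ℕ)*T^(3:ℕ) + 7*S^(2:ℕ)*T^(4:ℕ) + 6*S^(4:ℕ)*T + 32*S^(3:ℕ)*T^(2:ℕ) + 32*S^(2:ℕ)*T^(3:ℕ) + 6*S*T^(4:ℕ) + S^(4:ℕ) + 22*S^(3:ℕ)*T + 49*S^(2:ℕ)*T^(2:ℕ) + 22*S*T^(3:ℕ) + T^(4:ℕ) + 4*S^(3:ℕ) + 30*S^(2:ℕ)*T + 30*S*T^(2:ℕ) + 4*T^(3:ℕ) + 6*S^(2:ℕ) + 18*S*T + 6*T^(2:ℕ) + 4*S + 4*T + 1)) :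
    0 < ((S^(4:ℕ)*T^(4:ℕ) + 4*S^(4:ℕ)*T^(3:ℕ) + 4*S^(3:ℕ)*T^(4:ℕ) + 7*S^(4:ℕ)*T^(2:ℕ) + 18*S^(3:ℕ)*T^(3:ℕ) + 7*S^(2:ℕ)*T^(4:ℕ) + 6*S^(4:ℕ)*T + 32*S^(3:ℕ)*T^(2:ℕ) + 32*S^(2:ℕ)*T^(3:ℕ) + 6*S*T^(4:ℕ) + S^(4:ℕ) + 22*S^(3:ℕ)*T + 49*S^(2:ℕ)*T^(2:ℕ) + 22*S*T^(3:ℕ) + T^(4:ℕ) + 4*S^(3:ℕ) + 30*S^(2:ℕ)*T + 30*S*T^(2:ℕ) + 4*T^(3:ℕ) + 6*S^(2:ℕ) + 18*S*T + 6*T^(2:ℕ) + 4*S + 4*T + 1))/((S + 1)^(3:ℕ)*(T + 1)^(4:ℕ)*(S*T + 2*S + 2*T + 2)) := div_pos d18 d16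

theorem D_d19 (S T : ℝ) (c10 : 0 < S^(4:ℕ)*T^(5:ℕ) + 5*S^(4:ℕ)*T^(4:ℕ) + 5*S^(3:ℕ)*T^(5:ℕ) + 10*S^(4:ℕ)*T^(3:ℕ) + 24*S^(3:ℕ)*T^(4:ℕ) + 9*S^(2:ℕ)*T^(5:ℕ) + 9*S^(4:ℕ)*T^(2:ℕ) + 44*S^(3:ℕ)*T^(3:ℕ) + 41*S^(2:ℕ)*T^(4:ℕ) + 7*S*T^(5:ℕ) + 3*S^(4:ℕ)*T + 36*S^(3:ℕ)*T^(2:ℕ) + 70*S^(2:ℕ)*T^(3:ℕ) + 30*S*T^(4:ℕ) + 2*T^(5:ℕ) + S^(4:ℕ) + 15*S^(3:ℕ)*T + 59*S^(2:ℕ)*T^(2:ℕ) + 52*S*T^(3:ℕ) + 9*T^(4:ℕ) + 4*S^(3:ℕ) + 27*S^(2:ℕ)*T + 46*S*T^(2:ℕ) + 16*T^(3:ℕ) + 6*S^(2:ℕ) + 21*S*T + 14*T^(2:ℕ) + 4*S + 6*T + 1) :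
    0 < (S^(4:ℕ)*T^(5:ℕ) + 5*S^(4:ℕ)*T^(4:ℕ) + 5*S^(3:ℕ)*T^(5:ℕ) + 10*S^(4:ℕ)*T^(3:ℕ) + 24*S^(3:ℕ)*T^(4:ℕ) + 9*S^(2:ℕ)*T^(5:ℕ) + 9*S^(4:ℕ)*T^(2:ℕ) + 44*S^(3:ℕ)*T^(3:ℕ) + 41*S^(2:ℕ)*T^(4:ℕ) + 7*S*T^(5:ℕ) + 3*S^(4:ℕ)*T + 36*S^(3:ℕ)*T^(2:ℕ) + 70*S^(2:ℕ)*T^(3:ℕ) + 30*S*T^(4:ℕ) + 2*T^(5:ℕ) + S^(4:ℕ) + 15*S^(3:ℕ)*T + 59*S^(2:ℕ)*T^(2:ℕ) + 52*S*T^(3:ℕ) + 9*T^(4:ℕ) + 4*S^(3:ℕ) + 27*S^(2:ℕ)*T + 46*S*T^(2:ℕ) + 16*T^(3:ℕ) + 6*S^(2:ℕ) + 21*S*T + 14*T^(2:ℕ) + 4*S + 6*T + 1) := c10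

theorem D_q5 (S T : ℝ) (d16 : 0 < (S + 1)^(3:ℕ)*(T + 1)^(4:ℕ)*(S*T + 2*S + 2*T + 2)) (d19 : 0 < (S^(4:ℕ)*T^(5:ℕ) + 5*S^(4:ℕ)*T^(4:ℕ) + 5*S^(3:ℕ)*T^(5:ℕ) + 10*S^(4:ℕ)*T^(3:ℕ) + 24*S^(3:ℕ)*T^(4:ℕ) + 9*S^(2:ℕ)*T^(5:ℕ) + 9*S^(4:ℕ)*T^(2:ℕ) + 44*S^(3:ℕ)*T^(3:ℕ) + 41*S^(2:ℕ)*T^(4:ℕ) + 7*S*T^(5:ℕ) + 3*S^(4:ℕ)*T + 36*S^(3:ℕ)*T^(2:ℕ) + 70*S^(2:ℕ)*T^(3:ℕ) + 30*S*T^(4:ℕ) + 2*T^(5:ℕ) + S^(4:ℕ) + 15*S^(3:ℕ)*T + 59*S^(2:ℕ)*T^(2:ℕ) + 52*S*T^(3:ℕ) + 9*T^(4:ℕ) + 4*S^(3:ℕ) + 27*S^(2:ℕ)*T + 46*S*T^(2:ℕ) + 16*T^(3:ℕ) + 6*S^(2:ℕ) + 21*S*T + 14*T^(2:ℕ) + 4*S + 6*T + 1)) :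
    ((S^(4:ℕ)*T^(4:ℕ) + 4*S^(4:ℕ)*T^(3:ℕ) + 4*S^(3:ℕ)*T^(4:ℕ) + 7*S^(4:ℕ)*T^(2:ℕ) + 18*S^(3:ℕ)*T^(3:ℕ) + 7*S^(2:ℕ)*T^(4:ℕ) + 6*S^(4:ℕ)*T + 32*S^(3:ℕ)*T^(2:ℕ) + 32*S^(2:ℕ)*T^(3:ℕ) + 6*S*T^(4:ℕ) + S^(4:ℕ) + 22*S^(3:ℕ)*T + 49*S^(2:ℕ)*T^(2:ℕ) + 22*S*T^(3:ℕ) + T^(4:ℕ) + 4*S^(3:ℕ) + 30*S^(2:ℕ)*T + 30*S*T^(2:ℕ) + 4*T^(3:ℕ) + 6*S^(2:ℕ) + 18*S*T + 6*T^(2:ℕ) + 4*S + 4*T + 1))/((S + 1)^(3:ℕ)*(T + 1)^(4:ℕ)*(S*T + 2*S + 2*T + 2)) < 1 := rlt1 d16 d19 d16 (by ring)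

theorem D_sQ (S T : ℝ) (q0 : 0 < ((S*T^(2:ℕ) + S*T + T^(2:ℕ) - S - 1))/(T*(S*T + 2*S + 2*T + 2))) (q1 : ((S*T^(2:ℕ) + S*T + T^(2:ℕ) - S - 1))/(T*(S*T + 2*S + 2*T + 2)) < 1) (q4 : 0 < ((S^(4:ℕ)*T^(4:ℕ) + 4*S^(4:ℕ)*T^(3:ℕ) + 4*S^(3:ℕ)*T^(4:ℕ) + 7*S^(4:ℕ)*T^(2:ℕ) + 18*S^(3:ℕ)*T^(3:ℕ) + 7*S^(2:ℕ)*T^(4:ℕ) + 6*S^(4:ℕ)*T + 32*S^(3:ℕ)*T^(2:ℕ) + 32*S^(2:ℕ)*T^(3:ℕ) + 6*S*T^(4:ℕ) + S^(4:ℕ) + 22*S^(3:ℕ)*T + 49*S^(2:ℕ)*T^(2:ℕ) + 22*S*T^(3:ℕ) + T^(4:ℕ) + 4*S^(3:ℕ) + 30*S^(2:ℕ)*T + 30*S*T^(2:ℕ) + 4*T^(3:ℕ) + 6*S^(2:ℕ) + 18*S*T + 6*T^(2:ℕ) + 4*S + 4*T + 1))/((S + 1)^(3:ℕ)*(T + 1)^(4:ℕ)*(S*T + 2*S + 2*T + 2))) (q5 : ((S^(4:ℕ)*T^(4:ℕ) + 4*S^(4:ℕ)*T^(3:ℕ)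 + 4*S^(3:ℕ)*T^(4:ℕ) + 7*S^(4:ℕ)*T^(2:ℕ) + 18*S^(3:ℕ)*T^(3:ℕ) + 7*S^(2:ℕ)*T^(4:ℕ) + 6*S^(4:ℕ)*T + 32*S^(3:ℕ)*T^(2:ℕ) + 32*S^(2:ℕ)*T^(3:ℕ) + 6*S*T^(4:ℕ) + S^(4:ℕ) + 22*S^(3:ℕ)*T + 49*S^(2:ℕ)*T^(2:ℕ) + 22*S*T^(3:ℕ) + T^(4:ℕ) + 4*S^(3:ℕ) + 30*S^(2:ℕ)*T + 30*S*T^(2:ℕ) + 4*T^(3:ℕ) + 6*S^(2:ℕ) + 18*S*T + 6*T^(2:ℕ) + 4*S + 4*T + 1))/((S + 1)^(3:ℕ)*(T + 1)^(4:ℕ)*(S*T + 2*S + 2*T + 2)) < 1) :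
    Sq (((S*T^(2:ℕ) + S*T + T^(2:ℕ) - S - 1))/(T*(S*T + 2*S + 2*T + 2)), ((S^(4:ℕ)*T^(4:ℕ) + 4*S^(4:ℕ)*T^(3:ℕ) + 4*S^(3:ℕ)*T^(4:ℕ) + 7*S^(4:ℕ)*T^(2:ℕ) + 18*S^(3:ℕ)*T^(3:ℕ) + 7*S^(2:ℕ)*T^(4:ℕ) + 6*S^(4:ℕ)*T + 32*S^(3:ℕ)*T^(2:ℕ) + 32*S^(2:ℕ)*T^(3:ℕ) + 6*S*T^(4:ℕ) + S^(4:ℕ) + 22*S^(3:ℕ)*T + 49*S^(2:ℕ)*T^(2:ℕ) + 22*S*T^(3:ℕ) + T^(4:ℕ) + 4*S^(3:ℕ) + 30*S^(2:ℕ)*T + 30*S*T^(2:ℕ) + 4*T^(3:ℕ) + 6*S^(2:ℕ) + 18*S*T + 6*T^(2:ℕ) + 4*S + 4*T + 1))/((S + 1)^(3:ℕ)*(T + 1)^(4:ℕ)*(S*T + 2*S + 2*T + 2))) := ⟨⟨q0, q1⟩, q4, q5⟩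

theorem D_d20 (S T : ℝ) (pU : 0 < (S + T + 1)) (c2 : 0 < S^(3:ℕ)*T^(3:ℕ) + 2*S^(3:ℕ)*T^(2:ℕ) + 2*S^(2:ℕ)*T^(3:ℕ) + S^(3:ℕ)*T + 4*S^(2:ℕ)*T^(2:ℕ) + S*T^(3:ℕ) + S^(3:ℕ) + 5*S^(2:ℕ)*T + 5*S*T^(2:ℕ) + T^(3:ℕ) + 3*S^(2:ℕ) + 7*S*T + 3*T^(2:ℕ) + 3*S + 3*T + 1) :
    0 < (S + T + 1)*(S^(3:ℕ)*T^(3:ℕ) + 2*S^(3:ℕ)*T^(2:ℕ) + 2*S^(2:ℕ)*T^(3:ℕ) + S^(3:ℕ)*T + 4*S^(2:ℕ)*T^(2:ℕ) + S*T^(3:ℕ) + S^(3:ℕ) + 5*S^(2:ℕ)*T + 5*S*T^(2:ℕ) + T^(3:ℕ) + 3*S^(2:ℕ) + 7*S*T + 3*T^(2:ℕ) + 3*S + 3*T + 1) := (mul_pos pU c2)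

theorem D_d21 (S T : ℝ) (pA : 0 < (S + 1)) (pB : 0 < (T + 1)) (c0 : 0 < S*T + 2*S + 2*T + 2) :
    0 < (S + 1)^(3:ℕ)*(T + 1)^(3:ℕ)*(S*T + 2*S + 2*T + 2) := (mul_pos (mul_pos (pow_pos pA 3) (pow_pos pB 3)) c0)

theorem D_g6 (S T : ℝ) (d16 : 0 < (S + 1)^(3:ℕ)*(T + 1)^(4:ℕ)*(S*T + 2*S + 2*T + 2)) (d20 : 0 < (S + T + 1)*(S^(3:ℕ)*T^(3:ℕ) + 2*S^(3:ℕ)*T^(2:ℕ) + 2*S^(2:ℕ)*T^(3:ℕ) + S^(3:ℕ)*T + 4*S^(2:ℕ)*T^(2:ℕ) + S*T^(3:ℕ) + S^(3:ℕ) + 5*S^(2:ℕ)*T + 5*S*T^(2:ℕ) + T^(3:ℕ) + 3*S^(2:ℕ) + 7*S*T + 3*T^(2:ℕ) + 3*S + 3*T + 1)) (d21 : 0 < (S + 1)^(3:ℕ)*(T + 1)^(3:ℕ)*(S*T + 2*S + 2*T + 2)) :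
    (T + 1) * (((S^(4:ℕ)*T^(4:ℕ) + 4*S^(4:ℕ)*T^(3:ℕ) + 4*S^(3:ℕ)*T^(4:ℕ) + 7*S^(4:ℕ)*T^(2:ℕ) + 18*S^(3:ℕ)*T^(3:ℕ) + 7*S^(2:ℕ)*T^(4:ℕ) + 6*S^(4:ℕ)*T + 32*S^(3:ℕ)*T^(2:ℕ) + 32*S^(2:ℕ)*T^(3:ℕ) + 6*S*T^(4:ℕ) + S^(4:ℕ) + 22*S^(3:ℕ)*T + 49*S^(2:ℕ)*T^(2:ℕ) + 22*S*T^(3:ℕ) + T^(4:ℕ) + 4*S^(3:ℕ) + 30*S^(2:ℕ)*T + 30*S*T^(2:ℕ) + 4*T^(3:ℕ) + 6*S^(2:ℕ) + 18*S*T + 6*T^(2:ℕ) + 4*S + 4*T + 1))/((S + 1)^(3:ℕ)*(T + 1)^(4:ℕ)*(S*T + 2*S + 2*T + 2))) < 1 := rlt d16 d20 d21 (by ring)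

theorem D_oQ_0 (S T : ℝ) (g0 : S < (S + T + 1) * (((S*T^(2:ℕ) + S*T + T^(2:ℕ) - S - 1))/(T*(S*T + 2*S + 2*T + 2)))) (g6 : (T + 1) * (((S^(4:ℕ)*T^(4:ℕ) + 4*S^(4:ℕ)*T^(3:ℕ) + 4*S^(3:ℕ)*T^(4:ℕ) + 7*S^(4:ℕ)*T^(2:ℕ) + 18*S^(3:ℕ)*T^(3:ℕ) + 7*S^(2:ℕ)*T^(4:ℕ) + 6*S^(4:ℕ)*T + 32*S^(3:ℕ)*T^(2:ℕ) + 32*S^(2:ℕ)*T^(3:ℕ) + 6*S*T^(4:ℕ) + S^(4:ℕ) + 22*S^(3:ℕ)*T + 49*S^(2:ℕ)*T^(2:ℕ) + 22*S*T^(3:ℕ) + T^(4:ℕ) + 4*S^(3:ℕ) + 30*S^(2:ℕ)*T + 30*S*T^(2:ℕ) + 4*T^(3:ℕ) + 6*S^(2:ℕ) + 18*S*T + 6*T^(2:ℕ) + 4*S + 4*T + 1))/((S + 1)^(3:ℕ)*(T + 1)^(4:ℕ)*(S*T + 2*S + 2*T + 2))) < 1) :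
    cond S T Letter.al (((S*T^(2:ℕ) + S*T + T^(2:ℕ) - S - 1))/(T*(S*T + 2*S + 2*T + 2)), ((S^(4:ℕ)*T^(4:ℕ) + 4*S^(4:ℕ)*T^(3:ℕ) + 4*S^(3:ℕ)*T^(4:ℕ) + 7*S^(4:ℕ)*T^(2:ℕ) + 18*S^(3:ℕ)*T^(3:ℕ) + 7*S^(2:ℕ)*T^(4:ℕ) + 6*S^(4:ℕ)*T + 32*S^(3:ℕ)*T^(2:ℕ) + 32*S^(2:ℕ)*T^(3:ℕ) + 6*S*T^(4:ℕ) + S^(4:ℕ) + 22*S^(3:ℕ)*T + 49*S^(2:ℕ)*T^(2:ℕ) + 22*S*T^(3:ℕ) + T^(4:ℕ) + 4*S^(3:ℕ) + 30*S^(2:ℕ)*T + 30*S*T^(2:ℕ) + 4*T^(3:ℕ) + 6*S^(2:ℕ) + 18*S*T + 6*T^(2:ℕ) + 4*S + 4*T + 1))/((S + 1)^(3:ℕ)*(T + 1)^(4:ℕ)*(S*T + 2*S + 2*T + 2))) := ⟨g0, g6⟩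

theorem D_d22 (S T : ℝ) (c11 : 0 < S^(3:ℕ)*T^(4:ℕ) + 3*S^(3:ℕ)*T^(3:ℕ) + 4*S^(2:ℕ)*T^(4:ℕ) + 3*S^(3:ℕ)*T^(2:ℕ) + 12*S^(2:ℕ)*T^(3:ℕ) + 5*S*T^(4:ℕ) + S^(3:ℕ)*T + 12*S^(2:ℕ)*T^(2:ℕ) + 15*S*T^(3:ℕ) + 2*T^(4:ℕ) - S^(3:ℕ) + S^(2:ℕ)*T + 12*S*T^(2:ℕ) + 5*T^(3:ℕ) - 3*S^(2:ℕ) - S*T + 3*T^(2:ℕ) - 3*S - T - 1) :
    0 < (S^(3:ℕ)*T^(4:ℕ) + 3*S^(3:ℕ)*T^(3:ℕ) + 4*S^(2:ℕ)*T^(4:ℕ) + 3*S^(3:ℕ)*T^(2:ℕ) + 12*S^(2:ℕ)*T^(3:ℕ) + 5*S*T^(4:ℕ) + S^(3:ℕ)*T + 12*S^(2:ℕ)*T^(2:ℕ) + 15*S*T^(3:ℕ) + 2*T^(4:ℕ) - S^(3:ℕ) + S^(2:ℕ)*T + 12*S*T^(2:ℕ) + 5*T^(3:ℕ) - 3*S^(2:ℕ) - S*T + 3*T^(2:ℕ) - 3*S - T - 1) := c11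

theorem D_g7 (S T : ℝ) (d2 : 0 < (S + 1)^(2:ℕ)*(T + 1)^(3:ℕ)*(S*T + 2*S + 2*T + 2)) (d11 : 0 < (S + 1)^(2:ℕ)*(T + 1)^(2:ℕ)*(S*T + 2*S + 2*T + 2)) (d22 : 0 < (S^(3:ℕ)*T^(4:ℕ) + 3*S^(3:ℕ)*T^(3:ℕ) + 4*S^(2:ℕ)*T^(4:ℕ) + 3*S^(3:ℕ)*T^(2:ℕ) + 12*S^(2:ℕ)*T^(3:ℕ) + 5*S*T^(4:ℕ) + S^(3:ℕ)*T + 12*S^(2:ℕ)*T^(2:ℕ) + 15*S*T^(3:ℕ) + 2*T^(4:ℕ) - S^(3:ℕ) + S^(2:ℕ)*T + 12*S*T^(2:ℕ) + 5*T^(3:ℕ) - 3*S^(2:ℕ) - S*T + 3*T^(2:ℕ) - 3*S - T - 1)) :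
    1 < (T + 1) * (((S^(3:ℕ)*T^(4:ℕ) + 4*S^(3:ℕ)*T^(3:ℕ) + 4*S^(2:ℕ)*T^(4:ℕ) + 7*S^(3:ℕ)*T^(2:ℕ) + 16*S^(2:ℕ)*T^(3:ℕ) + 5*S*T^(4:ℕ) + 6*S^(3:ℕ)*T + 26*S^(2:ℕ)*T^(2:ℕ) + 20*S*T^(3:ℕ) + 2*T^(4:ℕ) + S^(3:ℕ) + 17*S^(2:ℕ)*T + 28*S*T^(2:ℕ) + 7*T^(3:ℕ) + 3*S^(2:ℕ) + 16*S*T + 9*T^(2:ℕ) + 3*S + 5*T + 1))/((S + 1)^(2:ℕ)*(T + 1)^(3:ℕ)*(S*T + 2*S + 2*T + 2))) := rgt d2 d22 d11 (by ring)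

theorem D_oQ_1 (S T : ℝ) (g2 : S < (S + T + 1) * (((T^(2:ℕ) - S - 1))/(T*(S*T + 2*S + 2*T + 2)))) (g7 : 1 < (T + 1) * (((S^(3:ℕ)*T^(4:ℕ) + 4*S^(3:ℕ)*T^(3:ℕ) + 4*S^(2:ℕ)*T^(4:ℕ) + 7*S^(3:ℕ)*T^(2:ℕ) + 16*S^(2:ℕ)*T^(3:ℕ) + 5*S*T^(4:ℕ) + 6*S^(3:ℕ)*T + 26*S^(2:ℕ)*T^(2:ℕ) + 20*S*T^(3:ℕ) + 2*T^(4:ℕ) + S^(3:ℕ) + 17*S^(2:ℕ)*T + 28*S*T^(2:ℕ) + 7*T^(3:ℕ) + 3*S^(2:ℕ) + 16*S*T + 9*T^(2:ℕ) + 3*S + 5*T + 1))/((S + 1)^(2:ℕ)*(T + 1)^(3:ℕ)*(S*T + 2*S + 2*T + 2)))) :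
    cond S T Letter.be (((T^(2:ℕ) - S - 1))/(T*(S*T + 2*S + 2*T + 2)), ((S^(3:ℕ)*T^(4:ℕ) + 4*S^(3:ℕ)*T^(3:ℕ) + 4*S^(2:ℕ)*T^(4:ℕ) + 7*S^(3:ℕ)*T^(2:ℕ) + 16*S^(2:ℕ)*T^(3:ℕ) + 5*S*T^(4:ℕ) + 6*S^(3:ℕ)*T + 26*S^(2:ℕ)*T^(2:ℕ) + 20*S*T^(3:ℕ) + 2*T^(4:ℕ) + S^(3:ℕ) + 17*S^(2:ℕ)*T + 28*S*T^(2:ℕ) + 7*T^(3:ℕ) + 3*S^(2:ℕ) + 16*S*T + 9*T^(2:ℕ) + 3*S + 5*T + 1))/((S + 1)^(2:ℕ)*(T + 1)^(3:ℕ)*(S*T + 2*S + 2*T + 2))) := ⟨g2, g7⟩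

theorem D_d23 (S T : ℝ) (c12 : 0 < S^(3:ℕ)*T^(5:ℕ) - S^(4:ℕ)*T^(3:ℕ) + 4*S^(3:ℕ)*T^(4:ℕ) + 4*S^(2:ℕ)*T^(5:ℕ) - 2*S^(4:ℕ)*T^(2:ℕ) + 4*S^(3:ℕ)*T^(3:ℕ) + 16*S^(2:ℕ)*T^(4:ℕ) + 5*S*T^(5:ℕ) - S^(4:ℕ)*T + 23*S^(2:ℕ)*T^(3:ℕ) + 20*S*T^(4:ℕ) + 2*T^(5:ℕ) - S^(4:ℕ) - 5*S^(3:ℕ)*T + 8*S^(2:ℕ)*T^(2:ℕ) + 26*S*T^(3:ℕ) + 7*T^(4:ℕ) - 4*S^(3:ℕ) - 9*S^(2:ℕ)*T + 8*S*T^(2:ℕ) + 8*T^(3:ℕ) - 6*S^(2:ℕ) - 7*S*T + 2*T^(2:ℕ) - 4*S - 2*T - 1) :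
    0 < (S^(3:ℕ)*T^(5:ℕ) - S^(4:ℕ)*T^(3:ℕ) + 4*S^(3:ℕ)*T^(4:ℕ) + 4*S^(2:ℕ)*T^(5:ℕ) - 2*S^(4:ℕ)*T^(2:ℕ) + 4*S^(3:ℕ)*T^(3:ℕ) + 16*S^(2:ℕ)*T^(4:ℕ) + 5*S*T^(5:ℕ) - S^(4:ℕ)*T + 23*S^(2:ℕ)*T^(3:ℕ) + 20*S*T^(4:ℕ) + 2*T^(5:ℕ) - S^(4:ℕ) - 5*S^(3:ℕ)*T + 8*S^(2:ℕ)*T^(2:ℕ) + 26*S*T^(3:ℕ) + 7*T^(4:ℕ) - 4*S^(3:ℕ) - 9*S^(2:ℕ)*T + 8*S*T^(2:ℕ) + 8*T^(3:ℕ) - 6*S^(2:ℕ) - 7*S*T + 2*T^(2:ℕ) - 4*S - 2*T - 1) := c12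

theorem D_g8 (S T : ℝ) (d17 : 0 < T*(S + 1)^(2:ℕ)*(T + 1)^(2:ℕ)*(S*T + 2*S + 2*T + 2)) (d23 : 0 < (S^(3:ℕ)*T^(5:ℕ) - S^(4:ℕ)*T^(3:ℕ) + 4*S^(3:ℕ)*T^(4:ℕ) + 4*S^(2:ℕ)*T^(5:ℕ) - 2*S^(4:ℕ)*T^(2:ℕ) + 4*S^(3:ℕ)*T^(3:ℕ) + 16*S^(2:ℕ)*T^(4:ℕ) + 5*S*T^(5:ℕ) - S^(4:ℕ)*T + 23*S^(2:ℕ)*T^(3:ℕ) + 20*S*T^(4:ℕ) + 2*T^(5:ℕ) - S^(4:ℕ) - 5*S^(3:ℕ)*T + 8*S^(2:ℕ)*T^(2:ℕ) + 26*S*T^(3:ℕ) + 7*T^(4:ℕ) - 4*S^(3:ℕ) - 9*S^(2:ℕ)*T + 8*S*T^(2:ℕ) + 8*T^(3:ℕ) - 6*S^(2:ℕ) - 7*S*T + 2*T^(2:ℕ) - 4*S - 2*T - 1)) :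
    S < (S + T + 1) * (((S^(3:ℕ)*T^(4:ℕ) + 3*S^(3:ℕ)*T^(3:ℕ) + 4*S^(2:ℕ)*T^(4:ℕ) + 3*S^(3:ℕ)*T^(2:ℕ) + 12*S^(2:ℕ)*T^(3:ℕ) + 5*S*T^(4:ℕ) + S^(3:ℕ)*T + 12*S^(2:ℕ)*T^(2:ℕ) + 15*S*T^(3:ℕ) + 2*T^(4:ℕ) - S^(3:ℕ) + S^(2:ℕ)*T + 12*S*T^(2:ℕ) + 5*T^(3:ℕ) - 3*S^(2:ℕ) - S*T + 3*T^(2:ℕ) - 3*S - T - 1))/(T*(S + 1)^(2:ℕ)*(T + 1)^(2:ℕ)*(S*T + 2*S + 2*T + 2))) := rgt d17 d23 d17 (by ring)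

theorem D_oQ_2 (S T : ℝ) (g5 : 1 < (T + 1) * (((S + 1)*(T + 1))/((S*T + 2*S + 2*T + 2)))) (g8 : S < (S + T + 1) * (((S^(3:ℕ)*T^(4:ℕ) + 3*S^(3:ℕ)*T^(3:ℕ) + 4*S^(2:ℕ)*T^(4:ℕ) + 3*S^(3:ℕ)*T^(2:ℕ) + 12*S^(2:ℕ)*T^(3:ℕ) + 5*S*T^(4:ℕ) + S^(3:ℕ)*T + 12*S^(2:ℕ)*T^(2:ℕ) + 15*S*T^(3:ℕ) + 2*T^(4:ℕ) - S^(3:ℕ) + S^(2:ℕ)*T + 12*S*T^(2:ℕ) + 5*T^(3:ℕ) - 3*S^(2:ℕ) - S*T + 3*T^(2:ℕ) - 3*S - T - 1))/(T*(S + 1)^(2:ℕ)*(T + 1)^(2:ℕ)*(S*T + 2*S + 2*T + 2)))) :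
    cond S T Letter.be (((S^(3:ℕ)*T^(4:ℕ) + 3*S^(3:ℕ)*T^(3:ℕ) + 4*S^(2:ℕ)*T^(4:ℕ) + 3*S^(3:ℕ)*T^(2:ℕ) + 12*S^(2:ℕ)*T^(3:ℕ) + 5*S*T^(4:ℕ) + S^(3:ℕ)*T + 12*S^(2:ℕ)*T^(2:ℕ) + 15*S*T^(3:ℕ) + 2*T^(4:ℕ) - S^(3:ℕ) + S^(2:ℕ)*T + 12*S*T^(2:ℕ) + 5*T^(3:ℕ) - 3*S^(2:ℕ) - S*T + 3*T^(2:ℕ) - 3*S - T - 1))/(T*(S + 1)^(2:ℕ)*(T + 1)^(2:ℕ)*(S*T + 2*S + 2*T + 2)), ((S + 1)*(T + 1))/((S*T + 2*S + 2*T + 2))) := ⟨g8, g5⟩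

theorem D_oQ (S T : ℝ) (f6 : fl S T Letter.al (((S*T^(2:ℕ) + S*T + T^(2:ℕ) - S - 1))/(T*(S*T + 2*S + 2*T + 2)), ((S^(4:ℕ)*T^(4:ℕ) + 4*S^(4:ℕ)*T^(3:ℕ) + 4*S^(3:ℕ)*T^(4:ℕ) + 7*S^(4:ℕ)*T^(2:ℕ) + 18*S^(3:ℕ)*T^(3:ℕ) + 7*S^(2:ℕ)*T^(4:ℕ) + 6*S^(4:ℕ)*T + 32*S^(3:ℕ)*T^(2:ℕ) + 32*S^(2:ℕ)*T^(3:ℕ) + 6*S*T^(4:ℕ) + S^(4:ℕ) + 22*S^(3:ℕ)*T + 49*S^(2:ℕ)*T^(2:ℕ) + 22*S*T^(3:ℕ) + T^(4:ℕ) + 4*S^(3:ℕ) + 30*S^(2:ℕ)*T + 30*S*T^(2:ℕ) + 4*T^(3:ℕ) + 6*S^(2:ℕ) + 18*S*T + 6*T^(2:ℕ) + 4*S + 4*T + 1))/((S + 1)^(3:ℕ)*(T + 1)^(4:ℕ)*(S*T + 2*S + 2*T + 2))) = (((T^(2:ℕ) - S - 1))/(T*(S*T + 2*S + 2*T + 2)), ((S^(3:ℕ)*T^(4:ℕ) + 4*S^(3:ℕ)*T^(3:ℕ) + 4*S^(2:ℕ)*T^(4:ℕ) +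 7*S^(3:ℕ)*T^(2:ℕ) + 16*S^(2:ℕ)*T^(3:ℕ) + 5*S*T^(4:ℕ) + 6*S^(3:ℕ)*T + 26*S^(2:ℕ)*T^(2:ℕ) + 20*S*T^(3:ℕ) + 2*T^(4:ℕ) + S^(3:ℕ) + 17*S^(2:ℕ)*T + 28*S*T^(2:ℕ) + 7*T^(3:ℕ) + 3*S^(2:ℕ) + 16*S*T + 9*T^(2:ℕ) + 3*S + 5*T + 1))/((S + 1)^(2:ℕ)*(T + 1)^(3:ℕ)*(S*T + 2*S + 2*T + 2)))) (f7 : fl S T Letter.be (((T^(2:ℕ) - S - 1))/(T*(S*T + 2*S + 2*T + 2)), ((S^(3:ℕ)*T^(4:ℕ) + 4*S^(3:ℕ)*T^(3:ℕ) + 4*S^(2:ℕ)*T^(4:ℕ) + 7*S^(3:ℕ)*T^(2:ℕ) + 16*S^(2:ℕ)*T^(3:ℕ) + 5*S*T^(4:ℕ) + 6*S^(3:ℕ)*T + 26*S^(2:ℕ)*T^(2:ℕ) + 20*S*T^(3:ℕ) + 2*T^(4:ℕ) + S^(3:ℕ) + 17*S^(2:ℕ)*T + 28*S*T^(2:ℕ) + 7*T^(3:ℕ) + 3*S^(2:ℕ) + 16*S*T + 9*T^(2:ℕ) + 3*S + 5*T + 1))/((S + 1)^(2:ℕ)*(T +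 1)^(3:ℕ)*(S*T + 2*S + 2*T + 2))) = (((S^(3:ℕ)*T^(4:ℕ) + 3*S^(3:ℕ)*T^(3:ℕ) + 4*S^(2:ℕ)*T^(4:ℕ) + 3*S^(3:ℕ)*T^(2:ℕ) + 12*S^(2:ℕ)*T^(3:ℕ) + 5*S*T^(4:ℕ) + S^(3:ℕ)*T + 12*S^(2:ℕ)*T^(2:ℕ) + 15*S*T^(3:ℕ) + 2*T^(4:ℕ) - S^(3:ℕ) + S^(2:ℕ)*T + 12*S*T^(2:ℕ) + 5*T^(3:ℕ) - 3*S^(2:ℕ) - S*T + 3*T^(2:ℕ) - 3*S - T - 1))/(T*(S + 1)^(2:ℕ)*(T + 1)^(2:ℕ)*(S*T + 2*S + 2*T + 2)), ((S + 1)*(T + 1))/((S*T + 2*S + 2*T + 2)))) (oQ_0 : cond S T Letter.al (((S*T^(2:ℕ) + S*T + T^(2:ℕ) - S - 1))/(T*(S*T + 2*S + 2*T + 2)), ((S^(4:ℕ)*T^(4:ℕ) + 4*S^(4:ℕ)*T^(3:ℕ) + 4*S^(3:ℕ)*T^(4:ℕ) + 7*S^(4:ℕ)*T^(2:ℕ) + 18*S^(3:ℕ)*T^(3:ℕ) + 7*S^(2:ℕ)*T^(4:ℕ) + 6*S^(4:ℕ)*T + 32*S^(3:ℕ)*T^(2:ℕ)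 + 32*S^(2:ℕ)*T^(3:ℕ) + 6*S*T^(4:ℕ) + S^(4:ℕ) + 22*S^(3:ℕ)*T + 49*S^(2:ℕ)*T^(2:ℕ) + 22*S*T^(3:ℕ) + T^(4:ℕ) + 4*S^(3:ℕ) + 30*S^(2:ℕ)*T + 30*S*T^(2:ℕ) + 4*T^(3:ℕ) + 6*S^(2:ℕ) + 18*S*T + 6*T^(2:ℕ) + 4*S + 4*T + 1))/((S + 1)^(3:ℕ)*(T + 1)^(4:ℕ)*(S*T + 2*S + 2*T + 2)))) (oQ_1 : cond S T Letter.be (((T^(2:ℕ) - S - 1))/(T*(S*T + 2*S + 2*T + 2)), ((S^(3:ℕ)*T^(4:ℕ) + 4*S^(3:ℕ)*T^(3:ℕ) + 4*S^(2:ℕ)*T^(4:ℕ) + 7*S^(3:ℕ)*T^(2:ℕ) + 16*S^(2:ℕ)*T^(3:ℕ) + 5*S*T^(4:ℕ) + 6*S^(3:ℕ)*T + 26*S^(2:ℕ)*T^(2:ℕ) + 20*S*T^(3:ℕ) + 2*T^(4:ℕ) + S^(3:ℕ) + 17*S^(2:ℕ)*T + 28*S*T^(2:ℕ) + 7*T^(3:ℕ) + 3*S^(2:ℕ) + 16*S*T + 9*T^(2:ℕ) + 3*S + 5*T + 1))/((S + 1)^(2:ℕ)*(T + 1)^(3:ℕ)*(S*T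 + 2*S + 2*T + 2)))) (oQ_2 : cond S T Letter.be (((S^(3:ℕ)*T^(4:ℕ) + 3*S^(3:ℕ)*T^(3:ℕ) + 4*S^(2:ℕ)*T^(4:ℕ) + 3*S^(3:ℕ)*T^(2:ℕ) + 12*S^(2:ℕ)*T^(3:ℕ) + 5*S*T^(4:ℕ) + S^(3:ℕ)*T + 12*S^(2:ℕ)*T^(2:ℕ) + 15*S*T^(3:ℕ) + 2*T^(4:ℕ) - S^(3:ℕ) + S^(2:ℕ)*T + 12*S*T^(2:ℕ) + 5*T^(3:ℕ) - 3*S^(2:ℕ) - S*T + 3*T^(2:ℕ) - 3*S - T - 1))/(T*(S + 1)^(2:ℕ)*(T + 1)^(2:ℕ)*(S*T + 2*S + 2*T + 2)), ((S + 1)*(T + 1))/((S*T + 2*S + 2*T + 2)))) :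
    okc S T [Letter.al, Letter.be, Letter.be] (((S*T^(2:ℕ) + S*T + T^(2:ℕ) - S - 1))/(T*(S*T + 2*S + 2*T + 2)), ((S^(4:ℕ)*T^(4:ℕ) + 4*S^(4:ℕ)*T^(3:ℕ) + 4*S^(3:ℕ)*T^(4:ℕ) + 7*S^(4:ℕ)*T^(2:ℕ) + 18*S^(3:ℕ)*T^(3:ℕ) + 7*S^(2:ℕ)*T^(4:ℕ) + 6*S^(4:ℕ)*T + 32*S^(3:ℕ)*T^(2:ℕ) + 32*S^(2:ℕ)*T^(3:ℕ) + 6*S*T^(4:ℕ) + S^(4:ℕ) + 22*S^(3:ℕ)*T + 49*S^(2:ℕ)*T^(2:ℕ) + 22*S*T^(3:ℕ) + T^(4:ℕ) + 4*S^(3:ℕ) + 30*S^(2:ℕ)*T + 30*S*T^(2:ℕ) + 4*T^(3:ℕ) + 6*S^(2:ℕ) + 18*S*T + 6*T^(2:ℕ) + 4*S + 4*T + 1))/((S + 1)^(3:ℕ)*(T + 1)^(4:ℕ)*(S*T + 2*S + 2*T + 2))) := (okc_cons' oQ_0 f6 (okc_cons' oQ_1 f7 (okc_last' oQ_2)))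

theorem D_f9 (S T : ℝ) (pT : 0 < T) (d0 : 0 < T*(S*T + 2*S + 2*T + 2)) (d1 : 0 < (S*T + 2*S + 2*T + 2)) (d3 : 0 < (S + 1)*(T + 1)^(2:ℕ)*(S*T + 2*S + 2*T + 2)) (d4 : 0 < T*(S + 1)*(T + 1)*(S*T + 2*S + 2*T + 2)) :
    fl S T Letter.be (((S*T^(2:ℕ) + S*T + T^(2:ℕ) - S - 1))/(T*(S*T + 2*S + 2*T + 2)), ((2*S^(2:ℕ)*T^(2:ℕ) + 4*S^(2:ℕ)*T + 4*S*T^(2:ℕ) + S^(2:ℕ) + 6*S*T + T^(2:ℕ) + 2*S + 2*T + 1))/((S + 1)*(T + 1)^(2:ℕ)*(S*T + 2*S + 2*T + 2))) = (((S^(2:ℕ)*T^(2:ℕ) + S^(2:ℕ)*T + S*T^(2:ℕ) - S^(2:ℕ) - S*T - T^(2:ℕ) - 2*S - 2*T - 1))/(T*(S + 1)*(T + 1)*(S*T + 2*S + 2*T + 2)), ((S + T + 1))/((S*T + 2*S + 2*T + 2))) := fl_be' pT d0 d3 d4 d1 (by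 ring) (by ring)

theorem D_d24 (S T : ℝ) (pS : 0 < S) (pT : 0 < T) (pB : 0 < (T + 1)) (c0 : 0 < S*T + 2*S + 2*T + 2) :
    0 < S*T*(T + 1)*(S*T + 2*S + 2*T + 2) := (mul_pos (mul_pos (mul_pos pS pT) pB) c0)

theorem D_f10 (S T : ℝ) (pS : 0 < S) (d1 : 0 < (S*T + 2*S + 2*T + 2)) (d4 : 0 < T*(S + 1)*(T + 1)*(S*T + 2*S + 2*T + 2)) (d24 : 0 < S*T*(T + 1)*(S*T + 2*S + 2*T + 2)) :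
    fl S T Letter.ga (((S^(2:ℕ)*T^(2:ℕ) + S^(2:ℕ)*T + S*T^(2:ℕ) - S^(2:ℕ) - S*T - T^(2:ℕ) - 2*S - 2*T - 1))/(T*(S + 1)*(T + 1)*(S*T + 2*S + 2*T + 2)), ((S + T + 1))/((S*T + 2*S + 2*T + 2))) = (((S + 2*T + 2))/((S*T + 2*S + 2*T + 2)), ((S^(2:ℕ)*T^(3:ℕ) + 2*S^(2:ℕ)*T^(2:ℕ) + 2*S*T^(3:ℕ) + S^(2:ℕ)*T + 3*S*T^(2:ℕ) + S^(2:ℕ) + 3*S*T + T^(2:ℕ) + 2*S + 2*T + 1))/(S*T*(T + 1)*(S*T + 2*S + 2*T + 2))) := fl_ga' pS d4 d1 d1 d24 (by ring) (by ring)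

theorem D_d25 (S T : ℝ) (pS : 0 < S) (pT : 0 < T) (c0 : 0 < S*T + 2*S + 2*T + 2) :
    0 < S*T^(2:ℕ)*(S*T + 2*S + 2*T + 2) := (mul_pos (mul_pos pS (pow_pos pT 2)) c0)

theorem D_f11 (S T : ℝ) (pT : 0 < T) (d1 : 0 < (S*T + 2*S + 2*T + 2)) (d24 : 0 < S*T*(T + 1)*(S*T + 2*S + 2*T + 2)) (d25 : 0 < S*T^(2:ℕ)*(S*T + 2*S + 2*T + 2)) :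
    fl S T Letter.be (((S + 2*T + 2))/((S*T + 2*S + 2*T + 2)), ((S^(2:ℕ)*T^(3:ℕ) + 2*S^(2:ℕ)*T^(2:ℕ) + 2*S*T^(3:ℕ) + S^(2:ℕ)*T + 3*S*T^(2:ℕ) + S^(2:ℕ) + 3*S*T + T^(2:ℕ) + 2*S + 2*T + 1))/(S*T*(T + 1)*(S*T + 2*S + 2*T + 2))) = (((S^(2:ℕ)*T^(3:ℕ) + S^(2:ℕ)*T^(2:ℕ) + 2*S*T^(3:ℕ) - S^(2:ℕ)*T + S*T^(2:ℕ) + S^(2:ℕ) + S*T + T^(2:ℕ) + 2*S + 2*T + 1))/(S*T^(2:ℕ)*(S*T + 2*S + 2*T + 2)), (S*T)/((S*T + 2*S + 2*T + 2))) := fl_be' pT d1 d24 d25 d1 (by ring) (by ring)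

theorem D_f12 (S T : ℝ) (pT : 0 < T) (d0 : 0 < T*(S*T + 2*S + 2*T + 2)) (d1 : 0 < (S*T + 2*S + 2*T + 2)) (d24 : 0 < S*T*(T + 1)*(S*T + 2*S + 2*T + 2)) (d25 : 0 < S*T^(2:ℕ)*(S*T + 2*S + 2*T + 2)) :
    fl S T Letter.be (((S^(2:ℕ)*T^(3:ℕ) + S^(2:ℕ)*T^(2:ℕ) + 2*S*T^(3:ℕ) - S^(2:ℕ)*T + S*T^(2:ℕ) + S^(2:ℕ) + S*T + T^(2:ℕ) + 2*S + 2*T + 1))/(S*T^(2:ℕ)*(S*T + 2*S + 2*T + 2)), (S*T)/((S*T + 2*S + 2*T + 2))) = (((S*T^(2:ℕ) - 2*S - 2*T - 2))/(T*(S*T + 2*S + 2*T + 2)), ((S^(2:ℕ)*T^(2:ℕ) + S^(2:ℕ)*T + S*T^(2:ℕ) - S^(2:ℕ) - S*T - T^(2:ℕ) - 2*S - 2*T - 1))/(S*T*(T + 1)*(S*T + 2*S + 2*T + 2))) := fl_be' pT d25 d1 d0 d24 (by ring) (by ring)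

theorem D_d26 (S T : ℝ) (pT : 0 < T) (pA : 0 < (S + 1)) (c0 : 0 < S*T + 2*S + 2*T + 2) :
    0 < T*(S + 1)*(S*T + 2*S + 2*T + 2) := (mul_pos (mul_pos pT pA) c0)

theorem D_d27 (S T : ℝ) (pS : 0 < S) (pT : 0 < T) (c0 : 0 < S*T + 2*S + 2*T + 2) :
    0 < S*T*(S*T + 2*S + 2*T + 2) := (mul_pos (mul_pos pS pT) c0)

theorem D_f13 (S T : ℝ) (pS : 0 < S) (pT : 0 < T) (d0 : 0 < T*(S*T + 2*S + 2*T + 2)) (d24 : 0 < S*T*(T + 1)*(S*T + 2*S + 2*T + 2)) (d26 : 0 < T*(S + 1)*(S*T + 2*S + 2*T + 2)) (d27 : 0 < S*T*(S*T + 2*S + 2*T + 2)) :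
    fl S T Letter.al (((S*T^(2:ℕ) - 2*S - 2*T - 2))/(T*(S*T + 2*S + 2*T + 2)), ((S^(2:ℕ)*T^(2:ℕ) + S^(2:ℕ)*T + S*T^(2:ℕ) - S^(2:ℕ) - S*T - T^(2:ℕ) - 2*S - 2*T - 1))/(S*T*(T + 1)*(S*T + 2*S + 2*T + 2))) = (((S*T^(2:ℕ) - 2*S^(2:ℕ) - 2*S*T - 4*S - 2*T - 2))/(T*(S + 1)*(S*T + 2*S + 2*T + 2)), ((S^(2:ℕ)*T^(2:ℕ) + S^(2:ℕ)*T + 2*S*T^(2:ℕ) - S^(2:ℕ) - 2*S - T - 1))/(S*T*(S*T + 2*S + 2*T + 2))) := fl_al' pS pT d0 d24 d26 d27 (by ring) (by ring)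

theorem D_f14 (S T : ℝ) (pS : 0 < S) (d0 : 0 < T*(S*T + 2*S + 2*T + 2)) (d26 : 0 < T*(S + 1)*(S*T + 2*S + 2*T + 2)) (d27 : 0 < S*T*(S*T + 2*S + 2*T + 2)) :
    fl S T Letter.ga (((S*T^(2:ℕ) - 2*S^(2:ℕ) - 2*S*T - 4*S - 2*T - 2))/(T*(S + 1)*(S*T + 2*S + 2*T + 2)), ((S^(2:ℕ)*T^(2:ℕ) + S^(2:ℕ)*T + 2*S*T^(2:ℕ) - S^(2:ℕ) - 2*S - T - 1))/(S*T*(S*T + 2*S + 2*T + 2))) = (((S*T^(2:ℕ) + S*T + 2*T^(2:ℕ) - S + T - 1))/(T*(S*T + 2*S + 2*T + 2)), ((S + 1)*(S*T^(2:ℕ) + 2*S*T + 2*S + 2*T + 2))/(S*T*(S*T + 2*S + 2*T + 2))) := fl_ga' pS d26 d27 d0 d27 (by ring) (by ring)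

theorem D_rE (S T : ℝ) (f9 : fl S T Letter.be (((S*T^(2:ℕ) + S*T + T^(2:ℕ) - S - 1))/(T*(S*T + 2*S + 2*T + 2)), ((2*S^(2:ℕ)*T^(2:ℕ) + 4*S^(2:ℕ)*T + 4*S*T^(2:ℕ) + S^(2:ℕ) + 6*S*T + T^(2:ℕ) + 2*S + 2*T + 1))/((S + 1)*(T + 1)^(2:ℕ)*(S*T + 2*S + 2*T + 2))) = (((S^(2:ℕ)*T^(2:ℕ) + S^(2:ℕ)*T + S*T^(2:ℕ) - S^(2:ℕ) - S*T - T^(2:ℕ) - 2*S - 2*T - 1))/(T*(S + 1)*(T + 1)*(S*T + 2*S + 2*T + 2)), ((S + T + 1))/((S*T + 2*S + 2*T + 2)))) (f10 : fl S T Letter.ga (((S^(2:ℕ)*T^(2:ℕ) + S^(2:ℕ)*T + S*T^(2:ℕ) - S^(2:ℕ) - S*T - T^(2:ℕ) - 2*S - 2*T - 1))/(T*(S + 1)*(T + 1)*(S*T + 2*S + 2*T + 2)), ((S + T + 1))/((S*T + 2*S + 2*T + 2))) = (((S + 2*T + 2))/((S*T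 + 2*S + 2*T + 2)), ((S^(2:ℕ)*T^(3:ℕ) + 2*S^(2:ℕ)*T^(2:ℕ) + 2*S*T^(3:ℕ) + S^(2:ℕ)*T + 3*S*T^(2:ℕ) + S^(2:ℕ) + 3*S*T + T^(2:ℕ) + 2*S + 2*T + 1))/(S*T*(T + 1)*(S*T + 2*S + 2*T + 2)))) (f11 : fl S T Letter.be (((S + 2*T + 2))/((S*T + 2*S + 2*T + 2)), ((S^(2:ℕ)*T^(3:ℕ) + 2*S^(2:ℕ)*T^(2:ℕ) + 2*S*T^(3:ℕ) + S^(2:ℕ)*T + 3*S*T^(2:ℕ) + S^(2:ℕ) + 3*S*T + T^(2:ℕ) + 2*S + 2*T + 1))/(S*T*(T + 1)*(S*T + 2*S + 2*T + 2))) = (((S^(2:ℕ)*T^(3:ℕ) + S^(2:ℕ)*T^(2:ℕ) + 2*S*T^(3:ℕ) - S^(2:ℕ)*T + S*T^(2:ℕ) + S^(2:ℕ) + S*T + T^(2:ℕ) + 2*S + 2*T + 1))/(S*T^(2:ℕ)*(S*T + 2*S + 2*T + 2)), (S*T)/((S*T + 2*S + 2*T + 2)))) (f12 : fl S T Letter.be (((S^(2:ℕ)*T^(3:ℕ) +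 S^(2:ℕ)*T^(2:ℕ) + 2*S*T^(3:ℕ) - S^(2:ℕ)*T + S*T^(2:ℕ) + S^(2:ℕ) + S*T + T^(2:ℕ) + 2*S + 2*T + 1))/(S*T^(2:ℕ)*(S*T + 2*S + 2*T + 2)), (S*T)/((S*T + 2*S + 2*T + 2))) = (((S*T^(2:ℕ) - 2*S - 2*T - 2))/(T*(S*T + 2*S + 2*T + 2)), ((S^(2:ℕ)*T^(2:ℕ) + S^(2:ℕ)*T + S*T^(2:ℕ) - S^(2:ℕ) - S*T - T^(2:ℕ) - 2*S - 2*T - 1))/(S*T*(T + 1)*(S*T + 2*S + 2*T + 2)))) (f13 : fl S T Letter.al (((S*T^(2:ℕ) - 2*S - 2*T - 2))/(T*(S*T + 2*S + 2*T + 2)), ((S^(2:ℕ)*T^(2:ℕ) + S^(2:ℕ)*T + S*T^(2:ℕ) - S^(2:ℕ) - S*T - T^(2:ℕ) - 2*S - 2*T - 1))/(S*T*(T + 1)*(S*T + 2*S + 2*T + 2))) = (((S*T^(2:ℕ) - 2*S^(2:ℕ) - 2*S*T - 4*S - 2*T - 2))/(T*(S + 1)*(S*T + 2*S + 2*T + 2)),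 ((S^(2:ℕ)*T^(2:ℕ) + S^(2:ℕ)*T + 2*S*T^(2:ℕ) - S^(2:ℕ) - 2*S - T - 1))/(S*T*(S*T + 2*S + 2*T + 2)))) (f14 : fl S T Letter.ga (((S*T^(2:ℕ) - 2*S^(2:ℕ) - 2*S*T - 4*S - 2*T - 2))/(T*(S + 1)*(S*T + 2*S + 2*T + 2)), ((S^(2:ℕ)*T^(2:ℕ) + S^(2:ℕ)*T + 2*S*T^(2:ℕ) - S^(2:ℕ) - 2*S - T - 1))/(S*T*(S*T + 2*S + 2*T + 2))) = (((S*T^(2:ℕ) + S*T + 2*T^(2:ℕ) - S + T - 1))/(T*(S*T + 2*S + 2*T + 2)), ((S + 1)*(S*T^(2:ℕ) + 2*S*T + 2*S + 2*T + 2))/(S*T*(S*T + 2*S + 2*T + 2)))) :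
    run S T [Letter.be, Letter.ga, Letter.be, Letter.be, Letter.al, Letter.ga] (((S*T^(2:ℕ) + S*T + T^(2:ℕ) - S - 1))/(T*(S*T + 2*S + 2*T + 2)), ((2*S^(2:ℕ)*T^(2:ℕ) + 4*S^(2:ℕ)*T + 4*S*T^(2:ℕ) + S^(2:ℕ) + 6*S*T + T^(2:ℕ) + 2*S + 2*T + 1))/((S + 1)*(T + 1)^(2:ℕ)*(S*T + 2*S + 2*T + 2))) = (((S*T^(2:ℕ) + S*T + 2*T^(2:ℕ) - S + T - 1))/(T*(S*T + 2*S + 2*T + 2)), ((S + 1)*(S*T^(2:ℕ) + 2*S*T + 2*S + 2*T + 2))/(S*T*(S*T + 2*S + 2*T + 2))) := (run_cons' f9 (run_cons' f10 (run_cons' f11 (run_cons' f12 (run_cons' f13 (run_cons' f14 run_nil'))))))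

theorem D_d28 (S T : ℝ) (c5 : 0 < 2*S^(2:ℕ)*T^(2:ℕ) + 4*S^(2:ℕ)*T + 4*S*T^(2:ℕ) + S^(2:ℕ) + 6*S*T + T^(2:ℕ) + 2*S + 2*T + 1) :
    0 < (2*S^(2:ℕ)*T^(2:ℕ) + 4*S^(2:ℕ)*T + 4*S*T^(2:ℕ) + S^(2:ℕ) + 6*S*T + T^(2:ℕ) + 2*S + 2*T + 1) := c5

theorem D_q6 (S T : ℝ) (d3 : 0 < (S + 1)*(T + 1)^(2:ℕ)*(S*T + 2*S + 2*T + 2)) (d28 : 0 < (2*S^(2:ℕ)*T^(2:ℕ) + 4*S^(2:ℕ)*T + 4*S*T^(2:ℕ) + S^(2:ℕ) + 6*S*T + T^(2:ℕ) + 2*S + 2*T + 1)) :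
    0 < ((2*S^(2:ℕ)*T^(2:ℕ) + 4*S^(2:ℕ)*T + 4*S*T^(2:ℕ) + S^(2:ℕ) + 6*S*T + T^(2:ℕ) + 2*S + 2*T + 1))/((S + 1)*(T + 1)^(2:ℕ)*(S*T + 2*S + 2*T + 2)) := div_pos d28 d3

theorem D_d29 (S T : ℝ) (c13 : 0 < S^(2:ℕ)*T^(3:ℕ) + 2*S^(2:ℕ)*T^(2:ℕ) + 3*S*T^(3:ℕ) + S^(2:ℕ)*T + 6*S*T^(2:ℕ) + 2*T^(3:ℕ) + S^(2:ℕ) + 5*S*T + 5*T^(2:ℕ) + 2*S + 4*T + 1) :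
    0 < (S^(2:ℕ)*T^(3:ℕ) + 2*S^(2:ℕ)*T^(2:ℕ) + 3*S*T^(3:ℕ) + S^(2:ℕ)*T + 6*S*T^(2:ℕ) + 2*T^(3:ℕ) + S^(2:ℕ) + 5*S*T + 5*T^(2:ℕ) + 2*S + 4*T + 1) := c13

theorem D_q7 (S T : ℝ) (d3 : 0 < (S + 1)*(T + 1)^(2:ℕ)*(S*T + 2*S + 2*T + 2)) (d29 : 0 < (S^(2:ℕ)*T^(3:ℕ) + 2*S^(2:ℕ)*T^(2:ℕ) + 3*S*T^(3:ℕ) + S^(2:ℕ)*T + 6*S*T^(2:ℕ) + 2*T^(3:ℕ) + S^(2:ℕ) + 5*S*T + 5*T^(2:ℕ) + 2*S + 4*T + 1)) :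
    ((2*S^(2:ℕ)*T^(2:ℕ) + 4*S^(2:ℕ)*T + 4*S*T^(2:ℕ) + S^(2:ℕ) + 6*S*T + T^(2:ℕ) + 2*S + 2*T + 1))/((S + 1)*(T + 1)^(2:ℕ)*(S*T + 2*S + 2*T + 2)) < 1 := rlt1 d3 d29 d3 (by ring)

theorem D_sq (S T : ℝ) (q0 : 0 < ((S*T^(2:ℕ) + S*T + T^(2:ℕ) - S - 1))/(T*(S*T + 2*S + 2*T + 2))) (q1 : ((S*T^(2:ℕ) + S*T + T^(2:ℕ) - S - 1))/(T*(S*T + 2*S + 2*T + 2)) < 1) (q6 : 0 < ((2*S^(2:ℕ)*T^(2:ℕ) + 4*S^(2:ℕ)*T + 4*S*T^(2:ℕ) + S^(2:ℕ) + 6*S*T + T^(2:ℕ) + 2*S + 2*T + 1))/((S + 1)*(T + 1)^(2:ℕ)*(S*T + 2*S + 2*T + 2))) (q7 : ((2*S^(2:ℕ)*T^(2:ℕ) + 4*S^(2:ℕ)*T + 4*S*T^(2:ℕ) + S^(2:ℕ) + 6*S*T + T^(2:ℕ) + 2*S + 2*T + 1))/((S + 1)*(T + 1)^(2:ℕ)*(S*T + 2*S + 2*T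 + 2)) < 1) :
    Sq (((S*T^(2:ℕ) + S*T + T^(2:ℕ) - S - 1))/(T*(S*T + 2*S + 2*T + 2)), ((2*S^(2:ℕ)*T^(2:ℕ) + 4*S^(2:ℕ)*T + 4*S*T^(2:ℕ) + S^(2:ℕ) + 6*S*T + T^(2:ℕ) + 2*S + 2*T + 1))/((S + 1)*(T + 1)^(2:ℕ)*(S*T + 2*S + 2*T + 2))) := ⟨⟨q0, q1⟩, q6, q7⟩

theorem D_d30 (S T : ℝ) (c14 : 0 < S^(2:ℕ)*T^(2:ℕ) + S^(2:ℕ)*T + S*T^(2:ℕ) - S^(2:ℕ) - S*T - T^(2:ℕ) - 2*S - 2*T - 1) :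
    0 < (S^(2:ℕ)*T^(2:ℕ) + S^(2:ℕ)*T + S*T^(2:ℕ) - S^(2:ℕ) - S*T - T^(2:ℕ) - 2*S - 2*T - 1) := c14

theorem D_g9 (S T : ℝ) (d3 : 0 < (S + 1)*(T + 1)^(2:ℕ)*(S*T + 2*S + 2*T + 2)) (d14 : 0 < (S + 1)*(T + 1)*(S*T + 2*S + 2*T + 2)) (d30 : 0 < (S^(2:ℕ)*T^(2:ℕ) + S^(2:ℕ)*T + S*T^(2:ℕ) - S^(2:ℕ) - S*T - T^(2:ℕ) - 2*S - 2*T - 1)) :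
    1 < (T + 1) * (((2*S^(2:ℕ)*T^(2:ℕ) + 4*S^(2:ℕ)*T + 4*S*T^(2:ℕ) + S^(2:ℕ) + 6*S*T + T^(2:ℕ) + 2*S + 2*T + 1))/((S + 1)*(T + 1)^(2:ℕ)*(S*T + 2*S + 2*T + 2))) := rgt d3 d30 d14 (by ring)

theorem D_oE_0 (S T : ℝ) (g0 : S < (S + T + 1) * (((S*T^(2:ℕ) + S*T + T^(2:ℕ) - S - 1))/(T*(S*T + 2*S + 2*T + 2)))) (g9 : 1 < (T + 1) * (((2*S^(2:ℕ)*T^(2:ℕ) + 4*S^(2:ℕ)*T + 4*S*T^(2:ℕ) + S^(2:ℕ) + 6*S*T + T^(2:ℕ) + 2*S + 2*T + 1))/((S + 1)*(T + 1)^(2:ℕ)*(S*T + 2*S + 2*T + 2)))) :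
    cond S T Letter.be (((S*T^(2:ℕ) + S*T + T^(2:ℕ) - S - 1))/(T*(S*T + 2*S + 2*T + 2)), ((2*S^(2:ℕ)*T^(2:ℕ) + 4*S^(2:ℕ)*T + 4*S*T^(2:ℕ) + S^(2:ℕ) + 6*S*T + T^(2:ℕ) + 2*S + 2*T + 1))/((S + 1)*(T + 1)^(2:ℕ)*(S*T + 2*S + 2*T + 2))) := ⟨g0, g9⟩

theorem D_g10 (S T : ℝ) (d4 : 0 < T*(S + 1)*(T + 1)*(S*T + 2*S + 2*T + 2)) (d7 : 0 < (S^(3:ℕ)*T^(3:ℕ) + 2*S^(3:ℕ)*T^(2:ℕ) + 2*S^(2:ℕ)*T^(3:ℕ) + S^(3:ℕ)*T + 4*S^(2:ℕ)*T^(2:ℕ) + S*T^(3:ℕ) + S^(3:ℕ) + 5*S^(2:ℕ)*T + 5*S*T^(2:ℕ) + T^(3:ℕ) + 3*S^(2:ℕ) + 7*S*T + 3*T^(2:ℕ) + 3*S + 3*T + 1)) :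
    (S + T + 1) * (((S^(2:ℕ)*T^(2:ℕ) + S^(2:ℕ)*T + S*T^(2:ℕ) - S^(2:ℕ) - S*T - T^(2:ℕ) - 2*S - 2*T - 1))/(T*(S + 1)*(T + 1)*(S*T + 2*S + 2*T + 2))) < S := rlt d4 d7 d4 (by ring)

theorem D_oE_1 (S T : ℝ) (g10 : (S + T + 1) * (((S^(2:ℕ)*T^(2:ℕ) + S^(2:ℕ)*T + S*T^(2:ℕ) - S^(2:ℕ) - S*T - T^(2:ℕ) - 2*S - 2*T - 1))/(T*(S + 1)*(T + 1)*(S*T + 2*S + 2*T + 2))) < S) :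
    cond S T Letter.ga (((S^(2:ℕ)*T^(2:ℕ) + S^(2:ℕ)*T + S*T^(2:ℕ) - S^(2:ℕ) - S*T - T^(2:ℕ) - 2*S - 2*T - 1))/(T*(S + 1)*(T + 1)*(S*T + 2*S + 2*T + 2)), ((S + T + 1))/((S*T + 2*S + 2*T + 2))) := g10

theorem D_d31 (S T : ℝ) (pB : 0 < (T + 1)) (c15 : 0 < -S^(2:ℕ) + S + 2*T + 2) :
    0 < (T + 1)*(-S^(2:ℕ) + S + 2*T + 2) := (mul_pos pB c15)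

theorem D_g11 (S T : ℝ) (d1 : 0 < (S*T + 2*S + 2*T + 2)) (d31 : 0 < (T + 1)*(-S^(2:ℕ) + S + 2*T + 2)) :
    S < (S + T + 1) * (((S + 2*T + 2))/((S*T + 2*S + 2*T + 2))) := rgt d1 d31 d1 (by ring)

theorem D_d32 (S T : ℝ) (c16 : 0 < S^(2:ℕ)*T^(3:ℕ) + S^(2:ℕ)*T^(2:ℕ) + 2*S*T^(3:ℕ) - S^(2:ℕ)*T + S*T^(2:ℕ) + S^(2:ℕ) + S*T + T^(2:ℕ) + 2*S + 2*T + 1) :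
    0 < (S^(2:ℕ)*T^(3:ℕ) + S^(2:ℕ)*T^(2:ℕ) + 2*S*T^(3:ℕ) - S^(2:ℕ)*T + S*T^(2:ℕ) + S^(2:ℕ) + S*T + T^(2:ℕ) + 2*S + 2*T + 1) := c16

theorem D_g12 (S T : ℝ) (d24 : 0 < S*T*(T + 1)*(S*T + 2*S + 2*T + 2)) (d27 : 0 < S*T*(S*T + 2*S + 2*T + 2)) (d32 : 0 < (S^(2:ℕ)*T^(3:ℕ) + S^(2:ℕ)*T^(2:ℕ) + 2*S*T^(3:ℕ) - S^(2:ℕ)*T + S*T^(2:ℕ) + S^(2:ℕ) + S*T + T^(2:ℕ) + 2*S + 2*T + 1)) :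
    1 < (T + 1) * (((S^(2:ℕ)*T^(3:ℕ) + 2*S^(2:ℕ)*T^(2:ℕ) + 2*S*T^(3:ℕ) + S^(2:ℕ)*T + 3*S*T^(2:ℕ) + S^(2:ℕ) + 3*S*T + T^(2:ℕ) + 2*S + 2*T + 1))/(S*T*(T + 1)*(S*T + 2*S + 2*T + 2))) := rgt d24 d32 d27 (by ring)

theorem D_oE_2 (S T : ℝ) (g11 : S < (S + T + 1) * (((S + 2*T + 2))/((S*T + 2*S + 2*T + 2)))) (g12 : 1 < (T + 1) * (((S^(2:ℕ)*T^(3:ℕ) + 2*S^(2:ℕ)*T^(2:ℕ) + 2*S*T^(3:ℕ) + S^(2:ℕ)*T + 3*S*T^(2:ℕ) + S^(2:ℕ) + 3*S*T + T^(2:ℕ) + 2*S + 2*T + 1))/(S*T*(T + 1)*(S*T + 2*S + 2*T + 2)))) :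
    cond S T Letter.be (((S + 2*T + 2))/((S*T + 2*S + 2*T + 2)), ((S^(2:ℕ)*T^(3:ℕ) + 2*S^(2:ℕ)*T^(2:ℕ) + 2*S*T^(3:ℕ) + S^(2:ℕ)*T + 3*S*T^(2:ℕ) + S^(2:ℕ) + 3*S*T + T^(2:ℕ) + 2*S + 2*T + 1))/(S*T*(T + 1)*(S*T + 2*S + 2*T + 2))) := ⟨g11, g12⟩

theorem D_d33 (S T : ℝ) (c17 : 0 < S^(2:ℕ)*T^(4:ℕ) - S^(3:ℕ)*T^(2:ℕ) + 2*S^(2:ℕ)*T^(3:ℕ) + 2*S*T^(4:ℕ) - S^(3:ℕ)*T - S^(2:ℕ)*T^(2:ℕ) + 3*S*T^(3:ℕ) + S^(3:ℕ) + S^(2:ℕ)*T + 3*S*T^(2:ℕ) + T^(3:ℕ) + 3*S^(2:ℕ) + 5*S*T + 3*T^(2:ℕ) + 3*S + 3*T + 1) :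
    0 < (S^(2:ℕ)*T^(4:ℕ) - S^(3:ℕ)*T^(2:ℕ) + 2*S^(2:ℕ)*T^(3:ℕ) + 2*S*T^(4:ℕ) - S^(3:ℕ)*T - S^(2:ℕ)*T^(2:ℕ) + 3*S*T^(3:ℕ) + S^(3:ℕ) + S^(2:ℕ)*T + 3*S*T^(2:ℕ) + T^(3:ℕ) + 3*S^(2:ℕ) + 5*S*T + 3*T^(2:ℕ) + 3*S + 3*T + 1) := c17

theorem D_g13 (S T : ℝ) (d25 : 0 < S*T^(2:ℕ)*(S*T + 2*S + 2*T + 2)) (d33 : 0 < (S^(2:ℕ)*T^(4:ℕ) - S^(3:ℕ)*T^(2:ℕ) + 2*S^(2:ℕ)*T^(3:ℕ) + 2*S*T^(4:ℕ) - S^(3:ℕ)*T - S^(2:ℕ)*T^(2:ℕ) + 3*S*T^(3:ℕ) + S^(3:ℕ) + S^(2:ℕ)*T + 3*S*T^(2:ℕ) + T^(3:ℕ) + 3*S^(2:ℕ) + 5*S*T + 3*T^(2:ℕ) + 3*S + 3*T + 1)) :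
    S < (S + T + 1) * (((S^(2:ℕ)*T^(3:ℕ) + S^(2:ℕ)*T^(2:ℕ) + 2*S*T^(3:ℕ) - S^(2:ℕ)*T + S*T^(2:ℕ) + S^(2:ℕ) + S*T + T^(2:ℕ) + 2*S + 2*T + 1))/(S*T^(2:ℕ)*(S*T + 2*S + 2*T + 2))) := rgt d25 d33 d25 (by ring)

theorem D_d34 (S T : ℝ) (c18 : 0 < S*T^(2:ℕ) - 2*S - 2*T - 2) :
    0 < (S*T^(2:ℕ) - 2*S - 2*T - 2) := c18

theorem D_g14 (S T : ℝ) (d1 : 0 < (S*T + 2*S + 2*T + 2)) (d34 : 0 < (S*T^(2:ℕ) - 2*S - 2*T - 2)) :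
    1 < (T + 1) * ((S*T)/((S*T + 2*S + 2*T + 2))) := rgt d1 d34 d1 (by ring)

theorem D_oE_3 (S T : ℝ) (g13 : S < (S + T + 1) * (((S^(2:ℕ)*T^(3:ℕ) + S^(2:ℕ)*T^(2:ℕ) + 2*S*T^(3:ℕ) - S^(2:ℕ)*T + S*T^(2:ℕ) + S^(2:ℕ) + S*T + T^(2:ℕ) + 2*S + 2*T + 1))/(S*T^(2:ℕ)*(S*T + 2*S + 2*T + 2)))) (g14 : 1 < (T + 1) * ((S*T)/((S*T + 2*S + 2*T + 2)))) :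
    cond S T Letter.be (((S^(2:ℕ)*T^(3:ℕ) + S^(2:ℕ)*T^(2:ℕ) + 2*S*T^(3:ℕ) - S^(2:ℕ)*T + S*T^(2:ℕ) + S^(2:ℕ) + S*T + T^(2:ℕ) + 2*S + 2*T + 1))/(S*T^(2:ℕ)*(S*T + 2*S + 2*T + 2)), (S*T)/((S*T + 2*S + 2*T + 2))) := ⟨g13, g14⟩

theorem D_d35 (S T : ℝ) (pB : 0 < (T + 1)) (c19 : 0 < S*T^(2:ℕ) - 2*S^(2:ℕ) - 2*S*T - 4*S - 2*T - 2) :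
    0 < (T + 1)*(S*T^(2:ℕ) - 2*S^(2:ℕ) - 2*S*T - 4*S - 2*T - 2) := (mul_pos pB c19)

theorem D_g15 (S T : ℝ) (d0 : 0 < T*(S*T + 2*S + 2*T + 2)) (d35 : 0 < (T + 1)*(S*T^(2:ℕ) - 2*S^(2:ℕ) - 2*S*T - 4*S - 2*T - 2)) :
    S < (S + T + 1) * (((S*T^(2:ℕ) - 2*S - 2*T - 2))/(T*(S*T + 2*S + 2*T + 2))) := rgt d0 d35 d0 (by ring)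

theorem D_d36 (S T : ℝ) (pA : 0 < (S + 1)) (pB : 0 < (T + 1)) (pU : 0 < (S + T + 1)) :
    0 < (S + 1)*(T + 1)*(S + T + 1) := (mul_pos (mul_pos pA pB) pU)

theorem D_g16 (S T : ℝ) (d24 : 0 < S*T*(T + 1)*(S*T + 2*S + 2*T + 2)) (d27 : 0 < S*T*(S*T + 2*S + 2*T + 2)) (d36 : 0 < (S + 1)*(T + 1)*(S + T + 1)) :
    (T + 1) * (((S^(2:ℕ)*T^(2:ℕ) + S^(2:ℕ)*T + S*T^(2:ℕ) - S^(2:ℕ) - S*T - T^(2:ℕ) - 2*S - 2*T - 1))/(S*T*(T + 1)*(S*T + 2*S + 2*T + 2))) < 1 := rlt d24 d36 d27 (by ring)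

theorem D_oE_4 (S T : ℝ) (g15 : S < (S + T + 1) * (((S*T^(2:ℕ) - 2*S - 2*T - 2))/(T*(S*T + 2*S + 2*T + 2)))) (g16 : (T + 1) * (((S^(2:ℕ)*T^(2:ℕ) + S^(2:ℕ)*T + S*T^(2:ℕ) - S^(2:ℕ) - S*T - T^(2:ℕ) - 2*S - 2*T - 1))/(S*T*(T + 1)*(S*T + 2*S + 2*T + 2))) < 1) :
    cond S T Letter.al (((S*T^(2:ℕ) - 2*S - 2*T - 2))/(T*(S*T + 2*S + 2*T + 2)), ((S^(2:ℕ)*T^(2:ℕ) + S^(2:ℕ)*T + S*T^(2:ℕ) - S^(2:ℕ) - S*T - T^(2:ℕ) - 2*S - 2*T - 1))/(S*T*(T + 1)*(S*T + 2*S + 2*T + 2))) := ⟨g15, g16⟩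

theorem D_d37 (S T : ℝ) (c20 : 0 < S^(3:ℕ)*T^(2:ℕ) + 2*S^(3:ℕ)*T + 2*S^(2:ℕ)*T^(2:ℕ) - S*T^(3:ℕ) + 2*S^(3:ℕ) + 8*S^(2:ℕ)*T + 3*S*T^(2:ℕ) + 6*S^(2:ℕ) + 10*S*T + 2*T^(2:ℕ) + 6*S + 4*T + 2) :
    0 < (S^(3:ℕ)*T^(2:ℕ) + 2*S^(3:ℕ)*T + 2*S^(2:ℕ)*T^(2:ℕ) - S*T^(3:ℕ) + 2*S^(3:ℕ) + 8*S^(2:ℕ)*T + 3*S*T^(2:ℕ) + 6*S^(2:ℕ) + 10*S*T + 2*T^(2:ℕ) + 6*S + 4*T + 2) := c20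

theorem D_g17 (S T : ℝ) (d26 : 0 < T*(S + 1)*(S*T + 2*S + 2*T + 2)) (d37 : 0 < (S^(3:ℕ)*T^(2:ℕ) + 2*S^(3:ℕ)*T + 2*S^(2:ℕ)*T^(2:ℕ) - S*T^(3:ℕ) + 2*S^(3:ℕ) + 8*S^(2:ℕ)*T + 3*S*T^(2:ℕ) + 6*S^(2:ℕ) + 10*S*T + 2*T^(2:ℕ) + 6*S + 4*T + 2)) :
    (S + T + 1) * (((S*T^(2:ℕ) - 2*S^(2:ℕ) - 2*S*T - 4*S - 2*T - 2))/(T*(S + 1)*(S*T + 2*S + 2*T + 2))) < S := rlt d26 d37 d26 (by ring)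

theorem D_oE_5 (S T : ℝ) (g17 : (S + T + 1) * (((S*T^(2:ℕ) - 2*S^(2:ℕ) - 2*S*T - 4*S - 2*T - 2))/(T*(S + 1)*(S*T + 2*S + 2*T + 2))) < S) :
    cond S T Letter.ga (((S*T^(2:ℕ) - 2*S^(2:ℕ) - 2*S*T - 4*S - 2*T - 2))/(T*(S + 1)*(S*T + 2*S + 2*T + 2)), ((S^(2:ℕ)*T^(2:ℕ) + S^(2:ℕ)*T + 2*S*T^(2:ℕ) - S^(2:ℕ) - 2*S - T - 1))/(S*T*(S*T + 2*S + 2*T + 2))) := g17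

theorem D_oE (S T : ℝ) (f9 : fl S T Letter.be (((S*T^(2:ℕ) + S*T + T^(2:ℕ) - S - 1))/(T*(S*T + 2*S + 2*T + 2)), ((2*S^(2:ℕ)*T^(2:ℕ) + 4*S^(2:ℕ)*T + 4*S*T^(2:ℕ) + S^(2:ℕ) + 6*S*T + T^(2:ℕ) + 2*S + 2*T + 1))/((S + 1)*(T + 1)^(2:ℕ)*(S*T + 2*S + 2*T + 2))) = (((S^(2:ℕ)*T^(2:ℕ) + S^(2:ℕ)*T + S*T^(2:ℕ) - S^(2:ℕ) - S*T - T^(2:ℕ) - 2*S - 2*T - 1))/(T*(S + 1)*(T + 1)*(S*T + 2*S + 2*T + 2)), ((S + T + 1))/((S*T + 2*S + 2*T + 2)))) (f10 : fl S T Letter.ga (((S^(2:ℕ)*T^(2:ℕ) + S^(2:ℕ)*T + S*T^(2:ℕ) - S^(2:ℕ) - S*T - T^(2:ℕ) - 2*S - 2*T - 1))/(T*(S + 1)*(T + 1)*(S*T + 2*S + 2*T + 2)), ((S + T + 1))/((S*T + 2*S + 2*T + 2))) = (((S + 2*T + 2))/((S*T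 + 2*S + 2*T + 2)), ((S^(2:ℕ)*T^(3:ℕ) + 2*S^(2:ℕ)*T^(2:ℕ) + 2*S*T^(3:ℕ) + S^(2:ℕ)*T + 3*S*T^(2:ℕ) + S^(2:ℕ) + 3*S*T + T^(2:ℕ) + 2*S + 2*T + 1))/(S*T*(T + 1)*(S*T + 2*S + 2*T + 2)))) (f11 : fl S T Letter.be (((S + 2*T + 2))/((S*T + 2*S + 2*T + 2)), ((S^(2:ℕ)*T^(3:ℕ) + 2*S^(2:ℕ)*T^(2:ℕ) + 2*S*T^(3:ℕ) + S^(2:ℕ)*T + 3*S*T^(2:ℕ) + S^(2:ℕ) + 3*S*T + T^(2:ℕ) + 2*S + 2*T + 1))/(S*T*(T + 1)*(S*T + 2*S + 2*T + 2))) = (((S^(2:ℕ)*T^(3:ℕ) + S^(2:ℕ)*T^(2:ℕ) + 2*S*T^(3:ℕ) - S^(2:ℕ)*T + S*T^(2:ℕ) + S^(2:ℕ) + S*T + T^(2:ℕ) + 2*S + 2*T + 1))/(S*T^(2:ℕ)*(S*T + 2*S + 2*T + 2)), (S*T)/((S*T + 2*S + 2*T + 2)))) (f12 : fl S T Letter.be (((S^(2:ℕ)*T^(3:ℕ) +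 S^(2:ℕ)*T^(2:ℕ) + 2*S*T^(3:ℕ) - S^(2:ℕ)*T + S*T^(2:ℕ) + S^(2:ℕ) + S*T + T^(2:ℕ) + 2*S + 2*T + 1))/(S*T^(2:ℕ)*(S*T + 2*S + 2*T + 2)), (S*T)/((S*T + 2*S + 2*T + 2))) = (((S*T^(2:ℕ) - 2*S - 2*T - 2))/(T*(S*T + 2*S + 2*T + 2)), ((S^(2:ℕ)*T^(2:ℕ) + S^(2:ℕ)*T + S*T^(2:ℕ) - S^(2:ℕ) - S*T - T^(2:ℕ) - 2*S - 2*T - 1))/(S*T*(T + 1)*(S*T + 2*S + 2*T + 2)))) (f13 : fl S T Letter.al (((S*T^(2:ℕ) - 2*S - 2*T - 2))/(T*(S*T + 2*S + 2*T + 2)), ((S^(2:ℕ)*T^(2:ℕ) + S^(2:ℕ)*T + S*T^(2:ℕ) - S^(2:ℕ) - S*T - T^(2:ℕ) - 2*S - 2*T - 1))/(S*T*(T + 1)*(S*T + 2*S + 2*T + 2))) = (((S*T^(2:ℕ) - 2*S^(2:ℕ) - 2*S*T - 4*S - 2*T - 2))/(T*(S + 1)*(S*T + 2*S + 2*T + 2)),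 ((S^(2:ℕ)*T^(2:ℕ) + S^(2:ℕ)*T + 2*S*T^(2:ℕ) - S^(2:ℕ) - 2*S - T - 1))/(S*T*(S*T + 2*S + 2*T + 2)))) (oE_0 : cond S T Letter.be (((S*T^(2:ℕ) + S*T + T^(2:ℕ) - S - 1))/(T*(S*T + 2*S + 2*T + 2)), ((2*S^(2:ℕ)*T^(2:ℕ) + 4*S^(2:ℕ)*T + 4*S*T^(2:ℕ) + S^(2:ℕ) + 6*S*T + T^(2:ℕ) + 2*S + 2*T + 1))/((S + 1)*(T + 1)^(2:ℕ)*(S*T + 2*S + 2*T + 2)))) (oE_1 : cond S T Letter.ga (((S^(2:ℕ)*T^(2:ℕ) + S^(2:ℕ)*T + S*T^(2:ℕ) - S^(2:ℕ) - S*T - T^(2:ℕ) - 2*S - 2*T - 1))/(T*(S + 1)*(T + 1)*(S*T + 2*S + 2*T + 2)), ((S + T + 1))/((S*T + 2*S + 2*T + 2)))) (oE_2 : cond S T Letter.be (((S + 2*T + 2))/((S*T + 2*S + 2*T + 2)), ((S^(2:ℕ)*T^(3:ℕ) + 2*S^(2:ℕ)*T^(2:ℕ) +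 2*S*T^(3:ℕ) + S^(2:ℕ)*T + 3*S*T^(2:ℕ) + S^(2:ℕ) + 3*S*T + T^(2:ℕ) + 2*S + 2*T + 1))/(S*T*(T + 1)*(S*T + 2*S + 2*T + 2)))) (oE_3 : cond S T Letter.be (((S^(2:ℕ)*T^(3:ℕ) + S^(2:ℕ)*T^(2:ℕ) + 2*S*T^(3:ℕ) - S^(2:ℕ)*T + S*T^(2:ℕ) + S^(2:ℕ) + S*T + T^(2:ℕ) + 2*S + 2*T + 1))/(S*T^(2:ℕ)*(S*T + 2*S + 2*T + 2)), (S*T)/((S*T + 2*S + 2*T + 2)))) (oE_4 : cond S T Letter.al (((S*T^(2:ℕ) - 2*S - 2*T - 2))/(T*(S*T + 2*S + 2*T + 2)), ((S^(2:ℕ)*T^(2:ℕ) + S^(2:ℕ)*T + S*T^(2:ℕ) - S^(2:ℕ) - S*T - T^(2:ℕ) - 2*S - 2*T - 1))/(S*T*(T + 1)*(S*T + 2*S + 2*T + 2)))) (oE_5 : cond S T Letter.ga (((S*T^(2:ℕ) - 2*S^(2:ℕ) - 2*S*T - 4*S - 2*T - 2))/(T*(S + 1)*(S*T + 2*S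 + 2*T + 2)), ((S^(2:ℕ)*T^(2:ℕ) + S^(2:ℕ)*T + 2*S*T^(2:ℕ) - S^(2:ℕ) - 2*S - T - 1))/(S*T*(S*T + 2*S + 2*T + 2)))) :
    okc S T [Letter.be, Letter.ga, Letter.be, Letter.be, Letter.al, Letter.ga] (((S*T^(2:ℕ) + S*T + T^(2:ℕ) - S - 1))/(T*(S*T + 2*S + 2*T + 2)), ((2*S^(2:ℕ)*T^(2:ℕ) + 4*S^(2:ℕ)*T + 4*S*T^(2:ℕ) + S^(2:ℕ) + 6*S*T + T^(2:ℕ) + 2*S + 2*T + 1))/((S + 1)*(T + 1)^(2:ℕ)*(S*T + 2*S + 2*T + 2))) := (okc_cons' oE_0 f9 (okc_cons' oE_1 f10 (okc_cons' oE_2 f11 (okc_cons' oE_3 f12 (okc_cons' oE_4 f13 (okc_last' oE_5))))))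

theorem D_rB (S T : ℝ) (f0 : fl S T Letter.al (((S*T^(2:ℕ) + S*T + T^(2:ℕ) - S - 1))/(T*(S*T + 2*S + 2*T + 2)), ((S + 1))/((S*T + 2*S + 2*T + 2))) = (((T^(2:ℕ) - S - 1))/(T*(S*T + 2*S + 2*T + 2)), ((S*T + S + 2*T + 1))/((S*T + 2*S + 2*T + 2)))) (f1 : fl S T Letter.be (((T^(2:ℕ) - S - 1))/(T*(S*T + 2*S + 2*T + 2)), ((S*T + S + 2*T + 1))/((S*T + 2*S + 2*T + 2))) = (((S*T^(2:ℕ) + S*T + 2*T^(2:ℕ) - S + T - 1))/(T*(S*T + 2*S + 2*T + 2)), ((S + 1)*(T + 1))/((S*T + 2*S + 2*T + 2)))) (f2 : fl S T Letter.be (((S*T^(2:ℕ) + S*T + 2*T^(2:ℕ) - S + T - 1))/(T*(S*T + 2*S + 2*T + 2)), ((S + 1)*(T + 1))/((S*T + 2*S + 2*T + 2))) = (((S*T^(2:ℕ) + S*T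 + T^(2:ℕ) - S - 1))/(T*(S*T + 2*S + 2*T + 2)), ((S + 1))/((S*T + 2*S + 2*T + 2)))) :
    run S T [Letter.be, Letter.al, Letter.be] (((S*T^(2:ℕ) + S*T + 2*T^(2:ℕ) - S + T - 1))/(T*(S*T + 2*S + 2*T + 2)), ((S + 1)*(T + 1))/((S*T + 2*S + 2*T + 2))) = (((S*T^(2:ℕ) + S*T + 2*T^(2:ℕ) - S + T - 1))/(T*(S*T + 2*S + 2*T + 2)), ((S + 1)*(T + 1))/((S*T + 2*S + 2*T + 2))) := (run_cons' f2 (run_cons' f0 (run_cons' f1 run_nil')))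

theorem D_f15 (S T : ℝ) (pT : 0 < T) (d0 : 0 < T*(S*T + 2*S + 2*T + 2)) (d1 : 0 < (S*T + 2*S + 2*T + 2)) (d25 : 0 < S*T^(2:ℕ)*(S*T + 2*S + 2*T + 2)) (d27 : 0 < S*T*(S*T + 2*S + 2*T + 2)) :
    fl S T Letter.be (((S*T^(2:ℕ) + S*T + 2*T^(2:ℕ) - S + T - 1))/(T*(S*T + 2*S + 2*T + 2)), ((S + 1)*(S*T^(2:ℕ) + 2*S*T + 2*S + 2*T + 2))/(S*T*(S*T + 2*S + 2*T + 2))) = (((S^(2:ℕ)*T^(3:ℕ) + 2*S^(2:ℕ)*T^(2:ℕ) + S*T^(3:ℕ) + 2*S^(2:ℕ)*T + 3*S*T^(2:ℕ) + 2*S^(2:ℕ) + 6*S*T + 2*T^(2:ℕ) + 4*S + 4*T + 2))/(S*T^(2:ℕ)*(S*T + 2*S + 2*T + 2)), ((S + 1))/((S*T + 2*S + 2*T + 2))) := fl_be' pT d0 d27 d25 d1 (by ring) (by ring)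

theorem D_f16 (S T : ℝ) (pS : 0 < S) (pT : 0 < T) (d1 : 0 < (S*T + 2*S + 2*T + 2)) (d25 : 0 < S*T^(2:ℕ)*(S*T + 2*S + 2*T + 2)) :
    fl S T Letter.al (((S^(2:ℕ)*T^(3:ℕ) + 2*S^(2:ℕ)*T^(2:ℕ) + S*T^(3:ℕ) + 2*S^(2:ℕ)*T + 3*S*T^(2:ℕ) + 2*S^(2:ℕ) + 6*S*T + 2*T^(2:ℕ) + 4*S + 4*T + 2))/(S*T^(2:ℕ)*(S*T + 2*S + 2*T + 2)), ((S + 1))/((S*T + 2*S + 2*T + 2))) = (((S*T^(3:ℕ) + S*T^(2:ℕ) + 2*S^(2:ℕ) + 4*S*T + 2*T^(2:ℕ) + 4*S + 4*T + 2))/(S*T^(2:ℕ)*(S*T + 2*S + 2*T + 2)), ((S*T + S + 2*T + 1))/((S*T + 2*S + 2*T + 2))) := fl_al' pS pT d25 d1 d25 d1 (by ring) (by ring)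

theorem D_f17 (S T : ℝ) (pT : 0 < T) (d0 : 0 < T*(S*T + 2*S + 2*T + 2)) (d1 : 0 < (S*T + 2*S + 2*T + 2)) (d24 : 0 < S*T*(T + 1)*(S*T + 2*S + 2*T + 2)) (d25 : 0 < S*T^(2:ℕ)*(S*T + 2*S + 2*T + 2)) :
    fl S T Letter.be (((S*T^(3:ℕ) + S*T^(2:ℕ) + 2*S^(2:ℕ) + 4*S*T + 2*T^(2:ℕ) + 4*S + 4*T + 2))/(S*T^(2:ℕ)*(S*T + 2*S + 2*T + 2)), ((S*T + S + 2*T + 1))/((S*T + 2*S + 2*T + 2))) = (((S*T^(2:ℕ) + S*T + 2*T^(2:ℕ) - S + T - 1))/(T*(S*T + 2*S + 2*T + 2)), ((S^(2:ℕ)*T^(3:ℕ) + 2*S^(2:ℕ)*T^(2:ℕ) + S*T^(3:ℕ) + S*T^(2:ℕ) - 2*S^(2:ℕ) - 4*S*T - 2*T^(2:ℕ) - 4*S - 4*T - 2))/(S*T*(T + 1)*(S*T + 2*S + 2*T + 2))) := fl_be' pT d25 d1 d0 d24 (by ring) (by ring)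

theorem D_rr (S T : ℝ) (f15 : fl S T Letter.be (((S*T^(2:ℕ) + S*T + 2*T^(2:ℕ) - S + T - 1))/(T*(S*T + 2*S + 2*T + 2)), ((S + 1)*(S*T^(2:ℕ) + 2*S*T + 2*S + 2*T + 2))/(S*T*(S*T + 2*S + 2*T + 2))) = (((S^(2:ℕ)*T^(3:ℕ) + 2*S^(2:ℕ)*T^(2:ℕ) + S*T^(3:ℕ) + 2*S^(2:ℕ)*T + 3*S*T^(2:ℕ) + 2*S^(2:ℕ) + 6*S*T + 2*T^(2:ℕ) + 4*S + 4*T + 2))/(S*T^(2:ℕ)*(S*T + 2*S + 2*T + 2)), ((S + 1))/((S*T + 2*S + 2*T + 2)))) (f16 : fl S T Letter.al (((S^(2:ℕ)*T^(3:ℕ) + 2*S^(2:ℕ)*T^(2:ℕ) + S*T^(3:ℕ) + 2*S^(2:ℕ)*T + 3*S*T^(2:ℕ) + 2*S^(2:ℕ) + 6*S*T + 2*T^(2:ℕ) + 4*S + 4*T + 2))/(S*T^(2:ℕ)*(S*T + 2*S + 2*T + 2)), ((S + 1))/((S*T + 2*S + 2*T + 2))) = (((S*T^(3:ℕ) + S*T^(2:ℕ)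 + 2*S^(2:ℕ) + 4*S*T + 2*T^(2:ℕ) + 4*S + 4*T + 2))/(S*T^(2:ℕ)*(S*T + 2*S + 2*T + 2)), ((S*T + S + 2*T + 1))/((S*T + 2*S + 2*T + 2)))) (f17 : fl S T Letter.be (((S*T^(3:ℕ) + S*T^(2:ℕ) + 2*S^(2:ℕ) + 4*S*T + 2*T^(2:ℕ) + 4*S + 4*T + 2))/(S*T^(2:ℕ)*(S*T + 2*S + 2*T + 2)), ((S*T + S + 2*T + 1))/((S*T + 2*S + 2*T + 2))) = (((S*T^(2:ℕ) + S*T + 2*T^(2:ℕ) - S + T - 1))/(T*(S*T + 2*S + 2*T + 2)), ((S^(2:ℕ)*T^(3:ℕ) + 2*S^(2:ℕ)*T^(2:ℕ) + S*T^(3:ℕ) + S*T^(2:ℕ) - 2*S^(2:ℕ) - 4*S*T - 2*T^(2:ℕ) - 4*S - 4*T - 2))/(S*T*(T + 1)*(S*T + 2*S + 2*T + 2)))) :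
    run S T [Letter.be, Letter.al, Letter.be] (((S*T^(2:ℕ) + S*T + 2*T^(2:ℕ) - S + T - 1))/(T*(S*T + 2*S + 2*T + 2)), ((S + 1)*(S*T^(2:ℕ) + 2*S*T + 2*S + 2*T + 2))/(S*T*(S*T + 2*S + 2*T + 2))) = (((S*T^(2:ℕ) + S*T + 2*T^(2:ℕ) - S + T - 1))/(T*(S*T + 2*S + 2*T + 2)), ((S^(2:ℕ)*T^(3:ℕ) + 2*S^(2:ℕ)*T^(2:ℕ) + S*T^(3:ℕ) + S*T^(2:ℕ) - 2*S^(2:ℕ) - 4*S*T - 2*T^(2:ℕ) - 4*S - 4*T - 2))/(S*T*(T + 1)*(S*T + 2*S + 2*T + 2))) := (run_cons' f15 (run_cons' f16 (run_cons' f17 run_nil')))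

theorem D_d38 (S T : ℝ) (c21 : 0 < S*T^(2:ℕ) + S*T + 2*T^(2:ℕ) - S + T - 1) :
    0 < (S*T^(2:ℕ) + S*T + 2*T^(2:ℕ) - S + T - 1) := c21

theorem D_q8 (S T : ℝ) (d0 : 0 < T*(S*T + 2*S + 2*T + 2)) (d38 : 0 < (S*T^(2:ℕ) + S*T + 2*T^(2:ℕ) - S + T - 1)) :
    0 < ((S*T^(2:ℕ) + S*T + 2*T^(2:ℕ) - S + T - 1))/(T*(S*T + 2*S + 2*T + 2)) := div_pos d38 d0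

theorem D_d39 (S T : ℝ) (pA : 0 < (S + 1)) (pB : 0 < (T + 1)) :
    0 < (S + 1)*(T + 1) := (mul_pos pA pB)

theorem D_q9 (S T : ℝ) (d0 : 0 < T*(S*T + 2*S + 2*T + 2)) (d39 : 0 < (S + 1)*(T + 1)) :
    ((S*T^(2:ℕ) + S*T + 2*T^(2:ℕ) - S + T - 1))/(T*(S*T + 2*S + 2*T + 2)) < 1 := rlt1 d0 d39 d0 (by ring)

theorem D_d40 (S T : ℝ) (pA : 0 < (S + 1)) (c22 : 0 < S*T^(2:ℕ) + 2*S*T + 2*S + 2*T + 2) :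
    0 < (S + 1)*(S*T^(2:ℕ) + 2*S*T + 2*S + 2*T + 2) := (mul_pos pA c22)

theorem D_q10 (S T : ℝ) (d27 : 0 < S*T*(S*T + 2*S + 2*T + 2)) (d40 : 0 < (S + 1)*(S*T^(2:ℕ) + 2*S*T + 2*S + 2*T + 2)) :
    0 < ((S + 1)*(S*T^(2:ℕ) + 2*S*T + 2*S + 2*T + 2))/(S*T*(S*T + 2*S + 2*T + 2)) := div_pos d40 d27

theorem D_d41 (S T : ℝ) (c19 : 0 < S*T^(2:ℕ) - 2*S^(2:ℕ) - 2*S*T - 4*S - 2*T - 2) :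
    0 < (S*T^(2:ℕ) - 2*S^(2:ℕ) - 2*S*T - 4*S - 2*T - 2) := c19

theorem D_q11 (S T : ℝ) (d27 : 0 < S*T*(S*T + 2*S + 2*T + 2)) (d41 : 0 < (S*T^(2:ℕ) - 2*S^(2:ℕ) - 2*S*T - 4*S - 2*T - 2)) :
    ((S + 1)*(S*T^(2:ℕ) + 2*S*T + 2*S + 2*T + 2))/(S*T*(S*T + 2*S + 2*T + 2)) < 1 := rlt1 d27 d41 d27 (by ring)

theorem D_sr (S T : ℝ) (q8 : 0 < ((S*T^(2:ℕ) + S*T + 2*T^(2:ℕ) - S + T - 1))/(T*(S*T + 2*S + 2*T + 2))) (q9 : ((S*T^(2:ℕ) + S*T + 2*T^(2:ℕ) - S + T - 1))/(T*(S*T + 2*S + 2*T + 2)) < 1) (q10 : 0 < ((S + 1)*(S*T^(2:ℕ) + 2*S*T + 2*S + 2*T + 2))/(S*T*(S*T + 2*S + 2*T + 2))) (q11 : ((S + 1)*(S*T^(2:ℕ) + 2*S*T + 2*S + 2*T + 2))/(S*T*(S*T + 2*S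 + 2*T + 2)) < 1) :
    Sq (((S*T^(2:ℕ) + S*T + 2*T^(2:ℕ) - S + T - 1))/(T*(S*T + 2*S + 2*T + 2)), ((S + 1)*(S*T^(2:ℕ) + 2*S*T + 2*S + 2*T + 2))/(S*T*(S*T + 2*S + 2*T + 2))) := ⟨⟨q8, q9⟩, q10, q11⟩

theorem D_d42 (S T : ℝ) (pB : 0 < (T + 1)) (c23 : 0 < S*T^(2:ℕ) - S^(2:ℕ) + S*T + 2*T^(2:ℕ) - 2*S + T - 1) :
    0 < (T + 1)*(S*T^(2:ℕ) - S^(2:ℕ) + S*T + 2*T^(2:ℕ) - 2*S + T - 1) := (mul_pos pB c23)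

theorem D_g18 (S T : ℝ) (d0 : 0 < T*(S*T + 2*S + 2*T + 2)) (d42 : 0 < (T + 1)*(S*T^(2:ℕ) - S^(2:ℕ) + S*T + 2*T^(2:ℕ) - 2*S + T - 1)) :
    S < (S + T + 1) * (((S*T^(2:ℕ) + S*T + 2*T^(2:ℕ) - S + T - 1))/(T*(S*T + 2*S + 2*T + 2))) := rgt d0 d42 d0 (by ring)

theorem D_d43 (S T : ℝ) (c24 : 0 < S^(2:ℕ)*T^(3:ℕ) + 2*S^(2:ℕ)*T^(2:ℕ) + S*T^(3:ℕ) + 2*S^(2:ℕ)*T + 3*S*T^(2:ℕ) + 2*S^(2:ℕ) + 6*S*T + 2*T^(2:ℕ) + 4*S + 4*T + 2) :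
    0 < (S^(2:ℕ)*T^(3:ℕ) + 2*S^(2:ℕ)*T^(2:ℕ) + S*T^(3:ℕ) + 2*S^(2:ℕ)*T + 3*S*T^(2:ℕ) + 2*S^(2:ℕ) + 6*S*T + 2*T^(2:ℕ) + 4*S + 4*T + 2) := c24

theorem D_g19 (S T : ℝ) (d27 : 0 < S*T*(S*T + 2*S + 2*T + 2)) (d43 : 0 < (S^(2:ℕ)*T^(3:ℕ) + 2*S^(2:ℕ)*T^(2:ℕ) + S*T^(3:ℕ) + 2*S^(2:ℕ)*T + 3*S*T^(2:ℕ) + 2*S^(2:ℕ) + 6*S*T + 2*T^(2:ℕ) + 4*S + 4*T + 2)) :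
    1 < (T + 1) * (((S + 1)*(S*T^(2:ℕ) + 2*S*T + 2*S + 2*T + 2))/(S*T*(S*T + 2*S + 2*T + 2))) := rgt d27 d43 d27 (by ring)

theorem D_orr_0 (S T : ℝ) (g18 : S < (S + T + 1) * (((S*T^(2:ℕ) + S*T + 2*T^(2:ℕ) - S + T - 1))/(T*(S*T + 2*S + 2*T + 2)))) (g19 : 1 < (T + 1) * (((S + 1)*(S*T^(2:ℕ) + 2*S*T + 2*S + 2*T + 2))/(S*T*(S*T + 2*S + 2*T + 2)))) :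
    cond S T Letter.be (((S*T^(2:ℕ) + S*T + 2*T^(2:ℕ) - S + T - 1))/(T*(S*T + 2*S + 2*T + 2)), ((S + 1)*(S*T^(2:ℕ) + 2*S*T + 2*S + 2*T + 2))/(S*T*(S*T + 2*S + 2*T + 2))) := ⟨g18, g19⟩

theorem D_d44 (S T : ℝ) (pA : 0 < (S + 1)) (pB : 0 < (T + 1)) (c25 : 0 < S*T^(3:ℕ) + S*T^(2:ℕ) + 2*S^(2:ℕ) + 4*S*T + 2*T^(2:ℕ) + 4*S + 4*T + 2) :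
    0 < (S + 1)*(T + 1)*(S*T^(3:ℕ) + S*T^(2:ℕ) + 2*S^(2:ℕ) + 4*S*T + 2*T^(2:ℕ) + 4*S + 4*T + 2) := (mul_pos (mul_pos pA pB) c25)

theorem D_g20 (S T : ℝ) (d25 : 0 < S*T^(2:ℕ)*(S*T + 2*S + 2*T + 2)) (d44 : 0 < (S + 1)*(T + 1)*(S*T^(3:ℕ) + S*T^(2:ℕ) + 2*S^(2:ℕ) + 4*S*T + 2*T^(2:ℕ) + 4*S + 4*T + 2)) :
    S < (S + T + 1) * (((S^(2:ℕ)*T^(3:ℕ) + 2*S^(2:ℕ)*T^(2:ℕ) + S*T^(3:ℕ) + 2*S^(2:ℕ)*T + 3*S*T^(2:ℕ) + 2*S^(2:ℕ) + 6*S*T + 2*T^(2:ℕ) + 4*S + 4*T + 2))/(S*T^(2:ℕ)*(S*T + 2*S + 2*T + 2))) := rgt d25 d44 d25 (by ring)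

theorem D_d45 (S T : ℝ) (pU : 0 < (S + T + 1)) :
    0 < (S + T + 1) := pU

theorem D_g21 (S T : ℝ) (d1 : 0 < (S*T + 2*S + 2*T + 2)) (d45 : 0 < (S + T + 1)) :
    (T + 1) * (((S + 1))/((S*T + 2*S + 2*T + 2))) < 1 := rlt d1 d45 d1 (by ring)

theorem D_orr_1 (S T : ℝ) (g20 : S < (S + T + 1) * (((S^(2:ℕ)*T^(3:ℕ) + 2*S^(2:ℕ)*T^(2:ℕ) + S*T^(3:ℕ) + 2*S^(2:ℕ)*T + 3*S*T^(2:ℕ) + 2*S^(2:ℕ) + 6*S*T + 2*T^(2:ℕ) + 4*S + 4*T + 2))/(S*T^(2:ℕ)*(S*T + 2*S + 2*T + 2)))) (g21 : (T + 1) * (((S + 1))/((S*T + 2*S + 2*T + 2))) < 1) :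
    cond S T Letter.al (((S^(2:ℕ)*T^(3:ℕ) + 2*S^(2:ℕ)*T^(2:ℕ) + S*T^(3:ℕ) + 2*S^(2:ℕ)*T + 3*S*T^(2:ℕ) + 2*S^(2:ℕ) + 6*S*T + 2*T^(2:ℕ) + 4*S + 4*T + 2))/(S*T^(2:ℕ)*(S*T + 2*S + 2*T + 2)), ((S + 1))/((S*T + 2*S + 2*T + 2))) := ⟨g20, g21⟩

theorem D_d46 (S T : ℝ) (c26 : 0 < -S^(3:ℕ)*T^(3:ℕ) - 2*S^(3:ℕ)*T^(2:ℕ) - S^(2:ℕ)*T^(3:ℕ) + S*T^(4:ℕ) - S^(2:ℕ)*T^(2:ℕ) + 2*S*T^(3:ℕ) + 2*S^(3:ℕ) + 6*S^(2:ℕ)*T + 7*S*T^(2:ℕ) + 2*T^(3:ℕ) + 6*S^(2:ℕ) + 12*S*T + 6*T^(2:ℕ) + 6*S + 6*T + 2) :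
    0 < (-S^(3:ℕ)*T^(3:ℕ) - 2*S^(3:ℕ)*T^(2:ℕ) - S^(2:ℕ)*T^(3:ℕ) + S*T^(4:ℕ) - S^(2:ℕ)*T^(2:ℕ) + 2*S*T^(3:ℕ) + 2*S^(3:ℕ) + 6*S^(2:ℕ)*T + 7*S*T^(2:ℕ) + 2*T^(3:ℕ) + 6*S^(2:ℕ) + 12*S*T + 6*T^(2:ℕ) + 6*S + 6*T + 2) := c26

theorem D_g22 (S T : ℝ) (d25 : 0 < S*T^(2:ℕ)*(S*T + 2*S + 2*T + 2)) (d46 : 0 < (-S^(3:ℕ)*T^(3:ℕ) - 2*S^(3:ℕ)*T^(2:ℕ) - S^(2:ℕ)*T^(3:ℕ) + S*T^(4:ℕ) - S^(2:ℕ)*T^(2:ℕ) + 2*S*T^(3:ℕ) + 2*S^(3:ℕ) + 6*S^(2:ℕ)*T + 7*S*T^(2:ℕ) + 2*T^(3:ℕ) + 6*S^(2:ℕ) + 12*S*T + 6*T^(2:ℕ) + 6*S + 6*T + 2)) :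
    S < (S + T + 1) * (((S*T^(3:ℕ) + S*T^(2:ℕ) + 2*S^(2:ℕ) + 4*S*T + 2*T^(2:ℕ) + 4*S + 4*T + 2))/(S*T^(2:ℕ)*(S*T + 2*S + 2*T + 2))) := rgt d25 d46 d25 (by ring)

theorem D_g23 (S T : ℝ) (d1 : 0 < (S*T + 2*S + 2*T + 2)) (d38 : 0 < (S*T^(2:ℕ) + S*T + 2*T^(2:ℕ) - S + T - 1)) :
    1 < (T + 1) * (((S*T + S + 2*T + 1))/((S*T + 2*S + 2*T + 2))) := rgt d1 d38 d1 (by ring)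

theorem D_orr_2 (S T : ℝ) (g22 : S < (S + T + 1) * (((S*T^(3:ℕ) + S*T^(2:ℕ) + 2*S^(2:ℕ) + 4*S*T + 2*T^(2:ℕ) + 4*S + 4*T + 2))/(S*T^(2:ℕ)*(S*T + 2*S + 2*T + 2)))) (g23 : 1 < (T + 1) * (((S*T + S + 2*T + 1))/((S*T + 2*S + 2*T + 2)))) :
    cond S T Letter.be (((S*T^(3:ℕ) + S*T^(2:ℕ) + 2*S^(2:ℕ) + 4*S*T + 2*T^(2:ℕ) + 4*S + 4*T + 2))/(S*T^(2:ℕ)*(S*T + 2*S + 2*T + 2)), ((S*T + S + 2*T + 1))/((S*T + 2*S + 2*T + 2))) := ⟨g22, g23⟩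

theorem D_orr (S T : ℝ) (f15 : fl S T Letter.be (((S*T^(2:ℕ) + S*T + 2*T^(2:ℕ) - S + T - 1))/(T*(S*T + 2*S + 2*T + 2)), ((S + 1)*(S*T^(2:ℕ) + 2*S*T + 2*S + 2*T + 2))/(S*T*(S*T + 2*S + 2*T + 2))) = (((S^(2:ℕ)*T^(3:ℕ) + 2*S^(2:ℕ)*T^(2:ℕ) + S*T^(3:ℕ) + 2*S^(2:ℕ)*T + 3*S*T^(2:ℕ) + 2*S^(2:ℕ) + 6*S*T + 2*T^(2:ℕ) + 4*S + 4*T + 2))/(S*T^(2:ℕ)*(S*T + 2*S + 2*T + 2)), ((S + 1))/((S*T + 2*S + 2*T + 2)))) (f16 : fl S T Letter.al (((S^(2:ℕ)*T^(3:ℕ) + 2*S^(2:ℕ)*T^(2:ℕ) + S*T^(3:ℕ) + 2*S^(2:ℕ)*T + 3*S*T^(2:ℕ) + 2*S^(2:ℕ) + 6*S*T + 2*T^(2:ℕ) + 4*S + 4*T + 2))/(S*T^(2:ℕ)*(S*T + 2*S + 2*T + 2)), ((S + 1))/((S*T + 2*S + 2*T + 2))) = (((S*T^(3:ℕ) + S*T^(2:ℕ)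 + 2*S^(2:ℕ) + 4*S*T + 2*T^(2:ℕ) + 4*S + 4*T + 2))/(S*T^(2:ℕ)*(S*T + 2*S + 2*T + 2)), ((S*T + S + 2*T + 1))/((S*T + 2*S + 2*T + 2)))) (orr_0 : cond S T Letter.be (((S*T^(2:ℕ) + S*T + 2*T^(2:ℕ) - S + T - 1))/(T*(S*T + 2*S + 2*T + 2)), ((S + 1)*(S*T^(2:ℕ) + 2*S*T + 2*S + 2*T + 2))/(S*T*(S*T + 2*S + 2*T + 2)))) (orr_1 : cond S T Letter.al (((S^(2:ℕ)*T^(3:ℕ) + 2*S^(2:ℕ)*T^(2:ℕ) + S*T^(3:ℕ) + 2*S^(2:ℕ)*T + 3*S*T^(2:ℕ) + 2*S^(2:ℕ) + 6*S*T + 2*T^(2:ℕ) + 4*S + 4*T + 2))/(S*T^(2:ℕ)*(S*T + 2*S + 2*T + 2)), ((S + 1))/((S*T + 2*S + 2*T + 2)))) (orr_2 : cond S T Letter.be (((S*T^(3:ℕ) + S*T^(2:ℕ) + 2*S^(2:ℕ) + 4*S*T + 2*T^(2:ℕ) + 4*S + 4*T + 2))/(S*T^(2:ℕ)*(S*T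 + 2*S + 2*T + 2)), ((S*T + S + 2*T + 1))/((S*T + 2*S + 2*T + 2)))) :
    okc S T [Letter.be, Letter.al, Letter.be] (((S*T^(2:ℕ) + S*T + 2*T^(2:ℕ) - S + T - 1))/(T*(S*T + 2*S + 2*T + 2)), ((S + 1)*(S*T^(2:ℕ) + 2*S*T + 2*S + 2*T + 2))/(S*T*(S*T + 2*S + 2*T + 2))) := (okc_cons' orr_0 f15 (okc_cons' orr_1 f16 (okc_last' orr_2)))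

theorem D_f18 (S T : ℝ) (pT : 0 < T) (d0 : 0 < T*(S*T + 2*S + 2*T + 2)) (d1 : 0 < (S*T + 2*S + 2*T + 2)) (d24 : 0 < S*T*(T + 1)*(S*T + 2*S + 2*T + 2)) (d25 : 0 < S*T^(2:ℕ)*(S*T + 2*S + 2*T + 2)) :
    fl S T Letter.be (((S*T^(2:ℕ) + S*T + 2*T^(2:ℕ) - S + T - 1))/(T*(S*T + 2*S + 2*T + 2)), ((S^(2:ℕ)*T^(3:ℕ) + 2*S^(2:ℕ)*T^(2:ℕ) + S*T^(3:ℕ) + S*T^(2:ℕ) - 2*S^(2:ℕ) - 4*S*T - 2*T^(2:ℕ) - 4*S - 4*T - 2))/(S*T*(T + 1)*(S*T + 2*S + 2*T + 2))) = (((S + 1)*(T + 1)*(S*T^(2:ℕ) - 2*S - 2*T - 2))/(S*T^(2:ℕ)*(S*T + 2*S + 2*T + 2)), ((S + 1))/((S*T + 2*S + 2*T + 2))) := fl_be' pT d0 d24 d25 d1 (by ring) (by ring)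

theorem D_d47 (S T : ℝ) (pS : 0 < S) (pT : 0 < T) (pA : 0 < (S + 1)) (pB : 0 < (T + 1)) (c0 : 0 < S*T + 2*S + 2*T + 2) :
    0 < S*T^(2:ℕ)*(S + 1)*(T + 1)*(S*T + 2*S + 2*T + 2) := (mul_pos (mul_pos (mul_pos (mul_pos pS (pow_pos pT 2)) pA) pB) c0)

theorem D_f19 (S T : ℝ) (pS : 0 < S) (pT : 0 < T) (d1 : 0 < (S*T + 2*S + 2*T + 2)) (d25 : 0 < S*T^(2:ℕ)*(S*T + 2*S + 2*T + 2)) (d47 : 0 < S*T^(2:ℕ)*(S + 1)*(T + 1)*(S*T + 2*S + 2*T + 2)) :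
    fl S T Letter.al (((S + 1)*(T + 1)*(S*T^(2:ℕ) - 2*S - 2*T - 2))/(S*T^(2:ℕ)*(S*T + 2*S + 2*T + 2)), ((S + 1))/((S*T + 2*S + 2*T + 2))) = (((S^(2:ℕ)*T^(4:ℕ) - S^(3:ℕ)*T^(2:ℕ) + S^(2:ℕ)*T^(3:ℕ) + S*T^(4:ℕ) - 2*S^(3:ℕ)*T - 4*S^(2:ℕ)*T^(2:ℕ) - 2*S^(3:ℕ) - 10*S^(2:ℕ)*T - 9*S*T^(2:ℕ) - 2*T^(3:ℕ) - 6*S^(2:ℕ) - 14*S*T - 6*T^(2:ℕ) - 6*S - 6*T - 2))/(S*T^(2:ℕ)*(S + 1)*(T + 1)*(S*T + 2*S + 2*T + 2)), ((S*T + S + 2*T + 1))/((S*T + 2*S + 2*T + 2))) := fl_al' pS pT d25 d1 d47 d1 (by ring) (by ring)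

theorem D_d48 (S T : ℝ) (pS : 0 < S) (pT : 0 < T) (pA : 0 < (S + 1)) (pB : 0 < (T + 1)) (c0 : 0 < S*T + 2*S + 2*T + 2) :
    0 < S*T*(S + 1)*(T + 1)^(2:ℕ)*(S*T + 2*S + 2*T + 2) := (mul_pos (mul_pos (mul_pos (mul_pos pS pT) pA) (pow_pos pB 2)) c0)

theorem D_f20 (S T : ℝ) (pT : 0 < T) (d0 : 0 < T*(S*T + 2*S + 2*T + 2)) (d1 : 0 < (S*T + 2*S + 2*T + 2)) (d47 : 0 < S*T^(2:ℕ)*(S + 1)*(T + 1)*(S*T + 2*S + 2*T + 2)) (d48 : 0 < S*T*(S + 1)*(T + 1)^(2:ℕ)*(S*T + 2*S + 2*T + 2)) :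
    fl S T Letter.be (((S^(2:ℕ)*T^(4:ℕ) - S^(3:ℕ)*T^(2:ℕ) + S^(2:ℕ)*T^(3:ℕ) + S*T^(4:ℕ) - 2*S^(3:ℕ)*T - 4*S^(2:ℕ)*T^(2:ℕ) - 2*S^(3:ℕ) - 10*S^(2:ℕ)*T - 9*S*T^(2:ℕ) - 2*T^(3:ℕ) - 6*S^(2:ℕ) - 14*S*T - 6*T^(2:ℕ) - 6*S - 6*T - 2))/(S*T^(2:ℕ)*(S + 1)*(T + 1)*(S*T + 2*S + 2*T + 2)), ((S*T + S + 2*T + 1))/((S*T + 2*S + 2*T + 2))) = (((S*T^(2:ℕ) + S*T + 2*T^(2:ℕ) - S + T - 1))/(T*(S*T + 2*S + 2*T + 2)), ((S^(3:ℕ)*T^(4:ℕ) + 3*S^(3:ℕ)*T^(3:ℕ) + 2*S^(2:ℕ)*T^(4:ℕ) + 3*S^(3:ℕ)*T^(2:ℕ) + 6*S^(2:ℕ)*T^(3:ℕ) + S*T^(4:ℕ) + 2*S^(3:ℕ)*T + 8*S^(2:ℕ)*T^(2:ℕ) + 4*S*T^(3:ℕ) + 2*S^(3:ℕ) + 10*S^(2:ℕ)*T + 11*S*T^(2:ℕ) + 2*T^(3:ℕ) + 6*S^(2:ℕ) + 14*S*T + 6*T^(2:ℕ)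 + 6*S + 6*T + 2))/(S*T*(S + 1)*(T + 1)^(2:ℕ)*(S*T + 2*S + 2*T + 2))) := fl_be' pT d47 d1 d0 d48 (by ring) (by ring)

theorem D_d49 (S T : ℝ) (c27 : 0 < S^(2:ℕ)*T^(3:ℕ) + 2*S^(2:ℕ)*T^(2:ℕ) + S*T^(3:ℕ) + S*T^(2:ℕ) - 2*S^(2:ℕ) - 4*S*T - 2*T^(2:ℕ) - 4*S - 4*T - 2) :
    0 < (S^(2:ℕ)*T^(3:ℕ) + 2*S^(2:ℕ)*T^(2:ℕ) + S*T^(3:ℕ) + S*T^(2:ℕ) - 2*S^(2:ℕ) - 4*S*T - 2*T^(2:ℕ) - 4*S - 4*T - 2) := c27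

theorem D_q12 (S T : ℝ) (d24 : 0 < S*T*(T + 1)*(S*T + 2*S + 2*T + 2)) (d49 : 0 < (S^(2:ℕ)*T^(3:ℕ) + 2*S^(2:ℕ)*T^(2:ℕ) + S*T^(3:ℕ) + S*T^(2:ℕ) - 2*S^(2:ℕ) - 4*S*T - 2*T^(2:ℕ) - 4*S - 4*T - 2)) :
    0 < ((S^(2:ℕ)*T^(3:ℕ) + 2*S^(2:ℕ)*T^(2:ℕ) + S*T^(3:ℕ) + S*T^(2:ℕ) - 2*S^(2:ℕ) - 4*S*T - 2*T^(2:ℕ) - 4*S - 4*T - 2))/(S*T*(T + 1)*(S*T + 2*S + 2*T + 2)) := div_pos d49 d24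

theorem D_d50 (S T : ℝ) (pU : 0 < (S + T + 1)) (c22 : 0 < S*T^(2:ℕ) + 2*S*T + 2*S + 2*T + 2) :
    0 < (S + T + 1)*(S*T^(2:ℕ) + 2*S*T + 2*S + 2*T + 2) := (mul_pos pU c22)

theorem D_q13 (S T : ℝ) (d24 : 0 < S*T*(T + 1)*(S*T + 2*S + 2*T + 2)) (d50 : 0 < (S + T + 1)*(S*T^(2:ℕ) + 2*S*T + 2*S + 2*T + 2)) :
    ((S^(2:ℕ)*T^(3:ℕ) + 2*S^(2:ℕ)*T^(2:ℕ) + S*T^(3:ℕ) + S*T^(2:ℕ) - 2*S^(2:ℕ) - 4*S*T - 2*T^(2:ℕ) - 4*S - 4*T - 2))/(S*T*(T + 1)*(S*T + 2*S + 2*T + 2)) < 1 := rlt1 d24 d50 d24 (by ring)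

theorem D_sC (S T : ℝ) (q8 : 0 < ((S*T^(2:ℕ) + S*T + 2*T^(2:ℕ) - S + T - 1))/(T*(S*T + 2*S + 2*T + 2))) (q9 : ((S*T^(2:ℕ) + S*T + 2*T^(2:ℕ) - S + T - 1))/(T*(S*T + 2*S + 2*T + 2)) < 1) (q12 : 0 < ((S^(2:ℕ)*T^(3:ℕ) + 2*S^(2:ℕ)*T^(2:ℕ) + S*T^(3:ℕ) + S*T^(2:ℕ) - 2*S^(2:ℕ) - 4*S*T - 2*T^(2:ℕ) - 4*S - 4*T - 2))/(S*T*(T + 1)*(S*T + 2*S + 2*T + 2))) (q13 : ((S^(2:ℕ)*T^(3:ℕ) + 2*S^(2:ℕ)*T^(2:ℕ) + S*T^(3:ℕ) + S*T^(2:ℕ) - 2*S^(2:ℕ) - 4*S*T - 2*T^(2:ℕ) - 4*S - 4*T - 2))/(S*T*(T + 1)*(S*T + 2*S + 2*T + 2)) < 1) :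
    Sq (((S*T^(2:ℕ) + S*T + 2*T^(2:ℕ) - S + T - 1))/(T*(S*T + 2*S + 2*T + 2)), ((S^(2:ℕ)*T^(3:ℕ) + 2*S^(2:ℕ)*T^(2:ℕ) + S*T^(3:ℕ) + S*T^(2:ℕ) - 2*S^(2:ℕ) - 4*S*T - 2*T^(2:ℕ) - 4*S - 4*T - 2))/(S*T*(T + 1)*(S*T + 2*S + 2*T + 2))) := ⟨⟨q8, q9⟩, q12, q13⟩

theorem D_d51 (S T : ℝ) (pA : 0 < (S + 1)) (pB : 0 < (T + 1)) (c18 : 0 < S*T^(2:ℕ) - 2*S - 2*T - 2) :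
    0 < (S + 1)*(T + 1)*(S*T^(2:ℕ) - 2*S - 2*T - 2) := (mul_pos (mul_pos pA pB) c18)

theorem D_g24 (S T : ℝ) (d24 : 0 < S*T*(T + 1)*(S*T + 2*S + 2*T + 2)) (d27 : 0 < S*T*(S*T + 2*S + 2*T + 2)) (d51 : 0 < (S + 1)*(T + 1)*(S*T^(2:ℕ) - 2*S - 2*T - 2)) :
    1 < (T + 1) * (((S^(2:ℕ)*T^(3:ℕ) + 2*S^(2:ℕ)*T^(2:ℕ) + S*T^(3:ℕ) + S*T^(2:ℕ) - 2*S^(2:ℕ) - 4*S*T - 2*T^(2:ℕ) - 4*S - 4*T - 2))/(S*T*(T + 1)*(S*T + 2*S + 2*T + 2))) := rgt d24 d51 d27 (by ring)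

theorem D_oC_0 (S T : ℝ) (g18 : S < (S + T + 1) * (((S*T^(2:ℕ) + S*T + 2*T^(2:ℕ) - S + T - 1))/(T*(S*T + 2*S + 2*T + 2)))) (g24 : 1 < (T + 1) * (((S^(2:ℕ)*T^(3:ℕ) + 2*S^(2:ℕ)*T^(2:ℕ) + S*T^(3:ℕ) + S*T^(2:ℕ) - 2*S^(2:ℕ) - 4*S*T - 2*T^(2:ℕ) - 4*S - 4*T - 2))/(S*T*(T + 1)*(S*T + 2*S + 2*T + 2)))) :
    cond S T Letter.be (((S*T^(2:ℕ) + S*T + 2*T^(2:ℕ) - S + T - 1))/(T*(S*T + 2*S + 2*T + 2)), ((S^(2:ℕ)*T^(3:ℕ) + 2*S^(2:ℕ)*T^(2:ℕ) + S*T^(3:ℕ) + S*T^(2:ℕ) - 2*S^(2:ℕ) - 4*S*T - 2*T^(2:ℕ) - 4*S - 4*T - 2))/(S*T*(T + 1)*(S*T + 2*S + 2*T + 2))) := ⟨g18, g24⟩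

theorem D_d52 (S T : ℝ) (c28 : 0 < S^(2:ℕ)*T^(4:ℕ) - S^(3:ℕ)*T^(2:ℕ) + S^(2:ℕ)*T^(3:ℕ) + S*T^(4:ℕ) - 2*S^(3:ℕ)*T - 4*S^(2:ℕ)*T^(2:ℕ) - 2*S^(3:ℕ) - 10*S^(2:ℕ)*T - 9*S*T^(2:ℕ) - 2*T^(3:ℕ) - 6*S^(2:ℕ) - 14*S*T - 6*T^(2:ℕ) - 6*S - 6*T - 2) :
    0 < (S^(2:ℕ)*T^(4:ℕ) - S^(3:ℕ)*T^(2:ℕ) + S^(2:ℕ)*T^(3:ℕ) + S*T^(4:ℕ) - 2*S^(3:ℕ)*T - 4*S^(2:ℕ)*T^(2:ℕ) - 2*S^(3:ℕ) - 10*S^(2:ℕ)*T - 9*S*T^(2:ℕ) - 2*T^(3:ℕ) - 6*S^(2:ℕ) - 14*S*T - 6*T^(2:ℕ) - 6*S - 6*T - 2) := c28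

theorem D_g25 (S T : ℝ) (d25 : 0 < S*T^(2:ℕ)*(S*T + 2*S + 2*T + 2)) (d52 : 0 < (S^(2:ℕ)*T^(4:ℕ) - S^(3:ℕ)*T^(2:ℕ) + S^(2:ℕ)*T^(3:ℕ) + S*T^(4:ℕ) - 2*S^(3:ℕ)*T - 4*S^(2:ℕ)*T^(2:ℕ) - 2*S^(3:ℕ) - 10*S^(2:ℕ)*T - 9*S*T^(2:ℕ) - 2*T^(3:ℕ) - 6*S^(2:ℕ) - 14*S*T - 6*T^(2:ℕ) - 6*S - 6*T - 2)) :
    S < (S + T + 1) * (((S + 1)*(T + 1)*(S*T^(2:ℕ) - 2*S - 2*T - 2))/(S*T^(2:ℕ)*(S*T + 2*S + 2*T + 2))) := rgt d25 d52 d25 (by ring)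

theorem D_oC_1 (S T : ℝ) (g21 : (T + 1) * (((S + 1))/((S*T + 2*S + 2*T + 2))) < 1) (g25 : S < (S + T + 1) * (((S + 1)*(T + 1)*(S*T^(2:ℕ) - 2*S - 2*T - 2))/(S*T^(2:ℕ)*(S*T + 2*S + 2*T + 2)))) :
    cond S T Letter.al (((S + 1)*(T + 1)*(S*T^(2:ℕ) - 2*S - 2*T - 2))/(S*T^(2:ℕ)*(S*T + 2*S + 2*T + 2)), ((S + 1))/((S*T + 2*S + 2*T + 2))) := ⟨g25, g21⟩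

theorem D_d53 (S T : ℝ) (c29 : 0 < -S^(4:ℕ)*T^(4:ℕ) - 3*S^(4:ℕ)*T^(3:ℕ) - 2*S^(3:ℕ)*T^(4:ℕ) + S^(2:ℕ)*T^(5:ℕ) - 3*S^(4:ℕ)*T^(2:ℕ) - 7*S^(3:ℕ)*T^(3:ℕ) + S^(2:ℕ)*T^(4:ℕ) + S*T^(5:ℕ) - 2*S^(4:ℕ)*T - 11*S^(3:ℕ)*T^(2:ℕ) - 7*S^(2:ℕ)*T^(3:ℕ) + S*T^(4:ℕ) - 2*S^(4:ℕ) - 14*S^(3:ℕ)*T - 25*S^(2:ℕ)*T^(2:ℕ) - 11*S*T^(3:ℕ) - 2*T^(4:ℕ) - 8*S^(3:ℕ) - 30*S^(2:ℕ)*T - 29*S*T^(2:ℕ) - 8*T^(3:ℕ) - 12*S^(2:ℕ) - 26*S*T - 12*T^(2:ℕ) - 8*S - 8*T - 2) :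
    0 < (-S^(4:ℕ)*T^(4:ℕ) - 3*S^(4:ℕ)*T^(3:ℕ) - 2*S^(3:ℕ)*T^(4:ℕ) + S^(2:ℕ)*T^(5:ℕ) - 3*S^(4:ℕ)*T^(2:ℕ) - 7*S^(3:ℕ)*T^(3:ℕ) + S^(2:ℕ)*T^(4:ℕ) + S*T^(5:ℕ) - 2*S^(4:ℕ)*T - 11*S^(3:ℕ)*T^(2:ℕ) - 7*S^(2:ℕ)*T^(3:ℕ) + S*T^(4:ℕ) - 2*S^(4:ℕ) - 14*S^(3:ℕ)*T - 25*S^(2:ℕ)*T^(2:ℕ) - 11*S*T^(3:ℕ) - 2*T^(4:ℕ) - 8*S^(3:ℕ) - 30*S^(2:ℕ)*T - 29*S*T^(2:ℕ) - 8*T^(3:ℕ) - 12*S^(2:ℕ) - 26*S*T - 12*T^(2:ℕ) - 8*S - 8*T - 2) := c29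

theorem D_g26 (S T : ℝ) (d47 : 0 < S*T^(2:ℕ)*(S + 1)*(T + 1)*(S*T + 2*S + 2*T + 2)) (d53 : 0 < (-S^(4:ℕ)*T^(4:ℕ) - 3*S^(4:ℕ)*T^(3:ℕ) - 2*S^(3:ℕ)*T^(4:ℕ) + S^(2:ℕ)*T^(5:ℕ) - 3*S^(4:ℕ)*T^(2:ℕ) - 7*S^(3:ℕ)*T^(3:ℕ) + S^(2:ℕ)*T^(4:ℕ) + S*T^(5:ℕ) - 2*S^(4:ℕ)*T - 11*S^(3:ℕ)*T^(2:ℕ) - 7*S^(2:ℕ)*T^(3:ℕ) + S*T^(4:ℕ) - 2*S^(4:ℕ) - 14*S^(3:ℕ)*T - 25*S^(2:ℕ)*T^(2:ℕ) - 11*S*T^(3:ℕ) - 2*T^(4:ℕ) - 8*S^(3:ℕ) - 30*S^(2:ℕ)*T - 29*S*T^(2:ℕ) - 8*T^(3:ℕ) - 12*S^(2:ℕ) - 26*S*T - 12*T^(2:ℕ) - 8*S - 8*T - 2)) :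
    S < (S + T + 1) * (((S^(2:ℕ)*T^(4:ℕ) - S^(3:ℕ)*T^(2:ℕ) + S^(2:ℕ)*T^(3:ℕ) + S*T^(4:ℕ) - 2*S^(3:ℕ)*T - 4*S^(2:ℕ)*T^(2:ℕ) - 2*S^(3:ℕ) - 10*S^(2:ℕ)*T - 9*S*T^(2:ℕ) - 2*T^(3:ℕ) - 6*S^(2:ℕ) - 14*S*T - 6*T^(2:ℕ) - 6*S - 6*T - 2))/(S*T^(2:ℕ)*(S + 1)*(T + 1)*(S*T + 2*S + 2*T + 2))) := rgt d47 d53 d47 (by ring)

theorem D_oC_2 (S T : ℝ) (g23 : 1 < (T + 1) * (((S*T + S + 2*T + 1))/((S*T + 2*S + 2*T + 2)))) (g26 : S < (S + T + 1) * (((S^(2:ℕ)*T^(4:ℕ) - S^(3:ℕ)*T^(2:ℕ) + S^(2:ℕ)*T^(3:ℕ) + S*T^(4:ℕ) - 2*S^(3:ℕ)*T - 4*S^(2:ℕ)*T^(2:ℕ) - 2*S^(3:ℕ) - 10*S^(2:ℕ)*T - 9*S*T^(2:ℕ) - 2*T^(3:ℕ) - 6*S^(2:ℕ) - 14*S*T - 6*T^(2:ℕ) - 6*S - 6*T - 2))/(S*T^(2:ℕ)*(S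 + 1)*(T + 1)*(S*T + 2*S + 2*T + 2)))) :
    cond S T Letter.be (((S^(2:ℕ)*T^(4:ℕ) - S^(3:ℕ)*T^(2:ℕ) + S^(2:ℕ)*T^(3:ℕ) + S*T^(4:ℕ) - 2*S^(3:ℕ)*T - 4*S^(2:ℕ)*T^(2:ℕ) - 2*S^(3:ℕ) - 10*S^(2:ℕ)*T - 9*S*T^(2:ℕ) - 2*T^(3:ℕ) - 6*S^(2:ℕ) - 14*S*T - 6*T^(2:ℕ) - 6*S - 6*T - 2))/(S*T^(2:ℕ)*(S + 1)*(T + 1)*(S*T + 2*S + 2*T + 2)), ((S*T + S + 2*T + 1))/((S*T + 2*S + 2*T + 2))) := ⟨g26, g23⟩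

theorem D_oC (S T : ℝ) (f18 : fl S T Letter.be (((S*T^(2:ℕ) + S*T + 2*T^(2:ℕ) - S + T - 1))/(T*(S*T + 2*S + 2*T + 2)), ((S^(2:ℕ)*T^(3:ℕ) + 2*S^(2:ℕ)*T^(2:ℕ) + S*T^(3:ℕ) + S*T^(2:ℕ) - 2*S^(2:ℕ) - 4*S*T - 2*T^(2:ℕ) - 4*S - 4*T - 2))/(S*T*(T + 1)*(S*T + 2*S + 2*T + 2))) = (((S + 1)*(T + 1)*(S*T^(2:ℕ) - 2*S - 2*T - 2))/(S*T^(2:ℕ)*(S*T + 2*S + 2*T + 2)), ((S + 1))/((S*T + 2*S + 2*T + 2)))) (f19 : fl S T Letter.al (((S + 1)*(T + 1)*(S*T^(2:ℕ) - 2*S - 2*T - 2))/(S*T^(2:ℕ)*(S*T + 2*S + 2*T + 2)), ((S + 1))/((S*T + 2*S + 2*T + 2))) = (((S^(2:ℕ)*T^(4:ℕ) - S^(3:ℕ)*T^(2:ℕ) + S^(2:ℕ)*T^(3:ℕ) + S*T^(4:ℕ) - 2*S^(3:ℕ)*T - 4*S^(2:ℕ)*T^(2:ℕ) - 2*S^(3:ℕ)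 - 10*S^(2:ℕ)*T - 9*S*T^(2:ℕ) - 2*T^(3:ℕ) - 6*S^(2:ℕ) - 14*S*T - 6*T^(2:ℕ) - 6*S - 6*T - 2))/(S*T^(2:ℕ)*(S + 1)*(T + 1)*(S*T + 2*S + 2*T + 2)), ((S*T + S + 2*T + 1))/((S*T + 2*S + 2*T + 2)))) (oC_0 : cond S T Letter.be (((S*T^(2:ℕ) + S*T + 2*T^(2:ℕ) - S + T - 1))/(T*(S*T + 2*S + 2*T + 2)), ((S^(2:ℕ)*T^(3:ℕ) + 2*S^(2:ℕ)*T^(2:ℕ) + S*T^(3:ℕ) + S*T^(2:ℕ) - 2*S^(2:ℕ) - 4*S*T - 2*T^(2:ℕ) - 4*S - 4*T - 2))/(S*T*(T + 1)*(S*T + 2*S + 2*T + 2)))) (oC_1 : cond S T Letter.al (((S + 1)*(T + 1)*(S*T^(2:ℕ) - 2*S - 2*T - 2))/(S*T^(2:ℕ)*(S*T + 2*S + 2*T + 2)), ((S + 1))/((S*T + 2*S + 2*T + 2)))) (oC_2 : cond S T Letter.be (((S^(2:ℕ)*T^(4:ℕ) - S^(3:ℕ)*T^(2:ℕ)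 + S^(2:ℕ)*T^(3:ℕ) + S*T^(4:ℕ) - 2*S^(3:ℕ)*T - 4*S^(2:ℕ)*T^(2:ℕ) - 2*S^(3:ℕ) - 10*S^(2:ℕ)*T - 9*S*T^(2:ℕ) - 2*T^(3:ℕ) - 6*S^(2:ℕ) - 14*S*T - 6*T^(2:ℕ) - 6*S - 6*T - 2))/(S*T^(2:ℕ)*(S + 1)*(T + 1)*(S*T + 2*S + 2*T + 2)), ((S*T + S + 2*T + 1))/((S*T + 2*S + 2*T + 2)))) :
    okc S T [Letter.be, Letter.al, Letter.be] (((S*T^(2:ℕ) + S*T + 2*T^(2:ℕ) - S + T - 1))/(T*(S*T + 2*S + 2*T + 2)), ((S^(2:ℕ)*T^(3:ℕ) + 2*S^(2:ℕ)*T^(2:ℕ) + S*T^(3:ℕ) + S*T^(2:ℕ) - 2*S^(2:ℕ) - 4*S*T - 2*T^(2:ℕ) - 4*S - 4*T - 2))/(S*T*(T + 1)*(S*T + 2*S + 2*T + 2))) := (okc_cons' oC_0 f18 (okc_cons' oC_1 f19 (okc_last' oC_2)))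

theorem D_d54 (S T : ℝ) (pA : 0 < (S + 1)) (pB : 0 < (T + 1)) :
    0 < (S + 1)*(T + 1)^(2:ℕ) := (mul_pos pA (pow_pos pB 2))

theorem D_vP (S T : ℝ) (d1 : 0 < (S*T + 2*S + 2*T + 2)) (d2 : 0 < (S + 1)^(2:ℕ)*(T + 1)^(3:ℕ)*(S*T + 2*S + 2*T + 2)) (d39 : 0 < (S + 1)*(T + 1)) (d54 : 0 < (S + 1)*(T + 1)^(2:ℕ)) :
    ((((S*T^(2:ℕ) + S*T + T^(2:ℕ) - S - 1))/(T*(S*T + 2*S + 2*T + 2)), ((S + 1))/((S*T + 2*S + 2*T + 2))) : ℝ × ℝ) + ((-((S + T + 1)))/((S + 1)*(T + 1))) • ((0, (S*T)/((S + 1)*(T + 1)^(2:ℕ))) : ℝ × ℝ) = (((S*T^(2:ℕ) + S*T + T^(2:ℕ) - S - 1))/(T*(S*T + 2*S + 2*T + 2)), ((S^(3:ℕ)*T^(3:ℕ) + 2*S^(3:ℕ)*T^(2:ℕ) + 2*S^(2:ℕ)*T^(3:ℕ) + S^(3:ℕ)*T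 + 4*S^(2:ℕ)*T^(2:ℕ) + S*T^(3:ℕ) + S^(3:ℕ) + 5*S^(2:ℕ)*T + 5*S*T^(2:ℕ) + T^(3:ℕ) + 3*S^(2:ℕ) + 7*S*T + 3*T^(2:ℕ) + 3*S + 3*T + 1))/((S + 1)^(2:ℕ)*(T + 1)^(3:ℕ)*(S*T + 2*S + 2*T + 2))) := vecY (radd d1 d39 d54 d2 (by ring))

theorem D_vq (S T : ℝ) (d1 : 0 < (S*T + 2*S + 2*T + 2)) (d3 : 0 < (S + 1)*(T + 1)^(2:ℕ)*(S*T + 2*S + 2*T + 2)) (d54 : 0 < (S + 1)*(T + 1)^(2:ℕ)) :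
    ((((S*T^(2:ℕ) + S*T + T^(2:ℕ) - S - 1))/(T*(S*T + 2*S + 2*T + 2)), ((S + 1))/((S*T + 2*S + 2*T + 2))) : ℝ × ℝ) + ((0, (S*T)/((S + 1)*(T + 1)^(2:ℕ))) : ℝ × ℝ) = (((S*T^(2:ℕ) + S*T + T^(2:ℕ) - S - 1))/(T*(S*T + 2*S + 2*T + 2)), ((2*S^(2:ℕ)*T^(2:ℕ) + 4*S^(2:ℕ)*T + 4*S*T^(2:ℕ) + S^(2:ℕ) + 6*S*T + T^(2:ℕ) + 2*S + 2*T + 1))/((S + 1)*(T + 1)^(2:ℕ)*(S*T + 2*S + 2*T + 2))) := vecY1 (radd1 d1 d54 d3 (by ring))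

theorem D_d55 (S T : ℝ) (pS : 0 < S) (pT : 0 < T) :
    0 < S*T := (mul_pos pS pT)

theorem D_vr (S T : ℝ) (d1 : 0 < (S*T + 2*S + 2*T + 2)) (d27 : 0 < S*T*(S*T + 2*S + 2*T + 2)) (d55 : 0 < S*T) :
    ((((S*T^(2:ℕ) + S*T + 2*T^(2:ℕ) - S + T - 1))/(T*(S*T + 2*S + 2*T + 2)), ((S + 1)*(T + 1))/((S*T + 2*S + 2*T + 2))) : ℝ × ℝ) + ((0, ((S + 1))/(S*T)) : ℝ × ℝ) = (((S*T^(2:ℕ) + S*T + 2*T^(2:ℕ) - S + T - 1))/(T*(S*T + 2*S + 2*T + 2)), ((S + 1)*(S*T^(2:ℕ) + 2*S*T + 2*S + 2*T + 2))/(S*T*(S*T + 2*S + 2*T + 2))) := vecY1 (radd1 d1 d55 d27 (by ring))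

theorem D_vQ (S T : ℝ) (d1 : 0 < (S*T + 2*S + 2*T + 2)) (d16 : 0 < (S + 1)^(3:ℕ)*(T + 1)^(4:ℕ)*(S*T + 2*S + 2*T + 2)) (d39 : 0 < (S + 1)*(T + 1)) (d54 : 0 < (S + 1)*(T + 1)^(2:ℕ)) :
    ((((S*T^(2:ℕ) + S*T + T^(2:ℕ) - S - 1))/(T*(S*T + 2*S + 2*T + 2)), ((S + 1))/((S*T + 2*S + 2*T + 2))) : ℝ × ℝ) + (((-((S + T + 1)))/((S + 1)*(T + 1)))^(2:ℕ)) • ((0, (S*T)/((S + 1)*(T + 1)^(2:ℕ))) : ℝ × ℝ) = (((S*T^(2:ℕ) + S*T + T^(2:ℕ) - S - 1))/(T*(S*T + 2*S + 2*T + 2)), ((S^(4:ℕ)*T^(4:ℕ) + 4*S^(4:ℕ)*T^(3:ℕ) + 4*S^(3:ℕ)*T^(4:ℕ) + 7*S^(4:ℕ)*T^(2:ℕ) + 18*S^(3:ℕ)*T^(3:ℕ) + 7*S^(2:ℕ)*T^(4:ℕ) + 6*S^(4:ℕ)*T + 32*S^(3:ℕ)*T^(2:ℕ) + 32*S^(2:ℕ)*T^(3:ℕ) + 6*S*T^(4:ℕ)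 + S^(4:ℕ) + 22*S^(3:ℕ)*T + 49*S^(2:ℕ)*T^(2:ℕ) + 22*S*T^(3:ℕ) + T^(4:ℕ) + 4*S^(3:ℕ) + 30*S^(2:ℕ)*T + 30*S*T^(2:ℕ) + 4*T^(3:ℕ) + 6*S^(2:ℕ) + 18*S*T + 6*T^(2:ℕ) + 4*S + 4*T + 1))/((S + 1)^(3:ℕ)*(T + 1)^(4:ℕ)*(S*T + 2*S + 2*T + 2))) := vecY (radd2 d1 d39 d54 d16 (by ring))

theorem D_vC (S T : ℝ) (d1 : 0 < (S*T + 2*S + 2*T + 2)) (d24 : 0 < S*T*(T + 1)*(S*T + 2*S + 2*T + 2)) (d39 : 0 < (S + 1)*(T + 1)) (d55 : 0 < S*T) :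
    ((((S*T^(2:ℕ) + S*T + 2*T^(2:ℕ) - S + T - 1))/(T*(S*T + 2*S + 2*T + 2)), ((S + 1)*(T + 1))/((S*T + 2*S + 2*T + 2))) : ℝ × ℝ) + ((-((S + T + 1)))/((S + 1)*(T + 1))) • ((0, ((S + 1))/(S*T)) : ℝ × ℝ) = (((S*T^(2:ℕ) + S*T + 2*T^(2:ℕ) - S + T - 1))/(T*(S*T + 2*S + 2*T + 2)), ((S^(2:ℕ)*T^(3:ℕ) + 2*S^(2:ℕ)*T^(2:ℕ) + S*T^(3:ℕ) + S*T^(2:ℕ) - 2*S^(2:ℕ) - 4*S*T - 2*T^(2:ℕ) - 4*S - 4*T - 2))/(S*T*(T + 1)*(S*T + 2*S + 2*T + 2))) := vecY (radd d1 d39 d55 d24 (by ring))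

theorem D_nun (S T : ℝ) (d39 : 0 < (S + 1)*(T + 1)) (d45 : 0 < (S + T + 1)) :
    (-((S + T + 1)))/((S + 1)*(T + 1)) < 0 := rneg d45 d39

theorem D_num (S T : ℝ) (d39 : 0 < (S + 1)*(T + 1)) (d55 : 0 < S*T) :
    -1 < (-((S + T + 1)))/((S + 1)*(T + 1)) := rgtm d39 d55 d39 (by ring)

theorem D_kan (S T : ℝ) (d39 : 0 < (S + 1)*(T + 1)) (d45 : 0 < (S + T + 1)) :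
    (-((S + T + 1)))/((S + 1)*(T + 1)) < 0 := rneg d45 d39

theorem D_kam (S T : ℝ) (d39 : 0 < (S + 1)*(T + 1)) (d55 : 0 < S*T) :
    -1 < (-((S + T + 1)))/((S + 1)*(T + 1)) := rgtm d39 d55 d39 (by ring)

theorem D_d56 (S T : ℝ) (pA : 0 < (S + 1)) :
    0 < (S + 1) := pA

theorem D_hdB (S T : ℝ) (d55 : 0 < S*T) (d56 : 0 < (S + 1)) :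
    ((0, ((S + 1))/(S*T)) : ℝ × ℝ) ≠ 0 := ne0Y (div_pos d56 d55).ne'

theorem fam_D {S T : ℝ} (h4 : 4 ≤ S) (hL : 2*S + S^(2:ℕ) ≤ T) (hU : T ≤ 19/4 + 2*S + S^(2:ℕ)) : HasConn S T := by
  have pS : 0 < S := by linarith
  have pT : 0 < T := by nlinarith
  have pA : 0 < (S + 1) := by linarith
  have pB : 0 < (T + 1) := by linarith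
  have pU : 0 < (S + T + 1) := by linarith
  have c0 : 0 < S*T + 2*S + 2*T + 2 := by positivity
  have c1 : 0 < S*T^(2:ℕ) + S*T + T^(2:ℕ) - S - 1 := D_c1 h4 hL
  have c2 : 0 < S^(3:ℕ)*T^(3:ℕ) + 2*S^(3:ℕ)*T^(2:ℕ) + 2*S^(2:ℕ)*T^(3:ℕ) + S^(3:ℕ)*T + 4*S^(2:ℕ)*T^(2:ℕ) + S*T^(3:ℕ) + S^(3:ℕ) + 5*S^(2:ℕ)*T + 5*S*T^(2:ℕ) + T^(3:ℕ) + 3*S^(2:ℕ) + 7*S*T + 3*T^(2:ℕ) + 3*S + 3*T + 1 := by positivity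
  have c3 : 0 < S^(3:ℕ)*T^(4:ℕ) + 4*S^(3:ℕ)*T^(3:ℕ) + 4*S^(2:ℕ)*T^(4:ℕ) + 7*S^(3:ℕ)*T^(2:ℕ) + 16*S^(2:ℕ)*T^(3:ℕ) + 5*S*T^(4:ℕ) + 6*S^(3:ℕ)*T + 26*S^(2:ℕ)*T^(2:ℕ) + 20*S*T^(3:ℕ) + 2*T^(4:ℕ) + S^(3:ℕ) + 17*S^(2:ℕ)*T + 28*S*T^(2:ℕ) + 7*T^(3:ℕ) + 3*S^(2:ℕ) + 16*S*T + 9*T^(2:ℕ) + 3*S + 5*T + 1 := by positivity
  have c4 : 0 < T^(2:ℕ) - S - 1 := D_c4 h4 hL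
  have c5 : 0 < 2*S^(2:ℕ)*T^(2:ℕ) + 4*S^(2:ℕ)*T + 4*S*T^(2:ℕ) + S^(2:ℕ) + 6*S*T + T^(2:ℕ) + 2*S + 2*T + 1 := by positivity
  have c6 : 0 < -S^(2:ℕ)*T - S^(2:ℕ) - S*T + T^(2:ℕ) - 2*S - 1 := D_c6 h4 hL
  have c7 : 0 < S^(2:ℕ)*T^(3:ℕ) + S^(2:ℕ)*T^(2:ℕ) + 3*S*T^(3:ℕ) - 2*S^(2:ℕ)*T + 3*S*T^(2:ℕ) + 2*T^(3:ℕ) - S^(2:ℕ) - 2*S*T + 3*T^(2:ℕ) - 2*S - 1 := D_c7 h4 hL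
  have c8 : 0 < S^(2:ℕ)*T^(4:ℕ) - 2*S^(3:ℕ)*T^(2:ℕ) + 2*S^(2:ℕ)*T^(3:ℕ) + 3*S*T^(4:ℕ) - 4*S^(3:ℕ)*T - 5*S^(2:ℕ)*T^(2:ℕ) + 6*S*T^(3:ℕ) + 2*T^(4:ℕ) - S^(3:ℕ) - 9*S^(2:ℕ)*T + 5*T^(3:ℕ) - 3*S^(2:ℕ) - 6*S*T + 3*T^(2:ℕ) - 3*S - T - 1 := D_c8 h4 hL
  have c9 : 0 < S^(4:ℕ)*T^(4:ℕ) + 4*S^(4:ℕ)*T^(3:ℕ) + 4*S^(3:ℕ)*T^(4:ℕ) + 7*S^(4:ℕ)*T^(2:ℕ) + 18*S^(3:ℕ)*T^(3:ℕ) + 7*S^(2:ℕ)*T^(4:ℕ) + 6*S^(4:ℕ)*T + 32*S^(3:ℕ)*T^(2:ℕ) + 32*S^(2:ℕ)*T^(3:ℕ) + 6*S*T^(4:ℕ) + S^(4:ℕ) + 22*S^(3:ℕ)*T + 49*S^(2:ℕ)*T^(2:ℕ) + 22*S*T^(3:ℕ) + T^(4:ℕ) + 4*S^(3:ℕ) + 30*S^(2:ℕ)*T + 30*S*T^(2:ℕ) + 4*T^(3:ℕ) + 6*S^(2:ℕ) + 18*S*T + 6*T^(2:ℕ) + 4*S + 4*T + 1 := by positivity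
  have c10 : 0 < S^(4:ℕ)*T^(5:ℕ) + 5*S^(4:ℕ)*T^(4:ℕ) + 5*S^(3:ℕ)*T^(5:ℕ) + 10*S^(4:ℕ)*T^(3:ℕ) + 24*S^(3:ℕ)*T^(4:ℕ) + 9*S^(2:ℕ)*T^(5:ℕ) + 9*S^(4:ℕ)*T^(2:ℕ) + 44*S^(3:ℕ)*T^(3:ℕ) + 41*S^(2:ℕ)*T^(4:ℕ) + 7*S*T^(5:ℕ) + 3*S^(4:ℕ)*T + 36*S^(3:ℕ)*T^(2:ℕ) + 70*S^(2:ℕ)*T^(3:ℕ) + 30*S*T^(4:ℕ) + 2*T^(5:ℕ) + S^(4:ℕ) + 15*S^(3:ℕ)*T + 59*S^(2:ℕ)*T^(2:ℕ) + 52*S*T^(3:ℕ) + 9*T^(4:ℕ) + 4*S^(3:ℕ) + 27*S^(2:ℕ)*T + 46*S*T^(2:ℕ) + 16*T^(3:ℕ) + 6*S^(2:ℕ) + 21*S*T + 14*T^(2:ℕ) + 4*S + 6*T + 1 := by positivity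
  have c11 : 0 < S^(3:ℕ)*T^(4:ℕ) + 3*S^(3:ℕ)*T^(3:ℕ) + 4*S^(2:ℕ)*T^(4:ℕ) + 3*S^(3:ℕ)*T^(2:ℕ) + 12*S^(2:ℕ)*T^(3:ℕ) + 5*S*T^(4:ℕ) + S^(3:ℕ)*T + 12*S^(2:ℕ)*T^(2:ℕ) + 15*S*T^(3:ℕ) + 2*T^(4:ℕ) - S^(3:ℕ) + S^(2:ℕ)*T + 12*S*T^(2:ℕ) + 5*T^(3:ℕ) - 3*S^(2:ℕ) - S*T + 3*T^(2:ℕ) - 3*S - T - 1 := D_c11 h4 hL
  have c12 : 0 < S^(3:ℕ)*T^(5:ℕ) - S^(4:ℕ)*T^(3:ℕ) + 4*S^(3:ℕ)*T^(4:ℕ) + 4*S^(2:ℕ)*T^(5:ℕ) - 2*S^(4:ℕ)*T^(2:ℕ) + 4*S^(3:ℕ)*T^(3:ℕ) + 16*S^(2:ℕ)*T^(4:ℕ) + 5*S*T^(5:ℕ) - S^(4:ℕ)*T + 23*S^(2:ℕ)*T^(3:ℕ) + 20*S*T^(4:ℕ) + 2*T^(5:ℕ) - S^(4:ℕ) - 5*S^(3:ℕ)*T + 8*S^(2:ℕ)*T^(2:ℕ) + 26*S*T^(3:ℕ) + 7*T^(4:ℕ) - 4*S^(3:ℕ) - 9*S^(2:ℕ)*T + 8*S*T^(2:ℕ) + 8*T^(3:ℕ)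 - 6*S^(2:ℕ) - 7*S*T + 2*T^(2:ℕ) - 4*S - 2*T - 1 := D_c12 h4 hL
  have c13 : 0 < S^(2:ℕ)*T^(3:ℕ) + 2*S^(2:ℕ)*T^(2:ℕ) + 3*S*T^(3:ℕ) + S^(2:ℕ)*T + 6*S*T^(2:ℕ) + 2*T^(3:ℕ) + S^(2:ℕ) + 5*S*T + 5*T^(2:ℕ) + 2*S + 4*T + 1 := by positivity
  have c14 : 0 < S^(2:ℕ)*T^(2:ℕ) + S^(2:ℕ)*T + S*T^(2:ℕ) - S^(2:ℕ) - S*T - T^(2:ℕ) - 2*S - 2*T - 1 := D_c14 h4 hL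
  have c15 : 0 < -S^(2:ℕ) + S + 2*T + 2 := D_c15 h4 hL
  have c16 : 0 < S^(2:ℕ)*T^(3:ℕ) + S^(2:ℕ)*T^(2:ℕ) + 2*S*T^(3:ℕ) - S^(2:ℕ)*T + S*T^(2:ℕ) + S^(2:ℕ) + S*T + T^(2:ℕ) + 2*S + 2*T + 1 := D_c16 h4 hL
  have c17 : 0 < S^(2:ℕ)*T^(4:ℕ) - S^(3:ℕ)*T^(2:ℕ) + 2*S^(2:ℕ)*T^(3:ℕ) + 2*S*T^(4:ℕ) - S^(3:ℕ)*T - S^(2:ℕ)*T^(2:ℕ) + 3*S*T^(3:ℕ) + S^(3:ℕ) + S^(2:ℕ)*T + 3*S*T^(2:ℕ) + T^(3:ℕ) + 3*S^(2:ℕ) + 5*S*T + 3*T^(2:ℕ) + 3*S + 3*T + 1 := D_c17 h4 hL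
  have c18 : 0 < S*T^(2:ℕ) - 2*S - 2*T - 2 := D_c18 h4 hL
  have c19 : 0 < S*T^(2:ℕ) - 2*S^(2:ℕ) - 2*S*T - 4*S - 2*T - 2 := D_c19 h4 hL
  have c20 : 0 < S^(3:ℕ)*T^(2:ℕ) + 2*S^(3:ℕ)*T + 2*S^(2:ℕ)*T^(2:ℕ) - S*T^(3:ℕ) + 2*S^(3:ℕ) + 8*S^(2:ℕ)*T + 3*S*T^(2:ℕ) + 6*S^(2:ℕ) + 10*S*T + 2*T^(2:ℕ) + 6*S + 4*T + 2 := D_c20 h4 hL hU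
  have c21 : 0 < S*T^(2:ℕ) + S*T + 2*T^(2:ℕ) - S + T - 1 := D_c21 h4 hL
  have c22 : 0 < S*T^(2:ℕ) + 2*S*T + 2*S + 2*T + 2 := by positivity
  have c23 : 0 < S*T^(2:ℕ) - S^(2:ℕ) + S*T + 2*T^(2:ℕ) - 2*S + T - 1 := D_c23 h4 hL
  have c24 : 0 < S^(2:ℕ)*T^(3:ℕ) + 2*S^(2:ℕ)*T^(2:ℕ) + S*T^(3:ℕ) + 2*S^(2:ℕ)*T + 3*S*T^(2:ℕ) + 2*S^(2:ℕ) + 6*S*T + 2*T^(2:ℕ) + 4*S + 4*T + 2 := by positivity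
  have c25 : 0 < S*T^(3:ℕ) + S*T^(2:ℕ) + 2*S^(2:ℕ) + 4*S*T + 2*T^(2:ℕ) + 4*S + 4*T + 2 := by positivity
  have c26 : 0 < -S^(3:ℕ)*T^(3:ℕ) - 2*S^(3:ℕ)*T^(2:ℕ) - S^(2:ℕ)*T^(3:ℕ) + S*T^(4:ℕ) - S^(2:ℕ)*T^(2:ℕ) + 2*S*T^(3:ℕ) + 2*S^(3:ℕ) + 6*S^(2:ℕ)*T + 7*S*T^(2:ℕ) + 2*T^(3:ℕ) + 6*S^(2:ℕ) + 12*S*T + 6*T^(2:ℕ) + 6*S + 6*T + 2 := D_c26 h4 hL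
  have c27 : 0 < S^(2:ℕ)*T^(3:ℕ) + 2*S^(2:ℕ)*T^(2:ℕ) + S*T^(3:ℕ) + S*T^(2:ℕ) - 2*S^(2:ℕ) - 4*S*T - 2*T^(2:ℕ) - 4*S - 4*T - 2 := D_c27 h4 hL
  have c28 : 0 < S^(2:ℕ)*T^(4:ℕ) - S^(3:ℕ)*T^(2:ℕ) + S^(2:ℕ)*T^(3:ℕ) + S*T^(4:ℕ) - 2*S^(3:ℕ)*T - 4*S^(2:ℕ)*T^(2:ℕ) - 2*S^(3:ℕ) - 10*S^(2:ℕ)*T - 9*S*T^(2:ℕ) - 2*T^(3:ℕ) - 6*S^(2:ℕ) - 14*S*T - 6*T^(2:ℕ) - 6*S - 6*T - 2 := D_c28 h4 hL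
  have c29 : 0 < -S^(4:ℕ)*T^(4:ℕ) - 3*S^(4:ℕ)*T^(3:ℕ) - 2*S^(3:ℕ)*T^(4:ℕ) + S^(2:ℕ)*T^(5:ℕ) - 3*S^(4:ℕ)*T^(2:ℕ) - 7*S^(3:ℕ)*T^(3:ℕ) + S^(2:ℕ)*T^(4:ℕ) + S*T^(5:ℕ) - 2*S^(4:ℕ)*T - 11*S^(3:ℕ)*T^(2:ℕ) - 7*S^(2:ℕ)*T^(3:ℕ) + S*T^(4:ℕ) - 2*S^(4:ℕ) - 14*S^(3:ℕ)*T - 25*S^(2:ℕ)*T^(2:ℕ) - 11*S*T^(3:ℕ) - 2*T^(4:ℕ) - 8*S^(3:ℕ) - 30*S^(2:ℕ)*T - 29*S*T^(2:ℕ) - 8*T^(3:ℕ) - 12*S^(2:ℕ) - 26*S*T - 12*T^(2:ℕ) - 8*S - 8*T - 2 := D_c29 h4 hL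
  have d0 := D_d0 S T pT c0
  have d1 := D_d1 S T c0
  have f0 := D_f0 S T pS pT d0 d1
  have f1 := D_f1 S T pT d0 d1
  have f2 := D_f2 S T pT d0 d1
  have rA := D_rA S T f0 f1 f2
  have d2 := D_d2 S T pA pB c0
  have d3 := D_d3 S T pA pB c0
  have f3 := D_f3 S T pS pT d0 d2 d3
  have d4 := D_d4 S T pT pA pB c0
  have f4 := D_f4 S T pT d0 d1 d3 d4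
  have f5 := D_f5 S T pT d0 d1 d3 d4
  have rP := D_rP S T f3 f4 f5
  have d5 := D_d5 S T c1
  have q0 := D_q0 S T d0 d5
  have d6 := D_d6 S T pB pU
  have q1 := D_q1 S T d0 d6
  have d7 := D_d7 S T c2
  have q2 := D_q2 S T d2 d7
  have d8 := D_d8 S T c3
  have q3 := D_q3 S T d2 d8
  have sP := D_sP S T q0 q1 q2 q3
  have d9 := D_d9 S T pA pB c4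
  have g0 := D_g0 S T d0 d9
  have d10 := D_d10 S T pU c5
  have d11 := D_d11 S T pA pB c0
  have g1 := D_g1 S T d2 d10 d11
  have oP_0 := D_oP_0 S T g0 g1
  have d12 := D_d12 S T pB c6
  have g2 := D_g2 S T d0 d12
  have d13 := D_d13 S T c7
  have d14 := D_d14 S T pA pB c0
  have g3 := D_g3 S T d3 d13 d14
  have oP_1 := D_oP_1 S T g2 g3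
  have d15 := D_d15 S T c8
  have g4 := D_g4 S T d4 d15
  have g5 := D_g5 S T d1 d5
  have oP_2 := D_oP_2 S T g4 g5
  have oP := D_oP S T f3 f4 oP_0 oP_1 oP_2
  have d16 := D_d16 S T pA pB c0
  have f6 := D_f6 S T pS pT d0 d2 d16
  have d17 := D_d17 S T pT pA pB c0
  have f7 := D_f7 S T pT d0 d1 d2 d17
  have f8 := D_f8 S T pT d0 d1 d2 d17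
  have d18 := D_d18 S T c9
  have q4 := D_q4 S T d16 d18
  have d19 := D_d19 S T c10
  have q5 := D_q5 S T d16 d19
  have sQ := D_sQ S T q0 q1 q4 q5
  have d20 := D_d20 S T pU c2
  have d21 := D_d21 S T pA pB c0
  have g6 := D_g6 S T d16 d20 d21
  have oQ_0 := D_oQ_0 S T g0 g6
  have d22 := D_d22 S T c11
  have g7 := D_g7 S T d2 d11 d22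
  have oQ_1 := D_oQ_1 S T g2 g7
  have d23 := D_d23 S T c12
  have g8 := D_g8 S T d17 d23
  have oQ_2 := D_oQ_2 S T g5 g8
  have oQ := D_oQ S T f6 f7 oQ_0 oQ_1 oQ_2
  have f9 := D_f9 S T pT d0 d1 d3 d4
  have d24 := D_d24 S T pS pT pB c0
  have f10 := D_f10 S T pS d1 d4 d24
  have d25 := D_d25 S T pS pT c0
  have f11 := D_f11 S T pT d1 d24 d25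
  have f12 := D_f12 S T pT d0 d1 d24 d25
  have d26 := D_d26 S T pT pA c0
  have d27 := D_d27 S T pS pT c0
  have f13 := D_f13 S T pS pT d0 d24 d26 d27
  have f14 := D_f14 S T pS d0 d26 d27
  have rE := D_rE S T f9 f10 f11 f12 f13 f14
  have d28 := D_d28 S T c5
  have q6 := D_q6 S T d3 d28
  have d29 := D_d29 S T c13
  have q7 := D_q7 S T d3 d29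
  have sq := D_sq S T q0 q1 q6 q7
  have d30 := D_d30 S T c14
  have g9 := D_g9 S T d3 d14 d30
  have oE_0 := D_oE_0 S T g0 g9
  have g10 := D_g10 S T d4 d7
  have oE_1 := D_oE_1 S T g10
  have d31 := D_d31 S T pB c15
  have g11 := D_g11 S T d1 d31
  have d32 := D_d32 S T c16
  have g12 := D_g12 S T d24 d27 d32
  have oE_2 := D_oE_2 S T g11 g12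
  have d33 := D_d33 S T c17
  have g13 := D_g13 S T d25 d33
  have d34 := D_d34 S T c18
  have g14 := D_g14 S T d1 d34
  have oE_3 := D_oE_3 S T g13 g14
  have d35 := D_d35 S T pB c19
  have g15 := D_g15 S T d0 d35
  have d36 := D_d36 S T pA pB pU
  have g16 := D_g16 S T d24 d27 d36
  have oE_4 := D_oE_4 S T g15 g16
  have d37 := D_d37 S T c20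
  have g17 := D_g17 S T d26 d37
  have oE_5 := D_oE_5 S T g17
  have oE := D_oE S T f9 f10 f11 f12 f13 oE_0 oE_1 oE_2 oE_3 oE_4 oE_5
  have rB := D_rB S T f0 f1 f2
  have f15 := D_f15 S T pT d0 d1 d25 d27
  have f16 := D_f16 S T pS pT d1 d25
  have f17 := D_f17 S T pT d0 d1 d24 d25
  have rr := D_rr S T f15 f16 f17
  have d38 := D_d38 S T c21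
  have q8 := D_q8 S T d0 d38
  have d39 := D_d39 S T pA pB
  have q9 := D_q9 S T d0 d39
  have d40 := D_d40 S T pA c22
  have q10 := D_q10 S T d27 d40
  have d41 := D_d41 S T c19
  have q11 := D_q11 S T d27 d41
  have sr := D_sr S T q8 q9 q10 q11
  have d42 := D_d42 S T pB c23
  have g18 := D_g18 S T d0 d42
  have d43 := D_d43 S T c24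
  have g19 := D_g19 S T d27 d43
  have orr_0 := D_orr_0 S T g18 g19
  have d44 := D_d44 S T pA pB c25
  have g20 := D_g20 S T d25 d44
  have d45 := D_d45 S T pU
  have g21 := D_g21 S T d1 d45
  have orr_1 := D_orr_1 S T g20 g21
  have d46 := D_d46 S T c26
  have g22 := D_g22 S T d25 d46
  have g23 := D_g23 S T d1 d38
  have orr_2 := D_orr_2 S T g22 g23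
  have orr := D_orr S T f15 f16 orr_0 orr_1 orr_2
  have f18 := D_f18 S T pT d0 d1 d24 d25
  have d47 := D_d47 S T pS pT pA pB c0
  have f19 := D_f19 S T pS pT d1 d25 d47
  have d48 := D_d48 S T pS pT pA pB c0
  have f20 := D_f20 S T pT d0 d1 d47 d48
  have d49 := D_d49 S T c27
  have q12 := D_q12 S T d24 d49
  have d50 := D_d50 S T pU c22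
  have q13 := D_q13 S T d24 d50
  have sC := D_sC S T q8 q9 q12 q13
  have d51 := D_d51 S T pA pB c18
  have g24 := D_g24 S T d24 d27 d51
  have oC_0 := D_oC_0 S T g18 g24
  have d52 := D_d52 S T c28
  have g25 := D_g25 S T d25 d52
  have oC_1 := D_oC_1 S T g21 g25
  have d53 := D_d53 S T c29
  have g26 := D_g26 S T d47 d53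
  have oC_2 := D_oC_2 S T g23 g26
  have oC := D_oC S T f18 f19 oC_0 oC_1 oC_2
  have d54 := D_d54 S T pA pB
  have vP := D_vP S T d1 d2 d39 d54
  have vq := D_vq S T d1 d3 d54
  have d55 := D_d55 S T pS pT
  have vr := D_vr S T d1 d27 d55
  have vQ := D_vQ S T d1 d16 d39 d54
  have vC := D_vC S T d1 d24 d39 d55
  have nun := D_nun S T d39 d45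
  have num := D_num S T d39 d55
  have kan := D_kan S T d39 d45
  have kam := D_kam S T d39 d55
  have d56 := D_d56 S T pA
  have hdB := D_hdB S T d55 d56
  refine conn_fin pS pT (by simp) (by simp) (P := (((S*T^(2:ℕ) + S*T + T^(2:ℕ) - S - 1))/(T*(S*T + 2*S + 2*T + 2)), ((S^(3:ℕ)*T^(3:ℕ) + 2*S^(3:ℕ)*T^(2:ℕ) + 2*S^(2:ℕ)*T^(3:ℕ) + S^(3:ℕ)*T + 4*S^(2:ℕ)*T^(2:ℕ) + S*T^(3:ℕ) + S^(3:ℕ) + 5*S^(2:ℕ)*T + 5*S*T^(2:ℕ) + T^(3:ℕ) + 3*S^(2:ℕ) + 7*S*T + 3*T^(2:ℕ) + 3*S + 3*T + 1))/((S + 1)^(2:ℕ)*(T + 1)^(3:ℕ)*(S*T + 2*S + 2*T + 2)))) (q := (((S*T^(2:ℕ) + S*T + T^(2:ℕ) - S - 1))/(T*(S*T + 2*S + 2*T + 2)), ((2*S^(2:ℕ)*T^(2:ℕ) + 4*S^(2:ℕ)*T + 4*S*T^(2:ℕ)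 + S^(2:ℕ) + 6*S*T + T^(2:ℕ) + 2*S + 2*T + 1))/((S + 1)*(T + 1)^(2:ℕ)*(S*T + 2*S + 2*T + 2)))) (r := (((S*T^(2:ℕ) + S*T + 2*T^(2:ℕ) - S + T - 1))/(T*(S*T + 2*S + 2*T + 2)), ((S + 1)*(S*T^(2:ℕ) + 2*S*T + 2*S + 2*T + 2))/(S*T*(S*T + 2*S + 2*T + 2)))) (C := (((S*T^(2:ℕ) + S*T + 2*T^(2:ℕ) - S + T - 1))/(T*(S*T + 2*S + 2*T + 2)), ((S^(2:ℕ)*T^(3:ℕ) + 2*S^(2:ℕ)*T^(2:ℕ) + S*T^(3:ℕ) + S*T^(2:ℕ) - 2*S^(2:ℕ) - 4*S*T - 2*T^(2:ℕ) - 4*S - 4*T - 2))/(S*T*(T + 1)*(S*T + 2*S + 2*T + 2))))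
    (ν := (-((S + T + 1)))/((S + 1)*(T + 1))) (κ := (-((S + T + 1)))/((S + 1)*(T + 1))) ?_ ?_ ?_ hdB vP vq vr vC rA rP rB rr rE ?_ sq oE ?_
  · exact nun.ne
  · exact kan.ne
  · exact abs_lt.2 ⟨kam, kan.trans one_pos⟩
  · exact okA_neg pS pT nun num vP vQ sP sQ oP oQ
  · exact okB_neg pS pT kan kam vr vC sr sC orr oC

end SympB.Quad
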