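import Pool.Agent.W_93b186_h44.FamTools

/-! Machine generated: the connection agbbggb |  | agb. -/

namespace SympB.Quad

open Letter

set_option maxRecDepth 20000

theorem F1_c0 {S T : ℝ} (h4 : 4 ≤ S) (hL : S ≤ T) : 0 < S - 1 := by
  obtain ⟨x, hx, rfl⟩ : ∃ x : ℝ, 0 ≤ x ∧ S = x + 4 := ⟨S - 4, by linarith, by ring⟩
  obtain ⟨y, hy, rfl⟩ : ∃ y : ℝ, 0 ≤ y ∧ T = (x + 4) + y := ⟨T - ((x + 4)), by linarith, by ring⟩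
  have h : 0 < x + 3 := by positivity
  refine pos_aux1 (m := 1) (by norm_num) (lt_of_lt_of_eq h ?_)
  ring

theorem F1_c1 {S T : ℝ} (h4 : 4 ≤ S) (hL : S ≤ T) : 0 < S^(2:ℕ)*T^(2:ℕ) - S^(2:ℕ)*T - S*T^(2:ℕ) - S^(2:ℕ) - 3*S*T - T^(2:ℕ) - 2*S - 2*T - 1 := by
  obtain ⟨x, hx, rfl⟩ : ∃ x : ℝ, 0 ≤ x ∧ S = x + 4 := ⟨S - 4, by linarith, by ring⟩
  obtain ⟨y, hy, rfl⟩ : ∃ y : ℝ, 0 ≤ y ∧ T = (x + 4) + y := ⟨T - ((x + 4)), by linarith, by ring⟩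
  have h : 0 < x^(4:ℕ) + 2*x^(3:ℕ)*y + 14*x^(3:ℕ) + x^(2:ℕ)*y^(2:ℕ) + 21*x^(2:ℕ)*y + 67*x^(2:ℕ) + 7*x*y^(2:ℕ) + 67*x*y + 116*x + 11*y^(2:ℕ) + 58*y + 31 := by positivity
  refine pos_aux1 (m := 1) (by norm_num) (lt_of_lt_of_eq h ?_)
  ring

theorem F1_c3 {S T : ℝ} (h4 : 4 ≤ S) (hL : S ≤ T) : 0 < S*T - S - T - 1 := by
  obtain ⟨x, hx, rfl⟩ : ∃ x : ℝ, 0 ≤ x ∧ S = x + 4 := ⟨S - 4, by linarith, by ring⟩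
  obtain ⟨y, hy, rfl⟩ : ∃ y : ℝ, 0 ≤ y ∧ T = (x + 4) + y := ⟨T - ((x + 4)), by linarith, by ring⟩
  have h : 0 < x^(2:ℕ) + x*y + 6*x + 3*y + 7 := by positivity
  refine pos_aux1 (m := 1) (by norm_num) (lt_of_lt_of_eq h ?_)
  ring

theorem F1_c5 {S T : ℝ} (h4 : 4 ≤ S) (hL : S ≤ T) (hU : T ≤ -1/2 + 1/2*S^(2:ℕ)) : 0 < S^(3:ℕ)*T + S^(3:ℕ) + S^(2:ℕ)*T - S*T^(2:ℕ) + 3*S^(2:ℕ) + 2*S*T + T^(2:ℕ) + 3*S + 2*T + 1 := by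
  obtain ⟨x, hx, rfl⟩ : ∃ x : ℝ, 0 ≤ x ∧ S = x + 4 := ⟨S - 4, by linarith, by ring⟩
  obtain ⟨y, hy, rfl⟩ : ∃ y : ℝ, 0 < y ∧ T = y + (-1/4 + (x + 4)) := ⟨T - (-1/4 + (x + 4)), by linarith, by ring⟩
  obtain ⟨z, hz, hz2⟩ : ∃ z : ℝ, 0 < z ∧ z = (-1*(x + 4) + 1/2*(x + 4)^(2:ℕ)) - y := ⟨_, by linarith, rfl⟩
  have hw : 0 < -1*(x + 4) + 1/2*(x + 4)^(2:ℕ) := by linarith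
  have h : 0 < 4*x^(5:ℕ)*y^(2:ℕ) + 8*x^(5:ℕ)*y*z + 92*x^(4:ℕ)*y^(2:ℕ) + 168*x^(4:ℕ)*y*z + 16*x^(4:ℕ)*z^(2:ℕ) + 864*x^(3:ℕ)*y^(2:ℕ) + 1484*x^(3:ℕ)*y*z + 268*x^(3:ℕ)*z^(2:ℕ) + 4152*x^(2:ℕ)*y^(2:ℕ) + 6940*x^(2:ℕ)*y*z + 1780*x^(2:ℕ)*z^(2:ℕ) + 10215*x*y^(2:ℕ) + 17158*x*y*z + 5535*x*z^(2:ℕ) + 10277*y^(2:ℕ) + 17770*y*z + 6725*z^(2:ℕ) := by positivity
  refine pos_aux (m := 16) (w := (-1*(x + 4) + 1/2*(x + 4)^(2:ℕ))^(2:ℕ)) (by norm_num) (pow_pos hw 2) (lt_of_lt_of_eq h ?_)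
  rw [hz2]; ring

theorem F1_c6 {S T : ℝ} (h4 : 4 ≤ S) (hL : S ≤ T) : 0 < S*T^(3:ℕ) - 2*S^(2:ℕ)*T + T^(3:ℕ) - S^(2:ℕ) - 3*S*T + T^(2:ℕ) - 2*S - T - 1 := by
  obtain ⟨x, hx, rfl⟩ : ∃ x : ℝ, 0 ≤ x ∧ S = x + 4 := ⟨S - 4, by linarith, by ring⟩
  obtain ⟨y, hy, rfl⟩ : ∃ y : ℝ, 0 ≤ y ∧ T = (x + 4) + y := ⟨T - ((x + 4)), by linarith, by ring⟩
  have h : 0 < x^(4:ℕ) + 3*x^(3:ℕ)*y + 15*x^(3:ℕ) + 3*x^(2:ℕ)*y^(2:ℕ) + 37*x^(2:ℕ)*y + 81*x^(2:ℕ) + x*y^(3:ℕ) + 27*x*y^(2:ℕ) + 151*x*y + 181*x + 5*y^(3:ℕ) + 61*y^(2:ℕ) + 203*y + 131 := by positivity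
  refine pos_aux1 (m := 1) (by norm_num) (lt_of_lt_of_eq h ?_)
  ring

theorem F1_c9 {S T : ℝ} (h4 : 4 ≤ S) (hL : S ≤ T) (hU : T ≤ -1/2 + 1/2*S^(2:ℕ)) : 0 < S^(2:ℕ)*T + S^(2:ℕ) - 2*T^(2:ℕ) + 2*S - T + 1 := by
  obtain ⟨x, hx, rfl⟩ : ∃ x : ℝ, 0 ≤ x ∧ S = x + 4 := ⟨S - 4, by linarith, by ring⟩
  obtain ⟨y, hy, rfl⟩ : ∃ y : ℝ, 0 < y ∧ T = y + (-1/4 + (x + 4)) := ⟨T - (-1/4 + (x + 4)), by linarith, by ring⟩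
  obtain ⟨z, hz, hz2⟩ : ∃ z : ℝ, 0 < z ∧ z = (-1*(x + 4) + 1/2*(x + 4)^(2:ℕ)) - y := ⟨_, by linarith, rfl⟩
  have hw : 0 < -1*(x + 4) + 1/2*(x + 4)^(2:ℕ) := by linarith
  have h : 0 < 4*x^(4:ℕ)*y*z + 56*x^(3:ℕ)*y*z + 8*x^(3:ℕ)*z^(2:ℕ) + 6*x^(2:ℕ)*y^(2:ℕ) + 300*x^(2:ℕ)*y*z + 86*x^(2:ℕ)*z^(2:ℕ) + 64*x*y^(2:ℕ) + 768*x*y*z + 320*x*z^(2:ℕ) + 169*y^(2:ℕ) + 850*y*z + 425*z^(2:ℕ) := by positivity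
  refine pos_aux (m := 8) (w := (-1*(x + 4) + 1/2*(x + 4)^(2:ℕ))^(2:ℕ)) (by norm_num) (pow_pos hw 2) (lt_of_lt_of_eq h ?_)
  rw [hz2]; ring

theorem F1_c10 {S T : ℝ} (h4 : 4 ≤ S) (hL : S ≤ T) : 0 < S*T^(2:ℕ) - S^(2:ℕ) + S*T + T^(2:ℕ) + 2*T + 1 := by
  obtain ⟨x, hx, rfl⟩ : ∃ x : ℝ, 0 ≤ x ∧ S = x + 4 := ⟨S - 4, by linarith, by ring⟩
  obtain ⟨y, hy, rfl⟩ : ∃ y : ℝ, 0 ≤ y ∧ T = (x + 4) + y := ⟨T - ((x + 4)), by linarith, by ring⟩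
  have h : 0 < x^(3:ℕ) + 2*x^(2:ℕ)*y + 13*x^(2:ℕ) + x*y^(2:ℕ) + 19*x*y + 58*x + 5*y^(2:ℕ) + 46*y + 89 := by positivity
  refine pos_aux1 (m := 1) (by norm_num) (lt_of_lt_of_eq h ?_)
  ring

theorem F1_c11 {S T : ℝ} (h4 : 4 ≤ S) (hL : S ≤ T) : 0 < S^(3:ℕ)*T^(3:ℕ) - S^(3:ℕ)*T^(2:ℕ) - S^(2:ℕ)*T^(3:ℕ) - S^(2:ℕ)*T^(2:ℕ) + S^(3:ℕ) + 3*S^(2:ℕ)*T + 3*S*T^(2:ℕ) + T^(3:ℕ) + 3*S^(2:ℕ) + 6*S*T + 3*T^(2:ℕ) + 3*S + 3*T + 1 := by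
  obtain ⟨x, hx, rfl⟩ : ∃ x : ℝ, 0 ≤ x ∧ S = x + 4 := ⟨S - 4, by linarith, by ring⟩
  obtain ⟨y, hy, rfl⟩ : ∃ y : ℝ, 0 ≤ y ∧ T = (x + 4) + y := ⟨T - ((x + 4)), by linarith, by ring⟩
  have h : 0 < x^(6:ℕ) + 3*x^(5:ℕ)*y + 22*x^(5:ℕ) + 3*x^(4:ℕ)*y^(2:ℕ) + 55*x^(4:ℕ)*y + 199*x^(4:ℕ) + x^(3:ℕ)*y^(3:ℕ) + 44*x^(3:ℕ)*y^(2:ℕ) + 398*x^(3:ℕ)*y + 952*x^(3:ℕ) + 11*x^(2:ℕ)*y^(3:ℕ) + 239*x^(2:ℕ)*y^(2:ℕ) + 1428*x^(2:ℕ)*y + 2572*x^(2:ℕ) + 40*x*y^(3:ℕ) + 574*x*y^(2:ℕ) + 2572*x*y + 3814*x + 49*y^(3:ℕ) + 523*y^(2:ℕ) + 1907*y + 2521 := by positivity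
  refine pos_aux1 (m := 1) (by norm_num) (lt_of_lt_of_eq h ?_)
  ring

theorem F1_c12 {S T : ℝ} (h4 : 4 ≤ S) (hL : S ≤ T) : 0 < S^(3:ℕ)*T^(4:ℕ) + S^(3:ℕ)*T^(3:ℕ) + S^(2:ℕ)*T^(4:ℕ) + 2*S^(3:ℕ)*T^(2:ℕ) + 3*S^(2:ℕ)*T^(3:ℕ) + 2*S^(2:ℕ)*T^(2:ℕ) - S^(3:ℕ) - 3*S^(2:ℕ)*T - 3*S*T^(2:ℕ) - T^(3:ℕ) - 3*S^(2:ℕ) - 6*S*T - 3*T^(2:ℕ) - 3*S - 3*T - 1 := by
  obtain ⟨x, hx, rfl⟩ : ∃ x : ℝ, 0 ≤ x ∧ S = x + 4 := ⟨S - 4, by linarith, by ring⟩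
  obtain ⟨y, hy, rfl⟩ : ∃ y : ℝ, 0 ≤ y ∧ T = (x + 4) + y := ⟨T - ((x + 4)), by linarith, by ring⟩
  have h : 0 < x^(7:ℕ) + 4*x^(6:ℕ)*y + 30*x^(6:ℕ) + 6*x^(5:ℕ)*y^(2:ℕ) + 103*x^(5:ℕ)*y + 389*x^(5:ℕ) + 4*x^(4:ℕ)*y^(3:ℕ) + 129*x^(4:ℕ)*y^(2:ℕ) + 1113*x^(4:ℕ)*y + 2822*x^(4:ℕ) + x^(3:ℕ)*y^(4:ℕ) + 69*x^(3:ℕ)*y^(3:ℕ) + 1115*x^(3:ℕ)*y^(2:ℕ) + 6452*x^(3:ℕ)*y + 12344*x^(3:ℕ) + 13*x^(2:ℕ)*y^(4:ℕ) + 447*x^(2:ℕ)*y^(3:ℕ) + 4838*x^(2:ℕ)*y^(2:ℕ) + 21124*x^(2:ℕ)*y + 32468*x^(2:ℕ) + 56*x*y^(4:ℕ) + 1288*x*y^(3:ℕ) + 10522*x*y^(2:ℕ) + 36948*x*y + 47386*x + 80*y^(4:ℕ) + 1391*y^(3:ℕ) + 9157*y^(2:ℕ) + 26893*y + 29479 := by positivity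
  refine pos_aux1 (m := 1) (by norm_num) (lt_of_lt_of_eq h ?_)
  ring

theorem F1_c13 {S T : ℝ} (h4 : 4 ≤ S) (hL : S ≤ T) : 0 < 2*S^(2:ℕ)*T^(2:ℕ) - S^(2:ℕ) - 2*S*T - T^(2:ℕ) - 2*S - 2*T - 1 := by
  obtain ⟨x, hx, rfl⟩ : ∃ x : ℝ, 0 ≤ x ∧ S = x + 4 := ⟨S - 4, by linarith, by ring⟩
  obtain ⟨y, hy, rfl⟩ : ∃ y : ℝ, 0 ≤ y ∧ T = (x + 4) + y := ⟨T - ((x + 4)), by linarith, by ring⟩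
  have h : 0 < 2*x^(4:ℕ) + 4*x^(3:ℕ)*y + 32*x^(3:ℕ) + 2*x^(2:ℕ)*y^(2:ℕ) + 48*x^(2:ℕ)*y + 188*x^(2:ℕ) + 16*x*y^(2:ℕ) + 188*x*y + 476*x + 31*y^(2:ℕ) + 238*y + 431 := by positivity
  refine pos_aux1 (m := 1) (by norm_num) (lt_of_lt_of_eq h ?_)
  ring

theorem F1_c14 {S T : ℝ} (h4 : 4 ≤ S) (hL : S ≤ T) : 0 < S^(2:ℕ)*T^(4:ℕ) - 2*S^(3:ℕ)*T^(2:ℕ) + S*T^(4:ℕ) - S^(2:ℕ)*T^(2:ℕ) + 2*S*T^(3:ℕ) + S^(3:ℕ) + 3*S^(2:ℕ)*T + 4*S*T^(2:ℕ) + T^(3:ℕ) + 3*S^(2:ℕ) + 6*S*T + 3*T^(2:ℕ) + 3*S + 3*T + 1 := by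
  obtain ⟨x, hx, rfl⟩ : ∃ x : ℝ, 0 ≤ x ∧ S = x + 4 := ⟨S - 4, by linarith, by ring⟩
  obtain ⟨y, hy, rfl⟩ : ∃ y : ℝ, 0 ≤ y ∧ T = (x + 4) + y := ⟨T - ((x + 4)), by linarith, by ring⟩
  have h : 0 < x^(6:ℕ) + 4*x^(5:ℕ)*y + 23*x^(5:ℕ) + 6*x^(4:ℕ)*y^(2:ℕ) + 80*x^(4:ℕ)*y + 221*x^(4:ℕ) + 4*x^(3:ℕ)*y^(3:ℕ) + 100*x^(3:ℕ)*y^(2:ℕ) + 644*x^(3:ℕ)*y + 1145*x^(3:ℕ) + x^(2:ℕ)*y^(4:ℕ) + 52*x^(2:ℕ)*y^(3:ℕ) + 629*x^(2:ℕ)*y^(2:ℕ) + 2622*x^(2:ℕ)*y + 3416*x^(2:ℕ) + 9*x*y^(4:ℕ) + 226*x*y^(3:ℕ) + 1775*x*y^(2:ℕ) + 5436*x*y + 5654*x + 20*y^(4:ℕ) + 329*y^(3:ℕ) + 1903*y^(2:ℕ) + 4627*y + 4121 := by positivity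
  refine pos_aux1 (m := 1) (by norm_num) (lt_of_lt_of_eq h ?_)
  ring

theorem F1_c16 {S T : ℝ} (h4 : 4 ≤ S) (hL : S ≤ T) : 0 < S^(2:ℕ)*T^(4:ℕ) - S^(3:ℕ)*T^(2:ℕ) + S^(2:ℕ)*T^(3:ℕ) + S*T^(4:ℕ) + S^(3:ℕ)*T + 2*S^(2:ℕ)*T^(2:ℕ) + 3*S*T^(3:ℕ) + S^(3:ℕ) + 5*S^(2:ℕ)*T + 6*S*T^(2:ℕ) + T^(3:ℕ) + 3*S^(2:ℕ) + 7*S*T + 3*T^(2:ℕ) + 3*S + 3*T + 1 := by
  obtain ⟨x, hx, rfl⟩ : ∃ x : ℝ, 0 ≤ x ∧ S = x + 4 := ⟨S - 4, by linarith, by ring⟩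
  obtain ⟨y, hy, rfl⟩ : ∃ y : ℝ, 0 ≤ y ∧ T = (x + 4) + y := ⟨T - ((x + 4)), by linarith, by ring⟩
  have h : 0 < x^(6:ℕ) + 4*x^(5:ℕ)*y + 25*x^(5:ℕ) + 6*x^(4:ℕ)*y^(2:ℕ) + 85*x^(4:ℕ)*y + 266*x^(4:ℕ) + 4*x^(3:ℕ)*y^(3:ℕ) + 104*x^(3:ℕ)*y^(2:ℕ) + 734*x^(3:ℕ)*y + 1549*x^(3:ℕ) + x^(2:ℕ)*y^(4:ℕ) + 53*x^(2:ℕ)*y^(3:ℕ) + 683*x^(2:ℕ)*y^(2:ℕ) + 3228*x^(2:ℕ)*y + 5225*x^(2:ℕ) + 9*x*y^(4:ℕ) + 235*x*y^(3:ℕ) + 2017*x*y^(2:ℕ) + 7245*x*y + 9694*x + 20*y^(4:ℕ) + 349*y^(3:ℕ) + 2263*y^(2:ℕ) + 6647*y + 7721 := by positivity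
  refine pos_aux1 (m := 1) (by norm_num) (lt_of_lt_of_eq h ?_)
  ring

theorem F1_c18 {S T : ℝ} (h4 : 4 ≤ S) (hL : S ≤ T) (hU : T ≤ -1/2 + 1/2*S^(2:ℕ)) : 0 < S^(4:ℕ)*T^(2:ℕ) + S^(4:ℕ)*T + S^(3:ℕ)*T^(2:ℕ) - S^(2:ℕ)*T^(3:ℕ) + 2*S^(3:ℕ)*T - S^(3:ℕ) - 2*S^(2:ℕ)*T - 3*S*T^(2:ℕ) - T^(3:ℕ) - 3*S^(2:ℕ) - 6*S*T - 3*T^(2:ℕ) - 3*S - 3*T - 1 := by
  obtain ⟨x, hx, rfl⟩ : ∃ x : ℝ, 0 ≤ x ∧ S = x + 4 := ⟨S - 4, by linarith, by ring⟩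
  obtain ⟨y, hy, rfl⟩ : ∃ y : ℝ, 0 < y ∧ T = y + (-1/4 + (x + 4)) := ⟨T - (-1/4 + (x + 4)), by linarith, by ring⟩
  obtain ⟨z, hz, hz2⟩ : ∃ z : ℝ, 0 < z ∧ z = (-1*(x + 4) + 1/2*(x + 4)^(2:ℕ)) - y := ⟨_, by linarith, rfl⟩
  have hw : 0 < -1*(x + 4) + 1/2*(x + 4)^(2:ℕ) := by linarith
  have h : 0 < 8*x^(8:ℕ)*y^(3:ℕ) + 16*x^(8:ℕ)*y^(2:ℕ)*z + 272*x^(7:ℕ)*y^(3:ℕ) + 544*x^(7:ℕ)*y^(2:ℕ)*z + 64*x^(7:ℕ)*y*z^(2:ℕ) + 4052*x^(6:ℕ)*y^(3:ℕ) + 8172*x^(6:ℕ)*y^(2:ℕ)*z + 1840*x^(6:ℕ)*y*z^(2:ℕ) + 64*x^(6:ℕ)*z^(3:ℕ) + 34528*x^(5:ℕ)*y^(3:ℕ) + 70768*x^(5:ℕ)*y^(2:ℕ)*z + 22880*x^(5:ℕ)*y*z^(2:ℕ) + 1568*x^(5:ℕ)*z^(3:ℕ) + 183882*x^(4:ℕ)*y^(3:ℕ) + 385612*x^(4:ℕ)*y^(2:ℕ)*z + 159206*x^(4:ℕ)*y*z^(2:ℕ) + 16132*x^(4:ℕ)*z^(3:ℕ)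 + 625588*x^(3:ℕ)*y^(3:ℕ) + 1349488*x^(3:ℕ)*y^(2:ℕ)*z + 667220*x^(3:ℕ)*y*z^(2:ℕ) + 88664*x^(3:ℕ)*z^(3:ℕ) + 1323995*x^(2:ℕ)*y^(3:ℕ) + 2948439*x^(2:ℕ)*y^(2:ℕ)*z + 1675469*x^(2:ℕ)*y*z^(2:ℕ) + 272465*x^(2:ℕ)*z^(3:ℕ) + 1586860*x*y^(3:ℕ) + 3653640*x*y^(2:ℕ)*z + 2316940*x*y*z^(2:ℕ) + 439600*x*z^(3:ℕ) + 819173*y^(3:ℕ) + 1948255*y^(2:ℕ)*z + 1346575*y*z^(2:ℕ) + 287125*z^(3:ℕ) := by positivity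
  refine pos_aux (m := 64) (w := (-1*(x + 4) + 1/2*(x + 4)^(2:ℕ))^(3:ℕ)) (by norm_num) (pow_pos hw 3) (lt_of_lt_of_eq h ?_)
  rw [hz2]; ring

theorem F1_c19 {S T : ℝ} (h4 : 4 ≤ S) (hL : S ≤ T) : 0 < S^(3:ℕ)*T^(2:ℕ) - S^(2:ℕ) - 2*S*T - T^(2:ℕ) - 2*S - 2*T - 1 := by
  obtain ⟨x, hx, rfl⟩ : ∃ x : ℝ, 0 ≤ x ∧ S = x + 4 := ⟨S - 4, by linarith, by ring⟩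
  obtain ⟨y, hy, rfl⟩ : ∃ y : ℝ, 0 ≤ y ∧ T = (x + 4) + y := ⟨T - ((x + 4)), by linarith, by ring⟩
  have h : 0 < x^(5:ℕ) + 2*x^(4:ℕ)*y + 20*x^(4:ℕ) + x^(3:ℕ)*y^(2:ℕ) + 32*x^(3:ℕ)*y + 160*x^(3:ℕ) + 12*x^(2:ℕ)*y^(2:ℕ) + 192*x^(2:ℕ)*y + 636*x^(2:ℕ) + 48*x*y^(2:ℕ) + 508*x*y + 1244*x + 63*y^(2:ℕ) + 494*y + 943 := by positivity
  refine pos_aux1 (m := 1) (by norm_num) (lt_of_lt_of_eq h ?_)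
  ring

theorem F1_d0 (S T : ℝ) (pA : 0 < (S + 1)) :
    0 < (S + 1) := pA

theorem F1_d1 (S T : ℝ) (pA : 0 < (S + 1)) (pB : 0 < (T + 1)) :
    0 < (S + 1)*(T + 1)^(2:ℕ) := (mul_pos pA (pow_pos pB 2))

theorem F1_d2 (S T : ℝ) (pA : 0 < (S + 1)) (pB : 0 < (T + 1)) :
    0 < (S + 1)^(2:ℕ)*(T + 1) := (mul_pos (pow_pos pA 2) pB)

theorem F1_d3 (S T : ℝ) (pB : 0 < (T + 1)) :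
    0 < (T + 1) := pB

theorem F1_f0 (S T : ℝ) (pS : 0 < S) (pT : 0 < T) (d0 : 0 < (S + 1)) (d1 : 0 < (S + 1)*(T + 1)^(2:ℕ)) (d2 : 0 < (S + 1)^(2:ℕ)*(T + 1)) (d3 : 0 < (T + 1)) :
    fl S T Letter.al (((S - 1))/((S + 1)), ((S*T - S - T - 1))/((S + 1)*(T + 1)^(2:ℕ))) = (((S*T - S - T - 1))/((S + 1)^(2:ℕ)*(T + 1)), ((T - 1))/((T + 1))) := fl_al' pS pT d0 d1 d2 d3 (by ring) (by ring)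

theorem F1_d4 (S T : ℝ) (pA : 0 < (S + 1)) (pB : 0 < (T + 1)) :
    0 < (S + 1)*(T + 1) := (mul_pos pA pB)

theorem F1_d5 (S T : ℝ) (pS : 0 < S) (pA : 0 < (S + 1)) (pB : 0 < (T + 1)) :
    0 < S*(S + 1)*(T + 1) := (mul_pos (mul_pos pS pA) pB)

theorem F1_f1 (S T : ℝ) (pS : 0 < S) (d2 : 0 < (S + 1)^(2:ℕ)*(T + 1)) (d3 : 0 < (T + 1)) (d4 : 0 < (S + 1)*(T + 1)) (d5 : 0 < S*(S + 1)*(T + 1)) :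
    fl S T Letter.ga (((S*T - S - T - 1))/((S + 1)^(2:ℕ)*(T + 1)), ((T - 1))/((T + 1))) = (((S*T - S + T + 1))/((S + 1)*(T + 1)), ((S^(2:ℕ)*T + S^(2:ℕ) + 2*S + T + 1))/(S*(S + 1)*(T + 1))) := fl_ga' pS d2 d3 d4 d5 (by ring) (by ring)

theorem F1_d6 (S T : ℝ) (pS : 0 < S) (pT : 0 < T) (pA : 0 < (S + 1)) :
    0 < S*T*(S + 1) := (mul_pos (mul_pos pS pT) pA)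

theorem F1_f2 (S T : ℝ) (pT : 0 < T) (d1 : 0 < (S + 1)*(T + 1)^(2:ℕ)) (d4 : 0 < (S + 1)*(T + 1)) (d5 : 0 < S*(S + 1)*(T + 1)) (d6 : 0 < S*T*(S + 1)) :
    fl S T Letter.be (((S*T - S + T + 1))/((S + 1)*(T + 1)), ((S^(2:ℕ)*T + S^(2:ℕ) + 2*S + T + 1))/(S*(S + 1)*(T + 1))) = (((S^(2:ℕ)*T + S + T + 1))/(S*T*(S + 1)), (2*S*T)/((S + 1)*(T + 1)^(2:ℕ))) := fl_be' pT d4 d5 d6 d1 (by ring) (by ring)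

theorem F1_d7 (S T : ℝ) (pT : 0 < T) (pA : 0 < (S + 1)) (pB : 0 < (T + 1)) :
    0 < T*(S + 1)*(T + 1) := (mul_pos (mul_pos pT pA) pB)

theorem F1_f3 (S T : ℝ) (pT : 0 < T) (d1 : 0 < (S + 1)*(T + 1)^(2:ℕ)) (d5 : 0 < S*(S + 1)*(T + 1)) (d6 : 0 < S*T*(S + 1)) (d7 : 0 < T*(S + 1)*(T + 1)) :
    fl S T Letter.be (((S^(2:ℕ)*T + S + T + 1))/(S*T*(S + 1)), (2*S*T)/((S + 1)*(T + 1)^(2:ℕ))) = (((S*T - S - T - 1))/(T*(S + 1)*(T + 1)), ((S*T - S - T - 1))/(S*(S + 1)*(T + 1))) := fl_be' pT d6 d1 d7 d5 (by ring) (by ring)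

theorem F1_d8 (S T : ℝ) (pS : 0 < S) (pT : 0 < T) (pB : 0 < (T + 1)) :
    0 < S*T*(T + 1) := (mul_pos (mul_pos pS pT) pB)

theorem F1_f4 (S T : ℝ) (pS : 0 < S) (d2 : 0 < (S + 1)^(2:ℕ)*(T + 1)) (d5 : 0 < S*(S + 1)*(T + 1)) (d7 : 0 < T*(S + 1)*(T + 1)) (d8 : 0 < S*T*(T + 1)) :
    fl S T Letter.ga (((S*T - S - T - 1))/(T*(S + 1)*(T + 1)), ((S*T - S - T - 1))/(S*(S + 1)*(T + 1))) = ((2*S*T)/((S + 1)^(2:ℕ)*(T + 1)), ((S*T^(2:ℕ) + S + T + 1))/(S*T*(T + 1))) := fl_ga' pS d7 d5 d2 d8 (by ring) (by ring)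

theorem F1_f5 (S T : ℝ) (pS : 0 < S) (d2 : 0 < (S + 1)^(2:ℕ)*(T + 1)) (d4 : 0 < (S + 1)*(T + 1)) (d7 : 0 < T*(S + 1)*(T + 1)) (d8 : 0 < S*T*(T + 1)) :
    fl S T Letter.ga ((2*S*T)/((S + 1)^(2:ℕ)*(T + 1)), ((S*T^(2:ℕ) + S + T + 1))/(S*T*(T + 1))) = (((S*T^(2:ℕ) + T^(2:ℕ) + S + 2*T + 1))/(T*(S + 1)*(T + 1)), ((S*T + S - T + 1))/((S + 1)*(T + 1))) := fl_ga' pS d2 d8 d7 d4 (by ring) (by ring)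

theorem F1_f6 (S T : ℝ) (pT : 0 < T) (d0 : 0 < (S + 1)) (d1 : 0 < (S + 1)*(T + 1)^(2:ℕ)) (d4 : 0 < (S + 1)*(T + 1)) (d7 : 0 < T*(S + 1)*(T + 1)) :
    fl S T Letter.be (((S*T^(2:ℕ) + T^(2:ℕ) + S + 2*T + 1))/(T*(S + 1)*(T + 1)), ((S*T + S - T + 1))/((S + 1)*(T + 1))) = (((S - 1))/((S + 1)), ((S*T - S - T - 1))/((S + 1)*(T + 1)^(2:ℕ))) := fl_be' pT d7 d4 d0 d1 (by ring) (by ring)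

theorem F1_rA (S T : ℝ) (f0 : fl S T Letter.al (((S - 1))/((S + 1)), ((S*T - S - T - 1))/((S + 1)*(T + 1)^(2:ℕ))) = (((S*T - S - T - 1))/((S + 1)^(2:ℕ)*(T + 1)), ((T - 1))/((T + 1)))) (f1 : fl S T Letter.ga (((S*T - S - T - 1))/((S + 1)^(2:ℕ)*(T + 1)), ((T - 1))/((T + 1))) = (((S*T - S + T + 1))/((S + 1)*(T + 1)), ((S^(2:ℕ)*T + S^(2:ℕ) + 2*S + T + 1))/(S*(S + 1)*(T + 1)))) (f2 : fl S T Letter.be (((S*T - S + T + 1))/((S + 1)*(T + 1)), ((S^(2:ℕ)*T + S^(2:ℕ) + 2*S + T + 1))/(S*(S + 1)*(T + 1))) = (((S^(2:ℕ)*T + S + T + 1))/(S*T*(S + 1)), (2*S*T)/((S + 1)*(T + 1)^(2:ℕ)))) (f3 : fl S T Letter.be (((S^(2:ℕ)*T + S + T + 1))/(S*T*(S + 1)), (2*S*T)/((S + 1)*(T + 1)^(2:ℕ))) = (((S*T - S - T - 1))/(T*(S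 + 1)*(T + 1)), ((S*T - S - T - 1))/(S*(S + 1)*(T + 1)))) (f4 : fl S T Letter.ga (((S*T - S - T - 1))/(T*(S + 1)*(T + 1)), ((S*T - S - T - 1))/(S*(S + 1)*(T + 1))) = ((2*S*T)/((S + 1)^(2:ℕ)*(T + 1)), ((S*T^(2:ℕ) + S + T + 1))/(S*T*(T + 1)))) (f5 : fl S T Letter.ga ((2*S*T)/((S + 1)^(2:ℕ)*(T + 1)), ((S*T^(2:ℕ) + S + T + 1))/(S*T*(T + 1))) = (((S*T^(2:ℕ) + T^(2:ℕ) + S + 2*T + 1))/(T*(S + 1)*(T + 1)), ((S*T + S - T + 1))/((S + 1)*(T + 1)))) (f6 : fl S T Letter.be (((S*T^(2:ℕ) + T^(2:ℕ) + S + 2*T + 1))/(T*(S + 1)*(T + 1)), ((S*T + S - T + 1))/((S + 1)*(T + 1))) = (((S - 1))/((S + 1)), ((S*T - S - T - 1))/((S + 1)*(T + 1)^(2:ℕ)))) :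
    run S T [Letter.al, Letter.ga, Letter.be, Letter.be, Letter.ga, Letter.ga, Letter.be] (((S - 1))/((S + 1)), ((S*T - S - T - 1))/((S + 1)*(T + 1)^(2:ℕ))) = (((S - 1))/((S + 1)), ((S*T - S - T - 1))/((S + 1)*(T + 1)^(2:ℕ))) := (run_cons' f0 (run_cons' f1 (run_cons' f2 (run_cons' f3 (run_cons' f4 (run_cons' f5 (run_cons' f6 run_nil')))))))

theorem F1_d9 (S T : ℝ) (pS : 0 < S) (pT : 0 < T) (pA : 0 < (S + 1)) (pB : 0 < (T + 1)) :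
    0 < S*T*(S + 1)*(T + 1)^(2:ℕ) := (mul_pos (mul_pos (mul_pos pS pT) pA) (pow_pos pB 2))

theorem F1_f7 (S T : ℝ) (pS : 0 < S) (pT : 0 < T) (d0 : 0 < (S + 1)) (d2 : 0 < (S + 1)^(2:ℕ)*(T + 1)) (d8 : 0 < S*T*(T + 1)) (d9 : 0 < S*T*(S + 1)*(T + 1)^(2:ℕ)) :
    fl S T Letter.al (((S - 1))/((S + 1)), ((S^(2:ℕ)*T^(2:ℕ) - S^(2:ℕ)*T - S*T^(2:ℕ) - S^(2:ℕ) - 3*S*T - T^(2:ℕ) - 2*S - 2*T - 1))/(S*T*(S + 1)*(T + 1)^(2:ℕ))) = (((S*T - S - T - 1))/((S + 1)^(2:ℕ)*(T + 1)), ((S*T^(2:ℕ) - S*T - S - T - 1))/(S*T*(T + 1))) := fl_al' pS pT d0 d9 d2 d8 (by ring) (by ring)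

theorem F1_f8 (S T : ℝ) (pS : 0 < S) (d2 : 0 < (S + 1)^(2:ℕ)*(T + 1)) (d5 : 0 < S*(S + 1)*(T + 1)) (d7 : 0 < T*(S + 1)*(T + 1)) (d8 : 0 < S*T*(T + 1)) :
    fl S T Letter.ga (((S*T - S - T - 1))/((S + 1)^(2:ℕ)*(T + 1)), ((S*T^(2:ℕ) - S*T - S - T - 1))/(S*T*(T + 1))) = (((S*T^(2:ℕ) - S*T + T^(2:ℕ) - S - 1))/(T*(S + 1)*(T + 1)), ((S^(2:ℕ)*T + S^(2:ℕ) + 2*S + T + 1))/(S*(S + 1)*(T + 1))) := fl_ga' pS d2 d8 d7 d5 (by ring) (by ring)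

theorem F1_f9 (S T : ℝ) (pT : 0 < T) (d1 : 0 < (S + 1)*(T + 1)^(2:ℕ)) (d5 : 0 < S*(S + 1)*(T + 1)) (d6 : 0 < S*T*(S + 1)) (d7 : 0 < T*(S + 1)*(T + 1)) :
    fl S T Letter.be (((S*T^(2:ℕ) - S*T + T^(2:ℕ) - S - 1))/(T*(S + 1)*(T + 1)), ((S^(2:ℕ)*T + S^(2:ℕ) + 2*S + T + 1))/(S*(S + 1)*(T + 1))) = (((S^(2:ℕ)*T + S + T + 1))/(S*T*(S + 1)), ((2*S*T + S + T + 1))/((S + 1)*(T + 1)^(2:ℕ))) := fl_be' pT d7 d5 d6 d1 (by ring) (by ring)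

theorem F1_f10 (S T : ℝ) (pT : 0 < T) (d1 : 0 < (S + 1)*(T + 1)^(2:ℕ)) (d4 : 0 < (S + 1)*(T + 1)) (d5 : 0 < S*(S + 1)*(T + 1)) (d6 : 0 < S*T*(S + 1)) :
    fl S T Letter.be (((S^(2:ℕ)*T + S + T + 1))/(S*T*(S + 1)), ((2*S*T + S + T + 1))/((S + 1)*(T + 1)^(2:ℕ))) = ((S)/((S + 1)*(T + 1)), ((S*T - S - T - 1))/(S*(S + 1)*(T + 1))) := fl_be' pT d6 d1 d4 d5 (by ring) (by ring)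

theorem F1_f11 (S T : ℝ) (pS : 0 < S) (d2 : 0 < (S + 1)^(2:ℕ)*(T + 1)) (d3 : 0 < (T + 1)) (d4 : 0 < (S + 1)*(T + 1)) (d5 : 0 < S*(S + 1)*(T + 1)) :
    fl S T Letter.ga ((S)/((S + 1)*(T + 1)), ((S*T - S - T - 1))/(S*(S + 1)*(T + 1))) = ((2*S*T)/((S + 1)^(2:ℕ)*(T + 1)), (T)/((T + 1))) := fl_ga' pS d4 d5 d2 d3 (by ring) (by ring)

theorem F1_f12 (S T : ℝ) (pS : 0 < S) (d2 : 0 < (S + 1)^(2:ℕ)*(T + 1)) (d3 : 0 < (T + 1)) (d4 : 0 < (S + 1)*(T + 1)) :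
    fl S T Letter.ga ((2*S*T)/((S + 1)^(2:ℕ)*(T + 1)), (T)/((T + 1))) = (((S*T + T + 1))/((S + 1)*(T + 1)), ((S*T + S - T + 1))/((S + 1)*(T + 1))) := fl_ga' pS d2 d3 d4 d4 (by ring) (by ring)

theorem F1_f13 (S T : ℝ) (pT : 0 < T) (d0 : 0 < (S + 1)) (d1 : 0 < (S + 1)*(T + 1)^(2:ℕ)) (d4 : 0 < (S + 1)*(T + 1)) :
    fl S T Letter.be (((S*T + T + 1))/((S + 1)*(T + 1)), ((S*T + S - T + 1))/((S + 1)*(T + 1))) = (((S - 1))/((S + 1)), (S*T)/((S + 1)*(T + 1)^(2:ℕ))) := fl_be' pT d4 d4 d0 d1 (by ring) (by ring)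

theorem F1_rP (S T : ℝ) (f7 : fl S T Letter.al (((S - 1))/((S + 1)), ((S^(2:ℕ)*T^(2:ℕ) - S^(2:ℕ)*T - S*T^(2:ℕ) - S^(2:ℕ) - 3*S*T - T^(2:ℕ) - 2*S - 2*T - 1))/(S*T*(S + 1)*(T + 1)^(2:ℕ))) = (((S*T - S - T - 1))/((S + 1)^(2:ℕ)*(T + 1)), ((S*T^(2:ℕ) - S*T - S - T - 1))/(S*T*(T + 1)))) (f8 : fl S T Letter.ga (((S*T - S - T - 1))/((S + 1)^(2:ℕ)*(T + 1)), ((S*T^(2:ℕ) - S*T - S - T - 1))/(S*T*(T + 1))) = (((S*T^(2:ℕ) - S*T + T^(2:ℕ) - S - 1))/(T*(S + 1)*(T + 1)), ((S^(2:ℕ)*T + S^(2:ℕ) + 2*S + T + 1))/(S*(S + 1)*(T + 1)))) (f9 : fl S T Letter.be (((S*T^(2:ℕ) - S*T + T^(2:ℕ) - S - 1))/(T*(S + 1)*(T + 1)), ((S^(2:ℕ)*T + S^(2:ℕ) + 2*S + T + 1))/(S*(S + 1)*(T + 1))) = (((S^(2:ℕ)*T + S + T + 1))/(S*T*(S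 + 1)), ((2*S*T + S + T + 1))/((S + 1)*(T + 1)^(2:ℕ)))) (f10 : fl S T Letter.be (((S^(2:ℕ)*T + S + T + 1))/(S*T*(S + 1)), ((2*S*T + S + T + 1))/((S + 1)*(T + 1)^(2:ℕ))) = ((S)/((S + 1)*(T + 1)), ((S*T - S - T - 1))/(S*(S + 1)*(T + 1)))) (f11 : fl S T Letter.ga ((S)/((S + 1)*(T + 1)), ((S*T - S - T - 1))/(S*(S + 1)*(T + 1))) = ((2*S*T)/((S + 1)^(2:ℕ)*(T + 1)), (T)/((T + 1)))) (f12 : fl S T Letter.ga ((2*S*T)/((S + 1)^(2:ℕ)*(T + 1)), (T)/((T + 1))) = (((S*T + T + 1))/((S + 1)*(T + 1)), ((S*T + S - T + 1))/((S + 1)*(T + 1)))) (f13 : fl S T Letter.be (((S*T + T + 1))/((S + 1)*(T + 1)), ((S*T + S - T + 1))/((S + 1)*(T + 1))) = (((S - 1))/((S + 1)), (S*T)/((S + 1)*(T + 1)^(2:ℕ)))) :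
    run S T [Letter.al, Letter.ga, Letter.be, Letter.be, Letter.ga, Letter.ga, Letter.be] (((S - 1))/((S + 1)), ((S^(2:ℕ)*T^(2:ℕ) - S^(2:ℕ)*T - S*T^(2:ℕ) - S^(2:ℕ) - 3*S*T - T^(2:ℕ) - 2*S - 2*T - 1))/(S*T*(S + 1)*(T + 1)^(2:ℕ))) = (((S - 1))/((S + 1)), (S*T)/((S + 1)*(T + 1)^(2:ℕ))) := (run_cons' f7 (run_cons' f8 (run_cons' f9 (run_cons' f10 (run_cons' f11 (run_cons' f12 (run_cons' f13 run_nil')))))))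

theorem F1_d10 (S T : ℝ) (c0 : 0 < S - 1) :
    0 < (S - 1) := c0

theorem F1_q0 (S T : ℝ) (d0 : 0 < (S + 1)) (d10 : 0 < (S - 1)) :
    0 < ((S - 1))/((S + 1)) := div_pos d10 d0

theorem F1_d11 (S T : ℝ)  :
    0 < (2 : ℝ) := (by norm_num)

theorem F1_q1 (S T : ℝ) (d0 : 0 < (S + 1)) (d11 : 0 < (2 : ℝ)) :
    ((S - 1))/((S + 1)) < 1 := rlt1 d0 d11 d0 (by ring)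

theorem F1_d12 (S T : ℝ) (c1 : 0 < S^(2:ℕ)*T^(2:ℕ) - S^(2:ℕ)*T - S*T^(2:ℕ) - S^(2:ℕ) - 3*S*T - T^(2:ℕ) - 2*S - 2*T - 1) :
    0 < (S^(2:ℕ)*T^(2:ℕ) - S^(2:ℕ)*T - S*T^(2:ℕ) - S^(2:ℕ) - 3*S*T - T^(2:ℕ) - 2*S - 2*T - 1) := c1

theorem F1_q2 (S T : ℝ) (d9 : 0 < S*T*(S + 1)*(T + 1)^(2:ℕ)) (d12 : 0 < (S^(2:ℕ)*T^(2:ℕ) - S^(2:ℕ)*T - S*T^(2:ℕ) - S^(2:ℕ) - 3*S*T - T^(2:ℕ) - 2*S - 2*T - 1)) :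
    0 < ((S^(2:ℕ)*T^(2:ℕ) - S^(2:ℕ)*T - S*T^(2:ℕ) - S^(2:ℕ) - 3*S*T - T^(2:ℕ) - 2*S - 2*T - 1))/(S*T*(S + 1)*(T + 1)^(2:ℕ)) := div_pos d12 d9

theorem F1_d13 (S T : ℝ) (c2 : 0 < S^(2:ℕ)*T^(3:ℕ) + S^(2:ℕ)*T^(2:ℕ) + S*T^(3:ℕ) + 2*S^(2:ℕ)*T + 3*S*T^(2:ℕ) + S^(2:ℕ) + 4*S*T + T^(2:ℕ) + 2*S + 2*T + 1) :
    0 < (S^(2:ℕ)*T^(3:ℕ) + S^(2:ℕ)*T^(2:ℕ) + S*T^(3:ℕ) + 2*S^(2:ℕ)*T + 3*S*T^(2:ℕ) + S^(2:ℕ) + 4*S*T + T^(2:ℕ) + 2*S + 2*T + 1) := c2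

theorem F1_q3 (S T : ℝ) (d9 : 0 < S*T*(S + 1)*(T + 1)^(2:ℕ)) (d13 : 0 < (S^(2:ℕ)*T^(3:ℕ) + S^(2:ℕ)*T^(2:ℕ) + S*T^(3:ℕ) + 2*S^(2:ℕ)*T + 3*S*T^(2:ℕ) + S^(2:ℕ) + 4*S*T + T^(2:ℕ) + 2*S + 2*T + 1)) :
    ((S^(2:ℕ)*T^(2:ℕ) - S^(2:ℕ)*T - S*T^(2:ℕ) - S^(2:ℕ) - 3*S*T - T^(2:ℕ) - 2*S - 2*T - 1))/(S*T*(S + 1)*(T + 1)^(2:ℕ)) < 1 := rlt1 d9 d13 d9 (by ring)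

theorem F1_sP (S T : ℝ) (q0 : 0 < ((S - 1))/((S + 1))) (q1 : ((S - 1))/((S + 1)) < 1) (q2 : 0 < ((S^(2:ℕ)*T^(2:ℕ) - S^(2:ℕ)*T - S*T^(2:ℕ) - S^(2:ℕ) - 3*S*T - T^(2:ℕ) - 2*S - 2*T - 1))/(S*T*(S + 1)*(T + 1)^(2:ℕ))) (q3 : ((S^(2:ℕ)*T^(2:ℕ) - S^(2:ℕ)*T - S*T^(2:ℕ) - S^(2:ℕ) - 3*S*T - T^(2:ℕ) - 2*S - 2*T - 1))/(S*T*(S + 1)*(T + 1)^(2:ℕ)) < 1) :
    Sq (((S - 1))/((S + 1)), ((S^(2:ℕ)*T^(2:ℕ) - S^(2:ℕ)*T - S*T^(2:ℕ) - S^(2:ℕ) - 3*S*T - T^(2:ℕ) - 2*S - 2*T - 1))/(S*T*(S + 1)*(T + 1)^(2:ℕ))) := ⟨⟨q0, q1⟩, q2, q3⟩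

theorem F1_d14 (S T : ℝ) (c3 : 0 < S*T - S - T - 1) :
    0 < (S*T - S - T - 1) := c3

theorem F1_g0 (S T : ℝ) (d0 : 0 < (S + 1)) (d14 : 0 < (S*T - S - T - 1)) :
    S < (S + T + 1) * (((S - 1))/((S + 1))) := rgt d0 d14 d0 (by ring)

theorem F1_d15 (S T : ℝ) (pU : 0 < (S + T + 1)) (c4 : 0 < 2*S*T + S + T + 1) :
    0 < (S + T + 1)*(2*S*T + S + T + 1) := (mul_pos pU c4)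

theorem F1_d16 (S T : ℝ) (pS : 0 < S) (pT : 0 < T) (pA : 0 < (S + 1)) (pB : 0 < (T + 1)) :
    0 < S*T*(S + 1)*(T + 1) := (mul_pos (mul_pos (mul_pos pS pT) pA) pB)

theorem F1_g1 (S T : ℝ) (d9 : 0 < S*T*(S + 1)*(T + 1)^(2:ℕ)) (d15 : 0 < (S + T + 1)*(2*S*T + S + T + 1)) (d16 : 0 < S*T*(S + 1)*(T + 1)) :
    (T + 1) * (((S^(2:ℕ)*T^(2:ℕ) - S^(2:ℕ)*T - S*T^(2:ℕ) - S^(2:ℕ) - 3*S*T - T^(2:ℕ) - 2*S - 2*T - 1))/(S*T*(S + 1)*(T + 1)^(2:ℕ))) < 1 := rlt d9 d15 d16 (by ring)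

theorem F1_oP_0 (S T : ℝ) (g0 : S < (S + T + 1) * (((S - 1))/((S + 1)))) (g1 : (T + 1) * (((S^(2:ℕ)*T^(2:ℕ) - S^(2:ℕ)*T - S*T^(2:ℕ) - S^(2:ℕ) - 3*S*T - T^(2:ℕ) - 2*S - 2*T - 1))/(S*T*(S + 1)*(T + 1)^(2:ℕ))) < 1) :
    cond S T Letter.al (((S - 1))/((S + 1)), ((S^(2:ℕ)*T^(2:ℕ) - S^(2:ℕ)*T - S*T^(2:ℕ) - S^(2:ℕ) - 3*S*T - T^(2:ℕ) - 2*S - 2*T - 1))/(S*T*(S + 1)*(T + 1)^(2:ℕ))) := ⟨g0, g1⟩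

theorem F1_d17 (S T : ℝ) (c5 : 0 < S^(3:ℕ)*T + S^(3:ℕ) + S^(2:ℕ)*T - S*T^(2:ℕ) + 3*S^(2:ℕ) + 2*S*T + T^(2:ℕ) + 3*S + 2*T + 1) :
    0 < (S^(3:ℕ)*T + S^(3:ℕ) + S^(2:ℕ)*T - S*T^(2:ℕ) + 3*S^(2:ℕ) + 2*S*T + T^(2:ℕ) + 3*S + 2*T + 1) := c5

theorem F1_g2 (S T : ℝ) (d2 : 0 < (S + 1)^(2:ℕ)*(T + 1)) (d17 : 0 < (S^(3:ℕ)*T + S^(3:ℕ) + S^(2:ℕ)*T - S*T^(2:ℕ) + 3*S^(2:ℕ) + 2*S*T + T^(2:ℕ) + 3*S + 2*T + 1)) :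
    (S + T + 1) * (((S*T - S - T - 1))/((S + 1)^(2:ℕ)*(T + 1))) < S := rlt d2 d17 d2 (by ring)

theorem F1_oP_1 (S T : ℝ) (g2 : (S + T + 1) * (((S*T - S - T - 1))/((S + 1)^(2:ℕ)*(T + 1))) < S) :
    cond S T Letter.ga (((S*T - S - T - 1))/((S + 1)^(2:ℕ)*(T + 1)), ((S*T^(2:ℕ) - S*T - S - T - 1))/(S*T*(T + 1))) := g2

theorem F1_d18 (S T : ℝ) (c6 : 0 < S*T^(3:ℕ) - 2*S^(2:ℕ)*T + T^(3:ℕ) - S^(2:ℕ) - 3*S*T + T^(2:ℕ) - 2*S - T - 1) :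
    0 < (S*T^(3:ℕ) - 2*S^(2:ℕ)*T + T^(3:ℕ) - S^(2:ℕ) - 3*S*T + T^(2:ℕ) - 2*S - T - 1) := c6

theorem F1_g3 (S T : ℝ) (d7 : 0 < T*(S + 1)*(T + 1)) (d18 : 0 < (S*T^(3:ℕ) - 2*S^(2:ℕ)*T + T^(3:ℕ) - S^(2:ℕ) - 3*S*T + T^(2:ℕ) - 2*S - T - 1)) :
    S < (S + T + 1) * (((S*T^(2:ℕ) - S*T + T^(2:ℕ) - S - 1))/(T*(S + 1)*(T + 1))) := rgt d7 d18 d7 (by ring)

theorem F1_d19 (S T : ℝ) (c7 : 0 < S^(2:ℕ)*T + S + T + 1) :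
    0 < (S^(2:ℕ)*T + S + T + 1) := c7

theorem F1_d20 (S T : ℝ) (pS : 0 < S) (pA : 0 < (S + 1)) :
    0 < S*(S + 1) := (mul_pos pS pA)

theorem F1_g4 (S T : ℝ) (d5 : 0 < S*(S + 1)*(T + 1)) (d19 : 0 < (S^(2:ℕ)*T + S + T + 1)) (d20 : 0 < S*(S + 1)) :
    1 < (T + 1) * (((S^(2:ℕ)*T + S^(2:ℕ) + 2*S + T + 1))/(S*(S + 1)*(T + 1))) := rgt d5 d19 d20 (by ring)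

theorem F1_oP_2 (S T : ℝ) (g3 : S < (S + T + 1) * (((S*T^(2:ℕ) - S*T + T^(2:ℕ) - S - 1))/(T*(S + 1)*(T + 1)))) (g4 : 1 < (T + 1) * (((S^(2:ℕ)*T + S^(2:ℕ) + 2*S + T + 1))/(S*(S + 1)*(T + 1)))) :
    cond S T Letter.be (((S*T^(2:ℕ) - S*T + T^(2:ℕ) - S - 1))/(T*(S + 1)*(T + 1)), ((S^(2:ℕ)*T + S^(2:ℕ) + 2*S + T + 1))/(S*(S + 1)*(T + 1))) := ⟨g3, g4⟩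

theorem F1_d21 (S T : ℝ) (c8 : 0 < S^(2:ℕ)*T^(2:ℕ) + S^(2:ℕ) + 2*S*T + T^(2:ℕ) + 2*S + 2*T + 1) :
    0 < (S^(2:ℕ)*T^(2:ℕ) + S^(2:ℕ) + 2*S*T + T^(2:ℕ) + 2*S + 2*T + 1) := c8

theorem F1_g5 (S T : ℝ) (d6 : 0 < S*T*(S + 1)) (d21 : 0 < (S^(2:ℕ)*T^(2:ℕ) + S^(2:ℕ) + 2*S*T + T^(2:ℕ) + 2*S + 2*T + 1)) :
    S < (S + T + 1) * (((S^(2:ℕ)*T + S + T + 1))/(S*T*(S + 1))) := rgt d6 d21 d6 (by ring)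

theorem F1_d22 (S T : ℝ) (pS : 0 < S) (pT : 0 < T) :
    0 < S*T := (mul_pos pS pT)

theorem F1_g6 (S T : ℝ) (d1 : 0 < (S + 1)*(T + 1)^(2:ℕ)) (d4 : 0 < (S + 1)*(T + 1)) (d22 : 0 < S*T) :
    1 < (T + 1) * (((2*S*T + S + T + 1))/((S + 1)*(T + 1)^(2:ℕ))) := rgt d1 d22 d4 (by ring)

theorem F1_oP_3 (S T : ℝ) (g5 : S < (S + T + 1) * (((S^(2:ℕ)*T + S + T + 1))/(S*T*(S + 1)))) (g6 : 1 < (T + 1) * (((2*S*T + S + T + 1))/((S + 1)*(T + 1)^(2:ℕ)))) :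
    cond S T Letter.be (((S^(2:ℕ)*T + S + T + 1))/(S*T*(S + 1)), ((2*S*T + S + T + 1))/((S + 1)*(T + 1)^(2:ℕ))) := ⟨g5, g6⟩

theorem F1_d23 (S T : ℝ) (pS : 0 < S) (pT : 0 < T) :
    0 < S^(2:ℕ)*T := (mul_pos (pow_pos pS 2) pT)

theorem F1_g7 (S T : ℝ) (d4 : 0 < (S + 1)*(T + 1)) (d23 : 0 < S^(2:ℕ)*T) :
    (S + T + 1) * ((S)/((S + 1)*(T + 1))) < S := rlt d4 d23 d4 (by ring)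

theorem F1_oP_4 (S T : ℝ) (g7 : (S + T + 1) * ((S)/((S + 1)*(T + 1))) < S) :
    cond S T Letter.ga ((S)/((S + 1)*(T + 1)), ((S*T - S - T - 1))/(S*(S + 1)*(T + 1))) := g7

theorem F1_d24 (S T : ℝ) (pS : 0 < S) (c9 : 0 < S^(2:ℕ)*T + S^(2:ℕ) - 2*T^(2:ℕ) + 2*S - T + 1) :
    0 < S*(S^(2:ℕ)*T + S^(2:ℕ) - 2*T^(2:ℕ) + 2*S - T + 1) := (mul_pos pS c9)

theorem F1_g8 (S T : ℝ) (d2 : 0 < (S + 1)^(2:ℕ)*(T + 1)) (d24 : 0 < S*(S^(2:ℕ)*T + S^(2:ℕ) - 2*T^(2:ℕ) + 2*S - T + 1)) :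
    (S + T + 1) * ((2*S*T)/((S + 1)^(2:ℕ)*(T + 1))) < S := rlt d2 d24 d2 (by ring)

theorem F1_oP_5 (S T : ℝ) (g8 : (S + T + 1) * ((2*S*T)/((S + 1)^(2:ℕ)*(T + 1))) < S) :
    cond S T Letter.ga ((2*S*T)/((S + 1)^(2:ℕ)*(T + 1)), (T)/((T + 1))) := g8

theorem F1_d25 (S T : ℝ) (c10 : 0 < S*T^(2:ℕ) - S^(2:ℕ) + S*T + T^(2:ℕ) + 2*T + 1) :
    0 < (S*T^(2:ℕ) - S^(2:ℕ) + S*T + T^(2:ℕ) + 2*T + 1) := c10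

theorem F1_g9 (S T : ℝ) (d4 : 0 < (S + 1)*(T + 1)) (d25 : 0 < (S*T^(2:ℕ) - S^(2:ℕ) + S*T + T^(2:ℕ) + 2*T + 1)) :
    S < (S + T + 1) * (((S*T + T + 1))/((S + 1)*(T + 1))) := rgt d4 d25 d4 (by ring)

theorem F1_d26 (S T : ℝ) (pT : 0 < T) (c0 : 0 < S - 1) :
    0 < T*(S - 1) := (mul_pos pT c0)

theorem F1_g10 (S T : ℝ) (d0 : 0 < (S + 1)) (d4 : 0 < (S + 1)*(T + 1)) (d26 : 0 < T*(S - 1)) :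
    1 < (T + 1) * (((S*T + S - T + 1))/((S + 1)*(T + 1))) := rgt d4 d26 d0 (by ring)

theorem F1_oP_6 (S T : ℝ) (g9 : S < (S + T + 1) * (((S*T + T + 1))/((S + 1)*(T + 1)))) (g10 : 1 < (T + 1) * (((S*T + S - T + 1))/((S + 1)*(T + 1)))) :
    cond S T Letter.be (((S*T + T + 1))/((S + 1)*(T + 1)), ((S*T + S - T + 1))/((S + 1)*(T + 1))) := ⟨g9, g10⟩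

theorem F1_oP (S T : ℝ) (f7 : fl S T Letter.al (((S - 1))/((S + 1)), ((S^(2:ℕ)*T^(2:ℕ) - S^(2:ℕ)*T - S*T^(2:ℕ) - S^(2:ℕ) - 3*S*T - T^(2:ℕ) - 2*S - 2*T - 1))/(S*T*(S + 1)*(T + 1)^(2:ℕ))) = (((S*T - S - T - 1))/((S + 1)^(2:ℕ)*(T + 1)), ((S*T^(2:ℕ) - S*T - S - T - 1))/(S*T*(T + 1)))) (f8 : fl S T Letter.ga (((S*T - S - T - 1))/((S + 1)^(2:ℕ)*(T + 1)), ((S*T^(2:ℕ) - S*T - S - T - 1))/(S*T*(T + 1))) = (((S*T^(2:ℕ) - S*T + T^(2:ℕ) - S - 1))/(T*(S + 1)*(T + 1)), ((S^(2:ℕ)*T + S^(2:ℕ) + 2*S + T + 1))/(S*(S + 1)*(T + 1)))) (f9 : fl S T Letter.be (((S*T^(2:ℕ) - S*T + T^(2:ℕ) - S - 1))/(T*(S + 1)*(T + 1)), ((S^(2:ℕ)*T + S^(2:ℕ) + 2*S + T + 1))/(S*(S + 1)*(T + 1))) = (((S^(2:ℕ)*T + S + T + 1))/(S*T*(S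 + 1)), ((2*S*T + S + T + 1))/((S + 1)*(T + 1)^(2:ℕ)))) (f10 : fl S T Letter.be (((S^(2:ℕ)*T + S + T + 1))/(S*T*(S + 1)), ((2*S*T + S + T + 1))/((S + 1)*(T + 1)^(2:ℕ))) = ((S)/((S + 1)*(T + 1)), ((S*T - S - T - 1))/(S*(S + 1)*(T + 1)))) (f11 : fl S T Letter.ga ((S)/((S + 1)*(T + 1)), ((S*T - S - T - 1))/(S*(S + 1)*(T + 1))) = ((2*S*T)/((S + 1)^(2:ℕ)*(T + 1)), (T)/((T + 1)))) (f12 : fl S T Letter.ga ((2*S*T)/((S + 1)^(2:ℕ)*(T + 1)), (T)/((T + 1))) = (((S*T + T + 1))/((S + 1)*(T + 1)), ((S*T + S - T + 1))/((S + 1)*(T + 1)))) (oP_0 : cond S T Letter.al (((S - 1))/((S + 1)), ((S^(2:ℕ)*T^(2:ℕ) - S^(2:ℕ)*T - S*T^(2:ℕ) - S^(2:ℕ) - 3*S*T - T^(2:ℕ) - 2*S - 2*T - 1))/(S*T*(S + 1)*(T + 1)^(2:ℕ))))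 (oP_1 : cond S T Letter.ga (((S*T - S - T - 1))/((S + 1)^(2:ℕ)*(T + 1)), ((S*T^(2:ℕ) - S*T - S - T - 1))/(S*T*(T + 1)))) (oP_2 : cond S T Letter.be (((S*T^(2:ℕ) - S*T + T^(2:ℕ) - S - 1))/(T*(S + 1)*(T + 1)), ((S^(2:ℕ)*T + S^(2:ℕ) + 2*S + T + 1))/(S*(S + 1)*(T + 1)))) (oP_3 : cond S T Letter.be (((S^(2:ℕ)*T + S + T + 1))/(S*T*(S + 1)), ((2*S*T + S + T + 1))/((S + 1)*(T + 1)^(2:ℕ)))) (oP_4 : cond S T Letter.ga ((S)/((S + 1)*(T + 1)), ((S*T - S - T - 1))/(S*(S + 1)*(T + 1)))) (oP_5 : cond S T Letter.ga ((2*S*T)/((S + 1)^(2:ℕ)*(T + 1)), (T)/((T + 1)))) (oP_6 : cond S T Letter.be (((S*T + T + 1))/((S + 1)*(T + 1)), ((S*T + S - T + 1))/((S + 1)*(T + 1)))) :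
    okc S T [Letter.al, Letter.ga, Letter.be, Letter.be, Letter.ga, Letter.ga, Letter.be] (((S - 1))/((S + 1)), ((S^(2:ℕ)*T^(2:ℕ) - S^(2:ℕ)*T - S*T^(2:ℕ) - S^(2:ℕ) - 3*S*T - T^(2:ℕ) - 2*S - 2*T - 1))/(S*T*(S + 1)*(T + 1)^(2:ℕ))) := (okc_cons' oP_0 f7 (okc_cons' oP_1 f8 (okc_cons' oP_2 f9 (okc_cons' oP_3 f10 (okc_cons' oP_4 f11 (okc_cons' oP_5 f12 (okc_last' oP_6)))))))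

theorem F1_d27 (S T : ℝ) (pS : 0 < S) (pT : 0 < T) (pA : 0 < (S + 1)) (pB : 0 < (T + 1)) :
    0 < S^(2:ℕ)*T^(2:ℕ)*(S + 1)*(T + 1)^(2:ℕ) := (mul_pos (mul_pos (mul_pos (pow_pos pS 2) (pow_pos pT 2)) pA) (pow_pos pB 2))

theorem F1_d28 (S T : ℝ) (pS : 0 < S) (pT : 0 < T) (pB : 0 < (T + 1)) :
    0 < S^(2:ℕ)*T^(2:ℕ)*(T + 1) := (mul_pos (mul_pos (pow_pos pS 2) (pow_pos pT 2)) pB)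

theorem F1_f14 (S T : ℝ) (pS : 0 < S) (pT : 0 < T) (d0 : 0 < (S + 1)) (d2 : 0 < (S + 1)^(2:ℕ)*(T + 1)) (d27 : 0 < S^(2:ℕ)*T^(2:ℕ)*(S + 1)*(T + 1)^(2:ℕ)) (d28 : 0 < S^(2:ℕ)*T^(2:ℕ)*(T + 1)) :
    fl S T Letter.al (((S - 1))/((S + 1)), ((S^(3:ℕ)*T^(3:ℕ) - S^(3:ℕ)*T^(2:ℕ) - S^(2:ℕ)*T^(3:ℕ) - S^(2:ℕ)*T^(2:ℕ) + S^(3:ℕ) + 3*S^(2:ℕ)*T + 3*S*T^(2:ℕ) + T^(3:ℕ) + 3*S^(2:ℕ) + 6*S*T + 3*T^(2:ℕ) + 3*S + 3*T + 1))/(S^(2:ℕ)*T^(2:ℕ)*(S + 1)*(T + 1)^(2:ℕ))) = (((S*T - S - T - 1))/((S + 1)^(2:ℕ)*(T + 1)), ((S^(2:ℕ)*T^(3:ℕ) - S^(2:ℕ)*T^(2:ℕ) + S^(2:ℕ) + 2*S*T + T^(2:ℕ) + 2*S + 2*T + 1))/(S^(2:ℕ)*T^(2:ℕ)*(T + 1))) := fl_al' pS pT d0 d27 d2 d28 (by ring) (by ring)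

theorem F1_d29 (S T : ℝ) (pS : 0 < S) (pT : 0 < T) (pA : 0 < (S + 1)) (pB : 0 < (T + 1)) :
    0 < S*T^(2:ℕ)*(S + 1)*(T + 1) := (mul_pos (mul_pos (mul_pos pS (pow_pos pT 2)) pA) pB)

theorem F1_f15 (S T : ℝ) (pS : 0 < S) (d2 : 0 < (S + 1)^(2:ℕ)*(T + 1)) (d5 : 0 < S*(S + 1)*(T + 1)) (d28 : 0 < S^(2:ℕ)*T^(2:ℕ)*(T + 1)) (d29 : 0 < S*T^(2:ℕ)*(S + 1)*(T + 1)) :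
    fl S T Letter.ga (((S*T - S - T - 1))/((S + 1)^(2:ℕ)*(T + 1)), ((S^(2:ℕ)*T^(3:ℕ) - S^(2:ℕ)*T^(2:ℕ) + S^(2:ℕ) + 2*S*T + T^(2:ℕ) + 2*S + 2*T + 1))/(S^(2:ℕ)*T^(2:ℕ)*(T + 1))) = (((S^(2:ℕ)*T^(3:ℕ) - S^(2:ℕ)*T^(2:ℕ) + S*T^(3:ℕ) + S*T^(2:ℕ) + S^(2:ℕ) + 2*S*T + T^(2:ℕ) + 2*S + 2*T + 1))/(S*T^(2:ℕ)*(S + 1)*(T + 1)), ((S^(2:ℕ)*T + S^(2:ℕ) + 2*S + T + 1))/(S*(S + 1)*(T + 1))) := fl_ga' pS d2 d28 d29 d5 (by ring) (by ring)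

theorem F1_f16 (S T : ℝ) (pT : 0 < T) (d5 : 0 < S*(S + 1)*(T + 1)) (d6 : 0 < S*T*(S + 1)) (d9 : 0 < S*T*(S + 1)*(T + 1)^(2:ℕ)) (d29 : 0 < S*T^(2:ℕ)*(S + 1)*(T + 1)) :
    fl S T Letter.be (((S^(2:ℕ)*T^(3:ℕ) - S^(2:ℕ)*T^(2:ℕ) + S*T^(3:ℕ) + S*T^(2:ℕ) + S^(2:ℕ) + 2*S*T + T^(2:ℕ) + 2*S + 2*T + 1))/(S*T^(2:ℕ)*(S + 1)*(T + 1)), ((S^(2:ℕ)*T + S^(2:ℕ) + 2*S + T + 1))/(S*(S + 1)*(T + 1))) = (((S^(2:ℕ)*T + S + T + 1))/(S*T*(S + 1)), ((2*S^(2:ℕ)*T^(2:ℕ) - S^(2:ℕ) - 2*S*T - T^(2:ℕ) - 2*S - 2*T - 1))/(S*T*(S + 1)*(T + 1)^(2:ℕ))) := fl_be' pT d29 d5 d6 d9 (by ring) (by ring)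

theorem F1_f17 (S T : ℝ) (pT : 0 < T) (d5 : 0 < S*(S + 1)*(T + 1)) (d6 : 0 < S*T*(S + 1)) (d9 : 0 < S*T*(S + 1)*(T + 1)^(2:ℕ)) (d29 : 0 < S*T^(2:ℕ)*(S + 1)*(T + 1)) :
    fl S T Letter.be (((S^(2:ℕ)*T + S + T + 1))/(S*T*(S + 1)), ((2*S^(2:ℕ)*T^(2:ℕ) - S^(2:ℕ) - 2*S*T - T^(2:ℕ) - 2*S - 2*T - 1))/(S*T*(S + 1)*(T + 1)^(2:ℕ))) = (((S^(2:ℕ)*T^(2:ℕ) - S^(2:ℕ)*T - S*T^(2:ℕ) - S^(2:ℕ) - 3*S*T - T^(2:ℕ) - 2*S - 2*T - 1))/(S*T^(2:ℕ)*(S + 1)*(T + 1)), ((S*T - S - T - 1))/(S*(S + 1)*(T + 1))) := fl_be' pT d6 d9 d29 d5 (by ring) (by ring)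

theorem F1_f18 (S T : ℝ) (pS : 0 < S) (d2 : 0 < (S + 1)^(2:ℕ)*(T + 1)) (d5 : 0 < S*(S + 1)*(T + 1)) (d28 : 0 < S^(2:ℕ)*T^(2:ℕ)*(T + 1)) (d29 : 0 < S*T^(2:ℕ)*(S + 1)*(T + 1)) :
    fl S T Letter.ga (((S^(2:ℕ)*T^(2:ℕ) - S^(2:ℕ)*T - S*T^(2:ℕ) - S^(2:ℕ) - 3*S*T - T^(2:ℕ) - 2*S - 2*T - 1))/(S*T^(2:ℕ)*(S + 1)*(T + 1)), ((S*T - S - T - 1))/(S*(S + 1)*(T + 1))) = ((2*S*T)/((S + 1)^(2:ℕ)*(T + 1)), ((S^(2:ℕ)*T^(3:ℕ) + S^(2:ℕ)*T + S*T^(2:ℕ) + S^(2:ℕ) + 3*S*T + T^(2:ℕ) + 2*S + 2*T + 1))/(S^(2:ℕ)*T^(2:ℕ)*(T + 1))) := fl_ga' pS d29 d5 d2 d28 (by ring) (by ring)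

theorem F1_f19 (S T : ℝ) (pS : 0 < S) (d2 : 0 < (S + 1)^(2:ℕ)*(T + 1)) (d4 : 0 < (S + 1)*(T + 1)) (d28 : 0 < S^(2:ℕ)*T^(2:ℕ)*(T + 1)) (d29 : 0 < S*T^(2:ℕ)*(S + 1)*(T + 1)) :
    fl S T Letter.ga ((2*S*T)/((S + 1)^(2:ℕ)*(T + 1)), ((S^(2:ℕ)*T^(3:ℕ) + S^(2:ℕ)*T + S*T^(2:ℕ) + S^(2:ℕ) + 3*S*T + T^(2:ℕ) + 2*S + 2*T + 1))/(S^(2:ℕ)*T^(2:ℕ)*(T + 1))) = (((S^(2:ℕ)*T^(3:ℕ) + S*T^(3:ℕ) + S^(2:ℕ)*T + 2*S*T^(2:ℕ) + S^(2:ℕ) + 3*S*T + T^(2:ℕ) + 2*S + 2*T + 1))/(S*T^(2:ℕ)*(S + 1)*(T + 1)), ((S*T + S - T + 1))/((S + 1)*(T + 1))) := fl_ga' pS d2 d28 d29 d4 (by ring) (by ring)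

theorem F1_f20 (S T : ℝ) (pT : 0 < T) (d0 : 0 < (S + 1)) (d4 : 0 < (S + 1)*(T + 1)) (d9 : 0 < S*T*(S + 1)*(T + 1)^(2:ℕ)) (d29 : 0 < S*T^(2:ℕ)*(S + 1)*(T + 1)) :
    fl S T Letter.be (((S^(2:ℕ)*T^(3:ℕ) + S*T^(3:ℕ) + S^(2:ℕ)*T + 2*S*T^(2:ℕ) + S^(2:ℕ) + 3*S*T + T^(2:ℕ) + 2*S + 2*T + 1))/(S*T^(2:ℕ)*(S + 1)*(T + 1)), ((S*T + S - T + 1))/((S + 1)*(T + 1))) = (((S - 1))/((S + 1)), ((S^(2:ℕ)*T^(2:ℕ) - S^(2:ℕ)*T - S*T^(2:ℕ) - S^(2:ℕ) - 3*S*T - T^(2:ℕ) - 2*S - 2*T - 1))/(S*T*(S + 1)*(T + 1)^(2:ℕ))) := fl_be' pT d29 d4 d0 d9 (by ring) (by ring)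

theorem F1_d30 (S T : ℝ) (c11 : 0 < S^(3:ℕ)*T^(3:ℕ) - S^(3:ℕ)*T^(2:ℕ) - S^(2:ℕ)*T^(3:ℕ) - S^(2:ℕ)*T^(2:ℕ) + S^(3:ℕ) + 3*S^(2:ℕ)*T + 3*S*T^(2:ℕ) + T^(3:ℕ) + 3*S^(2:ℕ) + 6*S*T + 3*T^(2:ℕ) + 3*S + 3*T + 1) :
    0 < (S^(3:ℕ)*T^(3:ℕ) - S^(3:ℕ)*T^(2:ℕ) - S^(2:ℕ)*T^(3:ℕ) - S^(2:ℕ)*T^(2:ℕ) + S^(3:ℕ) + 3*S^(2:ℕ)*T + 3*S*T^(2:ℕ) + T^(3:ℕ) + 3*S^(2:ℕ) + 6*S*T + 3*T^(2:ℕ) + 3*S + 3*T + 1) := c11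

theorem F1_q4 (S T : ℝ) (d27 : 0 < S^(2:ℕ)*T^(2:ℕ)*(S + 1)*(T + 1)^(2:ℕ)) (d30 : 0 < (S^(3:ℕ)*T^(3:ℕ) - S^(3:ℕ)*T^(2:ℕ) - S^(2:ℕ)*T^(3:ℕ) - S^(2:ℕ)*T^(2:ℕ) + S^(3:ℕ) + 3*S^(2:ℕ)*T + 3*S*T^(2:ℕ) + T^(3:ℕ) + 3*S^(2:ℕ) + 6*S*T + 3*T^(2:ℕ) + 3*S + 3*T + 1)) :
    0 < ((S^(3:ℕ)*T^(3:ℕ) - S^(3:ℕ)*T^(2:ℕ) - S^(2:ℕ)*T^(3:ℕ) - S^(2:ℕ)*T^(2:ℕ) + S^(3:ℕ) + 3*S^(2:ℕ)*T + 3*S*T^(2:ℕ) + T^(3:ℕ) + 3*S^(2:ℕ) + 6*S*T + 3*T^(2:ℕ) + 3*S + 3*T + 1))/(S^(2:ℕ)*T^(2:ℕ)*(S + 1)*(T + 1)^(2:ℕ)) := div_pos d30 d27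

theorem F1_d31 (S T : ℝ) (c12 : 0 < S^(3:ℕ)*T^(4:ℕ) + S^(3:ℕ)*T^(3:ℕ) + S^(2:ℕ)*T^(4:ℕ) + 2*S^(3:ℕ)*T^(2:ℕ) + 3*S^(2:ℕ)*T^(3:ℕ) + 2*S^(2:ℕ)*T^(2:ℕ) - S^(3:ℕ) - 3*S^(2:ℕ)*T - 3*S*T^(2:ℕ) - T^(3:ℕ) - 3*S^(2:ℕ) - 6*S*T - 3*T^(2:ℕ) - 3*S - 3*T - 1) :
    0 < (S^(3:ℕ)*T^(4:ℕ) + S^(3:ℕ)*T^(3:ℕ) + S^(2:ℕ)*T^(4:ℕ) + 2*S^(3:ℕ)*T^(2:ℕ) + 3*S^(2:ℕ)*T^(3:ℕ) + 2*S^(2:ℕ)*T^(2:ℕ) - S^(3:ℕ) - 3*S^(2:ℕ)*T - 3*S*T^(2:ℕ) - T^(3:ℕ) - 3*S^(2:ℕ) - 6*S*T - 3*T^(2:ℕ) - 3*S - 3*T - 1) := c12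

theorem F1_q5 (S T : ℝ) (d27 : 0 < S^(2:ℕ)*T^(2:ℕ)*(S + 1)*(T + 1)^(2:ℕ)) (d31 : 0 < (S^(3:ℕ)*T^(4:ℕ) + S^(3:ℕ)*T^(3:ℕ) + S^(2:ℕ)*T^(4:ℕ) + 2*S^(3:ℕ)*T^(2:ℕ) + 3*S^(2:ℕ)*T^(3:ℕ) + 2*S^(2:ℕ)*T^(2:ℕ) - S^(3:ℕ) - 3*S^(2:ℕ)*T - 3*S*T^(2:ℕ) - T^(3:ℕ) - 3*S^(2:ℕ) - 6*S*T - 3*T^(2:ℕ) - 3*S - 3*T - 1)) :
    ((S^(3:ℕ)*T^(3:ℕ) - S^(3:ℕ)*T^(2:ℕ) - S^(2:ℕ)*T^(3:ℕ) - S^(2:ℕ)*T^(2:ℕ) + S^(3:ℕ) + 3*S^(2:ℕ)*T + 3*S*T^(2:ℕ) + T^(3:ℕ) + 3*S^(2:ℕ) + 6*S*T + 3*T^(2:ℕ) + 3*S + 3*T + 1))/(S^(2:ℕ)*T^(2:ℕ)*(S + 1)*(T + 1)^(2:ℕ)) < 1 := rlt1 d27 d31 d27 (by ring)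

theorem F1_sQ (S T : ℝ) (q0 : 0 < ((S - 1))/((S + 1))) (q1 : ((S - 1))/((S + 1)) < 1) (q4 : 0 < ((S^(3:ℕ)*T^(3:ℕ) - S^(3:ℕ)*T^(2:ℕ) - S^(2:ℕ)*T^(3:ℕ) - S^(2:ℕ)*T^(2:ℕ) + S^(3:ℕ) + 3*S^(2:ℕ)*T + 3*S*T^(2:ℕ) + T^(3:ℕ) + 3*S^(2:ℕ) + 6*S*T + 3*T^(2:ℕ) + 3*S + 3*T + 1))/(S^(2:ℕ)*T^(2:ℕ)*(S + 1)*(T + 1)^(2:ℕ))) (q5 : ((S^(3:ℕ)*T^(3:ℕ) - S^(3:ℕ)*T^(2:ℕ) - S^(2:ℕ)*T^(3:ℕ) - S^(2:ℕ)*T^(2:ℕ) + S^(3:ℕ) + 3*S^(2:ℕ)*T + 3*S*T^(2:ℕ) + T^(3:ℕ) + 3*S^(2:ℕ) + 6*S*T + 3*T^(2:ℕ) + 3*S + 3*T + 1))/(S^(2:ℕ)*T^(2:ℕ)*(S + 1)*(T + 1)^(2:ℕ)) < 1) :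
    Sq (((S - 1))/((S + 1)), ((S^(3:ℕ)*T^(3:ℕ) - S^(3:ℕ)*T^(2:ℕ) - S^(2:ℕ)*T^(3:ℕ) - S^(2:ℕ)*T^(2:ℕ) + S^(3:ℕ) + 3*S^(2:ℕ)*T + 3*S*T^(2:ℕ) + T^(3:ℕ) + 3*S^(2:ℕ) + 6*S*T + 3*T^(2:ℕ) + 3*S + 3*T + 1))/(S^(2:ℕ)*T^(2:ℕ)*(S + 1)*(T + 1)^(2:ℕ))) := ⟨⟨q0, q1⟩, q4, q5⟩

theorem F1_d32 (S T : ℝ) (pU : 0 < (S + T + 1)) (c13 : 0 < 2*S^(2:ℕ)*T^(2:ℕ) - S^(2:ℕ) - 2*S*T - T^(2:ℕ) - 2*S - 2*T - 1) :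
    0 < (S + T + 1)*(2*S^(2:ℕ)*T^(2:ℕ) - S^(2:ℕ) - 2*S*T - T^(2:ℕ) - 2*S - 2*T - 1) := (mul_pos pU c13)

theorem F1_d33 (S T : ℝ) (pS : 0 < S) (pT : 0 < T) (pA : 0 < (S + 1)) (pB : 0 < (T + 1)) :
    0 < S^(2:ℕ)*T^(2:ℕ)*(S + 1)*(T + 1) := (mul_pos (mul_pos (mul_pos (pow_pos pS 2) (pow_pos pT 2)) pA) pB)

theorem F1_g11 (S T : ℝ) (d27 : 0 < S^(2:ℕ)*T^(2:ℕ)*(S + 1)*(T + 1)^(2:ℕ)) (d32 : 0 < (S + T + 1)*(2*S^(2:ℕ)*T^(2:ℕ) - S^(2:ℕ) - 2*S*T - T^(2:ℕ) - 2*S - 2*T - 1)) (d33 : 0 < S^(2:ℕ)*T^(2:ℕ)*(S + 1)*(T + 1)) :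
    (T + 1) * (((S^(3:ℕ)*T^(3:ℕ) - S^(3:ℕ)*T^(2:ℕ) - S^(2:ℕ)*T^(3:ℕ) - S^(2:ℕ)*T^(2:ℕ) + S^(3:ℕ) + 3*S^(2:ℕ)*T + 3*S*T^(2:ℕ) + T^(3:ℕ) + 3*S^(2:ℕ) + 6*S*T + 3*T^(2:ℕ) + 3*S + 3*T + 1))/(S^(2:ℕ)*T^(2:ℕ)*(S + 1)*(T + 1)^(2:ℕ))) < 1 := rlt d27 d32 d33 (by ring)

theorem F1_oQ_0 (S T : ℝ) (g0 : S < (S + T + 1) * (((S - 1))/((S + 1)))) (g11 : (T + 1) * (((S^(3:ℕ)*T^(3:ℕ) - S^(3:ℕ)*T^(2:ℕ) - S^(2:ℕ)*T^(3:ℕ) - S^(2:ℕ)*T^(2:ℕ) + S^(3:ℕ) + 3*S^(2:ℕ)*T + 3*S*T^(2:ℕ) + T^(3:ℕ) + 3*S^(2:ℕ) + 6*S*T + 3*T^(2:ℕ) + 3*S + 3*T + 1))/(S^(2:ℕ)*T^(2:ℕ)*(S + 1)*(T + 1)^(2:ℕ))) < 1) :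
    cond S T Letter.al (((S - 1))/((S + 1)), ((S^(3:ℕ)*T^(3:ℕ) - S^(3:ℕ)*T^(2:ℕ) - S^(2:ℕ)*T^(3:ℕ) - S^(2:ℕ)*T^(2:ℕ) + S^(3:ℕ) + 3*S^(2:ℕ)*T + 3*S*T^(2:ℕ) + T^(3:ℕ) + 3*S^(2:ℕ) + 6*S*T + 3*T^(2:ℕ) + 3*S + 3*T + 1))/(S^(2:ℕ)*T^(2:ℕ)*(S + 1)*(T + 1)^(2:ℕ))) := ⟨g0, g11⟩

theorem F1_oQ_1 (S T : ℝ) (g2 : (S + T + 1) * (((S*T - S - T - 1))/((S + 1)^(2:ℕ)*(T + 1))) < S) :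
    cond S T Letter.ga (((S*T - S - T - 1))/((S + 1)^(2:ℕ)*(T + 1)), ((S^(2:ℕ)*T^(3:ℕ) - S^(2:ℕ)*T^(2:ℕ) + S^(2:ℕ) + 2*S*T + T^(2:ℕ) + 2*S + 2*T + 1))/(S^(2:ℕ)*T^(2:ℕ)*(T + 1))) := g2

theorem F1_d34 (S T : ℝ) (c14 : 0 < S^(2:ℕ)*T^(4:ℕ) - 2*S^(3:ℕ)*T^(2:ℕ) + S*T^(4:ℕ) - S^(2:ℕ)*T^(2:ℕ) + 2*S*T^(3:ℕ) + S^(3:ℕ) + 3*S^(2:ℕ)*T + 4*S*T^(2:ℕ) + T^(3:ℕ) + 3*S^(2:ℕ) + 6*S*T + 3*T^(2:ℕ) + 3*S + 3*T + 1) :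
    0 < (S^(2:ℕ)*T^(4:ℕ) - 2*S^(3:ℕ)*T^(2:ℕ) + S*T^(4:ℕ) - S^(2:ℕ)*T^(2:ℕ) + 2*S*T^(3:ℕ) + S^(3:ℕ) + 3*S^(2:ℕ)*T + 4*S*T^(2:ℕ) + T^(3:ℕ) + 3*S^(2:ℕ) + 6*S*T + 3*T^(2:ℕ) + 3*S + 3*T + 1) := c14

theorem F1_g12 (S T : ℝ) (d29 : 0 < S*T^(2:ℕ)*(S + 1)*(T + 1)) (d34 : 0 < (S^(2:ℕ)*T^(4:ℕ) - 2*S^(3:ℕ)*T^(2:ℕ) + S*T^(4:ℕ) - S^(2:ℕ)*T^(2:ℕ) + 2*S*T^(3:ℕ) + S^(3:ℕ) + 3*S^(2:ℕ)*T + 4*S*T^(2:ℕ) + T^(3:ℕ) + 3*S^(2:ℕ) + 6*S*T + 3*T^(2:ℕ) + 3*S + 3*T + 1)) :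
    S < (S + T + 1) * (((S^(2:ℕ)*T^(3:ℕ) - S^(2:ℕ)*T^(2:ℕ) + S*T^(3:ℕ) + S*T^(2:ℕ) + S^(2:ℕ) + 2*S*T + T^(2:ℕ) + 2*S + 2*T + 1))/(S*T^(2:ℕ)*(S + 1)*(T + 1))) := rgt d29 d34 d29 (by ring)

theorem F1_oQ_2 (S T : ℝ) (g4 : 1 < (T + 1) * (((S^(2:ℕ)*T + S^(2:ℕ) + 2*S + T + 1))/(S*(S + 1)*(T + 1)))) (g12 : S < (S + T + 1) * (((S^(2:ℕ)*T^(3:ℕ) - S^(2:ℕ)*T^(2:ℕ) + S*T^(3:ℕ) + S*T^(2:ℕ) + S^(2:ℕ) + 2*S*T + T^(2:ℕ) + 2*S + 2*T + 1))/(S*T^(2:ℕ)*(S + 1)*(T + 1)))) :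
    cond S T Letter.be (((S^(2:ℕ)*T^(3:ℕ) - S^(2:ℕ)*T^(2:ℕ) + S*T^(3:ℕ) + S*T^(2:ℕ) + S^(2:ℕ) + 2*S*T + T^(2:ℕ) + 2*S + 2*T + 1))/(S*T^(2:ℕ)*(S + 1)*(T + 1)), ((S^(2:ℕ)*T + S^(2:ℕ) + 2*S + T + 1))/(S*(S + 1)*(T + 1))) := ⟨g12, g4⟩

theorem F1_g13 (S T : ℝ) (d9 : 0 < S*T*(S + 1)*(T + 1)^(2:ℕ)) (d12 : 0 < (S^(2:ℕ)*T^(2:ℕ) - S^(2:ℕ)*T - S*T^(2:ℕ) - S^(2:ℕ) - 3*S*T - T^(2:ℕ) - 2*S - 2*T - 1)) (d16 : 0 < S*T*(S + 1)*(T + 1)) :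
    1 < (T + 1) * (((2*S^(2:ℕ)*T^(2:ℕ) - S^(2:ℕ) - 2*S*T - T^(2:ℕ) - 2*S - 2*T - 1))/(S*T*(S + 1)*(T + 1)^(2:ℕ))) := rgt d9 d12 d16 (by ring)

theorem F1_oQ_3 (S T : ℝ) (g5 : S < (S + T + 1) * (((S^(2:ℕ)*T + S + T + 1))/(S*T*(S + 1)))) (g13 : 1 < (T + 1) * (((2*S^(2:ℕ)*T^(2:ℕ) - S^(2:ℕ) - 2*S*T - T^(2:ℕ) - 2*S - 2*T - 1))/(S*T*(S + 1)*(T + 1)^(2:ℕ)))) :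
    cond S T Letter.be (((S^(2:ℕ)*T + S + T + 1))/(S*T*(S + 1)), ((2*S^(2:ℕ)*T^(2:ℕ) - S^(2:ℕ) - 2*S*T - T^(2:ℕ) - 2*S - 2*T - 1))/(S*T*(S + 1)*(T + 1)^(2:ℕ))) := ⟨g5, g13⟩

theorem F1_d35 (S T : ℝ) (c15 : 0 < S^(3:ℕ)*T^(3:ℕ) + S^(3:ℕ)*T + 2*S^(2:ℕ)*T^(2:ℕ) + S*T^(3:ℕ) + S^(3:ℕ) + 5*S^(2:ℕ)*T + 5*S*T^(2:ℕ) + T^(3:ℕ) + 3*S^(2:ℕ) + 7*S*T + 3*T^(2:ℕ) + 3*S + 3*T + 1) :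
    0 < (S^(3:ℕ)*T^(3:ℕ) + S^(3:ℕ)*T + 2*S^(2:ℕ)*T^(2:ℕ) + S*T^(3:ℕ) + S^(3:ℕ) + 5*S^(2:ℕ)*T + 5*S*T^(2:ℕ) + T^(3:ℕ) + 3*S^(2:ℕ) + 7*S*T + 3*T^(2:ℕ) + 3*S + 3*T + 1) := c15

theorem F1_g14 (S T : ℝ) (d29 : 0 < S*T^(2:ℕ)*(S + 1)*(T + 1)) (d35 : 0 < (S^(3:ℕ)*T^(3:ℕ) + S^(3:ℕ)*T + 2*S^(2:ℕ)*T^(2:ℕ) + S*T^(3:ℕ) + S^(3:ℕ) + 5*S^(2:ℕ)*T + 5*S*T^(2:ℕ) + T^(3:ℕ) + 3*S^(2:ℕ) + 7*S*T + 3*T^(2:ℕ) + 3*S + 3*T + 1)) :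
    (S + T + 1) * (((S^(2:ℕ)*T^(2:ℕ) - S^(2:ℕ)*T - S*T^(2:ℕ) - S^(2:ℕ) - 3*S*T - T^(2:ℕ) - 2*S - 2*T - 1))/(S*T^(2:ℕ)*(S + 1)*(T + 1))) < S := rlt d29 d35 d29 (by ring)

theorem F1_oQ_4 (S T : ℝ) (g14 : (S + T + 1) * (((S^(2:ℕ)*T^(2:ℕ) - S^(2:ℕ)*T - S*T^(2:ℕ) - S^(2:ℕ) - 3*S*T - T^(2:ℕ) - 2*S - 2*T - 1))/(S*T^(2:ℕ)*(S + 1)*(T + 1))) < S) :
    cond S T Letter.ga (((S^(2:ℕ)*T^(2:ℕ) - S^(2:ℕ)*T - S*T^(2:ℕ) - S^(2:ℕ) - 3*S*T - T^(2:ℕ) - 2*S - 2*T - 1))/(S*T^(2:ℕ)*(S + 1)*(T + 1)), ((S*T - S - T - 1))/(S*(S + 1)*(T + 1))) := g14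

theorem F1_oQ_5 (S T : ℝ) (g8 : (S + T + 1) * ((2*S*T)/((S + 1)^(2:ℕ)*(T + 1))) < S) :
    cond S T Letter.ga ((2*S*T)/((S + 1)^(2:ℕ)*(T + 1)), ((S^(2:ℕ)*T^(3:ℕ) + S^(2:ℕ)*T + S*T^(2:ℕ) + S^(2:ℕ) + 3*S*T + T^(2:ℕ) + 2*S + 2*T + 1))/(S^(2:ℕ)*T^(2:ℕ)*(T + 1))) := g8

theorem F1_d36 (S T : ℝ) (c16 : 0 < S^(2:ℕ)*T^(4:ℕ) - S^(3:ℕ)*T^(2:ℕ) + S^(2:ℕ)*T^(3:ℕ) + S*T^(4:ℕ) + S^(3:ℕ)*T + 2*S^(2:ℕ)*T^(2:ℕ) + 3*S*T^(3:ℕ) + S^(3:ℕ) + 5*S^(2:ℕ)*T + 6*S*T^(2:ℕ) + T^(3:ℕ) + 3*S^(2:ℕ) + 7*S*T + 3*T^(2:ℕ) + 3*S + 3*T + 1) :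
    0 < (S^(2:ℕ)*T^(4:ℕ) - S^(3:ℕ)*T^(2:ℕ) + S^(2:ℕ)*T^(3:ℕ) + S*T^(4:ℕ) + S^(3:ℕ)*T + 2*S^(2:ℕ)*T^(2:ℕ) + 3*S*T^(3:ℕ) + S^(3:ℕ) + 5*S^(2:ℕ)*T + 6*S*T^(2:ℕ) + T^(3:ℕ) + 3*S^(2:ℕ) + 7*S*T + 3*T^(2:ℕ) + 3*S + 3*T + 1) := c16

theorem F1_g15 (S T : ℝ) (d29 : 0 < S*T^(2:ℕ)*(S + 1)*(T + 1)) (d36 : 0 < (S^(2:ℕ)*T^(4:ℕ) - S^(3:ℕ)*T^(2:ℕ) + S^(2:ℕ)*T^(3:ℕ) + S*T^(4:ℕ) + S^(3:ℕ)*T + 2*S^(2:ℕ)*T^(2:ℕ) + 3*S*T^(3:ℕ) + S^(3:ℕ) + 5*S^(2:ℕ)*T + 6*S*T^(2:ℕ) + T^(3:ℕ) + 3*S^(2:ℕ) + 7*S*T + 3*T^(2:ℕ) + 3*S + 3*T + 1)) :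
    S < (S + T + 1) * (((S^(2:ℕ)*T^(3:ℕ) + S*T^(3:ℕ) + S^(2:ℕ)*T + 2*S*T^(2:ℕ) + S^(2:ℕ) + 3*S*T + T^(2:ℕ) + 2*S + 2*T + 1))/(S*T^(2:ℕ)*(S + 1)*(T + 1))) := rgt d29 d36 d29 (by ring)

theorem F1_oQ_6 (S T : ℝ) (g10 : 1 < (T + 1) * (((S*T + S - T + 1))/((S + 1)*(T + 1)))) (g15 : S < (S + T + 1) * (((S^(2:ℕ)*T^(3:ℕ) + S*T^(3:ℕ) + S^(2:ℕ)*T + 2*S*T^(2:ℕ) + S^(2:ℕ) + 3*S*T + T^(2:ℕ) + 2*S + 2*T + 1))/(S*T^(2:ℕ)*(S + 1)*(T + 1)))) :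
    cond S T Letter.be (((S^(2:ℕ)*T^(3:ℕ) + S*T^(3:ℕ) + S^(2:ℕ)*T + 2*S*T^(2:ℕ) + S^(2:ℕ) + 3*S*T + T^(2:ℕ) + 2*S + 2*T + 1))/(S*T^(2:ℕ)*(S + 1)*(T + 1)), ((S*T + S - T + 1))/((S + 1)*(T + 1))) := ⟨g15, g10⟩

theorem F1_oQ (S T : ℝ) (f14 : fl S T Letter.al (((S - 1))/((S + 1)), ((S^(3:ℕ)*T^(3:ℕ) - S^(3:ℕ)*T^(2:ℕ) - S^(2:ℕ)*T^(3:ℕ) - S^(2:ℕ)*T^(2:ℕ) + S^(3:ℕ) + 3*S^(2:ℕ)*T + 3*S*T^(2:ℕ) + T^(3:ℕ) + 3*S^(2:ℕ) + 6*S*T + 3*T^(2:ℕ) + 3*S + 3*T + 1))/(S^(2:ℕ)*T^(2:ℕ)*(S + 1)*(T + 1)^(2:ℕ))) = (((S*T - S - T - 1))/((S + 1)^(2:ℕ)*(T + 1)), ((S^(2:ℕ)*T^(3:ℕ) - S^(2:ℕ)*T^(2:ℕ) + S^(2:ℕ) + 2*S*T + T^(2:ℕ) + 2*S + 2*T + 1))/(S^(2:ℕ)*T^(2:ℕ)*(T + 1)))) (f15 : fl S T Letter.ga (((S*T - S - T - 1))/((S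 + 1)^(2:ℕ)*(T + 1)), ((S^(2:ℕ)*T^(3:ℕ) - S^(2:ℕ)*T^(2:ℕ) + S^(2:ℕ) + 2*S*T + T^(2:ℕ) + 2*S + 2*T + 1))/(S^(2:ℕ)*T^(2:ℕ)*(T + 1))) = (((S^(2:ℕ)*T^(3:ℕ) - S^(2:ℕ)*T^(2:ℕ) + S*T^(3:ℕ) + S*T^(2:ℕ) + S^(2:ℕ) + 2*S*T + T^(2:ℕ) + 2*S + 2*T + 1))/(S*T^(2:ℕ)*(S + 1)*(T + 1)), ((S^(2:ℕ)*T + S^(2:ℕ) + 2*S + T + 1))/(S*(S + 1)*(T + 1)))) (f16 : fl S T Letter.be (((S^(2:ℕ)*T^(3:ℕ) - S^(2:ℕ)*T^(2:ℕ) + S*T^(3:ℕ) + S*T^(2:ℕ) + S^(2:ℕ) + 2*S*T + T^(2:ℕ) + 2*S + 2*T + 1))/(S*T^(2:ℕ)*(S + 1)*(T + 1)), ((S^(2:ℕ)*T + S^(2:ℕ) + 2*S + T + 1))/(S*(S + 1)*(T + 1))) = (((S^(2:ℕ)*T + S + T + 1))/(S*T*(S + 1)), ((2*S^(2:ℕ)*T^(2:ℕ) - S^(2:ℕ) - 2*S*T - T^(2:ℕ) - 2*S - 2*T - 1))/(S*T*(S + 1)*(T + 1)^(2:ℕ)))) (f17 : fl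 S T Letter.be (((S^(2:ℕ)*T + S + T + 1))/(S*T*(S + 1)), ((2*S^(2:ℕ)*T^(2:ℕ) - S^(2:ℕ) - 2*S*T - T^(2:ℕ) - 2*S - 2*T - 1))/(S*T*(S + 1)*(T + 1)^(2:ℕ))) = (((S^(2:ℕ)*T^(2:ℕ) - S^(2:ℕ)*T - S*T^(2:ℕ) - S^(2:ℕ) - 3*S*T - T^(2:ℕ) - 2*S - 2*T - 1))/(S*T^(2:ℕ)*(S + 1)*(T + 1)), ((S*T - S - T - 1))/(S*(S + 1)*(T + 1)))) (f18 : fl S T Letter.ga (((S^(2:ℕ)*T^(2:ℕ) - S^(2:ℕ)*T - S*T^(2:ℕ) - S^(2:ℕ) - 3*S*T - T^(2:ℕ) - 2*S - 2*T - 1))/(S*T^(2:ℕ)*(S + 1)*(T + 1)), ((S*T - S - T - 1))/(S*(S + 1)*(T + 1))) = ((2*S*T)/((S + 1)^(2:ℕ)*(T + 1)), ((S^(2:ℕ)*T^(3:ℕ) + S^(2:ℕ)*T + S*T^(2:ℕ) + S^(2:ℕ) + 3*S*T + T^(2:ℕ) + 2*S + 2*T + 1))/(S^(2:ℕ)*T^(2:ℕ)*(T + 1)))) (f19 : fl S T Letter.ga ((2*S*T)/((S + 1)^(2:ℕ)*(T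 + 1)), ((S^(2:ℕ)*T^(3:ℕ) + S^(2:ℕ)*T + S*T^(2:ℕ) + S^(2:ℕ) + 3*S*T + T^(2:ℕ) + 2*S + 2*T + 1))/(S^(2:ℕ)*T^(2:ℕ)*(T + 1))) = (((S^(2:ℕ)*T^(3:ℕ) + S*T^(3:ℕ) + S^(2:ℕ)*T + 2*S*T^(2:ℕ) + S^(2:ℕ) + 3*S*T + T^(2:ℕ) + 2*S + 2*T + 1))/(S*T^(2:ℕ)*(S + 1)*(T + 1)), ((S*T + S - T + 1))/((S + 1)*(T + 1)))) (oQ_0 : cond S T Letter.al (((S - 1))/((S + 1)), ((S^(3:ℕ)*T^(3:ℕ) - S^(3:ℕ)*T^(2:ℕ) - S^(2:ℕ)*T^(3:ℕ) - S^(2:ℕ)*T^(2:ℕ) + S^(3:ℕ) + 3*S^(2:ℕ)*T + 3*S*T^(2:ℕ) + T^(3:ℕ) + 3*S^(2:ℕ) + 6*S*T + 3*T^(2:ℕ) + 3*S + 3*T + 1))/(S^(2:ℕ)*T^(2:ℕ)*(S + 1)*(T + 1)^(2:ℕ)))) (oQ_1 : cond S T Letter.ga (((S*T - S - T - 1))/((S + 1)^(2:ℕ)*(T + 1)), ((S^(2:ℕ)*T^(3:ℕ) - S^(2:ℕ)*T^(2:ℕ) + S^(2:ℕ) + 2*S*T + T^(2:ℕ) +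 2*S + 2*T + 1))/(S^(2:ℕ)*T^(2:ℕ)*(T + 1)))) (oQ_2 : cond S T Letter.be (((S^(2:ℕ)*T^(3:ℕ) - S^(2:ℕ)*T^(2:ℕ) + S*T^(3:ℕ) + S*T^(2:ℕ) + S^(2:ℕ) + 2*S*T + T^(2:ℕ) + 2*S + 2*T + 1))/(S*T^(2:ℕ)*(S + 1)*(T + 1)), ((S^(2:ℕ)*T + S^(2:ℕ) + 2*S + T + 1))/(S*(S + 1)*(T + 1)))) (oQ_3 : cond S T Letter.be (((S^(2:ℕ)*T + S + T + 1))/(S*T*(S + 1)), ((2*S^(2:ℕ)*T^(2:ℕ) - S^(2:ℕ) - 2*S*T - T^(2:ℕ) - 2*S - 2*T - 1))/(S*T*(S + 1)*(T + 1)^(2:ℕ)))) (oQ_4 : cond S T Letter.ga (((S^(2:ℕ)*T^(2:ℕ) - S^(2:ℕ)*T - S*T^(2:ℕ) - S^(2:ℕ) - 3*S*T - T^(2:ℕ) - 2*S - 2*T - 1))/(S*T^(2:ℕ)*(S + 1)*(T + 1)), ((S*T - S - T - 1))/(S*(S + 1)*(T + 1)))) (oQ_5 : cond S T Letter.ga ((2*S*T)/((S + 1)^(2:ℕ)*(T + 1)), ((S^(2:ℕ)*T^(3:ℕ)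 + S^(2:ℕ)*T + S*T^(2:ℕ) + S^(2:ℕ) + 3*S*T + T^(2:ℕ) + 2*S + 2*T + 1))/(S^(2:ℕ)*T^(2:ℕ)*(T + 1)))) (oQ_6 : cond S T Letter.be (((S^(2:ℕ)*T^(3:ℕ) + S*T^(3:ℕ) + S^(2:ℕ)*T + 2*S*T^(2:ℕ) + S^(2:ℕ) + 3*S*T + T^(2:ℕ) + 2*S + 2*T + 1))/(S*T^(2:ℕ)*(S + 1)*(T + 1)), ((S*T + S - T + 1))/((S + 1)*(T + 1)))) :
    okc S T [Letter.al, Letter.ga, Letter.be, Letter.be, Letter.ga, Letter.ga, Letter.be] (((S - 1))/((S + 1)), ((S^(3:ℕ)*T^(3:ℕ) - S^(3:ℕ)*T^(2:ℕ) - S^(2:ℕ)*T^(3:ℕ) - S^(2:ℕ)*T^(2:ℕ) + S^(3:ℕ) + 3*S^(2:ℕ)*T + 3*S*T^(2:ℕ) + T^(3:ℕ) + 3*S^(2:ℕ) + 6*S*T + 3*T^(2:ℕ) + 3*S + 3*T + 1))/(S^(2:ℕ)*T^(2:ℕ)*(S + 1)*(T + 1)^(2:ℕ))) := (okc_cons' oQ_0 f14 (okc_cons' oQ_1 f15 (okc_cons' oQ_2 f16 (okc_cons'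 oQ_3 f17 (okc_cons' oQ_4 f18 (okc_cons' oQ_5 f19 (okc_last' oQ_6)))))))

theorem F1_rE (S T : ℝ)  :
    run S T [] (((S - 1))/((S + 1)), (S*T)/((S + 1)*(T + 1)^(2:ℕ))) = (((S - 1))/((S + 1)), (S*T)/((S + 1)*(T + 1)^(2:ℕ))) := run_nil'

theorem F1_q6 (S T : ℝ) (d1 : 0 < (S + 1)*(T + 1)^(2:ℕ)) (d22 : 0 < S*T) :
    0 < (S*T)/((S + 1)*(T + 1)^(2:ℕ)) := div_pos d22 d1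

theorem F1_d37 (S T : ℝ) (c17 : 0 < S*T^(2:ℕ) + S*T + T^(2:ℕ) + S + 2*T + 1) :
    0 < (S*T^(2:ℕ) + S*T + T^(2:ℕ) + S + 2*T + 1) := c17

theorem F1_q7 (S T : ℝ) (d1 : 0 < (S + 1)*(T + 1)^(2:ℕ)) (d37 : 0 < (S*T^(2:ℕ) + S*T + T^(2:ℕ) + S + 2*T + 1)) :
    (S*T)/((S + 1)*(T + 1)^(2:ℕ)) < 1 := rlt1 d1 d37 d1 (by ring)

theorem F1_sq (S T : ℝ) (q0 : 0 < ((S - 1))/((S + 1))) (q1 : ((S - 1))/((S + 1)) < 1) (q6 : 0 < (S*T)/((S + 1)*(T + 1)^(2:ℕ))) (q7 : (S*T)/((S + 1)*(T + 1)^(2:ℕ)) < 1) :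
    Sq (((S - 1))/((S + 1)), (S*T)/((S + 1)*(T + 1)^(2:ℕ))) := ⟨⟨q0, q1⟩, q6, q7⟩

theorem F1_oE (S T : ℝ)  :
    okc S T [] (((S - 1))/((S + 1)), (S*T)/((S + 1)*(T + 1)^(2:ℕ))) := trivial

theorem F1_f21 (S T : ℝ) (pS : 0 < S) (pT : 0 < T) (d0 : 0 < (S + 1)) (d1 : 0 < (S + 1)*(T + 1)^(2:ℕ)) (d2 : 0 < (S + 1)^(2:ℕ)*(T + 1)) (d3 : 0 < (T + 1)) :
    fl S T Letter.al ((S)/((S + 1)), (S*T)/((S + 1)*(T + 1)^(2:ℕ))) = ((S*T)/((S + 1)^(2:ℕ)*(T + 1)), (T)/((T + 1))) := fl_al' pS pT d0 d1 d2 d3 (by ring) (by ring)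

theorem F1_f22 (S T : ℝ) (pS : 0 < S) (d2 : 0 < (S + 1)^(2:ℕ)*(T + 1)) (d3 : 0 < (T + 1)) (d4 : 0 < (S + 1)*(T + 1)) :
    fl S T Letter.ga ((S*T)/((S + 1)^(2:ℕ)*(T + 1)), (T)/((T + 1))) = (((S*T + T + 1))/((S + 1)*(T + 1)), ((S*T + S + 1))/((S + 1)*(T + 1))) := fl_ga' pS d2 d3 d4 d4 (by ring) (by ring)

theorem F1_f23 (S T : ℝ) (pT : 0 < T) (d0 : 0 < (S + 1)) (d1 : 0 < (S + 1)*(T + 1)^(2:ℕ)) (d4 : 0 < (S + 1)*(T + 1)) :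
    fl S T Letter.be (((S*T + T + 1))/((S + 1)*(T + 1)), ((S*T + S + 1))/((S + 1)*(T + 1))) = ((S)/((S + 1)), (S*T)/((S + 1)*(T + 1)^(2:ℕ))) := fl_be' pT d4 d4 d0 d1 (by ring) (by ring)

theorem F1_rB (S T : ℝ) (f21 : fl S T Letter.al ((S)/((S + 1)), (S*T)/((S + 1)*(T + 1)^(2:ℕ))) = ((S*T)/((S + 1)^(2:ℕ)*(T + 1)), (T)/((T + 1)))) (f22 : fl S T Letter.ga ((S*T)/((S + 1)^(2:ℕ)*(T + 1)), (T)/((T + 1))) = (((S*T + T + 1))/((S + 1)*(T + 1)), ((S*T + S + 1))/((S + 1)*(T + 1)))) (f23 : fl S T Letter.be (((S*T + T + 1))/((S + 1)*(T + 1)), ((S*T + S + 1))/((S + 1)*(T + 1))) = ((S)/((S + 1)), (S*T)/((S + 1)*(T + 1)^(2:ℕ)))) :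
    run S T [Letter.al, Letter.ga, Letter.be] ((S)/((S + 1)), (S*T)/((S + 1)*(T + 1)^(2:ℕ))) = ((S)/((S + 1)), (S*T)/((S + 1)*(T + 1)^(2:ℕ))) := (run_cons' f21 (run_cons' f22 (run_cons' f23 run_nil')))

theorem F1_f24 (S T : ℝ) (pS : 0 < S) (pT : 0 < T) (d0 : 0 < (S + 1)) (d1 : 0 < (S + 1)*(T + 1)^(2:ℕ)) (d2 : 0 < (S + 1)^(2:ℕ)*(T + 1)) (d3 : 0 < (T + 1)) :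
    fl S T Letter.al (((S - 1))/((S + 1)), (S*T)/((S + 1)*(T + 1)^(2:ℕ))) = (((S*T - S - T - 1))/((S + 1)^(2:ℕ)*(T + 1)), (T)/((T + 1))) := fl_al' pS pT d0 d1 d2 d3 (by ring) (by ring)

theorem F1_f25 (S T : ℝ) (pS : 0 < S) (d2 : 0 < (S + 1)^(2:ℕ)*(T + 1)) (d3 : 0 < (T + 1)) (d4 : 0 < (S + 1)*(T + 1)) (d5 : 0 < S*(S + 1)*(T + 1)) :
    fl S T Letter.ga (((S*T - S - T - 1))/((S + 1)^(2:ℕ)*(T + 1)), (T)/((T + 1))) = (((S*T + T + 1))/((S + 1)*(T + 1)), ((S^(2:ℕ)*T + S^(2:ℕ) + 2*S + T + 1))/(S*(S + 1)*(T + 1))) := fl_ga' pS d2 d3 d4 d5 (by ring) (by ring)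

theorem F1_f26 (S T : ℝ) (pT : 0 < T) (d1 : 0 < (S + 1)*(T + 1)^(2:ℕ)) (d4 : 0 < (S + 1)*(T + 1)) (d5 : 0 < S*(S + 1)*(T + 1)) (d6 : 0 < S*T*(S + 1)) :
    fl S T Letter.be (((S*T + T + 1))/((S + 1)*(T + 1)), ((S^(2:ℕ)*T + S^(2:ℕ) + 2*S + T + 1))/(S*(S + 1)*(T + 1))) = (((S^(2:ℕ)*T + S + T + 1))/(S*T*(S + 1)), (S*T)/((S + 1)*(T + 1)^(2:ℕ))) := fl_be' pT d4 d5 d6 d1 (by ring) (by ring)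

theorem F1_rr (S T : ℝ) (f24 : fl S T Letter.al (((S - 1))/((S + 1)), (S*T)/((S + 1)*(T + 1)^(2:ℕ))) = (((S*T - S - T - 1))/((S + 1)^(2:ℕ)*(T + 1)), (T)/((T + 1)))) (f25 : fl S T Letter.ga (((S*T - S - T - 1))/((S + 1)^(2:ℕ)*(T + 1)), (T)/((T + 1))) = (((S*T + T + 1))/((S + 1)*(T + 1)), ((S^(2:ℕ)*T + S^(2:ℕ) + 2*S + T + 1))/(S*(S + 1)*(T + 1)))) (f26 : fl S T Letter.be (((S*T + T + 1))/((S + 1)*(T + 1)), ((S^(2:ℕ)*T + S^(2:ℕ) + 2*S + T + 1))/(S*(S + 1)*(T + 1))) = (((S^(2:ℕ)*T + S + T + 1))/(S*T*(S + 1)), (S*T)/((S + 1)*(T + 1)^(2:ℕ)))) :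
    run S T [Letter.al, Letter.ga, Letter.be] (((S - 1))/((S + 1)), (S*T)/((S + 1)*(T + 1)^(2:ℕ))) = (((S^(2:ℕ)*T + S + T + 1))/(S*T*(S + 1)), (S*T)/((S + 1)*(T + 1)^(2:ℕ))) := (run_cons' f24 (run_cons' f25 (run_cons' f26 run_nil')))

theorem F1_sr (S T : ℝ) (q0 : 0 < ((S - 1))/((S + 1))) (q1 : ((S - 1))/((S + 1)) < 1) (q6 : 0 < (S*T)/((S + 1)*(T + 1)^(2:ℕ))) (q7 : (S*T)/((S + 1)*(T + 1)^(2:ℕ)) < 1) :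
    Sq (((S - 1))/((S + 1)), (S*T)/((S + 1)*(T + 1)^(2:ℕ))) := ⟨⟨q0, q1⟩, q6, q7⟩

theorem F1_d38 (S T : ℝ) (pU : 0 < (S + T + 1)) :
    0 < (S + T + 1) := pU

theorem F1_g16 (S T : ℝ) (d1 : 0 < (S + 1)*(T + 1)^(2:ℕ)) (d4 : 0 < (S + 1)*(T + 1)) (d38 : 0 < (S + T + 1)) :
    (T + 1) * ((S*T)/((S + 1)*(T + 1)^(2:ℕ))) < 1 := rlt d1 d38 d4 (by ring)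

theorem F1_orr_0 (S T : ℝ) (g0 : S < (S + T + 1) * (((S - 1))/((S + 1)))) (g16 : (T + 1) * ((S*T)/((S + 1)*(T + 1)^(2:ℕ))) < 1) :
    cond S T Letter.al (((S - 1))/((S + 1)), (S*T)/((S + 1)*(T + 1)^(2:ℕ))) := ⟨g0, g16⟩

theorem F1_orr_1 (S T : ℝ) (g2 : (S + T + 1) * (((S*T - S - T - 1))/((S + 1)^(2:ℕ)*(T + 1))) < S) :
    cond S T Letter.ga (((S*T - S - T - 1))/((S + 1)^(2:ℕ)*(T + 1)), (T)/((T + 1))) := g2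

theorem F1_orr_2 (S T : ℝ) (g4 : 1 < (T + 1) * (((S^(2:ℕ)*T + S^(2:ℕ) + 2*S + T + 1))/(S*(S + 1)*(T + 1)))) (g9 : S < (S + T + 1) * (((S*T + T + 1))/((S + 1)*(T + 1)))) :
    cond S T Letter.be (((S*T + T + 1))/((S + 1)*(T + 1)), ((S^(2:ℕ)*T + S^(2:ℕ) + 2*S + T + 1))/(S*(S + 1)*(T + 1))) := ⟨g9, g4⟩

theorem F1_orr (S T : ℝ) (f24 : fl S T Letter.al (((S - 1))/((S + 1)), (S*T)/((S + 1)*(T + 1)^(2:ℕ))) = (((S*T - S - T - 1))/((S + 1)^(2:ℕ)*(T + 1)), (T)/((T + 1)))) (f25 : fl S T Letter.ga (((S*T - S - T - 1))/((S + 1)^(2:ℕ)*(T + 1)), (T)/((T + 1))) = (((S*T + T + 1))/((S + 1)*(T + 1)), ((S^(2:ℕ)*T + S^(2:ℕ) + 2*S + T + 1))/(S*(S + 1)*(T + 1)))) (orr_0 : cond S T Letter.al (((S - 1))/((S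 + 1)), (S*T)/((S + 1)*(T + 1)^(2:ℕ)))) (orr_1 : cond S T Letter.ga (((S*T - S - T - 1))/((S + 1)^(2:ℕ)*(T + 1)), (T)/((T + 1)))) (orr_2 : cond S T Letter.be (((S*T + T + 1))/((S + 1)*(T + 1)), ((S^(2:ℕ)*T + S^(2:ℕ) + 2*S + T + 1))/(S*(S + 1)*(T + 1)))) :
    okc S T [Letter.al, Letter.ga, Letter.be] (((S - 1))/((S + 1)), (S*T)/((S + 1)*(T + 1)^(2:ℕ))) := (okc_cons' orr_0 f24 (okc_cons' orr_1 f25 (okc_last' orr_2)))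

theorem F1_d39 (S T : ℝ) (pS : 0 < S) (pT : 0 < T) (pA : 0 < (S + 1)) (pB : 0 < (T + 1)) :
    0 < S*T*(S + 1)^(2:ℕ)*(T + 1) := (mul_pos (mul_pos (mul_pos pS pT) (pow_pos pA 2)) pB)

theorem F1_f27 (S T : ℝ) (pS : 0 < S) (pT : 0 < T) (d1 : 0 < (S + 1)*(T + 1)^(2:ℕ)) (d3 : 0 < (T + 1)) (d6 : 0 < S*T*(S + 1)) (d39 : 0 < S*T*(S + 1)^(2:ℕ)*(T + 1)) :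
    fl S T Letter.al (((S^(2:ℕ)*T + S + T + 1))/(S*T*(S + 1)), (S*T)/((S + 1)*(T + 1)^(2:ℕ))) = (((S^(2:ℕ)*T^(2:ℕ) + S^(2:ℕ) + 2*S*T + T^(2:ℕ) + 2*S + 2*T + 1))/(S*T*(S + 1)^(2:ℕ)*(T + 1)), (T)/((T + 1))) := fl_al' pS pT d6 d1 d39 d3 (by ring) (by ring)

theorem F1_d40 (S T : ℝ) (pS : 0 < S) (pT : 0 < T) (pA : 0 < (S + 1)) (pB : 0 < (T + 1)) :
    0 < S^(2:ℕ)*T*(S + 1)*(T + 1) := (mul_pos (mul_pos (mul_pos (pow_pos pS 2) pT) pA) pB)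

theorem F1_f28 (S T : ℝ) (pS : 0 < S) (d3 : 0 < (T + 1)) (d4 : 0 < (S + 1)*(T + 1)) (d39 : 0 < S*T*(S + 1)^(2:ℕ)*(T + 1)) (d40 : 0 < S^(2:ℕ)*T*(S + 1)*(T + 1)) :
    fl S T Letter.ga (((S^(2:ℕ)*T^(2:ℕ) + S^(2:ℕ) + 2*S*T + T^(2:ℕ) + 2*S + 2*T + 1))/(S*T*(S + 1)^(2:ℕ)*(T + 1)), (T)/((T + 1))) = (((S*T + T + 1))/((S + 1)*(T + 1)), ((S^(3:ℕ)*T^(2:ℕ) + S^(3:ℕ)*T + S^(2:ℕ)*T - S^(2:ℕ) - 2*S*T - T^(2:ℕ) - 2*S - 2*T - 1))/(S^(2:ℕ)*T*(S + 1)*(T + 1))) := fl_ga' pS d39 d3 d4 d40 (by ring) (by ring)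

theorem F1_d41 (S T : ℝ) (pS : 0 < S) (pT : 0 < T) (pA : 0 < (S + 1)) :
    0 < S^(2:ℕ)*T^(2:ℕ)*(S + 1) := (mul_pos (mul_pos (pow_pos pS 2) (pow_pos pT 2)) pA)

theorem F1_f29 (S T : ℝ) (pT : 0 < T) (d1 : 0 < (S + 1)*(T + 1)^(2:ℕ)) (d4 : 0 < (S + 1)*(T + 1)) (d40 : 0 < S^(2:ℕ)*T*(S + 1)*(T + 1)) (d41 : 0 < S^(2:ℕ)*T^(2:ℕ)*(S + 1)) :
    fl S T Letter.be (((S*T + T + 1))/((S + 1)*(T + 1)), ((S^(3:ℕ)*T^(2:ℕ) + S^(3:ℕ)*T + S^(2:ℕ)*T - S^(2:ℕ) - 2*S*T - T^(2:ℕ) - 2*S - 2*T - 1))/(S^(2:ℕ)*T*(S + 1)*(T + 1))) = (((S^(3:ℕ)*T^(2:ℕ) - S^(2:ℕ) - 2*S*T - T^(2:ℕ) - 2*S - 2*T - 1))/(S^(2:ℕ)*T^(2:ℕ)*(S + 1)), (S*T)/((S + 1)*(T + 1)^(2:ℕ))) := fl_be' pT d4 d40 d41 d1 (by ring) (by ring)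

theorem F1_q8 (S T : ℝ) (d6 : 0 < S*T*(S + 1)) (d19 : 0 < (S^(2:ℕ)*T + S + T + 1)) :
    0 < ((S^(2:ℕ)*T + S + T + 1))/(S*T*(S + 1)) := div_pos d19 d6

theorem F1_q9 (S T : ℝ) (d6 : 0 < S*T*(S + 1)) (d14 : 0 < (S*T - S - T - 1)) :
    ((S^(2:ℕ)*T + S + T + 1))/(S*T*(S + 1)) < 1 := rlt1 d6 d14 d6 (by ring)

theorem F1_sC (S T : ℝ) (q6 : 0 < (S*T)/((S + 1)*(T + 1)^(2:ℕ))) (q7 : (S*T)/((S + 1)*(T + 1)^(2:ℕ)) < 1) (q8 : 0 < ((S^(2:ℕ)*T + S + T + 1))/(S*T*(S + 1))) (q9 : ((S^(2:ℕ)*T + S + T + 1))/(S*T*(S + 1)) < 1) :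
    Sq (((S^(2:ℕ)*T + S + T + 1))/(S*T*(S + 1)), (S*T)/((S + 1)*(T + 1)^(2:ℕ))) := ⟨⟨q8, q9⟩, q6, q7⟩

theorem F1_oC_0 (S T : ℝ) (g5 : S < (S + T + 1) * (((S^(2:ℕ)*T + S + T + 1))/(S*T*(S + 1)))) (g16 : (T + 1) * ((S*T)/((S + 1)*(T + 1)^(2:ℕ))) < 1) :
    cond S T Letter.al (((S^(2:ℕ)*T + S + T + 1))/(S*T*(S + 1)), (S*T)/((S + 1)*(T + 1)^(2:ℕ))) := ⟨g5, g16⟩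

theorem F1_d42 (S T : ℝ) (c18 : 0 < S^(4:ℕ)*T^(2:ℕ) + S^(4:ℕ)*T + S^(3:ℕ)*T^(2:ℕ) - S^(2:ℕ)*T^(3:ℕ) + 2*S^(3:ℕ)*T - S^(3:ℕ) - 2*S^(2:ℕ)*T - 3*S*T^(2:ℕ) - T^(3:ℕ) - 3*S^(2:ℕ) - 6*S*T - 3*T^(2:ℕ) - 3*S - 3*T - 1) :
    0 < (S^(4:ℕ)*T^(2:ℕ) + S^(4:ℕ)*T + S^(3:ℕ)*T^(2:ℕ) - S^(2:ℕ)*T^(3:ℕ) + 2*S^(3:ℕ)*T - S^(3:ℕ) - 2*S^(2:ℕ)*T - 3*S*T^(2:ℕ) - T^(3:ℕ) - 3*S^(2:ℕ) - 6*S*T - 3*T^(2:ℕ) - 3*S - 3*T - 1) := c18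

theorem F1_g17 (S T : ℝ) (d39 : 0 < S*T*(S + 1)^(2:ℕ)*(T + 1)) (d42 : 0 < (S^(4:ℕ)*T^(2:ℕ) + S^(4:ℕ)*T + S^(3:ℕ)*T^(2:ℕ) - S^(2:ℕ)*T^(3:ℕ) + 2*S^(3:ℕ)*T - S^(3:ℕ) - 2*S^(2:ℕ)*T - 3*S*T^(2:ℕ) - T^(3:ℕ) - 3*S^(2:ℕ) - 6*S*T - 3*T^(2:ℕ) - 3*S - 3*T - 1)) :
    (S + T + 1) * (((S^(2:ℕ)*T^(2:ℕ) + S^(2:ℕ) + 2*S*T + T^(2:ℕ) + 2*S + 2*T + 1))/(S*T*(S + 1)^(2:ℕ)*(T + 1))) < S := rlt d39 d42 d39 (by ring)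

theorem F1_oC_1 (S T : ℝ) (g17 : (S + T + 1) * (((S^(2:ℕ)*T^(2:ℕ) + S^(2:ℕ) + 2*S*T + T^(2:ℕ) + 2*S + 2*T + 1))/(S*T*(S + 1)^(2:ℕ)*(T + 1))) < S) :
    cond S T Letter.ga (((S^(2:ℕ)*T^(2:ℕ) + S^(2:ℕ) + 2*S*T + T^(2:ℕ) + 2*S + 2*T + 1))/(S*T*(S + 1)^(2:ℕ)*(T + 1)), (T)/((T + 1))) := g17

theorem F1_d43 (S T : ℝ) (c19 : 0 < S^(3:ℕ)*T^(2:ℕ) - S^(2:ℕ) - 2*S*T - T^(2:ℕ) - 2*S - 2*T - 1) :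
    0 < (S^(3:ℕ)*T^(2:ℕ) - S^(2:ℕ) - 2*S*T - T^(2:ℕ) - 2*S - 2*T - 1) := c19

theorem F1_d44 (S T : ℝ) (pS : 0 < S) (pT : 0 < T) (pA : 0 < (S + 1)) :
    0 < S^(2:ℕ)*T*(S + 1) := (mul_pos (mul_pos (pow_pos pS 2) pT) pA)

theorem F1_g18 (S T : ℝ) (d40 : 0 < S^(2:ℕ)*T*(S + 1)*(T + 1)) (d43 : 0 < (S^(3:ℕ)*T^(2:ℕ) - S^(2:ℕ) - 2*S*T - T^(2:ℕ) - 2*S - 2*T - 1)) (d44 : 0 < S^(2:ℕ)*T*(S + 1)) :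
    1 < (T + 1) * (((S^(3:ℕ)*T^(2:ℕ) + S^(3:ℕ)*T + S^(2:ℕ)*T - S^(2:ℕ) - 2*S*T - T^(2:ℕ) - 2*S - 2*T - 1))/(S^(2:ℕ)*T*(S + 1)*(T + 1))) := rgt d40 d43 d44 (by ring)

theorem F1_oC_2 (S T : ℝ) (g9 : S < (S + T + 1) * (((S*T + T + 1))/((S + 1)*(T + 1)))) (g18 : 1 < (T + 1) * (((S^(3:ℕ)*T^(2:ℕ) + S^(3:ℕ)*T + S^(2:ℕ)*T - S^(2:ℕ) - 2*S*T - T^(2:ℕ) - 2*S - 2*T - 1))/(S^(2:ℕ)*T*(S + 1)*(T + 1)))) :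
    cond S T Letter.be (((S*T + T + 1))/((S + 1)*(T + 1)), ((S^(3:ℕ)*T^(2:ℕ) + S^(3:ℕ)*T + S^(2:ℕ)*T - S^(2:ℕ) - 2*S*T - T^(2:ℕ) - 2*S - 2*T - 1))/(S^(2:ℕ)*T*(S + 1)*(T + 1))) := ⟨g9, g18⟩

theorem F1_oC (S T : ℝ) (f27 : fl S T Letter.al (((S^(2:ℕ)*T + S + T + 1))/(S*T*(S + 1)), (S*T)/((S + 1)*(T + 1)^(2:ℕ))) = (((S^(2:ℕ)*T^(2:ℕ) + S^(2:ℕ) + 2*S*T + T^(2:ℕ) + 2*S + 2*T + 1))/(S*T*(S + 1)^(2:ℕ)*(T + 1)), (T)/((T + 1)))) (f28 : fl S T Letter.ga (((S^(2:ℕ)*T^(2:ℕ) + S^(2:ℕ) + 2*S*T + T^(2:ℕ) + 2*S + 2*T + 1))/(S*T*(S + 1)^(2:ℕ)*(T + 1)), (T)/((T + 1))) = (((S*T + T + 1))/((S + 1)*(T + 1)), ((S^(3:ℕ)*T^(2:ℕ) + S^(3:ℕ)*T + S^(2:ℕ)*T - S^(2:ℕ) - 2*S*T - T^(2:ℕ) - 2*S - 2*T - 1))/(S^(2:ℕ)*T*(S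 + 1)*(T + 1)))) (oC_0 : cond S T Letter.al (((S^(2:ℕ)*T + S + T + 1))/(S*T*(S + 1)), (S*T)/((S + 1)*(T + 1)^(2:ℕ)))) (oC_1 : cond S T Letter.ga (((S^(2:ℕ)*T^(2:ℕ) + S^(2:ℕ) + 2*S*T + T^(2:ℕ) + 2*S + 2*T + 1))/(S*T*(S + 1)^(2:ℕ)*(T + 1)), (T)/((T + 1)))) (oC_2 : cond S T Letter.be (((S*T + T + 1))/((S + 1)*(T + 1)), ((S^(3:ℕ)*T^(2:ℕ) + S^(3:ℕ)*T + S^(2:ℕ)*T - S^(2:ℕ) - 2*S*T - T^(2:ℕ) - 2*S - 2*T - 1))/(S^(2:ℕ)*T*(S + 1)*(T + 1)))) :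
    okc S T [Letter.al, Letter.ga, Letter.be] (((S^(2:ℕ)*T + S + T + 1))/(S*T*(S + 1)), (S*T)/((S + 1)*(T + 1)^(2:ℕ))) := (okc_cons' oC_0 f27 (okc_cons' oC_1 f28 (okc_last' oC_2)))

theorem F1_vP (S T : ℝ) (d1 : 0 < (S + 1)*(T + 1)^(2:ℕ)) (d9 : 0 < S*T*(S + 1)*(T + 1)^(2:ℕ)) (d22 : 0 < S*T) :
    ((((S - 1))/((S + 1)), ((S*T - S - T - 1))/((S + 1)*(T + 1)^(2:ℕ))) : ℝ × ℝ) + ((-((S + T + 1)))/(S*T)) • ((0, ((S + T + 1))/((S + 1)*(T + 1)^(2:ℕ))) : ℝ × ℝ) = (((S - 1))/((S + 1)), ((S^(2:ℕ)*T^(2:ℕ) - S^(2:ℕ)*T - S*T^(2:ℕ) - S^(2:ℕ) - 3*S*T - T^(2:ℕ) - 2*S - 2*T - 1))/(S*T*(S + 1)*(T + 1)^(2:ℕ))) := vecY (radd d1 d22 d1 d9 (by ring))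

theorem F1_vq (S T : ℝ) (d1 : 0 < (S + 1)*(T + 1)^(2:ℕ)) :
    ((((S - 1))/((S + 1)), ((S*T - S - T - 1))/((S + 1)*(T + 1)^(2:ℕ))) : ℝ × ℝ) + ((0, ((S + T + 1))/((S + 1)*(T + 1)^(2:ℕ))) : ℝ × ℝ) = (((S - 1))/((S + 1)), (S*T)/((S + 1)*(T + 1)^(2:ℕ))) := vecY1 (radd1 d1 d1 d1 (by ring))

theorem F1_vr (S T : ℝ) (d0 : 0 < (S + 1)) :
    (((S)/((S + 1)), (S*T)/((S + 1)*(T + 1)^(2:ℕ))) : ℝ × ℝ) + (((-(1))/((S + 1)), 0) : ℝ × ℝ) = (((S - 1))/((S + 1)), (S*T)/((S + 1)*(T + 1)^(2:ℕ))) := vecX1 (radd1 d0 d0 d0 (by ring))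

theorem F1_vQ (S T : ℝ) (d1 : 0 < (S + 1)*(T + 1)^(2:ℕ)) (d22 : 0 < S*T) (d27 : 0 < S^(2:ℕ)*T^(2:ℕ)*(S + 1)*(T + 1)^(2:ℕ)) :
    ((((S - 1))/((S + 1)), ((S*T - S - T - 1))/((S + 1)*(T + 1)^(2:ℕ))) : ℝ × ℝ) + (((-((S + T + 1)))/(S*T))^(2:ℕ)) • ((0, ((S + T + 1))/((S + 1)*(T + 1)^(2:ℕ))) : ℝ × ℝ) = (((S - 1))/((S + 1)), ((S^(3:ℕ)*T^(3:ℕ) - S^(3:ℕ)*T^(2:ℕ) - S^(2:ℕ)*T^(3:ℕ) - S^(2:ℕ)*T^(2:ℕ) + S^(3:ℕ) + 3*S^(2:ℕ)*T + 3*S*T^(2:ℕ) + T^(3:ℕ) + 3*S^(2:ℕ) + 6*S*T + 3*T^(2:ℕ) + 3*S + 3*T + 1))/(S^(2:ℕ)*T^(2:ℕ)*(S + 1)*(T + 1)^(2:ℕ))) := vecY (radd2 d1 d22 d1 d27 (by ring))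

theorem F1_vC (S T : ℝ) (d0 : 0 < (S + 1)) (d6 : 0 < S*T*(S + 1)) (d22 : 0 < S*T) :
    (((S)/((S + 1)), (S*T)/((S + 1)*(T + 1)^(2:ℕ))) : ℝ × ℝ) + ((-((S + T + 1)))/(S*T)) • (((-(1))/((S + 1)), 0) : ℝ × ℝ) = (((S^(2:ℕ)*T + S + T + 1))/(S*T*(S + 1)), (S*T)/((S + 1)*(T + 1)^(2:ℕ))) := vecX (radd d0 d22 d0 d6 (by ring))

theorem F1_nun (S T : ℝ) (d22 : 0 < S*T) (d38 : 0 < (S + T + 1)) :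
    (-((S + T + 1)))/(S*T) < 0 := rneg d38 d22

theorem F1_num (S T : ℝ) (d14 : 0 < (S*T - S - T - 1)) (d22 : 0 < S*T) :
    -1 < (-((S + T + 1)))/(S*T) := rgtm d22 d14 d22 (by ring)

theorem F1_kan (S T : ℝ) (d22 : 0 < S*T) (d38 : 0 < (S + T + 1)) :
    (-((S + T + 1)))/(S*T) < 0 := rneg d38 d22

theorem F1_kam (S T : ℝ) (d14 : 0 < (S*T - S - T - 1)) (d22 : 0 < S*T) :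
    -1 < (-((S + T + 1)))/(S*T) := rgtm d22 d14 d22 (by ring)

theorem F1_hdB (S T : ℝ) (d0 : 0 < (S + 1)) :
    (((-(1))/((S + 1)), 0) : ℝ × ℝ) ≠ 0 := ne0X (rneg one_pos d0).ne

theorem fam_F1 {S T : ℝ} (h4 : 4 ≤ S) (hL : S ≤ T) (hU : T ≤ -1/2 + 1/2*S^(2:ℕ)) : HasConn S T := by
  have pS : 0 < S := by linarith
  have pT : 0 < T := by nlinarith
  have pA : 0 < (S + 1) := by linarith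
  have pB : 0 < (T + 1) := by linarith
  have pU : 0 < (S + T + 1) := by linarith
  have c0 : 0 < S - 1 := F1_c0 h4 hL
  have c1 : 0 < S^(2:ℕ)*T^(2:ℕ) - S^(2:ℕ)*T - S*T^(2:ℕ) - S^(2:ℕ) - 3*S*T - T^(2:ℕ) - 2*S - 2*T - 1 := F1_c1 h4 hL
  have c2 : 0 < S^(2:ℕ)*T^(3:ℕ) + S^(2:ℕ)*T^(2:ℕ) + S*T^(3:ℕ) + 2*S^(2:ℕ)*T + 3*S*T^(2:ℕ) + S^(2:ℕ) + 4*S*T + T^(2:ℕ) + 2*S + 2*T + 1 := by positivity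
  have c3 : 0 < S*T - S - T - 1 := F1_c3 h4 hL
  have c4 : 0 < 2*S*T + S + T + 1 := by positivity
  have c5 : 0 < S^(3:ℕ)*T + S^(3:ℕ) + S^(2:ℕ)*T - S*T^(2:ℕ) + 3*S^(2:ℕ) + 2*S*T + T^(2:ℕ) + 3*S + 2*T + 1 := F1_c5 h4 hL hU
  have c6 : 0 < S*T^(3:ℕ) - 2*S^(2:ℕ)*T + T^(3:ℕ) - S^(2:ℕ) - 3*S*T + T^(2:ℕ) - 2*S - T - 1 := F1_c6 h4 hL
  have c7 : 0 < S^(2:ℕ)*T + S + T + 1 := by positivity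
  have c8 : 0 < S^(2:ℕ)*T^(2:ℕ) + S^(2:ℕ) + 2*S*T + T^(2:ℕ) + 2*S + 2*T + 1 := by positivity
  have c9 : 0 < S^(2:ℕ)*T + S^(2:ℕ) - 2*T^(2:ℕ) + 2*S - T + 1 := F1_c9 h4 hL hU
  have c10 : 0 < S*T^(2:ℕ) - S^(2:ℕ) + S*T + T^(2:ℕ) + 2*T + 1 := F1_c10 h4 hL
  have c11 : 0 < S^(3:ℕ)*T^(3:ℕ) - S^(3:ℕ)*T^(2:ℕ) - S^(2:ℕ)*T^(3:ℕ) - S^(2:ℕ)*T^(2:ℕ) + S^(3:ℕ) + 3*S^(2:ℕ)*T + 3*S*T^(2:ℕ) + T^(3:ℕ) + 3*S^(2:ℕ) + 6*S*T + 3*T^(2:ℕ) + 3*S + 3*T + 1 := F1_c11 h4 hL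
  have c12 : 0 < S^(3:ℕ)*T^(4:ℕ) + S^(3:ℕ)*T^(3:ℕ) + S^(2:ℕ)*T^(4:ℕ) + 2*S^(3:ℕ)*T^(2:ℕ) + 3*S^(2:ℕ)*T^(3:ℕ) + 2*S^(2:ℕ)*T^(2:ℕ) - S^(3:ℕ) - 3*S^(2:ℕ)*T - 3*S*T^(2:ℕ) - T^(3:ℕ) - 3*S^(2:ℕ) - 6*S*T - 3*T^(2:ℕ) - 3*S - 3*T - 1 := F1_c12 h4 hL
  have c13 : 0 < 2*S^(2:ℕ)*T^(2:ℕ) - S^(2:ℕ) - 2*S*T - T^(2:ℕ) - 2*S - 2*T - 1 := F1_c13 h4 hL
  have c14 : 0 < S^(2:ℕ)*T^(4:ℕ) - 2*S^(3:ℕ)*T^(2:ℕ) + S*T^(4:ℕ) - S^(2:ℕ)*T^(2:ℕ) + 2*S*T^(3:ℕ) + S^(3:ℕ) + 3*S^(2:ℕ)*T + 4*S*T^(2:ℕ) + T^(3:ℕ) + 3*S^(2:ℕ) + 6*S*T + 3*T^(2:ℕ) + 3*S + 3*T + 1 := F1_c14 h4 hL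
  have c15 : 0 < S^(3:ℕ)*T^(3:ℕ) + S^(3:ℕ)*T + 2*S^(2:ℕ)*T^(2:ℕ) + S*T^(3:ℕ) + S^(3:ℕ) + 5*S^(2:ℕ)*T + 5*S*T^(2:ℕ) + T^(3:ℕ) + 3*S^(2:ℕ) + 7*S*T + 3*T^(2:ℕ) + 3*S + 3*T + 1 := by positivity
  have c16 : 0 < S^(2:ℕ)*T^(4:ℕ) - S^(3:ℕ)*T^(2:ℕ) + S^(2:ℕ)*T^(3:ℕ) + S*T^(4:ℕ) + S^(3:ℕ)*T + 2*S^(2:ℕ)*T^(2:ℕ) + 3*S*T^(3:ℕ) + S^(3:ℕ) + 5*S^(2:ℕ)*T + 6*S*T^(2:ℕ) + T^(3:ℕ) + 3*S^(2:ℕ) + 7*S*T + 3*T^(2:ℕ) + 3*S + 3*T + 1 := F1_c16 h4 hL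
  have c17 : 0 < S*T^(2:ℕ) + S*T + T^(2:ℕ) + S + 2*T + 1 := by positivity
  have c18 : 0 < S^(4:ℕ)*T^(2:ℕ) + S^(4:ℕ)*T + S^(3:ℕ)*T^(2:ℕ) - S^(2:ℕ)*T^(3:ℕ) + 2*S^(3:ℕ)*T - S^(3:ℕ) - 2*S^(2:ℕ)*T - 3*S*T^(2:ℕ) - T^(3:ℕ) - 3*S^(2:ℕ) - 6*S*T - 3*T^(2:ℕ) - 3*S - 3*T - 1 := F1_c18 h4 hL hU
  have c19 : 0 < S^(3:ℕ)*T^(2:ℕ) - S^(2:ℕ) - 2*S*T - T^(2:ℕ) - 2*S - 2*T - 1 := F1_c19 h4 hL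
  have d0 := F1_d0 S T pA
  have d1 := F1_d1 S T pA pB
  have d2 := F1_d2 S T pA pB
  have d3 := F1_d3 S T pB
  have f0 := F1_f0 S T pS pT d0 d1 d2 d3
  have d4 := F1_d4 S T pA pB
  have d5 := F1_d5 S T pS pA pB
  have f1 := F1_f1 S T pS d2 d3 d4 d5
  have d6 := F1_d6 S T pS pT pA
  have f2 := F1_f2 S T pT d1 d4 d5 d6
  have d7 := F1_d7 S T pT pA pB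
  have f3 := F1_f3 S T pT d1 d5 d6 d7
  have d8 := F1_d8 S T pS pT pB
  have f4 := F1_f4 S T pS d2 d5 d7 d8
  have f5 := F1_f5 S T pS d2 d4 d7 d8
  have f6 := F1_f6 S T pT d0 d1 d4 d7
  have rA := F1_rA S T f0 f1 f2 f3 f4 f5 f6
  have d9 := F1_d9 S T pS pT pA pB
  have f7 := F1_f7 S T pS pT d0 d2 d8 d9
  have f8 := F1_f8 S T pS d2 d5 d7 d8
  have f9 := F1_f9 S T pT d1 d5 d6 d7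
  have f10 := F1_f10 S T pT d1 d4 d5 d6
  have f11 := F1_f11 S T pS d2 d3 d4 d5
  have f12 := F1_f12 S T pS d2 d3 d4
  have f13 := F1_f13 S T pT d0 d1 d4
  have rP := F1_rP S T f7 f8 f9 f10 f11 f12 f13
  have d10 := F1_d10 S T c0
  have q0 := F1_q0 S T d0 d10
  have d11 := F1_d11 S T 
  have q1 := F1_q1 S T d0 d11
  have d12 := F1_d12 S T c1
  have q2 := F1_q2 S T d9 d12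
  have d13 := F1_d13 S T c2
  have q3 := F1_q3 S T d9 d13
  have sP := F1_sP S T q0 q1 q2 q3
  have d14 := F1_d14 S T c3
  have g0 := F1_g0 S T d0 d14
  have d15 := F1_d15 S T pU c4
  have d16 := F1_d16 S T pS pT pA pB
  have g1 := F1_g1 S T d9 d15 d16
  have oP_0 := F1_oP_0 S T g0 g1
  have d17 := F1_d17 S T c5
  have g2 := F1_g2 S T d2 d17
  have oP_1 := F1_oP_1 S T g2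
  have d18 := F1_d18 S T c6
  have g3 := F1_g3 S T d7 d18
  have d19 := F1_d19 S T c7
  have d20 := F1_d20 S T pS pA
  have g4 := F1_g4 S T d5 d19 d20
  have oP_2 := F1_oP_2 S T g3 g4
  have d21 := F1_d21 S T c8
  have g5 := F1_g5 S T d6 d21
  have d22 := F1_d22 S T pS pT
  have g6 := F1_g6 S T d1 d4 d22
  have oP_3 := F1_oP_3 S T g5 g6
  have d23 := F1_d23 S T pS pT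
  have g7 := F1_g7 S T d4 d23
  have oP_4 := F1_oP_4 S T g7
  have d24 := F1_d24 S T pS c9
  have g8 := F1_g8 S T d2 d24
  have oP_5 := F1_oP_5 S T g8
  have d25 := F1_d25 S T c10
  have g9 := F1_g9 S T d4 d25
  have d26 := F1_d26 S T pT c0
  have g10 := F1_g10 S T d0 d4 d26
  have oP_6 := F1_oP_6 S T g9 g10
  have oP := F1_oP S T f7 f8 f9 f10 f11 f12 oP_0 oP_1 oP_2 oP_3 oP_4 oP_5 oP_6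
  have d27 := F1_d27 S T pS pT pA pB
  have d28 := F1_d28 S T pS pT pB
  have f14 := F1_f14 S T pS pT d0 d2 d27 d28
  have d29 := F1_d29 S T pS pT pA pB
  have f15 := F1_f15 S T pS d2 d5 d28 d29
  have f16 := F1_f16 S T pT d5 d6 d9 d29
  have f17 := F1_f17 S T pT d5 d6 d9 d29
  have f18 := F1_f18 S T pS d2 d5 d28 d29
  have f19 := F1_f19 S T pS d2 d4 d28 d29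
  have f20 := F1_f20 S T pT d0 d4 d9 d29
  have d30 := F1_d30 S T c11
  have q4 := F1_q4 S T d27 d30
  have d31 := F1_d31 S T c12
  have q5 := F1_q5 S T d27 d31
  have sQ := F1_sQ S T q0 q1 q4 q5
  have d32 := F1_d32 S T pU c13
  have d33 := F1_d33 S T pS pT pA pB
  have g11 := F1_g11 S T d27 d32 d33
  have oQ_0 := F1_oQ_0 S T g0 g11
  have oQ_1 := F1_oQ_1 S T g2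
  have d34 := F1_d34 S T c14
  have g12 := F1_g12 S T d29 d34
  have oQ_2 := F1_oQ_2 S T g4 g12
  have g13 := F1_g13 S T d9 d12 d16
  have oQ_3 := F1_oQ_3 S T g5 g13
  have d35 := F1_d35 S T c15
  have g14 := F1_g14 S T d29 d35
  have oQ_4 := F1_oQ_4 S T g14
  have oQ_5 := F1_oQ_5 S T g8
  have d36 := F1_d36 S T c16
  have g15 := F1_g15 S T d29 d36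
  have oQ_6 := F1_oQ_6 S T g10 g15
  have oQ := F1_oQ S T f14 f15 f16 f17 f18 f19 oQ_0 oQ_1 oQ_2 oQ_3 oQ_4 oQ_5 oQ_6
  have rE := F1_rE S T 
  have q6 := F1_q6 S T d1 d22
  have d37 := F1_d37 S T c17
  have q7 := F1_q7 S T d1 d37
  have sq := F1_sq S T q0 q1 q6 q7
  have oE := F1_oE S T 
  have f21 := F1_f21 S T pS pT d0 d1 d2 d3
  have f22 := F1_f22 S T pS d2 d3 d4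
  have f23 := F1_f23 S T pT d0 d1 d4
  have rB := F1_rB S T f21 f22 f23
  have f24 := F1_f24 S T pS pT d0 d1 d2 d3
  have f25 := F1_f25 S T pS d2 d3 d4 d5
  have f26 := F1_f26 S T pT d1 d4 d5 d6
  have rr := F1_rr S T f24 f25 f26
  have sr := F1_sr S T q0 q1 q6 q7
  have d38 := F1_d38 S T pU
  have g16 := F1_g16 S T d1 d4 d38
  have orr_0 := F1_orr_0 S T g0 g16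
  have orr_1 := F1_orr_1 S T g2
  have orr_2 := F1_orr_2 S T g4 g9
  have orr := F1_orr S T f24 f25 orr_0 orr_1 orr_2
  have d39 := F1_d39 S T pS pT pA pB
  have f27 := F1_f27 S T pS pT d1 d3 d6 d39
  have d40 := F1_d40 S T pS pT pA pB
  have f28 := F1_f28 S T pS d3 d4 d39 d40
  have d41 := F1_d41 S T pS pT pA
  have f29 := F1_f29 S T pT d1 d4 d40 d41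
  have q8 := F1_q8 S T d6 d19
  have q9 := F1_q9 S T d6 d14
  have sC := F1_sC S T q6 q7 q8 q9
  have oC_0 := F1_oC_0 S T g5 g16
  have d42 := F1_d42 S T c18
  have g17 := F1_g17 S T d39 d42
  have oC_1 := F1_oC_1 S T g17
  have d43 := F1_d43 S T c19
  have d44 := F1_d44 S T pS pT pA
  have g18 := F1_g18 S T d40 d43 d44
  have oC_2 := F1_oC_2 S T g9 g18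
  have oC := F1_oC S T f27 f28 oC_0 oC_1 oC_2
  have vP := F1_vP S T d1 d9 d22
  have vq := F1_vq S T d1
  have vr := F1_vr S T d0
  have vQ := F1_vQ S T d1 d22 d27
  have vC := F1_vC S T d0 d6 d22
  have nun := F1_nun S T d22 d38
  have num := F1_num S T d14 d22
  have kan := F1_kan S T d22 d38
  have kam := F1_kam S T d14 d22
  have hdB := F1_hdB S T d0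
  refine conn_fin pS pT (by simp) (by simp) (P := (((S - 1))/((S + 1)), ((S^(2:ℕ)*T^(2:ℕ) - S^(2:ℕ)*T - S*T^(2:ℕ) - S^(2:ℕ) - 3*S*T - T^(2:ℕ) - 2*S - 2*T - 1))/(S*T*(S + 1)*(T + 1)^(2:ℕ)))) (q := (((S - 1))/((S + 1)), (S*T)/((S + 1)*(T + 1)^(2:ℕ)))) (r := (((S - 1))/((S + 1)), (S*T)/((S + 1)*(T + 1)^(2:ℕ)))) (C := (((S^(2:ℕ)*T + S + T + 1))/(S*T*(S + 1)), (S*T)/((S + 1)*(T + 1)^(2:ℕ))))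
    (ν := (-((S + T + 1)))/(S*T)) (κ := (-((S + T + 1)))/(S*T)) ?_ ?_ ?_ hdB vP vq vr vC rA rP rB rr rE ?_ sq oE ?_
  · exact nun.ne
  · exact kan.ne
  · exact abs_lt.2 ⟨kam, kan.trans one_pos⟩
  · exact okA_neg pS pT nun num vP vQ sP sQ oP oQ
  · exact okB_neg pS pT kan kam vr vC sr sC orr oC

end SympB.Quad
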