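import Pool.Agent.W_93b186_h44.FamTools

/-! Machine generated: the connection agb | bgb | bag. -/

namespace SympB.Quad

open Letter

set_option maxRecDepth 20000

theorem F2_c0 {S T : ℝ} (h4 : 4 ≤ S) (hL : -1/2 + 1/2*S^(2:ℕ) ≤ T) : 0 < S^(3:ℕ)*T^(3:ℕ) - S^(3:ℕ)*T - 2*S^(2:ℕ)*T^(2:ℕ) - S*T^(3:ℕ) - S^(3:ℕ) - 5*S^(2:ℕ)*T - 5*S*T^(2:ℕ) - T^(3:ℕ) - 3*S^(2:ℕ) - 7*S*T - 3*T^(2:ℕ) - 3*S - 3*T - 1 := by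
  obtain ⟨x, hx, rfl⟩ : ∃ x : ℝ, 0 ≤ x ∧ S = x + 4 := ⟨S - 4, by linarith, by ring⟩
  obtain ⟨y, hy, rfl⟩ : ∃ y : ℝ, 0 ≤ y ∧ T = -1/2 + 1/2*(x + 4)^(2:ℕ) + y := ⟨T - (-1/2 + 1/2*(x + 4)^(2:ℕ)), by linarith, by ring⟩
  have h : 0 < x^(9:ℕ) + 36*x^(8:ℕ) + 6*x^(7:ℕ)*y + 572*x^(7:ℕ) + 168*x^(6:ℕ)*y + 5259*x^(6:ℕ) + 12*x^(5:ℕ)*y^(2:ℕ) + 1998*x^(5:ℕ)*y + 30784*x^(5:ℕ) + 240*x^(4:ℕ)*y^(2:ℕ) + 13058*x^(4:ℕ)*y + 118689*x^(4:ℕ) + 8*x^(3:ℕ)*y^(3:ℕ) + 1896*x^(3:ℕ)*y^(2:ℕ) + 50498*x^(3:ℕ)*y + 300288*x^(3:ℕ) + 96*x^(2:ℕ)*y^(3:ℕ) + 7364*x^(2:ℕ)*y^(2:ℕ) + 114996*x^(2:ℕ)*y + 477845*x^(2:ℕ) + 376*x*y^(3:ℕ) + 13956*x*y^(2:ℕ) + 141610*x*y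 + 429475*x + 472*y^(3:ℕ) + 10180*y^(2:ℕ) + 71650*y + 162875 := by positivity
  refine pos_aux1 (m := 8) (by norm_num) (lt_of_lt_of_eq h ?_)
  ring

theorem F2_c3 {S T : ℝ} (h4 : 4 ≤ S) (hL : -1/2 + 1/2*S^(2:ℕ) ≤ T) (hU : T ≤ S^(2:ℕ)) : 0 < S^(2:ℕ)*T + S^(2:ℕ) + S*T - T^(2:ℕ) + 2*S + 1 := by
  obtain ⟨x, hx, rfl⟩ : ∃ x : ℝ, 0 ≤ x ∧ S = x + 4 := ⟨S - 4, by linarith, by ring⟩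
  obtain ⟨y, hy, rfl⟩ : ∃ y : ℝ, 0 < y ∧ T = y + (-3/4 + 1/2*(x + 4)^(2:ℕ)) := ⟨T - (-3/4 + 1/2*(x + 4)^(2:ℕ)), by linarith, by ring⟩
  obtain ⟨z, hz, hz2⟩ : ∃ z : ℝ, 0 < z ∧ z = (1 + 1/2*(x + 4)^(2:ℕ)) - y := ⟨_, by linarith, rfl⟩
  have hw : 0 < 1 + 1/2*(x + 4)^(2:ℕ) := by linarith
  have h : 0 < 8*x^(4:ℕ)*y*z + 4*x^(4:ℕ)*z^(2:ℕ) + 16*x^(3:ℕ)*y^(2:ℕ) + 152*x^(3:ℕ)*y*z + 72*x^(3:ℕ)*z^(2:ℕ) + 204*x^(2:ℕ)*y^(2:ℕ) + 1100*x^(2:ℕ)*y*z + 496*x^(2:ℕ)*z^(2:ℕ) + 900*x*y^(2:ℕ) + 3608*x*y*z + 1556*x*z^(2:ℕ) + 1375*y^(2:ℕ) + 4550*y*z + 1879*z^(2:ℕ) := by positivity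
  refine pos_aux (m := 16) (w := (1 + 1/2*(x + 4)^(2:ℕ))^(2:ℕ)) (by norm_num) (pow_pos hw 2) (lt_of_lt_of_eq h ?_)
  rw [hz2]; ring

theorem F2_c4 {S T : ℝ} (h4 : 4 ≤ S) (hL : -1/2 + 1/2*S^(2:ℕ) ≤ T) : 0 < S^(2:ℕ)*T^(4:ℕ) - 2*S^(3:ℕ)*T^(2:ℕ) + S^(2:ℕ)*T^(3:ℕ) + 2*S*T^(4:ℕ) - 2*S^(3:ℕ)*T - 3*S^(2:ℕ)*T^(2:ℕ) + 4*S*T^(3:ℕ) + T^(4:ℕ) - S^(3:ℕ) - 6*S^(2:ℕ)*T - S*T^(2:ℕ) + 2*T^(3:ℕ) - 3*S^(2:ℕ) - 6*S*T - 3*S - 2*T - 1 := by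
  obtain ⟨x, hx, rfl⟩ : ∃ x : ℝ, 0 ≤ x ∧ S = x + 4 := ⟨S - 4, by linarith, by ring⟩
  obtain ⟨y, hy, rfl⟩ : ∃ y : ℝ, 0 ≤ y ∧ T = -1/2 + 1/2*(x + 4)^(2:ℕ) + y := ⟨T - (-1/2 + 1/2*(x + 4)^(2:ℕ)), by linarith, by ring⟩
  have h : 0 < x^(10:ℕ) + 42*x^(9:ℕ) + 8*x^(8:ℕ)*y + 791*x^(8:ℕ) + 272*x^(7:ℕ)*y + 8792*x^(7:ℕ) + 24*x^(6:ℕ)*y^(2:ℕ) + 4028*x^(6:ℕ)*y + 63828*x^(6:ℕ) + 624*x^(5:ℕ)*y^(2:ℕ) + 33920*x^(5:ℕ)*y + 315984*x^(5:ℕ) + 32*x^(4:ℕ)*y^(3:ℕ) + 6720*x^(4:ℕ)*y^(2:ℕ) + 177552*x^(4:ℕ)*y + 1079140*x^(4:ℕ) + 576*x^(3:ℕ)*y^(3:ℕ) + 38368*x^(3:ℕ)*y^(2:ℕ) + 591040*x^(3:ℕ)*y + 2506784*x^(3:ℕ) + 16*x^(2:ℕ)*y^(4:ℕ) + 3856*x^(2:ℕ)*y^(3:ℕ)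 + 122448*x^(2:ℕ)*y^(2:ℕ) + 1220284*x^(2:ℕ)*y + 3782635*x^(2:ℕ) + 160*x*y^(4:ℕ) + 11392*x*y^(3:ℕ) + 206912*x*y^(2:ℕ) + 1425840*x*y + 3337550*x + 400*y^(4:ℕ) + 12544*y^(3:ℕ) + 144360*y^(2:ℕ) + 719600*y + 1301125 := by positivity
  refine pos_aux1 (m := 16) (by norm_num) (lt_of_lt_of_eq h ?_)
  ring

theorem F2_c6 {S T : ℝ} (h4 : 4 ≤ S) (hL : -1/2 + 1/2*S^(2:ℕ) ≤ T) : 0 < S^(4:ℕ)*T^(5:ℕ) + 2*S^(4:ℕ)*T^(4:ℕ) + 2*S^(3:ℕ)*T^(5:ℕ) + 2*S^(4:ℕ)*T^(3:ℕ) + 5*S^(3:ℕ)*T^(4:ℕ) + S^(2:ℕ)*T^(5:ℕ) + 3*S^(3:ℕ)*T^(3:ℕ) + 2*S^(2:ℕ)*T^(4:ℕ) - S^(4:ℕ)*T - 3*S^(3:ℕ)*T^(2:ℕ) - 2*S^(2:ℕ)*T^(3:ℕ) - S*T^(4:ℕ) - S^(4:ℕ) - 7*S^(3:ℕ)*T - 12*S^(2:ℕ)*T^(2:ℕ)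 - 7*S*T^(3:ℕ) - T^(4:ℕ) - 4*S^(3:ℕ) - 15*S^(2:ℕ)*T - 15*S*T^(2:ℕ) - 4*T^(3:ℕ) - 6*S^(2:ℕ) - 13*S*T - 6*T^(2:ℕ) - 4*S - 4*T - 1 := by
  obtain ⟨x, hx, rfl⟩ : ∃ x : ℝ, 0 ≤ x ∧ S = x + 4 := ⟨S - 4, by linarith, by ring⟩
  obtain ⟨y, hy, rfl⟩ : ∃ y : ℝ, 0 ≤ y ∧ T = -1/2 + 1/2*(x + 4)^(2:ℕ) + y := ⟨T - (-1/2 + 1/2*(x + 4)^(2:ℕ)), by linarith, by ring⟩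
  have h : 0 < x^(14:ℕ) + 58*x^(13:ℕ) + 10*x^(12:ℕ)*y + 1560*x^(12:ℕ) + 500*x^(11:ℕ)*y + 25792*x^(11:ℕ) + 40*x^(10:ℕ)*y^(2:ℕ) + 11442*x^(10:ℕ)*y + 292865*x^(10:ℕ) + 1680*x^(9:ℕ)*y^(2:ℕ) + 158480*x^(9:ℕ)*y + 2416158*x^(9:ℕ) + 80*x^(8:ℕ)*y^(3:ℕ) + 31696*x^(8:ℕ)*y^(2:ℕ) + 1479844*x^(8:ℕ)*y + 14936398*x^(8:ℕ) + 2720*x^(7:ℕ)*y^(3:ℕ) + 353792*x^(7:ℕ)*y^(2:ℕ) + 9815104*x^(7:ℕ)*y + 70288408*x^(7:ℕ) + 80*x^(6:ℕ)*y^(4:ℕ) + 40368*x^(6:ℕ)*y^(3:ℕ) + 2587648*x^(6:ℕ)*y^(2:ℕ) + 47416180*x^(6:ℕ)*y + 253021659*x^(6:ℕ) + 2080*x^(5:ℕ)*y^(4:ℕ) + 341632*x^(5:ℕ)*y^(3:ℕ) + 12959600*x^(5:ℕ)*y^(2:ℕ) + 168113688*x^(5:ℕ)*y + 693329054*x^(5:ℕ) +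 32*x^(4:ℕ)*y^(5:ℕ) + 22464*x^(4:ℕ)*y^(4:ℕ) + 1803504*x^(4:ℕ)*y^(3:ℕ) + 45011904*x^(4:ℕ)*y^(2:ℕ) + 434148354*x^(4:ℕ)*y + 1423486100*x^(4:ℕ) + 576*x^(3:ℕ)*y^(5:ℕ) + 129024*x^(3:ℕ)*y^(4:ℕ) + 6082176*x^(3:ℕ)*y^(3:ℕ) + 107058368*x^(3:ℕ)*y^(2:ℕ) + 796357612*x^(3:ℕ)*y + 2123081000*x^(3:ℕ) + 3872*x^(2:ℕ)*y^(5:ℕ) + 415728*x^(2:ℕ)*y^(4:ℕ) + 12796752*x^(2:ℕ)*y^(3:ℕ) + 166864824*x^(2:ℕ)*y^(2:ℕ) + 984702330*x^(2:ℕ)*y + 2173901875*x^(2:ℕ) + 11520*x*y^(5:ℕ) + 712544*x*y^(4:ℕ) + 15356384*x*y^(3:ℕ) + 153872640*x*y^(2:ℕ) + 736729400*x*y + 1367306250*x + 12800*y^(5:ℕ) + 507488*y^(4:ℕ) + 8045120*y^(3:ℕ) + 63723600*y^(2:ℕ) + 252094000*y +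 398293750 := by positivity
  refine pos_aux1 (m := 32) (by norm_num) (lt_of_lt_of_eq h ?_)
  ring

theorem F2_c7 {S T : ℝ} (h4 : 4 ≤ S) (hL : -1/2 + 1/2*S^(2:ℕ) ≤ T) : 0 < S^(3:ℕ)*T^(5:ℕ) - S^(4:ℕ)*T^(3:ℕ) + 2*S^(3:ℕ)*T^(4:ℕ) + 2*S^(2:ℕ)*T^(5:ℕ) + 2*S^(3:ℕ)*T^(3:ℕ) + 6*S^(2:ℕ)*T^(4:ℕ) + S*T^(5:ℕ) + S^(4:ℕ)*T + 4*S^(3:ℕ)*T^(2:ℕ) + 9*S^(2:ℕ)*T^(3:ℕ) + 4*S*T^(4:ℕ) + S^(4:ℕ) + 7*S^(3:ℕ)*T + 14*S^(2:ℕ)*T^(2:ℕ) + 10*S*T^(3:ℕ) + T^(4:ℕ) + 4*S^(3:ℕ) + 15*S^(2:ℕ)*T + 16*S*T^(2:ℕ) + 4*T^(3:ℕ) + 6*S^(2:ℕ) + 13*S*T + 6*T^(2:ℕ) + 4*S + 4*T + 1 := by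
  obtain ⟨x, hx, rfl⟩ : ∃ x : ℝ, 0 ≤ x ∧ S = x + 4 := ⟨S - 4, by linarith, by ring⟩
  obtain ⟨y, hy, rfl⟩ : ∃ y : ℝ, 0 ≤ y ∧ T = -1/2 + 1/2*(x + 4)^(2:ℕ) + y := ⟨T - (-1/2 + 1/2*(x + 4)^(2:ℕ)), by linarith, by ring⟩
  have h : 0 < x^(13:ℕ) + 54*x^(12:ℕ) + 10*x^(11:ℕ)*y + 1344*x^(11:ℕ) + 460*x^(10:ℕ)*y + 20414*x^(10:ℕ) + 40*x^(9:ℕ)*y^(2:ℕ) + 9602*x^(9:ℕ)*y + 211125*x^(9:ℕ) + 1520*x^(8:ℕ)*y^(2:ℕ) + 120064*x^(8:ℕ)*y + 1570090*x^(8:ℕ) + 80*x^(7:ℕ)*y^(3:ℕ) + 25616*x^(7:ℕ)*y^(2:ℕ) + 999332*x^(7:ℕ)*y + 8639016*x^(7:ℕ) + 2400*x^(6:ℕ)*y^(3:ℕ) + 251328*x^(6:ℕ)*y^(2:ℕ) + 5814368*x^(6:ℕ)*y + 35614756*x^(6:ℕ) + 80*x^(5:ℕ)*y^(4:ℕ)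 + 30768*x^(5:ℕ)*y^(3:ℕ) + 1582432*x^(5:ℕ)*y^(2:ℕ) + 24135300*x^(5:ℕ)*y + 110036299*x^(5:ℕ) + 1760*x^(4:ℕ)*y^(4:ℕ) + 218592*x^(4:ℕ)*y^(3:ℕ) + 6632512*x^(4:ℕ)*y^(2:ℕ) + 71496808*x^(4:ℕ)*y + 251740818*x^(4:ℕ) + 32*x^(3:ℕ)*y^(5:ℕ) + 15424*x^(3:ℕ)*y^(4:ℕ) + 929904*x^(3:ℕ)*y^(3:ℕ) + 18512176*x^(3:ℕ)*y^(2:ℕ) + 148187442*x^(3:ℕ)*y + 414750360*x^(3:ℕ) + 448*x^(2:ℕ)*y^(5:ℕ) + 67360*x^(2:ℕ)*y^(4:ℕ) + 2369984*x^(2:ℕ)*y^(3:ℕ) + 33195904*x^(2:ℕ)*y^(2:ℕ) + 204784180*x^(2:ℕ)*y + 466343950*x^(2:ℕ) + 2080*x*y^(5:ℕ) + 146736*x*y^(4:ℕ) + 3352976*x*y^(3:ℕ) + 34726840*x*y^(2:ℕ) + 169962650*x*y + 321093375*x + 3200*y^(5:ℕ) + 127712*y^(4:ℕ)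 + 2033280*y^(3:ℕ) + 16163600*y^(2:ℕ) + 64259000*y + 102398750 := by positivity
  refine pos_aux1 (m := 32) (by norm_num) (lt_of_lt_of_eq h ?_)
  ring

theorem F2_c10 {S T : ℝ} (h4 : 4 ≤ S) (hL : -1/2 + 1/2*S^(2:ℕ) ≤ T) : 0 < -S^(3:ℕ)*T - S^(3:ℕ) + 2*S*T^(2:ℕ) - S^(2:ℕ) + 3*S*T + T^(2:ℕ) + S + 2*T + 1 := by
  obtain ⟨x, hx, rfl⟩ : ∃ x : ℝ, 0 ≤ x ∧ S = x + 4 := ⟨S - 4, by linarith, by ring⟩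
  obtain ⟨y, hy, rfl⟩ : ∃ y : ℝ, 0 ≤ y ∧ T = -1/2 + 1/2*(x + 4)^(2:ℕ) + y := ⟨T - (-1/2 + 1/2*(x + 4)^(2:ℕ)), by linarith, by ring⟩
  have h : 0 < x^(4:ℕ) + 4*x^(3:ℕ)*y + 16*x^(3:ℕ) + 52*x^(2:ℕ)*y + 94*x^(2:ℕ) + 8*x*y^(2:ℕ) + 228*x*y + 240*x + 36*y^(2:ℕ) + 340*y + 225 := by positivity
  refine pos_aux1 (m := 4) (by norm_num) (lt_of_lt_of_eq h ?_)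
  ring

theorem F2_c14 {S T : ℝ} (h4 : 4 ≤ S) (hL : -1/2 + 1/2*S^(2:ℕ) ≤ T) : 0 < S*T^(2:ℕ) - S^(2:ℕ) + S*T + T^(2:ℕ) + 2*T + 1 := by
  obtain ⟨x, hx, rfl⟩ : ∃ x : ℝ, 0 ≤ x ∧ S = x + 4 := ⟨S - 4, by linarith, by ring⟩
  obtain ⟨y, hy, rfl⟩ : ∃ y : ℝ, 0 ≤ y ∧ T = -1/2 + 1/2*(x + 4)^(2:ℕ) + y := ⟨T - (-1/2 + 1/2*(x + 4)^(2:ℕ)), by linarith, by ring⟩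
  have h : 0 < x^(5:ℕ) + 21*x^(4:ℕ) + 4*x^(3:ℕ)*y + 176*x^(3:ℕ) + 52*x^(2:ℕ)*y + 734*x^(2:ℕ) + 4*x*y^(2:ℕ) + 224*x*y + 1519*x + 20*y^(2:ℕ) + 324*y + 1245 := by positivity
  refine pos_aux1 (m := 4) (by norm_num) (lt_of_lt_of_eq h ?_)
  ring

theorem F2_c15 {S T : ℝ} (h4 : 4 ≤ S) (hL : -1/2 + 1/2*S^(2:ℕ) ≤ T) : 0 < S^(2:ℕ)*T^(2:ℕ) - S^(2:ℕ) - S*T - 2*S - T - 1 := by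
  obtain ⟨x, hx, rfl⟩ : ∃ x : ℝ, 0 ≤ x ∧ S = x + 4 := ⟨S - 4, by linarith, by ring⟩
  obtain ⟨y, hy, rfl⟩ : ∃ y : ℝ, 0 ≤ y ∧ T = -1/2 + 1/2*(x + 4)^(2:ℕ) + y := ⟨T - (-1/2 + 1/2*(x + 4)^(2:ℕ)), by linarith, by ring⟩
  have h : 0 < x^(6:ℕ) + 24*x^(5:ℕ) + 4*x^(4:ℕ)*y + 238*x^(4:ℕ) + 64*x^(3:ℕ)*y + 1246*x^(3:ℕ) + 4*x^(2:ℕ)*y^(2:ℕ) + 380*x^(2:ℕ)*y + 3619*x^(2:ℕ) + 32*x*y^(2:ℕ) + 988*x*y + 5490*x + 64*y^(2:ℕ) + 940*y + 3350 := by positivity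
  refine pos_aux1 (m := 4) (by norm_num) (lt_of_lt_of_eq h ?_)
  ring

theorem F2_c16 {S T : ℝ} (h4 : 4 ≤ S) (hL : -1/2 + 1/2*S^(2:ℕ) ≤ T) : 0 < S^(2:ℕ)*T^(3:ℕ) - S^(3:ℕ)*T - S^(2:ℕ)*T^(2:ℕ) - S^(3:ℕ) - 4*S^(2:ℕ)*T - 2*S*T^(2:ℕ) - 3*S^(2:ℕ) - 5*S*T - T^(2:ℕ) - 3*S - 2*T - 1 := by
  obtain ⟨x, hx, rfl⟩ : ∃ x : ℝ, 0 ≤ x ∧ S = x + 4 := ⟨S - 4, by linarith, by ring⟩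
  obtain ⟨y, hy, rfl⟩ : ∃ y : ℝ, 0 ≤ y ∧ T = -1/2 + 1/2*(x + 4)^(2:ℕ) + y := ⟨T - (-1/2 + 1/2*(x + 4)^(2:ℕ)), by linarith, by ring⟩
  have h : 0 < x^(8:ℕ) + 32*x^(7:ℕ) + 6*x^(6:ℕ)*y + 443*x^(6:ℕ) + 144*x^(5:ℕ)*y + 3456*x^(5:ℕ) + 12*x^(4:ℕ)*y^(2:ℕ) + 1420*x^(4:ℕ)*y + 16549*x^(4:ℕ) + 192*x^(3:ℕ)*y^(2:ℕ) + 7336*x^(3:ℕ)*y + 49472*x^(3:ℕ) + 8*x^(2:ℕ)*y^(3:ℕ) + 1132*x^(2:ℕ)*y^(2:ℕ) + 20806*x^(2:ℕ)*y + 89105*x^(2:ℕ) + 64*x*y^(3:ℕ) + 2896*x*y^(2:ℕ) + 30360*x*y + 86400*x + 128*y^(3:ℕ) + 2680*y^(2:ℕ) + 17400*y + 32750 := by positivity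
  refine pos_aux1 (m := 8) (by norm_num) (lt_of_lt_of_eq h ?_)
  ring

theorem F2_c17 {S T : ℝ} (h4 : 4 ≤ S) (hL : -1/2 + 1/2*S^(2:ℕ) ≤ T) (hU : T ≤ S^(2:ℕ)) : 0 < S^(4:ℕ)*T^(3:ℕ) + 2*S^(4:ℕ)*T^(2:ℕ) + 2*S^(3:ℕ)*T^(3:ℕ) - S^(2:ℕ)*T^(4:ℕ) + 2*S^(4:ℕ)*T + 8*S^(3:ℕ)*T^(2:ℕ) + 3*S^(2:ℕ)*T^(3:ℕ) + S^(4:ℕ) + 9*S^(3:ℕ)*T + 13*S^(2:ℕ)*T^(2:ℕ) + 3*S*T^(3:ℕ) + 4*S^(3:ℕ) + 15*S^(2:ℕ)*T + 10*S*T^(2:ℕ) + T^(3:ℕ) + 6*S^(2:ℕ) + 11*S*T + 3*T^(2:ℕ) + 4*S + 3*T + 1 := by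
  obtain ⟨x, hx, rfl⟩ : ∃ x : ℝ, 0 ≤ x ∧ S = x + 4 := ⟨S - 4, by linarith, by ring⟩
  obtain ⟨y, hy, rfl⟩ : ∃ y : ℝ, 0 < y ∧ T = y + (-3/4 + 1/2*(x + 4)^(2:ℕ)) := ⟨T - (-3/4 + 1/2*(x + 4)^(2:ℕ)), by linarith, by ring⟩
  obtain ⟨z, hz, hz2⟩ : ∃ z : ℝ, 0 < z ∧ z = (1 + 1/2*(x + 4)^(2:ℕ)) - y := ⟨_, by linarith, rfl⟩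
  have hw : 0 < 1 + 1/2*(x + 4)^(2:ℕ) := by linarith
  have h : 0 < 128*x^(10:ℕ)*y^(3:ℕ)*z + 192*x^(10:ℕ)*y^(2:ℕ)*z^(2:ℕ) + 96*x^(10:ℕ)*y*z^(3:ℕ) + 16*x^(10:ℕ)*z^(4:ℕ) + 512*x^(9:ℕ)*y^(4:ℕ) + 6400*x^(9:ℕ)*y^(3:ℕ)*z + 8832*x^(9:ℕ)*y^(2:ℕ)*z^(2:ℕ) + 4288*x^(9:ℕ)*y*z^(3:ℕ) + 704*x^(9:ℕ)*z^(4:ℕ) + 19648*x^(8:ℕ)*y^(4:ℕ) + 141888*x^(8:ℕ)*y^(3:ℕ)*z + 183152*x^(8:ℕ)*y^(2:ℕ)*z^(2:ℕ) + 86560*x^(8:ℕ)*y*z^(3:ℕ) + 14000*x^(8:ℕ)*z^(4:ℕ) + 337024*x^(7:ℕ)*y^(4:ℕ) + 1844736*x^(7:ℕ)*y^(3:ℕ)*z + 2254752*x^(7:ℕ)*y^(2:ℕ)*z^(2:ℕ) + 1039712*x^(7:ℕ)*y*z^(3:ℕ) + 165696*x^(7:ℕ)*z^(4:ℕ) + 3391760*x^(6:ℕ)*y^(4:ℕ) + 15623880*x^(6:ℕ)*y^(3:ℕ)*z + 18249136*x^(6:ℕ)*y^(2:ℕ)*z^(2:ℕ)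 + 8227240*x^(6:ℕ)*y*z^(3:ℕ) + 1292336*x^(6:ℕ)*z^(4:ℕ) + 22072096*x^(5:ℕ)*y^(4:ℕ) + 90274384*x^(5:ℕ)*y^(3:ℕ)*z + 101469952*x^(5:ℕ)*y^(2:ℕ)*z^(2:ℕ) + 44803408*x^(5:ℕ)*y*z^(3:ℕ) + 6939008*x^(5:ℕ)*z^(4:ℕ) + 96328420*x^(4:ℕ)*y^(4:ℕ) + 361000352*x^(4:ℕ)*y^(3:ℕ)*z + 392566488*x^(4:ℕ)*y^(2:ℕ)*z^(2:ℕ) + 170012832*x^(4:ℕ)*y*z^(3:ℕ) + 25969284*x^(4:ℕ)*z^(4:ℕ) + 281977240*x^(3:ℕ)*y^(4:ℕ) + 987922232*x^(3:ℕ)*y^(3:ℕ)*z + 1043578328*x^(3:ℕ)*y^(2:ℕ)*z^(2:ℕ) + 443804136*x^(3:ℕ)*y*z^(3:ℕ) + 66873776*x^(3:ℕ)*z^(4:ℕ) + 533949675*x^(2:ℕ)*y^(4:ℕ) + 1772685300*x^(2:ℕ)*y^(3:ℕ)*z + 1824593658*x^(2:ℕ)*y^(2:ℕ)*z^(2:ℕ) + 762622020*x^(2:ℕ)*y*z^(3:ℕ)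 + 113374035*x^(2:ℕ)*z^(4:ℕ) + 593618500*x*y^(4:ℕ) + 1885160000*x*y^(3:ℕ)*z + 1895005800*x*y^(2:ℕ)*z^(2:ℕ) + 778926112*x*y*z^(3:ℕ) + 114249140*x*z^(4:ℕ) + 295292500*y^(4:ℕ) + 903052000*y^(3:ℕ)*z + 888023400*y^(2:ℕ)*z^(2:ℕ) + 359102080*y*z^(3:ℕ) + 51964324*z^(4:ℕ) := by positivity
  refine pos_aux (m := 256) (w := (1 + 1/2*(x + 4)^(2:ℕ))^(4:ℕ)) (by norm_num) (pow_pos hw 4) (lt_of_lt_of_eq h ?_)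
  rw [hz2]; ring

theorem F2_c21 {S T : ℝ} (h4 : 4 ≤ S) (hL : -1/2 + 1/2*S^(2:ℕ) ≤ T) (hU : T ≤ S^(2:ℕ)) : 0 < S^(5:ℕ)*T^(4:ℕ) + 2*S^(5:ℕ)*T^(3:ℕ) + 2*S^(4:ℕ)*T^(4:ℕ) - S^(3:ℕ)*T^(5:ℕ) + S^(5:ℕ)*T^(2:ℕ) + 5*S^(4:ℕ)*T^(3:ℕ) - S^(2:ℕ)*T^(5:ℕ) - S^(5:ℕ)*T - S^(4:ℕ)*T^(2:ℕ) - 2*S^(3:ℕ)*T^(3:ℕ) - 5*S^(2:ℕ)*T^(4:ℕ) - S*T^(5:ℕ) - S^(5:ℕ) - 8*S^(4:ℕ)*T - 15*S^(3:ℕ)*T^(2:ℕ) - 15*S^(2:ℕ)*T^(3:ℕ) - 5*S*T^(4:ℕ) - 5*S^(4:ℕ) - 22*S^(3:ℕ)*T - 29*S^(2:ℕ)*T^(2:ℕ) - 14*S*T^(3:ℕ) - T^(4:ℕ) - 10*S^(3:ℕ) - 28*S^(2:ℕ)*T - 22*S*T^(2:ℕ) - 4*T^(3:ℕ) - 10*S^(2:ℕ) - 17*S*T - 6*T^(2:ℕ) - 5*S - 4*T - 1 := by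
  obtain ⟨x, hx, rfl⟩ : ∃ x : ℝ, 0 ≤ x ∧ S = x + 4 := ⟨S - 4, by linarith, by ring⟩
  obtain ⟨y, hy, rfl⟩ : ∃ y : ℝ, 0 < y ∧ T = y + (-3/4 + 1/2*(x + 4)^(2:ℕ)) := ⟨T - (-3/4 + 1/2*(x + 4)^(2:ℕ)), by linarith, by ring⟩
  obtain ⟨z, hz, hz2⟩ : ∃ z : ℝ, 0 < z ∧ z = (1 + 1/2*(x + 4)^(2:ℕ)) - y := ⟨_, by linarith, rfl⟩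
  have hw : 0 < 1 + 1/2*(x + 4)^(2:ℕ) := by linarith
  have h : 0 < 512*x^(13:ℕ)*y^(4:ℕ)*z + 1024*x^(13:ℕ)*y^(3:ℕ)*z^(2:ℕ) + 768*x^(13:ℕ)*y^(2:ℕ)*z^(3:ℕ) + 256*x^(13:ℕ)*y*z^(4:ℕ) + 32*x^(13:ℕ)*z^(5:ℕ) + 1024*x^(12:ℕ)*y^(5:ℕ) + 30208*x^(12:ℕ)*y^(4:ℕ)*z + 57856*x^(12:ℕ)*y^(3:ℕ)*z^(2:ℕ) + 42752*x^(12:ℕ)*y^(2:ℕ)*z^(3:ℕ) + 14144*x^(12:ℕ)*y*z^(4:ℕ) + 1760*x^(12:ℕ)*z^(5:ℕ) + 49920*x^(11:ℕ)*y^(5:ℕ) + 816384*x^(11:ℕ)*y^(4:ℕ)*z + 1506688*x^(11:ℕ)*y^(3:ℕ)*z^(2:ℕ) + 1097856*x^(11:ℕ)*y^(2:ℕ)*z^(3:ℕ) + 360432*x^(11:ℕ)*y*z^(4:ℕ) + 44624*x^(11:ℕ)*z^(5:ℕ) + 1115904*x^(10:ℕ)*y^(5:ℕ) + 13395712*x^(10:ℕ)*y^(4:ℕ)*z + 23943040*x^(10:ℕ)*y^(3:ℕ)*z^(2:ℕ)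 + 17215872*x^(10:ℕ)*y^(2:ℕ)*z^(3:ℕ) + 5607728*x^(10:ℕ)*y*z^(4:ℕ) + 690416*x^(10:ℕ)*z^(5:ℕ) + 15118336*x^(9:ℕ)*y^(5:ℕ) + 149006912*x^(9:ℕ)*y^(4:ℕ)*z + 258990208*x^(9:ℕ)*y^(3:ℕ)*z^(2:ℕ) + 183874000*x^(9:ℕ)*y^(2:ℕ)*z^(3:ℕ) + 59410320*x^(9:ℕ)*y*z^(4:ℕ) + 7269952*x^(9:ℕ)*z^(5:ℕ) + 138184576*x^(8:ℕ)*y^(5:ℕ) + 1187093568*x^(8:ℕ)*y^(4:ℕ)*z + 2013208992*x^(8:ℕ)*y^(3:ℕ)*z^(2:ℕ) + 1411945968*x^(8:ℕ)*y^(2:ℕ)*z^(3:ℕ) + 452403328*x^(8:ℕ)*y*z^(4:ℕ) + 54991216*x^(8:ℕ)*z^(5:ℕ) + 897080992*x^(7:ℕ)*y^(5:ℕ) + 6970066464*x^(7:ℕ)*y^(4:ℕ)*z + 11565982392*x^(7:ℕ)*y^(3:ℕ)*z^(2:ℕ) + 8015925336*x^(7:ℕ)*y^(2:ℕ)*z^(3:ℕ) + 2546133480*x^(7:ℕ)*y*z^(4:ℕ)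 + 307237832*x^(7:ℕ)*z^(5:ℕ) + 4237713056*x^(6:ℕ)*y^(5:ℕ) + 30539445920*x^(6:ℕ)*y^(4:ℕ)*z + 49701089432*x^(6:ℕ)*y^(3:ℕ)*z^(2:ℕ) + 34046458856*x^(6:ℕ)*y^(2:ℕ)*z^(3:ℕ) + 10716065768*x^(6:ℕ)*y*z^(4:ℕ) + 1282767512*x^(6:ℕ)*z^(5:ℕ) + 14660445872*x^(5:ℕ)*y^(5:ℕ) + 99829689434*x^(5:ℕ)*y^(4:ℕ)*z + 159656009376*x^(5:ℕ)*y^(3:ℕ)*z^(2:ℕ) + 108108518724*x^(5:ℕ)*y^(2:ℕ)*z^(3:ℕ) + 33699799840*x^(5:ℕ)*y*z^(4:ℕ) + 3998554834*x^(5:ℕ)*z^(5:ℕ) + 36808314820*x^(4:ℕ)*y^(5:ℕ) + 240339103206*x^(4:ℕ)*y^(4:ℕ)*z + 378365604688*x^(4:ℕ)*y^(3:ℕ)*z^(2:ℕ) + 253235616116*x^(4:ℕ)*y^(2:ℕ)*z^(3:ℕ) + 78127210428*x^(4:ℕ)*y*z^(4:ℕ) + 9179469174*x^(4:ℕ)*z^(5:ℕ)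 + 65275252875*x^(3:ℕ)*y^(5:ℕ) + 413872946005*x^(3:ℕ)*y^(4:ℕ)*z + 642344150694*x^(3:ℕ)*y^(3:ℕ)*z^(2:ℕ) + 424832457122*x^(3:ℕ)*y^(2:ℕ)*z^(3:ℕ) + 129607442159*x^(3:ℕ)*y*z^(4:ℕ) + 15061430057*x^(3:ℕ)*z^(5:ℕ) + 77387221375*x^(2:ℕ)*y^(5:ℕ) + 482150681175*x^(2:ℕ)*y^(4:ℕ)*z + 738740314310*x^(2:ℕ)*y^(3:ℕ)*z^(2:ℕ) + 482605248190*x^(2:ℕ)*y^(2:ℕ)*z^(3:ℕ) + 145429417995*x^(2:ℕ)*y*z^(4:ℕ) + 16689917243*x^(2:ℕ)*z^(5:ℕ) + 54838581875*x*y^(5:ℕ) + 339954497875*x*y^(4:ℕ)*z + 514887608750*x*y^(3:ℕ)*z^(2:ℕ) + 332023917590*x*y^(2:ℕ)*z^(3:ℕ) + 98680507183*x*y*z^(4:ℕ) + 11161873895*x*z^(5:ℕ) + 17451575000*y^(5:ℕ) + 109263685000*y^(4:ℕ)*z + 163814894000*y^(3:ℕ)*z^(2:ℕ)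 + 104166213200*y^(2:ℕ)*z^(3:ℕ) + 30472088440*y*z^(4:ℕ) + 3387818024*z^(5:ℕ) := by positivity
  refine pos_aux (m := 1024) (w := (1 + 1/2*(x + 4)^(2:ℕ))^(5:ℕ)) (by norm_num) (pow_pos hw 5) (lt_of_lt_of_eq h ?_)
  rw [hz2]; ring

theorem F2_c22 {S T : ℝ} (h4 : 4 ≤ S) (hL : -1/2 + 1/2*S^(2:ℕ) ≤ T) : 0 < S*T - S - T - 1 := by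
  obtain ⟨x, hx, rfl⟩ : ∃ x : ℝ, 0 ≤ x ∧ S = x + 4 := ⟨S - 4, by linarith, by ring⟩
  obtain ⟨y, hy, rfl⟩ : ∃ y : ℝ, 0 ≤ y ∧ T = -1/2 + 1/2*(x + 4)^(2:ℕ) + y := ⟨T - (-1/2 + 1/2*(x + 4)^(2:ℕ)), by linarith, by ring⟩
  have h : 0 < x^(3:ℕ) + 11*x^(2:ℕ) + 2*x*y + 37*x + 6*y + 35 := by positivity
  refine pos_aux1 (m := 2) (by norm_num) (lt_of_lt_of_eq h ?_)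
  ring

theorem F2_d0 (S T : ℝ) (pA : 0 < (S + 1)) :
    0 < (S + 1) := pA

theorem F2_d1 (S T : ℝ) (pA : 0 < (S + 1)) (pB : 0 < (T + 1)) :
    0 < (S + 1)*(T + 1)^(2:ℕ) := (mul_pos pA (pow_pos pB 2))

theorem F2_d2 (S T : ℝ) (pA : 0 < (S + 1)) (pB : 0 < (T + 1)) :
    0 < (S + 1)^(2:ℕ)*(T + 1) := (mul_pos (pow_pos pA 2) pB)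

theorem F2_d3 (S T : ℝ) (pB : 0 < (T + 1)) :
    0 < (T + 1) := pB

theorem F2_f0 (S T : ℝ) (pS : 0 < S) (pT : 0 < T) (d0 : 0 < (S + 1)) (d1 : 0 < (S + 1)*(T + 1)^(2:ℕ)) (d2 : 0 < (S + 1)^(2:ℕ)*(T + 1)) (d3 : 0 < (T + 1)) :
    fl S T Letter.al ((S)/((S + 1)), (S*T)/((S + 1)*(T + 1)^(2:ℕ))) = ((S*T)/((S + 1)^(2:ℕ)*(T + 1)), (T)/((T + 1))) := fl_al' pS pT d0 d1 d2 d3 (by ring) (by ring)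

theorem F2_d4 (S T : ℝ) (pA : 0 < (S + 1)) (pB : 0 < (T + 1)) :
    0 < (S + 1)*(T + 1) := (mul_pos pA pB)

theorem F2_f1 (S T : ℝ) (pS : 0 < S) (d2 : 0 < (S + 1)^(2:ℕ)*(T + 1)) (d3 : 0 < (T + 1)) (d4 : 0 < (S + 1)*(T + 1)) :
    fl S T Letter.ga ((S*T)/((S + 1)^(2:ℕ)*(T + 1)), (T)/((T + 1))) = (((S*T + T + 1))/((S + 1)*(T + 1)), ((S*T + S + 1))/((S + 1)*(T + 1))) := fl_ga' pS d2 d3 d4 d4 (by ring) (by ring)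

theorem F2_f2 (S T : ℝ) (pT : 0 < T) (d0 : 0 < (S + 1)) (d1 : 0 < (S + 1)*(T + 1)^(2:ℕ)) (d4 : 0 < (S + 1)*(T + 1)) :
    fl S T Letter.be (((S*T + T + 1))/((S + 1)*(T + 1)), ((S*T + S + 1))/((S + 1)*(T + 1))) = ((S)/((S + 1)), (S*T)/((S + 1)*(T + 1)^(2:ℕ))) := fl_be' pT d4 d4 d0 d1 (by ring) (by ring)

theorem F2_rA (S T : ℝ) (f0 : fl S T Letter.al ((S)/((S + 1)), (S*T)/((S + 1)*(T + 1)^(2:ℕ))) = ((S*T)/((S + 1)^(2:ℕ)*(T + 1)), (T)/((T + 1)))) (f1 : fl S T Letter.ga ((S*T)/((S + 1)^(2:ℕ)*(T + 1)), (T)/((T + 1))) = (((S*T + T + 1))/((S + 1)*(T + 1)), ((S*T + S + 1))/((S + 1)*(T + 1)))) (f2 : fl S T Letter.be (((S*T +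 T + 1))/((S + 1)*(T + 1)), ((S*T + S + 1))/((S + 1)*(T + 1))) = ((S)/((S + 1)), (S*T)/((S + 1)*(T + 1)^(2:ℕ)))) :
    run S T [Letter.al, Letter.ga, Letter.be] ((S)/((S + 1)), (S*T)/((S + 1)*(T + 1)^(2:ℕ))) = ((S)/((S + 1)), (S*T)/((S + 1)*(T + 1)^(2:ℕ))) := (run_cons' f0 (run_cons' f1 (run_cons' f2 run_nil')))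

theorem F2_d5 (S T : ℝ) (pS : 0 < S) (pT : 0 < T) (pA : 0 < (S + 1)) (pB : 0 < (T + 1)) :
    0 < S*T*(S + 1)^(2:ℕ)*(T + 1)^(3:ℕ) := (mul_pos (mul_pos (mul_pos pS pT) (pow_pos pA 2)) (pow_pos pB 3))

theorem F2_d6 (S T : ℝ) (pS : 0 < S) (pT : 0 < T) (pA : 0 < (S + 1)) (pB : 0 < (T + 1)) :
    0 < S*T*(S + 1)*(T + 1)^(2:ℕ) := (mul_pos (mul_pos (mul_pos pS pT) pA) (pow_pos pB 2))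

theorem F2_f3 (S T : ℝ) (pS : 0 < S) (pT : 0 < T) (d0 : 0 < (S + 1)) (d2 : 0 < (S + 1)^(2:ℕ)*(T + 1)) (d5 : 0 < S*T*(S + 1)^(2:ℕ)*(T + 1)^(3:ℕ)) (d6 : 0 < S*T*(S + 1)*(T + 1)^(2:ℕ)) :
    fl S T Letter.al ((S)/((S + 1)), ((S^(3:ℕ)*T^(3:ℕ) - S^(3:ℕ)*T - 2*S^(2:ℕ)*T^(2:ℕ) - S*T^(3:ℕ) - S^(3:ℕ) - 5*S^(2:ℕ)*T - 5*S*T^(2:ℕ) - T^(3:ℕ) - 3*S^(2:ℕ) - 7*S*T - 3*T^(2:ℕ) - 3*S - 3*T - 1))/(S*T*(S + 1)^(2:ℕ)*(T + 1)^(3:ℕ))) = ((S*T)/((S + 1)^(2:ℕ)*(T + 1)), ((S^(2:ℕ)*T^(3:ℕ) + S*T^(3:ℕ) - S^(2:ℕ)*T - S^(2:ℕ) - 3*S*T - T^(2:ℕ) - 2*S - 2*T - 1))/(S*T*(S + 1)*(T + 1)^(2:ℕ))) := fl_al' pS pT d0 d5 d2 d6 (by ring) (by ring)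

theorem F2_d7 (S T : ℝ) (pT : 0 < T) (pA : 0 < (S + 1)) (pB : 0 < (T + 1)) :
    0 < T*(S + 1)^(2:ℕ)*(T + 1)^(2:ℕ) := (mul_pos (mul_pos pT (pow_pos pA 2)) (pow_pos pB 2))

theorem F2_f4 (S T : ℝ) (pS : 0 < S) (d2 : 0 < (S + 1)^(2:ℕ)*(T + 1)) (d4 : 0 < (S + 1)*(T + 1)) (d6 : 0 < S*T*(S + 1)*(T + 1)^(2:ℕ)) (d7 : 0 < T*(S + 1)^(2:ℕ)*(T + 1)^(2:ℕ)) :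
    fl S T Letter.ga ((S*T)/((S + 1)^(2:ℕ)*(T + 1)), ((S^(2:ℕ)*T^(3:ℕ) + S*T^(3:ℕ) - S^(2:ℕ)*T - S^(2:ℕ) - 3*S*T - T^(2:ℕ) - 2*S - 2*T - 1))/(S*T*(S + 1)*(T + 1)^(2:ℕ))) = (((S^(2:ℕ)*T^(3:ℕ) + 2*S*T^(3:ℕ) - S^(2:ℕ)*T + 2*S*T^(2:ℕ) + T^(3:ℕ) - S^(2:ℕ) - 2*S*T + T^(2:ℕ) - 2*S - T - 1))/(T*(S + 1)^(2:ℕ)*(T + 1)^(2:ℕ)), ((S*T + S + 1))/((S + 1)*(T + 1))) := fl_ga' pS d2 d6 d7 d4 (by ring) (by ring)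

theorem F2_d8 (S T : ℝ) (pA : 0 < (S + 1)) (pB : 0 < (T + 1)) :
    0 < (S + 1)^(2:ℕ)*(T + 1)^(3:ℕ) := (mul_pos (pow_pos pA 2) (pow_pos pB 3))

theorem F2_f5 (S T : ℝ) (pT : 0 < T) (d0 : 0 < (S + 1)) (d4 : 0 < (S + 1)*(T + 1)) (d7 : 0 < T*(S + 1)^(2:ℕ)*(T + 1)^(2:ℕ)) (d8 : 0 < (S + 1)^(2:ℕ)*(T + 1)^(3:ℕ)) :
    fl S T Letter.be (((S^(2:ℕ)*T^(3:ℕ) + 2*S*T^(3:ℕ) - S^(2:ℕ)*T + 2*S*T^(2:ℕ) + T^(3:ℕ) - S^(2:ℕ) - 2*S*T + T^(2:ℕ) - 2*S - T - 1))/(T*(S + 1)^(2:ℕ)*(T + 1)^(2:ℕ)), ((S*T + S + 1))/((S + 1)*(T + 1))) = ((S)/((S + 1)), ((2*S^(2:ℕ)*T^(2:ℕ) + 2*S^(2:ℕ)*T + 2*S*T^(2:ℕ) + S^(2:ℕ) + 4*S*T + T^(2:ℕ) + 2*S + 2*T + 1))/((S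 + 1)^(2:ℕ)*(T + 1)^(3:ℕ))) := fl_be' pT d7 d4 d0 d8 (by ring) (by ring)

theorem F2_rP (S T : ℝ) (f3 : fl S T Letter.al ((S)/((S + 1)), ((S^(3:ℕ)*T^(3:ℕ) - S^(3:ℕ)*T - 2*S^(2:ℕ)*T^(2:ℕ) - S*T^(3:ℕ) - S^(3:ℕ) - 5*S^(2:ℕ)*T - 5*S*T^(2:ℕ) - T^(3:ℕ) - 3*S^(2:ℕ) - 7*S*T - 3*T^(2:ℕ) - 3*S - 3*T - 1))/(S*T*(S + 1)^(2:ℕ)*(T + 1)^(3:ℕ))) = ((S*T)/((S + 1)^(2:ℕ)*(T + 1)), ((S^(2:ℕ)*T^(3:ℕ) + S*T^(3:ℕ) - S^(2:ℕ)*T - S^(2:ℕ) - 3*S*T - T^(2:ℕ) - 2*S - 2*T - 1))/(S*T*(S + 1)*(T + 1)^(2:ℕ)))) (f4 : fl S T Letter.ga ((S*T)/((S + 1)^(2:ℕ)*(T + 1)), ((S^(2:ℕ)*T^(3:ℕ) + S*T^(3:ℕ) - S^(2:ℕ)*T - S^(2:ℕ) - 3*S*T - T^(2:ℕ) - 2*S - 2*T - 1))/(S*T*(S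 + 1)*(T + 1)^(2:ℕ))) = (((S^(2:ℕ)*T^(3:ℕ) + 2*S*T^(3:ℕ) - S^(2:ℕ)*T + 2*S*T^(2:ℕ) + T^(3:ℕ) - S^(2:ℕ) - 2*S*T + T^(2:ℕ) - 2*S - T - 1))/(T*(S + 1)^(2:ℕ)*(T + 1)^(2:ℕ)), ((S*T + S + 1))/((S + 1)*(T + 1)))) (f5 : fl S T Letter.be (((S^(2:ℕ)*T^(3:ℕ) + 2*S*T^(3:ℕ) - S^(2:ℕ)*T + 2*S*T^(2:ℕ) + T^(3:ℕ) - S^(2:ℕ) - 2*S*T + T^(2:ℕ) - 2*S - T - 1))/(T*(S + 1)^(2:ℕ)*(T + 1)^(2:ℕ)), ((S*T + S + 1))/((S + 1)*(T + 1))) = ((S)/((S + 1)), ((2*S^(2:ℕ)*T^(2:ℕ) + 2*S^(2:ℕ)*T + 2*S*T^(2:ℕ) + S^(2:ℕ) + 4*S*T + T^(2:ℕ) + 2*S + 2*T + 1))/((S + 1)^(2:ℕ)*(T + 1)^(3:ℕ)))) :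
    run S T [Letter.al, Letter.ga, Letter.be] ((S)/((S + 1)), ((S^(3:ℕ)*T^(3:ℕ) - S^(3:ℕ)*T - 2*S^(2:ℕ)*T^(2:ℕ) - S*T^(3:ℕ) - S^(3:ℕ) - 5*S^(2:ℕ)*T - 5*S*T^(2:ℕ) - T^(3:ℕ) - 3*S^(2:ℕ) - 7*S*T - 3*T^(2:ℕ) - 3*S - 3*T - 1))/(S*T*(S + 1)^(2:ℕ)*(T + 1)^(3:ℕ))) = ((S)/((S + 1)), ((2*S^(2:ℕ)*T^(2:ℕ) + 2*S^(2:ℕ)*T + 2*S*T^(2:ℕ) + S^(2:ℕ) + 4*S*T + T^(2:ℕ) + 2*S + 2*T + 1))/((S + 1)^(2:ℕ)*(T + 1)^(3:ℕ))) := (run_cons' f3 (run_cons' f4 (run_cons' f5 run_nil')))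

theorem F2_q0 (S T : ℝ) (pS : 0 < S) (d0 : 0 < (S + 1)) :
    0 < (S)/((S + 1)) := div_pos pS d0

theorem F2_q1 (S T : ℝ) (d0 : 0 < (S + 1)) :
    (S)/((S + 1)) < 1 := rlt1 d0 one_pos d0 (by ring)

theorem F2_d9 (S T : ℝ) (c0 : 0 < S^(3:ℕ)*T^(3:ℕ) - S^(3:ℕ)*T - 2*S^(2:ℕ)*T^(2:ℕ) - S*T^(3:ℕ) - S^(3:ℕ) - 5*S^(2:ℕ)*T - 5*S*T^(2:ℕ) - T^(3:ℕ) - 3*S^(2:ℕ) - 7*S*T - 3*T^(2:ℕ) - 3*S - 3*T - 1) :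
    0 < (S^(3:ℕ)*T^(3:ℕ) - S^(3:ℕ)*T - 2*S^(2:ℕ)*T^(2:ℕ) - S*T^(3:ℕ) - S^(3:ℕ) - 5*S^(2:ℕ)*T - 5*S*T^(2:ℕ) - T^(3:ℕ) - 3*S^(2:ℕ) - 7*S*T - 3*T^(2:ℕ) - 3*S - 3*T - 1) := c0

theorem F2_q2 (S T : ℝ) (d5 : 0 < S*T*(S + 1)^(2:ℕ)*(T + 1)^(3:ℕ)) (d9 : 0 < (S^(3:ℕ)*T^(3:ℕ) - S^(3:ℕ)*T - 2*S^(2:ℕ)*T^(2:ℕ) - S*T^(3:ℕ) - S^(3:ℕ) - 5*S^(2:ℕ)*T - 5*S*T^(2:ℕ) - T^(3:ℕ) - 3*S^(2:ℕ) - 7*S*T - 3*T^(2:ℕ) - 3*S - 3*T - 1)) :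
    0 < ((S^(3:ℕ)*T^(3:ℕ) - S^(3:ℕ)*T - 2*S^(2:ℕ)*T^(2:ℕ) - S*T^(3:ℕ) - S^(3:ℕ) - 5*S^(2:ℕ)*T - 5*S*T^(2:ℕ) - T^(3:ℕ) - 3*S^(2:ℕ) - 7*S*T - 3*T^(2:ℕ) - 3*S - 3*T - 1))/(S*T*(S + 1)^(2:ℕ)*(T + 1)^(3:ℕ)) := div_pos d9 d5

theorem F2_d10 (S T : ℝ) (c1 : 0 < S^(3:ℕ)*T^(4:ℕ) + 2*S^(3:ℕ)*T^(3:ℕ) + 2*S^(2:ℕ)*T^(4:ℕ) + 3*S^(3:ℕ)*T^(2:ℕ) + 6*S^(2:ℕ)*T^(3:ℕ) + S*T^(4:ℕ) + 2*S^(3:ℕ)*T + 8*S^(2:ℕ)*T^(2:ℕ) + 4*S*T^(3:ℕ) + S^(3:ℕ) + 7*S^(2:ℕ)*T + 8*S*T^(2:ℕ) + T^(3:ℕ) + 3*S^(2:ℕ) + 8*S*T + 3*T^(2:ℕ) + 3*S + 3*T + 1) :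
    0 < (S^(3:ℕ)*T^(4:ℕ) + 2*S^(3:ℕ)*T^(3:ℕ) + 2*S^(2:ℕ)*T^(4:ℕ) + 3*S^(3:ℕ)*T^(2:ℕ) + 6*S^(2:ℕ)*T^(3:ℕ) + S*T^(4:ℕ) + 2*S^(3:ℕ)*T + 8*S^(2:ℕ)*T^(2:ℕ) + 4*S*T^(3:ℕ) + S^(3:ℕ) + 7*S^(2:ℕ)*T + 8*S*T^(2:ℕ) + T^(3:ℕ) + 3*S^(2:ℕ) + 8*S*T + 3*T^(2:ℕ) + 3*S + 3*T + 1) := c1

theorem F2_q3 (S T : ℝ) (d5 : 0 < S*T*(S + 1)^(2:ℕ)*(T + 1)^(3:ℕ)) (d10 : 0 < (S^(3:ℕ)*T^(4:ℕ) + 2*S^(3:ℕ)*T^(3:ℕ) + 2*S^(2:ℕ)*T^(4:ℕ) + 3*S^(3:ℕ)*T^(2:ℕ) + 6*S^(2:ℕ)*T^(3:ℕ) + S*T^(4:ℕ) + 2*S^(3:ℕ)*T + 8*S^(2:ℕ)*T^(2:ℕ) + 4*S*T^(3:ℕ) + S^(3:ℕ) + 7*S^(2:ℕ)*T + 8*S*T^(2:ℕ) + T^(3:ℕ) + 3*S^(2:ℕ) + 8*S*T + 3*T^(2:ℕ) + 3*S + 3*T + 1)) :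
    ((S^(3:ℕ)*T^(3:ℕ) - S^(3:ℕ)*T - 2*S^(2:ℕ)*T^(2:ℕ) - S*T^(3:ℕ) - S^(3:ℕ) - 5*S^(2:ℕ)*T - 5*S*T^(2:ℕ) - T^(3:ℕ) - 3*S^(2:ℕ) - 7*S*T - 3*T^(2:ℕ) - 3*S - 3*T - 1))/(S*T*(S + 1)^(2:ℕ)*(T + 1)^(3:ℕ)) < 1 := rlt1 d5 d10 d5 (by ring)

theorem F2_sP (S T : ℝ) (q0 : 0 < (S)/((S + 1))) (q1 : (S)/((S + 1)) < 1) (q2 : 0 < ((S^(3:ℕ)*T^(3:ℕ) - S^(3:ℕ)*T - 2*S^(2:ℕ)*T^(2:ℕ) - S*T^(3:ℕ) - S^(3:ℕ) - 5*S^(2:ℕ)*T - 5*S*T^(2:ℕ) - T^(3:ℕ) - 3*S^(2:ℕ) - 7*S*T - 3*T^(2:ℕ) - 3*S - 3*T - 1))/(S*T*(S + 1)^(2:ℕ)*(T + 1)^(3:ℕ))) (q3 : ((S^(3:ℕ)*T^(3:ℕ) - S^(3:ℕ)*T - 2*S^(2:ℕ)*T^(2:ℕ) - S*T^(3:ℕ) - S^(3:ℕ) - 5*S^(2:ℕ)*T - 5*S*T^(2:ℕ) - T^(3:ℕ)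 - 3*S^(2:ℕ) - 7*S*T - 3*T^(2:ℕ) - 3*S - 3*T - 1))/(S*T*(S + 1)^(2:ℕ)*(T + 1)^(3:ℕ)) < 1) :
    Sq ((S)/((S + 1)), ((S^(3:ℕ)*T^(3:ℕ) - S^(3:ℕ)*T - 2*S^(2:ℕ)*T^(2:ℕ) - S*T^(3:ℕ) - S^(3:ℕ) - 5*S^(2:ℕ)*T - 5*S*T^(2:ℕ) - T^(3:ℕ) - 3*S^(2:ℕ) - 7*S*T - 3*T^(2:ℕ) - 3*S - 3*T - 1))/(S*T*(S + 1)^(2:ℕ)*(T + 1)^(3:ℕ))) := ⟨⟨q0, q1⟩, q2, q3⟩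

theorem F2_d11 (S T : ℝ) (pS : 0 < S) (pT : 0 < T) :
    0 < S*T := (mul_pos pS pT)

theorem F2_g0 (S T : ℝ) (d0 : 0 < (S + 1)) (d11 : 0 < S*T) :
    S < (S + T + 1) * ((S)/((S + 1))) := rgt d0 d11 d0 (by ring)

theorem F2_d12 (S T : ℝ) (pU : 0 < (S + T + 1)) (c2 : 0 < 2*S^(2:ℕ)*T^(2:ℕ) + 2*S^(2:ℕ)*T + 2*S*T^(2:ℕ) + S^(2:ℕ) + 4*S*T + T^(2:ℕ) + 2*S + 2*T + 1) :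
    0 < (S + T + 1)*(2*S^(2:ℕ)*T^(2:ℕ) + 2*S^(2:ℕ)*T + 2*S*T^(2:ℕ) + S^(2:ℕ) + 4*S*T + T^(2:ℕ) + 2*S + 2*T + 1) := (mul_pos pU c2)

theorem F2_d13 (S T : ℝ) (pS : 0 < S) (pT : 0 < T) (pA : 0 < (S + 1)) (pB : 0 < (T + 1)) :
    0 < S*T*(S + 1)^(2:ℕ)*(T + 1)^(2:ℕ) := (mul_pos (mul_pos (mul_pos pS pT) (pow_pos pA 2)) (pow_pos pB 2))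

theorem F2_g1 (S T : ℝ) (d5 : 0 < S*T*(S + 1)^(2:ℕ)*(T + 1)^(3:ℕ)) (d12 : 0 < (S + T + 1)*(2*S^(2:ℕ)*T^(2:ℕ) + 2*S^(2:ℕ)*T + 2*S*T^(2:ℕ) + S^(2:ℕ) + 4*S*T + T^(2:ℕ) + 2*S + 2*T + 1)) (d13 : 0 < S*T*(S + 1)^(2:ℕ)*(T + 1)^(2:ℕ)) :
    (T + 1) * (((S^(3:ℕ)*T^(3:ℕ) - S^(3:ℕ)*T - 2*S^(2:ℕ)*T^(2:ℕ) - S*T^(3:ℕ) - S^(3:ℕ) - 5*S^(2:ℕ)*T - 5*S*T^(2:ℕ) - T^(3:ℕ) - 3*S^(2:ℕ) - 7*S*T - 3*T^(2:ℕ) - 3*S - 3*T - 1))/(S*T*(S + 1)^(2:ℕ)*(T + 1)^(3:ℕ))) < 1 := rlt d5 d12 d13 (by ring)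

theorem F2_oP_0 (S T : ℝ) (g0 : S < (S + T + 1) * ((S)/((S + 1)))) (g1 : (T + 1) * (((S^(3:ℕ)*T^(3:ℕ) - S^(3:ℕ)*T - 2*S^(2:ℕ)*T^(2:ℕ) - S*T^(3:ℕ) - S^(3:ℕ) - 5*S^(2:ℕ)*T - 5*S*T^(2:ℕ) - T^(3:ℕ) - 3*S^(2:ℕ) - 7*S*T - 3*T^(2:ℕ) - 3*S - 3*T - 1))/(S*T*(S + 1)^(2:ℕ)*(T + 1)^(3:ℕ))) < 1) :
    cond S T Letter.al ((S)/((S + 1)), ((S^(3:ℕ)*T^(3:ℕ) - S^(3:ℕ)*T - 2*S^(2:ℕ)*T^(2:ℕ) - S*T^(3:ℕ) - S^(3:ℕ) - 5*S^(2:ℕ)*T - 5*S*T^(2:ℕ) - T^(3:ℕ) - 3*S^(2:ℕ) - 7*S*T - 3*T^(2:ℕ) - 3*S - 3*T - 1))/(S*T*(S + 1)^(2:ℕ)*(T + 1)^(3:ℕ))) := ⟨g0, g1⟩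

theorem F2_d14 (S T : ℝ) (pS : 0 < S) (c3 : 0 < S^(2:ℕ)*T + S^(2:ℕ) + S*T - T^(2:ℕ) + 2*S + 1) :
    0 < S*(S^(2:ℕ)*T + S^(2:ℕ) + S*T - T^(2:ℕ) + 2*S + 1) := (mul_pos pS c3)

theorem F2_g2 (S T : ℝ) (d2 : 0 < (S + 1)^(2:ℕ)*(T + 1)) (d14 : 0 < S*(S^(2:ℕ)*T + S^(2:ℕ) + S*T - T^(2:ℕ) + 2*S + 1)) :
    (S + T + 1) * ((S*T)/((S + 1)^(2:ℕ)*(T + 1))) < S := rlt d2 d14 d2 (by ring)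

theorem F2_oP_1 (S T : ℝ) (g2 : (S + T + 1) * ((S*T)/((S + 1)^(2:ℕ)*(T + 1))) < S) :
    cond S T Letter.ga ((S*T)/((S + 1)^(2:ℕ)*(T + 1)), ((S^(2:ℕ)*T^(3:ℕ) + S*T^(3:ℕ) - S^(2:ℕ)*T - S^(2:ℕ) - 3*S*T - T^(2:ℕ) - 2*S - 2*T - 1))/(S*T*(S + 1)*(T + 1)^(2:ℕ))) := g2

theorem F2_d15 (S T : ℝ) (c4 : 0 < S^(2:ℕ)*T^(4:ℕ) - 2*S^(3:ℕ)*T^(2:ℕ) + S^(2:ℕ)*T^(3:ℕ) + 2*S*T^(4:ℕ) - 2*S^(3:ℕ)*T - 3*S^(2:ℕ)*T^(2:ℕ) + 4*S*T^(3:ℕ) + T^(4:ℕ) - S^(3:ℕ) - 6*S^(2:ℕ)*T - S*T^(2:ℕ) + 2*T^(3:ℕ) - 3*S^(2:ℕ) - 6*S*T - 3*S - 2*T - 1) :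
    0 < (S^(2:ℕ)*T^(4:ℕ) - 2*S^(3:ℕ)*T^(2:ℕ) + S^(2:ℕ)*T^(3:ℕ) + 2*S*T^(4:ℕ) - 2*S^(3:ℕ)*T - 3*S^(2:ℕ)*T^(2:ℕ) + 4*S*T^(3:ℕ) + T^(4:ℕ) - S^(3:ℕ) - 6*S^(2:ℕ)*T - S*T^(2:ℕ) + 2*T^(3:ℕ) - 3*S^(2:ℕ) - 6*S*T - 3*S - 2*T - 1) := c4

theorem F2_g3 (S T : ℝ) (d7 : 0 < T*(S + 1)^(2:ℕ)*(T + 1)^(2:ℕ)) (d15 : 0 < (S^(2:ℕ)*T^(4:ℕ) - 2*S^(3:ℕ)*T^(2:ℕ) + S^(2:ℕ)*T^(3:ℕ) + 2*S*T^(4:ℕ) - 2*S^(3:ℕ)*T - 3*S^(2:ℕ)*T^(2:ℕ) + 4*S*T^(3:ℕ) + T^(4:ℕ) - S^(3:ℕ) - 6*S^(2:ℕ)*T - S*T^(2:ℕ) + 2*T^(3:ℕ) - 3*S^(2:ℕ) - 6*S*T - 3*S - 2*T - 1)) :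
    S < (S + T + 1) * (((S^(2:ℕ)*T^(3:ℕ) + 2*S*T^(3:ℕ) - S^(2:ℕ)*T + 2*S*T^(2:ℕ) + T^(3:ℕ) - S^(2:ℕ) - 2*S*T + T^(2:ℕ) - 2*S - T - 1))/(T*(S + 1)^(2:ℕ)*(T + 1)^(2:ℕ))) := rgt d7 d15 d7 (by ring)

theorem F2_g4 (S T : ℝ) (d0 : 0 < (S + 1)) (d4 : 0 < (S + 1)*(T + 1)) (d11 : 0 < S*T) :
    1 < (T + 1) * (((S*T + S + 1))/((S + 1)*(T + 1))) := rgt d4 d11 d0 (by ring)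

theorem F2_oP_2 (S T : ℝ) (g3 : S < (S + T + 1) * (((S^(2:ℕ)*T^(3:ℕ) + 2*S*T^(3:ℕ) - S^(2:ℕ)*T + 2*S*T^(2:ℕ) + T^(3:ℕ) - S^(2:ℕ) - 2*S*T + T^(2:ℕ) - 2*S - T - 1))/(T*(S + 1)^(2:ℕ)*(T + 1)^(2:ℕ)))) (g4 : 1 < (T + 1) * (((S*T + S + 1))/((S + 1)*(T + 1)))) :
    cond S T Letter.be (((S^(2:ℕ)*T^(3:ℕ) + 2*S*T^(3:ℕ) - S^(2:ℕ)*T + 2*S*T^(2:ℕ) + T^(3:ℕ) - S^(2:ℕ) - 2*S*T + T^(2:ℕ) - 2*S - T - 1))/(T*(S + 1)^(2:ℕ)*(T + 1)^(2:ℕ)), ((S*T + S + 1))/((S + 1)*(T + 1))) := ⟨g3, g4⟩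

theorem F2_oP (S T : ℝ) (f3 : fl S T Letter.al ((S)/((S + 1)), ((S^(3:ℕ)*T^(3:ℕ) - S^(3:ℕ)*T - 2*S^(2:ℕ)*T^(2:ℕ) - S*T^(3:ℕ) - S^(3:ℕ) - 5*S^(2:ℕ)*T - 5*S*T^(2:ℕ) - T^(3:ℕ) - 3*S^(2:ℕ) - 7*S*T - 3*T^(2:ℕ) - 3*S - 3*T - 1))/(S*T*(S + 1)^(2:ℕ)*(T + 1)^(3:ℕ))) = ((S*T)/((S + 1)^(2:ℕ)*(T + 1)), ((S^(2:ℕ)*T^(3:ℕ) + S*T^(3:ℕ) - S^(2:ℕ)*T - S^(2:ℕ) - 3*S*T - T^(2:ℕ) - 2*S - 2*T - 1))/(S*T*(S + 1)*(T + 1)^(2:ℕ)))) (f4 : fl S T Letter.ga ((S*T)/((S + 1)^(2:ℕ)*(T + 1)), ((S^(2:ℕ)*T^(3:ℕ) + S*T^(3:ℕ) - S^(2:ℕ)*T - S^(2:ℕ) - 3*S*T - T^(2:ℕ) - 2*S - 2*T - 1))/(S*T*(S + 1)*(T + 1)^(2:ℕ))) = (((S^(2:ℕ)*T^(3:ℕ) + 2*S*T^(3:ℕ) - S^(2:ℕ)*T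 + 2*S*T^(2:ℕ) + T^(3:ℕ) - S^(2:ℕ) - 2*S*T + T^(2:ℕ) - 2*S - T - 1))/(T*(S + 1)^(2:ℕ)*(T + 1)^(2:ℕ)), ((S*T + S + 1))/((S + 1)*(T + 1)))) (oP_0 : cond S T Letter.al ((S)/((S + 1)), ((S^(3:ℕ)*T^(3:ℕ) - S^(3:ℕ)*T - 2*S^(2:ℕ)*T^(2:ℕ) - S*T^(3:ℕ) - S^(3:ℕ) - 5*S^(2:ℕ)*T - 5*S*T^(2:ℕ) - T^(3:ℕ) - 3*S^(2:ℕ) - 7*S*T - 3*T^(2:ℕ) - 3*S - 3*T - 1))/(S*T*(S + 1)^(2:ℕ)*(T + 1)^(3:ℕ)))) (oP_1 : cond S T Letter.ga ((S*T)/((S + 1)^(2:ℕ)*(T + 1)), ((S^(2:ℕ)*T^(3:ℕ) + S*T^(3:ℕ) - S^(2:ℕ)*T - S^(2:ℕ) - 3*S*T - T^(2:ℕ) - 2*S - 2*T - 1))/(S*T*(S + 1)*(T + 1)^(2:ℕ)))) (oP_2 : cond S T Letter.be (((S^(2:ℕ)*T^(3:ℕ) + 2*S*T^(3:ℕ) - S^(2:ℕ)*T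 + 2*S*T^(2:ℕ) + T^(3:ℕ) - S^(2:ℕ) - 2*S*T + T^(2:ℕ) - 2*S - T - 1))/(T*(S + 1)^(2:ℕ)*(T + 1)^(2:ℕ)), ((S*T + S + 1))/((S + 1)*(T + 1)))) :
    okc S T [Letter.al, Letter.ga, Letter.be] ((S)/((S + 1)), ((S^(3:ℕ)*T^(3:ℕ) - S^(3:ℕ)*T - 2*S^(2:ℕ)*T^(2:ℕ) - S*T^(3:ℕ) - S^(3:ℕ) - 5*S^(2:ℕ)*T - 5*S*T^(2:ℕ) - T^(3:ℕ) - 3*S^(2:ℕ) - 7*S*T - 3*T^(2:ℕ) - 3*S - 3*T - 1))/(S*T*(S + 1)^(2:ℕ)*(T + 1)^(3:ℕ))) := (okc_cons' oP_0 f3 (okc_cons' oP_1 f4 (okc_last' oP_2)))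

theorem F2_d16 (S T : ℝ) (pS : 0 < S) (pT : 0 < T) (pA : 0 < (S + 1)) (pB : 0 < (T + 1)) :
    0 < S^(2:ℕ)*T^(2:ℕ)*(S + 1)^(2:ℕ)*(T + 1)^(3:ℕ) := (mul_pos (mul_pos (mul_pos (pow_pos pS 2) (pow_pos pT 2)) (pow_pos pA 2)) (pow_pos pB 3))

theorem F2_d17 (S T : ℝ) (pS : 0 < S) (pT : 0 < T) (pA : 0 < (S + 1)) (pB : 0 < (T + 1)) :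
    0 < S^(2:ℕ)*T^(2:ℕ)*(S + 1)*(T + 1)^(2:ℕ) := (mul_pos (mul_pos (mul_pos (pow_pos pS 2) (pow_pos pT 2)) pA) (pow_pos pB 2))

theorem F2_f6 (S T : ℝ) (pS : 0 < S) (pT : 0 < T) (d0 : 0 < (S + 1)) (d2 : 0 < (S + 1)^(2:ℕ)*(T + 1)) (d16 : 0 < S^(2:ℕ)*T^(2:ℕ)*(S + 1)^(2:ℕ)*(T + 1)^(3:ℕ)) (d17 : 0 < S^(2:ℕ)*T^(2:ℕ)*(S + 1)*(T + 1)^(2:ℕ)) :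
    fl S T Letter.al ((S)/((S + 1)), ((S^(4:ℕ)*T^(4:ℕ) + S^(4:ℕ)*T^(3:ℕ) + S^(3:ℕ)*T^(4:ℕ) + S^(4:ℕ)*T^(2:ℕ) + 3*S^(3:ℕ)*T^(3:ℕ) + S^(2:ℕ)*T^(4:ℕ) + S^(4:ℕ)*T + 5*S^(3:ℕ)*T^(2:ℕ) + 5*S^(2:ℕ)*T^(3:ℕ) + S*T^(4:ℕ) + S^(4:ℕ) + 7*S^(3:ℕ)*T + 13*S^(2:ℕ)*T^(2:ℕ) + 7*S*T^(3:ℕ) + T^(4:ℕ) + 4*S^(3:ℕ) + 15*S^(2:ℕ)*T + 15*S*T^(2:ℕ) + 4*T^(3:ℕ) + 6*S^(2:ℕ) + 13*S*T + 6*T^(2:ℕ) + 4*S + 4*T + 1))/(S^(2:ℕ)*T^(2:ℕ)*(S + 1)^(2:ℕ)*(T + 1)^(3:ℕ))) = ((S*T)/((S + 1)^(2:ℕ)*(T + 1)), ((S^(3:ℕ)*T^(4:ℕ) + S^(3:ℕ)*T^(3:ℕ) + S^(2:ℕ)*T^(4:ℕ) + S^(3:ℕ)*T^(2:ℕ) + 2*S^(2:ℕ)*T^(3:ℕ) + S^(3:ℕ)*T + 3*S^(2:ℕ)*T^(2:ℕ) + S*T^(3:ℕ) + S^(3:ℕ) + 5*S^(2:ℕ)*T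 + 5*S*T^(2:ℕ) + T^(3:ℕ) + 3*S^(2:ℕ) + 7*S*T + 3*T^(2:ℕ) + 3*S + 3*T + 1))/(S^(2:ℕ)*T^(2:ℕ)*(S + 1)*(T + 1)^(2:ℕ))) := fl_al' pS pT d0 d16 d2 d17 (by ring) (by ring)

theorem F2_d18 (S T : ℝ) (pS : 0 < S) (pT : 0 < T) (pA : 0 < (S + 1)) (pB : 0 < (T + 1)) :
    0 < S*T^(2:ℕ)*(S + 1)^(2:ℕ)*(T + 1)^(2:ℕ) := (mul_pos (mul_pos (mul_pos pS (pow_pos pT 2)) (pow_pos pA 2)) (pow_pos pB 2))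

theorem F2_f7 (S T : ℝ) (pS : 0 < S) (d2 : 0 < (S + 1)^(2:ℕ)*(T + 1)) (d4 : 0 < (S + 1)*(T + 1)) (d17 : 0 < S^(2:ℕ)*T^(2:ℕ)*(S + 1)*(T + 1)^(2:ℕ)) (d18 : 0 < S*T^(2:ℕ)*(S + 1)^(2:ℕ)*(T + 1)^(2:ℕ)) :
    fl S T Letter.ga ((S*T)/((S + 1)^(2:ℕ)*(T + 1)), ((S^(3:ℕ)*T^(4:ℕ) + S^(3:ℕ)*T^(3:ℕ) + S^(2:ℕ)*T^(4:ℕ) + S^(3:ℕ)*T^(2:ℕ) + 2*S^(2:ℕ)*T^(3:ℕ) + S^(3:ℕ)*T + 3*S^(2:ℕ)*T^(2:ℕ) + S*T^(3:ℕ) + S^(3:ℕ) + 5*S^(2:ℕ)*T + 5*S*T^(2:ℕ) + T^(3:ℕ) + 3*S^(2:ℕ) + 7*S*T + 3*T^(2:ℕ) + 3*S + 3*T + 1))/(S^(2:ℕ)*T^(2:ℕ)*(S + 1)*(T + 1)^(2:ℕ))) = (((S^(3:ℕ)*T^(4:ℕ) + S^(3:ℕ)*T^(3:ℕ) + 2*S^(2:ℕ)*T^(4:ℕ) + S^(3:ℕ)*T^(2:ℕ) + 4*S^(2:ℕ)*T^(3:ℕ)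 + S*T^(4:ℕ) + S^(3:ℕ)*T + 4*S^(2:ℕ)*T^(2:ℕ) + 3*S*T^(3:ℕ) + S^(3:ℕ) + 5*S^(2:ℕ)*T + 6*S*T^(2:ℕ) + T^(3:ℕ) + 3*S^(2:ℕ) + 7*S*T + 3*T^(2:ℕ) + 3*S + 3*T + 1))/(S*T^(2:ℕ)*(S + 1)^(2:ℕ)*(T + 1)^(2:ℕ)), ((S*T + S + 1))/((S + 1)*(T + 1))) := fl_ga' pS d2 d17 d18 d4 (by ring) (by ring)

theorem F2_f8 (S T : ℝ) (pT : 0 < T) (d0 : 0 < (S + 1)) (d4 : 0 < (S + 1)*(T + 1)) (d5 : 0 < S*T*(S + 1)^(2:ℕ)*(T + 1)^(3:ℕ)) (d18 : 0 < S*T^(2:ℕ)*(S + 1)^(2:ℕ)*(T + 1)^(2:ℕ)) :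
    fl S T Letter.be (((S^(3:ℕ)*T^(4:ℕ) + S^(3:ℕ)*T^(3:ℕ) + 2*S^(2:ℕ)*T^(4:ℕ) + S^(3:ℕ)*T^(2:ℕ) + 4*S^(2:ℕ)*T^(3:ℕ) + S*T^(4:ℕ) + S^(3:ℕ)*T + 4*S^(2:ℕ)*T^(2:ℕ) + 3*S*T^(3:ℕ) + S^(3:ℕ) + 5*S^(2:ℕ)*T + 6*S*T^(2:ℕ) + T^(3:ℕ) + 3*S^(2:ℕ) + 7*S*T + 3*T^(2:ℕ) + 3*S + 3*T + 1))/(S*T^(2:ℕ)*(S + 1)^(2:ℕ)*(T + 1)^(2:ℕ)), ((S*T + S + 1))/((S + 1)*(T + 1))) = ((S)/((S + 1)), ((S^(3:ℕ)*T^(3:ℕ) - S^(3:ℕ)*T - 2*S^(2:ℕ)*T^(2:ℕ) - S*T^(3:ℕ) - S^(3:ℕ) - 5*S^(2:ℕ)*T - 5*S*T^(2:ℕ) - T^(3:ℕ) - 3*S^(2:ℕ) - 7*S*T - 3*T^(2:ℕ) - 3*S - 3*T - 1))/(S*T*(S + 1)^(2:ℕ)*(T + 1)^(3:ℕ))) := fl_be' pT d18 d4 d0 d5 (by ring) (by ring)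

theorem F2_d19 (S T : ℝ) (c5 : 0 < S^(4:ℕ)*T^(4:ℕ) + S^(4:ℕ)*T^(3:ℕ) + S^(3:ℕ)*T^(4:ℕ) + S^(4:ℕ)*T^(2:ℕ) + 3*S^(3:ℕ)*T^(3:ℕ) + S^(2:ℕ)*T^(4:ℕ) + S^(4:ℕ)*T + 5*S^(3:ℕ)*T^(2:ℕ) + 5*S^(2:ℕ)*T^(3:ℕ) + S*T^(4:ℕ) + S^(4:ℕ) + 7*S^(3:ℕ)*T + 13*S^(2:ℕ)*T^(2:ℕ) + 7*S*T^(3:ℕ) + T^(4:ℕ) + 4*S^(3:ℕ) + 15*S^(2:ℕ)*T + 15*S*T^(2:ℕ) + 4*T^(3:ℕ) + 6*S^(2:ℕ) + 13*S*T + 6*T^(2:ℕ) + 4*S + 4*T + 1) :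
    0 < (S^(4:ℕ)*T^(4:ℕ) + S^(4:ℕ)*T^(3:ℕ) + S^(3:ℕ)*T^(4:ℕ) + S^(4:ℕ)*T^(2:ℕ) + 3*S^(3:ℕ)*T^(3:ℕ) + S^(2:ℕ)*T^(4:ℕ) + S^(4:ℕ)*T + 5*S^(3:ℕ)*T^(2:ℕ) + 5*S^(2:ℕ)*T^(3:ℕ) + S*T^(4:ℕ) + S^(4:ℕ) + 7*S^(3:ℕ)*T + 13*S^(2:ℕ)*T^(2:ℕ) + 7*S*T^(3:ℕ) + T^(4:ℕ) + 4*S^(3:ℕ) + 15*S^(2:ℕ)*T + 15*S*T^(2:ℕ) + 4*T^(3:ℕ) + 6*S^(2:ℕ) + 13*S*T + 6*T^(2:ℕ) + 4*S + 4*T + 1) := c5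

theorem F2_q4 (S T : ℝ) (d16 : 0 < S^(2:ℕ)*T^(2:ℕ)*(S + 1)^(2:ℕ)*(T + 1)^(3:ℕ)) (d19 : 0 < (S^(4:ℕ)*T^(4:ℕ) + S^(4:ℕ)*T^(3:ℕ) + S^(3:ℕ)*T^(4:ℕ) + S^(4:ℕ)*T^(2:ℕ) + 3*S^(3:ℕ)*T^(3:ℕ) + S^(2:ℕ)*T^(4:ℕ) + S^(4:ℕ)*T + 5*S^(3:ℕ)*T^(2:ℕ) + 5*S^(2:ℕ)*T^(3:ℕ) + S*T^(4:ℕ) + S^(4:ℕ) + 7*S^(3:ℕ)*T + 13*S^(2:ℕ)*T^(2:ℕ) + 7*S*T^(3:ℕ) + T^(4:ℕ) + 4*S^(3:ℕ) + 15*S^(2:ℕ)*T + 15*S*T^(2:ℕ) + 4*T^(3:ℕ) + 6*S^(2:ℕ) + 13*S*T + 6*T^(2:ℕ) + 4*S + 4*T + 1)) :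
    0 < ((S^(4:ℕ)*T^(4:ℕ) + S^(4:ℕ)*T^(3:ℕ) + S^(3:ℕ)*T^(4:ℕ) + S^(4:ℕ)*T^(2:ℕ) + 3*S^(3:ℕ)*T^(3:ℕ) + S^(2:ℕ)*T^(4:ℕ) + S^(4:ℕ)*T + 5*S^(3:ℕ)*T^(2:ℕ) + 5*S^(2:ℕ)*T^(3:ℕ) + S*T^(4:ℕ) + S^(4:ℕ) + 7*S^(3:ℕ)*T + 13*S^(2:ℕ)*T^(2:ℕ) + 7*S*T^(3:ℕ) + T^(4:ℕ) + 4*S^(3:ℕ) + 15*S^(2:ℕ)*T + 15*S*T^(2:ℕ) + 4*T^(3:ℕ) + 6*S^(2:ℕ) + 13*S*T + 6*T^(2:ℕ) + 4*S + 4*T + 1))/(S^(2:ℕ)*T^(2:ℕ)*(S + 1)^(2:ℕ)*(T + 1)^(3:ℕ)) := div_pos d19 d16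

theorem F2_d20 (S T : ℝ) (c6 : 0 < S^(4:ℕ)*T^(5:ℕ) + 2*S^(4:ℕ)*T^(4:ℕ) + 2*S^(3:ℕ)*T^(5:ℕ) + 2*S^(4:ℕ)*T^(3:ℕ) + 5*S^(3:ℕ)*T^(4:ℕ) + S^(2:ℕ)*T^(5:ℕ) + 3*S^(3:ℕ)*T^(3:ℕ) + 2*S^(2:ℕ)*T^(4:ℕ) - S^(4:ℕ)*T - 3*S^(3:ℕ)*T^(2:ℕ) - 2*S^(2:ℕ)*T^(3:ℕ) - S*T^(4:ℕ) - S^(4:ℕ) - 7*S^(3:ℕ)*T - 12*S^(2:ℕ)*T^(2:ℕ) - 7*S*T^(3:ℕ) - T^(4:ℕ) - 4*S^(3:ℕ) - 15*S^(2:ℕ)*T - 15*S*T^(2:ℕ) - 4*T^(3:ℕ) - 6*S^(2:ℕ) - 13*S*T - 6*T^(2:ℕ) - 4*S - 4*T - 1) :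
    0 < (S^(4:ℕ)*T^(5:ℕ) + 2*S^(4:ℕ)*T^(4:ℕ) + 2*S^(3:ℕ)*T^(5:ℕ) + 2*S^(4:ℕ)*T^(3:ℕ) + 5*S^(3:ℕ)*T^(4:ℕ) + S^(2:ℕ)*T^(5:ℕ) + 3*S^(3:ℕ)*T^(3:ℕ) + 2*S^(2:ℕ)*T^(4:ℕ) - S^(4:ℕ)*T - 3*S^(3:ℕ)*T^(2:ℕ) - 2*S^(2:ℕ)*T^(3:ℕ) - S*T^(4:ℕ) - S^(4:ℕ) - 7*S^(3:ℕ)*T - 12*S^(2:ℕ)*T^(2:ℕ) - 7*S*T^(3:ℕ) - T^(4:ℕ) - 4*S^(3:ℕ) - 15*S^(2:ℕ)*T - 15*S*T^(2:ℕ) - 4*T^(3:ℕ) - 6*S^(2:ℕ) - 13*S*T - 6*T^(2:ℕ) - 4*S - 4*T - 1) := c6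

theorem F2_q5 (S T : ℝ) (d16 : 0 < S^(2:ℕ)*T^(2:ℕ)*(S + 1)^(2:ℕ)*(T + 1)^(3:ℕ)) (d20 : 0 < (S^(4:ℕ)*T^(5:ℕ) + 2*S^(4:ℕ)*T^(4:ℕ) + 2*S^(3:ℕ)*T^(5:ℕ) + 2*S^(4:ℕ)*T^(3:ℕ) + 5*S^(3:ℕ)*T^(4:ℕ) + S^(2:ℕ)*T^(5:ℕ) + 3*S^(3:ℕ)*T^(3:ℕ) + 2*S^(2:ℕ)*T^(4:ℕ) - S^(4:ℕ)*T - 3*S^(3:ℕ)*T^(2:ℕ) - 2*S^(2:ℕ)*T^(3:ℕ) - S*T^(4:ℕ) - S^(4:ℕ) - 7*S^(3:ℕ)*T - 12*S^(2:ℕ)*T^(2:ℕ) - 7*S*T^(3:ℕ) - T^(4:ℕ) - 4*S^(3:ℕ) - 15*S^(2:ℕ)*T - 15*S*T^(2:ℕ) - 4*T^(3:ℕ) - 6*S^(2:ℕ) - 13*S*T - 6*T^(2:ℕ) - 4*S - 4*T - 1)) :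
    ((S^(4:ℕ)*T^(4:ℕ) + S^(4:ℕ)*T^(3:ℕ) + S^(3:ℕ)*T^(4:ℕ) + S^(4:ℕ)*T^(2:ℕ) + 3*S^(3:ℕ)*T^(3:ℕ) + S^(2:ℕ)*T^(4:ℕ) + S^(4:ℕ)*T + 5*S^(3:ℕ)*T^(2:ℕ) + 5*S^(2:ℕ)*T^(3:ℕ) + S*T^(4:ℕ) + S^(4:ℕ) + 7*S^(3:ℕ)*T + 13*S^(2:ℕ)*T^(2:ℕ) + 7*S*T^(3:ℕ) + T^(4:ℕ) + 4*S^(3:ℕ) + 15*S^(2:ℕ)*T + 15*S*T^(2:ℕ) + 4*T^(3:ℕ) + 6*S^(2:ℕ) + 13*S*T + 6*T^(2:ℕ) + 4*S + 4*T + 1))/(S^(2:ℕ)*T^(2:ℕ)*(S + 1)^(2:ℕ)*(T + 1)^(3:ℕ)) < 1 := rlt1 d16 d20 d16 (by ring)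

theorem F2_sQ (S T : ℝ) (q0 : 0 < (S)/((S + 1))) (q1 : (S)/((S + 1)) < 1) (q4 : 0 < ((S^(4:ℕ)*T^(4:ℕ) + S^(4:ℕ)*T^(3:ℕ) + S^(3:ℕ)*T^(4:ℕ) + S^(4:ℕ)*T^(2:ℕ) + 3*S^(3:ℕ)*T^(3:ℕ) + S^(2:ℕ)*T^(4:ℕ) + S^(4:ℕ)*T + 5*S^(3:ℕ)*T^(2:ℕ) + 5*S^(2:ℕ)*T^(3:ℕ) + S*T^(4:ℕ) + S^(4:ℕ) + 7*S^(3:ℕ)*T + 13*S^(2:ℕ)*T^(2:ℕ) + 7*S*T^(3:ℕ) + T^(4:ℕ) + 4*S^(3:ℕ) + 15*S^(2:ℕ)*T + 15*S*T^(2:ℕ) + 4*T^(3:ℕ) + 6*S^(2:ℕ) + 13*S*T + 6*T^(2:ℕ) + 4*S + 4*T + 1))/(S^(2:ℕ)*T^(2:ℕ)*(S + 1)^(2:ℕ)*(T + 1)^(3:ℕ))) (q5 : ((S^(4:ℕ)*T^(4:ℕ) + S^(4:ℕ)*T^(3:ℕ) + S^(3:ℕ)*T^(4:ℕ) + S^(4:ℕ)*T^(2:ℕ) + 3*S^(3:ℕ)*T^(3:ℕ) + S^(2:ℕ)*T^(4:ℕ) + S^(4:ℕ)*T + 5*S^(3:ℕ)*T^(2:ℕ)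 + 5*S^(2:ℕ)*T^(3:ℕ) + S*T^(4:ℕ) + S^(4:ℕ) + 7*S^(3:ℕ)*T + 13*S^(2:ℕ)*T^(2:ℕ) + 7*S*T^(3:ℕ) + T^(4:ℕ) + 4*S^(3:ℕ) + 15*S^(2:ℕ)*T + 15*S*T^(2:ℕ) + 4*T^(3:ℕ) + 6*S^(2:ℕ) + 13*S*T + 6*T^(2:ℕ) + 4*S + 4*T + 1))/(S^(2:ℕ)*T^(2:ℕ)*(S + 1)^(2:ℕ)*(T + 1)^(3:ℕ)) < 1) :
    Sq ((S)/((S + 1)), ((S^(4:ℕ)*T^(4:ℕ) + S^(4:ℕ)*T^(3:ℕ) + S^(3:ℕ)*T^(4:ℕ) + S^(4:ℕ)*T^(2:ℕ) + 3*S^(3:ℕ)*T^(3:ℕ) + S^(2:ℕ)*T^(4:ℕ) + S^(4:ℕ)*T + 5*S^(3:ℕ)*T^(2:ℕ) + 5*S^(2:ℕ)*T^(3:ℕ) + S*T^(4:ℕ) + S^(4:ℕ) + 7*S^(3:ℕ)*T + 13*S^(2:ℕ)*T^(2:ℕ) + 7*S*T^(3:ℕ) + T^(4:ℕ) + 4*S^(3:ℕ) + 15*S^(2:ℕ)*T + 15*S*T^(2:ℕ) + 4*T^(3:ℕ) + 6*S^(2:ℕ) + 13*S*T + 6*T^(2:ℕ) + 4*S + 4*T +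 1))/(S^(2:ℕ)*T^(2:ℕ)*(S + 1)^(2:ℕ)*(T + 1)^(3:ℕ))) := ⟨⟨q0, q1⟩, q4, q5⟩

theorem F2_d21 (S T : ℝ) (pU : 0 < (S + T + 1)) (c0 : 0 < S^(3:ℕ)*T^(3:ℕ) - S^(3:ℕ)*T - 2*S^(2:ℕ)*T^(2:ℕ) - S*T^(3:ℕ) - S^(3:ℕ) - 5*S^(2:ℕ)*T - 5*S*T^(2:ℕ) - T^(3:ℕ) - 3*S^(2:ℕ) - 7*S*T - 3*T^(2:ℕ) - 3*S - 3*T - 1) :
    0 < (S + T + 1)*(S^(3:ℕ)*T^(3:ℕ) - S^(3:ℕ)*T - 2*S^(2:ℕ)*T^(2:ℕ) - S*T^(3:ℕ) - S^(3:ℕ) - 5*S^(2:ℕ)*T - 5*S*T^(2:ℕ) - T^(3:ℕ) - 3*S^(2:ℕ) - 7*S*T - 3*T^(2:ℕ) - 3*S - 3*T - 1) := (mul_pos pU c0)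

theorem F2_d22 (S T : ℝ) (pS : 0 < S) (pT : 0 < T) (pA : 0 < (S + 1)) (pB : 0 < (T + 1)) :
    0 < S^(2:ℕ)*T^(2:ℕ)*(S + 1)^(2:ℕ)*(T + 1)^(2:ℕ) := (mul_pos (mul_pos (mul_pos (pow_pos pS 2) (pow_pos pT 2)) (pow_pos pA 2)) (pow_pos pB 2))

theorem F2_g5 (S T : ℝ) (d16 : 0 < S^(2:ℕ)*T^(2:ℕ)*(S + 1)^(2:ℕ)*(T + 1)^(3:ℕ)) (d21 : 0 < (S + T + 1)*(S^(3:ℕ)*T^(3:ℕ) - S^(3:ℕ)*T - 2*S^(2:ℕ)*T^(2:ℕ) - S*T^(3:ℕ) - S^(3:ℕ) - 5*S^(2:ℕ)*T - 5*S*T^(2:ℕ) - T^(3:ℕ) - 3*S^(2:ℕ) - 7*S*T - 3*T^(2:ℕ) - 3*S - 3*T - 1)) (d22 : 0 < S^(2:ℕ)*T^(2:ℕ)*(S + 1)^(2:ℕ)*(T + 1)^(2:ℕ)) :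
    (T + 1) * (((S^(4:ℕ)*T^(4:ℕ) + S^(4:ℕ)*T^(3:ℕ) + S^(3:ℕ)*T^(4:ℕ) + S^(4:ℕ)*T^(2:ℕ) + 3*S^(3:ℕ)*T^(3:ℕ) + S^(2:ℕ)*T^(4:ℕ) + S^(4:ℕ)*T + 5*S^(3:ℕ)*T^(2:ℕ) + 5*S^(2:ℕ)*T^(3:ℕ) + S*T^(4:ℕ) + S^(4:ℕ) + 7*S^(3:ℕ)*T + 13*S^(2:ℕ)*T^(2:ℕ) + 7*S*T^(3:ℕ) + T^(4:ℕ) + 4*S^(3:ℕ) + 15*S^(2:ℕ)*T + 15*S*T^(2:ℕ) + 4*T^(3:ℕ) + 6*S^(2:ℕ) + 13*S*T + 6*T^(2:ℕ) + 4*S + 4*T + 1))/(S^(2:ℕ)*T^(2:ℕ)*(S + 1)^(2:ℕ)*(T + 1)^(3:ℕ))) < 1 := rlt d16 d21 d22 (by ring)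

theorem F2_oQ_0 (S T : ℝ) (g0 : S < (S + T + 1) * ((S)/((S + 1)))) (g5 : (T + 1) * (((S^(4:ℕ)*T^(4:ℕ) + S^(4:ℕ)*T^(3:ℕ) + S^(3:ℕ)*T^(4:ℕ) + S^(4:ℕ)*T^(2:ℕ) + 3*S^(3:ℕ)*T^(3:ℕ) + S^(2:ℕ)*T^(4:ℕ) + S^(4:ℕ)*T + 5*S^(3:ℕ)*T^(2:ℕ) + 5*S^(2:ℕ)*T^(3:ℕ) + S*T^(4:ℕ) + S^(4:ℕ) + 7*S^(3:ℕ)*T + 13*S^(2:ℕ)*T^(2:ℕ) + 7*S*T^(3:ℕ) + T^(4:ℕ) + 4*S^(3:ℕ) + 15*S^(2:ℕ)*T + 15*S*T^(2:ℕ) + 4*T^(3:ℕ) + 6*S^(2:ℕ) + 13*S*T + 6*T^(2:ℕ) + 4*S + 4*T + 1))/(S^(2:ℕ)*T^(2:ℕ)*(S + 1)^(2:ℕ)*(T + 1)^(3:ℕ))) < 1) :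
    cond S T Letter.al ((S)/((S + 1)), ((S^(4:ℕ)*T^(4:ℕ) + S^(4:ℕ)*T^(3:ℕ) + S^(3:ℕ)*T^(4:ℕ) + S^(4:ℕ)*T^(2:ℕ) + 3*S^(3:ℕ)*T^(3:ℕ) + S^(2:ℕ)*T^(4:ℕ) + S^(4:ℕ)*T + 5*S^(3:ℕ)*T^(2:ℕ) + 5*S^(2:ℕ)*T^(3:ℕ) + S*T^(4:ℕ) + S^(4:ℕ) + 7*S^(3:ℕ)*T + 13*S^(2:ℕ)*T^(2:ℕ) + 7*S*T^(3:ℕ) + T^(4:ℕ) + 4*S^(3:ℕ) + 15*S^(2:ℕ)*T + 15*S*T^(2:ℕ) + 4*T^(3:ℕ) + 6*S^(2:ℕ) + 13*S*T + 6*T^(2:ℕ) + 4*S + 4*T + 1))/(S^(2:ℕ)*T^(2:ℕ)*(S + 1)^(2:ℕ)*(T + 1)^(3:ℕ))) := ⟨g0, g5⟩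

theorem F2_oQ_1 (S T : ℝ) (g2 : (S + T + 1) * ((S*T)/((S + 1)^(2:ℕ)*(T + 1))) < S) :
    cond S T Letter.ga ((S*T)/((S + 1)^(2:ℕ)*(T + 1)), ((S^(3:ℕ)*T^(4:ℕ) + S^(3:ℕ)*T^(3:ℕ) + S^(2:ℕ)*T^(4:ℕ) + S^(3:ℕ)*T^(2:ℕ) + 2*S^(2:ℕ)*T^(3:ℕ) + S^(3:ℕ)*T + 3*S^(2:ℕ)*T^(2:ℕ) + S*T^(3:ℕ) + S^(3:ℕ) + 5*S^(2:ℕ)*T + 5*S*T^(2:ℕ) + T^(3:ℕ) + 3*S^(2:ℕ) + 7*S*T + 3*T^(2:ℕ) + 3*S + 3*T + 1))/(S^(2:ℕ)*T^(2:ℕ)*(S + 1)*(T + 1)^(2:ℕ))) := g2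

theorem F2_d23 (S T : ℝ) (c7 : 0 < S^(3:ℕ)*T^(5:ℕ) - S^(4:ℕ)*T^(3:ℕ) + 2*S^(3:ℕ)*T^(4:ℕ) + 2*S^(2:ℕ)*T^(5:ℕ) + 2*S^(3:ℕ)*T^(3:ℕ) + 6*S^(2:ℕ)*T^(4:ℕ) + S*T^(5:ℕ) + S^(4:ℕ)*T + 4*S^(3:ℕ)*T^(2:ℕ) + 9*S^(2:ℕ)*T^(3:ℕ) + 4*S*T^(4:ℕ) + S^(4:ℕ) + 7*S^(3:ℕ)*T + 14*S^(2:ℕ)*T^(2:ℕ) + 10*S*T^(3:ℕ) + T^(4:ℕ) + 4*S^(3:ℕ) + 15*S^(2:ℕ)*T + 16*S*T^(2:ℕ) + 4*T^(3:ℕ) + 6*S^(2:ℕ) + 13*S*T + 6*T^(2:ℕ) + 4*S + 4*T + 1) :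
    0 < (S^(3:ℕ)*T^(5:ℕ) - S^(4:ℕ)*T^(3:ℕ) + 2*S^(3:ℕ)*T^(4:ℕ) + 2*S^(2:ℕ)*T^(5:ℕ) + 2*S^(3:ℕ)*T^(3:ℕ) + 6*S^(2:ℕ)*T^(4:ℕ) + S*T^(5:ℕ) + S^(4:ℕ)*T + 4*S^(3:ℕ)*T^(2:ℕ) + 9*S^(2:ℕ)*T^(3:ℕ) + 4*S*T^(4:ℕ) + S^(4:ℕ) + 7*S^(3:ℕ)*T + 14*S^(2:ℕ)*T^(2:ℕ) + 10*S*T^(3:ℕ) + T^(4:ℕ) + 4*S^(3:ℕ) + 15*S^(2:ℕ)*T + 16*S*T^(2:ℕ) + 4*T^(3:ℕ) + 6*S^(2:ℕ) + 13*S*T + 6*T^(2:ℕ) + 4*S + 4*T + 1) := c7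

theorem F2_g6 (S T : ℝ) (d18 : 0 < S*T^(2:ℕ)*(S + 1)^(2:ℕ)*(T + 1)^(2:ℕ)) (d23 : 0 < (S^(3:ℕ)*T^(5:ℕ) - S^(4:ℕ)*T^(3:ℕ) + 2*S^(3:ℕ)*T^(4:ℕ) + 2*S^(2:ℕ)*T^(5:ℕ) + 2*S^(3:ℕ)*T^(3:ℕ) + 6*S^(2:ℕ)*T^(4:ℕ) + S*T^(5:ℕ) + S^(4:ℕ)*T + 4*S^(3:ℕ)*T^(2:ℕ) + 9*S^(2:ℕ)*T^(3:ℕ) + 4*S*T^(4:ℕ) + S^(4:ℕ) + 7*S^(3:ℕ)*T + 14*S^(2:ℕ)*T^(2:ℕ) + 10*S*T^(3:ℕ) + T^(4:ℕ) + 4*S^(3:ℕ) + 15*S^(2:ℕ)*T + 16*S*T^(2:ℕ) + 4*T^(3:ℕ) + 6*S^(2:ℕ) + 13*S*T + 6*T^(2:ℕ) + 4*S + 4*T + 1)) :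
    S < (S + T + 1) * (((S^(3:ℕ)*T^(4:ℕ) + S^(3:ℕ)*T^(3:ℕ) + 2*S^(2:ℕ)*T^(4:ℕ) + S^(3:ℕ)*T^(2:ℕ) + 4*S^(2:ℕ)*T^(3:ℕ) + S*T^(4:ℕ) + S^(3:ℕ)*T + 4*S^(2:ℕ)*T^(2:ℕ) + 3*S*T^(3:ℕ) + S^(3:ℕ) + 5*S^(2:ℕ)*T + 6*S*T^(2:ℕ) + T^(3:ℕ) + 3*S^(2:ℕ) + 7*S*T + 3*T^(2:ℕ) + 3*S + 3*T + 1))/(S*T^(2:ℕ)*(S + 1)^(2:ℕ)*(T + 1)^(2:ℕ))) := rgt d18 d23 d18 (by ring)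

theorem F2_oQ_2 (S T : ℝ) (g4 : 1 < (T + 1) * (((S*T + S + 1))/((S + 1)*(T + 1)))) (g6 : S < (S + T + 1) * (((S^(3:ℕ)*T^(4:ℕ) + S^(3:ℕ)*T^(3:ℕ) + 2*S^(2:ℕ)*T^(4:ℕ) + S^(3:ℕ)*T^(2:ℕ) + 4*S^(2:ℕ)*T^(3:ℕ) + S*T^(4:ℕ) + S^(3:ℕ)*T + 4*S^(2:ℕ)*T^(2:ℕ) + 3*S*T^(3:ℕ) + S^(3:ℕ) + 5*S^(2:ℕ)*T + 6*S*T^(2:ℕ) + T^(3:ℕ) + 3*S^(2:ℕ) + 7*S*T + 3*T^(2:ℕ) + 3*S + 3*T + 1))/(S*T^(2:ℕ)*(S + 1)^(2:ℕ)*(T + 1)^(2:ℕ)))) :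
    cond S T Letter.be (((S^(3:ℕ)*T^(4:ℕ) + S^(3:ℕ)*T^(3:ℕ) + 2*S^(2:ℕ)*T^(4:ℕ) + S^(3:ℕ)*T^(2:ℕ) + 4*S^(2:ℕ)*T^(3:ℕ) + S*T^(4:ℕ) + S^(3:ℕ)*T + 4*S^(2:ℕ)*T^(2:ℕ) + 3*S*T^(3:ℕ) + S^(3:ℕ) + 5*S^(2:ℕ)*T + 6*S*T^(2:ℕ) + T^(3:ℕ) + 3*S^(2:ℕ) + 7*S*T + 3*T^(2:ℕ) + 3*S + 3*T + 1))/(S*T^(2:ℕ)*(S + 1)^(2:ℕ)*(T + 1)^(2:ℕ)), ((S*T + S + 1))/((S + 1)*(T + 1))) := ⟨g6, g4⟩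

theorem F2_oQ (S T : ℝ) (f6 : fl S T Letter.al ((S)/((S + 1)), ((S^(4:ℕ)*T^(4:ℕ) + S^(4:ℕ)*T^(3:ℕ) + S^(3:ℕ)*T^(4:ℕ) + S^(4:ℕ)*T^(2:ℕ) + 3*S^(3:ℕ)*T^(3:ℕ) + S^(2:ℕ)*T^(4:ℕ) + S^(4:ℕ)*T + 5*S^(3:ℕ)*T^(2:ℕ) + 5*S^(2:ℕ)*T^(3:ℕ) + S*T^(4:ℕ) + S^(4:ℕ) + 7*S^(3:ℕ)*T + 13*S^(2:ℕ)*T^(2:ℕ) + 7*S*T^(3:ℕ) + T^(4:ℕ) + 4*S^(3:ℕ) + 15*S^(2:ℕ)*T + 15*S*T^(2:ℕ) + 4*T^(3:ℕ) + 6*S^(2:ℕ) + 13*S*T + 6*T^(2:ℕ) + 4*S + 4*T + 1))/(S^(2:ℕ)*T^(2:ℕ)*(S + 1)^(2:ℕ)*(T + 1)^(3:ℕ))) = ((S*T)/((S + 1)^(2:ℕ)*(T + 1)), ((S^(3:ℕ)*T^(4:ℕ) + S^(3:ℕ)*T^(3:ℕ) + S^(2:ℕ)*T^(4:ℕ) + S^(3:ℕ)*T^(2:ℕ) + 2*S^(2:ℕ)*T^(3:ℕ) + S^(3:ℕ)*T + 3*S^(2:ℕ)*T^(2:ℕ) + S*T^(3:ℕ)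 + S^(3:ℕ) + 5*S^(2:ℕ)*T + 5*S*T^(2:ℕ) + T^(3:ℕ) + 3*S^(2:ℕ) + 7*S*T + 3*T^(2:ℕ) + 3*S + 3*T + 1))/(S^(2:ℕ)*T^(2:ℕ)*(S + 1)*(T + 1)^(2:ℕ)))) (f7 : fl S T Letter.ga ((S*T)/((S + 1)^(2:ℕ)*(T + 1)), ((S^(3:ℕ)*T^(4:ℕ) + S^(3:ℕ)*T^(3:ℕ) + S^(2:ℕ)*T^(4:ℕ) + S^(3:ℕ)*T^(2:ℕ) + 2*S^(2:ℕ)*T^(3:ℕ) + S^(3:ℕ)*T + 3*S^(2:ℕ)*T^(2:ℕ) + S*T^(3:ℕ) + S^(3:ℕ) + 5*S^(2:ℕ)*T + 5*S*T^(2:ℕ) + T^(3:ℕ) + 3*S^(2:ℕ) + 7*S*T + 3*T^(2:ℕ) + 3*S + 3*T + 1))/(S^(2:ℕ)*T^(2:ℕ)*(S + 1)*(T + 1)^(2:ℕ))) = (((S^(3:ℕ)*T^(4:ℕ) + S^(3:ℕ)*T^(3:ℕ) + 2*S^(2:ℕ)*T^(4:ℕ) + S^(3:ℕ)*T^(2:ℕ) + 4*S^(2:ℕ)*T^(3:ℕ) + S*T^(4:ℕ) + S^(3:ℕ)*T + 4*S^(2:ℕ)*T^(2:ℕ) + 3*S*T^(3:ℕ)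 + S^(3:ℕ) + 5*S^(2:ℕ)*T + 6*S*T^(2:ℕ) + T^(3:ℕ) + 3*S^(2:ℕ) + 7*S*T + 3*T^(2:ℕ) + 3*S + 3*T + 1))/(S*T^(2:ℕ)*(S + 1)^(2:ℕ)*(T + 1)^(2:ℕ)), ((S*T + S + 1))/((S + 1)*(T + 1)))) (oQ_0 : cond S T Letter.al ((S)/((S + 1)), ((S^(4:ℕ)*T^(4:ℕ) + S^(4:ℕ)*T^(3:ℕ) + S^(3:ℕ)*T^(4:ℕ) + S^(4:ℕ)*T^(2:ℕ) + 3*S^(3:ℕ)*T^(3:ℕ) + S^(2:ℕ)*T^(4:ℕ) + S^(4:ℕ)*T + 5*S^(3:ℕ)*T^(2:ℕ) + 5*S^(2:ℕ)*T^(3:ℕ) + S*T^(4:ℕ) + S^(4:ℕ) + 7*S^(3:ℕ)*T + 13*S^(2:ℕ)*T^(2:ℕ) + 7*S*T^(3:ℕ) + T^(4:ℕ) + 4*S^(3:ℕ) + 15*S^(2:ℕ)*T + 15*S*T^(2:ℕ) + 4*T^(3:ℕ) + 6*S^(2:ℕ) + 13*S*T + 6*T^(2:ℕ) + 4*S + 4*T + 1))/(S^(2:ℕ)*T^(2:ℕ)*(S + 1)^(2:ℕ)*(T + 1)^(3:ℕ)))) (oQ_1 : cond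 S T Letter.ga ((S*T)/((S + 1)^(2:ℕ)*(T + 1)), ((S^(3:ℕ)*T^(4:ℕ) + S^(3:ℕ)*T^(3:ℕ) + S^(2:ℕ)*T^(4:ℕ) + S^(3:ℕ)*T^(2:ℕ) + 2*S^(2:ℕ)*T^(3:ℕ) + S^(3:ℕ)*T + 3*S^(2:ℕ)*T^(2:ℕ) + S*T^(3:ℕ) + S^(3:ℕ) + 5*S^(2:ℕ)*T + 5*S*T^(2:ℕ) + T^(3:ℕ) + 3*S^(2:ℕ) + 7*S*T + 3*T^(2:ℕ) + 3*S + 3*T + 1))/(S^(2:ℕ)*T^(2:ℕ)*(S + 1)*(T + 1)^(2:ℕ)))) (oQ_2 : cond S T Letter.be (((S^(3:ℕ)*T^(4:ℕ) + S^(3:ℕ)*T^(3:ℕ) + 2*S^(2:ℕ)*T^(4:ℕ) + S^(3:ℕ)*T^(2:ℕ) + 4*S^(2:ℕ)*T^(3:ℕ) + S*T^(4:ℕ) + S^(3:ℕ)*T + 4*S^(2:ℕ)*T^(2:ℕ) + 3*S*T^(3:ℕ) + S^(3:ℕ) + 5*S^(2:ℕ)*T + 6*S*T^(2:ℕ) + T^(3:ℕ) + 3*S^(2:ℕ) + 7*S*T + 3*T^(2:ℕ) + 3*S + 3*T + 1))/(S*T^(2:ℕ)*(S + 1)^(2:ℕ)*(T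 + 1)^(2:ℕ)), ((S*T + S + 1))/((S + 1)*(T + 1)))) :
    okc S T [Letter.al, Letter.ga, Letter.be] ((S)/((S + 1)), ((S^(4:ℕ)*T^(4:ℕ) + S^(4:ℕ)*T^(3:ℕ) + S^(3:ℕ)*T^(4:ℕ) + S^(4:ℕ)*T^(2:ℕ) + 3*S^(3:ℕ)*T^(3:ℕ) + S^(2:ℕ)*T^(4:ℕ) + S^(4:ℕ)*T + 5*S^(3:ℕ)*T^(2:ℕ) + 5*S^(2:ℕ)*T^(3:ℕ) + S*T^(4:ℕ) + S^(4:ℕ) + 7*S^(3:ℕ)*T + 13*S^(2:ℕ)*T^(2:ℕ) + 7*S*T^(3:ℕ) + T^(4:ℕ) + 4*S^(3:ℕ) + 15*S^(2:ℕ)*T + 15*S*T^(2:ℕ) + 4*T^(3:ℕ) + 6*S^(2:ℕ) + 13*S*T + 6*T^(2:ℕ) + 4*S + 4*T + 1))/(S^(2:ℕ)*T^(2:ℕ)*(S + 1)^(2:ℕ)*(T + 1)^(3:ℕ))) := (okc_cons' oQ_0 f6 (okc_cons' oQ_1 f7 (okc_last' oQ_2)))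

theorem F2_d24 (S T : ℝ) (pA : 0 < (S + 1)) (pB : 0 < (T + 1)) :
    0 < (S + 1)^(2:ℕ)*(T + 1)^(2:ℕ) := (mul_pos (pow_pos pA 2) (pow_pos pB 2))

theorem F2_f9 (S T : ℝ) (pT : 0 < T) (d0 : 0 < (S + 1)) (d4 : 0 < (S + 1)*(T + 1)) (d8 : 0 < (S + 1)^(2:ℕ)*(T + 1)^(3:ℕ)) (d24 : 0 < (S + 1)^(2:ℕ)*(T + 1)^(2:ℕ)) :
    fl S T Letter.be ((S)/((S + 1)), ((2*S^(2:ℕ)*T^(2:ℕ) + 2*S^(2:ℕ)*T + 2*S*T^(2:ℕ) + S^(2:ℕ) + 4*S*T + T^(2:ℕ) + 2*S + 2*T + 1))/((S + 1)^(2:ℕ)*(T + 1)^(3:ℕ))) = ((S^(2:ℕ)*T)/((S + 1)^(2:ℕ)*(T + 1)^(2:ℕ)), (T)/((S + 1)*(T + 1))) := fl_be' pT d0 d8 d24 d4 (by ring) (by ring)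

theorem F2_f10 (S T : ℝ) (pS : 0 < S) (d1 : 0 < (S + 1)*(T + 1)^(2:ℕ)) (d2 : 0 < (S + 1)^(2:ℕ)*(T + 1)) (d4 : 0 < (S + 1)*(T + 1)) (d24 : 0 < (S + 1)^(2:ℕ)*(T + 1)^(2:ℕ)) :
    fl S T Letter.ga ((S^(2:ℕ)*T)/((S + 1)^(2:ℕ)*(T + 1)^(2:ℕ)), (T)/((S + 1)*(T + 1))) = (((2*S*T + S + T + 1))/((S + 1)^(2:ℕ)*(T + 1)), ((S*T^(2:ℕ) + S*T + T^(2:ℕ) + S + 2*T + 1))/((S + 1)*(T + 1)^(2:ℕ))) := fl_ga' pS d24 d4 d2 d1 (by ring) (by ring)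

theorem F2_f11 (S T : ℝ) (pT : 0 < T) (d1 : 0 < (S + 1)*(T + 1)^(2:ℕ)) (d2 : 0 < (S + 1)^(2:ℕ)*(T + 1)) (d4 : 0 < (S + 1)*(T + 1)) (d24 : 0 < (S + 1)^(2:ℕ)*(T + 1)^(2:ℕ)) :
    fl S T Letter.be (((2*S*T + S + T + 1))/((S + 1)^(2:ℕ)*(T + 1)), ((S*T^(2:ℕ) + S*T + T^(2:ℕ) + S + 2*T + 1))/((S + 1)*(T + 1)^(2:ℕ))) = (((S*T + T + 1))/((S + 1)*(T + 1)), (S*T*(S*T + S + 1))/((S + 1)^(2:ℕ)*(T + 1)^(2:ℕ))) := fl_be' pT d2 d1 d4 d24 (by ring) (by ring)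

theorem F2_rE (S T : ℝ) (f9 : fl S T Letter.be ((S)/((S + 1)), ((2*S^(2:ℕ)*T^(2:ℕ) + 2*S^(2:ℕ)*T + 2*S*T^(2:ℕ) + S^(2:ℕ) + 4*S*T + T^(2:ℕ) + 2*S + 2*T + 1))/((S + 1)^(2:ℕ)*(T + 1)^(3:ℕ))) = ((S^(2:ℕ)*T)/((S + 1)^(2:ℕ)*(T + 1)^(2:ℕ)), (T)/((S + 1)*(T + 1)))) (f10 : fl S T Letter.ga ((S^(2:ℕ)*T)/((S + 1)^(2:ℕ)*(T + 1)^(2:ℕ)), (T)/((S + 1)*(T + 1))) = (((2*S*T + S + T + 1))/((S + 1)^(2:ℕ)*(T + 1)), ((S*T^(2:ℕ) + S*T + T^(2:ℕ) + S + 2*T + 1))/((S + 1)*(T + 1)^(2:ℕ)))) (f11 : fl S T Letter.be (((2*S*T + S + T + 1))/((S + 1)^(2:ℕ)*(T + 1)), ((S*T^(2:ℕ) + S*T + T^(2:ℕ) + S + 2*T + 1))/((S + 1)*(T + 1)^(2:ℕ))) = (((S*T + T +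 1))/((S + 1)*(T + 1)), (S*T*(S*T + S + 1))/((S + 1)^(2:ℕ)*(T + 1)^(2:ℕ)))) :
    run S T [Letter.be, Letter.ga, Letter.be] ((S)/((S + 1)), ((2*S^(2:ℕ)*T^(2:ℕ) + 2*S^(2:ℕ)*T + 2*S*T^(2:ℕ) + S^(2:ℕ) + 4*S*T + T^(2:ℕ) + 2*S + 2*T + 1))/((S + 1)^(2:ℕ)*(T + 1)^(3:ℕ))) = (((S*T + T + 1))/((S + 1)*(T + 1)), (S*T*(S*T + S + 1))/((S + 1)^(2:ℕ)*(T + 1)^(2:ℕ))) := (run_cons' f9 (run_cons' f10 (run_cons' f11 run_nil')))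

theorem F2_d25 (S T : ℝ) (c2 : 0 < 2*S^(2:ℕ)*T^(2:ℕ) + 2*S^(2:ℕ)*T + 2*S*T^(2:ℕ) + S^(2:ℕ) + 4*S*T + T^(2:ℕ) + 2*S + 2*T + 1) :
    0 < (2*S^(2:ℕ)*T^(2:ℕ) + 2*S^(2:ℕ)*T + 2*S*T^(2:ℕ) + S^(2:ℕ) + 4*S*T + T^(2:ℕ) + 2*S + 2*T + 1) := c2

theorem F2_q6 (S T : ℝ) (d8 : 0 < (S + 1)^(2:ℕ)*(T + 1)^(3:ℕ)) (d25 : 0 < (2*S^(2:ℕ)*T^(2:ℕ) + 2*S^(2:ℕ)*T + 2*S*T^(2:ℕ) + S^(2:ℕ) + 4*S*T + T^(2:ℕ) + 2*S + 2*T + 1)) :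
    0 < ((2*S^(2:ℕ)*T^(2:ℕ) + 2*S^(2:ℕ)*T + 2*S*T^(2:ℕ) + S^(2:ℕ) + 4*S*T + T^(2:ℕ) + 2*S + 2*T + 1))/((S + 1)^(2:ℕ)*(T + 1)^(3:ℕ)) := div_pos d25 d8

theorem F2_d26 (S T : ℝ) (pT : 0 < T) (c8 : 0 < S^(2:ℕ)*T^(2:ℕ) + S^(2:ℕ)*T + 2*S*T^(2:ℕ) + S^(2:ℕ) + 4*S*T + T^(2:ℕ) + 2*S + 2*T + 1) :
    0 < T*(S^(2:ℕ)*T^(2:ℕ) + S^(2:ℕ)*T + 2*S*T^(2:ℕ) + S^(2:ℕ) + 4*S*T + T^(2:ℕ) + 2*S + 2*T + 1) := (mul_pos pT c8)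

theorem F2_q7 (S T : ℝ) (d8 : 0 < (S + 1)^(2:ℕ)*(T + 1)^(3:ℕ)) (d26 : 0 < T*(S^(2:ℕ)*T^(2:ℕ) + S^(2:ℕ)*T + 2*S*T^(2:ℕ) + S^(2:ℕ) + 4*S*T + T^(2:ℕ) + 2*S + 2*T + 1)) :
    ((2*S^(2:ℕ)*T^(2:ℕ) + 2*S^(2:ℕ)*T + 2*S*T^(2:ℕ) + S^(2:ℕ) + 4*S*T + T^(2:ℕ) + 2*S + 2*T + 1))/((S + 1)^(2:ℕ)*(T + 1)^(3:ℕ)) < 1 := rlt1 d8 d26 d8 (by ring)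

theorem F2_sq (S T : ℝ) (q0 : 0 < (S)/((S + 1))) (q1 : (S)/((S + 1)) < 1) (q6 : 0 < ((2*S^(2:ℕ)*T^(2:ℕ) + 2*S^(2:ℕ)*T + 2*S*T^(2:ℕ) + S^(2:ℕ) + 4*S*T + T^(2:ℕ) + 2*S + 2*T + 1))/((S + 1)^(2:ℕ)*(T + 1)^(3:ℕ))) (q7 : ((2*S^(2:ℕ)*T^(2:ℕ) + 2*S^(2:ℕ)*T + 2*S*T^(2:ℕ) + S^(2:ℕ) + 4*S*T + T^(2:ℕ) + 2*S + 2*T + 1))/((S + 1)^(2:ℕ)*(T + 1)^(3:ℕ)) < 1) :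
    Sq ((S)/((S + 1)), ((2*S^(2:ℕ)*T^(2:ℕ) + 2*S^(2:ℕ)*T + 2*S*T^(2:ℕ) + S^(2:ℕ) + 4*S*T + T^(2:ℕ) + 2*S + 2*T + 1))/((S + 1)^(2:ℕ)*(T + 1)^(3:ℕ))) := ⟨⟨q0, q1⟩, q6, q7⟩

theorem F2_d27 (S T : ℝ) (pS : 0 < S) (pT : 0 < T) :
    0 < S^(2:ℕ)*T^(2:ℕ) := (mul_pos (pow_pos pS 2) (pow_pos pT 2))

theorem F2_g7 (S T : ℝ) (d8 : 0 < (S + 1)^(2:ℕ)*(T + 1)^(3:ℕ)) (d24 : 0 < (S + 1)^(2:ℕ)*(T + 1)^(2:ℕ)) (d27 : 0 < S^(2:ℕ)*T^(2:ℕ)) :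
    1 < (T + 1) * (((2*S^(2:ℕ)*T^(2:ℕ) + 2*S^(2:ℕ)*T + 2*S*T^(2:ℕ) + S^(2:ℕ) + 4*S*T + T^(2:ℕ) + 2*S + 2*T + 1))/((S + 1)^(2:ℕ)*(T + 1)^(3:ℕ))) := rgt d8 d27 d24 (by ring)

theorem F2_oE_0 (S T : ℝ) (g0 : S < (S + T + 1) * ((S)/((S + 1)))) (g7 : 1 < (T + 1) * (((2*S^(2:ℕ)*T^(2:ℕ) + 2*S^(2:ℕ)*T + 2*S*T^(2:ℕ) + S^(2:ℕ) + 4*S*T + T^(2:ℕ) + 2*S + 2*T + 1))/((S + 1)^(2:ℕ)*(T + 1)^(3:ℕ)))) :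
    cond S T Letter.be ((S)/((S + 1)), ((2*S^(2:ℕ)*T^(2:ℕ) + 2*S^(2:ℕ)*T + 2*S*T^(2:ℕ) + S^(2:ℕ) + 4*S*T + T^(2:ℕ) + 2*S + 2*T + 1))/((S + 1)^(2:ℕ)*(T + 1)^(3:ℕ))) := ⟨g0, g7⟩

theorem F2_d28 (S T : ℝ) (pS : 0 < S) (c9 : 0 < S^(2:ℕ)*T^(2:ℕ) + S^(2:ℕ)*T + S*T^(2:ℕ) + S^(2:ℕ) + 3*S*T + T^(2:ℕ) + 2*S + 2*T + 1) :
    0 < S*(S^(2:ℕ)*T^(2:ℕ) + S^(2:ℕ)*T + S*T^(2:ℕ) + S^(2:ℕ) + 3*S*T + T^(2:ℕ) + 2*S + 2*T + 1) := (mul_pos pS c9)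

theorem F2_g8 (S T : ℝ) (d24 : 0 < (S + 1)^(2:ℕ)*(T + 1)^(2:ℕ)) (d28 : 0 < S*(S^(2:ℕ)*T^(2:ℕ) + S^(2:ℕ)*T + S*T^(2:ℕ) + S^(2:ℕ) + 3*S*T + T^(2:ℕ) + 2*S + 2*T + 1)) :
    (S + T + 1) * ((S^(2:ℕ)*T)/((S + 1)^(2:ℕ)*(T + 1)^(2:ℕ))) < S := rlt d24 d28 d24 (by ring)

theorem F2_oE_1 (S T : ℝ) (g8 : (S + T + 1) * ((S^(2:ℕ)*T)/((S + 1)^(2:ℕ)*(T + 1)^(2:ℕ))) < S) :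
    cond S T Letter.ga ((S^(2:ℕ)*T)/((S + 1)^(2:ℕ)*(T + 1)^(2:ℕ)), (T)/((S + 1)*(T + 1))) := g8

theorem F2_d29 (S T : ℝ) (c10 : 0 < -S^(3:ℕ)*T - S^(3:ℕ) + 2*S*T^(2:ℕ) - S^(2:ℕ) + 3*S*T + T^(2:ℕ) + S + 2*T + 1) :
    0 < (-S^(3:ℕ)*T - S^(3:ℕ) + 2*S*T^(2:ℕ) - S^(2:ℕ) + 3*S*T + T^(2:ℕ) + S + 2*T + 1) := c10

theorem F2_g9 (S T : ℝ) (d2 : 0 < (S + 1)^(2:ℕ)*(T + 1)) (d29 : 0 < (-S^(3:ℕ)*T - S^(3:ℕ) + 2*S*T^(2:ℕ) - S^(2:ℕ) + 3*S*T + T^(2:ℕ) + S + 2*T + 1)) :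
    S < (S + T + 1) * (((2*S*T + S + T + 1))/((S + 1)^(2:ℕ)*(T + 1))) := rgt d2 d29 d2 (by ring)

theorem F2_d30 (S T : ℝ) (pT : 0 < T) (c11 : 0 < S*T + T + 1) :
    0 < T*(S*T + T + 1) := (mul_pos pT c11)

theorem F2_g10 (S T : ℝ) (d1 : 0 < (S + 1)*(T + 1)^(2:ℕ)) (d4 : 0 < (S + 1)*(T + 1)) (d30 : 0 < T*(S*T + T + 1)) :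
    1 < (T + 1) * (((S*T^(2:ℕ) + S*T + T^(2:ℕ) + S + 2*T + 1))/((S + 1)*(T + 1)^(2:ℕ))) := rgt d1 d30 d4 (by ring)

theorem F2_oE_2 (S T : ℝ) (g9 : S < (S + T + 1) * (((2*S*T + S + T + 1))/((S + 1)^(2:ℕ)*(T + 1)))) (g10 : 1 < (T + 1) * (((S*T^(2:ℕ) + S*T + T^(2:ℕ) + S + 2*T + 1))/((S + 1)*(T + 1)^(2:ℕ)))) :
    cond S T Letter.be (((2*S*T + S + T + 1))/((S + 1)^(2:ℕ)*(T + 1)), ((S*T^(2:ℕ) + S*T + T^(2:ℕ) + S + 2*T + 1))/((S + 1)*(T + 1)^(2:ℕ))) := ⟨g9, g10⟩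

theorem F2_oE (S T : ℝ) (f9 : fl S T Letter.be ((S)/((S + 1)), ((2*S^(2:ℕ)*T^(2:ℕ) + 2*S^(2:ℕ)*T + 2*S*T^(2:ℕ) + S^(2:ℕ) + 4*S*T + T^(2:ℕ) + 2*S + 2*T + 1))/((S + 1)^(2:ℕ)*(T + 1)^(3:ℕ))) = ((S^(2:ℕ)*T)/((S + 1)^(2:ℕ)*(T + 1)^(2:ℕ)), (T)/((S + 1)*(T + 1)))) (f10 : fl S T Letter.ga ((S^(2:ℕ)*T)/((S + 1)^(2:ℕ)*(T + 1)^(2:ℕ)), (T)/((S + 1)*(T + 1))) = (((2*S*T + S + T + 1))/((S + 1)^(2:ℕ)*(T + 1)), ((S*T^(2:ℕ) + S*T + T^(2:ℕ) + S + 2*T + 1))/((S + 1)*(T + 1)^(2:ℕ)))) (oE_0 : cond S T Letter.be ((S)/((S + 1)), ((2*S^(2:ℕ)*T^(2:ℕ) + 2*S^(2:ℕ)*T + 2*S*T^(2:ℕ) + S^(2:ℕ) + 4*S*T + T^(2:ℕ) + 2*S + 2*T + 1))/((S + 1)^(2:ℕ)*(T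 + 1)^(3:ℕ)))) (oE_1 : cond S T Letter.ga ((S^(2:ℕ)*T)/((S + 1)^(2:ℕ)*(T + 1)^(2:ℕ)), (T)/((S + 1)*(T + 1)))) (oE_2 : cond S T Letter.be (((2*S*T + S + T + 1))/((S + 1)^(2:ℕ)*(T + 1)), ((S*T^(2:ℕ) + S*T + T^(2:ℕ) + S + 2*T + 1))/((S + 1)*(T + 1)^(2:ℕ)))) :
    okc S T [Letter.be, Letter.ga, Letter.be] ((S)/((S + 1)), ((2*S^(2:ℕ)*T^(2:ℕ) + 2*S^(2:ℕ)*T + 2*S*T^(2:ℕ) + S^(2:ℕ) + 4*S*T + T^(2:ℕ) + 2*S + 2*T + 1))/((S + 1)^(2:ℕ)*(T + 1)^(3:ℕ))) := (okc_cons' oE_0 f9 (okc_cons' oE_1 f10 (okc_last' oE_2)))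

theorem F2_rB (S T : ℝ) (f0 : fl S T Letter.al ((S)/((S + 1)), (S*T)/((S + 1)*(T + 1)^(2:ℕ))) = ((S*T)/((S + 1)^(2:ℕ)*(T + 1)), (T)/((T + 1)))) (f1 : fl S T Letter.ga ((S*T)/((S + 1)^(2:ℕ)*(T + 1)), (T)/((T + 1))) = (((S*T + T + 1))/((S + 1)*(T + 1)), ((S*T + S + 1))/((S + 1)*(T + 1)))) (f2 : fl S T Letter.be (((S*T + T + 1))/((S + 1)*(T + 1)), ((S*T + S + 1))/((S + 1)*(T + 1))) = ((S)/((S + 1)), (S*T)/((S + 1)*(T + 1)^(2:ℕ)))) :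
    run S T [Letter.be, Letter.al, Letter.ga] (((S*T + T + 1))/((S + 1)*(T + 1)), ((S*T + S + 1))/((S + 1)*(T + 1))) = (((S*T + T + 1))/((S + 1)*(T + 1)), ((S*T + S + 1))/((S + 1)*(T + 1))) := (run_cons' f2 (run_cons' f0 (run_cons' f1 run_nil')))

theorem F2_d31 (S T : ℝ) (pT : 0 < T) (pA : 0 < (S + 1)) (pB : 0 < (T + 1)) :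
    0 < T*(S + 1)^(2:ℕ)*(T + 1) := (mul_pos (mul_pos pT (pow_pos pA 2)) pB)

theorem F2_f12 (S T : ℝ) (pT : 0 < T) (d1 : 0 < (S + 1)*(T + 1)^(2:ℕ)) (d4 : 0 < (S + 1)*(T + 1)) (d24 : 0 < (S + 1)^(2:ℕ)*(T + 1)^(2:ℕ)) (d31 : 0 < T*(S + 1)^(2:ℕ)*(T + 1)) :
    fl S T Letter.be (((S*T + T + 1))/((S + 1)*(T + 1)), (S*T*(S*T + S + 1))/((S + 1)^(2:ℕ)*(T + 1)^(2:ℕ))) = (((S^(2:ℕ)*T^(2:ℕ) - S^(2:ℕ) - S*T - 2*S - T - 1))/(T*(S + 1)^(2:ℕ)*(T + 1)), (S*T)/((S + 1)*(T + 1)^(2:ℕ))) := fl_be' pT d4 d24 d31 d1 (by ring) (by ring)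

theorem F2_d32 (S T : ℝ) (pT : 0 < T) (pA : 0 < (S + 1)) (pB : 0 < (T + 1)) :
    0 < T*(S + 1)^(3:ℕ)*(T + 1)^(2:ℕ) := (mul_pos (mul_pos pT (pow_pos pA 3)) (pow_pos pB 2))

theorem F2_f13 (S T : ℝ) (pS : 0 < S) (pT : 0 < T) (d1 : 0 < (S + 1)*(T + 1)^(2:ℕ)) (d3 : 0 < (T + 1)) (d31 : 0 < T*(S + 1)^(2:ℕ)*(T + 1)) (d32 : 0 < T*(S + 1)^(3:ℕ)*(T + 1)^(2:ℕ)) :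
    fl S T Letter.al (((S^(2:ℕ)*T^(2:ℕ) - S^(2:ℕ) - S*T - 2*S - T - 1))/(T*(S + 1)^(2:ℕ)*(T + 1)), (S*T)/((S + 1)*(T + 1)^(2:ℕ))) = (((S^(2:ℕ)*T^(3:ℕ) - S^(3:ℕ)*T - S^(2:ℕ)*T^(2:ℕ) - S^(3:ℕ) - 4*S^(2:ℕ)*T - 2*S*T^(2:ℕ) - 3*S^(2:ℕ) - 5*S*T - T^(2:ℕ) - 3*S - 2*T - 1))/(T*(S + 1)^(3:ℕ)*(T + 1)^(2:ℕ)), (T)/((T + 1))) := fl_al' pS pT d31 d1 d32 d3 (by ring) (by ring)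

theorem F2_f14 (S T : ℝ) (pS : 0 < S) (d3 : 0 < (T + 1)) (d4 : 0 < (S + 1)*(T + 1)) (d13 : 0 < S*T*(S + 1)^(2:ℕ)*(T + 1)^(2:ℕ)) (d32 : 0 < T*(S + 1)^(3:ℕ)*(T + 1)^(2:ℕ)) :
    fl S T Letter.ga (((S^(2:ℕ)*T^(3:ℕ) - S^(3:ℕ)*T - S^(2:ℕ)*T^(2:ℕ) - S^(3:ℕ) - 4*S^(2:ℕ)*T - 2*S*T^(2:ℕ) - 3*S^(2:ℕ) - 5*S*T - T^(2:ℕ) - 3*S - 2*T - 1))/(T*(S + 1)^(3:ℕ)*(T + 1)^(2:ℕ)), (T)/((T + 1))) = (((S*T + T + 1))/((S + 1)*(T + 1)), ((S^(3:ℕ)*T^(3:ℕ) + 2*S^(3:ℕ)*T^(2:ℕ) + S^(2:ℕ)*T^(3:ℕ) + 2*S^(3:ℕ)*T + 5*S^(2:ℕ)*T^(2:ℕ) + S*T^(3:ℕ) + S^(3:ℕ) + 6*S^(2:ℕ)*T + 4*S*T^(2:ℕ) + 3*S^(2:ℕ) + 6*S*T + T^(2:ℕ) + 3*S + 2*T + 1))/(S*T*(S + 1)^(2:ℕ)*(T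 + 1)^(2:ℕ))) := fl_ga' pS d32 d3 d4 d13 (by ring) (by ring)

theorem F2_rr (S T : ℝ) (f12 : fl S T Letter.be (((S*T + T + 1))/((S + 1)*(T + 1)), (S*T*(S*T + S + 1))/((S + 1)^(2:ℕ)*(T + 1)^(2:ℕ))) = (((S^(2:ℕ)*T^(2:ℕ) - S^(2:ℕ) - S*T - 2*S - T - 1))/(T*(S + 1)^(2:ℕ)*(T + 1)), (S*T)/((S + 1)*(T + 1)^(2:ℕ)))) (f13 : fl S T Letter.al (((S^(2:ℕ)*T^(2:ℕ) - S^(2:ℕ) - S*T - 2*S - T - 1))/(T*(S + 1)^(2:ℕ)*(T + 1)), (S*T)/((S + 1)*(T + 1)^(2:ℕ))) = (((S^(2:ℕ)*T^(3:ℕ) - S^(3:ℕ)*T - S^(2:ℕ)*T^(2:ℕ) - S^(3:ℕ) - 4*S^(2:ℕ)*T - 2*S*T^(2:ℕ) - 3*S^(2:ℕ) - 5*S*T - T^(2:ℕ) - 3*S - 2*T - 1))/(T*(S + 1)^(3:ℕ)*(T + 1)^(2:ℕ)), (T)/((T + 1))))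 (f14 : fl S T Letter.ga (((S^(2:ℕ)*T^(3:ℕ) - S^(3:ℕ)*T - S^(2:ℕ)*T^(2:ℕ) - S^(3:ℕ) - 4*S^(2:ℕ)*T - 2*S*T^(2:ℕ) - 3*S^(2:ℕ) - 5*S*T - T^(2:ℕ) - 3*S - 2*T - 1))/(T*(S + 1)^(3:ℕ)*(T + 1)^(2:ℕ)), (T)/((T + 1))) = (((S*T + T + 1))/((S + 1)*(T + 1)), ((S^(3:ℕ)*T^(3:ℕ) + 2*S^(3:ℕ)*T^(2:ℕ) + S^(2:ℕ)*T^(3:ℕ) + 2*S^(3:ℕ)*T + 5*S^(2:ℕ)*T^(2:ℕ) + S*T^(3:ℕ) + S^(3:ℕ) + 6*S^(2:ℕ)*T + 4*S*T^(2:ℕ) + 3*S^(2:ℕ) + 6*S*T + T^(2:ℕ) + 3*S + 2*T + 1))/(S*T*(S + 1)^(2:ℕ)*(T + 1)^(2:ℕ)))) :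
    run S T [Letter.be, Letter.al, Letter.ga] (((S*T + T + 1))/((S + 1)*(T + 1)), (S*T*(S*T + S + 1))/((S + 1)^(2:ℕ)*(T + 1)^(2:ℕ))) = (((S*T + T + 1))/((S + 1)*(T + 1)), ((S^(3:ℕ)*T^(3:ℕ) + 2*S^(3:ℕ)*T^(2:ℕ) + S^(2:ℕ)*T^(3:ℕ) + 2*S^(3:ℕ)*T + 5*S^(2:ℕ)*T^(2:ℕ) + S*T^(3:ℕ) + S^(3:ℕ) + 6*S^(2:ℕ)*T + 4*S*T^(2:ℕ) + 3*S^(2:ℕ) + 6*S*T + T^(2:ℕ) + 3*S + 2*T + 1))/(S*T*(S + 1)^(2:ℕ)*(T + 1)^(2:ℕ))) := (run_cons' f12 (run_cons' f13 (run_cons' f14 run_nil')))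

theorem F2_d33 (S T : ℝ) (c11 : 0 < S*T + T + 1) :
    0 < (S*T + T + 1) := c11

theorem F2_q8 (S T : ℝ) (d4 : 0 < (S + 1)*(T + 1)) (d33 : 0 < (S*T + T + 1)) :
    0 < ((S*T + T + 1))/((S + 1)*(T + 1)) := div_pos d33 d4

theorem F2_q9 (S T : ℝ) (pS : 0 < S) (d4 : 0 < (S + 1)*(T + 1)) :
    ((S*T + T + 1))/((S + 1)*(T + 1)) < 1 := rlt1 d4 pS d4 (by ring)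

theorem F2_d34 (S T : ℝ) (pS : 0 < S) (pT : 0 < T) (c12 : 0 < S*T + S + 1) :
    0 < S*T*(S*T + S + 1) := (mul_pos (mul_pos pS pT) c12)

theorem F2_q10 (S T : ℝ) (d24 : 0 < (S + 1)^(2:ℕ)*(T + 1)^(2:ℕ)) (d34 : 0 < S*T*(S*T + S + 1)) :
    0 < (S*T*(S*T + S + 1))/((S + 1)^(2:ℕ)*(T + 1)^(2:ℕ)) := div_pos d34 d24

theorem F2_d35 (S T : ℝ) (c13 : 0 < S^(2:ℕ)*T + 2*S*T^(2:ℕ) + S^(2:ℕ) + 3*S*T + T^(2:ℕ) + 2*S + 2*T + 1) :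
    0 < (S^(2:ℕ)*T + 2*S*T^(2:ℕ) + S^(2:ℕ) + 3*S*T + T^(2:ℕ) + 2*S + 2*T + 1) := c13

theorem F2_q11 (S T : ℝ) (d24 : 0 < (S + 1)^(2:ℕ)*(T + 1)^(2:ℕ)) (d35 : 0 < (S^(2:ℕ)*T + 2*S*T^(2:ℕ) + S^(2:ℕ) + 3*S*T + T^(2:ℕ) + 2*S + 2*T + 1)) :
    (S*T*(S*T + S + 1))/((S + 1)^(2:ℕ)*(T + 1)^(2:ℕ)) < 1 := rlt1 d24 d35 d24 (by ring)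

theorem F2_sr (S T : ℝ) (q8 : 0 < ((S*T + T + 1))/((S + 1)*(T + 1))) (q9 : ((S*T + T + 1))/((S + 1)*(T + 1)) < 1) (q10 : 0 < (S*T*(S*T + S + 1))/((S + 1)^(2:ℕ)*(T + 1)^(2:ℕ))) (q11 : (S*T*(S*T + S + 1))/((S + 1)^(2:ℕ)*(T + 1)^(2:ℕ)) < 1) :
    Sq (((S*T + T + 1))/((S + 1)*(T + 1)), (S*T*(S*T + S + 1))/((S + 1)^(2:ℕ)*(T + 1)^(2:ℕ))) := ⟨⟨q8, q9⟩, q10, q11⟩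

theorem F2_d36 (S T : ℝ) (c14 : 0 < S*T^(2:ℕ) - S^(2:ℕ) + S*T + T^(2:ℕ) + 2*T + 1) :
    0 < (S*T^(2:ℕ) - S^(2:ℕ) + S*T + T^(2:ℕ) + 2*T + 1) := c14

theorem F2_g11 (S T : ℝ) (d4 : 0 < (S + 1)*(T + 1)) (d36 : 0 < (S*T^(2:ℕ) - S^(2:ℕ) + S*T + T^(2:ℕ) + 2*T + 1)) :
    S < (S + T + 1) * (((S*T + T + 1))/((S + 1)*(T + 1))) := rgt d4 d36 d4 (by ring)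

theorem F2_d37 (S T : ℝ) (c15 : 0 < S^(2:ℕ)*T^(2:ℕ) - S^(2:ℕ) - S*T - 2*S - T - 1) :
    0 < (S^(2:ℕ)*T^(2:ℕ) - S^(2:ℕ) - S*T - 2*S - T - 1) := c15

theorem F2_g12 (S T : ℝ) (d2 : 0 < (S + 1)^(2:ℕ)*(T + 1)) (d24 : 0 < (S + 1)^(2:ℕ)*(T + 1)^(2:ℕ)) (d37 : 0 < (S^(2:ℕ)*T^(2:ℕ) - S^(2:ℕ) - S*T - 2*S - T - 1)) :
    1 < (T + 1) * ((S*T*(S*T + S + 1))/((S + 1)^(2:ℕ)*(T + 1)^(2:ℕ))) := rgt d24 d37 d2 (by ring)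

theorem F2_orr_0 (S T : ℝ) (g11 : S < (S + T + 1) * (((S*T + T + 1))/((S + 1)*(T + 1)))) (g12 : 1 < (T + 1) * ((S*T*(S*T + S + 1))/((S + 1)^(2:ℕ)*(T + 1)^(2:ℕ)))) :
    cond S T Letter.be (((S*T + T + 1))/((S + 1)*(T + 1)), (S*T*(S*T + S + 1))/((S + 1)^(2:ℕ)*(T + 1)^(2:ℕ))) := ⟨g11, g12⟩

theorem F2_d38 (S T : ℝ) (c16 : 0 < S^(2:ℕ)*T^(3:ℕ) - S^(3:ℕ)*T - S^(2:ℕ)*T^(2:ℕ) - S^(3:ℕ) - 4*S^(2:ℕ)*T - 2*S*T^(2:ℕ) - 3*S^(2:ℕ) - 5*S*T - T^(2:ℕ) - 3*S - 2*T - 1) :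
    0 < (S^(2:ℕ)*T^(3:ℕ) - S^(3:ℕ)*T - S^(2:ℕ)*T^(2:ℕ) - S^(3:ℕ) - 4*S^(2:ℕ)*T - 2*S*T^(2:ℕ) - 3*S^(2:ℕ) - 5*S*T - T^(2:ℕ) - 3*S - 2*T - 1) := c16

theorem F2_g13 (S T : ℝ) (d31 : 0 < T*(S + 1)^(2:ℕ)*(T + 1)) (d38 : 0 < (S^(2:ℕ)*T^(3:ℕ) - S^(3:ℕ)*T - S^(2:ℕ)*T^(2:ℕ) - S^(3:ℕ) - 4*S^(2:ℕ)*T - 2*S*T^(2:ℕ) - 3*S^(2:ℕ) - 5*S*T - T^(2:ℕ) - 3*S - 2*T - 1)) :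
    S < (S + T + 1) * (((S^(2:ℕ)*T^(2:ℕ) - S^(2:ℕ) - S*T - 2*S - T - 1))/(T*(S + 1)^(2:ℕ)*(T + 1))) := rgt d31 d38 d31 (by ring)

theorem F2_d39 (S T : ℝ) (pU : 0 < (S + T + 1)) :
    0 < (S + T + 1) := pU

theorem F2_g14 (S T : ℝ) (d1 : 0 < (S + 1)*(T + 1)^(2:ℕ)) (d4 : 0 < (S + 1)*(T + 1)) (d39 : 0 < (S + T + 1)) :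
    (T + 1) * ((S*T)/((S + 1)*(T + 1)^(2:ℕ))) < 1 := rlt d1 d39 d4 (by ring)

theorem F2_orr_1 (S T : ℝ) (g13 : S < (S + T + 1) * (((S^(2:ℕ)*T^(2:ℕ) - S^(2:ℕ) - S*T - 2*S - T - 1))/(T*(S + 1)^(2:ℕ)*(T + 1)))) (g14 : (T + 1) * ((S*T)/((S + 1)*(T + 1)^(2:ℕ))) < 1) :
    cond S T Letter.al (((S^(2:ℕ)*T^(2:ℕ) - S^(2:ℕ) - S*T - 2*S - T - 1))/(T*(S + 1)^(2:ℕ)*(T + 1)), (S*T)/((S + 1)*(T + 1)^(2:ℕ))) := ⟨g13, g14⟩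

theorem F2_d40 (S T : ℝ) (c17 : 0 < S^(4:ℕ)*T^(3:ℕ) + 2*S^(4:ℕ)*T^(2:ℕ) + 2*S^(3:ℕ)*T^(3:ℕ) - S^(2:ℕ)*T^(4:ℕ) + 2*S^(4:ℕ)*T + 8*S^(3:ℕ)*T^(2:ℕ) + 3*S^(2:ℕ)*T^(3:ℕ) + S^(4:ℕ) + 9*S^(3:ℕ)*T + 13*S^(2:ℕ)*T^(2:ℕ) + 3*S*T^(3:ℕ) + 4*S^(3:ℕ) + 15*S^(2:ℕ)*T + 10*S*T^(2:ℕ) + T^(3:ℕ) + 6*S^(2:ℕ) + 11*S*T + 3*T^(2:ℕ) + 4*S + 3*T + 1) :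
    0 < (S^(4:ℕ)*T^(3:ℕ) + 2*S^(4:ℕ)*T^(2:ℕ) + 2*S^(3:ℕ)*T^(3:ℕ) - S^(2:ℕ)*T^(4:ℕ) + 2*S^(4:ℕ)*T + 8*S^(3:ℕ)*T^(2:ℕ) + 3*S^(2:ℕ)*T^(3:ℕ) + S^(4:ℕ) + 9*S^(3:ℕ)*T + 13*S^(2:ℕ)*T^(2:ℕ) + 3*S*T^(3:ℕ) + 4*S^(3:ℕ) + 15*S^(2:ℕ)*T + 10*S*T^(2:ℕ) + T^(3:ℕ) + 6*S^(2:ℕ) + 11*S*T + 3*T^(2:ℕ) + 4*S + 3*T + 1) := c17

theorem F2_g15 (S T : ℝ) (d32 : 0 < T*(S + 1)^(3:ℕ)*(T + 1)^(2:ℕ)) (d40 : 0 < (S^(4:ℕ)*T^(3:ℕ) + 2*S^(4:ℕ)*T^(2:ℕ) + 2*S^(3:ℕ)*T^(3:ℕ) - S^(2:ℕ)*T^(4:ℕ) + 2*S^(4:ℕ)*T + 8*S^(3:ℕ)*T^(2:ℕ) + 3*S^(2:ℕ)*T^(3:ℕ) + S^(4:ℕ) + 9*S^(3:ℕ)*T + 13*S^(2:ℕ)*T^(2:ℕ) + 3*S*T^(3:ℕ) + 4*S^(3:ℕ) + 15*S^(2:ℕ)*T + 10*S*T^(2:ℕ) + T^(3:ℕ) +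 6*S^(2:ℕ) + 11*S*T + 3*T^(2:ℕ) + 4*S + 3*T + 1)) :
    (S + T + 1) * (((S^(2:ℕ)*T^(3:ℕ) - S^(3:ℕ)*T - S^(2:ℕ)*T^(2:ℕ) - S^(3:ℕ) - 4*S^(2:ℕ)*T - 2*S*T^(2:ℕ) - 3*S^(2:ℕ) - 5*S*T - T^(2:ℕ) - 3*S - 2*T - 1))/(T*(S + 1)^(3:ℕ)*(T + 1)^(2:ℕ))) < S := rlt d32 d40 d32 (by ring)

theorem F2_orr_2 (S T : ℝ) (g15 : (S + T + 1) * (((S^(2:ℕ)*T^(3:ℕ) - S^(3:ℕ)*T - S^(2:ℕ)*T^(2:ℕ) - S^(3:ℕ) - 4*S^(2:ℕ)*T - 2*S*T^(2:ℕ) - 3*S^(2:ℕ) - 5*S*T - T^(2:ℕ) - 3*S - 2*T - 1))/(T*(S + 1)^(3:ℕ)*(T + 1)^(2:ℕ))) < S) :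
    cond S T Letter.ga (((S^(2:ℕ)*T^(3:ℕ) - S^(3:ℕ)*T - S^(2:ℕ)*T^(2:ℕ) - S^(3:ℕ) - 4*S^(2:ℕ)*T - 2*S*T^(2:ℕ) - 3*S^(2:ℕ) - 5*S*T - T^(2:ℕ) - 3*S - 2*T - 1))/(T*(S + 1)^(3:ℕ)*(T + 1)^(2:ℕ)), (T)/((T + 1))) := g15

theorem F2_orr (S T : ℝ) (f12 : fl S T Letter.be (((S*T + T + 1))/((S + 1)*(T + 1)), (S*T*(S*T + S + 1))/((S + 1)^(2:ℕ)*(T + 1)^(2:ℕ))) = (((S^(2:ℕ)*T^(2:ℕ) - S^(2:ℕ) - S*T - 2*S - T - 1))/(T*(S + 1)^(2:ℕ)*(T + 1)), (S*T)/((S + 1)*(T + 1)^(2:ℕ)))) (f13 : fl S T Letter.al (((S^(2:ℕ)*T^(2:ℕ) - S^(2:ℕ) - S*T - 2*S - T - 1))/(T*(S + 1)^(2:ℕ)*(T + 1)), (S*T)/((S + 1)*(T + 1)^(2:ℕ))) = (((S^(2:ℕ)*T^(3:ℕ) - S^(3:ℕ)*T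 - S^(2:ℕ)*T^(2:ℕ) - S^(3:ℕ) - 4*S^(2:ℕ)*T - 2*S*T^(2:ℕ) - 3*S^(2:ℕ) - 5*S*T - T^(2:ℕ) - 3*S - 2*T - 1))/(T*(S + 1)^(3:ℕ)*(T + 1)^(2:ℕ)), (T)/((T + 1)))) (orr_0 : cond S T Letter.be (((S*T + T + 1))/((S + 1)*(T + 1)), (S*T*(S*T + S + 1))/((S + 1)^(2:ℕ)*(T + 1)^(2:ℕ)))) (orr_1 : cond S T Letter.al (((S^(2:ℕ)*T^(2:ℕ) - S^(2:ℕ) - S*T - 2*S - T - 1))/(T*(S + 1)^(2:ℕ)*(T + 1)), (S*T)/((S + 1)*(T + 1)^(2:ℕ)))) (orr_2 : cond S T Letter.ga (((S^(2:ℕ)*T^(3:ℕ) - S^(3:ℕ)*T - S^(2:ℕ)*T^(2:ℕ) - S^(3:ℕ) - 4*S^(2:ℕ)*T - 2*S*T^(2:ℕ) - 3*S^(2:ℕ) - 5*S*T - T^(2:ℕ) - 3*S - 2*T - 1))/(T*(S + 1)^(3:ℕ)*(T + 1)^(2:ℕ)), (T)/((T + 1)))) :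
    okc S T [Letter.be, Letter.al, Letter.ga] (((S*T + T + 1))/((S + 1)*(T + 1)), (S*T*(S*T + S + 1))/((S + 1)^(2:ℕ)*(T + 1)^(2:ℕ))) := (okc_cons' orr_0 f12 (okc_cons' orr_1 f13 (okc_last' orr_2)))

theorem F2_d41 (S T : ℝ) (pS : 0 < S) (pT : 0 < T) (pA : 0 < (S + 1)) (pB : 0 < (T + 1)) :
    0 < S*T^(2:ℕ)*(S + 1)^(2:ℕ)*(T + 1) := (mul_pos (mul_pos (mul_pos pS (pow_pos pT 2)) (pow_pos pA 2)) pB)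

theorem F2_f15 (S T : ℝ) (pT : 0 < T) (d1 : 0 < (S + 1)*(T + 1)^(2:ℕ)) (d4 : 0 < (S + 1)*(T + 1)) (d13 : 0 < S*T*(S + 1)^(2:ℕ)*(T + 1)^(2:ℕ)) (d41 : 0 < S*T^(2:ℕ)*(S + 1)^(2:ℕ)*(T + 1)) :
    fl S T Letter.be (((S*T + T + 1))/((S + 1)*(T + 1)), ((S^(3:ℕ)*T^(3:ℕ) + 2*S^(3:ℕ)*T^(2:ℕ) + S^(2:ℕ)*T^(3:ℕ) + 2*S^(3:ℕ)*T + 5*S^(2:ℕ)*T^(2:ℕ) + S*T^(3:ℕ) + S^(3:ℕ) + 6*S^(2:ℕ)*T + 4*S*T^(2:ℕ) + 3*S^(2:ℕ) + 6*S*T + T^(2:ℕ) + 3*S + 2*T + 1))/(S*T*(S + 1)^(2:ℕ)*(T + 1)^(2:ℕ))) = (((S^(3:ℕ)*T^(3:ℕ) + S^(3:ℕ)*T^(2:ℕ) + S^(2:ℕ)*T^(3:ℕ) + S^(3:ℕ)*T + 3*S^(2:ℕ)*T^(2:ℕ) + S*T^(3:ℕ) + S^(3:ℕ) + 4*S^(2:ℕ)*T + 3*S*T^(2:ℕ) + 3*S^(2:ℕ) + 5*S*T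 + T^(2:ℕ) + 3*S + 2*T + 1))/(S*T^(2:ℕ)*(S + 1)^(2:ℕ)*(T + 1)), (S*T)/((S + 1)*(T + 1)^(2:ℕ))) := fl_be' pT d4 d13 d41 d1 (by ring) (by ring)

theorem F2_d42 (S T : ℝ) (pS : 0 < S) (pT : 0 < T) (pA : 0 < (S + 1)) (pB : 0 < (T + 1)) :
    0 < S*T^(2:ℕ)*(S + 1)^(3:ℕ)*(T + 1)^(2:ℕ) := (mul_pos (mul_pos (mul_pos pS (pow_pos pT 2)) (pow_pos pA 3)) (pow_pos pB 2))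

theorem F2_f16 (S T : ℝ) (pS : 0 < S) (pT : 0 < T) (d1 : 0 < (S + 1)*(T + 1)^(2:ℕ)) (d3 : 0 < (T + 1)) (d41 : 0 < S*T^(2:ℕ)*(S + 1)^(2:ℕ)*(T + 1)) (d42 : 0 < S*T^(2:ℕ)*(S + 1)^(3:ℕ)*(T + 1)^(2:ℕ)) :
    fl S T Letter.al (((S^(3:ℕ)*T^(3:ℕ) + S^(3:ℕ)*T^(2:ℕ) + S^(2:ℕ)*T^(3:ℕ) + S^(3:ℕ)*T + 3*S^(2:ℕ)*T^(2:ℕ) + S*T^(3:ℕ) + S^(3:ℕ) + 4*S^(2:ℕ)*T + 3*S*T^(2:ℕ) + 3*S^(2:ℕ) + 5*S*T + T^(2:ℕ) + 3*S + 2*T + 1))/(S*T^(2:ℕ)*(S + 1)^(2:ℕ)*(T + 1)), (S*T)/((S + 1)*(T + 1)^(2:ℕ))) = (((S^(3:ℕ)*T^(4:ℕ) + S^(3:ℕ)*T^(3:ℕ) + S^(2:ℕ)*T^(4:ℕ) + S^(4:ℕ)*T + 3*S^(3:ℕ)*T^(2:ℕ) + 4*S^(2:ℕ)*T^(3:ℕ) + S*T^(4:ℕ) + S^(4:ℕ) + 6*S^(3:ℕ)*T + 9*S^(2:ℕ)*T^(2:ℕ)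 + 4*S*T^(3:ℕ) + 4*S^(3:ℕ) + 12*S^(2:ℕ)*T + 9*S*T^(2:ℕ) + T^(3:ℕ) + 6*S^(2:ℕ) + 10*S*T + 3*T^(2:ℕ) + 4*S + 3*T + 1))/(S*T^(2:ℕ)*(S + 1)^(3:ℕ)*(T + 1)^(2:ℕ)), (T)/((T + 1))) := fl_al' pS pT d41 d1 d42 d3 (by ring) (by ring)

theorem F2_f17 (S T : ℝ) (pS : 0 < S) (d3 : 0 < (T + 1)) (d4 : 0 < (S + 1)*(T + 1)) (d22 : 0 < S^(2:ℕ)*T^(2:ℕ)*(S + 1)^(2:ℕ)*(T + 1)^(2:ℕ)) (d42 : 0 < S*T^(2:ℕ)*(S + 1)^(3:ℕ)*(T + 1)^(2:ℕ)) :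
    fl S T Letter.ga (((S^(3:ℕ)*T^(4:ℕ) + S^(3:ℕ)*T^(3:ℕ) + S^(2:ℕ)*T^(4:ℕ) + S^(4:ℕ)*T + 3*S^(3:ℕ)*T^(2:ℕ) + 4*S^(2:ℕ)*T^(3:ℕ) + S*T^(4:ℕ) + S^(4:ℕ) + 6*S^(3:ℕ)*T + 9*S^(2:ℕ)*T^(2:ℕ) + 4*S*T^(3:ℕ) + 4*S^(3:ℕ) + 12*S^(2:ℕ)*T + 9*S*T^(2:ℕ) + T^(3:ℕ) + 6*S^(2:ℕ) + 10*S*T + 3*T^(2:ℕ) + 4*S + 3*T + 1))/(S*T^(2:ℕ)*(S + 1)^(3:ℕ)*(T + 1)^(2:ℕ)), (T)/((T + 1))) = (((S*T + T + 1))/((S + 1)*(T + 1)), ((S^(4:ℕ)*T^(4:ℕ) + 2*S^(4:ℕ)*T^(3:ℕ) + S^(3:ℕ)*T^(4:ℕ) + S^(4:ℕ)*T^(2:ℕ) + 3*S^(3:ℕ)*T^(3:ℕ) - S^(4:ℕ)*T - S^(3:ℕ)*T^(2:ℕ) - 2*S^(2:ℕ)*T^(3:ℕ) - S*T^(4:ℕ) - S^(4:ℕ) - 6*S^(3:ℕ)*T - 8*S^(2:ℕ)*T^(2:ℕ) - 4*S*T^(3:ℕ) - 4*S^(3:ℕ) - 12*S^(2:ℕ)*T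 - 9*S*T^(2:ℕ) - T^(3:ℕ) - 6*S^(2:ℕ) - 10*S*T - 3*T^(2:ℕ) - 4*S - 3*T - 1))/(S^(2:ℕ)*T^(2:ℕ)*(S + 1)^(2:ℕ)*(T + 1)^(2:ℕ))) := fl_ga' pS d42 d3 d4 d22 (by ring) (by ring)

theorem F2_d43 (S T : ℝ) (c18 : 0 < S^(3:ℕ)*T^(3:ℕ) + 2*S^(3:ℕ)*T^(2:ℕ) + S^(2:ℕ)*T^(3:ℕ) + 2*S^(3:ℕ)*T + 5*S^(2:ℕ)*T^(2:ℕ) + S*T^(3:ℕ) + S^(3:ℕ) + 6*S^(2:ℕ)*T + 4*S*T^(2:ℕ) + 3*S^(2:ℕ) + 6*S*T + T^(2:ℕ) + 3*S + 2*T + 1) :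
    0 < (S^(3:ℕ)*T^(3:ℕ) + 2*S^(3:ℕ)*T^(2:ℕ) + S^(2:ℕ)*T^(3:ℕ) + 2*S^(3:ℕ)*T + 5*S^(2:ℕ)*T^(2:ℕ) + S*T^(3:ℕ) + S^(3:ℕ) + 6*S^(2:ℕ)*T + 4*S*T^(2:ℕ) + 3*S^(2:ℕ) + 6*S*T + T^(2:ℕ) + 3*S + 2*T + 1) := c18

theorem F2_q12 (S T : ℝ) (d13 : 0 < S*T*(S + 1)^(2:ℕ)*(T + 1)^(2:ℕ)) (d43 : 0 < (S^(3:ℕ)*T^(3:ℕ) + 2*S^(3:ℕ)*T^(2:ℕ) + S^(2:ℕ)*T^(3:ℕ) + 2*S^(3:ℕ)*T + 5*S^(2:ℕ)*T^(2:ℕ) + S*T^(3:ℕ) + S^(3:ℕ) + 6*S^(2:ℕ)*T + 4*S*T^(2:ℕ) + 3*S^(2:ℕ) + 6*S*T + T^(2:ℕ) + 3*S + 2*T + 1)) :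
    0 < ((S^(3:ℕ)*T^(3:ℕ) + 2*S^(3:ℕ)*T^(2:ℕ) + S^(2:ℕ)*T^(3:ℕ) + 2*S^(3:ℕ)*T + 5*S^(2:ℕ)*T^(2:ℕ) + S*T^(3:ℕ) + S^(3:ℕ) + 6*S^(2:ℕ)*T + 4*S*T^(2:ℕ) + 3*S^(2:ℕ) + 6*S*T + T^(2:ℕ) + 3*S + 2*T + 1))/(S*T*(S + 1)^(2:ℕ)*(T + 1)^(2:ℕ)) := div_pos d43 d13

theorem F2_q13 (S T : ℝ) (d13 : 0 < S*T*(S + 1)^(2:ℕ)*(T + 1)^(2:ℕ)) (d38 : 0 < (S^(2:ℕ)*T^(3:ℕ) - S^(3:ℕ)*T - S^(2:ℕ)*T^(2:ℕ) - S^(3:ℕ) - 4*S^(2:ℕ)*T - 2*S*T^(2:ℕ) - 3*S^(2:ℕ) - 5*S*T - T^(2:ℕ) - 3*S - 2*T - 1)) :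
    ((S^(3:ℕ)*T^(3:ℕ) + 2*S^(3:ℕ)*T^(2:ℕ) + S^(2:ℕ)*T^(3:ℕ) + 2*S^(3:ℕ)*T + 5*S^(2:ℕ)*T^(2:ℕ) + S*T^(3:ℕ) + S^(3:ℕ) + 6*S^(2:ℕ)*T + 4*S*T^(2:ℕ) + 3*S^(2:ℕ) + 6*S*T + T^(2:ℕ) + 3*S + 2*T + 1))/(S*T*(S + 1)^(2:ℕ)*(T + 1)^(2:ℕ)) < 1 := rlt1 d13 d38 d13 (by ring)

theorem F2_sC (S T : ℝ) (q8 : 0 < ((S*T + T + 1))/((S + 1)*(T + 1))) (q9 : ((S*T + T + 1))/((S + 1)*(T + 1)) < 1) (q12 : 0 < ((S^(3:ℕ)*T^(3:ℕ) + 2*S^(3:ℕ)*T^(2:ℕ) + S^(2:ℕ)*T^(3:ℕ) + 2*S^(3:ℕ)*T + 5*S^(2:ℕ)*T^(2:ℕ) + S*T^(3:ℕ) + S^(3:ℕ) + 6*S^(2:ℕ)*T + 4*S*T^(2:ℕ) + 3*S^(2:ℕ) + 6*S*T + T^(2:ℕ) + 3*S + 2*T + 1))/(S*T*(S + 1)^(2:ℕ)*(T + 1)^(2:ℕ))) (q13 : ((S^(3:ℕ)*T^(3:ℕ)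 + 2*S^(3:ℕ)*T^(2:ℕ) + S^(2:ℕ)*T^(3:ℕ) + 2*S^(3:ℕ)*T + 5*S^(2:ℕ)*T^(2:ℕ) + S*T^(3:ℕ) + S^(3:ℕ) + 6*S^(2:ℕ)*T + 4*S*T^(2:ℕ) + 3*S^(2:ℕ) + 6*S*T + T^(2:ℕ) + 3*S + 2*T + 1))/(S*T*(S + 1)^(2:ℕ)*(T + 1)^(2:ℕ)) < 1) :
    Sq (((S*T + T + 1))/((S + 1)*(T + 1)), ((S^(3:ℕ)*T^(3:ℕ) + 2*S^(3:ℕ)*T^(2:ℕ) + S^(2:ℕ)*T^(3:ℕ) + 2*S^(3:ℕ)*T + 5*S^(2:ℕ)*T^(2:ℕ) + S*T^(3:ℕ) + S^(3:ℕ) + 6*S^(2:ℕ)*T + 4*S*T^(2:ℕ) + 3*S^(2:ℕ) + 6*S*T + T^(2:ℕ) + 3*S + 2*T + 1))/(S*T*(S + 1)^(2:ℕ)*(T + 1)^(2:ℕ))) := ⟨⟨q8, q9⟩, q12, q13⟩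

theorem F2_d44 (S T : ℝ) (c19 : 0 < S^(3:ℕ)*T^(3:ℕ) + S^(3:ℕ)*T^(2:ℕ) + S^(2:ℕ)*T^(3:ℕ) + S^(3:ℕ)*T + 3*S^(2:ℕ)*T^(2:ℕ) + S*T^(3:ℕ) + S^(3:ℕ) + 4*S^(2:ℕ)*T + 3*S*T^(2:ℕ) + 3*S^(2:ℕ) + 5*S*T + T^(2:ℕ) + 3*S + 2*T + 1) :
    0 < (S^(3:ℕ)*T^(3:ℕ) + S^(3:ℕ)*T^(2:ℕ) + S^(2:ℕ)*T^(3:ℕ) + S^(3:ℕ)*T + 3*S^(2:ℕ)*T^(2:ℕ) + S*T^(3:ℕ) + S^(3:ℕ) + 4*S^(2:ℕ)*T + 3*S*T^(2:ℕ) + 3*S^(2:ℕ) + 5*S*T + T^(2:ℕ) + 3*S + 2*T + 1) := c19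

theorem F2_d45 (S T : ℝ) (pS : 0 < S) (pT : 0 < T) (pA : 0 < (S + 1)) (pB : 0 < (T + 1)) :
    0 < S*T*(S + 1)^(2:ℕ)*(T + 1) := (mul_pos (mul_pos (mul_pos pS pT) (pow_pos pA 2)) pB)

theorem F2_g16 (S T : ℝ) (d13 : 0 < S*T*(S + 1)^(2:ℕ)*(T + 1)^(2:ℕ)) (d44 : 0 < (S^(3:ℕ)*T^(3:ℕ) + S^(3:ℕ)*T^(2:ℕ) + S^(2:ℕ)*T^(3:ℕ) + S^(3:ℕ)*T + 3*S^(2:ℕ)*T^(2:ℕ) + S*T^(3:ℕ) + S^(3:ℕ) + 4*S^(2:ℕ)*T + 3*S*T^(2:ℕ) + 3*S^(2:ℕ) + 5*S*T + T^(2:ℕ) + 3*S + 2*T + 1)) (d45 : 0 < S*T*(S + 1)^(2:ℕ)*(T + 1)) :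
    1 < (T + 1) * (((S^(3:ℕ)*T^(3:ℕ) + 2*S^(3:ℕ)*T^(2:ℕ) + S^(2:ℕ)*T^(3:ℕ) + 2*S^(3:ℕ)*T + 5*S^(2:ℕ)*T^(2:ℕ) + S*T^(3:ℕ) + S^(3:ℕ) + 6*S^(2:ℕ)*T + 4*S*T^(2:ℕ) + 3*S^(2:ℕ) + 6*S*T + T^(2:ℕ) + 3*S + 2*T + 1))/(S*T*(S + 1)^(2:ℕ)*(T + 1)^(2:ℕ))) := rgt d13 d44 d45 (by ring)

theorem F2_oC_0 (S T : ℝ) (g11 : S < (S + T + 1) * (((S*T + T + 1))/((S + 1)*(T + 1)))) (g16 : 1 < (T + 1) * (((S^(3:ℕ)*T^(3:ℕ) + 2*S^(3:ℕ)*T^(2:ℕ) + S^(2:ℕ)*T^(3:ℕ) + 2*S^(3:ℕ)*T + 5*S^(2:ℕ)*T^(2:ℕ) + S*T^(3:ℕ) + S^(3:ℕ) + 6*S^(2:ℕ)*T + 4*S*T^(2:ℕ) + 3*S^(2:ℕ) + 6*S*T + T^(2:ℕ) + 3*S + 2*T + 1))/(S*T*(S + 1)^(2:ℕ)*(T + 1)^(2:ℕ)))) :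
    cond S T Letter.be (((S*T + T + 1))/((S + 1)*(T + 1)), ((S^(3:ℕ)*T^(3:ℕ) + 2*S^(3:ℕ)*T^(2:ℕ) + S^(2:ℕ)*T^(3:ℕ) + 2*S^(3:ℕ)*T + 5*S^(2:ℕ)*T^(2:ℕ) + S*T^(3:ℕ) + S^(3:ℕ) + 6*S^(2:ℕ)*T + 4*S*T^(2:ℕ) + 3*S^(2:ℕ) + 6*S*T + T^(2:ℕ) + 3*S + 2*T + 1))/(S*T*(S + 1)^(2:ℕ)*(T + 1)^(2:ℕ))) := ⟨g11, g16⟩

theorem F2_d46 (S T : ℝ) (c20 : 0 < S^(3:ℕ)*T^(4:ℕ) + S^(3:ℕ)*T^(3:ℕ) + S^(2:ℕ)*T^(4:ℕ) + S^(4:ℕ)*T + 3*S^(3:ℕ)*T^(2:ℕ) + 4*S^(2:ℕ)*T^(3:ℕ) + S*T^(4:ℕ) + S^(4:ℕ) + 6*S^(3:ℕ)*T + 9*S^(2:ℕ)*T^(2:ℕ) + 4*S*T^(3:ℕ) + 4*S^(3:ℕ) + 12*S^(2:ℕ)*T + 9*S*T^(2:ℕ) + T^(3:ℕ) + 6*S^(2:ℕ) + 10*S*T + 3*T^(2:ℕ) + 4*S + 3*T + 1) :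
    0 < (S^(3:ℕ)*T^(4:ℕ) + S^(3:ℕ)*T^(3:ℕ) + S^(2:ℕ)*T^(4:ℕ) + S^(4:ℕ)*T + 3*S^(3:ℕ)*T^(2:ℕ) + 4*S^(2:ℕ)*T^(3:ℕ) + S*T^(4:ℕ) + S^(4:ℕ) + 6*S^(3:ℕ)*T + 9*S^(2:ℕ)*T^(2:ℕ) + 4*S*T^(3:ℕ) + 4*S^(3:ℕ) + 12*S^(2:ℕ)*T + 9*S*T^(2:ℕ) + T^(3:ℕ) + 6*S^(2:ℕ) + 10*S*T + 3*T^(2:ℕ) + 4*S + 3*T + 1) := c20

theorem F2_g17 (S T : ℝ) (d41 : 0 < S*T^(2:ℕ)*(S + 1)^(2:ℕ)*(T + 1)) (d46 : 0 < (S^(3:ℕ)*T^(4:ℕ) + S^(3:ℕ)*T^(3:ℕ) + S^(2:ℕ)*T^(4:ℕ) + S^(4:ℕ)*T + 3*S^(3:ℕ)*T^(2:ℕ) + 4*S^(2:ℕ)*T^(3:ℕ) + S*T^(4:ℕ) + S^(4:ℕ) + 6*S^(3:ℕ)*T + 9*S^(2:ℕ)*T^(2:ℕ) + 4*S*T^(3:ℕ) + 4*S^(3:ℕ) + 12*S^(2:ℕ)*T + 9*S*T^(2:ℕ) + T^(3:ℕ) + 6*S^(2:ℕ) + 10*S*T + 3*T^(2:ℕ)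 + 4*S + 3*T + 1)) :
    S < (S + T + 1) * (((S^(3:ℕ)*T^(3:ℕ) + S^(3:ℕ)*T^(2:ℕ) + S^(2:ℕ)*T^(3:ℕ) + S^(3:ℕ)*T + 3*S^(2:ℕ)*T^(2:ℕ) + S*T^(3:ℕ) + S^(3:ℕ) + 4*S^(2:ℕ)*T + 3*S*T^(2:ℕ) + 3*S^(2:ℕ) + 5*S*T + T^(2:ℕ) + 3*S + 2*T + 1))/(S*T^(2:ℕ)*(S + 1)^(2:ℕ)*(T + 1))) := rgt d41 d46 d41 (by ring)

theorem F2_oC_1 (S T : ℝ) (g14 : (T + 1) * ((S*T)/((S + 1)*(T + 1)^(2:ℕ))) < 1) (g17 : S < (S + T + 1) * (((S^(3:ℕ)*T^(3:ℕ) + S^(3:ℕ)*T^(2:ℕ) + S^(2:ℕ)*T^(3:ℕ) + S^(3:ℕ)*T + 3*S^(2:ℕ)*T^(2:ℕ) + S*T^(3:ℕ) + S^(3:ℕ) + 4*S^(2:ℕ)*T + 3*S*T^(2:ℕ) + 3*S^(2:ℕ) + 5*S*T + T^(2:ℕ) + 3*S + 2*T + 1))/(S*T^(2:ℕ)*(S + 1)^(2:ℕ)*(T + 1)))) :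
    cond S T Letter.al (((S^(3:ℕ)*T^(3:ℕ) + S^(3:ℕ)*T^(2:ℕ) + S^(2:ℕ)*T^(3:ℕ) + S^(3:ℕ)*T + 3*S^(2:ℕ)*T^(2:ℕ) + S*T^(3:ℕ) + S^(3:ℕ) + 4*S^(2:ℕ)*T + 3*S*T^(2:ℕ) + 3*S^(2:ℕ) + 5*S*T + T^(2:ℕ) + 3*S + 2*T + 1))/(S*T^(2:ℕ)*(S + 1)^(2:ℕ)*(T + 1)), (S*T)/((S + 1)*(T + 1)^(2:ℕ))) := ⟨g17, g14⟩

theorem F2_d47 (S T : ℝ) (c21 : 0 < S^(5:ℕ)*T^(4:ℕ) + 2*S^(5:ℕ)*T^(3:ℕ) + 2*S^(4:ℕ)*T^(4:ℕ) - S^(3:ℕ)*T^(5:ℕ) + S^(5:ℕ)*T^(2:ℕ) + 5*S^(4:ℕ)*T^(3:ℕ) - S^(2:ℕ)*T^(5:ℕ) - S^(5:ℕ)*T - S^(4:ℕ)*T^(2:ℕ) - 2*S^(3:ℕ)*T^(3:ℕ) - 5*S^(2:ℕ)*T^(4:ℕ) - S*T^(5:ℕ) - S^(5:ℕ) - 8*S^(4:ℕ)*T - 15*S^(3:ℕ)*T^(2:ℕ) - 15*S^(2:ℕ)*T^(3:ℕ) - 5*S*T^(4:ℕ) - 5*S^(4:ℕ)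 - 22*S^(3:ℕ)*T - 29*S^(2:ℕ)*T^(2:ℕ) - 14*S*T^(3:ℕ) - T^(4:ℕ) - 10*S^(3:ℕ) - 28*S^(2:ℕ)*T - 22*S*T^(2:ℕ) - 4*T^(3:ℕ) - 10*S^(2:ℕ) - 17*S*T - 6*T^(2:ℕ) - 5*S - 4*T - 1) :
    0 < (S^(5:ℕ)*T^(4:ℕ) + 2*S^(5:ℕ)*T^(3:ℕ) + 2*S^(4:ℕ)*T^(4:ℕ) - S^(3:ℕ)*T^(5:ℕ) + S^(5:ℕ)*T^(2:ℕ) + 5*S^(4:ℕ)*T^(3:ℕ) - S^(2:ℕ)*T^(5:ℕ) - S^(5:ℕ)*T - S^(4:ℕ)*T^(2:ℕ) - 2*S^(3:ℕ)*T^(3:ℕ) - 5*S^(2:ℕ)*T^(4:ℕ) - S*T^(5:ℕ) - S^(5:ℕ) - 8*S^(4:ℕ)*T - 15*S^(3:ℕ)*T^(2:ℕ) - 15*S^(2:ℕ)*T^(3:ℕ) - 5*S*T^(4:ℕ) - 5*S^(4:ℕ) - 22*S^(3:ℕ)*T - 29*S^(2:ℕ)*T^(2:ℕ) - 14*S*T^(3:ℕ) - T^(4:ℕ) - 10*S^(3:ℕ) - 28*S^(2:ℕ)*T - 22*S*T^(2:ℕ) - 4*T^(3:ℕ) - 10*S^(2:ℕ) - 17*S*T - 6*T^(2:ℕ)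 - 5*S - 4*T - 1) := c21

theorem F2_g18 (S T : ℝ) (d42 : 0 < S*T^(2:ℕ)*(S + 1)^(3:ℕ)*(T + 1)^(2:ℕ)) (d47 : 0 < (S^(5:ℕ)*T^(4:ℕ) + 2*S^(5:ℕ)*T^(3:ℕ) + 2*S^(4:ℕ)*T^(4:ℕ) - S^(3:ℕ)*T^(5:ℕ) + S^(5:ℕ)*T^(2:ℕ) + 5*S^(4:ℕ)*T^(3:ℕ) - S^(2:ℕ)*T^(5:ℕ) - S^(5:ℕ)*T - S^(4:ℕ)*T^(2:ℕ) - 2*S^(3:ℕ)*T^(3:ℕ) - 5*S^(2:ℕ)*T^(4:ℕ) - S*T^(5:ℕ) - S^(5:ℕ) - 8*S^(4:ℕ)*T - 15*S^(3:ℕ)*T^(2:ℕ) - 15*S^(2:ℕ)*T^(3:ℕ) - 5*S*T^(4:ℕ) - 5*S^(4:ℕ) - 22*S^(3:ℕ)*T - 29*S^(2:ℕ)*T^(2:ℕ) - 14*S*T^(3:ℕ) - T^(4:ℕ) - 10*S^(3:ℕ) - 28*S^(2:ℕ)*T - 22*S*T^(2:ℕ) - 4*T^(3:ℕ) - 10*S^(2:ℕ) - 17*S*T - 6*T^(2:ℕ) - 5*S - 4*T - 1)) :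
    (S + T + 1) * (((S^(3:ℕ)*T^(4:ℕ) + S^(3:ℕ)*T^(3:ℕ) + S^(2:ℕ)*T^(4:ℕ) + S^(4:ℕ)*T + 3*S^(3:ℕ)*T^(2:ℕ) + 4*S^(2:ℕ)*T^(3:ℕ) + S*T^(4:ℕ) + S^(4:ℕ) + 6*S^(3:ℕ)*T + 9*S^(2:ℕ)*T^(2:ℕ) + 4*S*T^(3:ℕ) + 4*S^(3:ℕ) + 12*S^(2:ℕ)*T + 9*S*T^(2:ℕ) + T^(3:ℕ) + 6*S^(2:ℕ) + 10*S*T + 3*T^(2:ℕ) + 4*S + 3*T + 1))/(S*T^(2:ℕ)*(S + 1)^(3:ℕ)*(T + 1)^(2:ℕ))) < S := rlt d42 d47 d42 (by ring)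

theorem F2_oC_2 (S T : ℝ) (g18 : (S + T + 1) * (((S^(3:ℕ)*T^(4:ℕ) + S^(3:ℕ)*T^(3:ℕ) + S^(2:ℕ)*T^(4:ℕ) + S^(4:ℕ)*T + 3*S^(3:ℕ)*T^(2:ℕ) + 4*S^(2:ℕ)*T^(3:ℕ) + S*T^(4:ℕ) + S^(4:ℕ) + 6*S^(3:ℕ)*T + 9*S^(2:ℕ)*T^(2:ℕ) + 4*S*T^(3:ℕ) + 4*S^(3:ℕ) + 12*S^(2:ℕ)*T + 9*S*T^(2:ℕ) + T^(3:ℕ) + 6*S^(2:ℕ) + 10*S*T + 3*T^(2:ℕ) + 4*S + 3*T + 1))/(S*T^(2:ℕ)*(S + 1)^(3:ℕ)*(T + 1)^(2:ℕ))) < S) :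
    cond S T Letter.ga (((S^(3:ℕ)*T^(4:ℕ) + S^(3:ℕ)*T^(3:ℕ) + S^(2:ℕ)*T^(4:ℕ) + S^(4:ℕ)*T + 3*S^(3:ℕ)*T^(2:ℕ) + 4*S^(2:ℕ)*T^(3:ℕ) + S*T^(4:ℕ) + S^(4:ℕ) + 6*S^(3:ℕ)*T + 9*S^(2:ℕ)*T^(2:ℕ) + 4*S*T^(3:ℕ) + 4*S^(3:ℕ) + 12*S^(2:ℕ)*T + 9*S*T^(2:ℕ) + T^(3:ℕ) + 6*S^(2:ℕ) + 10*S*T + 3*T^(2:ℕ) + 4*S + 3*T + 1))/(S*T^(2:ℕ)*(S + 1)^(3:ℕ)*(T + 1)^(2:ℕ)), (T)/((T + 1))) := g18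

theorem F2_oC (S T : ℝ) (f15 : fl S T Letter.be (((S*T + T + 1))/((S + 1)*(T + 1)), ((S^(3:ℕ)*T^(3:ℕ) + 2*S^(3:ℕ)*T^(2:ℕ) + S^(2:ℕ)*T^(3:ℕ) + 2*S^(3:ℕ)*T + 5*S^(2:ℕ)*T^(2:ℕ) + S*T^(3:ℕ) + S^(3:ℕ) + 6*S^(2:ℕ)*T + 4*S*T^(2:ℕ) + 3*S^(2:ℕ) + 6*S*T + T^(2:ℕ) + 3*S + 2*T + 1))/(S*T*(S + 1)^(2:ℕ)*(T + 1)^(2:ℕ))) = (((S^(3:ℕ)*T^(3:ℕ) + S^(3:ℕ)*T^(2:ℕ) + S^(2:ℕ)*T^(3:ℕ) + S^(3:ℕ)*T + 3*S^(2:ℕ)*T^(2:ℕ) + S*T^(3:ℕ) + S^(3:ℕ) + 4*S^(2:ℕ)*T + 3*S*T^(2:ℕ) + 3*S^(2:ℕ) + 5*S*T + T^(2:ℕ) + 3*S + 2*T + 1))/(S*T^(2:ℕ)*(S + 1)^(2:ℕ)*(T + 1)), (S*T)/((S + 1)*(T + 1)^(2:ℕ)))) (f16 : fl S T Letter.al (((S^(3:ℕ)*T^(3:ℕ) + S^(3:ℕ)*T^(2:ℕ) +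 S^(2:ℕ)*T^(3:ℕ) + S^(3:ℕ)*T + 3*S^(2:ℕ)*T^(2:ℕ) + S*T^(3:ℕ) + S^(3:ℕ) + 4*S^(2:ℕ)*T + 3*S*T^(2:ℕ) + 3*S^(2:ℕ) + 5*S*T + T^(2:ℕ) + 3*S + 2*T + 1))/(S*T^(2:ℕ)*(S + 1)^(2:ℕ)*(T + 1)), (S*T)/((S + 1)*(T + 1)^(2:ℕ))) = (((S^(3:ℕ)*T^(4:ℕ) + S^(3:ℕ)*T^(3:ℕ) + S^(2:ℕ)*T^(4:ℕ) + S^(4:ℕ)*T + 3*S^(3:ℕ)*T^(2:ℕ) + 4*S^(2:ℕ)*T^(3:ℕ) + S*T^(4:ℕ) + S^(4:ℕ) + 6*S^(3:ℕ)*T + 9*S^(2:ℕ)*T^(2:ℕ) + 4*S*T^(3:ℕ) + 4*S^(3:ℕ) + 12*S^(2:ℕ)*T + 9*S*T^(2:ℕ) + T^(3:ℕ) + 6*S^(2:ℕ) + 10*S*T + 3*T^(2:ℕ) + 4*S + 3*T + 1))/(S*T^(2:ℕ)*(S + 1)^(3:ℕ)*(T + 1)^(2:ℕ)), (T)/((T + 1)))) (oC_0 : cond S T Letter.be (((S*T + T + 1))/((S + 1)*(T + 1)), ((S^(3:ℕ)*T^(3:ℕ)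 + 2*S^(3:ℕ)*T^(2:ℕ) + S^(2:ℕ)*T^(3:ℕ) + 2*S^(3:ℕ)*T + 5*S^(2:ℕ)*T^(2:ℕ) + S*T^(3:ℕ) + S^(3:ℕ) + 6*S^(2:ℕ)*T + 4*S*T^(2:ℕ) + 3*S^(2:ℕ) + 6*S*T + T^(2:ℕ) + 3*S + 2*T + 1))/(S*T*(S + 1)^(2:ℕ)*(T + 1)^(2:ℕ)))) (oC_1 : cond S T Letter.al (((S^(3:ℕ)*T^(3:ℕ) + S^(3:ℕ)*T^(2:ℕ) + S^(2:ℕ)*T^(3:ℕ) + S^(3:ℕ)*T + 3*S^(2:ℕ)*T^(2:ℕ) + S*T^(3:ℕ) + S^(3:ℕ) + 4*S^(2:ℕ)*T + 3*S*T^(2:ℕ) + 3*S^(2:ℕ) + 5*S*T + T^(2:ℕ) + 3*S + 2*T + 1))/(S*T^(2:ℕ)*(S + 1)^(2:ℕ)*(T + 1)), (S*T)/((S + 1)*(T + 1)^(2:ℕ)))) (oC_2 : cond S T Letter.ga (((S^(3:ℕ)*T^(4:ℕ) + S^(3:ℕ)*T^(3:ℕ) + S^(2:ℕ)*T^(4:ℕ) + S^(4:ℕ)*T + 3*S^(3:ℕ)*T^(2:ℕ) + 4*S^(2:ℕ)*T^(3:ℕ) + S*T^(4:ℕ)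 + S^(4:ℕ) + 6*S^(3:ℕ)*T + 9*S^(2:ℕ)*T^(2:ℕ) + 4*S*T^(3:ℕ) + 4*S^(3:ℕ) + 12*S^(2:ℕ)*T + 9*S*T^(2:ℕ) + T^(3:ℕ) + 6*S^(2:ℕ) + 10*S*T + 3*T^(2:ℕ) + 4*S + 3*T + 1))/(S*T^(2:ℕ)*(S + 1)^(3:ℕ)*(T + 1)^(2:ℕ)), (T)/((T + 1)))) :
    okc S T [Letter.be, Letter.al, Letter.ga] (((S*T + T + 1))/((S + 1)*(T + 1)), ((S^(3:ℕ)*T^(3:ℕ) + 2*S^(3:ℕ)*T^(2:ℕ) + S^(2:ℕ)*T^(3:ℕ) + 2*S^(3:ℕ)*T + 5*S^(2:ℕ)*T^(2:ℕ) + S*T^(3:ℕ) + S^(3:ℕ) + 6*S^(2:ℕ)*T + 4*S*T^(2:ℕ) + 3*S^(2:ℕ) + 6*S*T + T^(2:ℕ) + 3*S + 2*T + 1))/(S*T*(S + 1)^(2:ℕ)*(T + 1)^(2:ℕ))) := (okc_cons' oC_0 f15 (okc_cons' oC_1 f16 (okc_last' oC_2)))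

theorem F2_vP (S T : ℝ) (d1 : 0 < (S + 1)*(T + 1)^(2:ℕ)) (d5 : 0 < S*T*(S + 1)^(2:ℕ)*(T + 1)^(3:ℕ)) (d8 : 0 < (S + 1)^(2:ℕ)*(T + 1)^(3:ℕ)) (d11 : 0 < S*T) :
    (((S)/((S + 1)), (S*T)/((S + 1)*(T + 1)^(2:ℕ))) : ℝ × ℝ) + ((-((S + T + 1)))/(S*T)) • ((0, ((S^(2:ℕ)*T^(2:ℕ) + S^(2:ℕ)*T + S*T^(2:ℕ) + S^(2:ℕ) + 3*S*T + T^(2:ℕ) + 2*S + 2*T + 1))/((S + 1)^(2:ℕ)*(T + 1)^(3:ℕ))) : ℝ × ℝ) = ((S)/((S + 1)), ((S^(3:ℕ)*T^(3:ℕ) - S^(3:ℕ)*T - 2*S^(2:ℕ)*T^(2:ℕ) - S*T^(3:ℕ) - S^(3:ℕ) - 5*S^(2:ℕ)*T - 5*S*T^(2:ℕ) - T^(3:ℕ) - 3*S^(2:ℕ) - 7*S*T - 3*T^(2:ℕ) - 3*S - 3*T - 1))/(S*T*(S + 1)^(2:ℕ)*(T + 1)^(3:ℕ))) := vecY (radd d1 d11 d8 d5 (by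 ring))

theorem F2_vq (S T : ℝ) (d1 : 0 < (S + 1)*(T + 1)^(2:ℕ)) (d8 : 0 < (S + 1)^(2:ℕ)*(T + 1)^(3:ℕ)) :
    (((S)/((S + 1)), (S*T)/((S + 1)*(T + 1)^(2:ℕ))) : ℝ × ℝ) + ((0, ((S^(2:ℕ)*T^(2:ℕ) + S^(2:ℕ)*T + S*T^(2:ℕ) + S^(2:ℕ) + 3*S*T + T^(2:ℕ) + 2*S + 2*T + 1))/((S + 1)^(2:ℕ)*(T + 1)^(3:ℕ))) : ℝ × ℝ) = ((S)/((S + 1)), ((2*S^(2:ℕ)*T^(2:ℕ) + 2*S^(2:ℕ)*T + 2*S*T^(2:ℕ) + S^(2:ℕ) + 4*S*T + T^(2:ℕ) + 2*S + 2*T + 1))/((S + 1)^(2:ℕ)*(T + 1)^(3:ℕ))) := vecY1 (radd1 d1 d8 d8 (by ring))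

theorem F2_vr (S T : ℝ) (d4 : 0 < (S + 1)*(T + 1)) (d24 : 0 < (S + 1)^(2:ℕ)*(T + 1)^(2:ℕ)) :
    ((((S*T + T + 1))/((S + 1)*(T + 1)), ((S*T + S + 1))/((S + 1)*(T + 1))) : ℝ × ℝ) + ((0, (-((S + T + 1)*(S*T + S + 1)))/((S + 1)^(2:ℕ)*(T + 1)^(2:ℕ))) : ℝ × ℝ) = (((S*T + T + 1))/((S + 1)*(T + 1)), (S*T*(S*T + S + 1))/((S + 1)^(2:ℕ)*(T + 1)^(2:ℕ))) := vecY1 (radd1 d4 d24 d24 (by ring))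

theorem F2_vQ (S T : ℝ) (d1 : 0 < (S + 1)*(T + 1)^(2:ℕ)) (d8 : 0 < (S + 1)^(2:ℕ)*(T + 1)^(3:ℕ)) (d11 : 0 < S*T) (d16 : 0 < S^(2:ℕ)*T^(2:ℕ)*(S + 1)^(2:ℕ)*(T + 1)^(3:ℕ)) :
    (((S)/((S + 1)), (S*T)/((S + 1)*(T + 1)^(2:ℕ))) : ℝ × ℝ) + (((-((S + T + 1)))/(S*T))^(2:ℕ)) • ((0, ((S^(2:ℕ)*T^(2:ℕ) + S^(2:ℕ)*T + S*T^(2:ℕ) + S^(2:ℕ) + 3*S*T + T^(2:ℕ) + 2*S + 2*T + 1))/((S + 1)^(2:ℕ)*(T + 1)^(3:ℕ))) : ℝ × ℝ) = ((S)/((S + 1)), ((S^(4:ℕ)*T^(4:ℕ) + S^(4:ℕ)*T^(3:ℕ) + S^(3:ℕ)*T^(4:ℕ) + S^(4:ℕ)*T^(2:ℕ) + 3*S^(3:ℕ)*T^(3:ℕ) + S^(2:ℕ)*T^(4:ℕ) + S^(4:ℕ)*T + 5*S^(3:ℕ)*T^(2:ℕ) + 5*S^(2:ℕ)*T^(3:ℕ) + S*T^(4:ℕ) + S^(4:ℕ) + 7*S^(3:ℕ)*T + 13*S^(2:ℕ)*T^(2:ℕ)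 + 7*S*T^(3:ℕ) + T^(4:ℕ) + 4*S^(3:ℕ) + 15*S^(2:ℕ)*T + 15*S*T^(2:ℕ) + 4*T^(3:ℕ) + 6*S^(2:ℕ) + 13*S*T + 6*T^(2:ℕ) + 4*S + 4*T + 1))/(S^(2:ℕ)*T^(2:ℕ)*(S + 1)^(2:ℕ)*(T + 1)^(3:ℕ))) := vecY (radd2 d1 d11 d8 d16 (by ring))

theorem F2_vC (S T : ℝ) (d4 : 0 < (S + 1)*(T + 1)) (d11 : 0 < S*T) (d13 : 0 < S*T*(S + 1)^(2:ℕ)*(T + 1)^(2:ℕ)) (d24 : 0 < (S + 1)^(2:ℕ)*(T + 1)^(2:ℕ)) :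
    ((((S*T + T + 1))/((S + 1)*(T + 1)), ((S*T + S + 1))/((S + 1)*(T + 1))) : ℝ × ℝ) + ((-((S + T + 1)))/(S*T)) • ((0, (-((S + T + 1)*(S*T + S + 1)))/((S + 1)^(2:ℕ)*(T + 1)^(2:ℕ))) : ℝ × ℝ) = (((S*T + T + 1))/((S + 1)*(T + 1)), ((S^(3:ℕ)*T^(3:ℕ) + 2*S^(3:ℕ)*T^(2:ℕ) + S^(2:ℕ)*T^(3:ℕ) + 2*S^(3:ℕ)*T + 5*S^(2:ℕ)*T^(2:ℕ) + S*T^(3:ℕ) + S^(3:ℕ) + 6*S^(2:ℕ)*T + 4*S*T^(2:ℕ) + 3*S^(2:ℕ) + 6*S*T + T^(2:ℕ) + 3*S + 2*T + 1))/(S*T*(S + 1)^(2:ℕ)*(T + 1)^(2:ℕ))) := vecY (radd d4 d11 d24 d13 (by ring))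

theorem F2_nun (S T : ℝ) (d11 : 0 < S*T) (d39 : 0 < (S + T + 1)) :
    (-((S + T + 1)))/(S*T) < 0 := rneg d39 d11

theorem F2_d48 (S T : ℝ) (c22 : 0 < S*T - S - T - 1) :
    0 < (S*T - S - T - 1) := c22

theorem F2_num (S T : ℝ) (d11 : 0 < S*T) (d48 : 0 < (S*T - S - T - 1)) :
    -1 < (-((S + T + 1)))/(S*T) := rgtm d11 d48 d11 (by ring)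

theorem F2_kan (S T : ℝ) (d11 : 0 < S*T) (d39 : 0 < (S + T + 1)) :
    (-((S + T + 1)))/(S*T) < 0 := rneg d39 d11

theorem F2_kam (S T : ℝ) (d11 : 0 < S*T) (d48 : 0 < (S*T - S - T - 1)) :
    -1 < (-((S + T + 1)))/(S*T) := rgtm d11 d48 d11 (by ring)

theorem F2_d49 (S T : ℝ) (pU : 0 < (S + T + 1)) (c12 : 0 < S*T + S + 1) :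
    0 < (S + T + 1)*(S*T + S + 1) := (mul_pos pU c12)

theorem F2_hdB (S T : ℝ) (d24 : 0 < (S + 1)^(2:ℕ)*(T + 1)^(2:ℕ)) (d49 : 0 < (S + T + 1)*(S*T + S + 1)) :
    ((0, (-((S + T + 1)*(S*T + S + 1)))/((S + 1)^(2:ℕ)*(T + 1)^(2:ℕ))) : ℝ × ℝ) ≠ 0 := ne0Y (rneg d49 d24).ne

theorem fam_F2 {S T : ℝ} (h4 : 4 ≤ S) (hL : -1/2 + 1/2*S^(2:ℕ) ≤ T) (hU : T ≤ S^(2:ℕ)) : HasConn S T := by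
  have pS : 0 < S := by linarith
  have pT : 0 < T := by nlinarith
  have pA : 0 < (S + 1) := by linarith
  have pB : 0 < (T + 1) := by linarith
  have pU : 0 < (S + T + 1) := by linarith
  have c0 : 0 < S^(3:ℕ)*T^(3:ℕ) - S^(3:ℕ)*T - 2*S^(2:ℕ)*T^(2:ℕ) - S*T^(3:ℕ) - S^(3:ℕ) - 5*S^(2:ℕ)*T - 5*S*T^(2:ℕ) - T^(3:ℕ) - 3*S^(2:ℕ) - 7*S*T - 3*T^(2:ℕ) - 3*S - 3*T - 1 := F2_c0 h4 hL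
  have c1 : 0 < S^(3:ℕ)*T^(4:ℕ) + 2*S^(3:ℕ)*T^(3:ℕ) + 2*S^(2:ℕ)*T^(4:ℕ) + 3*S^(3:ℕ)*T^(2:ℕ) + 6*S^(2:ℕ)*T^(3:ℕ) + S*T^(4:ℕ) + 2*S^(3:ℕ)*T + 8*S^(2:ℕ)*T^(2:ℕ) + 4*S*T^(3:ℕ) + S^(3:ℕ) + 7*S^(2:ℕ)*T + 8*S*T^(2:ℕ) + T^(3:ℕ) + 3*S^(2:ℕ) + 8*S*T + 3*T^(2:ℕ) + 3*S + 3*T + 1 := by positivity
  have c2 : 0 < 2*S^(2:ℕ)*T^(2:ℕ) + 2*S^(2:ℕ)*T + 2*S*T^(2:ℕ) + S^(2:ℕ) + 4*S*T + T^(2:ℕ) + 2*S + 2*T + 1 := by positivity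
  have c3 : 0 < S^(2:ℕ)*T + S^(2:ℕ) + S*T - T^(2:ℕ) + 2*S + 1 := F2_c3 h4 hL hU
  have c4 : 0 < S^(2:ℕ)*T^(4:ℕ) - 2*S^(3:ℕ)*T^(2:ℕ) + S^(2:ℕ)*T^(3:ℕ) + 2*S*T^(4:ℕ) - 2*S^(3:ℕ)*T - 3*S^(2:ℕ)*T^(2:ℕ) + 4*S*T^(3:ℕ) + T^(4:ℕ) - S^(3:ℕ) - 6*S^(2:ℕ)*T - S*T^(2:ℕ) + 2*T^(3:ℕ) - 3*S^(2:ℕ) - 6*S*T - 3*S - 2*T - 1 := F2_c4 h4 hL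
  have c5 : 0 < S^(4:ℕ)*T^(4:ℕ) + S^(4:ℕ)*T^(3:ℕ) + S^(3:ℕ)*T^(4:ℕ) + S^(4:ℕ)*T^(2:ℕ) + 3*S^(3:ℕ)*T^(3:ℕ) + S^(2:ℕ)*T^(4:ℕ) + S^(4:ℕ)*T + 5*S^(3:ℕ)*T^(2:ℕ) + 5*S^(2:ℕ)*T^(3:ℕ) + S*T^(4:ℕ) + S^(4:ℕ) + 7*S^(3:ℕ)*T + 13*S^(2:ℕ)*T^(2:ℕ) + 7*S*T^(3:ℕ) + T^(4:ℕ) + 4*S^(3:ℕ) + 15*S^(2:ℕ)*T + 15*S*T^(2:ℕ) + 4*T^(3:ℕ) + 6*S^(2:ℕ) + 13*S*T + 6*T^(2:ℕ) + 4*S + 4*T + 1 := by positivity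
  have c6 : 0 < S^(4:ℕ)*T^(5:ℕ) + 2*S^(4:ℕ)*T^(4:ℕ) + 2*S^(3:ℕ)*T^(5:ℕ) + 2*S^(4:ℕ)*T^(3:ℕ) + 5*S^(3:ℕ)*T^(4:ℕ) + S^(2:ℕ)*T^(5:ℕ) + 3*S^(3:ℕ)*T^(3:ℕ) + 2*S^(2:ℕ)*T^(4:ℕ) - S^(4:ℕ)*T - 3*S^(3:ℕ)*T^(2:ℕ) - 2*S^(2:ℕ)*T^(3:ℕ) - S*T^(4:ℕ) - S^(4:ℕ) - 7*S^(3:ℕ)*T - 12*S^(2:ℕ)*T^(2:ℕ) - 7*S*T^(3:ℕ) - T^(4:ℕ) - 4*S^(3:ℕ) - 15*S^(2:ℕ)*T - 15*S*T^(2:ℕ) - 4*T^(3:ℕ) - 6*S^(2:ℕ) - 13*S*T - 6*T^(2:ℕ) - 4*S - 4*T - 1 := F2_c6 h4 hL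
  have c7 : 0 < S^(3:ℕ)*T^(5:ℕ) - S^(4:ℕ)*T^(3:ℕ) + 2*S^(3:ℕ)*T^(4:ℕ) + 2*S^(2:ℕ)*T^(5:ℕ) + 2*S^(3:ℕ)*T^(3:ℕ) + 6*S^(2:ℕ)*T^(4:ℕ) + S*T^(5:ℕ) + S^(4:ℕ)*T + 4*S^(3:ℕ)*T^(2:ℕ) + 9*S^(2:ℕ)*T^(3:ℕ) + 4*S*T^(4:ℕ) + S^(4:ℕ) + 7*S^(3:ℕ)*T + 14*S^(2:ℕ)*T^(2:ℕ) + 10*S*T^(3:ℕ) + T^(4:ℕ) + 4*S^(3:ℕ) + 15*S^(2:ℕ)*T + 16*S*T^(2:ℕ) + 4*T^(3:ℕ) + 6*S^(2:ℕ) + 13*S*T + 6*T^(2:ℕ) + 4*S + 4*T + 1 := F2_c7 h4 hL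
  have c8 : 0 < S^(2:ℕ)*T^(2:ℕ) + S^(2:ℕ)*T + 2*S*T^(2:ℕ) + S^(2:ℕ) + 4*S*T + T^(2:ℕ) + 2*S + 2*T + 1 := by positivity
  have c9 : 0 < S^(2:ℕ)*T^(2:ℕ) + S^(2:ℕ)*T + S*T^(2:ℕ) + S^(2:ℕ) + 3*S*T + T^(2:ℕ) + 2*S + 2*T + 1 := by positivity
  have c10 : 0 < -S^(3:ℕ)*T - S^(3:ℕ) + 2*S*T^(2:ℕ) - S^(2:ℕ) + 3*S*T + T^(2:ℕ) + S + 2*T + 1 := F2_c10 h4 hL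
  have c11 : 0 < S*T + T + 1 := by positivity
  have c12 : 0 < S*T + S + 1 := by positivity
  have c13 : 0 < S^(2:ℕ)*T + 2*S*T^(2:ℕ) + S^(2:ℕ) + 3*S*T + T^(2:ℕ) + 2*S + 2*T + 1 := by positivity
  have c14 : 0 < S*T^(2:ℕ) - S^(2:ℕ) + S*T + T^(2:ℕ) + 2*T + 1 := F2_c14 h4 hL
  have c15 : 0 < S^(2:ℕ)*T^(2:ℕ) - S^(2:ℕ) - S*T - 2*S - T - 1 := F2_c15 h4 hL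
  have c16 : 0 < S^(2:ℕ)*T^(3:ℕ) - S^(3:ℕ)*T - S^(2:ℕ)*T^(2:ℕ) - S^(3:ℕ) - 4*S^(2:ℕ)*T - 2*S*T^(2:ℕ) - 3*S^(2:ℕ) - 5*S*T - T^(2:ℕ) - 3*S - 2*T - 1 := F2_c16 h4 hL
  have c17 : 0 < S^(4:ℕ)*T^(3:ℕ) + 2*S^(4:ℕ)*T^(2:ℕ) + 2*S^(3:ℕ)*T^(3:ℕ) - S^(2:ℕ)*T^(4:ℕ) + 2*S^(4:ℕ)*T + 8*S^(3:ℕ)*T^(2:ℕ) + 3*S^(2:ℕ)*T^(3:ℕ) + S^(4:ℕ) + 9*S^(3:ℕ)*T + 13*S^(2:ℕ)*T^(2:ℕ) + 3*S*T^(3:ℕ) + 4*S^(3:ℕ) + 15*S^(2:ℕ)*T + 10*S*T^(2:ℕ) + T^(3:ℕ) + 6*S^(2:ℕ) + 11*S*T + 3*T^(2:ℕ) + 4*S + 3*T + 1 := F2_c17 h4 hL hU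
  have c18 : 0 < S^(3:ℕ)*T^(3:ℕ) + 2*S^(3:ℕ)*T^(2:ℕ) + S^(2:ℕ)*T^(3:ℕ) + 2*S^(3:ℕ)*T + 5*S^(2:ℕ)*T^(2:ℕ) + S*T^(3:ℕ) + S^(3:ℕ) + 6*S^(2:ℕ)*T + 4*S*T^(2:ℕ) + 3*S^(2:ℕ) + 6*S*T + T^(2:ℕ) + 3*S + 2*T + 1 := by positivity
  have c19 : 0 < S^(3:ℕ)*T^(3:ℕ) + S^(3:ℕ)*T^(2:ℕ) + S^(2:ℕ)*T^(3:ℕ) + S^(3:ℕ)*T + 3*S^(2:ℕ)*T^(2:ℕ) + S*T^(3:ℕ) + S^(3:ℕ) + 4*S^(2:ℕ)*T + 3*S*T^(2:ℕ) + 3*S^(2:ℕ) + 5*S*T + T^(2:ℕ) + 3*S + 2*T + 1 := by positivity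
  have c20 : 0 < S^(3:ℕ)*T^(4:ℕ) + S^(3:ℕ)*T^(3:ℕ) + S^(2:ℕ)*T^(4:ℕ) + S^(4:ℕ)*T + 3*S^(3:ℕ)*T^(2:ℕ) + 4*S^(2:ℕ)*T^(3:ℕ) + S*T^(4:ℕ) + S^(4:ℕ) + 6*S^(3:ℕ)*T + 9*S^(2:ℕ)*T^(2:ℕ) + 4*S*T^(3:ℕ) + 4*S^(3:ℕ) + 12*S^(2:ℕ)*T + 9*S*T^(2:ℕ) + T^(3:ℕ) + 6*S^(2:ℕ) + 10*S*T + 3*T^(2:ℕ) + 4*S + 3*T + 1 := by positivity
  have c21 : 0 < S^(5:ℕ)*T^(4:ℕ) + 2*S^(5:ℕ)*T^(3:ℕ) + 2*S^(4:ℕ)*T^(4:ℕ) - S^(3:ℕ)*T^(5:ℕ) + S^(5:ℕ)*T^(2:ℕ) + 5*S^(4:ℕ)*T^(3:ℕ) - S^(2:ℕ)*T^(5:ℕ) - S^(5:ℕ)*T - S^(4:ℕ)*T^(2:ℕ) - 2*S^(3:ℕ)*T^(3:ℕ) - 5*S^(2:ℕ)*T^(4:ℕ) - S*T^(5:ℕ) - S^(5:ℕ) - 8*S^(4:ℕ)*T - 15*S^(3:ℕ)*T^(2:ℕ) - 15*S^(2:ℕ)*T^(3:ℕ) - 5*S*T^(4:ℕ) - 5*S^(4:ℕ)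 - 22*S^(3:ℕ)*T - 29*S^(2:ℕ)*T^(2:ℕ) - 14*S*T^(3:ℕ) - T^(4:ℕ) - 10*S^(3:ℕ) - 28*S^(2:ℕ)*T - 22*S*T^(2:ℕ) - 4*T^(3:ℕ) - 10*S^(2:ℕ) - 17*S*T - 6*T^(2:ℕ) - 5*S - 4*T - 1 := F2_c21 h4 hL hU
  have c22 : 0 < S*T - S - T - 1 := F2_c22 h4 hL
  have d0 := F2_d0 S T pA
  have d1 := F2_d1 S T pA pB
  have d2 := F2_d2 S T pA pB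
  have d3 := F2_d3 S T pB
  have f0 := F2_f0 S T pS pT d0 d1 d2 d3
  have d4 := F2_d4 S T pA pB
  have f1 := F2_f1 S T pS d2 d3 d4
  have f2 := F2_f2 S T pT d0 d1 d4
  have rA := F2_rA S T f0 f1 f2
  have d5 := F2_d5 S T pS pT pA pB
  have d6 := F2_d6 S T pS pT pA pB
  have f3 := F2_f3 S T pS pT d0 d2 d5 d6
  have d7 := F2_d7 S T pT pA pB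
  have f4 := F2_f4 S T pS d2 d4 d6 d7
  have d8 := F2_d8 S T pA pB
  have f5 := F2_f5 S T pT d0 d4 d7 d8
  have rP := F2_rP S T f3 f4 f5
  have q0 := F2_q0 S T pS d0
  have q1 := F2_q1 S T d0
  have d9 := F2_d9 S T c0
  have q2 := F2_q2 S T d5 d9
  have d10 := F2_d10 S T c1
  have q3 := F2_q3 S T d5 d10
  have sP := F2_sP S T q0 q1 q2 q3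
  have d11 := F2_d11 S T pS pT
  have g0 := F2_g0 S T d0 d11
  have d12 := F2_d12 S T pU c2
  have d13 := F2_d13 S T pS pT pA pB
  have g1 := F2_g1 S T d5 d12 d13
  have oP_0 := F2_oP_0 S T g0 g1
  have d14 := F2_d14 S T pS c3
  have g2 := F2_g2 S T d2 d14
  have oP_1 := F2_oP_1 S T g2
  have d15 := F2_d15 S T c4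
  have g3 := F2_g3 S T d7 d15
  have g4 := F2_g4 S T d0 d4 d11
  have oP_2 := F2_oP_2 S T g3 g4
  have oP := F2_oP S T f3 f4 oP_0 oP_1 oP_2
  have d16 := F2_d16 S T pS pT pA pB
  have d17 := F2_d17 S T pS pT pA pB
  have f6 := F2_f6 S T pS pT d0 d2 d16 d17
  have d18 := F2_d18 S T pS pT pA pB
  have f7 := F2_f7 S T pS d2 d4 d17 d18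
  have f8 := F2_f8 S T pT d0 d4 d5 d18
  have d19 := F2_d19 S T c5
  have q4 := F2_q4 S T d16 d19
  have d20 := F2_d20 S T c6
  have q5 := F2_q5 S T d16 d20
  have sQ := F2_sQ S T q0 q1 q4 q5
  have d21 := F2_d21 S T pU c0
  have d22 := F2_d22 S T pS pT pA pB
  have g5 := F2_g5 S T d16 d21 d22
  have oQ_0 := F2_oQ_0 S T g0 g5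
  have oQ_1 := F2_oQ_1 S T g2
  have d23 := F2_d23 S T c7
  have g6 := F2_g6 S T d18 d23
  have oQ_2 := F2_oQ_2 S T g4 g6
  have oQ := F2_oQ S T f6 f7 oQ_0 oQ_1 oQ_2
  have d24 := F2_d24 S T pA pB
  have f9 := F2_f9 S T pT d0 d4 d8 d24
  have f10 := F2_f10 S T pS d1 d2 d4 d24
  have f11 := F2_f11 S T pT d1 d2 d4 d24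
  have rE := F2_rE S T f9 f10 f11
  have d25 := F2_d25 S T c2
  have q6 := F2_q6 S T d8 d25
  have d26 := F2_d26 S T pT c8
  have q7 := F2_q7 S T d8 d26
  have sq := F2_sq S T q0 q1 q6 q7
  have d27 := F2_d27 S T pS pT
  have g7 := F2_g7 S T d8 d24 d27
  have oE_0 := F2_oE_0 S T g0 g7
  have d28 := F2_d28 S T pS c9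
  have g8 := F2_g8 S T d24 d28
  have oE_1 := F2_oE_1 S T g8
  have d29 := F2_d29 S T c10
  have g9 := F2_g9 S T d2 d29
  have d30 := F2_d30 S T pT c11
  have g10 := F2_g10 S T d1 d4 d30
  have oE_2 := F2_oE_2 S T g9 g10
  have oE := F2_oE S T f9 f10 oE_0 oE_1 oE_2
  have rB := F2_rB S T f0 f1 f2
  have d31 := F2_d31 S T pT pA pB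
  have f12 := F2_f12 S T pT d1 d4 d24 d31
  have d32 := F2_d32 S T pT pA pB
  have f13 := F2_f13 S T pS pT d1 d3 d31 d32
  have f14 := F2_f14 S T pS d3 d4 d13 d32
  have rr := F2_rr S T f12 f13 f14
  have d33 := F2_d33 S T c11
  have q8 := F2_q8 S T d4 d33
  have q9 := F2_q9 S T pS d4
  have d34 := F2_d34 S T pS pT c12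
  have q10 := F2_q10 S T d24 d34
  have d35 := F2_d35 S T c13
  have q11 := F2_q11 S T d24 d35
  have sr := F2_sr S T q8 q9 q10 q11
  have d36 := F2_d36 S T c14
  have g11 := F2_g11 S T d4 d36
  have d37 := F2_d37 S T c15
  have g12 := F2_g12 S T d2 d24 d37
  have orr_0 := F2_orr_0 S T g11 g12
  have d38 := F2_d38 S T c16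
  have g13 := F2_g13 S T d31 d38
  have d39 := F2_d39 S T pU
  have g14 := F2_g14 S T d1 d4 d39
  have orr_1 := F2_orr_1 S T g13 g14
  have d40 := F2_d40 S T c17
  have g15 := F2_g15 S T d32 d40
  have orr_2 := F2_orr_2 S T g15
  have orr := F2_orr S T f12 f13 orr_0 orr_1 orr_2
  have d41 := F2_d41 S T pS pT pA pB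
  have f15 := F2_f15 S T pT d1 d4 d13 d41
  have d42 := F2_d42 S T pS pT pA pB
  have f16 := F2_f16 S T pS pT d1 d3 d41 d42
  have f17 := F2_f17 S T pS d3 d4 d22 d42
  have d43 := F2_d43 S T c18
  have q12 := F2_q12 S T d13 d43
  have q13 := F2_q13 S T d13 d38
  have sC := F2_sC S T q8 q9 q12 q13
  have d44 := F2_d44 S T c19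
  have d45 := F2_d45 S T pS pT pA pB
  have g16 := F2_g16 S T d13 d44 d45
  have oC_0 := F2_oC_0 S T g11 g16
  have d46 := F2_d46 S T c20
  have g17 := F2_g17 S T d41 d46
  have oC_1 := F2_oC_1 S T g14 g17
  have d47 := F2_d47 S T c21
  have g18 := F2_g18 S T d42 d47
  have oC_2 := F2_oC_2 S T g18
  have oC := F2_oC S T f15 f16 oC_0 oC_1 oC_2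
  have vP := F2_vP S T d1 d5 d8 d11
  have vq := F2_vq S T d1 d8
  have vr := F2_vr S T d4 d24
  have vQ := F2_vQ S T d1 d8 d11 d16
  have vC := F2_vC S T d4 d11 d13 d24
  have nun := F2_nun S T d11 d39
  have d48 := F2_d48 S T c22
  have num := F2_num S T d11 d48
  have kan := F2_kan S T d11 d39
  have kam := F2_kam S T d11 d48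
  have d49 := F2_d49 S T pU c12
  have hdB := F2_hdB S T d24 d49
  refine conn_fin pS pT (by simp) (by simp) (P := ((S)/((S + 1)), ((S^(3:ℕ)*T^(3:ℕ) - S^(3:ℕ)*T - 2*S^(2:ℕ)*T^(2:ℕ) - S*T^(3:ℕ) - S^(3:ℕ) - 5*S^(2:ℕ)*T - 5*S*T^(2:ℕ) - T^(3:ℕ) - 3*S^(2:ℕ) - 7*S*T - 3*T^(2:ℕ) - 3*S - 3*T - 1))/(S*T*(S + 1)^(2:ℕ)*(T + 1)^(3:ℕ)))) (q := ((S)/((S + 1)), ((2*S^(2:ℕ)*T^(2:ℕ) + 2*S^(2:ℕ)*T + 2*S*T^(2:ℕ) + S^(2:ℕ) + 4*S*T + T^(2:ℕ) + 2*S + 2*T + 1))/((S + 1)^(2:ℕ)*(T + 1)^(3:ℕ)))) (r := (((S*T + T + 1))/((S + 1)*(T + 1)), (S*T*(S*T + S + 1))/((S + 1)^(2:ℕ)*(T + 1)^(2:ℕ)))) (C := (((S*T + T + 1))/((S + 1)*(T + 1)), ((S^(3:ℕ)*T^(3:ℕ)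 + 2*S^(3:ℕ)*T^(2:ℕ) + S^(2:ℕ)*T^(3:ℕ) + 2*S^(3:ℕ)*T + 5*S^(2:ℕ)*T^(2:ℕ) + S*T^(3:ℕ) + S^(3:ℕ) + 6*S^(2:ℕ)*T + 4*S*T^(2:ℕ) + 3*S^(2:ℕ) + 6*S*T + T^(2:ℕ) + 3*S + 2*T + 1))/(S*T*(S + 1)^(2:ℕ)*(T + 1)^(2:ℕ))))
    (ν := (-((S + T + 1)))/(S*T)) (κ := (-((S + T + 1)))/(S*T)) ?_ ?_ ?_ hdB vP vq vr vC rA rP rB rr rE ?_ sq oE ?_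
  · exact nun.ne
  · exact kan.ne
  · exact abs_lt.2 ⟨kam, kan.trans one_pos⟩
  · exact okA_neg pS pT nun num vP vQ sP sQ oP oQ
  · exact okB_neg pS pT kan kam vr vC sr sC orr oC

end SympB.Quad
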