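import Pool.Agent.W_93b186_h44.FamTools

/-! Machine generated: the connection bbgbbab |  | bab. -/

namespace SympB.Quad

open Letter

set_option maxRecDepth 20000

theorem F4_c2 {S T : ℝ} (hS : 0 < S) (hR : 2*S^(3:ℕ) + 4*S^(2:ℕ) + 9*S + 2 ≤ 2*S*T) : 0 < S*T^(2:ℕ) + 2*T^(2:ℕ) - 2*S - 2 := by
  obtain ⟨y, hy, hT⟩ : ∃ y : ℝ, 0 ≤ y ∧ 2*S*T = 2*S^(3:ℕ) + 4*S^(2:ℕ) + 9*S + 2 + y :=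
    ⟨2*S*T - (2*S^(3:ℕ) + 4*S^(2:ℕ) + 9*S + 2), by linarith, by ring⟩
  have h : 0 < 4*S^(7:ℕ) + 24*S^(6:ℕ) + 84*S^(5:ℕ) + 4*S^(4:ℕ)*y + 184*S^(4:ℕ) + 16*S^(3:ℕ)*y + 249*S^(3:ℕ) + 34*S^(2:ℕ)*y + 222*S^(2:ℕ) + S*y^(2:ℕ) + 40*S*y + 76*S + 2*y^(2:ℕ) + 8*y + 8 := by positivity
  have e1 : ∀ W : ℝ, 2*S*T = W → 1 * (S*T^(2:ℕ) + 2*T^(2:ℕ) - 2*S - 2) * (2*S)^(2:ℕ) = (1*S*W^(2:ℕ)) + (-2*S*(2*S)^(2:ℕ)) + (2*W^(2:ℕ)) + (-2*(2*S)^(2:ℕ)) := by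
    intro W hW
    rw [← hW]; ring
  refine pos_aux (m := 1) (w := (2*S)^(2:ℕ)) (by norm_num) (pow_pos (by linarith) 2) ?_
  rw [e1 _ hT]
  refine lt_of_lt_of_eq h ?_
  ring

theorem F4_c3 {S T : ℝ} (hS : 0 < S) (hR : 2*S^(3:ℕ) + 4*S^(2:ℕ) + 9*S + 2 ≤ 2*S*T) : 0 < S*T^(2:ℕ) - 2*S^(2:ℕ) + 2*T^(2:ℕ) - 4*S - 2 := by
  obtain ⟨y, hy, hT⟩ : ∃ y : ℝ, 0 ≤ y ∧ 2*S*T = 2*S^(3:ℕ) + 4*S^(2:ℕ) + 9*S + 2 + y :=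
    ⟨2*S*T - (2*S^(3:ℕ) + 4*S^(2:ℕ) + 9*S + 2), by linarith, by ring⟩
  have h : 0 < 4*S^(7:ℕ) + 24*S^(6:ℕ) + 84*S^(5:ℕ) + 4*S^(4:ℕ)*y + 176*S^(4:ℕ) + 16*S^(3:ℕ)*y + 241*S^(3:ℕ) + 34*S^(2:ℕ)*y + 222*S^(2:ℕ) + S*y^(2:ℕ) + 40*S*y + 76*S + 2*y^(2:ℕ) + 8*y + 8 := by positivity
  have e1 : ∀ W : ℝ, 2*S*T = W → 1 * (S*T^(2:ℕ) - 2*S^(2:ℕ) + 2*T^(2:ℕ) - 4*S - 2) * (2*S)^(2:ℕ) = (-2*S^(2:ℕ)*(2*S)^(2:ℕ)) + (1*S*W^(2:ℕ)) + (-4*S*(2*S)^(2:ℕ)) + (2*W^(2:ℕ)) + (-2*(2*S)^(2:ℕ)) := by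
    intro W hW
    rw [← hW]; ring
  refine pos_aux (m := 1) (w := (2*S)^(2:ℕ)) (by norm_num) (pow_pos (by linarith) 2) ?_
  rw [e1 _ hT]
  refine lt_of_lt_of_eq h ?_
  ring

theorem F4_c5 {S T : ℝ} (hS : 0 < S) (hR : 2*S^(3:ℕ) + 4*S^(2:ℕ) + 9*S + 2 ≤ 2*S*T) : 0 < S*T^(2:ℕ) - S^(2:ℕ) + S*T + T^(2:ℕ) + 2*T + 1 := by
  obtain ⟨y, hy, hT⟩ : ∃ y : ℝ, 0 ≤ y ∧ 2*S*T = 2*S^(3:ℕ) + 4*S^(2:ℕ) + 9*S + 2 + y :=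
    ⟨2*S*T - (2*S^(3:ℕ) + 4*S^(2:ℕ) + 9*S + 2), by linarith, by ring⟩
  have h : 0 < 4*S^(7:ℕ) + 20*S^(6:ℕ) + 72*S^(5:ℕ) + 4*S^(4:ℕ)*y + 144*S^(4:ℕ) + 12*S^(3:ℕ)*y + 211*S^(3:ℕ) + 28*S^(2:ℕ)*y + 177*S^(2:ℕ) + S*y^(2:ℕ) + 26*S*y + 48*S + y^(2:ℕ) + 4*y + 4 := by positivity
  have e1 : ∀ W : ℝ, 2*S*T = W → 1 * (S*T^(2:ℕ) - S^(2:ℕ) + S*T + T^(2:ℕ) + 2*T + 1) * (2*S)^(2:ℕ) = (-1*S^(2:ℕ)*(2*S)^(2:ℕ)) + (1*S*W^(2:ℕ)) + (1*S*(2*S)*W) + (1*W^(2:ℕ)) + (2*(2*S)*W) + (1*(2*S)^(2:ℕ)) := by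
    intro W hW
    rw [← hW]; ring
  refine pos_aux (m := 1) (w := (2*S)^(2:ℕ)) (by norm_num) (pow_pos (by linarith) 2) ?_
  rw [e1 _ hT]
  refine lt_of_lt_of_eq h ?_
  ring

theorem F4_c6 {S T : ℝ} (hS : 0 < S) (hR : 2*S^(3:ℕ) + 4*S^(2:ℕ) + 9*S + 2 ≤ 2*S*T) : 0 < -S^(3:ℕ)*T - S^(3:ℕ) + 2*S*T^(2:ℕ) - S^(2:ℕ) + 3*S*T + T^(2:ℕ) + S + 2*T + 1 := by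
  obtain ⟨y, hy, hT⟩ : ∃ y : ℝ, 0 ≤ y ∧ 2*S*T = 2*S^(3:ℕ) + 4*S^(2:ℕ) + 9*S + 2 + y :=
    ⟨2*S*T - (2*S^(3:ℕ) + 4*S^(2:ℕ) + 9*S + 2), by linarith, by ring⟩
  have h : 0 < 4*S^(7:ℕ) + 28*S^(6:ℕ) + 110*S^(5:ℕ) + 6*S^(4:ℕ)*y + 236*S^(4:ℕ) + 20*S^(3:ℕ)*y + 348*S^(3:ℕ) + 50*S^(2:ℕ)*y + 221*S^(2:ℕ) + 2*S*y^(2:ℕ) + 30*S*y + 52*S + y^(2:ℕ) + 4*y + 4 := by positivity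
  have e1 : ∀ W : ℝ, 2*S*T = W → 1 * (-S^(3:ℕ)*T - S^(3:ℕ) + 2*S*T^(2:ℕ) - S^(2:ℕ) + 3*S*T + T^(2:ℕ) + S + 2*T + 1) * (2*S)^(2:ℕ) = (-1*S^(3:ℕ)*(2*S)*W) + (-1*S^(3:ℕ)*(2*S)^(2:ℕ)) + (-1*S^(2:ℕ)*(2*S)^(2:ℕ)) + (2*S*W^(2:ℕ)) + (3*S*(2*S)*W) + (1*S*(2*S)^(2:ℕ)) + (1*W^(2:ℕ)) + (2*(2*S)*W) + (1*(2*S)^(2:ℕ)) := by
    intro W hW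
    rw [← hW]; ring
  refine pos_aux (m := 1) (w := (2*S)^(2:ℕ)) (by norm_num) (pow_pos (by linarith) 2) ?_
  rw [e1 _ hT]
  refine lt_of_lt_of_eq h ?_
  ring

theorem F4_c7 {S T : ℝ} (hS : 0 < S) (hR : 2*S^(3:ℕ) + 4*S^(2:ℕ) + 9*S + 2 ≤ 2*S*T) : 0 < S*T^(2:ℕ) + S*T + 2*T^(2:ℕ) - S + T - 1 := by
  obtain ⟨y, hy, hT⟩ : ∃ y : ℝ, 0 ≤ y ∧ 2*S*T = 2*S^(3:ℕ) + 4*S^(2:ℕ) + 9*S + 2 + y :=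
    ⟨2*S*T - (2*S^(3:ℕ) + 4*S^(2:ℕ) + 9*S + 2), by linarith, by ring⟩
  have h : 0 < 4*S^(7:ℕ) + 24*S^(6:ℕ) + 88*S^(5:ℕ) + 4*S^(4:ℕ)*y + 196*S^(4:ℕ) + 16*S^(3:ℕ)*y + 279*S^(3:ℕ) + 36*S^(2:ℕ)*y + 248*S^(2:ℕ) + S*y^(2:ℕ) + 42*S*y + 80*S + 2*y^(2:ℕ) + 8*y + 8 := by positivity
  have e1 : ∀ W : ℝ, 2*S*T = W → 1 * (S*T^(2:ℕ) + S*T + 2*T^(2:ℕ) - S + T - 1) * (2*S)^(2:ℕ) = (1*S*W^(2:ℕ)) + (1*S*(2*S)*W) + (-1*S*(2*S)^(2:ℕ)) + (2*W^(2:ℕ)) + (1*(2*S)*W) + (-1*(2*S)^(2:ℕ)) := by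
    intro W hW
    rw [← hW]; ring
  refine pos_aux (m := 1) (w := (2*S)^(2:ℕ)) (by norm_num) (pow_pos (by linarith) 2) ?_
  rw [e1 _ hT]
  refine lt_of_lt_of_eq h ?_
  ring

theorem F4_c8 {S T : ℝ} (hS : 0 < S) (hR : 2*S^(3:ℕ) + 4*S^(2:ℕ) + 9*S + 2 ≤ 2*S*T) : 0 < S*T^(2:ℕ) - S^(2:ℕ) + S*T + 2*T^(2:ℕ) - 2*S + T - 1 := by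
  obtain ⟨y, hy, hT⟩ : ∃ y : ℝ, 0 ≤ y ∧ 2*S*T = 2*S^(3:ℕ) + 4*S^(2:ℕ) + 9*S + 2 + y :=
    ⟨2*S*T - (2*S^(3:ℕ) + 4*S^(2:ℕ) + 9*S + 2), by linarith, by ring⟩
  have h : 0 < 4*S^(7:ℕ) + 24*S^(6:ℕ) + 88*S^(5:ℕ) + 4*S^(4:ℕ)*y + 192*S^(4:ℕ) + 16*S^(3:ℕ)*y + 275*S^(3:ℕ) + 36*S^(2:ℕ)*y + 248*S^(2:ℕ) + S*y^(2:ℕ) + 42*S*y + 80*S + 2*y^(2:ℕ) + 8*y + 8 := by positivity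
  have e1 : ∀ W : ℝ, 2*S*T = W → 1 * (S*T^(2:ℕ) - S^(2:ℕ) + S*T + 2*T^(2:ℕ) - 2*S + T - 1) * (2*S)^(2:ℕ) = (-1*S^(2:ℕ)*(2*S)^(2:ℕ)) + (1*S*W^(2:ℕ)) + (1*S*(2*S)*W) + (-2*S*(2*S)^(2:ℕ)) + (2*W^(2:ℕ)) + (1*(2*S)*W) + (-1*(2*S)^(2:ℕ)) := by
    intro W hW
    rw [← hW]; ring
  refine pos_aux (m := 1) (w := (2*S)^(2:ℕ)) (by norm_num) (pow_pos (by linarith) 2) ?_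
  rw [e1 _ hT]
  refine lt_of_lt_of_eq h ?_
  ring

theorem F4_c9 {S T : ℝ} (hS : 0 < S) (hR : 2*S^(3:ℕ) + 4*S^(2:ℕ) + 9*S + 2 ≤ 2*S*T) : 0 < S^(2:ℕ)*T^(3:ℕ) + S^(2:ℕ)*T^(2:ℕ) + S*T^(3:ℕ) - 2*S^(2:ℕ)*T - S*T^(2:ℕ) - S^(2:ℕ) - 4*S*T - T^(2:ℕ) - 2*S - 2*T - 1 := by
  obtain ⟨y, hy, hT⟩ : ∃ y : ℝ, 0 ≤ y ∧ 2*S*T = 2*S^(3:ℕ) + 4*S^(2:ℕ) + 9*S + 2 + y :=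
    ⟨2*S*T - (2*S^(3:ℕ) + 4*S^(2:ℕ) + 9*S + 2), by linarith, by ring⟩
  have h : 0 < 8*S^(11:ℕ) + 56*S^(10:ℕ) + 260*S^(9:ℕ) + 12*S^(8:ℕ)*y + 748*S^(8:ℕ) + 60*S^(7:ℕ)*y + 1582*S^(7:ℕ) + 212*S^(6:ℕ)*y + 2258*S^(6:ℕ) + 6*S^(5:ℕ)*y^(2:ℕ) + 404*S^(5:ℕ)*y + 2239*S^(5:ℕ) + 18*S^(4:ℕ)*y^(2:ℕ) + 535*S^(4:ℕ)*y + 1229*S^(4:ℕ) + 41*S^(3:ℕ)*y^(2:ℕ) + 339*S^(3:ℕ)*y + 272*S^(3:ℕ) + S^(2:ℕ)*y^(3:ℕ) + 31*S^(2:ℕ)*y^(2:ℕ) + 68*S^(2:ℕ)*y + 20*S^(2:ℕ) + S*y^(3:ℕ) + 4*S*y^(2:ℕ) + 4*S*y := by positivity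
  have e1 : ∀ W : ℝ, 2*S*T = W → 1 * (S^(2:ℕ)*T^(3:ℕ) + S^(2:ℕ)*T^(2:ℕ) + S*T^(3:ℕ) - 2*S^(2:ℕ)*T - S*T^(2:ℕ) - S^(2:ℕ) - 4*S*T - T^(2:ℕ) - 2*S - 2*T - 1) * (2*S)^(3:ℕ) = (1*S^(2:ℕ)*W^(3:ℕ)) + (1*S^(2:ℕ)*(2*S)*W^(2:ℕ)) + (-2*S^(2:ℕ)*(2*S)^(2:ℕ)*W) + (-1*S^(2:ℕ)*(2*S)^(3:ℕ)) + (1*S*W^(3:ℕ)) + (-1*S*(2*S)*W^(2:ℕ)) + (-4*S*(2*S)^(2:ℕ)*W) + (-2*S*(2*S)^(3:ℕ)) + (-1*(2*S)*W^(2:ℕ)) + (-2*(2*S)^(2:ℕ)*W) + (-1*(2*S)^(3:ℕ)) := by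
    intro W hW
    rw [← hW]; ring
  refine pos_aux (m := 1) (w := (2*S)^(3:ℕ)) (by norm_num) (pow_pos (by linarith) 3) ?_
  rw [e1 _ hT]
  refine lt_of_lt_of_eq h ?_
  ring

theorem F4_c10 {S T : ℝ} (hS : 0 < S) (hR : 2*S^(3:ℕ) + 4*S^(2:ℕ) + 9*S + 2 ≤ 2*S*T) : 0 < S*T^(3:ℕ) - 2*S^(2:ℕ)*T - S*T^(2:ℕ) - S^(2:ℕ) - 4*S*T - T^(2:ℕ) - 2*S - 2*T - 1 := by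
  obtain ⟨y, hy, hT⟩ : ∃ y : ℝ, 0 ≤ y ∧ 2*S*T = 2*S^(3:ℕ) + 4*S^(2:ℕ) + 9*S + 2 + y :=
    ⟨2*S*T - (2*S^(3:ℕ) + 4*S^(2:ℕ) + 9*S + 2), by linarith, by ring⟩
  have h : 0 < 8*S^(10:ℕ) + 48*S^(9:ℕ) + 196*S^(8:ℕ) + 12*S^(7:ℕ)*y + 464*S^(7:ℕ) + 48*S^(6:ℕ)*y + 814*S^(6:ℕ) + 148*S^(5:ℕ)*y + 860*S^(5:ℕ) + 6*S^(4:ℕ)*y^(2:ℕ) + 208*S^(4:ℕ)*y + 623*S^(4:ℕ) + 12*S^(3:ℕ)*y^(2:ℕ) + 223*S^(3:ℕ)*y + 156*S^(3:ℕ) + 25*S^(2:ℕ)*y^(2:ℕ) + 56*S^(2:ℕ)*y + 12*S^(2:ℕ) + S*y^(3:ℕ) + 4*S*y^(2:ℕ) + 4*S*y := by positivity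
  have e1 : ∀ W : ℝ, 2*S*T = W → 1 * (S*T^(3:ℕ) - 2*S^(2:ℕ)*T - S*T^(2:ℕ) - S^(2:ℕ) - 4*S*T - T^(2:ℕ) - 2*S - 2*T - 1) * (2*S)^(3:ℕ) = (-2*S^(2:ℕ)*(2*S)^(2:ℕ)*W) + (-1*S^(2:ℕ)*(2*S)^(3:ℕ)) + (1*S*W^(3:ℕ)) + (-1*S*(2*S)*W^(2:ℕ)) + (-4*S*(2*S)^(2:ℕ)*W) + (-2*S*(2*S)^(3:ℕ)) + (-1*(2*S)*W^(2:ℕ)) + (-2*(2*S)^(2:ℕ)*W) + (-1*(2*S)^(3:ℕ)) := by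
    intro W hW
    rw [← hW]; ring
  refine pos_aux (m := 1) (w := (2*S)^(3:ℕ)) (by norm_num) (pow_pos (by linarith) 3) ?_
  rw [e1 _ hT]
  refine lt_of_lt_of_eq h ?_
  ring

theorem F4_c11 {S T : ℝ} (hS : 0 < S) (hR : 2*S^(3:ℕ) + 4*S^(2:ℕ) + 9*S + 2 ≤ 2*S*T) : 0 < -S^(3:ℕ)*T^(2:ℕ) - 2*S^(3:ℕ)*T - 2*S^(2:ℕ)*T^(2:ℕ) + S*T^(3:ℕ) - S^(3:ℕ) - 6*S^(2:ℕ)*T - 2*S*T^(2:ℕ) - 3*S^(2:ℕ) - 6*S*T - T^(2:ℕ) - 3*S - 2*T - 1 := by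
  obtain ⟨y, hy, hT⟩ : ∃ y : ℝ, 0 ≤ y ∧ 2*S*T = 2*S^(3:ℕ) + 4*S^(2:ℕ) + 9*S + 2 + y :=
    ⟨2*S*T - (2*S^(3:ℕ) + 4*S^(2:ℕ) + 9*S + 2), by linarith, by ring⟩
  have h : 0 < 4*S^(8:ℕ) + 4*S^(7:ℕ)*y + 16*S^(6:ℕ)*y + 36*S^(6:ℕ) + 64*S^(5:ℕ)*y + 32*S^(5:ℕ) + 4*S^(4:ℕ)*y^(2:ℕ) + 96*S^(4:ℕ)*y + 165*S^(4:ℕ) + 8*S^(3:ℕ)*y^(2:ℕ) + 163*S^(3:ℕ)*y + 52*S^(3:ℕ) + 23*S^(2:ℕ)*y^(2:ℕ) + 48*S^(2:ℕ)*y + 4*S^(2:ℕ) + S*y^(3:ℕ) + 4*S*y^(2:ℕ) + 4*S*y := by positivity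
  have e1 : ∀ W : ℝ, 2*S*T = W → 1 * (-S^(3:ℕ)*T^(2:ℕ) - 2*S^(3:ℕ)*T - 2*S^(2:ℕ)*T^(2:ℕ) + S*T^(3:ℕ) - S^(3:ℕ) - 6*S^(2:ℕ)*T - 2*S*T^(2:ℕ) - 3*S^(2:ℕ) - 6*S*T - T^(2:ℕ) - 3*S - 2*T - 1) * (2*S)^(3:ℕ) = (-1*S^(3:ℕ)*(2*S)*W^(2:ℕ)) + (-2*S^(3:ℕ)*(2*S)^(2:ℕ)*W) + (-1*S^(3:ℕ)*(2*S)^(3:ℕ)) + (-2*S^(2:ℕ)*(2*S)*W^(2:ℕ)) + (-6*S^(2:ℕ)*(2*S)^(2:ℕ)*W) + (-3*S^(2:ℕ)*(2*S)^(3:ℕ)) + (1*S*W^(3:ℕ)) + (-2*S*(2*S)*W^(2:ℕ)) + (-6*S*(2*S)^(2:ℕ)*W) + (-3*S*(2*S)^(3:ℕ)) + (-1*(2*S)*W^(2:ℕ)) + (-2*(2*S)^(2:ℕ)*W) + (-1*(2*S)^(3:ℕ)) := by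
    intro W hW
    rw [← hW]; ring
  refine pos_aux (m := 1) (w := (2*S)^(3:ℕ)) (by norm_num) (pow_pos (by linarith) 3) ?_
  rw [e1 _ hT]
  refine lt_of_lt_of_eq h ?_
  ring

theorem F4_c12 {S T : ℝ} (hS : 0 < S) (hR : 2*S^(3:ℕ) + 4*S^(2:ℕ) + 9*S + 2 ≤ 2*S*T) : 0 < S^(2:ℕ)*T^(3:ℕ) + S^(2:ℕ)*T^(2:ℕ) + 3*S*T^(3:ℕ) - S^(2:ℕ)*T + 4*S*T^(2:ℕ) + 2*T^(3:ℕ) - 2*S^(2:ℕ) - 3*S*T + 2*T^(2:ℕ) - 4*S - 2*T - 2 := by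
  obtain ⟨y, hy, hT⟩ : ∃ y : ℝ, 0 ≤ y ∧ 2*S*T = 2*S^(3:ℕ) + 4*S^(2:ℕ) + 9*S + 2 + y :=
    ⟨2*S*T - (2*S^(3:ℕ) + 4*S^(2:ℕ) + 9*S + 2), by linarith, by ring⟩
  have h : 0 < 8*S^(11:ℕ) + 72*S^(10:ℕ) + 372*S^(9:ℕ) + 12*S^(8:ℕ)*y + 1292*S^(8:ℕ) + 84*S^(7:ℕ)*y + 3222*S^(7:ℕ) + 332*S^(6:ℕ)*y + 5966*S^(6:ℕ) + 6*S^(5:ℕ)*y^(2:ℕ) + 852*S^(5:ℕ)*y + 7991*S^(5:ℕ) + 30*S^(4:ℕ)*y^(2:ℕ) + 1435*S^(4:ℕ)*y + 7645*S^(4:ℕ) + 77*S^(3:ℕ)*y^(2:ℕ) + 1633*S^(3:ℕ)*y + 4652*S^(3:ℕ) + S^(2:ℕ)*y^(3:ℕ) + 119*S^(2:ℕ)*y^(2:ℕ) + 1014*S^(2:ℕ)*y + 1560*S^(2:ℕ) + 3*S*y^(3:ℕ) + 76*S*y^(2:ℕ) + 268*S*y + 256*S + 2*y^(3:ℕ) + 12*y^(2:ℕ) + 24*y + 16 := by positivity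
  have e1 : ∀ W : ℝ, 2*S*T = W → 1 * (S^(2:ℕ)*T^(3:ℕ) + S^(2:ℕ)*T^(2:ℕ) + 3*S*T^(3:ℕ) - S^(2:ℕ)*T + 4*S*T^(2:ℕ) + 2*T^(3:ℕ) - 2*S^(2:ℕ) - 3*S*T + 2*T^(2:ℕ) - 4*S - 2*T - 2) * (2*S)^(3:ℕ) = (1*S^(2:ℕ)*W^(3:ℕ)) + (1*S^(2:ℕ)*(2*S)*W^(2:ℕ)) + (-1*S^(2:ℕ)*(2*S)^(2:ℕ)*W) + (-2*S^(2:ℕ)*(2*S)^(3:ℕ)) + (3*S*W^(3:ℕ)) + (4*S*(2*S)*W^(2:ℕ)) + (-3*S*(2*S)^(2:ℕ)*W) + (-4*S*(2*S)^(3:ℕ)) + (2*W^(3:ℕ)) + (2*(2*S)*W^(2:ℕ)) + (-2*(2*S)^(2:ℕ)*W) + (-2*(2*S)^(3:ℕ)) := by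
    intro W hW
    rw [← hW]; ring
  refine pos_aux (m := 1) (w := (2*S)^(3:ℕ)) (by norm_num) (pow_pos (by linarith) 3) ?_
  rw [e1 _ hT]
  refine lt_of_lt_of_eq h ?_
  ring

theorem F4_c14 {S T : ℝ} (hS : 0 < S) (hR : 2*S^(3:ℕ) + 4*S^(2:ℕ) + 9*S + 2 ≤ 2*S*T) : 0 < S^(2:ℕ)*T^(4:ℕ) - 2*S^(3:ℕ)*T^(2:ℕ) + 2*S^(2:ℕ)*T^(3:ℕ) + 3*S*T^(4:ℕ) - 3*S^(3:ℕ)*T - 3*S^(2:ℕ)*T^(2:ℕ) + 7*S*T^(3:ℕ) + 2*T^(4:ℕ) - 2*S^(3:ℕ) - 10*S^(2:ℕ)*T - S*T^(2:ℕ) + 4*T^(3:ℕ) - 6*S^(2:ℕ) - 11*S*T - 6*S - 4*T - 2 := by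
  obtain ⟨y, hy, hT⟩ : ∃ y : ℝ, 0 ≤ y ∧ 2*S*T = 2*S^(3:ℕ) + 4*S^(2:ℕ) + 9*S + 2 + y :=
    ⟨2*S*T - (2*S^(3:ℕ) + 4*S^(2:ℕ) + 9*S + 2), by linarith, by ring⟩
  have h : 0 < 16*S^(14:ℕ) + 176*S^(13:ℕ) + 1120*S^(12:ℕ) + 32*S^(11:ℕ)*y + 4848*S^(11:ℕ) + 288*S^(10:ℕ)*y + 15672*S^(10:ℕ) + 1504*S^(9:ℕ)*y + 39088*S^(9:ℕ) + 24*S^(8:ℕ)*y^(2:ℕ) + 5240*S^(8:ℕ)*y + 76272*S^(8:ℕ) + 168*S^(7:ℕ)*y^(2:ℕ) + 13208*S^(7:ℕ)*y + 116636*S^(7:ℕ) + 672*S^(6:ℕ)*y^(2:ℕ) + 24712*S^(6:ℕ)*y + 136881*S^(6:ℕ) + 8*S^(5:ℕ)*y^(3:ℕ) + 1732*S^(5:ℕ)*y^(2:ℕ) + 33672*S^(5:ℕ)*y + 120133*S^(5:ℕ) + 40*S^(4:ℕ)*y^(3:ℕ) + 2958*S^(4:ℕ)*y^(2:ℕ) + 32846*S^(4:ℕ)*y + 72814*S^(4:ℕ) +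 104*S^(3:ℕ)*y^(3:ℕ) + 3416*S^(3:ℕ)*y^(2:ℕ) + 20160*S^(3:ℕ)*y + 27488*S^(3:ℕ) + S^(2:ℕ)*y^(4:ℕ) + 162*S^(2:ℕ)*y^(3:ℕ) + 2136*S^(2:ℕ)*y^(2:ℕ) + 6632*S^(2:ℕ)*y + 6000*S^(2:ℕ) + 3*S*y^(4:ℕ) + 104*S*y^(3:ℕ) + 552*S*y^(2:ℕ) + 1056*S*y + 688*S + 2*y^(4:ℕ) + 16*y^(3:ℕ) + 48*y^(2:ℕ) + 64*y + 32 := by positivity
  have e1 : ∀ W : ℝ, 2*S*T = W → 1 * (S^(2:ℕ)*T^(4:ℕ) - 2*S^(3:ℕ)*T^(2:ℕ) + 2*S^(2:ℕ)*T^(3:ℕ) + 3*S*T^(4:ℕ) - 3*S^(3:ℕ)*T - 3*S^(2:ℕ)*T^(2:ℕ) + 7*S*T^(3:ℕ) + 2*T^(4:ℕ) - 2*S^(3:ℕ) - 10*S^(2:ℕ)*T - S*T^(2:ℕ) + 4*T^(3:ℕ) - 6*S^(2:ℕ) - 11*S*T - 6*S - 4*T - 2) * (2*S)^(4:ℕ) = (-2*S^(3:ℕ)*(2*S)^(2:ℕ)*W^(2:ℕ)) + (-3*S^(3:ℕ)*(2*S)^(3:ℕ)*W) +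 (-2*S^(3:ℕ)*(2*S)^(4:ℕ)) + (1*S^(2:ℕ)*W^(4:ℕ)) + (2*S^(2:ℕ)*(2*S)*W^(3:ℕ)) + (-3*S^(2:ℕ)*(2*S)^(2:ℕ)*W^(2:ℕ)) + (-10*S^(2:ℕ)*(2*S)^(3:ℕ)*W) + (-6*S^(2:ℕ)*(2*S)^(4:ℕ)) + (3*S*W^(4:ℕ)) + (7*S*(2*S)*W^(3:ℕ)) + (-1*S*(2*S)^(2:ℕ)*W^(2:ℕ)) + (-11*S*(2*S)^(3:ℕ)*W) + (-6*S*(2*S)^(4:ℕ)) + (2*W^(4:ℕ)) + (4*(2*S)*W^(3:ℕ)) + (-4*(2*S)^(3:ℕ)*W) + (-2*(2*S)^(4:ℕ)) := by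
    intro W hW
    rw [← hW]; ring
  refine pos_aux (m := 1) (w := (2*S)^(4:ℕ)) (by norm_num) (pow_pos (by linarith) 4) ?_
  rw [e1 _ hT]
  refine lt_of_lt_of_eq h ?_
  ring

theorem F4_c17 {S T : ℝ} (hS : 0 < S) (hR : 2*S^(3:ℕ) + 4*S^(2:ℕ) + 9*S + 2 ≤ 2*S*T) : 0 < S*T^(2:ℕ) - S^(2:ℕ) + 2*S*T + 2*T^(2:ℕ) + S + 4*T + 2 := by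
  obtain ⟨y, hy, hT⟩ : ∃ y : ℝ, 0 ≤ y ∧ 2*S*T = 2*S^(3:ℕ) + 4*S^(2:ℕ) + 9*S + 2 + y :=
    ⟨2*S*T - (2*S^(3:ℕ) + 4*S^(2:ℕ) + 9*S + 2), by linarith, by ring⟩
  have h : 0 < 4*S^(7:ℕ) + 24*S^(6:ℕ) + 92*S^(5:ℕ) + 4*S^(4:ℕ)*y + 212*S^(4:ℕ) + 16*S^(3:ℕ)*y + 329*S^(3:ℕ) + 38*S^(2:ℕ)*y + 318*S^(2:ℕ) + S*y^(2:ℕ) + 48*S*y + 92*S + 2*y^(2:ℕ) + 8*y + 8 := by positivity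
  have e1 : ∀ W : ℝ, 2*S*T = W → 1 * (S*T^(2:ℕ) - S^(2:ℕ) + 2*S*T + 2*T^(2:ℕ) + S + 4*T + 2) * (2*S)^(2:ℕ) = (-1*S^(2:ℕ)*(2*S)^(2:ℕ)) + (1*S*W^(2:ℕ)) + (2*S*(2*S)*W) + (1*S*(2*S)^(2:ℕ)) + (2*W^(2:ℕ)) + (4*(2*S)*W) + (2*(2*S)^(2:ℕ)) := by
    intro W hW
    rw [← hW]; ring
  refine pos_aux (m := 1) (w := (2*S)^(2:ℕ)) (by norm_num) (pow_pos (by linarith) 2) ?_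
  rw [e1 _ hT]
  refine lt_of_lt_of_eq h ?_
  ring

theorem F4_c18 {S T : ℝ} (hS : 0 < S) (hR : 2*S^(3:ℕ) + 4*S^(2:ℕ) + 9*S + 2 ≤ 2*S*T) : 0 < -S^(2:ℕ)*T - 2*S^(2:ℕ) - S*T + T^(2:ℕ) - S + 2*T + 1 := by
  obtain ⟨y, hy, hT⟩ : ∃ y : ℝ, 0 ≤ y ∧ 2*S*T = 2*S^(3:ℕ) + 4*S^(2:ℕ) + 9*S + 2 + y :=
    ⟨2*S*T - (2*S^(3:ℕ) + 4*S^(2:ℕ) + 9*S + 2), by linarith, by ring⟩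
  have h : 0 < 4*S^(5:ℕ) + 26*S^(4:ℕ) + 2*S^(3:ℕ)*y + 70*S^(3:ℕ) + 6*S^(2:ℕ)*y + 133*S^(2:ℕ) + 22*S*y + 44*S + y^(2:ℕ) + 4*y + 4 := by positivity
  have e1 : ∀ W : ℝ, 2*S*T = W → 1 * (-S^(2:ℕ)*T - 2*S^(2:ℕ) - S*T + T^(2:ℕ) - S + 2*T + 1) * (2*S)^(2:ℕ) = (-1*S^(2:ℕ)*(2*S)*W) + (-2*S^(2:ℕ)*(2*S)^(2:ℕ)) + (-1*S*(2*S)*W) + (-1*S*(2*S)^(2:ℕ)) + (1*W^(2:ℕ)) + (2*(2*S)*W) + (1*(2*S)^(2:ℕ)) := by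
    intro W hW
    rw [← hW]; ring
  refine pos_aux (m := 1) (w := (2*S)^(2:ℕ)) (by norm_num) (pow_pos (by linarith) 2) ?_
  rw [e1 _ hT]
  refine lt_of_lt_of_eq h ?_
  ring

theorem F4_c19 {S T : ℝ} (hS : 0 < S) (hR : 2*S^(3:ℕ) + 4*S^(2:ℕ) + 9*S + 2 ≤ 2*S*T) : 0 < S^(2:ℕ)*T^(3:ℕ) + 2*S^(2:ℕ)*T^(2:ℕ) + 2*S*T^(3:ℕ) - S^(2:ℕ)*T + S*T^(2:ℕ) - S^(2:ℕ) - 3*S*T - T^(2:ℕ) - 2*S - 2*T - 1 := by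
  obtain ⟨y, hy, hT⟩ : ∃ y : ℝ, 0 ≤ y ∧ 2*S*T = 2*S^(3:ℕ) + 4*S^(2:ℕ) + 9*S + 2 + y :=
    ⟨2*S*T - (2*S^(3:ℕ) + 4*S^(2:ℕ) + 9*S + 2), by linarith, by ring⟩
  have h : 0 < 8*S^(11:ℕ) + 64*S^(10:ℕ) + 316*S^(9:ℕ) + 12*S^(8:ℕ)*y + 1000*S^(8:ℕ) + 72*S^(7:ℕ)*y + 2278*S^(7:ℕ) + 268*S^(6:ℕ)*y + 3664*S^(6:ℕ) + 6*S^(5:ℕ)*y^(2:ℕ) + 592*S^(5:ℕ)*y + 4089*S^(5:ℕ) + 24*S^(4:ℕ)*y^(2:ℕ) + 847*S^(4:ℕ)*y + 2918*S^(4:ℕ) + 55*S^(3:ℕ)*y^(2:ℕ) + 714*S^(3:ℕ)*y + 966*S^(3:ℕ) + S^(2:ℕ)*y^(3:ℕ) + 62*S^(2:ℕ)*y^(2:ℕ) + 192*S^(2:ℕ)*y + 144*S^(2:ℕ) + 2*S*y^(3:ℕ) + 10*S*y^(2:ℕ) + 16*S*y + 8*S := by positivity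
  have e1 : ∀ W : ℝ, 2*S*T = W → 1 * (S^(2:ℕ)*T^(3:ℕ) + 2*S^(2:ℕ)*T^(2:ℕ) + 2*S*T^(3:ℕ) - S^(2:ℕ)*T + S*T^(2:ℕ) - S^(2:ℕ) - 3*S*T - T^(2:ℕ) - 2*S - 2*T - 1) * (2*S)^(3:ℕ) = (1*S^(2:ℕ)*W^(3:ℕ)) + (2*S^(2:ℕ)*(2*S)*W^(2:ℕ)) + (-1*S^(2:ℕ)*(2*S)^(2:ℕ)*W) + (-1*S^(2:ℕ)*(2*S)^(3:ℕ)) + (2*S*W^(3:ℕ)) + (1*S*(2*S)*W^(2:ℕ)) + (-3*S*(2*S)^(2:ℕ)*W) + (-2*S*(2*S)^(3:ℕ)) + (-1*(2*S)*W^(2:ℕ)) + (-2*(2*S)^(2:ℕ)*W) + (-1*(2*S)^(3:ℕ)) := by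
    intro W hW
    rw [← hW]; ring
  refine pos_aux (m := 1) (w := (2*S)^(3:ℕ)) (by norm_num) (pow_pos (by linarith) 3) ?_
  rw [e1 _ hT]
  refine lt_of_lt_of_eq h ?_
  ring

theorem F4_c20 {S T : ℝ} (hS : 0 < S) (hR : 2*S^(3:ℕ) + 4*S^(2:ℕ) + 9*S + 2 ≤ 2*S*T) : 0 < S^(2:ℕ)*T^(3:ℕ) - S^(3:ℕ)*T + S^(2:ℕ)*T^(2:ℕ) + 2*S*T^(3:ℕ) - S^(3:ℕ) - 4*S^(2:ℕ)*T - 3*S^(2:ℕ) - 5*S*T - T^(2:ℕ) - 3*S - 2*T - 1 := by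
  obtain ⟨y, hy, hT⟩ : ∃ y : ℝ, 0 ≤ y ∧ 2*S*T = 2*S^(3:ℕ) + 4*S^(2:ℕ) + 9*S + 2 + y :=
    ⟨2*S*T - (2*S^(3:ℕ) + 4*S^(2:ℕ) + 9*S + 2), by linarith, by ring⟩
  have h : 0 < 8*S^(11:ℕ) + 64*S^(10:ℕ) + 308*S^(9:ℕ) + 12*S^(8:ℕ)*y + 952*S^(8:ℕ) + 72*S^(7:ℕ)*y + 2102*S^(7:ℕ) + 260*S^(6:ℕ)*y + 3292*S^(6:ℕ) + 6*S^(5:ℕ)*y^(2:ℕ) + 564*S^(5:ℕ)*y + 3571*S^(5:ℕ) + 24*S^(4:ℕ)*y^(2:ℕ) + 783*S^(4:ℕ)*y + 2548*S^(4:ℕ) + 53*S^(3:ℕ)*y^(2:ℕ) + 662*S^(3:ℕ)*y + 870*S^(3:ℕ) + S^(2:ℕ)*y^(3:ℕ) + 60*S^(2:ℕ)*y^(2:ℕ) + 184*S^(2:ℕ)*y + 136*S^(2:ℕ) + 2*S*y^(3:ℕ) + 10*S*y^(2:ℕ) + 16*S*y + 8*S := by positivity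
  have e1 : ∀ W : ℝ, 2*S*T = W → 1 * (S^(2:ℕ)*T^(3:ℕ) - S^(3:ℕ)*T + S^(2:ℕ)*T^(2:ℕ) + 2*S*T^(3:ℕ) - S^(3:ℕ) - 4*S^(2:ℕ)*T - 3*S^(2:ℕ) - 5*S*T - T^(2:ℕ) - 3*S - 2*T - 1) * (2*S)^(3:ℕ) = (-1*S^(3:ℕ)*(2*S)^(2:ℕ)*W) + (-1*S^(3:ℕ)*(2*S)^(3:ℕ)) + (1*S^(2:ℕ)*W^(3:ℕ)) + (1*S^(2:ℕ)*(2*S)*W^(2:ℕ)) + (-4*S^(2:ℕ)*(2*S)^(2:ℕ)*W) + (-3*S^(2:ℕ)*(2*S)^(3:ℕ)) + (2*S*W^(3:ℕ)) + (-5*S*(2*S)^(2:ℕ)*W) + (-3*S*(2*S)^(3:ℕ)) + (-1*(2*S)*W^(2:ℕ)) + (-2*(2*S)^(2:ℕ)*W) + (-1*(2*S)^(3:ℕ)) := by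
    intro W hW
    rw [← hW]; ring
  refine pos_aux (m := 1) (w := (2*S)^(3:ℕ)) (by norm_num) (pow_pos (by linarith) 3) ?_
  rw [e1 _ hT]
  refine lt_of_lt_of_eq h ?_
  ring

theorem F4_c21 {S T : ℝ} (hS : 0 < S) (hR : 2*S^(3:ℕ) + 4*S^(2:ℕ) + 9*S + 2 ≤ 2*S*T) : 0 < -S^(4:ℕ)*T^(3:ℕ) - 3*S^(4:ℕ)*T^(2:ℕ) - 3*S^(3:ℕ)*T^(3:ℕ) + S^(2:ℕ)*T^(4:ℕ) - 2*S^(4:ℕ)*T - 8*S^(3:ℕ)*T^(2:ℕ) + 2*S*T^(4:ℕ) - S^(4:ℕ) - 9*S^(3:ℕ)*T - 10*S^(2:ℕ)*T^(2:ℕ) + S*T^(3:ℕ) - 4*S^(3:ℕ) - 15*S^(2:ℕ)*T - 8*S*T^(2:ℕ) - T^(3:ℕ) - 6*S^(2:ℕ) - 11*S*T - 3*T^(2:ℕ) - 4*S - 3*T - 1 := by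
  obtain ⟨y, hy, hT⟩ : ∃ y : ℝ, 0 ≤ y ∧ 2*S*T = 2*S^(3:ℕ) + 4*S^(2:ℕ) + 9*S + 2 + y :=
    ⟨2*S*T - (2*S^(3:ℕ) + 4*S^(2:ℕ) + 9*S + 2), by linarith, by ring⟩
  have h : 0 < 16*S^(13:ℕ) + 184*S^(12:ℕ) + 8*S^(11:ℕ)*y + 1080*S^(11:ℕ) + 88*S^(10:ℕ)*y + 4252*S^(10:ℕ) + 552*S^(9:ℕ)*y + 11852*S^(9:ℕ) + 12*S^(8:ℕ)*y^(2:ℕ) + 2096*S^(8:ℕ)*y + 24602*S^(8:ℕ) + 84*S^(7:ℕ)*y^(2:ℕ) + 5618*S^(7:ℕ)*y + 37554*S^(7:ℕ) + 366*S^(6:ℕ)*y^(2:ℕ) + 10358*S^(6:ℕ)*y + 41505*S^(6:ℕ) + 6*S^(5:ℕ)*y^(3:ℕ) + 910*S^(5:ℕ)*y^(2:ℕ) + 13236*S^(5:ℕ)*y + 31108*S^(5:ℕ) + 26*S^(4:ℕ)*y^(3:ℕ) + 1478*S^(4:ℕ)*y^(2:ℕ) + 10726*S^(4:ℕ)*y + 13086*S^(4:ℕ) + 68*S^(3:ℕ)*y^(3:ℕ) + 1378*S^(3:ℕ)*y^(2:ℕ)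 + 3970*S^(3:ℕ)*y + 2972*S^(3:ℕ) + S^(2:ℕ)*y^(4:ℕ) + 82*S^(2:ℕ)*y^(3:ℕ) + 402*S^(2:ℕ)*y^(2:ℕ) + 656*S^(2:ℕ)*y + 344*S^(2:ℕ) + 2*S*y^(4:ℕ) + 14*S*y^(3:ℕ) + 36*S*y^(2:ℕ) + 40*S*y + 16*S := by positivity
  have e1 : ∀ W : ℝ, 2*S*T = W → 1 * (-S^(4:ℕ)*T^(3:ℕ) - 3*S^(4:ℕ)*T^(2:ℕ) - 3*S^(3:ℕ)*T^(3:ℕ) + S^(2:ℕ)*T^(4:ℕ) - 2*S^(4:ℕ)*T - 8*S^(3:ℕ)*T^(2:ℕ) + 2*S*T^(4:ℕ) - S^(4:ℕ) - 9*S^(3:ℕ)*T - 10*S^(2:ℕ)*T^(2:ℕ) + S*T^(3:ℕ) - 4*S^(3:ℕ) - 15*S^(2:ℕ)*T - 8*S*T^(2:ℕ) - T^(3:ℕ) - 6*S^(2:ℕ) - 11*S*T - 3*T^(2:ℕ) - 4*S - 3*T - 1) * (2*S)^(4:ℕ) = (-1*S^(4:ℕ)*(2*S)*W^(3:ℕ)) + (-3*S^(4:ℕ)*(2*S)^(2:ℕ)*W^(2:ℕ)) + (-2*S^(4:ℕ)*(2*S)^(3:ℕ)*W) + (-1*S^(4:ℕ)*(2*S)^(4:ℕ))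 + (-3*S^(3:ℕ)*(2*S)*W^(3:ℕ)) + (-8*S^(3:ℕ)*(2*S)^(2:ℕ)*W^(2:ℕ)) + (-9*S^(3:ℕ)*(2*S)^(3:ℕ)*W) + (-4*S^(3:ℕ)*(2*S)^(4:ℕ)) + (1*S^(2:ℕ)*W^(4:ℕ)) + (-10*S^(2:ℕ)*(2*S)^(2:ℕ)*W^(2:ℕ)) + (-15*S^(2:ℕ)*(2*S)^(3:ℕ)*W) + (-6*S^(2:ℕ)*(2*S)^(4:ℕ)) + (2*S*W^(4:ℕ)) + (1*S*(2*S)*W^(3:ℕ)) + (-8*S*(2*S)^(2:ℕ)*W^(2:ℕ)) + (-11*S*(2*S)^(3:ℕ)*W) + (-4*S*(2*S)^(4:ℕ)) + (-1*(2*S)*W^(3:ℕ)) + (-3*(2*S)^(2:ℕ)*W^(2:ℕ)) + (-3*(2*S)^(3:ℕ)*W) + (-1*(2*S)^(4:ℕ)) := by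
    intro W hW
    rw [← hW]; ring
  refine pos_aux (m := 1) (w := (2*S)^(4:ℕ)) (by norm_num) (pow_pos (by linarith) 4) ?_
  rw [e1 _ hT]
  refine lt_of_lt_of_eq h ?_
  ring

theorem F4_d0 (S T : ℝ) (pT : 0 < T) (c0 : 0 < S^(2:ℕ)*T^(2:ℕ) + 3*S^(2:ℕ)*T + 3*S*T^(2:ℕ) + S^(2:ℕ) + 5*S*T + T^(2:ℕ) + 2*S + 2*T + 1) :
    0 < T*(S^(2:ℕ)*T^(2:ℕ) + 3*S^(2:ℕ)*T + 3*S*T^(2:ℕ) + S^(2:ℕ) + 5*S*T + T^(2:ℕ) + 2*S + 2*T + 1) := (mul_pos pT c0)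

theorem F4_d1 (S T : ℝ) (c0 : 0 < S^(2:ℕ)*T^(2:ℕ) + 3*S^(2:ℕ)*T + 3*S*T^(2:ℕ) + S^(2:ℕ) + 5*S*T + T^(2:ℕ) + 2*S + 2*T + 1) :
    0 < (S^(2:ℕ)*T^(2:ℕ) + 3*S^(2:ℕ)*T + 3*S*T^(2:ℕ) + S^(2:ℕ) + 5*S*T + T^(2:ℕ) + 2*S + 2*T + 1) := c0

theorem F4_f0 (S T : ℝ) (pT : 0 < T) (d0 : 0 < T*(S^(2:ℕ)*T^(2:ℕ) + 3*S^(2:ℕ)*T + 3*S*T^(2:ℕ) + S^(2:ℕ) + 5*S*T + T^(2:ℕ) + 2*S + 2*T + 1)) (d1 : 0 < (S^(2:ℕ)*T^(2:ℕ) + 3*S^(2:ℕ)*T + 3*S*T^(2:ℕ) + S^(2:ℕ) + 5*S*T + T^(2:ℕ) + 2*S + 2*T + 1)) :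
    fl S T Letter.be (((S^(2:ℕ)*T^(3:ℕ) + S^(2:ℕ)*T^(2:ℕ) + 3*S*T^(3:ℕ) - 2*S^(2:ℕ)*T + 2*S*T^(2:ℕ) + T^(3:ℕ) - S^(2:ℕ) - 3*S*T + T^(2:ℕ) - 2*S - T - 1))/(T*(S^(2:ℕ)*T^(2:ℕ) + 3*S^(2:ℕ)*T + 3*S*T^(2:ℕ) + S^(2:ℕ) + 5*S*T + T^(2:ℕ) + 2*S + 2*T + 1)), ((S + 1)^(2:ℕ)*(T + 1)^(2:ℕ))/((S^(2:ℕ)*T^(2:ℕ) + 3*S^(2:ℕ)*T + 3*S*T^(2:ℕ) + S^(2:ℕ) + 5*S*T + T^(2:ℕ) + 2*S + 2*T + 1))) = (((S^(2:ℕ)*T^(2:ℕ) + 2*S^(2:ℕ)*T + 2*S*T^(2:ℕ) + 3*S*T + T^(2:ℕ) + S + 2*T + 1))/((S^(2:ℕ)*T^(2:ℕ) + 3*S^(2:ℕ)*T + 3*S*T^(2:ℕ) + S^(2:ℕ) + 5*S*T + T^(2:ℕ) + 2*S + 2*T + 1)), ((S + 1)*(2*S*T + S + T + 1))/((S^(2:ℕ)*T^(2:ℕ) + 3*S^(2:ℕ)*T + 3*S*T^(2:ℕ) + S^(2:ℕ) + 5*S*T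 + T^(2:ℕ) + 2*S + 2*T + 1))) := fl_be' pT d0 d1 d1 d1 (by ring) (by ring)

theorem F4_f1 (S T : ℝ) (pT : 0 < T) (d1 : 0 < (S^(2:ℕ)*T^(2:ℕ) + 3*S^(2:ℕ)*T + 3*S*T^(2:ℕ) + S^(2:ℕ) + 5*S*T + T^(2:ℕ) + 2*S + 2*T + 1)) :
    fl S T Letter.be (((S^(2:ℕ)*T^(2:ℕ) + 2*S^(2:ℕ)*T + 2*S*T^(2:ℕ) + 3*S*T + T^(2:ℕ) + S + 2*T + 1))/((S^(2:ℕ)*T^(2:ℕ) + 3*S^(2:ℕ)*T + 3*S*T^(2:ℕ) + S^(2:ℕ) + 5*S*T + T^(2:ℕ) + 2*S + 2*T + 1)), ((S + 1)*(2*S*T + S + T + 1))/((S^(2:ℕ)*T^(2:ℕ) + 3*S^(2:ℕ)*T + 3*S*T^(2:ℕ) + S^(2:ℕ) + 5*S*T + T^(2:ℕ) + 2*S + 2*T + 1))) = ((S^(2:ℕ)*T)/((S^(2:ℕ)*T^(2:ℕ) + 3*S^(2:ℕ)*T + 3*S*T^(2:ℕ) + S^(2:ℕ) + 5*S*T + T^(2:ℕ) + 2*S + 2*T + 1)),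 (S*T*(S + T + 1))/((S^(2:ℕ)*T^(2:ℕ) + 3*S^(2:ℕ)*T + 3*S*T^(2:ℕ) + S^(2:ℕ) + 5*S*T + T^(2:ℕ) + 2*S + 2*T + 1))) := fl_be' pT d1 d1 d1 d1 (by ring) (by ring)

theorem F4_f2 (S T : ℝ) (pS : 0 < S) (d1 : 0 < (S^(2:ℕ)*T^(2:ℕ) + 3*S^(2:ℕ)*T + 3*S*T^(2:ℕ) + S^(2:ℕ) + 5*S*T + T^(2:ℕ) + 2*S + 2*T + 1)) :
    fl S T Letter.ga ((S^(2:ℕ)*T)/((S^(2:ℕ)*T^(2:ℕ) + 3*S^(2:ℕ)*T + 3*S*T^(2:ℕ) + S^(2:ℕ) + 5*S*T + T^(2:ℕ) + 2*S + 2*T + 1)), (S*T*(S + T + 1))/((S^(2:ℕ)*T^(2:ℕ) + 3*S^(2:ℕ)*T + 3*S*T^(2:ℕ) + S^(2:ℕ) + 5*S*T + T^(2:ℕ) + 2*S + 2*T + 1))) = (((S^(2:ℕ)*T + 2*S*T^(2:ℕ) + 3*S*T + T^(2:ℕ) + S + 2*T + 1))/((S^(2:ℕ)*T^(2:ℕ) + 3*S^(2:ℕ)*T + 3*S*T^(2:ℕ)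 + S^(2:ℕ) + 5*S*T + T^(2:ℕ) + 2*S + 2*T + 1)), ((S^(2:ℕ)*T^(2:ℕ) + 2*S^(2:ℕ)*T + 3*S*T^(2:ℕ) + S^(2:ℕ) + 4*S*T + T^(2:ℕ) + 2*S + 2*T + 1))/((S^(2:ℕ)*T^(2:ℕ) + 3*S^(2:ℕ)*T + 3*S*T^(2:ℕ) + S^(2:ℕ) + 5*S*T + T^(2:ℕ) + 2*S + 2*T + 1))) := fl_ga' pS d1 d1 d1 d1 (by ring) (by ring)

theorem F4_f3 (S T : ℝ) (pT : 0 < T) (d1 : 0 < (S^(2:ℕ)*T^(2:ℕ) + 3*S^(2:ℕ)*T + 3*S*T^(2:ℕ) + S^(2:ℕ) + 5*S*T + T^(2:ℕ) + 2*S + 2*T + 1)) :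
    fl S T Letter.be (((S^(2:ℕ)*T + 2*S*T^(2:ℕ) + 3*S*T + T^(2:ℕ) + S + 2*T + 1))/((S^(2:ℕ)*T^(2:ℕ) + 3*S^(2:ℕ)*T + 3*S*T^(2:ℕ) + S^(2:ℕ) + 5*S*T + T^(2:ℕ) + 2*S + 2*T + 1)), ((S^(2:ℕ)*T^(2:ℕ) + 2*S^(2:ℕ)*T + 3*S*T^(2:ℕ) + S^(2:ℕ) + 4*S*T + T^(2:ℕ) + 2*S + 2*T + 1))/((S^(2:ℕ)*T^(2:ℕ) + 3*S^(2:ℕ)*T + 3*S*T^(2:ℕ) + S^(2:ℕ) + 5*S*T + T^(2:ℕ) + 2*S + 2*T + 1))) = (((S^(2:ℕ)*T^(2:ℕ) + 2*S^(2:ℕ)*T + 3*S*T^(2:ℕ) + 4*S*T + T^(2:ℕ) + S + 2*T + 1))/((S^(2:ℕ)*T^(2:ℕ) + 3*S^(2:ℕ)*T + 3*S*T^(2:ℕ) + S^(2:ℕ) + 5*S*T + T^(2:ℕ) + 2*S + 2*T + 1)), (S*T*(S + 1)*(T + 1))/((S^(2:ℕ)*T^(2:ℕ) + 3*S^(2:ℕ)*T + 3*S*T^(2:ℕ) + S^(2:ℕ) + 5*S*T + T^(2:ℕ) + 2*S +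 2*T + 1))) := fl_be' pT d1 d1 d1 d1 (by ring) (by ring)

theorem F4_f4 (S T : ℝ) (pT : 0 < T) (d0 : 0 < T*(S^(2:ℕ)*T^(2:ℕ) + 3*S^(2:ℕ)*T + 3*S*T^(2:ℕ) + S^(2:ℕ) + 5*S*T + T^(2:ℕ) + 2*S + 2*T + 1)) (d1 : 0 < (S^(2:ℕ)*T^(2:ℕ) + 3*S^(2:ℕ)*T + 3*S*T^(2:ℕ) + S^(2:ℕ) + 5*S*T + T^(2:ℕ) + 2*S + 2*T + 1)) :
    fl S T Letter.be (((S^(2:ℕ)*T^(2:ℕ) + 2*S^(2:ℕ)*T + 3*S*T^(2:ℕ) + 4*S*T + T^(2:ℕ) + S + 2*T + 1))/((S^(2:ℕ)*T^(2:ℕ) + 3*S^(2:ℕ)*T + 3*S*T^(2:ℕ) + S^(2:ℕ) + 5*S*T + T^(2:ℕ) + 2*S + 2*T + 1)), (S*T*(S + 1)*(T + 1))/((S^(2:ℕ)*T^(2:ℕ) + 3*S^(2:ℕ)*T + 3*S*T^(2:ℕ) + S^(2:ℕ) + 5*S*T + T^(2:ℕ) + 2*S + 2*T + 1))) = (((S^(2:ℕ)*T^(3:ℕ) + S^(2:ℕ)*T^(2:ℕ)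 + S*T^(3:ℕ) - 2*S^(2:ℕ)*T - S*T^(2:ℕ) - S^(2:ℕ) - 4*S*T - T^(2:ℕ) - 2*S - 2*T - 1))/(T*(S^(2:ℕ)*T^(2:ℕ) + 3*S^(2:ℕ)*T + 3*S*T^(2:ℕ) + S^(2:ℕ) + 5*S*T + T^(2:ℕ) + 2*S + 2*T + 1)), (S*T*(S + 1))/((S^(2:ℕ)*T^(2:ℕ) + 3*S^(2:ℕ)*T + 3*S*T^(2:ℕ) + S^(2:ℕ) + 5*S*T + T^(2:ℕ) + 2*S + 2*T + 1))) := fl_be' pT d1 d1 d0 d1 (by ring) (by ring)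

theorem F4_f5 (S T : ℝ) (pS : 0 < S) (pT : 0 < T) (d0 : 0 < T*(S^(2:ℕ)*T^(2:ℕ) + 3*S^(2:ℕ)*T + 3*S*T^(2:ℕ) + S^(2:ℕ) + 5*S*T + T^(2:ℕ) + 2*S + 2*T + 1)) (d1 : 0 < (S^(2:ℕ)*T^(2:ℕ) + 3*S^(2:ℕ)*T + 3*S*T^(2:ℕ) + S^(2:ℕ) + 5*S*T + T^(2:ℕ) + 2*S + 2*T + 1)) :
    fl S T Letter.al (((S^(2:ℕ)*T^(3:ℕ) + S^(2:ℕ)*T^(2:ℕ) + S*T^(3:ℕ) - 2*S^(2:ℕ)*T - S*T^(2:ℕ) - S^(2:ℕ) - 4*S*T - T^(2:ℕ) - 2*S - 2*T - 1))/(T*(S^(2:ℕ)*T^(2:ℕ) + 3*S^(2:ℕ)*T + 3*S*T^(2:ℕ) + S^(2:ℕ) + 5*S*T + T^(2:ℕ) + 2*S + 2*T + 1)), (S*T*(S + 1))/((S^(2:ℕ)*T^(2:ℕ) + 3*S^(2:ℕ)*T + 3*S*T^(2:ℕ) + S^(2:ℕ) + 5*S*T + T^(2:ℕ) + 2*S + 2*T + 1))) = (((S*T^(3:ℕ) - 2*S^(2:ℕ)*T - S*T^(2:ℕ)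 - S^(2:ℕ) - 4*S*T - T^(2:ℕ) - 2*S - 2*T - 1))/(T*(S^(2:ℕ)*T^(2:ℕ) + 3*S^(2:ℕ)*T + 3*S*T^(2:ℕ) + S^(2:ℕ) + 5*S*T + T^(2:ℕ) + 2*S + 2*T + 1)), (T*(S^(2:ℕ)*T + S^(2:ℕ) + 3*S*T + 2*S + T + 1))/((S^(2:ℕ)*T^(2:ℕ) + 3*S^(2:ℕ)*T + 3*S*T^(2:ℕ) + S^(2:ℕ) + 5*S*T + T^(2:ℕ) + 2*S + 2*T + 1))) := fl_al' pS pT d0 d1 d0 d1 (by ring) (by ring)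

theorem F4_f6 (S T : ℝ) (pT : 0 < T) (d0 : 0 < T*(S^(2:ℕ)*T^(2:ℕ) + 3*S^(2:ℕ)*T + 3*S*T^(2:ℕ) + S^(2:ℕ) + 5*S*T + T^(2:ℕ) + 2*S + 2*T + 1)) (d1 : 0 < (S^(2:ℕ)*T^(2:ℕ) + 3*S^(2:ℕ)*T + 3*S*T^(2:ℕ) + S^(2:ℕ) + 5*S*T + T^(2:ℕ) + 2*S + 2*T + 1)) :
    fl S T Letter.be (((S*T^(3:ℕ) - 2*S^(2:ℕ)*T - S*T^(2:ℕ) - S^(2:ℕ) - 4*S*T - T^(2:ℕ) - 2*S - 2*T - 1))/(T*(S^(2:ℕ)*T^(2:ℕ) + 3*S^(2:ℕ)*T + 3*S*T^(2:ℕ) + S^(2:ℕ) + 5*S*T + T^(2:ℕ) + 2*S + 2*T + 1)), (T*(S^(2:ℕ)*T + S^(2:ℕ) + 3*S*T + 2*S + T + 1))/((S^(2:ℕ)*T^(2:ℕ) + 3*S^(2:ℕ)*T + 3*S*T^(2:ℕ) + S^(2:ℕ) + 5*S*T + T^(2:ℕ) + 2*S + 2*T + 1))) = (((S^(2:ℕ)*T^(3:ℕ) + S^(2:ℕ)*T^(2:ℕ) + 3*S*T^(3:ℕ) -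 2*S^(2:ℕ)*T + 2*S*T^(2:ℕ) + T^(3:ℕ) - S^(2:ℕ) - 3*S*T + T^(2:ℕ) - 2*S - T - 1))/(T*(S^(2:ℕ)*T^(2:ℕ) + 3*S^(2:ℕ)*T + 3*S*T^(2:ℕ) + S^(2:ℕ) + 5*S*T + T^(2:ℕ) + 2*S + 2*T + 1)), ((S + 1)^(2:ℕ)*(T + 1)^(2:ℕ))/((S^(2:ℕ)*T^(2:ℕ) + 3*S^(2:ℕ)*T + 3*S*T^(2:ℕ) + S^(2:ℕ) + 5*S*T + T^(2:ℕ) + 2*S + 2*T + 1))) := fl_be' pT d0 d1 d0 d1 (by ring) (by ring)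

theorem F4_rA (S T : ℝ) (f0 : fl S T Letter.be (((S^(2:ℕ)*T^(3:ℕ) + S^(2:ℕ)*T^(2:ℕ) + 3*S*T^(3:ℕ) - 2*S^(2:ℕ)*T + 2*S*T^(2:ℕ) + T^(3:ℕ) - S^(2:ℕ) - 3*S*T + T^(2:ℕ) - 2*S - T - 1))/(T*(S^(2:ℕ)*T^(2:ℕ) + 3*S^(2:ℕ)*T + 3*S*T^(2:ℕ) + S^(2:ℕ) + 5*S*T + T^(2:ℕ) + 2*S + 2*T + 1)), ((S + 1)^(2:ℕ)*(T + 1)^(2:ℕ))/((S^(2:ℕ)*T^(2:ℕ) + 3*S^(2:ℕ)*T + 3*S*T^(2:ℕ) + S^(2:ℕ) + 5*S*T + T^(2:ℕ) + 2*S + 2*T + 1))) = (((S^(2:ℕ)*T^(2:ℕ) + 2*S^(2:ℕ)*T + 2*S*T^(2:ℕ) + 3*S*T + T^(2:ℕ) + S + 2*T + 1))/((S^(2:ℕ)*T^(2:ℕ) + 3*S^(2:ℕ)*T + 3*S*T^(2:ℕ) + S^(2:ℕ) + 5*S*T + T^(2:ℕ) + 2*S + 2*T + 1)), ((S + 1)*(2*S*T + S + T + 1))/((S^(2:ℕ)*T^(2:ℕ) + 3*S^(2:ℕ)*T + 3*S*T^(2:ℕ)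 + S^(2:ℕ) + 5*S*T + T^(2:ℕ) + 2*S + 2*T + 1)))) (f1 : fl S T Letter.be (((S^(2:ℕ)*T^(2:ℕ) + 2*S^(2:ℕ)*T + 2*S*T^(2:ℕ) + 3*S*T + T^(2:ℕ) + S + 2*T + 1))/((S^(2:ℕ)*T^(2:ℕ) + 3*S^(2:ℕ)*T + 3*S*T^(2:ℕ) + S^(2:ℕ) + 5*S*T + T^(2:ℕ) + 2*S + 2*T + 1)), ((S + 1)*(2*S*T + S + T + 1))/((S^(2:ℕ)*T^(2:ℕ) + 3*S^(2:ℕ)*T + 3*S*T^(2:ℕ) + S^(2:ℕ) + 5*S*T + T^(2:ℕ) + 2*S + 2*T + 1))) = ((S^(2:ℕ)*T)/((S^(2:ℕ)*T^(2:ℕ) + 3*S^(2:ℕ)*T + 3*S*T^(2:ℕ) + S^(2:ℕ) + 5*S*T + T^(2:ℕ) + 2*S + 2*T + 1)), (S*T*(S + T + 1))/((S^(2:ℕ)*T^(2:ℕ) + 3*S^(2:ℕ)*T + 3*S*T^(2:ℕ) + S^(2:ℕ) + 5*S*T + T^(2:ℕ) + 2*S + 2*T + 1)))) (f2 : fl S T Letter.ga ((S^(2:ℕ)*T)/((S^(2:ℕ)*T^(2:ℕ)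 + 3*S^(2:ℕ)*T + 3*S*T^(2:ℕ) + S^(2:ℕ) + 5*S*T + T^(2:ℕ) + 2*S + 2*T + 1)), (S*T*(S + T + 1))/((S^(2:ℕ)*T^(2:ℕ) + 3*S^(2:ℕ)*T + 3*S*T^(2:ℕ) + S^(2:ℕ) + 5*S*T + T^(2:ℕ) + 2*S + 2*T + 1))) = (((S^(2:ℕ)*T + 2*S*T^(2:ℕ) + 3*S*T + T^(2:ℕ) + S + 2*T + 1))/((S^(2:ℕ)*T^(2:ℕ) + 3*S^(2:ℕ)*T + 3*S*T^(2:ℕ) + S^(2:ℕ) + 5*S*T + T^(2:ℕ) + 2*S + 2*T + 1)), ((S^(2:ℕ)*T^(2:ℕ) + 2*S^(2:ℕ)*T + 3*S*T^(2:ℕ) + S^(2:ℕ) + 4*S*T + T^(2:ℕ) + 2*S + 2*T + 1))/((S^(2:ℕ)*T^(2:ℕ) + 3*S^(2:ℕ)*T + 3*S*T^(2:ℕ) + S^(2:ℕ) + 5*S*T + T^(2:ℕ) + 2*S + 2*T + 1)))) (f3 : fl S T Letter.be (((S^(2:ℕ)*T + 2*S*T^(2:ℕ) + 3*S*T + T^(2:ℕ) + S + 2*T + 1))/((S^(2:ℕ)*T^(2:ℕ) + 3*S^(2:ℕ)*T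 + 3*S*T^(2:ℕ) + S^(2:ℕ) + 5*S*T + T^(2:ℕ) + 2*S + 2*T + 1)), ((S^(2:ℕ)*T^(2:ℕ) + 2*S^(2:ℕ)*T + 3*S*T^(2:ℕ) + S^(2:ℕ) + 4*S*T + T^(2:ℕ) + 2*S + 2*T + 1))/((S^(2:ℕ)*T^(2:ℕ) + 3*S^(2:ℕ)*T + 3*S*T^(2:ℕ) + S^(2:ℕ) + 5*S*T + T^(2:ℕ) + 2*S + 2*T + 1))) = (((S^(2:ℕ)*T^(2:ℕ) + 2*S^(2:ℕ)*T + 3*S*T^(2:ℕ) + 4*S*T + T^(2:ℕ) + S + 2*T + 1))/((S^(2:ℕ)*T^(2:ℕ) + 3*S^(2:ℕ)*T + 3*S*T^(2:ℕ) + S^(2:ℕ) + 5*S*T + T^(2:ℕ) + 2*S + 2*T + 1)), (S*T*(S + 1)*(T + 1))/((S^(2:ℕ)*T^(2:ℕ) + 3*S^(2:ℕ)*T + 3*S*T^(2:ℕ) + S^(2:ℕ) + 5*S*T + T^(2:ℕ) + 2*S + 2*T + 1)))) (f4 : fl S T Letter.be (((S^(2:ℕ)*T^(2:ℕ) + 2*S^(2:ℕ)*T + 3*S*T^(2:ℕ) + 4*S*T + T^(2:ℕ) + S + 2*T + 1))/((S^(2:ℕ)*T^(2:ℕ)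 + 3*S^(2:ℕ)*T + 3*S*T^(2:ℕ) + S^(2:ℕ) + 5*S*T + T^(2:ℕ) + 2*S + 2*T + 1)), (S*T*(S + 1)*(T + 1))/((S^(2:ℕ)*T^(2:ℕ) + 3*S^(2:ℕ)*T + 3*S*T^(2:ℕ) + S^(2:ℕ) + 5*S*T + T^(2:ℕ) + 2*S + 2*T + 1))) = (((S^(2:ℕ)*T^(3:ℕ) + S^(2:ℕ)*T^(2:ℕ) + S*T^(3:ℕ) - 2*S^(2:ℕ)*T - S*T^(2:ℕ) - S^(2:ℕ) - 4*S*T - T^(2:ℕ) - 2*S - 2*T - 1))/(T*(S^(2:ℕ)*T^(2:ℕ) + 3*S^(2:ℕ)*T + 3*S*T^(2:ℕ) + S^(2:ℕ) + 5*S*T + T^(2:ℕ) + 2*S + 2*T + 1)), (S*T*(S + 1))/((S^(2:ℕ)*T^(2:ℕ) + 3*S^(2:ℕ)*T + 3*S*T^(2:ℕ) + S^(2:ℕ) + 5*S*T + T^(2:ℕ) + 2*S + 2*T + 1)))) (f5 : fl S T Letter.al (((S^(2:ℕ)*T^(3:ℕ) + S^(2:ℕ)*T^(2:ℕ) + S*T^(3:ℕ) - 2*S^(2:ℕ)*T - S*T^(2:ℕ) - S^(2:ℕ) - 4*S*T - T^(2:ℕ)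 - 2*S - 2*T - 1))/(T*(S^(2:ℕ)*T^(2:ℕ) + 3*S^(2:ℕ)*T + 3*S*T^(2:ℕ) + S^(2:ℕ) + 5*S*T + T^(2:ℕ) + 2*S + 2*T + 1)), (S*T*(S + 1))/((S^(2:ℕ)*T^(2:ℕ) + 3*S^(2:ℕ)*T + 3*S*T^(2:ℕ) + S^(2:ℕ) + 5*S*T + T^(2:ℕ) + 2*S + 2*T + 1))) = (((S*T^(3:ℕ) - 2*S^(2:ℕ)*T - S*T^(2:ℕ) - S^(2:ℕ) - 4*S*T - T^(2:ℕ) - 2*S - 2*T - 1))/(T*(S^(2:ℕ)*T^(2:ℕ) + 3*S^(2:ℕ)*T + 3*S*T^(2:ℕ) + S^(2:ℕ) + 5*S*T + T^(2:ℕ) + 2*S + 2*T + 1)), (T*(S^(2:ℕ)*T + S^(2:ℕ) + 3*S*T + 2*S + T + 1))/((S^(2:ℕ)*T^(2:ℕ) + 3*S^(2:ℕ)*T + 3*S*T^(2:ℕ) + S^(2:ℕ) + 5*S*T + T^(2:ℕ) + 2*S + 2*T + 1)))) (f6 : fl S T Letter.be (((S*T^(3:ℕ) - 2*S^(2:ℕ)*T - S*T^(2:ℕ) - S^(2:ℕ) - 4*S*T - T^(2:ℕ) - 2*S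 - 2*T - 1))/(T*(S^(2:ℕ)*T^(2:ℕ) + 3*S^(2:ℕ)*T + 3*S*T^(2:ℕ) + S^(2:ℕ) + 5*S*T + T^(2:ℕ) + 2*S + 2*T + 1)), (T*(S^(2:ℕ)*T + S^(2:ℕ) + 3*S*T + 2*S + T + 1))/((S^(2:ℕ)*T^(2:ℕ) + 3*S^(2:ℕ)*T + 3*S*T^(2:ℕ) + S^(2:ℕ) + 5*S*T + T^(2:ℕ) + 2*S + 2*T + 1))) = (((S^(2:ℕ)*T^(3:ℕ) + S^(2:ℕ)*T^(2:ℕ) + 3*S*T^(3:ℕ) - 2*S^(2:ℕ)*T + 2*S*T^(2:ℕ) + T^(3:ℕ) - S^(2:ℕ) - 3*S*T + T^(2:ℕ) - 2*S - T - 1))/(T*(S^(2:ℕ)*T^(2:ℕ) + 3*S^(2:ℕ)*T + 3*S*T^(2:ℕ) + S^(2:ℕ) + 5*S*T + T^(2:ℕ) + 2*S + 2*T + 1)), ((S + 1)^(2:ℕ)*(T + 1)^(2:ℕ))/((S^(2:ℕ)*T^(2:ℕ) + 3*S^(2:ℕ)*T + 3*S*T^(2:ℕ) + S^(2:ℕ) + 5*S*T + T^(2:ℕ) + 2*S + 2*T + 1)))) :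
    run S T [Letter.be, Letter.be, Letter.ga, Letter.be, Letter.be, Letter.al, Letter.be] (((S^(2:ℕ)*T^(3:ℕ) + S^(2:ℕ)*T^(2:ℕ) + 3*S*T^(3:ℕ) - 2*S^(2:ℕ)*T + 2*S*T^(2:ℕ) + T^(3:ℕ) - S^(2:ℕ) - 3*S*T + T^(2:ℕ) - 2*S - T - 1))/(T*(S^(2:ℕ)*T^(2:ℕ) + 3*S^(2:ℕ)*T + 3*S*T^(2:ℕ) + S^(2:ℕ) + 5*S*T + T^(2:ℕ) + 2*S + 2*T + 1)), ((S + 1)^(2:ℕ)*(T + 1)^(2:ℕ))/((S^(2:ℕ)*T^(2:ℕ) + 3*S^(2:ℕ)*T + 3*S*T^(2:ℕ) + S^(2:ℕ) + 5*S*T + T^(2:ℕ) + 2*S + 2*T + 1))) = (((S^(2:ℕ)*T^(3:ℕ) + S^(2:ℕ)*T^(2:ℕ) + 3*S*T^(3:ℕ) - 2*S^(2:ℕ)*T + 2*S*T^(2:ℕ) + T^(3:ℕ) - S^(2:ℕ) - 3*S*T + T^(2:ℕ) - 2*S - T - 1))/(T*(S^(2:ℕ)*T^(2:ℕ) + 3*S^(2:ℕ)*T + 3*S*T^(2:ℕ) + S^(2:ℕ) + 5*S*T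 + T^(2:ℕ) + 2*S + 2*T + 1)), ((S + 1)^(2:ℕ)*(T + 1)^(2:ℕ))/((S^(2:ℕ)*T^(2:ℕ) + 3*S^(2:ℕ)*T + 3*S*T^(2:ℕ) + S^(2:ℕ) + 5*S*T + T^(2:ℕ) + 2*S + 2*T + 1))) := (run_cons' f0 (run_cons' f1 (run_cons' f2 (run_cons' f3 (run_cons' f4 (run_cons' f5 (run_cons' f6 run_nil')))))))

theorem F4_d2 (S T : ℝ) (pT : 0 < T) (c1 : 0 < S*T + 2*S + 2*T + 2) :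
    0 < T*(S*T + 2*S + 2*T + 2) := (mul_pos pT c1)

theorem F4_d3 (S T : ℝ) (c1 : 0 < S*T + 2*S + 2*T + 2) :
    0 < (S*T + 2*S + 2*T + 2) := c1

theorem F4_f7 (S T : ℝ) (pT : 0 < T) (d1 : 0 < (S^(2:ℕ)*T^(2:ℕ) + 3*S^(2:ℕ)*T + 3*S*T^(2:ℕ) + S^(2:ℕ) + 5*S*T + T^(2:ℕ) + 2*S + 2*T + 1)) (d2 : 0 < T*(S*T + 2*S + 2*T + 2)) (d3 : 0 < (S*T + 2*S + 2*T + 2)) :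
    fl S T Letter.be (((S*T^(2:ℕ) + 2*T^(2:ℕ) - 2*S - 2))/(T*(S*T + 2*S + 2*T + 2)), ((S + 1)^(2:ℕ)*(T + 1)^(2:ℕ))/((S^(2:ℕ)*T^(2:ℕ) + 3*S^(2:ℕ)*T + 3*S*T^(2:ℕ) + S^(2:ℕ) + 5*S*T + T^(2:ℕ) + 2*S + 2*T + 1))) = (((S^(2:ℕ)*T^(2:ℕ) + 2*S^(2:ℕ)*T + 2*S*T^(2:ℕ) + 3*S*T + T^(2:ℕ) + S + 2*T + 1))/((S^(2:ℕ)*T^(2:ℕ) + 3*S^(2:ℕ)*T + 3*S*T^(2:ℕ) + S^(2:ℕ) + 5*S*T + T^(2:ℕ) + 2*S + 2*T + 1)), (2*(S + 1))/((S*T + 2*S + 2*T + 2))) := fl_be' pT d2 d1 d1 d3 (by ring) (by ring)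

theorem F4_f8 (S T : ℝ) (pT : 0 < T) (d1 : 0 < (S^(2:ℕ)*T^(2:ℕ) + 3*S^(2:ℕ)*T + 3*S*T^(2:ℕ) + S^(2:ℕ) + 5*S*T + T^(2:ℕ) + 2*S + 2*T + 1)) (d3 : 0 < (S*T + 2*S + 2*T + 2)) :
    fl S T Letter.be (((S^(2:ℕ)*T^(2:ℕ) + 2*S^(2:ℕ)*T + 2*S*T^(2:ℕ) + 3*S*T + T^(2:ℕ) + S + 2*T + 1))/((S^(2:ℕ)*T^(2:ℕ) + 3*S^(2:ℕ)*T + 3*S*T^(2:ℕ) + S^(2:ℕ) + 5*S*T + T^(2:ℕ) + 2*S + 2*T + 1)), (2*(S + 1))/((S*T + 2*S + 2*T + 2))) = ((S)/((S*T + 2*S + 2*T + 2)), (S*T*(S + T + 1))/((S^(2:ℕ)*T^(2:ℕ) + 3*S^(2:ℕ)*T + 3*S*T^(2:ℕ) + S^(2:ℕ) + 5*S*T + T^(2:ℕ) + 2*S + 2*T + 1))) := fl_be' pT d1 d3 d3 d1 (by ring) (by ring)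

theorem F4_f9 (S T : ℝ) (pS : 0 < S) (d1 : 0 < (S^(2:ℕ)*T^(2:ℕ) + 3*S^(2:ℕ)*T + 3*S*T^(2:ℕ) + S^(2:ℕ) + 5*S*T + T^(2:ℕ) + 2*S + 2*T + 1)) (d3 : 0 < (S*T + 2*S + 2*T + 2)) :
    fl S T Letter.ga ((S)/((S*T + 2*S + 2*T + 2)), (S*T*(S + T + 1))/((S^(2:ℕ)*T^(2:ℕ) + 3*S^(2:ℕ)*T + 3*S*T^(2:ℕ) + S^(2:ℕ) + 5*S*T + T^(2:ℕ) + 2*S + 2*T + 1))) = (((S^(2:ℕ)*T + 2*S*T^(2:ℕ) + 3*S*T + T^(2:ℕ) + S + 2*T + 1))/((S^(2:ℕ)*T^(2:ℕ) + 3*S^(2:ℕ)*T + 3*S*T^(2:ℕ) + S^(2:ℕ) + 5*S*T + T^(2:ℕ) + 2*S + 2*T + 1)), ((S*T + S + 2*T + 1))/((S*T + 2*S + 2*T + 2))) := fl_ga' pS d3 d1 d1 d3 (by ring) (by ring)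

theorem F4_f10 (S T : ℝ) (pT : 0 < T) (d1 : 0 < (S^(2:ℕ)*T^(2:ℕ) + 3*S^(2:ℕ)*T + 3*S*T^(2:ℕ) + S^(2:ℕ) + 5*S*T + T^(2:ℕ) + 2*S + 2*T + 1)) (d2 : 0 < T*(S*T + 2*S + 2*T + 2)) (d3 : 0 < (S*T + 2*S + 2*T + 2)) :
    fl S T Letter.be (((S^(2:ℕ)*T + 2*S*T^(2:ℕ) + 3*S*T + T^(2:ℕ) + S + 2*T + 1))/((S^(2:ℕ)*T^(2:ℕ) + 3*S^(2:ℕ)*T + 3*S*T^(2:ℕ) + S^(2:ℕ) + 5*S*T + T^(2:ℕ) + 2*S + 2*T + 1)), ((S*T + S + 2*T + 1))/((S*T + 2*S + 2*T + 2))) = (((S*T^(2:ℕ) + S*T + 2*T^(2:ℕ) - S + T - 1))/(T*(S*T + 2*S + 2*T + 2)), (S*T*(S + 1)*(T + 1))/((S^(2:ℕ)*T^(2:ℕ) + 3*S^(2:ℕ)*T + 3*S*T^(2:ℕ) + S^(2:ℕ) + 5*S*T + T^(2:ℕ) + 2*S + 2*T + 1))) := fl_be' pT d1 d3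 d2 d1 (by ring) (by ring)

theorem F4_f11 (S T : ℝ) (pT : 0 < T) (d0 : 0 < T*(S^(2:ℕ)*T^(2:ℕ) + 3*S^(2:ℕ)*T + 3*S*T^(2:ℕ) + S^(2:ℕ) + 5*S*T + T^(2:ℕ) + 2*S + 2*T + 1)) (d1 : 0 < (S^(2:ℕ)*T^(2:ℕ) + 3*S^(2:ℕ)*T + 3*S*T^(2:ℕ) + S^(2:ℕ) + 5*S*T + T^(2:ℕ) + 2*S + 2*T + 1)) (d2 : 0 < T*(S*T + 2*S + 2*T + 2)) (d3 : 0 < (S*T + 2*S + 2*T + 2)) :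
    fl S T Letter.be (((S*T^(2:ℕ) + S*T + 2*T^(2:ℕ) - S + T - 1))/(T*(S*T + 2*S + 2*T + 2)), (S*T*(S + 1)*(T + 1))/((S^(2:ℕ)*T^(2:ℕ) + 3*S^(2:ℕ)*T + 3*S*T^(2:ℕ) + S^(2:ℕ) + 5*S*T + T^(2:ℕ) + 2*S + 2*T + 1))) = (((S^(2:ℕ)*T^(3:ℕ) + S^(2:ℕ)*T^(2:ℕ) + S*T^(3:ℕ) - 2*S^(2:ℕ)*T - S*T^(2:ℕ) - S^(2:ℕ) - 4*S*T - T^(2:ℕ) - 2*S - 2*T - 1))/(T*(S^(2:ℕ)*T^(2:ℕ) + 3*S^(2:ℕ)*T + 3*S*T^(2:ℕ) + S^(2:ℕ) + 5*S*T + T^(2:ℕ) + 2*S + 2*T + 1)), ((S + 1))/((S*T + 2*S + 2*T + 2))) := fl_be' pT d2 d1 d0 d3 (by ring) (by ring)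

theorem F4_f12 (S T : ℝ) (pS : 0 < S) (pT : 0 < T) (d0 : 0 < T*(S^(2:ℕ)*T^(2:ℕ) + 3*S^(2:ℕ)*T + 3*S*T^(2:ℕ) + S^(2:ℕ) + 5*S*T + T^(2:ℕ) + 2*S + 2*T + 1)) (d3 : 0 < (S*T + 2*S + 2*T + 2)) :
    fl S T Letter.al (((S^(2:ℕ)*T^(3:ℕ) + S^(2:ℕ)*T^(2:ℕ) + S*T^(3:ℕ) - 2*S^(2:ℕ)*T - S*T^(2:ℕ) - S^(2:ℕ) - 4*S*T - T^(2:ℕ) - 2*S - 2*T - 1))/(T*(S^(2:ℕ)*T^(2:ℕ) + 3*S^(2:ℕ)*T + 3*S*T^(2:ℕ) + S^(2:ℕ) + 5*S*T + T^(2:ℕ) + 2*S + 2*T + 1)), ((S + 1))/((S*T + 2*S + 2*T + 2))) = (((S*T^(3:ℕ) - 2*S^(2:ℕ)*T - S*T^(2:ℕ) - S^(2:ℕ) - 4*S*T - T^(2:ℕ) - 2*S - 2*T - 1))/(T*(S^(2:ℕ)*T^(2:ℕ) + 3*S^(2:ℕ)*T + 3*S*T^(2:ℕ) + S^(2:ℕ) + 5*S*T + T^(2:ℕ) + 2*S + 2*T + 1)),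 ((S*T + S + 2*T + 1))/((S*T + 2*S + 2*T + 2))) := fl_al' pS pT d0 d3 d0 d3 (by ring) (by ring)

theorem F4_f13 (S T : ℝ) (pT : 0 < T) (d0 : 0 < T*(S^(2:ℕ)*T^(2:ℕ) + 3*S^(2:ℕ)*T + 3*S*T^(2:ℕ) + S^(2:ℕ) + 5*S*T + T^(2:ℕ) + 2*S + 2*T + 1)) (d1 : 0 < (S^(2:ℕ)*T^(2:ℕ) + 3*S^(2:ℕ)*T + 3*S*T^(2:ℕ) + S^(2:ℕ) + 5*S*T + T^(2:ℕ) + 2*S + 2*T + 1)) (d2 : 0 < T*(S*T + 2*S + 2*T + 2)) (d3 : 0 < (S*T + 2*S + 2*T + 2)) :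
    fl S T Letter.be (((S*T^(3:ℕ) - 2*S^(2:ℕ)*T - S*T^(2:ℕ) - S^(2:ℕ) - 4*S*T - T^(2:ℕ) - 2*S - 2*T - 1))/(T*(S^(2:ℕ)*T^(2:ℕ) + 3*S^(2:ℕ)*T + 3*S*T^(2:ℕ) + S^(2:ℕ) + 5*S*T + T^(2:ℕ) + 2*S + 2*T + 1)), ((S*T + S + 2*T + 1))/((S*T + 2*S + 2*T + 2))) = (((S*T^(2:ℕ) + S*T + 2*T^(2:ℕ) - S + T - 1))/(T*(S*T + 2*S + 2*T + 2)), ((S + 1)^(2:ℕ)*(T + 1)^(2:ℕ))/((S^(2:ℕ)*T^(2:ℕ) + 3*S^(2:ℕ)*T + 3*S*T^(2:ℕ) + S^(2:ℕ) + 5*S*T + T^(2:ℕ) + 2*S + 2*T + 1))) := fl_be' pT d0 d3 d2 d1 (by ring) (by ring)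

theorem F4_rP (S T : ℝ) (f7 : fl S T Letter.be (((S*T^(2:ℕ) + 2*T^(2:ℕ) - 2*S - 2))/(T*(S*T + 2*S + 2*T + 2)), ((S + 1)^(2:ℕ)*(T + 1)^(2:ℕ))/((S^(2:ℕ)*T^(2:ℕ) + 3*S^(2:ℕ)*T + 3*S*T^(2:ℕ) + S^(2:ℕ) + 5*S*T + T^(2:ℕ) + 2*S + 2*T + 1))) = (((S^(2:ℕ)*T^(2:ℕ) + 2*S^(2:ℕ)*T + 2*S*T^(2:ℕ) + 3*S*T + T^(2:ℕ) + S + 2*T + 1))/((S^(2:ℕ)*T^(2:ℕ) + 3*S^(2:ℕ)*T + 3*S*T^(2:ℕ) + S^(2:ℕ) + 5*S*T + T^(2:ℕ) + 2*S + 2*T + 1)), (2*(S + 1))/((S*T + 2*S + 2*T + 2)))) (f8 : fl S T Letter.be (((S^(2:ℕ)*T^(2:ℕ) + 2*S^(2:ℕ)*T + 2*S*T^(2:ℕ) + 3*S*T + T^(2:ℕ) + S + 2*T + 1))/((S^(2:ℕ)*T^(2:ℕ) + 3*S^(2:ℕ)*T + 3*S*T^(2:ℕ) + S^(2:ℕ) + 5*S*T + T^(2:ℕ) + 2*S + 2*T +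 1)), (2*(S + 1))/((S*T + 2*S + 2*T + 2))) = ((S)/((S*T + 2*S + 2*T + 2)), (S*T*(S + T + 1))/((S^(2:ℕ)*T^(2:ℕ) + 3*S^(2:ℕ)*T + 3*S*T^(2:ℕ) + S^(2:ℕ) + 5*S*T + T^(2:ℕ) + 2*S + 2*T + 1)))) (f9 : fl S T Letter.ga ((S)/((S*T + 2*S + 2*T + 2)), (S*T*(S + T + 1))/((S^(2:ℕ)*T^(2:ℕ) + 3*S^(2:ℕ)*T + 3*S*T^(2:ℕ) + S^(2:ℕ) + 5*S*T + T^(2:ℕ) + 2*S + 2*T + 1))) = (((S^(2:ℕ)*T + 2*S*T^(2:ℕ) + 3*S*T + T^(2:ℕ) + S + 2*T + 1))/((S^(2:ℕ)*T^(2:ℕ) + 3*S^(2:ℕ)*T + 3*S*T^(2:ℕ) + S^(2:ℕ) + 5*S*T + T^(2:ℕ) + 2*S + 2*T + 1)), ((S*T + S + 2*T + 1))/((S*T + 2*S + 2*T + 2)))) (f10 : fl S T Letter.be (((S^(2:ℕ)*T + 2*S*T^(2:ℕ) + 3*S*T + T^(2:ℕ) + S + 2*T + 1))/((S^(2:ℕ)*T^(2:ℕ)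 + 3*S^(2:ℕ)*T + 3*S*T^(2:ℕ) + S^(2:ℕ) + 5*S*T + T^(2:ℕ) + 2*S + 2*T + 1)), ((S*T + S + 2*T + 1))/((S*T + 2*S + 2*T + 2))) = (((S*T^(2:ℕ) + S*T + 2*T^(2:ℕ) - S + T - 1))/(T*(S*T + 2*S + 2*T + 2)), (S*T*(S + 1)*(T + 1))/((S^(2:ℕ)*T^(2:ℕ) + 3*S^(2:ℕ)*T + 3*S*T^(2:ℕ) + S^(2:ℕ) + 5*S*T + T^(2:ℕ) + 2*S + 2*T + 1)))) (f11 : fl S T Letter.be (((S*T^(2:ℕ) + S*T + 2*T^(2:ℕ) - S + T - 1))/(T*(S*T + 2*S + 2*T + 2)), (S*T*(S + 1)*(T + 1))/((S^(2:ℕ)*T^(2:ℕ) + 3*S^(2:ℕ)*T + 3*S*T^(2:ℕ) + S^(2:ℕ) + 5*S*T + T^(2:ℕ) + 2*S + 2*T + 1))) = (((S^(2:ℕ)*T^(3:ℕ) + S^(2:ℕ)*T^(2:ℕ) + S*T^(3:ℕ) - 2*S^(2:ℕ)*T - S*T^(2:ℕ) - S^(2:ℕ) - 4*S*T - T^(2:ℕ) - 2*S - 2*T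 - 1))/(T*(S^(2:ℕ)*T^(2:ℕ) + 3*S^(2:ℕ)*T + 3*S*T^(2:ℕ) + S^(2:ℕ) + 5*S*T + T^(2:ℕ) + 2*S + 2*T + 1)), ((S + 1))/((S*T + 2*S + 2*T + 2)))) (f12 : fl S T Letter.al (((S^(2:ℕ)*T^(3:ℕ) + S^(2:ℕ)*T^(2:ℕ) + S*T^(3:ℕ) - 2*S^(2:ℕ)*T - S*T^(2:ℕ) - S^(2:ℕ) - 4*S*T - T^(2:ℕ) - 2*S - 2*T - 1))/(T*(S^(2:ℕ)*T^(2:ℕ) + 3*S^(2:ℕ)*T + 3*S*T^(2:ℕ) + S^(2:ℕ) + 5*S*T + T^(2:ℕ) + 2*S + 2*T + 1)), ((S + 1))/((S*T + 2*S + 2*T + 2))) = (((S*T^(3:ℕ) - 2*S^(2:ℕ)*T - S*T^(2:ℕ) - S^(2:ℕ) - 4*S*T - T^(2:ℕ) - 2*S - 2*T - 1))/(T*(S^(2:ℕ)*T^(2:ℕ) + 3*S^(2:ℕ)*T + 3*S*T^(2:ℕ) + S^(2:ℕ) + 5*S*T + T^(2:ℕ) + 2*S + 2*T + 1)), ((S*T + S + 2*T + 1))/((S*T + 2*S + 2*T + 2))))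 (f13 : fl S T Letter.be (((S*T^(3:ℕ) - 2*S^(2:ℕ)*T - S*T^(2:ℕ) - S^(2:ℕ) - 4*S*T - T^(2:ℕ) - 2*S - 2*T - 1))/(T*(S^(2:ℕ)*T^(2:ℕ) + 3*S^(2:ℕ)*T + 3*S*T^(2:ℕ) + S^(2:ℕ) + 5*S*T + T^(2:ℕ) + 2*S + 2*T + 1)), ((S*T + S + 2*T + 1))/((S*T + 2*S + 2*T + 2))) = (((S*T^(2:ℕ) + S*T + 2*T^(2:ℕ) - S + T - 1))/(T*(S*T + 2*S + 2*T + 2)), ((S + 1)^(2:ℕ)*(T + 1)^(2:ℕ))/((S^(2:ℕ)*T^(2:ℕ) + 3*S^(2:ℕ)*T + 3*S*T^(2:ℕ) + S^(2:ℕ) + 5*S*T + T^(2:ℕ) + 2*S + 2*T + 1)))) :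
    run S T [Letter.be, Letter.be, Letter.ga, Letter.be, Letter.be, Letter.al, Letter.be] (((S*T^(2:ℕ) + 2*T^(2:ℕ) - 2*S - 2))/(T*(S*T + 2*S + 2*T + 2)), ((S + 1)^(2:ℕ)*(T + 1)^(2:ℕ))/((S^(2:ℕ)*T^(2:ℕ) + 3*S^(2:ℕ)*T + 3*S*T^(2:ℕ) + S^(2:ℕ) + 5*S*T + T^(2:ℕ) + 2*S + 2*T + 1))) = (((S*T^(2:ℕ) + S*T + 2*T^(2:ℕ) - S + T - 1))/(T*(S*T + 2*S + 2*T + 2)), ((S + 1)^(2:ℕ)*(T + 1)^(2:ℕ))/((S^(2:ℕ)*T^(2:ℕ) + 3*S^(2:ℕ)*T + 3*S*T^(2:ℕ) + S^(2:ℕ) + 5*S*T + T^(2:ℕ) + 2*S + 2*T + 1))) := (run_cons' f7 (run_cons' f8 (run_cons' f9 (run_cons' f10 (run_cons' f11 (run_cons' f12 (run_cons' f13 run_nil')))))))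

theorem F4_d4 (S T : ℝ) (c2 : 0 < S*T^(2:ℕ) + 2*T^(2:ℕ) - 2*S - 2) :
    0 < (S*T^(2:ℕ) + 2*T^(2:ℕ) - 2*S - 2) := c2

theorem F4_q0 (S T : ℝ) (d2 : 0 < T*(S*T + 2*S + 2*T + 2)) (d4 : 0 < (S*T^(2:ℕ) + 2*T^(2:ℕ) - 2*S - 2)) :
    0 < ((S*T^(2:ℕ) + 2*T^(2:ℕ) - 2*S - 2))/(T*(S*T + 2*S + 2*T + 2)) := div_pos d4 d2

theorem F4_d5 (S T : ℝ) (pA : 0 < (S + 1)) (pB : 0 < (T + 1)) :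
    0 < 2*(S + 1)*(T + 1) := (mul_pos (mul_pos (by norm_num) pA) pB)

theorem F4_q1 (S T : ℝ) (d2 : 0 < T*(S*T + 2*S + 2*T + 2)) (d5 : 0 < 2*(S + 1)*(T + 1)) :
    ((S*T^(2:ℕ) + 2*T^(2:ℕ) - 2*S - 2))/(T*(S*T + 2*S + 2*T + 2)) < 1 := rlt1 d2 d5 d2 (by ring)

theorem F4_d6 (S T : ℝ) (pA : 0 < (S + 1)) (pB : 0 < (T + 1)) :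
    0 < (S + 1)^(2:ℕ)*(T + 1)^(2:ℕ) := (mul_pos (pow_pos pA 2) (pow_pos pB 2))

theorem F4_q2 (S T : ℝ) (d1 : 0 < (S^(2:ℕ)*T^(2:ℕ) + 3*S^(2:ℕ)*T + 3*S*T^(2:ℕ) + S^(2:ℕ) + 5*S*T + T^(2:ℕ) + 2*S + 2*T + 1)) (d6 : 0 < (S + 1)^(2:ℕ)*(T + 1)^(2:ℕ)) :
    0 < ((S + 1)^(2:ℕ)*(T + 1)^(2:ℕ))/((S^(2:ℕ)*T^(2:ℕ) + 3*S^(2:ℕ)*T + 3*S*T^(2:ℕ) + S^(2:ℕ) + 5*S*T + T^(2:ℕ) + 2*S + 2*T + 1)) := div_pos d6 d1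

theorem F4_d7 (S T : ℝ) (pS : 0 < S) (pT : 0 < T) (pU : 0 < (S + T + 1)) :
    0 < S*T*(S + T + 1) := (mul_pos (mul_pos pS pT) pU)

theorem F4_q3 (S T : ℝ) (d1 : 0 < (S^(2:ℕ)*T^(2:ℕ) + 3*S^(2:ℕ)*T + 3*S*T^(2:ℕ) + S^(2:ℕ) + 5*S*T + T^(2:ℕ) + 2*S + 2*T + 1)) (d7 : 0 < S*T*(S + T + 1)) :
    ((S + 1)^(2:ℕ)*(T + 1)^(2:ℕ))/((S^(2:ℕ)*T^(2:ℕ) + 3*S^(2:ℕ)*T + 3*S*T^(2:ℕ) + S^(2:ℕ) + 5*S*T + T^(2:ℕ) + 2*S + 2*T + 1)) < 1 := rlt1 d1 d7 d1 (by ring)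

theorem F4_sP (S T : ℝ) (q0 : 0 < ((S*T^(2:ℕ) + 2*T^(2:ℕ) - 2*S - 2))/(T*(S*T + 2*S + 2*T + 2))) (q1 : ((S*T^(2:ℕ) + 2*T^(2:ℕ) - 2*S - 2))/(T*(S*T + 2*S + 2*T + 2)) < 1) (q2 : 0 < ((S + 1)^(2:ℕ)*(T + 1)^(2:ℕ))/((S^(2:ℕ)*T^(2:ℕ) + 3*S^(2:ℕ)*T + 3*S*T^(2:ℕ) + S^(2:ℕ) + 5*S*T + T^(2:ℕ) + 2*S + 2*T + 1))) (q3 : ((S + 1)^(2:ℕ)*(T + 1)^(2:ℕ))/((S^(2:ℕ)*T^(2:ℕ) + 3*S^(2:ℕ)*T + 3*S*T^(2:ℕ) + S^(2:ℕ) + 5*S*T + T^(2:ℕ) + 2*S + 2*T + 1)) < 1) :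
    Sq (((S*T^(2:ℕ) + 2*T^(2:ℕ) - 2*S - 2))/(T*(S*T + 2*S + 2*T + 2)), ((S + 1)^(2:ℕ)*(T + 1)^(2:ℕ))/((S^(2:ℕ)*T^(2:ℕ) + 3*S^(2:ℕ)*T + 3*S*T^(2:ℕ) + S^(2:ℕ) + 5*S*T + T^(2:ℕ) + 2*S + 2*T + 1))) := ⟨⟨q0, q1⟩, q2, q3⟩

theorem F4_d8 (S T : ℝ) (pB : 0 < (T + 1)) (c3 : 0 < S*T^(2:ℕ) - 2*S^(2:ℕ) + 2*T^(2:ℕ) - 4*S - 2) :
    0 < (T + 1)*(S*T^(2:ℕ) - 2*S^(2:ℕ) + 2*T^(2:ℕ) - 4*S - 2) := (mul_pos pB c3)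

theorem F4_g0 (S T : ℝ) (d2 : 0 < T*(S*T + 2*S + 2*T + 2)) (d8 : 0 < (T + 1)*(S*T^(2:ℕ) - 2*S^(2:ℕ) + 2*T^(2:ℕ) - 4*S - 2)) :
    S < (S + T + 1) * (((S*T^(2:ℕ) + 2*T^(2:ℕ) - 2*S - 2))/(T*(S*T + 2*S + 2*T + 2))) := rgt d2 d8 d2 (by ring)

theorem F4_d9 (S T : ℝ) (pT : 0 < T) (c4 : 0 < S^(2:ℕ)*T^(2:ℕ) + 2*S^(2:ℕ)*T + 2*S*T^(2:ℕ) + 3*S*T + T^(2:ℕ) + S + 2*T + 1) :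
    0 < T*(S^(2:ℕ)*T^(2:ℕ) + 2*S^(2:ℕ)*T + 2*S*T^(2:ℕ) + 3*S*T + T^(2:ℕ) + S + 2*T + 1) := (mul_pos pT c4)

theorem F4_g1 (S T : ℝ) (d1 : 0 < (S^(2:ℕ)*T^(2:ℕ) + 3*S^(2:ℕ)*T + 3*S*T^(2:ℕ) + S^(2:ℕ) + 5*S*T + T^(2:ℕ) + 2*S + 2*T + 1)) (d9 : 0 < T*(S^(2:ℕ)*T^(2:ℕ) + 2*S^(2:ℕ)*T + 2*S*T^(2:ℕ) + 3*S*T + T^(2:ℕ) + S + 2*T + 1)) :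
    1 < (T + 1) * (((S + 1)^(2:ℕ)*(T + 1)^(2:ℕ))/((S^(2:ℕ)*T^(2:ℕ) + 3*S^(2:ℕ)*T + 3*S*T^(2:ℕ) + S^(2:ℕ) + 5*S*T + T^(2:ℕ) + 2*S + 2*T + 1))) := rgt d1 d9 d1 (by ring)

theorem F4_oP_0 (S T : ℝ) (g0 : S < (S + T + 1) * (((S*T^(2:ℕ) + 2*T^(2:ℕ) - 2*S - 2))/(T*(S*T + 2*S + 2*T + 2)))) (g1 : 1 < (T + 1) * (((S + 1)^(2:ℕ)*(T + 1)^(2:ℕ))/((S^(2:ℕ)*T^(2:ℕ) + 3*S^(2:ℕ)*T + 3*S*T^(2:ℕ) + S^(2:ℕ) + 5*S*T + T^(2:ℕ) + 2*S + 2*T + 1)))) :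
    cond S T Letter.be (((S*T^(2:ℕ) + 2*T^(2:ℕ) - 2*S - 2))/(T*(S*T + 2*S + 2*T + 2)), ((S + 1)^(2:ℕ)*(T + 1)^(2:ℕ))/((S^(2:ℕ)*T^(2:ℕ) + 3*S^(2:ℕ)*T + 3*S*T^(2:ℕ) + S^(2:ℕ) + 5*S*T + T^(2:ℕ) + 2*S + 2*T + 1))) := ⟨g0, g1⟩

theorem F4_d10 (S T : ℝ) (pA : 0 < (S + 1)) (pB : 0 < (T + 1)) (c5 : 0 < S*T^(2:ℕ) - S^(2:ℕ) + S*T + T^(2:ℕ) + 2*T + 1) :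
    0 < (S + 1)*(T + 1)*(S*T^(2:ℕ) - S^(2:ℕ) + S*T + T^(2:ℕ) + 2*T + 1) := (mul_pos (mul_pos pA pB) c5)

theorem F4_g2 (S T : ℝ) (d1 : 0 < (S^(2:ℕ)*T^(2:ℕ) + 3*S^(2:ℕ)*T + 3*S*T^(2:ℕ) + S^(2:ℕ) + 5*S*T + T^(2:ℕ) + 2*S + 2*T + 1)) (d10 : 0 < (S + 1)*(T + 1)*(S*T^(2:ℕ) - S^(2:ℕ) + S*T + T^(2:ℕ) + 2*T + 1)) :
    S < (S + T + 1) * (((S^(2:ℕ)*T^(2:ℕ) + 2*S^(2:ℕ)*T + 2*S*T^(2:ℕ) + 3*S*T + T^(2:ℕ) + S + 2*T + 1))/((S^(2:ℕ)*T^(2:ℕ) + 3*S^(2:ℕ)*T + 3*S*T^(2:ℕ) + S^(2:ℕ) + 5*S*T + T^(2:ℕ) + 2*S + 2*T + 1))) := rgt d1 d10 d1 (by ring)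

theorem F4_d11 (S T : ℝ) (pS : 0 < S) (pT : 0 < T) :
    0 < S*T := (mul_pos pS pT)

theorem F4_g3 (S T : ℝ) (d3 : 0 < (S*T + 2*S + 2*T + 2)) (d11 : 0 < S*T) :
    1 < (T + 1) * ((2*(S + 1))/((S*T + 2*S + 2*T + 2))) := rgt d3 d11 d3 (by ring)

theorem F4_oP_1 (S T : ℝ) (g2 : S < (S + T + 1) * (((S^(2:ℕ)*T^(2:ℕ) + 2*S^(2:ℕ)*T + 2*S*T^(2:ℕ) + 3*S*T + T^(2:ℕ) + S + 2*T + 1))/((S^(2:ℕ)*T^(2:ℕ) + 3*S^(2:ℕ)*T + 3*S*T^(2:ℕ) + S^(2:ℕ) + 5*S*T + T^(2:ℕ) + 2*S + 2*T + 1)))) (g3 : 1 < (T + 1) * ((2*(S + 1))/((S*T + 2*S + 2*T + 2)))) :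
    cond S T Letter.be (((S^(2:ℕ)*T^(2:ℕ) + 2*S^(2:ℕ)*T + 2*S*T^(2:ℕ) + 3*S*T + T^(2:ℕ) + S + 2*T + 1))/((S^(2:ℕ)*T^(2:ℕ) + 3*S^(2:ℕ)*T + 3*S*T^(2:ℕ) + S^(2:ℕ) + 5*S*T + T^(2:ℕ) + 2*S + 2*T + 1)), (2*(S + 1))/((S*T + 2*S + 2*T + 2))) := ⟨g2, g3⟩

theorem F4_d12 (S T : ℝ) (pS : 0 < S) (pA : 0 < (S + 1)) (pB : 0 < (T + 1)) :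
    0 < S*(S + 1)*(T + 1) := (mul_pos (mul_pos pS pA) pB)

theorem F4_g4 (S T : ℝ) (d3 : 0 < (S*T + 2*S + 2*T + 2)) (d12 : 0 < S*(S + 1)*(T + 1)) :
    (S + T + 1) * ((S)/((S*T + 2*S + 2*T + 2))) < S := rlt d3 d12 d3 (by ring)

theorem F4_oP_2 (S T : ℝ) (g4 : (S + T + 1) * ((S)/((S*T + 2*S + 2*T + 2))) < S) :
    cond S T Letter.ga ((S)/((S*T + 2*S + 2*T + 2)), (S*T*(S + T + 1))/((S^(2:ℕ)*T^(2:ℕ) + 3*S^(2:ℕ)*T + 3*S*T^(2:ℕ) + S^(2:ℕ) + 5*S*T + T^(2:ℕ) + 2*S + 2*T + 1))) := g4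

theorem F4_d13 (S T : ℝ) (pB : 0 < (T + 1)) (c6 : 0 < -S^(3:ℕ)*T - S^(3:ℕ) + 2*S*T^(2:ℕ) - S^(2:ℕ) + 3*S*T + T^(2:ℕ) + S + 2*T + 1) :
    0 < (T + 1)*(-S^(3:ℕ)*T - S^(3:ℕ) + 2*S*T^(2:ℕ) - S^(2:ℕ) + 3*S*T + T^(2:ℕ) + S + 2*T + 1) := (mul_pos pB c6)

theorem F4_g5 (S T : ℝ) (d1 : 0 < (S^(2:ℕ)*T^(2:ℕ) + 3*S^(2:ℕ)*T + 3*S*T^(2:ℕ) + S^(2:ℕ) + 5*S*T + T^(2:ℕ) + 2*S + 2*T + 1)) (d13 : 0 < (T + 1)*(-S^(3:ℕ)*T - S^(3:ℕ) + 2*S*T^(2:ℕ) - S^(2:ℕ) + 3*S*T + T^(2:ℕ) + S + 2*T + 1)) :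
    S < (S + T + 1) * (((S^(2:ℕ)*T + 2*S*T^(2:ℕ) + 3*S*T + T^(2:ℕ) + S + 2*T + 1))/((S^(2:ℕ)*T^(2:ℕ) + 3*S^(2:ℕ)*T + 3*S*T^(2:ℕ) + S^(2:ℕ) + 5*S*T + T^(2:ℕ) + 2*S + 2*T + 1))) := rgt d1 d13 d1 (by ring)

theorem F4_d14 (S T : ℝ) (c7 : 0 < S*T^(2:ℕ) + S*T + 2*T^(2:ℕ) - S + T - 1) :
    0 < (S*T^(2:ℕ) + S*T + 2*T^(2:ℕ) - S + T - 1) := c7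

theorem F4_g6 (S T : ℝ) (d3 : 0 < (S*T + 2*S + 2*T + 2)) (d14 : 0 < (S*T^(2:ℕ) + S*T + 2*T^(2:ℕ) - S + T - 1)) :
    1 < (T + 1) * (((S*T + S + 2*T + 1))/((S*T + 2*S + 2*T + 2))) := rgt d3 d14 d3 (by ring)

theorem F4_oP_3 (S T : ℝ) (g5 : S < (S + T + 1) * (((S^(2:ℕ)*T + 2*S*T^(2:ℕ) + 3*S*T + T^(2:ℕ) + S + 2*T + 1))/((S^(2:ℕ)*T^(2:ℕ) + 3*S^(2:ℕ)*T + 3*S*T^(2:ℕ) + S^(2:ℕ) + 5*S*T + T^(2:ℕ) + 2*S + 2*T + 1)))) (g6 : 1 < (T + 1) * (((S*T + S + 2*T + 1))/((S*T + 2*S + 2*T + 2)))) :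
    cond S T Letter.be (((S^(2:ℕ)*T + 2*S*T^(2:ℕ) + 3*S*T + T^(2:ℕ) + S + 2*T + 1))/((S^(2:ℕ)*T^(2:ℕ) + 3*S^(2:ℕ)*T + 3*S*T^(2:ℕ) + S^(2:ℕ) + 5*S*T + T^(2:ℕ) + 2*S + 2*T + 1)), ((S*T + S + 2*T + 1))/((S*T + 2*S + 2*T + 2))) := ⟨g5, g6⟩

theorem F4_d15 (S T : ℝ) (pB : 0 < (T + 1)) (c8 : 0 < S*T^(2:ℕ) - S^(2:ℕ) + S*T + 2*T^(2:ℕ) - 2*S + T - 1) :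
    0 < (T + 1)*(S*T^(2:ℕ) - S^(2:ℕ) + S*T + 2*T^(2:ℕ) - 2*S + T - 1) := (mul_pos pB c8)

theorem F4_g7 (S T : ℝ) (d2 : 0 < T*(S*T + 2*S + 2*T + 2)) (d15 : 0 < (T + 1)*(S*T^(2:ℕ) - S^(2:ℕ) + S*T + 2*T^(2:ℕ) - 2*S + T - 1)) :
    S < (S + T + 1) * (((S*T^(2:ℕ) + S*T + 2*T^(2:ℕ) - S + T - 1))/(T*(S*T + 2*S + 2*T + 2))) := rgt d2 d15 d2 (by ring)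

theorem F4_d16 (S T : ℝ) (c9 : 0 < S^(2:ℕ)*T^(3:ℕ) + S^(2:ℕ)*T^(2:ℕ) + S*T^(3:ℕ) - 2*S^(2:ℕ)*T - S*T^(2:ℕ) - S^(2:ℕ) - 4*S*T - T^(2:ℕ) - 2*S - 2*T - 1) :
    0 < (S^(2:ℕ)*T^(3:ℕ) + S^(2:ℕ)*T^(2:ℕ) + S*T^(3:ℕ) - 2*S^(2:ℕ)*T - S*T^(2:ℕ) - S^(2:ℕ) - 4*S*T - T^(2:ℕ) - 2*S - 2*T - 1) := c9

theorem F4_g8 (S T : ℝ) (d1 : 0 < (S^(2:ℕ)*T^(2:ℕ) + 3*S^(2:ℕ)*T + 3*S*T^(2:ℕ) + S^(2:ℕ) + 5*S*T + T^(2:ℕ) + 2*S + 2*T + 1)) (d16 : 0 < (S^(2:ℕ)*T^(3:ℕ) + S^(2:ℕ)*T^(2:ℕ) + S*T^(3:ℕ) - 2*S^(2:ℕ)*T - S*T^(2:ℕ) - S^(2:ℕ) - 4*S*T - T^(2:ℕ) - 2*S - 2*T - 1)) :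
    1 < (T + 1) * ((S*T*(S + 1)*(T + 1))/((S^(2:ℕ)*T^(2:ℕ) + 3*S^(2:ℕ)*T + 3*S*T^(2:ℕ) + S^(2:ℕ) + 5*S*T + T^(2:ℕ) + 2*S + 2*T + 1))) := rgt d1 d16 d1 (by ring)

theorem F4_oP_4 (S T : ℝ) (g7 : S < (S + T + 1) * (((S*T^(2:ℕ) + S*T + 2*T^(2:ℕ) - S + T - 1))/(T*(S*T + 2*S + 2*T + 2)))) (g8 : 1 < (T + 1) * ((S*T*(S + 1)*(T + 1))/((S^(2:ℕ)*T^(2:ℕ) + 3*S^(2:ℕ)*T + 3*S*T^(2:ℕ) + S^(2:ℕ) + 5*S*T + T^(2:ℕ) + 2*S + 2*T + 1)))) :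
    cond S T Letter.be (((S*T^(2:ℕ) + S*T + 2*T^(2:ℕ) - S + T - 1))/(T*(S*T + 2*S + 2*T + 2)), (S*T*(S + 1)*(T + 1))/((S^(2:ℕ)*T^(2:ℕ) + 3*S^(2:ℕ)*T + 3*S*T^(2:ℕ) + S^(2:ℕ) + 5*S*T + T^(2:ℕ) + 2*S + 2*T + 1))) := ⟨g7, g8⟩

theorem F4_d17 (S T : ℝ) (pA : 0 < (S + 1)) (pB : 0 < (T + 1)) (c10 : 0 < S*T^(3:ℕ) - 2*S^(2:ℕ)*T - S*T^(2:ℕ) - S^(2:ℕ) - 4*S*T - T^(2:ℕ) - 2*S - 2*T - 1) :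
    0 < (S + 1)*(T + 1)*(S*T^(3:ℕ) - 2*S^(2:ℕ)*T - S*T^(2:ℕ) - S^(2:ℕ) - 4*S*T - T^(2:ℕ) - 2*S - 2*T - 1) := (mul_pos (mul_pos pA pB) c10)

theorem F4_g9 (S T : ℝ) (d0 : 0 < T*(S^(2:ℕ)*T^(2:ℕ) + 3*S^(2:ℕ)*T + 3*S*T^(2:ℕ) + S^(2:ℕ) + 5*S*T + T^(2:ℕ) + 2*S + 2*T + 1)) (d17 : 0 < (S + 1)*(T + 1)*(S*T^(3:ℕ) - 2*S^(2:ℕ)*T - S*T^(2:ℕ) - S^(2:ℕ) - 4*S*T - T^(2:ℕ) - 2*S - 2*T - 1)) :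
    S < (S + T + 1) * (((S^(2:ℕ)*T^(3:ℕ) + S^(2:ℕ)*T^(2:ℕ) + S*T^(3:ℕ) - 2*S^(2:ℕ)*T - S*T^(2:ℕ) - S^(2:ℕ) - 4*S*T - T^(2:ℕ) - 2*S - 2*T - 1))/(T*(S^(2:ℕ)*T^(2:ℕ) + 3*S^(2:ℕ)*T + 3*S*T^(2:ℕ) + S^(2:ℕ) + 5*S*T + T^(2:ℕ) + 2*S + 2*T + 1))) := rgt d0 d17 d0 (by ring)

theorem F4_d18 (S T : ℝ) (pU : 0 < (S + T + 1)) :
    0 < (S + T + 1) := pU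

theorem F4_g10 (S T : ℝ) (d3 : 0 < (S*T + 2*S + 2*T + 2)) (d18 : 0 < (S + T + 1)) :
    (T + 1) * (((S + 1))/((S*T + 2*S + 2*T + 2))) < 1 := rlt d3 d18 d3 (by ring)

theorem F4_oP_5 (S T : ℝ) (g9 : S < (S + T + 1) * (((S^(2:ℕ)*T^(3:ℕ) + S^(2:ℕ)*T^(2:ℕ) + S*T^(3:ℕ) - 2*S^(2:ℕ)*T - S*T^(2:ℕ) - S^(2:ℕ) - 4*S*T - T^(2:ℕ) - 2*S - 2*T - 1))/(T*(S^(2:ℕ)*T^(2:ℕ) + 3*S^(2:ℕ)*T + 3*S*T^(2:ℕ) + S^(2:ℕ) + 5*S*T + T^(2:ℕ) + 2*S + 2*T + 1)))) (g10 : (T + 1) * (((S + 1))/((S*T + 2*S + 2*T + 2))) < 1) :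
    cond S T Letter.al (((S^(2:ℕ)*T^(3:ℕ) + S^(2:ℕ)*T^(2:ℕ) + S*T^(3:ℕ) - 2*S^(2:ℕ)*T - S*T^(2:ℕ) - S^(2:ℕ) - 4*S*T - T^(2:ℕ) - 2*S - 2*T - 1))/(T*(S^(2:ℕ)*T^(2:ℕ) + 3*S^(2:ℕ)*T + 3*S*T^(2:ℕ) + S^(2:ℕ) + 5*S*T + T^(2:ℕ) + 2*S + 2*T + 1)), ((S + 1))/((S*T + 2*S + 2*T + 2))) := ⟨g9, g10⟩

theorem F4_d19 (S T : ℝ) (pB : 0 < (T + 1)) (c11 : 0 < -S^(3:ℕ)*T^(2:ℕ) - 2*S^(3:ℕ)*T - 2*S^(2:ℕ)*T^(2:ℕ) + S*T^(3:ℕ) - S^(3:ℕ) - 6*S^(2:ℕ)*T - 2*S*T^(2:ℕ) - 3*S^(2:ℕ) - 6*S*T - T^(2:ℕ) - 3*S - 2*T - 1) :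
    0 < (T + 1)*(-S^(3:ℕ)*T^(2:ℕ) - 2*S^(3:ℕ)*T - 2*S^(2:ℕ)*T^(2:ℕ) + S*T^(3:ℕ) - S^(3:ℕ) - 6*S^(2:ℕ)*T - 2*S*T^(2:ℕ) - 3*S^(2:ℕ) - 6*S*T - T^(2:ℕ) - 3*S - 2*T - 1) := (mul_pos pB c11)

theorem F4_g11 (S T : ℝ) (d0 : 0 < T*(S^(2:ℕ)*T^(2:ℕ) + 3*S^(2:ℕ)*T + 3*S*T^(2:ℕ) + S^(2:ℕ) + 5*S*T + T^(2:ℕ) + 2*S + 2*T + 1)) (d19 : 0 < (T + 1)*(-S^(3:ℕ)*T^(2:ℕ) - 2*S^(3:ℕ)*T - 2*S^(2:ℕ)*T^(2:ℕ) + S*T^(3:ℕ) - S^(3:ℕ) - 6*S^(2:ℕ)*T - 2*S*T^(2:ℕ) - 3*S^(2:ℕ) - 6*S*T - T^(2:ℕ) - 3*S - 2*T - 1)) :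
    S < (S + T + 1) * (((S*T^(3:ℕ) - 2*S^(2:ℕ)*T - S*T^(2:ℕ) - S^(2:ℕ) - 4*S*T - T^(2:ℕ) - 2*S - 2*T - 1))/(T*(S^(2:ℕ)*T^(2:ℕ) + 3*S^(2:ℕ)*T + 3*S*T^(2:ℕ) + S^(2:ℕ) + 5*S*T + T^(2:ℕ) + 2*S + 2*T + 1))) := rgt d0 d19 d0 (by ring)

theorem F4_oP_6 (S T : ℝ) (g6 : 1 < (T + 1) * (((S*T + S + 2*T + 1))/((S*T + 2*S + 2*T + 2)))) (g11 : S < (S + T + 1) * (((S*T^(3:ℕ) - 2*S^(2:ℕ)*T - S*T^(2:ℕ) - S^(2:ℕ) - 4*S*T - T^(2:ℕ) - 2*S - 2*T - 1))/(T*(S^(2:ℕ)*T^(2:ℕ) + 3*S^(2:ℕ)*T + 3*S*T^(2:ℕ) + S^(2:ℕ) + 5*S*T + T^(2:ℕ) + 2*S + 2*T + 1)))) :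
    cond S T Letter.be (((S*T^(3:ℕ) - 2*S^(2:ℕ)*T - S*T^(2:ℕ) - S^(2:ℕ) - 4*S*T - T^(2:ℕ) - 2*S - 2*T - 1))/(T*(S^(2:ℕ)*T^(2:ℕ) + 3*S^(2:ℕ)*T + 3*S*T^(2:ℕ) + S^(2:ℕ) + 5*S*T + T^(2:ℕ) + 2*S + 2*T + 1)), ((S*T + S + 2*T + 1))/((S*T + 2*S + 2*T + 2))) := ⟨g11, g6⟩

theorem F4_oP (S T : ℝ) (f7 : fl S T Letter.be (((S*T^(2:ℕ) + 2*T^(2:ℕ) - 2*S - 2))/(T*(S*T + 2*S + 2*T + 2)), ((S + 1)^(2:ℕ)*(T + 1)^(2:ℕ))/((S^(2:ℕ)*T^(2:ℕ) + 3*S^(2:ℕ)*T + 3*S*T^(2:ℕ) + S^(2:ℕ) + 5*S*T + T^(2:ℕ) + 2*S + 2*T + 1))) = (((S^(2:ℕ)*T^(2:ℕ) + 2*S^(2:ℕ)*T + 2*S*T^(2:ℕ) + 3*S*T + T^(2:ℕ) + S + 2*T + 1))/((S^(2:ℕ)*T^(2:ℕ) + 3*S^(2:ℕ)*T + 3*S*T^(2:ℕ) + S^(2:ℕ) + 5*S*T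 + T^(2:ℕ) + 2*S + 2*T + 1)), (2*(S + 1))/((S*T + 2*S + 2*T + 2)))) (f8 : fl S T Letter.be (((S^(2:ℕ)*T^(2:ℕ) + 2*S^(2:ℕ)*T + 2*S*T^(2:ℕ) + 3*S*T + T^(2:ℕ) + S + 2*T + 1))/((S^(2:ℕ)*T^(2:ℕ) + 3*S^(2:ℕ)*T + 3*S*T^(2:ℕ) + S^(2:ℕ) + 5*S*T + T^(2:ℕ) + 2*S + 2*T + 1)), (2*(S + 1))/((S*T + 2*S + 2*T + 2))) = ((S)/((S*T + 2*S + 2*T + 2)), (S*T*(S + T + 1))/((S^(2:ℕ)*T^(2:ℕ) + 3*S^(2:ℕ)*T + 3*S*T^(2:ℕ) + S^(2:ℕ) + 5*S*T + T^(2:ℕ) + 2*S + 2*T + 1)))) (f9 : fl S T Letter.ga ((S)/((S*T + 2*S + 2*T + 2)), (S*T*(S + T + 1))/((S^(2:ℕ)*T^(2:ℕ) + 3*S^(2:ℕ)*T + 3*S*T^(2:ℕ) + S^(2:ℕ) + 5*S*T + T^(2:ℕ) + 2*S + 2*T + 1))) = (((S^(2:ℕ)*T + 2*S*T^(2:ℕ) +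 3*S*T + T^(2:ℕ) + S + 2*T + 1))/((S^(2:ℕ)*T^(2:ℕ) + 3*S^(2:ℕ)*T + 3*S*T^(2:ℕ) + S^(2:ℕ) + 5*S*T + T^(2:ℕ) + 2*S + 2*T + 1)), ((S*T + S + 2*T + 1))/((S*T + 2*S + 2*T + 2)))) (f10 : fl S T Letter.be (((S^(2:ℕ)*T + 2*S*T^(2:ℕ) + 3*S*T + T^(2:ℕ) + S + 2*T + 1))/((S^(2:ℕ)*T^(2:ℕ) + 3*S^(2:ℕ)*T + 3*S*T^(2:ℕ) + S^(2:ℕ) + 5*S*T + T^(2:ℕ) + 2*S + 2*T + 1)), ((S*T + S + 2*T + 1))/((S*T + 2*S + 2*T + 2))) = (((S*T^(2:ℕ) + S*T + 2*T^(2:ℕ) - S + T - 1))/(T*(S*T + 2*S + 2*T + 2)), (S*T*(S + 1)*(T + 1))/((S^(2:ℕ)*T^(2:ℕ) + 3*S^(2:ℕ)*T + 3*S*T^(2:ℕ) + S^(2:ℕ) + 5*S*T + T^(2:ℕ) + 2*S + 2*T + 1)))) (f11 : fl S T Letter.be (((S*T^(2:ℕ) + S*T + 2*T^(2:ℕ)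 - S + T - 1))/(T*(S*T + 2*S + 2*T + 2)), (S*T*(S + 1)*(T + 1))/((S^(2:ℕ)*T^(2:ℕ) + 3*S^(2:ℕ)*T + 3*S*T^(2:ℕ) + S^(2:ℕ) + 5*S*T + T^(2:ℕ) + 2*S + 2*T + 1))) = (((S^(2:ℕ)*T^(3:ℕ) + S^(2:ℕ)*T^(2:ℕ) + S*T^(3:ℕ) - 2*S^(2:ℕ)*T - S*T^(2:ℕ) - S^(2:ℕ) - 4*S*T - T^(2:ℕ) - 2*S - 2*T - 1))/(T*(S^(2:ℕ)*T^(2:ℕ) + 3*S^(2:ℕ)*T + 3*S*T^(2:ℕ) + S^(2:ℕ) + 5*S*T + T^(2:ℕ) + 2*S + 2*T + 1)), ((S + 1))/((S*T + 2*S + 2*T + 2)))) (f12 : fl S T Letter.al (((S^(2:ℕ)*T^(3:ℕ) + S^(2:ℕ)*T^(2:ℕ) + S*T^(3:ℕ) - 2*S^(2:ℕ)*T - S*T^(2:ℕ) - S^(2:ℕ) - 4*S*T - T^(2:ℕ) - 2*S - 2*T - 1))/(T*(S^(2:ℕ)*T^(2:ℕ) + 3*S^(2:ℕ)*T + 3*S*T^(2:ℕ) + S^(2:ℕ) + 5*S*T + T^(2:ℕ) + 2*S + 2*T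 + 1)), ((S + 1))/((S*T + 2*S + 2*T + 2))) = (((S*T^(3:ℕ) - 2*S^(2:ℕ)*T - S*T^(2:ℕ) - S^(2:ℕ) - 4*S*T - T^(2:ℕ) - 2*S - 2*T - 1))/(T*(S^(2:ℕ)*T^(2:ℕ) + 3*S^(2:ℕ)*T + 3*S*T^(2:ℕ) + S^(2:ℕ) + 5*S*T + T^(2:ℕ) + 2*S + 2*T + 1)), ((S*T + S + 2*T + 1))/((S*T + 2*S + 2*T + 2)))) (oP_0 : cond S T Letter.be (((S*T^(2:ℕ) + 2*T^(2:ℕ) - 2*S - 2))/(T*(S*T + 2*S + 2*T + 2)), ((S + 1)^(2:ℕ)*(T + 1)^(2:ℕ))/((S^(2:ℕ)*T^(2:ℕ) + 3*S^(2:ℕ)*T + 3*S*T^(2:ℕ) + S^(2:ℕ) + 5*S*T + T^(2:ℕ) + 2*S + 2*T + 1)))) (oP_1 : cond S T Letter.be (((S^(2:ℕ)*T^(2:ℕ) + 2*S^(2:ℕ)*T + 2*S*T^(2:ℕ) + 3*S*T + T^(2:ℕ) + S + 2*T + 1))/((S^(2:ℕ)*T^(2:ℕ) + 3*S^(2:ℕ)*T + 3*S*T^(2:ℕ)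 + S^(2:ℕ) + 5*S*T + T^(2:ℕ) + 2*S + 2*T + 1)), (2*(S + 1))/((S*T + 2*S + 2*T + 2)))) (oP_2 : cond S T Letter.ga ((S)/((S*T + 2*S + 2*T + 2)), (S*T*(S + T + 1))/((S^(2:ℕ)*T^(2:ℕ) + 3*S^(2:ℕ)*T + 3*S*T^(2:ℕ) + S^(2:ℕ) + 5*S*T + T^(2:ℕ) + 2*S + 2*T + 1)))) (oP_3 : cond S T Letter.be (((S^(2:ℕ)*T + 2*S*T^(2:ℕ) + 3*S*T + T^(2:ℕ) + S + 2*T + 1))/((S^(2:ℕ)*T^(2:ℕ) + 3*S^(2:ℕ)*T + 3*S*T^(2:ℕ) + S^(2:ℕ) + 5*S*T + T^(2:ℕ) + 2*S + 2*T + 1)), ((S*T + S + 2*T + 1))/((S*T + 2*S + 2*T + 2)))) (oP_4 : cond S T Letter.be (((S*T^(2:ℕ) + S*T + 2*T^(2:ℕ) - S + T - 1))/(T*(S*T + 2*S + 2*T + 2)), (S*T*(S + 1)*(T + 1))/((S^(2:ℕ)*T^(2:ℕ) + 3*S^(2:ℕ)*T + 3*S*T^(2:ℕ)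 + S^(2:ℕ) + 5*S*T + T^(2:ℕ) + 2*S + 2*T + 1)))) (oP_5 : cond S T Letter.al (((S^(2:ℕ)*T^(3:ℕ) + S^(2:ℕ)*T^(2:ℕ) + S*T^(3:ℕ) - 2*S^(2:ℕ)*T - S*T^(2:ℕ) - S^(2:ℕ) - 4*S*T - T^(2:ℕ) - 2*S - 2*T - 1))/(T*(S^(2:ℕ)*T^(2:ℕ) + 3*S^(2:ℕ)*T + 3*S*T^(2:ℕ) + S^(2:ℕ) + 5*S*T + T^(2:ℕ) + 2*S + 2*T + 1)), ((S + 1))/((S*T + 2*S + 2*T + 2)))) (oP_6 : cond S T Letter.be (((S*T^(3:ℕ) - 2*S^(2:ℕ)*T - S*T^(2:ℕ) - S^(2:ℕ) - 4*S*T - T^(2:ℕ) - 2*S - 2*T - 1))/(T*(S^(2:ℕ)*T^(2:ℕ) + 3*S^(2:ℕ)*T + 3*S*T^(2:ℕ) + S^(2:ℕ) + 5*S*T + T^(2:ℕ) + 2*S + 2*T + 1)), ((S*T + S + 2*T + 1))/((S*T + 2*S + 2*T + 2)))) :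
    okc S T [Letter.be, Letter.be, Letter.ga, Letter.be, Letter.be, Letter.al, Letter.be] (((S*T^(2:ℕ) + 2*T^(2:ℕ) - 2*S - 2))/(T*(S*T + 2*S + 2*T + 2)), ((S + 1)^(2:ℕ)*(T + 1)^(2:ℕ))/((S^(2:ℕ)*T^(2:ℕ) + 3*S^(2:ℕ)*T + 3*S*T^(2:ℕ) + S^(2:ℕ) + 5*S*T + T^(2:ℕ) + 2*S + 2*T + 1))) := (okc_cons' oP_0 f7 (okc_cons' oP_1 f8 (okc_cons' oP_2 f9 (okc_cons' oP_3 f10 (okc_cons' oP_4 f11 (okc_cons' oP_5 f12 (okc_last' oP_6)))))))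

theorem F4_d20 (S T : ℝ) (pT : 0 < T) (pA : 0 < (S + 1)) (pB : 0 < (T + 1)) (c1 : 0 < S*T + 2*S + 2*T + 2) :
    0 < T*(S + 1)*(T + 1)*(S*T + 2*S + 2*T + 2) := (mul_pos (mul_pos (mul_pos pT pA) pB) c1)

theorem F4_d21 (S T : ℝ) (pA : 0 < (S + 1)) (pB : 0 < (T + 1)) (c1 : 0 < S*T + 2*S + 2*T + 2) :
    0 < (S + 1)*(T + 1)^(2:ℕ)*(S*T + 2*S + 2*T + 2) := (mul_pos (mul_pos pA (pow_pos pB 2)) c1)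

theorem F4_f14 (S T : ℝ) (pT : 0 < T) (d1 : 0 < (S^(2:ℕ)*T^(2:ℕ) + 3*S^(2:ℕ)*T + 3*S*T^(2:ℕ) + S^(2:ℕ) + 5*S*T + T^(2:ℕ) + 2*S + 2*T + 1)) (d20 : 0 < T*(S + 1)*(T + 1)*(S*T + 2*S + 2*T + 2)) (d21 : 0 < (S + 1)*(T + 1)^(2:ℕ)*(S*T + 2*S + 2*T + 2)) :
    fl S T Letter.be (((S^(2:ℕ)*T^(3:ℕ) + S^(2:ℕ)*T^(2:ℕ) + 3*S*T^(3:ℕ) - S^(2:ℕ)*T + 4*S*T^(2:ℕ) + 2*T^(3:ℕ) - 2*S^(2:ℕ) - 3*S*T + 2*T^(2:ℕ) - 4*S - 2*T - 2))/(T*(S + 1)*(T + 1)*(S*T + 2*S + 2*T + 2)), ((S + 1)^(2:ℕ)*(T + 1)^(2:ℕ))/((S^(2:ℕ)*T^(2:ℕ) + 3*S^(2:ℕ)*T + 3*S*T^(2:ℕ) + S^(2:ℕ) + 5*S*T + T^(2:ℕ) + 2*S + 2*T + 1))) = (((S^(2:ℕ)*T^(2:ℕ) + 2*S^(2:ℕ)*T + 2*S*T^(2:ℕ) + 3*S*T + T^(2:ℕ)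 + S + 2*T + 1))/((S^(2:ℕ)*T^(2:ℕ) + 3*S^(2:ℕ)*T + 3*S*T^(2:ℕ) + S^(2:ℕ) + 5*S*T + T^(2:ℕ) + 2*S + 2*T + 1)), ((2*S^(2:ℕ)*T^(2:ℕ) + 3*S^(2:ℕ)*T + 3*S*T^(2:ℕ) + 2*S^(2:ℕ) + 7*S*T + 2*T^(2:ℕ) + 4*S + 4*T + 2))/((S + 1)*(T + 1)^(2:ℕ)*(S*T + 2*S + 2*T + 2))) := fl_be' pT d20 d1 d1 d21 (by ring) (by ring)

theorem F4_d22 (S T : ℝ) (pA : 0 < (S + 1)) (pB : 0 < (T + 1)) (c1 : 0 < S*T + 2*S + 2*T + 2) :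
    0 < (S + 1)*(T + 1)*(S*T + 2*S + 2*T + 2) := (mul_pos (mul_pos pA pB) c1)

theorem F4_f15 (S T : ℝ) (pT : 0 < T) (d1 : 0 < (S^(2:ℕ)*T^(2:ℕ) + 3*S^(2:ℕ)*T + 3*S*T^(2:ℕ) + S^(2:ℕ) + 5*S*T + T^(2:ℕ) + 2*S + 2*T + 1)) (d21 : 0 < (S + 1)*(T + 1)^(2:ℕ)*(S*T + 2*S + 2*T + 2)) (d22 : 0 < (S + 1)*(T + 1)*(S*T + 2*S + 2*T + 2)) :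
    fl S T Letter.be (((S^(2:ℕ)*T^(2:ℕ) + 2*S^(2:ℕ)*T + 2*S*T^(2:ℕ) + 3*S*T + T^(2:ℕ) + S + 2*T + 1))/((S^(2:ℕ)*T^(2:ℕ) + 3*S^(2:ℕ)*T + 3*S*T^(2:ℕ) + S^(2:ℕ) + 5*S*T + T^(2:ℕ) + 2*S + 2*T + 1)), ((2*S^(2:ℕ)*T^(2:ℕ) + 3*S^(2:ℕ)*T + 3*S*T^(2:ℕ) + 2*S^(2:ℕ) + 7*S*T + 2*T^(2:ℕ) + 4*S + 4*T + 2))/((S + 1)*(T + 1)^(2:ℕ)*(S*T + 2*S + 2*T + 2))) = ((S^(2:ℕ)*T)/((S + 1)*(T + 1)*(S*T + 2*S + 2*T + 2)), (S*T*(S + T + 1))/((S^(2:ℕ)*T^(2:ℕ) + 3*S^(2:ℕ)*T + 3*S*T^(2:ℕ) + S^(2:ℕ) + 5*S*T + T^(2:ℕ) + 2*S + 2*T + 1))) := fl_be' pT d1 d21 d22 d1 (by ring) (by ring)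

theorem F4_d23 (S T : ℝ) (pB : 0 < (T + 1)) (c1 : 0 < S*T + 2*S + 2*T + 2) :
    0 < (T + 1)*(S*T + 2*S + 2*T + 2) := (mul_pos pB c1)

theorem F4_f16 (S T : ℝ) (pS : 0 < S) (d1 : 0 < (S^(2:ℕ)*T^(2:ℕ) + 3*S^(2:ℕ)*T + 3*S*T^(2:ℕ) + S^(2:ℕ) + 5*S*T + T^(2:ℕ) + 2*S + 2*T + 1)) (d22 : 0 < (S + 1)*(T + 1)*(S*T + 2*S + 2*T + 2)) (d23 : 0 < (T + 1)*(S*T + 2*S + 2*T + 2)) :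
    fl S T Letter.ga ((S^(2:ℕ)*T)/((S + 1)*(T + 1)*(S*T + 2*S + 2*T + 2)), (S*T*(S + T + 1))/((S^(2:ℕ)*T^(2:ℕ) + 3*S^(2:ℕ)*T + 3*S*T^(2:ℕ) + S^(2:ℕ) + 5*S*T + T^(2:ℕ) + 2*S + 2*T + 1))) = (((S^(2:ℕ)*T + 2*S*T^(2:ℕ) + 3*S*T + T^(2:ℕ) + S + 2*T + 1))/((S^(2:ℕ)*T^(2:ℕ) + 3*S^(2:ℕ)*T + 3*S*T^(2:ℕ) + S^(2:ℕ) + 5*S*T + T^(2:ℕ) + 2*S + 2*T + 1)), ((S*T^(2:ℕ) + 2*S*T + 2*T^(2:ℕ) + 2*S + 4*T + 2))/((T + 1)*(S*T + 2*S + 2*T + 2))) := fl_ga' pS d22 d1 d1 d23 (by ring) (by ring)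

theorem F4_f17 (S T : ℝ) (pT : 0 < T) (d1 : 0 < (S^(2:ℕ)*T^(2:ℕ) + 3*S^(2:ℕ)*T + 3*S*T^(2:ℕ) + S^(2:ℕ) + 5*S*T + T^(2:ℕ) + 2*S + 2*T + 1)) (d3 : 0 < (S*T + 2*S + 2*T + 2)) (d23 : 0 < (T + 1)*(S*T + 2*S + 2*T + 2)) :
    fl S T Letter.be (((S^(2:ℕ)*T + 2*S*T^(2:ℕ) + 3*S*T + T^(2:ℕ) + S + 2*T + 1))/((S^(2:ℕ)*T^(2:ℕ) + 3*S^(2:ℕ)*T + 3*S*T^(2:ℕ) + S^(2:ℕ) + 5*S*T + T^(2:ℕ) + 2*S + 2*T + 1)), ((S*T^(2:ℕ) + 2*S*T + 2*T^(2:ℕ) + 2*S + 4*T + 2))/((T + 1)*(S*T + 2*S + 2*T + 2))) = (((T + 1)*(S + 2))/((S*T + 2*S + 2*T + 2)), (S*T*(S + 1)*(T + 1))/((S^(2:ℕ)*T^(2:ℕ) + 3*S^(2:ℕ)*T + 3*S*T^(2:ℕ) + S^(2:ℕ) + 5*S*T + T^(2:ℕ) + 2*S + 2*T + 1))) := fl_be'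 pT d1 d23 d3 d1 (by ring) (by ring)

theorem F4_f18 (S T : ℝ) (pT : 0 < T) (d0 : 0 < T*(S^(2:ℕ)*T^(2:ℕ) + 3*S^(2:ℕ)*T + 3*S*T^(2:ℕ) + S^(2:ℕ) + 5*S*T + T^(2:ℕ) + 2*S + 2*T + 1)) (d1 : 0 < (S^(2:ℕ)*T^(2:ℕ) + 3*S^(2:ℕ)*T + 3*S*T^(2:ℕ) + S^(2:ℕ) + 5*S*T + T^(2:ℕ) + 2*S + 2*T + 1)) (d3 : 0 < (S*T + 2*S + 2*T + 2)) (d23 : 0 < (T + 1)*(S*T + 2*S + 2*T + 2)) :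
    fl S T Letter.be (((T + 1)*(S + 2))/((S*T + 2*S + 2*T + 2)), (S*T*(S + 1)*(T + 1))/((S^(2:ℕ)*T^(2:ℕ) + 3*S^(2:ℕ)*T + 3*S*T^(2:ℕ) + S^(2:ℕ) + 5*S*T + T^(2:ℕ) + 2*S + 2*T + 1))) = (((S^(2:ℕ)*T^(3:ℕ) + S^(2:ℕ)*T^(2:ℕ) + S*T^(3:ℕ) - 2*S^(2:ℕ)*T - S*T^(2:ℕ) - S^(2:ℕ) - 4*S*T - T^(2:ℕ) - 2*S - 2*T - 1))/(T*(S^(2:ℕ)*T^(2:ℕ) + 3*S^(2:ℕ)*T + 3*S*T^(2:ℕ) + S^(2:ℕ) + 5*S*T + T^(2:ℕ) + 2*S + 2*T + 1)), (S*T)/((T + 1)*(S*T + 2*S + 2*T + 2))) := fl_be' pT d3 d1 d0 d23 (by ring) (by ring)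

theorem F4_f19 (S T : ℝ) (pS : 0 < S) (pT : 0 < T) (d0 : 0 < T*(S^(2:ℕ)*T^(2:ℕ) + 3*S^(2:ℕ)*T + 3*S*T^(2:ℕ) + S^(2:ℕ) + 5*S*T + T^(2:ℕ) + 2*S + 2*T + 1)) (d3 : 0 < (S*T + 2*S + 2*T + 2)) (d23 : 0 < (T + 1)*(S*T + 2*S + 2*T + 2)) :
    fl S T Letter.al (((S^(2:ℕ)*T^(3:ℕ) + S^(2:ℕ)*T^(2:ℕ) + S*T^(3:ℕ) - 2*S^(2:ℕ)*T - S*T^(2:ℕ) - S^(2:ℕ) - 4*S*T - T^(2:ℕ) - 2*S - 2*T - 1))/(T*(S^(2:ℕ)*T^(2:ℕ) + 3*S^(2:ℕ)*T + 3*S*T^(2:ℕ) + S^(2:ℕ) + 5*S*T + T^(2:ℕ) + 2*S + 2*T + 1)), (S*T)/((T + 1)*(S*T + 2*S + 2*T + 2))) = (((S*T^(3:ℕ) - 2*S^(2:ℕ)*T - S*T^(2:ℕ) - S^(2:ℕ) - 4*S*T - T^(2:ℕ) - 2*S - 2*T - 1))/(T*(S^(2:ℕ)*T^(2:ℕ) + 3*S^(2:ℕ)*T + 3*S*T^(2:ℕ)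 + S^(2:ℕ) + 5*S*T + T^(2:ℕ) + 2*S + 2*T + 1)), (T*(S + 2))/((S*T + 2*S + 2*T + 2))) := fl_al' pS pT d0 d23 d0 d3 (by ring) (by ring)

theorem F4_f20 (S T : ℝ) (pT : 0 < T) (d0 : 0 < T*(S^(2:ℕ)*T^(2:ℕ) + 3*S^(2:ℕ)*T + 3*S*T^(2:ℕ) + S^(2:ℕ) + 5*S*T + T^(2:ℕ) + 2*S + 2*T + 1)) (d1 : 0 < (S^(2:ℕ)*T^(2:ℕ) + 3*S^(2:ℕ)*T + 3*S*T^(2:ℕ) + S^(2:ℕ) + 5*S*T + T^(2:ℕ) + 2*S + 2*T + 1)) (d2 : 0 < T*(S*T + 2*S + 2*T + 2)) (d3 : 0 < (S*T + 2*S + 2*T + 2)) :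
    fl S T Letter.be (((S*T^(3:ℕ) - 2*S^(2:ℕ)*T - S*T^(2:ℕ) - S^(2:ℕ) - 4*S*T - T^(2:ℕ) - 2*S - 2*T - 1))/(T*(S^(2:ℕ)*T^(2:ℕ) + 3*S^(2:ℕ)*T + 3*S*T^(2:ℕ) + S^(2:ℕ) + 5*S*T + T^(2:ℕ) + 2*S + 2*T + 1)), (T*(S + 2))/((S*T + 2*S + 2*T + 2))) = (((S*T^(2:ℕ) + 2*T^(2:ℕ) - 2*S - 2))/(T*(S*T + 2*S + 2*T + 2)), ((S + 1)^(2:ℕ)*(T + 1)^(2:ℕ))/((S^(2:ℕ)*T^(2:ℕ) + 3*S^(2:ℕ)*T + 3*S*T^(2:ℕ) + S^(2:ℕ) + 5*S*T + T^(2:ℕ) + 2*S + 2*T + 1))) := fl_be' pT d0 d3 d2 d1 (by ring) (by ring)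

theorem F4_d24 (S T : ℝ) (c12 : 0 < S^(2:ℕ)*T^(3:ℕ) + S^(2:ℕ)*T^(2:ℕ) + 3*S*T^(3:ℕ) - S^(2:ℕ)*T + 4*S*T^(2:ℕ) + 2*T^(3:ℕ) - 2*S^(2:ℕ) - 3*S*T + 2*T^(2:ℕ) - 4*S - 2*T - 2) :
    0 < (S^(2:ℕ)*T^(3:ℕ) + S^(2:ℕ)*T^(2:ℕ) + 3*S*T^(3:ℕ) - S^(2:ℕ)*T + 4*S*T^(2:ℕ) + 2*T^(3:ℕ) - 2*S^(2:ℕ) - 3*S*T + 2*T^(2:ℕ) - 4*S - 2*T - 2) := c12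

theorem F4_q4 (S T : ℝ) (d20 : 0 < T*(S + 1)*(T + 1)*(S*T + 2*S + 2*T + 2)) (d24 : 0 < (S^(2:ℕ)*T^(3:ℕ) + S^(2:ℕ)*T^(2:ℕ) + 3*S*T^(3:ℕ) - S^(2:ℕ)*T + 4*S*T^(2:ℕ) + 2*T^(3:ℕ) - 2*S^(2:ℕ) - 3*S*T + 2*T^(2:ℕ) - 4*S - 2*T - 2)) :
    0 < ((S^(2:ℕ)*T^(3:ℕ) + S^(2:ℕ)*T^(2:ℕ) + 3*S*T^(3:ℕ) - S^(2:ℕ)*T + 4*S*T^(2:ℕ) + 2*T^(3:ℕ) - 2*S^(2:ℕ) - 3*S*T + 2*T^(2:ℕ) - 4*S - 2*T - 2))/(T*(S + 1)*(T + 1)*(S*T + 2*S + 2*T + 2)) := div_pos d24 d20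

theorem F4_d25 (S T : ℝ) (c13 : 0 < 2*S^(2:ℕ)*T^(2:ℕ) + 3*S^(2:ℕ)*T + 3*S*T^(2:ℕ) + 2*S^(2:ℕ) + 7*S*T + 2*T^(2:ℕ) + 4*S + 4*T + 2) :
    0 < (2*S^(2:ℕ)*T^(2:ℕ) + 3*S^(2:ℕ)*T + 3*S*T^(2:ℕ) + 2*S^(2:ℕ) + 7*S*T + 2*T^(2:ℕ) + 4*S + 4*T + 2) := c13

theorem F4_q5 (S T : ℝ) (d20 : 0 < T*(S + 1)*(T + 1)*(S*T + 2*S + 2*T + 2)) (d25 : 0 < (2*S^(2:ℕ)*T^(2:ℕ) + 3*S^(2:ℕ)*T + 3*S*T^(2:ℕ) + 2*S^(2:ℕ) + 7*S*T + 2*T^(2:ℕ) + 4*S + 4*T + 2)) :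
    ((S^(2:ℕ)*T^(3:ℕ) + S^(2:ℕ)*T^(2:ℕ) + 3*S*T^(3:ℕ) - S^(2:ℕ)*T + 4*S*T^(2:ℕ) + 2*T^(3:ℕ) - 2*S^(2:ℕ) - 3*S*T + 2*T^(2:ℕ) - 4*S - 2*T - 2))/(T*(S + 1)*(T + 1)*(S*T + 2*S + 2*T + 2)) < 1 := rlt1 d20 d25 d20 (by ring)

theorem F4_sQ (S T : ℝ) (q2 : 0 < ((S + 1)^(2:ℕ)*(T + 1)^(2:ℕ))/((S^(2:ℕ)*T^(2:ℕ) + 3*S^(2:ℕ)*T + 3*S*T^(2:ℕ) + S^(2:ℕ) + 5*S*T + T^(2:ℕ) + 2*S + 2*T + 1))) (q3 : ((S + 1)^(2:ℕ)*(T + 1)^(2:ℕ))/((S^(2:ℕ)*T^(2:ℕ) + 3*S^(2:ℕ)*T + 3*S*T^(2:ℕ) + S^(2:ℕ) + 5*S*T + T^(2:ℕ) + 2*S + 2*T + 1)) < 1) (q4 : 0 < ((S^(2:ℕ)*T^(3:ℕ) + S^(2:ℕ)*T^(2:ℕ) + 3*S*T^(3:ℕ) - S^(2:ℕ)*T + 4*S*T^(2:ℕ) + 2*T^(3:ℕ) - 2*S^(2:ℕ) - 3*S*T + 2*T^(2:ℕ) -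 4*S - 2*T - 2))/(T*(S + 1)*(T + 1)*(S*T + 2*S + 2*T + 2))) (q5 : ((S^(2:ℕ)*T^(3:ℕ) + S^(2:ℕ)*T^(2:ℕ) + 3*S*T^(3:ℕ) - S^(2:ℕ)*T + 4*S*T^(2:ℕ) + 2*T^(3:ℕ) - 2*S^(2:ℕ) - 3*S*T + 2*T^(2:ℕ) - 4*S - 2*T - 2))/(T*(S + 1)*(T + 1)*(S*T + 2*S + 2*T + 2)) < 1) :
    Sq (((S^(2:ℕ)*T^(3:ℕ) + S^(2:ℕ)*T^(2:ℕ) + 3*S*T^(3:ℕ) - S^(2:ℕ)*T + 4*S*T^(2:ℕ) + 2*T^(3:ℕ) - 2*S^(2:ℕ) - 3*S*T + 2*T^(2:ℕ) - 4*S - 2*T - 2))/(T*(S + 1)*(T + 1)*(S*T + 2*S + 2*T + 2)), ((S + 1)^(2:ℕ)*(T + 1)^(2:ℕ))/((S^(2:ℕ)*T^(2:ℕ) + 3*S^(2:ℕ)*T + 3*S*T^(2:ℕ) + S^(2:ℕ) + 5*S*T + T^(2:ℕ) + 2*S + 2*T + 1))) := ⟨⟨q4, q5⟩, q2, q3⟩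

theorem F4_d26 (S T : ℝ) (c14 : 0 < S^(2:ℕ)*T^(4:ℕ) - 2*S^(3:ℕ)*T^(2:ℕ) + 2*S^(2:ℕ)*T^(3:ℕ) + 3*S*T^(4:ℕ) - 3*S^(3:ℕ)*T - 3*S^(2:ℕ)*T^(2:ℕ) + 7*S*T^(3:ℕ) + 2*T^(4:ℕ) - 2*S^(3:ℕ) - 10*S^(2:ℕ)*T - S*T^(2:ℕ) + 4*T^(3:ℕ) - 6*S^(2:ℕ) - 11*S*T - 6*S - 4*T - 2) :
    0 < (S^(2:ℕ)*T^(4:ℕ) - 2*S^(3:ℕ)*T^(2:ℕ) + 2*S^(2:ℕ)*T^(3:ℕ) + 3*S*T^(4:ℕ) - 3*S^(3:ℕ)*T - 3*S^(2:ℕ)*T^(2:ℕ) + 7*S*T^(3:ℕ) + 2*T^(4:ℕ) - 2*S^(3:ℕ) - 10*S^(2:ℕ)*T - S*T^(2:ℕ) + 4*T^(3:ℕ) - 6*S^(2:ℕ) - 11*S*T - 6*S - 4*T - 2) := c14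

theorem F4_g12 (S T : ℝ) (d20 : 0 < T*(S + 1)*(T + 1)*(S*T + 2*S + 2*T + 2)) (d26 : 0 < (S^(2:ℕ)*T^(4:ℕ) - 2*S^(3:ℕ)*T^(2:ℕ) + 2*S^(2:ℕ)*T^(3:ℕ) + 3*S*T^(4:ℕ) - 3*S^(3:ℕ)*T - 3*S^(2:ℕ)*T^(2:ℕ) + 7*S*T^(3:ℕ) + 2*T^(4:ℕ) - 2*S^(3:ℕ) - 10*S^(2:ℕ)*T - S*T^(2:ℕ) + 4*T^(3:ℕ) - 6*S^(2:ℕ) - 11*S*T - 6*S - 4*T - 2)) :
    S < (S + T + 1) * (((S^(2:ℕ)*T^(3:ℕ) + S^(2:ℕ)*T^(2:ℕ) + 3*S*T^(3:ℕ) - S^(2:ℕ)*T + 4*S*T^(2:ℕ) + 2*T^(3:ℕ) - 2*S^(2:ℕ) - 3*S*T + 2*T^(2:ℕ) - 4*S - 2*T - 2))/(T*(S + 1)*(T + 1)*(S*T + 2*S + 2*T + 2))) := rgt d20 d26 d20 (by ring)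

theorem F4_oQ_0 (S T : ℝ) (g1 : 1 < (T + 1) * (((S + 1)^(2:ℕ)*(T + 1)^(2:ℕ))/((S^(2:ℕ)*T^(2:ℕ) + 3*S^(2:ℕ)*T + 3*S*T^(2:ℕ) + S^(2:ℕ) + 5*S*T + T^(2:ℕ) + 2*S + 2*T + 1)))) (g12 : S < (S + T + 1) * (((S^(2:ℕ)*T^(3:ℕ) + S^(2:ℕ)*T^(2:ℕ) + 3*S*T^(3:ℕ) - S^(2:ℕ)*T + 4*S*T^(2:ℕ) + 2*T^(3:ℕ) - 2*S^(2:ℕ) - 3*S*T + 2*T^(2:ℕ) - 4*S - 2*T - 2))/(T*(S + 1)*(T + 1)*(S*T + 2*S + 2*T + 2)))) :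
    cond S T Letter.be (((S^(2:ℕ)*T^(3:ℕ) + S^(2:ℕ)*T^(2:ℕ) + 3*S*T^(3:ℕ) - S^(2:ℕ)*T + 4*S*T^(2:ℕ) + 2*T^(3:ℕ) - 2*S^(2:ℕ) - 3*S*T + 2*T^(2:ℕ) - 4*S - 2*T - 2))/(T*(S + 1)*(T + 1)*(S*T + 2*S + 2*T + 2)), ((S + 1)^(2:ℕ)*(T + 1)^(2:ℕ))/((S^(2:ℕ)*T^(2:ℕ) + 3*S^(2:ℕ)*T + 3*S*T^(2:ℕ) + S^(2:ℕ) + 5*S*T + T^(2:ℕ) + 2*S + 2*T + 1))) := ⟨g12, g1⟩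

theorem F4_d27 (S T : ℝ) (pS : 0 < S) (pT : 0 < T) :
    0 < S^(2:ℕ)*T^(2:ℕ) := (mul_pos (pow_pos pS 2) (pow_pos pT 2))

theorem F4_g13 (S T : ℝ) (d21 : 0 < (S + 1)*(T + 1)^(2:ℕ)*(S*T + 2*S + 2*T + 2)) (d22 : 0 < (S + 1)*(T + 1)*(S*T + 2*S + 2*T + 2)) (d27 : 0 < S^(2:ℕ)*T^(2:ℕ)) :
    1 < (T + 1) * (((2*S^(2:ℕ)*T^(2:ℕ) + 3*S^(2:ℕ)*T + 3*S*T^(2:ℕ) + 2*S^(2:ℕ) + 7*S*T + 2*T^(2:ℕ) + 4*S + 4*T + 2))/((S + 1)*(T + 1)^(2:ℕ)*(S*T + 2*S + 2*T + 2))) := rgt d21 d27 d22 (by ring)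

theorem F4_oQ_1 (S T : ℝ) (g2 : S < (S + T + 1) * (((S^(2:ℕ)*T^(2:ℕ) + 2*S^(2:ℕ)*T + 2*S*T^(2:ℕ) + 3*S*T + T^(2:ℕ) + S + 2*T + 1))/((S^(2:ℕ)*T^(2:ℕ) + 3*S^(2:ℕ)*T + 3*S*T^(2:ℕ) + S^(2:ℕ) + 5*S*T + T^(2:ℕ) + 2*S + 2*T + 1)))) (g13 : 1 < (T + 1) * (((2*S^(2:ℕ)*T^(2:ℕ) + 3*S^(2:ℕ)*T + 3*S*T^(2:ℕ) + 2*S^(2:ℕ) + 7*S*T + 2*T^(2:ℕ) + 4*S + 4*T + 2))/((S + 1)*(T + 1)^(2:ℕ)*(S*T + 2*S + 2*T + 2)))) :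
    cond S T Letter.be (((S^(2:ℕ)*T^(2:ℕ) + 2*S^(2:ℕ)*T + 2*S*T^(2:ℕ) + 3*S*T + T^(2:ℕ) + S + 2*T + 1))/((S^(2:ℕ)*T^(2:ℕ) + 3*S^(2:ℕ)*T + 3*S*T^(2:ℕ) + S^(2:ℕ) + 5*S*T + T^(2:ℕ) + 2*S + 2*T + 1)), ((2*S^(2:ℕ)*T^(2:ℕ) + 3*S^(2:ℕ)*T + 3*S*T^(2:ℕ) + 2*S^(2:ℕ) + 7*S*T + 2*T^(2:ℕ) + 4*S + 4*T + 2))/((S + 1)*(T + 1)^(2:ℕ)*(S*T + 2*S + 2*T + 2))) := ⟨g2, g13⟩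

theorem F4_d28 (S T : ℝ) (pS : 0 < S) (c15 : 0 < S^(2:ℕ)*T^(2:ℕ) + 2*S^(2:ℕ)*T + 2*S*T^(2:ℕ) + 2*S^(2:ℕ) + 6*S*T + 2*T^(2:ℕ) + 4*S + 4*T + 2) :
    0 < S*(S^(2:ℕ)*T^(2:ℕ) + 2*S^(2:ℕ)*T + 2*S*T^(2:ℕ) + 2*S^(2:ℕ) + 6*S*T + 2*T^(2:ℕ) + 4*S + 4*T + 2) := (mul_pos pS c15)

theorem F4_g14 (S T : ℝ) (d22 : 0 < (S + 1)*(T + 1)*(S*T + 2*S + 2*T + 2)) (d28 : 0 < S*(S^(2:ℕ)*T^(2:ℕ) + 2*S^(2:ℕ)*T + 2*S*T^(2:ℕ) + 2*S^(2:ℕ) + 6*S*T + 2*T^(2:ℕ) + 4*S + 4*T + 2)) :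
    (S + T + 1) * ((S^(2:ℕ)*T)/((S + 1)*(T + 1)*(S*T + 2*S + 2*T + 2))) < S := rlt d22 d28 d22 (by ring)

theorem F4_oQ_2 (S T : ℝ) (g14 : (S + T + 1) * ((S^(2:ℕ)*T)/((S + 1)*(T + 1)*(S*T + 2*S + 2*T + 2))) < S) :
    cond S T Letter.ga ((S^(2:ℕ)*T)/((S + 1)*(T + 1)*(S*T + 2*S + 2*T + 2)), (S*T*(S + T + 1))/((S^(2:ℕ)*T^(2:ℕ) + 3*S^(2:ℕ)*T + 3*S*T^(2:ℕ) + S^(2:ℕ) + 5*S*T + T^(2:ℕ) + 2*S + 2*T + 1))) := g14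

theorem F4_d29 (S T : ℝ) (pT : 0 < T) (pB : 0 < (T + 1)) (c16 : 0 < S + 2) :
    0 < T*(T + 1)*(S + 2) := (mul_pos (mul_pos pT pB) c16)

theorem F4_g15 (S T : ℝ) (d3 : 0 < (S*T + 2*S + 2*T + 2)) (d23 : 0 < (T + 1)*(S*T + 2*S + 2*T + 2)) (d29 : 0 < T*(T + 1)*(S + 2)) :
    1 < (T + 1) * (((S*T^(2:ℕ) + 2*S*T + 2*T^(2:ℕ) + 2*S + 4*T + 2))/((T + 1)*(S*T + 2*S + 2*T + 2))) := rgt d23 d29 d3 (by ring)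

theorem F4_oQ_3 (S T : ℝ) (g5 : S < (S + T + 1) * (((S^(2:ℕ)*T + 2*S*T^(2:ℕ) + 3*S*T + T^(2:ℕ) + S + 2*T + 1))/((S^(2:ℕ)*T^(2:ℕ) + 3*S^(2:ℕ)*T + 3*S*T^(2:ℕ) + S^(2:ℕ) + 5*S*T + T^(2:ℕ) + 2*S + 2*T + 1)))) (g15 : 1 < (T + 1) * (((S*T^(2:ℕ) + 2*S*T + 2*T^(2:ℕ) + 2*S + 4*T + 2))/((T + 1)*(S*T + 2*S + 2*T + 2)))) :
    cond S T Letter.be (((S^(2:ℕ)*T + 2*S*T^(2:ℕ) + 3*S*T + T^(2:ℕ) + S + 2*T + 1))/((S^(2:ℕ)*T^(2:ℕ) + 3*S^(2:ℕ)*T + 3*S*T^(2:ℕ) + S^(2:ℕ) + 5*S*T + T^(2:ℕ) + 2*S + 2*T + 1)), ((S*T^(2:ℕ) + 2*S*T + 2*T^(2:ℕ) + 2*S + 4*T + 2))/((T + 1)*(S*T + 2*S + 2*T + 2))) := ⟨g5, g15⟩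

theorem F4_d30 (S T : ℝ) (c17 : 0 < S*T^(2:ℕ) - S^(2:ℕ) + 2*S*T + 2*T^(2:ℕ) + S + 4*T + 2) :
    0 < (S*T^(2:ℕ) - S^(2:ℕ) + 2*S*T + 2*T^(2:ℕ) + S + 4*T + 2) := c17

theorem F4_g16 (S T : ℝ) (d3 : 0 < (S*T + 2*S + 2*T + 2)) (d30 : 0 < (S*T^(2:ℕ) - S^(2:ℕ) + 2*S*T + 2*T^(2:ℕ) + S + 4*T + 2)) :
    S < (S + T + 1) * (((T + 1)*(S + 2))/((S*T + 2*S + 2*T + 2))) := rgt d3 d30 d3 (by ring)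

theorem F4_oQ_4 (S T : ℝ) (g8 : 1 < (T + 1) * ((S*T*(S + 1)*(T + 1))/((S^(2:ℕ)*T^(2:ℕ) + 3*S^(2:ℕ)*T + 3*S*T^(2:ℕ) + S^(2:ℕ) + 5*S*T + T^(2:ℕ) + 2*S + 2*T + 1)))) (g16 : S < (S + T + 1) * (((T + 1)*(S + 2))/((S*T + 2*S + 2*T + 2)))) :
    cond S T Letter.be (((T + 1)*(S + 2))/((S*T + 2*S + 2*T + 2)), (S*T*(S + 1)*(T + 1))/((S^(2:ℕ)*T^(2:ℕ) + 3*S^(2:ℕ)*T + 3*S*T^(2:ℕ) + S^(2:ℕ) + 5*S*T + T^(2:ℕ) + 2*S + 2*T + 1))) := ⟨g16, g8⟩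

theorem F4_d31 (S T : ℝ) (pU : 0 < (S + T + 1)) :
    0 < 2*(S + T + 1) := (mul_pos (by norm_num) pU)

theorem F4_g17 (S T : ℝ) (d3 : 0 < (S*T + 2*S + 2*T + 2)) (d23 : 0 < (T + 1)*(S*T + 2*S + 2*T + 2)) (d31 : 0 < 2*(S + T + 1)) :
    (T + 1) * ((S*T)/((T + 1)*(S*T + 2*S + 2*T + 2))) < 1 := rlt d23 d31 d3 (by ring)

theorem F4_oQ_5 (S T : ℝ) (g9 : S < (S + T + 1) * (((S^(2:ℕ)*T^(3:ℕ) + S^(2:ℕ)*T^(2:ℕ) + S*T^(3:ℕ) - 2*S^(2:ℕ)*T - S*T^(2:ℕ) - S^(2:ℕ) - 4*S*T - T^(2:ℕ) - 2*S - 2*T - 1))/(T*(S^(2:ℕ)*T^(2:ℕ) + 3*S^(2:ℕ)*T + 3*S*T^(2:ℕ) + S^(2:ℕ) + 5*S*T + T^(2:ℕ) + 2*S + 2*T + 1)))) (g17 : (T + 1) * ((S*T)/((T + 1)*(S*T + 2*S + 2*T + 2)))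 < 1) :
    cond S T Letter.al (((S^(2:ℕ)*T^(3:ℕ) + S^(2:ℕ)*T^(2:ℕ) + S*T^(3:ℕ) - 2*S^(2:ℕ)*T - S*T^(2:ℕ) - S^(2:ℕ) - 4*S*T - T^(2:ℕ) - 2*S - 2*T - 1))/(T*(S^(2:ℕ)*T^(2:ℕ) + 3*S^(2:ℕ)*T + 3*S*T^(2:ℕ) + S^(2:ℕ) + 5*S*T + T^(2:ℕ) + 2*S + 2*T + 1)), (S*T)/((T + 1)*(S*T + 2*S + 2*T + 2))) := ⟨g9, g17⟩

theorem F4_g18 (S T : ℝ) (d3 : 0 < (S*T + 2*S + 2*T + 2)) (d4 : 0 < (S*T^(2:ℕ) + 2*T^(2:ℕ) - 2*S - 2)) :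
    1 < (T + 1) * ((T*(S + 2))/((S*T + 2*S + 2*T + 2))) := rgt d3 d4 d3 (by ring)

theorem F4_oQ_6 (S T : ℝ) (g11 : S < (S + T + 1) * (((S*T^(3:ℕ) - 2*S^(2:ℕ)*T - S*T^(2:ℕ) - S^(2:ℕ) - 4*S*T - T^(2:ℕ) - 2*S - 2*T - 1))/(T*(S^(2:ℕ)*T^(2:ℕ) + 3*S^(2:ℕ)*T + 3*S*T^(2:ℕ) + S^(2:ℕ) + 5*S*T + T^(2:ℕ) + 2*S + 2*T + 1)))) (g18 : 1 < (T + 1) * ((T*(S + 2))/((S*T + 2*S + 2*T + 2)))) :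
    cond S T Letter.be (((S*T^(3:ℕ) - 2*S^(2:ℕ)*T - S*T^(2:ℕ) - S^(2:ℕ) - 4*S*T - T^(2:ℕ) - 2*S - 2*T - 1))/(T*(S^(2:ℕ)*T^(2:ℕ) + 3*S^(2:ℕ)*T + 3*S*T^(2:ℕ) + S^(2:ℕ) + 5*S*T + T^(2:ℕ) + 2*S + 2*T + 1)), (T*(S + 2))/((S*T + 2*S + 2*T + 2))) := ⟨g11, g18⟩

theorem F4_oQ (S T : ℝ) (f14 : fl S T Letter.be (((S^(2:ℕ)*T^(3:ℕ) + S^(2:ℕ)*T^(2:ℕ) + 3*S*T^(3:ℕ) - S^(2:ℕ)*T + 4*S*T^(2:ℕ) + 2*T^(3:ℕ) - 2*S^(2:ℕ) - 3*S*T + 2*T^(2:ℕ) - 4*S - 2*T - 2))/(T*(S + 1)*(T + 1)*(S*T + 2*S + 2*T + 2)), ((S + 1)^(2:ℕ)*(T + 1)^(2:ℕ))/((S^(2:ℕ)*T^(2:ℕ) + 3*S^(2:ℕ)*T + 3*S*T^(2:ℕ) + S^(2:ℕ) + 5*S*T + T^(2:ℕ) + 2*S + 2*T + 1))) = (((S^(2:ℕ)*T^(2:ℕ) + 2*S^(2:ℕ)*T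 + 2*S*T^(2:ℕ) + 3*S*T + T^(2:ℕ) + S + 2*T + 1))/((S^(2:ℕ)*T^(2:ℕ) + 3*S^(2:ℕ)*T + 3*S*T^(2:ℕ) + S^(2:ℕ) + 5*S*T + T^(2:ℕ) + 2*S + 2*T + 1)), ((2*S^(2:ℕ)*T^(2:ℕ) + 3*S^(2:ℕ)*T + 3*S*T^(2:ℕ) + 2*S^(2:ℕ) + 7*S*T + 2*T^(2:ℕ) + 4*S + 4*T + 2))/((S + 1)*(T + 1)^(2:ℕ)*(S*T + 2*S + 2*T + 2)))) (f15 : fl S T Letter.be (((S^(2:ℕ)*T^(2:ℕ) + 2*S^(2:ℕ)*T + 2*S*T^(2:ℕ) + 3*S*T + T^(2:ℕ) + S + 2*T + 1))/((S^(2:ℕ)*T^(2:ℕ) + 3*S^(2:ℕ)*T + 3*S*T^(2:ℕ) + S^(2:ℕ) + 5*S*T + T^(2:ℕ) + 2*S + 2*T + 1)), ((2*S^(2:ℕ)*T^(2:ℕ) + 3*S^(2:ℕ)*T + 3*S*T^(2:ℕ) + 2*S^(2:ℕ) + 7*S*T + 2*T^(2:ℕ) + 4*S + 4*T + 2))/((S + 1)*(T + 1)^(2:ℕ)*(S*T + 2*S + 2*T + 2))) = ((S^(2:ℕ)*T)/((S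 + 1)*(T + 1)*(S*T + 2*S + 2*T + 2)), (S*T*(S + T + 1))/((S^(2:ℕ)*T^(2:ℕ) + 3*S^(2:ℕ)*T + 3*S*T^(2:ℕ) + S^(2:ℕ) + 5*S*T + T^(2:ℕ) + 2*S + 2*T + 1)))) (f16 : fl S T Letter.ga ((S^(2:ℕ)*T)/((S + 1)*(T + 1)*(S*T + 2*S + 2*T + 2)), (S*T*(S + T + 1))/((S^(2:ℕ)*T^(2:ℕ) + 3*S^(2:ℕ)*T + 3*S*T^(2:ℕ) + S^(2:ℕ) + 5*S*T + T^(2:ℕ) + 2*S + 2*T + 1))) = (((S^(2:ℕ)*T + 2*S*T^(2:ℕ) + 3*S*T + T^(2:ℕ) + S + 2*T + 1))/((S^(2:ℕ)*T^(2:ℕ) + 3*S^(2:ℕ)*T + 3*S*T^(2:ℕ) + S^(2:ℕ) + 5*S*T + T^(2:ℕ) + 2*S + 2*T + 1)), ((S*T^(2:ℕ) + 2*S*T + 2*T^(2:ℕ) + 2*S + 4*T + 2))/((T + 1)*(S*T + 2*S + 2*T + 2)))) (f17 : fl S T Letter.be (((S^(2:ℕ)*T + 2*S*T^(2:ℕ) + 3*S*T + T^(2:ℕ)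 + S + 2*T + 1))/((S^(2:ℕ)*T^(2:ℕ) + 3*S^(2:ℕ)*T + 3*S*T^(2:ℕ) + S^(2:ℕ) + 5*S*T + T^(2:ℕ) + 2*S + 2*T + 1)), ((S*T^(2:ℕ) + 2*S*T + 2*T^(2:ℕ) + 2*S + 4*T + 2))/((T + 1)*(S*T + 2*S + 2*T + 2))) = (((T + 1)*(S + 2))/((S*T + 2*S + 2*T + 2)), (S*T*(S + 1)*(T + 1))/((S^(2:ℕ)*T^(2:ℕ) + 3*S^(2:ℕ)*T + 3*S*T^(2:ℕ) + S^(2:ℕ) + 5*S*T + T^(2:ℕ) + 2*S + 2*T + 1)))) (f18 : fl S T Letter.be (((T + 1)*(S + 2))/((S*T + 2*S + 2*T + 2)), (S*T*(S + 1)*(T + 1))/((S^(2:ℕ)*T^(2:ℕ) + 3*S^(2:ℕ)*T + 3*S*T^(2:ℕ) + S^(2:ℕ) + 5*S*T + T^(2:ℕ) + 2*S + 2*T + 1))) = (((S^(2:ℕ)*T^(3:ℕ) + S^(2:ℕ)*T^(2:ℕ) + S*T^(3:ℕ) - 2*S^(2:ℕ)*T - S*T^(2:ℕ) - S^(2:ℕ) - 4*S*T - T^(2:ℕ)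 - 2*S - 2*T - 1))/(T*(S^(2:ℕ)*T^(2:ℕ) + 3*S^(2:ℕ)*T + 3*S*T^(2:ℕ) + S^(2:ℕ) + 5*S*T + T^(2:ℕ) + 2*S + 2*T + 1)), (S*T)/((T + 1)*(S*T + 2*S + 2*T + 2)))) (f19 : fl S T Letter.al (((S^(2:ℕ)*T^(3:ℕ) + S^(2:ℕ)*T^(2:ℕ) + S*T^(3:ℕ) - 2*S^(2:ℕ)*T - S*T^(2:ℕ) - S^(2:ℕ) - 4*S*T - T^(2:ℕ) - 2*S - 2*T - 1))/(T*(S^(2:ℕ)*T^(2:ℕ) + 3*S^(2:ℕ)*T + 3*S*T^(2:ℕ) + S^(2:ℕ) + 5*S*T + T^(2:ℕ) + 2*S + 2*T + 1)), (S*T)/((T + 1)*(S*T + 2*S + 2*T + 2))) = (((S*T^(3:ℕ) - 2*S^(2:ℕ)*T - S*T^(2:ℕ) - S^(2:ℕ) - 4*S*T - T^(2:ℕ) - 2*S - 2*T - 1))/(T*(S^(2:ℕ)*T^(2:ℕ) + 3*S^(2:ℕ)*T + 3*S*T^(2:ℕ) + S^(2:ℕ) + 5*S*T + T^(2:ℕ) + 2*S + 2*T + 1)), (T*(S + 2))/((S*T + 2*S +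 2*T + 2)))) (oQ_0 : cond S T Letter.be (((S^(2:ℕ)*T^(3:ℕ) + S^(2:ℕ)*T^(2:ℕ) + 3*S*T^(3:ℕ) - S^(2:ℕ)*T + 4*S*T^(2:ℕ) + 2*T^(3:ℕ) - 2*S^(2:ℕ) - 3*S*T + 2*T^(2:ℕ) - 4*S - 2*T - 2))/(T*(S + 1)*(T + 1)*(S*T + 2*S + 2*T + 2)), ((S + 1)^(2:ℕ)*(T + 1)^(2:ℕ))/((S^(2:ℕ)*T^(2:ℕ) + 3*S^(2:ℕ)*T + 3*S*T^(2:ℕ) + S^(2:ℕ) + 5*S*T + T^(2:ℕ) + 2*S + 2*T + 1)))) (oQ_1 : cond S T Letter.be (((S^(2:ℕ)*T^(2:ℕ) + 2*S^(2:ℕ)*T + 2*S*T^(2:ℕ) + 3*S*T + T^(2:ℕ) + S + 2*T + 1))/((S^(2:ℕ)*T^(2:ℕ) + 3*S^(2:ℕ)*T + 3*S*T^(2:ℕ) + S^(2:ℕ) + 5*S*T + T^(2:ℕ) + 2*S + 2*T + 1)), ((2*S^(2:ℕ)*T^(2:ℕ) + 3*S^(2:ℕ)*T + 3*S*T^(2:ℕ) + 2*S^(2:ℕ) + 7*S*T + 2*T^(2:ℕ) + 4*S + 4*T +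 2))/((S + 1)*(T + 1)^(2:ℕ)*(S*T + 2*S + 2*T + 2)))) (oQ_2 : cond S T Letter.ga ((S^(2:ℕ)*T)/((S + 1)*(T + 1)*(S*T + 2*S + 2*T + 2)), (S*T*(S + T + 1))/((S^(2:ℕ)*T^(2:ℕ) + 3*S^(2:ℕ)*T + 3*S*T^(2:ℕ) + S^(2:ℕ) + 5*S*T + T^(2:ℕ) + 2*S + 2*T + 1)))) (oQ_3 : cond S T Letter.be (((S^(2:ℕ)*T + 2*S*T^(2:ℕ) + 3*S*T + T^(2:ℕ) + S + 2*T + 1))/((S^(2:ℕ)*T^(2:ℕ) + 3*S^(2:ℕ)*T + 3*S*T^(2:ℕ) + S^(2:ℕ) + 5*S*T + T^(2:ℕ) + 2*S + 2*T + 1)), ((S*T^(2:ℕ) + 2*S*T + 2*T^(2:ℕ) + 2*S + 4*T + 2))/((T + 1)*(S*T + 2*S + 2*T + 2)))) (oQ_4 : cond S T Letter.be (((T + 1)*(S + 2))/((S*T + 2*S + 2*T + 2)), (S*T*(S + 1)*(T + 1))/((S^(2:ℕ)*T^(2:ℕ) + 3*S^(2:ℕ)*T + 3*S*T^(2:ℕ)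 + S^(2:ℕ) + 5*S*T + T^(2:ℕ) + 2*S + 2*T + 1)))) (oQ_5 : cond S T Letter.al (((S^(2:ℕ)*T^(3:ℕ) + S^(2:ℕ)*T^(2:ℕ) + S*T^(3:ℕ) - 2*S^(2:ℕ)*T - S*T^(2:ℕ) - S^(2:ℕ) - 4*S*T - T^(2:ℕ) - 2*S - 2*T - 1))/(T*(S^(2:ℕ)*T^(2:ℕ) + 3*S^(2:ℕ)*T + 3*S*T^(2:ℕ) + S^(2:ℕ) + 5*S*T + T^(2:ℕ) + 2*S + 2*T + 1)), (S*T)/((T + 1)*(S*T + 2*S + 2*T + 2)))) (oQ_6 : cond S T Letter.be (((S*T^(3:ℕ) - 2*S^(2:ℕ)*T - S*T^(2:ℕ) - S^(2:ℕ) - 4*S*T - T^(2:ℕ) - 2*S - 2*T - 1))/(T*(S^(2:ℕ)*T^(2:ℕ) + 3*S^(2:ℕ)*T + 3*S*T^(2:ℕ) + S^(2:ℕ) + 5*S*T + T^(2:ℕ) + 2*S + 2*T + 1)), (T*(S + 2))/((S*T + 2*S + 2*T + 2)))) :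
    okc S T [Letter.be, Letter.be, Letter.ga, Letter.be, Letter.be, Letter.al, Letter.be] (((S^(2:ℕ)*T^(3:ℕ) + S^(2:ℕ)*T^(2:ℕ) + 3*S*T^(3:ℕ) - S^(2:ℕ)*T + 4*S*T^(2:ℕ) + 2*T^(3:ℕ) - 2*S^(2:ℕ) - 3*S*T + 2*T^(2:ℕ) - 4*S - 2*T - 2))/(T*(S + 1)*(T + 1)*(S*T + 2*S + 2*T + 2)), ((S + 1)^(2:ℕ)*(T + 1)^(2:ℕ))/((S^(2:ℕ)*T^(2:ℕ) + 3*S^(2:ℕ)*T + 3*S*T^(2:ℕ) + S^(2:ℕ) + 5*S*T + T^(2:ℕ) + 2*S + 2*T + 1))) := (okc_cons' oQ_0 f14 (okc_cons' oQ_1 f15 (okc_cons' oQ_2 f16 (okc_cons' oQ_3 f17 (okc_cons' oQ_4 f18 (okc_cons' oQ_5 f19 (okc_last' oQ_6)))))))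

theorem F4_rE (S T : ℝ)  :
    run S T [] (((S*T^(2:ℕ) + S*T + 2*T^(2:ℕ) - S + T - 1))/(T*(S*T + 2*S + 2*T + 2)), ((S + 1)^(2:ℕ)*(T + 1)^(2:ℕ))/((S^(2:ℕ)*T^(2:ℕ) + 3*S^(2:ℕ)*T + 3*S*T^(2:ℕ) + S^(2:ℕ) + 5*S*T + T^(2:ℕ) + 2*S + 2*T + 1))) = (((S*T^(2:ℕ) + S*T + 2*T^(2:ℕ) - S + T - 1))/(T*(S*T + 2*S + 2*T + 2)), ((S + 1)^(2:ℕ)*(T + 1)^(2:ℕ))/((S^(2:ℕ)*T^(2:ℕ) + 3*S^(2:ℕ)*T + 3*S*T^(2:ℕ) + S^(2:ℕ) + 5*S*T + T^(2:ℕ) + 2*S + 2*T + 1))) := run_nil'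

theorem F4_q6 (S T : ℝ) (d2 : 0 < T*(S*T + 2*S + 2*T + 2)) (d14 : 0 < (S*T^(2:ℕ) + S*T + 2*T^(2:ℕ) - S + T - 1)) :
    0 < ((S*T^(2:ℕ) + S*T + 2*T^(2:ℕ) - S + T - 1))/(T*(S*T + 2*S + 2*T + 2)) := div_pos d14 d2

theorem F4_d32 (S T : ℝ) (pA : 0 < (S + 1)) (pB : 0 < (T + 1)) :
    0 < (S + 1)*(T + 1) := (mul_pos pA pB)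

theorem F4_q7 (S T : ℝ) (d2 : 0 < T*(S*T + 2*S + 2*T + 2)) (d32 : 0 < (S + 1)*(T + 1)) :
    ((S*T^(2:ℕ) + S*T + 2*T^(2:ℕ) - S + T - 1))/(T*(S*T + 2*S + 2*T + 2)) < 1 := rlt1 d2 d32 d2 (by ring)

theorem F4_sq (S T : ℝ) (q2 : 0 < ((S + 1)^(2:ℕ)*(T + 1)^(2:ℕ))/((S^(2:ℕ)*T^(2:ℕ) + 3*S^(2:ℕ)*T + 3*S*T^(2:ℕ) + S^(2:ℕ) + 5*S*T + T^(2:ℕ) + 2*S + 2*T + 1))) (q3 : ((S + 1)^(2:ℕ)*(T + 1)^(2:ℕ))/((S^(2:ℕ)*T^(2:ℕ) + 3*S^(2:ℕ)*T + 3*S*T^(2:ℕ) + S^(2:ℕ) + 5*S*T + T^(2:ℕ) + 2*S + 2*T + 1)) < 1) (q6 : 0 < ((S*T^(2:ℕ) + S*T + 2*T^(2:ℕ) - S + T - 1))/(T*(S*T + 2*S + 2*T + 2))) (q7 : ((S*T^(2:ℕ) + S*T + 2*T^(2:ℕ) - S + T - 1))/(T*(S*T + 2*S + 2*T +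 2)) < 1) :
    Sq (((S*T^(2:ℕ) + S*T + 2*T^(2:ℕ) - S + T - 1))/(T*(S*T + 2*S + 2*T + 2)), ((S + 1)^(2:ℕ)*(T + 1)^(2:ℕ))/((S^(2:ℕ)*T^(2:ℕ) + 3*S^(2:ℕ)*T + 3*S*T^(2:ℕ) + S^(2:ℕ) + 5*S*T + T^(2:ℕ) + 2*S + 2*T + 1))) := ⟨⟨q6, q7⟩, q2, q3⟩

theorem F4_oE (S T : ℝ)  :
    okc S T [] (((S*T^(2:ℕ) + S*T + 2*T^(2:ℕ) - S + T - 1))/(T*(S*T + 2*S + 2*T + 2)), ((S + 1)^(2:ℕ)*(T + 1)^(2:ℕ))/((S^(2:ℕ)*T^(2:ℕ) + 3*S^(2:ℕ)*T + 3*S*T^(2:ℕ) + S^(2:ℕ) + 5*S*T + T^(2:ℕ) + 2*S + 2*T + 1))) := trivial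

theorem F4_f21 (S T : ℝ) (pT : 0 < T) (d2 : 0 < T*(S*T + 2*S + 2*T + 2)) (d3 : 0 < (S*T + 2*S + 2*T + 2)) :
    fl S T Letter.be (((S*T^(2:ℕ) + S*T + 2*T^(2:ℕ) - S + T - 1))/(T*(S*T + 2*S + 2*T + 2)), ((S + 1)*(T + 1))/((S*T + 2*S + 2*T + 2))) = (((S*T^(2:ℕ) + S*T + T^(2:ℕ) - S - 1))/(T*(S*T + 2*S + 2*T + 2)), ((S + 1))/((S*T + 2*S + 2*T + 2))) := fl_be' pT d2 d3 d2 d3 (by ring) (by ring)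

theorem F4_f22 (S T : ℝ) (pS : 0 < S) (pT : 0 < T) (d2 : 0 < T*(S*T + 2*S + 2*T + 2)) (d3 : 0 < (S*T + 2*S + 2*T + 2)) :
    fl S T Letter.al (((S*T^(2:ℕ) + S*T + T^(2:ℕ) - S - 1))/(T*(S*T + 2*S + 2*T + 2)), ((S + 1))/((S*T + 2*S + 2*T + 2))) = (((T^(2:ℕ) - S - 1))/(T*(S*T + 2*S + 2*T + 2)), ((S*T + S + 2*T + 1))/((S*T + 2*S + 2*T + 2))) := fl_al' pS pT d2 d3 d2 d3 (by ring) (by ring)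

theorem F4_f23 (S T : ℝ) (pT : 0 < T) (d2 : 0 < T*(S*T + 2*S + 2*T + 2)) (d3 : 0 < (S*T + 2*S + 2*T + 2)) :
    fl S T Letter.be (((T^(2:ℕ) - S - 1))/(T*(S*T + 2*S + 2*T + 2)), ((S*T + S + 2*T + 1))/((S*T + 2*S + 2*T + 2))) = (((S*T^(2:ℕ) + S*T + 2*T^(2:ℕ) - S + T - 1))/(T*(S*T + 2*S + 2*T + 2)), ((S + 1)*(T + 1))/((S*T + 2*S + 2*T + 2))) := fl_be' pT d2 d3 d2 d3 (by ring) (by ring)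

theorem F4_rB (S T : ℝ) (f21 : fl S T Letter.be (((S*T^(2:ℕ) + S*T + 2*T^(2:ℕ) - S + T - 1))/(T*(S*T + 2*S + 2*T + 2)), ((S + 1)*(T + 1))/((S*T + 2*S + 2*T + 2))) = (((S*T^(2:ℕ) + S*T + T^(2:ℕ) - S - 1))/(T*(S*T + 2*S + 2*T + 2)), ((S + 1))/((S*T + 2*S + 2*T + 2)))) (f22 : fl S T Letter.al (((S*T^(2:ℕ) + S*T + T^(2:ℕ) - S - 1))/(T*(S*T + 2*S + 2*T + 2)), ((S + 1))/((S*T + 2*S + 2*T + 2))) = (((T^(2:ℕ) - S - 1))/(T*(S*T + 2*S + 2*T + 2)), ((S*T + S + 2*T + 1))/((S*T + 2*S + 2*T + 2)))) (f23 : fl S T Letter.be (((T^(2:ℕ) - S - 1))/(T*(S*T + 2*S + 2*T + 2)), ((S*T + S + 2*T + 1))/((S*T + 2*S + 2*T + 2))) = (((S*T^(2:ℕ) + S*T + 2*T^(2:ℕ)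 - S + T - 1))/(T*(S*T + 2*S + 2*T + 2)), ((S + 1)*(T + 1))/((S*T + 2*S + 2*T + 2)))) :
    run S T [Letter.be, Letter.al, Letter.be] (((S*T^(2:ℕ) + S*T + 2*T^(2:ℕ) - S + T - 1))/(T*(S*T + 2*S + 2*T + 2)), ((S + 1)*(T + 1))/((S*T + 2*S + 2*T + 2))) = (((S*T^(2:ℕ) + S*T + 2*T^(2:ℕ) - S + T - 1))/(T*(S*T + 2*S + 2*T + 2)), ((S + 1)*(T + 1))/((S*T + 2*S + 2*T + 2))) := (run_cons' f21 (run_cons' f22 (run_cons' f23 run_nil')))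

theorem F4_f24 (S T : ℝ) (pT : 0 < T) (d1 : 0 < (S^(2:ℕ)*T^(2:ℕ) + 3*S^(2:ℕ)*T + 3*S*T^(2:ℕ) + S^(2:ℕ) + 5*S*T + T^(2:ℕ) + 2*S + 2*T + 1)) (d2 : 0 < T*(S*T + 2*S + 2*T + 2)) (d3 : 0 < (S*T + 2*S + 2*T + 2)) :
    fl S T Letter.be (((S*T^(2:ℕ) + S*T + 2*T^(2:ℕ) - S + T - 1))/(T*(S*T + 2*S + 2*T + 2)), ((S + 1)^(2:ℕ)*(T + 1)^(2:ℕ))/((S^(2:ℕ)*T^(2:ℕ) + 3*S^(2:ℕ)*T + 3*S*T^(2:ℕ) + S^(2:ℕ) + 5*S*T + T^(2:ℕ) + 2*S + 2*T + 1))) = (((S^(2:ℕ)*T^(2:ℕ) + 2*S^(2:ℕ)*T + 2*S*T^(2:ℕ) + 3*S*T + T^(2:ℕ) + S + 2*T + 1))/((S^(2:ℕ)*T^(2:ℕ) + 3*S^(2:ℕ)*T + 3*S*T^(2:ℕ) + S^(2:ℕ) + 5*S*T + T^(2:ℕ) + 2*S + 2*T + 1)), ((S + 1))/((S*T + 2*S + 2*T + 2))) :=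 fl_be' pT d2 d1 d1 d3 (by ring) (by ring)

theorem F4_f25 (S T : ℝ) (pS : 0 < S) (pT : 0 < T) (d1 : 0 < (S^(2:ℕ)*T^(2:ℕ) + 3*S^(2:ℕ)*T + 3*S*T^(2:ℕ) + S^(2:ℕ) + 5*S*T + T^(2:ℕ) + 2*S + 2*T + 1)) (d3 : 0 < (S*T + 2*S + 2*T + 2)) :
    fl S T Letter.al (((S^(2:ℕ)*T^(2:ℕ) + 2*S^(2:ℕ)*T + 2*S*T^(2:ℕ) + 3*S*T + T^(2:ℕ) + S + 2*T + 1))/((S^(2:ℕ)*T^(2:ℕ) + 3*S^(2:ℕ)*T + 3*S*T^(2:ℕ) + S^(2:ℕ) + 5*S*T + T^(2:ℕ) + 2*S + 2*T + 1)), ((S + 1))/((S*T + 2*S + 2*T + 2))) = (((S*T^(2:ℕ) - S^(2:ℕ) + S*T + T^(2:ℕ) + 2*T + 1))/((S^(2:ℕ)*T^(2:ℕ) + 3*S^(2:ℕ)*T + 3*S*T^(2:ℕ) + S^(2:ℕ) + 5*S*T + T^(2:ℕ) + 2*S + 2*T + 1)), ((S*T + S + 2*T + 1))/((S*T + 2*S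 + 2*T + 2))) := fl_al' pS pT d1 d3 d1 d3 (by ring) (by ring)

theorem F4_f26 (S T : ℝ) (pT : 0 < T) (d1 : 0 < (S^(2:ℕ)*T^(2:ℕ) + 3*S^(2:ℕ)*T + 3*S*T^(2:ℕ) + S^(2:ℕ) + 5*S*T + T^(2:ℕ) + 2*S + 2*T + 1)) (d2 : 0 < T*(S*T + 2*S + 2*T + 2)) (d3 : 0 < (S*T + 2*S + 2*T + 2)) :
    fl S T Letter.be (((S*T^(2:ℕ) - S^(2:ℕ) + S*T + T^(2:ℕ) + 2*T + 1))/((S^(2:ℕ)*T^(2:ℕ) + 3*S^(2:ℕ)*T + 3*S*T^(2:ℕ) + S^(2:ℕ) + 5*S*T + T^(2:ℕ) + 2*S + 2*T + 1)), ((S*T + S + 2*T + 1))/((S*T + 2*S + 2*T + 2))) = (((S*T^(2:ℕ) + S*T + 2*T^(2:ℕ) - S + T - 1))/(T*(S*T + 2*S + 2*T + 2)), (S*T*(S*T + 2*S + 2*T + 2))/((S^(2:ℕ)*T^(2:ℕ) + 3*S^(2:ℕ)*T + 3*S*T^(2:ℕ) + S^(2:ℕ)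 + 5*S*T + T^(2:ℕ) + 2*S + 2*T + 1))) := fl_be' pT d1 d3 d2 d1 (by ring) (by ring)

theorem F4_rr (S T : ℝ) (f24 : fl S T Letter.be (((S*T^(2:ℕ) + S*T + 2*T^(2:ℕ) - S + T - 1))/(T*(S*T + 2*S + 2*T + 2)), ((S + 1)^(2:ℕ)*(T + 1)^(2:ℕ))/((S^(2:ℕ)*T^(2:ℕ) + 3*S^(2:ℕ)*T + 3*S*T^(2:ℕ) + S^(2:ℕ) + 5*S*T + T^(2:ℕ) + 2*S + 2*T + 1))) = (((S^(2:ℕ)*T^(2:ℕ) + 2*S^(2:ℕ)*T + 2*S*T^(2:ℕ) + 3*S*T + T^(2:ℕ) + S + 2*T + 1))/((S^(2:ℕ)*T^(2:ℕ) + 3*S^(2:ℕ)*T + 3*S*T^(2:ℕ) + S^(2:ℕ) + 5*S*T + T^(2:ℕ) + 2*S + 2*T + 1)), ((S + 1))/((S*T + 2*S + 2*T + 2)))) (f25 : fl S T Letter.al (((S^(2:ℕ)*T^(2:ℕ) + 2*S^(2:ℕ)*T + 2*S*T^(2:ℕ) + 3*S*T + T^(2:ℕ) + S + 2*T + 1))/((S^(2:ℕ)*T^(2:ℕ)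 + 3*S^(2:ℕ)*T + 3*S*T^(2:ℕ) + S^(2:ℕ) + 5*S*T + T^(2:ℕ) + 2*S + 2*T + 1)), ((S + 1))/((S*T + 2*S + 2*T + 2))) = (((S*T^(2:ℕ) - S^(2:ℕ) + S*T + T^(2:ℕ) + 2*T + 1))/((S^(2:ℕ)*T^(2:ℕ) + 3*S^(2:ℕ)*T + 3*S*T^(2:ℕ) + S^(2:ℕ) + 5*S*T + T^(2:ℕ) + 2*S + 2*T + 1)), ((S*T + S + 2*T + 1))/((S*T + 2*S + 2*T + 2)))) (f26 : fl S T Letter.be (((S*T^(2:ℕ) - S^(2:ℕ) + S*T + T^(2:ℕ) + 2*T + 1))/((S^(2:ℕ)*T^(2:ℕ) + 3*S^(2:ℕ)*T + 3*S*T^(2:ℕ) + S^(2:ℕ) + 5*S*T + T^(2:ℕ) + 2*S + 2*T + 1)), ((S*T + S + 2*T + 1))/((S*T + 2*S + 2*T + 2))) = (((S*T^(2:ℕ) + S*T + 2*T^(2:ℕ) - S + T - 1))/(T*(S*T + 2*S + 2*T + 2)), (S*T*(S*T + 2*S + 2*T + 2))/((S^(2:ℕ)*T^(2:ℕ) +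 3*S^(2:ℕ)*T + 3*S*T^(2:ℕ) + S^(2:ℕ) + 5*S*T + T^(2:ℕ) + 2*S + 2*T + 1)))) :
    run S T [Letter.be, Letter.al, Letter.be] (((S*T^(2:ℕ) + S*T + 2*T^(2:ℕ) - S + T - 1))/(T*(S*T + 2*S + 2*T + 2)), ((S + 1)^(2:ℕ)*(T + 1)^(2:ℕ))/((S^(2:ℕ)*T^(2:ℕ) + 3*S^(2:ℕ)*T + 3*S*T^(2:ℕ) + S^(2:ℕ) + 5*S*T + T^(2:ℕ) + 2*S + 2*T + 1))) = (((S*T^(2:ℕ) + S*T + 2*T^(2:ℕ) - S + T - 1))/(T*(S*T + 2*S + 2*T + 2)), (S*T*(S*T + 2*S + 2*T + 2))/((S^(2:ℕ)*T^(2:ℕ) + 3*S^(2:ℕ)*T + 3*S*T^(2:ℕ) + S^(2:ℕ) + 5*S*T + T^(2:ℕ) + 2*S + 2*T + 1))) := (run_cons' f24 (run_cons' f25 (run_cons' f26 run_nil')))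

theorem F4_sr (S T : ℝ) (q2 : 0 < ((S + 1)^(2:ℕ)*(T + 1)^(2:ℕ))/((S^(2:ℕ)*T^(2:ℕ) + 3*S^(2:ℕ)*T + 3*S*T^(2:ℕ) + S^(2:ℕ) + 5*S*T + T^(2:ℕ) + 2*S + 2*T + 1))) (q3 : ((S + 1)^(2:ℕ)*(T + 1)^(2:ℕ))/((S^(2:ℕ)*T^(2:ℕ) + 3*S^(2:ℕ)*T + 3*S*T^(2:ℕ) + S^(2:ℕ) + 5*S*T + T^(2:ℕ) + 2*S + 2*T + 1)) < 1) (q6 : 0 < ((S*T^(2:ℕ) + S*T + 2*T^(2:ℕ) - S + T - 1))/(T*(S*T + 2*S + 2*T + 2))) (q7 : ((S*T^(2:ℕ) + S*T + 2*T^(2:ℕ) - S + T - 1))/(T*(S*T + 2*S + 2*T + 2)) < 1) :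
    Sq (((S*T^(2:ℕ) + S*T + 2*T^(2:ℕ) - S + T - 1))/(T*(S*T + 2*S + 2*T + 2)), ((S + 1)^(2:ℕ)*(T + 1)^(2:ℕ))/((S^(2:ℕ)*T^(2:ℕ) + 3*S^(2:ℕ)*T + 3*S*T^(2:ℕ) + S^(2:ℕ) + 5*S*T + T^(2:ℕ) + 2*S + 2*T + 1))) := ⟨⟨q6, q7⟩, q2, q3⟩

theorem F4_orr_0 (S T : ℝ) (g1 : 1 < (T + 1) * (((S + 1)^(2:ℕ)*(T + 1)^(2:ℕ))/((S^(2:ℕ)*T^(2:ℕ) + 3*S^(2:ℕ)*T + 3*S*T^(2:ℕ) + S^(2:ℕ) + 5*S*T + T^(2:ℕ) + 2*S + 2*T + 1)))) (g7 : S < (S + T + 1) * (((S*T^(2:ℕ) + S*T + 2*T^(2:ℕ) - S + T - 1))/(T*(S*T + 2*S + 2*T + 2)))) :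
    cond S T Letter.be (((S*T^(2:ℕ) + S*T + 2*T^(2:ℕ) - S + T - 1))/(T*(S*T + 2*S + 2*T + 2)), ((S + 1)^(2:ℕ)*(T + 1)^(2:ℕ))/((S^(2:ℕ)*T^(2:ℕ) + 3*S^(2:ℕ)*T + 3*S*T^(2:ℕ) + S^(2:ℕ) + 5*S*T + T^(2:ℕ) + 2*S + 2*T + 1))) := ⟨g7, g1⟩

theorem F4_orr_1 (S T : ℝ) (g2 : S < (S + T + 1) * (((S^(2:ℕ)*T^(2:ℕ) + 2*S^(2:ℕ)*T + 2*S*T^(2:ℕ) + 3*S*T + T^(2:ℕ) + S + 2*T + 1))/((S^(2:ℕ)*T^(2:ℕ) + 3*S^(2:ℕ)*T + 3*S*T^(2:ℕ) + S^(2:ℕ) + 5*S*T + T^(2:ℕ) + 2*S + 2*T + 1)))) (g10 : (T + 1) * (((S + 1))/((S*T + 2*S + 2*T + 2))) < 1) :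
    cond S T Letter.al (((S^(2:ℕ)*T^(2:ℕ) + 2*S^(2:ℕ)*T + 2*S*T^(2:ℕ) + 3*S*T + T^(2:ℕ) + S + 2*T + 1))/((S^(2:ℕ)*T^(2:ℕ) + 3*S^(2:ℕ)*T + 3*S*T^(2:ℕ) + S^(2:ℕ) + 5*S*T + T^(2:ℕ) + 2*S + 2*T + 1)), ((S + 1))/((S*T + 2*S + 2*T + 2))) := ⟨g2, g10⟩

theorem F4_d33 (S T : ℝ) (pA : 0 < (S + 1)) (pB : 0 < (T + 1)) (c18 : 0 < -S^(2:ℕ)*T - 2*S^(2:ℕ) - S*T + T^(2:ℕ) - S + 2*T + 1) :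
    0 < (S + 1)*(T + 1)*(-S^(2:ℕ)*T - 2*S^(2:ℕ) - S*T + T^(2:ℕ) - S + 2*T + 1) := (mul_pos (mul_pos pA pB) c18)

theorem F4_g19 (S T : ℝ) (d1 : 0 < (S^(2:ℕ)*T^(2:ℕ) + 3*S^(2:ℕ)*T + 3*S*T^(2:ℕ) + S^(2:ℕ) + 5*S*T + T^(2:ℕ) + 2*S + 2*T + 1)) (d33 : 0 < (S + 1)*(T + 1)*(-S^(2:ℕ)*T - 2*S^(2:ℕ) - S*T + T^(2:ℕ) - S + 2*T + 1)) :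
    S < (S + T + 1) * (((S*T^(2:ℕ) - S^(2:ℕ) + S*T + T^(2:ℕ) + 2*T + 1))/((S^(2:ℕ)*T^(2:ℕ) + 3*S^(2:ℕ)*T + 3*S*T^(2:ℕ) + S^(2:ℕ) + 5*S*T + T^(2:ℕ) + 2*S + 2*T + 1))) := rgt d1 d33 d1 (by ring)

theorem F4_orr_2 (S T : ℝ) (g6 : 1 < (T + 1) * (((S*T + S + 2*T + 1))/((S*T + 2*S + 2*T + 2)))) (g19 : S < (S + T + 1) * (((S*T^(2:ℕ) - S^(2:ℕ) + S*T + T^(2:ℕ) + 2*T + 1))/((S^(2:ℕ)*T^(2:ℕ) + 3*S^(2:ℕ)*T + 3*S*T^(2:ℕ) + S^(2:ℕ) + 5*S*T + T^(2:ℕ) + 2*S + 2*T + 1)))) :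
    cond S T Letter.be (((S*T^(2:ℕ) - S^(2:ℕ) + S*T + T^(2:ℕ) + 2*T + 1))/((S^(2:ℕ)*T^(2:ℕ) + 3*S^(2:ℕ)*T + 3*S*T^(2:ℕ) + S^(2:ℕ) + 5*S*T + T^(2:ℕ) + 2*S + 2*T + 1)), ((S*T + S + 2*T + 1))/((S*T + 2*S + 2*T + 2))) := ⟨g19, g6⟩

theorem F4_orr (S T : ℝ) (f24 : fl S T Letter.be (((S*T^(2:ℕ) + S*T + 2*T^(2:ℕ) - S + T - 1))/(T*(S*T + 2*S + 2*T + 2)), ((S + 1)^(2:ℕ)*(T + 1)^(2:ℕ))/((S^(2:ℕ)*T^(2:ℕ) + 3*S^(2:ℕ)*T + 3*S*T^(2:ℕ) + S^(2:ℕ) + 5*S*T + T^(2:ℕ) + 2*S + 2*T + 1))) = (((S^(2:ℕ)*T^(2:ℕ) + 2*S^(2:ℕ)*T + 2*S*T^(2:ℕ) + 3*S*T + T^(2:ℕ) + S + 2*T + 1))/((S^(2:ℕ)*T^(2:ℕ) + 3*S^(2:ℕ)*T + 3*S*T^(2:ℕ) + S^(2:ℕ) + 5*S*T + T^(2:ℕ) + 2*S + 2*T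 + 1)), ((S + 1))/((S*T + 2*S + 2*T + 2)))) (f25 : fl S T Letter.al (((S^(2:ℕ)*T^(2:ℕ) + 2*S^(2:ℕ)*T + 2*S*T^(2:ℕ) + 3*S*T + T^(2:ℕ) + S + 2*T + 1))/((S^(2:ℕ)*T^(2:ℕ) + 3*S^(2:ℕ)*T + 3*S*T^(2:ℕ) + S^(2:ℕ) + 5*S*T + T^(2:ℕ) + 2*S + 2*T + 1)), ((S + 1))/((S*T + 2*S + 2*T + 2))) = (((S*T^(2:ℕ) - S^(2:ℕ) + S*T + T^(2:ℕ) + 2*T + 1))/((S^(2:ℕ)*T^(2:ℕ) + 3*S^(2:ℕ)*T + 3*S*T^(2:ℕ) + S^(2:ℕ) + 5*S*T + T^(2:ℕ) + 2*S + 2*T + 1)), ((S*T + S + 2*T + 1))/((S*T + 2*S + 2*T + 2)))) (orr_0 : cond S T Letter.be (((S*T^(2:ℕ) + S*T + 2*T^(2:ℕ) - S + T - 1))/(T*(S*T + 2*S + 2*T + 2)), ((S + 1)^(2:ℕ)*(T + 1)^(2:ℕ))/((S^(2:ℕ)*T^(2:ℕ) + 3*S^(2:ℕ)*T + 3*S*T^(2:ℕ)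 + S^(2:ℕ) + 5*S*T + T^(2:ℕ) + 2*S + 2*T + 1)))) (orr_1 : cond S T Letter.al (((S^(2:ℕ)*T^(2:ℕ) + 2*S^(2:ℕ)*T + 2*S*T^(2:ℕ) + 3*S*T + T^(2:ℕ) + S + 2*T + 1))/((S^(2:ℕ)*T^(2:ℕ) + 3*S^(2:ℕ)*T + 3*S*T^(2:ℕ) + S^(2:ℕ) + 5*S*T + T^(2:ℕ) + 2*S + 2*T + 1)), ((S + 1))/((S*T + 2*S + 2*T + 2)))) (orr_2 : cond S T Letter.be (((S*T^(2:ℕ) - S^(2:ℕ) + S*T + T^(2:ℕ) + 2*T + 1))/((S^(2:ℕ)*T^(2:ℕ) + 3*S^(2:ℕ)*T + 3*S*T^(2:ℕ) + S^(2:ℕ) + 5*S*T + T^(2:ℕ) + 2*S + 2*T + 1)), ((S*T + S + 2*T + 1))/((S*T + 2*S + 2*T + 2)))) :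
    okc S T [Letter.be, Letter.al, Letter.be] (((S*T^(2:ℕ) + S*T + 2*T^(2:ℕ) - S + T - 1))/(T*(S*T + 2*S + 2*T + 2)), ((S + 1)^(2:ℕ)*(T + 1)^(2:ℕ))/((S^(2:ℕ)*T^(2:ℕ) + 3*S^(2:ℕ)*T + 3*S*T^(2:ℕ) + S^(2:ℕ) + 5*S*T + T^(2:ℕ) + 2*S + 2*T + 1))) := (okc_cons' orr_0 f24 (okc_cons' orr_1 f25 (okc_last' orr_2)))

theorem F4_f27 (S T : ℝ) (pT : 0 < T) (d0 : 0 < T*(S^(2:ℕ)*T^(2:ℕ) + 3*S^(2:ℕ)*T + 3*S*T^(2:ℕ) + S^(2:ℕ) + 5*S*T + T^(2:ℕ) + 2*S + 2*T + 1)) (d1 : 0 < (S^(2:ℕ)*T^(2:ℕ) + 3*S^(2:ℕ)*T + 3*S*T^(2:ℕ) + S^(2:ℕ) + 5*S*T + T^(2:ℕ) + 2*S + 2*T + 1)) (d2 : 0 < T*(S*T + 2*S + 2*T + 2)) (d3 : 0 < (S*T + 2*S + 2*T + 2)) :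
    fl S T Letter.be (((S*T^(2:ℕ) + S*T + 2*T^(2:ℕ) - S + T - 1))/(T*(S*T + 2*S + 2*T + 2)), (S*T*(S*T + 2*S + 2*T + 2))/((S^(2:ℕ)*T^(2:ℕ) + 3*S^(2:ℕ)*T + 3*S*T^(2:ℕ) + S^(2:ℕ) + 5*S*T + T^(2:ℕ) + 2*S + 2*T + 1))) = (((S^(2:ℕ)*T^(3:ℕ) + 2*S^(2:ℕ)*T^(2:ℕ) + 2*S*T^(3:ℕ) - S^(2:ℕ)*T + S*T^(2:ℕ) - S^(2:ℕ) - 3*S*T - T^(2:ℕ) - 2*S - 2*T - 1))/(T*(S^(2:ℕ)*T^(2:ℕ) + 3*S^(2:ℕ)*T + 3*S*T^(2:ℕ) + S^(2:ℕ) + 5*S*T + T^(2:ℕ) + 2*S + 2*T + 1)), ((S + 1))/((S*T + 2*S + 2*T + 2))) := fl_be' pT d2 d1 d0 d3 (by ring) (by ring)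

theorem F4_d34 (S T : ℝ) (pT : 0 < T) (pA : 0 < (S + 1)) (c0 : 0 < S^(2:ℕ)*T^(2:ℕ) + 3*S^(2:ℕ)*T + 3*S*T^(2:ℕ) + S^(2:ℕ) + 5*S*T + T^(2:ℕ) + 2*S + 2*T + 1) :
    0 < T*(S + 1)*(S^(2:ℕ)*T^(2:ℕ) + 3*S^(2:ℕ)*T + 3*S*T^(2:ℕ) + S^(2:ℕ) + 5*S*T + T^(2:ℕ) + 2*S + 2*T + 1) := (mul_pos (mul_pos pT pA) c0)

theorem F4_f28 (S T : ℝ) (pS : 0 < S) (pT : 0 < T) (d0 : 0 < T*(S^(2:ℕ)*T^(2:ℕ) + 3*S^(2:ℕ)*T + 3*S*T^(2:ℕ) + S^(2:ℕ) + 5*S*T + T^(2:ℕ) + 2*S + 2*T + 1)) (d3 : 0 < (S*T + 2*S + 2*T + 2)) (d34 : 0 < T*(S + 1)*(S^(2:ℕ)*T^(2:ℕ) + 3*S^(2:ℕ)*T + 3*S*T^(2:ℕ) + S^(2:ℕ) + 5*S*T + T^(2:ℕ) + 2*S + 2*T + 1)) :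
    fl S T Letter.al (((S^(2:ℕ)*T^(3:ℕ) + 2*S^(2:ℕ)*T^(2:ℕ) + 2*S*T^(3:ℕ) - S^(2:ℕ)*T + S*T^(2:ℕ) - S^(2:ℕ) - 3*S*T - T^(2:ℕ) - 2*S - 2*T - 1))/(T*(S^(2:ℕ)*T^(2:ℕ) + 3*S^(2:ℕ)*T + 3*S*T^(2:ℕ) + S^(2:ℕ) + 5*S*T + T^(2:ℕ) + 2*S + 2*T + 1)), ((S + 1))/((S*T + 2*S + 2*T + 2))) = (((S^(2:ℕ)*T^(3:ℕ) - S^(3:ℕ)*T + S^(2:ℕ)*T^(2:ℕ) + 2*S*T^(3:ℕ) - S^(3:ℕ) - 4*S^(2:ℕ)*T - 3*S^(2:ℕ) - 5*S*T - T^(2:ℕ) - 3*S - 2*T - 1))/(T*(S + 1)*(S^(2:ℕ)*T^(2:ℕ) + 3*S^(2:ℕ)*T + 3*S*T^(2:ℕ) + S^(2:ℕ) + 5*S*T + T^(2:ℕ) + 2*S + 2*T + 1)), ((S*T + S + 2*T + 1))/((S*T + 2*S + 2*T + 2))) := fl_al' pS pT d0 d3 d34 d3 (by ring) (by ring)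

theorem F4_d35 (S T : ℝ) (pA : 0 < (S + 1)) (pB : 0 < (T + 1)) (c0 : 0 < S^(2:ℕ)*T^(2:ℕ) + 3*S^(2:ℕ)*T + 3*S*T^(2:ℕ) + S^(2:ℕ) + 5*S*T + T^(2:ℕ) + 2*S + 2*T + 1) :
    0 < (S + 1)*(T + 1)*(S^(2:ℕ)*T^(2:ℕ) + 3*S^(2:ℕ)*T + 3*S*T^(2:ℕ) + S^(2:ℕ) + 5*S*T + T^(2:ℕ) + 2*S + 2*T + 1) := (mul_pos (mul_pos pA pB) c0)

theorem F4_f29 (S T : ℝ) (pT : 0 < T) (d2 : 0 < T*(S*T + 2*S + 2*T + 2)) (d3 : 0 < (S*T + 2*S + 2*T + 2)) (d34 : 0 < T*(S + 1)*(S^(2:ℕ)*T^(2:ℕ) + 3*S^(2:ℕ)*T + 3*S*T^(2:ℕ) + S^(2:ℕ) + 5*S*T + T^(2:ℕ) + 2*S + 2*T + 1)) (d35 : 0 < (S + 1)*(T + 1)*(S^(2:ℕ)*T^(2:ℕ) + 3*S^(2:ℕ)*T + 3*S*T^(2:ℕ) + S^(2:ℕ) + 5*S*T + T^(2:ℕ) + 2*S + 2*T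 + 1)) :
    fl S T Letter.be (((S^(2:ℕ)*T^(3:ℕ) - S^(3:ℕ)*T + S^(2:ℕ)*T^(2:ℕ) + 2*S*T^(3:ℕ) - S^(3:ℕ) - 4*S^(2:ℕ)*T - 3*S^(2:ℕ) - 5*S*T - T^(2:ℕ) - 3*S - 2*T - 1))/(T*(S + 1)*(S^(2:ℕ)*T^(2:ℕ) + 3*S^(2:ℕ)*T + 3*S*T^(2:ℕ) + S^(2:ℕ) + 5*S*T + T^(2:ℕ) + 2*S + 2*T + 1)), ((S*T + S + 2*T + 1))/((S*T + 2*S + 2*T + 2))) = (((S*T^(2:ℕ) + S*T + 2*T^(2:ℕ) - S + T - 1))/(T*(S*T + 2*S + 2*T + 2)), ((S^(3:ℕ)*T^(3:ℕ) + 3*S^(3:ℕ)*T^(2:ℕ) + 3*S^(2:ℕ)*T^(3:ℕ) + 2*S^(3:ℕ)*T + 7*S^(2:ℕ)*T^(2:ℕ) + 2*S*T^(3:ℕ) + S^(3:ℕ) + 7*S^(2:ℕ)*T + 7*S*T^(2:ℕ) + T^(3:ℕ) + 3*S^(2:ℕ) + 8*S*T + 3*T^(2:ℕ) + 3*S + 3*T + 1))/((S + 1)*(T + 1)*(S^(2:ℕ)*T^(2:ℕ) + 3*S^(2:ℕ)*T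 + 3*S*T^(2:ℕ) + S^(2:ℕ) + 5*S*T + T^(2:ℕ) + 2*S + 2*T + 1))) := fl_be' pT d34 d3 d2 d35 (by ring) (by ring)

theorem F4_d36 (S T : ℝ) (pS : 0 < S) (pT : 0 < T) (c1 : 0 < S*T + 2*S + 2*T + 2) :
    0 < S*T*(S*T + 2*S + 2*T + 2) := (mul_pos (mul_pos pS pT) c1)

theorem F4_q8 (S T : ℝ) (d1 : 0 < (S^(2:ℕ)*T^(2:ℕ) + 3*S^(2:ℕ)*T + 3*S*T^(2:ℕ) + S^(2:ℕ) + 5*S*T + T^(2:ℕ) + 2*S + 2*T + 1)) (d36 : 0 < S*T*(S*T + 2*S + 2*T + 2)) :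
    0 < (S*T*(S*T + 2*S + 2*T + 2))/((S^(2:ℕ)*T^(2:ℕ) + 3*S^(2:ℕ)*T + 3*S*T^(2:ℕ) + S^(2:ℕ) + 5*S*T + T^(2:ℕ) + 2*S + 2*T + 1)) := div_pos d36 d1

theorem F4_d37 (S T : ℝ) (pA : 0 < (S + 1)) (pB : 0 < (T + 1)) (pU : 0 < (S + T + 1)) :
    0 < (S + 1)*(T + 1)*(S + T + 1) := (mul_pos (mul_pos pA pB) pU)

theorem F4_q9 (S T : ℝ) (d1 : 0 < (S^(2:ℕ)*T^(2:ℕ) + 3*S^(2:ℕ)*T + 3*S*T^(2:ℕ) + S^(2:ℕ) + 5*S*T + T^(2:ℕ) + 2*S + 2*T + 1)) (d37 : 0 < (S + 1)*(T + 1)*(S + T + 1)) :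
    (S*T*(S*T + 2*S + 2*T + 2))/((S^(2:ℕ)*T^(2:ℕ) + 3*S^(2:ℕ)*T + 3*S*T^(2:ℕ) + S^(2:ℕ) + 5*S*T + T^(2:ℕ) + 2*S + 2*T + 1)) < 1 := rlt1 d1 d37 d1 (by ring)

theorem F4_sC (S T : ℝ) (q6 : 0 < ((S*T^(2:ℕ) + S*T + 2*T^(2:ℕ) - S + T - 1))/(T*(S*T + 2*S + 2*T + 2))) (q7 : ((S*T^(2:ℕ) + S*T + 2*T^(2:ℕ) - S + T - 1))/(T*(S*T + 2*S + 2*T + 2)) < 1) (q8 : 0 < (S*T*(S*T + 2*S + 2*T + 2))/((S^(2:ℕ)*T^(2:ℕ) + 3*S^(2:ℕ)*T + 3*S*T^(2:ℕ) + S^(2:ℕ) + 5*S*T + T^(2:ℕ) + 2*S + 2*T + 1))) (q9 : (S*T*(S*T + 2*S + 2*T + 2))/((S^(2:ℕ)*T^(2:ℕ) + 3*S^(2:ℕ)*T + 3*S*T^(2:ℕ) + S^(2:ℕ) + 5*S*T + T^(2:ℕ) + 2*S + 2*T + 1)) < 1) :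
    Sq (((S*T^(2:ℕ) + S*T + 2*T^(2:ℕ) - S + T - 1))/(T*(S*T + 2*S + 2*T + 2)), (S*T*(S*T + 2*S + 2*T + 2))/((S^(2:ℕ)*T^(2:ℕ) + 3*S^(2:ℕ)*T + 3*S*T^(2:ℕ) + S^(2:ℕ) + 5*S*T + T^(2:ℕ) + 2*S + 2*T + 1))) := ⟨⟨q6, q7⟩, q8, q9⟩

theorem F4_d38 (S T : ℝ) (c19 : 0 < S^(2:ℕ)*T^(3:ℕ) + 2*S^(2:ℕ)*T^(2:ℕ) + 2*S*T^(3:ℕ) - S^(2:ℕ)*T + S*T^(2:ℕ) - S^(2:ℕ) - 3*S*T - T^(2:ℕ) - 2*S - 2*T - 1) :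
    0 < (S^(2:ℕ)*T^(3:ℕ) + 2*S^(2:ℕ)*T^(2:ℕ) + 2*S*T^(3:ℕ) - S^(2:ℕ)*T + S*T^(2:ℕ) - S^(2:ℕ) - 3*S*T - T^(2:ℕ) - 2*S - 2*T - 1) := c19

theorem F4_g20 (S T : ℝ) (d1 : 0 < (S^(2:ℕ)*T^(2:ℕ) + 3*S^(2:ℕ)*T + 3*S*T^(2:ℕ) + S^(2:ℕ) + 5*S*T + T^(2:ℕ) + 2*S + 2*T + 1)) (d38 : 0 < (S^(2:ℕ)*T^(3:ℕ) + 2*S^(2:ℕ)*T^(2:ℕ) + 2*S*T^(3:ℕ) - S^(2:ℕ)*T + S*T^(2:ℕ) - S^(2:ℕ) - 3*S*T - T^(2:ℕ) - 2*S - 2*T - 1)) :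
    1 < (T + 1) * ((S*T*(S*T + 2*S + 2*T + 2))/((S^(2:ℕ)*T^(2:ℕ) + 3*S^(2:ℕ)*T + 3*S*T^(2:ℕ) + S^(2:ℕ) + 5*S*T + T^(2:ℕ) + 2*S + 2*T + 1))) := rgt d1 d38 d1 (by ring)

theorem F4_oC_0 (S T : ℝ) (g7 : S < (S + T + 1) * (((S*T^(2:ℕ) + S*T + 2*T^(2:ℕ) - S + T - 1))/(T*(S*T + 2*S + 2*T + 2)))) (g20 : 1 < (T + 1) * ((S*T*(S*T + 2*S + 2*T + 2))/((S^(2:ℕ)*T^(2:ℕ) + 3*S^(2:ℕ)*T + 3*S*T^(2:ℕ) + S^(2:ℕ) + 5*S*T + T^(2:ℕ) + 2*S + 2*T + 1)))) :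
    cond S T Letter.be (((S*T^(2:ℕ) + S*T + 2*T^(2:ℕ) - S + T - 1))/(T*(S*T + 2*S + 2*T + 2)), (S*T*(S*T + 2*S + 2*T + 2))/((S^(2:ℕ)*T^(2:ℕ) + 3*S^(2:ℕ)*T + 3*S*T^(2:ℕ) + S^(2:ℕ) + 5*S*T + T^(2:ℕ) + 2*S + 2*T + 1))) := ⟨g7, g20⟩

theorem F4_d39 (S T : ℝ) (pB : 0 < (T + 1)) (c20 : 0 < S^(2:ℕ)*T^(3:ℕ) - S^(3:ℕ)*T + S^(2:ℕ)*T^(2:ℕ) + 2*S*T^(3:ℕ) - S^(3:ℕ) - 4*S^(2:ℕ)*T - 3*S^(2:ℕ) - 5*S*T - T^(2:ℕ) - 3*S - 2*T - 1) :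
    0 < (T + 1)*(S^(2:ℕ)*T^(3:ℕ) - S^(3:ℕ)*T + S^(2:ℕ)*T^(2:ℕ) + 2*S*T^(3:ℕ) - S^(3:ℕ) - 4*S^(2:ℕ)*T - 3*S^(2:ℕ) - 5*S*T - T^(2:ℕ) - 3*S - 2*T - 1) := (mul_pos pB c20)

theorem F4_g21 (S T : ℝ) (d0 : 0 < T*(S^(2:ℕ)*T^(2:ℕ) + 3*S^(2:ℕ)*T + 3*S*T^(2:ℕ) + S^(2:ℕ) + 5*S*T + T^(2:ℕ) + 2*S + 2*T + 1)) (d39 : 0 < (T + 1)*(S^(2:ℕ)*T^(3:ℕ) - S^(3:ℕ)*T + S^(2:ℕ)*T^(2:ℕ) + 2*S*T^(3:ℕ) - S^(3:ℕ) - 4*S^(2:ℕ)*T - 3*S^(2:ℕ) - 5*S*T - T^(2:ℕ) - 3*S - 2*T - 1)) :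
    S < (S + T + 1) * (((S^(2:ℕ)*T^(3:ℕ) + 2*S^(2:ℕ)*T^(2:ℕ) + 2*S*T^(3:ℕ) - S^(2:ℕ)*T + S*T^(2:ℕ) - S^(2:ℕ) - 3*S*T - T^(2:ℕ) - 2*S - 2*T - 1))/(T*(S^(2:ℕ)*T^(2:ℕ) + 3*S^(2:ℕ)*T + 3*S*T^(2:ℕ) + S^(2:ℕ) + 5*S*T + T^(2:ℕ) + 2*S + 2*T + 1))) := rgt d0 d39 d0 (by ring)

theorem F4_oC_1 (S T : ℝ) (g10 : (T + 1) * (((S + 1))/((S*T + 2*S + 2*T + 2))) < 1) (g21 : S < (S + T + 1) * (((S^(2:ℕ)*T^(3:ℕ) + 2*S^(2:ℕ)*T^(2:ℕ) + 2*S*T^(3:ℕ) - S^(2:ℕ)*T + S*T^(2:ℕ) - S^(2:ℕ) - 3*S*T - T^(2:ℕ) - 2*S - 2*T - 1))/(T*(S^(2:ℕ)*T^(2:ℕ) + 3*S^(2:ℕ)*T + 3*S*T^(2:ℕ) + S^(2:ℕ) + 5*S*T + T^(2:ℕ) + 2*S + 2*T + 1)))) :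
    cond S T Letter.al (((S^(2:ℕ)*T^(3:ℕ) + 2*S^(2:ℕ)*T^(2:ℕ) + 2*S*T^(3:ℕ) - S^(2:ℕ)*T + S*T^(2:ℕ) - S^(2:ℕ) - 3*S*T - T^(2:ℕ) - 2*S - 2*T - 1))/(T*(S^(2:ℕ)*T^(2:ℕ) + 3*S^(2:ℕ)*T + 3*S*T^(2:ℕ) + S^(2:ℕ) + 5*S*T + T^(2:ℕ) + 2*S + 2*T + 1)), ((S + 1))/((S*T + 2*S + 2*T + 2))) := ⟨g21, g10⟩

theorem F4_d40 (S T : ℝ) (c21 : 0 < -S^(4:ℕ)*T^(3:ℕ) - 3*S^(4:ℕ)*T^(2:ℕ) - 3*S^(3:ℕ)*T^(3:ℕ) + S^(2:ℕ)*T^(4:ℕ) - 2*S^(4:ℕ)*T - 8*S^(3:ℕ)*T^(2:ℕ) + 2*S*T^(4:ℕ) - S^(4:ℕ) - 9*S^(3:ℕ)*T - 10*S^(2:ℕ)*T^(2:ℕ) + S*T^(3:ℕ) - 4*S^(3:ℕ) - 15*S^(2:ℕ)*T - 8*S*T^(2:ℕ) - T^(3:ℕ) - 6*S^(2:ℕ) - 11*S*T - 3*T^(2:ℕ) - 4*S - 3*T - 1) :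
    0 < (-S^(4:ℕ)*T^(3:ℕ) - 3*S^(4:ℕ)*T^(2:ℕ) - 3*S^(3:ℕ)*T^(3:ℕ) + S^(2:ℕ)*T^(4:ℕ) - 2*S^(4:ℕ)*T - 8*S^(3:ℕ)*T^(2:ℕ) + 2*S*T^(4:ℕ) - S^(4:ℕ) - 9*S^(3:ℕ)*T - 10*S^(2:ℕ)*T^(2:ℕ) + S*T^(3:ℕ) - 4*S^(3:ℕ) - 15*S^(2:ℕ)*T - 8*S*T^(2:ℕ) - T^(3:ℕ) - 6*S^(2:ℕ) - 11*S*T - 3*T^(2:ℕ) - 4*S - 3*T - 1) := c21

theorem F4_g22 (S T : ℝ) (d34 : 0 < T*(S + 1)*(S^(2:ℕ)*T^(2:ℕ) + 3*S^(2:ℕ)*T + 3*S*T^(2:ℕ) + S^(2:ℕ) + 5*S*T + T^(2:ℕ) + 2*S + 2*T + 1)) (d40 : 0 < (-S^(4:ℕ)*T^(3:ℕ) - 3*S^(4:ℕ)*T^(2:ℕ) - 3*S^(3:ℕ)*T^(3:ℕ) + S^(2:ℕ)*T^(4:ℕ) - 2*S^(4:ℕ)*T - 8*S^(3:ℕ)*T^(2:ℕ) + 2*S*T^(4:ℕ) - S^(4:ℕ) - 9*S^(3:ℕ)*T - 10*S^(2:ℕ)*T^(2:ℕ) + S*T^(3:ℕ) - 4*S^(3:ℕ) -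 15*S^(2:ℕ)*T - 8*S*T^(2:ℕ) - T^(3:ℕ) - 6*S^(2:ℕ) - 11*S*T - 3*T^(2:ℕ) - 4*S - 3*T - 1)) :
    S < (S + T + 1) * (((S^(2:ℕ)*T^(3:ℕ) - S^(3:ℕ)*T + S^(2:ℕ)*T^(2:ℕ) + 2*S*T^(3:ℕ) - S^(3:ℕ) - 4*S^(2:ℕ)*T - 3*S^(2:ℕ) - 5*S*T - T^(2:ℕ) - 3*S - 2*T - 1))/(T*(S + 1)*(S^(2:ℕ)*T^(2:ℕ) + 3*S^(2:ℕ)*T + 3*S*T^(2:ℕ) + S^(2:ℕ) + 5*S*T + T^(2:ℕ) + 2*S + 2*T + 1))) := rgt d34 d40 d34 (by ring)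

theorem F4_oC_2 (S T : ℝ) (g6 : 1 < (T + 1) * (((S*T + S + 2*T + 1))/((S*T + 2*S + 2*T + 2)))) (g22 : S < (S + T + 1) * (((S^(2:ℕ)*T^(3:ℕ) - S^(3:ℕ)*T + S^(2:ℕ)*T^(2:ℕ) + 2*S*T^(3:ℕ) - S^(3:ℕ) - 4*S^(2:ℕ)*T - 3*S^(2:ℕ) - 5*S*T - T^(2:ℕ) - 3*S - 2*T - 1))/(T*(S + 1)*(S^(2:ℕ)*T^(2:ℕ) + 3*S^(2:ℕ)*T + 3*S*T^(2:ℕ) + S^(2:ℕ) + 5*S*T + T^(2:ℕ) + 2*S + 2*T + 1)))) :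
    cond S T Letter.be (((S^(2:ℕ)*T^(3:ℕ) - S^(3:ℕ)*T + S^(2:ℕ)*T^(2:ℕ) + 2*S*T^(3:ℕ) - S^(3:ℕ) - 4*S^(2:ℕ)*T - 3*S^(2:ℕ) - 5*S*T - T^(2:ℕ) - 3*S - 2*T - 1))/(T*(S + 1)*(S^(2:ℕ)*T^(2:ℕ) + 3*S^(2:ℕ)*T + 3*S*T^(2:ℕ) + S^(2:ℕ) + 5*S*T + T^(2:ℕ) + 2*S + 2*T + 1)), ((S*T + S + 2*T + 1))/((S*T + 2*S + 2*T + 2))) := ⟨g22, g6⟩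

theorem F4_oC (S T : ℝ) (f27 : fl S T Letter.be (((S*T^(2:ℕ) + S*T + 2*T^(2:ℕ) - S + T - 1))/(T*(S*T + 2*S + 2*T + 2)), (S*T*(S*T + 2*S + 2*T + 2))/((S^(2:ℕ)*T^(2:ℕ) + 3*S^(2:ℕ)*T + 3*S*T^(2:ℕ) + S^(2:ℕ) + 5*S*T + T^(2:ℕ) + 2*S + 2*T + 1))) = (((S^(2:ℕ)*T^(3:ℕ) + 2*S^(2:ℕ)*T^(2:ℕ) + 2*S*T^(3:ℕ) - S^(2:ℕ)*T + S*T^(2:ℕ) - S^(2:ℕ) - 3*S*T - T^(2:ℕ) - 2*S - 2*T - 1))/(T*(S^(2:ℕ)*T^(2:ℕ) + 3*S^(2:ℕ)*T + 3*S*T^(2:ℕ) + S^(2:ℕ) + 5*S*T + T^(2:ℕ) + 2*S + 2*T + 1)), ((S + 1))/((S*T + 2*S + 2*T + 2)))) (f28 : fl S T Letter.al (((S^(2:ℕ)*T^(3:ℕ) + 2*S^(2:ℕ)*T^(2:ℕ) + 2*S*T^(3:ℕ) - S^(2:ℕ)*T + S*T^(2:ℕ) - S^(2:ℕ) - 3*S*T - T^(2:ℕ) - 2*S - 2*T -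 1))/(T*(S^(2:ℕ)*T^(2:ℕ) + 3*S^(2:ℕ)*T + 3*S*T^(2:ℕ) + S^(2:ℕ) + 5*S*T + T^(2:ℕ) + 2*S + 2*T + 1)), ((S + 1))/((S*T + 2*S + 2*T + 2))) = (((S^(2:ℕ)*T^(3:ℕ) - S^(3:ℕ)*T + S^(2:ℕ)*T^(2:ℕ) + 2*S*T^(3:ℕ) - S^(3:ℕ) - 4*S^(2:ℕ)*T - 3*S^(2:ℕ) - 5*S*T - T^(2:ℕ) - 3*S - 2*T - 1))/(T*(S + 1)*(S^(2:ℕ)*T^(2:ℕ) + 3*S^(2:ℕ)*T + 3*S*T^(2:ℕ) + S^(2:ℕ) + 5*S*T + T^(2:ℕ) + 2*S + 2*T + 1)), ((S*T + S + 2*T + 1))/((S*T + 2*S + 2*T + 2)))) (oC_0 : cond S T Letter.be (((S*T^(2:ℕ) + S*T + 2*T^(2:ℕ) - S + T - 1))/(T*(S*T + 2*S + 2*T + 2)), (S*T*(S*T + 2*S + 2*T + 2))/((S^(2:ℕ)*T^(2:ℕ) + 3*S^(2:ℕ)*T + 3*S*T^(2:ℕ) + S^(2:ℕ) + 5*S*T + T^(2:ℕ) + 2*S + 2*T + 1))))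 (oC_1 : cond S T Letter.al (((S^(2:ℕ)*T^(3:ℕ) + 2*S^(2:ℕ)*T^(2:ℕ) + 2*S*T^(3:ℕ) - S^(2:ℕ)*T + S*T^(2:ℕ) - S^(2:ℕ) - 3*S*T - T^(2:ℕ) - 2*S - 2*T - 1))/(T*(S^(2:ℕ)*T^(2:ℕ) + 3*S^(2:ℕ)*T + 3*S*T^(2:ℕ) + S^(2:ℕ) + 5*S*T + T^(2:ℕ) + 2*S + 2*T + 1)), ((S + 1))/((S*T + 2*S + 2*T + 2)))) (oC_2 : cond S T Letter.be (((S^(2:ℕ)*T^(3:ℕ) - S^(3:ℕ)*T + S^(2:ℕ)*T^(2:ℕ) + 2*S*T^(3:ℕ) - S^(3:ℕ) - 4*S^(2:ℕ)*T - 3*S^(2:ℕ) - 5*S*T - T^(2:ℕ) - 3*S - 2*T - 1))/(T*(S + 1)*(S^(2:ℕ)*T^(2:ℕ) + 3*S^(2:ℕ)*T + 3*S*T^(2:ℕ) + S^(2:ℕ) + 5*S*T + T^(2:ℕ) + 2*S + 2*T + 1)), ((S*T + S + 2*T + 1))/((S*T + 2*S + 2*T + 2)))) :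
    okc S T [Letter.be, Letter.al, Letter.be] (((S*T^(2:ℕ) + S*T + 2*T^(2:ℕ) - S + T - 1))/(T*(S*T + 2*S + 2*T + 2)), (S*T*(S*T + 2*S + 2*T + 2))/((S^(2:ℕ)*T^(2:ℕ) + 3*S^(2:ℕ)*T + 3*S*T^(2:ℕ) + S^(2:ℕ) + 5*S*T + T^(2:ℕ) + 2*S + 2*T + 1))) := (okc_cons' oC_0 f27 (okc_cons' oC_1 f28 (okc_last' oC_2)))

theorem F4_d41 (S T : ℝ) (pT : 0 < T) (c0 : 0 < S^(2:ℕ)*T^(2:ℕ) + 3*S^(2:ℕ)*T + 3*S*T^(2:ℕ) + S^(2:ℕ) + 5*S*T + T^(2:ℕ) + 2*S + 2*T + 1) (c1 : 0 < S*T + 2*S + 2*T + 2) :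
    0 < T*(S^(2:ℕ)*T^(2:ℕ) + 3*S^(2:ℕ)*T + 3*S*T^(2:ℕ) + S^(2:ℕ) + 5*S*T + T^(2:ℕ) + 2*S + 2*T + 1)*(S*T + 2*S + 2*T + 2) := (mul_pos (mul_pos pT c0) c1)

theorem F4_vP (S T : ℝ) (d0 : 0 < T*(S^(2:ℕ)*T^(2:ℕ) + 3*S^(2:ℕ)*T + 3*S*T^(2:ℕ) + S^(2:ℕ) + 5*S*T + T^(2:ℕ) + 2*S + 2*T + 1)) (d2 : 0 < T*(S*T + 2*S + 2*T + 2)) (d6 : 0 < (S + 1)^(2:ℕ)*(T + 1)^(2:ℕ)) (d41 : 0 < T*(S^(2:ℕ)*T^(2:ℕ) + 3*S^(2:ℕ)*T + 3*S*T^(2:ℕ) + S^(2:ℕ) + 5*S*T + T^(2:ℕ) + 2*S + 2*T + 1)*(S*T + 2*S + 2*T + 2)) :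
    ((((S^(2:ℕ)*T^(3:ℕ) + S^(2:ℕ)*T^(2:ℕ) + 3*S*T^(3:ℕ) - 2*S^(2:ℕ)*T + 2*S*T^(2:ℕ) + T^(3:ℕ) - S^(2:ℕ) - 3*S*T + T^(2:ℕ) - 2*S - T - 1))/(T*(S^(2:ℕ)*T^(2:ℕ) + 3*S^(2:ℕ)*T + 3*S*T^(2:ℕ) + S^(2:ℕ) + 5*S*T + T^(2:ℕ) + 2*S + 2*T + 1)), ((S + 1)^(2:ℕ)*(T + 1)^(2:ℕ))/((S^(2:ℕ)*T^(2:ℕ) + 3*S^(2:ℕ)*T + 3*S*T^(2:ℕ) + S^(2:ℕ) + 5*S*T + T^(2:ℕ) + 2*S + 2*T + 1))) : ℝ × ℝ) + ((-(S*T*(S + T + 1)))/((S + 1)^(2:ℕ)*(T + 1)^(2:ℕ))) • ((((S + 1)^(3:ℕ)*(T + 1)^(3:ℕ))/(T*(S^(2:ℕ)*T^(2:ℕ) + 3*S^(2:ℕ)*T + 3*S*T^(2:ℕ) + S^(2:ℕ) + 5*S*T + T^(2:ℕ) + 2*S + 2*T + 1)*(S*T + 2*S + 2*T + 2)), 0) : ℝ × ℝ) = (((S*T^(2:ℕ) + 2*T^(2:ℕ) - 2*S - 2))/(T*(S*T + 2*S + 2*T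 + 2)), ((S + 1)^(2:ℕ)*(T + 1)^(2:ℕ))/((S^(2:ℕ)*T^(2:ℕ) + 3*S^(2:ℕ)*T + 3*S*T^(2:ℕ) + S^(2:ℕ) + 5*S*T + T^(2:ℕ) + 2*S + 2*T + 1))) := vecX (radd d0 d6 d41 d2 (by ring))

theorem F4_vq (S T : ℝ) (d0 : 0 < T*(S^(2:ℕ)*T^(2:ℕ) + 3*S^(2:ℕ)*T + 3*S*T^(2:ℕ) + S^(2:ℕ) + 5*S*T + T^(2:ℕ) + 2*S + 2*T + 1)) (d2 : 0 < T*(S*T + 2*S + 2*T + 2)) (d41 : 0 < T*(S^(2:ℕ)*T^(2:ℕ) + 3*S^(2:ℕ)*T + 3*S*T^(2:ℕ) + S^(2:ℕ) + 5*S*T + T^(2:ℕ) + 2*S + 2*T + 1)*(S*T + 2*S + 2*T + 2)) :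
    ((((S^(2:ℕ)*T^(3:ℕ) + S^(2:ℕ)*T^(2:ℕ) + 3*S*T^(3:ℕ) - 2*S^(2:ℕ)*T + 2*S*T^(2:ℕ) + T^(3:ℕ) - S^(2:ℕ) - 3*S*T + T^(2:ℕ) - 2*S - T - 1))/(T*(S^(2:ℕ)*T^(2:ℕ) + 3*S^(2:ℕ)*T + 3*S*T^(2:ℕ) + S^(2:ℕ) + 5*S*T + T^(2:ℕ) + 2*S + 2*T + 1)), ((S + 1)^(2:ℕ)*(T + 1)^(2:ℕ))/((S^(2:ℕ)*T^(2:ℕ) + 3*S^(2:ℕ)*T + 3*S*T^(2:ℕ) + S^(2:ℕ) + 5*S*T + T^(2:ℕ) + 2*S + 2*T + 1))) : ℝ × ℝ) + ((((S + 1)^(3:ℕ)*(T + 1)^(3:ℕ))/(T*(S^(2:ℕ)*T^(2:ℕ) + 3*S^(2:ℕ)*T + 3*S*T^(2:ℕ) + S^(2:ℕ) + 5*S*T + T^(2:ℕ) + 2*S + 2*T + 1)*(S*T + 2*S + 2*T + 2)), 0) : ℝ × ℝ) = (((S*T^(2:ℕ) + S*T + 2*T^(2:ℕ) - S + T - 1))/(T*(S*T + 2*S + 2*T + 2)), ((S + 1)^(2:ℕ)*(T + 1)^(2:ℕ))/((S^(2:ℕ)*T^(2:ℕ)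 + 3*S^(2:ℕ)*T + 3*S*T^(2:ℕ) + S^(2:ℕ) + 5*S*T + T^(2:ℕ) + 2*S + 2*T + 1))) := vecX1 (radd1 d0 d41 d2 (by ring))

theorem F4_d42 (S T : ℝ) (c0 : 0 < S^(2:ℕ)*T^(2:ℕ) + 3*S^(2:ℕ)*T + 3*S*T^(2:ℕ) + S^(2:ℕ) + 5*S*T + T^(2:ℕ) + 2*S + 2*T + 1) (c1 : 0 < S*T + 2*S + 2*T + 2) :
    0 < (S^(2:ℕ)*T^(2:ℕ) + 3*S^(2:ℕ)*T + 3*S*T^(2:ℕ) + S^(2:ℕ) + 5*S*T + T^(2:ℕ) + 2*S + 2*T + 1)*(S*T + 2*S + 2*T + 2) := (mul_pos c0 c1)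

theorem F4_vr (S T : ℝ) (d1 : 0 < (S^(2:ℕ)*T^(2:ℕ) + 3*S^(2:ℕ)*T + 3*S*T^(2:ℕ) + S^(2:ℕ) + 5*S*T + T^(2:ℕ) + 2*S + 2*T + 1)) (d3 : 0 < (S*T + 2*S + 2*T + 2)) (d42 : 0 < (S^(2:ℕ)*T^(2:ℕ) + 3*S^(2:ℕ)*T + 3*S*T^(2:ℕ) + S^(2:ℕ) + 5*S*T + T^(2:ℕ) + 2*S + 2*T + 1)*(S*T + 2*S + 2*T + 2)) :
    ((((S*T^(2:ℕ) + S*T + 2*T^(2:ℕ) - S + T - 1))/(T*(S*T + 2*S + 2*T + 2)), ((S + 1)*(T + 1))/((S*T + 2*S + 2*T + 2))) : ℝ × ℝ) + ((0, ((S + 1)*(T + 1)*(S + T + 1)^(2:ℕ))/((S^(2:ℕ)*T^(2:ℕ) + 3*S^(2:ℕ)*T + 3*S*T^(2:ℕ) + S^(2:ℕ) + 5*S*T + T^(2:ℕ) + 2*S + 2*T + 1)*(S*T + 2*S + 2*T + 2))) : ℝ × ℝ) = (((S*T^(2:ℕ) + S*T + 2*T^(2:ℕ) - S + T - 1))/(T*(S*T + 2*S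 + 2*T + 2)), ((S + 1)^(2:ℕ)*(T + 1)^(2:ℕ))/((S^(2:ℕ)*T^(2:ℕ) + 3*S^(2:ℕ)*T + 3*S*T^(2:ℕ) + S^(2:ℕ) + 5*S*T + T^(2:ℕ) + 2*S + 2*T + 1))) := vecY1 (radd1 d3 d42 d1 (by ring))

theorem F4_vQ (S T : ℝ) (d0 : 0 < T*(S^(2:ℕ)*T^(2:ℕ) + 3*S^(2:ℕ)*T + 3*S*T^(2:ℕ) + S^(2:ℕ) + 5*S*T + T^(2:ℕ) + 2*S + 2*T + 1)) (d6 : 0 < (S + 1)^(2:ℕ)*(T + 1)^(2:ℕ)) (d20 : 0 < T*(S + 1)*(T + 1)*(S*T + 2*S + 2*T + 2)) (d41 : 0 < T*(S^(2:ℕ)*T^(2:ℕ) + 3*S^(2:ℕ)*T + 3*S*T^(2:ℕ) + S^(2:ℕ) + 5*S*T + T^(2:ℕ) + 2*S + 2*T + 1)*(S*T + 2*S + 2*T + 2)) :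
    ((((S^(2:ℕ)*T^(3:ℕ) + S^(2:ℕ)*T^(2:ℕ) + 3*S*T^(3:ℕ) - 2*S^(2:ℕ)*T + 2*S*T^(2:ℕ) + T^(3:ℕ) - S^(2:ℕ) - 3*S*T + T^(2:ℕ) - 2*S - T - 1))/(T*(S^(2:ℕ)*T^(2:ℕ) + 3*S^(2:ℕ)*T + 3*S*T^(2:ℕ) + S^(2:ℕ) + 5*S*T + T^(2:ℕ) + 2*S + 2*T + 1)), ((S + 1)^(2:ℕ)*(T + 1)^(2:ℕ))/((S^(2:ℕ)*T^(2:ℕ) + 3*S^(2:ℕ)*T + 3*S*T^(2:ℕ) + S^(2:ℕ) + 5*S*T + T^(2:ℕ) + 2*S + 2*T + 1))) : ℝ × ℝ) + (((-(S*T*(S + T + 1)))/((S + 1)^(2:ℕ)*(T + 1)^(2:ℕ)))^(2:ℕ)) • ((((S + 1)^(3:ℕ)*(T + 1)^(3:ℕ))/(T*(S^(2:ℕ)*T^(2:ℕ) + 3*S^(2:ℕ)*T + 3*S*T^(2:ℕ) + S^(2:ℕ) + 5*S*T + T^(2:ℕ) + 2*S + 2*T + 1)*(S*T + 2*S + 2*T + 2)), 0) : ℝ × ℝ) = (((S^(2:ℕ)*T^(3:ℕ) + S^(2:ℕ)*T^(2:ℕ) + 3*S*T^(3:ℕ)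 - S^(2:ℕ)*T + 4*S*T^(2:ℕ) + 2*T^(3:ℕ) - 2*S^(2:ℕ) - 3*S*T + 2*T^(2:ℕ) - 4*S - 2*T - 2))/(T*(S + 1)*(T + 1)*(S*T + 2*S + 2*T + 2)), ((S + 1)^(2:ℕ)*(T + 1)^(2:ℕ))/((S^(2:ℕ)*T^(2:ℕ) + 3*S^(2:ℕ)*T + 3*S*T^(2:ℕ) + S^(2:ℕ) + 5*S*T + T^(2:ℕ) + 2*S + 2*T + 1))) := vecX (radd2 d0 d6 d41 d20 (by ring))

theorem F4_vC (S T : ℝ) (d1 : 0 < (S^(2:ℕ)*T^(2:ℕ) + 3*S^(2:ℕ)*T + 3*S*T^(2:ℕ) + S^(2:ℕ) + 5*S*T + T^(2:ℕ) + 2*S + 2*T + 1)) (d3 : 0 < (S*T + 2*S + 2*T + 2)) (d32 : 0 < (S + 1)*(T + 1)) (d42 : 0 < (S^(2:ℕ)*T^(2:ℕ) + 3*S^(2:ℕ)*T + 3*S*T^(2:ℕ) + S^(2:ℕ) + 5*S*T + T^(2:ℕ) + 2*S + 2*T + 1)*(S*T + 2*S + 2*T + 2)) :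
    ((((S*T^(2:ℕ) + S*T + 2*T^(2:ℕ) - S + T - 1))/(T*(S*T + 2*S + 2*T + 2)), ((S + 1)*(T + 1))/((S*T + 2*S + 2*T + 2))) : ℝ × ℝ) + ((-((S + T + 1)))/((S + 1)*(T + 1))) • ((0, ((S + 1)*(T + 1)*(S + T + 1)^(2:ℕ))/((S^(2:ℕ)*T^(2:ℕ) + 3*S^(2:ℕ)*T + 3*S*T^(2:ℕ) + S^(2:ℕ) + 5*S*T + T^(2:ℕ) + 2*S + 2*T + 1)*(S*T + 2*S + 2*T + 2))) : ℝ × ℝ) = (((S*T^(2:ℕ) + S*T + 2*T^(2:ℕ) - S + T - 1))/(T*(S*T + 2*S + 2*T + 2)), (S*T*(S*T + 2*S + 2*T + 2))/((S^(2:ℕ)*T^(2:ℕ) + 3*S^(2:ℕ)*T + 3*S*T^(2:ℕ) + S^(2:ℕ) + 5*S*T + T^(2:ℕ) + 2*S + 2*T + 1))) := vecY (radd d3 d32 d42 d1 (by ring))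

theorem F4_nun (S T : ℝ) (d6 : 0 < (S + 1)^(2:ℕ)*(T + 1)^(2:ℕ)) (d7 : 0 < S*T*(S + T + 1)) :
    (-(S*T*(S + T + 1)))/((S + 1)^(2:ℕ)*(T + 1)^(2:ℕ)) < 0 := rneg d7 d6

theorem F4_d43 (S T : ℝ) (c22 : 0 < S^(2:ℕ)*T^(2:ℕ) + S^(2:ℕ)*T + S*T^(2:ℕ) + S^(2:ℕ) + 3*S*T + T^(2:ℕ) + 2*S + 2*T + 1) :
    0 < (S^(2:ℕ)*T^(2:ℕ) + S^(2:ℕ)*T + S*T^(2:ℕ) + S^(2:ℕ) + 3*S*T + T^(2:ℕ) + 2*S + 2*T + 1) := c22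

theorem F4_num (S T : ℝ) (d6 : 0 < (S + 1)^(2:ℕ)*(T + 1)^(2:ℕ)) (d43 : 0 < (S^(2:ℕ)*T^(2:ℕ) + S^(2:ℕ)*T + S*T^(2:ℕ) + S^(2:ℕ) + 3*S*T + T^(2:ℕ) + 2*S + 2*T + 1)) :
    -1 < (-(S*T*(S + T + 1)))/((S + 1)^(2:ℕ)*(T + 1)^(2:ℕ)) := rgtm d6 d43 d6 (by ring)

theorem F4_kan (S T : ℝ) (d18 : 0 < (S + T + 1)) (d32 : 0 < (S + 1)*(T + 1)) :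
    (-((S + T + 1)))/((S + 1)*(T + 1)) < 0 := rneg d18 d32

theorem F4_kam (S T : ℝ) (d11 : 0 < S*T) (d32 : 0 < (S + 1)*(T + 1)) :
    -1 < (-((S + T + 1)))/((S + 1)*(T + 1)) := rgtm d32 d11 d32 (by ring)

theorem F4_d44 (S T : ℝ) (pA : 0 < (S + 1)) (pB : 0 < (T + 1)) (pU : 0 < (S + T + 1)) :
    0 < (S + 1)*(T + 1)*(S + T + 1)^(2:ℕ) := (mul_pos (mul_pos pA pB) (pow_pos pU 2))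

theorem F4_hdB (S T : ℝ) (d42 : 0 < (S^(2:ℕ)*T^(2:ℕ) + 3*S^(2:ℕ)*T + 3*S*T^(2:ℕ) + S^(2:ℕ) + 5*S*T + T^(2:ℕ) + 2*S + 2*T + 1)*(S*T + 2*S + 2*T + 2)) (d44 : 0 < (S + 1)*(T + 1)*(S + T + 1)^(2:ℕ)) :
    ((0, ((S + 1)*(T + 1)*(S + T + 1)^(2:ℕ))/((S^(2:ℕ)*T^(2:ℕ) + 3*S^(2:ℕ)*T + 3*S*T^(2:ℕ) + S^(2:ℕ) + 5*S*T + T^(2:ℕ) + 2*S + 2*T + 1)*(S*T + 2*S + 2*T + 2))) : ℝ × ℝ) ≠ 0 := ne0Y (div_pos d44 d42).ne'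

theorem fam_F4 {S T : ℝ} (pS : 0 < S) (hR : 2*S^(3:ℕ) + 4*S^(2:ℕ) + 9*S + 2 ≤ 2*S*T) : HasConn S T := by
  have pT : 0 < T := by
    by_contra hT
    have : S * T ≤ 0 := mul_nonpos_of_nonneg_of_nonpos pS.le (not_lt.1 hT)
    have : 0 < 2*S^(3:ℕ) + 4*S^(2:ℕ) + 9*S + 2 := by positivity
    linarith
  have pA : 0 < (S + 1) := by linarith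
  have pB : 0 < (T + 1) := by linarith
  have pU : 0 < (S + T + 1) := by linarith
  have c0 : 0 < S^(2:ℕ)*T^(2:ℕ) + 3*S^(2:ℕ)*T + 3*S*T^(2:ℕ) + S^(2:ℕ) + 5*S*T + T^(2:ℕ) + 2*S + 2*T + 1 := by positivity
  have c1 : 0 < S*T + 2*S + 2*T + 2 := by positivity
  have c2 : 0 < S*T^(2:ℕ) + 2*T^(2:ℕ) - 2*S - 2 := F4_c2 pS hR
  have c3 : 0 < S*T^(2:ℕ) - 2*S^(2:ℕ) + 2*T^(2:ℕ) - 4*S - 2 := F4_c3 pS hR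
  have c4 : 0 < S^(2:ℕ)*T^(2:ℕ) + 2*S^(2:ℕ)*T + 2*S*T^(2:ℕ) + 3*S*T + T^(2:ℕ) + S + 2*T + 1 := by positivity
  have c5 : 0 < S*T^(2:ℕ) - S^(2:ℕ) + S*T + T^(2:ℕ) + 2*T + 1 := F4_c5 pS hR
  have c6 : 0 < -S^(3:ℕ)*T - S^(3:ℕ) + 2*S*T^(2:ℕ) - S^(2:ℕ) + 3*S*T + T^(2:ℕ) + S + 2*T + 1 := F4_c6 pS hR
  have c7 : 0 < S*T^(2:ℕ) + S*T + 2*T^(2:ℕ) - S + T - 1 := F4_c7 pS hR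
  have c8 : 0 < S*T^(2:ℕ) - S^(2:ℕ) + S*T + 2*T^(2:ℕ) - 2*S + T - 1 := F4_c8 pS hR
  have c9 : 0 < S^(2:ℕ)*T^(3:ℕ) + S^(2:ℕ)*T^(2:ℕ) + S*T^(3:ℕ) - 2*S^(2:ℕ)*T - S*T^(2:ℕ) - S^(2:ℕ) - 4*S*T - T^(2:ℕ) - 2*S - 2*T - 1 := F4_c9 pS hR
  have c10 : 0 < S*T^(3:ℕ) - 2*S^(2:ℕ)*T - S*T^(2:ℕ) - S^(2:ℕ) - 4*S*T - T^(2:ℕ) - 2*S - 2*T - 1 := F4_c10 pS hR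
  have c11 : 0 < -S^(3:ℕ)*T^(2:ℕ) - 2*S^(3:ℕ)*T - 2*S^(2:ℕ)*T^(2:ℕ) + S*T^(3:ℕ) - S^(3:ℕ) - 6*S^(2:ℕ)*T - 2*S*T^(2:ℕ) - 3*S^(2:ℕ) - 6*S*T - T^(2:ℕ) - 3*S - 2*T - 1 := F4_c11 pS hR
  have c12 : 0 < S^(2:ℕ)*T^(3:ℕ) + S^(2:ℕ)*T^(2:ℕ) + 3*S*T^(3:ℕ) - S^(2:ℕ)*T + 4*S*T^(2:ℕ) + 2*T^(3:ℕ) - 2*S^(2:ℕ) - 3*S*T + 2*T^(2:ℕ) - 4*S - 2*T - 2 := F4_c12 pS hR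
  have c13 : 0 < 2*S^(2:ℕ)*T^(2:ℕ) + 3*S^(2:ℕ)*T + 3*S*T^(2:ℕ) + 2*S^(2:ℕ) + 7*S*T + 2*T^(2:ℕ) + 4*S + 4*T + 2 := by positivity
  have c14 : 0 < S^(2:ℕ)*T^(4:ℕ) - 2*S^(3:ℕ)*T^(2:ℕ) + 2*S^(2:ℕ)*T^(3:ℕ) + 3*S*T^(4:ℕ) - 3*S^(3:ℕ)*T - 3*S^(2:ℕ)*T^(2:ℕ) + 7*S*T^(3:ℕ) + 2*T^(4:ℕ) - 2*S^(3:ℕ) - 10*S^(2:ℕ)*T - S*T^(2:ℕ) + 4*T^(3:ℕ) - 6*S^(2:ℕ) - 11*S*T - 6*S - 4*T - 2 := F4_c14 pS hR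
  have c15 : 0 < S^(2:ℕ)*T^(2:ℕ) + 2*S^(2:ℕ)*T + 2*S*T^(2:ℕ) + 2*S^(2:ℕ) + 6*S*T + 2*T^(2:ℕ) + 4*S + 4*T + 2 := by positivity
  have c16 : 0 < S + 2 := by positivity
  have c17 : 0 < S*T^(2:ℕ) - S^(2:ℕ) + 2*S*T + 2*T^(2:ℕ) + S + 4*T + 2 := F4_c17 pS hR
  have c18 : 0 < -S^(2:ℕ)*T - 2*S^(2:ℕ) - S*T + T^(2:ℕ) - S + 2*T + 1 := F4_c18 pS hR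
  have c19 : 0 < S^(2:ℕ)*T^(3:ℕ) + 2*S^(2:ℕ)*T^(2:ℕ) + 2*S*T^(3:ℕ) - S^(2:ℕ)*T + S*T^(2:ℕ) - S^(2:ℕ) - 3*S*T - T^(2:ℕ) - 2*S - 2*T - 1 := F4_c19 pS hR
  have c20 : 0 < S^(2:ℕ)*T^(3:ℕ) - S^(3:ℕ)*T + S^(2:ℕ)*T^(2:ℕ) + 2*S*T^(3:ℕ) - S^(3:ℕ) - 4*S^(2:ℕ)*T - 3*S^(2:ℕ) - 5*S*T - T^(2:ℕ) - 3*S - 2*T - 1 := F4_c20 pS hR
  have c21 : 0 < -S^(4:ℕ)*T^(3:ℕ) - 3*S^(4:ℕ)*T^(2:ℕ) - 3*S^(3:ℕ)*T^(3:ℕ) + S^(2:ℕ)*T^(4:ℕ) - 2*S^(4:ℕ)*T - 8*S^(3:ℕ)*T^(2:ℕ) + 2*S*T^(4:ℕ) - S^(4:ℕ) - 9*S^(3:ℕ)*T - 10*S^(2:ℕ)*T^(2:ℕ) + S*T^(3:ℕ) - 4*S^(3:ℕ) - 15*S^(2:ℕ)*T - 8*S*T^(2:ℕ) - T^(3:ℕ) - 6*S^(2:ℕ) - 11*S*T - 3*T^(2:ℕ) - 4*S - 3*T - 1 := F4_c21 pS hR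
  have c22 : 0 < S^(2:ℕ)*T^(2:ℕ) + S^(2:ℕ)*T + S*T^(2:ℕ) + S^(2:ℕ) + 3*S*T + T^(2:ℕ) + 2*S + 2*T + 1 := by positivity
  have d0 := F4_d0 S T pT c0
  have d1 := F4_d1 S T c0
  have f0 := F4_f0 S T pT d0 d1
  have f1 := F4_f1 S T pT d1
  have f2 := F4_f2 S T pS d1
  have f3 := F4_f3 S T pT d1
  have f4 := F4_f4 S T pT d0 d1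
  have f5 := F4_f5 S T pS pT d0 d1
  have f6 := F4_f6 S T pT d0 d1
  have rA := F4_rA S T f0 f1 f2 f3 f4 f5 f6
  have d2 := F4_d2 S T pT c1
  have d3 := F4_d3 S T c1
  have f7 := F4_f7 S T pT d1 d2 d3
  have f8 := F4_f8 S T pT d1 d3
  have f9 := F4_f9 S T pS d1 d3
  have f10 := F4_f10 S T pT d1 d2 d3
  have f11 := F4_f11 S T pT d0 d1 d2 d3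
  have f12 := F4_f12 S T pS pT d0 d3
  have f13 := F4_f13 S T pT d0 d1 d2 d3
  have rP := F4_rP S T f7 f8 f9 f10 f11 f12 f13
  have d4 := F4_d4 S T c2
  have q0 := F4_q0 S T d2 d4
  have d5 := F4_d5 S T pA pB
  have q1 := F4_q1 S T d2 d5
  have d6 := F4_d6 S T pA pB
  have q2 := F4_q2 S T d1 d6
  have d7 := F4_d7 S T pS pT pU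
  have q3 := F4_q3 S T d1 d7
  have sP := F4_sP S T q0 q1 q2 q3
  have d8 := F4_d8 S T pB c3
  have g0 := F4_g0 S T d2 d8
  have d9 := F4_d9 S T pT c4
  have g1 := F4_g1 S T d1 d9
  have oP_0 := F4_oP_0 S T g0 g1
  have d10 := F4_d10 S T pA pB c5
  have g2 := F4_g2 S T d1 d10
  have d11 := F4_d11 S T pS pT
  have g3 := F4_g3 S T d3 d11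
  have oP_1 := F4_oP_1 S T g2 g3
  have d12 := F4_d12 S T pS pA pB
  have g4 := F4_g4 S T d3 d12
  have oP_2 := F4_oP_2 S T g4
  have d13 := F4_d13 S T pB c6
  have g5 := F4_g5 S T d1 d13
  have d14 := F4_d14 S T c7
  have g6 := F4_g6 S T d3 d14
  have oP_3 := F4_oP_3 S T g5 g6
  have d15 := F4_d15 S T pB c8
  have g7 := F4_g7 S T d2 d15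
  have d16 := F4_d16 S T c9
  have g8 := F4_g8 S T d1 d16
  have oP_4 := F4_oP_4 S T g7 g8
  have d17 := F4_d17 S T pA pB c10
  have g9 := F4_g9 S T d0 d17
  have d18 := F4_d18 S T pU
  have g10 := F4_g10 S T d3 d18
  have oP_5 := F4_oP_5 S T g9 g10
  have d19 := F4_d19 S T pB c11
  have g11 := F4_g11 S T d0 d19
  have oP_6 := F4_oP_6 S T g6 g11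
  have oP := F4_oP S T f7 f8 f9 f10 f11 f12 oP_0 oP_1 oP_2 oP_3 oP_4 oP_5 oP_6
  have d20 := F4_d20 S T pT pA pB c1
  have d21 := F4_d21 S T pA pB c1
  have f14 := F4_f14 S T pT d1 d20 d21
  have d22 := F4_d22 S T pA pB c1
  have f15 := F4_f15 S T pT d1 d21 d22
  have d23 := F4_d23 S T pB c1
  have f16 := F4_f16 S T pS d1 d22 d23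
  have f17 := F4_f17 S T pT d1 d3 d23
  have f18 := F4_f18 S T pT d0 d1 d3 d23
  have f19 := F4_f19 S T pS pT d0 d3 d23
  have f20 := F4_f20 S T pT d0 d1 d2 d3
  have d24 := F4_d24 S T c12
  have q4 := F4_q4 S T d20 d24
  have d25 := F4_d25 S T c13
  have q5 := F4_q5 S T d20 d25
  have sQ := F4_sQ S T q2 q3 q4 q5
  have d26 := F4_d26 S T c14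
  have g12 := F4_g12 S T d20 d26
  have oQ_0 := F4_oQ_0 S T g1 g12
  have d27 := F4_d27 S T pS pT
  have g13 := F4_g13 S T d21 d22 d27
  have oQ_1 := F4_oQ_1 S T g2 g13
  have d28 := F4_d28 S T pS c15
  have g14 := F4_g14 S T d22 d28
  have oQ_2 := F4_oQ_2 S T g14
  have d29 := F4_d29 S T pT pB c16
  have g15 := F4_g15 S T d3 d23 d29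
  have oQ_3 := F4_oQ_3 S T g5 g15
  have d30 := F4_d30 S T c17
  have g16 := F4_g16 S T d3 d30
  have oQ_4 := F4_oQ_4 S T g8 g16
  have d31 := F4_d31 S T pU
  have g17 := F4_g17 S T d3 d23 d31
  have oQ_5 := F4_oQ_5 S T g9 g17
  have g18 := F4_g18 S T d3 d4
  have oQ_6 := F4_oQ_6 S T g11 g18
  have oQ := F4_oQ S T f14 f15 f16 f17 f18 f19 oQ_0 oQ_1 oQ_2 oQ_3 oQ_4 oQ_5 oQ_6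
  have rE := F4_rE S T 
  have q6 := F4_q6 S T d2 d14
  have d32 := F4_d32 S T pA pB
  have q7 := F4_q7 S T d2 d32
  have sq := F4_sq S T q2 q3 q6 q7
  have oE := F4_oE S T 
  have f21 := F4_f21 S T pT d2 d3
  have f22 := F4_f22 S T pS pT d2 d3
  have f23 := F4_f23 S T pT d2 d3
  have rB := F4_rB S T f21 f22 f23
  have f24 := F4_f24 S T pT d1 d2 d3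
  have f25 := F4_f25 S T pS pT d1 d3
  have f26 := F4_f26 S T pT d1 d2 d3
  have rr := F4_rr S T f24 f25 f26
  have sr := F4_sr S T q2 q3 q6 q7
  have orr_0 := F4_orr_0 S T g1 g7
  have orr_1 := F4_orr_1 S T g2 g10
  have d33 := F4_d33 S T pA pB c18
  have g19 := F4_g19 S T d1 d33
  have orr_2 := F4_orr_2 S T g6 g19
  have orr := F4_orr S T f24 f25 orr_0 orr_1 orr_2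
  have f27 := F4_f27 S T pT d0 d1 d2 d3
  have d34 := F4_d34 S T pT pA c0
  have f28 := F4_f28 S T pS pT d0 d3 d34
  have d35 := F4_d35 S T pA pB c0
  have f29 := F4_f29 S T pT d2 d3 d34 d35
  have d36 := F4_d36 S T pS pT c1
  have q8 := F4_q8 S T d1 d36
  have d37 := F4_d37 S T pA pB pU
  have q9 := F4_q9 S T d1 d37
  have sC := F4_sC S T q6 q7 q8 q9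
  have d38 := F4_d38 S T c19
  have g20 := F4_g20 S T d1 d38
  have oC_0 := F4_oC_0 S T g7 g20
  have d39 := F4_d39 S T pB c20
  have g21 := F4_g21 S T d0 d39
  have oC_1 := F4_oC_1 S T g10 g21
  have d40 := F4_d40 S T c21
  have g22 := F4_g22 S T d34 d40
  have oC_2 := F4_oC_2 S T g6 g22
  have oC := F4_oC S T f27 f28 oC_0 oC_1 oC_2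
  have d41 := F4_d41 S T pT c0 c1
  have vP := F4_vP S T d0 d2 d6 d41
  have vq := F4_vq S T d0 d2 d41
  have d42 := F4_d42 S T c0 c1
  have vr := F4_vr S T d1 d3 d42
  have vQ := F4_vQ S T d0 d6 d20 d41
  have vC := F4_vC S T d1 d3 d32 d42
  have nun := F4_nun S T d6 d7
  have d43 := F4_d43 S T c22
  have num := F4_num S T d6 d43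
  have kan := F4_kan S T d18 d32
  have kam := F4_kam S T d11 d32
  have d44 := F4_d44 S T pA pB pU
  have hdB := F4_hdB S T d42 d44
  refine conn_fin pS pT (by simp) (by simp) (P := (((S*T^(2:ℕ) + 2*T^(2:ℕ) - 2*S - 2))/(T*(S*T + 2*S + 2*T + 2)), ((S + 1)^(2:ℕ)*(T + 1)^(2:ℕ))/((S^(2:ℕ)*T^(2:ℕ) + 3*S^(2:ℕ)*T + 3*S*T^(2:ℕ) + S^(2:ℕ) + 5*S*T + T^(2:ℕ) + 2*S + 2*T + 1)))) (q := (((S*T^(2:ℕ) + S*T + 2*T^(2:ℕ) - S + T - 1))/(T*(S*T + 2*S + 2*T + 2)), ((S + 1)^(2:ℕ)*(T + 1)^(2:ℕ))/((S^(2:ℕ)*T^(2:ℕ) + 3*S^(2:ℕ)*T + 3*S*T^(2:ℕ) + S^(2:ℕ) + 5*S*T + T^(2:ℕ) + 2*S + 2*T + 1)))) (r := (((S*T^(2:ℕ) + S*T + 2*T^(2:ℕ) - S + T - 1))/(T*(S*T + 2*S +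 2*T + 2)), ((S + 1)^(2:ℕ)*(T + 1)^(2:ℕ))/((S^(2:ℕ)*T^(2:ℕ) + 3*S^(2:ℕ)*T + 3*S*T^(2:ℕ) + S^(2:ℕ) + 5*S*T + T^(2:ℕ) + 2*S + 2*T + 1)))) (C := (((S*T^(2:ℕ) + S*T + 2*T^(2:ℕ) - S + T - 1))/(T*(S*T + 2*S + 2*T + 2)), (S*T*(S*T + 2*S + 2*T + 2))/((S^(2:ℕ)*T^(2:ℕ) + 3*S^(2:ℕ)*T + 3*S*T^(2:ℕ) + S^(2:ℕ) + 5*S*T + T^(2:ℕ) + 2*S + 2*T + 1))))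
    (ν := (-(S*T*(S + T + 1)))/((S + 1)^(2:ℕ)*(T + 1)^(2:ℕ))) (κ := (-((S + T + 1)))/((S + 1)*(T + 1))) ?_ ?_ ?_ hdB vP vq vr vC rA rP rB rr rE ?_ sq oE ?_
  · exact nun.ne
  · exact kan.ne
  · exact abs_lt.2 ⟨kam, kan.trans one_pos⟩
  · exact okA_neg pS pT nun num vP vQ sP sQ oP oQ
  · exact okB_neg pS pT kan kam vr vC sr sC orr oC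

end SympB.Quad
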