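import Pool.Agent.W_93b186_h44.FamTools

/-! Machine generated: the connection bagbbgb |  | bbgbbag. -/

namespace SympB.Quad

open Letter

set_option maxRecDepth 20000

theorem F5_c2 {S T : ℝ} (h4 : 4 ≤ S) (hL : S^(2:ℕ) ≤ T) : 0 < S^(3:ℕ)*T^(3:ℕ) - 2*S^(3:ℕ)*T - 4*S^(2:ℕ)*T^(2:ℕ) - 2*S*T^(3:ℕ) - 2*S^(3:ℕ) - 10*S^(2:ℕ)*T - 10*S*T^(2:ℕ) - 2*T^(3:ℕ) - 6*S^(2:ℕ) - 14*S*T - 6*T^(2:ℕ) - 6*S - 6*T - 2 := by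
  obtain ⟨x, hx, rfl⟩ : ∃ x : ℝ, 0 ≤ x ∧ S = x + 4 := ⟨S - 4, by linarith, by ring⟩
  obtain ⟨y, hy, rfl⟩ : ∃ y : ℝ, 0 ≤ y ∧ T = (x + 4)^(2:ℕ) + y := ⟨T - ((x + 4)^(2:ℕ)), by linarith, by ring⟩
  have h : 0 < x^(9:ℕ) + 36*x^(8:ℕ) + 3*x^(7:ℕ)*y + 574*x^(7:ℕ) + 84*x^(6:ℕ)*y + 5314*x^(6:ℕ) + 3*x^(5:ℕ)*y^(2:ℕ) + 1002*x^(5:ℕ)*y + 31428*x^(5:ℕ) + 60*x^(4:ℕ)*y^(2:ℕ) + 6586*x^(4:ℕ)*y + 122848*x^(4:ℕ) + x^(3:ℕ)*y^(3:ℕ) + 474*x^(3:ℕ)*y^(2:ℕ) + 25674*x^(3:ℕ)*y + 316272*x^(3:ℕ) + 12*x^(2:ℕ)*y^(3:ℕ) + 1838*x^(2:ℕ)*y^(2:ℕ) + 59042*x^(2:ℕ)*y + 514356*x^(2:ℕ) + 46*x*y^(3:ℕ) + 3462*x*y^(2:ℕ) + 73506*x*y + 475290*x + 54*y^(3:ℕ) + 2482*y^(2:ℕ) + 37602*y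 + 187174 := by positivity
  refine pos_aux1 (m := 1) (by norm_num) (lt_of_lt_of_eq h ?_)
  ring

theorem F5_c5 {S T : ℝ} (h4 : 4 ≤ S) (hL : S^(2:ℕ) ≤ T) : 0 < S^(3:ℕ)*T^(5:ℕ) - S^(4:ℕ)*T^(3:ℕ) + 3*S^(3:ℕ)*T^(4:ℕ) + 3*S^(2:ℕ)*T^(5:ℕ) + 4*S^(3:ℕ)*T^(3:ℕ) + 10*S^(2:ℕ)*T^(4:ℕ) + 2*S*T^(5:ℕ) + 2*S^(4:ℕ)*T + 8*S^(3:ℕ)*T^(2:ℕ) + 17*S^(2:ℕ)*T^(3:ℕ) + 8*S*T^(4:ℕ) + 2*S^(4:ℕ) + 14*S^(3:ℕ)*T + 28*S^(2:ℕ)*T^(2:ℕ) + 20*S*T^(3:ℕ) + 2*T^(4:ℕ) + 8*S^(3:ℕ) + 30*S^(2:ℕ)*T + 32*S*T^(2:ℕ) + 8*T^(3:ℕ) + 12*S^(2:ℕ) + 26*S*T + 12*T^(2:ℕ) + 8*S + 8*T + 2 := by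
  obtain ⟨x, hx, rfl⟩ : ∃ x : ℝ, 0 ≤ x ∧ S = x + 4 := ⟨S - 4, by linarith, by ring⟩
  obtain ⟨y, hy, rfl⟩ : ∃ y : ℝ, 0 ≤ y ∧ T = (x + 4)^(2:ℕ) + y := ⟨T - ((x + 4)^(2:ℕ)), by linarith, by ring⟩
  have h : 0 < x^(13:ℕ) + 55*x^(12:ℕ) + 5*x^(11:ℕ)*y + 1397*x^(11:ℕ) + 235*x^(10:ℕ)*y + 21701*x^(10:ℕ) + 10*x^(9:ℕ)*y^(2:ℕ) + 5022*x^(9:ℕ)*y + 230052*x^(9:ℕ) + 390*x^(8:ℕ)*y^(2:ℕ) + 64429*x^(8:ℕ)*y + 1757779*x^(8:ℕ) + 10*x^(7:ℕ)*y^(3:ℕ) + 6758*x^(7:ℕ)*y^(2:ℕ) + 551500*x^(7:ℕ)*y + 9960828*x^(7:ℕ) + 310*x^(6:ℕ)*y^(3:ℕ) + 68321*x^(6:ℕ)*y^(2:ℕ) + 3307979*x^(6:ℕ)*y + 42392182*x^(6:ℕ) + 5*x^(5:ℕ)*y^(4:ℕ) + 4112*x^(5:ℕ)*y^(3:ℕ) + 444276*x^(5:ℕ)*y^(2:ℕ)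 + 14190996*x^(5:ℕ)*y + 135522942*x^(5:ℕ) + 115*x^(4:ℕ)*y^(4:ℕ) + 30279*x^(4:ℕ)*y^(3:ℕ) + 1927903*x^(4:ℕ)*y^(2:ℕ) + 43551890*x^(4:ℕ)*y + 321490532*x^(4:ℕ) + x^(3:ℕ)*y^(5:ℕ) + 1053*x^(3:ℕ)*y^(4:ℕ) + 133780*x^(3:ℕ)*y^(3:ℕ) + 5585076*x^(3:ℕ)*y^(2:ℕ) + 93732846*x^(3:ℕ)*y + 550195618*x^(3:ℕ) + 15*x^(2:ℕ)*y^(5:ℕ) + 4806*x^(2:ℕ)*y^(4:ℕ) + 354921*x^(2:ℕ)*y^(3:ℕ) + 10420228*x^(2:ℕ)*y^(2:ℕ) + 134776222*x^(2:ℕ)*y + 643444524*x^(2:ℕ) + 74*x*y^(5:ℕ) + 10952*x*y^(4:ℕ) + 523932*x*y^(3:ℕ) + 11366784*x*y^(2:ℕ) + 116565610*x*y + 461039880*x + 120*y^(5:ℕ) + 9986*y^(4:ℕ) + 332264*y^(3:ℕ) + 5526476*y^(2:ℕ) + 45959504*y + 152915426 := by positivity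
  refine pos_aux1 (m := 1) (by norm_num) (lt_of_lt_of_eq h ?_)
  ring

theorem F5_c6 {S T : ℝ} (h4 : 4 ≤ S) (hL : S^(2:ℕ) ≤ T) : 0 < S*T^(2:ℕ) + S*T - S - T - 1 := by
  obtain ⟨x, hx, rfl⟩ : ∃ x : ℝ, 0 ≤ x ∧ S = x + 4 := ⟨S - 4, by linarith, by ring⟩
  obtain ⟨y, hy, rfl⟩ : ∃ y : ℝ, 0 ≤ y ∧ T = (x + 4)^(2:ℕ) + y := ⟨T - ((x + 4)^(2:ℕ)), by linarith, by ring⟩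
  have h : 0 < x^(5:ℕ) + 20*x^(4:ℕ) + 2*x^(3:ℕ)*y + 161*x^(3:ℕ) + 24*x^(2:ℕ)*y + 651*x^(2:ℕ) + x*y^(2:ℕ) + 97*x*y + 1319*x + 4*y^(2:ℕ) + 131*y + 1067 := by positivity
  refine pos_aux1 (m := 1) (by norm_num) (lt_of_lt_of_eq h ?_)
  ring

theorem F5_c7 {S T : ℝ} (h4 : 4 ≤ S) (hL : S^(2:ℕ) ≤ T) : 0 < S*T^(2:ℕ) - S^(2:ℕ) - S*T - 2*S - T - 1 := by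
  obtain ⟨x, hx, rfl⟩ : ∃ x : ℝ, 0 ≤ x ∧ S = x + 4 := ⟨S - 4, by linarith, by ring⟩
  obtain ⟨y, hy, rfl⟩ : ∃ y : ℝ, 0 ≤ y ∧ T = (x + 4)^(2:ℕ) + y := ⟨T - ((x + 4)^(2:ℕ)), by linarith, by ring⟩
  have h : 0 < x^(5:ℕ) + 20*x^(4:ℕ) + 2*x^(3:ℕ)*y + 159*x^(3:ℕ) + 24*x^(2:ℕ)*y + 626*x^(2:ℕ) + x*y^(2:ℕ) + 95*x*y + 1214*x + 4*y^(2:ℕ) + 123*y + 919 := by positivity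
  refine pos_aux1 (m := 1) (by norm_num) (lt_of_lt_of_eq h ?_)
  ring

theorem F5_c9 {S T : ℝ} (h4 : 4 ≤ S) (hL : S^(2:ℕ) ≤ T) (hU : T ≤ 2*S + S^(2:ℕ)) : 0 < S^(3:ℕ)*T^(2:ℕ) + 2*S^(3:ℕ)*T + 2*S^(2:ℕ)*T^(2:ℕ) - S*T^(3:ℕ) + S^(3:ℕ) + 6*S^(2:ℕ)*T + 2*S*T^(2:ℕ) + 3*S^(2:ℕ) + 6*S*T + T^(2:ℕ) + 3*S + 2*T + 1 := by
  obtain ⟨x, hx, rfl⟩ : ∃ x : ℝ, 0 ≤ x ∧ S = x + 4 := ⟨S - 4, by linarith, by ring⟩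
  obtain ⟨y, hy, rfl⟩ : ∃ y : ℝ, 0 < y ∧ T = y + (-1/4 + (x + 4)^(2:ℕ)) := ⟨T - (-1/4 + (x + 4)^(2:ℕ)), by linarith, by ring⟩
  obtain ⟨z, hz, hz2⟩ : ∃ z : ℝ, 0 < z ∧ z = (1/2 + 2*(x + 4)) - y := ⟨_, by linarith, rfl⟩
  have hw : 0 < 1/2 + 2*(x + 4) := by linarith
  have h : 0 < 128*x^(6:ℕ)*y^(2:ℕ)*z + 256*x^(6:ℕ)*y*z^(2:ℕ) + 128*x^(6:ℕ)*z^(3:ℕ) + 240*x^(5:ℕ)*y^(3:ℕ) + 4336*x^(5:ℕ)*y^(2:ℕ)*z + 7440*x^(5:ℕ)*y*z^(2:ℕ) + 3344*x^(5:ℕ)*z^(3:ℕ) + 5952*x^(4:ℕ)*y^(3:ℕ) + 59456*x^(4:ℕ)*y^(2:ℕ)*z + 89536*x^(4:ℕ)*y*z^(2:ℕ) + 36544*x^(4:ℕ)*z^(3:ℕ) + 58840*x^(3:ℕ)*y^(3:ℕ) + 425576*x^(3:ℕ)*y^(2:ℕ)*z + 572008*x^(3:ℕ)*y*z^(2:ℕ) + 213848*x^(3:ℕ)*z^(3:ℕ)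 + 289872*x^(2:ℕ)*y^(3:ℕ) + 1685576*x^(2:ℕ)*y^(2:ℕ)*z + 2048640*x^(2:ℕ)*y*z^(2:ℕ) + 706792*x^(2:ℕ)*z^(3:ℕ) + 711783*x*y^(3:ℕ) + 3515227*x*y^(2:ℕ)*z + 3904277*x*y*z^(2:ℕ) + 1251113*x*z^(3:ℕ) + 697088*y^(3:ℕ) + 3023816*y^(2:ℕ)*z + 3096304*y*z^(2:ℕ) + 926792*z^(3:ℕ) := by positivity
  refine pos_aux (m := 64) (w := (1/2 + 2*(x + 4))^(3:ℕ)) (by norm_num) (pow_pos hw 3) (lt_of_lt_of_eq h ?_)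
  rw [hz2]; ring

theorem F5_c10 {S T : ℝ} (h4 : 4 ≤ S) (hL : S^(2:ℕ) ≤ T) : 0 < S^(2:ℕ)*T^(4:ℕ) - 3*S^(3:ℕ)*T^(2:ℕ) + S^(2:ℕ)*T^(3:ℕ) + 3*S*T^(4:ℕ) - 4*S^(3:ℕ)*T - 6*S^(2:ℕ)*T^(2:ℕ) + 6*S*T^(3:ℕ) + 2*T^(4:ℕ) - 2*S^(3:ℕ) - 12*S^(2:ℕ)*T - 3*S*T^(2:ℕ) + 4*T^(3:ℕ) - 6*S^(2:ℕ) - 12*S*T - 6*S - 4*T - 2 := by
  obtain ⟨x, hx, rfl⟩ : ∃ x : ℝ, 0 ≤ x ∧ S = x + 4 := ⟨S - 4, by linarith, by ring⟩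
  obtain ⟨y, hy, rfl⟩ : ∃ y : ℝ, 0 ≤ y ∧ T = (x + 4)^(2:ℕ) + y := ⟨T - ((x + 4)^(2:ℕ)), by linarith, by ring⟩
  have h : 0 < x^(10:ℕ) + 43*x^(9:ℕ) + 4*x^(8:ℕ)*y + 831*x^(8:ℕ) + 140*x^(7:ℕ)*y + 9507*x^(7:ℕ) + 6*x^(6:ℕ)*y^(2:ℕ) + 2139*x^(6:ℕ)*y + 71314*x^(6:ℕ) + 162*x^(5:ℕ)*y^(2:ℕ) + 18644*x^(5:ℕ)*y + 366521*x^(5:ℕ) + 4*x^(4:ℕ)*y^(3:ℕ) + 1815*x^(4:ℕ)*y^(2:ℕ) + 101440*x^(4:ℕ)*y + 1307080*x^(4:ℕ) + 76*x^(3:ℕ)*y^(3:ℕ) + 10815*x^(3:ℕ)*y^(2:ℕ) + 352886*x^(3:ℕ)*y + 3193298*x^(3:ℕ) + x^(2:ℕ)*y^(4:ℕ) + 537*x^(2:ℕ)*y^(3:ℕ) + 36186*x^(2:ℕ)*y^(2:ℕ) + 766588*x^(2:ℕ)*y + 5113678*x^(2:ℕ) + 11*x*y^(4:ℕ) + 1678*x*y^(3:ℕ) + 64509*x*y^(2:ℕ) + 950708*x*y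 + 4845066*x + 30*y^(4:ℕ) + 1964*y^(3:ℕ) + 47892*y^(2:ℕ) + 515212*y + 2061254 := by positivity
  refine pos_aux1 (m := 1) (by norm_num) (lt_of_lt_of_eq h ?_)
  ring

theorem F5_c15 {S T : ℝ} (h4 : 4 ≤ S) (hL : S^(2:ℕ) ≤ T) : 0 < -S^(2:ℕ)*T - S^(2:ℕ) + 2*T^(2:ℕ) - 2*S + T - 1 := by
  obtain ⟨x, hx, rfl⟩ : ∃ x : ℝ, 0 ≤ x ∧ S = x + 4 := ⟨S - 4, by linarith, by ring⟩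
  obtain ⟨y, hy, rfl⟩ : ∃ y : ℝ, 0 ≤ y ∧ T = (x + 4)^(2:ℕ) + y := ⟨T - ((x + 4)^(2:ℕ)), by linarith, by ring⟩
  have h : 0 < x^(4:ℕ) + 16*x^(3:ℕ) + 3*x^(2:ℕ)*y + 96*x^(2:ℕ) + 24*x*y + 254*x + 2*y^(2:ℕ) + 49*y + 247 := by positivity
  refine pos_aux1 (m := 1) (by norm_num) (lt_of_lt_of_eq h ?_)
  ring

theorem F5_c16 {S T : ℝ} (h4 : 4 ≤ S) (hL : S^(2:ℕ) ≤ T) : 0 < S*T - S + 2*T - 1 := by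
  obtain ⟨x, hx, rfl⟩ : ∃ x : ℝ, 0 ≤ x ∧ S = x + 4 := ⟨S - 4, by linarith, by ring⟩
  obtain ⟨y, hy, rfl⟩ : ∃ y : ℝ, 0 ≤ y ∧ T = (x + 4)^(2:ℕ) + y := ⟨T - ((x + 4)^(2:ℕ)), by linarith, by ring⟩
  have h : 0 < x^(3:ℕ) + 14*x^(2:ℕ) + x*y + 63*x + 6*y + 91 := by positivity
  refine pos_aux1 (m := 1) (by norm_num) (lt_of_lt_of_eq h ?_)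
  ring

theorem F5_c18 {S T : ℝ} (h4 : 4 ≤ S) (hL : S^(2:ℕ) ≤ T) : 0 < S^(3:ℕ)*T^(3:ℕ) + 2*S^(3:ℕ)*T^(2:ℕ) + 2*S^(2:ℕ)*T^(3:ℕ) + S^(3:ℕ)*T + 4*S^(2:ℕ)*T^(2:ℕ) + S*T^(3:ℕ) - S^(3:ℕ) - S^(2:ℕ)*T - S*T^(2:ℕ) - T^(3:ℕ) - 3*S^(2:ℕ) - 5*S*T - 3*T^(2:ℕ) - 3*S - 3*T - 1 := by
  obtain ⟨x, hx, rfl⟩ : ∃ x : ℝ, 0 ≤ x ∧ S = x + 4 := ⟨S - 4, by linarith, by ring⟩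
  obtain ⟨y, hy, rfl⟩ : ∃ y : ℝ, 0 ≤ y ∧ T = (x + 4)^(2:ℕ) + y := ⟨T - ((x + 4)^(2:ℕ)), by linarith, by ring⟩
  have h : 0 < x^(9:ℕ) + 38*x^(8:ℕ) + 3*x^(7:ℕ)*y + 643*x^(7:ℕ) + 90*x^(6:ℕ)*y + 6359*x^(6:ℕ) + 3*x^(5:ℕ)*y^(2:ℕ) + 1159*x^(5:ℕ)*y + 40504*x^(5:ℕ) + 66*x^(4:ℕ)*y^(2:ℕ) + 8305*x^(4:ℕ)*y + 172300*x^(4:ℕ) + x^(3:ℕ)*y^(3:ℕ) + 581*x^(3:ℕ)*y^(2:ℕ) + 35759*x^(3:ℕ)*y + 489402*x^(3:ℕ) + 14*x^(2:ℕ)*y^(3:ℕ) + 2557*x^(2:ℕ)*y^(2:ℕ) + 92493*x^(2:ℕ)*y + 894770*x^(2:ℕ) + 65*x*y^(3:ℕ) + 5623*x*y^(2:ℕ) + 133011*x*y + 955053*x + 99*y^(3:ℕ) + 4937*y^(2:ℕ) + 81977*y + 453139 := by positivity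
  refine pos_aux1 (m := 1) (by norm_num) (lt_of_lt_of_eq h ?_)
  ring

theorem F5_c19 {S T : ℝ} (h4 : 4 ≤ S) (hL : S^(2:ℕ) ≤ T) : 0 < S^(3:ℕ)*T^(5:ℕ) - S^(4:ℕ)*T^(3:ℕ) + 4*S^(3:ℕ)*T^(4:ℕ) + 4*S^(2:ℕ)*T^(5:ℕ) - 2*S^(4:ℕ)*T^(2:ℕ) + 4*S^(3:ℕ)*T^(3:ℕ) + 16*S^(2:ℕ)*T^(4:ℕ) + 5*S*T^(5:ℕ) - S^(4:ℕ)*T + 23*S^(2:ℕ)*T^(3:ℕ) + 20*S*T^(4:ℕ) + 2*T^(5:ℕ) + S^(4:ℕ) + 3*S^(3:ℕ)*T + 20*S^(2:ℕ)*T^(2:ℕ) + 34*S*T^(3:ℕ) + 9*T^(4:ℕ) + 4*S^(3:ℕ) + 15*S^(2:ℕ)*T + 32*S*T^(2:ℕ) + 16*T^(3:ℕ) + 6*S^(2:ℕ) + 17*S*T + 14*T^(2:ℕ) + 4*S + 6*T + 1 := by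
  obtain ⟨x, hx, rfl⟩ : ∃ x : ℝ, 0 ≤ x ∧ S = x + 4 := ⟨S - 4, by linarith, by ring⟩
  obtain ⟨y, hy, rfl⟩ : ∃ y : ℝ, 0 ≤ y ∧ T = (x + 4)^(2:ℕ) + y := ⟨T - ((x + 4)^(2:ℕ)), by linarith, by ring⟩
  have h : 0 < x^(13:ℕ) + 56*x^(12:ℕ) + 5*x^(11:ℕ)*y + 1449*x^(11:ℕ) + 240*x^(10:ℕ)*y + 22941*x^(10:ℕ) + 10*x^(9:ℕ)*y^(2:ℕ) + 5241*x^(9:ℕ)*y + 247984*x^(9:ℕ) + 400*x^(8:ℕ)*y^(2:ℕ) + 68747*x^(8:ℕ)*y + 1932942*x^(8:ℕ) + 10*x^(7:ℕ)*y^(3:ℕ) + 7114*x^(7:ℕ)*y^(2:ℕ) + 601980*x^(7:ℕ)*y + 11178466*x^(7:ℕ) + 320*x^(6:ℕ)*y^(3:ℕ) + 73865*x^(6:ℕ)*y^(2:ℕ) + 3695541*x^(6:ℕ)*y + 48568923*x^(6:ℕ) + 5*x^(5:ℕ)*y^(4:ℕ) + 4386*x^(5:ℕ)*y^(3:ℕ) + 493628*x^(5:ℕ)*y^(2:ℕ)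 + 16233118*x^(5:ℕ)*y + 158561291*x^(5:ℕ) + 120*x^(4:ℕ)*y^(4:ℕ) + 33403*x^(4:ℕ)*y^(3:ℕ) + 2202681*x^(4:ℕ)*y^(2:ℕ) + 51031551*x^(4:ℕ)*y + 384196906*x^(4:ℕ) + x^(3:ℕ)*y^(5:ℕ) + 1149*x^(3:ℕ)*y^(4:ℕ) + 152772*x^(3:ℕ)*y^(3:ℕ) + 6565238*x^(3:ℕ)*y^(2:ℕ) + 112538227*x^(3:ℕ)*y + 671657173*x^(3:ℕ) + 16*x^(2:ℕ)*y^(5:ℕ) + 5494*x^(2:ℕ)*y^(4:ℕ) + 419915*x^(2:ℕ)*y^(3:ℕ) + 12608364*x^(2:ℕ)*y^(2:ℕ) + 165838319*x^(2:ℕ)*y + 802363592*x^(2:ℕ) + 85*x*y^(5:ℕ) + 13140*x*y^(4:ℕ) + 642746*x*y^(3:ℕ) + 14162528*x*y^(2:ℕ) + 147004153*x*y + 587135316*x + 150*y^(5:ℕ) + 12601*y^(4:ℕ) + 422984*y^(3:ℕ) + 7092046*y^(2:ℕ) + 59396794*y + 198795281 := by positivity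
  refine pos_aux1 (m := 1) (by norm_num) (lt_of_lt_of_eq h ?_)
  ring

theorem F5_c21 {S T : ℝ} (h4 : 4 ≤ S) (hL : S^(2:ℕ) ≤ T) : 0 < S^(3:ℕ)*T^(4:ℕ) - 2*S^(4:ℕ)*T^(2:ℕ) + 3*S^(3:ℕ)*T^(3:ℕ) + 4*S^(2:ℕ)*T^(4:ℕ) - 4*S^(4:ℕ)*T - S^(3:ℕ)*T^(2:ℕ) + 14*S^(2:ℕ)*T^(3:ℕ) + 5*S*T^(4:ℕ) - 3*S^(4:ℕ) - 10*S^(3:ℕ)*T + 13*S^(2:ℕ)*T^(2:ℕ) + 18*S*T^(3:ℕ) + 2*T^(4:ℕ) - 7*S^(3:ℕ) + 24*S*T^(2:ℕ) + 8*T^(3:ℕ) - 3*S^(2:ℕ) + 14*S*T + 12*T^(2:ℕ) + 3*S + 8*T + 2 := by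
  obtain ⟨x, hx, rfl⟩ : ∃ x : ℝ, 0 ≤ x ∧ S = x + 4 := ⟨S - 4, by linarith, by ring⟩
  obtain ⟨y, hy, rfl⟩ : ∃ y : ℝ, 0 ≤ y ∧ T = (x + 4)^(2:ℕ) + y := ⟨T - ((x + 4)^(2:ℕ)), by linarith, by ring⟩
  have h : 0 < x^(11:ℕ) + 48*x^(10:ℕ) + 4*x^(9:ℕ)*y + 1048*x^(9:ℕ) + 160*x^(8:ℕ)*y + 13742*x^(8:ℕ) + 6*x^(7:ℕ)*y^(2:ℕ) + 2845*x^(7:ℕ)*y + 120273*x^(7:ℕ) + 192*x^(6:ℕ)*y^(2:ℕ) + 29530*x^(6:ℕ)*y + 737901*x^(6:ℕ) + 4*x^(5:ℕ)*y^(3:ℕ) + 2631*x^(5:ℕ)*y^(2:ℕ) + 197268*x^(5:ℕ)*y + 3238902*x^(5:ℕ) + 96*x^(4:ℕ)*y^(3:ℕ) + 20032*x^(4:ℕ)*y^(2:ℕ) + 879902*x^(4:ℕ)*y + 10172881*x^(4:ℕ) + x^(3:ℕ)*y^(4:ℕ) + 919*x^(3:ℕ)*y^(3:ℕ) + 91605*x^(3:ℕ)*y^(2:ℕ) + 2621574*x^(3:ℕ)*y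 + 22409559*x^(3:ℕ) + 16*x^(2:ℕ)*y^(4:ℕ) + 4394*x^(2:ℕ)*y^(3:ℕ) + 251809*x^(2:ℕ)*y^(2:ℕ) + 5032736*x^(2:ℕ)*y + 32979385*x^(2:ℕ) + 85*x*y^(4:ℕ) + 10514*x*y^(3:ℕ) + 385584*x*y^(2:ℕ) + 5650926*x*y + 29186171*x + 150*y^(4:ℕ) + 10096*y^(3:ℕ) + 253948*y^(2:ℕ) + 2828608*y + 11768606 := by positivity
  refine pos_aux1 (m := 1) (by norm_num) (lt_of_lt_of_eq h ?_)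
  ring

theorem F5_c23 {S T : ℝ} (h4 : 4 ≤ S) (hL : S^(2:ℕ) ≤ T) : 0 < S*T^(3:ℕ) - 2*S^(2:ℕ)*T + S*T^(2:ℕ) + 2*T^(3:ℕ) - S^(2:ℕ) - 2*S*T + 3*T^(2:ℕ) - 2*S - 1 := by
  obtain ⟨x, hx, rfl⟩ : ∃ x : ℝ, 0 ≤ x ∧ S = x + 4 := ⟨S - 4, by linarith, by ring⟩
  obtain ⟨y, hy, rfl⟩ : ∃ y : ℝ, 0 ≤ y ∧ T = (x + 4)^(2:ℕ) + y := ⟨T - ((x + 4)^(2:ℕ)), by linarith, by ring⟩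
  have h : 0 < x^(7:ℕ) + 30*x^(6:ℕ) + 3*x^(5:ℕ)*y + 385*x^(5:ℕ) + 66*x^(4:ℕ)*y + 2741*x^(4:ℕ) + 3*x^(3:ℕ)*y^(2:ℕ) + 578*x^(3:ℕ)*y + 11694*x^(3:ℕ) + 42*x^(2:ℕ)*y^(2:ℕ) + 2524*x^(2:ℕ)*y + 29895*x^(2:ℕ) + x*y^(3:ℕ) + 193*x*y^(2:ℕ) + 5502*x*y + 42390*x + 6*y^(3:ℕ) + 295*y^(2:ℕ) + 4792*y + 25703 := by positivity
  refine pos_aux1 (m := 1) (by norm_num) (lt_of_lt_of_eq h ?_)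
  ring

theorem F5_c24 {S T : ℝ} (h4 : 4 ≤ S) (hL : S^(2:ℕ) ≤ T) : 0 < S*T - S - T - 1 := by
  obtain ⟨x, hx, rfl⟩ : ∃ x : ℝ, 0 ≤ x ∧ S = x + 4 := ⟨S - 4, by linarith, by ring⟩
  obtain ⟨y, hy, rfl⟩ : ∃ y : ℝ, 0 ≤ y ∧ T = (x + 4)^(2:ℕ) + y := ⟨T - ((x + 4)^(2:ℕ)), by linarith, by ring⟩
  have h : 0 < x^(3:ℕ) + 11*x^(2:ℕ) + x*y + 39*x + 3*y + 43 := by positivity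
  refine pos_aux1 (m := 1) (by norm_num) (lt_of_lt_of_eq h ?_)
  ring

theorem F5_c25 {S T : ℝ} (h4 : 4 ≤ S) (hL : S^(2:ℕ) ≤ T) : 0 < -S^(3:ℕ)*T - S^(3:ℕ) + S^(2:ℕ)*T + 3*S*T^(2:ℕ) + 6*S*T + 2*T^(2:ℕ) + 3*S + 4*T + 2 := by
  obtain ⟨x, hx, rfl⟩ : ∃ x : ℝ, 0 ≤ x ∧ S = x + 4 := ⟨S - 4, by linarith, by ring⟩
  obtain ⟨y, hy, rfl⟩ : ∃ y : ℝ, 0 ≤ y ∧ T = (x + 4)^(2:ℕ) + y := ⟨T - ((x + 4)^(2:ℕ)), by linarith, by ring⟩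
  have h : 0 < 2*x^(5:ℕ) + 43*x^(4:ℕ) + 5*x^(3:ℕ)*y + 373*x^(3:ℕ) + 65*x^(2:ℕ)*y + 1632*x^(2:ℕ) + 3*x*y^(2:ℕ) + 286*x*y + 3603*x + 14*y^(2:ℕ) + 428*y + 3214 := by positivity
  refine pos_aux1 (m := 1) (by norm_num) (lt_of_lt_of_eq h ?_)
  ring

theorem F5_c27 {S T : ℝ} (h4 : 4 ≤ S) (hL : S^(2:ℕ) ≤ T) : 0 < S^(2:ℕ)*T^(3:ℕ) - S^(3:ℕ)*T + S^(2:ℕ)*T^(2:ℕ) + 2*S*T^(3:ℕ) + S^(3:ℕ) + 2*S*T^(2:ℕ) + 3*S^(2:ℕ) + 3*S*T + T^(2:ℕ) + 3*S + 2*T + 1 := by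
  obtain ⟨x, hx, rfl⟩ : ∃ x : ℝ, 0 ≤ x ∧ S = x + 4 := ⟨S - 4, by linarith, by ring⟩
  obtain ⟨y, hy, rfl⟩ : ∃ y : ℝ, 0 ≤ y ∧ T = (x + 4)^(2:ℕ) + y := ⟨T - ((x + 4)^(2:ℕ)), by linarith, by ring⟩
  have h : 0 < x^(8:ℕ) + 34*x^(7:ℕ) + 3*x^(6:ℕ)*y + 505*x^(6:ℕ) + 78*x^(5:ℕ)*y + 4281*x^(5:ℕ) + 3*x^(4:ℕ)*y^(2:ℕ) + 842*x^(4:ℕ)*y + 22661*x^(4:ℕ) + 54*x^(3:ℕ)*y^(2:ℕ) + 4835*x^(3:ℕ)*y + 76724*x^(3:ℕ) + x^(2:ℕ)*y^(3:ℕ) + 361*x^(2:ℕ)*y^(2:ℕ) + 15590*x^(2:ℕ)*y + 162325*x^(2:ℕ) + 10*x*y^(3:ℕ) + 1066*x*y^(2:ℕ) + 26787*x*y + 196331*x + 24*y^(3:ℕ) + 1177*y^(2:ℕ) + 19182*y + 104029 := by positivity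
  refine pos_aux1 (m := 1) (by norm_num) (lt_of_lt_of_eq h ?_)
  ring

theorem F5_c28 {S T : ℝ} (h4 : 4 ≤ S) (hL : S^(2:ℕ) ≤ T) : 0 < S^(2:ℕ)*T^(2:ℕ) - 2*S^(2:ℕ) - 2*S*T - 4*S - 2*T - 2 := by
  obtain ⟨x, hx, rfl⟩ : ∃ x : ℝ, 0 ≤ x ∧ S = x + 4 := ⟨S - 4, by linarith, by ring⟩
  obtain ⟨y, hy, rfl⟩ : ∃ y : ℝ, 0 ≤ y ∧ T = (x + 4)^(2:ℕ) + y := ⟨T - ((x + 4)^(2:ℕ)), by linarith, by ring⟩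
  have h : 0 < x^(6:ℕ) + 24*x^(5:ℕ) + 2*x^(4:ℕ)*y + 240*x^(4:ℕ) + 32*x^(3:ℕ)*y + 1278*x^(3:ℕ) + x^(2:ℕ)*y^(2:ℕ) + 192*x^(2:ℕ)*y + 3812*x^(2:ℕ) + 8*x*y^(2:ℕ) + 510*x*y + 6012*x + 16*y^(2:ℕ) + 502*y + 3886 := by positivity
  refine pos_aux1 (m := 1) (by norm_num) (lt_of_lt_of_eq h ?_)
  ring

theorem F5_c29 {S T : ℝ} (h4 : 4 ≤ S) (hL : S^(2:ℕ) ≤ T) : 0 < S^(2:ℕ)*T^(3:ℕ) - 2*S^(3:ℕ)*T - 2*S^(2:ℕ)*T^(2:ℕ) - 2*S^(3:ℕ) - 8*S^(2:ℕ)*T - 4*S*T^(2:ℕ) - 6*S^(2:ℕ) - 10*S*T - 2*T^(2:ℕ) - 6*S - 4*T - 2 := by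
  obtain ⟨x, hx, rfl⟩ : ∃ x : ℝ, 0 ≤ x ∧ S = x + 4 := ⟨S - 4, by linarith, by ring⟩
  obtain ⟨y, hy, rfl⟩ : ∃ y : ℝ, 0 ≤ y ∧ T = (x + 4)^(2:ℕ) + y := ⟨T - ((x + 4)^(2:ℕ)), by linarith, by ring⟩
  have h : 0 < x^(8:ℕ) + 32*x^(7:ℕ) + 3*x^(6:ℕ)*y + 446*x^(6:ℕ) + 72*x^(5:ℕ)*y + 3530*x^(5:ℕ) + 3*x^(4:ℕ)*y^(2:ℕ) + 716*x^(4:ℕ)*y + 17310*x^(4:ℕ) + 48*x^(3:ℕ)*y^(2:ℕ) + 3766*x^(3:ℕ)*y + 53652*x^(3:ℕ) + x^(2:ℕ)*y^(3:ℕ) + 286*x^(2:ℕ)*y^(2:ℕ) + 11004*x^(2:ℕ)*y + 102054*x^(2:ℕ) + 8*x*y^(3:ℕ) + 748*x*y^(2:ℕ) + 16822*x*y + 107882*x + 16*y^(3:ℕ) + 718*y^(2:ℕ) + 10388*y + 47686 := by positivity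
  refine pos_aux1 (m := 1) (by norm_num) (lt_of_lt_of_eq h ?_)
  ring

theorem F5_c30 {S T : ℝ} (h4 : 4 ≤ S) (hL : S^(2:ℕ) ≤ T) (hU : T ≤ 2*S + S^(2:ℕ)) : 0 < S^(4:ℕ)*T^(3:ℕ) + 3*S^(4:ℕ)*T^(2:ℕ) + 3*S^(3:ℕ)*T^(3:ℕ) - S^(2:ℕ)*T^(4:ℕ) + 4*S^(4:ℕ)*T + 14*S^(3:ℕ)*T^(2:ℕ) + 6*S^(2:ℕ)*T^(3:ℕ) + 2*S^(4:ℕ) + 18*S^(3:ℕ)*T + 25*S^(2:ℕ)*T^(2:ℕ) + 6*S*T^(3:ℕ) + 8*S^(3:ℕ) + 30*S^(2:ℕ)*T + 20*S*T^(2:ℕ) + 2*T^(3:ℕ) + 12*S^(2:ℕ) + 22*S*T + 6*T^(2:ℕ) + 8*S + 6*T + 2 := by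
  obtain ⟨x, hx, rfl⟩ : ∃ x : ℝ, 0 ≤ x ∧ S = x + 4 := ⟨S - 4, by linarith, by ring⟩
  obtain ⟨y, hy, rfl⟩ : ∃ y : ℝ, 0 < y ∧ T = y + (-1/4 + (x + 4)^(2:ℕ)) := ⟨T - (-1/4 + (x + 4)^(2:ℕ)), by linarith, by ring⟩
  obtain ⟨z, hz, hz2⟩ : ∃ z : ℝ, 0 < z ∧ z = (1/2 + 2*(x + 4)) - y := ⟨_, by linarith, rfl⟩
  have hw : 0 < 1/2 + 2*(x + 4) := by linarith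
  have h : 0 < 256*x^(9:ℕ)*y^(4:ℕ) + 1536*x^(9:ℕ)*y^(3:ℕ)*z + 3072*x^(9:ℕ)*y^(2:ℕ)*z^(2:ℕ) + 2560*x^(9:ℕ)*y*z^(3:ℕ) + 768*x^(9:ℕ)*z^(4:ℕ) + 12992*x^(8:ℕ)*y^(4:ℕ) + 72064*x^(8:ℕ)*y^(3:ℕ)*z + 135168*x^(8:ℕ)*y^(2:ℕ)*z^(2:ℕ) + 106112*x^(8:ℕ)*y*z^(3:ℕ) + 30016*x^(8:ℕ)*z^(4:ℕ) + 288576*x^(7:ℕ)*y^(4:ℕ) + 1491328*x^(7:ℕ)*y^(3:ℕ)*z + 2633472*x^(7:ℕ)*y^(2:ℕ)*z^(2:ℕ) + 1953408*x^(7:ℕ)*y*z^(3:ℕ) + 522688*x^(7:ℕ)*z^(4:ℕ) + 3692496*x^(6:ℕ)*y^(4:ℕ) + 17886976*x^(6:ℕ)*y^(3:ℕ)*z + 29836896*x^(6:ℕ)*y^(2:ℕ)*z^(2:ℕ) + 20969728*x^(6:ℕ)*y*z^(3:ℕ) + 5323216*x^(6:ℕ)*z^(4:ℕ) + 30058096*x^(5:ℕ)*y^(4:ℕ) + 137155872*x^(5:ℕ)*y^(3:ℕ)*z + 216766208*x^(5:ℕ)*y^(2:ℕ)*z^(2:ℕ)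 + 144716512*x^(5:ℕ)*y*z^(3:ℕ) + 34945680*x^(5:ℕ)*z^(4:ℕ) + 161686948*x^(4:ℕ)*y^(4:ℕ) + 697832056*x^(4:ℕ)*y^(3:ℕ)*z + 1047762624*x^(4:ℕ)*y^(2:ℕ)*z^(2:ℕ) + 666056840*x^(4:ℕ)*y*z^(3:ℕ) + 153372828*x^(4:ℕ)*z^(4:ℕ) + 575453676*x^(3:ℕ)*y^(4:ℕ) + 2357514632*x^(3:ℕ)*y^(3:ℕ)*z + 3371152480*x^(3:ℕ)*y^(2:ℕ)*z^(2:ℕ) + 2045103864*x^(3:ℕ)*y*z^(3:ℕ) + 450089268*x^(3:ℕ)*z^(4:ℕ) + 1308033111*x^(2:ℕ)*y^(4:ℕ) + 5102753780*x^(2:ℕ)*y^(3:ℕ)*z + 6965343322*x^(2:ℕ)*y^(2:ℕ)*z^(2:ℕ) + 4040883732*x^(2:ℕ)*y*z^(3:ℕ) + 851760455*x^(2:ℕ)*z^(4:ℕ) + 1724529680*x*y^(4:ℕ) + 6424666672*x*y^(3:ℕ)*z + 8389712784*x*y^(2:ℕ)*z^(2:ℕ) + 4663764496*x*y*z^(3:ℕ) + 943374368*x*z^(4:ℕ)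 + 1005487544*y^(4:ℕ) + 3586883184*y^(3:ℕ)*z + 4490300384*y^(2:ℕ)*z^(2:ℕ) + 2396287504*y*z^(3:ℕ) + 466001384*z^(4:ℕ) := by positivity
  refine pos_aux (m := 256) (w := (1/2 + 2*(x + 4))^(4:ℕ)) (by norm_num) (pow_pos hw 4) (lt_of_lt_of_eq h ?_)
  rw [hz2]; ring

theorem F5_c34 {S T : ℝ} (h4 : 4 ≤ S) (hL : S^(2:ℕ) ≤ T) : 0 < -S^(4:ℕ)*T^(3:ℕ) - 3*S^(4:ℕ)*T^(2:ℕ) - 2*S^(3:ℕ)*T^(3:ℕ) + 2*S^(2:ℕ)*T^(4:ℕ) - 4*S^(4:ℕ)*T - 11*S^(3:ℕ)*T^(2:ℕ) + S^(2:ℕ)*T^(3:ℕ) + 3*S*T^(4:ℕ) - 2*S^(4:ℕ) - 16*S^(3:ℕ)*T - 13*S^(2:ℕ)*T^(2:ℕ) + 6*S*T^(3:ℕ) + 2*T^(4:ℕ) - 8*S^(3:ℕ) - 24*S^(2:ℕ)*T - 5*S*T^(2:ℕ) + 4*T^(3:ℕ) - 12*S^(2:ℕ) - 16*S*T - 8*S - 4*T - 2 := by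
  obtain ⟨x, hx, rfl⟩ : ∃ x : ℝ, 0 ≤ x ∧ S = x + 4 := ⟨S - 4, by linarith, by ring⟩
  obtain ⟨y, hy, rfl⟩ : ∃ y : ℝ, 0 ≤ y ∧ T = (x + 4)^(2:ℕ) + y := ⟨T - ((x + 4)^(2:ℕ)), by linarith, by ring⟩
  have h : 0 < x^(10:ℕ) + 41*x^(9:ℕ) + 5*x^(8:ℕ)*y + 756*x^(8:ℕ) + 166*x^(7:ℕ)*y + 8251*x^(7:ℕ) + 9*x^(6:ℕ)*y^(2:ℕ) + 2413*x^(6:ℕ)*y + 58983*x^(6:ℕ) + 228*x^(5:ℕ)*y^(2:ℕ) + 20052*x^(5:ℕ)*y + 288291*x^(5:ℕ) + 7*x^(4:ℕ)*y^(3:ℕ) + 2412*x^(4:ℕ)*y^(2:ℕ) + 104142*x^(4:ℕ)*y + 974418*x^(4:ℕ) + 122*x^(3:ℕ)*y^(3:ℕ) + 13639*x^(3:ℕ)*y^(2:ℕ) + 345926*x^(3:ℕ)*y + 2244904*x^(3:ℕ) + 2*x^(2:ℕ)*y^(4:ℕ) + 801*x^(2:ℕ)*y^(3:ℕ) + 43475*x^(2:ℕ)*y^(2:ℕ) + 717040*x^(2:ℕ)*y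 + 3365264*x^(2:ℕ) + 19*x*y^(4:ℕ) + 2350*x*y^(3:ℕ) + 74051*x*y^(2:ℕ) + 846928*x*y + 2953208*x + 46*y^(4:ℕ) + 2604*y^(3:ℕ) + 52636*y^(2:ℕ) + 435644*y + 1145566 := by positivity
  refine pos_aux1 (m := 1) (by norm_num) (lt_of_lt_of_eq h ?_)
  ring

theorem F5_c36 {S T : ℝ} (h4 : 4 ≤ S) (hL : S^(2:ℕ) ≤ T) : 0 < S^(2:ℕ)*T^(3:ℕ) - S^(3:ℕ)*T + S^(2:ℕ)*T^(2:ℕ) + 2*S*T^(3:ℕ) - S^(3:ℕ) - 2*S^(2:ℕ)*T + 4*S*T^(2:ℕ) + 2*T^(3:ℕ) - 3*S^(2:ℕ) - S*T + 3*T^(2:ℕ) - 3*S - 1 := by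
  obtain ⟨x, hx, rfl⟩ : ∃ x : ℝ, 0 ≤ x ∧ S = x + 4 := ⟨S - 4, by linarith, by ring⟩
  obtain ⟨y, hy, rfl⟩ : ∃ y : ℝ, 0 ≤ y ∧ T = (x + 4)^(2:ℕ) + y := ⟨T - ((x + 4)^(2:ℕ)), by linarith, by ring⟩
  have h : 0 < x^(8:ℕ) + 34*x^(7:ℕ) + 3*x^(6:ℕ)*y + 507*x^(6:ℕ) + 78*x^(5:ℕ)*y + 4331*x^(5:ℕ) + 3*x^(4:ℕ)*y^(2:ℕ) + 848*x^(4:ℕ)*y + 23181*x^(4:ℕ) + 54*x^(3:ℕ)*y^(2:ℕ) + 4935*x^(3:ℕ)*y + 79598*x^(3:ℕ) + x^(2:ℕ)*y^(3:ℕ) + 367*x^(2:ℕ)*y^(2:ℕ) + 16216*x^(2:ℕ)*y + 171205*x^(2:ℕ) + 10*x*y^(3:ℕ) + 1116*x*y^(2:ℕ) + 28527*x*y + 210821*x + 26*y^(3:ℕ) + 1283*y^(2:ℕ) + 20988*y + 113731 := by positivity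
  refine pos_aux1 (m := 1) (by norm_num) (lt_of_lt_of_eq h ?_)
  ring

theorem F5_c37 {S T : ℝ} (h4 : 4 ≤ S) (hL : S^(2:ℕ) ≤ T) (hU : T ≤ 2*S + S^(2:ℕ)) : 0 < S^(4:ℕ)*T^(3:ℕ) + 4*S^(4:ℕ)*T^(2:ℕ) + 4*S^(3:ℕ)*T^(3:ℕ) - S^(2:ℕ)*T^(4:ℕ) + 6*S^(4:ℕ)*T + 18*S^(3:ℕ)*T^(2:ℕ) + 5*S^(2:ℕ)*T^(3:ℕ) - 2*S*T^(4:ℕ) + 3*S^(4:ℕ) + 25*S^(3:ℕ)*T + 27*S^(2:ℕ)*T^(2:ℕ) - S*T^(3:ℕ) - 2*T^(4:ℕ) + 12*S^(3:ℕ) + 39*S^(2:ℕ)*T + 16*S*T^(2:ℕ) - 3*T^(3:ℕ) + 18*S^(2:ℕ) + 27*S*T + 3*T^(2:ℕ) + 12*S + 7*T + 3 := by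
  obtain ⟨x, hx, rfl⟩ : ∃ x : ℝ, 0 ≤ x ∧ S = x + 4 := ⟨S - 4, by linarith, by ring⟩
  obtain ⟨y, hy, rfl⟩ : ∃ y : ℝ, 0 < y ∧ T = y + (-1/4 + (x + 4)^(2:ℕ)) := ⟨T - (-1/4 + (x + 4)^(2:ℕ)), by linarith, by ring⟩
  obtain ⟨z, hz, hz2⟩ : ∃ z : ℝ, 0 < z ∧ z = (1/2 + 2*(x + 4)) - y := ⟨_, by linarith, rfl⟩
  have hw : 0 < 1/2 + 2*(x + 4) := by linarith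
  have h : 0 < 512*x^(9:ℕ)*y^(3:ℕ)*z + 1536*x^(9:ℕ)*y^(2:ℕ)*z^(2:ℕ) + 1536*x^(9:ℕ)*y*z^(3:ℕ) + 512*x^(9:ℕ)*z^(4:ℕ) + 704*x^(8:ℕ)*y^(4:ℕ) + 25472*x^(8:ℕ)*y^(3:ℕ)*z + 69120*x^(8:ℕ)*y^(2:ℕ)*z^(2:ℕ) + 64640*x^(8:ℕ)*y*z^(3:ℕ) + 20288*x^(8:ℕ)*z^(4:ℕ) + 27904*x^(7:ℕ)*y^(4:ℕ) + 554240*x^(7:ℕ)*y^(3:ℕ)*z + 1377024*x^(7:ℕ)*y^(2:ℕ)*z^(2:ℕ) + 1209088*x^(7:ℕ)*y*z^(3:ℕ) + 358400*x^(7:ℕ)*z^(4:ℕ) + 483984*x^(6:ℕ)*y^(4:ℕ) + 6949248*x^(6:ℕ)*y^(3:ℕ)*z + 15954784*x^(6:ℕ)*y^(2:ℕ)*z^(2:ℕ) + 13198976*x^(6:ℕ)*y*z^(3:ℕ) + 3705360*x^(6:ℕ)*z^(4:ℕ) + 4799136*x^(5:ℕ)*y^(4:ℕ) + 55487136*x^(5:ℕ)*y^(3:ℕ)*z + 118573856*x^(5:ℕ)*y^(2:ℕ)*z^(2:ℕ) + 92708192*x^(5:ℕ)*y*z^(3:ℕ)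 + 24711744*x^(5:ℕ)*z^(4:ℕ) + 29764772*x^(4:ℕ)*y^(4:ℕ) + 293206936*x^(4:ℕ)*y^(3:ℕ)*z + 586586528*x^(4:ℕ)*y^(2:ℕ)*z^(2:ℕ) + 434663272*x^(4:ℕ)*y*z^(3:ℕ) + 110272188*x^(4:ℕ)*z^(4:ℕ) + 118270240*x^(3:ℕ)*y^(4:ℕ) + 1027075488*x^(3:ℕ)*y^(3:ℕ)*z + 1932831456*x^(3:ℕ)*y^(2:ℕ)*z^(2:ℕ) + 1360847072*x^(3:ℕ)*y*z^(3:ℕ) + 329313664*x^(3:ℕ)*z^(4:ℕ) + 294107827*x^(2:ℕ)*y^(4:ℕ) + 2302813756*x^(2:ℕ)*y^(3:ℕ)*z + 4092906970*x^(2:ℕ)*y^(2:ℕ)*z^(2:ℕ) + 2744461004*x^(2:ℕ)*y*z^(3:ℕ) + 634804843*x^(2:ℕ)*z^(4:ℕ) + 418596594*x*y^(4:ℕ) + 3002042448*x*y^(3:ℕ)*z + 5056877092*x*y^(2:ℕ)*z^(2:ℕ) + 3236413696*x*y*z^(3:ℕ) + 716918170*x*z^(4:ℕ) + 261134714*y^(4:ℕ) + 1735269664*y^(3:ℕ)*z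 + 2778862724*y^(2:ℕ)*z^(2:ℕ) + 1700982704*y*z^(3:ℕ) + 361510194*z^(4:ℕ) := by positivity
  refine pos_aux (m := 256) (w := (1/2 + 2*(x + 4))^(4:ℕ)) (by norm_num) (pow_pos hw 4) (lt_of_lt_of_eq h ?_)
  rw [hz2]; ring

theorem F5_d0 (S T : ℝ) (pS : 0 < S) (pT : 0 < T) (c0 : 0 < S*T + 2*S + 2*T + 2) :
    0 < S*T^(2:ℕ)*(S*T + 2*S + 2*T + 2) := (mul_pos (mul_pos pS (pow_pos pT 2)) c0)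

theorem F5_d1 (S T : ℝ) (c0 : 0 < S*T + 2*S + 2*T + 2) :
    0 < (S*T + 2*S + 2*T + 2) := c0

theorem F5_d2 (S T : ℝ) (pT : 0 < T) (c0 : 0 < S*T + 2*S + 2*T + 2) :
    0 < T*(S*T + 2*S + 2*T + 2) := (mul_pos pT c0)

theorem F5_d3 (S T : ℝ) (pS : 0 < S) (pT : 0 < T) (c0 : 0 < S*T + 2*S + 2*T + 2) :
    0 < S*T*(S*T + 2*S + 2*T + 2) := (mul_pos (mul_pos pS pT) c0)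

theorem F5_f0 (S T : ℝ) (pT : 0 < T) (d0 : 0 < S*T^(2:ℕ)*(S*T + 2*S + 2*T + 2)) (d1 : 0 < (S*T + 2*S + 2*T + 2)) (d2 : 0 < T*(S*T + 2*S + 2*T + 2)) (d3 : 0 < S*T*(S*T + 2*S + 2*T + 2)) :
    fl S T Letter.be (((S^(2:ℕ)*T^(3:ℕ) + S^(2:ℕ)*T^(2:ℕ) + 2*S*T^(3:ℕ) + 2*S*T^(2:ℕ) + S^(2:ℕ) + 2*S*T + T^(2:ℕ) + 2*S + 2*T + 1))/(S*T^(2:ℕ)*(S*T + 2*S + 2*T + 2)), ((S*T + S + 1))/((S*T + 2*S + 2*T + 2))) = (((S*T^(2:ℕ) + S*T - S - T - 1))/(T*(S*T + 2*S + 2*T + 2)), ((S + 1)*(S*T - S - T - 1))/(S*T*(S*T + 2*S + 2*T + 2))) := fl_be' pT d0 d1 d2 d3 (by ring) (by ring)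

theorem F5_d4 (S T : ℝ) (pT : 0 < T) (pA : 0 < (S + 1)) (c0 : 0 < S*T + 2*S + 2*T + 2) :
    0 < T*(S + 1)*(S*T + 2*S + 2*T + 2) := (mul_pos (mul_pos pT pA) c0)

theorem F5_f1 (S T : ℝ) (pS : 0 < S) (pT : 0 < T) (d2 : 0 < T*(S*T + 2*S + 2*T + 2)) (d3 : 0 < S*T*(S*T + 2*S + 2*T + 2)) (d4 : 0 < T*(S + 1)*(S*T + 2*S + 2*T + 2)) :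
    fl S T Letter.al (((S*T^(2:ℕ) + S*T - S - T - 1))/(T*(S*T + 2*S + 2*T + 2)), ((S + 1)*(S*T - S - T - 1))/(S*T*(S*T + 2*S + 2*T + 2))) = (((S*T^(2:ℕ) - S^(2:ℕ) - S*T - 2*S - T - 1))/(T*(S + 1)*(S*T + 2*S + 2*T + 2)), ((S^(2:ℕ)*T^(2:ℕ) + 2*S*T^(2:ℕ) - S^(2:ℕ) - S*T - 2*S - T - 1))/(S*T*(S*T + 2*S + 2*T + 2))) := fl_al' pS pT d2 d3 d4 d3 (by ring) (by ring)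

theorem F5_f2 (S T : ℝ) (pS : 0 < S) (d2 : 0 < T*(S*T + 2*S + 2*T + 2)) (d3 : 0 < S*T*(S*T + 2*S + 2*T + 2)) (d4 : 0 < T*(S + 1)*(S*T + 2*S + 2*T + 2)) :
    fl S T Letter.ga (((S*T^(2:ℕ) - S^(2:ℕ) - S*T - 2*S - T - 1))/(T*(S + 1)*(S*T + 2*S + 2*T + 2)), ((S^(2:ℕ)*T^(2:ℕ) + 2*S*T^(2:ℕ) - S^(2:ℕ) - S*T - 2*S - T - 1))/(S*T*(S*T + 2*S + 2*T + 2))) = (((T + 1)*(S*T - S + 2*T - 1))/(T*(S*T + 2*S + 2*T + 2)), ((S + 1)*(T + 1)*(S*T + S + 1))/(S*T*(S*T + 2*S + 2*T + 2))) := fl_ga' pS d4 d3 d2 d3 (by ring) (by ring)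

theorem F5_d5 (S T : ℝ) (pB : 0 < (T + 1)) (c0 : 0 < S*T + 2*S + 2*T + 2) :
    0 < (T + 1)*(S*T + 2*S + 2*T + 2) := (mul_pos pB c0)

theorem F5_f3 (S T : ℝ) (pT : 0 < T) (d0 : 0 < S*T^(2:ℕ)*(S*T + 2*S + 2*T + 2)) (d2 : 0 < T*(S*T + 2*S + 2*T + 2)) (d3 : 0 < S*T*(S*T + 2*S + 2*T + 2)) (d5 : 0 < (T + 1)*(S*T + 2*S + 2*T + 2)) :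
    fl S T Letter.be (((T + 1)*(S*T - S + 2*T - 1))/(T*(S*T + 2*S + 2*T + 2)), ((S + 1)*(T + 1)*(S*T + S + 1))/(S*T*(S*T + 2*S + 2*T + 2))) = (((S^(2:ℕ)*T^(3:ℕ) + 2*S^(2:ℕ)*T^(2:ℕ) + S*T^(3:ℕ) + S^(2:ℕ)*T + 2*S*T^(2:ℕ) + S^(2:ℕ) + 3*S*T + T^(2:ℕ) + 2*S + 2*T + 1))/(S*T^(2:ℕ)*(S*T + 2*S + 2*T + 2)), ((2*S*T + S + T + 1))/((T + 1)*(S*T + 2*S + 2*T + 2))) := fl_be' pT d2 d3 d0 d5 (by ring) (by ring)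

theorem F5_f4 (S T : ℝ) (pT : 0 < T) (d0 : 0 < S*T^(2:ℕ)*(S*T + 2*S + 2*T + 2)) (d2 : 0 < T*(S*T + 2*S + 2*T + 2)) (d3 : 0 < S*T*(S*T + 2*S + 2*T + 2)) (d5 : 0 < (T + 1)*(S*T + 2*S + 2*T + 2)) :
    fl S T Letter.be (((S^(2:ℕ)*T^(3:ℕ) + 2*S^(2:ℕ)*T^(2:ℕ) + S*T^(3:ℕ) + S^(2:ℕ)*T + 2*S*T^(2:ℕ) + S^(2:ℕ) + 3*S*T + T^(2:ℕ) + 2*S + 2*T + 1))/(S*T^(2:ℕ)*(S*T + 2*S + 2*T + 2)), ((2*S*T + S + T + 1))/((T + 1)*(S*T + 2*S + 2*T + 2))) = (((S*T - S - T - 1))/(T*(S*T + 2*S + 2*T + 2)), ((S*T^(2:ℕ) - S^(2:ℕ) - S*T - 2*S - T - 1))/(S*T*(S*T + 2*S + 2*T + 2))) := fl_be' pT d0 d5 d2 d3 (by ring) (by ring)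

theorem F5_f5 (S T : ℝ) (pS : 0 < S) (d2 : 0 < T*(S*T + 2*S + 2*T + 2)) (d3 : 0 < S*T*(S*T + 2*S + 2*T + 2)) :
    fl S T Letter.ga (((S*T - S - T - 1))/(T*(S*T + 2*S + 2*T + 2)), ((S*T^(2:ℕ) - S^(2:ℕ) - S*T - 2*S - T - 1))/(S*T*(S*T + 2*S + 2*T + 2))) = (((2*T^(2:ℕ) - S + T - 1))/(T*(S*T + 2*S + 2*T + 2)), ((S^(2:ℕ)*T^(2:ℕ) + S^(2:ℕ)*T + 2*S*T^(2:ℕ) + S^(2:ℕ) + 2*S*T + 2*S + T + 1))/(S*T*(S*T + 2*S + 2*T + 2))) := fl_ga' pS d2 d3 d2 d3 (by ring) (by ring)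

theorem F5_f6 (S T : ℝ) (pT : 0 < T) (d0 : 0 < S*T^(2:ℕ)*(S*T + 2*S + 2*T + 2)) (d1 : 0 < (S*T + 2*S + 2*T + 2)) (d2 : 0 < T*(S*T + 2*S + 2*T + 2)) (d3 : 0 < S*T*(S*T + 2*S + 2*T + 2)) :
    fl S T Letter.be (((2*T^(2:ℕ) - S + T - 1))/(T*(S*T + 2*S + 2*T + 2)), ((S^(2:ℕ)*T^(2:ℕ) + S^(2:ℕ)*T + 2*S*T^(2:ℕ) + S^(2:ℕ) + 2*S*T + 2*S + T + 1))/(S*T*(S*T + 2*S + 2*T + 2))) = (((S^(2:ℕ)*T^(3:ℕ) + S^(2:ℕ)*T^(2:ℕ) + 2*S*T^(3:ℕ) + 2*S*T^(2:ℕ) + S^(2:ℕ) + 2*S*T + T^(2:ℕ) + 2*S + 2*T + 1))/(S*T^(2:ℕ)*(S*T + 2*S + 2*T + 2)), ((S*T + S + 1))/((S*T + 2*S + 2*T + 2))) := fl_be' pT d2 d3 d0 d1 (by ring) (by ring)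

theorem F5_rA (S T : ℝ) (f0 : fl S T Letter.be (((S^(2:ℕ)*T^(3:ℕ) + S^(2:ℕ)*T^(2:ℕ) + 2*S*T^(3:ℕ) + 2*S*T^(2:ℕ) + S^(2:ℕ) + 2*S*T + T^(2:ℕ) + 2*S + 2*T + 1))/(S*T^(2:ℕ)*(S*T + 2*S + 2*T + 2)), ((S*T + S + 1))/((S*T + 2*S + 2*T + 2))) = (((S*T^(2:ℕ) + S*T - S - T - 1))/(T*(S*T + 2*S + 2*T + 2)), ((S + 1)*(S*T - S - T - 1))/(S*T*(S*T + 2*S + 2*T + 2)))) (f1 : fl S T Letter.al (((S*T^(2:ℕ) + S*T - S - T - 1))/(T*(S*T + 2*S + 2*T + 2)), ((S + 1)*(S*T - S - T - 1))/(S*T*(S*T + 2*S + 2*T + 2))) = (((S*T^(2:ℕ) - S^(2:ℕ) - S*T - 2*S - T - 1))/(T*(S + 1)*(S*T + 2*S + 2*T + 2)), ((S^(2:ℕ)*T^(2:ℕ) + 2*S*T^(2:ℕ) - S^(2:ℕ) - S*T - 2*S - T - 1))/(S*T*(S*T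 + 2*S + 2*T + 2)))) (f2 : fl S T Letter.ga (((S*T^(2:ℕ) - S^(2:ℕ) - S*T - 2*S - T - 1))/(T*(S + 1)*(S*T + 2*S + 2*T + 2)), ((S^(2:ℕ)*T^(2:ℕ) + 2*S*T^(2:ℕ) - S^(2:ℕ) - S*T - 2*S - T - 1))/(S*T*(S*T + 2*S + 2*T + 2))) = (((T + 1)*(S*T - S + 2*T - 1))/(T*(S*T + 2*S + 2*T + 2)), ((S + 1)*(T + 1)*(S*T + S + 1))/(S*T*(S*T + 2*S + 2*T + 2)))) (f3 : fl S T Letter.be (((T + 1)*(S*T - S + 2*T - 1))/(T*(S*T + 2*S + 2*T + 2)), ((S + 1)*(T + 1)*(S*T + S + 1))/(S*T*(S*T + 2*S + 2*T + 2))) = (((S^(2:ℕ)*T^(3:ℕ) + 2*S^(2:ℕ)*T^(2:ℕ) + S*T^(3:ℕ) + S^(2:ℕ)*T + 2*S*T^(2:ℕ) + S^(2:ℕ) + 3*S*T + T^(2:ℕ) + 2*S + 2*T + 1))/(S*T^(2:ℕ)*(S*T + 2*S + 2*T + 2)),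 ((2*S*T + S + T + 1))/((T + 1)*(S*T + 2*S + 2*T + 2)))) (f4 : fl S T Letter.be (((S^(2:ℕ)*T^(3:ℕ) + 2*S^(2:ℕ)*T^(2:ℕ) + S*T^(3:ℕ) + S^(2:ℕ)*T + 2*S*T^(2:ℕ) + S^(2:ℕ) + 3*S*T + T^(2:ℕ) + 2*S + 2*T + 1))/(S*T^(2:ℕ)*(S*T + 2*S + 2*T + 2)), ((2*S*T + S + T + 1))/((T + 1)*(S*T + 2*S + 2*T + 2))) = (((S*T - S - T - 1))/(T*(S*T + 2*S + 2*T + 2)), ((S*T^(2:ℕ) - S^(2:ℕ) - S*T - 2*S - T - 1))/(S*T*(S*T + 2*S + 2*T + 2)))) (f5 : fl S T Letter.ga (((S*T - S - T - 1))/(T*(S*T + 2*S + 2*T + 2)), ((S*T^(2:ℕ) - S^(2:ℕ) - S*T - 2*S - T - 1))/(S*T*(S*T + 2*S + 2*T + 2))) = (((2*T^(2:ℕ) - S + T - 1))/(T*(S*T + 2*S + 2*T + 2)), ((S^(2:ℕ)*T^(2:ℕ) + S^(2:ℕ)*T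 + 2*S*T^(2:ℕ) + S^(2:ℕ) + 2*S*T + 2*S + T + 1))/(S*T*(S*T + 2*S + 2*T + 2)))) (f6 : fl S T Letter.be (((2*T^(2:ℕ) - S + T - 1))/(T*(S*T + 2*S + 2*T + 2)), ((S^(2:ℕ)*T^(2:ℕ) + S^(2:ℕ)*T + 2*S*T^(2:ℕ) + S^(2:ℕ) + 2*S*T + 2*S + T + 1))/(S*T*(S*T + 2*S + 2*T + 2))) = (((S^(2:ℕ)*T^(3:ℕ) + S^(2:ℕ)*T^(2:ℕ) + 2*S*T^(3:ℕ) + 2*S*T^(2:ℕ) + S^(2:ℕ) + 2*S*T + T^(2:ℕ) + 2*S + 2*T + 1))/(S*T^(2:ℕ)*(S*T + 2*S + 2*T + 2)), ((S*T + S + 1))/((S*T + 2*S + 2*T + 2)))) :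
    run S T [Letter.be, Letter.al, Letter.ga, Letter.be, Letter.be, Letter.ga, Letter.be] (((S^(2:ℕ)*T^(3:ℕ) + S^(2:ℕ)*T^(2:ℕ) + 2*S*T^(3:ℕ) + 2*S*T^(2:ℕ) + S^(2:ℕ) + 2*S*T + T^(2:ℕ) + 2*S + 2*T + 1))/(S*T^(2:ℕ)*(S*T + 2*S + 2*T + 2)), ((S*T + S + 1))/((S*T + 2*S + 2*T + 2))) = (((S^(2:ℕ)*T^(3:ℕ) + S^(2:ℕ)*T^(2:ℕ) + 2*S*T^(3:ℕ) + 2*S*T^(2:ℕ) + S^(2:ℕ) + 2*S*T + T^(2:ℕ) + 2*S + 2*T + 1))/(S*T^(2:ℕ)*(S*T + 2*S + 2*T + 2)), ((S*T + S + 1))/((S*T + 2*S + 2*T + 2))) := (run_cons' f0 (run_cons' f1 (run_cons' f2 (run_cons' f3 (run_cons' f4 (run_cons' f5 (run_cons' f6 run_nil')))))))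

theorem F5_d6 (S T : ℝ) (pS : 0 < S) (pT : 0 < T) (pA : 0 < (S + 1)) (pB : 0 < (T + 1)) (c0 : 0 < S*T + 2*S + 2*T + 2) :
    0 < S*T^(2:ℕ)*(S + 1)*(T + 1)*(S*T + 2*S + 2*T + 2) := (mul_pos (mul_pos (mul_pos (mul_pos pS (pow_pos pT 2)) pA) pB) c0)

theorem F5_d7 (S T : ℝ) (pS : 0 < S) (pT : 0 < T) (pA : 0 < (S + 1)) (pB : 0 < (T + 1)) (c0 : 0 < S*T + 2*S + 2*T + 2) :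
    0 < S*T*(S + 1)*(T + 1)^(2:ℕ)*(S*T + 2*S + 2*T + 2) := (mul_pos (mul_pos (mul_pos (mul_pos pS pT) pA) (pow_pos pB 2)) c0)

theorem F5_f7 (S T : ℝ) (pT : 0 < T) (d1 : 0 < (S*T + 2*S + 2*T + 2)) (d2 : 0 < T*(S*T + 2*S + 2*T + 2)) (d6 : 0 < S*T^(2:ℕ)*(S + 1)*(T + 1)*(S*T + 2*S + 2*T + 2)) (d7 : 0 < S*T*(S + 1)*(T + 1)^(2:ℕ)*(S*T + 2*S + 2*T + 2)) :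
    fl S T Letter.be (((S^(3:ℕ)*T^(4:ℕ) + 2*S^(3:ℕ)*T^(3:ℕ) + 3*S^(2:ℕ)*T^(4:ℕ) + 2*S^(3:ℕ)*T^(2:ℕ) + 7*S^(2:ℕ)*T^(3:ℕ) + 2*S*T^(4:ℕ) + 2*S^(3:ℕ)*T + 8*S^(2:ℕ)*T^(2:ℕ) + 6*S*T^(3:ℕ) + 2*S^(3:ℕ) + 10*S^(2:ℕ)*T + 12*S*T^(2:ℕ) + 2*T^(3:ℕ) + 6*S^(2:ℕ) + 14*S*T + 6*T^(2:ℕ) + 6*S + 6*T + 2))/(S*T^(2:ℕ)*(S + 1)*(T + 1)*(S*T + 2*S + 2*T + 2)), ((S*T + S + 1))/((S*T + 2*S + 2*T + 2))) = (((S*T^(2:ℕ) + S*T - S - T - 1))/(T*(S*T + 2*S + 2*T + 2)), ((S^(3:ℕ)*T^(3:ℕ) - 2*S^(3:ℕ)*T - 4*S^(2:ℕ)*T^(2:ℕ) - 2*S*T^(3:ℕ) - 2*S^(3:ℕ) - 10*S^(2:ℕ)*T - 10*S*T^(2:ℕ) - 2*T^(3:ℕ) - 6*S^(2:ℕ) - 14*S*T - 6*T^(2:ℕ) - 6*S - 6*T - 2))/(S*T*(S + 1)*(T + 1)^(2:ℕ)*(S*T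 + 2*S + 2*T + 2))) := fl_be' pT d6 d1 d2 d7 (by ring) (by ring)

theorem F5_d8 (S T : ℝ) (pS : 0 < S) (pT : 0 < T) (pB : 0 < (T + 1)) (c0 : 0 < S*T + 2*S + 2*T + 2) :
    0 < S*T*(T + 1)*(S*T + 2*S + 2*T + 2) := (mul_pos (mul_pos (mul_pos pS pT) pB) c0)

theorem F5_f8 (S T : ℝ) (pS : 0 < S) (pT : 0 < T) (d2 : 0 < T*(S*T + 2*S + 2*T + 2)) (d4 : 0 < T*(S + 1)*(S*T + 2*S + 2*T + 2)) (d7 : 0 < S*T*(S + 1)*(T + 1)^(2:ℕ)*(S*T + 2*S + 2*T + 2)) (d8 : 0 < S*T*(T + 1)*(S*T + 2*S + 2*T + 2)) :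
    fl S T Letter.al (((S*T^(2:ℕ) + S*T - S - T - 1))/(T*(S*T + 2*S + 2*T + 2)), ((S^(3:ℕ)*T^(3:ℕ) - 2*S^(3:ℕ)*T - 4*S^(2:ℕ)*T^(2:ℕ) - 2*S*T^(3:ℕ) - 2*S^(3:ℕ) - 10*S^(2:ℕ)*T - 10*S*T^(2:ℕ) - 2*T^(3:ℕ) - 6*S^(2:ℕ) - 14*S*T - 6*T^(2:ℕ) - 6*S - 6*T - 2))/(S*T*(S + 1)*(T + 1)^(2:ℕ)*(S*T + 2*S + 2*T + 2))) = (((S*T^(2:ℕ) - S^(2:ℕ) - S*T - 2*S - T - 1))/(T*(S + 1)*(S*T + 2*S + 2*T + 2)), ((S^(2:ℕ)*T^(3:ℕ) + 2*S*T^(3:ℕ) - 2*S^(2:ℕ)*T - 2*S^(2:ℕ) - 6*S*T - 2*T^(2:ℕ) - 4*S - 4*T - 2))/(S*T*(T + 1)*(S*T + 2*S + 2*T + 2))) := fl_al' pS pT d2 d7 d4 d8 (by ring) (by ring)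

theorem F5_d9 (S T : ℝ) (pT : 0 < T) (pA : 0 < (S + 1)) (pB : 0 < (T + 1)) (c0 : 0 < S*T + 2*S + 2*T + 2) :
    0 < T*(S + 1)*(T + 1)*(S*T + 2*S + 2*T + 2) := (mul_pos (mul_pos (mul_pos pT pA) pB) c0)

theorem F5_f9 (S T : ℝ) (pS : 0 < S) (d3 : 0 < S*T*(S*T + 2*S + 2*T + 2)) (d4 : 0 < T*(S + 1)*(S*T + 2*S + 2*T + 2)) (d8 : 0 < S*T*(T + 1)*(S*T + 2*S + 2*T + 2)) (d9 : 0 < T*(S + 1)*(T + 1)*(S*T + 2*S + 2*T + 2)) :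
    fl S T Letter.ga (((S*T^(2:ℕ) - S^(2:ℕ) - S*T - 2*S - T - 1))/(T*(S + 1)*(S*T + 2*S + 2*T + 2)), ((S^(2:ℕ)*T^(3:ℕ) + 2*S*T^(3:ℕ) - 2*S^(2:ℕ)*T - 2*S^(2:ℕ) - 6*S*T - 2*T^(2:ℕ) - 4*S - 4*T - 2))/(S*T*(T + 1)*(S*T + 2*S + 2*T + 2))) = (((S^(2:ℕ)*T^(3:ℕ) + 3*S*T^(3:ℕ) - 2*S^(2:ℕ)*T + 3*S*T^(2:ℕ) + 2*T^(3:ℕ) - 2*S^(2:ℕ) - 4*S*T + 2*T^(2:ℕ) - 4*S - 2*T - 2))/(T*(S + 1)*(T + 1)*(S*T + 2*S + 2*T + 2)), ((S + 1)*(T + 1)*(S*T + S + 1))/(S*T*(S*T + 2*S + 2*T + 2))) := fl_ga' pS d4 d8 d9 d3 (by ring) (by ring)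

theorem F5_d10 (S T : ℝ) (pA : 0 < (S + 1)) (pB : 0 < (T + 1)) (c0 : 0 < S*T + 2*S + 2*T + 2) :
    0 < (S + 1)*(T + 1)^(2:ℕ)*(S*T + 2*S + 2*T + 2) := (mul_pos (mul_pos pA (pow_pos pB 2)) c0)

theorem F5_f10 (S T : ℝ) (pT : 0 < T) (d0 : 0 < S*T^(2:ℕ)*(S*T + 2*S + 2*T + 2)) (d3 : 0 < S*T*(S*T + 2*S + 2*T + 2)) (d9 : 0 < T*(S + 1)*(T + 1)*(S*T + 2*S + 2*T + 2)) (d10 : 0 < (S + 1)*(T + 1)^(2:ℕ)*(S*T + 2*S + 2*T + 2)) :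
    fl S T Letter.be (((S^(2:ℕ)*T^(3:ℕ) + 3*S*T^(3:ℕ) - 2*S^(2:ℕ)*T + 3*S*T^(2:ℕ) + 2*T^(3:ℕ) - 2*S^(2:ℕ) - 4*S*T + 2*T^(2:ℕ) - 4*S - 2*T - 2))/(T*(S + 1)*(T + 1)*(S*T + 2*S + 2*T + 2)), ((S + 1)*(T + 1)*(S*T + S + 1))/(S*T*(S*T + 2*S + 2*T + 2))) = (((S^(2:ℕ)*T^(3:ℕ) + 2*S^(2:ℕ)*T^(2:ℕ) + S*T^(3:ℕ) + S^(2:ℕ)*T + 2*S*T^(2:ℕ) + S^(2:ℕ) + 3*S*T + T^(2:ℕ) + 2*S + 2*T + 1))/(S*T^(2:ℕ)*(S*T + 2*S + 2*T + 2)), ((3*S^(2:ℕ)*T^(2:ℕ) + 4*S^(2:ℕ)*T + 4*S*T^(2:ℕ) + 2*S^(2:ℕ) + 8*S*T + 2*T^(2:ℕ) + 4*S + 4*T + 2))/((S + 1)*(T + 1)^(2:ℕ)*(S*T + 2*S + 2*T + 2))) := fl_be' pT d9 d3 d0 d10 (by ring) (by ring)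

theorem F5_d11 (S T : ℝ) (pA : 0 < (S + 1)) (pB : 0 < (T + 1)) (c0 : 0 < S*T + 2*S + 2*T + 2) :
    0 < (S + 1)*(T + 1)*(S*T + 2*S + 2*T + 2) := (mul_pos (mul_pos pA pB) c0)

theorem F5_f11 (S T : ℝ) (pT : 0 < T) (d0 : 0 < S*T^(2:ℕ)*(S*T + 2*S + 2*T + 2)) (d3 : 0 < S*T*(S*T + 2*S + 2*T + 2)) (d10 : 0 < (S + 1)*(T + 1)^(2:ℕ)*(S*T + 2*S + 2*T + 2)) (d11 : 0 < (S + 1)*(T + 1)*(S*T + 2*S + 2*T + 2)) :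
    fl S T Letter.be (((S^(2:ℕ)*T^(3:ℕ) + 2*S^(2:ℕ)*T^(2:ℕ) + S*T^(3:ℕ) + S^(2:ℕ)*T + 2*S*T^(2:ℕ) + S^(2:ℕ) + 3*S*T + T^(2:ℕ) + 2*S + 2*T + 1))/(S*T^(2:ℕ)*(S*T + 2*S + 2*T + 2)), ((3*S^(2:ℕ)*T^(2:ℕ) + 4*S^(2:ℕ)*T + 4*S*T^(2:ℕ) + 2*S^(2:ℕ) + 8*S*T + 2*T^(2:ℕ) + 4*S + 4*T + 2))/((S + 1)*(T + 1)^(2:ℕ)*(S*T + 2*S + 2*T + 2))) = ((S*(2*S*T + S + T + 1))/((S + 1)*(T + 1)*(S*T + 2*S + 2*T + 2)), ((S*T^(2:ℕ) - S^(2:ℕ) - S*T - 2*S - T - 1))/(S*T*(S*T + 2*S + 2*T + 2))) := fl_be' pT d0 d10 d11 d3 (by ring) (by ring)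

theorem F5_f12 (S T : ℝ) (pS : 0 < S) (d2 : 0 < T*(S*T + 2*S + 2*T + 2)) (d3 : 0 < S*T*(S*T + 2*S + 2*T + 2)) (d5 : 0 < (T + 1)*(S*T + 2*S + 2*T + 2)) (d11 : 0 < (S + 1)*(T + 1)*(S*T + 2*S + 2*T + 2)) :
    fl S T Letter.ga ((S*(2*S*T + S + T + 1))/((S + 1)*(T + 1)*(S*T + 2*S + 2*T + 2)), ((S*T^(2:ℕ) - S^(2:ℕ) - S*T - 2*S - T - 1))/(S*T*(S*T + 2*S + 2*T + 2))) = (((2*T^(2:ℕ) - S + T - 1))/(T*(S*T + 2*S + 2*T + 2)), ((S*T^(2:ℕ) + S*T + 2*T^(2:ℕ) + S + 3*T + 1))/((T + 1)*(S*T + 2*S + 2*T + 2))) := fl_ga' pS d11 d3 d2 d5 (by ring) (by ring)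

theorem F5_f13 (S T : ℝ) (pT : 0 < T) (d1 : 0 < (S*T + 2*S + 2*T + 2)) (d2 : 0 < T*(S*T + 2*S + 2*T + 2)) (d5 : 0 < (T + 1)*(S*T + 2*S + 2*T + 2)) :
    fl S T Letter.be (((2*T^(2:ℕ) - S + T - 1))/(T*(S*T + 2*S + 2*T + 2)), ((S*T^(2:ℕ) + S*T + 2*T^(2:ℕ) + S + 3*T + 1))/((T + 1)*(S*T + 2*S + 2*T + 2))) = (((T + 1)*(S*T - S + 2*T - 1))/(T*(S*T + 2*S + 2*T + 2)), ((S*T + S + 1))/((S*T + 2*S + 2*T + 2))) := fl_be' pT d2 d5 d2 d1 (by ring) (by ring)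

theorem F5_rP (S T : ℝ) (f7 : fl S T Letter.be (((S^(3:ℕ)*T^(4:ℕ) + 2*S^(3:ℕ)*T^(3:ℕ) + 3*S^(2:ℕ)*T^(4:ℕ) + 2*S^(3:ℕ)*T^(2:ℕ) + 7*S^(2:ℕ)*T^(3:ℕ) + 2*S*T^(4:ℕ) + 2*S^(3:ℕ)*T + 8*S^(2:ℕ)*T^(2:ℕ) + 6*S*T^(3:ℕ) + 2*S^(3:ℕ) + 10*S^(2:ℕ)*T + 12*S*T^(2:ℕ) + 2*T^(3:ℕ) + 6*S^(2:ℕ) + 14*S*T + 6*T^(2:ℕ) + 6*S + 6*T + 2))/(S*T^(2:ℕ)*(S + 1)*(T + 1)*(S*T + 2*S + 2*T + 2)), ((S*T + S + 1))/((S*T + 2*S + 2*T + 2))) = (((S*T^(2:ℕ) + S*T - S - T - 1))/(T*(S*T + 2*S + 2*T + 2)), ((S^(3:ℕ)*T^(3:ℕ) - 2*S^(3:ℕ)*T - 4*S^(2:ℕ)*T^(2:ℕ) - 2*S*T^(3:ℕ) - 2*S^(3:ℕ) - 10*S^(2:ℕ)*T - 10*S*T^(2:ℕ) - 2*T^(3:ℕ) - 6*S^(2:ℕ) - 14*S*T - 6*T^(2:ℕ) - 6*S - 6*T - 2))/(S*T*(S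 + 1)*(T + 1)^(2:ℕ)*(S*T + 2*S + 2*T + 2)))) (f8 : fl S T Letter.al (((S*T^(2:ℕ) + S*T - S - T - 1))/(T*(S*T + 2*S + 2*T + 2)), ((S^(3:ℕ)*T^(3:ℕ) - 2*S^(3:ℕ)*T - 4*S^(2:ℕ)*T^(2:ℕ) - 2*S*T^(3:ℕ) - 2*S^(3:ℕ) - 10*S^(2:ℕ)*T - 10*S*T^(2:ℕ) - 2*T^(3:ℕ) - 6*S^(2:ℕ) - 14*S*T - 6*T^(2:ℕ) - 6*S - 6*T - 2))/(S*T*(S + 1)*(T + 1)^(2:ℕ)*(S*T + 2*S + 2*T + 2))) = (((S*T^(2:ℕ) - S^(2:ℕ) - S*T - 2*S - T - 1))/(T*(S + 1)*(S*T + 2*S + 2*T + 2)), ((S^(2:ℕ)*T^(3:ℕ) + 2*S*T^(3:ℕ) - 2*S^(2:ℕ)*T - 2*S^(2:ℕ) - 6*S*T - 2*T^(2:ℕ) - 4*S - 4*T - 2))/(S*T*(T + 1)*(S*T + 2*S + 2*T + 2)))) (f9 : fl S T Letter.ga (((S*T^(2:ℕ) - S^(2:ℕ) - S*T - 2*S - T - 1))/(T*(S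 + 1)*(S*T + 2*S + 2*T + 2)), ((S^(2:ℕ)*T^(3:ℕ) + 2*S*T^(3:ℕ) - 2*S^(2:ℕ)*T - 2*S^(2:ℕ) - 6*S*T - 2*T^(2:ℕ) - 4*S - 4*T - 2))/(S*T*(T + 1)*(S*T + 2*S + 2*T + 2))) = (((S^(2:ℕ)*T^(3:ℕ) + 3*S*T^(3:ℕ) - 2*S^(2:ℕ)*T + 3*S*T^(2:ℕ) + 2*T^(3:ℕ) - 2*S^(2:ℕ) - 4*S*T + 2*T^(2:ℕ) - 4*S - 2*T - 2))/(T*(S + 1)*(T + 1)*(S*T + 2*S + 2*T + 2)), ((S + 1)*(T + 1)*(S*T + S + 1))/(S*T*(S*T + 2*S + 2*T + 2)))) (f10 : fl S T Letter.be (((S^(2:ℕ)*T^(3:ℕ) + 3*S*T^(3:ℕ) - 2*S^(2:ℕ)*T + 3*S*T^(2:ℕ) + 2*T^(3:ℕ) - 2*S^(2:ℕ) - 4*S*T + 2*T^(2:ℕ) - 4*S - 2*T - 2))/(T*(S + 1)*(T + 1)*(S*T + 2*S + 2*T + 2)), ((S + 1)*(T + 1)*(S*T + S + 1))/(S*T*(S*T + 2*S + 2*T + 2)))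 = (((S^(2:ℕ)*T^(3:ℕ) + 2*S^(2:ℕ)*T^(2:ℕ) + S*T^(3:ℕ) + S^(2:ℕ)*T + 2*S*T^(2:ℕ) + S^(2:ℕ) + 3*S*T + T^(2:ℕ) + 2*S + 2*T + 1))/(S*T^(2:ℕ)*(S*T + 2*S + 2*T + 2)), ((3*S^(2:ℕ)*T^(2:ℕ) + 4*S^(2:ℕ)*T + 4*S*T^(2:ℕ) + 2*S^(2:ℕ) + 8*S*T + 2*T^(2:ℕ) + 4*S + 4*T + 2))/((S + 1)*(T + 1)^(2:ℕ)*(S*T + 2*S + 2*T + 2)))) (f11 : fl S T Letter.be (((S^(2:ℕ)*T^(3:ℕ) + 2*S^(2:ℕ)*T^(2:ℕ) + S*T^(3:ℕ) + S^(2:ℕ)*T + 2*S*T^(2:ℕ) + S^(2:ℕ) + 3*S*T + T^(2:ℕ) + 2*S + 2*T + 1))/(S*T^(2:ℕ)*(S*T + 2*S + 2*T + 2)), ((3*S^(2:ℕ)*T^(2:ℕ) + 4*S^(2:ℕ)*T + 4*S*T^(2:ℕ) + 2*S^(2:ℕ) + 8*S*T + 2*T^(2:ℕ) + 4*S + 4*T + 2))/((S + 1)*(T + 1)^(2:ℕ)*(S*T + 2*S + 2*T + 2))) = ((S*(2*S*T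 + S + T + 1))/((S + 1)*(T + 1)*(S*T + 2*S + 2*T + 2)), ((S*T^(2:ℕ) - S^(2:ℕ) - S*T - 2*S - T - 1))/(S*T*(S*T + 2*S + 2*T + 2)))) (f12 : fl S T Letter.ga ((S*(2*S*T + S + T + 1))/((S + 1)*(T + 1)*(S*T + 2*S + 2*T + 2)), ((S*T^(2:ℕ) - S^(2:ℕ) - S*T - 2*S - T - 1))/(S*T*(S*T + 2*S + 2*T + 2))) = (((2*T^(2:ℕ) - S + T - 1))/(T*(S*T + 2*S + 2*T + 2)), ((S*T^(2:ℕ) + S*T + 2*T^(2:ℕ) + S + 3*T + 1))/((T + 1)*(S*T + 2*S + 2*T + 2)))) (f13 : fl S T Letter.be (((2*T^(2:ℕ) - S + T - 1))/(T*(S*T + 2*S + 2*T + 2)), ((S*T^(2:ℕ) + S*T + 2*T^(2:ℕ) + S + 3*T + 1))/((T + 1)*(S*T + 2*S + 2*T + 2))) = (((T + 1)*(S*T - S + 2*T - 1))/(T*(S*T + 2*S + 2*T +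 2)), ((S*T + S + 1))/((S*T + 2*S + 2*T + 2)))) :
    run S T [Letter.be, Letter.al, Letter.ga, Letter.be, Letter.be, Letter.ga, Letter.be] (((S^(3:ℕ)*T^(4:ℕ) + 2*S^(3:ℕ)*T^(3:ℕ) + 3*S^(2:ℕ)*T^(4:ℕ) + 2*S^(3:ℕ)*T^(2:ℕ) + 7*S^(2:ℕ)*T^(3:ℕ) + 2*S*T^(4:ℕ) + 2*S^(3:ℕ)*T + 8*S^(2:ℕ)*T^(2:ℕ) + 6*S*T^(3:ℕ) + 2*S^(3:ℕ) + 10*S^(2:ℕ)*T + 12*S*T^(2:ℕ) + 2*T^(3:ℕ) + 6*S^(2:ℕ) + 14*S*T + 6*T^(2:ℕ) + 6*S + 6*T + 2))/(S*T^(2:ℕ)*(S + 1)*(T + 1)*(S*T + 2*S + 2*T + 2)), ((S*T + S + 1))/((S*T + 2*S + 2*T + 2))) = (((T + 1)*(S*T - S + 2*T - 1))/(T*(S*T + 2*S + 2*T + 2)), ((S*T + S + 1))/((S*T + 2*S + 2*T + 2))) := (run_cons' f7 (run_cons' f8 (run_cons'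 f9 (run_cons' f10 (run_cons' f11 (run_cons' f12 (run_cons' f13 run_nil')))))))

theorem F5_d12 (S T : ℝ) (c1 : 0 < S^(3:ℕ)*T^(4:ℕ) + 2*S^(3:ℕ)*T^(3:ℕ) + 3*S^(2:ℕ)*T^(4:ℕ) + 2*S^(3:ℕ)*T^(2:ℕ) + 7*S^(2:ℕ)*T^(3:ℕ) + 2*S*T^(4:ℕ) + 2*S^(3:ℕ)*T + 8*S^(2:ℕ)*T^(2:ℕ) + 6*S*T^(3:ℕ) + 2*S^(3:ℕ) + 10*S^(2:ℕ)*T + 12*S*T^(2:ℕ) + 2*T^(3:ℕ) + 6*S^(2:ℕ) + 14*S*T + 6*T^(2:ℕ) + 6*S + 6*T + 2) :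
    0 < (S^(3:ℕ)*T^(4:ℕ) + 2*S^(3:ℕ)*T^(3:ℕ) + 3*S^(2:ℕ)*T^(4:ℕ) + 2*S^(3:ℕ)*T^(2:ℕ) + 7*S^(2:ℕ)*T^(3:ℕ) + 2*S*T^(4:ℕ) + 2*S^(3:ℕ)*T + 8*S^(2:ℕ)*T^(2:ℕ) + 6*S*T^(3:ℕ) + 2*S^(3:ℕ) + 10*S^(2:ℕ)*T + 12*S*T^(2:ℕ) + 2*T^(3:ℕ) + 6*S^(2:ℕ) + 14*S*T + 6*T^(2:ℕ) + 6*S + 6*T + 2) := c1

theorem F5_q0 (S T : ℝ) (d6 : 0 < S*T^(2:ℕ)*(S + 1)*(T + 1)*(S*T + 2*S + 2*T + 2)) (d12 : 0 < (S^(3:ℕ)*T^(4:ℕ) + 2*S^(3:ℕ)*T^(3:ℕ) + 3*S^(2:ℕ)*T^(4:ℕ) + 2*S^(3:ℕ)*T^(2:ℕ) + 7*S^(2:ℕ)*T^(3:ℕ) + 2*S*T^(4:ℕ) + 2*S^(3:ℕ)*T + 8*S^(2:ℕ)*T^(2:ℕ) + 6*S*T^(3:ℕ) + 2*S^(3:ℕ) + 10*S^(2:ℕ)*T + 12*S*T^(2:ℕ) + 2*T^(3:ℕ) + 6*S^(2:ℕ) + 14*S*T + 6*T^(2:ℕ) + 6*S + 6*T + 2)) :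
    0 < ((S^(3:ℕ)*T^(4:ℕ) + 2*S^(3:ℕ)*T^(3:ℕ) + 3*S^(2:ℕ)*T^(4:ℕ) + 2*S^(3:ℕ)*T^(2:ℕ) + 7*S^(2:ℕ)*T^(3:ℕ) + 2*S*T^(4:ℕ) + 2*S^(3:ℕ)*T + 8*S^(2:ℕ)*T^(2:ℕ) + 6*S*T^(3:ℕ) + 2*S^(3:ℕ) + 10*S^(2:ℕ)*T + 12*S*T^(2:ℕ) + 2*T^(3:ℕ) + 6*S^(2:ℕ) + 14*S*T + 6*T^(2:ℕ) + 6*S + 6*T + 2))/(S*T^(2:ℕ)*(S + 1)*(T + 1)*(S*T + 2*S + 2*T + 2)) := div_pos d12 d6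

theorem F5_d13 (S T : ℝ) (c2 : 0 < S^(3:ℕ)*T^(3:ℕ) - 2*S^(3:ℕ)*T - 4*S^(2:ℕ)*T^(2:ℕ) - 2*S*T^(3:ℕ) - 2*S^(3:ℕ) - 10*S^(2:ℕ)*T - 10*S*T^(2:ℕ) - 2*T^(3:ℕ) - 6*S^(2:ℕ) - 14*S*T - 6*T^(2:ℕ) - 6*S - 6*T - 2) :
    0 < (S^(3:ℕ)*T^(3:ℕ) - 2*S^(3:ℕ)*T - 4*S^(2:ℕ)*T^(2:ℕ) - 2*S*T^(3:ℕ) - 2*S^(3:ℕ) - 10*S^(2:ℕ)*T - 10*S*T^(2:ℕ) - 2*T^(3:ℕ) - 6*S^(2:ℕ) - 14*S*T - 6*T^(2:ℕ) - 6*S - 6*T - 2) := c2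

theorem F5_q1 (S T : ℝ) (d6 : 0 < S*T^(2:ℕ)*(S + 1)*(T + 1)*(S*T + 2*S + 2*T + 2)) (d13 : 0 < (S^(3:ℕ)*T^(3:ℕ) - 2*S^(3:ℕ)*T - 4*S^(2:ℕ)*T^(2:ℕ) - 2*S*T^(3:ℕ) - 2*S^(3:ℕ) - 10*S^(2:ℕ)*T - 10*S*T^(2:ℕ) - 2*T^(3:ℕ) - 6*S^(2:ℕ) - 14*S*T - 6*T^(2:ℕ) - 6*S - 6*T - 2)) :
    ((S^(3:ℕ)*T^(4:ℕ) + 2*S^(3:ℕ)*T^(3:ℕ) + 3*S^(2:ℕ)*T^(4:ℕ) + 2*S^(3:ℕ)*T^(2:ℕ) + 7*S^(2:ℕ)*T^(3:ℕ) + 2*S*T^(4:ℕ) + 2*S^(3:ℕ)*T + 8*S^(2:ℕ)*T^(2:ℕ) + 6*S*T^(3:ℕ) + 2*S^(3:ℕ) + 10*S^(2:ℕ)*T + 12*S*T^(2:ℕ) + 2*T^(3:ℕ) + 6*S^(2:ℕ) + 14*S*T + 6*T^(2:ℕ) + 6*S + 6*T + 2))/(S*T^(2:ℕ)*(S + 1)*(T + 1)*(S*T + 2*S + 2*T + 2)) < 1 := rlt1 d6 d13 d6 (by ring)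

theorem F5_d14 (S T : ℝ) (c3 : 0 < S*T + S + 1) :
    0 < (S*T + S + 1) := c3

theorem F5_q2 (S T : ℝ) (d1 : 0 < (S*T + 2*S + 2*T + 2)) (d14 : 0 < (S*T + S + 1)) :
    0 < ((S*T + S + 1))/((S*T + 2*S + 2*T + 2)) := div_pos d14 d1

theorem F5_d15 (S T : ℝ) (c4 : 0 < S + 2*T + 1) :
    0 < (S + 2*T + 1) := c4

theorem F5_q3 (S T : ℝ) (d1 : 0 < (S*T + 2*S + 2*T + 2)) (d15 : 0 < (S + 2*T + 1)) :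
    ((S*T + S + 1))/((S*T + 2*S + 2*T + 2)) < 1 := rlt1 d1 d15 d1 (by ring)

theorem F5_sP (S T : ℝ) (q0 : 0 < ((S^(3:ℕ)*T^(4:ℕ) + 2*S^(3:ℕ)*T^(3:ℕ) + 3*S^(2:ℕ)*T^(4:ℕ) + 2*S^(3:ℕ)*T^(2:ℕ) + 7*S^(2:ℕ)*T^(3:ℕ) + 2*S*T^(4:ℕ) + 2*S^(3:ℕ)*T + 8*S^(2:ℕ)*T^(2:ℕ) + 6*S*T^(3:ℕ) + 2*S^(3:ℕ) + 10*S^(2:ℕ)*T + 12*S*T^(2:ℕ) + 2*T^(3:ℕ) + 6*S^(2:ℕ) + 14*S*T + 6*T^(2:ℕ) + 6*S + 6*T + 2))/(S*T^(2:ℕ)*(S + 1)*(T + 1)*(S*T + 2*S + 2*T + 2))) (q1 : ((S^(3:ℕ)*T^(4:ℕ) + 2*S^(3:ℕ)*T^(3:ℕ) + 3*S^(2:ℕ)*T^(4:ℕ) + 2*S^(3:ℕ)*T^(2:ℕ) + 7*S^(2:ℕ)*T^(3:ℕ) + 2*S*T^(4:ℕ) + 2*S^(3:ℕ)*T + 8*S^(2:ℕ)*T^(2:ℕ) + 6*S*T^(3:ℕ) + 2*S^(3:ℕ) + 10*S^(2:ℕ)*T + 12*S*T^(2:ℕ) + 2*T^(3:ℕ)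 + 6*S^(2:ℕ) + 14*S*T + 6*T^(2:ℕ) + 6*S + 6*T + 2))/(S*T^(2:ℕ)*(S + 1)*(T + 1)*(S*T + 2*S + 2*T + 2)) < 1) (q2 : 0 < ((S*T + S + 1))/((S*T + 2*S + 2*T + 2))) (q3 : ((S*T + S + 1))/((S*T + 2*S + 2*T + 2)) < 1) :
    Sq (((S^(3:ℕ)*T^(4:ℕ) + 2*S^(3:ℕ)*T^(3:ℕ) + 3*S^(2:ℕ)*T^(4:ℕ) + 2*S^(3:ℕ)*T^(2:ℕ) + 7*S^(2:ℕ)*T^(3:ℕ) + 2*S*T^(4:ℕ) + 2*S^(3:ℕ)*T + 8*S^(2:ℕ)*T^(2:ℕ) + 6*S*T^(3:ℕ) + 2*S^(3:ℕ) + 10*S^(2:ℕ)*T + 12*S*T^(2:ℕ) + 2*T^(3:ℕ) + 6*S^(2:ℕ) + 14*S*T + 6*T^(2:ℕ) + 6*S + 6*T + 2))/(S*T^(2:ℕ)*(S + 1)*(T + 1)*(S*T + 2*S + 2*T + 2)), ((S*T + S + 1))/((S*T + 2*S + 2*T + 2))) := ⟨⟨q0, q1⟩, q2, q3⟩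

theorem F5_d16 (S T : ℝ) (c5 : 0 < S^(3:ℕ)*T^(5:ℕ) - S^(4:ℕ)*T^(3:ℕ) + 3*S^(3:ℕ)*T^(4:ℕ) + 3*S^(2:ℕ)*T^(5:ℕ) + 4*S^(3:ℕ)*T^(3:ℕ) + 10*S^(2:ℕ)*T^(4:ℕ) + 2*S*T^(5:ℕ) + 2*S^(4:ℕ)*T + 8*S^(3:ℕ)*T^(2:ℕ) + 17*S^(2:ℕ)*T^(3:ℕ) + 8*S*T^(4:ℕ) + 2*S^(4:ℕ) + 14*S^(3:ℕ)*T + 28*S^(2:ℕ)*T^(2:ℕ) + 20*S*T^(3:ℕ) + 2*T^(4:ℕ) + 8*S^(3:ℕ) + 30*S^(2:ℕ)*T + 32*S*T^(2:ℕ) + 8*T^(3:ℕ) + 12*S^(2:ℕ) + 26*S*T + 12*T^(2:ℕ) + 8*S + 8*T + 2) :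
    0 < (S^(3:ℕ)*T^(5:ℕ) - S^(4:ℕ)*T^(3:ℕ) + 3*S^(3:ℕ)*T^(4:ℕ) + 3*S^(2:ℕ)*T^(5:ℕ) + 4*S^(3:ℕ)*T^(3:ℕ) + 10*S^(2:ℕ)*T^(4:ℕ) + 2*S*T^(5:ℕ) + 2*S^(4:ℕ)*T + 8*S^(3:ℕ)*T^(2:ℕ) + 17*S^(2:ℕ)*T^(3:ℕ) + 8*S*T^(4:ℕ) + 2*S^(4:ℕ) + 14*S^(3:ℕ)*T + 28*S^(2:ℕ)*T^(2:ℕ) + 20*S*T^(3:ℕ) + 2*T^(4:ℕ) + 8*S^(3:ℕ) + 30*S^(2:ℕ)*T + 32*S*T^(2:ℕ) + 8*T^(3:ℕ) + 12*S^(2:ℕ) + 26*S*T + 12*T^(2:ℕ) + 8*S + 8*T + 2) := c5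

theorem F5_g0 (S T : ℝ) (d6 : 0 < S*T^(2:ℕ)*(S + 1)*(T + 1)*(S*T + 2*S + 2*T + 2)) (d16 : 0 < (S^(3:ℕ)*T^(5:ℕ) - S^(4:ℕ)*T^(3:ℕ) + 3*S^(3:ℕ)*T^(4:ℕ) + 3*S^(2:ℕ)*T^(5:ℕ) + 4*S^(3:ℕ)*T^(3:ℕ) + 10*S^(2:ℕ)*T^(4:ℕ) + 2*S*T^(5:ℕ) + 2*S^(4:ℕ)*T + 8*S^(3:ℕ)*T^(2:ℕ) + 17*S^(2:ℕ)*T^(3:ℕ) + 8*S*T^(4:ℕ) + 2*S^(4:ℕ) + 14*S^(3:ℕ)*T + 28*S^(2:ℕ)*T^(2:ℕ) + 20*S*T^(3:ℕ) + 2*T^(4:ℕ) + 8*S^(3:ℕ) + 30*S^(2:ℕ)*T + 32*S*T^(2:ℕ) + 8*T^(3:ℕ) + 12*S^(2:ℕ) + 26*S*T + 12*T^(2:ℕ) + 8*S + 8*T + 2)) :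
    S < (S + T + 1) * (((S^(3:ℕ)*T^(4:ℕ) + 2*S^(3:ℕ)*T^(3:ℕ) + 3*S^(2:ℕ)*T^(4:ℕ) + 2*S^(3:ℕ)*T^(2:ℕ) + 7*S^(2:ℕ)*T^(3:ℕ) + 2*S*T^(4:ℕ) + 2*S^(3:ℕ)*T + 8*S^(2:ℕ)*T^(2:ℕ) + 6*S*T^(3:ℕ) + 2*S^(3:ℕ) + 10*S^(2:ℕ)*T + 12*S*T^(2:ℕ) + 2*T^(3:ℕ) + 6*S^(2:ℕ) + 14*S*T + 6*T^(2:ℕ) + 6*S + 6*T + 2))/(S*T^(2:ℕ)*(S + 1)*(T + 1)*(S*T + 2*S + 2*T + 2))) := rgt d6 d16 d6 (by ring)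

theorem F5_d17 (S T : ℝ) (c6 : 0 < S*T^(2:ℕ) + S*T - S - T - 1) :
    0 < (S*T^(2:ℕ) + S*T - S - T - 1) := c6

theorem F5_g1 (S T : ℝ) (d1 : 0 < (S*T + 2*S + 2*T + 2)) (d17 : 0 < (S*T^(2:ℕ) + S*T - S - T - 1)) :
    1 < (T + 1) * (((S*T + S + 1))/((S*T + 2*S + 2*T + 2))) := rgt d1 d17 d1 (by ring)

theorem F5_oP_0 (S T : ℝ) (g0 : S < (S + T + 1) * (((S^(3:ℕ)*T^(4:ℕ) + 2*S^(3:ℕ)*T^(3:ℕ) + 3*S^(2:ℕ)*T^(4:ℕ) + 2*S^(3:ℕ)*T^(2:ℕ) + 7*S^(2:ℕ)*T^(3:ℕ) + 2*S*T^(4:ℕ) + 2*S^(3:ℕ)*T + 8*S^(2:ℕ)*T^(2:ℕ) + 6*S*T^(3:ℕ) + 2*S^(3:ℕ) + 10*S^(2:ℕ)*T + 12*S*T^(2:ℕ) + 2*T^(3:ℕ) + 6*S^(2:ℕ) + 14*S*T + 6*T^(2:ℕ) + 6*S + 6*T + 2))/(S*T^(2:ℕ)*(S + 1)*(T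 + 1)*(S*T + 2*S + 2*T + 2)))) (g1 : 1 < (T + 1) * (((S*T + S + 1))/((S*T + 2*S + 2*T + 2)))) :
    cond S T Letter.be (((S^(3:ℕ)*T^(4:ℕ) + 2*S^(3:ℕ)*T^(3:ℕ) + 3*S^(2:ℕ)*T^(4:ℕ) + 2*S^(3:ℕ)*T^(2:ℕ) + 7*S^(2:ℕ)*T^(3:ℕ) + 2*S*T^(4:ℕ) + 2*S^(3:ℕ)*T + 8*S^(2:ℕ)*T^(2:ℕ) + 6*S*T^(3:ℕ) + 2*S^(3:ℕ) + 10*S^(2:ℕ)*T + 12*S*T^(2:ℕ) + 2*T^(3:ℕ) + 6*S^(2:ℕ) + 14*S*T + 6*T^(2:ℕ) + 6*S + 6*T + 2))/(S*T^(2:ℕ)*(S + 1)*(T + 1)*(S*T + 2*S + 2*T + 2)), ((S*T + S + 1))/((S*T + 2*S + 2*T + 2))) := ⟨g0, g1⟩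

theorem F5_d18 (S T : ℝ) (pB : 0 < (T + 1)) (c7 : 0 < S*T^(2:ℕ) - S^(2:ℕ) - S*T - 2*S - T - 1) :
    0 < (T + 1)*(S*T^(2:ℕ) - S^(2:ℕ) - S*T - 2*S - T - 1) := (mul_pos pB c7)

theorem F5_g2 (S T : ℝ) (d2 : 0 < T*(S*T + 2*S + 2*T + 2)) (d18 : 0 < (T + 1)*(S*T^(2:ℕ) - S^(2:ℕ) - S*T - 2*S - T - 1)) :
    S < (S + T + 1) * (((S*T^(2:ℕ) + S*T - S - T - 1))/(T*(S*T + 2*S + 2*T + 2))) := rgt d2 d18 d2 (by ring)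

theorem F5_d19 (S T : ℝ) (pU : 0 < (S + T + 1)) (c8 : 0 < 3*S^(2:ℕ)*T^(2:ℕ) + 4*S^(2:ℕ)*T + 4*S*T^(2:ℕ) + 2*S^(2:ℕ) + 8*S*T + 2*T^(2:ℕ) + 4*S + 4*T + 2) :
    0 < (S + T + 1)*(3*S^(2:ℕ)*T^(2:ℕ) + 4*S^(2:ℕ)*T + 4*S*T^(2:ℕ) + 2*S^(2:ℕ) + 8*S*T + 2*T^(2:ℕ) + 4*S + 4*T + 2) := (mul_pos pU c8)

theorem F5_d20 (S T : ℝ) (pS : 0 < S) (pT : 0 < T) (pA : 0 < (S + 1)) (pB : 0 < (T + 1)) (c0 : 0 < S*T + 2*S + 2*T + 2) :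
    0 < S*T*(S + 1)*(T + 1)*(S*T + 2*S + 2*T + 2) := (mul_pos (mul_pos (mul_pos (mul_pos pS pT) pA) pB) c0)

theorem F5_g3 (S T : ℝ) (d7 : 0 < S*T*(S + 1)*(T + 1)^(2:ℕ)*(S*T + 2*S + 2*T + 2)) (d19 : 0 < (S + T + 1)*(3*S^(2:ℕ)*T^(2:ℕ) + 4*S^(2:ℕ)*T + 4*S*T^(2:ℕ) + 2*S^(2:ℕ) + 8*S*T + 2*T^(2:ℕ) + 4*S + 4*T + 2)) (d20 : 0 < S*T*(S + 1)*(T + 1)*(S*T + 2*S + 2*T + 2)) :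
    (T + 1) * (((S^(3:ℕ)*T^(3:ℕ) - 2*S^(3:ℕ)*T - 4*S^(2:ℕ)*T^(2:ℕ) - 2*S*T^(3:ℕ) - 2*S^(3:ℕ) - 10*S^(2:ℕ)*T - 10*S*T^(2:ℕ) - 2*T^(3:ℕ) - 6*S^(2:ℕ) - 14*S*T - 6*T^(2:ℕ) - 6*S - 6*T - 2))/(S*T*(S + 1)*(T + 1)^(2:ℕ)*(S*T + 2*S + 2*T + 2))) < 1 := rlt d7 d19 d20 (by ring)

theorem F5_oP_1 (S T : ℝ) (g2 : S < (S + T + 1) * (((S*T^(2:ℕ) + S*T - S - T - 1))/(T*(S*T + 2*S + 2*T + 2)))) (g3 : (T + 1) * (((S^(3:ℕ)*T^(3:ℕ) - 2*S^(3:ℕ)*T - 4*S^(2:ℕ)*T^(2:ℕ) - 2*S*T^(3:ℕ) - 2*S^(3:ℕ) - 10*S^(2:ℕ)*T - 10*S*T^(2:ℕ) - 2*T^(3:ℕ) - 6*S^(2:ℕ) - 14*S*T - 6*T^(2:ℕ) - 6*S - 6*T - 2))/(S*T*(S + 1)*(T + 1)^(2:ℕ)*(S*T + 2*S + 2*T + 2))) < 1) :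
    cond S T Letter.al (((S*T^(2:ℕ) + S*T - S - T - 1))/(T*(S*T + 2*S + 2*T + 2)), ((S^(3:ℕ)*T^(3:ℕ) - 2*S^(3:ℕ)*T - 4*S^(2:ℕ)*T^(2:ℕ) - 2*S*T^(3:ℕ) - 2*S^(3:ℕ) - 10*S^(2:ℕ)*T - 10*S*T^(2:ℕ) - 2*T^(3:ℕ) - 6*S^(2:ℕ) - 14*S*T - 6*T^(2:ℕ) - 6*S - 6*T - 2))/(S*T*(S + 1)*(T + 1)^(2:ℕ)*(S*T + 2*S + 2*T + 2))) := ⟨g2, g3⟩

theorem F5_d21 (S T : ℝ) (c9 : 0 < S^(3:ℕ)*T^(2:ℕ) + 2*S^(3:ℕ)*T + 2*S^(2:ℕ)*T^(2:ℕ) - S*T^(3:ℕ) + S^(3:ℕ) + 6*S^(2:ℕ)*T + 2*S*T^(2:ℕ) + 3*S^(2:ℕ) + 6*S*T + T^(2:ℕ) + 3*S + 2*T + 1) :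
    0 < (S^(3:ℕ)*T^(2:ℕ) + 2*S^(3:ℕ)*T + 2*S^(2:ℕ)*T^(2:ℕ) - S*T^(3:ℕ) + S^(3:ℕ) + 6*S^(2:ℕ)*T + 2*S*T^(2:ℕ) + 3*S^(2:ℕ) + 6*S*T + T^(2:ℕ) + 3*S + 2*T + 1) := c9

theorem F5_g4 (S T : ℝ) (d4 : 0 < T*(S + 1)*(S*T + 2*S + 2*T + 2)) (d21 : 0 < (S^(3:ℕ)*T^(2:ℕ) + 2*S^(3:ℕ)*T + 2*S^(2:ℕ)*T^(2:ℕ) - S*T^(3:ℕ) + S^(3:ℕ) + 6*S^(2:ℕ)*T + 2*S*T^(2:ℕ) + 3*S^(2:ℕ) + 6*S*T + T^(2:ℕ) + 3*S + 2*T + 1)) :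
    (S + T + 1) * (((S*T^(2:ℕ) - S^(2:ℕ) - S*T - 2*S - T - 1))/(T*(S + 1)*(S*T + 2*S + 2*T + 2))) < S := rlt d4 d21 d4 (by ring)

theorem F5_oP_2 (S T : ℝ) (g4 : (S + T + 1) * (((S*T^(2:ℕ) - S^(2:ℕ) - S*T - 2*S - T - 1))/(T*(S + 1)*(S*T + 2*S + 2*T + 2))) < S) :
    cond S T Letter.ga (((S*T^(2:ℕ) - S^(2:ℕ) - S*T - 2*S - T - 1))/(T*(S + 1)*(S*T + 2*S + 2*T + 2)), ((S^(2:ℕ)*T^(3:ℕ) + 2*S*T^(3:ℕ) - 2*S^(2:ℕ)*T - 2*S^(2:ℕ) - 6*S*T - 2*T^(2:ℕ) - 4*S - 4*T - 2))/(S*T*(T + 1)*(S*T + 2*S + 2*T + 2))) := g4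

theorem F5_d22 (S T : ℝ) (c10 : 0 < S^(2:ℕ)*T^(4:ℕ) - 3*S^(3:ℕ)*T^(2:ℕ) + S^(2:ℕ)*T^(3:ℕ) + 3*S*T^(4:ℕ) - 4*S^(3:ℕ)*T - 6*S^(2:ℕ)*T^(2:ℕ) + 6*S*T^(3:ℕ) + 2*T^(4:ℕ) - 2*S^(3:ℕ) - 12*S^(2:ℕ)*T - 3*S*T^(2:ℕ) + 4*T^(3:ℕ) - 6*S^(2:ℕ) - 12*S*T - 6*S - 4*T - 2) :
    0 < (S^(2:ℕ)*T^(4:ℕ) - 3*S^(3:ℕ)*T^(2:ℕ) + S^(2:ℕ)*T^(3:ℕ) + 3*S*T^(4:ℕ) - 4*S^(3:ℕ)*T - 6*S^(2:ℕ)*T^(2:ℕ) + 6*S*T^(3:ℕ) + 2*T^(4:ℕ) - 2*S^(3:ℕ) - 12*S^(2:ℕ)*T - 3*S*T^(2:ℕ) + 4*T^(3:ℕ) - 6*S^(2:ℕ) - 12*S*T - 6*S - 4*T - 2) := c10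

theorem F5_g5 (S T : ℝ) (d9 : 0 < T*(S + 1)*(T + 1)*(S*T + 2*S + 2*T + 2)) (d22 : 0 < (S^(2:ℕ)*T^(4:ℕ) - 3*S^(3:ℕ)*T^(2:ℕ) + S^(2:ℕ)*T^(3:ℕ) + 3*S*T^(4:ℕ) - 4*S^(3:ℕ)*T - 6*S^(2:ℕ)*T^(2:ℕ) + 6*S*T^(3:ℕ) + 2*T^(4:ℕ) - 2*S^(3:ℕ) - 12*S^(2:ℕ)*T - 3*S*T^(2:ℕ) + 4*T^(3:ℕ) - 6*S^(2:ℕ) - 12*S*T - 6*S - 4*T - 2)) :
    S < (S + T + 1) * (((S^(2:ℕ)*T^(3:ℕ) + 3*S*T^(3:ℕ) - 2*S^(2:ℕ)*T + 3*S*T^(2:ℕ) + 2*T^(3:ℕ) - 2*S^(2:ℕ) - 4*S*T + 2*T^(2:ℕ) - 4*S - 2*T - 2))/(T*(S + 1)*(T + 1)*(S*T + 2*S + 2*T + 2))) := rgt d9 d22 d9 (by ring)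

theorem F5_d23 (S T : ℝ) (c11 : 0 < S^(2:ℕ)*T^(3:ℕ) + 2*S^(2:ℕ)*T^(2:ℕ) + S*T^(3:ℕ) + S^(2:ℕ)*T + 2*S*T^(2:ℕ) + S^(2:ℕ) + 3*S*T + T^(2:ℕ) + 2*S + 2*T + 1) :
    0 < (S^(2:ℕ)*T^(3:ℕ) + 2*S^(2:ℕ)*T^(2:ℕ) + S*T^(3:ℕ) + S^(2:ℕ)*T + 2*S*T^(2:ℕ) + S^(2:ℕ) + 3*S*T + T^(2:ℕ) + 2*S + 2*T + 1) := c11

theorem F5_g6 (S T : ℝ) (d3 : 0 < S*T*(S*T + 2*S + 2*T + 2)) (d23 : 0 < (S^(2:ℕ)*T^(3:ℕ) + 2*S^(2:ℕ)*T^(2:ℕ) + S*T^(3:ℕ) + S^(2:ℕ)*T + 2*S*T^(2:ℕ) + S^(2:ℕ) + 3*S*T + T^(2:ℕ) + 2*S + 2*T + 1)) :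
    1 < (T + 1) * (((S + 1)*(T + 1)*(S*T + S + 1))/(S*T*(S*T + 2*S + 2*T + 2))) := rgt d3 d23 d3 (by ring)

theorem F5_oP_3 (S T : ℝ) (g5 : S < (S + T + 1) * (((S^(2:ℕ)*T^(3:ℕ) + 3*S*T^(3:ℕ) - 2*S^(2:ℕ)*T + 3*S*T^(2:ℕ) + 2*T^(3:ℕ) - 2*S^(2:ℕ) - 4*S*T + 2*T^(2:ℕ) - 4*S - 2*T - 2))/(T*(S + 1)*(T + 1)*(S*T + 2*S + 2*T + 2)))) (g6 : 1 < (T + 1) * (((S + 1)*(T + 1)*(S*T + S + 1))/(S*T*(S*T + 2*S + 2*T + 2)))) :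
    cond S T Letter.be (((S^(2:ℕ)*T^(3:ℕ) + 3*S*T^(3:ℕ) - 2*S^(2:ℕ)*T + 3*S*T^(2:ℕ) + 2*T^(3:ℕ) - 2*S^(2:ℕ) - 4*S*T + 2*T^(2:ℕ) - 4*S - 2*T - 2))/(T*(S + 1)*(T + 1)*(S*T + 2*S + 2*T + 2)), ((S + 1)*(T + 1)*(S*T + S + 1))/(S*T*(S*T + 2*S + 2*T + 2))) := ⟨g5, g6⟩

theorem F5_d24 (S T : ℝ) (pA : 0 < (S + 1)) (pB : 0 < (T + 1)) (c12 : 0 < S*T^(3:ℕ) + S*T^(2:ℕ) + S^(2:ℕ) + 2*S*T + T^(2:ℕ) + 2*S + 2*T + 1) :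
    0 < (S + 1)*(T + 1)*(S*T^(3:ℕ) + S*T^(2:ℕ) + S^(2:ℕ) + 2*S*T + T^(2:ℕ) + 2*S + 2*T + 1) := (mul_pos (mul_pos pA pB) c12)

theorem F5_g7 (S T : ℝ) (d0 : 0 < S*T^(2:ℕ)*(S*T + 2*S + 2*T + 2)) (d24 : 0 < (S + 1)*(T + 1)*(S*T^(3:ℕ) + S*T^(2:ℕ) + S^(2:ℕ) + 2*S*T + T^(2:ℕ) + 2*S + 2*T + 1)) :
    S < (S + T + 1) * (((S^(2:ℕ)*T^(3:ℕ) + 2*S^(2:ℕ)*T^(2:ℕ) + S*T^(3:ℕ) + S^(2:ℕ)*T + 2*S*T^(2:ℕ) + S^(2:ℕ) + 3*S*T + T^(2:ℕ) + 2*S + 2*T + 1))/(S*T^(2:ℕ)*(S*T + 2*S + 2*T + 2))) := rgt d0 d24 d0 (by ring)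

theorem F5_d25 (S T : ℝ) (pS : 0 < S) (pT : 0 < T) (c13 : 0 < 2*S*T + S + T + 1) :
    0 < S*T*(2*S*T + S + T + 1) := (mul_pos (mul_pos pS pT) c13)

theorem F5_g8 (S T : ℝ) (d10 : 0 < (S + 1)*(T + 1)^(2:ℕ)*(S*T + 2*S + 2*T + 2)) (d11 : 0 < (S + 1)*(T + 1)*(S*T + 2*S + 2*T + 2)) (d25 : 0 < S*T*(2*S*T + S + T + 1)) :
    1 < (T + 1) * (((3*S^(2:ℕ)*T^(2:ℕ) + 4*S^(2:ℕ)*T + 4*S*T^(2:ℕ) + 2*S^(2:ℕ) + 8*S*T + 2*T^(2:ℕ) + 4*S + 4*T + 2))/((S + 1)*(T + 1)^(2:ℕ)*(S*T + 2*S + 2*T + 2))) := rgt d10 d25 d11 (by ring)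

theorem F5_oP_4 (S T : ℝ) (g7 : S < (S + T + 1) * (((S^(2:ℕ)*T^(3:ℕ) + 2*S^(2:ℕ)*T^(2:ℕ) + S*T^(3:ℕ) + S^(2:ℕ)*T + 2*S*T^(2:ℕ) + S^(2:ℕ) + 3*S*T + T^(2:ℕ) + 2*S + 2*T + 1))/(S*T^(2:ℕ)*(S*T + 2*S + 2*T + 2)))) (g8 : 1 < (T + 1) * (((3*S^(2:ℕ)*T^(2:ℕ) + 4*S^(2:ℕ)*T + 4*S*T^(2:ℕ) + 2*S^(2:ℕ) + 8*S*T + 2*T^(2:ℕ) + 4*S + 4*T + 2))/((S + 1)*(T + 1)^(2:ℕ)*(S*T + 2*S + 2*T + 2)))) :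
    cond S T Letter.be (((S^(2:ℕ)*T^(3:ℕ) + 2*S^(2:ℕ)*T^(2:ℕ) + S*T^(3:ℕ) + S^(2:ℕ)*T + 2*S*T^(2:ℕ) + S^(2:ℕ) + 3*S*T + T^(2:ℕ) + 2*S + 2*T + 1))/(S*T^(2:ℕ)*(S*T + 2*S + 2*T + 2)), ((3*S^(2:ℕ)*T^(2:ℕ) + 4*S^(2:ℕ)*T + 4*S*T^(2:ℕ) + 2*S^(2:ℕ) + 8*S*T + 2*T^(2:ℕ) + 4*S + 4*T + 2))/((S + 1)*(T + 1)^(2:ℕ)*(S*T + 2*S + 2*T + 2))) := ⟨g7, g8⟩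

theorem F5_d26 (S T : ℝ) (pS : 0 < S) (c14 : 0 < S^(2:ℕ)*T^(2:ℕ) + S^(2:ℕ)*T + S*T^(2:ℕ) + S^(2:ℕ) + 3*S*T + T^(2:ℕ) + 2*S + 2*T + 1) :
    0 < S*(S^(2:ℕ)*T^(2:ℕ) + S^(2:ℕ)*T + S*T^(2:ℕ) + S^(2:ℕ) + 3*S*T + T^(2:ℕ) + 2*S + 2*T + 1) := (mul_pos pS c14)

theorem F5_g9 (S T : ℝ) (d11 : 0 < (S + 1)*(T + 1)*(S*T + 2*S + 2*T + 2)) (d26 : 0 < S*(S^(2:ℕ)*T^(2:ℕ) + S^(2:ℕ)*T + S*T^(2:ℕ) + S^(2:ℕ) + 3*S*T + T^(2:ℕ) + 2*S + 2*T + 1)) :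
    (S + T + 1) * ((S*(2*S*T + S + T + 1))/((S + 1)*(T + 1)*(S*T + 2*S + 2*T + 2))) < S := rlt d11 d26 d11 (by ring)

theorem F5_oP_5 (S T : ℝ) (g9 : (S + T + 1) * ((S*(2*S*T + S + T + 1))/((S + 1)*(T + 1)*(S*T + 2*S + 2*T + 2))) < S) :
    cond S T Letter.ga ((S*(2*S*T + S + T + 1))/((S + 1)*(T + 1)*(S*T + 2*S + 2*T + 2)), ((S*T^(2:ℕ) - S^(2:ℕ) - S*T - 2*S - T - 1))/(S*T*(S*T + 2*S + 2*T + 2))) := g9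

theorem F5_d27 (S T : ℝ) (pB : 0 < (T + 1)) (c15 : 0 < -S^(2:ℕ)*T - S^(2:ℕ) + 2*T^(2:ℕ) - 2*S + T - 1) :
    0 < (T + 1)*(-S^(2:ℕ)*T - S^(2:ℕ) + 2*T^(2:ℕ) - 2*S + T - 1) := (mul_pos pB c15)

theorem F5_g10 (S T : ℝ) (d2 : 0 < T*(S*T + 2*S + 2*T + 2)) (d27 : 0 < (T + 1)*(-S^(2:ℕ)*T - S^(2:ℕ) + 2*T^(2:ℕ) - 2*S + T - 1)) :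
    S < (S + T + 1) * (((2*T^(2:ℕ) - S + T - 1))/(T*(S*T + 2*S + 2*T + 2))) := rgt d2 d27 d2 (by ring)

theorem F5_d28 (S T : ℝ) (pB : 0 < (T + 1)) (c16 : 0 < S*T - S + 2*T - 1) :
    0 < (T + 1)*(S*T - S + 2*T - 1) := (mul_pos pB c16)

theorem F5_g11 (S T : ℝ) (d1 : 0 < (S*T + 2*S + 2*T + 2)) (d5 : 0 < (T + 1)*(S*T + 2*S + 2*T + 2)) (d28 : 0 < (T + 1)*(S*T - S + 2*T - 1)) :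
    1 < (T + 1) * (((S*T^(2:ℕ) + S*T + 2*T^(2:ℕ) + S + 3*T + 1))/((T + 1)*(S*T + 2*S + 2*T + 2))) := rgt d5 d28 d1 (by ring)

theorem F5_oP_6 (S T : ℝ) (g10 : S < (S + T + 1) * (((2*T^(2:ℕ) - S + T - 1))/(T*(S*T + 2*S + 2*T + 2)))) (g11 : 1 < (T + 1) * (((S*T^(2:ℕ) + S*T + 2*T^(2:ℕ) + S + 3*T + 1))/((T + 1)*(S*T + 2*S + 2*T + 2)))) :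
    cond S T Letter.be (((2*T^(2:ℕ) - S + T - 1))/(T*(S*T + 2*S + 2*T + 2)), ((S*T^(2:ℕ) + S*T + 2*T^(2:ℕ) + S + 3*T + 1))/((T + 1)*(S*T + 2*S + 2*T + 2))) := ⟨g10, g11⟩

theorem F5_oP (S T : ℝ) (f7 : fl S T Letter.be (((S^(3:ℕ)*T^(4:ℕ) + 2*S^(3:ℕ)*T^(3:ℕ) + 3*S^(2:ℕ)*T^(4:ℕ) + 2*S^(3:ℕ)*T^(2:ℕ) + 7*S^(2:ℕ)*T^(3:ℕ) + 2*S*T^(4:ℕ) + 2*S^(3:ℕ)*T + 8*S^(2:ℕ)*T^(2:ℕ) + 6*S*T^(3:ℕ) + 2*S^(3:ℕ) + 10*S^(2:ℕ)*T + 12*S*T^(2:ℕ) + 2*T^(3:ℕ) + 6*S^(2:ℕ) + 14*S*T + 6*T^(2:ℕ) + 6*S + 6*T + 2))/(S*T^(2:ℕ)*(S + 1)*(T + 1)*(S*T + 2*S + 2*T + 2)), ((S*T + S + 1))/((S*T + 2*S + 2*T + 2))) = (((S*T^(2:ℕ) + S*T - S - T - 1))/(T*(S*T + 2*S + 2*T + 2)), ((S^(3:ℕ)*T^(3:ℕ)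 - 2*S^(3:ℕ)*T - 4*S^(2:ℕ)*T^(2:ℕ) - 2*S*T^(3:ℕ) - 2*S^(3:ℕ) - 10*S^(2:ℕ)*T - 10*S*T^(2:ℕ) - 2*T^(3:ℕ) - 6*S^(2:ℕ) - 14*S*T - 6*T^(2:ℕ) - 6*S - 6*T - 2))/(S*T*(S + 1)*(T + 1)^(2:ℕ)*(S*T + 2*S + 2*T + 2)))) (f8 : fl S T Letter.al (((S*T^(2:ℕ) + S*T - S - T - 1))/(T*(S*T + 2*S + 2*T + 2)), ((S^(3:ℕ)*T^(3:ℕ) - 2*S^(3:ℕ)*T - 4*S^(2:ℕ)*T^(2:ℕ) - 2*S*T^(3:ℕ) - 2*S^(3:ℕ) - 10*S^(2:ℕ)*T - 10*S*T^(2:ℕ) - 2*T^(3:ℕ) - 6*S^(2:ℕ) - 14*S*T - 6*T^(2:ℕ) - 6*S - 6*T - 2))/(S*T*(S + 1)*(T + 1)^(2:ℕ)*(S*T + 2*S + 2*T + 2))) = (((S*T^(2:ℕ) - S^(2:ℕ) - S*T - 2*S - T - 1))/(T*(S + 1)*(S*T + 2*S + 2*T + 2)), ((S^(2:ℕ)*T^(3:ℕ) + 2*S*T^(3:ℕ) - 2*S^(2:ℕ)*T -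 2*S^(2:ℕ) - 6*S*T - 2*T^(2:ℕ) - 4*S - 4*T - 2))/(S*T*(T + 1)*(S*T + 2*S + 2*T + 2)))) (f9 : fl S T Letter.ga (((S*T^(2:ℕ) - S^(2:ℕ) - S*T - 2*S - T - 1))/(T*(S + 1)*(S*T + 2*S + 2*T + 2)), ((S^(2:ℕ)*T^(3:ℕ) + 2*S*T^(3:ℕ) - 2*S^(2:ℕ)*T - 2*S^(2:ℕ) - 6*S*T - 2*T^(2:ℕ) - 4*S - 4*T - 2))/(S*T*(T + 1)*(S*T + 2*S + 2*T + 2))) = (((S^(2:ℕ)*T^(3:ℕ) + 3*S*T^(3:ℕ) - 2*S^(2:ℕ)*T + 3*S*T^(2:ℕ) + 2*T^(3:ℕ) - 2*S^(2:ℕ) - 4*S*T + 2*T^(2:ℕ) - 4*S - 2*T - 2))/(T*(S + 1)*(T + 1)*(S*T + 2*S + 2*T + 2)), ((S + 1)*(T + 1)*(S*T + S + 1))/(S*T*(S*T + 2*S + 2*T + 2)))) (f10 : fl S T Letter.be (((S^(2:ℕ)*T^(3:ℕ) + 3*S*T^(3:ℕ) - 2*S^(2:ℕ)*T + 3*S*T^(2:ℕ) +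 2*T^(3:ℕ) - 2*S^(2:ℕ) - 4*S*T + 2*T^(2:ℕ) - 4*S - 2*T - 2))/(T*(S + 1)*(T + 1)*(S*T + 2*S + 2*T + 2)), ((S + 1)*(T + 1)*(S*T + S + 1))/(S*T*(S*T + 2*S + 2*T + 2))) = (((S^(2:ℕ)*T^(3:ℕ) + 2*S^(2:ℕ)*T^(2:ℕ) + S*T^(3:ℕ) + S^(2:ℕ)*T + 2*S*T^(2:ℕ) + S^(2:ℕ) + 3*S*T + T^(2:ℕ) + 2*S + 2*T + 1))/(S*T^(2:ℕ)*(S*T + 2*S + 2*T + 2)), ((3*S^(2:ℕ)*T^(2:ℕ) + 4*S^(2:ℕ)*T + 4*S*T^(2:ℕ) + 2*S^(2:ℕ) + 8*S*T + 2*T^(2:ℕ) + 4*S + 4*T + 2))/((S + 1)*(T + 1)^(2:ℕ)*(S*T + 2*S + 2*T + 2)))) (f11 : fl S T Letter.be (((S^(2:ℕ)*T^(3:ℕ) + 2*S^(2:ℕ)*T^(2:ℕ) + S*T^(3:ℕ) + S^(2:ℕ)*T + 2*S*T^(2:ℕ) + S^(2:ℕ) + 3*S*T + T^(2:ℕ) + 2*S + 2*T + 1))/(S*T^(2:ℕ)*(S*T + 2*S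 + 2*T + 2)), ((3*S^(2:ℕ)*T^(2:ℕ) + 4*S^(2:ℕ)*T + 4*S*T^(2:ℕ) + 2*S^(2:ℕ) + 8*S*T + 2*T^(2:ℕ) + 4*S + 4*T + 2))/((S + 1)*(T + 1)^(2:ℕ)*(S*T + 2*S + 2*T + 2))) = ((S*(2*S*T + S + T + 1))/((S + 1)*(T + 1)*(S*T + 2*S + 2*T + 2)), ((S*T^(2:ℕ) - S^(2:ℕ) - S*T - 2*S - T - 1))/(S*T*(S*T + 2*S + 2*T + 2)))) (f12 : fl S T Letter.ga ((S*(2*S*T + S + T + 1))/((S + 1)*(T + 1)*(S*T + 2*S + 2*T + 2)), ((S*T^(2:ℕ) - S^(2:ℕ) - S*T - 2*S - T - 1))/(S*T*(S*T + 2*S + 2*T + 2))) = (((2*T^(2:ℕ) - S + T - 1))/(T*(S*T + 2*S + 2*T + 2)), ((S*T^(2:ℕ) + S*T + 2*T^(2:ℕ) + S + 3*T + 1))/((T + 1)*(S*T + 2*S + 2*T + 2)))) (oP_0 : cond S T Letter.be (((S^(3:ℕ)*T^(4:ℕ)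 + 2*S^(3:ℕ)*T^(3:ℕ) + 3*S^(2:ℕ)*T^(4:ℕ) + 2*S^(3:ℕ)*T^(2:ℕ) + 7*S^(2:ℕ)*T^(3:ℕ) + 2*S*T^(4:ℕ) + 2*S^(3:ℕ)*T + 8*S^(2:ℕ)*T^(2:ℕ) + 6*S*T^(3:ℕ) + 2*S^(3:ℕ) + 10*S^(2:ℕ)*T + 12*S*T^(2:ℕ) + 2*T^(3:ℕ) + 6*S^(2:ℕ) + 14*S*T + 6*T^(2:ℕ) + 6*S + 6*T + 2))/(S*T^(2:ℕ)*(S + 1)*(T + 1)*(S*T + 2*S + 2*T + 2)), ((S*T + S + 1))/((S*T + 2*S + 2*T + 2)))) (oP_1 : cond S T Letter.al (((S*T^(2:ℕ) + S*T - S - T - 1))/(T*(S*T + 2*S + 2*T + 2)), ((S^(3:ℕ)*T^(3:ℕ) - 2*S^(3:ℕ)*T - 4*S^(2:ℕ)*T^(2:ℕ) - 2*S*T^(3:ℕ) - 2*S^(3:ℕ) - 10*S^(2:ℕ)*T - 10*S*T^(2:ℕ) - 2*T^(3:ℕ) - 6*S^(2:ℕ) - 14*S*T - 6*T^(2:ℕ) - 6*S - 6*T - 2))/(S*T*(S + 1)*(T + 1)^(2:ℕ)*(S*T + 2*S + 2*T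 + 2)))) (oP_2 : cond S T Letter.ga (((S*T^(2:ℕ) - S^(2:ℕ) - S*T - 2*S - T - 1))/(T*(S + 1)*(S*T + 2*S + 2*T + 2)), ((S^(2:ℕ)*T^(3:ℕ) + 2*S*T^(3:ℕ) - 2*S^(2:ℕ)*T - 2*S^(2:ℕ) - 6*S*T - 2*T^(2:ℕ) - 4*S - 4*T - 2))/(S*T*(T + 1)*(S*T + 2*S + 2*T + 2)))) (oP_3 : cond S T Letter.be (((S^(2:ℕ)*T^(3:ℕ) + 3*S*T^(3:ℕ) - 2*S^(2:ℕ)*T + 3*S*T^(2:ℕ) + 2*T^(3:ℕ) - 2*S^(2:ℕ) - 4*S*T + 2*T^(2:ℕ) - 4*S - 2*T - 2))/(T*(S + 1)*(T + 1)*(S*T + 2*S + 2*T + 2)), ((S + 1)*(T + 1)*(S*T + S + 1))/(S*T*(S*T + 2*S + 2*T + 2)))) (oP_4 : cond S T Letter.be (((S^(2:ℕ)*T^(3:ℕ) + 2*S^(2:ℕ)*T^(2:ℕ) + S*T^(3:ℕ) + S^(2:ℕ)*T + 2*S*T^(2:ℕ) + S^(2:ℕ) + 3*S*T + T^(2:ℕ) + 2*S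 + 2*T + 1))/(S*T^(2:ℕ)*(S*T + 2*S + 2*T + 2)), ((3*S^(2:ℕ)*T^(2:ℕ) + 4*S^(2:ℕ)*T + 4*S*T^(2:ℕ) + 2*S^(2:ℕ) + 8*S*T + 2*T^(2:ℕ) + 4*S + 4*T + 2))/((S + 1)*(T + 1)^(2:ℕ)*(S*T + 2*S + 2*T + 2)))) (oP_5 : cond S T Letter.ga ((S*(2*S*T + S + T + 1))/((S + 1)*(T + 1)*(S*T + 2*S + 2*T + 2)), ((S*T^(2:ℕ) - S^(2:ℕ) - S*T - 2*S - T - 1))/(S*T*(S*T + 2*S + 2*T + 2)))) (oP_6 : cond S T Letter.be (((2*T^(2:ℕ) - S + T - 1))/(T*(S*T + 2*S + 2*T + 2)), ((S*T^(2:ℕ) + S*T + 2*T^(2:ℕ) + S + 3*T + 1))/((T + 1)*(S*T + 2*S + 2*T + 2)))) :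
    okc S T [Letter.be, Letter.al, Letter.ga, Letter.be, Letter.be, Letter.ga, Letter.be] (((S^(3:ℕ)*T^(4:ℕ) + 2*S^(3:ℕ)*T^(3:ℕ) + 3*S^(2:ℕ)*T^(4:ℕ) + 2*S^(3:ℕ)*T^(2:ℕ) + 7*S^(2:ℕ)*T^(3:ℕ) + 2*S*T^(4:ℕ) + 2*S^(3:ℕ)*T + 8*S^(2:ℕ)*T^(2:ℕ) + 6*S*T^(3:ℕ) + 2*S^(3:ℕ) + 10*S^(2:ℕ)*T + 12*S*T^(2:ℕ) + 2*T^(3:ℕ) + 6*S^(2:ℕ) + 14*S*T + 6*T^(2:ℕ) + 6*S + 6*T + 2))/(S*T^(2:ℕ)*(S + 1)*(T + 1)*(S*T + 2*S + 2*T + 2)), ((S*T + S + 1))/((S*T + 2*S + 2*T + 2))) := (okc_cons' oP_0 f7 (okc_cons' oP_1 f8 (okc_cons' oP_2 f9 (okc_cons' oP_3 f10 (okc_cons' oP_4 f11 (okc_cons' oP_5 f12 (okc_last' oP_6)))))))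

theorem F5_d29 (S T : ℝ) (pT : 0 < T) (pA : 0 < (S + 1)) (pB : 0 < (T + 1)) (c0 : 0 < S*T + 2*S + 2*T + 2) :
    0 < T*(S + 1)^(2:ℕ)*(T + 1)^(2:ℕ)*(S*T + 2*S + 2*T + 2) := (mul_pos (mul_pos (mul_pos pT (pow_pos pA 2)) (pow_pos pB 2)) c0)

theorem F5_d30 (S T : ℝ) (pA : 0 < (S + 1)) (pB : 0 < (T + 1)) (c0 : 0 < S*T + 2*S + 2*T + 2) :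
    0 < (S + 1)^(2:ℕ)*(T + 1)^(3:ℕ)*(S*T + 2*S + 2*T + 2) := (mul_pos (mul_pos (pow_pos pA 2) (pow_pos pB 3)) c0)

theorem F5_f14 (S T : ℝ) (pT : 0 < T) (d1 : 0 < (S*T + 2*S + 2*T + 2)) (d2 : 0 < T*(S*T + 2*S + 2*T + 2)) (d29 : 0 < T*(S + 1)^(2:ℕ)*(T + 1)^(2:ℕ)*(S*T + 2*S + 2*T + 2)) (d30 : 0 < (S + 1)^(2:ℕ)*(T + 1)^(3:ℕ)*(S*T + 2*S + 2*T + 2)) :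
    fl S T Letter.be (((S^(3:ℕ)*T^(4:ℕ) + 3*S^(3:ℕ)*T^(3:ℕ) + 4*S^(2:ℕ)*T^(4:ℕ) + 3*S^(3:ℕ)*T^(2:ℕ) + 12*S^(2:ℕ)*T^(3:ℕ) + 5*S*T^(4:ℕ) + S^(3:ℕ)*T + 12*S^(2:ℕ)*T^(2:ℕ) + 15*S*T^(3:ℕ) + 2*T^(4:ℕ) + S^(3:ℕ) + 7*S^(2:ℕ)*T + 18*S*T^(2:ℕ) + 7*T^(3:ℕ) + 3*S^(2:ℕ) + 11*S*T + 9*T^(2:ℕ) + 3*S + 5*T + 1))/(T*(S + 1)^(2:ℕ)*(T + 1)^(2:ℕ)*(S*T + 2*S + 2*T + 2)), ((S*T + S + 1))/((S*T + 2*S + 2*T + 2))) = (((S*T^(2:ℕ) + S*T - S - T - 1))/(T*(S*T + 2*S + 2*T + 2)), ((S^(3:ℕ)*T^(3:ℕ) + 2*S^(3:ℕ)*T^(2:ℕ) + 2*S^(2:ℕ)*T^(3:ℕ) + S^(3:ℕ)*T + 4*S^(2:ℕ)*T^(2:ℕ) + S*T^(3:ℕ) - S^(3:ℕ) - S^(2:ℕ)*T - S*T^(2:ℕ) - T^(3:ℕ) - 3*S^(2:ℕ) - 5*S*T - 3*T^(2:ℕ) - 3*S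 - 3*T - 1))/((S + 1)^(2:ℕ)*(T + 1)^(3:ℕ)*(S*T + 2*S + 2*T + 2))) := fl_be' pT d29 d1 d2 d30 (by ring) (by ring)

theorem F5_f15 (S T : ℝ) (pS : 0 < S) (pT : 0 < T) (d2 : 0 < T*(S*T + 2*S + 2*T + 2)) (d4 : 0 < T*(S + 1)*(S*T + 2*S + 2*T + 2)) (d10 : 0 < (S + 1)*(T + 1)^(2:ℕ)*(S*T + 2*S + 2*T + 2)) (d30 : 0 < (S + 1)^(2:ℕ)*(T + 1)^(3:ℕ)*(S*T + 2*S + 2*T + 2)) :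
    fl S T Letter.al (((S*T^(2:ℕ) + S*T - S - T - 1))/(T*(S*T + 2*S + 2*T + 2)), ((S^(3:ℕ)*T^(3:ℕ) + 2*S^(3:ℕ)*T^(2:ℕ) + 2*S^(2:ℕ)*T^(3:ℕ) + S^(3:ℕ)*T + 4*S^(2:ℕ)*T^(2:ℕ) + S*T^(3:ℕ) - S^(3:ℕ) - S^(2:ℕ)*T - S*T^(2:ℕ) - T^(3:ℕ) - 3*S^(2:ℕ) - 5*S*T - 3*T^(2:ℕ) - 3*S - 3*T - 1))/((S + 1)^(2:ℕ)*(T + 1)^(3:ℕ)*(S*T + 2*S + 2*T + 2))) = (((S*T^(2:ℕ) - S^(2:ℕ) - S*T - 2*S - T - 1))/(T*(S + 1)*(S*T + 2*S + 2*T + 2)), ((S^(2:ℕ)*T^(3:ℕ) + 2*S^(2:ℕ)*T^(2:ℕ) + 3*S*T^(3:ℕ) + S^(2:ℕ)*T + 6*S*T^(2:ℕ) + 2*T^(3:ℕ) - S^(2:ℕ) + S*T + 3*T^(2:ℕ) - 2*S - 1))/((S + 1)*(T + 1)^(2:ℕ)*(S*T + 2*S + 2*T + 2))) := fl_al' pS pT d2 d30 d4 d10 (by ring) (by ring)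

theorem F5_d31 (S T : ℝ) (pA : 0 < (S + 1)) (pB : 0 < (T + 1)) (c0 : 0 < S*T + 2*S + 2*T + 2) :
    0 < (S + 1)^(2:ℕ)*(T + 1)^(2:ℕ)*(S*T + 2*S + 2*T + 2) := (mul_pos (mul_pos (pow_pos pA 2) (pow_pos pB 2)) c0)

theorem F5_f16 (S T : ℝ) (pS : 0 < S) (d3 : 0 < S*T*(S*T + 2*S + 2*T + 2)) (d4 : 0 < T*(S + 1)*(S*T + 2*S + 2*T + 2)) (d10 : 0 < (S + 1)*(T + 1)^(2:ℕ)*(S*T + 2*S + 2*T + 2)) (d31 : 0 < (S + 1)^(2:ℕ)*(T + 1)^(2:ℕ)*(S*T + 2*S + 2*T + 2)) :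
    fl S T Letter.ga (((S*T^(2:ℕ) - S^(2:ℕ) - S*T - 2*S - T - 1))/(T*(S + 1)*(S*T + 2*S + 2*T + 2)), ((S^(2:ℕ)*T^(3:ℕ) + 2*S^(2:ℕ)*T^(2:ℕ) + 3*S*T^(3:ℕ) + S^(2:ℕ)*T + 6*S*T^(2:ℕ) + 2*T^(3:ℕ) - S^(2:ℕ) + S*T + 3*T^(2:ℕ) - 2*S - 1))/((S + 1)*(T + 1)^(2:ℕ)*(S*T + 2*S + 2*T + 2))) = (((S^(3:ℕ)*T^(3:ℕ) + 2*S^(3:ℕ)*T^(2:ℕ) + 4*S^(2:ℕ)*T^(3:ℕ) + S^(3:ℕ)*T + 10*S^(2:ℕ)*T^(2:ℕ) + 5*S*T^(3:ℕ) - S^(3:ℕ) + 6*S^(2:ℕ)*T + 13*S*T^(2:ℕ) + 2*T^(3:ℕ) + 11*S*T + 6*T^(2:ℕ) + 3*S + 6*T + 2))/((S + 1)^(2:ℕ)*(T + 1)^(2:ℕ)*(S*T + 2*S + 2*T + 2)), ((S + 1)*(T + 1)*(S*T + S + 1))/(S*T*(S*T + 2*S + 2*T + 2))) := fl_ga' pS d4 d10 d31 d3 (by ring) (by ring)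

theorem F5_f17 (S T : ℝ) (pT : 0 < T) (d0 : 0 < S*T^(2:ℕ)*(S*T + 2*S + 2*T + 2)) (d3 : 0 < S*T*(S*T + 2*S + 2*T + 2)) (d30 : 0 < (S + 1)^(2:ℕ)*(T + 1)^(3:ℕ)*(S*T + 2*S + 2*T + 2)) (d31 : 0 < (S + 1)^(2:ℕ)*(T + 1)^(2:ℕ)*(S*T + 2*S + 2*T + 2)) :
    fl S T Letter.be (((S^(3:ℕ)*T^(3:ℕ) + 2*S^(3:ℕ)*T^(2:ℕ) + 4*S^(2:ℕ)*T^(3:ℕ) + S^(3:ℕ)*T + 10*S^(2:ℕ)*T^(2:ℕ) + 5*S*T^(3:ℕ) - S^(3:ℕ) + 6*S^(2:ℕ)*T + 13*S*T^(2:ℕ) + 2*T^(3:ℕ) + 11*S*T + 6*T^(2:ℕ) + 3*S + 6*T + 2))/((S + 1)^(2:ℕ)*(T + 1)^(2:ℕ)*(S*T + 2*S + 2*T + 2)), ((S + 1)*(T + 1)*(S*T + S + 1))/(S*T*(S*T + 2*S + 2*T + 2))) = (((S^(2:ℕ)*T^(3:ℕ) + 2*S^(2:ℕ)*T^(2:ℕ) + S*T^(3:ℕ) + S^(2:ℕ)*T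 + 2*S*T^(2:ℕ) + S^(2:ℕ) + 3*S*T + T^(2:ℕ) + 2*S + 2*T + 1))/(S*T^(2:ℕ)*(S*T + 2*S + 2*T + 2)), (S*T*(2*S^(2:ℕ)*T^(2:ℕ) + 4*S^(2:ℕ)*T + 4*S*T^(2:ℕ) + 3*S^(2:ℕ) + 10*S*T + 3*T^(2:ℕ) + 6*S + 6*T + 3))/((S + 1)^(2:ℕ)*(T + 1)^(3:ℕ)*(S*T + 2*S + 2*T + 2))) := fl_be' pT d31 d3 d0 d30 (by ring) (by ring)

theorem F5_f18 (S T : ℝ) (pT : 0 < T) (d0 : 0 < S*T^(2:ℕ)*(S*T + 2*S + 2*T + 2)) (d3 : 0 < S*T*(S*T + 2*S + 2*T + 2)) (d29 : 0 < T*(S + 1)^(2:ℕ)*(T + 1)^(2:ℕ)*(S*T + 2*S + 2*T + 2)) (d30 : 0 < (S + 1)^(2:ℕ)*(T + 1)^(3:ℕ)*(S*T + 2*S + 2*T + 2)) :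
    fl S T Letter.be (((S^(2:ℕ)*T^(3:ℕ) + 2*S^(2:ℕ)*T^(2:ℕ) + S*T^(3:ℕ) + S^(2:ℕ)*T + 2*S*T^(2:ℕ) + S^(2:ℕ) + 3*S*T + T^(2:ℕ) + 2*S + 2*T + 1))/(S*T^(2:ℕ)*(S*T + 2*S + 2*T + 2)), (S*T*(2*S^(2:ℕ)*T^(2:ℕ) + 4*S^(2:ℕ)*T + 4*S*T^(2:ℕ) + 3*S^(2:ℕ) + 10*S*T + 3*T^(2:ℕ) + 6*S + 6*T + 3))/((S + 1)^(2:ℕ)*(T + 1)^(3:ℕ)*(S*T + 2*S + 2*T + 2))) = (((S^(3:ℕ)*T^(3:ℕ) - 2*S^(3:ℕ)*T - 4*S^(2:ℕ)*T^(2:ℕ) - 2*S*T^(3:ℕ) - 2*S^(3:ℕ) - 10*S^(2:ℕ)*T - 10*S*T^(2:ℕ) - 2*T^(3:ℕ) - 6*S^(2:ℕ) - 14*S*T - 6*T^(2:ℕ) - 6*S - 6*T - 2))/(T*(S + 1)^(2:ℕ)*(T + 1)^(2:ℕ)*(S*T + 2*S + 2*T + 2)), ((S*T^(2:ℕ) - S^(2:ℕ) - S*T - 2*S - T - 1))/(S*T*(S*T + 2*S + 2*T + 2))) :=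 fl_be' pT d0 d30 d29 d3 (by ring) (by ring)

theorem F5_f19 (S T : ℝ) (pS : 0 < S) (d2 : 0 < T*(S*T + 2*S + 2*T + 2)) (d3 : 0 < S*T*(S*T + 2*S + 2*T + 2)) (d7 : 0 < S*T*(S + 1)*(T + 1)^(2:ℕ)*(S*T + 2*S + 2*T + 2)) (d29 : 0 < T*(S + 1)^(2:ℕ)*(T + 1)^(2:ℕ)*(S*T + 2*S + 2*T + 2)) :
    fl S T Letter.ga (((S^(3:ℕ)*T^(3:ℕ) - 2*S^(3:ℕ)*T - 4*S^(2:ℕ)*T^(2:ℕ) - 2*S*T^(3:ℕ) - 2*S^(3:ℕ) - 10*S^(2:ℕ)*T - 10*S*T^(2:ℕ) - 2*T^(3:ℕ) - 6*S^(2:ℕ) - 14*S*T - 6*T^(2:ℕ) - 6*S - 6*T - 2))/(T*(S + 1)^(2:ℕ)*(T + 1)^(2:ℕ)*(S*T + 2*S + 2*T + 2)), ((S*T^(2:ℕ) - S^(2:ℕ) - S*T - 2*S - T - 1))/(S*T*(S*T + 2*S + 2*T + 2))) = (((2*T^(2:ℕ) - S + T - 1))/(T*(S*T +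 2*S + 2*T + 2)), ((S^(3:ℕ)*T^(4:ℕ) + 3*S^(3:ℕ)*T^(3:ℕ) + 3*S^(2:ℕ)*T^(4:ℕ) + 5*S^(3:ℕ)*T^(2:ℕ) + 10*S^(2:ℕ)*T^(3:ℕ) + 2*S*T^(4:ℕ) + 4*S^(3:ℕ)*T + 15*S^(2:ℕ)*T^(2:ℕ) + 8*S*T^(3:ℕ) + 2*S^(3:ℕ) + 14*S^(2:ℕ)*T + 16*S*T^(2:ℕ) + 2*T^(3:ℕ) + 6*S^(2:ℕ) + 16*S*T + 6*T^(2:ℕ) + 6*S + 6*T + 2))/(S*T*(S + 1)*(T + 1)^(2:ℕ)*(S*T + 2*S + 2*T + 2))) := fl_ga' pS d29 d3 d2 d7 (by ring) (by ring)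

theorem F5_f20 (S T : ℝ) (pT : 0 < T) (d1 : 0 < (S*T + 2*S + 2*T + 2)) (d2 : 0 < T*(S*T + 2*S + 2*T + 2)) (d6 : 0 < S*T^(2:ℕ)*(S + 1)*(T + 1)*(S*T + 2*S + 2*T + 2)) (d7 : 0 < S*T*(S + 1)*(T + 1)^(2:ℕ)*(S*T + 2*S + 2*T + 2)) :
    fl S T Letter.be (((2*T^(2:ℕ) - S + T - 1))/(T*(S*T + 2*S + 2*T + 2)), ((S^(3:ℕ)*T^(4:ℕ) + 3*S^(3:ℕ)*T^(3:ℕ) + 3*S^(2:ℕ)*T^(4:ℕ) + 5*S^(3:ℕ)*T^(2:ℕ) + 10*S^(2:ℕ)*T^(3:ℕ) + 2*S*T^(4:ℕ) + 4*S^(3:ℕ)*T + 15*S^(2:ℕ)*T^(2:ℕ) + 8*S*T^(3:ℕ) + 2*S^(3:ℕ) + 14*S^(2:ℕ)*T + 16*S*T^(2:ℕ) + 2*T^(3:ℕ) + 6*S^(2:ℕ) + 16*S*T + 6*T^(2:ℕ) + 6*S + 6*T + 2))/(S*T*(S + 1)*(T + 1)^(2:ℕ)*(S*T + 2*S + 2*T + 2))) = (((S^(3:ℕ)*T^(4:ℕ)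 + 2*S^(3:ℕ)*T^(3:ℕ) + 3*S^(2:ℕ)*T^(4:ℕ) + 2*S^(3:ℕ)*T^(2:ℕ) + 7*S^(2:ℕ)*T^(3:ℕ) + 2*S*T^(4:ℕ) + 2*S^(3:ℕ)*T + 8*S^(2:ℕ)*T^(2:ℕ) + 6*S*T^(3:ℕ) + 2*S^(3:ℕ) + 10*S^(2:ℕ)*T + 12*S*T^(2:ℕ) + 2*T^(3:ℕ) + 6*S^(2:ℕ) + 14*S*T + 6*T^(2:ℕ) + 6*S + 6*T + 2))/(S*T^(2:ℕ)*(S + 1)*(T + 1)*(S*T + 2*S + 2*T + 2)), ((S*T + S + 1))/((S*T + 2*S + 2*T + 2))) := fl_be' pT d2 d7 d6 d1 (by ring) (by ring)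

theorem F5_d32 (S T : ℝ) (c17 : 0 < S^(3:ℕ)*T^(4:ℕ) + 3*S^(3:ℕ)*T^(3:ℕ) + 4*S^(2:ℕ)*T^(4:ℕ) + 3*S^(3:ℕ)*T^(2:ℕ) + 12*S^(2:ℕ)*T^(3:ℕ) + 5*S*T^(4:ℕ) + S^(3:ℕ)*T + 12*S^(2:ℕ)*T^(2:ℕ) + 15*S*T^(3:ℕ) + 2*T^(4:ℕ) + S^(3:ℕ) + 7*S^(2:ℕ)*T + 18*S*T^(2:ℕ) + 7*T^(3:ℕ) + 3*S^(2:ℕ) + 11*S*T + 9*T^(2:ℕ) + 3*S + 5*T + 1) :
    0 < (S^(3:ℕ)*T^(4:ℕ) + 3*S^(3:ℕ)*T^(3:ℕ) + 4*S^(2:ℕ)*T^(4:ℕ) + 3*S^(3:ℕ)*T^(2:ℕ) + 12*S^(2:ℕ)*T^(3:ℕ) + 5*S*T^(4:ℕ) + S^(3:ℕ)*T + 12*S^(2:ℕ)*T^(2:ℕ) + 15*S*T^(3:ℕ) + 2*T^(4:ℕ) + S^(3:ℕ) + 7*S^(2:ℕ)*T + 18*S*T^(2:ℕ) + 7*T^(3:ℕ) + 3*S^(2:ℕ) + 11*S*T + 9*T^(2:ℕ) + 3*S + 5*T + 1) := c17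

theorem F5_q4 (S T : ℝ) (d29 : 0 < T*(S + 1)^(2:ℕ)*(T + 1)^(2:ℕ)*(S*T + 2*S + 2*T + 2)) (d32 : 0 < (S^(3:ℕ)*T^(4:ℕ) + 3*S^(3:ℕ)*T^(3:ℕ) + 4*S^(2:ℕ)*T^(4:ℕ) + 3*S^(3:ℕ)*T^(2:ℕ) + 12*S^(2:ℕ)*T^(3:ℕ) + 5*S*T^(4:ℕ) + S^(3:ℕ)*T + 12*S^(2:ℕ)*T^(2:ℕ) + 15*S*T^(3:ℕ) + 2*T^(4:ℕ) + S^(3:ℕ) + 7*S^(2:ℕ)*T + 18*S*T^(2:ℕ) + 7*T^(3:ℕ) + 3*S^(2:ℕ) + 11*S*T + 9*T^(2:ℕ) + 3*S + 5*T + 1)) :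
    0 < ((S^(3:ℕ)*T^(4:ℕ) + 3*S^(3:ℕ)*T^(3:ℕ) + 4*S^(2:ℕ)*T^(4:ℕ) + 3*S^(3:ℕ)*T^(2:ℕ) + 12*S^(2:ℕ)*T^(3:ℕ) + 5*S*T^(4:ℕ) + S^(3:ℕ)*T + 12*S^(2:ℕ)*T^(2:ℕ) + 15*S*T^(3:ℕ) + 2*T^(4:ℕ) + S^(3:ℕ) + 7*S^(2:ℕ)*T + 18*S*T^(2:ℕ) + 7*T^(3:ℕ) + 3*S^(2:ℕ) + 11*S*T + 9*T^(2:ℕ) + 3*S + 5*T + 1))/(T*(S + 1)^(2:ℕ)*(T + 1)^(2:ℕ)*(S*T + 2*S + 2*T + 2)) := div_pos d32 d29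

theorem F5_d33 (S T : ℝ) (c18 : 0 < S^(3:ℕ)*T^(3:ℕ) + 2*S^(3:ℕ)*T^(2:ℕ) + 2*S^(2:ℕ)*T^(3:ℕ) + S^(3:ℕ)*T + 4*S^(2:ℕ)*T^(2:ℕ) + S*T^(3:ℕ) - S^(3:ℕ) - S^(2:ℕ)*T - S*T^(2:ℕ) - T^(3:ℕ) - 3*S^(2:ℕ) - 5*S*T - 3*T^(2:ℕ) - 3*S - 3*T - 1) :
    0 < (S^(3:ℕ)*T^(3:ℕ) + 2*S^(3:ℕ)*T^(2:ℕ) + 2*S^(2:ℕ)*T^(3:ℕ) + S^(3:ℕ)*T + 4*S^(2:ℕ)*T^(2:ℕ) + S*T^(3:ℕ) - S^(3:ℕ) - S^(2:ℕ)*T - S*T^(2:ℕ) - T^(3:ℕ) - 3*S^(2:ℕ) - 5*S*T - 3*T^(2:ℕ) - 3*S - 3*T - 1) := c18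

theorem F5_q5 (S T : ℝ) (d29 : 0 < T*(S + 1)^(2:ℕ)*(T + 1)^(2:ℕ)*(S*T + 2*S + 2*T + 2)) (d33 : 0 < (S^(3:ℕ)*T^(3:ℕ) + 2*S^(3:ℕ)*T^(2:ℕ) + 2*S^(2:ℕ)*T^(3:ℕ) + S^(3:ℕ)*T + 4*S^(2:ℕ)*T^(2:ℕ) + S*T^(3:ℕ) - S^(3:ℕ) - S^(2:ℕ)*T - S*T^(2:ℕ) - T^(3:ℕ) - 3*S^(2:ℕ) - 5*S*T - 3*T^(2:ℕ) - 3*S - 3*T - 1)) :
    ((S^(3:ℕ)*T^(4:ℕ) + 3*S^(3:ℕ)*T^(3:ℕ) + 4*S^(2:ℕ)*T^(4:ℕ) + 3*S^(3:ℕ)*T^(2:ℕ) + 12*S^(2:ℕ)*T^(3:ℕ) + 5*S*T^(4:ℕ) + S^(3:ℕ)*T + 12*S^(2:ℕ)*T^(2:ℕ) + 15*S*T^(3:ℕ) + 2*T^(4:ℕ) + S^(3:ℕ) + 7*S^(2:ℕ)*T + 18*S*T^(2:ℕ) + 7*T^(3:ℕ) + 3*S^(2:ℕ) + 11*S*T + 9*T^(2:ℕ) + 3*S + 5*T + 1))/(T*(S + 1)^(2:ℕ)*(T + 1)^(2:ℕ)*(S*T + 2*S + 2*T + 2)) < 1 := rlt1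 d29 d33 d29 (by ring)

theorem F5_sQ (S T : ℝ) (q2 : 0 < ((S*T + S + 1))/((S*T + 2*S + 2*T + 2))) (q3 : ((S*T + S + 1))/((S*T + 2*S + 2*T + 2)) < 1) (q4 : 0 < ((S^(3:ℕ)*T^(4:ℕ) + 3*S^(3:ℕ)*T^(3:ℕ) + 4*S^(2:ℕ)*T^(4:ℕ) + 3*S^(3:ℕ)*T^(2:ℕ) + 12*S^(2:ℕ)*T^(3:ℕ) + 5*S*T^(4:ℕ) + S^(3:ℕ)*T + 12*S^(2:ℕ)*T^(2:ℕ) + 15*S*T^(3:ℕ) + 2*T^(4:ℕ) + S^(3:ℕ) + 7*S^(2:ℕ)*T + 18*S*T^(2:ℕ) + 7*T^(3:ℕ) + 3*S^(2:ℕ) + 11*S*T + 9*T^(2:ℕ) + 3*S + 5*T + 1))/(T*(S + 1)^(2:ℕ)*(T + 1)^(2:ℕ)*(S*T + 2*S + 2*T + 2))) (q5 : ((S^(3:ℕ)*T^(4:ℕ) + 3*S^(3:ℕ)*T^(3:ℕ) + 4*S^(2:ℕ)*T^(4:ℕ) + 3*S^(3:ℕ)*T^(2:ℕ) + 12*S^(2:ℕ)*T^(3:ℕ) + 5*S*T^(4:ℕ) + S^(3:ℕ)*T + 12*S^(2:ℕ)*T^(2:ℕ)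 + 15*S*T^(3:ℕ) + 2*T^(4:ℕ) + S^(3:ℕ) + 7*S^(2:ℕ)*T + 18*S*T^(2:ℕ) + 7*T^(3:ℕ) + 3*S^(2:ℕ) + 11*S*T + 9*T^(2:ℕ) + 3*S + 5*T + 1))/(T*(S + 1)^(2:ℕ)*(T + 1)^(2:ℕ)*(S*T + 2*S + 2*T + 2)) < 1) :
    Sq (((S^(3:ℕ)*T^(4:ℕ) + 3*S^(3:ℕ)*T^(3:ℕ) + 4*S^(2:ℕ)*T^(4:ℕ) + 3*S^(3:ℕ)*T^(2:ℕ) + 12*S^(2:ℕ)*T^(3:ℕ) + 5*S*T^(4:ℕ) + S^(3:ℕ)*T + 12*S^(2:ℕ)*T^(2:ℕ) + 15*S*T^(3:ℕ) + 2*T^(4:ℕ) + S^(3:ℕ) + 7*S^(2:ℕ)*T + 18*S*T^(2:ℕ) + 7*T^(3:ℕ) + 3*S^(2:ℕ) + 11*S*T + 9*T^(2:ℕ) + 3*S + 5*T + 1))/(T*(S + 1)^(2:ℕ)*(T + 1)^(2:ℕ)*(S*T + 2*S + 2*T + 2)), ((S*T + S + 1))/((S*T + 2*S + 2*T + 2))) := ⟨⟨q4, q5⟩, q2, q3⟩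

theorem F5_d34 (S T : ℝ) (c19 : 0 < S^(3:ℕ)*T^(5:ℕ) - S^(4:ℕ)*T^(3:ℕ) + 4*S^(3:ℕ)*T^(4:ℕ) + 4*S^(2:ℕ)*T^(5:ℕ) - 2*S^(4:ℕ)*T^(2:ℕ) + 4*S^(3:ℕ)*T^(3:ℕ) + 16*S^(2:ℕ)*T^(4:ℕ) + 5*S*T^(5:ℕ) - S^(4:ℕ)*T + 23*S^(2:ℕ)*T^(3:ℕ) + 20*S*T^(4:ℕ) + 2*T^(5:ℕ) + S^(4:ℕ) + 3*S^(3:ℕ)*T + 20*S^(2:ℕ)*T^(2:ℕ) + 34*S*T^(3:ℕ) + 9*T^(4:ℕ) + 4*S^(3:ℕ) + 15*S^(2:ℕ)*T + 32*S*T^(2:ℕ) + 16*T^(3:ℕ) + 6*S^(2:ℕ) + 17*S*T + 14*T^(2:ℕ) + 4*S + 6*T + 1) :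
    0 < (S^(3:ℕ)*T^(5:ℕ) - S^(4:ℕ)*T^(3:ℕ) + 4*S^(3:ℕ)*T^(4:ℕ) + 4*S^(2:ℕ)*T^(5:ℕ) - 2*S^(4:ℕ)*T^(2:ℕ) + 4*S^(3:ℕ)*T^(3:ℕ) + 16*S^(2:ℕ)*T^(4:ℕ) + 5*S*T^(5:ℕ) - S^(4:ℕ)*T + 23*S^(2:ℕ)*T^(3:ℕ) + 20*S*T^(4:ℕ) + 2*T^(5:ℕ) + S^(4:ℕ) + 3*S^(3:ℕ)*T + 20*S^(2:ℕ)*T^(2:ℕ) + 34*S*T^(3:ℕ) + 9*T^(4:ℕ) + 4*S^(3:ℕ) + 15*S^(2:ℕ)*T + 32*S*T^(2:ℕ) + 16*T^(3:ℕ) + 6*S^(2:ℕ) + 17*S*T + 14*T^(2:ℕ) + 4*S + 6*T + 1) := c19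

theorem F5_g12 (S T : ℝ) (d29 : 0 < T*(S + 1)^(2:ℕ)*(T + 1)^(2:ℕ)*(S*T + 2*S + 2*T + 2)) (d34 : 0 < (S^(3:ℕ)*T^(5:ℕ) - S^(4:ℕ)*T^(3:ℕ) + 4*S^(3:ℕ)*T^(4:ℕ) + 4*S^(2:ℕ)*T^(5:ℕ) - 2*S^(4:ℕ)*T^(2:ℕ) + 4*S^(3:ℕ)*T^(3:ℕ) + 16*S^(2:ℕ)*T^(4:ℕ) + 5*S*T^(5:ℕ) - S^(4:ℕ)*T + 23*S^(2:ℕ)*T^(3:ℕ) + 20*S*T^(4:ℕ) + 2*T^(5:ℕ) + S^(4:ℕ) + 3*S^(3:ℕ)*T + 20*S^(2:ℕ)*T^(2:ℕ) + 34*S*T^(3:ℕ) + 9*T^(4:ℕ) + 4*S^(3:ℕ) + 15*S^(2:ℕ)*T + 32*S*T^(2:ℕ) + 16*T^(3:ℕ) + 6*S^(2:ℕ) + 17*S*T + 14*T^(2:ℕ) + 4*S + 6*T + 1)) :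
    S < (S + T + 1) * (((S^(3:ℕ)*T^(4:ℕ) + 3*S^(3:ℕ)*T^(3:ℕ) + 4*S^(2:ℕ)*T^(4:ℕ) + 3*S^(3:ℕ)*T^(2:ℕ) + 12*S^(2:ℕ)*T^(3:ℕ) + 5*S*T^(4:ℕ) + S^(3:ℕ)*T + 12*S^(2:ℕ)*T^(2:ℕ) + 15*S*T^(3:ℕ) + 2*T^(4:ℕ) + S^(3:ℕ) + 7*S^(2:ℕ)*T + 18*S*T^(2:ℕ) + 7*T^(3:ℕ) + 3*S^(2:ℕ) + 11*S*T + 9*T^(2:ℕ) + 3*S + 5*T + 1))/(T*(S + 1)^(2:ℕ)*(T + 1)^(2:ℕ)*(S*T + 2*S + 2*T + 2))) := rgt d29 d34 d29 (by ring)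

theorem F5_oQ_0 (S T : ℝ) (g1 : 1 < (T + 1) * (((S*T + S + 1))/((S*T + 2*S + 2*T + 2)))) (g12 : S < (S + T + 1) * (((S^(3:ℕ)*T^(4:ℕ) + 3*S^(3:ℕ)*T^(3:ℕ) + 4*S^(2:ℕ)*T^(4:ℕ) + 3*S^(3:ℕ)*T^(2:ℕ) + 12*S^(2:ℕ)*T^(3:ℕ) + 5*S*T^(4:ℕ) + S^(3:ℕ)*T + 12*S^(2:ℕ)*T^(2:ℕ) + 15*S*T^(3:ℕ) + 2*T^(4:ℕ) + S^(3:ℕ) + 7*S^(2:ℕ)*T + 18*S*T^(2:ℕ) + 7*T^(3:ℕ) + 3*S^(2:ℕ) + 11*S*T + 9*T^(2:ℕ) + 3*S + 5*T + 1))/(T*(S + 1)^(2:ℕ)*(T + 1)^(2:ℕ)*(S*T + 2*S + 2*T + 2)))) :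
    cond S T Letter.be (((S^(3:ℕ)*T^(4:ℕ) + 3*S^(3:ℕ)*T^(3:ℕ) + 4*S^(2:ℕ)*T^(4:ℕ) + 3*S^(3:ℕ)*T^(2:ℕ) + 12*S^(2:ℕ)*T^(3:ℕ) + 5*S*T^(4:ℕ) + S^(3:ℕ)*T + 12*S^(2:ℕ)*T^(2:ℕ) + 15*S*T^(3:ℕ) + 2*T^(4:ℕ) + S^(3:ℕ) + 7*S^(2:ℕ)*T + 18*S*T^(2:ℕ) + 7*T^(3:ℕ) + 3*S^(2:ℕ) + 11*S*T + 9*T^(2:ℕ) + 3*S + 5*T + 1))/(T*(S + 1)^(2:ℕ)*(T + 1)^(2:ℕ)*(S*T + 2*S + 2*T + 2)), ((S*T + S + 1))/((S*T + 2*S + 2*T + 2))) := ⟨g12, g1⟩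

theorem F5_d35 (S T : ℝ) (pU : 0 < (S + T + 1)) (c20 : 0 < 2*S^(2:ℕ)*T^(2:ℕ) + 4*S^(2:ℕ)*T + 4*S*T^(2:ℕ) + 3*S^(2:ℕ) + 10*S*T + 3*T^(2:ℕ) + 6*S + 6*T + 3) :
    0 < (S + T + 1)*(2*S^(2:ℕ)*T^(2:ℕ) + 4*S^(2:ℕ)*T + 4*S*T^(2:ℕ) + 3*S^(2:ℕ) + 10*S*T + 3*T^(2:ℕ) + 6*S + 6*T + 3) := (mul_pos pU c20)

theorem F5_g13 (S T : ℝ) (d30 : 0 < (S + 1)^(2:ℕ)*(T + 1)^(3:ℕ)*(S*T + 2*S + 2*T + 2)) (d31 : 0 < (S + 1)^(2:ℕ)*(T + 1)^(2:ℕ)*(S*T + 2*S + 2*T + 2)) (d35 : 0 < (S + T + 1)*(2*S^(2:ℕ)*T^(2:ℕ) + 4*S^(2:ℕ)*T + 4*S*T^(2:ℕ) + 3*S^(2:ℕ) + 10*S*T + 3*T^(2:ℕ) + 6*S + 6*T + 3)) :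
    (T + 1) * (((S^(3:ℕ)*T^(3:ℕ) + 2*S^(3:ℕ)*T^(2:ℕ) + 2*S^(2:ℕ)*T^(3:ℕ) + S^(3:ℕ)*T + 4*S^(2:ℕ)*T^(2:ℕ) + S*T^(3:ℕ) - S^(3:ℕ) - S^(2:ℕ)*T - S*T^(2:ℕ) - T^(3:ℕ) - 3*S^(2:ℕ) - 5*S*T - 3*T^(2:ℕ) - 3*S - 3*T - 1))/((S + 1)^(2:ℕ)*(T + 1)^(3:ℕ)*(S*T + 2*S + 2*T + 2))) < 1 := rlt d30 d35 d31 (by ring)

theorem F5_oQ_1 (S T : ℝ) (g2 : S < (S + T + 1) * (((S*T^(2:ℕ) + S*T - S - T - 1))/(T*(S*T + 2*S + 2*T + 2)))) (g13 : (T + 1) * (((S^(3:ℕ)*T^(3:ℕ) + 2*S^(3:ℕ)*T^(2:ℕ) + 2*S^(2:ℕ)*T^(3:ℕ) + S^(3:ℕ)*T + 4*S^(2:ℕ)*T^(2:ℕ) + S*T^(3:ℕ) - S^(3:ℕ) - S^(2:ℕ)*T - S*T^(2:ℕ) - T^(3:ℕ) - 3*S^(2:ℕ) - 5*S*T - 3*T^(2:ℕ) - 3*S - 3*T - 1))/((S + 1)^(2:ℕ)*(T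 + 1)^(3:ℕ)*(S*T + 2*S + 2*T + 2))) < 1) :
    cond S T Letter.al (((S*T^(2:ℕ) + S*T - S - T - 1))/(T*(S*T + 2*S + 2*T + 2)), ((S^(3:ℕ)*T^(3:ℕ) + 2*S^(3:ℕ)*T^(2:ℕ) + 2*S^(2:ℕ)*T^(3:ℕ) + S^(3:ℕ)*T + 4*S^(2:ℕ)*T^(2:ℕ) + S*T^(3:ℕ) - S^(3:ℕ) - S^(2:ℕ)*T - S*T^(2:ℕ) - T^(3:ℕ) - 3*S^(2:ℕ) - 5*S*T - 3*T^(2:ℕ) - 3*S - 3*T - 1))/((S + 1)^(2:ℕ)*(T + 1)^(3:ℕ)*(S*T + 2*S + 2*T + 2))) := ⟨g2, g13⟩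

theorem F5_oQ_2 (S T : ℝ) (g4 : (S + T + 1) * (((S*T^(2:ℕ) - S^(2:ℕ) - S*T - 2*S - T - 1))/(T*(S + 1)*(S*T + 2*S + 2*T + 2))) < S) :
    cond S T Letter.ga (((S*T^(2:ℕ) - S^(2:ℕ) - S*T - 2*S - T - 1))/(T*(S + 1)*(S*T + 2*S + 2*T + 2)), ((S^(2:ℕ)*T^(3:ℕ) + 2*S^(2:ℕ)*T^(2:ℕ) + 3*S*T^(3:ℕ) + S^(2:ℕ)*T + 6*S*T^(2:ℕ) + 2*T^(3:ℕ) - S^(2:ℕ) + S*T + 3*T^(2:ℕ) - 2*S - 1))/((S + 1)*(T + 1)^(2:ℕ)*(S*T + 2*S + 2*T + 2))) := g4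

theorem F5_d36 (S T : ℝ) (c21 : 0 < S^(3:ℕ)*T^(4:ℕ) - 2*S^(4:ℕ)*T^(2:ℕ) + 3*S^(3:ℕ)*T^(3:ℕ) + 4*S^(2:ℕ)*T^(4:ℕ) - 4*S^(4:ℕ)*T - S^(3:ℕ)*T^(2:ℕ) + 14*S^(2:ℕ)*T^(3:ℕ) + 5*S*T^(4:ℕ) - 3*S^(4:ℕ) - 10*S^(3:ℕ)*T + 13*S^(2:ℕ)*T^(2:ℕ) + 18*S*T^(3:ℕ) + 2*T^(4:ℕ) - 7*S^(3:ℕ) + 24*S*T^(2:ℕ) + 8*T^(3:ℕ) - 3*S^(2:ℕ) + 14*S*T + 12*T^(2:ℕ) + 3*S + 8*T + 2) :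
    0 < (S^(3:ℕ)*T^(4:ℕ) - 2*S^(4:ℕ)*T^(2:ℕ) + 3*S^(3:ℕ)*T^(3:ℕ) + 4*S^(2:ℕ)*T^(4:ℕ) - 4*S^(4:ℕ)*T - S^(3:ℕ)*T^(2:ℕ) + 14*S^(2:ℕ)*T^(3:ℕ) + 5*S*T^(4:ℕ) - 3*S^(4:ℕ) - 10*S^(3:ℕ)*T + 13*S^(2:ℕ)*T^(2:ℕ) + 18*S*T^(3:ℕ) + 2*T^(4:ℕ) - 7*S^(3:ℕ) + 24*S*T^(2:ℕ) + 8*T^(3:ℕ) - 3*S^(2:ℕ) + 14*S*T + 12*T^(2:ℕ) + 3*S + 8*T + 2) := c21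

theorem F5_g14 (S T : ℝ) (d31 : 0 < (S + 1)^(2:ℕ)*(T + 1)^(2:ℕ)*(S*T + 2*S + 2*T + 2)) (d36 : 0 < (S^(3:ℕ)*T^(4:ℕ) - 2*S^(4:ℕ)*T^(2:ℕ) + 3*S^(3:ℕ)*T^(3:ℕ) + 4*S^(2:ℕ)*T^(4:ℕ) - 4*S^(4:ℕ)*T - S^(3:ℕ)*T^(2:ℕ) + 14*S^(2:ℕ)*T^(3:ℕ) + 5*S*T^(4:ℕ) - 3*S^(4:ℕ) - 10*S^(3:ℕ)*T + 13*S^(2:ℕ)*T^(2:ℕ) + 18*S*T^(3:ℕ) + 2*T^(4:ℕ) - 7*S^(3:ℕ) + 24*S*T^(2:ℕ) + 8*T^(3:ℕ) - 3*S^(2:ℕ) + 14*S*T + 12*T^(2:ℕ) + 3*S + 8*T + 2)) :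
    S < (S + T + 1) * (((S^(3:ℕ)*T^(3:ℕ) + 2*S^(3:ℕ)*T^(2:ℕ) + 4*S^(2:ℕ)*T^(3:ℕ) + S^(3:ℕ)*T + 10*S^(2:ℕ)*T^(2:ℕ) + 5*S*T^(3:ℕ) - S^(3:ℕ) + 6*S^(2:ℕ)*T + 13*S*T^(2:ℕ) + 2*T^(3:ℕ) + 11*S*T + 6*T^(2:ℕ) + 3*S + 6*T + 2))/((S + 1)^(2:ℕ)*(T + 1)^(2:ℕ)*(S*T + 2*S + 2*T + 2))) := rgt d31 d36 d31 (by ring)

theorem F5_oQ_3 (S T : ℝ) (g6 : 1 < (T + 1) * (((S + 1)*(T + 1)*(S*T + S + 1))/(S*T*(S*T + 2*S + 2*T + 2)))) (g14 : S < (S + T + 1) * (((S^(3:ℕ)*T^(3:ℕ) + 2*S^(3:ℕ)*T^(2:ℕ) + 4*S^(2:ℕ)*T^(3:ℕ) + S^(3:ℕ)*T + 10*S^(2:ℕ)*T^(2:ℕ) + 5*S*T^(3:ℕ) - S^(3:ℕ) + 6*S^(2:ℕ)*T + 13*S*T^(2:ℕ) + 2*T^(3:ℕ) + 11*S*T + 6*T^(2:ℕ) + 3*S + 6*T + 2))/((S + 1)^(2:ℕ)*(T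 + 1)^(2:ℕ)*(S*T + 2*S + 2*T + 2)))) :
    cond S T Letter.be (((S^(3:ℕ)*T^(3:ℕ) + 2*S^(3:ℕ)*T^(2:ℕ) + 4*S^(2:ℕ)*T^(3:ℕ) + S^(3:ℕ)*T + 10*S^(2:ℕ)*T^(2:ℕ) + 5*S*T^(3:ℕ) - S^(3:ℕ) + 6*S^(2:ℕ)*T + 13*S*T^(2:ℕ) + 2*T^(3:ℕ) + 11*S*T + 6*T^(2:ℕ) + 3*S + 6*T + 2))/((S + 1)^(2:ℕ)*(T + 1)^(2:ℕ)*(S*T + 2*S + 2*T + 2)), ((S + 1)*(T + 1)*(S*T + S + 1))/(S*T*(S*T + 2*S + 2*T + 2))) := ⟨g14, g6⟩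

theorem F5_g15 (S T : ℝ) (d13 : 0 < (S^(3:ℕ)*T^(3:ℕ) - 2*S^(3:ℕ)*T - 4*S^(2:ℕ)*T^(2:ℕ) - 2*S*T^(3:ℕ) - 2*S^(3:ℕ) - 10*S^(2:ℕ)*T - 10*S*T^(2:ℕ) - 2*T^(3:ℕ) - 6*S^(2:ℕ) - 14*S*T - 6*T^(2:ℕ) - 6*S - 6*T - 2)) (d30 : 0 < (S + 1)^(2:ℕ)*(T + 1)^(3:ℕ)*(S*T + 2*S + 2*T + 2)) (d31 : 0 < (S + 1)^(2:ℕ)*(T + 1)^(2:ℕ)*(S*T + 2*S + 2*T + 2)) :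
    1 < (T + 1) * ((S*T*(2*S^(2:ℕ)*T^(2:ℕ) + 4*S^(2:ℕ)*T + 4*S*T^(2:ℕ) + 3*S^(2:ℕ) + 10*S*T + 3*T^(2:ℕ) + 6*S + 6*T + 3))/((S + 1)^(2:ℕ)*(T + 1)^(3:ℕ)*(S*T + 2*S + 2*T + 2))) := rgt d30 d13 d31 (by ring)

theorem F5_oQ_4 (S T : ℝ) (g7 : S < (S + T + 1) * (((S^(2:ℕ)*T^(3:ℕ) + 2*S^(2:ℕ)*T^(2:ℕ) + S*T^(3:ℕ) + S^(2:ℕ)*T + 2*S*T^(2:ℕ) + S^(2:ℕ) + 3*S*T + T^(2:ℕ) + 2*S + 2*T + 1))/(S*T^(2:ℕ)*(S*T + 2*S + 2*T + 2)))) (g15 : 1 < (T + 1) * ((S*T*(2*S^(2:ℕ)*T^(2:ℕ) + 4*S^(2:ℕ)*T + 4*S*T^(2:ℕ) + 3*S^(2:ℕ) + 10*S*T + 3*T^(2:ℕ) + 6*S + 6*T + 3))/((S + 1)^(2:ℕ)*(T + 1)^(3:ℕ)*(S*T + 2*S + 2*T + 2)))) :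
    cond S T Letter.be (((S^(2:ℕ)*T^(3:ℕ) + 2*S^(2:ℕ)*T^(2:ℕ) + S*T^(3:ℕ) + S^(2:ℕ)*T + 2*S*T^(2:ℕ) + S^(2:ℕ) + 3*S*T + T^(2:ℕ) + 2*S + 2*T + 1))/(S*T^(2:ℕ)*(S*T + 2*S + 2*T + 2)), (S*T*(2*S^(2:ℕ)*T^(2:ℕ) + 4*S^(2:ℕ)*T + 4*S*T^(2:ℕ) + 3*S^(2:ℕ) + 10*S*T + 3*T^(2:ℕ) + 6*S + 6*T + 3))/((S + 1)^(2:ℕ)*(T + 1)^(3:ℕ)*(S*T + 2*S + 2*T + 2))) := ⟨g7, g15⟩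

theorem F5_d37 (S T : ℝ) (c22 : 0 < S^(4:ℕ)*T^(4:ℕ) + 3*S^(4:ℕ)*T^(3:ℕ) + 3*S^(3:ℕ)*T^(4:ℕ) + 5*S^(4:ℕ)*T^(2:ℕ) + 13*S^(3:ℕ)*T^(3:ℕ) + 5*S^(2:ℕ)*T^(4:ℕ) + 4*S^(4:ℕ)*T + 22*S^(3:ℕ)*T^(2:ℕ) + 22*S^(2:ℕ)*T^(3:ℕ) + 4*S*T^(4:ℕ) + 2*S^(4:ℕ) + 20*S^(3:ℕ)*T + 41*S^(2:ℕ)*T^(2:ℕ) + 20*S*T^(3:ℕ) + 2*T^(4:ℕ) + 8*S^(3:ℕ) + 36*S^(2:ℕ)*T + 36*S*T^(2:ℕ) + 8*T^(3:ℕ) + 12*S^(2:ℕ) + 28*S*T + 12*T^(2:ℕ) + 8*S + 8*T + 2) :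
    0 < (S^(4:ℕ)*T^(4:ℕ) + 3*S^(4:ℕ)*T^(3:ℕ) + 3*S^(3:ℕ)*T^(4:ℕ) + 5*S^(4:ℕ)*T^(2:ℕ) + 13*S^(3:ℕ)*T^(3:ℕ) + 5*S^(2:ℕ)*T^(4:ℕ) + 4*S^(4:ℕ)*T + 22*S^(3:ℕ)*T^(2:ℕ) + 22*S^(2:ℕ)*T^(3:ℕ) + 4*S*T^(4:ℕ) + 2*S^(4:ℕ) + 20*S^(3:ℕ)*T + 41*S^(2:ℕ)*T^(2:ℕ) + 20*S*T^(3:ℕ) + 2*T^(4:ℕ) + 8*S^(3:ℕ) + 36*S^(2:ℕ)*T + 36*S*T^(2:ℕ) + 8*T^(3:ℕ) + 12*S^(2:ℕ) + 28*S*T + 12*T^(2:ℕ) + 8*S + 8*T + 2) := c22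

theorem F5_g16 (S T : ℝ) (d29 : 0 < T*(S + 1)^(2:ℕ)*(T + 1)^(2:ℕ)*(S*T + 2*S + 2*T + 2)) (d37 : 0 < (S^(4:ℕ)*T^(4:ℕ) + 3*S^(4:ℕ)*T^(3:ℕ) + 3*S^(3:ℕ)*T^(4:ℕ) + 5*S^(4:ℕ)*T^(2:ℕ) + 13*S^(3:ℕ)*T^(3:ℕ) + 5*S^(2:ℕ)*T^(4:ℕ) + 4*S^(4:ℕ)*T + 22*S^(3:ℕ)*T^(2:ℕ) + 22*S^(2:ℕ)*T^(3:ℕ) + 4*S*T^(4:ℕ) + 2*S^(4:ℕ) + 20*S^(3:ℕ)*T + 41*S^(2:ℕ)*T^(2:ℕ) + 20*S*T^(3:ℕ) + 2*T^(4:ℕ) + 8*S^(3:ℕ) + 36*S^(2:ℕ)*T + 36*S*T^(2:ℕ) + 8*T^(3:ℕ) + 12*S^(2:ℕ) + 28*S*T + 12*T^(2:ℕ) + 8*S + 8*T + 2)) :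
    (S + T + 1) * (((S^(3:ℕ)*T^(3:ℕ) - 2*S^(3:ℕ)*T - 4*S^(2:ℕ)*T^(2:ℕ) - 2*S*T^(3:ℕ) - 2*S^(3:ℕ) - 10*S^(2:ℕ)*T - 10*S*T^(2:ℕ) - 2*T^(3:ℕ) - 6*S^(2:ℕ) - 14*S*T - 6*T^(2:ℕ) - 6*S - 6*T - 2))/(T*(S + 1)^(2:ℕ)*(T + 1)^(2:ℕ)*(S*T + 2*S + 2*T + 2))) < S := rlt d29 d37 d29 (by ring)

theorem F5_oQ_5 (S T : ℝ) (g16 : (S + T + 1) * (((S^(3:ℕ)*T^(3:ℕ) - 2*S^(3:ℕ)*T - 4*S^(2:ℕ)*T^(2:ℕ) - 2*S*T^(3:ℕ) - 2*S^(3:ℕ) - 10*S^(2:ℕ)*T - 10*S*T^(2:ℕ) - 2*T^(3:ℕ) - 6*S^(2:ℕ) - 14*S*T - 6*T^(2:ℕ) - 6*S - 6*T - 2))/(T*(S + 1)^(2:ℕ)*(T + 1)^(2:ℕ)*(S*T + 2*S + 2*T + 2))) < S) :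
    cond S T Letter.ga (((S^(3:ℕ)*T^(3:ℕ) - 2*S^(3:ℕ)*T - 4*S^(2:ℕ)*T^(2:ℕ) - 2*S*T^(3:ℕ) - 2*S^(3:ℕ) - 10*S^(2:ℕ)*T - 10*S*T^(2:ℕ) - 2*T^(3:ℕ) - 6*S^(2:ℕ) - 14*S*T - 6*T^(2:ℕ) - 6*S - 6*T - 2))/(T*(S + 1)^(2:ℕ)*(T + 1)^(2:ℕ)*(S*T + 2*S + 2*T + 2)), ((S*T^(2:ℕ) - S^(2:ℕ) - S*T - 2*S - T - 1))/(S*T*(S*T + 2*S + 2*T + 2))) := g16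

theorem F5_g17 (S T : ℝ) (d7 : 0 < S*T*(S + 1)*(T + 1)^(2:ℕ)*(S*T + 2*S + 2*T + 2)) (d12 : 0 < (S^(3:ℕ)*T^(4:ℕ) + 2*S^(3:ℕ)*T^(3:ℕ) + 3*S^(2:ℕ)*T^(4:ℕ) + 2*S^(3:ℕ)*T^(2:ℕ) + 7*S^(2:ℕ)*T^(3:ℕ) + 2*S*T^(4:ℕ) + 2*S^(3:ℕ)*T + 8*S^(2:ℕ)*T^(2:ℕ) + 6*S*T^(3:ℕ) + 2*S^(3:ℕ) + 10*S^(2:ℕ)*T + 12*S*T^(2:ℕ) + 2*T^(3:ℕ) + 6*S^(2:ℕ) + 14*S*T + 6*T^(2:ℕ) + 6*S + 6*T + 2)) (d20 : 0 < S*T*(S + 1)*(T + 1)*(S*T + 2*S + 2*T + 2)) :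
    1 < (T + 1) * (((S^(3:ℕ)*T^(4:ℕ) + 3*S^(3:ℕ)*T^(3:ℕ) + 3*S^(2:ℕ)*T^(4:ℕ) + 5*S^(3:ℕ)*T^(2:ℕ) + 10*S^(2:ℕ)*T^(3:ℕ) + 2*S*T^(4:ℕ) + 4*S^(3:ℕ)*T + 15*S^(2:ℕ)*T^(2:ℕ) + 8*S*T^(3:ℕ) + 2*S^(3:ℕ) + 14*S^(2:ℕ)*T + 16*S*T^(2:ℕ) + 2*T^(3:ℕ) + 6*S^(2:ℕ) + 16*S*T + 6*T^(2:ℕ) + 6*S + 6*T + 2))/(S*T*(S + 1)*(T + 1)^(2:ℕ)*(S*T + 2*S + 2*T + 2))) := rgt d7 d12 d20 (by ring)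

theorem F5_oQ_6 (S T : ℝ) (g10 : S < (S + T + 1) * (((2*T^(2:ℕ) - S + T - 1))/(T*(S*T + 2*S + 2*T + 2)))) (g17 : 1 < (T + 1) * (((S^(3:ℕ)*T^(4:ℕ) + 3*S^(3:ℕ)*T^(3:ℕ) + 3*S^(2:ℕ)*T^(4:ℕ) + 5*S^(3:ℕ)*T^(2:ℕ) + 10*S^(2:ℕ)*T^(3:ℕ) + 2*S*T^(4:ℕ) + 4*S^(3:ℕ)*T + 15*S^(2:ℕ)*T^(2:ℕ) + 8*S*T^(3:ℕ) + 2*S^(3:ℕ) + 14*S^(2:ℕ)*T + 16*S*T^(2:ℕ) + 2*T^(3:ℕ) + 6*S^(2:ℕ) + 16*S*T + 6*T^(2:ℕ) + 6*S + 6*T + 2))/(S*T*(S + 1)*(T + 1)^(2:ℕ)*(S*T + 2*S + 2*T + 2)))) :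
    cond S T Letter.be (((2*T^(2:ℕ) - S + T - 1))/(T*(S*T + 2*S + 2*T + 2)), ((S^(3:ℕ)*T^(4:ℕ) + 3*S^(3:ℕ)*T^(3:ℕ) + 3*S^(2:ℕ)*T^(4:ℕ) + 5*S^(3:ℕ)*T^(2:ℕ) + 10*S^(2:ℕ)*T^(3:ℕ) + 2*S*T^(4:ℕ) + 4*S^(3:ℕ)*T + 15*S^(2:ℕ)*T^(2:ℕ) + 8*S*T^(3:ℕ) + 2*S^(3:ℕ) + 14*S^(2:ℕ)*T + 16*S*T^(2:ℕ) + 2*T^(3:ℕ) + 6*S^(2:ℕ) + 16*S*T + 6*T^(2:ℕ) + 6*S + 6*T + 2))/(S*T*(S + 1)*(T + 1)^(2:ℕ)*(S*T + 2*S + 2*T + 2))) := ⟨g10, g17⟩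

theorem F5_oQ (S T : ℝ) (f14 : fl S T Letter.be (((S^(3:ℕ)*T^(4:ℕ) + 3*S^(3:ℕ)*T^(3:ℕ) + 4*S^(2:ℕ)*T^(4:ℕ) + 3*S^(3:ℕ)*T^(2:ℕ) + 12*S^(2:ℕ)*T^(3:ℕ) + 5*S*T^(4:ℕ) + S^(3:ℕ)*T + 12*S^(2:ℕ)*T^(2:ℕ) + 15*S*T^(3:ℕ) + 2*T^(4:ℕ) + S^(3:ℕ) + 7*S^(2:ℕ)*T + 18*S*T^(2:ℕ) + 7*T^(3:ℕ) + 3*S^(2:ℕ) + 11*S*T + 9*T^(2:ℕ) + 3*S + 5*T + 1))/(T*(S + 1)^(2:ℕ)*(T + 1)^(2:ℕ)*(S*T + 2*S + 2*T + 2)), ((S*T + S + 1))/((S*T + 2*S + 2*T + 2))) = (((S*T^(2:ℕ) + S*T - S - T - 1))/(T*(S*T + 2*S + 2*T + 2)), ((S^(3:ℕ)*T^(3:ℕ) + 2*S^(3:ℕ)*T^(2:ℕ) + 2*S^(2:ℕ)*T^(3:ℕ) + S^(3:ℕ)*T + 4*S^(2:ℕ)*T^(2:ℕ) + S*T^(3:ℕ) - S^(3:ℕ) - S^(2:ℕ)*T - S*T^(2:ℕ) - T^(3:ℕ) - 3*S^(2:ℕ)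 - 5*S*T - 3*T^(2:ℕ) - 3*S - 3*T - 1))/((S + 1)^(2:ℕ)*(T + 1)^(3:ℕ)*(S*T + 2*S + 2*T + 2)))) (f15 : fl S T Letter.al (((S*T^(2:ℕ) + S*T - S - T - 1))/(T*(S*T + 2*S + 2*T + 2)), ((S^(3:ℕ)*T^(3:ℕ) + 2*S^(3:ℕ)*T^(2:ℕ) + 2*S^(2:ℕ)*T^(3:ℕ) + S^(3:ℕ)*T + 4*S^(2:ℕ)*T^(2:ℕ) + S*T^(3:ℕ) - S^(3:ℕ) - S^(2:ℕ)*T - S*T^(2:ℕ) - T^(3:ℕ) - 3*S^(2:ℕ) - 5*S*T - 3*T^(2:ℕ) - 3*S - 3*T - 1))/((S + 1)^(2:ℕ)*(T + 1)^(3:ℕ)*(S*T + 2*S + 2*T + 2))) = (((S*T^(2:ℕ) - S^(2:ℕ) - S*T - 2*S - T - 1))/(T*(S + 1)*(S*T + 2*S + 2*T + 2)), ((S^(2:ℕ)*T^(3:ℕ) + 2*S^(2:ℕ)*T^(2:ℕ) + 3*S*T^(3:ℕ) + S^(2:ℕ)*T + 6*S*T^(2:ℕ) + 2*T^(3:ℕ) - S^(2:ℕ) + S*T + 3*T^(2:ℕ) - 2*S - 1))/((S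 + 1)*(T + 1)^(2:ℕ)*(S*T + 2*S + 2*T + 2)))) (f16 : fl S T Letter.ga (((S*T^(2:ℕ) - S^(2:ℕ) - S*T - 2*S - T - 1))/(T*(S + 1)*(S*T + 2*S + 2*T + 2)), ((S^(2:ℕ)*T^(3:ℕ) + 2*S^(2:ℕ)*T^(2:ℕ) + 3*S*T^(3:ℕ) + S^(2:ℕ)*T + 6*S*T^(2:ℕ) + 2*T^(3:ℕ) - S^(2:ℕ) + S*T + 3*T^(2:ℕ) - 2*S - 1))/((S + 1)*(T + 1)^(2:ℕ)*(S*T + 2*S + 2*T + 2))) = (((S^(3:ℕ)*T^(3:ℕ) + 2*S^(3:ℕ)*T^(2:ℕ) + 4*S^(2:ℕ)*T^(3:ℕ) + S^(3:ℕ)*T + 10*S^(2:ℕ)*T^(2:ℕ) + 5*S*T^(3:ℕ) - S^(3:ℕ) + 6*S^(2:ℕ)*T + 13*S*T^(2:ℕ) + 2*T^(3:ℕ) + 11*S*T + 6*T^(2:ℕ) + 3*S + 6*T + 2))/((S + 1)^(2:ℕ)*(T + 1)^(2:ℕ)*(S*T + 2*S + 2*T + 2)), ((S + 1)*(T + 1)*(S*T + S + 1))/(S*T*(S*T + 2*S + 2*T + 2)))) (f17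 : fl S T Letter.be (((S^(3:ℕ)*T^(3:ℕ) + 2*S^(3:ℕ)*T^(2:ℕ) + 4*S^(2:ℕ)*T^(3:ℕ) + S^(3:ℕ)*T + 10*S^(2:ℕ)*T^(2:ℕ) + 5*S*T^(3:ℕ) - S^(3:ℕ) + 6*S^(2:ℕ)*T + 13*S*T^(2:ℕ) + 2*T^(3:ℕ) + 11*S*T + 6*T^(2:ℕ) + 3*S + 6*T + 2))/((S + 1)^(2:ℕ)*(T + 1)^(2:ℕ)*(S*T + 2*S + 2*T + 2)), ((S + 1)*(T + 1)*(S*T + S + 1))/(S*T*(S*T + 2*S + 2*T + 2))) = (((S^(2:ℕ)*T^(3:ℕ) + 2*S^(2:ℕ)*T^(2:ℕ) + S*T^(3:ℕ) + S^(2:ℕ)*T + 2*S*T^(2:ℕ) + S^(2:ℕ) + 3*S*T + T^(2:ℕ) + 2*S + 2*T + 1))/(S*T^(2:ℕ)*(S*T + 2*S + 2*T + 2)), (S*T*(2*S^(2:ℕ)*T^(2:ℕ) + 4*S^(2:ℕ)*T + 4*S*T^(2:ℕ) + 3*S^(2:ℕ) + 10*S*T + 3*T^(2:ℕ) + 6*S + 6*T + 3))/((S + 1)^(2:ℕ)*(T + 1)^(3:ℕ)*(S*T + 2*S + 2*T +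 2)))) (f18 : fl S T Letter.be (((S^(2:ℕ)*T^(3:ℕ) + 2*S^(2:ℕ)*T^(2:ℕ) + S*T^(3:ℕ) + S^(2:ℕ)*T + 2*S*T^(2:ℕ) + S^(2:ℕ) + 3*S*T + T^(2:ℕ) + 2*S + 2*T + 1))/(S*T^(2:ℕ)*(S*T + 2*S + 2*T + 2)), (S*T*(2*S^(2:ℕ)*T^(2:ℕ) + 4*S^(2:ℕ)*T + 4*S*T^(2:ℕ) + 3*S^(2:ℕ) + 10*S*T + 3*T^(2:ℕ) + 6*S + 6*T + 3))/((S + 1)^(2:ℕ)*(T + 1)^(3:ℕ)*(S*T + 2*S + 2*T + 2))) = (((S^(3:ℕ)*T^(3:ℕ) - 2*S^(3:ℕ)*T - 4*S^(2:ℕ)*T^(2:ℕ) - 2*S*T^(3:ℕ) - 2*S^(3:ℕ) - 10*S^(2:ℕ)*T - 10*S*T^(2:ℕ) - 2*T^(3:ℕ) - 6*S^(2:ℕ) - 14*S*T - 6*T^(2:ℕ) - 6*S - 6*T - 2))/(T*(S + 1)^(2:ℕ)*(T + 1)^(2:ℕ)*(S*T + 2*S + 2*T + 2)), ((S*T^(2:ℕ) - S^(2:ℕ) - S*T - 2*S - T - 1))/(S*T*(S*T + 2*S + 2*T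 + 2)))) (f19 : fl S T Letter.ga (((S^(3:ℕ)*T^(3:ℕ) - 2*S^(3:ℕ)*T - 4*S^(2:ℕ)*T^(2:ℕ) - 2*S*T^(3:ℕ) - 2*S^(3:ℕ) - 10*S^(2:ℕ)*T - 10*S*T^(2:ℕ) - 2*T^(3:ℕ) - 6*S^(2:ℕ) - 14*S*T - 6*T^(2:ℕ) - 6*S - 6*T - 2))/(T*(S + 1)^(2:ℕ)*(T + 1)^(2:ℕ)*(S*T + 2*S + 2*T + 2)), ((S*T^(2:ℕ) - S^(2:ℕ) - S*T - 2*S - T - 1))/(S*T*(S*T + 2*S + 2*T + 2))) = (((2*T^(2:ℕ) - S + T - 1))/(T*(S*T + 2*S + 2*T + 2)), ((S^(3:ℕ)*T^(4:ℕ) + 3*S^(3:ℕ)*T^(3:ℕ) + 3*S^(2:ℕ)*T^(4:ℕ) + 5*S^(3:ℕ)*T^(2:ℕ) + 10*S^(2:ℕ)*T^(3:ℕ) + 2*S*T^(4:ℕ) + 4*S^(3:ℕ)*T + 15*S^(2:ℕ)*T^(2:ℕ) + 8*S*T^(3:ℕ) + 2*S^(3:ℕ) + 14*S^(2:ℕ)*T + 16*S*T^(2:ℕ) + 2*T^(3:ℕ) + 6*S^(2:ℕ) + 16*S*T + 6*T^(2:ℕ) +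 6*S + 6*T + 2))/(S*T*(S + 1)*(T + 1)^(2:ℕ)*(S*T + 2*S + 2*T + 2)))) (oQ_0 : cond S T Letter.be (((S^(3:ℕ)*T^(4:ℕ) + 3*S^(3:ℕ)*T^(3:ℕ) + 4*S^(2:ℕ)*T^(4:ℕ) + 3*S^(3:ℕ)*T^(2:ℕ) + 12*S^(2:ℕ)*T^(3:ℕ) + 5*S*T^(4:ℕ) + S^(3:ℕ)*T + 12*S^(2:ℕ)*T^(2:ℕ) + 15*S*T^(3:ℕ) + 2*T^(4:ℕ) + S^(3:ℕ) + 7*S^(2:ℕ)*T + 18*S*T^(2:ℕ) + 7*T^(3:ℕ) + 3*S^(2:ℕ) + 11*S*T + 9*T^(2:ℕ) + 3*S + 5*T + 1))/(T*(S + 1)^(2:ℕ)*(T + 1)^(2:ℕ)*(S*T + 2*S + 2*T + 2)), ((S*T + S + 1))/((S*T + 2*S + 2*T + 2)))) (oQ_1 : cond S T Letter.al (((S*T^(2:ℕ) + S*T - S - T - 1))/(T*(S*T + 2*S + 2*T + 2)), ((S^(3:ℕ)*T^(3:ℕ) + 2*S^(3:ℕ)*T^(2:ℕ) + 2*S^(2:ℕ)*T^(3:ℕ) + S^(3:ℕ)*T + 4*S^(2:ℕ)*T^(2:ℕ)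 + S*T^(3:ℕ) - S^(3:ℕ) - S^(2:ℕ)*T - S*T^(2:ℕ) - T^(3:ℕ) - 3*S^(2:ℕ) - 5*S*T - 3*T^(2:ℕ) - 3*S - 3*T - 1))/((S + 1)^(2:ℕ)*(T + 1)^(3:ℕ)*(S*T + 2*S + 2*T + 2)))) (oQ_2 : cond S T Letter.ga (((S*T^(2:ℕ) - S^(2:ℕ) - S*T - 2*S - T - 1))/(T*(S + 1)*(S*T + 2*S + 2*T + 2)), ((S^(2:ℕ)*T^(3:ℕ) + 2*S^(2:ℕ)*T^(2:ℕ) + 3*S*T^(3:ℕ) + S^(2:ℕ)*T + 6*S*T^(2:ℕ) + 2*T^(3:ℕ) - S^(2:ℕ) + S*T + 3*T^(2:ℕ) - 2*S - 1))/((S + 1)*(T + 1)^(2:ℕ)*(S*T + 2*S + 2*T + 2)))) (oQ_3 : cond S T Letter.be (((S^(3:ℕ)*T^(3:ℕ) + 2*S^(3:ℕ)*T^(2:ℕ) + 4*S^(2:ℕ)*T^(3:ℕ) + S^(3:ℕ)*T + 10*S^(2:ℕ)*T^(2:ℕ) + 5*S*T^(3:ℕ) - S^(3:ℕ) + 6*S^(2:ℕ)*T + 13*S*T^(2:ℕ) + 2*T^(3:ℕ) + 11*S*T +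 6*T^(2:ℕ) + 3*S + 6*T + 2))/((S + 1)^(2:ℕ)*(T + 1)^(2:ℕ)*(S*T + 2*S + 2*T + 2)), ((S + 1)*(T + 1)*(S*T + S + 1))/(S*T*(S*T + 2*S + 2*T + 2)))) (oQ_4 : cond S T Letter.be (((S^(2:ℕ)*T^(3:ℕ) + 2*S^(2:ℕ)*T^(2:ℕ) + S*T^(3:ℕ) + S^(2:ℕ)*T + 2*S*T^(2:ℕ) + S^(2:ℕ) + 3*S*T + T^(2:ℕ) + 2*S + 2*T + 1))/(S*T^(2:ℕ)*(S*T + 2*S + 2*T + 2)), (S*T*(2*S^(2:ℕ)*T^(2:ℕ) + 4*S^(2:ℕ)*T + 4*S*T^(2:ℕ) + 3*S^(2:ℕ) + 10*S*T + 3*T^(2:ℕ) + 6*S + 6*T + 3))/((S + 1)^(2:ℕ)*(T + 1)^(3:ℕ)*(S*T + 2*S + 2*T + 2)))) (oQ_5 : cond S T Letter.ga (((S^(3:ℕ)*T^(3:ℕ) - 2*S^(3:ℕ)*T - 4*S^(2:ℕ)*T^(2:ℕ) - 2*S*T^(3:ℕ) - 2*S^(3:ℕ) - 10*S^(2:ℕ)*T - 10*S*T^(2:ℕ) - 2*T^(3:ℕ) - 6*S^(2:ℕ)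 - 14*S*T - 6*T^(2:ℕ) - 6*S - 6*T - 2))/(T*(S + 1)^(2:ℕ)*(T + 1)^(2:ℕ)*(S*T + 2*S + 2*T + 2)), ((S*T^(2:ℕ) - S^(2:ℕ) - S*T - 2*S - T - 1))/(S*T*(S*T + 2*S + 2*T + 2)))) (oQ_6 : cond S T Letter.be (((2*T^(2:ℕ) - S + T - 1))/(T*(S*T + 2*S + 2*T + 2)), ((S^(3:ℕ)*T^(4:ℕ) + 3*S^(3:ℕ)*T^(3:ℕ) + 3*S^(2:ℕ)*T^(4:ℕ) + 5*S^(3:ℕ)*T^(2:ℕ) + 10*S^(2:ℕ)*T^(3:ℕ) + 2*S*T^(4:ℕ) + 4*S^(3:ℕ)*T + 15*S^(2:ℕ)*T^(2:ℕ) + 8*S*T^(3:ℕ) + 2*S^(3:ℕ) + 14*S^(2:ℕ)*T + 16*S*T^(2:ℕ) + 2*T^(3:ℕ) + 6*S^(2:ℕ) + 16*S*T + 6*T^(2:ℕ) + 6*S + 6*T + 2))/(S*T*(S + 1)*(T + 1)^(2:ℕ)*(S*T + 2*S + 2*T + 2)))) :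
    okc S T [Letter.be, Letter.al, Letter.ga, Letter.be, Letter.be, Letter.ga, Letter.be] (((S^(3:ℕ)*T^(4:ℕ) + 3*S^(3:ℕ)*T^(3:ℕ) + 4*S^(2:ℕ)*T^(4:ℕ) + 3*S^(3:ℕ)*T^(2:ℕ) + 12*S^(2:ℕ)*T^(3:ℕ) + 5*S*T^(4:ℕ) + S^(3:ℕ)*T + 12*S^(2:ℕ)*T^(2:ℕ) + 15*S*T^(3:ℕ) + 2*T^(4:ℕ) + S^(3:ℕ) + 7*S^(2:ℕ)*T + 18*S*T^(2:ℕ) + 7*T^(3:ℕ) + 3*S^(2:ℕ) + 11*S*T + 9*T^(2:ℕ) + 3*S + 5*T + 1))/(T*(S + 1)^(2:ℕ)*(T + 1)^(2:ℕ)*(S*T + 2*S + 2*T + 2)), ((S*T + S + 1))/((S*T + 2*S + 2*T + 2))) := (okc_cons' oQ_0 f14 (okc_cons' oQ_1 f15 (okc_cons' oQ_2 f16 (okc_cons' oQ_3 f17 (okc_cons' oQ_4 f18 (okc_cons' oQ_5 f19 (okc_last' oQ_6)))))))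

theorem F5_rE (S T : ℝ)  :
    run S T [] (((T + 1)*(S*T - S + 2*T - 1))/(T*(S*T + 2*S + 2*T + 2)), ((S*T + S + 1))/((S*T + 2*S + 2*T + 2))) = (((T + 1)*(S*T - S + 2*T - 1))/(T*(S*T + 2*S + 2*T + 2)), ((S*T + S + 1))/((S*T + 2*S + 2*T + 2))) := run_nil'

theorem F5_q6 (S T : ℝ) (d2 : 0 < T*(S*T + 2*S + 2*T + 2)) (d28 : 0 < (T + 1)*(S*T - S + 2*T - 1)) :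
    0 < ((T + 1)*(S*T - S + 2*T - 1))/(T*(S*T + 2*S + 2*T + 2)) := div_pos d28 d2

theorem F5_d38 (S T : ℝ) (c13 : 0 < 2*S*T + S + T + 1) :
    0 < (2*S*T + S + T + 1) := c13

theorem F5_q7 (S T : ℝ) (d2 : 0 < T*(S*T + 2*S + 2*T + 2)) (d38 : 0 < (2*S*T + S + T + 1)) :
    ((T + 1)*(S*T - S + 2*T - 1))/(T*(S*T + 2*S + 2*T + 2)) < 1 := rlt1 d2 d38 d2 (by ring)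

theorem F5_sq (S T : ℝ) (q2 : 0 < ((S*T + S + 1))/((S*T + 2*S + 2*T + 2))) (q3 : ((S*T + S + 1))/((S*T + 2*S + 2*T + 2)) < 1) (q6 : 0 < ((T + 1)*(S*T - S + 2*T - 1))/(T*(S*T + 2*S + 2*T + 2))) (q7 : ((T + 1)*(S*T - S + 2*T - 1))/(T*(S*T + 2*S + 2*T + 2)) < 1) :
    Sq (((T + 1)*(S*T - S + 2*T - 1))/(T*(S*T + 2*S + 2*T + 2)), ((S*T + S + 1))/((S*T + 2*S + 2*T + 2))) := ⟨⟨q6, q7⟩, q2, q3⟩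

theorem F5_oE (S T : ℝ)  :
    okc S T [] (((T + 1)*(S*T - S + 2*T - 1))/(T*(S*T + 2*S + 2*T + 2)), ((S*T + S + 1))/((S*T + 2*S + 2*T + 2))) := trivial

theorem F5_rB (S T : ℝ) (f0 : fl S T Letter.be (((S^(2:ℕ)*T^(3:ℕ) + S^(2:ℕ)*T^(2:ℕ) + 2*S*T^(3:ℕ) + 2*S*T^(2:ℕ) + S^(2:ℕ) + 2*S*T + T^(2:ℕ) + 2*S + 2*T + 1))/(S*T^(2:ℕ)*(S*T + 2*S + 2*T + 2)), ((S*T + S + 1))/((S*T + 2*S + 2*T + 2))) = (((S*T^(2:ℕ) + S*T - S - T - 1))/(T*(S*T + 2*S + 2*T + 2)), ((S + 1)*(S*T - S - T - 1))/(S*T*(S*T + 2*S + 2*T + 2)))) (f1 : fl S T Letter.al (((S*T^(2:ℕ) + S*T - S - T - 1))/(T*(S*T + 2*S + 2*T + 2)), ((S + 1)*(S*T - S - T - 1))/(S*T*(S*T + 2*S + 2*T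 + 2))) = (((S*T^(2:ℕ) - S^(2:ℕ) - S*T - 2*S - T - 1))/(T*(S + 1)*(S*T + 2*S + 2*T + 2)), ((S^(2:ℕ)*T^(2:ℕ) + 2*S*T^(2:ℕ) - S^(2:ℕ) - S*T - 2*S - T - 1))/(S*T*(S*T + 2*S + 2*T + 2)))) (f2 : fl S T Letter.ga (((S*T^(2:ℕ) - S^(2:ℕ) - S*T - 2*S - T - 1))/(T*(S + 1)*(S*T + 2*S + 2*T + 2)), ((S^(2:ℕ)*T^(2:ℕ) + 2*S*T^(2:ℕ) - S^(2:ℕ) - S*T - 2*S - T - 1))/(S*T*(S*T + 2*S + 2*T + 2))) = (((T + 1)*(S*T - S + 2*T - 1))/(T*(S*T + 2*S + 2*T + 2)), ((S + 1)*(T + 1)*(S*T + S + 1))/(S*T*(S*T + 2*S + 2*T + 2)))) (f3 : fl S T Letter.be (((T + 1)*(S*T - S + 2*T - 1))/(T*(S*T + 2*S + 2*T + 2)), ((S + 1)*(T + 1)*(S*T + S + 1))/(S*T*(S*T + 2*S + 2*T + 2)))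 = (((S^(2:ℕ)*T^(3:ℕ) + 2*S^(2:ℕ)*T^(2:ℕ) + S*T^(3:ℕ) + S^(2:ℕ)*T + 2*S*T^(2:ℕ) + S^(2:ℕ) + 3*S*T + T^(2:ℕ) + 2*S + 2*T + 1))/(S*T^(2:ℕ)*(S*T + 2*S + 2*T + 2)), ((2*S*T + S + T + 1))/((T + 1)*(S*T + 2*S + 2*T + 2)))) (f4 : fl S T Letter.be (((S^(2:ℕ)*T^(3:ℕ) + 2*S^(2:ℕ)*T^(2:ℕ) + S*T^(3:ℕ) + S^(2:ℕ)*T + 2*S*T^(2:ℕ) + S^(2:ℕ) + 3*S*T + T^(2:ℕ) + 2*S + 2*T + 1))/(S*T^(2:ℕ)*(S*T + 2*S + 2*T + 2)), ((2*S*T + S + T + 1))/((T + 1)*(S*T + 2*S + 2*T + 2))) = (((S*T - S - T - 1))/(T*(S*T + 2*S + 2*T + 2)), ((S*T^(2:ℕ) - S^(2:ℕ) - S*T - 2*S - T - 1))/(S*T*(S*T + 2*S + 2*T + 2)))) (f5 : fl S T Letter.ga (((S*T - S - T - 1))/(T*(S*T + 2*S + 2*T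 + 2)), ((S*T^(2:ℕ) - S^(2:ℕ) - S*T - 2*S - T - 1))/(S*T*(S*T + 2*S + 2*T + 2))) = (((2*T^(2:ℕ) - S + T - 1))/(T*(S*T + 2*S + 2*T + 2)), ((S^(2:ℕ)*T^(2:ℕ) + S^(2:ℕ)*T + 2*S*T^(2:ℕ) + S^(2:ℕ) + 2*S*T + 2*S + T + 1))/(S*T*(S*T + 2*S + 2*T + 2)))) (f6 : fl S T Letter.be (((2*T^(2:ℕ) - S + T - 1))/(T*(S*T + 2*S + 2*T + 2)), ((S^(2:ℕ)*T^(2:ℕ) + S^(2:ℕ)*T + 2*S*T^(2:ℕ) + S^(2:ℕ) + 2*S*T + 2*S + T + 1))/(S*T*(S*T + 2*S + 2*T + 2))) = (((S^(2:ℕ)*T^(3:ℕ) + S^(2:ℕ)*T^(2:ℕ) + 2*S*T^(3:ℕ) + 2*S*T^(2:ℕ) + S^(2:ℕ) + 2*S*T + T^(2:ℕ) + 2*S + 2*T + 1))/(S*T^(2:ℕ)*(S*T + 2*S + 2*T + 2)), ((S*T + S + 1))/((S*T + 2*S + 2*T + 2)))) :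
    run S T [Letter.be, Letter.be, Letter.ga, Letter.be, Letter.be, Letter.al, Letter.ga] (((T + 1)*(S*T - S + 2*T - 1))/(T*(S*T + 2*S + 2*T + 2)), ((S + 1)*(T + 1)*(S*T + S + 1))/(S*T*(S*T + 2*S + 2*T + 2))) = (((T + 1)*(S*T - S + 2*T - 1))/(T*(S*T + 2*S + 2*T + 2)), ((S + 1)*(T + 1)*(S*T + S + 1))/(S*T*(S*T + 2*S + 2*T + 2))) := (run_cons' f3 (run_cons' f4 (run_cons' f5 (run_cons' f6 (run_cons' f0 (run_cons' f1 (run_cons' f2 run_nil')))))))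

theorem F5_f21 (S T : ℝ) (pT : 0 < T) (d1 : 0 < (S*T + 2*S + 2*T + 2)) (d2 : 0 < T*(S*T + 2*S + 2*T + 2)) (d5 : 0 < (T + 1)*(S*T + 2*S + 2*T + 2)) :
    fl S T Letter.be (((T + 1)*(S*T - S + 2*T - 1))/(T*(S*T + 2*S + 2*T + 2)), ((S*T + S + 1))/((S*T + 2*S + 2*T + 2))) = (((S*T^(2:ℕ) + S*T - S - T - 1))/(T*(S*T + 2*S + 2*T + 2)), ((2*S*T + S + T + 1))/((T + 1)*(S*T + 2*S + 2*T + 2))) := fl_be' pT d2 d1 d2 d5 (by ring) (by ring)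

theorem F5_f22 (S T : ℝ) (pT : 0 < T) (d1 : 0 < (S*T + 2*S + 2*T + 2)) (d2 : 0 < T*(S*T + 2*S + 2*T + 2)) (d5 : 0 < (T + 1)*(S*T + 2*S + 2*T + 2)) :
    fl S T Letter.be (((S*T^(2:ℕ) + S*T - S - T - 1))/(T*(S*T + 2*S + 2*T + 2)), ((2*S*T + S + T + 1))/((T + 1)*(S*T + 2*S + 2*T + 2))) = (((S*T - S - T - 1))/(T*(S*T + 2*S + 2*T + 2)), ((S + 2*T + 1))/((S*T + 2*S + 2*T + 2))) := fl_be' pT d2 d5 d2 d1 (by ring) (by ring)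

theorem F5_d39 (S T : ℝ) (pA : 0 < (S + 1)) (c0 : 0 < S*T + 2*S + 2*T + 2) :
    0 < (S + 1)*(S*T + 2*S + 2*T + 2) := (mul_pos pA c0)

theorem F5_f23 (S T : ℝ) (pS : 0 < S) (d1 : 0 < (S*T + 2*S + 2*T + 2)) (d2 : 0 < T*(S*T + 2*S + 2*T + 2)) (d3 : 0 < S*T*(S*T + 2*S + 2*T + 2)) (d39 : 0 < (S + 1)*(S*T + 2*S + 2*T + 2)) :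
    fl S T Letter.ga (((S*T - S - T - 1))/(T*(S*T + 2*S + 2*T + 2)), ((S + 2*T + 1))/((S*T + 2*S + 2*T + 2))) = (((S^(2:ℕ) + 3*S*T + 3*S + 2*T + 2))/((S + 1)*(S*T + 2*S + 2*T + 2)), ((S^(2:ℕ)*T^(2:ℕ) + S^(2:ℕ)*T + 2*S*T^(2:ℕ) + S^(2:ℕ) + 2*S*T + 2*S + T + 1))/(S*T*(S*T + 2*S + 2*T + 2))) := fl_ga' pS d2 d1 d39 d3 (by ring) (by ring)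

theorem F5_f24 (S T : ℝ) (pT : 0 < T) (d0 : 0 < S*T^(2:ℕ)*(S*T + 2*S + 2*T + 2)) (d3 : 0 < S*T*(S*T + 2*S + 2*T + 2)) (d11 : 0 < (S + 1)*(T + 1)*(S*T + 2*S + 2*T + 2)) (d39 : 0 < (S + 1)*(S*T + 2*S + 2*T + 2)) :
    fl S T Letter.be (((S^(2:ℕ) + 3*S*T + 3*S + 2*T + 2))/((S + 1)*(S*T + 2*S + 2*T + 2)), ((S^(2:ℕ)*T^(2:ℕ) + S^(2:ℕ)*T + 2*S*T^(2:ℕ) + S^(2:ℕ) + 2*S*T + 2*S + T + 1))/(S*T*(S*T + 2*S + 2*T + 2))) = (((S^(2:ℕ)*T^(3:ℕ) + S^(2:ℕ)*T^(2:ℕ) + 2*S*T^(3:ℕ) + 2*S*T^(2:ℕ) + S^(2:ℕ) + 2*S*T + T^(2:ℕ) + 2*S + 2*T + 1))/(S*T^(2:ℕ)*(S*T + 2*S + 2*T + 2)), (S*T*(S*T + S + 1))/((S + 1)*(T + 1)*(S*T + 2*S + 2*T + 2))) := fl_be' pT d39 d3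 d0 d11 (by ring) (by ring)

theorem F5_f25 (S T : ℝ) (pT : 0 < T) (d0 : 0 < S*T^(2:ℕ)*(S*T + 2*S + 2*T + 2)) (d3 : 0 < S*T*(S*T + 2*S + 2*T + 2)) (d4 : 0 < T*(S + 1)*(S*T + 2*S + 2*T + 2)) (d11 : 0 < (S + 1)*(T + 1)*(S*T + 2*S + 2*T + 2)) :
    fl S T Letter.be (((S^(2:ℕ)*T^(3:ℕ) + S^(2:ℕ)*T^(2:ℕ) + 2*S*T^(3:ℕ) + 2*S*T^(2:ℕ) + S^(2:ℕ) + 2*S*T + T^(2:ℕ) + 2*S + 2*T + 1))/(S*T^(2:ℕ)*(S*T + 2*S + 2*T + 2)), (S*T*(S*T + S + 1))/((S + 1)*(T + 1)*(S*T + 2*S + 2*T + 2))) = (((S^(2:ℕ)*T^(2:ℕ) - 2*S^(2:ℕ) - 2*S*T - 4*S - 2*T - 2))/(T*(S + 1)*(S*T + 2*S + 2*T + 2)), ((S + 1)*(S*T - S - T - 1))/(S*T*(S*T + 2*S + 2*T + 2))) := fl_be' pT d0 d11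 d4 d3 (by ring) (by ring)

theorem F5_d40 (S T : ℝ) (pT : 0 < T) (pA : 0 < (S + 1)) (pB : 0 < (T + 1)) (c0 : 0 < S*T + 2*S + 2*T + 2) :
    0 < T*(S + 1)^(2:ℕ)*(T + 1)*(S*T + 2*S + 2*T + 2) := (mul_pos (mul_pos (mul_pos pT (pow_pos pA 2)) pB) c0)

theorem F5_f26 (S T : ℝ) (pS : 0 < S) (pT : 0 < T) (d3 : 0 < S*T*(S*T + 2*S + 2*T + 2)) (d4 : 0 < T*(S + 1)*(S*T + 2*S + 2*T + 2)) (d40 : 0 < T*(S + 1)^(2:ℕ)*(T + 1)*(S*T + 2*S + 2*T + 2)) :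
    fl S T Letter.al (((S^(2:ℕ)*T^(2:ℕ) - 2*S^(2:ℕ) - 2*S*T - 4*S - 2*T - 2))/(T*(S + 1)*(S*T + 2*S + 2*T + 2)), ((S + 1)*(S*T - S - T - 1))/(S*T*(S*T + 2*S + 2*T + 2))) = (((S^(2:ℕ)*T^(3:ℕ) - 2*S^(3:ℕ)*T - 2*S^(2:ℕ)*T^(2:ℕ) - 2*S^(3:ℕ) - 8*S^(2:ℕ)*T - 4*S*T^(2:ℕ) - 6*S^(2:ℕ) - 10*S*T - 2*T^(2:ℕ) - 6*S - 4*T - 2))/(T*(S + 1)^(2:ℕ)*(T + 1)*(S*T + 2*S + 2*T + 2)), ((S^(2:ℕ)*T^(2:ℕ) + 2*S*T^(2:ℕ) - S^(2:ℕ) - S*T - 2*S - T - 1))/(S*T*(S*T + 2*S + 2*T + 2))) := fl_al' pS pT d4 d3 d40 d3 (by ring) (by ring)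

theorem F5_f27 (S T : ℝ) (pS : 0 < S) (d2 : 0 < T*(S*T + 2*S + 2*T + 2)) (d3 : 0 < S*T*(S*T + 2*S + 2*T + 2)) (d20 : 0 < S*T*(S + 1)*(T + 1)*(S*T + 2*S + 2*T + 2)) (d40 : 0 < T*(S + 1)^(2:ℕ)*(T + 1)*(S*T + 2*S + 2*T + 2)) :
    fl S T Letter.ga (((S^(2:ℕ)*T^(3:ℕ) - 2*S^(3:ℕ)*T - 2*S^(2:ℕ)*T^(2:ℕ) - 2*S^(3:ℕ) - 8*S^(2:ℕ)*T - 4*S*T^(2:ℕ) - 6*S^(2:ℕ) - 10*S*T - 2*T^(2:ℕ) - 6*S - 4*T - 2))/(T*(S + 1)^(2:ℕ)*(T + 1)*(S*T + 2*S + 2*T + 2)), ((S^(2:ℕ)*T^(2:ℕ) + 2*S*T^(2:ℕ) - S^(2:ℕ) - S*T - 2*S - T - 1))/(S*T*(S*T + 2*S + 2*T + 2))) = (((T + 1)*(S*T - S + 2*T - 1))/(T*(S*T + 2*S + 2*T + 2)), ((S^(3:ℕ)*T^(3:ℕ) + 3*S^(3:ℕ)*T^(2:ℕ) + 2*S^(2:ℕ)*T^(3:ℕ)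 + 4*S^(3:ℕ)*T + 9*S^(2:ℕ)*T^(2:ℕ) + 2*S*T^(3:ℕ) + 2*S^(3:ℕ) + 12*S^(2:ℕ)*T + 8*S*T^(2:ℕ) + 6*S^(2:ℕ) + 12*S*T + 2*T^(2:ℕ) + 6*S + 4*T + 2))/(S*T*(S + 1)*(T + 1)*(S*T + 2*S + 2*T + 2))) := fl_ga' pS d40 d3 d2 d20 (by ring) (by ring)

theorem F5_rr (S T : ℝ) (f21 : fl S T Letter.be (((T + 1)*(S*T - S + 2*T - 1))/(T*(S*T + 2*S + 2*T + 2)), ((S*T + S + 1))/((S*T + 2*S + 2*T + 2))) = (((S*T^(2:ℕ) + S*T - S - T - 1))/(T*(S*T + 2*S + 2*T + 2)), ((2*S*T + S + T + 1))/((T + 1)*(S*T + 2*S + 2*T + 2)))) (f22 : fl S T Letter.be (((S*T^(2:ℕ) + S*T - S - T - 1))/(T*(S*T + 2*S + 2*T + 2)), ((2*S*T + S + T + 1))/((T + 1)*(S*T + 2*S + 2*T + 2))) =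 (((S*T - S - T - 1))/(T*(S*T + 2*S + 2*T + 2)), ((S + 2*T + 1))/((S*T + 2*S + 2*T + 2)))) (f23 : fl S T Letter.ga (((S*T - S - T - 1))/(T*(S*T + 2*S + 2*T + 2)), ((S + 2*T + 1))/((S*T + 2*S + 2*T + 2))) = (((S^(2:ℕ) + 3*S*T + 3*S + 2*T + 2))/((S + 1)*(S*T + 2*S + 2*T + 2)), ((S^(2:ℕ)*T^(2:ℕ) + S^(2:ℕ)*T + 2*S*T^(2:ℕ) + S^(2:ℕ) + 2*S*T + 2*S + T + 1))/(S*T*(S*T + 2*S + 2*T + 2)))) (f24 : fl S T Letter.be (((S^(2:ℕ) + 3*S*T + 3*S + 2*T + 2))/((S + 1)*(S*T + 2*S + 2*T + 2)), ((S^(2:ℕ)*T^(2:ℕ) + S^(2:ℕ)*T + 2*S*T^(2:ℕ) + S^(2:ℕ) + 2*S*T + 2*S + T + 1))/(S*T*(S*T + 2*S + 2*T + 2))) = (((S^(2:ℕ)*T^(3:ℕ) + S^(2:ℕ)*T^(2:ℕ) + 2*S*T^(3:ℕ) +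 2*S*T^(2:ℕ) + S^(2:ℕ) + 2*S*T + T^(2:ℕ) + 2*S + 2*T + 1))/(S*T^(2:ℕ)*(S*T + 2*S + 2*T + 2)), (S*T*(S*T + S + 1))/((S + 1)*(T + 1)*(S*T + 2*S + 2*T + 2)))) (f25 : fl S T Letter.be (((S^(2:ℕ)*T^(3:ℕ) + S^(2:ℕ)*T^(2:ℕ) + 2*S*T^(3:ℕ) + 2*S*T^(2:ℕ) + S^(2:ℕ) + 2*S*T + T^(2:ℕ) + 2*S + 2*T + 1))/(S*T^(2:ℕ)*(S*T + 2*S + 2*T + 2)), (S*T*(S*T + S + 1))/((S + 1)*(T + 1)*(S*T + 2*S + 2*T + 2))) = (((S^(2:ℕ)*T^(2:ℕ) - 2*S^(2:ℕ) - 2*S*T - 4*S - 2*T - 2))/(T*(S + 1)*(S*T + 2*S + 2*T + 2)), ((S + 1)*(S*T - S - T - 1))/(S*T*(S*T + 2*S + 2*T + 2)))) (f26 : fl S T Letter.al (((S^(2:ℕ)*T^(2:ℕ) - 2*S^(2:ℕ) - 2*S*T - 4*S - 2*T - 2))/(T*(S + 1)*(S*T + 2*S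 + 2*T + 2)), ((S + 1)*(S*T - S - T - 1))/(S*T*(S*T + 2*S + 2*T + 2))) = (((S^(2:ℕ)*T^(3:ℕ) - 2*S^(3:ℕ)*T - 2*S^(2:ℕ)*T^(2:ℕ) - 2*S^(3:ℕ) - 8*S^(2:ℕ)*T - 4*S*T^(2:ℕ) - 6*S^(2:ℕ) - 10*S*T - 2*T^(2:ℕ) - 6*S - 4*T - 2))/(T*(S + 1)^(2:ℕ)*(T + 1)*(S*T + 2*S + 2*T + 2)), ((S^(2:ℕ)*T^(2:ℕ) + 2*S*T^(2:ℕ) - S^(2:ℕ) - S*T - 2*S - T - 1))/(S*T*(S*T + 2*S + 2*T + 2)))) (f27 : fl S T Letter.ga (((S^(2:ℕ)*T^(3:ℕ) - 2*S^(3:ℕ)*T - 2*S^(2:ℕ)*T^(2:ℕ) - 2*S^(3:ℕ) - 8*S^(2:ℕ)*T - 4*S*T^(2:ℕ) - 6*S^(2:ℕ) - 10*S*T - 2*T^(2:ℕ) - 6*S - 4*T - 2))/(T*(S + 1)^(2:ℕ)*(T + 1)*(S*T + 2*S + 2*T + 2)), ((S^(2:ℕ)*T^(2:ℕ) + 2*S*T^(2:ℕ) - S^(2:ℕ) - S*T - 2*S - T - 1))/(S*T*(S*T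 + 2*S + 2*T + 2))) = (((T + 1)*(S*T - S + 2*T - 1))/(T*(S*T + 2*S + 2*T + 2)), ((S^(3:ℕ)*T^(3:ℕ) + 3*S^(3:ℕ)*T^(2:ℕ) + 2*S^(2:ℕ)*T^(3:ℕ) + 4*S^(3:ℕ)*T + 9*S^(2:ℕ)*T^(2:ℕ) + 2*S*T^(3:ℕ) + 2*S^(3:ℕ) + 12*S^(2:ℕ)*T + 8*S*T^(2:ℕ) + 6*S^(2:ℕ) + 12*S*T + 2*T^(2:ℕ) + 6*S + 4*T + 2))/(S*T*(S + 1)*(T + 1)*(S*T + 2*S + 2*T + 2)))) :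
    run S T [Letter.be, Letter.be, Letter.ga, Letter.be, Letter.be, Letter.al, Letter.ga] (((T + 1)*(S*T - S + 2*T - 1))/(T*(S*T + 2*S + 2*T + 2)), ((S*T + S + 1))/((S*T + 2*S + 2*T + 2))) = (((T + 1)*(S*T - S + 2*T - 1))/(T*(S*T + 2*S + 2*T + 2)), ((S^(3:ℕ)*T^(3:ℕ) + 3*S^(3:ℕ)*T^(2:ℕ) + 2*S^(2:ℕ)*T^(3:ℕ) + 4*S^(3:ℕ)*T + 9*S^(2:ℕ)*T^(2:ℕ) + 2*S*T^(3:ℕ) + 2*S^(3:ℕ) + 12*S^(2:ℕ)*T + 8*S*T^(2:ℕ) + 6*S^(2:ℕ) + 12*S*T + 2*T^(2:ℕ) + 6*S + 4*T + 2))/(S*T*(S + 1)*(T + 1)*(S*T + 2*S + 2*T + 2))) := (run_cons' f21 (run_cons' f22 (run_cons' f23 (run_cons' f24 (run_cons' f25 (run_cons' f26 (run_cons' f27 run_nil')))))))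

theorem F5_sr (S T : ℝ) (q2 : 0 < ((S*T + S + 1))/((S*T + 2*S + 2*T + 2))) (q3 : ((S*T + S + 1))/((S*T + 2*S + 2*T + 2)) < 1) (q6 : 0 < ((T + 1)*(S*T - S + 2*T - 1))/(T*(S*T + 2*S + 2*T + 2))) (q7 : ((T + 1)*(S*T - S + 2*T - 1))/(T*(S*T + 2*S + 2*T + 2)) < 1) :
    Sq (((T + 1)*(S*T - S + 2*T - 1))/(T*(S*T + 2*S + 2*T + 2)), ((S*T + S + 1))/((S*T + 2*S + 2*T + 2))) := ⟨⟨q6, q7⟩, q2, q3⟩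

theorem F5_d41 (S T : ℝ) (c23 : 0 < S*T^(3:ℕ) - 2*S^(2:ℕ)*T + S*T^(2:ℕ) + 2*T^(3:ℕ) - S^(2:ℕ) - 2*S*T + 3*T^(2:ℕ) - 2*S - 1) :
    0 < (S*T^(3:ℕ) - 2*S^(2:ℕ)*T + S*T^(2:ℕ) + 2*T^(3:ℕ) - S^(2:ℕ) - 2*S*T + 3*T^(2:ℕ) - 2*S - 1) := c23

theorem F5_g18 (S T : ℝ) (d2 : 0 < T*(S*T + 2*S + 2*T + 2)) (d41 : 0 < (S*T^(3:ℕ) - 2*S^(2:ℕ)*T + S*T^(2:ℕ) + 2*T^(3:ℕ) - S^(2:ℕ) - 2*S*T + 3*T^(2:ℕ) - 2*S - 1)) :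
    S < (S + T + 1) * (((T + 1)*(S*T - S + 2*T - 1))/(T*(S*T + 2*S + 2*T + 2))) := rgt d2 d41 d2 (by ring)

theorem F5_orr_0 (S T : ℝ) (g1 : 1 < (T + 1) * (((S*T + S + 1))/((S*T + 2*S + 2*T + 2)))) (g18 : S < (S + T + 1) * (((T + 1)*(S*T - S + 2*T - 1))/(T*(S*T + 2*S + 2*T + 2)))) :
    cond S T Letter.be (((T + 1)*(S*T - S + 2*T - 1))/(T*(S*T + 2*S + 2*T + 2)), ((S*T + S + 1))/((S*T + 2*S + 2*T + 2))) := ⟨g18, g1⟩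

theorem F5_d42 (S T : ℝ) (c24 : 0 < S*T - S - T - 1) :
    0 < (S*T - S - T - 1) := c24

theorem F5_g19 (S T : ℝ) (d1 : 0 < (S*T + 2*S + 2*T + 2)) (d5 : 0 < (T + 1)*(S*T + 2*S + 2*T + 2)) (d42 : 0 < (S*T - S - T - 1)) :
    1 < (T + 1) * (((2*S*T + S + T + 1))/((T + 1)*(S*T + 2*S + 2*T + 2))) := rgt d5 d42 d1 (by ring)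

theorem F5_orr_1 (S T : ℝ) (g2 : S < (S + T + 1) * (((S*T^(2:ℕ) + S*T - S - T - 1))/(T*(S*T + 2*S + 2*T + 2)))) (g19 : 1 < (T + 1) * (((2*S*T + S + T + 1))/((T + 1)*(S*T + 2*S + 2*T + 2)))) :
    cond S T Letter.be (((S*T^(2:ℕ) + S*T - S - T - 1))/(T*(S*T + 2*S + 2*T + 2)), ((2*S*T + S + T + 1))/((T + 1)*(S*T + 2*S + 2*T + 2))) := ⟨g2, g19⟩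

theorem F5_d43 (S T : ℝ) (c14 : 0 < S^(2:ℕ)*T^(2:ℕ) + S^(2:ℕ)*T + S*T^(2:ℕ) + S^(2:ℕ) + 3*S*T + T^(2:ℕ) + 2*S + 2*T + 1) :
    0 < (S^(2:ℕ)*T^(2:ℕ) + S^(2:ℕ)*T + S*T^(2:ℕ) + S^(2:ℕ) + 3*S*T + T^(2:ℕ) + 2*S + 2*T + 1) := c14

theorem F5_g20 (S T : ℝ) (d2 : 0 < T*(S*T + 2*S + 2*T + 2)) (d43 : 0 < (S^(2:ℕ)*T^(2:ℕ) + S^(2:ℕ)*T + S*T^(2:ℕ) + S^(2:ℕ) + 3*S*T + T^(2:ℕ) + 2*S + 2*T + 1)) :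
    (S + T + 1) * (((S*T - S - T - 1))/(T*(S*T + 2*S + 2*T + 2))) < S := rlt d2 d43 d2 (by ring)

theorem F5_orr_2 (S T : ℝ) (g20 : (S + T + 1) * (((S*T - S - T - 1))/(T*(S*T + 2*S + 2*T + 2))) < S) :
    cond S T Letter.ga (((S*T - S - T - 1))/(T*(S*T + 2*S + 2*T + 2)), ((S + 2*T + 1))/((S*T + 2*S + 2*T + 2))) := g20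

theorem F5_d44 (S T : ℝ) (c25 : 0 < -S^(3:ℕ)*T - S^(3:ℕ) + S^(2:ℕ)*T + 3*S*T^(2:ℕ) + 6*S*T + 2*T^(2:ℕ) + 3*S + 4*T + 2) :
    0 < (-S^(3:ℕ)*T - S^(3:ℕ) + S^(2:ℕ)*T + 3*S*T^(2:ℕ) + 6*S*T + 2*T^(2:ℕ) + 3*S + 4*T + 2) := c25

theorem F5_g21 (S T : ℝ) (d39 : 0 < (S + 1)*(S*T + 2*S + 2*T + 2)) (d44 : 0 < (-S^(3:ℕ)*T - S^(3:ℕ) + S^(2:ℕ)*T + 3*S*T^(2:ℕ) + 6*S*T + 2*T^(2:ℕ) + 3*S + 4*T + 2)) :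
    S < (S + T + 1) * (((S^(2:ℕ) + 3*S*T + 3*S + 2*T + 2))/((S + 1)*(S*T + 2*S + 2*T + 2))) := rgt d39 d44 d39 (by ring)

theorem F5_d45 (S T : ℝ) (c26 : 0 < S^(2:ℕ)*T^(3:ℕ) + S^(2:ℕ)*T^(2:ℕ) + 2*S*T^(3:ℕ) + 2*S*T^(2:ℕ) + S^(2:ℕ) + 2*S*T + T^(2:ℕ) + 2*S + 2*T + 1) :
    0 < (S^(2:ℕ)*T^(3:ℕ) + S^(2:ℕ)*T^(2:ℕ) + 2*S*T^(3:ℕ) + 2*S*T^(2:ℕ) + S^(2:ℕ) + 2*S*T + T^(2:ℕ) + 2*S + 2*T + 1) := c26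

theorem F5_g22 (S T : ℝ) (d3 : 0 < S*T*(S*T + 2*S + 2*T + 2)) (d45 : 0 < (S^(2:ℕ)*T^(3:ℕ) + S^(2:ℕ)*T^(2:ℕ) + 2*S*T^(3:ℕ) + 2*S*T^(2:ℕ) + S^(2:ℕ) + 2*S*T + T^(2:ℕ) + 2*S + 2*T + 1)) :
    1 < (T + 1) * (((S^(2:ℕ)*T^(2:ℕ) + S^(2:ℕ)*T + 2*S*T^(2:ℕ) + S^(2:ℕ) + 2*S*T + 2*S + T + 1))/(S*T*(S*T + 2*S + 2*T + 2))) := rgt d3 d45 d3 (by ring)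

theorem F5_orr_3 (S T : ℝ) (g21 : S < (S + T + 1) * (((S^(2:ℕ) + 3*S*T + 3*S + 2*T + 2))/((S + 1)*(S*T + 2*S + 2*T + 2)))) (g22 : 1 < (T + 1) * (((S^(2:ℕ)*T^(2:ℕ) + S^(2:ℕ)*T + 2*S*T^(2:ℕ) + S^(2:ℕ) + 2*S*T + 2*S + T + 1))/(S*T*(S*T + 2*S + 2*T + 2)))) :
    cond S T Letter.be (((S^(2:ℕ) + 3*S*T + 3*S + 2*T + 2))/((S + 1)*(S*T + 2*S + 2*T + 2)), ((S^(2:ℕ)*T^(2:ℕ) + S^(2:ℕ)*T + 2*S*T^(2:ℕ) + S^(2:ℕ) + 2*S*T + 2*S + T + 1))/(S*T*(S*T + 2*S + 2*T + 2))) := ⟨g21, g22⟩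

theorem F5_d46 (S T : ℝ) (pB : 0 < (T + 1)) (c27 : 0 < S^(2:ℕ)*T^(3:ℕ) - S^(3:ℕ)*T + S^(2:ℕ)*T^(2:ℕ) + 2*S*T^(3:ℕ) + S^(3:ℕ) + 2*S*T^(2:ℕ) + 3*S^(2:ℕ) + 3*S*T + T^(2:ℕ) + 3*S + 2*T + 1) :
    0 < (T + 1)*(S^(2:ℕ)*T^(3:ℕ) - S^(3:ℕ)*T + S^(2:ℕ)*T^(2:ℕ) + 2*S*T^(3:ℕ) + S^(3:ℕ) + 2*S*T^(2:ℕ) + 3*S^(2:ℕ) + 3*S*T + T^(2:ℕ) + 3*S + 2*T + 1) := (mul_pos pB c27)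

theorem F5_g23 (S T : ℝ) (d0 : 0 < S*T^(2:ℕ)*(S*T + 2*S + 2*T + 2)) (d46 : 0 < (T + 1)*(S^(2:ℕ)*T^(3:ℕ) - S^(3:ℕ)*T + S^(2:ℕ)*T^(2:ℕ) + 2*S*T^(3:ℕ) + S^(3:ℕ) + 2*S*T^(2:ℕ) + 3*S^(2:ℕ) + 3*S*T + T^(2:ℕ) + 3*S + 2*T + 1)) :
    S < (S + T + 1) * (((S^(2:ℕ)*T^(3:ℕ) + S^(2:ℕ)*T^(2:ℕ) + 2*S*T^(3:ℕ) + 2*S*T^(2:ℕ) + S^(2:ℕ) + 2*S*T + T^(2:ℕ) + 2*S + 2*T + 1))/(S*T^(2:ℕ)*(S*T + 2*S + 2*T + 2))) := rgt d0 d46 d0 (by ring)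

theorem F5_d47 (S T : ℝ) (c28 : 0 < S^(2:ℕ)*T^(2:ℕ) - 2*S^(2:ℕ) - 2*S*T - 4*S - 2*T - 2) :
    0 < (S^(2:ℕ)*T^(2:ℕ) - 2*S^(2:ℕ) - 2*S*T - 4*S - 2*T - 2) := c28

theorem F5_g24 (S T : ℝ) (d11 : 0 < (S + 1)*(T + 1)*(S*T + 2*S + 2*T + 2)) (d39 : 0 < (S + 1)*(S*T + 2*S + 2*T + 2)) (d47 : 0 < (S^(2:ℕ)*T^(2:ℕ) - 2*S^(2:ℕ) - 2*S*T - 4*S - 2*T - 2)) :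
    1 < (T + 1) * ((S*T*(S*T + S + 1))/((S + 1)*(T + 1)*(S*T + 2*S + 2*T + 2))) := rgt d11 d47 d39 (by ring)

theorem F5_orr_4 (S T : ℝ) (g23 : S < (S + T + 1) * (((S^(2:ℕ)*T^(3:ℕ) + S^(2:ℕ)*T^(2:ℕ) + 2*S*T^(3:ℕ) + 2*S*T^(2:ℕ) + S^(2:ℕ) + 2*S*T + T^(2:ℕ) + 2*S + 2*T + 1))/(S*T^(2:ℕ)*(S*T + 2*S + 2*T + 2)))) (g24 : 1 < (T + 1) * ((S*T*(S*T + S + 1))/((S + 1)*(T + 1)*(S*T + 2*S + 2*T + 2)))) :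
    cond S T Letter.be (((S^(2:ℕ)*T^(3:ℕ) + S^(2:ℕ)*T^(2:ℕ) + 2*S*T^(3:ℕ) + 2*S*T^(2:ℕ) + S^(2:ℕ) + 2*S*T + T^(2:ℕ) + 2*S + 2*T + 1))/(S*T^(2:ℕ)*(S*T + 2*S + 2*T + 2)), (S*T*(S*T + S + 1))/((S + 1)*(T + 1)*(S*T + 2*S + 2*T + 2))) := ⟨g23, g24⟩

theorem F5_d48 (S T : ℝ) (c29 : 0 < S^(2:ℕ)*T^(3:ℕ) - 2*S^(3:ℕ)*T - 2*S^(2:ℕ)*T^(2:ℕ) - 2*S^(3:ℕ) - 8*S^(2:ℕ)*T - 4*S*T^(2:ℕ) - 6*S^(2:ℕ) - 10*S*T - 2*T^(2:ℕ) - 6*S - 4*T - 2) :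
    0 < (S^(2:ℕ)*T^(3:ℕ) - 2*S^(3:ℕ)*T - 2*S^(2:ℕ)*T^(2:ℕ) - 2*S^(3:ℕ) - 8*S^(2:ℕ)*T - 4*S*T^(2:ℕ) - 6*S^(2:ℕ) - 10*S*T - 2*T^(2:ℕ) - 6*S - 4*T - 2) := c29

theorem F5_g25 (S T : ℝ) (d4 : 0 < T*(S + 1)*(S*T + 2*S + 2*T + 2)) (d48 : 0 < (S^(2:ℕ)*T^(3:ℕ) - 2*S^(3:ℕ)*T - 2*S^(2:ℕ)*T^(2:ℕ) - 2*S^(3:ℕ) - 8*S^(2:ℕ)*T - 4*S*T^(2:ℕ) - 6*S^(2:ℕ) - 10*S*T - 2*T^(2:ℕ) - 6*S - 4*T - 2)) :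
    S < (S + T + 1) * (((S^(2:ℕ)*T^(2:ℕ) - 2*S^(2:ℕ) - 2*S*T - 4*S - 2*T - 2))/(T*(S + 1)*(S*T + 2*S + 2*T + 2))) := rgt d4 d48 d4 (by ring)

theorem F5_d49 (S T : ℝ) (pU : 0 < (S + T + 1)) (c13 : 0 < 2*S*T + S + T + 1) :
    0 < (S + T + 1)*(2*S*T + S + T + 1) := (mul_pos pU c13)

theorem F5_g26 (S T : ℝ) (d3 : 0 < S*T*(S*T + 2*S + 2*T + 2)) (d49 : 0 < (S + T + 1)*(2*S*T + S + T + 1)) :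
    (T + 1) * (((S + 1)*(S*T - S - T - 1))/(S*T*(S*T + 2*S + 2*T + 2))) < 1 := rlt d3 d49 d3 (by ring)

theorem F5_orr_5 (S T : ℝ) (g25 : S < (S + T + 1) * (((S^(2:ℕ)*T^(2:ℕ) - 2*S^(2:ℕ) - 2*S*T - 4*S - 2*T - 2))/(T*(S + 1)*(S*T + 2*S + 2*T + 2)))) (g26 : (T + 1) * (((S + 1)*(S*T - S - T - 1))/(S*T*(S*T + 2*S + 2*T + 2))) < 1) :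
    cond S T Letter.al (((S^(2:ℕ)*T^(2:ℕ) - 2*S^(2:ℕ) - 2*S*T - 4*S - 2*T - 2))/(T*(S + 1)*(S*T + 2*S + 2*T + 2)), ((S + 1)*(S*T - S - T - 1))/(S*T*(S*T + 2*S + 2*T + 2))) := ⟨g25, g26⟩

theorem F5_d50 (S T : ℝ) (c30 : 0 < S^(4:ℕ)*T^(3:ℕ) + 3*S^(4:ℕ)*T^(2:ℕ) + 3*S^(3:ℕ)*T^(3:ℕ) - S^(2:ℕ)*T^(4:ℕ) + 4*S^(4:ℕ)*T + 14*S^(3:ℕ)*T^(2:ℕ) + 6*S^(2:ℕ)*T^(3:ℕ) + 2*S^(4:ℕ) + 18*S^(3:ℕ)*T + 25*S^(2:ℕ)*T^(2:ℕ) + 6*S*T^(3:ℕ) + 8*S^(3:ℕ) + 30*S^(2:ℕ)*T + 20*S*T^(2:ℕ) + 2*T^(3:ℕ) + 12*S^(2:ℕ) + 22*S*T + 6*T^(2:ℕ) + 8*S + 6*T + 2) :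
    0 < (S^(4:ℕ)*T^(3:ℕ) + 3*S^(4:ℕ)*T^(2:ℕ) + 3*S^(3:ℕ)*T^(3:ℕ) - S^(2:ℕ)*T^(4:ℕ) + 4*S^(4:ℕ)*T + 14*S^(3:ℕ)*T^(2:ℕ) + 6*S^(2:ℕ)*T^(3:ℕ) + 2*S^(4:ℕ) + 18*S^(3:ℕ)*T + 25*S^(2:ℕ)*T^(2:ℕ) + 6*S*T^(3:ℕ) + 8*S^(3:ℕ) + 30*S^(2:ℕ)*T + 20*S*T^(2:ℕ) + 2*T^(3:ℕ) + 12*S^(2:ℕ) + 22*S*T + 6*T^(2:ℕ) + 8*S + 6*T + 2) := c30

theorem F5_g27 (S T : ℝ) (d40 : 0 < T*(S + 1)^(2:ℕ)*(T + 1)*(S*T + 2*S + 2*T + 2)) (d50 : 0 < (S^(4:ℕ)*T^(3:ℕ) + 3*S^(4:ℕ)*T^(2:ℕ) + 3*S^(3:ℕ)*T^(3:ℕ) - S^(2:ℕ)*T^(4:ℕ) + 4*S^(4:ℕ)*T + 14*S^(3:ℕ)*T^(2:ℕ) + 6*S^(2:ℕ)*T^(3:ℕ) + 2*S^(4:ℕ) + 18*S^(3:ℕ)*T + 25*S^(2:ℕ)*T^(2:ℕ) + 6*S*T^(3:ℕ) + 8*S^(3:ℕ) + 30*S^(2:ℕ)*T + 20*S*T^(2:ℕ)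 + 2*T^(3:ℕ) + 12*S^(2:ℕ) + 22*S*T + 6*T^(2:ℕ) + 8*S + 6*T + 2)) :
    (S + T + 1) * (((S^(2:ℕ)*T^(3:ℕ) - 2*S^(3:ℕ)*T - 2*S^(2:ℕ)*T^(2:ℕ) - 2*S^(3:ℕ) - 8*S^(2:ℕ)*T - 4*S*T^(2:ℕ) - 6*S^(2:ℕ) - 10*S*T - 2*T^(2:ℕ) - 6*S - 4*T - 2))/(T*(S + 1)^(2:ℕ)*(T + 1)*(S*T + 2*S + 2*T + 2))) < S := rlt d40 d50 d40 (by ring)

theorem F5_orr_6 (S T : ℝ) (g27 : (S + T + 1) * (((S^(2:ℕ)*T^(3:ℕ) - 2*S^(3:ℕ)*T - 2*S^(2:ℕ)*T^(2:ℕ) - 2*S^(3:ℕ) - 8*S^(2:ℕ)*T - 4*S*T^(2:ℕ) - 6*S^(2:ℕ) - 10*S*T - 2*T^(2:ℕ) - 6*S - 4*T - 2))/(T*(S + 1)^(2:ℕ)*(T + 1)*(S*T + 2*S + 2*T + 2))) < S) :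
    cond S T Letter.ga (((S^(2:ℕ)*T^(3:ℕ) - 2*S^(3:ℕ)*T - 2*S^(2:ℕ)*T^(2:ℕ) - 2*S^(3:ℕ) - 8*S^(2:ℕ)*T - 4*S*T^(2:ℕ) - 6*S^(2:ℕ) - 10*S*T - 2*T^(2:ℕ) - 6*S - 4*T - 2))/(T*(S + 1)^(2:ℕ)*(T + 1)*(S*T + 2*S + 2*T + 2)), ((S^(2:ℕ)*T^(2:ℕ) + 2*S*T^(2:ℕ) - S^(2:ℕ) - S*T - 2*S - T - 1))/(S*T*(S*T + 2*S + 2*T + 2))) := g27

theorem F5_orr (S T : ℝ) (f21 : fl S T Letter.be (((T + 1)*(S*T - S + 2*T - 1))/(T*(S*T + 2*S + 2*T + 2)), ((S*T + S + 1))/((S*T + 2*S + 2*T + 2))) = (((S*T^(2:ℕ) + S*T - S - T - 1))/(T*(S*T + 2*S + 2*T + 2)), ((2*S*T + S + T + 1))/((T + 1)*(S*T + 2*S + 2*T + 2)))) (f22 : fl S T Letter.be (((S*T^(2:ℕ) + S*T - S - T - 1))/(T*(S*T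 + 2*S + 2*T + 2)), ((2*S*T + S + T + 1))/((T + 1)*(S*T + 2*S + 2*T + 2))) = (((S*T - S - T - 1))/(T*(S*T + 2*S + 2*T + 2)), ((S + 2*T + 1))/((S*T + 2*S + 2*T + 2)))) (f23 : fl S T Letter.ga (((S*T - S - T - 1))/(T*(S*T + 2*S + 2*T + 2)), ((S + 2*T + 1))/((S*T + 2*S + 2*T + 2))) = (((S^(2:ℕ) + 3*S*T + 3*S + 2*T + 2))/((S + 1)*(S*T + 2*S + 2*T + 2)), ((S^(2:ℕ)*T^(2:ℕ) + S^(2:ℕ)*T + 2*S*T^(2:ℕ) + S^(2:ℕ) + 2*S*T + 2*S + T + 1))/(S*T*(S*T + 2*S + 2*T + 2)))) (f24 : fl S T Letter.be (((S^(2:ℕ) + 3*S*T + 3*S + 2*T + 2))/((S + 1)*(S*T + 2*S + 2*T + 2)), ((S^(2:ℕ)*T^(2:ℕ) + S^(2:ℕ)*T + 2*S*T^(2:ℕ) + S^(2:ℕ) + 2*S*T + 2*S + T + 1))/(S*T*(S*T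 + 2*S + 2*T + 2))) = (((S^(2:ℕ)*T^(3:ℕ) + S^(2:ℕ)*T^(2:ℕ) + 2*S*T^(3:ℕ) + 2*S*T^(2:ℕ) + S^(2:ℕ) + 2*S*T + T^(2:ℕ) + 2*S + 2*T + 1))/(S*T^(2:ℕ)*(S*T + 2*S + 2*T + 2)), (S*T*(S*T + S + 1))/((S + 1)*(T + 1)*(S*T + 2*S + 2*T + 2)))) (f25 : fl S T Letter.be (((S^(2:ℕ)*T^(3:ℕ) + S^(2:ℕ)*T^(2:ℕ) + 2*S*T^(3:ℕ) + 2*S*T^(2:ℕ) + S^(2:ℕ) + 2*S*T + T^(2:ℕ) + 2*S + 2*T + 1))/(S*T^(2:ℕ)*(S*T + 2*S + 2*T + 2)), (S*T*(S*T + S + 1))/((S + 1)*(T + 1)*(S*T + 2*S + 2*T + 2))) = (((S^(2:ℕ)*T^(2:ℕ) - 2*S^(2:ℕ) - 2*S*T - 4*S - 2*T - 2))/(T*(S + 1)*(S*T + 2*S + 2*T + 2)), ((S + 1)*(S*T - S - T - 1))/(S*T*(S*T + 2*S + 2*T + 2)))) (f26 : fl S T Letter.al (((S^(2:ℕ)*T^(2:ℕ)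 - 2*S^(2:ℕ) - 2*S*T - 4*S - 2*T - 2))/(T*(S + 1)*(S*T + 2*S + 2*T + 2)), ((S + 1)*(S*T - S - T - 1))/(S*T*(S*T + 2*S + 2*T + 2))) = (((S^(2:ℕ)*T^(3:ℕ) - 2*S^(3:ℕ)*T - 2*S^(2:ℕ)*T^(2:ℕ) - 2*S^(3:ℕ) - 8*S^(2:ℕ)*T - 4*S*T^(2:ℕ) - 6*S^(2:ℕ) - 10*S*T - 2*T^(2:ℕ) - 6*S - 4*T - 2))/(T*(S + 1)^(2:ℕ)*(T + 1)*(S*T + 2*S + 2*T + 2)), ((S^(2:ℕ)*T^(2:ℕ) + 2*S*T^(2:ℕ) - S^(2:ℕ) - S*T - 2*S - T - 1))/(S*T*(S*T + 2*S + 2*T + 2)))) (orr_0 : cond S T Letter.be (((T + 1)*(S*T - S + 2*T - 1))/(T*(S*T + 2*S + 2*T + 2)), ((S*T + S + 1))/((S*T + 2*S + 2*T + 2)))) (orr_1 : cond S T Letter.be (((S*T^(2:ℕ) + S*T - S - T - 1))/(T*(S*T + 2*S + 2*T + 2)), ((2*S*T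 + S + T + 1))/((T + 1)*(S*T + 2*S + 2*T + 2)))) (orr_2 : cond S T Letter.ga (((S*T - S - T - 1))/(T*(S*T + 2*S + 2*T + 2)), ((S + 2*T + 1))/((S*T + 2*S + 2*T + 2)))) (orr_3 : cond S T Letter.be (((S^(2:ℕ) + 3*S*T + 3*S + 2*T + 2))/((S + 1)*(S*T + 2*S + 2*T + 2)), ((S^(2:ℕ)*T^(2:ℕ) + S^(2:ℕ)*T + 2*S*T^(2:ℕ) + S^(2:ℕ) + 2*S*T + 2*S + T + 1))/(S*T*(S*T + 2*S + 2*T + 2)))) (orr_4 : cond S T Letter.be (((S^(2:ℕ)*T^(3:ℕ) + S^(2:ℕ)*T^(2:ℕ) + 2*S*T^(3:ℕ) + 2*S*T^(2:ℕ) + S^(2:ℕ) + 2*S*T + T^(2:ℕ) + 2*S + 2*T + 1))/(S*T^(2:ℕ)*(S*T + 2*S + 2*T + 2)), (S*T*(S*T + S + 1))/((S + 1)*(T + 1)*(S*T + 2*S + 2*T + 2)))) (orr_5 : cond S T Letter.al (((S^(2:ℕ)*T^(2:ℕ)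 - 2*S^(2:ℕ) - 2*S*T - 4*S - 2*T - 2))/(T*(S + 1)*(S*T + 2*S + 2*T + 2)), ((S + 1)*(S*T - S - T - 1))/(S*T*(S*T + 2*S + 2*T + 2)))) (orr_6 : cond S T Letter.ga (((S^(2:ℕ)*T^(3:ℕ) - 2*S^(3:ℕ)*T - 2*S^(2:ℕ)*T^(2:ℕ) - 2*S^(3:ℕ) - 8*S^(2:ℕ)*T - 4*S*T^(2:ℕ) - 6*S^(2:ℕ) - 10*S*T - 2*T^(2:ℕ) - 6*S - 4*T - 2))/(T*(S + 1)^(2:ℕ)*(T + 1)*(S*T + 2*S + 2*T + 2)), ((S^(2:ℕ)*T^(2:ℕ) + 2*S*T^(2:ℕ) - S^(2:ℕ) - S*T - 2*S - T - 1))/(S*T*(S*T + 2*S + 2*T + 2)))) :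
    okc S T [Letter.be, Letter.be, Letter.ga, Letter.be, Letter.be, Letter.al, Letter.ga] (((T + 1)*(S*T - S + 2*T - 1))/(T*(S*T + 2*S + 2*T + 2)), ((S*T + S + 1))/((S*T + 2*S + 2*T + 2))) := (okc_cons' orr_0 f21 (okc_cons' orr_1 f22 (okc_cons' orr_2 f23 (okc_cons' orr_3 f24 (okc_cons' orr_4 f25 (okc_cons' orr_5 f26 (okc_last' orr_6)))))))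

theorem F5_d51 (S T : ℝ) (pS : 0 < S) (pT : 0 < T) (pA : 0 < (S + 1)) (c0 : 0 < S*T + 2*S + 2*T + 2) :
    0 < S*T^(2:ℕ)*(S + 1)*(S*T + 2*S + 2*T + 2) := (mul_pos (mul_pos (mul_pos pS (pow_pos pT 2)) pA) c0)

theorem F5_f28 (S T : ℝ) (pT : 0 < T) (d2 : 0 < T*(S*T + 2*S + 2*T + 2)) (d5 : 0 < (T + 1)*(S*T + 2*S + 2*T + 2)) (d20 : 0 < S*T*(S + 1)*(T + 1)*(S*T + 2*S + 2*T + 2)) (d51 : 0 < S*T^(2:ℕ)*(S + 1)*(S*T + 2*S + 2*T + 2)) :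
    fl S T Letter.be (((T + 1)*(S*T - S + 2*T - 1))/(T*(S*T + 2*S + 2*T + 2)), ((S^(3:ℕ)*T^(3:ℕ) + 3*S^(3:ℕ)*T^(2:ℕ) + 2*S^(2:ℕ)*T^(3:ℕ) + 4*S^(3:ℕ)*T + 9*S^(2:ℕ)*T^(2:ℕ) + 2*S*T^(3:ℕ) + 2*S^(3:ℕ) + 12*S^(2:ℕ)*T + 8*S*T^(2:ℕ) + 6*S^(2:ℕ) + 12*S*T + 2*T^(2:ℕ) + 6*S + 4*T + 2))/(S*T*(S + 1)*(T + 1)*(S*T + 2*S + 2*T + 2))) = (((S^(3:ℕ)*T^(3:ℕ) + 2*S^(3:ℕ)*T^(2:ℕ) + 2*S^(2:ℕ)*T^(3:ℕ) + 2*S^(3:ℕ)*T + 6*S^(2:ℕ)*T^(2:ℕ) + 2*S*T^(3:ℕ) + 2*S^(3:ℕ) + 8*S^(2:ℕ)*T + 6*S*T^(2:ℕ) + 6*S^(2:ℕ) + 10*S*T + 2*T^(2:ℕ) + 6*S + 4*T + 2))/(S*T^(2:ℕ)*(S + 1)*(S*T + 2*S + 2*T + 2)), ((2*S*T + S + T + 1))/((T + 1)*(S*T + 2*S + 2*T + 2))) := fl_be' pT d2 d20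 d51 d5 (by ring) (by ring)

theorem F5_f29 (S T : ℝ) (pT : 0 < T) (d2 : 0 < T*(S*T + 2*S + 2*T + 2)) (d5 : 0 < (T + 1)*(S*T + 2*S + 2*T + 2)) (d20 : 0 < S*T*(S + 1)*(T + 1)*(S*T + 2*S + 2*T + 2)) (d51 : 0 < S*T^(2:ℕ)*(S + 1)*(S*T + 2*S + 2*T + 2)) :
    fl S T Letter.be (((S^(3:ℕ)*T^(3:ℕ) + 2*S^(3:ℕ)*T^(2:ℕ) + 2*S^(2:ℕ)*T^(3:ℕ) + 2*S^(3:ℕ)*T + 6*S^(2:ℕ)*T^(2:ℕ) + 2*S*T^(3:ℕ) + 2*S^(3:ℕ) + 8*S^(2:ℕ)*T + 6*S*T^(2:ℕ) + 6*S^(2:ℕ) + 10*S*T + 2*T^(2:ℕ) + 6*S + 4*T + 2))/(S*T^(2:ℕ)*(S + 1)*(S*T + 2*S + 2*T + 2)), ((2*S*T + S + T + 1))/((T + 1)*(S*T + 2*S + 2*T + 2))) = (((S*T - S - T - 1))/(T*(S*T + 2*S + 2*T + 2)), ((S^(2:ℕ)*T^(3:ℕ) - 2*S^(3:ℕ)*T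 - 2*S^(2:ℕ)*T^(2:ℕ) - 2*S^(3:ℕ) - 8*S^(2:ℕ)*T - 4*S*T^(2:ℕ) - 6*S^(2:ℕ) - 10*S*T - 2*T^(2:ℕ) - 6*S - 4*T - 2))/(S*T*(S + 1)*(T + 1)*(S*T + 2*S + 2*T + 2))) := fl_be' pT d51 d5 d2 d20 (by ring) (by ring)

theorem F5_f30 (S T : ℝ) (pS : 0 < S) (d2 : 0 < T*(S*T + 2*S + 2*T + 2)) (d3 : 0 < S*T*(S*T + 2*S + 2*T + 2)) (d20 : 0 < S*T*(S + 1)*(T + 1)*(S*T + 2*S + 2*T + 2)) (d40 : 0 < T*(S + 1)^(2:ℕ)*(T + 1)*(S*T + 2*S + 2*T + 2)) :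
    fl S T Letter.ga (((S*T - S - T - 1))/(T*(S*T + 2*S + 2*T + 2)), ((S^(2:ℕ)*T^(3:ℕ) - 2*S^(3:ℕ)*T - 2*S^(2:ℕ)*T^(2:ℕ) - 2*S^(3:ℕ) - 8*S^(2:ℕ)*T - 4*S*T^(2:ℕ) - 6*S^(2:ℕ) - 10*S*T - 2*T^(2:ℕ) - 6*S - 4*T - 2))/(S*T*(S + 1)*(T + 1)*(S*T + 2*S + 2*T + 2))) = (((2*S^(2:ℕ)*T^(3:ℕ) - 2*S^(3:ℕ)*T + S^(2:ℕ)*T^(2:ℕ) + 3*S*T^(3:ℕ) - 2*S^(3:ℕ) - 6*S^(2:ℕ)*T + 3*S*T^(2:ℕ) + 2*T^(3:ℕ) - 6*S^(2:ℕ) - 6*S*T + 2*T^(2:ℕ) - 6*S - 2*T - 2))/(T*(S + 1)^(2:ℕ)*(T + 1)*(S*T + 2*S + 2*T + 2)), ((S^(2:ℕ)*T^(2:ℕ) + S^(2:ℕ)*T + 2*S*T^(2:ℕ) + S^(2:ℕ) + 2*S*T + 2*S + T + 1))/(S*T*(S*T + 2*S + 2*T + 2))) := fl_ga' pS d2 d20 d40 d3 (by ring) (by ring)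

theorem F5_f31 (S T : ℝ) (pT : 0 < T) (d0 : 0 < S*T^(2:ℕ)*(S*T + 2*S + 2*T + 2)) (d3 : 0 < S*T*(S*T + 2*S + 2*T + 2)) (d31 : 0 < (S + 1)^(2:ℕ)*(T + 1)^(2:ℕ)*(S*T + 2*S + 2*T + 2)) (d40 : 0 < T*(S + 1)^(2:ℕ)*(T + 1)*(S*T + 2*S + 2*T + 2)) :
    fl S T Letter.be (((2*S^(2:ℕ)*T^(3:ℕ) - 2*S^(3:ℕ)*T + S^(2:ℕ)*T^(2:ℕ) + 3*S*T^(3:ℕ) - 2*S^(3:ℕ) - 6*S^(2:ℕ)*T + 3*S*T^(2:ℕ) + 2*T^(3:ℕ) - 6*S^(2:ℕ) - 6*S*T + 2*T^(2:ℕ) - 6*S - 2*T - 2))/(T*(S + 1)^(2:ℕ)*(T + 1)*(S*T + 2*S + 2*T + 2)), ((S^(2:ℕ)*T^(2:ℕ) + S^(2:ℕ)*T + 2*S*T^(2:ℕ) + S^(2:ℕ) + 2*S*T + 2*S + T + 1))/(S*T*(S*T + 2*S + 2*T + 2))) = (((S^(2:ℕ)*T^(3:ℕ) + S^(2:ℕ)*T^(2:ℕ) + 2*S*T^(3:ℕ)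 + 2*S*T^(2:ℕ) + S^(2:ℕ) + 2*S*T + T^(2:ℕ) + 2*S + 2*T + 1))/(S*T^(2:ℕ)*(S*T + 2*S + 2*T + 2)), ((S^(3:ℕ)*T^(3:ℕ) + 3*S^(3:ℕ)*T^(2:ℕ) + 2*S^(2:ℕ)*T^(3:ℕ) + 4*S^(3:ℕ)*T + 9*S^(2:ℕ)*T^(2:ℕ) + 2*S*T^(3:ℕ) + 2*S^(3:ℕ) + 12*S^(2:ℕ)*T + 8*S*T^(2:ℕ) + 6*S^(2:ℕ) + 12*S*T + 2*T^(2:ℕ) + 6*S + 4*T + 2))/((S + 1)^(2:ℕ)*(T + 1)^(2:ℕ)*(S*T + 2*S + 2*T + 2))) := fl_be' pT d40 d3 d0 d31 (by ring) (by ring)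

theorem F5_d52 (S T : ℝ) (pA : 0 < (S + 1)) (pB : 0 < (T + 1)) (c0 : 0 < S*T + 2*S + 2*T + 2) :
    0 < (S + 1)^(2:ℕ)*(T + 1)*(S*T + 2*S + 2*T + 2) := (mul_pos (mul_pos (pow_pos pA 2) pB) c0)

theorem F5_f32 (S T : ℝ) (pT : 0 < T) (d0 : 0 < S*T^(2:ℕ)*(S*T + 2*S + 2*T + 2)) (d3 : 0 < S*T*(S*T + 2*S + 2*T + 2)) (d31 : 0 < (S + 1)^(2:ℕ)*(T + 1)^(2:ℕ)*(S*T + 2*S + 2*T + 2)) (d52 : 0 < (S + 1)^(2:ℕ)*(T + 1)*(S*T + 2*S + 2*T + 2)) :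
    fl S T Letter.be (((S^(2:ℕ)*T^(3:ℕ) + S^(2:ℕ)*T^(2:ℕ) + 2*S*T^(3:ℕ) + 2*S*T^(2:ℕ) + S^(2:ℕ) + 2*S*T + T^(2:ℕ) + 2*S + 2*T + 1))/(S*T^(2:ℕ)*(S*T + 2*S + 2*T + 2)), ((S^(3:ℕ)*T^(3:ℕ) + 3*S^(3:ℕ)*T^(2:ℕ) + 2*S^(2:ℕ)*T^(3:ℕ) + 4*S^(3:ℕ)*T + 9*S^(2:ℕ)*T^(2:ℕ) + 2*S*T^(3:ℕ) + 2*S^(3:ℕ) + 12*S^(2:ℕ)*T + 8*S*T^(2:ℕ) + 6*S^(2:ℕ) + 12*S*T + 2*T^(2:ℕ) + 6*S + 4*T + 2))/((S + 1)^(2:ℕ)*(T + 1)^(2:ℕ)*(S*T + 2*S + 2*T + 2))) = ((S*(S^(2:ℕ)*T^(2:ℕ) + 2*S^(2:ℕ)*T + 2*S*T^(2:ℕ) + S^(2:ℕ) + 5*S*T + 2*T^(2:ℕ) + 2*S + 3*T + 1))/((S + 1)^(2:ℕ)*(T + 1)*(S*T + 2*S + 2*T + 2)), ((S + 1)*(S*T - S - T - 1))/(S*T*(S*T + 2*S + 2*T + 2))) := fl_be' pT d0 d31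 d52 d3 (by ring) (by ring)

theorem F5_d53 (S T : ℝ) (pA : 0 < (S + 1)) (pB : 0 < (T + 1)) (c0 : 0 < S*T + 2*S + 2*T + 2) :
    0 < (S + 1)^(3:ℕ)*(T + 1)^(2:ℕ)*(S*T + 2*S + 2*T + 2) := (mul_pos (mul_pos (pow_pos pA 3) (pow_pos pB 2)) c0)

theorem F5_f33 (S T : ℝ) (pS : 0 < S) (pT : 0 < T) (d3 : 0 < S*T*(S*T + 2*S + 2*T + 2)) (d52 : 0 < (S + 1)^(2:ℕ)*(T + 1)*(S*T + 2*S + 2*T + 2)) (d53 : 0 < (S + 1)^(3:ℕ)*(T + 1)^(2:ℕ)*(S*T + 2*S + 2*T + 2)) :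
    fl S T Letter.al ((S*(S^(2:ℕ)*T^(2:ℕ) + 2*S^(2:ℕ)*T + 2*S*T^(2:ℕ) + S^(2:ℕ) + 5*S*T + 2*T^(2:ℕ) + 2*S + 3*T + 1))/((S + 1)^(2:ℕ)*(T + 1)*(S*T + 2*S + 2*T + 2)), ((S + 1)*(S*T - S - T - 1))/(S*T*(S*T + 2*S + 2*T + 2))) = ((S*(S^(2:ℕ)*T^(3:ℕ) - S^(3:ℕ)*T + S^(2:ℕ)*T^(2:ℕ) + 2*S*T^(3:ℕ) - S^(3:ℕ) - 2*S^(2:ℕ)*T + 4*S*T^(2:ℕ) + 2*T^(3:ℕ) - 3*S^(2:ℕ) - S*T + 3*T^(2:ℕ) - 3*S - 1))/((S + 1)^(3:ℕ)*(T + 1)^(2:ℕ)*(S*T + 2*S + 2*T + 2)), ((S^(2:ℕ)*T^(2:ℕ) + 2*S*T^(2:ℕ) - S^(2:ℕ) - S*T - 2*S - T - 1))/(S*T*(S*T + 2*S + 2*T + 2))) := fl_al' pS pT d52 d3 d53 d3 (by ring) (by ring)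

theorem F5_f34 (S T : ℝ) (pS : 0 < S) (d2 : 0 < T*(S*T + 2*S + 2*T + 2)) (d3 : 0 < S*T*(S*T + 2*S + 2*T + 2)) (d31 : 0 < (S + 1)^(2:ℕ)*(T + 1)^(2:ℕ)*(S*T + 2*S + 2*T + 2)) (d53 : 0 < (S + 1)^(3:ℕ)*(T + 1)^(2:ℕ)*(S*T + 2*S + 2*T + 2)) :
    fl S T Letter.ga ((S*(S^(2:ℕ)*T^(3:ℕ) - S^(3:ℕ)*T + S^(2:ℕ)*T^(2:ℕ) + 2*S*T^(3:ℕ) - S^(3:ℕ) - 2*S^(2:ℕ)*T + 4*S*T^(2:ℕ) + 2*T^(3:ℕ) - 3*S^(2:ℕ) - S*T + 3*T^(2:ℕ) - 3*S - 1))/((S + 1)^(3:ℕ)*(T + 1)^(2:ℕ)*(S*T + 2*S + 2*T + 2)), ((S^(2:ℕ)*T^(2:ℕ) + 2*S*T^(2:ℕ) - S^(2:ℕ) - S*T - 2*S - T - 1))/(S*T*(S*T + 2*S + 2*T + 2))) = (((T + 1)*(S*T - S + 2*T - 1))/(T*(S*T + 2*S + 2*T + 2)), ((S^(3:ℕ)*T^(3:ℕ)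 + 4*S^(3:ℕ)*T^(2:ℕ) + 3*S^(2:ℕ)*T^(3:ℕ) + 6*S^(3:ℕ)*T + 13*S^(2:ℕ)*T^(2:ℕ) + 3*S*T^(3:ℕ) + 3*S^(3:ℕ) + 18*S^(2:ℕ)*T + 12*S*T^(2:ℕ) + 9*S^(2:ℕ) + 18*S*T + 3*T^(2:ℕ) + 9*S + 6*T + 3))/((S + 1)^(2:ℕ)*(T + 1)^(2:ℕ)*(S*T + 2*S + 2*T + 2))) := fl_ga' pS d53 d3 d2 d31 (by ring) (by ring)

theorem F5_d54 (S T : ℝ) (c31 : 0 < S^(3:ℕ)*T^(3:ℕ) + 3*S^(3:ℕ)*T^(2:ℕ) + 2*S^(2:ℕ)*T^(3:ℕ) + 4*S^(3:ℕ)*T + 9*S^(2:ℕ)*T^(2:ℕ) + 2*S*T^(3:ℕ) + 2*S^(3:ℕ) + 12*S^(2:ℕ)*T + 8*S*T^(2:ℕ) + 6*S^(2:ℕ) + 12*S*T + 2*T^(2:ℕ) + 6*S + 4*T + 2) :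
    0 < (S^(3:ℕ)*T^(3:ℕ) + 3*S^(3:ℕ)*T^(2:ℕ) + 2*S^(2:ℕ)*T^(3:ℕ) + 4*S^(3:ℕ)*T + 9*S^(2:ℕ)*T^(2:ℕ) + 2*S*T^(3:ℕ) + 2*S^(3:ℕ) + 12*S^(2:ℕ)*T + 8*S*T^(2:ℕ) + 6*S^(2:ℕ) + 12*S*T + 2*T^(2:ℕ) + 6*S + 4*T + 2) := c31

theorem F5_q8 (S T : ℝ) (d20 : 0 < S*T*(S + 1)*(T + 1)*(S*T + 2*S + 2*T + 2)) (d54 : 0 < (S^(3:ℕ)*T^(3:ℕ) + 3*S^(3:ℕ)*T^(2:ℕ) + 2*S^(2:ℕ)*T^(3:ℕ) + 4*S^(3:ℕ)*T + 9*S^(2:ℕ)*T^(2:ℕ) + 2*S*T^(3:ℕ) + 2*S^(3:ℕ) + 12*S^(2:ℕ)*T + 8*S*T^(2:ℕ) + 6*S^(2:ℕ) + 12*S*T + 2*T^(2:ℕ) + 6*S + 4*T + 2)) :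
    0 < ((S^(3:ℕ)*T^(3:ℕ) + 3*S^(3:ℕ)*T^(2:ℕ) + 2*S^(2:ℕ)*T^(3:ℕ) + 4*S^(3:ℕ)*T + 9*S^(2:ℕ)*T^(2:ℕ) + 2*S*T^(3:ℕ) + 2*S^(3:ℕ) + 12*S^(2:ℕ)*T + 8*S*T^(2:ℕ) + 6*S^(2:ℕ) + 12*S*T + 2*T^(2:ℕ) + 6*S + 4*T + 2))/(S*T*(S + 1)*(T + 1)*(S*T + 2*S + 2*T + 2)) := div_pos d54 d20

theorem F5_q9 (S T : ℝ) (d20 : 0 < S*T*(S + 1)*(T + 1)*(S*T + 2*S + 2*T + 2)) (d48 : 0 < (S^(2:ℕ)*T^(3:ℕ) - 2*S^(3:ℕ)*T - 2*S^(2:ℕ)*T^(2:ℕ) - 2*S^(3:ℕ) - 8*S^(2:ℕ)*T - 4*S*T^(2:ℕ) - 6*S^(2:ℕ) - 10*S*T - 2*T^(2:ℕ) - 6*S - 4*T - 2)) :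
    ((S^(3:ℕ)*T^(3:ℕ) + 3*S^(3:ℕ)*T^(2:ℕ) + 2*S^(2:ℕ)*T^(3:ℕ) + 4*S^(3:ℕ)*T + 9*S^(2:ℕ)*T^(2:ℕ) + 2*S*T^(3:ℕ) + 2*S^(3:ℕ) + 12*S^(2:ℕ)*T + 8*S*T^(2:ℕ) + 6*S^(2:ℕ) + 12*S*T + 2*T^(2:ℕ) + 6*S + 4*T + 2))/(S*T*(S + 1)*(T + 1)*(S*T + 2*S + 2*T + 2)) < 1 := rlt1 d20 d48 d20 (by ring)

theorem F5_sC (S T : ℝ) (q6 : 0 < ((T + 1)*(S*T - S + 2*T - 1))/(T*(S*T + 2*S + 2*T + 2))) (q7 : ((T + 1)*(S*T - S + 2*T - 1))/(T*(S*T + 2*S + 2*T + 2)) < 1) (q8 : 0 < ((S^(3:ℕ)*T^(3:ℕ) + 3*S^(3:ℕ)*T^(2:ℕ) + 2*S^(2:ℕ)*T^(3:ℕ) + 4*S^(3:ℕ)*T + 9*S^(2:ℕ)*T^(2:ℕ) + 2*S*T^(3:ℕ) + 2*S^(3:ℕ) + 12*S^(2:ℕ)*T + 8*S*T^(2:ℕ) + 6*S^(2:ℕ) + 12*S*T + 2*T^(2:ℕ) + 6*S + 4*T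 + 2))/(S*T*(S + 1)*(T + 1)*(S*T + 2*S + 2*T + 2))) (q9 : ((S^(3:ℕ)*T^(3:ℕ) + 3*S^(3:ℕ)*T^(2:ℕ) + 2*S^(2:ℕ)*T^(3:ℕ) + 4*S^(3:ℕ)*T + 9*S^(2:ℕ)*T^(2:ℕ) + 2*S*T^(3:ℕ) + 2*S^(3:ℕ) + 12*S^(2:ℕ)*T + 8*S*T^(2:ℕ) + 6*S^(2:ℕ) + 12*S*T + 2*T^(2:ℕ) + 6*S + 4*T + 2))/(S*T*(S + 1)*(T + 1)*(S*T + 2*S + 2*T + 2)) < 1) :
    Sq (((T + 1)*(S*T - S + 2*T - 1))/(T*(S*T + 2*S + 2*T + 2)), ((S^(3:ℕ)*T^(3:ℕ) + 3*S^(3:ℕ)*T^(2:ℕ) + 2*S^(2:ℕ)*T^(3:ℕ) + 4*S^(3:ℕ)*T + 9*S^(2:ℕ)*T^(2:ℕ) + 2*S*T^(3:ℕ) + 2*S^(3:ℕ) + 12*S^(2:ℕ)*T + 8*S*T^(2:ℕ) + 6*S^(2:ℕ) + 12*S*T + 2*T^(2:ℕ) + 6*S + 4*T + 2))/(S*T*(S + 1)*(T + 1)*(S*T + 2*S + 2*T + 2))) := ⟨⟨q6, q7⟩, q8, q9⟩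

theorem F5_d55 (S T : ℝ) (c32 : 0 < S^(3:ℕ)*T^(3:ℕ) + 2*S^(3:ℕ)*T^(2:ℕ) + 2*S^(2:ℕ)*T^(3:ℕ) + 2*S^(3:ℕ)*T + 6*S^(2:ℕ)*T^(2:ℕ) + 2*S*T^(3:ℕ) + 2*S^(3:ℕ) + 8*S^(2:ℕ)*T + 6*S*T^(2:ℕ) + 6*S^(2:ℕ) + 10*S*T + 2*T^(2:ℕ) + 6*S + 4*T + 2) :
    0 < (S^(3:ℕ)*T^(3:ℕ) + 2*S^(3:ℕ)*T^(2:ℕ) + 2*S^(2:ℕ)*T^(3:ℕ) + 2*S^(3:ℕ)*T + 6*S^(2:ℕ)*T^(2:ℕ) + 2*S*T^(3:ℕ) + 2*S^(3:ℕ) + 8*S^(2:ℕ)*T + 6*S*T^(2:ℕ) + 6*S^(2:ℕ) + 10*S*T + 2*T^(2:ℕ) + 6*S + 4*T + 2) := c32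

theorem F5_d56 (S T : ℝ) (pS : 0 < S) (pT : 0 < T) (pA : 0 < (S + 1)) (c0 : 0 < S*T + 2*S + 2*T + 2) :
    0 < S*T*(S + 1)*(S*T + 2*S + 2*T + 2) := (mul_pos (mul_pos (mul_pos pS pT) pA) c0)

theorem F5_g28 (S T : ℝ) (d20 : 0 < S*T*(S + 1)*(T + 1)*(S*T + 2*S + 2*T + 2)) (d55 : 0 < (S^(3:ℕ)*T^(3:ℕ) + 2*S^(3:ℕ)*T^(2:ℕ) + 2*S^(2:ℕ)*T^(3:ℕ) + 2*S^(3:ℕ)*T + 6*S^(2:ℕ)*T^(2:ℕ) + 2*S*T^(3:ℕ) + 2*S^(3:ℕ) + 8*S^(2:ℕ)*T + 6*S*T^(2:ℕ) + 6*S^(2:ℕ) + 10*S*T + 2*T^(2:ℕ) + 6*S + 4*T + 2)) (d56 : 0 < S*T*(S + 1)*(S*T + 2*S + 2*T + 2)) :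
    1 < (T + 1) * (((S^(3:ℕ)*T^(3:ℕ) + 3*S^(3:ℕ)*T^(2:ℕ) + 2*S^(2:ℕ)*T^(3:ℕ) + 4*S^(3:ℕ)*T + 9*S^(2:ℕ)*T^(2:ℕ) + 2*S*T^(3:ℕ) + 2*S^(3:ℕ) + 12*S^(2:ℕ)*T + 8*S*T^(2:ℕ) + 6*S^(2:ℕ) + 12*S*T + 2*T^(2:ℕ) + 6*S + 4*T + 2))/(S*T*(S + 1)*(T + 1)*(S*T + 2*S + 2*T + 2))) := rgt d20 d55 d56 (by ring)

theorem F5_oC_0 (S T : ℝ) (g18 : S < (S + T + 1) * (((T + 1)*(S*T - S + 2*T - 1))/(T*(S*T + 2*S + 2*T + 2)))) (g28 : 1 < (T + 1) * (((S^(3:ℕ)*T^(3:ℕ) + 3*S^(3:ℕ)*T^(2:ℕ) + 2*S^(2:ℕ)*T^(3:ℕ) + 4*S^(3:ℕ)*T + 9*S^(2:ℕ)*T^(2:ℕ) + 2*S*T^(3:ℕ) + 2*S^(3:ℕ) + 12*S^(2:ℕ)*T + 8*S*T^(2:ℕ) + 6*S^(2:ℕ) + 12*S*T + 2*T^(2:ℕ) + 6*S + 4*T + 2))/(S*T*(S + 1)*(T +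 1)*(S*T + 2*S + 2*T + 2)))) :
    cond S T Letter.be (((T + 1)*(S*T - S + 2*T - 1))/(T*(S*T + 2*S + 2*T + 2)), ((S^(3:ℕ)*T^(3:ℕ) + 3*S^(3:ℕ)*T^(2:ℕ) + 2*S^(2:ℕ)*T^(3:ℕ) + 4*S^(3:ℕ)*T + 9*S^(2:ℕ)*T^(2:ℕ) + 2*S*T^(3:ℕ) + 2*S^(3:ℕ) + 12*S^(2:ℕ)*T + 8*S*T^(2:ℕ) + 6*S^(2:ℕ) + 12*S*T + 2*T^(2:ℕ) + 6*S + 4*T + 2))/(S*T*(S + 1)*(T + 1)*(S*T + 2*S + 2*T + 2))) := ⟨g18, g28⟩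

theorem F5_d57 (S T : ℝ) (c33 : 0 < S^(3:ℕ)*T^(4:ℕ) + 2*S^(3:ℕ)*T^(3:ℕ) + 2*S^(2:ℕ)*T^(4:ℕ) + 2*S^(4:ℕ)*T + 6*S^(3:ℕ)*T^(2:ℕ) + 8*S^(2:ℕ)*T^(3:ℕ) + 2*S*T^(4:ℕ) + 2*S^(4:ℕ) + 12*S^(3:ℕ)*T + 18*S^(2:ℕ)*T^(2:ℕ) + 8*S*T^(3:ℕ) + 8*S^(3:ℕ) + 24*S^(2:ℕ)*T + 18*S*T^(2:ℕ) + 2*T^(3:ℕ) + 12*S^(2:ℕ) + 20*S*T + 6*T^(2:ℕ) + 8*S + 6*T + 2) :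
    0 < (S^(3:ℕ)*T^(4:ℕ) + 2*S^(3:ℕ)*T^(3:ℕ) + 2*S^(2:ℕ)*T^(4:ℕ) + 2*S^(4:ℕ)*T + 6*S^(3:ℕ)*T^(2:ℕ) + 8*S^(2:ℕ)*T^(3:ℕ) + 2*S*T^(4:ℕ) + 2*S^(4:ℕ) + 12*S^(3:ℕ)*T + 18*S^(2:ℕ)*T^(2:ℕ) + 8*S*T^(3:ℕ) + 8*S^(3:ℕ) + 24*S^(2:ℕ)*T + 18*S*T^(2:ℕ) + 2*T^(3:ℕ) + 12*S^(2:ℕ) + 20*S*T + 6*T^(2:ℕ) + 8*S + 6*T + 2) := c33

theorem F5_g29 (S T : ℝ) (d51 : 0 < S*T^(2:ℕ)*(S + 1)*(S*T + 2*S + 2*T + 2)) (d57 : 0 < (S^(3:ℕ)*T^(4:ℕ) + 2*S^(3:ℕ)*T^(3:ℕ) + 2*S^(2:ℕ)*T^(4:ℕ) + 2*S^(4:ℕ)*T + 6*S^(3:ℕ)*T^(2:ℕ) + 8*S^(2:ℕ)*T^(3:ℕ) + 2*S*T^(4:ℕ) + 2*S^(4:ℕ) + 12*S^(3:ℕ)*T + 18*S^(2:ℕ)*T^(2:ℕ) + 8*S*T^(3:ℕ) + 8*S^(3:ℕ) + 24*S^(2:ℕ)*T + 18*S*T^(2:ℕ) + 2*T^(3:ℕ) +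 12*S^(2:ℕ) + 20*S*T + 6*T^(2:ℕ) + 8*S + 6*T + 2)) :
    S < (S + T + 1) * (((S^(3:ℕ)*T^(3:ℕ) + 2*S^(3:ℕ)*T^(2:ℕ) + 2*S^(2:ℕ)*T^(3:ℕ) + 2*S^(3:ℕ)*T + 6*S^(2:ℕ)*T^(2:ℕ) + 2*S*T^(3:ℕ) + 2*S^(3:ℕ) + 8*S^(2:ℕ)*T + 6*S*T^(2:ℕ) + 6*S^(2:ℕ) + 10*S*T + 2*T^(2:ℕ) + 6*S + 4*T + 2))/(S*T^(2:ℕ)*(S + 1)*(S*T + 2*S + 2*T + 2))) := rgt d51 d57 d51 (by ring)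

theorem F5_oC_1 (S T : ℝ) (g19 : 1 < (T + 1) * (((2*S*T + S + T + 1))/((T + 1)*(S*T + 2*S + 2*T + 2)))) (g29 : S < (S + T + 1) * (((S^(3:ℕ)*T^(3:ℕ) + 2*S^(3:ℕ)*T^(2:ℕ) + 2*S^(2:ℕ)*T^(3:ℕ) + 2*S^(3:ℕ)*T + 6*S^(2:ℕ)*T^(2:ℕ) + 2*S*T^(3:ℕ) + 2*S^(3:ℕ) + 8*S^(2:ℕ)*T + 6*S*T^(2:ℕ) + 6*S^(2:ℕ) + 10*S*T + 2*T^(2:ℕ) + 6*S + 4*T + 2))/(S*T^(2:ℕ)*(S + 1)*(S*T + 2*S + 2*T + 2)))) :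
    cond S T Letter.be (((S^(3:ℕ)*T^(3:ℕ) + 2*S^(3:ℕ)*T^(2:ℕ) + 2*S^(2:ℕ)*T^(3:ℕ) + 2*S^(3:ℕ)*T + 6*S^(2:ℕ)*T^(2:ℕ) + 2*S*T^(3:ℕ) + 2*S^(3:ℕ) + 8*S^(2:ℕ)*T + 6*S*T^(2:ℕ) + 6*S^(2:ℕ) + 10*S*T + 2*T^(2:ℕ) + 6*S + 4*T + 2))/(S*T^(2:ℕ)*(S + 1)*(S*T + 2*S + 2*T + 2)), ((2*S*T + S + T + 1))/((T + 1)*(S*T + 2*S + 2*T + 2))) := ⟨g29, g19⟩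

theorem F5_oC_2 (S T : ℝ) (g20 : (S + T + 1) * (((S*T - S - T - 1))/(T*(S*T + 2*S + 2*T + 2))) < S) :
    cond S T Letter.ga (((S*T - S - T - 1))/(T*(S*T + 2*S + 2*T + 2)), ((S^(2:ℕ)*T^(3:ℕ) - 2*S^(3:ℕ)*T - 2*S^(2:ℕ)*T^(2:ℕ) - 2*S^(3:ℕ) - 8*S^(2:ℕ)*T - 4*S*T^(2:ℕ) - 6*S^(2:ℕ) - 10*S*T - 2*T^(2:ℕ) - 6*S - 4*T - 2))/(S*T*(S + 1)*(T + 1)*(S*T + 2*S + 2*T + 2))) := g20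

theorem F5_d58 (S T : ℝ) (c34 : 0 < -S^(4:ℕ)*T^(3:ℕ) - 3*S^(4:ℕ)*T^(2:ℕ) - 2*S^(3:ℕ)*T^(3:ℕ) + 2*S^(2:ℕ)*T^(4:ℕ) - 4*S^(4:ℕ)*T - 11*S^(3:ℕ)*T^(2:ℕ) + S^(2:ℕ)*T^(3:ℕ) + 3*S*T^(4:ℕ) - 2*S^(4:ℕ) - 16*S^(3:ℕ)*T - 13*S^(2:ℕ)*T^(2:ℕ) + 6*S*T^(3:ℕ) + 2*T^(4:ℕ) - 8*S^(3:ℕ) - 24*S^(2:ℕ)*T - 5*S*T^(2:ℕ) + 4*T^(3:ℕ) - 12*S^(2:ℕ) - 16*S*T - 8*S - 4*T - 2) :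
    0 < (-S^(4:ℕ)*T^(3:ℕ) - 3*S^(4:ℕ)*T^(2:ℕ) - 2*S^(3:ℕ)*T^(3:ℕ) + 2*S^(2:ℕ)*T^(4:ℕ) - 4*S^(4:ℕ)*T - 11*S^(3:ℕ)*T^(2:ℕ) + S^(2:ℕ)*T^(3:ℕ) + 3*S*T^(4:ℕ) - 2*S^(4:ℕ) - 16*S^(3:ℕ)*T - 13*S^(2:ℕ)*T^(2:ℕ) + 6*S*T^(3:ℕ) + 2*T^(4:ℕ) - 8*S^(3:ℕ) - 24*S^(2:ℕ)*T - 5*S*T^(2:ℕ) + 4*T^(3:ℕ) - 12*S^(2:ℕ) - 16*S*T - 8*S - 4*T - 2) := c34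

theorem F5_g30 (S T : ℝ) (d40 : 0 < T*(S + 1)^(2:ℕ)*(T + 1)*(S*T + 2*S + 2*T + 2)) (d58 : 0 < (-S^(4:ℕ)*T^(3:ℕ) - 3*S^(4:ℕ)*T^(2:ℕ) - 2*S^(3:ℕ)*T^(3:ℕ) + 2*S^(2:ℕ)*T^(4:ℕ) - 4*S^(4:ℕ)*T - 11*S^(3:ℕ)*T^(2:ℕ) + S^(2:ℕ)*T^(3:ℕ) + 3*S*T^(4:ℕ) - 2*S^(4:ℕ) - 16*S^(3:ℕ)*T - 13*S^(2:ℕ)*T^(2:ℕ) + 6*S*T^(3:ℕ) + 2*T^(4:ℕ) - 8*S^(3:ℕ) - 24*S^(2:ℕ)*T - 5*S*T^(2:ℕ) + 4*T^(3:ℕ) - 12*S^(2:ℕ) - 16*S*T - 8*S - 4*T - 2)) :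
    S < (S + T + 1) * (((2*S^(2:ℕ)*T^(3:ℕ) - 2*S^(3:ℕ)*T + S^(2:ℕ)*T^(2:ℕ) + 3*S*T^(3:ℕ) - 2*S^(3:ℕ) - 6*S^(2:ℕ)*T + 3*S*T^(2:ℕ) + 2*T^(3:ℕ) - 6*S^(2:ℕ) - 6*S*T + 2*T^(2:ℕ) - 6*S - 2*T - 2))/(T*(S + 1)^(2:ℕ)*(T + 1)*(S*T + 2*S + 2*T + 2))) := rgt d40 d58 d40 (by ring)

theorem F5_oC_3 (S T : ℝ) (g22 : 1 < (T + 1) * (((S^(2:ℕ)*T^(2:ℕ) + S^(2:ℕ)*T + 2*S*T^(2:ℕ) + S^(2:ℕ) + 2*S*T + 2*S + T + 1))/(S*T*(S*T + 2*S + 2*T + 2)))) (g30 : S < (S + T + 1) * (((2*S^(2:ℕ)*T^(3:ℕ) - 2*S^(3:ℕ)*T + S^(2:ℕ)*T^(2:ℕ) + 3*S*T^(3:ℕ) - 2*S^(3:ℕ) - 6*S^(2:ℕ)*T + 3*S*T^(2:ℕ) + 2*T^(3:ℕ) - 6*S^(2:ℕ) - 6*S*T + 2*T^(2:ℕ) - 6*S - 2*T - 2))/(T*(S + 1)^(2:ℕ)*(T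 + 1)*(S*T + 2*S + 2*T + 2)))) :
    cond S T Letter.be (((2*S^(2:ℕ)*T^(3:ℕ) - 2*S^(3:ℕ)*T + S^(2:ℕ)*T^(2:ℕ) + 3*S*T^(3:ℕ) - 2*S^(3:ℕ) - 6*S^(2:ℕ)*T + 3*S*T^(2:ℕ) + 2*T^(3:ℕ) - 6*S^(2:ℕ) - 6*S*T + 2*T^(2:ℕ) - 6*S - 2*T - 2))/(T*(S + 1)^(2:ℕ)*(T + 1)*(S*T + 2*S + 2*T + 2)), ((S^(2:ℕ)*T^(2:ℕ) + S^(2:ℕ)*T + 2*S*T^(2:ℕ) + S^(2:ℕ) + 2*S*T + 2*S + T + 1))/(S*T*(S*T + 2*S + 2*T + 2))) := ⟨g30, g22⟩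

theorem F5_d59 (S T : ℝ) (pS : 0 < S) (pT : 0 < T) (c35 : 0 < S^(2:ℕ)*T^(2:ℕ) + 2*S^(2:ℕ)*T + 2*S*T^(2:ℕ) + S^(2:ℕ) + 5*S*T + 2*T^(2:ℕ) + 2*S + 3*T + 1) :
    0 < S*T*(S^(2:ℕ)*T^(2:ℕ) + 2*S^(2:ℕ)*T + 2*S*T^(2:ℕ) + S^(2:ℕ) + 5*S*T + 2*T^(2:ℕ) + 2*S + 3*T + 1) := (mul_pos (mul_pos pS pT) c35)

theorem F5_g31 (S T : ℝ) (d31 : 0 < (S + 1)^(2:ℕ)*(T + 1)^(2:ℕ)*(S*T + 2*S + 2*T + 2)) (d52 : 0 < (S + 1)^(2:ℕ)*(T + 1)*(S*T + 2*S + 2*T + 2)) (d59 : 0 < S*T*(S^(2:ℕ)*T^(2:ℕ) + 2*S^(2:ℕ)*T + 2*S*T^(2:ℕ) + S^(2:ℕ) + 5*S*T + 2*T^(2:ℕ) + 2*S + 3*T + 1)) :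
    1 < (T + 1) * (((S^(3:ℕ)*T^(3:ℕ) + 3*S^(3:ℕ)*T^(2:ℕ) + 2*S^(2:ℕ)*T^(3:ℕ) + 4*S^(3:ℕ)*T + 9*S^(2:ℕ)*T^(2:ℕ) + 2*S*T^(3:ℕ) + 2*S^(3:ℕ) + 12*S^(2:ℕ)*T + 8*S*T^(2:ℕ) + 6*S^(2:ℕ) + 12*S*T + 2*T^(2:ℕ) + 6*S + 4*T + 2))/((S + 1)^(2:ℕ)*(T + 1)^(2:ℕ)*(S*T + 2*S + 2*T + 2))) := rgt d31 d59 d52 (by ring)

theorem F5_oC_4 (S T : ℝ) (g23 : S < (S + T + 1) * (((S^(2:ℕ)*T^(3:ℕ) + S^(2:ℕ)*T^(2:ℕ) + 2*S*T^(3:ℕ) + 2*S*T^(2:ℕ) + S^(2:ℕ) + 2*S*T + T^(2:ℕ) + 2*S + 2*T + 1))/(S*T^(2:ℕ)*(S*T + 2*S + 2*T + 2)))) (g31 : 1 < (T + 1) * (((S^(3:ℕ)*T^(3:ℕ) + 3*S^(3:ℕ)*T^(2:ℕ) + 2*S^(2:ℕ)*T^(3:ℕ) + 4*S^(3:ℕ)*T + 9*S^(2:ℕ)*T^(2:ℕ) + 2*S*T^(3:ℕ) + 2*S^(3:ℕ) +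 12*S^(2:ℕ)*T + 8*S*T^(2:ℕ) + 6*S^(2:ℕ) + 12*S*T + 2*T^(2:ℕ) + 6*S + 4*T + 2))/((S + 1)^(2:ℕ)*(T + 1)^(2:ℕ)*(S*T + 2*S + 2*T + 2)))) :
    cond S T Letter.be (((S^(2:ℕ)*T^(3:ℕ) + S^(2:ℕ)*T^(2:ℕ) + 2*S*T^(3:ℕ) + 2*S*T^(2:ℕ) + S^(2:ℕ) + 2*S*T + T^(2:ℕ) + 2*S + 2*T + 1))/(S*T^(2:ℕ)*(S*T + 2*S + 2*T + 2)), ((S^(3:ℕ)*T^(3:ℕ) + 3*S^(3:ℕ)*T^(2:ℕ) + 2*S^(2:ℕ)*T^(3:ℕ) + 4*S^(3:ℕ)*T + 9*S^(2:ℕ)*T^(2:ℕ) + 2*S*T^(3:ℕ) + 2*S^(3:ℕ) + 12*S^(2:ℕ)*T + 8*S*T^(2:ℕ) + 6*S^(2:ℕ) + 12*S*T + 2*T^(2:ℕ) + 6*S + 4*T + 2))/((S + 1)^(2:ℕ)*(T + 1)^(2:ℕ)*(S*T + 2*S + 2*T + 2))) := ⟨g23, g31⟩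

theorem F5_d60 (S T : ℝ) (pS : 0 < S) (c36 : 0 < S^(2:ℕ)*T^(3:ℕ) - S^(3:ℕ)*T + S^(2:ℕ)*T^(2:ℕ) + 2*S*T^(3:ℕ) - S^(3:ℕ) - 2*S^(2:ℕ)*T + 4*S*T^(2:ℕ) + 2*T^(3:ℕ) - 3*S^(2:ℕ) - S*T + 3*T^(2:ℕ) - 3*S - 1) :
    0 < S*(S^(2:ℕ)*T^(3:ℕ) - S^(3:ℕ)*T + S^(2:ℕ)*T^(2:ℕ) + 2*S*T^(3:ℕ) - S^(3:ℕ) - 2*S^(2:ℕ)*T + 4*S*T^(2:ℕ) + 2*T^(3:ℕ) - 3*S^(2:ℕ) - S*T + 3*T^(2:ℕ) - 3*S - 1) := (mul_pos pS c36)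

theorem F5_g32 (S T : ℝ) (d52 : 0 < (S + 1)^(2:ℕ)*(T + 1)*(S*T + 2*S + 2*T + 2)) (d60 : 0 < S*(S^(2:ℕ)*T^(3:ℕ) - S^(3:ℕ)*T + S^(2:ℕ)*T^(2:ℕ) + 2*S*T^(3:ℕ) - S^(3:ℕ) - 2*S^(2:ℕ)*T + 4*S*T^(2:ℕ) + 2*T^(3:ℕ) - 3*S^(2:ℕ) - S*T + 3*T^(2:ℕ) - 3*S - 1)) :
    S < (S + T + 1) * ((S*(S^(2:ℕ)*T^(2:ℕ) + 2*S^(2:ℕ)*T + 2*S*T^(2:ℕ) + S^(2:ℕ) + 5*S*T + 2*T^(2:ℕ) + 2*S + 3*T + 1))/((S + 1)^(2:ℕ)*(T + 1)*(S*T + 2*S + 2*T + 2))) := rgt d52 d60 d52 (by ring)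

theorem F5_oC_5 (S T : ℝ) (g26 : (T + 1) * (((S + 1)*(S*T - S - T - 1))/(S*T*(S*T + 2*S + 2*T + 2))) < 1) (g32 : S < (S + T + 1) * ((S*(S^(2:ℕ)*T^(2:ℕ) + 2*S^(2:ℕ)*T + 2*S*T^(2:ℕ) + S^(2:ℕ) + 5*S*T + 2*T^(2:ℕ) + 2*S + 3*T + 1))/((S + 1)^(2:ℕ)*(T + 1)*(S*T + 2*S + 2*T + 2)))) :
    cond S T Letter.al ((S*(S^(2:ℕ)*T^(2:ℕ) + 2*S^(2:ℕ)*T + 2*S*T^(2:ℕ) + S^(2:ℕ) + 5*S*T + 2*T^(2:ℕ) + 2*S + 3*T + 1))/((S + 1)^(2:ℕ)*(T + 1)*(S*T + 2*S + 2*T + 2)), ((S + 1)*(S*T - S - T - 1))/(S*T*(S*T + 2*S + 2*T + 2))) := ⟨g32, g26⟩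

theorem F5_d61 (S T : ℝ) (pS : 0 < S) (c37 : 0 < S^(4:ℕ)*T^(3:ℕ) + 4*S^(4:ℕ)*T^(2:ℕ) + 4*S^(3:ℕ)*T^(3:ℕ) - S^(2:ℕ)*T^(4:ℕ) + 6*S^(4:ℕ)*T + 18*S^(3:ℕ)*T^(2:ℕ) + 5*S^(2:ℕ)*T^(3:ℕ) - 2*S*T^(4:ℕ) + 3*S^(4:ℕ) + 25*S^(3:ℕ)*T + 27*S^(2:ℕ)*T^(2:ℕ) - S*T^(3:ℕ) - 2*T^(4:ℕ) + 12*S^(3:ℕ) + 39*S^(2:ℕ)*T + 16*S*T^(2:ℕ) - 3*T^(3:ℕ) + 18*S^(2:ℕ) + 27*S*T + 3*T^(2:ℕ) + 12*S + 7*T + 3) :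
    0 < S*(S^(4:ℕ)*T^(3:ℕ) + 4*S^(4:ℕ)*T^(2:ℕ) + 4*S^(3:ℕ)*T^(3:ℕ) - S^(2:ℕ)*T^(4:ℕ) + 6*S^(4:ℕ)*T + 18*S^(3:ℕ)*T^(2:ℕ) + 5*S^(2:ℕ)*T^(3:ℕ) - 2*S*T^(4:ℕ) + 3*S^(4:ℕ) + 25*S^(3:ℕ)*T + 27*S^(2:ℕ)*T^(2:ℕ) - S*T^(3:ℕ) - 2*T^(4:ℕ) + 12*S^(3:ℕ) + 39*S^(2:ℕ)*T + 16*S*T^(2:ℕ) - 3*T^(3:ℕ) + 18*S^(2:ℕ) + 27*S*T + 3*T^(2:ℕ) + 12*S + 7*T + 3) := (mul_pos pS c37)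

theorem F5_g33 (S T : ℝ) (d53 : 0 < (S + 1)^(3:ℕ)*(T + 1)^(2:ℕ)*(S*T + 2*S + 2*T + 2)) (d61 : 0 < S*(S^(4:ℕ)*T^(3:ℕ) + 4*S^(4:ℕ)*T^(2:ℕ) + 4*S^(3:ℕ)*T^(3:ℕ) - S^(2:ℕ)*T^(4:ℕ) + 6*S^(4:ℕ)*T + 18*S^(3:ℕ)*T^(2:ℕ) + 5*S^(2:ℕ)*T^(3:ℕ) - 2*S*T^(4:ℕ) + 3*S^(4:ℕ) + 25*S^(3:ℕ)*T + 27*S^(2:ℕ)*T^(2:ℕ) - S*T^(3:ℕ) - 2*T^(4:ℕ) + 12*S^(3:ℕ) + 39*S^(2:ℕ)*T + 16*S*T^(2:ℕ) - 3*T^(3:ℕ) + 18*S^(2:ℕ) + 27*S*T + 3*T^(2:ℕ) + 12*S + 7*T + 3)) :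
    (S + T + 1) * ((S*(S^(2:ℕ)*T^(3:ℕ) - S^(3:ℕ)*T + S^(2:ℕ)*T^(2:ℕ) + 2*S*T^(3:ℕ) - S^(3:ℕ) - 2*S^(2:ℕ)*T + 4*S*T^(2:ℕ) + 2*T^(3:ℕ) - 3*S^(2:ℕ) - S*T + 3*T^(2:ℕ) - 3*S - 1))/((S + 1)^(3:ℕ)*(T + 1)^(2:ℕ)*(S*T + 2*S + 2*T + 2))) < S := rlt d53 d61 d53 (by ring)

theorem F5_oC_6 (S T : ℝ) (g33 : (S + T + 1) * ((S*(S^(2:ℕ)*T^(3:ℕ) - S^(3:ℕ)*T + S^(2:ℕ)*T^(2:ℕ) + 2*S*T^(3:ℕ) - S^(3:ℕ) - 2*S^(2:ℕ)*T + 4*S*T^(2:ℕ) + 2*T^(3:ℕ) - 3*S^(2:ℕ) - S*T + 3*T^(2:ℕ) - 3*S - 1))/((S + 1)^(3:ℕ)*(T + 1)^(2:ℕ)*(S*T + 2*S + 2*T + 2))) < S) :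
    cond S T Letter.ga ((S*(S^(2:ℕ)*T^(3:ℕ) - S^(3:ℕ)*T + S^(2:ℕ)*T^(2:ℕ) + 2*S*T^(3:ℕ) - S^(3:ℕ) - 2*S^(2:ℕ)*T + 4*S*T^(2:ℕ) + 2*T^(3:ℕ) - 3*S^(2:ℕ) - S*T + 3*T^(2:ℕ) - 3*S - 1))/((S + 1)^(3:ℕ)*(T + 1)^(2:ℕ)*(S*T + 2*S + 2*T + 2)), ((S^(2:ℕ)*T^(2:ℕ) + 2*S*T^(2:ℕ) - S^(2:ℕ) - S*T - 2*S - T - 1))/(S*T*(S*T + 2*S + 2*T + 2))) := g33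

theorem F5_oC (S T : ℝ) (f28 : fl S T Letter.be (((T + 1)*(S*T - S + 2*T - 1))/(T*(S*T + 2*S + 2*T + 2)), ((S^(3:ℕ)*T^(3:ℕ) + 3*S^(3:ℕ)*T^(2:ℕ) + 2*S^(2:ℕ)*T^(3:ℕ) + 4*S^(3:ℕ)*T + 9*S^(2:ℕ)*T^(2:ℕ) + 2*S*T^(3:ℕ) + 2*S^(3:ℕ) + 12*S^(2:ℕ)*T + 8*S*T^(2:ℕ) + 6*S^(2:ℕ) + 12*S*T + 2*T^(2:ℕ) + 6*S + 4*T + 2))/(S*T*(S + 1)*(T + 1)*(S*T + 2*S + 2*T + 2))) = (((S^(3:ℕ)*T^(3:ℕ) + 2*S^(3:ℕ)*T^(2:ℕ) + 2*S^(2:ℕ)*T^(3:ℕ) + 2*S^(3:ℕ)*T + 6*S^(2:ℕ)*T^(2:ℕ) + 2*S*T^(3:ℕ) + 2*S^(3:ℕ) + 8*S^(2:ℕ)*T + 6*S*T^(2:ℕ) + 6*S^(2:ℕ) + 10*S*T + 2*T^(2:ℕ) + 6*S + 4*T + 2))/(S*T^(2:ℕ)*(S + 1)*(S*T + 2*S + 2*T + 2)), ((2*S*T + S + T + 1))/((T + 1)*(S*T + 2*S + 2*T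 + 2)))) (f29 : fl S T Letter.be (((S^(3:ℕ)*T^(3:ℕ) + 2*S^(3:ℕ)*T^(2:ℕ) + 2*S^(2:ℕ)*T^(3:ℕ) + 2*S^(3:ℕ)*T + 6*S^(2:ℕ)*T^(2:ℕ) + 2*S*T^(3:ℕ) + 2*S^(3:ℕ) + 8*S^(2:ℕ)*T + 6*S*T^(2:ℕ) + 6*S^(2:ℕ) + 10*S*T + 2*T^(2:ℕ) + 6*S + 4*T + 2))/(S*T^(2:ℕ)*(S + 1)*(S*T + 2*S + 2*T + 2)), ((2*S*T + S + T + 1))/((T + 1)*(S*T + 2*S + 2*T + 2))) = (((S*T - S - T - 1))/(T*(S*T + 2*S + 2*T + 2)), ((S^(2:ℕ)*T^(3:ℕ) - 2*S^(3:ℕ)*T - 2*S^(2:ℕ)*T^(2:ℕ) - 2*S^(3:ℕ) - 8*S^(2:ℕ)*T - 4*S*T^(2:ℕ) - 6*S^(2:ℕ) - 10*S*T - 2*T^(2:ℕ) - 6*S - 4*T - 2))/(S*T*(S + 1)*(T + 1)*(S*T + 2*S + 2*T + 2)))) (f30 : fl S T Letter.ga (((S*T - S - T - 1))/(T*(S*T + 2*S + 2*T + 2)),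 ((S^(2:ℕ)*T^(3:ℕ) - 2*S^(3:ℕ)*T - 2*S^(2:ℕ)*T^(2:ℕ) - 2*S^(3:ℕ) - 8*S^(2:ℕ)*T - 4*S*T^(2:ℕ) - 6*S^(2:ℕ) - 10*S*T - 2*T^(2:ℕ) - 6*S - 4*T - 2))/(S*T*(S + 1)*(T + 1)*(S*T + 2*S + 2*T + 2))) = (((2*S^(2:ℕ)*T^(3:ℕ) - 2*S^(3:ℕ)*T + S^(2:ℕ)*T^(2:ℕ) + 3*S*T^(3:ℕ) - 2*S^(3:ℕ) - 6*S^(2:ℕ)*T + 3*S*T^(2:ℕ) + 2*T^(3:ℕ) - 6*S^(2:ℕ) - 6*S*T + 2*T^(2:ℕ) - 6*S - 2*T - 2))/(T*(S + 1)^(2:ℕ)*(T + 1)*(S*T + 2*S + 2*T + 2)), ((S^(2:ℕ)*T^(2:ℕ) + S^(2:ℕ)*T + 2*S*T^(2:ℕ) + S^(2:ℕ) + 2*S*T + 2*S + T + 1))/(S*T*(S*T + 2*S + 2*T + 2)))) (f31 : fl S T Letter.be (((2*S^(2:ℕ)*T^(3:ℕ) - 2*S^(3:ℕ)*T + S^(2:ℕ)*T^(2:ℕ) + 3*S*T^(3:ℕ) - 2*S^(3:ℕ) - 6*S^(2:ℕ)*T + 3*S*T^(2:ℕ)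 + 2*T^(3:ℕ) - 6*S^(2:ℕ) - 6*S*T + 2*T^(2:ℕ) - 6*S - 2*T - 2))/(T*(S + 1)^(2:ℕ)*(T + 1)*(S*T + 2*S + 2*T + 2)), ((S^(2:ℕ)*T^(2:ℕ) + S^(2:ℕ)*T + 2*S*T^(2:ℕ) + S^(2:ℕ) + 2*S*T + 2*S + T + 1))/(S*T*(S*T + 2*S + 2*T + 2))) = (((S^(2:ℕ)*T^(3:ℕ) + S^(2:ℕ)*T^(2:ℕ) + 2*S*T^(3:ℕ) + 2*S*T^(2:ℕ) + S^(2:ℕ) + 2*S*T + T^(2:ℕ) + 2*S + 2*T + 1))/(S*T^(2:ℕ)*(S*T + 2*S + 2*T + 2)), ((S^(3:ℕ)*T^(3:ℕ) + 3*S^(3:ℕ)*T^(2:ℕ) + 2*S^(2:ℕ)*T^(3:ℕ) + 4*S^(3:ℕ)*T + 9*S^(2:ℕ)*T^(2:ℕ) + 2*S*T^(3:ℕ) + 2*S^(3:ℕ) + 12*S^(2:ℕ)*T + 8*S*T^(2:ℕ) + 6*S^(2:ℕ) + 12*S*T + 2*T^(2:ℕ) + 6*S + 4*T + 2))/((S + 1)^(2:ℕ)*(T + 1)^(2:ℕ)*(S*T + 2*S + 2*T + 2)))) (f32 : fl S T Letter.be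 (((S^(2:ℕ)*T^(3:ℕ) + S^(2:ℕ)*T^(2:ℕ) + 2*S*T^(3:ℕ) + 2*S*T^(2:ℕ) + S^(2:ℕ) + 2*S*T + T^(2:ℕ) + 2*S + 2*T + 1))/(S*T^(2:ℕ)*(S*T + 2*S + 2*T + 2)), ((S^(3:ℕ)*T^(3:ℕ) + 3*S^(3:ℕ)*T^(2:ℕ) + 2*S^(2:ℕ)*T^(3:ℕ) + 4*S^(3:ℕ)*T + 9*S^(2:ℕ)*T^(2:ℕ) + 2*S*T^(3:ℕ) + 2*S^(3:ℕ) + 12*S^(2:ℕ)*T + 8*S*T^(2:ℕ) + 6*S^(2:ℕ) + 12*S*T + 2*T^(2:ℕ) + 6*S + 4*T + 2))/((S + 1)^(2:ℕ)*(T + 1)^(2:ℕ)*(S*T + 2*S + 2*T + 2))) = ((S*(S^(2:ℕ)*T^(2:ℕ) + 2*S^(2:ℕ)*T + 2*S*T^(2:ℕ) + S^(2:ℕ) + 5*S*T + 2*T^(2:ℕ) + 2*S + 3*T + 1))/((S + 1)^(2:ℕ)*(T + 1)*(S*T + 2*S + 2*T + 2)), ((S + 1)*(S*T - S - T - 1))/(S*T*(S*T + 2*S + 2*T + 2)))) (f33 : fl S T Letter.al ((S*(S^(2:ℕ)*T^(2:ℕ)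 + 2*S^(2:ℕ)*T + 2*S*T^(2:ℕ) + S^(2:ℕ) + 5*S*T + 2*T^(2:ℕ) + 2*S + 3*T + 1))/((S + 1)^(2:ℕ)*(T + 1)*(S*T + 2*S + 2*T + 2)), ((S + 1)*(S*T - S - T - 1))/(S*T*(S*T + 2*S + 2*T + 2))) = ((S*(S^(2:ℕ)*T^(3:ℕ) - S^(3:ℕ)*T + S^(2:ℕ)*T^(2:ℕ) + 2*S*T^(3:ℕ) - S^(3:ℕ) - 2*S^(2:ℕ)*T + 4*S*T^(2:ℕ) + 2*T^(3:ℕ) - 3*S^(2:ℕ) - S*T + 3*T^(2:ℕ) - 3*S - 1))/((S + 1)^(3:ℕ)*(T + 1)^(2:ℕ)*(S*T + 2*S + 2*T + 2)), ((S^(2:ℕ)*T^(2:ℕ) + 2*S*T^(2:ℕ) - S^(2:ℕ) - S*T - 2*S - T - 1))/(S*T*(S*T + 2*S + 2*T + 2)))) (oC_0 : cond S T Letter.be (((T + 1)*(S*T - S + 2*T - 1))/(T*(S*T + 2*S + 2*T + 2)), ((S^(3:ℕ)*T^(3:ℕ) + 3*S^(3:ℕ)*T^(2:ℕ) + 2*S^(2:ℕ)*T^(3:ℕ) + 4*S^(3:ℕ)*T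 + 9*S^(2:ℕ)*T^(2:ℕ) + 2*S*T^(3:ℕ) + 2*S^(3:ℕ) + 12*S^(2:ℕ)*T + 8*S*T^(2:ℕ) + 6*S^(2:ℕ) + 12*S*T + 2*T^(2:ℕ) + 6*S + 4*T + 2))/(S*T*(S + 1)*(T + 1)*(S*T + 2*S + 2*T + 2)))) (oC_1 : cond S T Letter.be (((S^(3:ℕ)*T^(3:ℕ) + 2*S^(3:ℕ)*T^(2:ℕ) + 2*S^(2:ℕ)*T^(3:ℕ) + 2*S^(3:ℕ)*T + 6*S^(2:ℕ)*T^(2:ℕ) + 2*S*T^(3:ℕ) + 2*S^(3:ℕ) + 8*S^(2:ℕ)*T + 6*S*T^(2:ℕ) + 6*S^(2:ℕ) + 10*S*T + 2*T^(2:ℕ) + 6*S + 4*T + 2))/(S*T^(2:ℕ)*(S + 1)*(S*T + 2*S + 2*T + 2)), ((2*S*T + S + T + 1))/((T + 1)*(S*T + 2*S + 2*T + 2)))) (oC_2 : cond S T Letter.ga (((S*T - S - T - 1))/(T*(S*T + 2*S + 2*T + 2)), ((S^(2:ℕ)*T^(3:ℕ) - 2*S^(3:ℕ)*T - 2*S^(2:ℕ)*T^(2:ℕ) - 2*S^(3:ℕ) - 8*S^(2:ℕ)*T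 - 4*S*T^(2:ℕ) - 6*S^(2:ℕ) - 10*S*T - 2*T^(2:ℕ) - 6*S - 4*T - 2))/(S*T*(S + 1)*(T + 1)*(S*T + 2*S + 2*T + 2)))) (oC_3 : cond S T Letter.be (((2*S^(2:ℕ)*T^(3:ℕ) - 2*S^(3:ℕ)*T + S^(2:ℕ)*T^(2:ℕ) + 3*S*T^(3:ℕ) - 2*S^(3:ℕ) - 6*S^(2:ℕ)*T + 3*S*T^(2:ℕ) + 2*T^(3:ℕ) - 6*S^(2:ℕ) - 6*S*T + 2*T^(2:ℕ) - 6*S - 2*T - 2))/(T*(S + 1)^(2:ℕ)*(T + 1)*(S*T + 2*S + 2*T + 2)), ((S^(2:ℕ)*T^(2:ℕ) + S^(2:ℕ)*T + 2*S*T^(2:ℕ) + S^(2:ℕ) + 2*S*T + 2*S + T + 1))/(S*T*(S*T + 2*S + 2*T + 2)))) (oC_4 : cond S T Letter.be (((S^(2:ℕ)*T^(3:ℕ) + S^(2:ℕ)*T^(2:ℕ) + 2*S*T^(3:ℕ) + 2*S*T^(2:ℕ) + S^(2:ℕ) + 2*S*T + T^(2:ℕ) + 2*S + 2*T + 1))/(S*T^(2:ℕ)*(S*T + 2*S + 2*T + 2)), ((S^(3:ℕ)*T^(3:ℕ)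 + 3*S^(3:ℕ)*T^(2:ℕ) + 2*S^(2:ℕ)*T^(3:ℕ) + 4*S^(3:ℕ)*T + 9*S^(2:ℕ)*T^(2:ℕ) + 2*S*T^(3:ℕ) + 2*S^(3:ℕ) + 12*S^(2:ℕ)*T + 8*S*T^(2:ℕ) + 6*S^(2:ℕ) + 12*S*T + 2*T^(2:ℕ) + 6*S + 4*T + 2))/((S + 1)^(2:ℕ)*(T + 1)^(2:ℕ)*(S*T + 2*S + 2*T + 2)))) (oC_5 : cond S T Letter.al ((S*(S^(2:ℕ)*T^(2:ℕ) + 2*S^(2:ℕ)*T + 2*S*T^(2:ℕ) + S^(2:ℕ) + 5*S*T + 2*T^(2:ℕ) + 2*S + 3*T + 1))/((S + 1)^(2:ℕ)*(T + 1)*(S*T + 2*S + 2*T + 2)), ((S + 1)*(S*T - S - T - 1))/(S*T*(S*T + 2*S + 2*T + 2)))) (oC_6 : cond S T Letter.ga ((S*(S^(2:ℕ)*T^(3:ℕ) - S^(3:ℕ)*T + S^(2:ℕ)*T^(2:ℕ) + 2*S*T^(3:ℕ) - S^(3:ℕ) - 2*S^(2:ℕ)*T + 4*S*T^(2:ℕ) + 2*T^(3:ℕ) - 3*S^(2:ℕ) - S*T + 3*T^(2:ℕ) - 3*S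 - 1))/((S + 1)^(3:ℕ)*(T + 1)^(2:ℕ)*(S*T + 2*S + 2*T + 2)), ((S^(2:ℕ)*T^(2:ℕ) + 2*S*T^(2:ℕ) - S^(2:ℕ) - S*T - 2*S - T - 1))/(S*T*(S*T + 2*S + 2*T + 2)))) :
    okc S T [Letter.be, Letter.be, Letter.ga, Letter.be, Letter.be, Letter.al, Letter.ga] (((T + 1)*(S*T - S + 2*T - 1))/(T*(S*T + 2*S + 2*T + 2)), ((S^(3:ℕ)*T^(3:ℕ) + 3*S^(3:ℕ)*T^(2:ℕ) + 2*S^(2:ℕ)*T^(3:ℕ) + 4*S^(3:ℕ)*T + 9*S^(2:ℕ)*T^(2:ℕ) + 2*S*T^(3:ℕ) + 2*S^(3:ℕ) + 12*S^(2:ℕ)*T + 8*S*T^(2:ℕ) + 6*S^(2:ℕ) + 12*S*T + 2*T^(2:ℕ) + 6*S + 4*T + 2))/(S*T*(S + 1)*(T + 1)*(S*T + 2*S + 2*T + 2))) := (okc_cons' oC_0 f28 (okc_cons' oC_1 f29 (okc_cons' oC_2 f30 (okc_cons' oC_3 f31 (okc_cons'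 oC_4 f32 (okc_cons' oC_5 f33 (okc_last' oC_6)))))))

theorem F5_d62 (S T : ℝ) (pA : 0 < (S + 1)) (pB : 0 < (T + 1)) :
    0 < (S + 1)*(T + 1) := (mul_pos pA pB)

theorem F5_vP (S T : ℝ) (d0 : 0 < S*T^(2:ℕ)*(S*T + 2*S + 2*T + 2)) (d6 : 0 < S*T^(2:ℕ)*(S + 1)*(T + 1)*(S*T + 2*S + 2*T + 2)) (d62 : 0 < (S + 1)*(T + 1)) :
    ((((S^(2:ℕ)*T^(3:ℕ) + S^(2:ℕ)*T^(2:ℕ) + 2*S*T^(3:ℕ) + 2*S*T^(2:ℕ) + S^(2:ℕ) + 2*S*T + T^(2:ℕ) + 2*S + 2*T + 1))/(S*T^(2:ℕ)*(S*T + 2*S + 2*T + 2)), ((S*T + S + 1))/((S*T + 2*S + 2*T + 2))) : ℝ × ℝ) + ((-((S + T + 1)))/((S + 1)*(T + 1))) • (((-((S^(2:ℕ)*T^(2:ℕ) + S^(2:ℕ)*T + S*T^(2:ℕ) + S^(2:ℕ) + 3*S*T + T^(2:ℕ) + 2*S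 + 2*T + 1)))/(S*T^(2:ℕ)*(S*T + 2*S + 2*T + 2)), 0) : ℝ × ℝ) = (((S^(3:ℕ)*T^(4:ℕ) + 2*S^(3:ℕ)*T^(3:ℕ) + 3*S^(2:ℕ)*T^(4:ℕ) + 2*S^(3:ℕ)*T^(2:ℕ) + 7*S^(2:ℕ)*T^(3:ℕ) + 2*S*T^(4:ℕ) + 2*S^(3:ℕ)*T + 8*S^(2:ℕ)*T^(2:ℕ) + 6*S*T^(3:ℕ) + 2*S^(3:ℕ) + 10*S^(2:ℕ)*T + 12*S*T^(2:ℕ) + 2*T^(3:ℕ) + 6*S^(2:ℕ) + 14*S*T + 6*T^(2:ℕ) + 6*S + 6*T + 2))/(S*T^(2:ℕ)*(S + 1)*(T + 1)*(S*T + 2*S + 2*T + 2)), ((S*T + S + 1))/((S*T + 2*S + 2*T + 2))) := vecX (radd d0 d62 d0 d6 (by ring))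

theorem F5_vq (S T : ℝ) (d0 : 0 < S*T^(2:ℕ)*(S*T + 2*S + 2*T + 2)) (d2 : 0 < T*(S*T + 2*S + 2*T + 2)) :
    ((((S^(2:ℕ)*T^(3:ℕ) + S^(2:ℕ)*T^(2:ℕ) + 2*S*T^(3:ℕ) + 2*S*T^(2:ℕ) + S^(2:ℕ) + 2*S*T + T^(2:ℕ) + 2*S + 2*T + 1))/(S*T^(2:ℕ)*(S*T + 2*S + 2*T + 2)), ((S*T + S + 1))/((S*T + 2*S + 2*T + 2))) : ℝ × ℝ) + (((-((S^(2:ℕ)*T^(2:ℕ) + S^(2:ℕ)*T + S*T^(2:ℕ) + S^(2:ℕ) + 3*S*T + T^(2:ℕ) + 2*S + 2*T + 1)))/(S*T^(2:ℕ)*(S*T + 2*S + 2*T + 2)), 0) : ℝ × ℝ) = (((T + 1)*(S*T - S + 2*T - 1))/(T*(S*T + 2*S + 2*T + 2)), ((S*T + S + 1))/((S*T + 2*S + 2*T + 2))) := vecX1 (radd1 d0 d0 d2 (by ring))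

theorem F5_vr (S T : ℝ) (d1 : 0 < (S*T + 2*S + 2*T + 2)) (d3 : 0 < S*T*(S*T + 2*S + 2*T + 2)) :
    ((((T + 1)*(S*T - S + 2*T - 1))/(T*(S*T + 2*S + 2*T + 2)), ((S + 1)*(T + 1)*(S*T + S + 1))/(S*T*(S*T + 2*S + 2*T + 2))) : ℝ × ℝ) + ((0, (-((S + T + 1)*(S*T + S + 1)))/(S*T*(S*T + 2*S + 2*T + 2))) : ℝ × ℝ) = (((T + 1)*(S*T - S + 2*T - 1))/(T*(S*T + 2*S + 2*T + 2)), ((S*T + S + 1))/((S*T + 2*S + 2*T + 2))) := vecY1 (radd1 d3 d3 d1 (by ring))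

theorem F5_vQ (S T : ℝ) (d0 : 0 < S*T^(2:ℕ)*(S*T + 2*S + 2*T + 2)) (d29 : 0 < T*(S + 1)^(2:ℕ)*(T + 1)^(2:ℕ)*(S*T + 2*S + 2*T + 2)) (d62 : 0 < (S + 1)*(T + 1)) :
    ((((S^(2:ℕ)*T^(3:ℕ) + S^(2:ℕ)*T^(2:ℕ) + 2*S*T^(3:ℕ) + 2*S*T^(2:ℕ) + S^(2:ℕ) + 2*S*T + T^(2:ℕ) + 2*S + 2*T + 1))/(S*T^(2:ℕ)*(S*T + 2*S + 2*T + 2)), ((S*T + S + 1))/((S*T + 2*S + 2*T + 2))) : ℝ × ℝ) + (((-((S + T + 1)))/((S + 1)*(T + 1)))^(2:ℕ)) • (((-((S^(2:ℕ)*T^(2:ℕ) + S^(2:ℕ)*T + S*T^(2:ℕ) + S^(2:ℕ) + 3*S*T + T^(2:ℕ) + 2*S + 2*T + 1)))/(S*T^(2:ℕ)*(S*T + 2*S + 2*T + 2)), 0) : ℝ × ℝ) = (((S^(3:ℕ)*T^(4:ℕ) + 3*S^(3:ℕ)*T^(3:ℕ) + 4*S^(2:ℕ)*T^(4:ℕ) + 3*S^(3:ℕ)*T^(2:ℕ) + 12*S^(2:ℕ)*T^(3:ℕ)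 + 5*S*T^(4:ℕ) + S^(3:ℕ)*T + 12*S^(2:ℕ)*T^(2:ℕ) + 15*S*T^(3:ℕ) + 2*T^(4:ℕ) + S^(3:ℕ) + 7*S^(2:ℕ)*T + 18*S*T^(2:ℕ) + 7*T^(3:ℕ) + 3*S^(2:ℕ) + 11*S*T + 9*T^(2:ℕ) + 3*S + 5*T + 1))/(T*(S + 1)^(2:ℕ)*(T + 1)^(2:ℕ)*(S*T + 2*S + 2*T + 2)), ((S*T + S + 1))/((S*T + 2*S + 2*T + 2))) := vecX (radd2 d0 d62 d0 d29 (by ring))

theorem F5_vC (S T : ℝ) (d3 : 0 < S*T*(S*T + 2*S + 2*T + 2)) (d20 : 0 < S*T*(S + 1)*(T + 1)*(S*T + 2*S + 2*T + 2)) (d62 : 0 < (S + 1)*(T + 1)) :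
    ((((T + 1)*(S*T - S + 2*T - 1))/(T*(S*T + 2*S + 2*T + 2)), ((S + 1)*(T + 1)*(S*T + S + 1))/(S*T*(S*T + 2*S + 2*T + 2))) : ℝ × ℝ) + ((-((S + T + 1)))/((S + 1)*(T + 1))) • ((0, (-((S + T + 1)*(S*T + S + 1)))/(S*T*(S*T + 2*S + 2*T + 2))) : ℝ × ℝ) = (((T + 1)*(S*T - S + 2*T - 1))/(T*(S*T + 2*S + 2*T + 2)), ((S^(3:ℕ)*T^(3:ℕ) + 3*S^(3:ℕ)*T^(2:ℕ) + 2*S^(2:ℕ)*T^(3:ℕ) + 4*S^(3:ℕ)*T + 9*S^(2:ℕ)*T^(2:ℕ) + 2*S*T^(3:ℕ) + 2*S^(3:ℕ) + 12*S^(2:ℕ)*T + 8*S*T^(2:ℕ) + 6*S^(2:ℕ) + 12*S*T + 2*T^(2:ℕ) + 6*S + 4*T + 2))/(S*T*(S + 1)*(T + 1)*(S*T + 2*S + 2*T + 2))) := vecY (radd d3 d62 d3 d20 (by ring))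

theorem F5_d63 (S T : ℝ) (pU : 0 < (S + T + 1)) :
    0 < (S + T + 1) := pU

theorem F5_nun (S T : ℝ) (d62 : 0 < (S + 1)*(T + 1)) (d63 : 0 < (S + T + 1)) :
    (-((S + T + 1)))/((S + 1)*(T + 1)) < 0 := rneg d63 d62

theorem F5_d64 (S T : ℝ) (pS : 0 < S) (pT : 0 < T) :
    0 < S*T := (mul_pos pS pT)

theorem F5_num (S T : ℝ) (d62 : 0 < (S + 1)*(T + 1)) (d64 : 0 < S*T) :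
    -1 < (-((S + T + 1)))/((S + 1)*(T + 1)) := rgtm d62 d64 d62 (by ring)

theorem F5_kan (S T : ℝ) (d62 : 0 < (S + 1)*(T + 1)) (d63 : 0 < (S + T + 1)) :
    (-((S + T + 1)))/((S + 1)*(T + 1)) < 0 := rneg d63 d62

theorem F5_kam (S T : ℝ) (d62 : 0 < (S + 1)*(T + 1)) (d64 : 0 < S*T) :
    -1 < (-((S + T + 1)))/((S + 1)*(T + 1)) := rgtm d62 d64 d62 (by ring)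

theorem F5_d65 (S T : ℝ) (pU : 0 < (S + T + 1)) (c3 : 0 < S*T + S + 1) :
    0 < (S + T + 1)*(S*T + S + 1) := (mul_pos pU c3)

theorem F5_hdB (S T : ℝ) (d3 : 0 < S*T*(S*T + 2*S + 2*T + 2)) (d65 : 0 < (S + T + 1)*(S*T + S + 1)) :
    ((0, (-((S + T + 1)*(S*T + S + 1)))/(S*T*(S*T + 2*S + 2*T + 2))) : ℝ × ℝ) ≠ 0 := ne0Y (rneg d65 d3).ne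

theorem fam_F5 {S T : ℝ} (h4 : 4 ≤ S) (hL : S^(2:ℕ) ≤ T) (hU : T ≤ 2*S + S^(2:ℕ)) : HasConn S T := by
  have pS : 0 < S := by linarith
  have pT : 0 < T := by nlinarith
  have pA : 0 < (S + 1) := by linarith
  have pB : 0 < (T + 1) := by linarith
  have pU : 0 < (S + T + 1) := by linarith
  have c0 : 0 < S*T + 2*S + 2*T + 2 := by positivity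
  have c1 : 0 < S^(3:ℕ)*T^(4:ℕ) + 2*S^(3:ℕ)*T^(3:ℕ) + 3*S^(2:ℕ)*T^(4:ℕ) + 2*S^(3:ℕ)*T^(2:ℕ) + 7*S^(2:ℕ)*T^(3:ℕ) + 2*S*T^(4:ℕ) + 2*S^(3:ℕ)*T + 8*S^(2:ℕ)*T^(2:ℕ) + 6*S*T^(3:ℕ) + 2*S^(3:ℕ) + 10*S^(2:ℕ)*T + 12*S*T^(2:ℕ) + 2*T^(3:ℕ) + 6*S^(2:ℕ) + 14*S*T + 6*T^(2:ℕ) + 6*S + 6*T + 2 := by positivity
  have c2 : 0 < S^(3:ℕ)*T^(3:ℕ) - 2*S^(3:ℕ)*T - 4*S^(2:ℕ)*T^(2:ℕ) - 2*S*T^(3:ℕ) - 2*S^(3:ℕ) - 10*S^(2:ℕ)*T - 10*S*T^(2:ℕ) - 2*T^(3:ℕ) - 6*S^(2:ℕ) - 14*S*T - 6*T^(2:ℕ) - 6*S - 6*T - 2 := F5_c2 h4 hL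
  have c3 : 0 < S*T + S + 1 := by positivity
  have c4 : 0 < S + 2*T + 1 := by positivity
  have c5 : 0 < S^(3:ℕ)*T^(5:ℕ) - S^(4:ℕ)*T^(3:ℕ) + 3*S^(3:ℕ)*T^(4:ℕ) + 3*S^(2:ℕ)*T^(5:ℕ) + 4*S^(3:ℕ)*T^(3:ℕ) + 10*S^(2:ℕ)*T^(4:ℕ) + 2*S*T^(5:ℕ) + 2*S^(4:ℕ)*T + 8*S^(3:ℕ)*T^(2:ℕ) + 17*S^(2:ℕ)*T^(3:ℕ) + 8*S*T^(4:ℕ) + 2*S^(4:ℕ) + 14*S^(3:ℕ)*T + 28*S^(2:ℕ)*T^(2:ℕ) + 20*S*T^(3:ℕ) + 2*T^(4:ℕ) + 8*S^(3:ℕ) + 30*S^(2:ℕ)*T + 32*S*T^(2:ℕ) + 8*T^(3:ℕ) + 12*S^(2:ℕ) + 26*S*T + 12*T^(2:ℕ) + 8*S + 8*T + 2 := F5_c5 h4 hL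
  have c6 : 0 < S*T^(2:ℕ) + S*T - S - T - 1 := F5_c6 h4 hL
  have c7 : 0 < S*T^(2:ℕ) - S^(2:ℕ) - S*T - 2*S - T - 1 := F5_c7 h4 hL
  have c8 : 0 < 3*S^(2:ℕ)*T^(2:ℕ) + 4*S^(2:ℕ)*T + 4*S*T^(2:ℕ) + 2*S^(2:ℕ) + 8*S*T + 2*T^(2:ℕ) + 4*S + 4*T + 2 := by positivity
  have c9 : 0 < S^(3:ℕ)*T^(2:ℕ) + 2*S^(3:ℕ)*T + 2*S^(2:ℕ)*T^(2:ℕ) - S*T^(3:ℕ) + S^(3:ℕ) + 6*S^(2:ℕ)*T + 2*S*T^(2:ℕ) + 3*S^(2:ℕ) + 6*S*T + T^(2:ℕ) + 3*S + 2*T + 1 := F5_c9 h4 hL hU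
  have c10 : 0 < S^(2:ℕ)*T^(4:ℕ) - 3*S^(3:ℕ)*T^(2:ℕ) + S^(2:ℕ)*T^(3:ℕ) + 3*S*T^(4:ℕ) - 4*S^(3:ℕ)*T - 6*S^(2:ℕ)*T^(2:ℕ) + 6*S*T^(3:ℕ) + 2*T^(4:ℕ) - 2*S^(3:ℕ) - 12*S^(2:ℕ)*T - 3*S*T^(2:ℕ) + 4*T^(3:ℕ) - 6*S^(2:ℕ) - 12*S*T - 6*S - 4*T - 2 := F5_c10 h4 hL
  have c11 : 0 < S^(2:ℕ)*T^(3:ℕ) + 2*S^(2:ℕ)*T^(2:ℕ) + S*T^(3:ℕ) + S^(2:ℕ)*T + 2*S*T^(2:ℕ) + S^(2:ℕ) + 3*S*T + T^(2:ℕ) + 2*S + 2*T + 1 := by positivity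
  have c12 : 0 < S*T^(3:ℕ) + S*T^(2:ℕ) + S^(2:ℕ) + 2*S*T + T^(2:ℕ) + 2*S + 2*T + 1 := by positivity
  have c13 : 0 < 2*S*T + S + T + 1 := by positivity
  have c14 : 0 < S^(2:ℕ)*T^(2:ℕ) + S^(2:ℕ)*T + S*T^(2:ℕ) + S^(2:ℕ) + 3*S*T + T^(2:ℕ) + 2*S + 2*T + 1 := by positivity
  have c15 : 0 < -S^(2:ℕ)*T - S^(2:ℕ) + 2*T^(2:ℕ) - 2*S + T - 1 := F5_c15 h4 hL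
  have c16 : 0 < S*T - S + 2*T - 1 := F5_c16 h4 hL
  have c17 : 0 < S^(3:ℕ)*T^(4:ℕ) + 3*S^(3:ℕ)*T^(3:ℕ) + 4*S^(2:ℕ)*T^(4:ℕ) + 3*S^(3:ℕ)*T^(2:ℕ) + 12*S^(2:ℕ)*T^(3:ℕ) + 5*S*T^(4:ℕ) + S^(3:ℕ)*T + 12*S^(2:ℕ)*T^(2:ℕ) + 15*S*T^(3:ℕ) + 2*T^(4:ℕ) + S^(3:ℕ) + 7*S^(2:ℕ)*T + 18*S*T^(2:ℕ) + 7*T^(3:ℕ) + 3*S^(2:ℕ) + 11*S*T + 9*T^(2:ℕ) + 3*S + 5*T + 1 := by positivity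
  have c18 : 0 < S^(3:ℕ)*T^(3:ℕ) + 2*S^(3:ℕ)*T^(2:ℕ) + 2*S^(2:ℕ)*T^(3:ℕ) + S^(3:ℕ)*T + 4*S^(2:ℕ)*T^(2:ℕ) + S*T^(3:ℕ) - S^(3:ℕ) - S^(2:ℕ)*T - S*T^(2:ℕ) - T^(3:ℕ) - 3*S^(2:ℕ) - 5*S*T - 3*T^(2:ℕ) - 3*S - 3*T - 1 := F5_c18 h4 hL
  have c19 : 0 < S^(3:ℕ)*T^(5:ℕ) - S^(4:ℕ)*T^(3:ℕ) + 4*S^(3:ℕ)*T^(4:ℕ) + 4*S^(2:ℕ)*T^(5:ℕ) - 2*S^(4:ℕ)*T^(2:ℕ) + 4*S^(3:ℕ)*T^(3:ℕ) + 16*S^(2:ℕ)*T^(4:ℕ) + 5*S*T^(5:ℕ) - S^(4:ℕ)*T + 23*S^(2:ℕ)*T^(3:ℕ) + 20*S*T^(4:ℕ) + 2*T^(5:ℕ) + S^(4:ℕ) + 3*S^(3:ℕ)*T + 20*S^(2:ℕ)*T^(2:ℕ) + 34*S*T^(3:ℕ) + 9*T^(4:ℕ) + 4*S^(3:ℕ) + 15*S^(2:ℕ)*T + 32*S*T^(2:ℕ) + 16*T^(3:ℕ) + 6*S^(2:ℕ) + 17*S*T + 14*T^(2:ℕ) + 4*S + 6*T + 1 := F5_c19 h4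 hL
  have c20 : 0 < 2*S^(2:ℕ)*T^(2:ℕ) + 4*S^(2:ℕ)*T + 4*S*T^(2:ℕ) + 3*S^(2:ℕ) + 10*S*T + 3*T^(2:ℕ) + 6*S + 6*T + 3 := by positivity
  have c21 : 0 < S^(3:ℕ)*T^(4:ℕ) - 2*S^(4:ℕ)*T^(2:ℕ) + 3*S^(3:ℕ)*T^(3:ℕ) + 4*S^(2:ℕ)*T^(4:ℕ) - 4*S^(4:ℕ)*T - S^(3:ℕ)*T^(2:ℕ) + 14*S^(2:ℕ)*T^(3:ℕ) + 5*S*T^(4:ℕ) - 3*S^(4:ℕ) - 10*S^(3:ℕ)*T + 13*S^(2:ℕ)*T^(2:ℕ) + 18*S*T^(3:ℕ) + 2*T^(4:ℕ) - 7*S^(3:ℕ) + 24*S*T^(2:ℕ) + 8*T^(3:ℕ) - 3*S^(2:ℕ) + 14*S*T + 12*T^(2:ℕ) + 3*S + 8*T + 2 := F5_c21 h4 hL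
  have c22 : 0 < S^(4:ℕ)*T^(4:ℕ) + 3*S^(4:ℕ)*T^(3:ℕ) + 3*S^(3:ℕ)*T^(4:ℕ) + 5*S^(4:ℕ)*T^(2:ℕ) + 13*S^(3:ℕ)*T^(3:ℕ) + 5*S^(2:ℕ)*T^(4:ℕ) + 4*S^(4:ℕ)*T + 22*S^(3:ℕ)*T^(2:ℕ) + 22*S^(2:ℕ)*T^(3:ℕ) + 4*S*T^(4:ℕ) + 2*S^(4:ℕ) + 20*S^(3:ℕ)*T + 41*S^(2:ℕ)*T^(2:ℕ) + 20*S*T^(3:ℕ) + 2*T^(4:ℕ) + 8*S^(3:ℕ) + 36*S^(2:ℕ)*T + 36*S*T^(2:ℕ) + 8*T^(3:ℕ) + 12*S^(2:ℕ) + 28*S*T + 12*T^(2:ℕ) + 8*S + 8*T + 2 := by positivity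
  have c23 : 0 < S*T^(3:ℕ) - 2*S^(2:ℕ)*T + S*T^(2:ℕ) + 2*T^(3:ℕ) - S^(2:ℕ) - 2*S*T + 3*T^(2:ℕ) - 2*S - 1 := F5_c23 h4 hL
  have c24 : 0 < S*T - S - T - 1 := F5_c24 h4 hL
  have c25 : 0 < -S^(3:ℕ)*T - S^(3:ℕ) + S^(2:ℕ)*T + 3*S*T^(2:ℕ) + 6*S*T + 2*T^(2:ℕ) + 3*S + 4*T + 2 := F5_c25 h4 hL
  have c26 : 0 < S^(2:ℕ)*T^(3:ℕ) + S^(2:ℕ)*T^(2:ℕ) + 2*S*T^(3:ℕ) + 2*S*T^(2:ℕ) + S^(2:ℕ) + 2*S*T + T^(2:ℕ) + 2*S + 2*T + 1 := by positivity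
  have c27 : 0 < S^(2:ℕ)*T^(3:ℕ) - S^(3:ℕ)*T + S^(2:ℕ)*T^(2:ℕ) + 2*S*T^(3:ℕ) + S^(3:ℕ) + 2*S*T^(2:ℕ) + 3*S^(2:ℕ) + 3*S*T + T^(2:ℕ) + 3*S + 2*T + 1 := F5_c27 h4 hL
  have c28 : 0 < S^(2:ℕ)*T^(2:ℕ) - 2*S^(2:ℕ) - 2*S*T - 4*S - 2*T - 2 := F5_c28 h4 hL
  have c29 : 0 < S^(2:ℕ)*T^(3:ℕ) - 2*S^(3:ℕ)*T - 2*S^(2:ℕ)*T^(2:ℕ) - 2*S^(3:ℕ) - 8*S^(2:ℕ)*T - 4*S*T^(2:ℕ) - 6*S^(2:ℕ) - 10*S*T - 2*T^(2:ℕ) - 6*S - 4*T - 2 := F5_c29 h4 hL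
  have c30 : 0 < S^(4:ℕ)*T^(3:ℕ) + 3*S^(4:ℕ)*T^(2:ℕ) + 3*S^(3:ℕ)*T^(3:ℕ) - S^(2:ℕ)*T^(4:ℕ) + 4*S^(4:ℕ)*T + 14*S^(3:ℕ)*T^(2:ℕ) + 6*S^(2:ℕ)*T^(3:ℕ) + 2*S^(4:ℕ) + 18*S^(3:ℕ)*T + 25*S^(2:ℕ)*T^(2:ℕ) + 6*S*T^(3:ℕ) + 8*S^(3:ℕ) + 30*S^(2:ℕ)*T + 20*S*T^(2:ℕ) + 2*T^(3:ℕ) + 12*S^(2:ℕ) + 22*S*T + 6*T^(2:ℕ) + 8*S + 6*T + 2 := F5_c30 h4 hL hU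
  have c31 : 0 < S^(3:ℕ)*T^(3:ℕ) + 3*S^(3:ℕ)*T^(2:ℕ) + 2*S^(2:ℕ)*T^(3:ℕ) + 4*S^(3:ℕ)*T + 9*S^(2:ℕ)*T^(2:ℕ) + 2*S*T^(3:ℕ) + 2*S^(3:ℕ) + 12*S^(2:ℕ)*T + 8*S*T^(2:ℕ) + 6*S^(2:ℕ) + 12*S*T + 2*T^(2:ℕ) + 6*S + 4*T + 2 := by positivity
  have c32 : 0 < S^(3:ℕ)*T^(3:ℕ) + 2*S^(3:ℕ)*T^(2:ℕ) + 2*S^(2:ℕ)*T^(3:ℕ) + 2*S^(3:ℕ)*T + 6*S^(2:ℕ)*T^(2:ℕ) + 2*S*T^(3:ℕ) + 2*S^(3:ℕ) + 8*S^(2:ℕ)*T + 6*S*T^(2:ℕ) + 6*S^(2:ℕ) + 10*S*T + 2*T^(2:ℕ) + 6*S + 4*T + 2 := by positivity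
  have c33 : 0 < S^(3:ℕ)*T^(4:ℕ) + 2*S^(3:ℕ)*T^(3:ℕ) + 2*S^(2:ℕ)*T^(4:ℕ) + 2*S^(4:ℕ)*T + 6*S^(3:ℕ)*T^(2:ℕ) + 8*S^(2:ℕ)*T^(3:ℕ) + 2*S*T^(4:ℕ) + 2*S^(4:ℕ) + 12*S^(3:ℕ)*T + 18*S^(2:ℕ)*T^(2:ℕ) + 8*S*T^(3:ℕ) + 8*S^(3:ℕ) + 24*S^(2:ℕ)*T + 18*S*T^(2:ℕ) + 2*T^(3:ℕ) + 12*S^(2:ℕ) + 20*S*T + 6*T^(2:ℕ) + 8*S + 6*T + 2 := by positivity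
  have c34 : 0 < -S^(4:ℕ)*T^(3:ℕ) - 3*S^(4:ℕ)*T^(2:ℕ) - 2*S^(3:ℕ)*T^(3:ℕ) + 2*S^(2:ℕ)*T^(4:ℕ) - 4*S^(4:ℕ)*T - 11*S^(3:ℕ)*T^(2:ℕ) + S^(2:ℕ)*T^(3:ℕ) + 3*S*T^(4:ℕ) - 2*S^(4:ℕ) - 16*S^(3:ℕ)*T - 13*S^(2:ℕ)*T^(2:ℕ) + 6*S*T^(3:ℕ) + 2*T^(4:ℕ) - 8*S^(3:ℕ) - 24*S^(2:ℕ)*T - 5*S*T^(2:ℕ) + 4*T^(3:ℕ) - 12*S^(2:ℕ) - 16*S*T - 8*S - 4*T - 2 := F5_c34 h4 hL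
  have c35 : 0 < S^(2:ℕ)*T^(2:ℕ) + 2*S^(2:ℕ)*T + 2*S*T^(2:ℕ) + S^(2:ℕ) + 5*S*T + 2*T^(2:ℕ) + 2*S + 3*T + 1 := by positivity
  have c36 : 0 < S^(2:ℕ)*T^(3:ℕ) - S^(3:ℕ)*T + S^(2:ℕ)*T^(2:ℕ) + 2*S*T^(3:ℕ) - S^(3:ℕ) - 2*S^(2:ℕ)*T + 4*S*T^(2:ℕ) + 2*T^(3:ℕ) - 3*S^(2:ℕ) - S*T + 3*T^(2:ℕ) - 3*S - 1 := F5_c36 h4 hL
  have c37 : 0 < S^(4:ℕ)*T^(3:ℕ) + 4*S^(4:ℕ)*T^(2:ℕ) + 4*S^(3:ℕ)*T^(3:ℕ) - S^(2:ℕ)*T^(4:ℕ) + 6*S^(4:ℕ)*T + 18*S^(3:ℕ)*T^(2:ℕ) + 5*S^(2:ℕ)*T^(3:ℕ) - 2*S*T^(4:ℕ) + 3*S^(4:ℕ) + 25*S^(3:ℕ)*T + 27*S^(2:ℕ)*T^(2:ℕ) - S*T^(3:ℕ) - 2*T^(4:ℕ) + 12*S^(3:ℕ) + 39*S^(2:ℕ)*T + 16*S*T^(2:ℕ) - 3*T^(3:ℕ) + 18*S^(2:ℕ) + 27*S*T + 3*T^(2:ℕ) + 12*S + 7*T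 + 3 := F5_c37 h4 hL hU
  have d0 := F5_d0 S T pS pT c0
  have d1 := F5_d1 S T c0
  have d2 := F5_d2 S T pT c0
  have d3 := F5_d3 S T pS pT c0
  have f0 := F5_f0 S T pT d0 d1 d2 d3
  have d4 := F5_d4 S T pT pA c0
  have f1 := F5_f1 S T pS pT d2 d3 d4
  have f2 := F5_f2 S T pS d2 d3 d4
  have d5 := F5_d5 S T pB c0
  have f3 := F5_f3 S T pT d0 d2 d3 d5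
  have f4 := F5_f4 S T pT d0 d2 d3 d5
  have f5 := F5_f5 S T pS d2 d3
  have f6 := F5_f6 S T pT d0 d1 d2 d3
  have rA := F5_rA S T f0 f1 f2 f3 f4 f5 f6
  have d6 := F5_d6 S T pS pT pA pB c0
  have d7 := F5_d7 S T pS pT pA pB c0
  have f7 := F5_f7 S T pT d1 d2 d6 d7
  have d8 := F5_d8 S T pS pT pB c0
  have f8 := F5_f8 S T pS pT d2 d4 d7 d8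
  have d9 := F5_d9 S T pT pA pB c0
  have f9 := F5_f9 S T pS d3 d4 d8 d9
  have d10 := F5_d10 S T pA pB c0
  have f10 := F5_f10 S T pT d0 d3 d9 d10
  have d11 := F5_d11 S T pA pB c0
  have f11 := F5_f11 S T pT d0 d3 d10 d11
  have f12 := F5_f12 S T pS d2 d3 d5 d11
  have f13 := F5_f13 S T pT d1 d2 d5
  have rP := F5_rP S T f7 f8 f9 f10 f11 f12 f13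
  have d12 := F5_d12 S T c1
  have q0 := F5_q0 S T d6 d12
  have d13 := F5_d13 S T c2
  have q1 := F5_q1 S T d6 d13
  have d14 := F5_d14 S T c3
  have q2 := F5_q2 S T d1 d14
  have d15 := F5_d15 S T c4
  have q3 := F5_q3 S T d1 d15
  have sP := F5_sP S T q0 q1 q2 q3
  have d16 := F5_d16 S T c5
  have g0 := F5_g0 S T d6 d16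
  have d17 := F5_d17 S T c6
  have g1 := F5_g1 S T d1 d17
  have oP_0 := F5_oP_0 S T g0 g1
  have d18 := F5_d18 S T pB c7
  have g2 := F5_g2 S T d2 d18
  have d19 := F5_d19 S T pU c8
  have d20 := F5_d20 S T pS pT pA pB c0
  have g3 := F5_g3 S T d7 d19 d20
  have oP_1 := F5_oP_1 S T g2 g3
  have d21 := F5_d21 S T c9
  have g4 := F5_g4 S T d4 d21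
  have oP_2 := F5_oP_2 S T g4
  have d22 := F5_d22 S T c10
  have g5 := F5_g5 S T d9 d22
  have d23 := F5_d23 S T c11
  have g6 := F5_g6 S T d3 d23
  have oP_3 := F5_oP_3 S T g5 g6
  have d24 := F5_d24 S T pA pB c12
  have g7 := F5_g7 S T d0 d24
  have d25 := F5_d25 S T pS pT c13
  have g8 := F5_g8 S T d10 d11 d25
  have oP_4 := F5_oP_4 S T g7 g8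
  have d26 := F5_d26 S T pS c14
  have g9 := F5_g9 S T d11 d26
  have oP_5 := F5_oP_5 S T g9
  have d27 := F5_d27 S T pB c15
  have g10 := F5_g10 S T d2 d27
  have d28 := F5_d28 S T pB c16
  have g11 := F5_g11 S T d1 d5 d28
  have oP_6 := F5_oP_6 S T g10 g11
  have oP := F5_oP S T f7 f8 f9 f10 f11 f12 oP_0 oP_1 oP_2 oP_3 oP_4 oP_5 oP_6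
  have d29 := F5_d29 S T pT pA pB c0
  have d30 := F5_d30 S T pA pB c0
  have f14 := F5_f14 S T pT d1 d2 d29 d30
  have f15 := F5_f15 S T pS pT d2 d4 d10 d30
  have d31 := F5_d31 S T pA pB c0
  have f16 := F5_f16 S T pS d3 d4 d10 d31
  have f17 := F5_f17 S T pT d0 d3 d30 d31
  have f18 := F5_f18 S T pT d0 d3 d29 d30
  have f19 := F5_f19 S T pS d2 d3 d7 d29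
  have f20 := F5_f20 S T pT d1 d2 d6 d7
  have d32 := F5_d32 S T c17
  have q4 := F5_q4 S T d29 d32
  have d33 := F5_d33 S T c18
  have q5 := F5_q5 S T d29 d33
  have sQ := F5_sQ S T q2 q3 q4 q5
  have d34 := F5_d34 S T c19
  have g12 := F5_g12 S T d29 d34
  have oQ_0 := F5_oQ_0 S T g1 g12
  have d35 := F5_d35 S T pU c20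
  have g13 := F5_g13 S T d30 d31 d35
  have oQ_1 := F5_oQ_1 S T g2 g13
  have oQ_2 := F5_oQ_2 S T g4
  have d36 := F5_d36 S T c21
  have g14 := F5_g14 S T d31 d36
  have oQ_3 := F5_oQ_3 S T g6 g14
  have g15 := F5_g15 S T d13 d30 d31
  have oQ_4 := F5_oQ_4 S T g7 g15
  have d37 := F5_d37 S T c22
  have g16 := F5_g16 S T d29 d37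
  have oQ_5 := F5_oQ_5 S T g16
  have g17 := F5_g17 S T d7 d12 d20
  have oQ_6 := F5_oQ_6 S T g10 g17
  have oQ := F5_oQ S T f14 f15 f16 f17 f18 f19 oQ_0 oQ_1 oQ_2 oQ_3 oQ_4 oQ_5 oQ_6
  have rE := F5_rE S T 
  have q6 := F5_q6 S T d2 d28
  have d38 := F5_d38 S T c13
  have q7 := F5_q7 S T d2 d38
  have sq := F5_sq S T q2 q3 q6 q7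
  have oE := F5_oE S T 
  have rB := F5_rB S T f0 f1 f2 f3 f4 f5 f6
  have f21 := F5_f21 S T pT d1 d2 d5
  have f22 := F5_f22 S T pT d1 d2 d5
  have d39 := F5_d39 S T pA c0
  have f23 := F5_f23 S T pS d1 d2 d3 d39
  have f24 := F5_f24 S T pT d0 d3 d11 d39
  have f25 := F5_f25 S T pT d0 d3 d4 d11
  have d40 := F5_d40 S T pT pA pB c0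
  have f26 := F5_f26 S T pS pT d3 d4 d40
  have f27 := F5_f27 S T pS d2 d3 d20 d40
  have rr := F5_rr S T f21 f22 f23 f24 f25 f26 f27
  have sr := F5_sr S T q2 q3 q6 q7
  have d41 := F5_d41 S T c23
  have g18 := F5_g18 S T d2 d41
  have orr_0 := F5_orr_0 S T g1 g18
  have d42 := F5_d42 S T c24
  have g19 := F5_g19 S T d1 d5 d42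
  have orr_1 := F5_orr_1 S T g2 g19
  have d43 := F5_d43 S T c14
  have g20 := F5_g20 S T d2 d43
  have orr_2 := F5_orr_2 S T g20
  have d44 := F5_d44 S T c25
  have g21 := F5_g21 S T d39 d44
  have d45 := F5_d45 S T c26
  have g22 := F5_g22 S T d3 d45
  have orr_3 := F5_orr_3 S T g21 g22
  have d46 := F5_d46 S T pB c27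
  have g23 := F5_g23 S T d0 d46
  have d47 := F5_d47 S T c28
  have g24 := F5_g24 S T d11 d39 d47
  have orr_4 := F5_orr_4 S T g23 g24
  have d48 := F5_d48 S T c29
  have g25 := F5_g25 S T d4 d48
  have d49 := F5_d49 S T pU c13
  have g26 := F5_g26 S T d3 d49
  have orr_5 := F5_orr_5 S T g25 g26
  have d50 := F5_d50 S T c30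
  have g27 := F5_g27 S T d40 d50
  have orr_6 := F5_orr_6 S T g27
  have orr := F5_orr S T f21 f22 f23 f24 f25 f26 orr_0 orr_1 orr_2 orr_3 orr_4 orr_5 orr_6
  have d51 := F5_d51 S T pS pT pA c0
  have f28 := F5_f28 S T pT d2 d5 d20 d51
  have f29 := F5_f29 S T pT d2 d5 d20 d51
  have f30 := F5_f30 S T pS d2 d3 d20 d40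
  have f31 := F5_f31 S T pT d0 d3 d31 d40
  have d52 := F5_d52 S T pA pB c0
  have f32 := F5_f32 S T pT d0 d3 d31 d52
  have d53 := F5_d53 S T pA pB c0
  have f33 := F5_f33 S T pS pT d3 d52 d53
  have f34 := F5_f34 S T pS d2 d3 d31 d53
  have d54 := F5_d54 S T c31
  have q8 := F5_q8 S T d20 d54
  have q9 := F5_q9 S T d20 d48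
  have sC := F5_sC S T q6 q7 q8 q9
  have d55 := F5_d55 S T c32
  have d56 := F5_d56 S T pS pT pA c0
  have g28 := F5_g28 S T d20 d55 d56
  have oC_0 := F5_oC_0 S T g18 g28
  have d57 := F5_d57 S T c33
  have g29 := F5_g29 S T d51 d57
  have oC_1 := F5_oC_1 S T g19 g29
  have oC_2 := F5_oC_2 S T g20
  have d58 := F5_d58 S T c34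
  have g30 := F5_g30 S T d40 d58
  have oC_3 := F5_oC_3 S T g22 g30
  have d59 := F5_d59 S T pS pT c35
  have g31 := F5_g31 S T d31 d52 d59
  have oC_4 := F5_oC_4 S T g23 g31
  have d60 := F5_d60 S T pS c36
  have g32 := F5_g32 S T d52 d60
  have oC_5 := F5_oC_5 S T g26 g32
  have d61 := F5_d61 S T pS c37
  have g33 := F5_g33 S T d53 d61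
  have oC_6 := F5_oC_6 S T g33
  have oC := F5_oC S T f28 f29 f30 f31 f32 f33 oC_0 oC_1 oC_2 oC_3 oC_4 oC_5 oC_6
  have d62 := F5_d62 S T pA pB
  have vP := F5_vP S T d0 d6 d62
  have vq := F5_vq S T d0 d2
  have vr := F5_vr S T d1 d3
  have vQ := F5_vQ S T d0 d29 d62
  have vC := F5_vC S T d3 d20 d62
  have d63 := F5_d63 S T pU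
  have nun := F5_nun S T d62 d63
  have d64 := F5_d64 S T pS pT
  have num := F5_num S T d62 d64
  have kan := F5_kan S T d62 d63
  have kam := F5_kam S T d62 d64
  have d65 := F5_d65 S T pU c3
  have hdB := F5_hdB S T d3 d65
  refine conn_fin pS pT (by simp) (by simp) (P := (((S^(3:ℕ)*T^(4:ℕ) + 2*S^(3:ℕ)*T^(3:ℕ) + 3*S^(2:ℕ)*T^(4:ℕ) + 2*S^(3:ℕ)*T^(2:ℕ) + 7*S^(2:ℕ)*T^(3:ℕ) + 2*S*T^(4:ℕ) + 2*S^(3:ℕ)*T + 8*S^(2:ℕ)*T^(2:ℕ) + 6*S*T^(3:ℕ) + 2*S^(3:ℕ) + 10*S^(2:ℕ)*T + 12*S*T^(2:ℕ) + 2*T^(3:ℕ) + 6*S^(2:ℕ) + 14*S*T + 6*T^(2:ℕ) + 6*S + 6*T + 2))/(S*T^(2:ℕ)*(S + 1)*(T + 1)*(S*T + 2*S + 2*T + 2)), ((S*T + S + 1))/((S*T + 2*S + 2*T + 2)))) (q :=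 (((T + 1)*(S*T - S + 2*T - 1))/(T*(S*T + 2*S + 2*T + 2)), ((S*T + S + 1))/((S*T + 2*S + 2*T + 2)))) (r := (((T + 1)*(S*T - S + 2*T - 1))/(T*(S*T + 2*S + 2*T + 2)), ((S*T + S + 1))/((S*T + 2*S + 2*T + 2)))) (C := (((T + 1)*(S*T - S + 2*T - 1))/(T*(S*T + 2*S + 2*T + 2)), ((S^(3:ℕ)*T^(3:ℕ) + 3*S^(3:ℕ)*T^(2:ℕ) + 2*S^(2:ℕ)*T^(3:ℕ) + 4*S^(3:ℕ)*T + 9*S^(2:ℕ)*T^(2:ℕ) + 2*S*T^(3:ℕ) + 2*S^(3:ℕ) + 12*S^(2:ℕ)*T + 8*S*T^(2:ℕ) + 6*S^(2:ℕ) + 12*S*T + 2*T^(2:ℕ) + 6*S + 4*T + 2))/(S*T*(S + 1)*(T + 1)*(S*T + 2*S + 2*T + 2))))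
    (ν := (-((S + T + 1)))/((S + 1)*(T + 1))) (κ := (-((S + T + 1)))/((S + 1)*(T + 1))) ?_ ?_ ?_ hdB vP vq vr vC rA rP rB rr rE ?_ sq oE ?_
  · exact nun.ne
  · exact kan.ne
  · exact abs_lt.2 ⟨kam, kan.trans one_pos⟩
  · exact okA_neg pS pT nun num vP vQ sP sQ oP oQ
  · exact okB_neg pS pT kan kam vr vC sr sC orr oC

end SympB.Quad
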