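import Pool.Agent.W_93b186_h44.FamTools

/-! Machine generated: the connection bag |  | bg. -/

namespace SympB.Quad

open Letter

set_option maxRecDepth 20000

theorem G1_c3 {S T : ℝ} (g0 : 0 < S) (g1 : 0 ≤ T - S) (g2 : 0 < S + 1 - T) (g3 : 0 < 2 - T) : 0 < -S^(2:ℕ)*T + S*T + S + T + 1 := by
  have key : ∀ a0 a1 a2 a3 : ℝ, 0 < a0 → 0 ≤ a1 → 0 < a2 → 0 < a3 → 0 < a0^(3:ℕ) + 13*a0^(2:ℕ)*a1 + 15*a0^(2:ℕ)*a3 + 3*a0*a1^(2:ℕ) + 17*a0*a1*a3 + 7*a0*a3^(2:ℕ) + 9*a1^(2:ℕ)*a2 + 15*a1^(2:ℕ) + 10*a1*a2*a3 + a3^(3:ℕ) := by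
    intro a0 a1 a2 a3 g0 g1 g2 g3
    positivity
  refine pos_aux1 (m := 8) (by norm_num) (lt_of_lt_of_eq (key _ _ _ _ g0 g1 g2 g3) ?_)
  ring

theorem G1_c4 {S T : ℝ} (g0 : 0 < S) (g1 : 0 ≤ T - S) (g2 : 0 < S + 1 - T) (g3 : 0 < 2 - T) : 0 < S*T^(2:ℕ) - S^(2:ℕ) + S*T + T^(2:ℕ) + 2*T + 1 := by
  have key : ∀ a0 a1 a2 a3 : ℝ, 0 < a0 → 0 ≤ a1 → 0 < a2 → 0 < a3 → 0 < 10*a0^(3:ℕ) + 33*a0^(2:ℕ)*a1 + a0^(2:ℕ)*a3 + 17*a0*a1^(2:ℕ) + 20*a0*a1*a3 + 28*a0 + 6*a1^(2:ℕ)*a2 + 24*a1^(2:ℕ) + 7*a1*a3^(2:ℕ) + a3^(3:ℕ) := by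
    intro a0 a1 a2 a3 g0 g1 g2 g3
    positivity
  refine pos_aux1 (m := 8) (by norm_num) (lt_of_lt_of_eq (key _ _ _ _ g0 g1 g2 g3) ?_)
  ring

theorem G1_c6 {S T : ℝ} (g0 : 0 < S) (g1 : 0 ≤ T - S) (g2 : 0 < S + 1 - T) (g3 : 0 < 2 - T) : 0 < S - T + 1 := by
  have key : ∀ a0 a1 a2 a3 : ℝ, 0 < a0 → 0 ≤ a1 → 0 < a2 → 0 < a3 → 0 < a2 := by
    intro a0 a1 a2 a3 g0 g1 g2 g3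
    positivity
  refine pos_aux1 (m := 1) (by norm_num) (lt_of_lt_of_eq (key _ _ _ _ g0 g1 g2 g3) ?_)
  ring

theorem G1_c7 {S T : ℝ} (g0 : 0 < S) (g1 : 0 ≤ T - S) (g2 : 0 < S + 1 - T) (g3 : 0 < 2 - T) : 0 < -S^(3:ℕ)*T^(3:ℕ) + S^(2:ℕ)*T^(3:ℕ) + 2*S^(3:ℕ)*T + 3*S^(2:ℕ)*T^(2:ℕ) + S*T^(3:ℕ) + S^(3:ℕ) + 6*S^(2:ℕ)*T + 4*S*T^(2:ℕ) + 3*S^(2:ℕ) + 6*S*T + T^(2:ℕ) + 3*S + 2*T + 1 := by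
  have key : ∀ a0 a1 a2 a3 : ℝ, 0 < a0 → 0 ≤ a1 → 0 < a2 → 0 < a3 → 0 < 190*a0^(6:ℕ) + 854*a0^(5:ℕ)*a1 + 639*a0^(5:ℕ)*a3 + 1618*a0^(4:ℕ)*a1^(2:ℕ) + 2037*a0^(4:ℕ)*a1*a3 + 585*a0^(4:ℕ)*a3^(2:ℕ) + 1236*a0^(3:ℕ)*a1^(3:ℕ) + 2862*a0^(3:ℕ)*a1^(2:ℕ)*a3 + 1328*a0^(3:ℕ)*a1*a3^(2:ℕ) + 237*a0^(3:ℕ)*a3^(3:ℕ) + 328*a0^(2:ℕ)*a1^(4:ℕ) + 1106*a0^(2:ℕ)*a1^(3:ℕ)*a3 + 1686*a0^(2:ℕ)*a1^(2:ℕ)*a3^(2:ℕ) + 313*a0^(2:ℕ)*a1*a3^(3:ℕ) + 37*a0^(2:ℕ)*a3^(4:ℕ) + 454*a0*a1^(4:ℕ)*a2 + 222*a0*a1^(4:ℕ) + 64*a0*a1^(3:ℕ)*a3^(2:ℕ) + 442*a0*a1^(2:ℕ)*a3^(3:ℕ) + 8*a0*a1*a3^(4:ℕ) + 416*a0 + 84*a1^(5:ℕ)*a2 + 386*a1^(4:ℕ)*a2*a3 + 256*a1^(4:ℕ) + 96*a1^(3:ℕ)*a2*a3^(2:ℕ) + 202*a1^(2:ℕ)*a2*a3^(3:ℕ) + 416*a1*a2^(5:ℕ) + 8*a2^(3:ℕ)*a3^(3:ℕ) := by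
    intro a0 a1 a2 a3 g0 g1 g2 g3
    positivity
  refine pos_aux1 (m := 64) (by norm_num) (lt_of_lt_of_eq (key _ _ _ _ g0 g1 g2 g3) ?_)
  ring

theorem G1_c8 {S T : ℝ} (g0 : 0 < S) (g1 : 0 ≤ T - S) (g2 : 0 < S + 1 - T) (g3 : 0 < 2 - T) : 0 < S^(3:ℕ)*T^(2:ℕ) - S^(2:ℕ)*T^(2:ℕ) + S^(2:ℕ)*T + S*T^(2:ℕ) + S^(2:ℕ) + 3*S*T + T^(2:ℕ) + 2*S + 2*T + 1 := by
  have key : ∀ a0 a1 a2 a3 : ℝ, 0 < a0 → 0 ≤ a1 → 0 < a2 → 0 < a3 → 0 < 96*a0^(5:ℕ) + 490*a0^(4:ℕ)*a1 + 122*a0^(4:ℕ)*a3 + 352*a0^(3:ℕ)*a1^(2:ℕ) + 1032*a0^(3:ℕ)*a1*a3 + 112*a0^(3:ℕ)*a3^(2:ℕ) + 134*a0^(2:ℕ)*a1^(3:ℕ) + 516*a0^(2:ℕ)*a1^(2:ℕ)*a3 + 900*a0^(2:ℕ)*a1*a3^(2:ℕ) + 20*a0^(2:ℕ)*a3^(3:ℕ) + 331*a0*a1^(3:ℕ)*a2 + 210*a0*a1^(3:ℕ) + 178*a0*a1^(2:ℕ)*a3^(2:ℕ) + 262*a0*a1*a3^(3:ℕ) +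 416*a0*a2^(4:ℕ) + 91*a1^(4:ℕ)*a2 + 213*a1^(3:ℕ)*a2*a3 + 254*a1^(3:ℕ) + 156*a1^(2:ℕ)*a2*a3^(2:ℕ) + 36*a1*a2*a3^(3:ℕ) + 2*a3^(5:ℕ) := by
    intro a0 a1 a2 a3 g0 g1 g2 g3
    positivity
  refine pos_aux1 (m := 64) (by norm_num) (lt_of_lt_of_eq (key _ _ _ _ g0 g1 g2 g3) ?_)
  ring

theorem G1_c9 {S T : ℝ} (g0 : 0 < S) (g1 : 0 ≤ T - S) (g2 : 0 < S + 1 - T) (g3 : 0 < 2 - T) : 0 < -S^(2:ℕ)*T^(3:ℕ) - S^(2:ℕ)*T^(2:ℕ) + S*T^(3:ℕ) + 2*S^(2:ℕ)*T + 4*S*T^(2:ℕ) + T^(3:ℕ) + S^(2:ℕ) + 5*S*T + 3*T^(2:ℕ) + 2*S + 3*T + 1 := by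
  have key : ∀ a0 a1 a2 a3 : ℝ, 0 < a0 → 0 ≤ a1 → 0 < a2 → 0 < a3 → 0 < 71*a0^(5:ℕ) + 339*a0^(4:ℕ)*a1 + 265*a0^(4:ℕ)*a3 + 618*a0^(3:ℕ)*a1^(2:ℕ) + 848*a0^(3:ℕ)*a1*a3 + 234*a0^(3:ℕ)*a3^(2:ℕ) + 186*a0^(2:ℕ)*a1^(3:ℕ) + 982*a0^(2:ℕ)*a1^(2:ℕ)*a3 + 530*a0^(2:ℕ)*a1*a3^(2:ℕ) + 86*a0^(2:ℕ)*a3^(3:ℕ) + 232*a0*a1^(3:ℕ)*a2 + 334*a0*a1^(3:ℕ) + 340*a0*a1^(2:ℕ)*a3^(2:ℕ) + 128*a0*a1*a3^(3:ℕ) + 14*a0*a3^(4:ℕ) + 68*a1^(4:ℕ)*a2 + 150*a1^(3:ℕ)*a2*a3 + 244*a1^(3:ℕ) + 92*a1^(2:ℕ)*a2*a3^(2:ℕ) + 10*a1*a3^(4:ℕ) + 2*a3^(4:ℕ) := by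
    intro a0 a1 a2 a3 g0 g1 g2 g3
    positivity
  refine pos_aux1 (m := 32) (by norm_num) (lt_of_lt_of_eq (key _ _ _ _ g0 g1 g2 g3) ?_)
  ring

theorem G1_c10 {S T : ℝ} (g0 : 0 < S) (g1 : 0 ≤ T - S) (g2 : 0 < S + 1 - T) (g3 : 0 < 2 - T) : 0 < S^(2:ℕ)*T^(2:ℕ) + 2*S^(2:ℕ)*T - S*T^(2:ℕ) + S^(2:ℕ) + 2*S*T - T^(2:ℕ) + 2*S + 1 := by
  have key : ∀ a0 a1 a2 a3 : ℝ, 0 < a0 → 0 ≤ a1 → 0 < a2 → 0 < a3 → 0 < 37*a0^(4:ℕ) + 72*a0^(3:ℕ)*a1 + 40*a0^(3:ℕ)*a3 + 19*a0^(2:ℕ)*a1^(2:ℕ) + 42*a0^(2:ℕ)*a1*a3 + 26*a0^(2:ℕ)*a3^(2:ℕ) + 22*a0*a1^(2:ℕ)*a2 + 20*a0*a1*a2*a3 + 9*a0*a1*a3^(2:ℕ) + 7*a0*a3^(3:ℕ) + 6*a1^(3:ℕ)*a2 + 14*a1^(2:ℕ)*a2*a3 + 10*a1*a2*a3^(2:ℕ) + 2*a2*a3^(3:ℕ) := by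
    intro a0 a1 a2 a3 g0 g1 g2 g3
    positivity
  refine pos_aux1 (m := 16) (by norm_num) (lt_of_lt_of_eq (key _ _ _ _ g0 g1 g2 g3) ?_)
  ring

theorem G1_c12 {S T : ℝ} (g0 : 0 < S) (g1 : 0 ≤ T - S) (g2 : 0 < S + 1 - T) (g3 : 0 < 2 - T) : 0 < -S^(3:ℕ)*T^(2:ℕ) - S^(3:ℕ)*T + S*T^(3:ℕ) - S^(3:ℕ) - S^(2:ℕ)*T + 3*S*T^(2:ℕ) + T^(3:ℕ) - S^(2:ℕ) + 3*S*T + 3*T^(2:ℕ) + S + 3*T + 1 := by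
  have key : ∀ a0 a1 a2 a3 : ℝ, 0 < a0 → 0 ≤ a1 → 0 < a2 → 0 < a3 → 0 < 13*a0^(5:ℕ) + 203*a0^(4:ℕ)*a1 + 129*a0^(4:ℕ)*a3 + 502*a0^(3:ℕ)*a1^(2:ℕ) + 560*a0^(3:ℕ)*a1*a3 + 134*a0^(3:ℕ)*a3^(2:ℕ) + 498*a0^(2:ℕ)*a1^(2:ℕ)*a3 + 394*a0^(2:ℕ)*a1*a3^(2:ℕ) + 62*a0^(2:ℕ)*a3^(3:ℕ) + 386*a0*a1^(3:ℕ)*a2 + 434*a0*a1^(3:ℕ) + 474*a0*a1^(2:ℕ)*a2*a3 + 94*a0*a1^(2:ℕ)*a3 + 100*a0*a1*a3^(3:ℕ) + 12*a0*a3^(4:ℕ) + 74*a1^(4:ℕ)*a2 + 168*a1^(3:ℕ)*a2*a3 + 256*a1^(3:ℕ) + 116*a1^(2:ℕ)*a2*a3^(2:ℕ) + 24*a1*a2*a3^(3:ℕ) + 2*a2*a3^(4:ℕ) := by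
    intro a0 a1 a2 a3 g0 g1 g2 g3
    positivity
  refine pos_aux1 (m := 32) (by norm_num) (lt_of_lt_of_eq (key _ _ _ _ g0 g1 g2 g3) ?_)
  ring

theorem G1_c13 {S T : ℝ} (g0 : 0 < S) (g1 : 0 ≤ T - S) (g2 : 0 < S + 1 - T) (g3 : 0 < 2 - T) : 0 < -S*T + S + T + 1 := by
  have key : ∀ a0 a1 a2 a3 : ℝ, 0 < a0 → 0 ≤ a1 → 0 < a2 → 0 < a3 → 0 < a0^(2:ℕ) + 4*a0*a1 + 6*a0*a3 + 3*a1^(2:ℕ) + 4*a1*a3 + a3^(2:ℕ) := by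
    intro a0 a1 a2 a3 g0 g1 g2 g3
    positivity
  refine pos_aux1 (m := 4) (by norm_num) (lt_of_lt_of_eq (key _ _ _ _ g0 g1 g2 g3) ?_)
  ring

theorem G1_d0 (S T : ℝ) (pA : 0 < (S + 1)) (pB : 0 < (T + 1)) :
    0 < (S + 1)*(T + 1) := (mul_pos pA pB)

theorem G1_d1 (S T : ℝ) (pA : 0 < (S + 1)) :
    0 < (S + 1) := pA

theorem G1_d2 (S T : ℝ) (pA : 0 < (S + 1)) (pB : 0 < (T + 1)) :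
    0 < (S + 1)*(T + 1)^(2:ℕ) := (mul_pos pA (pow_pos pB 2))

theorem G1_f0 (S T : ℝ) (pT : 0 < T) (d0 : 0 < (S + 1)*(T + 1)) (d1 : 0 < (S + 1)) (d2 : 0 < (S + 1)*(T + 1)^(2:ℕ)) :
    fl S T Letter.be (((S*T + T + 1))/((S + 1)*(T + 1)), ((S*T + S + 1))/((S + 1)*(T + 1))) = ((S)/((S + 1)), (S*T)/((S + 1)*(T + 1)^(2:ℕ))) := fl_be' pT d0 d0 d1 d2 (by ring) (by ring)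

theorem G1_d3 (S T : ℝ) (pA : 0 < (S + 1)) (pB : 0 < (T + 1)) :
    0 < (S + 1)^(2:ℕ)*(T + 1) := (mul_pos (pow_pos pA 2) pB)

theorem G1_d4 (S T : ℝ) (pB : 0 < (T + 1)) :
    0 < (T + 1) := pB

theorem G1_f1 (S T : ℝ) (pS : 0 < S) (pT : 0 < T) (d1 : 0 < (S + 1)) (d2 : 0 < (S + 1)*(T + 1)^(2:ℕ)) (d3 : 0 < (S + 1)^(2:ℕ)*(T + 1)) (d4 : 0 < (T + 1)) :
    fl S T Letter.al ((S)/((S + 1)), (S*T)/((S + 1)*(T + 1)^(2:ℕ))) = ((S*T)/((S + 1)^(2:ℕ)*(T + 1)), (T)/((T + 1))) := fl_al' pS pT d1 d2 d3 d4 (by ring) (by ring)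

theorem G1_f2 (S T : ℝ) (pS : 0 < S) (d0 : 0 < (S + 1)*(T + 1)) (d3 : 0 < (S + 1)^(2:ℕ)*(T + 1)) (d4 : 0 < (T + 1)) :
    fl S T Letter.ga ((S*T)/((S + 1)^(2:ℕ)*(T + 1)), (T)/((T + 1))) = (((S*T + T + 1))/((S + 1)*(T + 1)), ((S*T + S + 1))/((S + 1)*(T + 1))) := fl_ga' pS d3 d4 d0 d0 (by ring) (by ring)

theorem G1_rA (S T : ℝ) (f0 : fl S T Letter.be (((S*T + T + 1))/((S + 1)*(T + 1)), ((S*T + S + 1))/((S + 1)*(T + 1))) = ((S)/((S + 1)), (S*T)/((S + 1)*(T + 1)^(2:ℕ)))) (f1 : fl S T Letter.al ((S)/((S + 1)), (S*T)/((S + 1)*(T + 1)^(2:ℕ))) = ((S*T)/((S + 1)^(2:ℕ)*(T + 1)), (T)/((T + 1)))) (f2 : fl S T Letter.ga ((S*T)/((S + 1)^(2:ℕ)*(T + 1)), (T)/((T + 1))) = (((S*T + T + 1))/((S + 1)*(T + 1)), ((S*T + S + 1))/((S + 1)*(T +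 1)))) :
    run S T [Letter.be, Letter.al, Letter.ga] (((S*T + T + 1))/((S + 1)*(T + 1)), ((S*T + S + 1))/((S + 1)*(T + 1))) = (((S*T + T + 1))/((S + 1)*(T + 1)), ((S*T + S + 1))/((S + 1)*(T + 1))) := (run_cons' f0 (run_cons' f1 (run_cons' f2 run_nil')))

theorem G1_d5 (S T : ℝ) (pU : 0 < (S + T + 1)) (c0 : 0 < 2*S*T + S + T + 1) :
    0 < (S + T + 1)*(2*S*T + S + T + 1) := (mul_pos pU c0)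

theorem G1_f3 (S T : ℝ) (pT : 0 < T) (d0 : 0 < (S + 1)*(T + 1)) (d2 : 0 < (S + 1)*(T + 1)^(2:ℕ)) (d5 : 0 < (S + T + 1)*(2*S*T + S + T + 1)) :
    fl S T Letter.be (((S*T + T + 1))/((S + 1)*(T + 1)), ((S + 1)*(T + 1)*(S*T + S + 1))/((S + T + 1)*(2*S*T + S + T + 1))) = ((S*(S*T^(2:ℕ) + 3*S*T + T^(2:ℕ) + S + 2*T + 1))/((S + T + 1)*(2*S*T + S + T + 1)), (S*T)/((S + 1)*(T + 1)^(2:ℕ))) := fl_be' pT d0 d5 d5 d2 (by ring) (by ring)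

theorem G1_d6 (S T : ℝ) (c0 : 0 < 2*S*T + S + T + 1) :
    0 < (2*S*T + S + T + 1) := c0

theorem G1_f4 (S T : ℝ) (pS : 0 < S) (pT : 0 < T) (d2 : 0 < (S + 1)*(T + 1)^(2:ℕ)) (d4 : 0 < (T + 1)) (d5 : 0 < (S + T + 1)*(2*S*T + S + T + 1)) (d6 : 0 < (2*S*T + S + T + 1)) :
    fl S T Letter.al ((S*(S*T^(2:ℕ) + 3*S*T + T^(2:ℕ) + S + 2*T + 1))/((S + T + 1)*(2*S*T + S + T + 1)), (S*T)/((S + 1)*(T + 1)^(2:ℕ))) = ((S*T)/((2*S*T + S + T + 1)), (T)/((T + 1))) := fl_al' pS pT d5 d2 d6 d4 (by ring) (by ring)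

theorem G1_f5 (S T : ℝ) (pS : 0 < S) (d0 : 0 < (S + 1)*(T + 1)) (d4 : 0 < (T + 1)) (d6 : 0 < (2*S*T + S + T + 1)) :
    fl S T Letter.ga ((S*T)/((2*S*T + S + T + 1)), (T)/((T + 1))) = (((S*T + T + 1))/((S + 1)*(T + 1)), ((S*T + S + 1))/((2*S*T + S + T + 1))) := fl_ga' pS d6 d4 d0 d6 (by ring) (by ring)

theorem G1_rP (S T : ℝ) (f3 : fl S T Letter.be (((S*T + T + 1))/((S + 1)*(T + 1)), ((S + 1)*(T + 1)*(S*T + S + 1))/((S + T + 1)*(2*S*T + S + T + 1))) = ((S*(S*T^(2:ℕ) + 3*S*T + T^(2:ℕ) + S + 2*T + 1))/((S + T + 1)*(2*S*T + S + T + 1)), (S*T)/((S + 1)*(T + 1)^(2:ℕ)))) (f4 : fl S T Letter.al ((S*(S*T^(2:ℕ) + 3*S*T + T^(2:ℕ) + S + 2*T + 1))/((S + T + 1)*(2*S*T + S + T + 1)), (S*T)/((S + 1)*(T + 1)^(2:ℕ))) = ((S*T)/((2*S*T +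 S + T + 1)), (T)/((T + 1)))) (f5 : fl S T Letter.ga ((S*T)/((2*S*T + S + T + 1)), (T)/((T + 1))) = (((S*T + T + 1))/((S + 1)*(T + 1)), ((S*T + S + 1))/((2*S*T + S + T + 1)))) :
    run S T [Letter.be, Letter.al, Letter.ga] (((S*T + T + 1))/((S + 1)*(T + 1)), ((S + 1)*(T + 1)*(S*T + S + 1))/((S + T + 1)*(2*S*T + S + T + 1))) = (((S*T + T + 1))/((S + 1)*(T + 1)), ((S*T + S + 1))/((2*S*T + S + T + 1))) := (run_cons' f3 (run_cons' f4 (run_cons' f5 run_nil')))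

theorem G1_d7 (S T : ℝ) (c1 : 0 < S*T + T + 1) :
    0 < (S*T + T + 1) := c1

theorem G1_q0 (S T : ℝ) (d0 : 0 < (S + 1)*(T + 1)) (d7 : 0 < (S*T + T + 1)) :
    0 < ((S*T + T + 1))/((S + 1)*(T + 1)) := div_pos d7 d0

theorem G1_q1 (S T : ℝ) (pS : 0 < S) (d0 : 0 < (S + 1)*(T + 1)) :
    ((S*T + T + 1))/((S + 1)*(T + 1)) < 1 := rlt1 d0 pS d0 (by ring)

theorem G1_d8 (S T : ℝ) (pA : 0 < (S + 1)) (pB : 0 < (T + 1)) (c2 : 0 < S*T + S + 1) :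
    0 < (S + 1)*(T + 1)*(S*T + S + 1) := (mul_pos (mul_pos pA pB) c2)

theorem G1_q2 (S T : ℝ) (d5 : 0 < (S + T + 1)*(2*S*T + S + T + 1)) (d8 : 0 < (S + 1)*(T + 1)*(S*T + S + 1)) :
    0 < ((S + 1)*(T + 1)*(S*T + S + 1))/((S + T + 1)*(2*S*T + S + T + 1)) := div_pos d8 d5

theorem G1_d9 (S T : ℝ) (pT : 0 < T) (c3 : 0 < -S^(2:ℕ)*T + S*T + S + T + 1) :
    0 < T*(-S^(2:ℕ)*T + S*T + S + T + 1) := (mul_pos pT c3)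

theorem G1_q3 (S T : ℝ) (d5 : 0 < (S + T + 1)*(2*S*T + S + T + 1)) (d9 : 0 < T*(-S^(2:ℕ)*T + S*T + S + T + 1)) :
    ((S + 1)*(T + 1)*(S*T + S + 1))/((S + T + 1)*(2*S*T + S + T + 1)) < 1 := rlt1 d5 d9 d5 (by ring)

theorem G1_sP (S T : ℝ) (q0 : 0 < ((S*T + T + 1))/((S + 1)*(T + 1))) (q1 : ((S*T + T + 1))/((S + 1)*(T + 1)) < 1) (q2 : 0 < ((S + 1)*(T + 1)*(S*T + S + 1))/((S + T + 1)*(2*S*T + S + T + 1))) (q3 : ((S + 1)*(T + 1)*(S*T + S + 1))/((S + T + 1)*(2*S*T + S + T + 1)) < 1) :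
    Sq (((S*T + T + 1))/((S + 1)*(T + 1)), ((S + 1)*(T + 1)*(S*T + S + 1))/((S + T + 1)*(2*S*T + S + T + 1))) := ⟨⟨q0, q1⟩, q2, q3⟩

theorem G1_d10 (S T : ℝ) (c4 : 0 < S*T^(2:ℕ) - S^(2:ℕ) + S*T + T^(2:ℕ) + 2*T + 1) :
    0 < (S*T^(2:ℕ) - S^(2:ℕ) + S*T + T^(2:ℕ) + 2*T + 1) := c4

theorem G1_g0 (S T : ℝ) (d0 : 0 < (S + 1)*(T + 1)) (d10 : 0 < (S*T^(2:ℕ) - S^(2:ℕ) + S*T + T^(2:ℕ) + 2*T + 1)) :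
    S < (S + T + 1) * (((S*T + T + 1))/((S + 1)*(T + 1))) := rgt d0 d10 d0 (by ring)

theorem G1_d11 (S T : ℝ) (pS : 0 < S) (pT : 0 < T) (c5 : 0 < S*T^(2:ℕ) + 3*S*T + T^(2:ℕ) + S + 2*T + 1) :
    0 < S*T*(S*T^(2:ℕ) + 3*S*T + T^(2:ℕ) + S + 2*T + 1) := (mul_pos (mul_pos pS pT) c5)

theorem G1_g1 (S T : ℝ) (d5 : 0 < (S + T + 1)*(2*S*T + S + T + 1)) (d11 : 0 < S*T*(S*T^(2:ℕ) + 3*S*T + T^(2:ℕ) + S + 2*T + 1)) :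
    1 < (T + 1) * (((S + 1)*(T + 1)*(S*T + S + 1))/((S + T + 1)*(2*S*T + S + T + 1))) := rgt d5 d11 d5 (by ring)

theorem G1_oP_0 (S T : ℝ) (g0 : S < (S + T + 1) * (((S*T + T + 1))/((S + 1)*(T + 1)))) (g1 : 1 < (T + 1) * (((S + 1)*(T + 1)*(S*T + S + 1))/((S + T + 1)*(2*S*T + S + T + 1)))) :
    cond S T Letter.be (((S*T + T + 1))/((S + 1)*(T + 1)), ((S + 1)*(T + 1)*(S*T + S + 1))/((S + T + 1)*(2*S*T + S + T + 1))) := ⟨g0, g1⟩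

theorem G1_d12 (S T : ℝ) (pS : 0 < S) (pT : 0 < T) (pA : 0 < (S + 1)) (pB : 0 < (T + 1)) :
    0 < S*T*(S + 1)*(T + 1) := (mul_pos (mul_pos (mul_pos pS pT) pA) pB)

theorem G1_g2 (S T : ℝ) (d5 : 0 < (S + T + 1)*(2*S*T + S + T + 1)) (d6 : 0 < (2*S*T + S + T + 1)) (d12 : 0 < S*T*(S + 1)*(T + 1)) :
    S < (S + T + 1) * ((S*(S*T^(2:ℕ) + 3*S*T + T^(2:ℕ) + S + 2*T + 1))/((S + T + 1)*(2*S*T + S + T + 1))) := rgt d5 d12 d6 (by ring)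

theorem G1_d13 (S T : ℝ) (pU : 0 < (S + T + 1)) :
    0 < (S + T + 1) := pU

theorem G1_g3 (S T : ℝ) (d0 : 0 < (S + 1)*(T + 1)) (d2 : 0 < (S + 1)*(T + 1)^(2:ℕ)) (d13 : 0 < (S + T + 1)) :
    (T + 1) * ((S*T)/((S + 1)*(T + 1)^(2:ℕ))) < 1 := rlt d2 d13 d0 (by ring)

theorem G1_oP_1 (S T : ℝ) (g2 : S < (S + T + 1) * ((S*(S*T^(2:ℕ) + 3*S*T + T^(2:ℕ) + S + 2*T + 1))/((S + T + 1)*(2*S*T + S + T + 1)))) (g3 : (T + 1) * ((S*T)/((S + 1)*(T + 1)^(2:ℕ))) < 1) :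
    cond S T Letter.al ((S*(S*T^(2:ℕ) + 3*S*T + T^(2:ℕ) + S + 2*T + 1))/((S + T + 1)*(2*S*T + S + T + 1)), (S*T)/((S + 1)*(T + 1)^(2:ℕ))) := ⟨g2, g3⟩

theorem G1_d14 (S T : ℝ) (pS : 0 < S) (pB : 0 < (T + 1)) (c6 : 0 < S - T + 1) :
    0 < S*(T + 1)*(S - T + 1) := (mul_pos (mul_pos pS pB) c6)

theorem G1_g4 (S T : ℝ) (d6 : 0 < (2*S*T + S + T + 1)) (d14 : 0 < S*(T + 1)*(S - T + 1)) :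
    (S + T + 1) * ((S*T)/((2*S*T + S + T + 1))) < S := rlt d6 d14 d6 (by ring)

theorem G1_oP_2 (S T : ℝ) (g4 : (S + T + 1) * ((S*T)/((2*S*T + S + T + 1))) < S) :
    cond S T Letter.ga ((S*T)/((2*S*T + S + T + 1)), (T)/((T + 1))) := g4

theorem G1_oP (S T : ℝ) (f3 : fl S T Letter.be (((S*T + T + 1))/((S + 1)*(T + 1)), ((S + 1)*(T + 1)*(S*T + S + 1))/((S + T + 1)*(2*S*T + S + T + 1))) = ((S*(S*T^(2:ℕ) + 3*S*T + T^(2:ℕ) + S + 2*T + 1))/((S + T + 1)*(2*S*T + S + T + 1)), (S*T)/((S + 1)*(T + 1)^(2:ℕ)))) (f4 : fl S T Letter.al ((S*(S*T^(2:ℕ) + 3*S*T + T^(2:ℕ) + S + 2*T + 1))/((S + T + 1)*(2*S*T + S + T + 1)), (S*T)/((S + 1)*(T + 1)^(2:ℕ))) = ((S*T)/((2*S*T + S + T + 1)), (T)/((T + 1)))) (oP_0 : cond S T Letter.be (((S*T + T +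 1))/((S + 1)*(T + 1)), ((S + 1)*(T + 1)*(S*T + S + 1))/((S + T + 1)*(2*S*T + S + T + 1)))) (oP_1 : cond S T Letter.al ((S*(S*T^(2:ℕ) + 3*S*T + T^(2:ℕ) + S + 2*T + 1))/((S + T + 1)*(2*S*T + S + T + 1)), (S*T)/((S + 1)*(T + 1)^(2:ℕ)))) (oP_2 : cond S T Letter.ga ((S*T)/((2*S*T + S + T + 1)), (T)/((T + 1)))) :
    okc S T [Letter.be, Letter.al, Letter.ga] (((S*T + T + 1))/((S + 1)*(T + 1)), ((S + 1)*(T + 1)*(S*T + S + 1))/((S + T + 1)*(2*S*T + S + T + 1))) := (okc_cons' oP_0 f3 (okc_cons' oP_1 f4 (okc_last' oP_2)))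

theorem G1_d15 (S T : ℝ) (pU : 0 < (S + T + 1)) (c0 : 0 < 2*S*T + S + T + 1) :
    0 < (S + T + 1)^(2:ℕ)*(2*S*T + S + T + 1) := (mul_pos (pow_pos pU 2) c0)

theorem G1_f6 (S T : ℝ) (pT : 0 < T) (d0 : 0 < (S + 1)*(T + 1)) (d2 : 0 < (S + 1)*(T + 1)^(2:ℕ)) (d15 : 0 < (S + T + 1)^(2:ℕ)*(2*S*T + S + T + 1)) :
    fl S T Letter.be (((S*T + T + 1))/((S + 1)*(T + 1)), ((-S^(3:ℕ)*T^(3:ℕ) + S^(2:ℕ)*T^(3:ℕ) + 2*S^(3:ℕ)*T + 3*S^(2:ℕ)*T^(2:ℕ) + S*T^(3:ℕ) + S^(3:ℕ) + 6*S^(2:ℕ)*T + 4*S*T^(2:ℕ) + 3*S^(2:ℕ) + 6*S*T + T^(2:ℕ) + 3*S + 2*T + 1))/((S + T + 1)^(2:ℕ)*(2*S*T + S + T + 1))) = ((S*(-S^(2:ℕ)*T^(3:ℕ) - S^(2:ℕ)*T^(2:ℕ) + S*T^(3:ℕ) + 2*S^(2:ℕ)*T + 4*S*T^(2:ℕ) + T^(3:ℕ) + S^(2:ℕ) + 5*S*T + 3*T^(2:ℕ) + 2*S + 3*T + 1))/((S + T + 1)^(2:ℕ)*(2*S*T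 + S + T + 1)), (S*T)/((S + 1)*(T + 1)^(2:ℕ))) := fl_be' pT d0 d15 d15 d2 (by ring) (by ring)

theorem G1_d16 (S T : ℝ) (pA : 0 < (S + 1)) (pU : 0 < (S + T + 1)) (c0 : 0 < 2*S*T + S + T + 1) :
    0 < (S + 1)*(S + T + 1)*(2*S*T + S + T + 1) := (mul_pos (mul_pos pA pU) c0)

theorem G1_f7 (S T : ℝ) (pS : 0 < S) (pT : 0 < T) (d2 : 0 < (S + 1)*(T + 1)^(2:ℕ)) (d4 : 0 < (T + 1)) (d15 : 0 < (S + T + 1)^(2:ℕ)*(2*S*T + S + T + 1)) (d16 : 0 < (S + 1)*(S + T + 1)*(2*S*T + S + T + 1)) :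
    fl S T Letter.al ((S*(-S^(2:ℕ)*T^(3:ℕ) - S^(2:ℕ)*T^(2:ℕ) + S*T^(3:ℕ) + 2*S^(2:ℕ)*T + 4*S*T^(2:ℕ) + T^(3:ℕ) + S^(2:ℕ) + 5*S*T + 3*T^(2:ℕ) + 2*S + 3*T + 1))/((S + T + 1)^(2:ℕ)*(2*S*T + S + T + 1)), (S*T)/((S + 1)*(T + 1)^(2:ℕ))) = ((S*T*(-S^(2:ℕ)*T + S*T + S + T + 1))/((S + 1)*(S + T + 1)*(2*S*T + S + T + 1)), (T)/((T + 1))) := fl_al' pS pT d15 d2 d16 d4 (by ring) (by ring)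

theorem G1_f8 (S T : ℝ) (pS : 0 < S) (d0 : 0 < (S + 1)*(T + 1)) (d4 : 0 < (T + 1)) (d5 : 0 < (S + T + 1)*(2*S*T + S + T + 1)) (d16 : 0 < (S + 1)*(S + T + 1)*(2*S*T + S + T + 1)) :
    fl S T Letter.ga ((S*T*(-S^(2:ℕ)*T + S*T + S + T + 1))/((S + 1)*(S + T + 1)*(2*S*T + S + T + 1)), (T)/((T + 1))) = (((S*T + T + 1))/((S + 1)*(T + 1)), ((S + 1)*(T + 1)*(S*T + S + 1))/((S + T + 1)*(2*S*T + S + T + 1))) := fl_ga' pS d16 d4 d0 d5 (by ring) (by ring)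

theorem G1_d17 (S T : ℝ) (c7 : 0 < -S^(3:ℕ)*T^(3:ℕ) + S^(2:ℕ)*T^(3:ℕ) + 2*S^(3:ℕ)*T + 3*S^(2:ℕ)*T^(2:ℕ) + S*T^(3:ℕ) + S^(3:ℕ) + 6*S^(2:ℕ)*T + 4*S*T^(2:ℕ) + 3*S^(2:ℕ) + 6*S*T + T^(2:ℕ) + 3*S + 2*T + 1) :
    0 < (-S^(3:ℕ)*T^(3:ℕ) + S^(2:ℕ)*T^(3:ℕ) + 2*S^(3:ℕ)*T + 3*S^(2:ℕ)*T^(2:ℕ) + S*T^(3:ℕ) + S^(3:ℕ) + 6*S^(2:ℕ)*T + 4*S*T^(2:ℕ) + 3*S^(2:ℕ) + 6*S*T + T^(2:ℕ) + 3*S + 2*T + 1) := c7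

theorem G1_q4 (S T : ℝ) (d15 : 0 < (S + T + 1)^(2:ℕ)*(2*S*T + S + T + 1)) (d17 : 0 < (-S^(3:ℕ)*T^(3:ℕ) + S^(2:ℕ)*T^(3:ℕ) + 2*S^(3:ℕ)*T + 3*S^(2:ℕ)*T^(2:ℕ) + S*T^(3:ℕ) + S^(3:ℕ) + 6*S^(2:ℕ)*T + 4*S*T^(2:ℕ) + 3*S^(2:ℕ) + 6*S*T + T^(2:ℕ) + 3*S + 2*T + 1)) :
    0 < ((-S^(3:ℕ)*T^(3:ℕ) + S^(2:ℕ)*T^(3:ℕ) + 2*S^(3:ℕ)*T + 3*S^(2:ℕ)*T^(2:ℕ) + S*T^(3:ℕ) + S^(3:ℕ) + 6*S^(2:ℕ)*T + 4*S*T^(2:ℕ) + 3*S^(2:ℕ) + 6*S*T + T^(2:ℕ) + 3*S + 2*T + 1))/((S + T + 1)^(2:ℕ)*(2*S*T + S + T + 1)) := div_pos d17 d15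

theorem G1_d18 (S T : ℝ) (pT : 0 < T) (c8 : 0 < S^(3:ℕ)*T^(2:ℕ) - S^(2:ℕ)*T^(2:ℕ) + S^(2:ℕ)*T + S*T^(2:ℕ) + S^(2:ℕ) + 3*S*T + T^(2:ℕ) + 2*S + 2*T + 1) :
    0 < T*(S^(3:ℕ)*T^(2:ℕ) - S^(2:ℕ)*T^(2:ℕ) + S^(2:ℕ)*T + S*T^(2:ℕ) + S^(2:ℕ) + 3*S*T + T^(2:ℕ) + 2*S + 2*T + 1) := (mul_pos pT c8)

theorem G1_q5 (S T : ℝ) (d15 : 0 < (S + T + 1)^(2:ℕ)*(2*S*T + S + T + 1)) (d18 : 0 < T*(S^(3:ℕ)*T^(2:ℕ) - S^(2:ℕ)*T^(2:ℕ) + S^(2:ℕ)*T + S*T^(2:ℕ) + S^(2:ℕ) + 3*S*T + T^(2:ℕ) + 2*S + 2*T + 1)) :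
    ((-S^(3:ℕ)*T^(3:ℕ) + S^(2:ℕ)*T^(3:ℕ) + 2*S^(3:ℕ)*T + 3*S^(2:ℕ)*T^(2:ℕ) + S*T^(3:ℕ) + S^(3:ℕ) + 6*S^(2:ℕ)*T + 4*S*T^(2:ℕ) + 3*S^(2:ℕ) + 6*S*T + T^(2:ℕ) + 3*S + 2*T + 1))/((S + T + 1)^(2:ℕ)*(2*S*T + S + T + 1)) < 1 := rlt1 d15 d18 d15 (by ring)

theorem G1_sQ (S T : ℝ) (q0 : 0 < ((S*T + T + 1))/((S + 1)*(T + 1))) (q1 : ((S*T + T + 1))/((S + 1)*(T + 1)) < 1) (q4 : 0 < ((-S^(3:ℕ)*T^(3:ℕ) + S^(2:ℕ)*T^(3:ℕ) + 2*S^(3:ℕ)*T + 3*S^(2:ℕ)*T^(2:ℕ) + S*T^(3:ℕ) + S^(3:ℕ) + 6*S^(2:ℕ)*T + 4*S*T^(2:ℕ) + 3*S^(2:ℕ) + 6*S*T + T^(2:ℕ) + 3*S + 2*T + 1))/((S + T + 1)^(2:ℕ)*(2*S*T + S + T + 1))) (q5 : ((-S^(3:ℕ)*T^(3:ℕ) + S^(2:ℕ)*T^(3:ℕ) + 2*S^(3:ℕ)*T + 3*S^(2:ℕ)*T^(2:ℕ) + S*T^(3:ℕ) + S^(3:ℕ) + 6*S^(2:ℕ)*T + 4*S*T^(2:ℕ) + 3*S^(2:ℕ) + 6*S*T +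 T^(2:ℕ) + 3*S + 2*T + 1))/((S + T + 1)^(2:ℕ)*(2*S*T + S + T + 1)) < 1) :
    Sq (((S*T + T + 1))/((S + 1)*(T + 1)), ((-S^(3:ℕ)*T^(3:ℕ) + S^(2:ℕ)*T^(3:ℕ) + 2*S^(3:ℕ)*T + 3*S^(2:ℕ)*T^(2:ℕ) + S*T^(3:ℕ) + S^(3:ℕ) + 6*S^(2:ℕ)*T + 4*S*T^(2:ℕ) + 3*S^(2:ℕ) + 6*S*T + T^(2:ℕ) + 3*S + 2*T + 1))/((S + T + 1)^(2:ℕ)*(2*S*T + S + T + 1))) := ⟨⟨q0, q1⟩, q4, q5⟩

theorem G1_d19 (S T : ℝ) (pS : 0 < S) (pT : 0 < T) (c9 : 0 < -S^(2:ℕ)*T^(3:ℕ) - S^(2:ℕ)*T^(2:ℕ) + S*T^(3:ℕ) + 2*S^(2:ℕ)*T + 4*S*T^(2:ℕ) + T^(3:ℕ) + S^(2:ℕ) + 5*S*T + 3*T^(2:ℕ) + 2*S + 3*T + 1) :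
    0 < S*T*(-S^(2:ℕ)*T^(3:ℕ) - S^(2:ℕ)*T^(2:ℕ) + S*T^(3:ℕ) + 2*S^(2:ℕ)*T + 4*S*T^(2:ℕ) + T^(3:ℕ) + S^(2:ℕ) + 5*S*T + 3*T^(2:ℕ) + 2*S + 3*T + 1) := (mul_pos (mul_pos pS pT) c9)

theorem G1_g5 (S T : ℝ) (d15 : 0 < (S + T + 1)^(2:ℕ)*(2*S*T + S + T + 1)) (d19 : 0 < S*T*(-S^(2:ℕ)*T^(3:ℕ) - S^(2:ℕ)*T^(2:ℕ) + S*T^(3:ℕ) + 2*S^(2:ℕ)*T + 4*S*T^(2:ℕ) + T^(3:ℕ) + S^(2:ℕ) + 5*S*T + 3*T^(2:ℕ) + 2*S + 3*T + 1)) :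
    1 < (T + 1) * (((-S^(3:ℕ)*T^(3:ℕ) + S^(2:ℕ)*T^(3:ℕ) + 2*S^(3:ℕ)*T + 3*S^(2:ℕ)*T^(2:ℕ) + S*T^(3:ℕ) + S^(3:ℕ) + 6*S^(2:ℕ)*T + 4*S*T^(2:ℕ) + 3*S^(2:ℕ) + 6*S*T + T^(2:ℕ) + 3*S + 2*T + 1))/((S + T + 1)^(2:ℕ)*(2*S*T + S + T + 1))) := rgt d15 d19 d15 (by ring)

theorem G1_oQ_0 (S T : ℝ) (g0 : S < (S + T + 1) * (((S*T + T + 1))/((S + 1)*(T + 1)))) (g5 : 1 < (T + 1) * (((-S^(3:ℕ)*T^(3:ℕ) + S^(2:ℕ)*T^(3:ℕ) + 2*S^(3:ℕ)*T + 3*S^(2:ℕ)*T^(2:ℕ) + S*T^(3:ℕ) + S^(3:ℕ) + 6*S^(2:ℕ)*T + 4*S*T^(2:ℕ) + 3*S^(2:ℕ) + 6*S*T + T^(2:ℕ) + 3*S + 2*T + 1))/((S + T + 1)^(2:ℕ)*(2*S*T + S + T + 1)))) :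
    cond S T Letter.be (((S*T + T + 1))/((S + 1)*(T + 1)), ((-S^(3:ℕ)*T^(3:ℕ) + S^(2:ℕ)*T^(3:ℕ) + 2*S^(3:ℕ)*T + 3*S^(2:ℕ)*T^(2:ℕ) + S*T^(3:ℕ) + S^(3:ℕ) + 6*S^(2:ℕ)*T + 4*S*T^(2:ℕ) + 3*S^(2:ℕ) + 6*S*T + T^(2:ℕ) + 3*S + 2*T + 1))/((S + T + 1)^(2:ℕ)*(2*S*T + S + T + 1))) := ⟨g0, g5⟩

theorem G1_d20 (S T : ℝ) (pS : 0 < S) (pT : 0 < T) (pB : 0 < (T + 1)) (c3 : 0 < -S^(2:ℕ)*T + S*T + S + T + 1) :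
    0 < S*T*(T + 1)*(-S^(2:ℕ)*T + S*T + S + T + 1) := (mul_pos (mul_pos (mul_pos pS pT) pB) c3)

theorem G1_g6 (S T : ℝ) (d5 : 0 < (S + T + 1)*(2*S*T + S + T + 1)) (d15 : 0 < (S + T + 1)^(2:ℕ)*(2*S*T + S + T + 1)) (d20 : 0 < S*T*(T + 1)*(-S^(2:ℕ)*T + S*T + S + T + 1)) :
    S < (S + T + 1) * ((S*(-S^(2:ℕ)*T^(3:ℕ) - S^(2:ℕ)*T^(2:ℕ) + S*T^(3:ℕ) + 2*S^(2:ℕ)*T + 4*S*T^(2:ℕ) + T^(3:ℕ) + S^(2:ℕ) + 5*S*T + 3*T^(2:ℕ) + 2*S + 3*T + 1))/((S + T + 1)^(2:ℕ)*(2*S*T + S + T + 1))) := rgt d15 d20 d5 (by ring)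

theorem G1_oQ_1 (S T : ℝ) (g3 : (T + 1) * ((S*T)/((S + 1)*(T + 1)^(2:ℕ))) < 1) (g6 : S < (S + T + 1) * ((S*(-S^(2:ℕ)*T^(3:ℕ) - S^(2:ℕ)*T^(2:ℕ) + S*T^(3:ℕ) + 2*S^(2:ℕ)*T + 4*S*T^(2:ℕ) + T^(3:ℕ) + S^(2:ℕ) + 5*S*T + 3*T^(2:ℕ) + 2*S + 3*T + 1))/((S + T + 1)^(2:ℕ)*(2*S*T + S + T + 1)))) :
    cond S T Letter.al ((S*(-S^(2:ℕ)*T^(3:ℕ) - S^(2:ℕ)*T^(2:ℕ) + S*T^(3:ℕ) + 2*S^(2:ℕ)*T + 4*S*T^(2:ℕ) + T^(3:ℕ) + S^(2:ℕ) + 5*S*T + 3*T^(2:ℕ) + 2*S + 3*T + 1))/((S + T + 1)^(2:ℕ)*(2*S*T + S + T + 1)), (S*T)/((S + 1)*(T + 1)^(2:ℕ))) := ⟨g6, g3⟩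

theorem G1_d21 (S T : ℝ) (pS : 0 < S) (c10 : 0 < S^(2:ℕ)*T^(2:ℕ) + 2*S^(2:ℕ)*T - S*T^(2:ℕ) + S^(2:ℕ) + 2*S*T - T^(2:ℕ) + 2*S + 1) :
    0 < S*(S^(2:ℕ)*T^(2:ℕ) + 2*S^(2:ℕ)*T - S*T^(2:ℕ) + S^(2:ℕ) + 2*S*T - T^(2:ℕ) + 2*S + 1) := (mul_pos pS c10)

theorem G1_d22 (S T : ℝ) (pA : 0 < (S + 1)) (c0 : 0 < 2*S*T + S + T + 1) :
    0 < (S + 1)*(2*S*T + S + T + 1) := (mul_pos pA c0)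

theorem G1_g7 (S T : ℝ) (d16 : 0 < (S + 1)*(S + T + 1)*(2*S*T + S + T + 1)) (d21 : 0 < S*(S^(2:ℕ)*T^(2:ℕ) + 2*S^(2:ℕ)*T - S*T^(2:ℕ) + S^(2:ℕ) + 2*S*T - T^(2:ℕ) + 2*S + 1)) (d22 : 0 < (S + 1)*(2*S*T + S + T + 1)) :
    (S + T + 1) * ((S*T*(-S^(2:ℕ)*T + S*T + S + T + 1))/((S + 1)*(S + T + 1)*(2*S*T + S + T + 1))) < S := rlt d16 d21 d22 (by ring)

theorem G1_oQ_2 (S T : ℝ) (g7 : (S + T + 1) * ((S*T*(-S^(2:ℕ)*T + S*T + S + T + 1))/((S + 1)*(S + T + 1)*(2*S*T + S + T + 1))) < S) :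
    cond S T Letter.ga ((S*T*(-S^(2:ℕ)*T + S*T + S + T + 1))/((S + 1)*(S + T + 1)*(2*S*T + S + T + 1)), (T)/((T + 1))) := g7

theorem G1_oQ (S T : ℝ) (f6 : fl S T Letter.be (((S*T + T + 1))/((S + 1)*(T + 1)), ((-S^(3:ℕ)*T^(3:ℕ) + S^(2:ℕ)*T^(3:ℕ) + 2*S^(3:ℕ)*T + 3*S^(2:ℕ)*T^(2:ℕ) + S*T^(3:ℕ) + S^(3:ℕ) + 6*S^(2:ℕ)*T + 4*S*T^(2:ℕ) + 3*S^(2:ℕ) + 6*S*T + T^(2:ℕ) + 3*S + 2*T + 1))/((S + T + 1)^(2:ℕ)*(2*S*T + S + T + 1))) = ((S*(-S^(2:ℕ)*T^(3:ℕ) - S^(2:ℕ)*T^(2:ℕ) + S*T^(3:ℕ) + 2*S^(2:ℕ)*T + 4*S*T^(2:ℕ) + T^(3:ℕ) + S^(2:ℕ) + 5*S*T + 3*T^(2:ℕ) + 2*S + 3*T + 1))/((S + T + 1)^(2:ℕ)*(2*S*T + S + T + 1)), (S*T)/((S + 1)*(T + 1)^(2:ℕ)))) (f7 : fl S T Letter.al ((S*(-S^(2:ℕ)*T^(3:ℕ) - S^(2:ℕ)*T^(2:ℕ) + S*T^(3:ℕ) + 2*S^(2:ℕ)*T + 4*S*T^(2:ℕ)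 + T^(3:ℕ) + S^(2:ℕ) + 5*S*T + 3*T^(2:ℕ) + 2*S + 3*T + 1))/((S + T + 1)^(2:ℕ)*(2*S*T + S + T + 1)), (S*T)/((S + 1)*(T + 1)^(2:ℕ))) = ((S*T*(-S^(2:ℕ)*T + S*T + S + T + 1))/((S + 1)*(S + T + 1)*(2*S*T + S + T + 1)), (T)/((T + 1)))) (oQ_0 : cond S T Letter.be (((S*T + T + 1))/((S + 1)*(T + 1)), ((-S^(3:ℕ)*T^(3:ℕ) + S^(2:ℕ)*T^(3:ℕ) + 2*S^(3:ℕ)*T + 3*S^(2:ℕ)*T^(2:ℕ) + S*T^(3:ℕ) + S^(3:ℕ) + 6*S^(2:ℕ)*T + 4*S*T^(2:ℕ) + 3*S^(2:ℕ) + 6*S*T + T^(2:ℕ) + 3*S + 2*T + 1))/((S + T + 1)^(2:ℕ)*(2*S*T + S + T + 1)))) (oQ_1 : cond S T Letter.al ((S*(-S^(2:ℕ)*T^(3:ℕ) - S^(2:ℕ)*T^(2:ℕ) + S*T^(3:ℕ) + 2*S^(2:ℕ)*T + 4*S*T^(2:ℕ) + T^(3:ℕ) + S^(2:ℕ) + 5*S*T + 3*T^(2:ℕ) + 2*S + 3*T + 1))/((S + T + 1)^(2:ℕ)*(2*S*T + S + T + 1)), (S*T)/((S + 1)*(T + 1)^(2:ℕ))))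 (oQ_2 : cond S T Letter.ga ((S*T*(-S^(2:ℕ)*T + S*T + S + T + 1))/((S + 1)*(S + T + 1)*(2*S*T + S + T + 1)), (T)/((T + 1)))) :
    okc S T [Letter.be, Letter.al, Letter.ga] (((S*T + T + 1))/((S + 1)*(T + 1)), ((-S^(3:ℕ)*T^(3:ℕ) + S^(2:ℕ)*T^(3:ℕ) + 2*S^(3:ℕ)*T + 3*S^(2:ℕ)*T^(2:ℕ) + S*T^(3:ℕ) + S^(3:ℕ) + 6*S^(2:ℕ)*T + 4*S*T^(2:ℕ) + 3*S^(2:ℕ) + 6*S*T + T^(2:ℕ) + 3*S + 2*T + 1))/((S + T + 1)^(2:ℕ)*(2*S*T + S + T + 1))) := (okc_cons' oQ_0 f6 (okc_cons' oQ_1 f7 (okc_last' oQ_2)))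

theorem G1_rE (S T : ℝ)  :
    run S T [] (((S*T + T + 1))/((S + 1)*(T + 1)), ((S*T + S + 1))/((2*S*T + S + T + 1))) = (((S*T + T + 1))/((S + 1)*(T + 1)), ((S*T + S + 1))/((2*S*T + S + T + 1))) := run_nil'

theorem G1_d23 (S T : ℝ) (c2 : 0 < S*T + S + 1) :
    0 < (S*T + S + 1) := c2

theorem G1_q6 (S T : ℝ) (d6 : 0 < (2*S*T + S + T + 1)) (d23 : 0 < (S*T + S + 1)) :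
    0 < ((S*T + S + 1))/((2*S*T + S + T + 1)) := div_pos d23 d6

theorem G1_d24 (S T : ℝ) (pT : 0 < T) (pA : 0 < (S + 1)) :
    0 < T*(S + 1) := (mul_pos pT pA)

theorem G1_q7 (S T : ℝ) (d6 : 0 < (2*S*T + S + T + 1)) (d24 : 0 < T*(S + 1)) :
    ((S*T + S + 1))/((2*S*T + S + T + 1)) < 1 := rlt1 d6 d24 d6 (by ring)

theorem G1_sq (S T : ℝ) (q0 : 0 < ((S*T + T + 1))/((S + 1)*(T + 1))) (q1 : ((S*T + T + 1))/((S + 1)*(T + 1)) < 1) (q6 : 0 < ((S*T + S + 1))/((2*S*T + S + T + 1))) (q7 : ((S*T + S + 1))/((2*S*T + S + T + 1)) < 1) :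
    Sq (((S*T + T + 1))/((S + 1)*(T + 1)), ((S*T + S + 1))/((2*S*T + S + T + 1))) := ⟨⟨q0, q1⟩, q6, q7⟩

theorem G1_oE (S T : ℝ)  :
    okc S T [] (((S*T + T + 1))/((S + 1)*(T + 1)), ((S*T + S + 1))/((2*S*T + S + T + 1))) := trivial

theorem G1_f9 (S T : ℝ) (pT : 0 < T) (d6 : 0 < (2*S*T + S + T + 1)) :
    fl S T Letter.be (((S*T + T + 1))/((2*S*T + S + T + 1)), ((S*T + S + 1))/((2*S*T + S + T + 1))) = ((S*T)/((2*S*T + S + T + 1)), (S*T)/((2*S*T + S + T + 1))) := fl_be' pT d6 d6 d6 d6 (by ring) (by ring)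

theorem G1_f10 (S T : ℝ) (pS : 0 < S) (d6 : 0 < (2*S*T + S + T + 1)) :
    fl S T Letter.ga ((S*T)/((2*S*T + S + T + 1)), (S*T)/((2*S*T + S + T + 1))) = (((S*T + T + 1))/((2*S*T + S + T + 1)), ((S*T + S + 1))/((2*S*T + S + T + 1))) := fl_ga' pS d6 d6 d6 d6 (by ring) (by ring)

theorem G1_rB (S T : ℝ) (f9 : fl S T Letter.be (((S*T + T + 1))/((2*S*T + S + T + 1)), ((S*T + S + 1))/((2*S*T + S + T + 1))) = ((S*T)/((2*S*T + S + T + 1)), (S*T)/((2*S*T + S + T + 1)))) (f10 : fl S T Letter.ga ((S*T)/((2*S*T + S + T + 1)), (S*T)/((2*S*T + S + T + 1))) = (((S*T + T + 1))/((2*S*T + S + T + 1)), ((S*T + S + 1))/((2*S*T + S + T + 1)))) :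
    run S T [Letter.be, Letter.ga] (((S*T + T + 1))/((2*S*T + S + T + 1)), ((S*T + S + 1))/((2*S*T + S + T + 1))) = (((S*T + T + 1))/((2*S*T + S + T + 1)), ((S*T + S + 1))/((2*S*T + S + T + 1))) := (run_cons' f9 (run_cons' f10 run_nil'))

theorem G1_f11 (S T : ℝ) (pT : 0 < T) (d0 : 0 < (S + 1)*(T + 1)) (d2 : 0 < (S + 1)*(T + 1)^(2:ℕ)) (d6 : 0 < (2*S*T + S + T + 1)) :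
    fl S T Letter.be (((S*T + T + 1))/((S + 1)*(T + 1)), ((S*T + S + 1))/((2*S*T + S + T + 1))) = ((S*T)/((2*S*T + S + T + 1)), (S*T)/((S + 1)*(T + 1)^(2:ℕ))) := fl_be' pT d0 d6 d6 d2 (by ring) (by ring)

theorem G1_d25 (S T : ℝ) (pA : 0 < (S + 1)) (pB : 0 < (T + 1)) :
    0 < (S + 1)^(2:ℕ)*(T + 1)^(2:ℕ) := (mul_pos (pow_pos pA 2) (pow_pos pB 2))

theorem G1_f12 (S T : ℝ) (pS : 0 < S) (d2 : 0 < (S + 1)*(T + 1)^(2:ℕ)) (d6 : 0 < (2*S*T + S + T + 1)) (d25 : 0 < (S + 1)^(2:ℕ)*(T + 1)^(2:ℕ)) :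
    fl S T Letter.ga ((S*T)/((2*S*T + S + T + 1)), (S*T)/((S + 1)*(T + 1)^(2:ℕ))) = (((S + T + 1)*(S*T + T + 1))/((S + 1)^(2:ℕ)*(T + 1)^(2:ℕ)), ((S*T + S + 1))/((2*S*T + S + T + 1))) := fl_ga' pS d6 d2 d25 d6 (by ring) (by ring)

theorem G1_rr (S T : ℝ) (f11 : fl S T Letter.be (((S*T + T + 1))/((S + 1)*(T + 1)), ((S*T + S + 1))/((2*S*T + S + T + 1))) = ((S*T)/((2*S*T + S + T + 1)), (S*T)/((S + 1)*(T + 1)^(2:ℕ)))) (f12 : fl S T Letter.ga ((S*T)/((2*S*T + S + T + 1)), (S*T)/((S + 1)*(T + 1)^(2:ℕ))) = (((S + T + 1)*(S*T + T + 1))/((S + 1)^(2:ℕ)*(T + 1)^(2:ℕ)), ((S*T + S + 1))/((2*S*T + S + T + 1)))) :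
    run S T [Letter.be, Letter.ga] (((S*T + T + 1))/((S + 1)*(T + 1)), ((S*T + S + 1))/((2*S*T + S + T + 1))) = (((S + T + 1)*(S*T + T + 1))/((S + 1)^(2:ℕ)*(T + 1)^(2:ℕ)), ((S*T + S + 1))/((2*S*T + S + T + 1))) := (run_cons' f11 (run_cons' f12 run_nil'))

theorem G1_sr (S T : ℝ) (q0 : 0 < ((S*T + T + 1))/((S + 1)*(T + 1))) (q1 : ((S*T + T + 1))/((S + 1)*(T + 1)) < 1) (q6 : 0 < ((S*T + S + 1))/((2*S*T + S + T + 1))) (q7 : ((S*T + S + 1))/((2*S*T + S + T + 1)) < 1) :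
    Sq (((S*T + T + 1))/((S + 1)*(T + 1)), ((S*T + S + 1))/((2*S*T + S + T + 1))) := ⟨⟨q0, q1⟩, q6, q7⟩

theorem G1_d26 (S T : ℝ) (pS : 0 < S) (pT : 0 < T) :
    0 < S*T^(2:ℕ) := (mul_pos pS (pow_pos pT 2))

theorem G1_g8 (S T : ℝ) (d6 : 0 < (2*S*T + S + T + 1)) (d26 : 0 < S*T^(2:ℕ)) :
    1 < (T + 1) * (((S*T + S + 1))/((2*S*T + S + T + 1))) := rgt d6 d26 d6 (by ring)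

theorem G1_orr_0 (S T : ℝ) (g0 : S < (S + T + 1) * (((S*T + T + 1))/((S + 1)*(T + 1)))) (g8 : 1 < (T + 1) * (((S*T + S + 1))/((2*S*T + S + T + 1)))) :
    cond S T Letter.be (((S*T + T + 1))/((S + 1)*(T + 1)), ((S*T + S + 1))/((2*S*T + S + T + 1))) := ⟨g0, g8⟩

theorem G1_orr_1 (S T : ℝ) (g4 : (S + T + 1) * ((S*T)/((2*S*T + S + T + 1))) < S) :
    cond S T Letter.ga ((S*T)/((2*S*T + S + T + 1)), (S*T)/((S + 1)*(T + 1)^(2:ℕ))) := g4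

theorem G1_orr (S T : ℝ) (f11 : fl S T Letter.be (((S*T + T + 1))/((S + 1)*(T + 1)), ((S*T + S + 1))/((2*S*T + S + T + 1))) = ((S*T)/((2*S*T + S + T + 1)), (S*T)/((S + 1)*(T + 1)^(2:ℕ)))) (orr_0 : cond S T Letter.be (((S*T + T + 1))/((S + 1)*(T + 1)), ((S*T + S + 1))/((2*S*T + S + T + 1)))) (orr_1 : cond S T Letter.ga ((S*T)/((2*S*T + S + T + 1)), (S*T)/((S + 1)*(T + 1)^(2:ℕ)))) :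
    okc S T [Letter.be, Letter.ga] (((S*T + T + 1))/((S + 1)*(T + 1)), ((S*T + S + 1))/((2*S*T + S + T + 1))) := (okc_cons' orr_0 f11 (okc_last' orr_1))

theorem G1_d27 (S T : ℝ) (pA : 0 < (S + 1)) (pB : 0 < (T + 1)) :
    0 < (S + 1)^(2:ℕ)*(T + 1)^(3:ℕ) := (mul_pos (pow_pos pA 2) (pow_pos pB 3))

theorem G1_f13 (S T : ℝ) (pT : 0 < T) (d6 : 0 < (2*S*T + S + T + 1)) (d25 : 0 < (S + 1)^(2:ℕ)*(T + 1)^(2:ℕ)) (d27 : 0 < (S + 1)^(2:ℕ)*(T + 1)^(3:ℕ)) :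
    fl S T Letter.be (((S + T + 1)*(S*T + T + 1))/((S + 1)^(2:ℕ)*(T + 1)^(2:ℕ)), ((S*T + S + 1))/((2*S*T + S + T + 1))) = ((S*T)/((2*S*T + S + T + 1)), (S*T*(S*T^(2:ℕ) + S*T + T^(2:ℕ) + S + 2*T + 1))/((S + 1)^(2:ℕ)*(T + 1)^(3:ℕ))) := fl_be' pT d25 d6 d6 d27 (by ring) (by ring)

theorem G1_d28 (S T : ℝ) (pA : 0 < (S + 1)) (pB : 0 < (T + 1)) :
    0 < (S + 1)^(3:ℕ)*(T + 1)^(3:ℕ) := (mul_pos (pow_pos pA 3) (pow_pos pB 3))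

theorem G1_f14 (S T : ℝ) (pS : 0 < S) (d6 : 0 < (2*S*T + S + T + 1)) (d27 : 0 < (S + 1)^(2:ℕ)*(T + 1)^(3:ℕ)) (d28 : 0 < (S + 1)^(3:ℕ)*(T + 1)^(3:ℕ)) :
    fl S T Letter.ga ((S*T)/((2*S*T + S + T + 1)), (S*T*(S*T^(2:ℕ) + S*T + T^(2:ℕ) + S + 2*T + 1))/((S + 1)^(2:ℕ)*(T + 1)^(3:ℕ))) = (((S^(3:ℕ)*T^(3:ℕ) + S^(3:ℕ)*T^(2:ℕ) + 2*S^(2:ℕ)*T^(3:ℕ) + S^(3:ℕ)*T + 5*S^(2:ℕ)*T^(2:ℕ) + 2*S*T^(3:ℕ) + 4*S^(2:ℕ)*T + 6*S*T^(2:ℕ) + T^(3:ℕ) + S^(2:ℕ) + 6*S*T + 3*T^(2:ℕ) + 2*S + 3*T + 1))/((S + 1)^(3:ℕ)*(T + 1)^(3:ℕ)), ((S*T + S + 1))/((2*S*T + S + T + 1))) := fl_ga' pS d6 d27 d28 d6 (by ring) (by ring)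

theorem G1_d29 (S T : ℝ) (pU : 0 < (S + T + 1)) (c1 : 0 < S*T + T + 1) :
    0 < (S + T + 1)*(S*T + T + 1) := (mul_pos pU c1)

theorem G1_q8 (S T : ℝ) (d25 : 0 < (S + 1)^(2:ℕ)*(T + 1)^(2:ℕ)) (d29 : 0 < (S + T + 1)*(S*T + T + 1)) :
    0 < ((S + T + 1)*(S*T + T + 1))/((S + 1)^(2:ℕ)*(T + 1)^(2:ℕ)) := div_pos d29 d25

theorem G1_d30 (S T : ℝ) (pS : 0 < S) (c11 : 0 < S*T^(2:ℕ) + S*T + T^(2:ℕ) + S + 2*T + 1) :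
    0 < S*(S*T^(2:ℕ) + S*T + T^(2:ℕ) + S + 2*T + 1) := (mul_pos pS c11)

theorem G1_q9 (S T : ℝ) (d25 : 0 < (S + 1)^(2:ℕ)*(T + 1)^(2:ℕ)) (d30 : 0 < S*(S*T^(2:ℕ) + S*T + T^(2:ℕ) + S + 2*T + 1)) :
    ((S + T + 1)*(S*T + T + 1))/((S + 1)^(2:ℕ)*(T + 1)^(2:ℕ)) < 1 := rlt1 d25 d30 d25 (by ring)

theorem G1_sC (S T : ℝ) (q6 : 0 < ((S*T + S + 1))/((2*S*T + S + T + 1))) (q7 : ((S*T + S + 1))/((2*S*T + S + T + 1)) < 1) (q8 : 0 < ((S + T + 1)*(S*T + T + 1))/((S + 1)^(2:ℕ)*(T + 1)^(2:ℕ))) (q9 : ((S + T + 1)*(S*T + T + 1))/((S + 1)^(2:ℕ)*(T + 1)^(2:ℕ)) < 1) :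
    Sq (((S + T + 1)*(S*T + T + 1))/((S + 1)^(2:ℕ)*(T + 1)^(2:ℕ)), ((S*T + S + 1))/((2*S*T + S + T + 1))) := ⟨⟨q8, q9⟩, q6, q7⟩

theorem G1_d31 (S T : ℝ) (c12 : 0 < -S^(3:ℕ)*T^(2:ℕ) - S^(3:ℕ)*T + S*T^(3:ℕ) - S^(3:ℕ) - S^(2:ℕ)*T + 3*S*T^(2:ℕ) + T^(3:ℕ) - S^(2:ℕ) + 3*S*T + 3*T^(2:ℕ) + S + 3*T + 1) :
    0 < (-S^(3:ℕ)*T^(2:ℕ) - S^(3:ℕ)*T + S*T^(3:ℕ) - S^(3:ℕ) - S^(2:ℕ)*T + 3*S*T^(2:ℕ) + T^(3:ℕ) - S^(2:ℕ) + 3*S*T + 3*T^(2:ℕ) + S + 3*T + 1) := c12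

theorem G1_g9 (S T : ℝ) (d25 : 0 < (S + 1)^(2:ℕ)*(T + 1)^(2:ℕ)) (d31 : 0 < (-S^(3:ℕ)*T^(2:ℕ) - S^(3:ℕ)*T + S*T^(3:ℕ) - S^(3:ℕ) - S^(2:ℕ)*T + 3*S*T^(2:ℕ) + T^(3:ℕ) - S^(2:ℕ) + 3*S*T + 3*T^(2:ℕ) + S + 3*T + 1)) :
    S < (S + T + 1) * (((S + T + 1)*(S*T + T + 1))/((S + 1)^(2:ℕ)*(T + 1)^(2:ℕ))) := rgt d25 d31 d25 (by ring)

theorem G1_oC_0 (S T : ℝ) (g8 : 1 < (T + 1) * (((S*T + S + 1))/((2*S*T + S + T + 1)))) (g9 : S < (S + T + 1) * (((S + T + 1)*(S*T + T + 1))/((S + 1)^(2:ℕ)*(T + 1)^(2:ℕ)))) :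
    cond S T Letter.be (((S + T + 1)*(S*T + T + 1))/((S + 1)^(2:ℕ)*(T + 1)^(2:ℕ)), ((S*T + S + 1))/((2*S*T + S + T + 1))) := ⟨g9, g8⟩

theorem G1_oC_1 (S T : ℝ) (g4 : (S + T + 1) * ((S*T)/((2*S*T + S + T + 1))) < S) :
    cond S T Letter.ga ((S*T)/((2*S*T + S + T + 1)), (S*T*(S*T^(2:ℕ) + S*T + T^(2:ℕ) + S + 2*T + 1))/((S + 1)^(2:ℕ)*(T + 1)^(3:ℕ))) := g4

theorem G1_oC (S T : ℝ) (f13 : fl S T Letter.be (((S + T + 1)*(S*T + T + 1))/((S + 1)^(2:ℕ)*(T + 1)^(2:ℕ)), ((S*T + S + 1))/((2*S*T + S + T + 1))) = ((S*T)/((2*S*T + S + T + 1)), (S*T*(S*T^(2:ℕ) + S*T + T^(2:ℕ) + S + 2*T + 1))/((S + 1)^(2:ℕ)*(T + 1)^(3:ℕ)))) (oC_0 : cond S T Letter.be (((S + T + 1)*(S*T + T + 1))/((S + 1)^(2:ℕ)*(T + 1)^(2:ℕ)), ((S*T + S + 1))/((2*S*T + S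 + T + 1)))) (oC_1 : cond S T Letter.ga ((S*T)/((2*S*T + S + T + 1)), (S*T*(S*T^(2:ℕ) + S*T + T^(2:ℕ) + S + 2*T + 1))/((S + 1)^(2:ℕ)*(T + 1)^(3:ℕ)))) :
    okc S T [Letter.be, Letter.ga] (((S + T + 1)*(S*T + T + 1))/((S + 1)^(2:ℕ)*(T + 1)^(2:ℕ)), ((S*T + S + 1))/((2*S*T + S + T + 1))) := (okc_cons' oC_0 f13 (okc_last' oC_1))

theorem G1_d32 (S T : ℝ) (pA : 0 < (S + 1)) (pB : 0 < (T + 1)) (c0 : 0 < 2*S*T + S + T + 1) :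
    0 < (S + 1)*(T + 1)*(2*S*T + S + T + 1) := (mul_pos (mul_pos pA pB) c0)

theorem G1_vP (S T : ℝ) (d0 : 0 < (S + 1)*(T + 1)) (d5 : 0 < (S + T + 1)*(2*S*T + S + T + 1)) (d13 : 0 < (S + T + 1)) (d32 : 0 < (S + 1)*(T + 1)*(2*S*T + S + T + 1)) :
    ((((S*T + T + 1))/((S + 1)*(T + 1)), ((S*T + S + 1))/((S + 1)*(T + 1))) : ℝ × ℝ) + ((-(S*T))/((S + T + 1))) • ((0, (-(S*T*(S*T + S + 1)))/((S + 1)*(T + 1)*(2*S*T + S + T + 1))) : ℝ × ℝ) = (((S*T + T + 1))/((S + 1)*(T + 1)), ((S + 1)*(T + 1)*(S*T + S + 1))/((S + T + 1)*(2*S*T + S + T + 1))) := vecY (radd d0 d13 d32 d5 (by ring))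

theorem G1_vq (S T : ℝ) (d0 : 0 < (S + 1)*(T + 1)) (d6 : 0 < (2*S*T + S + T + 1)) (d32 : 0 < (S + 1)*(T + 1)*(2*S*T + S + T + 1)) :
    ((((S*T + T + 1))/((S + 1)*(T + 1)), ((S*T + S + 1))/((S + 1)*(T + 1))) : ℝ × ℝ) + ((0, (-(S*T*(S*T + S + 1)))/((S + 1)*(T + 1)*(2*S*T + S + T + 1))) : ℝ × ℝ) = (((S*T + T + 1))/((S + 1)*(T + 1)), ((S*T + S + 1))/((2*S*T + S + T + 1))) := vecY1 (radd1 d0 d32 d6 (by ring))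

theorem G1_vr (S T : ℝ) (d0 : 0 < (S + 1)*(T + 1)) (d6 : 0 < (2*S*T + S + T + 1)) (d32 : 0 < (S + 1)*(T + 1)*(2*S*T + S + T + 1)) :
    ((((S*T + T + 1))/((2*S*T + S + T + 1)), ((S*T + S + 1))/((2*S*T + S + T + 1))) : ℝ × ℝ) + (((S*T*(S*T + T + 1))/((S + 1)*(T + 1)*(2*S*T + S + T + 1)), 0) : ℝ × ℝ) = (((S*T + T + 1))/((S + 1)*(T + 1)), ((S*T + S + 1))/((2*S*T + S + T + 1))) := vecX1 (radd1 d6 d32 d0 (by ring))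

theorem G1_vQ (S T : ℝ) (d0 : 0 < (S + 1)*(T + 1)) (d13 : 0 < (S + T + 1)) (d15 : 0 < (S + T + 1)^(2:ℕ)*(2*S*T + S + T + 1)) (d32 : 0 < (S + 1)*(T + 1)*(2*S*T + S + T + 1)) :
    ((((S*T + T + 1))/((S + 1)*(T + 1)), ((S*T + S + 1))/((S + 1)*(T + 1))) : ℝ × ℝ) + (((-(S*T))/((S + T + 1)))^(2:ℕ)) • ((0, (-(S*T*(S*T + S + 1)))/((S + 1)*(T + 1)*(2*S*T + S + T + 1))) : ℝ × ℝ) = (((S*T + T + 1))/((S + 1)*(T + 1)), ((-S^(3:ℕ)*T^(3:ℕ) + S^(2:ℕ)*T^(3:ℕ) + 2*S^(3:ℕ)*T + 3*S^(2:ℕ)*T^(2:ℕ) + S*T^(3:ℕ) + S^(3:ℕ) + 6*S^(2:ℕ)*T + 4*S*T^(2:ℕ) + 3*S^(2:ℕ) + 6*S*T + T^(2:ℕ) + 3*S + 2*T + 1))/((S + T + 1)^(2:ℕ)*(2*S*T + S + T + 1))) := vecY (radd2 d0 d13 d32 d15 (by ring))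

theorem G1_vC (S T : ℝ) (d0 : 0 < (S + 1)*(T + 1)) (d6 : 0 < (2*S*T + S + T + 1)) (d25 : 0 < (S + 1)^(2:ℕ)*(T + 1)^(2:ℕ)) (d32 : 0 < (S + 1)*(T + 1)*(2*S*T + S + T + 1)) :
    ((((S*T + T + 1))/((2*S*T + S + T + 1)), ((S*T + S + 1))/((2*S*T + S + T + 1))) : ℝ × ℝ) + ((-(S*T))/((S + 1)*(T + 1))) • (((S*T*(S*T + T + 1))/((S + 1)*(T + 1)*(2*S*T + S + T + 1)), 0) : ℝ × ℝ) = (((S + T + 1)*(S*T + T + 1))/((S + 1)^(2:ℕ)*(T + 1)^(2:ℕ)), ((S*T + S + 1))/((2*S*T + S + T + 1))) := vecX (radd d6 d0 d32 d25 (by ring))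

theorem G1_d33 (S T : ℝ) (pS : 0 < S) (pT : 0 < T) :
    0 < S*T := (mul_pos pS pT)

theorem G1_nun (S T : ℝ) (d13 : 0 < (S + T + 1)) (d33 : 0 < S*T) :
    (-(S*T))/((S + T + 1)) < 0 := rneg d33 d13

theorem G1_d34 (S T : ℝ) (c13 : 0 < -S*T + S + T + 1) :
    0 < (-S*T + S + T + 1) := c13

theorem G1_num (S T : ℝ) (d13 : 0 < (S + T + 1)) (d34 : 0 < (-S*T + S + T + 1)) :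
    -1 < (-(S*T))/((S + T + 1)) := rgtm d13 d34 d13 (by ring)

theorem G1_kan (S T : ℝ) (d0 : 0 < (S + 1)*(T + 1)) (d33 : 0 < S*T) :
    (-(S*T))/((S + 1)*(T + 1)) < 0 := rneg d33 d0

theorem G1_kam (S T : ℝ) (d0 : 0 < (S + 1)*(T + 1)) (d13 : 0 < (S + T + 1)) :
    -1 < (-(S*T))/((S + 1)*(T + 1)) := rgtm d0 d13 d0 (by ring)

theorem G1_d35 (S T : ℝ) (pS : 0 < S) (pT : 0 < T) (c1 : 0 < S*T + T + 1) :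
    0 < S*T*(S*T + T + 1) := (mul_pos (mul_pos pS pT) c1)

theorem G1_hdB (S T : ℝ) (d32 : 0 < (S + 1)*(T + 1)*(2*S*T + S + T + 1)) (d35 : 0 < S*T*(S*T + T + 1)) :
    (((S*T*(S*T + T + 1))/((S + 1)*(T + 1)*(2*S*T + S + T + 1)), 0) : ℝ × ℝ) ≠ 0 := ne0X (div_pos d35 d32).ne'

theorem fam_G1 {S T : ℝ} (g0 : 0 < S) (g1 : 0 ≤ T - S) (g2 : 0 < S + 1 - T) (g3 : 0 < 2 - T) : HasConn S T := by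
  have pS : 0 < S := g0
  have pT : 0 < T := by linarith
  have pA : 0 < (S + 1) := by linarith
  have pB : 0 < (T + 1) := by linarith
  have pU : 0 < (S + T + 1) := by linarith
  have c0 : 0 < 2*S*T + S + T + 1 := by positivity
  have c1 : 0 < S*T + T + 1 := by positivity
  have c2 : 0 < S*T + S + 1 := by positivity
  have c3 : 0 < -S^(2:ℕ)*T + S*T + S + T + 1 := G1_c3 g0 g1 g2 g3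
  have c4 : 0 < S*T^(2:ℕ) - S^(2:ℕ) + S*T + T^(2:ℕ) + 2*T + 1 := G1_c4 g0 g1 g2 g3
  have c5 : 0 < S*T^(2:ℕ) + 3*S*T + T^(2:ℕ) + S + 2*T + 1 := by positivity
  have c6 : 0 < S - T + 1 := G1_c6 g0 g1 g2 g3
  have c7 : 0 < -S^(3:ℕ)*T^(3:ℕ) + S^(2:ℕ)*T^(3:ℕ) + 2*S^(3:ℕ)*T + 3*S^(2:ℕ)*T^(2:ℕ) + S*T^(3:ℕ) + S^(3:ℕ) + 6*S^(2:ℕ)*T + 4*S*T^(2:ℕ) + 3*S^(2:ℕ) + 6*S*T + T^(2:ℕ) + 3*S + 2*T + 1 := G1_c7 g0 g1 g2 g3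
  have c8 : 0 < S^(3:ℕ)*T^(2:ℕ) - S^(2:ℕ)*T^(2:ℕ) + S^(2:ℕ)*T + S*T^(2:ℕ) + S^(2:ℕ) + 3*S*T + T^(2:ℕ) + 2*S + 2*T + 1 := G1_c8 g0 g1 g2 g3
  have c9 : 0 < -S^(2:ℕ)*T^(3:ℕ) - S^(2:ℕ)*T^(2:ℕ) + S*T^(3:ℕ) + 2*S^(2:ℕ)*T + 4*S*T^(2:ℕ) + T^(3:ℕ) + S^(2:ℕ) + 5*S*T + 3*T^(2:ℕ) + 2*S + 3*T + 1 := G1_c9 g0 g1 g2 g3
  have c10 : 0 < S^(2:ℕ)*T^(2:ℕ) + 2*S^(2:ℕ)*T - S*T^(2:ℕ) + S^(2:ℕ) + 2*S*T - T^(2:ℕ) + 2*S + 1 := G1_c10 g0 g1 g2 g3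
  have c11 : 0 < S*T^(2:ℕ) + S*T + T^(2:ℕ) + S + 2*T + 1 := by positivity
  have c12 : 0 < -S^(3:ℕ)*T^(2:ℕ) - S^(3:ℕ)*T + S*T^(3:ℕ) - S^(3:ℕ) - S^(2:ℕ)*T + 3*S*T^(2:ℕ) + T^(3:ℕ) - S^(2:ℕ) + 3*S*T + 3*T^(2:ℕ) + S + 3*T + 1 := G1_c12 g0 g1 g2 g3
  have c13 : 0 < -S*T + S + T + 1 := G1_c13 g0 g1 g2 g3
  have d0 := G1_d0 S T pA pB
  have d1 := G1_d1 S T pA
  have d2 := G1_d2 S T pA pB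
  have f0 := G1_f0 S T pT d0 d1 d2
  have d3 := G1_d3 S T pA pB
  have d4 := G1_d4 S T pB
  have f1 := G1_f1 S T pS pT d1 d2 d3 d4
  have f2 := G1_f2 S T pS d0 d3 d4
  have rA := G1_rA S T f0 f1 f2
  have d5 := G1_d5 S T pU c0
  have f3 := G1_f3 S T pT d0 d2 d5
  have d6 := G1_d6 S T c0
  have f4 := G1_f4 S T pS pT d2 d4 d5 d6
  have f5 := G1_f5 S T pS d0 d4 d6
  have rP := G1_rP S T f3 f4 f5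
  have d7 := G1_d7 S T c1
  have q0 := G1_q0 S T d0 d7
  have q1 := G1_q1 S T pS d0
  have d8 := G1_d8 S T pA pB c2
  have q2 := G1_q2 S T d5 d8
  have d9 := G1_d9 S T pT c3
  have q3 := G1_q3 S T d5 d9
  have sP := G1_sP S T q0 q1 q2 q3
  have d10 := G1_d10 S T c4
  have g0 := G1_g0 S T d0 d10
  have d11 := G1_d11 S T pS pT c5
  have g1 := G1_g1 S T d5 d11
  have oP_0 := G1_oP_0 S T g0 g1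
  have d12 := G1_d12 S T pS pT pA pB
  have g2 := G1_g2 S T d5 d6 d12
  have d13 := G1_d13 S T pU
  have g3 := G1_g3 S T d0 d2 d13
  have oP_1 := G1_oP_1 S T g2 g3
  have d14 := G1_d14 S T pS pB c6
  have g4 := G1_g4 S T d6 d14
  have oP_2 := G1_oP_2 S T g4
  have oP := G1_oP S T f3 f4 oP_0 oP_1 oP_2
  have d15 := G1_d15 S T pU c0
  have f6 := G1_f6 S T pT d0 d2 d15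
  have d16 := G1_d16 S T pA pU c0
  have f7 := G1_f7 S T pS pT d2 d4 d15 d16
  have f8 := G1_f8 S T pS d0 d4 d5 d16
  have d17 := G1_d17 S T c7
  have q4 := G1_q4 S T d15 d17
  have d18 := G1_d18 S T pT c8
  have q5 := G1_q5 S T d15 d18
  have sQ := G1_sQ S T q0 q1 q4 q5
  have d19 := G1_d19 S T pS pT c9
  have g5 := G1_g5 S T d15 d19
  have oQ_0 := G1_oQ_0 S T g0 g5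
  have d20 := G1_d20 S T pS pT pB c3
  have g6 := G1_g6 S T d5 d15 d20
  have oQ_1 := G1_oQ_1 S T g3 g6
  have d21 := G1_d21 S T pS c10
  have d22 := G1_d22 S T pA c0
  have g7 := G1_g7 S T d16 d21 d22
  have oQ_2 := G1_oQ_2 S T g7
  have oQ := G1_oQ S T f6 f7 oQ_0 oQ_1 oQ_2
  have rE := G1_rE S T 
  have d23 := G1_d23 S T c2
  have q6 := G1_q6 S T d6 d23
  have d24 := G1_d24 S T pT pA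
  have q7 := G1_q7 S T d6 d24
  have sq := G1_sq S T q0 q1 q6 q7
  have oE := G1_oE S T 
  have f9 := G1_f9 S T pT d6
  have f10 := G1_f10 S T pS d6
  have rB := G1_rB S T f9 f10
  have f11 := G1_f11 S T pT d0 d2 d6
  have d25 := G1_d25 S T pA pB
  have f12 := G1_f12 S T pS d2 d6 d25
  have rr := G1_rr S T f11 f12
  have sr := G1_sr S T q0 q1 q6 q7
  have d26 := G1_d26 S T pS pT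
  have g8 := G1_g8 S T d6 d26
  have orr_0 := G1_orr_0 S T g0 g8
  have orr_1 := G1_orr_1 S T g4
  have orr := G1_orr S T f11 orr_0 orr_1
  have d27 := G1_d27 S T pA pB
  have f13 := G1_f13 S T pT d6 d25 d27
  have d28 := G1_d28 S T pA pB
  have f14 := G1_f14 S T pS d6 d27 d28
  have d29 := G1_d29 S T pU c1
  have q8 := G1_q8 S T d25 d29
  have d30 := G1_d30 S T pS c11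
  have q9 := G1_q9 S T d25 d30
  have sC := G1_sC S T q6 q7 q8 q9
  have d31 := G1_d31 S T c12
  have g9 := G1_g9 S T d25 d31
  have oC_0 := G1_oC_0 S T g8 g9
  have oC_1 := G1_oC_1 S T g4
  have oC := G1_oC S T f13 oC_0 oC_1
  have d32 := G1_d32 S T pA pB c0
  have vP := G1_vP S T d0 d5 d13 d32
  have vq := G1_vq S T d0 d6 d32
  have vr := G1_vr S T d0 d6 d32
  have vQ := G1_vQ S T d0 d13 d15 d32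
  have vC := G1_vC S T d0 d6 d25 d32
  have d33 := G1_d33 S T pS pT
  have nun := G1_nun S T d13 d33
  have d34 := G1_d34 S T c13
  have num := G1_num S T d13 d34
  have kan := G1_kan S T d0 d33
  have kam := G1_kam S T d0 d13
  have d35 := G1_d35 S T pS pT c1
  have hdB := G1_hdB S T d32 d35
  refine conn_fin pS pT (by simp) (by simp) (P := (((S*T + T + 1))/((S + 1)*(T + 1)), ((S + 1)*(T + 1)*(S*T + S + 1))/((S + T + 1)*(2*S*T + S + T + 1)))) (q := (((S*T + T + 1))/((S + 1)*(T + 1)), ((S*T + S + 1))/((2*S*T + S + T + 1)))) (r := (((S*T + T + 1))/((S + 1)*(T + 1)), ((S*T + S + 1))/((2*S*T + S + T + 1)))) (C := (((S + T + 1)*(S*T + T + 1))/((S + 1)^(2:ℕ)*(T + 1)^(2:ℕ)), ((S*T + S + 1))/((2*S*T + S + T + 1))))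
    (ν := (-(S*T))/((S + T + 1))) (κ := (-(S*T))/((S + 1)*(T + 1))) ?_ ?_ ?_ hdB vP vq vr vC rA rP rB rr rE ?_ sq oE ?_
  · exact nun.ne
  · exact kan.ne
  · exact abs_lt.2 ⟨kam, kan.trans one_pos⟩
  · exact okA_neg pS pT nun num vP vQ sP sQ oP oQ
  · exact okB_neg pS pT kan kam vr vC sr sC orr oC

end SympB.Quad
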