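import Pool.Agent.W_93b186_h44.FamTools

/-! Machine generated: the connection abbgb |  | agb. -/

namespace SympB.Quad

open Letter

set_option maxRecDepth 20000

theorem G2_c0 {S T : ℝ} (g0 : 0 < S) (g1 : 0 ≤ T - S - 1) (g2 : 0 < S + 1 - S*T) (g3 : 0 < S*(S+1)*T + (S+1)^(2:ℕ) - T^(2:ℕ)) : 0 < -S*T + S + T + 1 := by
  have key : ∀ a0 a1 a2 a3 : ℝ, 0 < a0 → 0 ≤ a1 → 0 < a2 → 0 < a3 → 0 < a0 + a1 + a2 + 1 := by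
    intro a0 a1 a2 a3 g0 g1 g2 g3
    positivity
  refine pos_aux1 (m := 1) (by norm_num) (lt_of_lt_of_eq (key _ _ _ _ g0 g1 g2 g3) ?_)
  ring

theorem G2_c1 {S T : ℝ} (g0 : 0 < S) (g1 : 0 ≤ T - S - 1) (g2 : 0 < S + 1 - S*T) (g3 : 0 < S*(S+1)*T + (S+1)^(2:ℕ) - T^(2:ℕ)) : 0 < S^(2:ℕ)*T^(2:ℕ) + S^(2:ℕ)*T + S*T^(2:ℕ) - S^(2:ℕ) + S*T + T^(2:ℕ) - 2*S - 1 := by
  have key : ∀ a0 a1 a2 a3 : ℝ, 0 < a0 → 0 ≤ a1 → 0 < a2 → 0 < a3 → 0 < 4*a0^(4:ℕ) + 4*a0^(3:ℕ) + 2*a0^(2:ℕ)*a2 + 4*a0*a1^(3:ℕ) + 17*a0*a1^(2:ℕ) + 32*a0*a1 + 3*a0*a3 + 9*a1^(3:ℕ) + 4*a1^(2:ℕ)*a2 + 29*a1^(2:ℕ) + 9*a1*a3 + 30*a1 + 10*a3 := by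
    intro a0 a1 a2 a3 g0 g1 g2 g3
    positivity
  refine pos_aux1 (m := 5) (by norm_num) (lt_of_lt_of_eq (key _ _ _ _ g0 g1 g2 g3) ?_)
  ring

theorem G2_c2 {S T : ℝ} (g0 : 0 < S) (g1 : 0 ≤ T - S - 1) (g2 : 0 < S + 1 - S*T) (g3 : 0 < S*(S+1)*T + (S+1)^(2:ℕ) - T^(2:ℕ)) : 0 < -S^(2:ℕ)*T^(2:ℕ) + S^(2:ℕ) + S*T + 2*S + T + 1 := by
  have key : ∀ a0 a1 a2 a3 : ℝ, 0 < a0 → 0 ≤ a1 → 0 < a2 → 0 < a3 → 0 < a0^(2:ℕ)*a2 + a0*a1*a2 + 2*a0*a2 + 2*a0 + a1 + 2 := by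
    intro a0 a1 a2 a3 g0 g1 g2 g3
    positivity
  refine pos_aux1 (m := 1) (by norm_num) (lt_of_lt_of_eq (key _ _ _ _ g0 g1 g2 g3) ?_)
  ring

theorem G2_c3 {S T : ℝ} (g0 : 0 < S) (g1 : 0 ≤ T - S - 1) (g2 : 0 < S + 1 - S*T) (g3 : 0 < S*(S+1)*T + (S+1)^(2:ℕ) - T^(2:ℕ)) : 0 < -S^(2:ℕ)*T^(2:ℕ) - S*T^(2:ℕ) + S^(2:ℕ) + 2*S*T + T^(2:ℕ) + 2*S + 2*T + 1 := by
  have key : ∀ a0 a1 a2 a3 : ℝ, 0 < a0 → 0 ≤ a1 → 0 < a2 → 0 < a3 → 0 < 32*a0^(3:ℕ) + 10*a0^(2:ℕ)*a2 + a0*a1^(2:ℕ) + 21*a0*a1*a2 + 66*a0*a2 + 11*a1^(3:ℕ) + 36*a1^(2:ℕ) + 11*a1*a3 + 48*a1 + 8*a2 + 4*a3 + 32 := by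
    intro a0 a1 a2 a3 g0 g1 g2 g3
    positivity
  refine pos_aux1 (m := 10) (by norm_num) (lt_of_lt_of_eq (key _ _ _ _ g0 g1 g2 g3) ?_)
  ring

theorem G2_c4 {S T : ℝ} (g0 : 0 < S) (g1 : 0 ≤ T - S - 1) (g2 : 0 < S + 1 - S*T) (g3 : 0 < S*(S+1)*T + (S+1)^(2:ℕ) - T^(2:ℕ)) : 0 < S^(2:ℕ)*T^(2:ℕ) + S*T^(2:ℕ) - S^(2:ℕ) + T^(2:ℕ) - 2*S - 1 := by
  have key : ∀ a0 a1 a2 a3 : ℝ, 0 < a0 → 0 ≤ a1 → 0 < a2 → 0 < a3 → 0 < 8*a0^(4:ℕ) + 3*a0^(3:ℕ) + 9*a0^(2:ℕ)*a2 + 8*a0*a1^(3:ℕ) + 24*a0*a1^(2:ℕ) + 19*a0*a1 + 6*a0*a3 + 5*a0 + 13*a1^(3:ℕ) + 8*a1^(2:ℕ)*a2 + 23*a1^(2:ℕ) + 13*a1*a3 + 10*a1 := by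
    intro a0 a1 a2 a3 g0 g1 g2 g3
    positivity
  refine pos_aux1 (m := 5) (by norm_num) (lt_of_lt_of_eq (key _ _ _ _ g0 g1 g2 g3) ?_)
  ring

theorem G2_c5 {S T : ℝ} (g0 : 0 < S) (g1 : 0 ≤ T - S - 1) (g2 : 0 < S + 1 - S*T) (g3 : 0 < S*(S+1)*T + (S+1)^(2:ℕ) - T^(2:ℕ)) : 0 < -S*T + S + 1 := by
  have key : ∀ a0 a1 a2 a3 : ℝ, 0 < a0 → 0 ≤ a1 → 0 < a2 → 0 < a3 → 0 < a2 := by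
    intro a0 a1 a2 a3 g0 g1 g2 g3
    positivity
  refine pos_aux1 (m := 1) (by norm_num) (lt_of_lt_of_eq (key _ _ _ _ g0 g1 g2 g3) ?_)
  ring

theorem G2_c6 {S T : ℝ} (g0 : 0 < S) (g1 : 0 ≤ T - S - 1) (g2 : 0 < S + 1 - S*T) (g3 : 0 < S*(S+1)*T + (S+1)^(2:ℕ) - T^(2:ℕ)) : 0 < S^(2:ℕ)*T^(3:ℕ) - S^(3:ℕ)*T + S*T^(3:ℕ) - S^(3:ℕ) - 3*S^(2:ℕ)*T + S*T^(2:ℕ) + T^(3:ℕ) - 3*S^(2:ℕ) - 3*S*T + T^(2:ℕ) - 3*S - T - 1 := by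
  have key : ∀ a0 a1 a2 a3 : ℝ, 0 < a0 → 0 ≤ a1 → 0 < a2 → 0 < a3 → 0 < 64*a0^(3:ℕ)*a1 + 40*a0^(2:ℕ)*a1 + 6*a0^(2:ℕ)*a3 + 65*a0*a1^(3:ℕ) + 41*a0*a1^(2:ℕ)*a2 + 56*a0*a1*a2 + 12*a0*a1*a3 + 6*a0*a3 + 47*a1^(4:ℕ) + 116*a1^(3:ℕ) + 47*a1^(2:ℕ)*a3 + 56*a1^(2:ℕ) + 16*a1*a3 + 24*a1 := by
    intro a0 a1 a2 a3 g0 g1 g2 g3
    positivity
  refine pos_aux1 (m := 6) (by norm_num) (lt_of_lt_of_eq (key _ _ _ _ g0 g1 g2 g3) ?_)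
  ring

theorem G2_c7 {S T : ℝ} (g0 : 0 < S) (g1 : 0 ≤ T - S - 1) (g2 : 0 < S + 1 - S*T) (g3 : 0 < S*(S+1)*T + (S+1)^(2:ℕ) - T^(2:ℕ)) : 0 < T - 1 := by
  have key : ∀ a0 a1 a2 a3 : ℝ, 0 < a0 → 0 ≤ a1 → 0 < a2 → 0 < a3 → 0 < a0 + a1 := by
    intro a0 a1 a2 a3 g0 g1 g2 g3
    positivity
  refine pos_aux1 (m := 1) (by norm_num) (lt_of_lt_of_eq (key _ _ _ _ g0 g1 g2 g3) ?_)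
  ring

theorem G2_c8 {S T : ℝ} (g0 : 0 < S) (g1 : 0 ≤ T - S - 1) (g2 : 0 < S + 1 - S*T) (g3 : 0 < S*(S+1)*T + (S+1)^(2:ℕ) - T^(2:ℕ)) : 0 < S^(2:ℕ)*T - S^(2:ℕ) + S*T + T^(2:ℕ) - 2*S - 1 := by
  have key : ∀ a0 a1 a2 a3 : ℝ, 0 < a0 → 0 ≤ a1 → 0 < a2 → 0 < a3 → 0 < 4*a0*a1 + 2*a1^(2:ℕ) + 4*a1 + a3 := by
    intro a0 a1 a2 a3 g0 g1 g2 g3
    positivity
  refine pos_aux1 (m := 1) (by norm_num) (lt_of_lt_of_eq (key _ _ _ _ g0 g1 g2 g3) ?_)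
  ring

theorem G2_c9 {S T : ℝ} (g0 : 0 < S) (g1 : 0 ≤ T - S - 1) (g2 : 0 < S + 1 - S*T) (g3 : 0 < S*(S+1)*T + (S+1)^(2:ℕ) - T^(2:ℕ)) : 0 < S^(2:ℕ)*T + S^(2:ℕ) + S*T - T^(2:ℕ) + 2*S + 1 := by
  have key : ∀ a0 a1 a2 a3 : ℝ, 0 < a0 → 0 ≤ a1 → 0 < a2 → 0 < a3 → 0 < a3 := by
    intro a0 a1 a2 a3 g0 g1 g2 g3
    positivity
  refine pos_aux1 (m := 1) (by norm_num) (lt_of_lt_of_eq (key _ _ _ _ g0 g1 g2 g3) ?_)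
  ring

theorem G2_c10 {S T : ℝ} (g0 : 0 < S) (g1 : 0 ≤ T - S - 1) (g2 : 0 < S + 1 - S*T) (g3 : 0 < S*(S+1)*T + (S+1)^(2:ℕ) - T^(2:ℕ)) : 0 < -S^(2:ℕ)*T^(2:ℕ) - S^(2:ℕ)*T - S*T^(2:ℕ) + S^(2:ℕ) + S*T + T^(2:ℕ) + 2*S + 2*T + 1 := by
  have key : ∀ a0 a1 a2 a3 : ℝ, 0 < a0 → 0 ≤ a1 → 0 < a2 → 0 < a3 → 0 < a0^(2:ℕ)*a2 + a0*a1*a2 + 2*a0*a1 + 4*a0*a2 + 2*a0 + a1^(2:ℕ) + a1*a2 + 3*a1 + 2*a2 + 2 := by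
    intro a0 a1 a2 a3 g0 g1 g2 g3
    positivity
  refine pos_aux1 (m := 1) (by norm_num) (lt_of_lt_of_eq (key _ _ _ _ g0 g1 g2 g3) ?_)
  ring

theorem G2_c11 {S T : ℝ} (g0 : 0 < S) (g1 : 0 ≤ T - S - 1) (g2 : 0 < S + 1 - S*T) (g3 : 0 < S*(S+1)*T + (S+1)^(2:ℕ) - T^(2:ℕ)) : 0 < S^(3:ℕ)*T^(2:ℕ) + S^(2:ℕ)*T^(2:ℕ) - S^(3:ℕ) - S^(2:ℕ)*T + S*T^(2:ℕ) + T^(3:ℕ) - 3*S^(2:ℕ) - 2*S*T + T^(2:ℕ) - 3*S - T - 1 := by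
  have key : ∀ a0 a1 a2 a3 : ℝ, 0 < a0 → 0 ≤ a1 → 0 < a2 → 0 < a3 → 0 < a0^(2:ℕ)*a1*a2 + 6*a0^(2:ℕ)*a1 + a0^(2:ℕ)*a3 + 4*a0*a1^(3:ℕ) + 2*a0*a1^(2:ℕ)*a2 + 5*a0*a1^(2:ℕ) + 2*a0*a1*a3 + 10*a0*a1 + a0*a3 + 2*a1^(4:ℕ) + 5*a1^(3:ℕ) + 2*a1^(2:ℕ)*a3 + 4*a1^(2:ℕ) + 4*a1 := by
    intro a0 a1 a2 a3 g0 g1 g2 g3
    positivity
  refine pos_aux1 (m := 1) (by norm_num) (lt_of_lt_of_eq (key _ _ _ _ g0 g1 g2 g3) ?_)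
  ring

theorem G2_c12 {S T : ℝ} (g0 : 0 < S) (g1 : 0 ≤ T - S - 1) (g2 : 0 < S + 1 - S*T) (g3 : 0 < S*(S+1)*T + (S+1)^(2:ℕ) - T^(2:ℕ)) : 0 < S^(3:ℕ)*T - S^(3:ℕ) - S^(2:ℕ) + S*T + T^(2:ℕ) + S + 2*T + 1 := by
  have key : ∀ a0 a1 a2 a3 : ℝ, 0 < a0 → 0 ≤ a1 → 0 < a2 → 0 < a3 → 0 < 64*a0^(3:ℕ) + 57*a0*a1^(2:ℕ) + 55*a0*a1*a2 + 96*a0*a2 + 10*a0*a3 + 47*a1^(3:ℕ) + 124*a1^(2:ℕ) + 47*a1*a3 + 96*a1 + 8*a2^(2:ℕ) + 12*a3 + 64 := by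
    intro a0 a1 a2 a3 g0 g1 g2 g3
    positivity
  refine pos_aux1 (m := 18) (by norm_num) (lt_of_lt_of_eq (key _ _ _ _ g0 g1 g2 g3) ?_)
  ring

theorem G2_c13 {S T : ℝ} (g0 : 0 < S) (g1 : 0 ≤ T - S - 1) (g2 : 0 < S + 1 - S*T) (g3 : 0 < S*(S+1)*T + (S+1)^(2:ℕ) - T^(2:ℕ)) : 0 < -S^(2:ℕ)*T + S^(2:ℕ) + S*T + T^(2:ℕ) + 2*S + 2*T + 1 := by
  have key : ∀ a0 a1 a2 a3 : ℝ, 0 < a0 → 0 ≤ a1 → 0 < a2 → 0 < a3 → 0 < 10*a0*a1 + 4*a0*a2 + 4*a1^(2:ℕ) + 10*a1 + 4*a2 + 3*a3 := by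
    intro a0 a1 a2 a3 g0 g1 g2 g3
    positivity
  refine pos_aux1 (m := 1) (by norm_num) (lt_of_lt_of_eq (key _ _ _ _ g0 g1 g2 g3) ?_)
  ring

theorem G2_c14 {S T : ℝ} (g0 : 0 < S) (g1 : 0 ≤ T - S - 1) (g2 : 0 < S + 1 - S*T) (g3 : 0 < S*(S+1)*T + (S+1)^(2:ℕ) - T^(2:ℕ)) : 0 < S^(2:ℕ)*T^(2:ℕ) - 2*S^(2:ℕ)*T + S^(2:ℕ) - S*T + 2*S + T + 1 := by
  have key : ∀ a0 a1 a2 a3 : ℝ, 0 < a0 → 0 ≤ a1 → 0 < a2 → 0 < a3 → 0 < 3*a0^(4:ℕ) + 2*a0^(2:ℕ)*a2 + 3*a0*a1^(3:ℕ) + 13*a0*a1^(2:ℕ) + 2*a0*a2 + a0*a3 + 12*a0 + 5*a1^(3:ℕ) + 3*a1^(2:ℕ)*a2 + 7*a1^(2:ℕ) + 7*a1*a2 + 5*a1*a3 + 5*a2^(2:ℕ) + 9 := by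
    intro a0 a1 a2 a3 g0 g1 g2 g3
    positivity
  refine pos_aux1 (m := 7) (by norm_num) (lt_of_lt_of_eq (key _ _ _ _ g0 g1 g2 g3) ?_)
  ring

theorem G2_c15 {S T : ℝ} (g0 : 0 < S) (g1 : 0 ≤ T - S - 1) (g2 : 0 < S + 1 - S*T) (g3 : 0 < S*(S+1)*T + (S+1)^(2:ℕ) - T^(2:ℕ)) : 0 < -S^(3:ℕ)*T^(2:ℕ) + 2*S^(3:ℕ)*T - S^(2:ℕ)*T^(2:ℕ) - S^(3:ℕ) + S^(2:ℕ)*T - S^(2:ℕ) + S*T + T^(2:ℕ) + S + 2*T + 1 := by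
  have key : ∀ a0 a1 a2 a3 : ℝ, 0 < a0 → 0 ≤ a1 → 0 < a2 → 0 < a3 → 0 < a0^(3:ℕ)*a2 + a0^(2:ℕ)*a1*a2 + 9*a0*a1^(3:ℕ) + 3*a0*a1^(2:ℕ)*a2 + 5*a0*a1*a2 + 3*a0*a2 + 8*a0 + 3*a1^(4:ℕ) + 8*a1^(3:ℕ) + 7*a1^(2:ℕ)*a2 + 3*a1^(2:ℕ)*a3 + 6*a1*a2 + 2*a1*a3 + 4*a1 + a2*a3 + 8 := by
    intro a0 a1 a2 a3 g0 g1 g2 g3
    positivity
  refine pos_aux1 (m := 2) (by norm_num) (lt_of_lt_of_eq (key _ _ _ _ g0 g1 g2 g3) ?_)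
  ring

theorem G2_d0 (S T : ℝ) (pT : 0 < T) (c0 : 0 < -S*T + S + T + 1) :
    0 < T*(-S*T + S + T + 1) := (mul_pos pT c0)

theorem G2_d1 (S T : ℝ) (pA : 0 < (S + 1)) (pB : 0 < (T + 1)) (c0 : 0 < -S*T + S + T + 1) :
    0 < (S + 1)*(T + 1)*(-S*T + S + T + 1) := (mul_pos (mul_pos pA pB) c0)

theorem G2_d2 (S T : ℝ) (pT : 0 < T) (pA : 0 < (S + 1)) (c0 : 0 < -S*T + S + T + 1) :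
    0 < T*(S + 1)*(-S*T + S + T + 1) := (mul_pos (mul_pos pT pA) c0)

theorem G2_d3 (S T : ℝ) (c0 : 0 < -S*T + S + T + 1) :
    0 < (-S*T + S + T + 1) := c0

theorem G2_f0 (S T : ℝ) (pS : 0 < S) (pT : 0 < T) (d0 : 0 < T*(-S*T + S + T + 1)) (d1 : 0 < (S + 1)*(T + 1)*(-S*T + S + T + 1)) (d2 : 0 < T*(S + 1)*(-S*T + S + T + 1)) (d3 : 0 < (-S*T + S + T + 1)) :
    fl S T Letter.al (((S + T + 1)*(T - 1))/(T*(-S*T + S + T + 1)), (S*T^(2:ℕ))/((S + 1)*(T + 1)*(-S*T + S + T + 1))) = (((S^(2:ℕ)*T - S^(2:ℕ) + S*T + T^(2:ℕ) - 2*S - 1))/(T*(S + 1)*(-S*T + S + T + 1)), (T)/((-S*T + S + T + 1))) := fl_al' pS pT d0 d1 d2 d3 (by ring) (by ring)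

theorem G2_f1 (S T : ℝ) (pT : 0 < T) (d0 : 0 < T*(-S*T + S + T + 1)) (d1 : 0 < (S + 1)*(T + 1)*(-S*T + S + T + 1)) (d2 : 0 < T*(S + 1)*(-S*T + S + T + 1)) (d3 : 0 < (-S*T + S + T + 1)) :
    fl S T Letter.be (((S^(2:ℕ)*T - S^(2:ℕ) + S*T + T^(2:ℕ) - 2*S - 1))/(T*(S + 1)*(-S*T + S + T + 1)), (T)/((-S*T + S + T + 1))) = (((S + T + 1)*(T - 1))/(T*(-S*T + S + T + 1)), ((-S^(2:ℕ)*T^(2:ℕ) + S^(2:ℕ) + S*T + 2*S + T + 1))/((S + 1)*(T + 1)*(-S*T + S + T + 1))) := fl_be' pT d2 d3 d0 d1 (by ring) (by ring)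

theorem G2_d4 (S T : ℝ) (pA : 0 < (S + 1)) (c0 : 0 < -S*T + S + T + 1) :
    0 < (S + 1)*(-S*T + S + T + 1) := (mul_pos pA c0)

theorem G2_f2 (S T : ℝ) (pT : 0 < T) (d0 : 0 < T*(-S*T + S + T + 1)) (d1 : 0 < (S + 1)*(T + 1)*(-S*T + S + T + 1)) (d3 : 0 < (-S*T + S + T + 1)) (d4 : 0 < (S + 1)*(-S*T + S + T + 1)) :
    fl S T Letter.be (((S + T + 1)*(T - 1))/(T*(-S*T + S + T + 1)), ((-S^(2:ℕ)*T^(2:ℕ) + S^(2:ℕ) + S*T + 2*S + T + 1))/((S + 1)*(T + 1)*(-S*T + S + T + 1))) = ((S*(-S*T + S + 1))/((S + 1)*(-S*T + S + T + 1)), ((-S*T + S + 1))/((-S*T + S + T + 1))) := fl_be' pT d0 d1 d4 d3 (by ring) (by ring)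

theorem G2_f3 (S T : ℝ) (pS : 0 < S) (d3 : 0 < (-S*T + S + T + 1)) (d4 : 0 < (S + 1)*(-S*T + S + T + 1)) :
    fl S T Letter.ga ((S*(-S*T + S + 1))/((S + 1)*(-S*T + S + T + 1)), ((-S*T + S + 1))/((-S*T + S + T + 1))) = (((-S^(2:ℕ)*T + S^(2:ℕ) - S*T + 2*S + T + 1))/((S + 1)*(-S*T + S + T + 1)), (T)/((-S*T + S + T + 1))) := fl_ga' pS d4 d3 d4 d3 (by ring) (by ring)

theorem G2_f4 (S T : ℝ) (pT : 0 < T) (d0 : 0 < T*(-S*T + S + T + 1)) (d1 : 0 < (S + 1)*(T + 1)*(-S*T + S + T + 1)) (d3 : 0 < (-S*T + S + T + 1)) (d4 : 0 < (S + 1)*(-S*T + S + T + 1)) :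
    fl S T Letter.be (((-S^(2:ℕ)*T + S^(2:ℕ) - S*T + 2*S + T + 1))/((S + 1)*(-S*T + S + T + 1)), (T)/((-S*T + S + T + 1))) = (((S + T + 1)*(T - 1))/(T*(-S*T + S + T + 1)), (S*T^(2:ℕ))/((S + 1)*(T + 1)*(-S*T + S + T + 1))) := fl_be' pT d4 d3 d0 d1 (by ring) (by ring)

theorem G2_rA (S T : ℝ) (f0 : fl S T Letter.al (((S + T + 1)*(T - 1))/(T*(-S*T + S + T + 1)), (S*T^(2:ℕ))/((S + 1)*(T + 1)*(-S*T + S + T + 1))) = (((S^(2:ℕ)*T - S^(2:ℕ) + S*T + T^(2:ℕ) - 2*S - 1))/(T*(S + 1)*(-S*T + S + T + 1)), (T)/((-S*T + S + T + 1)))) (f1 : fl S T Letter.be (((S^(2:ℕ)*T - S^(2:ℕ) + S*T + T^(2:ℕ) - 2*S - 1))/(T*(S + 1)*(-S*T + S + T + 1)), (T)/((-S*T + S + T + 1))) = (((S + T + 1)*(T - 1))/(T*(-S*T + S + T + 1)), ((-S^(2:ℕ)*T^(2:ℕ) + S^(2:ℕ) + S*T + 2*S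 + T + 1))/((S + 1)*(T + 1)*(-S*T + S + T + 1)))) (f2 : fl S T Letter.be (((S + T + 1)*(T - 1))/(T*(-S*T + S + T + 1)), ((-S^(2:ℕ)*T^(2:ℕ) + S^(2:ℕ) + S*T + 2*S + T + 1))/((S + 1)*(T + 1)*(-S*T + S + T + 1))) = ((S*(-S*T + S + 1))/((S + 1)*(-S*T + S + T + 1)), ((-S*T + S + 1))/((-S*T + S + T + 1)))) (f3 : fl S T Letter.ga ((S*(-S*T + S + 1))/((S + 1)*(-S*T + S + T + 1)), ((-S*T + S + 1))/((-S*T + S + T + 1))) = (((-S^(2:ℕ)*T + S^(2:ℕ) - S*T + 2*S + T + 1))/((S + 1)*(-S*T + S + T + 1)), (T)/((-S*T + S + T + 1)))) (f4 : fl S T Letter.be (((-S^(2:ℕ)*T + S^(2:ℕ) - S*T + 2*S + T + 1))/((S + 1)*(-S*T + S + T + 1)), (T)/((-S*T + S + T + 1))) = (((S + T + 1)*(T - 1))/(T*(-S*T + S + T + 1)), (S*T^(2:ℕ))/((S + 1)*(T + 1)*(-S*T + S + T + 1)))) :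
    run S T [Letter.al, Letter.be, Letter.be, Letter.ga, Letter.be] (((S + T + 1)*(T - 1))/(T*(-S*T + S + T + 1)), (S*T^(2:ℕ))/((S + 1)*(T + 1)*(-S*T + S + T + 1))) = (((S + T + 1)*(T - 1))/(T*(-S*T + S + T + 1)), (S*T^(2:ℕ))/((S + 1)*(T + 1)*(-S*T + S + T + 1))) := (run_cons' f0 (run_cons' f1 (run_cons' f2 (run_cons' f3 (run_cons' f4 run_nil')))))

theorem G2_d5 (S T : ℝ) (pT : 0 < T) (pA : 0 < (S + 1)) (pU : 0 < (S + T + 1)) :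
    0 < T*(S + 1)*(S + T + 1) := (mul_pos (mul_pos pT pA) pU)

theorem G2_d6 (S T : ℝ) (pT : 0 < T) (pA : 0 < (S + 1)) (pB : 0 < (T + 1)) :
    0 < T*(S + 1)^(2:ℕ)*(T + 1) := (mul_pos (mul_pos pT (pow_pos pA 2)) pB)

theorem G2_f5 (S T : ℝ) (pS : 0 < S) (pT : 0 < T) (d1 : 0 < (S + 1)*(T + 1)*(-S*T + S + T + 1)) (d3 : 0 < (-S*T + S + T + 1)) (d5 : 0 < T*(S + 1)*(S + T + 1)) (d6 : 0 < T*(S + 1)^(2:ℕ)*(T + 1)) :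
    fl S T Letter.al (((S^(2:ℕ)*T^(2:ℕ) + S^(2:ℕ)*T + S*T^(2:ℕ) - S^(2:ℕ) + S*T + T^(2:ℕ) - 2*S - 1))/(T*(S + 1)*(S + T + 1)), (S*T^(2:ℕ))/((S + 1)*(T + 1)*(-S*T + S + T + 1))) = (((S^(2:ℕ)*T^(2:ℕ) + S*T^(2:ℕ) - S^(2:ℕ) + T^(2:ℕ) - 2*S - 1))/(T*(S + 1)^(2:ℕ)*(T + 1)), (T)/((-S*T + S + T + 1))) := fl_al' pS pT d5 d1 d6 d3 (by ring) (by ring)

theorem G2_d7 (S T : ℝ) (pA : 0 < (S + 1)) (pB : 0 < (T + 1)) :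
    0 < (S + 1)^(2:ℕ)*(T + 1)^(2:ℕ) := (mul_pos (pow_pos pA 2) (pow_pos pB 2))

theorem G2_f6 (S T : ℝ) (pT : 0 < T) (d0 : 0 < T*(-S*T + S + T + 1)) (d3 : 0 < (-S*T + S + T + 1)) (d6 : 0 < T*(S + 1)^(2:ℕ)*(T + 1)) (d7 : 0 < (S + 1)^(2:ℕ)*(T + 1)^(2:ℕ)) :
    fl S T Letter.be (((S^(2:ℕ)*T^(2:ℕ) + S*T^(2:ℕ) - S^(2:ℕ) + T^(2:ℕ) - 2*S - 1))/(T*(S + 1)^(2:ℕ)*(T + 1)), (T)/((-S*T + S + T + 1))) = (((S + T + 1)*(T - 1))/(T*(-S*T + S + T + 1)), ((S + T + 1)*(S*T + S + 1))/((S + 1)^(2:ℕ)*(T + 1)^(2:ℕ))) := fl_be' pT d6 d3 d0 d7 (by ring) (by ring)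

theorem G2_d8 (S T : ℝ) (pA : 0 < (S + 1)) (pB : 0 < (T + 1)) :
    0 < (S + 1)^(2:ℕ)*(T + 1) := (mul_pos (pow_pos pA 2) pB)

theorem G2_f7 (S T : ℝ) (pT : 0 < T) (d0 : 0 < T*(-S*T + S + T + 1)) (d3 : 0 < (-S*T + S + T + 1)) (d7 : 0 < (S + 1)^(2:ℕ)*(T + 1)^(2:ℕ)) (d8 : 0 < (S + 1)^(2:ℕ)*(T + 1)) :
    fl S T Letter.be (((S + T + 1)*(T - 1))/(T*(-S*T + S + T + 1)), ((S + T + 1)*(S*T + S + 1))/((S + 1)^(2:ℕ)*(T + 1)^(2:ℕ))) = ((S*T)/((S + 1)^(2:ℕ)*(T + 1)), ((-S*T + S + 1))/((-S*T + S + T + 1))) := fl_be' pT d0 d7 d8 d3 (by ring) (by ring)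

theorem G2_d9 (S T : ℝ) (pA : 0 < (S + 1)) (pB : 0 < (T + 1)) :
    0 < (S + 1)*(T + 1) := (mul_pos pA pB)

theorem G2_f8 (S T : ℝ) (pS : 0 < S) (d3 : 0 < (-S*T + S + T + 1)) (d4 : 0 < (S + 1)*(-S*T + S + T + 1)) (d8 : 0 < (S + 1)^(2:ℕ)*(T + 1)) (d9 : 0 < (S + 1)*(T + 1)) :
    fl S T Letter.ga ((S*T)/((S + 1)^(2:ℕ)*(T + 1)), ((-S*T + S + 1))/((-S*T + S + T + 1))) = (((-S^(2:ℕ)*T + S^(2:ℕ) - S*T + 2*S + T + 1))/((S + 1)*(-S*T + S + T + 1)), ((S*T + S + 1))/((S + 1)*(T + 1))) := fl_ga' pS d8 d3 d4 d9 (by ring) (by ring)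

theorem G2_d10 (S T : ℝ) (pA : 0 < (S + 1)) :
    0 < (S + 1) := pA

theorem G2_f9 (S T : ℝ) (pT : 0 < T) (d1 : 0 < (S + 1)*(T + 1)*(-S*T + S + T + 1)) (d4 : 0 < (S + 1)*(-S*T + S + T + 1)) (d9 : 0 < (S + 1)*(T + 1)) (d10 : 0 < (S + 1)) :
    fl S T Letter.be (((-S^(2:ℕ)*T + S^(2:ℕ) - S*T + 2*S + T + 1))/((S + 1)*(-S*T + S + T + 1)), ((S*T + S + 1))/((S + 1)*(T + 1))) = ((S)/((S + 1)), (S*T^(2:ℕ))/((S + 1)*(T + 1)*(-S*T + S + T + 1))) := fl_be' pT d4 d9 d10 d1 (by ring) (by ring)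

theorem G2_rP (S T : ℝ) (f5 : fl S T Letter.al (((S^(2:ℕ)*T^(2:ℕ) + S^(2:ℕ)*T + S*T^(2:ℕ) - S^(2:ℕ) + S*T + T^(2:ℕ) - 2*S - 1))/(T*(S + 1)*(S + T + 1)), (S*T^(2:ℕ))/((S + 1)*(T + 1)*(-S*T + S + T + 1))) = (((S^(2:ℕ)*T^(2:ℕ) + S*T^(2:ℕ) - S^(2:ℕ) + T^(2:ℕ) - 2*S - 1))/(T*(S + 1)^(2:ℕ)*(T + 1)), (T)/((-S*T + S + T + 1)))) (f6 : fl S T Letter.be (((S^(2:ℕ)*T^(2:ℕ) + S*T^(2:ℕ) - S^(2:ℕ) + T^(2:ℕ) - 2*S - 1))/(T*(S + 1)^(2:ℕ)*(T + 1)), (T)/((-S*T + S + T + 1))) = (((S + T + 1)*(T - 1))/(T*(-S*T + S + T + 1)), ((S + T + 1)*(S*T + S + 1))/((S + 1)^(2:ℕ)*(T + 1)^(2:ℕ)))) (f7 : fl S T Letter.be (((S + T + 1)*(T - 1))/(T*(-S*T + S + T + 1)), ((S + T + 1)*(S*T + S + 1))/((S + 1)^(2:ℕ)*(T + 1)^(2:ℕ))) = ((S*T)/((S + 1)^(2:ℕ)*(T + 1)), ((-S*T + S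 + 1))/((-S*T + S + T + 1)))) (f8 : fl S T Letter.ga ((S*T)/((S + 1)^(2:ℕ)*(T + 1)), ((-S*T + S + 1))/((-S*T + S + T + 1))) = (((-S^(2:ℕ)*T + S^(2:ℕ) - S*T + 2*S + T + 1))/((S + 1)*(-S*T + S + T + 1)), ((S*T + S + 1))/((S + 1)*(T + 1)))) (f9 : fl S T Letter.be (((-S^(2:ℕ)*T + S^(2:ℕ) - S*T + 2*S + T + 1))/((S + 1)*(-S*T + S + T + 1)), ((S*T + S + 1))/((S + 1)*(T + 1))) = ((S)/((S + 1)), (S*T^(2:ℕ))/((S + 1)*(T + 1)*(-S*T + S + T + 1)))) :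
    run S T [Letter.al, Letter.be, Letter.be, Letter.ga, Letter.be] (((S^(2:ℕ)*T^(2:ℕ) + S^(2:ℕ)*T + S*T^(2:ℕ) - S^(2:ℕ) + S*T + T^(2:ℕ) - 2*S - 1))/(T*(S + 1)*(S + T + 1)), (S*T^(2:ℕ))/((S + 1)*(T + 1)*(-S*T + S + T + 1))) = ((S)/((S + 1)), (S*T^(2:ℕ))/((S + 1)*(T + 1)*(-S*T + S + T + 1))) := (run_cons' f5 (run_cons' f6 (run_cons' f7 (run_cons' f8 (run_cons' f9 run_nil')))))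

theorem G2_d11 (S T : ℝ) (c1 : 0 < S^(2:ℕ)*T^(2:ℕ) + S^(2:ℕ)*T + S*T^(2:ℕ) - S^(2:ℕ) + S*T + T^(2:ℕ) - 2*S - 1) :
    0 < (S^(2:ℕ)*T^(2:ℕ) + S^(2:ℕ)*T + S*T^(2:ℕ) - S^(2:ℕ) + S*T + T^(2:ℕ) - 2*S - 1) := c1

theorem G2_q0 (S T : ℝ) (d5 : 0 < T*(S + 1)*(S + T + 1)) (d11 : 0 < (S^(2:ℕ)*T^(2:ℕ) + S^(2:ℕ)*T + S*T^(2:ℕ) - S^(2:ℕ) + S*T + T^(2:ℕ) - 2*S - 1)) :
    0 < ((S^(2:ℕ)*T^(2:ℕ) + S^(2:ℕ)*T + S*T^(2:ℕ) - S^(2:ℕ) + S*T + T^(2:ℕ) - 2*S - 1))/(T*(S + 1)*(S + T + 1)) := div_pos d11 d5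

theorem G2_d12 (S T : ℝ) (c2 : 0 < -S^(2:ℕ)*T^(2:ℕ) + S^(2:ℕ) + S*T + 2*S + T + 1) :
    0 < (-S^(2:ℕ)*T^(2:ℕ) + S^(2:ℕ) + S*T + 2*S + T + 1) := c2

theorem G2_q1 (S T : ℝ) (d5 : 0 < T*(S + 1)*(S + T + 1)) (d12 : 0 < (-S^(2:ℕ)*T^(2:ℕ) + S^(2:ℕ) + S*T + 2*S + T + 1)) :
    ((S^(2:ℕ)*T^(2:ℕ) + S^(2:ℕ)*T + S*T^(2:ℕ) - S^(2:ℕ) + S*T + T^(2:ℕ) - 2*S - 1))/(T*(S + 1)*(S + T + 1)) < 1 := rlt1 d5 d12 d5 (by ring)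

theorem G2_d13 (S T : ℝ) (pS : 0 < S) (pT : 0 < T) :
    0 < S*T^(2:ℕ) := (mul_pos pS (pow_pos pT 2))

theorem G2_q2 (S T : ℝ) (d1 : 0 < (S + 1)*(T + 1)*(-S*T + S + T + 1)) (d13 : 0 < S*T^(2:ℕ)) :
    0 < (S*T^(2:ℕ))/((S + 1)*(T + 1)*(-S*T + S + T + 1)) := div_pos d13 d1

theorem G2_d14 (S T : ℝ) (c3 : 0 < -S^(2:ℕ)*T^(2:ℕ) - S*T^(2:ℕ) + S^(2:ℕ) + 2*S*T + T^(2:ℕ) + 2*S + 2*T + 1) :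
    0 < (-S^(2:ℕ)*T^(2:ℕ) - S*T^(2:ℕ) + S^(2:ℕ) + 2*S*T + T^(2:ℕ) + 2*S + 2*T + 1) := c3

theorem G2_q3 (S T : ℝ) (d1 : 0 < (S + 1)*(T + 1)*(-S*T + S + T + 1)) (d14 : 0 < (-S^(2:ℕ)*T^(2:ℕ) - S*T^(2:ℕ) + S^(2:ℕ) + 2*S*T + T^(2:ℕ) + 2*S + 2*T + 1)) :
    (S*T^(2:ℕ))/((S + 1)*(T + 1)*(-S*T + S + T + 1)) < 1 := rlt1 d1 d14 d1 (by ring)

theorem G2_sP (S T : ℝ) (q0 : 0 < ((S^(2:ℕ)*T^(2:ℕ) + S^(2:ℕ)*T + S*T^(2:ℕ) - S^(2:ℕ) + S*T + T^(2:ℕ) - 2*S - 1))/(T*(S + 1)*(S + T + 1))) (q1 : ((S^(2:ℕ)*T^(2:ℕ) + S^(2:ℕ)*T + S*T^(2:ℕ) - S^(2:ℕ) + S*T + T^(2:ℕ) - 2*S - 1))/(T*(S + 1)*(S + T + 1)) < 1) (q2 : 0 < (S*T^(2:ℕ))/((S + 1)*(T + 1)*(-S*T + S + T + 1))) (q3 : (S*T^(2:ℕ))/((S + 1)*(T + 1)*(-S*T + S + T + 1)) < 1) :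
    Sq (((S^(2:ℕ)*T^(2:ℕ) + S^(2:ℕ)*T + S*T^(2:ℕ) - S^(2:ℕ) + S*T + T^(2:ℕ) - 2*S - 1))/(T*(S + 1)*(S + T + 1)), (S*T^(2:ℕ))/((S + 1)*(T + 1)*(-S*T + S + T + 1))) := ⟨⟨q0, q1⟩, q2, q3⟩

theorem G2_d15 (S T : ℝ) (c4 : 0 < S^(2:ℕ)*T^(2:ℕ) + S*T^(2:ℕ) - S^(2:ℕ) + T^(2:ℕ) - 2*S - 1) :
    0 < (S^(2:ℕ)*T^(2:ℕ) + S*T^(2:ℕ) - S^(2:ℕ) + T^(2:ℕ) - 2*S - 1) := c4

theorem G2_d16 (S T : ℝ) (pT : 0 < T) (pA : 0 < (S + 1)) :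
    0 < T*(S + 1) := (mul_pos pT pA)

theorem G2_g0 (S T : ℝ) (d5 : 0 < T*(S + 1)*(S + T + 1)) (d15 : 0 < (S^(2:ℕ)*T^(2:ℕ) + S*T^(2:ℕ) - S^(2:ℕ) + T^(2:ℕ) - 2*S - 1)) (d16 : 0 < T*(S + 1)) :
    S < (S + T + 1) * (((S^(2:ℕ)*T^(2:ℕ) + S^(2:ℕ)*T + S*T^(2:ℕ) - S^(2:ℕ) + S*T + T^(2:ℕ) - 2*S - 1))/(T*(S + 1)*(S + T + 1))) := rgt d5 d15 d16 (by ring)

theorem G2_d17 (S T : ℝ) (pU : 0 < (S + T + 1)) (c5 : 0 < -S*T + S + 1) :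
    0 < (S + T + 1)*(-S*T + S + 1) := (mul_pos pU c5)

theorem G2_g1 (S T : ℝ) (d1 : 0 < (S + 1)*(T + 1)*(-S*T + S + T + 1)) (d4 : 0 < (S + 1)*(-S*T + S + T + 1)) (d17 : 0 < (S + T + 1)*(-S*T + S + 1)) :
    (T + 1) * ((S*T^(2:ℕ))/((S + 1)*(T + 1)*(-S*T + S + T + 1))) < 1 := rlt d1 d17 d4 (by ring)

theorem G2_oP_0 (S T : ℝ) (g0 : S < (S + T + 1) * (((S^(2:ℕ)*T^(2:ℕ) + S^(2:ℕ)*T + S*T^(2:ℕ) - S^(2:ℕ) + S*T + T^(2:ℕ) - 2*S - 1))/(T*(S + 1)*(S + T + 1)))) (g1 : (T + 1) * ((S*T^(2:ℕ))/((S + 1)*(T + 1)*(-S*T + S + T + 1))) < 1) :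
    cond S T Letter.al (((S^(2:ℕ)*T^(2:ℕ) + S^(2:ℕ)*T + S*T^(2:ℕ) - S^(2:ℕ) + S*T + T^(2:ℕ) - 2*S - 1))/(T*(S + 1)*(S + T + 1)), (S*T^(2:ℕ))/((S + 1)*(T + 1)*(-S*T + S + T + 1))) := ⟨g0, g1⟩

theorem G2_d18 (S T : ℝ) (c6 : 0 < S^(2:ℕ)*T^(3:ℕ) - S^(3:ℕ)*T + S*T^(3:ℕ) - S^(3:ℕ) - 3*S^(2:ℕ)*T + S*T^(2:ℕ) + T^(3:ℕ) - 3*S^(2:ℕ) - 3*S*T + T^(2:ℕ) - 3*S - T - 1) :
    0 < (S^(2:ℕ)*T^(3:ℕ) - S^(3:ℕ)*T + S*T^(3:ℕ) - S^(3:ℕ) - 3*S^(2:ℕ)*T + S*T^(2:ℕ) + T^(3:ℕ) - 3*S^(2:ℕ) - 3*S*T + T^(2:ℕ) - 3*S - T - 1) := c6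

theorem G2_g2 (S T : ℝ) (d6 : 0 < T*(S + 1)^(2:ℕ)*(T + 1)) (d18 : 0 < (S^(2:ℕ)*T^(3:ℕ) - S^(3:ℕ)*T + S*T^(3:ℕ) - S^(3:ℕ) - 3*S^(2:ℕ)*T + S*T^(2:ℕ) + T^(3:ℕ) - 3*S^(2:ℕ) - 3*S*T + T^(2:ℕ) - 3*S - T - 1)) :
    S < (S + T + 1) * (((S^(2:ℕ)*T^(2:ℕ) + S*T^(2:ℕ) - S^(2:ℕ) + T^(2:ℕ) - 2*S - 1))/(T*(S + 1)^(2:ℕ)*(T + 1))) := rgt d6 d18 d6 (by ring)

theorem G2_d19 (S T : ℝ) (pU : 0 < (S + T + 1)) (c7 : 0 < T - 1) :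
    0 < (S + T + 1)*(T - 1) := (mul_pos pU c7)

theorem G2_g3 (S T : ℝ) (d3 : 0 < (-S*T + S + T + 1)) (d19 : 0 < (S + T + 1)*(T - 1)) :
    1 < (T + 1) * ((T)/((-S*T + S + T + 1))) := rgt d3 d19 d3 (by ring)

theorem G2_oP_1 (S T : ℝ) (g2 : S < (S + T + 1) * (((S^(2:ℕ)*T^(2:ℕ) + S*T^(2:ℕ) - S^(2:ℕ) + T^(2:ℕ) - 2*S - 1))/(T*(S + 1)^(2:ℕ)*(T + 1)))) (g3 : 1 < (T + 1) * ((T)/((-S*T + S + T + 1)))) :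
    cond S T Letter.be (((S^(2:ℕ)*T^(2:ℕ) + S*T^(2:ℕ) - S^(2:ℕ) + T^(2:ℕ) - 2*S - 1))/(T*(S + 1)^(2:ℕ)*(T + 1)), (T)/((-S*T + S + T + 1))) := ⟨g2, g3⟩

theorem G2_d20 (S T : ℝ) (pB : 0 < (T + 1)) (c8 : 0 < S^(2:ℕ)*T - S^(2:ℕ) + S*T + T^(2:ℕ) - 2*S - 1) :
    0 < (T + 1)*(S^(2:ℕ)*T - S^(2:ℕ) + S*T + T^(2:ℕ) - 2*S - 1) := (mul_pos pB c8)

theorem G2_g4 (S T : ℝ) (d0 : 0 < T*(-S*T + S + T + 1)) (d20 : 0 < (T + 1)*(S^(2:ℕ)*T - S^(2:ℕ) + S*T + T^(2:ℕ) - 2*S - 1)) :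
    S < (S + T + 1) * (((S + T + 1)*(T - 1))/(T*(-S*T + S + T + 1))) := rgt d0 d20 d0 (by ring)

theorem G2_g5 (S T : ℝ) (d7 : 0 < (S + 1)^(2:ℕ)*(T + 1)^(2:ℕ)) (d8 : 0 < (S + 1)^(2:ℕ)*(T + 1)) (d13 : 0 < S*T^(2:ℕ)) :
    1 < (T + 1) * (((S + T + 1)*(S*T + S + 1))/((S + 1)^(2:ℕ)*(T + 1)^(2:ℕ))) := rgt d7 d13 d8 (by ring)

theorem G2_oP_2 (S T : ℝ) (g4 : S < (S + T + 1) * (((S + T + 1)*(T - 1))/(T*(-S*T + S + T + 1)))) (g5 : 1 < (T + 1) * (((S + T + 1)*(S*T + S + 1))/((S + 1)^(2:ℕ)*(T + 1)^(2:ℕ)))) :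
    cond S T Letter.be (((S + T + 1)*(T - 1))/(T*(-S*T + S + T + 1)), ((S + T + 1)*(S*T + S + 1))/((S + 1)^(2:ℕ)*(T + 1)^(2:ℕ))) := ⟨g4, g5⟩

theorem G2_d21 (S T : ℝ) (pS : 0 < S) (c9 : 0 < S^(2:ℕ)*T + S^(2:ℕ) + S*T - T^(2:ℕ) + 2*S + 1) :
    0 < S*(S^(2:ℕ)*T + S^(2:ℕ) + S*T - T^(2:ℕ) + 2*S + 1) := (mul_pos pS c9)

theorem G2_g6 (S T : ℝ) (d8 : 0 < (S + 1)^(2:ℕ)*(T + 1)) (d21 : 0 < S*(S^(2:ℕ)*T + S^(2:ℕ) + S*T - T^(2:ℕ) + 2*S + 1)) :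
    (S + T + 1) * ((S*T)/((S + 1)^(2:ℕ)*(T + 1))) < S := rlt d8 d21 d8 (by ring)

theorem G2_oP_3 (S T : ℝ) (g6 : (S + T + 1) * ((S*T)/((S + 1)^(2:ℕ)*(T + 1))) < S) :
    cond S T Letter.ga ((S*T)/((S + 1)^(2:ℕ)*(T + 1)), ((-S*T + S + 1))/((-S*T + S + T + 1))) := g6

theorem G2_d22 (S T : ℝ) (c10 : 0 < -S^(2:ℕ)*T^(2:ℕ) - S^(2:ℕ)*T - S*T^(2:ℕ) + S^(2:ℕ) + S*T + T^(2:ℕ) + 2*S + 2*T + 1) :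
    0 < (-S^(2:ℕ)*T^(2:ℕ) - S^(2:ℕ)*T - S*T^(2:ℕ) + S^(2:ℕ) + S*T + T^(2:ℕ) + 2*S + 2*T + 1) := c10

theorem G2_g7 (S T : ℝ) (d4 : 0 < (S + 1)*(-S*T + S + T + 1)) (d22 : 0 < (-S^(2:ℕ)*T^(2:ℕ) - S^(2:ℕ)*T - S*T^(2:ℕ) + S^(2:ℕ) + S*T + T^(2:ℕ) + 2*S + 2*T + 1)) :
    S < (S + T + 1) * (((-S^(2:ℕ)*T + S^(2:ℕ) - S*T + 2*S + T + 1))/((S + 1)*(-S*T + S + T + 1))) := rgt d4 d22 d4 (by ring)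

theorem G2_d23 (S T : ℝ) (pS : 0 < S) (pT : 0 < T) :
    0 < S*T := (mul_pos pS pT)

theorem G2_g8 (S T : ℝ) (d9 : 0 < (S + 1)*(T + 1)) (d10 : 0 < (S + 1)) (d23 : 0 < S*T) :
    1 < (T + 1) * (((S*T + S + 1))/((S + 1)*(T + 1))) := rgt d9 d23 d10 (by ring)

theorem G2_oP_4 (S T : ℝ) (g7 : S < (S + T + 1) * (((-S^(2:ℕ)*T + S^(2:ℕ) - S*T + 2*S + T + 1))/((S + 1)*(-S*T + S + T + 1)))) (g8 : 1 < (T + 1) * (((S*T + S + 1))/((S + 1)*(T + 1)))) :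
    cond S T Letter.be (((-S^(2:ℕ)*T + S^(2:ℕ) - S*T + 2*S + T + 1))/((S + 1)*(-S*T + S + T + 1)), ((S*T + S + 1))/((S + 1)*(T + 1))) := ⟨g7, g8⟩

theorem G2_oP (S T : ℝ) (f5 : fl S T Letter.al (((S^(2:ℕ)*T^(2:ℕ) + S^(2:ℕ)*T + S*T^(2:ℕ) - S^(2:ℕ) + S*T + T^(2:ℕ) - 2*S - 1))/(T*(S + 1)*(S + T + 1)), (S*T^(2:ℕ))/((S + 1)*(T + 1)*(-S*T + S + T + 1))) = (((S^(2:ℕ)*T^(2:ℕ) + S*T^(2:ℕ) - S^(2:ℕ) + T^(2:ℕ) - 2*S - 1))/(T*(S + 1)^(2:ℕ)*(T + 1)), (T)/((-S*T + S + T + 1)))) (f6 : fl S T Letter.be (((S^(2:ℕ)*T^(2:ℕ) + S*T^(2:ℕ) - S^(2:ℕ) + T^(2:ℕ) - 2*S - 1))/(T*(S + 1)^(2:ℕ)*(T + 1)), (T)/((-S*T + S + T + 1))) = (((S + T + 1)*(T - 1))/(T*(-S*T + S + T + 1)), ((S + T + 1)*(S*T + S + 1))/((S + 1)^(2:ℕ)*(T + 1)^(2:ℕ)))) (f7 : fl S T Letter.be (((S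 + T + 1)*(T - 1))/(T*(-S*T + S + T + 1)), ((S + T + 1)*(S*T + S + 1))/((S + 1)^(2:ℕ)*(T + 1)^(2:ℕ))) = ((S*T)/((S + 1)^(2:ℕ)*(T + 1)), ((-S*T + S + 1))/((-S*T + S + T + 1)))) (f8 : fl S T Letter.ga ((S*T)/((S + 1)^(2:ℕ)*(T + 1)), ((-S*T + S + 1))/((-S*T + S + T + 1))) = (((-S^(2:ℕ)*T + S^(2:ℕ) - S*T + 2*S + T + 1))/((S + 1)*(-S*T + S + T + 1)), ((S*T + S + 1))/((S + 1)*(T + 1)))) (oP_0 : cond S T Letter.al (((S^(2:ℕ)*T^(2:ℕ) + S^(2:ℕ)*T + S*T^(2:ℕ) - S^(2:ℕ) + S*T + T^(2:ℕ) - 2*S - 1))/(T*(S + 1)*(S + T + 1)), (S*T^(2:ℕ))/((S + 1)*(T + 1)*(-S*T + S + T + 1)))) (oP_1 : cond S T Letter.be (((S^(2:ℕ)*T^(2:ℕ) + S*T^(2:ℕ) - S^(2:ℕ) + T^(2:ℕ) - 2*S - 1))/(T*(S + 1)^(2:ℕ)*(T + 1)), (T)/((-S*T + S + T + 1)))) (oP_2 : cond S T Letter.be (((S +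 T + 1)*(T - 1))/(T*(-S*T + S + T + 1)), ((S + T + 1)*(S*T + S + 1))/((S + 1)^(2:ℕ)*(T + 1)^(2:ℕ)))) (oP_3 : cond S T Letter.ga ((S*T)/((S + 1)^(2:ℕ)*(T + 1)), ((-S*T + S + 1))/((-S*T + S + T + 1)))) (oP_4 : cond S T Letter.be (((-S^(2:ℕ)*T + S^(2:ℕ) - S*T + 2*S + T + 1))/((S + 1)*(-S*T + S + T + 1)), ((S*T + S + 1))/((S + 1)*(T + 1)))) :
    okc S T [Letter.al, Letter.be, Letter.be, Letter.ga, Letter.be] (((S^(2:ℕ)*T^(2:ℕ) + S^(2:ℕ)*T + S*T^(2:ℕ) - S^(2:ℕ) + S*T + T^(2:ℕ) - 2*S - 1))/(T*(S + 1)*(S + T + 1)), (S*T^(2:ℕ))/((S + 1)*(T + 1)*(-S*T + S + T + 1))) := (okc_cons' oP_0 f5 (okc_cons' oP_1 f6 (okc_cons' oP_2 f7 (okc_cons' oP_3 f8 (okc_last' oP_4)))))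

theorem G2_q4 (S T : ℝ) (d0 : 0 < T*(-S*T + S + T + 1)) (d19 : 0 < (S + T + 1)*(T - 1)) :
    0 < ((S + T + 1)*(T - 1))/(T*(-S*T + S + T + 1)) := div_pos d19 d0

theorem G2_d24 (S T : ℝ) (pB : 0 < (T + 1)) (c5 : 0 < -S*T + S + 1) :
    0 < (T + 1)*(-S*T + S + 1) := (mul_pos pB c5)

theorem G2_q5 (S T : ℝ) (d0 : 0 < T*(-S*T + S + T + 1)) (d24 : 0 < (T + 1)*(-S*T + S + 1)) :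
    ((S + T + 1)*(T - 1))/(T*(-S*T + S + T + 1)) < 1 := rlt1 d0 d24 d0 (by ring)

theorem G2_sA (S T : ℝ) (q2 : 0 < (S*T^(2:ℕ))/((S + 1)*(T + 1)*(-S*T + S + T + 1))) (q3 : (S*T^(2:ℕ))/((S + 1)*(T + 1)*(-S*T + S + T + 1)) < 1) (q4 : 0 < ((S + T + 1)*(T - 1))/(T*(-S*T + S + T + 1))) (q5 : ((S + T + 1)*(T - 1))/(T*(-S*T + S + T + 1)) < 1) :
    Sq (((S + T + 1)*(T - 1))/(T*(-S*T + S + T + 1)), (S*T^(2:ℕ))/((S + 1)*(T + 1)*(-S*T + S + T + 1))) := ⟨⟨q4, q5⟩, q2, q3⟩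

theorem G2_oA_0 (S T : ℝ) (g1 : (T + 1) * ((S*T^(2:ℕ))/((S + 1)*(T + 1)*(-S*T + S + T + 1))) < 1) (g4 : S < (S + T + 1) * (((S + T + 1)*(T - 1))/(T*(-S*T + S + T + 1)))) :
    cond S T Letter.al (((S + T + 1)*(T - 1))/(T*(-S*T + S + T + 1)), (S*T^(2:ℕ))/((S + 1)*(T + 1)*(-S*T + S + T + 1))) := ⟨g4, g1⟩

theorem G2_d25 (S T : ℝ) (c11 : 0 < S^(3:ℕ)*T^(2:ℕ) + S^(2:ℕ)*T^(2:ℕ) - S^(3:ℕ) - S^(2:ℕ)*T + S*T^(2:ℕ) + T^(3:ℕ) - 3*S^(2:ℕ) - 2*S*T + T^(2:ℕ) - 3*S - T - 1) :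
    0 < (S^(3:ℕ)*T^(2:ℕ) + S^(2:ℕ)*T^(2:ℕ) - S^(3:ℕ) - S^(2:ℕ)*T + S*T^(2:ℕ) + T^(3:ℕ) - 3*S^(2:ℕ) - 2*S*T + T^(2:ℕ) - 3*S - T - 1) := c11

theorem G2_g9 (S T : ℝ) (d2 : 0 < T*(S + 1)*(-S*T + S + T + 1)) (d25 : 0 < (S^(3:ℕ)*T^(2:ℕ) + S^(2:ℕ)*T^(2:ℕ) - S^(3:ℕ) - S^(2:ℕ)*T + S*T^(2:ℕ) + T^(3:ℕ) - 3*S^(2:ℕ) - 2*S*T + T^(2:ℕ) - 3*S - T - 1)) :
    S < (S + T + 1) * (((S^(2:ℕ)*T - S^(2:ℕ) + S*T + T^(2:ℕ) - 2*S - 1))/(T*(S + 1)*(-S*T + S + T + 1))) := rgt d2 d25 d2 (by ring)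

theorem G2_oA_1 (S T : ℝ) (g3 : 1 < (T + 1) * ((T)/((-S*T + S + T + 1)))) (g9 : S < (S + T + 1) * (((S^(2:ℕ)*T - S^(2:ℕ) + S*T + T^(2:ℕ) - 2*S - 1))/(T*(S + 1)*(-S*T + S + T + 1)))) :
    cond S T Letter.be (((S^(2:ℕ)*T - S^(2:ℕ) + S*T + T^(2:ℕ) - 2*S - 1))/(T*(S + 1)*(-S*T + S + T + 1)), (T)/((-S*T + S + T + 1))) := ⟨g9, g3⟩

theorem G2_d26 (S T : ℝ) (pS : 0 < S) (pT : 0 < T) (c5 : 0 < -S*T + S + 1) :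
    0 < S*T*(-S*T + S + 1) := (mul_pos (mul_pos pS pT) c5)

theorem G2_g10 (S T : ℝ) (d1 : 0 < (S + 1)*(T + 1)*(-S*T + S + T + 1)) (d4 : 0 < (S + 1)*(-S*T + S + T + 1)) (d26 : 0 < S*T*(-S*T + S + 1)) :
    1 < (T + 1) * (((-S^(2:ℕ)*T^(2:ℕ) + S^(2:ℕ) + S*T + 2*S + T + 1))/((S + 1)*(T + 1)*(-S*T + S + T + 1))) := rgt d1 d26 d4 (by ring)

theorem G2_oA_2 (S T : ℝ) (g4 : S < (S + T + 1) * (((S + T + 1)*(T - 1))/(T*(-S*T + S + T + 1)))) (g10 : 1 < (T + 1) * (((-S^(2:ℕ)*T^(2:ℕ) + S^(2:ℕ) + S*T + 2*S + T + 1))/((S + 1)*(T + 1)*(-S*T + S + T + 1)))) :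
    cond S T Letter.be (((S + T + 1)*(T - 1))/(T*(-S*T + S + T + 1)), ((-S^(2:ℕ)*T^(2:ℕ) + S^(2:ℕ) + S*T + 2*S + T + 1))/((S + 1)*(T + 1)*(-S*T + S + T + 1))) := ⟨g4, g10⟩

theorem G2_d27 (S T : ℝ) (pS : 0 < S) (pT : 0 < T) :
    0 < S^(2:ℕ)*T^(2:ℕ) := (mul_pos (pow_pos pS 2) (pow_pos pT 2))

theorem G2_g11 (S T : ℝ) (d4 : 0 < (S + 1)*(-S*T + S + T + 1)) (d27 : 0 < S^(2:ℕ)*T^(2:ℕ)) :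
    (S + T + 1) * ((S*(-S*T + S + 1))/((S + 1)*(-S*T + S + T + 1))) < S := rlt d4 d27 d4 (by ring)

theorem G2_oA_3 (S T : ℝ) (g11 : (S + T + 1) * ((S*(-S*T + S + 1))/((S + 1)*(-S*T + S + T + 1))) < S) :
    cond S T Letter.ga ((S*(-S*T + S + 1))/((S + 1)*(-S*T + S + T + 1)), ((-S*T + S + 1))/((-S*T + S + T + 1))) := g11

theorem G2_oA_4 (S T : ℝ) (g3 : 1 < (T + 1) * ((T)/((-S*T + S + T + 1)))) (g7 : S < (S + T + 1) * (((-S^(2:ℕ)*T + S^(2:ℕ) - S*T + 2*S + T + 1))/((S + 1)*(-S*T + S + T + 1)))) :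
    cond S T Letter.be (((-S^(2:ℕ)*T + S^(2:ℕ) - S*T + 2*S + T + 1))/((S + 1)*(-S*T + S + T + 1)), (T)/((-S*T + S + T + 1))) := ⟨g7, g3⟩

theorem G2_oA (S T : ℝ) (f0 : fl S T Letter.al (((S + T + 1)*(T - 1))/(T*(-S*T + S + T + 1)), (S*T^(2:ℕ))/((S + 1)*(T + 1)*(-S*T + S + T + 1))) = (((S^(2:ℕ)*T - S^(2:ℕ) + S*T + T^(2:ℕ) - 2*S - 1))/(T*(S + 1)*(-S*T + S + T + 1)), (T)/((-S*T + S + T + 1)))) (f1 : fl S T Letter.be (((S^(2:ℕ)*T - S^(2:ℕ) + S*T + T^(2:ℕ) - 2*S - 1))/(T*(S + 1)*(-S*T + S + T + 1)), (T)/((-S*T + S + T + 1))) = (((S + T + 1)*(T - 1))/(T*(-S*T + S + T + 1)), ((-S^(2:ℕ)*T^(2:ℕ) + S^(2:ℕ) + S*T + 2*S + T + 1))/((S + 1)*(T + 1)*(-S*T + S + T + 1)))) (f2 : fl S T Letter.be (((S + T + 1)*(T - 1))/(T*(-S*T + S + T + 1)), ((-S^(2:ℕ)*T^(2:ℕ)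 + S^(2:ℕ) + S*T + 2*S + T + 1))/((S + 1)*(T + 1)*(-S*T + S + T + 1))) = ((S*(-S*T + S + 1))/((S + 1)*(-S*T + S + T + 1)), ((-S*T + S + 1))/((-S*T + S + T + 1)))) (f3 : fl S T Letter.ga ((S*(-S*T + S + 1))/((S + 1)*(-S*T + S + T + 1)), ((-S*T + S + 1))/((-S*T + S + T + 1))) = (((-S^(2:ℕ)*T + S^(2:ℕ) - S*T + 2*S + T + 1))/((S + 1)*(-S*T + S + T + 1)), (T)/((-S*T + S + T + 1)))) (oA_0 : cond S T Letter.al (((S + T + 1)*(T - 1))/(T*(-S*T + S + T + 1)), (S*T^(2:ℕ))/((S + 1)*(T + 1)*(-S*T + S + T + 1)))) (oA_1 : cond S T Letter.be (((S^(2:ℕ)*T - S^(2:ℕ) + S*T + T^(2:ℕ) - 2*S - 1))/(T*(S + 1)*(-S*T + S + T + 1)), (T)/((-S*T + S + T + 1)))) (oA_2 : cond S T Letter.be (((S + T + 1)*(T - 1))/(T*(-S*T + S + T + 1)), ((-S^(2:ℕ)*T^(2:ℕ) + S^(2:ℕ) +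 S*T + 2*S + T + 1))/((S + 1)*(T + 1)*(-S*T + S + T + 1)))) (oA_3 : cond S T Letter.ga ((S*(-S*T + S + 1))/((S + 1)*(-S*T + S + T + 1)), ((-S*T + S + 1))/((-S*T + S + T + 1)))) (oA_4 : cond S T Letter.be (((-S^(2:ℕ)*T + S^(2:ℕ) - S*T + 2*S + T + 1))/((S + 1)*(-S*T + S + T + 1)), (T)/((-S*T + S + T + 1)))) :
    okc S T [Letter.al, Letter.be, Letter.be, Letter.ga, Letter.be] (((S + T + 1)*(T - 1))/(T*(-S*T + S + T + 1)), (S*T^(2:ℕ))/((S + 1)*(T + 1)*(-S*T + S + T + 1))) := (okc_cons' oA_0 f0 (okc_cons' oA_1 f1 (okc_cons' oA_2 f2 (okc_cons' oA_3 f3 (okc_last' oA_4)))))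

theorem G2_rE (S T : ℝ)  :
    run S T [] ((S)/((S + 1)), (S*T^(2:ℕ))/((S + 1)*(T + 1)*(-S*T + S + T + 1))) = ((S)/((S + 1)), (S*T^(2:ℕ))/((S + 1)*(T + 1)*(-S*T + S + T + 1))) := run_nil'

theorem G2_q6 (S T : ℝ) (pS : 0 < S) (d10 : 0 < (S + 1)) :
    0 < (S)/((S + 1)) := div_pos pS d10

theorem G2_q7 (S T : ℝ) (d10 : 0 < (S + 1)) :
    (S)/((S + 1)) < 1 := rlt1 d10 one_pos d10 (by ring)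

theorem G2_sq (S T : ℝ) (q2 : 0 < (S*T^(2:ℕ))/((S + 1)*(T + 1)*(-S*T + S + T + 1))) (q3 : (S*T^(2:ℕ))/((S + 1)*(T + 1)*(-S*T + S + T + 1)) < 1) (q6 : 0 < (S)/((S + 1))) (q7 : (S)/((S + 1)) < 1) :
    Sq ((S)/((S + 1)), (S*T^(2:ℕ))/((S + 1)*(T + 1)*(-S*T + S + T + 1))) := ⟨⟨q6, q7⟩, q2, q3⟩

theorem G2_oE (S T : ℝ)  :
    okc S T [] ((S)/((S + 1)), (S*T^(2:ℕ))/((S + 1)*(T + 1)*(-S*T + S + T + 1))) := trivial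

theorem G2_d28 (S T : ℝ) (pA : 0 < (S + 1)) (pB : 0 < (T + 1)) :
    0 < (S + 1)*(T + 1)^(2:ℕ) := (mul_pos pA (pow_pos pB 2))

theorem G2_d29 (S T : ℝ) (pB : 0 < (T + 1)) :
    0 < (T + 1) := pB

theorem G2_f10 (S T : ℝ) (pS : 0 < S) (pT : 0 < T) (d8 : 0 < (S + 1)^(2:ℕ)*(T + 1)) (d10 : 0 < (S + 1)) (d28 : 0 < (S + 1)*(T + 1)^(2:ℕ)) (d29 : 0 < (T + 1)) :
    fl S T Letter.al ((S)/((S + 1)), (S*T)/((S + 1)*(T + 1)^(2:ℕ))) = ((S*T)/((S + 1)^(2:ℕ)*(T + 1)), (T)/((T + 1))) := fl_al' pS pT d10 d28 d8 d29 (by ring) (by ring)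

theorem G2_f11 (S T : ℝ) (pS : 0 < S) (d8 : 0 < (S + 1)^(2:ℕ)*(T + 1)) (d9 : 0 < (S + 1)*(T + 1)) (d29 : 0 < (T + 1)) :
    fl S T Letter.ga ((S*T)/((S + 1)^(2:ℕ)*(T + 1)), (T)/((T + 1))) = (((S*T + T + 1))/((S + 1)*(T + 1)), ((S*T + S + 1))/((S + 1)*(T + 1))) := fl_ga' pS d8 d29 d9 d9 (by ring) (by ring)

theorem G2_f12 (S T : ℝ) (pT : 0 < T) (d9 : 0 < (S + 1)*(T + 1)) (d10 : 0 < (S + 1)) (d28 : 0 < (S + 1)*(T + 1)^(2:ℕ)) :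
    fl S T Letter.be (((S*T + T + 1))/((S + 1)*(T + 1)), ((S*T + S + 1))/((S + 1)*(T + 1))) = ((S)/((S + 1)), (S*T)/((S + 1)*(T + 1)^(2:ℕ))) := fl_be' pT d9 d9 d10 d28 (by ring) (by ring)

theorem G2_rB (S T : ℝ) (f10 : fl S T Letter.al ((S)/((S + 1)), (S*T)/((S + 1)*(T + 1)^(2:ℕ))) = ((S*T)/((S + 1)^(2:ℕ)*(T + 1)), (T)/((T + 1)))) (f11 : fl S T Letter.ga ((S*T)/((S + 1)^(2:ℕ)*(T + 1)), (T)/((T + 1))) = (((S*T + T + 1))/((S + 1)*(T + 1)), ((S*T + S + 1))/((S + 1)*(T + 1)))) (f12 : fl S T Letter.be (((S*T + T + 1))/((S + 1)*(T + 1)), ((S*T + S + 1))/((S + 1)*(T + 1))) = ((S)/((S + 1)), (S*T)/((S + 1)*(T + 1)^(2:ℕ)))) :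
    run S T [Letter.al, Letter.ga, Letter.be] ((S)/((S + 1)), (S*T)/((S + 1)*(T + 1)^(2:ℕ))) = ((S)/((S + 1)), (S*T)/((S + 1)*(T + 1)^(2:ℕ))) := (run_cons' f10 (run_cons' f11 (run_cons' f12 run_nil')))

theorem G2_f13 (S T : ℝ) (pS : 0 < S) (pT : 0 < T) (d1 : 0 < (S + 1)*(T + 1)*(-S*T + S + T + 1)) (d3 : 0 < (-S*T + S + T + 1)) (d8 : 0 < (S + 1)^(2:ℕ)*(T + 1)) (d10 : 0 < (S + 1)) :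
    fl S T Letter.al ((S)/((S + 1)), (S*T^(2:ℕ))/((S + 1)*(T + 1)*(-S*T + S + T + 1))) = ((S*T)/((S + 1)^(2:ℕ)*(T + 1)), (T)/((-S*T + S + T + 1))) := fl_al' pS pT d10 d1 d8 d3 (by ring) (by ring)

theorem G2_f14 (S T : ℝ) (pS : 0 < S) (d3 : 0 < (-S*T + S + T + 1)) (d4 : 0 < (S + 1)*(-S*T + S + T + 1)) (d8 : 0 < (S + 1)^(2:ℕ)*(T + 1)) (d9 : 0 < (S + 1)*(T + 1)) :
    fl S T Letter.ga ((S*T)/((S + 1)^(2:ℕ)*(T + 1)), (T)/((-S*T + S + T + 1))) = (((S + T + 1))/((S + 1)*(-S*T + S + T + 1)), ((S*T + S + 1))/((S + 1)*(T + 1))) := fl_ga' pS d8 d3 d4 d9 (by ring) (by ring)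

theorem G2_f15 (S T : ℝ) (pT : 0 < T) (d1 : 0 < (S + 1)*(T + 1)*(-S*T + S + T + 1)) (d4 : 0 < (S + 1)*(-S*T + S + T + 1)) (d9 : 0 < (S + 1)*(T + 1)) (d10 : 0 < (S + 1)) :
    fl S T Letter.be (((S + T + 1))/((S + 1)*(-S*T + S + T + 1)), ((S*T + S + 1))/((S + 1)*(T + 1))) = ((S)/((S + 1)), (S*T*(-S*T + S + 1))/((S + 1)*(T + 1)*(-S*T + S + T + 1))) := fl_be' pT d4 d9 d10 d1 (by ring) (by ring)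

theorem G2_rr (S T : ℝ) (f13 : fl S T Letter.al ((S)/((S + 1)), (S*T^(2:ℕ))/((S + 1)*(T + 1)*(-S*T + S + T + 1))) = ((S*T)/((S + 1)^(2:ℕ)*(T + 1)), (T)/((-S*T + S + T + 1)))) (f14 : fl S T Letter.ga ((S*T)/((S + 1)^(2:ℕ)*(T + 1)), (T)/((-S*T + S + T + 1))) = (((S + T + 1))/((S + 1)*(-S*T + S + T + 1)), ((S*T + S + 1))/((S + 1)*(T + 1)))) (f15 : fl S T Letter.be (((S + T + 1))/((S + 1)*(-S*T + S + T + 1)), ((S*T + S + 1))/((S + 1)*(T + 1))) = ((S)/((S + 1)), (S*T*(-S*T + S + 1))/((S + 1)*(T + 1)*(-S*T + S + T + 1)))) :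
    run S T [Letter.al, Letter.ga, Letter.be] ((S)/((S + 1)), (S*T^(2:ℕ))/((S + 1)*(T + 1)*(-S*T + S + T + 1))) = ((S)/((S + 1)), (S*T*(-S*T + S + 1))/((S + 1)*(T + 1)*(-S*T + S + T + 1))) := (run_cons' f13 (run_cons' f14 (run_cons' f15 run_nil')))

theorem G2_sr (S T : ℝ) (q2 : 0 < (S*T^(2:ℕ))/((S + 1)*(T + 1)*(-S*T + S + T + 1))) (q3 : (S*T^(2:ℕ))/((S + 1)*(T + 1)*(-S*T + S + T + 1)) < 1) (q6 : 0 < (S)/((S + 1))) (q7 : (S)/((S + 1)) < 1) :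
    Sq ((S)/((S + 1)), (S*T^(2:ℕ))/((S + 1)*(T + 1)*(-S*T + S + T + 1))) := ⟨⟨q6, q7⟩, q2, q3⟩

theorem G2_g12 (S T : ℝ) (d10 : 0 < (S + 1)) (d23 : 0 < S*T) :
    S < (S + T + 1) * ((S)/((S + 1))) := rgt d10 d23 d10 (by ring)

theorem G2_orr_0 (S T : ℝ) (g1 : (T + 1) * ((S*T^(2:ℕ))/((S + 1)*(T + 1)*(-S*T + S + T + 1))) < 1) (g12 : S < (S + T + 1) * ((S)/((S + 1)))) :
    cond S T Letter.al ((S)/((S + 1)), (S*T^(2:ℕ))/((S + 1)*(T + 1)*(-S*T + S + T + 1))) := ⟨g12, g1⟩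

theorem G2_orr_1 (S T : ℝ) (g6 : (S + T + 1) * ((S*T)/((S + 1)^(2:ℕ)*(T + 1))) < S) :
    cond S T Letter.ga ((S*T)/((S + 1)^(2:ℕ)*(T + 1)), (T)/((-S*T + S + T + 1))) := g6

theorem G2_d30 (S T : ℝ) (c12 : 0 < S^(3:ℕ)*T - S^(3:ℕ) - S^(2:ℕ) + S*T + T^(2:ℕ) + S + 2*T + 1) :
    0 < (S^(3:ℕ)*T - S^(3:ℕ) - S^(2:ℕ) + S*T + T^(2:ℕ) + S + 2*T + 1) := c12

theorem G2_g13 (S T : ℝ) (d4 : 0 < (S + 1)*(-S*T + S + T + 1)) (d30 : 0 < (S^(3:ℕ)*T - S^(3:ℕ) - S^(2:ℕ) + S*T + T^(2:ℕ) + S + 2*T + 1)) :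
    S < (S + T + 1) * (((S + T + 1))/((S + 1)*(-S*T + S + T + 1))) := rgt d4 d30 d4 (by ring)

theorem G2_orr_2 (S T : ℝ) (g8 : 1 < (T + 1) * (((S*T + S + 1))/((S + 1)*(T + 1)))) (g13 : S < (S + T + 1) * (((S + T + 1))/((S + 1)*(-S*T + S + T + 1)))) :
    cond S T Letter.be (((S + T + 1))/((S + 1)*(-S*T + S + T + 1)), ((S*T + S + 1))/((S + 1)*(T + 1))) := ⟨g13, g8⟩

theorem G2_orr (S T : ℝ) (f13 : fl S T Letter.al ((S)/((S + 1)), (S*T^(2:ℕ))/((S + 1)*(T + 1)*(-S*T + S + T + 1))) = ((S*T)/((S + 1)^(2:ℕ)*(T + 1)), (T)/((-S*T + S + T + 1)))) (f14 : fl S T Letter.ga ((S*T)/((S + 1)^(2:ℕ)*(T + 1)), (T)/((-S*T + S + T + 1))) = (((S + T + 1))/((S + 1)*(-S*T + S + T + 1)), ((S*T + S + 1))/((S + 1)*(T + 1)))) (orr_0 : cond S T Letter.al ((S)/((S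 + 1)), (S*T^(2:ℕ))/((S + 1)*(T + 1)*(-S*T + S + T + 1)))) (orr_1 : cond S T Letter.ga ((S*T)/((S + 1)^(2:ℕ)*(T + 1)), (T)/((-S*T + S + T + 1)))) (orr_2 : cond S T Letter.be (((S + T + 1))/((S + 1)*(-S*T + S + T + 1)), ((S*T + S + 1))/((S + 1)*(T + 1)))) :
    okc S T [Letter.al, Letter.ga, Letter.be] ((S)/((S + 1)), (S*T^(2:ℕ))/((S + 1)*(T + 1)*(-S*T + S + T + 1))) := (okc_cons' orr_0 f13 (okc_cons' orr_1 f14 (okc_last' orr_2)))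

theorem G2_d31 (S T : ℝ) (pU : 0 < (S + T + 1)) (c0 : 0 < -S*T + S + T + 1) :
    0 < (S + T + 1)*(-S*T + S + T + 1) := (mul_pos pU c0)

theorem G2_f16 (S T : ℝ) (pS : 0 < S) (pT : 0 < T) (d1 : 0 < (S + 1)*(T + 1)*(-S*T + S + T + 1)) (d8 : 0 < (S + 1)^(2:ℕ)*(T + 1)) (d10 : 0 < (S + 1)) (d31 : 0 < (S + T + 1)*(-S*T + S + T + 1)) :
    fl S T Letter.al ((S)/((S + 1)), (S*T*(-S*T + S + 1))/((S + 1)*(T + 1)*(-S*T + S + T + 1))) = ((S*T)/((S + 1)^(2:ℕ)*(T + 1)), (T*(-S^(2:ℕ)*T + S^(2:ℕ) - S*T + 2*S + T + 1))/((S + T + 1)*(-S*T + S + T + 1))) := fl_al' pS pT d10 d1 d8 d31 (by ring) (by ring)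

theorem G2_d32 (S T : ℝ) (pA : 0 < (S + 1)) (pU : 0 < (S + T + 1)) (c0 : 0 < -S*T + S + T + 1) :
    0 < (S + 1)*(S + T + 1)*(-S*T + S + T + 1) := (mul_pos (mul_pos pA pU) c0)

theorem G2_f17 (S T : ℝ) (pS : 0 < S) (d8 : 0 < (S + 1)^(2:ℕ)*(T + 1)) (d9 : 0 < (S + 1)*(T + 1)) (d31 : 0 < (S + T + 1)*(-S*T + S + T + 1)) (d32 : 0 < (S + 1)*(S + T + 1)*(-S*T + S + T + 1)) :
    fl S T Letter.ga ((S*T)/((S + 1)^(2:ℕ)*(T + 1)), (T*(-S^(2:ℕ)*T + S^(2:ℕ) - S*T + 2*S + T + 1))/((S + T + 1)*(-S*T + S + T + 1))) = (((-S^(3:ℕ)*T^(2:ℕ) + S^(3:ℕ)*T - S^(2:ℕ)*T^(2:ℕ) + S^(2:ℕ)*T + S^(2:ℕ) + 2*S*T + T^(2:ℕ) + 2*S + 2*T + 1))/((S + 1)*(S + T + 1)*(-S*T + S + T + 1)), ((S*T + S + 1))/((S + 1)*(T + 1))) := fl_ga' pS d8 d31 d32 d9 (by ring) (by ring)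

theorem G2_d33 (S T : ℝ) (pA : 0 < (S + 1)) (pB : 0 < (T + 1)) (pU : 0 < (S + T + 1)) (c0 : 0 < -S*T + S + T + 1) :
    0 < (S + 1)*(T + 1)*(S + T + 1)*(-S*T + S + T + 1) := (mul_pos (mul_pos (mul_pos pA pB) pU) c0)

theorem G2_f18 (S T : ℝ) (pT : 0 < T) (d9 : 0 < (S + 1)*(T + 1)) (d10 : 0 < (S + 1)) (d32 : 0 < (S + 1)*(S + T + 1)*(-S*T + S + T + 1)) (d33 : 0 < (S + 1)*(T + 1)*(S + T + 1)*(-S*T + S + T + 1)) :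
    fl S T Letter.be (((-S^(3:ℕ)*T^(2:ℕ) + S^(3:ℕ)*T - S^(2:ℕ)*T^(2:ℕ) + S^(2:ℕ)*T + S^(2:ℕ) + 2*S*T + T^(2:ℕ) + 2*S + 2*T + 1))/((S + 1)*(S + T + 1)*(-S*T + S + T + 1)), ((S*T + S + 1))/((S + 1)*(T + 1))) = ((S)/((S + 1)), (S*T*(S^(2:ℕ)*T^(2:ℕ) - 2*S^(2:ℕ)*T + S^(2:ℕ) - S*T + 2*S + T + 1))/((S + 1)*(T + 1)*(S + T + 1)*(-S*T + S + T + 1))) := fl_be' pT d32 d9 d10 d33 (by ring) (by ring)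

theorem G2_q8 (S T : ℝ) (d1 : 0 < (S + 1)*(T + 1)*(-S*T + S + T + 1)) (d26 : 0 < S*T*(-S*T + S + 1)) :
    0 < (S*T*(-S*T + S + 1))/((S + 1)*(T + 1)*(-S*T + S + T + 1)) := div_pos d26 d1

theorem G2_d34 (S T : ℝ) (c13 : 0 < -S^(2:ℕ)*T + S^(2:ℕ) + S*T + T^(2:ℕ) + 2*S + 2*T + 1) :
    0 < (-S^(2:ℕ)*T + S^(2:ℕ) + S*T + T^(2:ℕ) + 2*S + 2*T + 1) := c13

theorem G2_q9 (S T : ℝ) (d1 : 0 < (S + 1)*(T + 1)*(-S*T + S + T + 1)) (d34 : 0 < (-S^(2:ℕ)*T + S^(2:ℕ) + S*T + T^(2:ℕ) + 2*S + 2*T + 1)) :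
    (S*T*(-S*T + S + 1))/((S + 1)*(T + 1)*(-S*T + S + T + 1)) < 1 := rlt1 d1 d34 d1 (by ring)

theorem G2_sC (S T : ℝ) (q6 : 0 < (S)/((S + 1))) (q7 : (S)/((S + 1)) < 1) (q8 : 0 < (S*T*(-S*T + S + 1))/((S + 1)*(T + 1)*(-S*T + S + T + 1))) (q9 : (S*T*(-S*T + S + 1))/((S + 1)*(T + 1)*(-S*T + S + T + 1)) < 1) :
    Sq ((S)/((S + 1)), (S*T*(-S*T + S + 1))/((S + 1)*(T + 1)*(-S*T + S + T + 1))) := ⟨⟨q6, q7⟩, q8, q9⟩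

theorem G2_d35 (S T : ℝ) (c14 : 0 < S^(2:ℕ)*T^(2:ℕ) - 2*S^(2:ℕ)*T + S^(2:ℕ) - S*T + 2*S + T + 1) :
    0 < (S^(2:ℕ)*T^(2:ℕ) - 2*S^(2:ℕ)*T + S^(2:ℕ) - S*T + 2*S + T + 1) := c14

theorem G2_g14 (S T : ℝ) (d1 : 0 < (S + 1)*(T + 1)*(-S*T + S + T + 1)) (d4 : 0 < (S + 1)*(-S*T + S + T + 1)) (d35 : 0 < (S^(2:ℕ)*T^(2:ℕ) - 2*S^(2:ℕ)*T + S^(2:ℕ) - S*T + 2*S + T + 1)) :
    (T + 1) * ((S*T*(-S*T + S + 1))/((S + 1)*(T + 1)*(-S*T + S + T + 1))) < 1 := rlt d1 d35 d4 (by ring)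

theorem G2_oC_0 (S T : ℝ) (g12 : S < (S + T + 1) * ((S)/((S + 1)))) (g14 : (T + 1) * ((S*T*(-S*T + S + 1))/((S + 1)*(T + 1)*(-S*T + S + T + 1))) < 1) :
    cond S T Letter.al ((S)/((S + 1)), (S*T*(-S*T + S + 1))/((S + 1)*(T + 1)*(-S*T + S + T + 1))) := ⟨g12, g14⟩

theorem G2_oC_1 (S T : ℝ) (g6 : (S + T + 1) * ((S*T)/((S + 1)^(2:ℕ)*(T + 1))) < S) :
    cond S T Letter.ga ((S*T)/((S + 1)^(2:ℕ)*(T + 1)), (T*(-S^(2:ℕ)*T + S^(2:ℕ) - S*T + 2*S + T + 1))/((S + T + 1)*(-S*T + S + T + 1))) := g6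

theorem G2_d36 (S T : ℝ) (c15 : 0 < -S^(3:ℕ)*T^(2:ℕ) + 2*S^(3:ℕ)*T - S^(2:ℕ)*T^(2:ℕ) - S^(3:ℕ) + S^(2:ℕ)*T - S^(2:ℕ) + S*T + T^(2:ℕ) + S + 2*T + 1) :
    0 < (-S^(3:ℕ)*T^(2:ℕ) + 2*S^(3:ℕ)*T - S^(2:ℕ)*T^(2:ℕ) - S^(3:ℕ) + S^(2:ℕ)*T - S^(2:ℕ) + S*T + T^(2:ℕ) + S + 2*T + 1) := c15

theorem G2_g15 (S T : ℝ) (d4 : 0 < (S + 1)*(-S*T + S + T + 1)) (d32 : 0 < (S + 1)*(S + T + 1)*(-S*T + S + T + 1)) (d36 : 0 < (-S^(3:ℕ)*T^(2:ℕ) + 2*S^(3:ℕ)*T - S^(2:ℕ)*T^(2:ℕ) - S^(3:ℕ) + S^(2:ℕ)*T - S^(2:ℕ) + S*T + T^(2:ℕ) + S + 2*T + 1)) :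
    S < (S + T + 1) * (((-S^(3:ℕ)*T^(2:ℕ) + S^(3:ℕ)*T - S^(2:ℕ)*T^(2:ℕ) + S^(2:ℕ)*T + S^(2:ℕ) + 2*S*T + T^(2:ℕ) + 2*S + 2*T + 1))/((S + 1)*(S + T + 1)*(-S*T + S + T + 1))) := rgt d32 d36 d4 (by ring)

theorem G2_oC_2 (S T : ℝ) (g8 : 1 < (T + 1) * (((S*T + S + 1))/((S + 1)*(T + 1)))) (g15 : S < (S + T + 1) * (((-S^(3:ℕ)*T^(2:ℕ) + S^(3:ℕ)*T - S^(2:ℕ)*T^(2:ℕ) + S^(2:ℕ)*T + S^(2:ℕ) + 2*S*T + T^(2:ℕ) + 2*S + 2*T + 1))/((S + 1)*(S + T + 1)*(-S*T + S + T + 1)))) :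
    cond S T Letter.be (((-S^(3:ℕ)*T^(2:ℕ) + S^(3:ℕ)*T - S^(2:ℕ)*T^(2:ℕ) + S^(2:ℕ)*T + S^(2:ℕ) + 2*S*T + T^(2:ℕ) + 2*S + 2*T + 1))/((S + 1)*(S + T + 1)*(-S*T + S + T + 1)), ((S*T + S + 1))/((S + 1)*(T + 1))) := ⟨g15, g8⟩

theorem G2_oC (S T : ℝ) (f16 : fl S T Letter.al ((S)/((S + 1)), (S*T*(-S*T + S + 1))/((S + 1)*(T + 1)*(-S*T + S + T + 1))) = ((S*T)/((S + 1)^(2:ℕ)*(T + 1)), (T*(-S^(2:ℕ)*T + S^(2:ℕ) - S*T + 2*S + T + 1))/((S + T + 1)*(-S*T + S + T + 1)))) (f17 : fl S T Letter.ga ((S*T)/((S + 1)^(2:ℕ)*(T + 1)), (T*(-S^(2:ℕ)*T + S^(2:ℕ) - S*T + 2*S + T + 1))/((S + T + 1)*(-S*T + S + T + 1))) = (((-S^(3:ℕ)*T^(2:ℕ) + S^(3:ℕ)*T - S^(2:ℕ)*T^(2:ℕ) + S^(2:ℕ)*T + S^(2:ℕ) + 2*S*T + T^(2:ℕ) + 2*S + 2*T + 1))/((S + 1)*(S + T + 1)*(-S*T + S + T +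 1)), ((S*T + S + 1))/((S + 1)*(T + 1)))) (oC_0 : cond S T Letter.al ((S)/((S + 1)), (S*T*(-S*T + S + 1))/((S + 1)*(T + 1)*(-S*T + S + T + 1)))) (oC_1 : cond S T Letter.ga ((S*T)/((S + 1)^(2:ℕ)*(T + 1)), (T*(-S^(2:ℕ)*T + S^(2:ℕ) - S*T + 2*S + T + 1))/((S + T + 1)*(-S*T + S + T + 1)))) (oC_2 : cond S T Letter.be (((-S^(3:ℕ)*T^(2:ℕ) + S^(3:ℕ)*T - S^(2:ℕ)*T^(2:ℕ) + S^(2:ℕ)*T + S^(2:ℕ) + 2*S*T + T^(2:ℕ) + 2*S + 2*T + 1))/((S + 1)*(S + T + 1)*(-S*T + S + T + 1)), ((S*T + S + 1))/((S + 1)*(T + 1)))) :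
    okc S T [Letter.al, Letter.ga, Letter.be] ((S)/((S + 1)), (S*T*(-S*T + S + 1))/((S + 1)*(T + 1)*(-S*T + S + T + 1))) := (okc_cons' oC_0 f16 (okc_cons' oC_1 f17 (okc_last' oC_2)))

theorem G2_d37 (S T : ℝ) (pU : 0 < (S + T + 1)) :
    0 < (S + T + 1) := pU

theorem G2_vP (S T : ℝ) (d0 : 0 < T*(-S*T + S + T + 1)) (d2 : 0 < T*(S + 1)*(-S*T + S + T + 1)) (d5 : 0 < T*(S + 1)*(S + T + 1)) (d37 : 0 < (S + T + 1)) :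
    ((((S + T + 1)*(T - 1))/(T*(-S*T + S + T + 1)), (S*T^(2:ℕ))/((S + 1)*(T + 1)*(-S*T + S + T + 1))) : ℝ × ℝ) + ((S*T)/((S + T + 1))) • (((-((S^(2:ℕ)*T^(2:ℕ) - S^(2:ℕ) + T^(2:ℕ) - 2*S - 1)))/(T*(S + 1)*(-S*T + S + T + 1)), 0) : ℝ × ℝ) = (((S^(2:ℕ)*T^(2:ℕ) + S^(2:ℕ)*T + S*T^(2:ℕ) - S^(2:ℕ) + S*T + T^(2:ℕ) - 2*S - 1))/(T*(S + 1)*(S + T + 1)), (S*T^(2:ℕ))/((S + 1)*(T + 1)*(-S*T + S + T + 1))) := vecX (radd d0 d37 d2 d5 (by ring))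

theorem G2_vq (S T : ℝ) (d0 : 0 < T*(-S*T + S + T + 1)) (d2 : 0 < T*(S + 1)*(-S*T + S + T + 1)) (d10 : 0 < (S + 1)) :
    ((((S + T + 1)*(T - 1))/(T*(-S*T + S + T + 1)), (S*T^(2:ℕ))/((S + 1)*(T + 1)*(-S*T + S + T + 1))) : ℝ × ℝ) + (((-((S^(2:ℕ)*T^(2:ℕ) - S^(2:ℕ) + T^(2:ℕ) - 2*S - 1)))/(T*(S + 1)*(-S*T + S + T + 1)), 0) : ℝ × ℝ) = ((S)/((S + 1)), (S*T^(2:ℕ))/((S + 1)*(T + 1)*(-S*T + S + T + 1))) := vecX1 (radd1 d0 d2 d10 (by ring))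

theorem G2_d38 (S T : ℝ) (pA : 0 < (S + 1)) (pB : 0 < (T + 1)) (c0 : 0 < -S*T + S + T + 1) :
    0 < (S + 1)*(T + 1)^(2:ℕ)*(-S*T + S + T + 1) := (mul_pos (mul_pos pA (pow_pos pB 2)) c0)

theorem G2_vr (S T : ℝ) (d1 : 0 < (S + 1)*(T + 1)*(-S*T + S + T + 1)) (d28 : 0 < (S + 1)*(T + 1)^(2:ℕ)) (d38 : 0 < (S + 1)*(T + 1)^(2:ℕ)*(-S*T + S + T + 1)) :
    (((S)/((S + 1)), (S*T)/((S + 1)*(T + 1)^(2:ℕ))) : ℝ × ℝ) + ((0, (S*T*(S + T + 1)*(T - 1))/((S + 1)*(T + 1)^(2:ℕ)*(-S*T + S + T + 1))) : ℝ × ℝ) = ((S)/((S + 1)), (S*T^(2:ℕ))/((S + 1)*(T + 1)*(-S*T + S + T + 1))) := vecY1 (radd1 d28 d38 d1 (by ring))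

theorem G2_vC (S T : ℝ) (d1 : 0 < (S + 1)*(T + 1)*(-S*T + S + T + 1)) (d28 : 0 < (S + 1)*(T + 1)^(2:ℕ)) (d37 : 0 < (S + T + 1)) (d38 : 0 < (S + 1)*(T + 1)^(2:ℕ)*(-S*T + S + T + 1)) :
    (((S)/((S + 1)), (S*T)/((S + 1)*(T + 1)^(2:ℕ))) : ℝ × ℝ) + ((-(S*T))/((S + T + 1))) • ((0, (S*T*(S + T + 1)*(T - 1))/((S + 1)*(T + 1)^(2:ℕ)*(-S*T + S + T + 1))) : ℝ × ℝ) = ((S)/((S + 1)), (S*T*(-S*T + S + 1))/((S + 1)*(T + 1)*(-S*T + S + T + 1))) := vecY (radd d28 d37 d38 d1 (by ring))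

theorem G2_nun (S T : ℝ) (d23 : 0 < S*T) (d37 : 0 < (S + T + 1)) :
    0 < (S*T)/((S + T + 1)) := div_pos d23 d37

theorem G2_num (S T : ℝ) (d3 : 0 < (-S*T + S + T + 1)) (d37 : 0 < (S + T + 1)) :
    (S*T)/((S + T + 1)) < 1 := rlt1 d37 d3 d37 (by ring)

theorem G2_kan (S T : ℝ) (d23 : 0 < S*T) (d37 : 0 < (S + T + 1)) :
    (-(S*T))/((S + T + 1)) < 0 := rneg d23 d37

theorem G2_kam (S T : ℝ) (d3 : 0 < (-S*T + S + T + 1)) (d37 : 0 < (S + T + 1)) :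
    -1 < (-(S*T))/((S + T + 1)) := rgtm d37 d3 d37 (by ring)

theorem G2_d39 (S T : ℝ) (pS : 0 < S) (pT : 0 < T) (pU : 0 < (S + T + 1)) (c7 : 0 < T - 1) :
    0 < S*T*(S + T + 1)*(T - 1) := (mul_pos (mul_pos (mul_pos pS pT) pU) c7)

theorem G2_hdB (S T : ℝ) (d38 : 0 < (S + 1)*(T + 1)^(2:ℕ)*(-S*T + S + T + 1)) (d39 : 0 < S*T*(S + T + 1)*(T - 1)) :
    ((0, (S*T*(S + T + 1)*(T - 1))/((S + 1)*(T + 1)^(2:ℕ)*(-S*T + S + T + 1))) : ℝ × ℝ) ≠ 0 := ne0Y (div_pos d39 d38).ne'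

theorem fam_G2 {S T : ℝ} (g0 : 0 < S) (g1 : 0 ≤ T - S - 1) (g2 : 0 < S + 1 - S*T) (g3 : 0 < S*(S+1)*T + (S+1)^(2:ℕ) - T^(2:ℕ)) : HasConn S T := by
  have pS : 0 < S := g0
  have pT : 0 < T := by linarith
  have pA : 0 < (S + 1) := by linarith
  have pB : 0 < (T + 1) := by linarith
  have pU : 0 < (S + T + 1) := by linarith
  have c0 : 0 < -S*T + S + T + 1 := G2_c0 g0 g1 g2 g3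
  have c1 : 0 < S^(2:ℕ)*T^(2:ℕ) + S^(2:ℕ)*T + S*T^(2:ℕ) - S^(2:ℕ) + S*T + T^(2:ℕ) - 2*S - 1 := G2_c1 g0 g1 g2 g3
  have c2 : 0 < -S^(2:ℕ)*T^(2:ℕ) + S^(2:ℕ) + S*T + 2*S + T + 1 := G2_c2 g0 g1 g2 g3
  have c3 : 0 < -S^(2:ℕ)*T^(2:ℕ) - S*T^(2:ℕ) + S^(2:ℕ) + 2*S*T + T^(2:ℕ) + 2*S + 2*T + 1 := G2_c3 g0 g1 g2 g3
  have c4 : 0 < S^(2:ℕ)*T^(2:ℕ) + S*T^(2:ℕ) - S^(2:ℕ) + T^(2:ℕ) - 2*S - 1 := G2_c4 g0 g1 g2 g3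
  have c5 : 0 < -S*T + S + 1 := G2_c5 g0 g1 g2 g3
  have c6 : 0 < S^(2:ℕ)*T^(3:ℕ) - S^(3:ℕ)*T + S*T^(3:ℕ) - S^(3:ℕ) - 3*S^(2:ℕ)*T + S*T^(2:ℕ) + T^(3:ℕ) - 3*S^(2:ℕ) - 3*S*T + T^(2:ℕ) - 3*S - T - 1 := G2_c6 g0 g1 g2 g3
  have c7 : 0 < T - 1 := G2_c7 g0 g1 g2 g3
  have c8 : 0 < S^(2:ℕ)*T - S^(2:ℕ) + S*T + T^(2:ℕ) - 2*S - 1 := G2_c8 g0 g1 g2 g3
  have c9 : 0 < S^(2:ℕ)*T + S^(2:ℕ) + S*T - T^(2:ℕ) + 2*S + 1 := G2_c9 g0 g1 g2 g3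
  have c10 : 0 < -S^(2:ℕ)*T^(2:ℕ) - S^(2:ℕ)*T - S*T^(2:ℕ) + S^(2:ℕ) + S*T + T^(2:ℕ) + 2*S + 2*T + 1 := G2_c10 g0 g1 g2 g3
  have c11 : 0 < S^(3:ℕ)*T^(2:ℕ) + S^(2:ℕ)*T^(2:ℕ) - S^(3:ℕ) - S^(2:ℕ)*T + S*T^(2:ℕ) + T^(3:ℕ) - 3*S^(2:ℕ) - 2*S*T + T^(2:ℕ) - 3*S - T - 1 := G2_c11 g0 g1 g2 g3
  have c12 : 0 < S^(3:ℕ)*T - S^(3:ℕ) - S^(2:ℕ) + S*T + T^(2:ℕ) + S + 2*T + 1 := G2_c12 g0 g1 g2 g3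
  have c13 : 0 < -S^(2:ℕ)*T + S^(2:ℕ) + S*T + T^(2:ℕ) + 2*S + 2*T + 1 := G2_c13 g0 g1 g2 g3
  have c14 : 0 < S^(2:ℕ)*T^(2:ℕ) - 2*S^(2:ℕ)*T + S^(2:ℕ) - S*T + 2*S + T + 1 := G2_c14 g0 g1 g2 g3
  have c15 : 0 < -S^(3:ℕ)*T^(2:ℕ) + 2*S^(3:ℕ)*T - S^(2:ℕ)*T^(2:ℕ) - S^(3:ℕ) + S^(2:ℕ)*T - S^(2:ℕ) + S*T + T^(2:ℕ) + S + 2*T + 1 := G2_c15 g0 g1 g2 g3
  have d0 := G2_d0 S T pT c0
  have d1 := G2_d1 S T pA pB c0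
  have d2 := G2_d2 S T pT pA c0
  have d3 := G2_d3 S T c0
  have f0 := G2_f0 S T pS pT d0 d1 d2 d3
  have f1 := G2_f1 S T pT d0 d1 d2 d3
  have d4 := G2_d4 S T pA c0
  have f2 := G2_f2 S T pT d0 d1 d3 d4
  have f3 := G2_f3 S T pS d3 d4
  have f4 := G2_f4 S T pT d0 d1 d3 d4
  have rA := G2_rA S T f0 f1 f2 f3 f4
  have d5 := G2_d5 S T pT pA pU
  have d6 := G2_d6 S T pT pA pB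
  have f5 := G2_f5 S T pS pT d1 d3 d5 d6
  have d7 := G2_d7 S T pA pB
  have f6 := G2_f6 S T pT d0 d3 d6 d7
  have d8 := G2_d8 S T pA pB
  have f7 := G2_f7 S T pT d0 d3 d7 d8
  have d9 := G2_d9 S T pA pB
  have f8 := G2_f8 S T pS d3 d4 d8 d9
  have d10 := G2_d10 S T pA
  have f9 := G2_f9 S T pT d1 d4 d9 d10
  have rP := G2_rP S T f5 f6 f7 f8 f9
  have d11 := G2_d11 S T c1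
  have q0 := G2_q0 S T d5 d11
  have d12 := G2_d12 S T c2
  have q1 := G2_q1 S T d5 d12
  have d13 := G2_d13 S T pS pT
  have q2 := G2_q2 S T d1 d13
  have d14 := G2_d14 S T c3
  have q3 := G2_q3 S T d1 d14
  have sP := G2_sP S T q0 q1 q2 q3
  have d15 := G2_d15 S T c4
  have d16 := G2_d16 S T pT pA
  have g0 := G2_g0 S T d5 d15 d16
  have d17 := G2_d17 S T pU c5
  have g1 := G2_g1 S T d1 d4 d17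
  have oP_0 := G2_oP_0 S T g0 g1
  have d18 := G2_d18 S T c6
  have g2 := G2_g2 S T d6 d18
  have d19 := G2_d19 S T pU c7
  have g3 := G2_g3 S T d3 d19
  have oP_1 := G2_oP_1 S T g2 g3
  have d20 := G2_d20 S T pB c8
  have g4 := G2_g4 S T d0 d20
  have g5 := G2_g5 S T d7 d8 d13
  have oP_2 := G2_oP_2 S T g4 g5
  have d21 := G2_d21 S T pS c9
  have g6 := G2_g6 S T d8 d21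
  have oP_3 := G2_oP_3 S T g6
  have d22 := G2_d22 S T c10
  have g7 := G2_g7 S T d4 d22
  have d23 := G2_d23 S T pS pT
  have g8 := G2_g8 S T d9 d10 d23
  have oP_4 := G2_oP_4 S T g7 g8
  have oP := G2_oP S T f5 f6 f7 f8 oP_0 oP_1 oP_2 oP_3 oP_4
  have q4 := G2_q4 S T d0 d19
  have d24 := G2_d24 S T pB c5
  have q5 := G2_q5 S T d0 d24
  have sA := G2_sA S T q2 q3 q4 q5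
  have oA_0 := G2_oA_0 S T g1 g4
  have d25 := G2_d25 S T c11
  have g9 := G2_g9 S T d2 d25
  have oA_1 := G2_oA_1 S T g3 g9
  have d26 := G2_d26 S T pS pT c5
  have g10 := G2_g10 S T d1 d4 d26
  have oA_2 := G2_oA_2 S T g4 g10
  have d27 := G2_d27 S T pS pT
  have g11 := G2_g11 S T d4 d27
  have oA_3 := G2_oA_3 S T g11
  have oA_4 := G2_oA_4 S T g3 g7
  have oA := G2_oA S T f0 f1 f2 f3 oA_0 oA_1 oA_2 oA_3 oA_4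
  have rE := G2_rE S T 
  have q6 := G2_q6 S T pS d10
  have q7 := G2_q7 S T d10
  have sq := G2_sq S T q2 q3 q6 q7
  have oE := G2_oE S T 
  have d28 := G2_d28 S T pA pB
  have d29 := G2_d29 S T pB
  have f10 := G2_f10 S T pS pT d8 d10 d28 d29
  have f11 := G2_f11 S T pS d8 d9 d29
  have f12 := G2_f12 S T pT d9 d10 d28
  have rB := G2_rB S T f10 f11 f12
  have f13 := G2_f13 S T pS pT d1 d3 d8 d10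
  have f14 := G2_f14 S T pS d3 d4 d8 d9
  have f15 := G2_f15 S T pT d1 d4 d9 d10
  have rr := G2_rr S T f13 f14 f15
  have sr := G2_sr S T q2 q3 q6 q7
  have g12 := G2_g12 S T d10 d23
  have orr_0 := G2_orr_0 S T g1 g12
  have orr_1 := G2_orr_1 S T g6
  have d30 := G2_d30 S T c12
  have g13 := G2_g13 S T d4 d30
  have orr_2 := G2_orr_2 S T g8 g13
  have orr := G2_orr S T f13 f14 orr_0 orr_1 orr_2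
  have d31 := G2_d31 S T pU c0
  have f16 := G2_f16 S T pS pT d1 d8 d10 d31
  have d32 := G2_d32 S T pA pU c0
  have f17 := G2_f17 S T pS d8 d9 d31 d32
  have d33 := G2_d33 S T pA pB pU c0
  have f18 := G2_f18 S T pT d9 d10 d32 d33
  have q8 := G2_q8 S T d1 d26
  have d34 := G2_d34 S T c13
  have q9 := G2_q9 S T d1 d34
  have sC := G2_sC S T q6 q7 q8 q9
  have d35 := G2_d35 S T c14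
  have g14 := G2_g14 S T d1 d4 d35
  have oC_0 := G2_oC_0 S T g12 g14
  have oC_1 := G2_oC_1 S T g6
  have d36 := G2_d36 S T c15
  have g15 := G2_g15 S T d4 d32 d36
  have oC_2 := G2_oC_2 S T g8 g15
  have oC := G2_oC S T f16 f17 oC_0 oC_1 oC_2
  have d37 := G2_d37 S T pU
  have vP := G2_vP S T d0 d2 d5 d37
  have vq := G2_vq S T d0 d2 d10
  have d38 := G2_d38 S T pA pB c0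
  have vr := G2_vr S T d1 d28 d38
  have vC := G2_vC S T d1 d28 d37 d38
  have nun := G2_nun S T d23 d37
  have num := G2_num S T d3 d37
  have kan := G2_kan S T d23 d37
  have kam := G2_kam S T d3 d37
  have d39 := G2_d39 S T pS pT pU c7
  have hdB := G2_hdB S T d38 d39
  refine conn_fin pS pT (by simp) (by simp) (P := (((S^(2:ℕ)*T^(2:ℕ) + S^(2:ℕ)*T + S*T^(2:ℕ) - S^(2:ℕ) + S*T + T^(2:ℕ) - 2*S - 1))/(T*(S + 1)*(S + T + 1)), (S*T^(2:ℕ))/((S + 1)*(T + 1)*(-S*T + S + T + 1)))) (q := ((S)/((S + 1)), (S*T^(2:ℕ))/((S + 1)*(T + 1)*(-S*T + S + T + 1)))) (r := ((S)/((S + 1)), (S*T^(2:ℕ))/((S + 1)*(T + 1)*(-S*T + S + T + 1)))) (C := ((S)/((S + 1)), (S*T*(-S*T + S + 1))/((S + 1)*(T + 1)*(-S*T + S + T + 1))))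
    (ν := (S*T)/((S + T + 1))) (κ := (-(S*T))/((S + T + 1))) ?_ ?_ ?_ hdB vP vq vr vC rA rP rB rr rE ?_ sq oE ?_
  · exact nun.ne'
  · exact kan.ne
  · exact abs_lt.2 ⟨kam, kan.trans one_pos⟩
  · exact okA_pos pS pT nun num vP sA sP oA oP
  · exact okB_neg pS pT kan kam vr vC sr sC orr oC

end SympB.Quad
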