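import Pool.Agent.W_93b186_h44.FamTools

/-! Machine generated: the connection gbabb | a | gbabb. -/

namespace SympB.Quad

open Letter

set_option maxRecDepth 20000

theorem G3_c0 {S T : ℝ} (g0 : 0 < S) (g1 : 0 ≤ T - S - 1) (g2 : 0 < S + 1 - S*T) (g3 : 0 ≤ T^(2:ℕ) - S*(S+1)*T - (S+1)^(2:ℕ)) (g4 : 0 < S^(2:ℕ) - S + 1) : 0 < -S*T + S + T + 1 := by
  have key : ∀ a0 a1 a2 a3 a4 : ℝ, 0 < a0 → 0 ≤ a1 → 0 < a2 → 0 ≤ a3 → 0 < a4 → 0 < a0*a1 + 3*a0 + 2*a1 + 3*a2 + a4 := by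
    intro a0 a1 a2 a3 a4 g0 g1 g2 g3 g4
    positivity
  refine pos_aux1 (m := 2) (by norm_num) (lt_of_lt_of_eq (key _ _ _ _ _ g0 g1 g2 g3 g4) ?_)
  ring

theorem G3_c1 {S T : ℝ} (g0 : 0 < S) (g1 : 0 ≤ T - S - 1) (g2 : 0 < S + 1 - S*T) (g3 : 0 ≤ T^(2:ℕ) - S*(S+1)*T - (S+1)^(2:ℕ)) (g4 : 0 < S^(2:ℕ) - S + 1) : 0 < -S^(3:ℕ)*T^(3:ℕ) - S^(2:ℕ)*T^(2:ℕ) - S*T^(3:ℕ) + S^(3:ℕ) + 2*S^(2:ℕ)*T + 3*S^(2:ℕ) + 4*S*T + T^(2:ℕ) + 3*S + 2*T + 1 := by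
  have key : ∀ a0 a1 a2 a3 a4 : ℝ, 0 < a0 → 0 ≤ a1 → 0 < a2 → 0 ≤ a3 → 0 < a4 → 0 < 140*a0^(3:ℕ)*a1^(3:ℕ) + 16062*a0^(3:ℕ)*a2 + 970*a0^(2:ℕ)*a1^(3:ℕ) + 1059*a0^(2:ℕ)*a1^(2:ℕ)*a2 + 1000*a0^(2:ℕ)*a1^(2:ℕ)*a4 + 705*a0^(2:ℕ)*a1*a2 + 340*a0^(2:ℕ)*a1*a3 + 390*a0^(2:ℕ)*a3 + 993*a0*a1*a2^(2:ℕ) + 6605*a0*a1*a2*a4 + 1290*a0*a1*a4^(2:ℕ) + 2620*a0*a2*a3 + 11352*a0*a2 + 11610*a0 + 1310*a1^(2:ℕ)*a2*a4 + 5240*a1*a2*a4 + 74*a2^(3:ℕ) + 4286*a2*a4^(2:ℕ) + 450*a2 + 430*a4^(3:ℕ) := by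
    intro a0 a1 a2 a3 a4 g0 g1 g2 g3 g4
    positivity
  refine pos_aux1 (m := 1310) (by norm_num) (lt_of_lt_of_eq (key _ _ _ _ _ g0 g1 g2 g3 g4) ?_)
  ring

theorem G3_c2 {S T : ℝ} (g0 : 0 < S) (g1 : 0 ≤ T - S - 1) (g2 : 0 < S + 1 - S*T) (g3 : 0 ≤ T^(2:ℕ) - S*(S+1)*T - (S+1)^(2:ℕ)) (g4 : 0 < S^(2:ℕ) - S + 1) : 0 < S^(4:ℕ)*T^(3:ℕ) - S^(4:ℕ)*T - S^(3:ℕ)*T^(2:ℕ) - 2*S^(3:ℕ)*T - S^(2:ℕ)*T^(2:ℕ) + S^(3:ℕ) + 2*S^(2:ℕ)*T + 3*S*T^(2:ℕ) + T^(3:ℕ) + 3*S^(2:ℕ) + 6*S*T + 3*T^(2:ℕ) + 3*S + 3*T + 1 := by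
  have key : ∀ a0 a1 a2 a3 a4 : ℝ, 0 < a0 → 0 ≤ a1 → 0 < a2 → 0 ≤ a3 → 0 < a4 → 0 < 100472910*a0^(6:ℕ)*a1 + 47192981*a0^(3:ℕ)*a1^(4:ℕ) + 11747910*a0^(3:ℕ)*a3 + 90380087*a0^(2:ℕ)*a1^(3:ℕ)*a2 + 15369867*a0^(2:ℕ)*a1^(3:ℕ)*a4 + 2063513*a0^(2:ℕ)*a1^(2:ℕ)*a3 + 26515119*a0^(2:ℕ)*a2^(2:ℕ) + 110096847*a0^(2:ℕ) + 533956*a0*a1^(4:ℕ)*a4 + 4892222*a0*a1^(4:ℕ) + 42653150*a0*a1^(2:ℕ)*a2^(2:ℕ) + 46198858*a0*a1^(2:ℕ)*a4^(2:ℕ) + 5701622*a0*a1*a2*a3 + 37195671*a0*a1*a3*a4 + 377301345*a0*a1 + 4335946*a0*a2^(3:ℕ) + 53385216*a0*a2*a4^(2:ℕ) + 52800613*a0*a4^(3:ℕ) + 287389755*a0 + 2835654*a1^(3:ℕ)*a4^(2:ℕ) + 675053*a1^(2:ℕ)*a2*a4 + 16517072*a1^(2:ℕ)*a4^(2:ℕ) + 5426178*a1*a2*a3 + 28040985*a1*a2*a4^(2:ℕ) + 28047977*a1*a4^(3:ℕ)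 + 6727639*a2^(3:ℕ) + 4172065*a2^(2:ℕ)*a3 + 17354446*a2*a3*a4 + 59367017*a4^(3:ℕ) := by
    intro a0 a1 a2 a3 a4 g0 g1 g2 g3 g4
    positivity
  refine pos_aux1 (m := 8261832) (by norm_num) (lt_of_lt_of_eq (key _ _ _ _ _ g0 g1 g2 g3 g4) ?_)
  ring

theorem G3_c3 {S T : ℝ} (g0 : 0 < S) (g1 : 0 ≤ T - S - 1) (g2 : 0 < S + 1 - S*T) (g3 : 0 ≤ T^(2:ℕ) - S*(S+1)*T - (S+1)^(2:ℕ)) (g4 : 0 < S^(2:ℕ) - S + 1) : 0 < -S*T + S + 1 := by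
  have key : ∀ a0 a1 a2 a3 a4 : ℝ, 0 < a0 → 0 ≤ a1 → 0 < a2 → 0 ≤ a3 → 0 < a4 → 0 < a2 := by
    intro a0 a1 a2 a3 a4 g0 g1 g2 g3 g4
    positivity
  refine pos_aux1 (m := 1) (by norm_num) (lt_of_lt_of_eq (key _ _ _ _ _ g0 g1 g2 g3 g4) ?_)
  ring

theorem G3_c4 {S T : ℝ} (g0 : 0 < S) (g1 : 0 ≤ T - S - 1) (g2 : 0 < S + 1 - S*T) (g3 : 0 ≤ T^(2:ℕ) - S*(S+1)*T - (S+1)^(2:ℕ)) (g4 : 0 < S^(2:ℕ) - S + 1) : 0 < S^(2:ℕ)*T^(2:ℕ) - S^(2:ℕ) + T^(2:ℕ) - 2*S - 1 := by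
  have key : ∀ a0 a1 a2 a3 a4 : ℝ, 0 < a0 → 0 ≤ a1 → 0 < a2 → 0 ≤ a3 → 0 < a4 → 0 < 15*a0^(3:ℕ) + 6*a0^(2:ℕ)*a1 + 5*a0^(2:ℕ)*a4 + a0*a1^(2:ℕ) + 8*a0*a1*a4 + 2*a0*a3 + 3*a1^(2:ℕ)*a4 + 6*a1*a4 := by
    intro a0 a1 a2 a3 a4 g0 g1 g2 g3 g4
    positivity
  refine pos_aux1 (m := 3) (by norm_num) (lt_of_lt_of_eq (key _ _ _ _ _ g0 g1 g2 g3 g4) ?_)
  ring

theorem G3_c5 {S T : ℝ} (g0 : 0 < S) (g1 : 0 ≤ T - S - 1) (g2 : 0 < S + 1 - S*T) (g3 : 0 ≤ T^(2:ℕ) - S*(S+1)*T - (S+1)^(2:ℕ)) (g4 : 0 < S^(2:ℕ) - S + 1) : 0 < -S^(2:ℕ)*T^(2:ℕ) - S^(2:ℕ)*T - S*T^(2:ℕ) + S^(2:ℕ) + S*T + T^(2:ℕ) + 2*S + 2*T + 1 := by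
  have key : ∀ a0 a1 a2 a3 a4 : ℝ, 0 < a0 → 0 ≤ a1 → 0 < a2 → 0 ≤ a3 → 0 < a4 → 0 < 3*a0^(4:ℕ) + 2*a0^(2:ℕ)*a2 + 3*a0*a1^(3:ℕ) + 6*a0*a1*a4 + 17*a0*a2 + 4*a0*a3 + 19*a0*a4 + 3*a1^(2:ℕ)*a2 + 7*a1*a2 + 5*a1*a4 + 6*a2*a4 + 6*a4^(2:ℕ) := by
    intro a0 a1 a2 a3 a4 g0 g1 g2 g3 g4
    positivity
  refine pos_aux1 (m := 3) (by norm_num) (lt_of_lt_of_eq (key _ _ _ _ _ g0 g1 g2 g3 g4) ?_)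
  ring

theorem G3_c6 {S T : ℝ} (g0 : 0 < S) (g1 : 0 ≤ T - S - 1) (g2 : 0 < S + 1 - S*T) (g3 : 0 ≤ T^(2:ℕ) - S*(S+1)*T - (S+1)^(2:ℕ)) (g4 : 0 < S^(2:ℕ) - S + 1) : 0 < S^(3:ℕ)*T^(4:ℕ) + S^(3:ℕ)*T^(3:ℕ) - S^(3:ℕ)*T^(2:ℕ) - S^(2:ℕ)*T^(3:ℕ) + 2*S*T^(3:ℕ) + T^(4:ℕ) - S^(3:ℕ) - 2*S^(2:ℕ)*T + S*T^(2:ℕ) + 2*T^(3:ℕ) - 3*S^(2:ℕ) - 4*S*T - 3*S - 2*T - 1 := by
  have key : ∀ a0 a1 a2 a3 a4 : ℝ, 0 < a0 → 0 ≤ a1 → 0 < a2 → 0 ≤ a3 → 0 < a4 → 0 < 14184*a0^(4:ℕ)*a1*a4 + 2447*a0^(4:ℕ)*a3 + 7327*a0^(3:ℕ)*a1^(4:ℕ) + 8031*a0^(3:ℕ)*a1^(3:ℕ) + 4649*a0^(3:ℕ)*a1*a3 + 437*a0^(3:ℕ)*a3 + 7344*a0^(3:ℕ)*a4^(2:ℕ) + 47088*a0^(3:ℕ) + 5290*a0^(2:ℕ)*a1^(3:ℕ)*a2 + 6567*a0^(2:ℕ)*a1^(3:ℕ)*a4 + 677*a0^(2:ℕ)*a1*a2^(2:ℕ) + 9145*a0^(2:ℕ)*a3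 + 12576*a0^(2:ℕ)*a4^(2:ℕ) + 1124*a0*a1^(4:ℕ) + 410*a0*a1^(3:ℕ)*a3 + 728*a0*a1^(3:ℕ) + 1160*a0*a1^(2:ℕ)*a2^(2:ℕ) + 6080*a0*a1^(2:ℕ)*a4^(2:ℕ) + 2377*a0*a1*a2*a3 + 3672*a0*a1*a4^(2:ℕ) + 2224*a0*a2^(3:ℕ) + 5649*a0*a2*a3 + 1056*a0*a2*a4^(2:ℕ) + 433*a0*a3^(2:ℕ) + 715*a0*a3 + 410*a1^(4:ℕ)*a2 + 2377*a1^(3:ℕ)*a2*a4 + 83*a1^(3:ℕ) + 3280*a1^(2:ℕ)*a4^(2:ℕ) + 1640*a3*a4^(2:ℕ) := by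
    intro a0 a1 a2 a3 a4 g0 g1 g2 g3 g4
    positivity
  refine pos_aux1 (m := 410) (by norm_num) (lt_of_lt_of_eq (key _ _ _ _ _ g0 g1 g2 g3 g4) ?_)
  ring

theorem G3_c7 {S T : ℝ} (g0 : 0 < S) (g1 : 0 ≤ T - S - 1) (g2 : 0 < S + 1 - S*T) (g3 : 0 ≤ T^(2:ℕ) - S*(S+1)*T - (S+1)^(2:ℕ)) (g4 : 0 < S^(2:ℕ) - S + 1) : 0 < S^(2:ℕ)*T^(3:ℕ) - S*T^(3:ℕ) + T^(3:ℕ) - S^(2:ℕ) - S*T + T^(2:ℕ) - 2*S - T - 1 := by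
  have key : ∀ a0 a1 a2 a3 a4 : ℝ, 0 < a0 → 0 ≤ a1 → 0 < a2 → 0 ≤ a3 → 0 < a4 → 0 < 234*a0^(4:ℕ)*a1 + 114*a0^(3:ℕ)*a2 + 76*a0^(3:ℕ)*a4 + 32*a0^(2:ℕ)*a1^(3:ℕ) + 105*a0^(2:ℕ)*a1^(2:ℕ) + 67*a0^(2:ℕ)*a1*a2 + 4*a0^(2:ℕ)*a3 + 268*a0^(2:ℕ)*a4 + 5*a0*a1^(3:ℕ) + 126*a0*a1^(2:ℕ)*a4 + 40*a0*a1*a4 + 39*a0*a3 + 64*a0*a4^(2:ℕ) + 32*a1^(3:ℕ) + 64*a1^(2:ℕ)*a4 + 37*a2*a3 + 27*a3*a4 := by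
    intro a0 a1 a2 a3 a4 g0 g1 g2 g3 g4
    positivity
  refine pos_aux1 (m := 32) (by norm_num) (lt_of_lt_of_eq (key _ _ _ _ _ g0 g1 g2 g3 g4) ?_)
  ring

theorem G3_c8 {S T : ℝ} (g0 : 0 < S) (g1 : 0 ≤ T - S - 1) (g2 : 0 < S + 1 - S*T) (g3 : 0 ≤ T^(2:ℕ) - S*(S+1)*T - (S+1)^(2:ℕ)) (g4 : 0 < S^(2:ℕ) - S + 1) : 0 < S^(2:ℕ)*T^(2:ℕ) - S*T^(2:ℕ) - S^(2:ℕ) + T^(2:ℕ) - 2*S - 1 := by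
  have key : ∀ a0 a1 a2 a3 a4 : ℝ, 0 < a0 → 0 ≤ a1 → 0 < a2 → 0 ≤ a3 → 0 < a4 → 0 < 6*a0^(4:ℕ) + 3*a0^(3:ℕ)*a1 + 3*a0^(3:ℕ)*a2 + 4*a0^(3:ℕ)*a4 + 2*a0^(2:ℕ)*a1^(3:ℕ) + 5*a0^(2:ℕ)*a1^(2:ℕ) + 2*a0^(2:ℕ)*a1*a4 + a0^(2:ℕ)*a3 + 2*a0^(2:ℕ)*a4 + 2*a0*a1^(3:ℕ) + 2*a0*a1^(2:ℕ)*a2 + 2*a2*a3 + 2*a3*a4 := by
    intro a0 a1 a2 a3 a4 g0 g1 g2 g3 g4
    positivity
  refine pos_aux1 (m := 4) (by norm_num) (lt_of_lt_of_eq (key _ _ _ _ _ g0 g1 g2 g3 g4) ?_)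
  ring

theorem G3_c9 {S T : ℝ} (g0 : 0 < S) (g1 : 0 ≤ T - S - 1) (g2 : 0 < S + 1 - S*T) (g3 : 0 ≤ T^(2:ℕ) - S*(S+1)*T - (S+1)^(2:ℕ)) (g4 : 0 < S^(2:ℕ) - S + 1) : 0 < T - 1 := by
  have key : ∀ a0 a1 a2 a3 a4 : ℝ, 0 < a0 → 0 ≤ a1 → 0 < a2 → 0 ≤ a3 → 0 < a4 → 0 < a0 + a1 := by
    intro a0 a1 a2 a3 a4 g0 g1 g2 g3 g4
    positivity
  refine pos_aux1 (m := 1) (by norm_num) (lt_of_lt_of_eq (key _ _ _ _ _ g0 g1 g2 g3 g4) ?_)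
  ring

theorem G3_c10 {S T : ℝ} (g0 : 0 < S) (g1 : 0 ≤ T - S - 1) (g2 : 0 < S + 1 - S*T) (g3 : 0 ≤ T^(2:ℕ) - S*(S+1)*T - (S+1)^(2:ℕ)) (g4 : 0 < S^(2:ℕ) - S + 1) : 0 < S^(2:ℕ)*T - S^(2:ℕ) + S*T + T^(2:ℕ) - 2*S - 1 := by
  have key : ∀ a0 a1 a2 a3 a4 : ℝ, 0 < a0 → 0 ≤ a1 → 0 < a2 → 0 ≤ a3 → 0 < a4 → 0 < 6*a0^(2:ℕ) + a0*a1^(2:ℕ) + 9*a0*a1 + 2*a0*a4 + 2*a1^(2:ℕ) + a1*a2 + 3*a1*a4 := by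
    intro a0 a1 a2 a3 a4 g0 g1 g2 g3 g4
    positivity
  refine pos_aux1 (m := 2) (by norm_num) (lt_of_lt_of_eq (key _ _ _ _ _ g0 g1 g2 g3 g4) ?_)
  ring

theorem G3_c11 {S T : ℝ} (g0 : 0 < S) (g1 : 0 ≤ T - S - 1) (g2 : 0 < S + 1 - S*T) (g3 : 0 ≤ T^(2:ℕ) - S*(S+1)*T - (S+1)^(2:ℕ)) (g4 : 0 < S^(2:ℕ) - S + 1) : 0 < -S*T^(2:ℕ) - S*T + 2*S + 2*T + 2 := by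
  have key : ∀ a0 a1 a2 a3 a4 : ℝ, 0 < a0 → 0 ≤ a1 → 0 < a2 → 0 ≤ a3 → 0 < a4 → 0 < a0^(2:ℕ)*a1 + 2*a0*a2 + a0*a4 + a1*a2 + a1 + 3*a2 + a4 := by
    intro a0 a1 a2 a3 a4 g0 g1 g2 g3 g4
    positivity
  refine pos_aux1 (m := 1) (by norm_num) (lt_of_lt_of_eq (key _ _ _ _ _ g0 g1 g2 g3 g4) ?_)
  ring

theorem G3_c12 {S T : ℝ} (g0 : 0 < S) (g1 : 0 ≤ T - S - 1) (g2 : 0 < S + 1 - S*T) (g3 : 0 ≤ T^(2:ℕ) - S*(S+1)*T - (S+1)^(2:ℕ)) (g4 : 0 < S^(2:ℕ) - S + 1) : 0 < S^(3:ℕ)*T^(2:ℕ) + S^(2:ℕ)*T^(2:ℕ) - S^(3:ℕ) - S^(2:ℕ)*T + S*T^(2:ℕ) + T^(3:ℕ) - 3*S^(2:ℕ) - 2*S*T + T^(2:ℕ) - 3*S - T - 1 := by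
  have key : ∀ a0 a1 a2 a3 a4 : ℝ, 0 < a0 → 0 ≤ a1 → 0 < a2 → 0 ≤ a3 → 0 < a4 → 0 < 6*a0^(3:ℕ)*a1 + 6*a0^(3:ℕ)*a2 + 4*a0^(3:ℕ)*a4 + 3*a0^(2:ℕ)*a1^(3:ℕ) + 15*a0^(2:ℕ)*a1^(2:ℕ) + 12*a0^(2:ℕ)*a1*a2 + 20*a0^(2:ℕ)*a1*a4 + 16*a0^(2:ℕ)*a4 + 2*a0*a1^(3:ℕ) + 3*a0*a1^(2:ℕ)*a2 + 15*a0*a1^(2:ℕ)*a4 + 16*a0*a1*a4 + 4*a0*a4^(2:ℕ) + 2*a1^(3:ℕ) + 4*a1^(2:ℕ)*a4 + 2*a2*a3 + 2*a3*a4 := by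
    intro a0 a1 a2 a3 a4 g0 g1 g2 g3 g4
    positivity
  refine pos_aux1 (m := 2) (by norm_num) (lt_of_lt_of_eq (key _ _ _ _ _ g0 g1 g2 g3 g4) ?_)
  ring

theorem G3_c13 {S T : ℝ} (g0 : 0 < S) (g1 : 0 ≤ T - S - 1) (g2 : 0 < S + 1 - S*T) (g3 : 0 ≤ T^(2:ℕ) - S*(S+1)*T - (S+1)^(2:ℕ)) (g4 : 0 < S^(2:ℕ) - S + 1) : 0 < S^(2:ℕ)*T - S^(2:ℕ) - S*T + T + 1 := by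
  have key : ∀ a0 a1 a2 a3 a4 : ℝ, 0 < a0 → 0 ≤ a1 → 0 < a2 → 0 ≤ a3 → 0 < a4 → 0 < a0^(2:ℕ)*a1 + a0*a4 + a1 + a2 + a4 := by
    intro a0 a1 a2 a3 a4 g0 g1 g2 g3 g4
    positivity
  refine pos_aux1 (m := 1) (by norm_num) (lt_of_lt_of_eq (key _ _ _ _ _ g0 g1 g2 g3 g4) ?_)
  ring

theorem G3_c14 {S T : ℝ} (g0 : 0 < S) (g1 : 0 ≤ T - S - 1) (g2 : 0 < S + 1 - S*T) (g3 : 0 ≤ T^(2:ℕ) - S*(S+1)*T - (S+1)^(2:ℕ)) (g4 : 0 < S^(2:ℕ) - S + 1) : 0 < -S^(2:ℕ)*T^(2:ℕ) - 2*S*T^(2:ℕ) + S^(2:ℕ) + 2*S*T + T^(2:ℕ) + 2*S + 2*T + 1 := by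
  have key : ∀ a0 a1 a2 a3 a4 : ℝ, 0 < a0 → 0 ≤ a1 → 0 < a2 → 0 ≤ a3 → 0 < a4 → 0 < 9*a0^(3:ℕ)*a1 + 14*a0^(2:ℕ)*a2 + 4*a0*a1^(3:ℕ) + 2*a0*a1*a2 + 25*a0*a2 + 5*a0*a3 + 39*a0*a4 + 4*a1^(2:ℕ)*a2 + 17*a1*a2 + 3*a1*a4 + 11*a2 + 2*a3 + 13*a4^(2:ℕ) := by
    intro a0 a1 a2 a3 a4 g0 g1 g2 g3 g4
    positivity
  refine pos_aux1 (m := 6) (by norm_num) (lt_of_lt_of_eq (key _ _ _ _ _ g0 g1 g2 g3 g4) ?_)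
  ring

theorem G3_c15 {S T : ℝ} (g0 : 0 < S) (g1 : 0 ≤ T - S - 1) (g2 : 0 < S + 1 - S*T) (g3 : 0 ≤ T^(2:ℕ) - S*(S+1)*T - (S+1)^(2:ℕ)) (g4 : 0 < S^(2:ℕ) - S + 1) : 0 < -S^(2:ℕ)*T^(2:ℕ) + S^(2:ℕ)*T - S*T^(2:ℕ) + T^(2:ℕ) + S + 2*T + 1 := by
  have key : ∀ a0 a1 a2 a3 a4 : ℝ, 0 < a0 → 0 ≤ a1 → 0 < a2 → 0 ≤ a3 → 0 < a4 → 0 < 3*a0^(2:ℕ)*a2 + 7*a0*a1^(3:ℕ) + 2*a0*a1*a2 + 12*a0*a1*a4 + 36*a0*a2 + 8*a0*a3 + 57*a0*a4 + 7*a1^(2:ℕ)*a2 + 17*a1*a2 + 15*a1*a4 + 17*a2*a4 + 2*a3 + 19*a4^(2:ℕ) := by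
    intro a0 a1 a2 a3 a4 g0 g1 g2 g3 g4
    positivity
  refine pos_aux1 (m := 9) (by norm_num) (lt_of_lt_of_eq (key _ _ _ _ _ g0 g1 g2 g3 g4) ?_)
  ring

theorem G3_c16 {S T : ℝ} (g0 : 0 < S) (g1 : 0 ≤ T - S - 1) (g2 : 0 < S + 1 - S*T) (g3 : 0 ≤ T^(2:ℕ) - S*(S+1)*T - (S+1)^(2:ℕ)) (g4 : 0 < S^(2:ℕ) - S + 1) : 0 < -S^(2:ℕ)*T^(3:ℕ) + S^(2:ℕ)*T^(2:ℕ) - S^(2:ℕ)*T - S*T^(2:ℕ) + S^(2:ℕ) + S*T + T^(2:ℕ) + 2*S + 2*T + 1 := by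
  have key : ∀ a0 a1 a2 a3 a4 : ℝ, 0 < a0 → 0 ≤ a1 → 0 < a2 → 0 ≤ a3 → 0 < a4 → 0 < 108*a0^(4:ℕ)*a1 + 48*a0^(2:ℕ)*a1^(2:ℕ) + 111*a0^(2:ℕ)*a1*a2 + 152*a0^(2:ℕ)*a2 + 47*a0^(2:ℕ)*a3 + 49*a0*a1^(2:ℕ)*a2 + 333*a0*a1*a2 + 21*a0*a1*a3 + 146*a0*a2^(2:ℕ) + 340*a0*a2*a4 + 192*a0*a4^(2:ℕ) + 21*a1^(2:ℕ)*a2 + 28*a1^(2:ℕ)*a4 + 112*a1*a2*a4 + 84*a1*a4^(2:ℕ) + 4*a2 + 192*a4^(2:ℕ) := by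
    intro a0 a1 a2 a3 a4 g0 g1 g2 g3 g4
    positivity
  refine pos_aux1 (m := 49) (by norm_num) (lt_of_lt_of_eq (key _ _ _ _ _ g0 g1 g2 g3 g4) ?_)
  ring

theorem G3_c17 {S T : ℝ} (g0 : 0 < S) (g1 : 0 ≤ T - S - 1) (g2 : 0 < S + 1 - S*T) (g3 : 0 ≤ T^(2:ℕ) - S*(S+1)*T - (S+1)^(2:ℕ)) (g4 : 0 < S^(2:ℕ) - S + 1) : 0 < S^(3:ℕ)*T^(4:ℕ) + S^(2:ℕ)*T^(4:ℕ) - S^(3:ℕ)*T^(2:ℕ) - S^(2:ℕ)*T^(3:ℕ) - S*T^(4:ℕ) + S^(3:ℕ)*T + S^(2:ℕ)*T^(2:ℕ) + S*T^(3:ℕ) + T^(4:ℕ) - S^(3:ℕ) + 2*S*T^(2:ℕ) + 2*T^(3:ℕ) - 3*S^(2:ℕ) - 3*S*T - 3*S - 2*T - 1 := by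
  have key : ∀ a0 a1 a2 a3 a4 : ℝ, 0 < a0 → 0 ≤ a1 → 0 < a2 → 0 ≤ a3 → 0 < a4 → 0 < 2726775*a0^(6:ℕ)*a1 + 286697*a0^(4:ℕ)*a3 + 2641952*a0^(3:ℕ)*a1^(4:ℕ) + 914652*a0^(3:ℕ)*a1*a3 + 2045288*a0^(3:ℕ)*a4^(2:ℕ) + 18407592*a0^(3:ℕ) + 2393200*a0^(2:ℕ)*a1^(3:ℕ)*a2 + 1201370*a0^(2:ℕ)*a1^(3:ℕ)*a4 + 1058275*a0^(2:ℕ)*a1^(2:ℕ)*a4 + 1276509*a0^(2:ℕ)*a1*a2^(2:ℕ) + 562810*a0^(2:ℕ)*a1*a3 + 1136363*a0^(2:ℕ)*a1*a4^(2:ℕ) + 3913402*a0^(2:ℕ)*a3 + 4090576*a0^(2:ℕ)*a4^(2:ℕ) + 16618*a0*a1^(3:ℕ)*a3 + 3678224*a0*a1^(3:ℕ)*a4 + 1359822*a0*a1^(2:ℕ)*a4^(2:ℕ) + 1089585*a0*a1*a2*a3 + 1439338*a0*a1*a4^(2:ℕ) + 1371438*a0*a2^(3:ℕ) + 1433734*a0*a2*a3 + 16618*a1^(4:ℕ)*a2 + 155450*a1^(4:ℕ)*a4 + 49854*a1^(3:ℕ)*a2*a4 + 982554*a1^(3:ℕ)*a4^(2:ℕ)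 + 1056349*a1^(2:ℕ)*a2^(2:ℕ) + 325301*a1^(2:ℕ)*a4^(2:ℕ) + 10212*a1*a2^(3:ℕ) + 468081*a2*a3 + 215085*a3*a4^(2:ℕ) := by
    intro a0 a1 a2 a3 a4 g0 g1 g2 g3 g4
    positivity
  refine pos_aux1 (m := 172068) (by norm_num) (lt_of_lt_of_eq (key _ _ _ _ _ g0 g1 g2 g3 g4) ?_)
  ring

theorem G3_c18 {S T : ℝ} (g0 : 0 < S) (g1 : 0 ≤ T - S - 1) (g2 : 0 < S + 1 - S*T) (g3 : 0 ≤ T^(2:ℕ) - S*(S+1)*T - (S+1)^(2:ℕ)) (g4 : 0 < S^(2:ℕ) - S + 1) : 0 < S^(3:ℕ)*T^(3:ℕ) - S^(3:ℕ)*T^(2:ℕ) + S^(2:ℕ)*T^(3:ℕ) + S^(3:ℕ)*T - S^(2:ℕ)*T^(2:ℕ) - S*T^(3:ℕ) - S^(3:ℕ) + S^(2:ℕ)*T + S*T^(2:ℕ) + T^(3:ℕ) - 3*S^(2:ℕ) - S*T + T^(2:ℕ) - 3*S - T - 1 := by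
  have key : ∀ a0 a1 a2 a3 a4 : ℝ, 0 < a0 → 0 ≤ a1 → 0 < a2 → 0 ≤ a3 → 0 < a4 → 0 < 17244*a0^(4:ℕ)*a2 + 32196*a0^(3:ℕ)*a1^(2:ℕ) + 2190*a0^(3:ℕ)*a1*a2 + 101736*a0^(3:ℕ)*a1*a4 + 241860*a0^(3:ℕ)*a4 + 2937*a0^(2:ℕ)*a1^(4:ℕ) + 29265*a0^(2:ℕ)*a1^(3:ℕ) + 2124*a0^(2:ℕ)*a1^(2:ℕ)*a2 + 4200*a0^(2:ℕ)*a1*a3 + 84452*a0^(2:ℕ)*a4^(2:ℕ) + 6538*a0*a1^(4:ℕ) + 2937*a0*a1^(3:ℕ)*a2 + 9929*a0*a1^(3:ℕ)*a4 + 2010*a0*a2^(2:ℕ) + 4408*a0*a2*a3 + 60696*a0*a3*a4 + 3832*a0*a4^(2:ℕ) + 4382*a1^(3:ℕ)*a4 + 486*a1^(2:ℕ)*a2*a4 + 24276*a1^(2:ℕ)*a4^(2:ℕ) + 6538*a1*a2*a3 + 31996*a1*a4^(2:ℕ) + 5842*a2*a3 := by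
    intro a0 a1 a2 a3 a4 g0 g1 g2 g3 g4
    positivity
  refine pos_aux1 (m := 10920) (by norm_num) (lt_of_lt_of_eq (key _ _ _ _ _ g0 g1 g2 g3 g4) ?_)
  ring

theorem G3_c19 {S T : ℝ} (g0 : 0 < S) (g1 : 0 ≤ T - S - 1) (g2 : 0 < S + 1 - S*T) (g3 : 0 ≤ T^(2:ℕ) - S*(S+1)*T - (S+1)^(2:ℕ)) (g4 : 0 < S^(2:ℕ) - S + 1) : 0 < -S^(2:ℕ)*T + S^(2:ℕ) - S*T + 2*S + T + 1 := by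
  have key : ∀ a0 a1 a2 a3 a4 : ℝ, 0 < a0 → 0 ≤ a1 → 0 < a2 → 0 ≤ a3 → 0 < a4 → 0 < a0*a1^(2:ℕ) + a0*a1 + 6*a0*a2 + 2*a0*a4 + a1*a2 + 3*a1*a4 + 2*a2 + 6 := by
    intro a0 a1 a2 a3 a4 g0 g1 g2 g3 g4
    positivity
  refine pos_aux1 (m := 4) (by norm_num) (lt_of_lt_of_eq (key _ _ _ _ _ g0 g1 g2 g3 g4) ?_)
  ring

theorem G3_d0 (S T : ℝ) (pA : 0 < (S + 1)) (c0 : 0 < -S*T + S + T + 1) :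
    0 < (S + 1)*(-S*T + S + T + 1) := (mul_pos pA c0)

theorem G3_d1 (S T : ℝ) (c0 : 0 < -S*T + S + T + 1) :
    0 < (-S*T + S + T + 1) := c0

theorem G3_f0 (S T : ℝ) (pS : 0 < S) (d0 : 0 < (S + 1)*(-S*T + S + T + 1)) (d1 : 0 < (-S*T + S + T + 1)) :
    fl S T Letter.ga ((S*(-S*T + S + 1))/((S + 1)*(-S*T + S + T + 1)), ((-S*T + S + 1))/((-S*T + S + T + 1))) = (((-S^(2:ℕ)*T + S^(2:ℕ) - S*T + 2*S + T + 1))/((S + 1)*(-S*T + S + T + 1)), (T)/((-S*T + S + T + 1))) := fl_ga' pS d0 d1 d0 d1 (by ring) (by ring)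

theorem G3_d2 (S T : ℝ) (pT : 0 < T) (c0 : 0 < -S*T + S + T + 1) :
    0 < T*(-S*T + S + T + 1) := (mul_pos pT c0)

theorem G3_d3 (S T : ℝ) (pA : 0 < (S + 1)) (pB : 0 < (T + 1)) (c0 : 0 < -S*T + S + T + 1) :
    0 < (S + 1)*(T + 1)*(-S*T + S + T + 1) := (mul_pos (mul_pos pA pB) c0)

theorem G3_f1 (S T : ℝ) (pT : 0 < T) (d0 : 0 < (S + 1)*(-S*T + S + T + 1)) (d1 : 0 < (-S*T + S + T + 1)) (d2 : 0 < T*(-S*T + S + T + 1)) (d3 : 0 < (S + 1)*(T + 1)*(-S*T + S + T + 1)) :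
    fl S T Letter.be (((-S^(2:ℕ)*T + S^(2:ℕ) - S*T + 2*S + T + 1))/((S + 1)*(-S*T + S + T + 1)), (T)/((-S*T + S + T + 1))) = (((S + T + 1)*(T - 1))/(T*(-S*T + S + T + 1)), (S*T^(2:ℕ))/((S + 1)*(T + 1)*(-S*T + S + T + 1))) := fl_be' pT d0 d1 d2 d3 (by ring) (by ring)

theorem G3_d4 (S T : ℝ) (pT : 0 < T) (pA : 0 < (S + 1)) (c0 : 0 < -S*T + S + T + 1) :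
    0 < T*(S + 1)*(-S*T + S + T + 1) := (mul_pos (mul_pos pT pA) c0)

theorem G3_f2 (S T : ℝ) (pS : 0 < S) (pT : 0 < T) (d1 : 0 < (-S*T + S + T + 1)) (d2 : 0 < T*(-S*T + S + T + 1)) (d3 : 0 < (S + 1)*(T + 1)*(-S*T + S + T + 1)) (d4 : 0 < T*(S + 1)*(-S*T + S + T + 1)) :
    fl S T Letter.al (((S + T + 1)*(T - 1))/(T*(-S*T + S + T + 1)), (S*T^(2:ℕ))/((S + 1)*(T + 1)*(-S*T + S + T + 1))) = (((S^(2:ℕ)*T - S^(2:ℕ) + S*T + T^(2:ℕ) - 2*S - 1))/(T*(S + 1)*(-S*T + S + T + 1)), (T)/((-S*T + S + T + 1))) := fl_al' pS pT d2 d3 d4 d1 (by ring) (by ring)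

theorem G3_f3 (S T : ℝ) (pT : 0 < T) (d1 : 0 < (-S*T + S + T + 1)) (d2 : 0 < T*(-S*T + S + T + 1)) (d3 : 0 < (S + 1)*(T + 1)*(-S*T + S + T + 1)) (d4 : 0 < T*(S + 1)*(-S*T + S + T + 1)) :
    fl S T Letter.be (((S^(2:ℕ)*T - S^(2:ℕ) + S*T + T^(2:ℕ) - 2*S - 1))/(T*(S + 1)*(-S*T + S + T + 1)), (T)/((-S*T + S + T + 1))) = (((S + T + 1)*(T - 1))/(T*(-S*T + S + T + 1)), ((-S^(2:ℕ)*T^(2:ℕ) + S^(2:ℕ) + S*T + 2*S + T + 1))/((S + 1)*(T + 1)*(-S*T + S + T + 1))) := fl_be' pT d4 d1 d2 d3 (by ring) (by ring)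

theorem G3_f4 (S T : ℝ) (pT : 0 < T) (d0 : 0 < (S + 1)*(-S*T + S + T + 1)) (d1 : 0 < (-S*T + S + T + 1)) (d2 : 0 < T*(-S*T + S + T + 1)) (d3 : 0 < (S + 1)*(T + 1)*(-S*T + S + T + 1)) :
    fl S T Letter.be (((S + T + 1)*(T - 1))/(T*(-S*T + S + T + 1)), ((-S^(2:ℕ)*T^(2:ℕ) + S^(2:ℕ) + S*T + 2*S + T + 1))/((S + 1)*(T + 1)*(-S*T + S + T + 1))) = ((S*(-S*T + S + 1))/((S + 1)*(-S*T + S + T + 1)), ((-S*T + S + 1))/((-S*T + S + T + 1))) := fl_be' pT d2 d3 d0 d1 (by ring) (by ring)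

theorem G3_rA (S T : ℝ) (f0 : fl S T Letter.ga ((S*(-S*T + S + 1))/((S + 1)*(-S*T + S + T + 1)), ((-S*T + S + 1))/((-S*T + S + T + 1))) = (((-S^(2:ℕ)*T + S^(2:ℕ) - S*T + 2*S + T + 1))/((S + 1)*(-S*T + S + T + 1)), (T)/((-S*T + S + T + 1)))) (f1 : fl S T Letter.be (((-S^(2:ℕ)*T + S^(2:ℕ) - S*T + 2*S + T + 1))/((S + 1)*(-S*T + S + T + 1)), (T)/((-S*T + S + T + 1))) = (((S + T + 1)*(T - 1))/(T*(-S*T + S + T + 1)), (S*T^(2:ℕ))/((S + 1)*(T + 1)*(-S*T + S + T + 1)))) (f2 : fl S T Letter.al (((S + T + 1)*(T - 1))/(T*(-S*T + S + T + 1)), (S*T^(2:ℕ))/((S + 1)*(T + 1)*(-S*T + S + T + 1))) = (((S^(2:ℕ)*T - S^(2:ℕ) + S*T + T^(2:ℕ) - 2*S - 1))/(T*(S + 1)*(-S*T + S + T + 1)), (T)/((-S*T + S + T + 1)))) (f3 : fl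 S T Letter.be (((S^(2:ℕ)*T - S^(2:ℕ) + S*T + T^(2:ℕ) - 2*S - 1))/(T*(S + 1)*(-S*T + S + T + 1)), (T)/((-S*T + S + T + 1))) = (((S + T + 1)*(T - 1))/(T*(-S*T + S + T + 1)), ((-S^(2:ℕ)*T^(2:ℕ) + S^(2:ℕ) + S*T + 2*S + T + 1))/((S + 1)*(T + 1)*(-S*T + S + T + 1)))) (f4 : fl S T Letter.be (((S + T + 1)*(T - 1))/(T*(-S*T + S + T + 1)), ((-S^(2:ℕ)*T^(2:ℕ) + S^(2:ℕ) + S*T + 2*S + T + 1))/((S + 1)*(T + 1)*(-S*T + S + T + 1))) = ((S*(-S*T + S + 1))/((S + 1)*(-S*T + S + T + 1)), ((-S*T + S + 1))/((-S*T + S + T + 1)))) :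
    run S T [Letter.ga, Letter.be, Letter.al, Letter.be, Letter.be] ((S*(-S*T + S + 1))/((S + 1)*(-S*T + S + T + 1)), ((-S*T + S + 1))/((-S*T + S + T + 1))) = ((S*(-S*T + S + 1))/((S + 1)*(-S*T + S + T + 1)), ((-S*T + S + 1))/((-S*T + S + T + 1))) := (run_cons' f0 (run_cons' f1 (run_cons' f2 (run_cons' f3 (run_cons' f4 run_nil')))))

theorem G3_d5 (S T : ℝ) (pA : 0 < (S + 1)) (pU : 0 < (S + T + 1)) (c0 : 0 < -S*T + S + T + 1) :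
    0 < (S + 1)*(S + T + 1)^(2:ℕ)*(-S*T + S + T + 1) := (mul_pos (mul_pos pA (pow_pos pU 2)) c0)

theorem G3_d6 (S T : ℝ) (pU : 0 < (S + T + 1)) (c0 : 0 < -S*T + S + T + 1) :
    0 < (S + T + 1)^(2:ℕ)*(-S*T + S + T + 1) := (mul_pos (pow_pos pU 2) c0)

theorem G3_f5 (S T : ℝ) (pS : 0 < S) (d0 : 0 < (S + 1)*(-S*T + S + T + 1)) (d1 : 0 < (-S*T + S + T + 1)) (d5 : 0 < (S + 1)*(S + T + 1)^(2:ℕ)*(-S*T + S + T + 1)) (d6 : 0 < (S + T + 1)^(2:ℕ)*(-S*T + S + T + 1)) :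
    fl S T Letter.ga ((S*(-S^(3:ℕ)*T^(3:ℕ) - S^(2:ℕ)*T^(2:ℕ) - S*T^(3:ℕ) + S^(3:ℕ) + 2*S^(2:ℕ)*T + 3*S^(2:ℕ) + 4*S*T + T^(2:ℕ) + 3*S + 2*T + 1))/((S + 1)*(S + T + 1)^(2:ℕ)*(-S*T + S + T + 1)), ((-S*T + S + 1))/((-S*T + S + T + 1))) = (((-S^(2:ℕ)*T + S^(2:ℕ) - S*T + 2*S + T + 1))/((S + 1)*(-S*T + S + T + 1)), (T*(S + 1)*(T + 1)*(S^(2:ℕ)*T - S^(2:ℕ) - S*T + T + 1))/((S + T + 1)^(2:ℕ)*(-S*T + S + T + 1))) := fl_ga' pS d5 d1 d0 d6 (by ring) (by ring)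

theorem G3_d7 (S T : ℝ) (pT : 0 < T) (pU : 0 < (S + T + 1)) (c0 : 0 < -S*T + S + T + 1) :
    0 < T*(S + T + 1)^(2:ℕ)*(-S*T + S + T + 1) := (mul_pos (mul_pos pT (pow_pos pU 2)) c0)

theorem G3_f6 (S T : ℝ) (pT : 0 < T) (d0 : 0 < (S + 1)*(-S*T + S + T + 1)) (d3 : 0 < (S + 1)*(T + 1)*(-S*T + S + T + 1)) (d6 : 0 < (S + T + 1)^(2:ℕ)*(-S*T + S + T + 1)) (d7 : 0 < T*(S + T + 1)^(2:ℕ)*(-S*T + S + T + 1)) :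
    fl S T Letter.be (((-S^(2:ℕ)*T + S^(2:ℕ) - S*T + 2*S + T + 1))/((S + 1)*(-S*T + S + T + 1)), (T*(S + 1)*(T + 1)*(S^(2:ℕ)*T - S^(2:ℕ) - S*T + T + 1))/((S + T + 1)^(2:ℕ)*(-S*T + S + T + 1))) = (((S^(3:ℕ)*T^(4:ℕ) + S^(3:ℕ)*T^(3:ℕ) - S^(3:ℕ)*T^(2:ℕ) - S^(2:ℕ)*T^(3:ℕ) + 2*S*T^(3:ℕ) + T^(4:ℕ) - S^(3:ℕ) - 2*S^(2:ℕ)*T + S*T^(2:ℕ) + 2*T^(3:ℕ) - 3*S^(2:ℕ) - 4*S*T - 3*S - 2*T - 1))/(T*(S + T + 1)^(2:ℕ)*(-S*T + S + T + 1)), (S*T^(2:ℕ))/((S + 1)*(T + 1)*(-S*T + S + T + 1))) := fl_be' pT d0 d6 d7 d3 (by ring) (by ring)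

theorem G3_d8 (S T : ℝ) (pT : 0 < T) (pU : 0 < (S + T + 1)) (c0 : 0 < -S*T + S + T + 1) :
    0 < T*(S + T + 1)*(-S*T + S + T + 1) := (mul_pos (mul_pos pT pU) c0)

theorem G3_f7 (S T : ℝ) (pS : 0 < S) (pT : 0 < T) (d1 : 0 < (-S*T + S + T + 1)) (d3 : 0 < (S + 1)*(T + 1)*(-S*T + S + T + 1)) (d7 : 0 < T*(S + T + 1)^(2:ℕ)*(-S*T + S + T + 1)) (d8 : 0 < T*(S + T + 1)*(-S*T + S + T + 1)) :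
    fl S T Letter.al (((S^(3:ℕ)*T^(4:ℕ) + S^(3:ℕ)*T^(3:ℕ) - S^(3:ℕ)*T^(2:ℕ) - S^(2:ℕ)*T^(3:ℕ) + 2*S*T^(3:ℕ) + T^(4:ℕ) - S^(3:ℕ) - 2*S^(2:ℕ)*T + S*T^(2:ℕ) + 2*T^(3:ℕ) - 3*S^(2:ℕ) - 4*S*T - 3*S - 2*T - 1))/(T*(S + T + 1)^(2:ℕ)*(-S*T + S + T + 1)), (S*T^(2:ℕ))/((S + 1)*(T + 1)*(-S*T + S + T + 1))) = (((S^(2:ℕ)*T^(3:ℕ) - S*T^(3:ℕ) + T^(3:ℕ) - S^(2:ℕ) - S*T + T^(2:ℕ) - 2*S - T - 1))/(T*(S + T + 1)*(-S*T + S + T + 1)), (T)/((-S*T + S + T + 1))) := fl_al' pS pT d7 d3 d8 d1 (by ring) (by ring)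

theorem G3_d9 (S T : ℝ) (pU : 0 < (S + T + 1)) (c0 : 0 < -S*T + S + T + 1) :
    0 < (S + T + 1)*(-S*T + S + T + 1) := (mul_pos pU c0)

theorem G3_f8 (S T : ℝ) (pT : 0 < T) (d1 : 0 < (-S*T + S + T + 1)) (d2 : 0 < T*(-S*T + S + T + 1)) (d8 : 0 < T*(S + T + 1)*(-S*T + S + T + 1)) (d9 : 0 < (S + T + 1)*(-S*T + S + T + 1)) :
    fl S T Letter.be (((S^(2:ℕ)*T^(3:ℕ) - S*T^(3:ℕ) + T^(3:ℕ) - S^(2:ℕ) - S*T + T^(2:ℕ) - 2*S - T - 1))/(T*(S + T + 1)*(-S*T + S + T + 1)), (T)/((-S*T + S + T + 1))) = (((S + T + 1)*(T - 1))/(T*(-S*T + S + T + 1)), ((-S^(2:ℕ)*T^(2:ℕ) + S^(2:ℕ) + S*T + 2*S + T + 1))/((S + T + 1)*(-S*T + S + T + 1))) := fl_be' pT d8 d1 d2 d9 (by ring) (by ring)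

theorem G3_f9 (S T : ℝ) (pT : 0 < T) (d1 : 0 < (-S*T + S + T + 1)) (d2 : 0 < T*(-S*T + S + T + 1)) (d9 : 0 < (S + T + 1)*(-S*T + S + T + 1)) :
    fl S T Letter.be (((S + T + 1)*(T - 1))/(T*(-S*T + S + T + 1)), ((-S^(2:ℕ)*T^(2:ℕ) + S^(2:ℕ) + S*T + 2*S + T + 1))/((S + T + 1)*(-S*T + S + T + 1))) = ((S*(-S*T^(2:ℕ) - S*T + 2*S + 2*T + 2))/((S + T + 1)*(-S*T + S + T + 1)), ((-S*T + S + 1))/((-S*T + S + T + 1))) := fl_be' pT d2 d9 d9 d1 (by ring) (by ring)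

theorem G3_rP (S T : ℝ) (f5 : fl S T Letter.ga ((S*(-S^(3:ℕ)*T^(3:ℕ) - S^(2:ℕ)*T^(2:ℕ) - S*T^(3:ℕ) + S^(3:ℕ) + 2*S^(2:ℕ)*T + 3*S^(2:ℕ) + 4*S*T + T^(2:ℕ) + 3*S + 2*T + 1))/((S + 1)*(S + T + 1)^(2:ℕ)*(-S*T + S + T + 1)), ((-S*T + S + 1))/((-S*T + S + T + 1))) = (((-S^(2:ℕ)*T + S^(2:ℕ) - S*T + 2*S + T + 1))/((S + 1)*(-S*T + S + T + 1)), (T*(S + 1)*(T + 1)*(S^(2:ℕ)*T - S^(2:ℕ) - S*T + T + 1))/((S + T + 1)^(2:ℕ)*(-S*T + S + T + 1)))) (f6 : fl S T Letter.be (((-S^(2:ℕ)*T + S^(2:ℕ) - S*T + 2*S + T + 1))/((S + 1)*(-S*T + S + T + 1)), (T*(S + 1)*(T + 1)*(S^(2:ℕ)*T - S^(2:ℕ) - S*T + T + 1))/((S + T + 1)^(2:ℕ)*(-S*T + S + T + 1))) = (((S^(3:ℕ)*T^(4:ℕ) + S^(3:ℕ)*T^(3:ℕ) - S^(3:ℕ)*T^(2:ℕ) - S^(2:ℕ)*T^(3:ℕ) +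 2*S*T^(3:ℕ) + T^(4:ℕ) - S^(3:ℕ) - 2*S^(2:ℕ)*T + S*T^(2:ℕ) + 2*T^(3:ℕ) - 3*S^(2:ℕ) - 4*S*T - 3*S - 2*T - 1))/(T*(S + T + 1)^(2:ℕ)*(-S*T + S + T + 1)), (S*T^(2:ℕ))/((S + 1)*(T + 1)*(-S*T + S + T + 1)))) (f7 : fl S T Letter.al (((S^(3:ℕ)*T^(4:ℕ) + S^(3:ℕ)*T^(3:ℕ) - S^(3:ℕ)*T^(2:ℕ) - S^(2:ℕ)*T^(3:ℕ) + 2*S*T^(3:ℕ) + T^(4:ℕ) - S^(3:ℕ) - 2*S^(2:ℕ)*T + S*T^(2:ℕ) + 2*T^(3:ℕ) - 3*S^(2:ℕ) - 4*S*T - 3*S - 2*T - 1))/(T*(S + T + 1)^(2:ℕ)*(-S*T + S + T + 1)), (S*T^(2:ℕ))/((S + 1)*(T + 1)*(-S*T + S + T + 1))) = (((S^(2:ℕ)*T^(3:ℕ) - S*T^(3:ℕ) + T^(3:ℕ) - S^(2:ℕ) - S*T + T^(2:ℕ) - 2*S - T - 1))/(T*(S + T + 1)*(-S*T + S + T + 1)), (T)/((-S*T + S + T + 1)))) (f8 : fl S T Letter.be (((S^(2:ℕ)*T^(3:ℕ) - S*T^(3:ℕ) + T^(3:ℕ)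 - S^(2:ℕ) - S*T + T^(2:ℕ) - 2*S - T - 1))/(T*(S + T + 1)*(-S*T + S + T + 1)), (T)/((-S*T + S + T + 1))) = (((S + T + 1)*(T - 1))/(T*(-S*T + S + T + 1)), ((-S^(2:ℕ)*T^(2:ℕ) + S^(2:ℕ) + S*T + 2*S + T + 1))/((S + T + 1)*(-S*T + S + T + 1)))) (f9 : fl S T Letter.be (((S + T + 1)*(T - 1))/(T*(-S*T + S + T + 1)), ((-S^(2:ℕ)*T^(2:ℕ) + S^(2:ℕ) + S*T + 2*S + T + 1))/((S + T + 1)*(-S*T + S + T + 1))) = ((S*(-S*T^(2:ℕ) - S*T + 2*S + 2*T + 2))/((S + T + 1)*(-S*T + S + T + 1)), ((-S*T + S + 1))/((-S*T + S + T + 1)))) :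
    run S T [Letter.ga, Letter.be, Letter.al, Letter.be, Letter.be] ((S*(-S^(3:ℕ)*T^(3:ℕ) - S^(2:ℕ)*T^(2:ℕ) - S*T^(3:ℕ) + S^(3:ℕ) + 2*S^(2:ℕ)*T + 3*S^(2:ℕ) + 4*S*T + T^(2:ℕ) + 3*S + 2*T + 1))/((S + 1)*(S + T + 1)^(2:ℕ)*(-S*T + S + T + 1)), ((-S*T + S + 1))/((-S*T + S + T + 1))) = ((S*(-S*T^(2:ℕ) - S*T + 2*S + 2*T + 2))/((S + T + 1)*(-S*T + S + T + 1)), ((-S*T + S + 1))/((-S*T + S + T + 1))) := (run_cons' f5 (run_cons' f6 (run_cons' f7 (run_cons' f8 (run_cons' f9 run_nil')))))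

theorem G3_d10 (S T : ℝ) (pS : 0 < S) (c1 : 0 < -S^(3:ℕ)*T^(3:ℕ) - S^(2:ℕ)*T^(2:ℕ) - S*T^(3:ℕ) + S^(3:ℕ) + 2*S^(2:ℕ)*T + 3*S^(2:ℕ) + 4*S*T + T^(2:ℕ) + 3*S + 2*T + 1) :
    0 < S*(-S^(3:ℕ)*T^(3:ℕ) - S^(2:ℕ)*T^(2:ℕ) - S*T^(3:ℕ) + S^(3:ℕ) + 2*S^(2:ℕ)*T + 3*S^(2:ℕ) + 4*S*T + T^(2:ℕ) + 3*S + 2*T + 1) := (mul_pos pS c1)

theorem G3_q0 (S T : ℝ) (d5 : 0 < (S + 1)*(S + T + 1)^(2:ℕ)*(-S*T + S + T + 1)) (d10 : 0 < S*(-S^(3:ℕ)*T^(3:ℕ) - S^(2:ℕ)*T^(2:ℕ) - S*T^(3:ℕ) + S^(3:ℕ) + 2*S^(2:ℕ)*T + 3*S^(2:ℕ) + 4*S*T + T^(2:ℕ) + 3*S + 2*T + 1)) :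
    0 < (S*(-S^(3:ℕ)*T^(3:ℕ) - S^(2:ℕ)*T^(2:ℕ) - S*T^(3:ℕ) + S^(3:ℕ) + 2*S^(2:ℕ)*T + 3*S^(2:ℕ) + 4*S*T + T^(2:ℕ) + 3*S + 2*T + 1))/((S + 1)*(S + T + 1)^(2:ℕ)*(-S*T + S + T + 1)) := div_pos d10 d5

theorem G3_d11 (S T : ℝ) (c2 : 0 < S^(4:ℕ)*T^(3:ℕ) - S^(4:ℕ)*T - S^(3:ℕ)*T^(2:ℕ) - 2*S^(3:ℕ)*T - S^(2:ℕ)*T^(2:ℕ) + S^(3:ℕ) + 2*S^(2:ℕ)*T + 3*S*T^(2:ℕ) + T^(3:ℕ) + 3*S^(2:ℕ) + 6*S*T + 3*T^(2:ℕ) + 3*S + 3*T + 1) :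
    0 < (S^(4:ℕ)*T^(3:ℕ) - S^(4:ℕ)*T - S^(3:ℕ)*T^(2:ℕ) - 2*S^(3:ℕ)*T - S^(2:ℕ)*T^(2:ℕ) + S^(3:ℕ) + 2*S^(2:ℕ)*T + 3*S*T^(2:ℕ) + T^(3:ℕ) + 3*S^(2:ℕ) + 6*S*T + 3*T^(2:ℕ) + 3*S + 3*T + 1) := c2

theorem G3_q1 (S T : ℝ) (d5 : 0 < (S + 1)*(S + T + 1)^(2:ℕ)*(-S*T + S + T + 1)) (d11 : 0 < (S^(4:ℕ)*T^(3:ℕ) - S^(4:ℕ)*T - S^(3:ℕ)*T^(2:ℕ) - 2*S^(3:ℕ)*T - S^(2:ℕ)*T^(2:ℕ) + S^(3:ℕ) + 2*S^(2:ℕ)*T + 3*S*T^(2:ℕ) + T^(3:ℕ) + 3*S^(2:ℕ) + 6*S*T + 3*T^(2:ℕ) + 3*S + 3*T + 1)) :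
    (S*(-S^(3:ℕ)*T^(3:ℕ) - S^(2:ℕ)*T^(2:ℕ) - S*T^(3:ℕ) + S^(3:ℕ) + 2*S^(2:ℕ)*T + 3*S^(2:ℕ) + 4*S*T + T^(2:ℕ) + 3*S + 2*T + 1))/((S + 1)*(S + T + 1)^(2:ℕ)*(-S*T + S + T + 1)) < 1 := rlt1 d5 d11 d5 (by ring)

theorem G3_d12 (S T : ℝ) (c3 : 0 < -S*T + S + 1) :
    0 < (-S*T + S + 1) := c3

theorem G3_q2 (S T : ℝ) (d1 : 0 < (-S*T + S + T + 1)) (d12 : 0 < (-S*T + S + 1)) :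
    0 < ((-S*T + S + 1))/((-S*T + S + T + 1)) := div_pos d12 d1

theorem G3_q3 (S T : ℝ) (pT : 0 < T) (d1 : 0 < (-S*T + S + T + 1)) :
    ((-S*T + S + 1))/((-S*T + S + T + 1)) < 1 := rlt1 d1 pT d1 (by ring)

theorem G3_sP (S T : ℝ) (q0 : 0 < (S*(-S^(3:ℕ)*T^(3:ℕ) - S^(2:ℕ)*T^(2:ℕ) - S*T^(3:ℕ) + S^(3:ℕ) + 2*S^(2:ℕ)*T + 3*S^(2:ℕ) + 4*S*T + T^(2:ℕ) + 3*S + 2*T + 1))/((S + 1)*(S + T + 1)^(2:ℕ)*(-S*T + S + T + 1))) (q1 : (S*(-S^(3:ℕ)*T^(3:ℕ) - S^(2:ℕ)*T^(2:ℕ) - S*T^(3:ℕ) + S^(3:ℕ) + 2*S^(2:ℕ)*T + 3*S^(2:ℕ) + 4*S*T + T^(2:ℕ) + 3*S + 2*T + 1))/((S + 1)*(S + T + 1)^(2:ℕ)*(-S*T + S + T + 1)) < 1) (q2 : 0 < ((-S*T + S + 1))/((-S*T + S + T + 1))) (q3 : ((-S*T + S + 1))/((-S*T + S + T + 1)) < 1) :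
    Sq ((S*(-S^(3:ℕ)*T^(3:ℕ) - S^(2:ℕ)*T^(2:ℕ) - S*T^(3:ℕ) + S^(3:ℕ) + 2*S^(2:ℕ)*T + 3*S^(2:ℕ) + 4*S*T + T^(2:ℕ) + 3*S + 2*T + 1))/((S + 1)*(S + T + 1)^(2:ℕ)*(-S*T + S + T + 1)), ((-S*T + S + 1))/((-S*T + S + T + 1))) := ⟨⟨q0, q1⟩, q2, q3⟩

theorem G3_d13 (S T : ℝ) (pS : 0 < S) (pT : 0 < T) (c4 : 0 < S^(2:ℕ)*T^(2:ℕ) - S^(2:ℕ) + T^(2:ℕ) - 2*S - 1) :
    0 < S^(2:ℕ)*T*(S^(2:ℕ)*T^(2:ℕ) - S^(2:ℕ) + T^(2:ℕ) - 2*S - 1) := (mul_pos (mul_pos (pow_pos pS 2) pT) c4)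

theorem G3_d14 (S T : ℝ) (pA : 0 < (S + 1)) (pU : 0 < (S + T + 1)) (c0 : 0 < -S*T + S + T + 1) :
    0 < (S + 1)*(S + T + 1)*(-S*T + S + T + 1) := (mul_pos (mul_pos pA pU) c0)

theorem G3_g0 (S T : ℝ) (d5 : 0 < (S + 1)*(S + T + 1)^(2:ℕ)*(-S*T + S + T + 1)) (d13 : 0 < S^(2:ℕ)*T*(S^(2:ℕ)*T^(2:ℕ) - S^(2:ℕ) + T^(2:ℕ) - 2*S - 1)) (d14 : 0 < (S + 1)*(S + T + 1)*(-S*T + S + T + 1)) :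
    (S + T + 1) * ((S*(-S^(3:ℕ)*T^(3:ℕ) - S^(2:ℕ)*T^(2:ℕ) - S*T^(3:ℕ) + S^(3:ℕ) + 2*S^(2:ℕ)*T + 3*S^(2:ℕ) + 4*S*T + T^(2:ℕ) + 3*S + 2*T + 1))/((S + 1)*(S + T + 1)^(2:ℕ)*(-S*T + S + T + 1))) < S := rlt d5 d13 d14 (by ring)

theorem G3_oP_0 (S T : ℝ) (g0 : (S + T + 1) * ((S*(-S^(3:ℕ)*T^(3:ℕ) - S^(2:ℕ)*T^(2:ℕ) - S*T^(3:ℕ) + S^(3:ℕ) + 2*S^(2:ℕ)*T + 3*S^(2:ℕ) + 4*S*T + T^(2:ℕ) + 3*S + 2*T + 1))/((S + 1)*(S + T + 1)^(2:ℕ)*(-S*T + S + T + 1))) < S) :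
    cond S T Letter.ga ((S*(-S^(3:ℕ)*T^(3:ℕ) - S^(2:ℕ)*T^(2:ℕ) - S*T^(3:ℕ) + S^(3:ℕ) + 2*S^(2:ℕ)*T + 3*S^(2:ℕ) + 4*S*T + T^(2:ℕ) + 3*S + 2*T + 1))/((S + 1)*(S + T + 1)^(2:ℕ)*(-S*T + S + T + 1)), ((-S*T + S + 1))/((-S*T + S + T + 1))) := g0

theorem G3_d15 (S T : ℝ) (c5 : 0 < -S^(2:ℕ)*T^(2:ℕ) - S^(2:ℕ)*T - S*T^(2:ℕ) + S^(2:ℕ) + S*T + T^(2:ℕ) + 2*S + 2*T + 1) :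
    0 < (-S^(2:ℕ)*T^(2:ℕ) - S^(2:ℕ)*T - S*T^(2:ℕ) + S^(2:ℕ) + S*T + T^(2:ℕ) + 2*S + 2*T + 1) := c5

theorem G3_g1 (S T : ℝ) (d0 : 0 < (S + 1)*(-S*T + S + T + 1)) (d15 : 0 < (-S^(2:ℕ)*T^(2:ℕ) - S^(2:ℕ)*T - S*T^(2:ℕ) + S^(2:ℕ) + S*T + T^(2:ℕ) + 2*S + 2*T + 1)) :
    S < (S + T + 1) * (((-S^(2:ℕ)*T + S^(2:ℕ) - S*T + 2*S + T + 1))/((S + 1)*(-S*T + S + T + 1))) := rgt d0 d15 d0 (by ring)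

theorem G3_d16 (S T : ℝ) (c6 : 0 < S^(3:ℕ)*T^(4:ℕ) + S^(3:ℕ)*T^(3:ℕ) - S^(3:ℕ)*T^(2:ℕ) - S^(2:ℕ)*T^(3:ℕ) + 2*S*T^(3:ℕ) + T^(4:ℕ) - S^(3:ℕ) - 2*S^(2:ℕ)*T + S*T^(2:ℕ) + 2*T^(3:ℕ) - 3*S^(2:ℕ) - 4*S*T - 3*S - 2*T - 1) :
    0 < (S^(3:ℕ)*T^(4:ℕ) + S^(3:ℕ)*T^(3:ℕ) - S^(3:ℕ)*T^(2:ℕ) - S^(2:ℕ)*T^(3:ℕ) + 2*S*T^(3:ℕ) + T^(4:ℕ) - S^(3:ℕ) - 2*S^(2:ℕ)*T + S*T^(2:ℕ) + 2*T^(3:ℕ) - 3*S^(2:ℕ) - 4*S*T - 3*S - 2*T - 1) := c6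

theorem G3_g2 (S T : ℝ) (d6 : 0 < (S + T + 1)^(2:ℕ)*(-S*T + S + T + 1)) (d16 : 0 < (S^(3:ℕ)*T^(4:ℕ) + S^(3:ℕ)*T^(3:ℕ) - S^(3:ℕ)*T^(2:ℕ) - S^(2:ℕ)*T^(3:ℕ) + 2*S*T^(3:ℕ) + T^(4:ℕ) - S^(3:ℕ) - 2*S^(2:ℕ)*T + S*T^(2:ℕ) + 2*T^(3:ℕ) - 3*S^(2:ℕ) - 4*S*T - 3*S - 2*T - 1)) :
    1 < (T + 1) * ((T*(S + 1)*(T + 1)*(S^(2:ℕ)*T - S^(2:ℕ) - S*T + T + 1))/((S + T + 1)^(2:ℕ)*(-S*T + S + T + 1))) := rgt d6 d16 d6 (by ring)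

theorem G3_oP_1 (S T : ℝ) (g1 : S < (S + T + 1) * (((-S^(2:ℕ)*T + S^(2:ℕ) - S*T + 2*S + T + 1))/((S + 1)*(-S*T + S + T + 1)))) (g2 : 1 < (T + 1) * ((T*(S + 1)*(T + 1)*(S^(2:ℕ)*T - S^(2:ℕ) - S*T + T + 1))/((S + T + 1)^(2:ℕ)*(-S*T + S + T + 1)))) :
    cond S T Letter.be (((-S^(2:ℕ)*T + S^(2:ℕ) - S*T + 2*S + T + 1))/((S + 1)*(-S*T + S + T + 1)), (T*(S + 1)*(T + 1)*(S^(2:ℕ)*T - S^(2:ℕ) - S*T + T + 1))/((S + T + 1)^(2:ℕ)*(-S*T + S + T + 1))) := ⟨g1, g2⟩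

theorem G3_d17 (S T : ℝ) (pA : 0 < (S + 1)) (pB : 0 < (T + 1)) (c7 : 0 < S^(2:ℕ)*T^(3:ℕ) - S*T^(3:ℕ) + T^(3:ℕ) - S^(2:ℕ) - S*T + T^(2:ℕ) - 2*S - T - 1) :
    0 < (S + 1)*(T + 1)*(S^(2:ℕ)*T^(3:ℕ) - S*T^(3:ℕ) + T^(3:ℕ) - S^(2:ℕ) - S*T + T^(2:ℕ) - 2*S - T - 1) := (mul_pos (mul_pos pA pB) c7)

theorem G3_g3 (S T : ℝ) (d7 : 0 < T*(S + T + 1)^(2:ℕ)*(-S*T + S + T + 1)) (d8 : 0 < T*(S + T + 1)*(-S*T + S + T + 1)) (d17 : 0 < (S + 1)*(T + 1)*(S^(2:ℕ)*T^(3:ℕ) - S*T^(3:ℕ) + T^(3:ℕ) - S^(2:ℕ) - S*T + T^(2:ℕ) - 2*S - T - 1)) :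
    S < (S + T + 1) * (((S^(3:ℕ)*T^(4:ℕ) + S^(3:ℕ)*T^(3:ℕ) - S^(3:ℕ)*T^(2:ℕ) - S^(2:ℕ)*T^(3:ℕ) + 2*S*T^(3:ℕ) + T^(4:ℕ) - S^(3:ℕ) - 2*S^(2:ℕ)*T + S*T^(2:ℕ) + 2*T^(3:ℕ) - 3*S^(2:ℕ) - 4*S*T - 3*S - 2*T - 1))/(T*(S + T + 1)^(2:ℕ)*(-S*T + S + T + 1))) := rgt d7 d17 d8 (by ring)

theorem G3_d18 (S T : ℝ) (pU : 0 < (S + T + 1)) (c3 : 0 < -S*T + S + 1) :
    0 < (S + T + 1)*(-S*T + S + 1) := (mul_pos pU c3)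

theorem G3_g4 (S T : ℝ) (d0 : 0 < (S + 1)*(-S*T + S + T + 1)) (d3 : 0 < (S + 1)*(T + 1)*(-S*T + S + T + 1)) (d18 : 0 < (S + T + 1)*(-S*T + S + 1)) :
    (T + 1) * ((S*T^(2:ℕ))/((S + 1)*(T + 1)*(-S*T + S + T + 1))) < 1 := rlt d3 d18 d0 (by ring)

theorem G3_oP_2 (S T : ℝ) (g3 : S < (S + T + 1) * (((S^(3:ℕ)*T^(4:ℕ) + S^(3:ℕ)*T^(3:ℕ) - S^(3:ℕ)*T^(2:ℕ) - S^(2:ℕ)*T^(3:ℕ) + 2*S*T^(3:ℕ) + T^(4:ℕ) - S^(3:ℕ) - 2*S^(2:ℕ)*T + S*T^(2:ℕ) + 2*T^(3:ℕ) - 3*S^(2:ℕ) - 4*S*T - 3*S - 2*T - 1))/(T*(S + T + 1)^(2:ℕ)*(-S*T + S + T + 1)))) (g4 : (T + 1) * ((S*T^(2:ℕ))/((S + 1)*(T + 1)*(-S*T + S + T + 1))) < 1) :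
    cond S T Letter.al (((S^(3:ℕ)*T^(4:ℕ) + S^(3:ℕ)*T^(3:ℕ) - S^(3:ℕ)*T^(2:ℕ) - S^(2:ℕ)*T^(3:ℕ) + 2*S*T^(3:ℕ) + T^(4:ℕ) - S^(3:ℕ) - 2*S^(2:ℕ)*T + S*T^(2:ℕ) + 2*T^(3:ℕ) - 3*S^(2:ℕ) - 4*S*T - 3*S - 2*T - 1))/(T*(S + T + 1)^(2:ℕ)*(-S*T + S + T + 1)), (S*T^(2:ℕ))/((S + 1)*(T + 1)*(-S*T + S + T + 1))) := ⟨g3, g4⟩

theorem G3_d19 (S T : ℝ) (pB : 0 < (T + 1)) (c8 : 0 < S^(2:ℕ)*T^(2:ℕ) - S*T^(2:ℕ) - S^(2:ℕ) + T^(2:ℕ) - 2*S - 1) :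
    0 < (T + 1)*(S^(2:ℕ)*T^(2:ℕ) - S*T^(2:ℕ) - S^(2:ℕ) + T^(2:ℕ) - 2*S - 1) := (mul_pos pB c8)

theorem G3_g5 (S T : ℝ) (d2 : 0 < T*(-S*T + S + T + 1)) (d8 : 0 < T*(S + T + 1)*(-S*T + S + T + 1)) (d19 : 0 < (T + 1)*(S^(2:ℕ)*T^(2:ℕ) - S*T^(2:ℕ) - S^(2:ℕ) + T^(2:ℕ) - 2*S - 1)) :
    S < (S + T + 1) * (((S^(2:ℕ)*T^(3:ℕ) - S*T^(3:ℕ) + T^(3:ℕ) - S^(2:ℕ) - S*T + T^(2:ℕ) - 2*S - T - 1))/(T*(S + T + 1)*(-S*T + S + T + 1))) := rgt d8 d19 d2 (by ring)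

theorem G3_d20 (S T : ℝ) (pU : 0 < (S + T + 1)) (c9 : 0 < T - 1) :
    0 < (S + T + 1)*(T - 1) := (mul_pos pU c9)

theorem G3_g6 (S T : ℝ) (d1 : 0 < (-S*T + S + T + 1)) (d20 : 0 < (S + T + 1)*(T - 1)) :
    1 < (T + 1) * ((T)/((-S*T + S + T + 1))) := rgt d1 d20 d1 (by ring)

theorem G3_oP_3 (S T : ℝ) (g5 : S < (S + T + 1) * (((S^(2:ℕ)*T^(3:ℕ) - S*T^(3:ℕ) + T^(3:ℕ) - S^(2:ℕ) - S*T + T^(2:ℕ) - 2*S - T - 1))/(T*(S + T + 1)*(-S*T + S + T + 1)))) (g6 : 1 < (T + 1) * ((T)/((-S*T + S + T + 1)))) :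
    cond S T Letter.be (((S^(2:ℕ)*T^(3:ℕ) - S*T^(3:ℕ) + T^(3:ℕ) - S^(2:ℕ) - S*T + T^(2:ℕ) - 2*S - T - 1))/(T*(S + T + 1)*(-S*T + S + T + 1)), (T)/((-S*T + S + T + 1))) := ⟨g5, g6⟩

theorem G3_d21 (S T : ℝ) (pB : 0 < (T + 1)) (c10 : 0 < S^(2:ℕ)*T - S^(2:ℕ) + S*T + T^(2:ℕ) - 2*S - 1) :
    0 < (T + 1)*(S^(2:ℕ)*T - S^(2:ℕ) + S*T + T^(2:ℕ) - 2*S - 1) := (mul_pos pB c10)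

theorem G3_g7 (S T : ℝ) (d2 : 0 < T*(-S*T + S + T + 1)) (d21 : 0 < (T + 1)*(S^(2:ℕ)*T - S^(2:ℕ) + S*T + T^(2:ℕ) - 2*S - 1)) :
    S < (S + T + 1) * (((S + T + 1)*(T - 1))/(T*(-S*T + S + T + 1))) := rgt d2 d21 d2 (by ring)

theorem G3_d22 (S T : ℝ) (pS : 0 < S) (pT : 0 < T) (c11 : 0 < -S*T^(2:ℕ) - S*T + 2*S + 2*T + 2) :
    0 < S*T*(-S*T^(2:ℕ) - S*T + 2*S + 2*T + 2) := (mul_pos (mul_pos pS pT) c11)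

theorem G3_g8 (S T : ℝ) (d9 : 0 < (S + T + 1)*(-S*T + S + T + 1)) (d22 : 0 < S*T*(-S*T^(2:ℕ) - S*T + 2*S + 2*T + 2)) :
    1 < (T + 1) * (((-S^(2:ℕ)*T^(2:ℕ) + S^(2:ℕ) + S*T + 2*S + T + 1))/((S + T + 1)*(-S*T + S + T + 1))) := rgt d9 d22 d9 (by ring)

theorem G3_oP_4 (S T : ℝ) (g7 : S < (S + T + 1) * (((S + T + 1)*(T - 1))/(T*(-S*T + S + T + 1)))) (g8 : 1 < (T + 1) * (((-S^(2:ℕ)*T^(2:ℕ) + S^(2:ℕ) + S*T + 2*S + T + 1))/((S + T + 1)*(-S*T + S + T + 1)))) :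
    cond S T Letter.be (((S + T + 1)*(T - 1))/(T*(-S*T + S + T + 1)), ((-S^(2:ℕ)*T^(2:ℕ) + S^(2:ℕ) + S*T + 2*S + T + 1))/((S + T + 1)*(-S*T + S + T + 1))) := ⟨g7, g8⟩

theorem G3_oP (S T : ℝ) (f5 : fl S T Letter.ga ((S*(-S^(3:ℕ)*T^(3:ℕ) - S^(2:ℕ)*T^(2:ℕ) - S*T^(3:ℕ) + S^(3:ℕ) + 2*S^(2:ℕ)*T + 3*S^(2:ℕ) + 4*S*T + T^(2:ℕ) + 3*S + 2*T + 1))/((S + 1)*(S + T + 1)^(2:ℕ)*(-S*T + S + T + 1)), ((-S*T + S + 1))/((-S*T + S + T + 1))) = (((-S^(2:ℕ)*T + S^(2:ℕ) - S*T + 2*S + T + 1))/((S + 1)*(-S*T + S + T + 1)), (T*(S + 1)*(T + 1)*(S^(2:ℕ)*T - S^(2:ℕ) - S*T + T + 1))/((S + T + 1)^(2:ℕ)*(-S*T + S + T + 1)))) (f6 : fl S T Letter.be (((-S^(2:ℕ)*T + S^(2:ℕ) - S*T + 2*S + T + 1))/((S + 1)*(-S*T + S + T + 1)), (T*(S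 + 1)*(T + 1)*(S^(2:ℕ)*T - S^(2:ℕ) - S*T + T + 1))/((S + T + 1)^(2:ℕ)*(-S*T + S + T + 1))) = (((S^(3:ℕ)*T^(4:ℕ) + S^(3:ℕ)*T^(3:ℕ) - S^(3:ℕ)*T^(2:ℕ) - S^(2:ℕ)*T^(3:ℕ) + 2*S*T^(3:ℕ) + T^(4:ℕ) - S^(3:ℕ) - 2*S^(2:ℕ)*T + S*T^(2:ℕ) + 2*T^(3:ℕ) - 3*S^(2:ℕ) - 4*S*T - 3*S - 2*T - 1))/(T*(S + T + 1)^(2:ℕ)*(-S*T + S + T + 1)), (S*T^(2:ℕ))/((S + 1)*(T + 1)*(-S*T + S + T + 1)))) (f7 : fl S T Letter.al (((S^(3:ℕ)*T^(4:ℕ) + S^(3:ℕ)*T^(3:ℕ) - S^(3:ℕ)*T^(2:ℕ) - S^(2:ℕ)*T^(3:ℕ) + 2*S*T^(3:ℕ) + T^(4:ℕ) - S^(3:ℕ) - 2*S^(2:ℕ)*T + S*T^(2:ℕ) + 2*T^(3:ℕ) - 3*S^(2:ℕ) - 4*S*T - 3*S - 2*T - 1))/(T*(S + T + 1)^(2:ℕ)*(-S*T + S + T + 1)), (S*T^(2:ℕ))/((S + 1)*(T + 1)*(-S*T + S + T + 1))) = (((S^(2:ℕ)*T^(3:ℕ) - S*T^(3:ℕ) + T^(3:ℕ)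 - S^(2:ℕ) - S*T + T^(2:ℕ) - 2*S - T - 1))/(T*(S + T + 1)*(-S*T + S + T + 1)), (T)/((-S*T + S + T + 1)))) (f8 : fl S T Letter.be (((S^(2:ℕ)*T^(3:ℕ) - S*T^(3:ℕ) + T^(3:ℕ) - S^(2:ℕ) - S*T + T^(2:ℕ) - 2*S - T - 1))/(T*(S + T + 1)*(-S*T + S + T + 1)), (T)/((-S*T + S + T + 1))) = (((S + T + 1)*(T - 1))/(T*(-S*T + S + T + 1)), ((-S^(2:ℕ)*T^(2:ℕ) + S^(2:ℕ) + S*T + 2*S + T + 1))/((S + T + 1)*(-S*T + S + T + 1)))) (oP_0 : cond S T Letter.ga ((S*(-S^(3:ℕ)*T^(3:ℕ) - S^(2:ℕ)*T^(2:ℕ) - S*T^(3:ℕ) + S^(3:ℕ) + 2*S^(2:ℕ)*T + 3*S^(2:ℕ) + 4*S*T + T^(2:ℕ) + 3*S + 2*T + 1))/((S + 1)*(S + T + 1)^(2:ℕ)*(-S*T + S + T + 1)), ((-S*T + S + 1))/((-S*T + S + T + 1)))) (oP_1 : cond S T Letter.be (((-S^(2:ℕ)*T + S^(2:ℕ) - S*T +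 2*S + T + 1))/((S + 1)*(-S*T + S + T + 1)), (T*(S + 1)*(T + 1)*(S^(2:ℕ)*T - S^(2:ℕ) - S*T + T + 1))/((S + T + 1)^(2:ℕ)*(-S*T + S + T + 1)))) (oP_2 : cond S T Letter.al (((S^(3:ℕ)*T^(4:ℕ) + S^(3:ℕ)*T^(3:ℕ) - S^(3:ℕ)*T^(2:ℕ) - S^(2:ℕ)*T^(3:ℕ) + 2*S*T^(3:ℕ) + T^(4:ℕ) - S^(3:ℕ) - 2*S^(2:ℕ)*T + S*T^(2:ℕ) + 2*T^(3:ℕ) - 3*S^(2:ℕ) - 4*S*T - 3*S - 2*T - 1))/(T*(S + T + 1)^(2:ℕ)*(-S*T + S + T + 1)), (S*T^(2:ℕ))/((S + 1)*(T + 1)*(-S*T + S + T + 1)))) (oP_3 : cond S T Letter.be (((S^(2:ℕ)*T^(3:ℕ) - S*T^(3:ℕ) + T^(3:ℕ) - S^(2:ℕ) - S*T + T^(2:ℕ) - 2*S - T - 1))/(T*(S + T + 1)*(-S*T + S + T + 1)), (T)/((-S*T + S + T + 1)))) (oP_4 : cond S T Letter.be (((S + T + 1)*(T - 1))/(T*(-S*T + S + T + 1)), ((-S^(2:ℕ)*T^(2:ℕ)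 + S^(2:ℕ) + S*T + 2*S + T + 1))/((S + T + 1)*(-S*T + S + T + 1)))) :
    okc S T [Letter.ga, Letter.be, Letter.al, Letter.be, Letter.be] ((S*(-S^(3:ℕ)*T^(3:ℕ) - S^(2:ℕ)*T^(2:ℕ) - S*T^(3:ℕ) + S^(3:ℕ) + 2*S^(2:ℕ)*T + 3*S^(2:ℕ) + 4*S*T + T^(2:ℕ) + 3*S + 2*T + 1))/((S + 1)*(S + T + 1)^(2:ℕ)*(-S*T + S + T + 1)), ((-S*T + S + 1))/((-S*T + S + T + 1))) := (okc_cons' oP_0 f5 (okc_cons' oP_1 f6 (okc_cons' oP_2 f7 (okc_cons' oP_3 f8 (okc_last' oP_4)))))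

theorem G3_d23 (S T : ℝ) (pS : 0 < S) (c3 : 0 < -S*T + S + 1) :
    0 < S*(-S*T + S + 1) := (mul_pos pS c3)

theorem G3_q4 (S T : ℝ) (d0 : 0 < (S + 1)*(-S*T + S + T + 1)) (d23 : 0 < S*(-S*T + S + 1)) :
    0 < (S*(-S*T + S + 1))/((S + 1)*(-S*T + S + T + 1)) := div_pos d23 d0

theorem G3_d24 (S T : ℝ) (pU : 0 < (S + T + 1)) :
    0 < (S + T + 1) := pU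

theorem G3_q5 (S T : ℝ) (d0 : 0 < (S + 1)*(-S*T + S + T + 1)) (d24 : 0 < (S + T + 1)) :
    (S*(-S*T + S + 1))/((S + 1)*(-S*T + S + T + 1)) < 1 := rlt1 d0 d24 d0 (by ring)

theorem G3_sA (S T : ℝ) (q2 : 0 < ((-S*T + S + 1))/((-S*T + S + T + 1))) (q3 : ((-S*T + S + 1))/((-S*T + S + T + 1)) < 1) (q4 : 0 < (S*(-S*T + S + 1))/((S + 1)*(-S*T + S + T + 1))) (q5 : (S*(-S*T + S + 1))/((S + 1)*(-S*T + S + T + 1)) < 1) :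
    Sq ((S*(-S*T + S + 1))/((S + 1)*(-S*T + S + T + 1)), ((-S*T + S + 1))/((-S*T + S + T + 1))) := ⟨⟨q4, q5⟩, q2, q3⟩

theorem G3_d25 (S T : ℝ) (pS : 0 < S) (pT : 0 < T) :
    0 < S^(2:ℕ)*T^(2:ℕ) := (mul_pos (pow_pos pS 2) (pow_pos pT 2))

theorem G3_g9 (S T : ℝ) (d0 : 0 < (S + 1)*(-S*T + S + T + 1)) (d25 : 0 < S^(2:ℕ)*T^(2:ℕ)) :
    (S + T + 1) * ((S*(-S*T + S + 1))/((S + 1)*(-S*T + S + T + 1))) < S := rlt d0 d25 d0 (by ring)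

theorem G3_oA_0 (S T : ℝ) (g9 : (S + T + 1) * ((S*(-S*T + S + 1))/((S + 1)*(-S*T + S + T + 1))) < S) :
    cond S T Letter.ga ((S*(-S*T + S + 1))/((S + 1)*(-S*T + S + T + 1)), ((-S*T + S + 1))/((-S*T + S + T + 1))) := g9

theorem G3_oA_1 (S T : ℝ) (g1 : S < (S + T + 1) * (((-S^(2:ℕ)*T + S^(2:ℕ) - S*T + 2*S + T + 1))/((S + 1)*(-S*T + S + T + 1)))) (g6 : 1 < (T + 1) * ((T)/((-S*T + S + T + 1)))) :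
    cond S T Letter.be (((-S^(2:ℕ)*T + S^(2:ℕ) - S*T + 2*S + T + 1))/((S + 1)*(-S*T + S + T + 1)), (T)/((-S*T + S + T + 1))) := ⟨g1, g6⟩

theorem G3_oA_2 (S T : ℝ) (g4 : (T + 1) * ((S*T^(2:ℕ))/((S + 1)*(T + 1)*(-S*T + S + T + 1))) < 1) (g7 : S < (S + T + 1) * (((S + T + 1)*(T - 1))/(T*(-S*T + S + T + 1)))) :
    cond S T Letter.al (((S + T + 1)*(T - 1))/(T*(-S*T + S + T + 1)), (S*T^(2:ℕ))/((S + 1)*(T + 1)*(-S*T + S + T + 1))) := ⟨g7, g4⟩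

theorem G3_d26 (S T : ℝ) (c12 : 0 < S^(3:ℕ)*T^(2:ℕ) + S^(2:ℕ)*T^(2:ℕ) - S^(3:ℕ) - S^(2:ℕ)*T + S*T^(2:ℕ) + T^(3:ℕ) - 3*S^(2:ℕ) - 2*S*T + T^(2:ℕ) - 3*S - T - 1) :
    0 < (S^(3:ℕ)*T^(2:ℕ) + S^(2:ℕ)*T^(2:ℕ) - S^(3:ℕ) - S^(2:ℕ)*T + S*T^(2:ℕ) + T^(3:ℕ) - 3*S^(2:ℕ) - 2*S*T + T^(2:ℕ) - 3*S - T - 1) := c12

theorem G3_g10 (S T : ℝ) (d4 : 0 < T*(S + 1)*(-S*T + S + T + 1)) (d26 : 0 < (S^(3:ℕ)*T^(2:ℕ) + S^(2:ℕ)*T^(2:ℕ) - S^(3:ℕ) - S^(2:ℕ)*T + S*T^(2:ℕ) + T^(3:ℕ) - 3*S^(2:ℕ) - 2*S*T + T^(2:ℕ) - 3*S - T - 1)) :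
    S < (S + T + 1) * (((S^(2:ℕ)*T - S^(2:ℕ) + S*T + T^(2:ℕ) - 2*S - 1))/(T*(S + 1)*(-S*T + S + T + 1))) := rgt d4 d26 d4 (by ring)

theorem G3_oA_3 (S T : ℝ) (g6 : 1 < (T + 1) * ((T)/((-S*T + S + T + 1)))) (g10 : S < (S + T + 1) * (((S^(2:ℕ)*T - S^(2:ℕ) + S*T + T^(2:ℕ) - 2*S - 1))/(T*(S + 1)*(-S*T + S + T + 1)))) :
    cond S T Letter.be (((S^(2:ℕ)*T - S^(2:ℕ) + S*T + T^(2:ℕ) - 2*S - 1))/(T*(S + 1)*(-S*T + S + T + 1)), (T)/((-S*T + S + T + 1))) := ⟨g10, g6⟩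

theorem G3_d27 (S T : ℝ) (pS : 0 < S) (pT : 0 < T) (c3 : 0 < -S*T + S + 1) :
    0 < S*T*(-S*T + S + 1) := (mul_pos (mul_pos pS pT) c3)

theorem G3_g11 (S T : ℝ) (d0 : 0 < (S + 1)*(-S*T + S + T + 1)) (d3 : 0 < (S + 1)*(T + 1)*(-S*T + S + T + 1)) (d27 : 0 < S*T*(-S*T + S + 1)) :
    1 < (T + 1) * (((-S^(2:ℕ)*T^(2:ℕ) + S^(2:ℕ) + S*T + 2*S + T + 1))/((S + 1)*(T + 1)*(-S*T + S + T + 1))) := rgt d3 d27 d0 (by ring)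

theorem G3_oA_4 (S T : ℝ) (g7 : S < (S + T + 1) * (((S + T + 1)*(T - 1))/(T*(-S*T + S + T + 1)))) (g11 : 1 < (T + 1) * (((-S^(2:ℕ)*T^(2:ℕ) + S^(2:ℕ) + S*T + 2*S + T + 1))/((S + 1)*(T + 1)*(-S*T + S + T + 1)))) :
    cond S T Letter.be (((S + T + 1)*(T - 1))/(T*(-S*T + S + T + 1)), ((-S^(2:ℕ)*T^(2:ℕ) + S^(2:ℕ) + S*T + 2*S + T + 1))/((S + 1)*(T + 1)*(-S*T + S + T + 1))) := ⟨g7, g11⟩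

theorem G3_oA (S T : ℝ) (f0 : fl S T Letter.ga ((S*(-S*T + S + 1))/((S + 1)*(-S*T + S + T + 1)), ((-S*T + S + 1))/((-S*T + S + T + 1))) = (((-S^(2:ℕ)*T + S^(2:ℕ) - S*T + 2*S + T + 1))/((S + 1)*(-S*T + S + T + 1)), (T)/((-S*T + S + T + 1)))) (f1 : fl S T Letter.be (((-S^(2:ℕ)*T + S^(2:ℕ) - S*T + 2*S + T + 1))/((S + 1)*(-S*T + S + T + 1)), (T)/((-S*T + S + T + 1))) = (((S + T + 1)*(T - 1))/(T*(-S*T + S + T + 1)), (S*T^(2:ℕ))/((S + 1)*(T + 1)*(-S*T + S + T + 1)))) (f2 : fl S T Letter.al (((S + T + 1)*(T - 1))/(T*(-S*T + S + T + 1)), (S*T^(2:ℕ))/((S + 1)*(T + 1)*(-S*T + S + T + 1))) = (((S^(2:ℕ)*T - S^(2:ℕ) + S*T + T^(2:ℕ) - 2*S - 1))/(T*(S + 1)*(-S*T + S + T + 1)), (T)/((-S*T + S + T + 1)))) (f3 : fl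 S T Letter.be (((S^(2:ℕ)*T - S^(2:ℕ) + S*T + T^(2:ℕ) - 2*S - 1))/(T*(S + 1)*(-S*T + S + T + 1)), (T)/((-S*T + S + T + 1))) = (((S + T + 1)*(T - 1))/(T*(-S*T + S + T + 1)), ((-S^(2:ℕ)*T^(2:ℕ) + S^(2:ℕ) + S*T + 2*S + T + 1))/((S + 1)*(T + 1)*(-S*T + S + T + 1)))) (oA_0 : cond S T Letter.ga ((S*(-S*T + S + 1))/((S + 1)*(-S*T + S + T + 1)), ((-S*T + S + 1))/((-S*T + S + T + 1)))) (oA_1 : cond S T Letter.be (((-S^(2:ℕ)*T + S^(2:ℕ) - S*T + 2*S + T + 1))/((S + 1)*(-S*T + S + T + 1)), (T)/((-S*T + S + T + 1)))) (oA_2 : cond S T Letter.al (((S + T + 1)*(T - 1))/(T*(-S*T + S + T + 1)), (S*T^(2:ℕ))/((S + 1)*(T + 1)*(-S*T + S + T + 1)))) (oA_3 : cond S T Letter.be (((S^(2:ℕ)*T - S^(2:ℕ) + S*T + T^(2:ℕ) - 2*S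 - 1))/(T*(S + 1)*(-S*T + S + T + 1)), (T)/((-S*T + S + T + 1)))) (oA_4 : cond S T Letter.be (((S + T + 1)*(T - 1))/(T*(-S*T + S + T + 1)), ((-S^(2:ℕ)*T^(2:ℕ) + S^(2:ℕ) + S*T + 2*S + T + 1))/((S + 1)*(T + 1)*(-S*T + S + T + 1)))) :
    okc S T [Letter.ga, Letter.be, Letter.al, Letter.be, Letter.be] ((S*(-S*T + S + 1))/((S + 1)*(-S*T + S + T + 1)), ((-S*T + S + 1))/((-S*T + S + T + 1))) := (okc_cons' oA_0 f0 (okc_cons' oA_1 f1 (okc_cons' oA_2 f2 (okc_cons' oA_3 f3 (okc_last' oA_4)))))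

theorem G3_f10 (S T : ℝ) (pS : 0 < S) (pT : 0 < T) (d0 : 0 < (S + 1)*(-S*T + S + T + 1)) (d1 : 0 < (-S*T + S + T + 1)) (d9 : 0 < (S + T + 1)*(-S*T + S + T + 1)) :
    fl S T Letter.al ((S*(-S*T^(2:ℕ) - S*T + 2*S + 2*T + 2))/((S + T + 1)*(-S*T + S + T + 1)), ((-S*T + S + 1))/((-S*T + S + T + 1))) = ((S*(-S*T + S + 1))/((S + 1)*(-S*T + S + T + 1)), ((-S^(2:ℕ)*T^(2:ℕ) - 2*S*T^(2:ℕ) + S^(2:ℕ) + 2*S*T + T^(2:ℕ) + 2*S + 2*T + 1))/((S + T + 1)*(-S*T + S + T + 1))) := fl_al' pS pT d9 d1 d0 d9 (by ring) (by ring)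

theorem G3_rE (S T : ℝ) (f10 : fl S T Letter.al ((S*(-S*T^(2:ℕ) - S*T + 2*S + 2*T + 2))/((S + T + 1)*(-S*T + S + T + 1)), ((-S*T + S + 1))/((-S*T + S + T + 1))) = ((S*(-S*T + S + 1))/((S + 1)*(-S*T + S + T + 1)), ((-S^(2:ℕ)*T^(2:ℕ) - 2*S*T^(2:ℕ) + S^(2:ℕ) + 2*S*T + T^(2:ℕ) + 2*S + 2*T + 1))/((S + T + 1)*(-S*T + S + T + 1)))) :
    run S T [Letter.al] ((S*(-S*T^(2:ℕ) - S*T + 2*S + 2*T + 2))/((S + T + 1)*(-S*T + S + T + 1)), ((-S*T + S + 1))/((-S*T + S + T + 1))) = ((S*(-S*T + S + 1))/((S + 1)*(-S*T + S + T + 1)), ((-S^(2:ℕ)*T^(2:ℕ) - 2*S*T^(2:ℕ) + S^(2:ℕ) + 2*S*T + T^(2:ℕ) + 2*S + 2*T + 1))/((S + T + 1)*(-S*T + S + T + 1))) := (run_cons' f10 run_nil')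

theorem G3_d28 (S T : ℝ) (pS : 0 < S) (c11 : 0 < -S*T^(2:ℕ) - S*T + 2*S + 2*T + 2) :
    0 < S*(-S*T^(2:ℕ) - S*T + 2*S + 2*T + 2) := (mul_pos pS c11)

theorem G3_q6 (S T : ℝ) (d9 : 0 < (S + T + 1)*(-S*T + S + T + 1)) (d28 : 0 < S*(-S*T^(2:ℕ) - S*T + 2*S + 2*T + 2)) :
    0 < (S*(-S*T^(2:ℕ) - S*T + 2*S + 2*T + 2))/((S + T + 1)*(-S*T + S + T + 1)) := div_pos d28 d9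

theorem G3_d29 (S T : ℝ) (pB : 0 < (T + 1)) (c13 : 0 < S^(2:ℕ)*T - S^(2:ℕ) - S*T + T + 1) :
    0 < (T + 1)*(S^(2:ℕ)*T - S^(2:ℕ) - S*T + T + 1) := (mul_pos pB c13)

theorem G3_q7 (S T : ℝ) (d9 : 0 < (S + T + 1)*(-S*T + S + T + 1)) (d29 : 0 < (T + 1)*(S^(2:ℕ)*T - S^(2:ℕ) - S*T + T + 1)) :
    (S*(-S*T^(2:ℕ) - S*T + 2*S + 2*T + 2))/((S + T + 1)*(-S*T + S + T + 1)) < 1 := rlt1 d9 d29 d9 (by ring)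

theorem G3_sq (S T : ℝ) (q2 : 0 < ((-S*T + S + 1))/((-S*T + S + T + 1))) (q3 : ((-S*T + S + 1))/((-S*T + S + T + 1)) < 1) (q6 : 0 < (S*(-S*T^(2:ℕ) - S*T + 2*S + 2*T + 2))/((S + T + 1)*(-S*T + S + T + 1))) (q7 : (S*(-S*T^(2:ℕ) - S*T + 2*S + 2*T + 2))/((S + T + 1)*(-S*T + S + T + 1)) < 1) :
    Sq ((S*(-S*T^(2:ℕ) - S*T + 2*S + 2*T + 2))/((S + T + 1)*(-S*T + S + T + 1)), ((-S*T + S + 1))/((-S*T + S + T + 1))) := ⟨⟨q6, q7⟩, q2, q3⟩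

theorem G3_d30 (S T : ℝ) (pS : 0 < S) (pB : 0 < (T + 1)) (c3 : 0 < -S*T + S + 1) :
    0 < S*(T + 1)*(-S*T + S + 1) := (mul_pos (mul_pos pS pB) c3)

theorem G3_g12 (S T : ℝ) (d1 : 0 < (-S*T + S + T + 1)) (d9 : 0 < (S + T + 1)*(-S*T + S + T + 1)) (d30 : 0 < S*(T + 1)*(-S*T + S + 1)) :
    S < (S + T + 1) * ((S*(-S*T^(2:ℕ) - S*T + 2*S + 2*T + 2))/((S + T + 1)*(-S*T + S + T + 1))) := rgt d9 d30 d1 (by ring)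

theorem G3_d31 (S T : ℝ) (pS : 0 < S) (pT : 0 < T) (c9 : 0 < T - 1) :
    0 < S*T*(T - 1) := (mul_pos (mul_pos pS pT) c9)

theorem G3_g13 (S T : ℝ) (d1 : 0 < (-S*T + S + T + 1)) (d31 : 0 < S*T*(T - 1)) :
    (T + 1) * (((-S*T + S + 1))/((-S*T + S + T + 1))) < 1 := rlt d1 d31 d1 (by ring)

theorem G3_oE_0 (S T : ℝ) (g12 : S < (S + T + 1) * ((S*(-S*T^(2:ℕ) - S*T + 2*S + 2*T + 2))/((S + T + 1)*(-S*T + S + T + 1)))) (g13 : (T + 1) * (((-S*T + S + 1))/((-S*T + S + T + 1))) < 1) :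
    cond S T Letter.al ((S*(-S*T^(2:ℕ) - S*T + 2*S + 2*T + 2))/((S + T + 1)*(-S*T + S + T + 1)), ((-S*T + S + 1))/((-S*T + S + T + 1))) := ⟨g12, g13⟩

theorem G3_oE (S T : ℝ) (oE_0 : cond S T Letter.al ((S*(-S*T^(2:ℕ) - S*T + 2*S + 2*T + 2))/((S + T + 1)*(-S*T + S + T + 1)), ((-S*T + S + 1))/((-S*T + S + T + 1)))) :
    okc S T [Letter.al] ((S*(-S*T^(2:ℕ) - S*T + 2*S + 2*T + 2))/((S + T + 1)*(-S*T + S + T + 1)), ((-S*T + S + 1))/((-S*T + S + T + 1))) := (okc_last' oE_0)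

theorem G3_rB (S T : ℝ) (f0 : fl S T Letter.ga ((S*(-S*T + S + 1))/((S + 1)*(-S*T + S + T + 1)), ((-S*T + S + 1))/((-S*T + S + T + 1))) = (((-S^(2:ℕ)*T + S^(2:ℕ) - S*T + 2*S + T + 1))/((S + 1)*(-S*T + S + T + 1)), (T)/((-S*T + S + T + 1)))) (f1 : fl S T Letter.be (((-S^(2:ℕ)*T + S^(2:ℕ) - S*T + 2*S + T + 1))/((S + 1)*(-S*T + S + T + 1)), (T)/((-S*T + S + T + 1))) = (((S + T + 1)*(T - 1))/(T*(-S*T + S + T + 1)), (S*T^(2:ℕ))/((S + 1)*(T + 1)*(-S*T + S + T + 1)))) (f2 : fl S T Letter.al (((S + T + 1)*(T - 1))/(T*(-S*T + S + T + 1)), (S*T^(2:ℕ))/((S + 1)*(T + 1)*(-S*T + S + T + 1))) = (((S^(2:ℕ)*T - S^(2:ℕ) + S*T + T^(2:ℕ) - 2*S - 1))/(T*(S + 1)*(-S*T + S + T + 1)), (T)/((-S*T + S + T + 1)))) (f3 : fl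 S T Letter.be (((S^(2:ℕ)*T - S^(2:ℕ) + S*T + T^(2:ℕ) - 2*S - 1))/(T*(S + 1)*(-S*T + S + T + 1)), (T)/((-S*T + S + T + 1))) = (((S + T + 1)*(T - 1))/(T*(-S*T + S + T + 1)), ((-S^(2:ℕ)*T^(2:ℕ) + S^(2:ℕ) + S*T + 2*S + T + 1))/((S + 1)*(T + 1)*(-S*T + S + T + 1)))) (f4 : fl S T Letter.be (((S + T + 1)*(T - 1))/(T*(-S*T + S + T + 1)), ((-S^(2:ℕ)*T^(2:ℕ) + S^(2:ℕ) + S*T + 2*S + T + 1))/((S + 1)*(T + 1)*(-S*T + S + T + 1))) = ((S*(-S*T + S + 1))/((S + 1)*(-S*T + S + T + 1)), ((-S*T + S + 1))/((-S*T + S + T + 1)))) :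
    run S T [Letter.ga, Letter.be, Letter.al, Letter.be, Letter.be] ((S*(-S*T + S + 1))/((S + 1)*(-S*T + S + T + 1)), ((-S*T + S + 1))/((-S*T + S + T + 1))) = ((S*(-S*T + S + 1))/((S + 1)*(-S*T + S + T + 1)), ((-S*T + S + 1))/((-S*T + S + T + 1))) := (run_cons' f0 (run_cons' f1 (run_cons' f2 (run_cons' f3 (run_cons' f4 run_nil')))))

theorem G3_f11 (S T : ℝ) (pS : 0 < S) (d0 : 0 < (S + 1)*(-S*T + S + T + 1)) (d1 : 0 < (-S*T + S + T + 1)) (d9 : 0 < (S + T + 1)*(-S*T + S + T + 1)) :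
    fl S T Letter.ga ((S*(-S*T + S + 1))/((S + 1)*(-S*T + S + T + 1)), ((-S^(2:ℕ)*T^(2:ℕ) - 2*S*T^(2:ℕ) + S^(2:ℕ) + 2*S*T + T^(2:ℕ) + 2*S + 2*T + 1))/((S + T + 1)*(-S*T + S + T + 1))) = (((T + 1)*(-S^(2:ℕ)*T + S^(2:ℕ) - S*T + 2*S + T + 1))/((S + T + 1)*(-S*T + S + T + 1)), (T)/((-S*T + S + T + 1))) := fl_ga' pS d0 d9 d9 d1 (by ring) (by ring)

theorem G3_d32 (S T : ℝ) (pB : 0 < (T + 1)) (pU : 0 < (S + T + 1)) (c0 : 0 < -S*T + S + T + 1) :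
    0 < (T + 1)*(S + T + 1)*(-S*T + S + T + 1) := (mul_pos (mul_pos pB pU) c0)

theorem G3_f12 (S T : ℝ) (pT : 0 < T) (d1 : 0 < (-S*T + S + T + 1)) (d2 : 0 < T*(-S*T + S + T + 1)) (d9 : 0 < (S + T + 1)*(-S*T + S + T + 1)) (d32 : 0 < (T + 1)*(S + T + 1)*(-S*T + S + T + 1)) :
    fl S T Letter.be (((T + 1)*(-S^(2:ℕ)*T + S^(2:ℕ) - S*T + 2*S + T + 1))/((S + T + 1)*(-S*T + S + T + 1)), (T)/((-S*T + S + T + 1))) = (((S + T + 1)*(T - 1))/(T*(-S*T + S + T + 1)), (S^(2:ℕ)*T^(2:ℕ)*(T - 1))/((T + 1)*(S + T + 1)*(-S*T + S + T + 1))) := fl_be' pT d9 d1 d2 d32 (by ring) (by ring)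

theorem G3_f13 (S T : ℝ) (pS : 0 < S) (pT : 0 < T) (d2 : 0 < T*(-S*T + S + T + 1)) (d4 : 0 < T*(S + 1)*(-S*T + S + T + 1)) (d6 : 0 < (S + T + 1)^(2:ℕ)*(-S*T + S + T + 1)) (d32 : 0 < (T + 1)*(S + T + 1)*(-S*T + S + T + 1)) :
    fl S T Letter.al (((S + T + 1)*(T - 1))/(T*(-S*T + S + T + 1)), (S^(2:ℕ)*T^(2:ℕ)*(T - 1))/((T + 1)*(S + T + 1)*(-S*T + S + T + 1))) = (((S^(2:ℕ)*T - S^(2:ℕ) + S*T + T^(2:ℕ) - 2*S - 1))/(T*(S + 1)*(-S*T + S + T + 1)), (T*(S^(3:ℕ)*T^(2:ℕ) - S^(3:ℕ)*T + S^(2:ℕ)*T^(2:ℕ) - 2*S^(2:ℕ)*T - S*T^(2:ℕ) + S^(2:ℕ) + S*T + T^(2:ℕ) + 2*S + 2*T + 1))/((S + T + 1)^(2:ℕ)*(-S*T + S + T + 1))) := fl_al' pS pT d2 d32 d4 d6 (by ring) (by ring)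

theorem G3_f14 (S T : ℝ) (pT : 0 < T) (d3 : 0 < (S + 1)*(T + 1)*(-S*T + S + T + 1)) (d4 : 0 < T*(S + 1)*(-S*T + S + T + 1)) (d6 : 0 < (S + T + 1)^(2:ℕ)*(-S*T + S + T + 1)) (d7 : 0 < T*(S + T + 1)^(2:ℕ)*(-S*T + S + T + 1)) :
    fl S T Letter.be (((S^(2:ℕ)*T - S^(2:ℕ) + S*T + T^(2:ℕ) - 2*S - 1))/(T*(S + 1)*(-S*T + S + T + 1)), (T*(S^(3:ℕ)*T^(2:ℕ) - S^(3:ℕ)*T + S^(2:ℕ)*T^(2:ℕ) - 2*S^(2:ℕ)*T - S*T^(2:ℕ) + S^(2:ℕ) + S*T + T^(2:ℕ) + 2*S + 2*T + 1))/((S + T + 1)^(2:ℕ)*(-S*T + S + T + 1))) = (((S^(3:ℕ)*T^(4:ℕ) + S^(2:ℕ)*T^(4:ℕ) - S^(3:ℕ)*T^(2:ℕ) - S^(2:ℕ)*T^(3:ℕ) - S*T^(4:ℕ) + S^(3:ℕ)*T + S^(2:ℕ)*T^(2:ℕ) + S*T^(3:ℕ) + T^(4:ℕ) - S^(3:ℕ) + 2*S*T^(2:ℕ) + 2*T^(3:ℕ) - 3*S^(2:ℕ) - 3*S*T - 3*S - 2*T - 1))/(T*(S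 + T + 1)^(2:ℕ)*(-S*T + S + T + 1)), ((-S^(2:ℕ)*T^(2:ℕ) + S^(2:ℕ) + S*T + 2*S + T + 1))/((S + 1)*(T + 1)*(-S*T + S + T + 1))) := fl_be' pT d4 d6 d7 d3 (by ring) (by ring)

theorem G3_f15 (S T : ℝ) (pT : 0 < T) (d0 : 0 < (S + 1)*(-S*T + S + T + 1)) (d3 : 0 < (S + 1)*(T + 1)*(-S*T + S + T + 1)) (d6 : 0 < (S + T + 1)^(2:ℕ)*(-S*T + S + T + 1)) (d7 : 0 < T*(S + T + 1)^(2:ℕ)*(-S*T + S + T + 1)) :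
    fl S T Letter.be (((S^(3:ℕ)*T^(4:ℕ) + S^(2:ℕ)*T^(4:ℕ) - S^(3:ℕ)*T^(2:ℕ) - S^(2:ℕ)*T^(3:ℕ) - S*T^(4:ℕ) + S^(3:ℕ)*T + S^(2:ℕ)*T^(2:ℕ) + S*T^(3:ℕ) + T^(4:ℕ) - S^(3:ℕ) + 2*S*T^(2:ℕ) + 2*T^(3:ℕ) - 3*S^(2:ℕ) - 3*S*T - 3*S - 2*T - 1))/(T*(S + T + 1)^(2:ℕ)*(-S*T + S + T + 1)), ((-S^(2:ℕ)*T^(2:ℕ) + S^(2:ℕ) + S*T + 2*S + T + 1))/((S + 1)*(T + 1)*(-S*T + S + T + 1))) = ((S*(-S*T + S + 1))/((S + 1)*(-S*T + S + T + 1)), ((S + 1)*(-S^(2:ℕ)*T^(3:ℕ) + S^(2:ℕ)*T^(2:ℕ) - S^(2:ℕ)*T - S*T^(2:ℕ) + S^(2:ℕ) + S*T + T^(2:ℕ) + 2*S + 2*T + 1))/((S + T + 1)^(2:ℕ)*(-S*T + S + T + 1))) := fl_be' pT d7 d3 d0 d6 (by ring) (by ring)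

theorem G3_rr (S T : ℝ) (f11 : fl S T Letter.ga ((S*(-S*T + S + 1))/((S + 1)*(-S*T + S + T + 1)), ((-S^(2:ℕ)*T^(2:ℕ) - 2*S*T^(2:ℕ) + S^(2:ℕ) + 2*S*T + T^(2:ℕ) + 2*S + 2*T + 1))/((S + T + 1)*(-S*T + S + T + 1))) = (((T + 1)*(-S^(2:ℕ)*T + S^(2:ℕ) - S*T + 2*S + T + 1))/((S + T + 1)*(-S*T + S + T + 1)), (T)/((-S*T + S + T + 1)))) (f12 : fl S T Letter.be (((T + 1)*(-S^(2:ℕ)*T + S^(2:ℕ) - S*T + 2*S + T + 1))/((S + T + 1)*(-S*T + S + T + 1)), (T)/((-S*T + S + T + 1))) = (((S + T + 1)*(T - 1))/(T*(-S*T + S + T + 1)), (S^(2:ℕ)*T^(2:ℕ)*(T - 1))/((T + 1)*(S + T + 1)*(-S*T + S + T + 1)))) (f13 : fl S T Letter.al (((S + T + 1)*(T - 1))/(T*(-S*T + S + T + 1)), (S^(2:ℕ)*T^(2:ℕ)*(T - 1))/((T + 1)*(S + T + 1)*(-S*T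 + S + T + 1))) = (((S^(2:ℕ)*T - S^(2:ℕ) + S*T + T^(2:ℕ) - 2*S - 1))/(T*(S + 1)*(-S*T + S + T + 1)), (T*(S^(3:ℕ)*T^(2:ℕ) - S^(3:ℕ)*T + S^(2:ℕ)*T^(2:ℕ) - 2*S^(2:ℕ)*T - S*T^(2:ℕ) + S^(2:ℕ) + S*T + T^(2:ℕ) + 2*S + 2*T + 1))/((S + T + 1)^(2:ℕ)*(-S*T + S + T + 1)))) (f14 : fl S T Letter.be (((S^(2:ℕ)*T - S^(2:ℕ) + S*T + T^(2:ℕ) - 2*S - 1))/(T*(S + 1)*(-S*T + S + T + 1)), (T*(S^(3:ℕ)*T^(2:ℕ) - S^(3:ℕ)*T + S^(2:ℕ)*T^(2:ℕ) - 2*S^(2:ℕ)*T - S*T^(2:ℕ) + S^(2:ℕ) + S*T + T^(2:ℕ) + 2*S + 2*T + 1))/((S + T + 1)^(2:ℕ)*(-S*T + S + T + 1))) = (((S^(3:ℕ)*T^(4:ℕ) + S^(2:ℕ)*T^(4:ℕ) - S^(3:ℕ)*T^(2:ℕ) - S^(2:ℕ)*T^(3:ℕ) - S*T^(4:ℕ) + S^(3:ℕ)*T + S^(2:ℕ)*T^(2:ℕ) + S*T^(3:ℕ) + T^(4:ℕ) - S^(3:ℕ) + 2*S*T^(2:ℕ) + 2*T^(3:ℕ) - 3*S^(2:ℕ)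 - 3*S*T - 3*S - 2*T - 1))/(T*(S + T + 1)^(2:ℕ)*(-S*T + S + T + 1)), ((-S^(2:ℕ)*T^(2:ℕ) + S^(2:ℕ) + S*T + 2*S + T + 1))/((S + 1)*(T + 1)*(-S*T + S + T + 1)))) (f15 : fl S T Letter.be (((S^(3:ℕ)*T^(4:ℕ) + S^(2:ℕ)*T^(4:ℕ) - S^(3:ℕ)*T^(2:ℕ) - S^(2:ℕ)*T^(3:ℕ) - S*T^(4:ℕ) + S^(3:ℕ)*T + S^(2:ℕ)*T^(2:ℕ) + S*T^(3:ℕ) + T^(4:ℕ) - S^(3:ℕ) + 2*S*T^(2:ℕ) + 2*T^(3:ℕ) - 3*S^(2:ℕ) - 3*S*T - 3*S - 2*T - 1))/(T*(S + T + 1)^(2:ℕ)*(-S*T + S + T + 1)), ((-S^(2:ℕ)*T^(2:ℕ) + S^(2:ℕ) + S*T + 2*S + T + 1))/((S + 1)*(T + 1)*(-S*T + S + T + 1))) = ((S*(-S*T + S + 1))/((S + 1)*(-S*T + S + T + 1)), ((S + 1)*(-S^(2:ℕ)*T^(3:ℕ) + S^(2:ℕ)*T^(2:ℕ) - S^(2:ℕ)*T - S*T^(2:ℕ) + S^(2:ℕ) + S*T + T^(2:ℕ) + 2*S + 2*T + 1))/((S + T + 1)^(2:ℕ)*(-S*T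 + S + T + 1)))) :
    run S T [Letter.ga, Letter.be, Letter.al, Letter.be, Letter.be] ((S*(-S*T + S + 1))/((S + 1)*(-S*T + S + T + 1)), ((-S^(2:ℕ)*T^(2:ℕ) - 2*S*T^(2:ℕ) + S^(2:ℕ) + 2*S*T + T^(2:ℕ) + 2*S + 2*T + 1))/((S + T + 1)*(-S*T + S + T + 1))) = ((S*(-S*T + S + 1))/((S + 1)*(-S*T + S + T + 1)), ((S + 1)*(-S^(2:ℕ)*T^(3:ℕ) + S^(2:ℕ)*T^(2:ℕ) - S^(2:ℕ)*T - S*T^(2:ℕ) + S^(2:ℕ) + S*T + T^(2:ℕ) + 2*S + 2*T + 1))/((S + T + 1)^(2:ℕ)*(-S*T + S + T + 1))) := (run_cons' f11 (run_cons' f12 (run_cons' f13 (run_cons' f14 (run_cons' f15 run_nil')))))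

theorem G3_d33 (S T : ℝ) (c14 : 0 < -S^(2:ℕ)*T^(2:ℕ) - 2*S*T^(2:ℕ) + S^(2:ℕ) + 2*S*T + T^(2:ℕ) + 2*S + 2*T + 1) :
    0 < (-S^(2:ℕ)*T^(2:ℕ) - 2*S*T^(2:ℕ) + S^(2:ℕ) + 2*S*T + T^(2:ℕ) + 2*S + 2*T + 1) := c14

theorem G3_q8 (S T : ℝ) (d9 : 0 < (S + T + 1)*(-S*T + S + T + 1)) (d33 : 0 < (-S^(2:ℕ)*T^(2:ℕ) - 2*S*T^(2:ℕ) + S^(2:ℕ) + 2*S*T + T^(2:ℕ) + 2*S + 2*T + 1)) :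
    0 < ((-S^(2:ℕ)*T^(2:ℕ) - 2*S*T^(2:ℕ) + S^(2:ℕ) + 2*S*T + T^(2:ℕ) + 2*S + 2*T + 1))/((S + T + 1)*(-S*T + S + T + 1)) := div_pos d33 d9

theorem G3_d34 (S T : ℝ) (pS : 0 < S) (pT : 0 < T) (pA : 0 < (S + 1)) (c9 : 0 < T - 1) :
    0 < S*T*(S + 1)*(T - 1) := (mul_pos (mul_pos (mul_pos pS pT) pA) c9)

theorem G3_q9 (S T : ℝ) (d9 : 0 < (S + T + 1)*(-S*T + S + T + 1)) (d34 : 0 < S*T*(S + 1)*(T - 1)) :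
    ((-S^(2:ℕ)*T^(2:ℕ) - 2*S*T^(2:ℕ) + S^(2:ℕ) + 2*S*T + T^(2:ℕ) + 2*S + 2*T + 1))/((S + T + 1)*(-S*T + S + T + 1)) < 1 := rlt1 d9 d34 d9 (by ring)

theorem G3_sr (S T : ℝ) (q4 : 0 < (S*(-S*T + S + 1))/((S + 1)*(-S*T + S + T + 1))) (q5 : (S*(-S*T + S + 1))/((S + 1)*(-S*T + S + T + 1)) < 1) (q8 : 0 < ((-S^(2:ℕ)*T^(2:ℕ) - 2*S*T^(2:ℕ) + S^(2:ℕ) + 2*S*T + T^(2:ℕ) + 2*S + 2*T + 1))/((S + T + 1)*(-S*T + S + T + 1))) (q9 : ((-S^(2:ℕ)*T^(2:ℕ) - 2*S*T^(2:ℕ) + S^(2:ℕ) + 2*S*T + T^(2:ℕ) + 2*S + 2*T + 1))/((S + T + 1)*(-S*T + S + T + 1)) < 1) :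
    Sq ((S*(-S*T + S + 1))/((S + 1)*(-S*T + S + T + 1)), ((-S^(2:ℕ)*T^(2:ℕ) - 2*S*T^(2:ℕ) + S^(2:ℕ) + 2*S*T + T^(2:ℕ) + 2*S + 2*T + 1))/((S + T + 1)*(-S*T + S + T + 1))) := ⟨⟨q4, q5⟩, q8, q9⟩

theorem G3_orr_0 (S T : ℝ) (g9 : (S + T + 1) * ((S*(-S*T + S + 1))/((S + 1)*(-S*T + S + T + 1))) < S) :
    cond S T Letter.ga ((S*(-S*T + S + 1))/((S + 1)*(-S*T + S + T + 1)), ((-S^(2:ℕ)*T^(2:ℕ) - 2*S*T^(2:ℕ) + S^(2:ℕ) + 2*S*T + T^(2:ℕ) + 2*S + 2*T + 1))/((S + T + 1)*(-S*T + S + T + 1))) := g9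

theorem G3_d35 (S T : ℝ) (c15 : 0 < -S^(2:ℕ)*T^(2:ℕ) + S^(2:ℕ)*T - S*T^(2:ℕ) + T^(2:ℕ) + S + 2*T + 1) :
    0 < (-S^(2:ℕ)*T^(2:ℕ) + S^(2:ℕ)*T - S*T^(2:ℕ) + T^(2:ℕ) + S + 2*T + 1) := c15

theorem G3_g14 (S T : ℝ) (d1 : 0 < (-S*T + S + T + 1)) (d9 : 0 < (S + T + 1)*(-S*T + S + T + 1)) (d35 : 0 < (-S^(2:ℕ)*T^(2:ℕ) + S^(2:ℕ)*T - S*T^(2:ℕ) + T^(2:ℕ) + S + 2*T + 1)) :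
    S < (S + T + 1) * (((T + 1)*(-S^(2:ℕ)*T + S^(2:ℕ) - S*T + 2*S + T + 1))/((S + T + 1)*(-S*T + S + T + 1))) := rgt d9 d35 d1 (by ring)

theorem G3_orr_1 (S T : ℝ) (g6 : 1 < (T + 1) * ((T)/((-S*T + S + T + 1)))) (g14 : S < (S + T + 1) * (((T + 1)*(-S^(2:ℕ)*T + S^(2:ℕ) - S*T + 2*S + T + 1))/((S + T + 1)*(-S*T + S + T + 1)))) :
    cond S T Letter.be (((T + 1)*(-S^(2:ℕ)*T + S^(2:ℕ) - S*T + 2*S + T + 1))/((S + T + 1)*(-S*T + S + T + 1)), (T)/((-S*T + S + T + 1))) := ⟨g14, g6⟩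

theorem G3_d36 (S T : ℝ) (c16 : 0 < -S^(2:ℕ)*T^(3:ℕ) + S^(2:ℕ)*T^(2:ℕ) - S^(2:ℕ)*T - S*T^(2:ℕ) + S^(2:ℕ) + S*T + T^(2:ℕ) + 2*S + 2*T + 1) :
    0 < (-S^(2:ℕ)*T^(3:ℕ) + S^(2:ℕ)*T^(2:ℕ) - S^(2:ℕ)*T - S*T^(2:ℕ) + S^(2:ℕ) + S*T + T^(2:ℕ) + 2*S + 2*T + 1) := c16

theorem G3_g15 (S T : ℝ) (d9 : 0 < (S + T + 1)*(-S*T + S + T + 1)) (d32 : 0 < (T + 1)*(S + T + 1)*(-S*T + S + T + 1)) (d36 : 0 < (-S^(2:ℕ)*T^(3:ℕ) + S^(2:ℕ)*T^(2:ℕ) - S^(2:ℕ)*T - S*T^(2:ℕ) + S^(2:ℕ) + S*T + T^(2:ℕ) + 2*S + 2*T + 1)) :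
    (T + 1) * ((S^(2:ℕ)*T^(2:ℕ)*(T - 1))/((T + 1)*(S + T + 1)*(-S*T + S + T + 1))) < 1 := rlt d32 d36 d9 (by ring)

theorem G3_orr_2 (S T : ℝ) (g7 : S < (S + T + 1) * (((S + T + 1)*(T - 1))/(T*(-S*T + S + T + 1)))) (g15 : (T + 1) * ((S^(2:ℕ)*T^(2:ℕ)*(T - 1))/((T + 1)*(S + T + 1)*(-S*T + S + T + 1))) < 1) :
    cond S T Letter.al (((S + T + 1)*(T - 1))/(T*(-S*T + S + T + 1)), (S^(2:ℕ)*T^(2:ℕ)*(T - 1))/((T + 1)*(S + T + 1)*(-S*T + S + T + 1))) := ⟨g7, g15⟩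

theorem G3_d37 (S T : ℝ) (c17 : 0 < S^(3:ℕ)*T^(4:ℕ) + S^(2:ℕ)*T^(4:ℕ) - S^(3:ℕ)*T^(2:ℕ) - S^(2:ℕ)*T^(3:ℕ) - S*T^(4:ℕ) + S^(3:ℕ)*T + S^(2:ℕ)*T^(2:ℕ) + S*T^(3:ℕ) + T^(4:ℕ) - S^(3:ℕ) + 2*S*T^(2:ℕ) + 2*T^(3:ℕ) - 3*S^(2:ℕ) - 3*S*T - 3*S - 2*T - 1) :
    0 < (S^(3:ℕ)*T^(4:ℕ) + S^(2:ℕ)*T^(4:ℕ) - S^(3:ℕ)*T^(2:ℕ) - S^(2:ℕ)*T^(3:ℕ) - S*T^(4:ℕ) + S^(3:ℕ)*T + S^(2:ℕ)*T^(2:ℕ) + S*T^(3:ℕ) + T^(4:ℕ) - S^(3:ℕ) + 2*S*T^(2:ℕ) + 2*T^(3:ℕ) - 3*S^(2:ℕ) - 3*S*T - 3*S - 2*T - 1) := c17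

theorem G3_g16 (S T : ℝ) (d6 : 0 < (S + T + 1)^(2:ℕ)*(-S*T + S + T + 1)) (d37 : 0 < (S^(3:ℕ)*T^(4:ℕ) + S^(2:ℕ)*T^(4:ℕ) - S^(3:ℕ)*T^(2:ℕ) - S^(2:ℕ)*T^(3:ℕ) - S*T^(4:ℕ) + S^(3:ℕ)*T + S^(2:ℕ)*T^(2:ℕ) + S*T^(3:ℕ) + T^(4:ℕ) - S^(3:ℕ) + 2*S*T^(2:ℕ) + 2*T^(3:ℕ) - 3*S^(2:ℕ) - 3*S*T - 3*S - 2*T - 1)) :
    1 < (T + 1) * ((T*(S^(3:ℕ)*T^(2:ℕ) - S^(3:ℕ)*T + S^(2:ℕ)*T^(2:ℕ) - 2*S^(2:ℕ)*T - S*T^(2:ℕ) + S^(2:ℕ) + S*T + T^(2:ℕ) + 2*S + 2*T + 1))/((S + T + 1)^(2:ℕ)*(-S*T + S + T + 1))) := rgt d6 d37 d6 (by ring)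

theorem G3_orr_3 (S T : ℝ) (g10 : S < (S + T + 1) * (((S^(2:ℕ)*T - S^(2:ℕ) + S*T + T^(2:ℕ) - 2*S - 1))/(T*(S + 1)*(-S*T + S + T + 1)))) (g16 : 1 < (T + 1) * ((T*(S^(3:ℕ)*T^(2:ℕ) - S^(3:ℕ)*T + S^(2:ℕ)*T^(2:ℕ) - 2*S^(2:ℕ)*T - S*T^(2:ℕ) + S^(2:ℕ) + S*T + T^(2:ℕ) + 2*S + 2*T + 1))/((S + T + 1)^(2:ℕ)*(-S*T + S + T + 1)))) :
    cond S T Letter.be (((S^(2:ℕ)*T - S^(2:ℕ) + S*T + T^(2:ℕ) - 2*S - 1))/(T*(S + 1)*(-S*T + S + T + 1)), (T*(S^(3:ℕ)*T^(2:ℕ) - S^(3:ℕ)*T + S^(2:ℕ)*T^(2:ℕ) - 2*S^(2:ℕ)*T - S*T^(2:ℕ) + S^(2:ℕ) + S*T + T^(2:ℕ) + 2*S + 2*T + 1))/((S + T + 1)^(2:ℕ)*(-S*T + S + T + 1))) := ⟨g10, g16⟩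

theorem G3_d38 (S T : ℝ) (pB : 0 < (T + 1)) (c18 : 0 < S^(3:ℕ)*T^(3:ℕ) - S^(3:ℕ)*T^(2:ℕ) + S^(2:ℕ)*T^(3:ℕ) + S^(3:ℕ)*T - S^(2:ℕ)*T^(2:ℕ) - S*T^(3:ℕ) - S^(3:ℕ) + S^(2:ℕ)*T + S*T^(2:ℕ) + T^(3:ℕ) - 3*S^(2:ℕ) - S*T + T^(2:ℕ) - 3*S - T - 1) :
    0 < (T + 1)*(S^(3:ℕ)*T^(3:ℕ) - S^(3:ℕ)*T^(2:ℕ) + S^(2:ℕ)*T^(3:ℕ) + S^(3:ℕ)*T - S^(2:ℕ)*T^(2:ℕ) - S*T^(3:ℕ) - S^(3:ℕ) + S^(2:ℕ)*T + S*T^(2:ℕ) + T^(3:ℕ) - 3*S^(2:ℕ) - S*T + T^(2:ℕ) - 3*S - T - 1) := (mul_pos pB c18)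

theorem G3_g17 (S T : ℝ) (d7 : 0 < T*(S + T + 1)^(2:ℕ)*(-S*T + S + T + 1)) (d8 : 0 < T*(S + T + 1)*(-S*T + S + T + 1)) (d38 : 0 < (T + 1)*(S^(3:ℕ)*T^(3:ℕ) - S^(3:ℕ)*T^(2:ℕ) + S^(2:ℕ)*T^(3:ℕ) + S^(3:ℕ)*T - S^(2:ℕ)*T^(2:ℕ) - S*T^(3:ℕ) - S^(3:ℕ) + S^(2:ℕ)*T + S*T^(2:ℕ) + T^(3:ℕ) - 3*S^(2:ℕ) - S*T + T^(2:ℕ) - 3*S - T - 1)) :
    S < (S + T + 1) * (((S^(3:ℕ)*T^(4:ℕ) + S^(2:ℕ)*T^(4:ℕ) - S^(3:ℕ)*T^(2:ℕ) - S^(2:ℕ)*T^(3:ℕ) - S*T^(4:ℕ) + S^(3:ℕ)*T + S^(2:ℕ)*T^(2:ℕ) + S*T^(3:ℕ) + T^(4:ℕ) - S^(3:ℕ) + 2*S*T^(2:ℕ) + 2*T^(3:ℕ) - 3*S^(2:ℕ) - 3*S*T - 3*S - 2*T - 1))/(T*(S + T + 1)^(2:ℕ)*(-S*T + S + T + 1))) := rgt d7 d38 d8 (by ring)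

theorem G3_orr_4 (S T : ℝ) (g11 : 1 < (T + 1) * (((-S^(2:ℕ)*T^(2:ℕ) + S^(2:ℕ) + S*T + 2*S + T + 1))/((S + 1)*(T + 1)*(-S*T + S + T + 1)))) (g17 : S < (S + T + 1) * (((S^(3:ℕ)*T^(4:ℕ) + S^(2:ℕ)*T^(4:ℕ) - S^(3:ℕ)*T^(2:ℕ) - S^(2:ℕ)*T^(3:ℕ) - S*T^(4:ℕ) + S^(3:ℕ)*T + S^(2:ℕ)*T^(2:ℕ) + S*T^(3:ℕ) + T^(4:ℕ) - S^(3:ℕ) + 2*S*T^(2:ℕ) + 2*T^(3:ℕ) - 3*S^(2:ℕ) - 3*S*T - 3*S - 2*T - 1))/(T*(S + T + 1)^(2:ℕ)*(-S*T + S + T + 1)))) :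
    cond S T Letter.be (((S^(3:ℕ)*T^(4:ℕ) + S^(2:ℕ)*T^(4:ℕ) - S^(3:ℕ)*T^(2:ℕ) - S^(2:ℕ)*T^(3:ℕ) - S*T^(4:ℕ) + S^(3:ℕ)*T + S^(2:ℕ)*T^(2:ℕ) + S*T^(3:ℕ) + T^(4:ℕ) - S^(3:ℕ) + 2*S*T^(2:ℕ) + 2*T^(3:ℕ) - 3*S^(2:ℕ) - 3*S*T - 3*S - 2*T - 1))/(T*(S + T + 1)^(2:ℕ)*(-S*T + S + T + 1)), ((-S^(2:ℕ)*T^(2:ℕ) + S^(2:ℕ) + S*T + 2*S + T + 1))/((S + 1)*(T + 1)*(-S*T + S + T + 1))) := ⟨g17, g11⟩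

theorem G3_orr (S T : ℝ) (f11 : fl S T Letter.ga ((S*(-S*T + S + 1))/((S + 1)*(-S*T + S + T + 1)), ((-S^(2:ℕ)*T^(2:ℕ) - 2*S*T^(2:ℕ) + S^(2:ℕ) + 2*S*T + T^(2:ℕ) + 2*S + 2*T + 1))/((S + T + 1)*(-S*T + S + T + 1))) = (((T + 1)*(-S^(2:ℕ)*T + S^(2:ℕ) - S*T + 2*S + T + 1))/((S + T + 1)*(-S*T + S + T + 1)), (T)/((-S*T + S + T + 1)))) (f12 : fl S T Letter.be (((T + 1)*(-S^(2:ℕ)*T + S^(2:ℕ) - S*T + 2*S + T + 1))/((S + T + 1)*(-S*T + S + T + 1)), (T)/((-S*T + S + T + 1))) = (((S + T + 1)*(T - 1))/(T*(-S*T + S + T + 1)), (S^(2:ℕ)*T^(2:ℕ)*(T - 1))/((T + 1)*(S + T + 1)*(-S*T + S + T + 1)))) (f13 : fl S T Letter.al (((S + T + 1)*(T - 1))/(T*(-S*T + S + T + 1)), (S^(2:ℕ)*T^(2:ℕ)*(T - 1))/((T + 1)*(S + T + 1)*(-S*T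 + S + T + 1))) = (((S^(2:ℕ)*T - S^(2:ℕ) + S*T + T^(2:ℕ) - 2*S - 1))/(T*(S + 1)*(-S*T + S + T + 1)), (T*(S^(3:ℕ)*T^(2:ℕ) - S^(3:ℕ)*T + S^(2:ℕ)*T^(2:ℕ) - 2*S^(2:ℕ)*T - S*T^(2:ℕ) + S^(2:ℕ) + S*T + T^(2:ℕ) + 2*S + 2*T + 1))/((S + T + 1)^(2:ℕ)*(-S*T + S + T + 1)))) (f14 : fl S T Letter.be (((S^(2:ℕ)*T - S^(2:ℕ) + S*T + T^(2:ℕ) - 2*S - 1))/(T*(S + 1)*(-S*T + S + T + 1)), (T*(S^(3:ℕ)*T^(2:ℕ) - S^(3:ℕ)*T + S^(2:ℕ)*T^(2:ℕ) - 2*S^(2:ℕ)*T - S*T^(2:ℕ) + S^(2:ℕ) + S*T + T^(2:ℕ) + 2*S + 2*T + 1))/((S + T + 1)^(2:ℕ)*(-S*T + S + T + 1))) = (((S^(3:ℕ)*T^(4:ℕ) + S^(2:ℕ)*T^(4:ℕ) - S^(3:ℕ)*T^(2:ℕ) - S^(2:ℕ)*T^(3:ℕ) - S*T^(4:ℕ) + S^(3:ℕ)*T + S^(2:ℕ)*T^(2:ℕ) + S*T^(3:ℕ) + T^(4:ℕ) - S^(3:ℕ) + 2*S*T^(2:ℕ) + 2*T^(3:ℕ) - 3*S^(2:ℕ)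 - 3*S*T - 3*S - 2*T - 1))/(T*(S + T + 1)^(2:ℕ)*(-S*T + S + T + 1)), ((-S^(2:ℕ)*T^(2:ℕ) + S^(2:ℕ) + S*T + 2*S + T + 1))/((S + 1)*(T + 1)*(-S*T + S + T + 1)))) (orr_0 : cond S T Letter.ga ((S*(-S*T + S + 1))/((S + 1)*(-S*T + S + T + 1)), ((-S^(2:ℕ)*T^(2:ℕ) - 2*S*T^(2:ℕ) + S^(2:ℕ) + 2*S*T + T^(2:ℕ) + 2*S + 2*T + 1))/((S + T + 1)*(-S*T + S + T + 1)))) (orr_1 : cond S T Letter.be (((T + 1)*(-S^(2:ℕ)*T + S^(2:ℕ) - S*T + 2*S + T + 1))/((S + T + 1)*(-S*T + S + T + 1)), (T)/((-S*T + S + T + 1)))) (orr_2 : cond S T Letter.al (((S + T + 1)*(T - 1))/(T*(-S*T + S + T + 1)), (S^(2:ℕ)*T^(2:ℕ)*(T - 1))/((T + 1)*(S + T + 1)*(-S*T + S + T + 1)))) (orr_3 : cond S T Letter.be (((S^(2:ℕ)*T - S^(2:ℕ) + S*T + T^(2:ℕ) -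 2*S - 1))/(T*(S + 1)*(-S*T + S + T + 1)), (T*(S^(3:ℕ)*T^(2:ℕ) - S^(3:ℕ)*T + S^(2:ℕ)*T^(2:ℕ) - 2*S^(2:ℕ)*T - S*T^(2:ℕ) + S^(2:ℕ) + S*T + T^(2:ℕ) + 2*S + 2*T + 1))/((S + T + 1)^(2:ℕ)*(-S*T + S + T + 1)))) (orr_4 : cond S T Letter.be (((S^(3:ℕ)*T^(4:ℕ) + S^(2:ℕ)*T^(4:ℕ) - S^(3:ℕ)*T^(2:ℕ) - S^(2:ℕ)*T^(3:ℕ) - S*T^(4:ℕ) + S^(3:ℕ)*T + S^(2:ℕ)*T^(2:ℕ) + S*T^(3:ℕ) + T^(4:ℕ) - S^(3:ℕ) + 2*S*T^(2:ℕ) + 2*T^(3:ℕ) - 3*S^(2:ℕ) - 3*S*T - 3*S - 2*T - 1))/(T*(S + T + 1)^(2:ℕ)*(-S*T + S + T + 1)), ((-S^(2:ℕ)*T^(2:ℕ) + S^(2:ℕ) + S*T + 2*S + T + 1))/((S + 1)*(T + 1)*(-S*T + S + T + 1)))) :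
    okc S T [Letter.ga, Letter.be, Letter.al, Letter.be, Letter.be] ((S*(-S*T + S + 1))/((S + 1)*(-S*T + S + T + 1)), ((-S^(2:ℕ)*T^(2:ℕ) - 2*S*T^(2:ℕ) + S^(2:ℕ) + 2*S*T + T^(2:ℕ) + 2*S + 2*T + 1))/((S + T + 1)*(-S*T + S + T + 1))) := (okc_cons' orr_0 f11 (okc_cons' orr_1 f12 (okc_cons' orr_2 f13 (okc_cons' orr_3 f14 (okc_last' orr_4)))))

theorem G3_sB (S T : ℝ) (q2 : 0 < ((-S*T + S + 1))/((-S*T + S + T + 1))) (q3 : ((-S*T + S + 1))/((-S*T + S + T + 1)) < 1) (q4 : 0 < (S*(-S*T + S + 1))/((S + 1)*(-S*T + S + T + 1))) (q5 : (S*(-S*T + S + 1))/((S + 1)*(-S*T + S + T + 1)) < 1) :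
    Sq ((S*(-S*T + S + 1))/((S + 1)*(-S*T + S + T + 1)), ((-S*T + S + 1))/((-S*T + S + T + 1))) := ⟨⟨q4, q5⟩, q2, q3⟩

theorem G3_oB_0 (S T : ℝ) (g9 : (S + T + 1) * ((S*(-S*T + S + 1))/((S + 1)*(-S*T + S + T + 1))) < S) :
    cond S T Letter.ga ((S*(-S*T + S + 1))/((S + 1)*(-S*T + S + T + 1)), ((-S*T + S + 1))/((-S*T + S + T + 1))) := g9

theorem G3_oB_1 (S T : ℝ) (g1 : S < (S + T + 1) * (((-S^(2:ℕ)*T + S^(2:ℕ) - S*T + 2*S + T + 1))/((S + 1)*(-S*T + S + T + 1)))) (g6 : 1 < (T + 1) * ((T)/((-S*T + S + T + 1)))) :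
    cond S T Letter.be (((-S^(2:ℕ)*T + S^(2:ℕ) - S*T + 2*S + T + 1))/((S + 1)*(-S*T + S + T + 1)), (T)/((-S*T + S + T + 1))) := ⟨g1, g6⟩

theorem G3_oB_2 (S T : ℝ) (g4 : (T + 1) * ((S*T^(2:ℕ))/((S + 1)*(T + 1)*(-S*T + S + T + 1))) < 1) (g7 : S < (S + T + 1) * (((S + T + 1)*(T - 1))/(T*(-S*T + S + T + 1)))) :
    cond S T Letter.al (((S + T + 1)*(T - 1))/(T*(-S*T + S + T + 1)), (S*T^(2:ℕ))/((S + 1)*(T + 1)*(-S*T + S + T + 1))) := ⟨g7, g4⟩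

theorem G3_oB_3 (S T : ℝ) (g6 : 1 < (T + 1) * ((T)/((-S*T + S + T + 1)))) (g10 : S < (S + T + 1) * (((S^(2:ℕ)*T - S^(2:ℕ) + S*T + T^(2:ℕ) - 2*S - 1))/(T*(S + 1)*(-S*T + S + T + 1)))) :
    cond S T Letter.be (((S^(2:ℕ)*T - S^(2:ℕ) + S*T + T^(2:ℕ) - 2*S - 1))/(T*(S + 1)*(-S*T + S + T + 1)), (T)/((-S*T + S + T + 1))) := ⟨g10, g6⟩

theorem G3_oB_4 (S T : ℝ) (g7 : S < (S + T + 1) * (((S + T + 1)*(T - 1))/(T*(-S*T + S + T + 1)))) (g11 : 1 < (T + 1) * (((-S^(2:ℕ)*T^(2:ℕ) + S^(2:ℕ) + S*T + 2*S + T + 1))/((S + 1)*(T + 1)*(-S*T + S + T + 1)))) :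
    cond S T Letter.be (((S + T + 1)*(T - 1))/(T*(-S*T + S + T + 1)), ((-S^(2:ℕ)*T^(2:ℕ) + S^(2:ℕ) + S*T + 2*S + T + 1))/((S + 1)*(T + 1)*(-S*T + S + T + 1))) := ⟨g7, g11⟩

theorem G3_oB (S T : ℝ) (f0 : fl S T Letter.ga ((S*(-S*T + S + 1))/((S + 1)*(-S*T + S + T + 1)), ((-S*T + S + 1))/((-S*T + S + T + 1))) = (((-S^(2:ℕ)*T + S^(2:ℕ) - S*T + 2*S + T + 1))/((S + 1)*(-S*T + S + T + 1)), (T)/((-S*T + S + T + 1)))) (f1 : fl S T Letter.be (((-S^(2:ℕ)*T + S^(2:ℕ) - S*T + 2*S + T + 1))/((S + 1)*(-S*T + S + T + 1)), (T)/((-S*T + S + T + 1))) = (((S + T + 1)*(T - 1))/(T*(-S*T + S + T + 1)), (S*T^(2:ℕ))/((S + 1)*(T + 1)*(-S*T + S + T + 1)))) (f2 : fl S T Letter.al (((S + T + 1)*(T - 1))/(T*(-S*T + S + T + 1)),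 (S*T^(2:ℕ))/((S + 1)*(T + 1)*(-S*T + S + T + 1))) = (((S^(2:ℕ)*T - S^(2:ℕ) + S*T + T^(2:ℕ) - 2*S - 1))/(T*(S + 1)*(-S*T + S + T + 1)), (T)/((-S*T + S + T + 1)))) (f3 : fl S T Letter.be (((S^(2:ℕ)*T - S^(2:ℕ) + S*T + T^(2:ℕ) - 2*S - 1))/(T*(S + 1)*(-S*T + S + T + 1)), (T)/((-S*T + S + T + 1))) = (((S + T + 1)*(T - 1))/(T*(-S*T + S + T + 1)), ((-S^(2:ℕ)*T^(2:ℕ) + S^(2:ℕ) + S*T + 2*S + T + 1))/((S + 1)*(T + 1)*(-S*T + S + T + 1)))) (oB_0 : cond S T Letter.ga ((S*(-S*T + S + 1))/((S + 1)*(-S*T + S + T + 1)), ((-S*T + S + 1))/((-S*T + S + T + 1)))) (oB_1 : cond S T Letter.be (((-S^(2:ℕ)*T + S^(2:ℕ) - S*T + 2*S + T + 1))/((S + 1)*(-S*T + S + T + 1)), (T)/((-S*T + S + T + 1)))) (oB_2 : cond S T Letter.al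 (((S + T + 1)*(T - 1))/(T*(-S*T + S + T + 1)), (S*T^(2:ℕ))/((S + 1)*(T + 1)*(-S*T + S + T + 1)))) (oB_3 : cond S T Letter.be (((S^(2:ℕ)*T - S^(2:ℕ) + S*T + T^(2:ℕ) - 2*S - 1))/(T*(S + 1)*(-S*T + S + T + 1)), (T)/((-S*T + S + T + 1)))) (oB_4 : cond S T Letter.be (((S + T + 1)*(T - 1))/(T*(-S*T + S + T + 1)), ((-S^(2:ℕ)*T^(2:ℕ) + S^(2:ℕ) + S*T + 2*S + T + 1))/((S + 1)*(T + 1)*(-S*T + S + T + 1)))) :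
    okc S T [Letter.ga, Letter.be, Letter.al, Letter.be, Letter.be] ((S*(-S*T + S + 1))/((S + 1)*(-S*T + S + T + 1)), ((-S*T + S + 1))/((-S*T + S + T + 1))) := (okc_cons' oB_0 f0 (okc_cons' oB_1 f1 (okc_cons' oB_2 f2 (okc_cons' oB_3 f3 (okc_last' oB_4)))))

theorem G3_vP (S T : ℝ) (d0 : 0 < (S + 1)*(-S*T + S + T + 1)) (d5 : 0 < (S + 1)*(S + T + 1)^(2:ℕ)*(-S*T + S + T + 1)) (d14 : 0 < (S + 1)*(S + T + 1)*(-S*T + S + T + 1)) (d24 : 0 < (S + T + 1)) :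
    (((S*(-S*T + S + 1))/((S + 1)*(-S*T + S + T + 1)), ((-S*T + S + 1))/((-S*T + S + T + 1))) : ℝ × ℝ) + ((S*T)/((S + T + 1))) • (((S*(-S^(2:ℕ)*T^(2:ℕ) + S^(2:ℕ) + S*T + 2*S + T + 1))/((S + 1)*(S + T + 1)*(-S*T + S + T + 1)), 0) : ℝ × ℝ) = ((S*(-S^(3:ℕ)*T^(3:ℕ) - S^(2:ℕ)*T^(2:ℕ) - S*T^(3:ℕ) + S^(3:ℕ) + 2*S^(2:ℕ)*T + 3*S^(2:ℕ) + 4*S*T + T^(2:ℕ) + 3*S + 2*T + 1))/((S + 1)*(S + T + 1)^(2:ℕ)*(-S*T + S + T + 1)), ((-S*T + S + 1))/((-S*T + S + T + 1))) := vecX (radd d0 d24 d14 d5 (by ring))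

theorem G3_vq (S T : ℝ) (d0 : 0 < (S + 1)*(-S*T + S + T + 1)) (d9 : 0 < (S + T + 1)*(-S*T + S + T + 1)) (d14 : 0 < (S + 1)*(S + T + 1)*(-S*T + S + T + 1)) :
    (((S*(-S*T + S + 1))/((S + 1)*(-S*T + S + T + 1)), ((-S*T + S + 1))/((-S*T + S + T + 1))) : ℝ × ℝ) + (((S*(-S^(2:ℕ)*T^(2:ℕ) + S^(2:ℕ) + S*T + 2*S + T + 1))/((S + 1)*(S + T + 1)*(-S*T + S + T + 1)), 0) : ℝ × ℝ) = ((S*(-S*T^(2:ℕ) - S*T + 2*S + 2*T + 2))/((S + T + 1)*(-S*T + S + T + 1)), ((-S*T + S + 1))/((-S*T + S + T + 1))) := vecX1 (radd1 d0 d14 d9 (by ring))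

theorem G3_vr (S T : ℝ) (d1 : 0 < (-S*T + S + T + 1)) (d9 : 0 < (S + T + 1)*(-S*T + S + T + 1)) :
    (((S*(-S*T + S + 1))/((S + 1)*(-S*T + S + T + 1)), ((-S*T + S + 1))/((-S*T + S + T + 1))) : ℝ × ℝ) + ((0, (T*(-S^(2:ℕ)*T + S^(2:ℕ) - S*T + 2*S + T + 1))/((S + T + 1)*(-S*T + S + T + 1))) : ℝ × ℝ) = ((S*(-S*T + S + 1))/((S + 1)*(-S*T + S + T + 1)), ((-S^(2:ℕ)*T^(2:ℕ) - 2*S*T^(2:ℕ) + S^(2:ℕ) + 2*S*T + T^(2:ℕ) + 2*S + 2*T + 1))/((S + T + 1)*(-S*T + S + T + 1))) := vecY1 (radd1 d1 d9 d9 (by ring))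

theorem G3_vC (S T : ℝ) (d1 : 0 < (-S*T + S + T + 1)) (d6 : 0 < (S + T + 1)^(2:ℕ)*(-S*T + S + T + 1)) (d9 : 0 < (S + T + 1)*(-S*T + S + T + 1)) (d24 : 0 < (S + T + 1)) :
    (((S*(-S*T + S + 1))/((S + 1)*(-S*T + S + T + 1)), ((-S*T + S + 1))/((-S*T + S + T + 1))) : ℝ × ℝ) + ((S*T)/((S + T + 1))) • ((0, (T*(-S^(2:ℕ)*T + S^(2:ℕ) - S*T + 2*S + T + 1))/((S + T + 1)*(-S*T + S + T + 1))) : ℝ × ℝ) = ((S*(-S*T + S + 1))/((S + 1)*(-S*T + S + T + 1)), ((S + 1)*(-S^(2:ℕ)*T^(3:ℕ) + S^(2:ℕ)*T^(2:ℕ) - S^(2:ℕ)*T - S*T^(2:ℕ) + S^(2:ℕ) + S*T + T^(2:ℕ) + 2*S + 2*T + 1))/((S + T + 1)^(2:ℕ)*(-S*T + S + T + 1))) := vecY (radd d1 d24 d9 d6 (by ring))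

theorem G3_d39 (S T : ℝ) (pS : 0 < S) (pT : 0 < T) :
    0 < S*T := (mul_pos pS pT)

theorem G3_nun (S T : ℝ) (d24 : 0 < (S + T + 1)) (d39 : 0 < S*T) :
    0 < (S*T)/((S + T + 1)) := div_pos d39 d24

theorem G3_num (S T : ℝ) (d1 : 0 < (-S*T + S + T + 1)) (d24 : 0 < (S + T + 1)) :
    (S*T)/((S + T + 1)) < 1 := rlt1 d24 d1 d24 (by ring)

theorem G3_kan (S T : ℝ) (d24 : 0 < (S + T + 1)) (d39 : 0 < S*T) :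
    0 < (S*T)/((S + T + 1)) := div_pos d39 d24

theorem G3_kam (S T : ℝ) (d1 : 0 < (-S*T + S + T + 1)) (d24 : 0 < (S + T + 1)) :
    (S*T)/((S + T + 1)) < 1 := rlt1 d24 d1 d24 (by ring)

theorem G3_d40 (S T : ℝ) (pT : 0 < T) (c19 : 0 < -S^(2:ℕ)*T + S^(2:ℕ) - S*T + 2*S + T + 1) :
    0 < T*(-S^(2:ℕ)*T + S^(2:ℕ) - S*T + 2*S + T + 1) := (mul_pos pT c19)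

theorem G3_hdB (S T : ℝ) (d9 : 0 < (S + T + 1)*(-S*T + S + T + 1)) (d40 : 0 < T*(-S^(2:ℕ)*T + S^(2:ℕ) - S*T + 2*S + T + 1)) :
    ((0, (T*(-S^(2:ℕ)*T + S^(2:ℕ) - S*T + 2*S + T + 1))/((S + T + 1)*(-S*T + S + T + 1))) : ℝ × ℝ) ≠ 0 := ne0Y (div_pos d40 d9).ne'

theorem fam_G3 {S T : ℝ} (g0 : 0 < S) (g1 : 0 ≤ T - S - 1) (g2 : 0 < S + 1 - S*T) (g3 : 0 ≤ T^(2:ℕ) - S*(S+1)*T - (S+1)^(2:ℕ)) (g4 : 0 < S^(2:ℕ) - S + 1) : HasConn S T := by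
  have pS : 0 < S := g0
  have pT : 0 < T := by linarith
  have pA : 0 < (S + 1) := by linarith
  have pB : 0 < (T + 1) := by linarith
  have pU : 0 < (S + T + 1) := by linarith
  have c0 : 0 < -S*T + S + T + 1 := G3_c0 g0 g1 g2 g3 g4
  have c1 : 0 < -S^(3:ℕ)*T^(3:ℕ) - S^(2:ℕ)*T^(2:ℕ) - S*T^(3:ℕ) + S^(3:ℕ) + 2*S^(2:ℕ)*T + 3*S^(2:ℕ) + 4*S*T + T^(2:ℕ) + 3*S + 2*T + 1 := G3_c1 g0 g1 g2 g3 g4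
  have c2 : 0 < S^(4:ℕ)*T^(3:ℕ) - S^(4:ℕ)*T - S^(3:ℕ)*T^(2:ℕ) - 2*S^(3:ℕ)*T - S^(2:ℕ)*T^(2:ℕ) + S^(3:ℕ) + 2*S^(2:ℕ)*T + 3*S*T^(2:ℕ) + T^(3:ℕ) + 3*S^(2:ℕ) + 6*S*T + 3*T^(2:ℕ) + 3*S + 3*T + 1 := G3_c2 g0 g1 g2 g3 g4
  have c3 : 0 < -S*T + S + 1 := G3_c3 g0 g1 g2 g3 g4
  have c4 : 0 < S^(2:ℕ)*T^(2:ℕ) - S^(2:ℕ) + T^(2:ℕ) - 2*S - 1 := G3_c4 g0 g1 g2 g3 g4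
  have c5 : 0 < -S^(2:ℕ)*T^(2:ℕ) - S^(2:ℕ)*T - S*T^(2:ℕ) + S^(2:ℕ) + S*T + T^(2:ℕ) + 2*S + 2*T + 1 := G3_c5 g0 g1 g2 g3 g4
  have c6 : 0 < S^(3:ℕ)*T^(4:ℕ) + S^(3:ℕ)*T^(3:ℕ) - S^(3:ℕ)*T^(2:ℕ) - S^(2:ℕ)*T^(3:ℕ) + 2*S*T^(3:ℕ) + T^(4:ℕ) - S^(3:ℕ) - 2*S^(2:ℕ)*T + S*T^(2:ℕ) + 2*T^(3:ℕ) - 3*S^(2:ℕ) - 4*S*T - 3*S - 2*T - 1 := G3_c6 g0 g1 g2 g3 g4
  have c7 : 0 < S^(2:ℕ)*T^(3:ℕ) - S*T^(3:ℕ) + T^(3:ℕ) - S^(2:ℕ) - S*T + T^(2:ℕ) - 2*S - T - 1 := G3_c7 g0 g1 g2 g3 g4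
  have c8 : 0 < S^(2:ℕ)*T^(2:ℕ) - S*T^(2:ℕ) - S^(2:ℕ) + T^(2:ℕ) - 2*S - 1 := G3_c8 g0 g1 g2 g3 g4
  have c9 : 0 < T - 1 := G3_c9 g0 g1 g2 g3 g4
  have c10 : 0 < S^(2:ℕ)*T - S^(2:ℕ) + S*T + T^(2:ℕ) - 2*S - 1 := G3_c10 g0 g1 g2 g3 g4
  have c11 : 0 < -S*T^(2:ℕ) - S*T + 2*S + 2*T + 2 := G3_c11 g0 g1 g2 g3 g4
  have c12 : 0 < S^(3:ℕ)*T^(2:ℕ) + S^(2:ℕ)*T^(2:ℕ) - S^(3:ℕ) - S^(2:ℕ)*T + S*T^(2:ℕ) + T^(3:ℕ) - 3*S^(2:ℕ) - 2*S*T + T^(2:ℕ) - 3*S - T - 1 := G3_c12 g0 g1 g2 g3 g4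
  have c13 : 0 < S^(2:ℕ)*T - S^(2:ℕ) - S*T + T + 1 := G3_c13 g0 g1 g2 g3 g4
  have c14 : 0 < -S^(2:ℕ)*T^(2:ℕ) - 2*S*T^(2:ℕ) + S^(2:ℕ) + 2*S*T + T^(2:ℕ) + 2*S + 2*T + 1 := G3_c14 g0 g1 g2 g3 g4
  have c15 : 0 < -S^(2:ℕ)*T^(2:ℕ) + S^(2:ℕ)*T - S*T^(2:ℕ) + T^(2:ℕ) + S + 2*T + 1 := G3_c15 g0 g1 g2 g3 g4
  have c16 : 0 < -S^(2:ℕ)*T^(3:ℕ) + S^(2:ℕ)*T^(2:ℕ) - S^(2:ℕ)*T - S*T^(2:ℕ) + S^(2:ℕ) + S*T + T^(2:ℕ) + 2*S + 2*T + 1 := G3_c16 g0 g1 g2 g3 g4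
  have c17 : 0 < S^(3:ℕ)*T^(4:ℕ) + S^(2:ℕ)*T^(4:ℕ) - S^(3:ℕ)*T^(2:ℕ) - S^(2:ℕ)*T^(3:ℕ) - S*T^(4:ℕ) + S^(3:ℕ)*T + S^(2:ℕ)*T^(2:ℕ) + S*T^(3:ℕ) + T^(4:ℕ) - S^(3:ℕ) + 2*S*T^(2:ℕ) + 2*T^(3:ℕ) - 3*S^(2:ℕ) - 3*S*T - 3*S - 2*T - 1 := G3_c17 g0 g1 g2 g3 g4
  have c18 : 0 < S^(3:ℕ)*T^(3:ℕ) - S^(3:ℕ)*T^(2:ℕ) + S^(2:ℕ)*T^(3:ℕ) + S^(3:ℕ)*T - S^(2:ℕ)*T^(2:ℕ) - S*T^(3:ℕ) - S^(3:ℕ) + S^(2:ℕ)*T + S*T^(2:ℕ) + T^(3:ℕ) - 3*S^(2:ℕ) - S*T + T^(2:ℕ) - 3*S - T - 1 := G3_c18 g0 g1 g2 g3 g4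
  have c19 : 0 < -S^(2:ℕ)*T + S^(2:ℕ) - S*T + 2*S + T + 1 := G3_c19 g0 g1 g2 g3 g4
  have d0 := G3_d0 S T pA c0
  have d1 := G3_d1 S T c0
  have f0 := G3_f0 S T pS d0 d1
  have d2 := G3_d2 S T pT c0
  have d3 := G3_d3 S T pA pB c0
  have f1 := G3_f1 S T pT d0 d1 d2 d3
  have d4 := G3_d4 S T pT pA c0
  have f2 := G3_f2 S T pS pT d1 d2 d3 d4
  have f3 := G3_f3 S T pT d1 d2 d3 d4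
  have f4 := G3_f4 S T pT d0 d1 d2 d3
  have rA := G3_rA S T f0 f1 f2 f3 f4
  have d5 := G3_d5 S T pA pU c0
  have d6 := G3_d6 S T pU c0
  have f5 := G3_f5 S T pS d0 d1 d5 d6
  have d7 := G3_d7 S T pT pU c0
  have f6 := G3_f6 S T pT d0 d3 d6 d7
  have d8 := G3_d8 S T pT pU c0
  have f7 := G3_f7 S T pS pT d1 d3 d7 d8
  have d9 := G3_d9 S T pU c0
  have f8 := G3_f8 S T pT d1 d2 d8 d9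
  have f9 := G3_f9 S T pT d1 d2 d9
  have rP := G3_rP S T f5 f6 f7 f8 f9
  have d10 := G3_d10 S T pS c1
  have q0 := G3_q0 S T d5 d10
  have d11 := G3_d11 S T c2
  have q1 := G3_q1 S T d5 d11
  have d12 := G3_d12 S T c3
  have q2 := G3_q2 S T d1 d12
  have q3 := G3_q3 S T pT d1
  have sP := G3_sP S T q0 q1 q2 q3
  have d13 := G3_d13 S T pS pT c4
  have d14 := G3_d14 S T pA pU c0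
  have g0 := G3_g0 S T d5 d13 d14
  have oP_0 := G3_oP_0 S T g0
  have d15 := G3_d15 S T c5
  have g1 := G3_g1 S T d0 d15
  have d16 := G3_d16 S T c6
  have g2 := G3_g2 S T d6 d16
  have oP_1 := G3_oP_1 S T g1 g2
  have d17 := G3_d17 S T pA pB c7
  have g3 := G3_g3 S T d7 d8 d17
  have d18 := G3_d18 S T pU c3
  have g4 := G3_g4 S T d0 d3 d18
  have oP_2 := G3_oP_2 S T g3 g4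
  have d19 := G3_d19 S T pB c8
  have g5 := G3_g5 S T d2 d8 d19
  have d20 := G3_d20 S T pU c9
  have g6 := G3_g6 S T d1 d20
  have oP_3 := G3_oP_3 S T g5 g6
  have d21 := G3_d21 S T pB c10
  have g7 := G3_g7 S T d2 d21
  have d22 := G3_d22 S T pS pT c11
  have g8 := G3_g8 S T d9 d22
  have oP_4 := G3_oP_4 S T g7 g8
  have oP := G3_oP S T f5 f6 f7 f8 oP_0 oP_1 oP_2 oP_3 oP_4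
  have d23 := G3_d23 S T pS c3
  have q4 := G3_q4 S T d0 d23
  have d24 := G3_d24 S T pU
  have q5 := G3_q5 S T d0 d24
  have sA := G3_sA S T q2 q3 q4 q5
  have d25 := G3_d25 S T pS pT
  have g9 := G3_g9 S T d0 d25
  have oA_0 := G3_oA_0 S T g9
  have oA_1 := G3_oA_1 S T g1 g6
  have oA_2 := G3_oA_2 S T g4 g7
  have d26 := G3_d26 S T c12
  have g10 := G3_g10 S T d4 d26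
  have oA_3 := G3_oA_3 S T g6 g10
  have d27 := G3_d27 S T pS pT c3
  have g11 := G3_g11 S T d0 d3 d27
  have oA_4 := G3_oA_4 S T g7 g11
  have oA := G3_oA S T f0 f1 f2 f3 oA_0 oA_1 oA_2 oA_3 oA_4
  have f10 := G3_f10 S T pS pT d0 d1 d9
  have rE := G3_rE S T f10
  have d28 := G3_d28 S T pS c11
  have q6 := G3_q6 S T d9 d28
  have d29 := G3_d29 S T pB c13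
  have q7 := G3_q7 S T d9 d29
  have sq := G3_sq S T q2 q3 q6 q7
  have d30 := G3_d30 S T pS pB c3
  have g12 := G3_g12 S T d1 d9 d30
  have d31 := G3_d31 S T pS pT c9
  have g13 := G3_g13 S T d1 d31
  have oE_0 := G3_oE_0 S T g12 g13
  have oE := G3_oE S T oE_0
  have rB := G3_rB S T f0 f1 f2 f3 f4
  have f11 := G3_f11 S T pS d0 d1 d9
  have d32 := G3_d32 S T pB pU c0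
  have f12 := G3_f12 S T pT d1 d2 d9 d32
  have f13 := G3_f13 S T pS pT d2 d4 d6 d32
  have f14 := G3_f14 S T pT d3 d4 d6 d7
  have f15 := G3_f15 S T pT d0 d3 d6 d7
  have rr := G3_rr S T f11 f12 f13 f14 f15
  have d33 := G3_d33 S T c14
  have q8 := G3_q8 S T d9 d33
  have d34 := G3_d34 S T pS pT pA c9
  have q9 := G3_q9 S T d9 d34
  have sr := G3_sr S T q4 q5 q8 q9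
  have orr_0 := G3_orr_0 S T g9
  have d35 := G3_d35 S T c15
  have g14 := G3_g14 S T d1 d9 d35
  have orr_1 := G3_orr_1 S T g6 g14
  have d36 := G3_d36 S T c16
  have g15 := G3_g15 S T d9 d32 d36
  have orr_2 := G3_orr_2 S T g7 g15
  have d37 := G3_d37 S T c17
  have g16 := G3_g16 S T d6 d37
  have orr_3 := G3_orr_3 S T g10 g16
  have d38 := G3_d38 S T pB c18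
  have g17 := G3_g17 S T d7 d8 d38
  have orr_4 := G3_orr_4 S T g11 g17
  have orr := G3_orr S T f11 f12 f13 f14 orr_0 orr_1 orr_2 orr_3 orr_4
  have sB := G3_sB S T q2 q3 q4 q5
  have oB_0 := G3_oB_0 S T g9
  have oB_1 := G3_oB_1 S T g1 g6
  have oB_2 := G3_oB_2 S T g4 g7
  have oB_3 := G3_oB_3 S T g6 g10
  have oB_4 := G3_oB_4 S T g7 g11
  have oB := G3_oB S T f0 f1 f2 f3 oB_0 oB_1 oB_2 oB_3 oB_4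
  have vP := G3_vP S T d0 d5 d14 d24
  have vq := G3_vq S T d0 d9 d14
  have vr := G3_vr S T d1 d9
  have vC := G3_vC S T d1 d6 d9 d24
  have d39 := G3_d39 S T pS pT
  have nun := G3_nun S T d24 d39
  have num := G3_num S T d1 d24
  have kan := G3_kan S T d24 d39
  have kam := G3_kam S T d1 d24
  have d40 := G3_d40 S T pT c19
  have hdB := G3_hdB S T d9 d40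
  refine conn_fin pS pT (by simp) (by simp) (P := ((S*(-S^(3:ℕ)*T^(3:ℕ) - S^(2:ℕ)*T^(2:ℕ) - S*T^(3:ℕ) + S^(3:ℕ) + 2*S^(2:ℕ)*T + 3*S^(2:ℕ) + 4*S*T + T^(2:ℕ) + 3*S + 2*T + 1))/((S + 1)*(S + T + 1)^(2:ℕ)*(-S*T + S + T + 1)), ((-S*T + S + 1))/((-S*T + S + T + 1)))) (q := ((S*(-S*T^(2:ℕ) - S*T + 2*S + 2*T + 2))/((S + T + 1)*(-S*T + S + T + 1)), ((-S*T + S + 1))/((-S*T + S + T + 1)))) (r := ((S*(-S*T + S + 1))/((S + 1)*(-S*T + S + T + 1)), ((-S^(2:ℕ)*T^(2:ℕ) - 2*S*T^(2:ℕ) + S^(2:ℕ) + 2*S*T + T^(2:ℕ) + 2*S + 2*T + 1))/((S + T + 1)*(-S*T + S + T + 1)))) (C := ((S*(-S*T + S + 1))/((S + 1)*(-S*T + S + T + 1)), ((S + 1)*(-S^(2:ℕ)*T^(3:ℕ) + S^(2:ℕ)*T^(2:ℕ) - S^(2:ℕ)*T - S*T^(2:ℕ) + S^(2:ℕ) + S*T + T^(2:ℕ) + 2*S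 + 2*T + 1))/((S + T + 1)^(2:ℕ)*(-S*T + S + T + 1))))
    (ν := (S*T)/((S + T + 1))) (κ := (S*T)/((S + T + 1))) ?_ ?_ ?_ hdB vP vq vr vC rA rP rB rr rE ?_ sq oE ?_
  · exact nun.ne'
  · exact kan.ne'
  · exact abs_lt.2 ⟨(neg_lt_zero.2 one_pos).trans kan, kam⟩
  · exact okA_pos pS pT nun num vP sA sP oA oP
  · exact okB_pos pS pT kan kam vr sB sr oB orr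

end SympB.Quad
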