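import Pool.Agent.W_93b186_h44.ConnX

/-!
# Small lemmas on quotients, used by the machine generated files
-/

namespace SympB.Quad

variable {S T : ℝ}

theorem fl_al' (hS : 0 < S) (hT : 0 < T) {X D Y E X' D' Y' E' : ℝ} (hD : 0 < D) (hE : 0 < E)
    (hD' : 0 < D') (hE' : 0 < E')
    (h1 : ((S + T + 1) * X - S * D) * D' = X' * (D * ((S + 1) * (T + 1))))
    (h2 : (T * E + (S + 1) * (T + 1) * Y) * E' = Y' * (E * (S + T + 1))) :
    fl S T Letter.al (X / D, Y / E) = (X' / D', Y' / E') := by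
  have a1 : S + 1 ≠ 0 := by positivity
  have a2 : T + 1 ≠ 0 := by positivity
  have a3 : S + T + 1 ≠ 0 := by positivity
  simp only [fl]
  refine Prod.ext ?_ ?_
  · dsimp only
    rw [mul_div_assoc', div_sub' hD.ne', div_div, div_eq_div_iff (by positivity) hD'.ne']
    linear_combination h1
  · dsimp only
    rw [mul_div_assoc', add_div' _ _ _ hE.ne', div_div, div_eq_div_iff (by positivity) hE'.ne']
    linear_combination h2

theorem fl_be' (hT : 0 < T) {X D Y E X' D' Y' E' : ℝ} (hD : 0 < D) (hE : 0 < E)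
    (hD' : 0 < D') (hE' : 0 < E')
    (h1 : ((T + 1) * Y - E) * D' = X' * (E * T))
    (h2 : T * (D - X) * E' = Y' * (D * (T + 1))) :
    fl S T Letter.be (X / D, Y / E) = (X' / D', Y' / E') := by
  have a2 : T + 1 ≠ 0 := by positivity
  simp only [fl]
  refine Prod.ext ?_ ?_
  · dsimp only
    rw [mul_div_assoc', div_sub_one hE.ne', div_div, div_eq_div_iff (by positivity) hD'.ne']
    linear_combination h1
  · dsimp only
    rw [one_sub_div hD.ne', mul_div_assoc', div_div, div_eq_div_iff (by positivity) hE'.ne']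
    linear_combination h2

theorem fl_ga' (hS : 0 < S) {X D Y E X' D' Y' E' : ℝ} (hD : 0 < D) (hE : 0 < E)
    (hD' : 0 < D') (hE' : 0 < E')
    (h1 : (E + S * Y) * D' = X' * (E * (S + 1)))
    (h2 : (S * D - (S + 1) * X) * E' = Y' * (D * S)) :
    fl S T Letter.ga (X / D, Y / E) = (X' / D', Y' / E') := by
  have a2 : S + 1 ≠ 0 := by positivity
  simp only [fl]
  refine Prod.ext ?_ ?_
  · dsimp only
    rw [mul_div_assoc', add_div' _ _ _ hE.ne', div_div, div_eq_div_iff (by positivity) hD'.ne']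
    linear_combination h1
  · dsimp only
    rw [mul_div_assoc', div_div, one_sub_div (by positivity), div_eq_div_iff (by positivity) hE'.ne']
    linear_combination h2

theorem rlt {u a N D K L : ℝ} (hD : 0 < D) (hK : 0 < K) (hL : 0 < L)
    (h : (a * D - u * N) * L = K * D) : u * (N / D) < a := by
  rw [mul_div_assoc', div_lt_iff₀ hD]
  have h1 : 0 < (a * D - u * N) * L := by rw [h]; positivity
  have h2 := pos_of_mul_pos_left h1 hL.le
  linarith

theorem rgt {u a N D K L : ℝ} (hD : 0 < D) (hK : 0 < K) (hL : 0 < L)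
    (h : (u * N - a * D) * L = K * D) : a < u * (N / D) := by
  rw [mul_div_assoc', lt_div_iff₀ hD]
  have h1 : 0 < (u * N - a * D) * L := by rw [h]; positivity
  have h2 := pos_of_mul_pos_left h1 hL.le
  linarith

theorem rlt1 {N D K L : ℝ} (hD : 0 < D) (hK : 0 < K) (hL : 0 < L)
    (h : (D - N) * L = K * D) : N / D < 1 := by
  have h1 := rlt (u := 1) (a := 1) (N := N) hD hK hL (by rw [← h]; ring)
  rwa [one_mul] at h1

theorem rneg {N D : ℝ} (hN : 0 < N) (hD : 0 < D) : (-N) / D < 0 :=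
  div_neg_of_neg_of_pos (neg_lt_zero.2 hN) hD

theorem rgtm {N D K L : ℝ} (hD : 0 < D) (hK : 0 < K) (hL : 0 < L)
    (h : (D + N) * L = K * D) : -1 < N / D := by
  have h1 := rgt (u := 1) (a := -1) (N := N) hD hK hL (by rw [← h]; ring)
  rwa [one_mul] at h1

theorem vecX {a b c d r : ℝ} (h : a + c * d = r) :
    ((a, b) : ℝ × ℝ) + c • ((d, 0) : ℝ × ℝ) = (r, b) := by
  ext
  · simpa using h
  · simp

theorem vecY {a b c d r : ℝ} (h : b + c * d = r) :
    ((a, b) : ℝ × ℝ) + c • ((0, d) : ℝ × ℝ) = (a, r) := by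
  ext
  · simp
  · simpa using h

theorem vecX1 {a b d r : ℝ} (h : a + d = r) :
    ((a, b) : ℝ × ℝ) + ((d, 0) : ℝ × ℝ) = (r, b) := by
  ext
  · simpa using h
  · simp

theorem vecY1 {a b d r : ℝ} (h : b + d = r) :
    ((a, b) : ℝ × ℝ) + ((0, d) : ℝ × ℝ) = (a, r) := by
  ext
  · simp
  · simpa using h

theorem radd {a A c C d D r R : ℝ} (hA : 0 < A) (hC : 0 < C) (hD : 0 < D) (hR : 0 < R)
    (h : (a * (C * D) + A * (c * d)) * R = r * (A * (C * D))) :
    a / A + c / C * (d / D) = r / R := by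
  rw [div_mul_div_comm, div_add_div _ _ hA.ne' (mul_pos hC hD).ne', div_eq_div_iff (by positivity) hR.ne']
  linear_combination h

theorem radd2 {a A c C d D r R : ℝ} (hA : 0 < A) (hC : 0 < C) (hD : 0 < D) (hR : 0 < R)
    (h : (a * (C ^ 2 * D) + A * (c ^ 2 * d)) * R = r * (A * (C ^ 2 * D))) :
    a / A + (c / C) ^ 2 * (d / D) = r / R := by
  rw [div_pow]
  exact radd hA (pow_pos hC 2) hD hR h

theorem radd1 {a A d D r R : ℝ} (hA : 0 < A) (hD : 0 < D) (hR : 0 < R)
    (h : (a * D + A * d) * R = r * (A * D)) : a / A + d / D = r / R := by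
  rw [div_add_div _ _ hA.ne' hD.ne', div_eq_div_iff (by positivity) hR.ne']
  linear_combination h

theorem ne0X {d : ℝ} (h : d ≠ 0) : ((d, 0) : ℝ × ℝ) ≠ 0 := fun h1 => h (congrArg Prod.fst h1)

theorem ne0Y {d : ℝ} (h : d ≠ 0) : ((0, d) : ℝ × ℝ) ≠ 0 := fun h1 => h (congrArg Prod.snd h1)

theorem pos_aux {m p w : ℝ} (hm : 0 < m) (hw : 0 < w) (h : 0 < m * p * w) : 0 < p :=
  pos_of_mul_pos_right (pos_of_mul_pos_left h hw.le) hm.le

theorem pos_aux1 {m p : ℝ} (hm : 0 < m) (h : 0 < m * p) : 0 < p :=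
  pos_of_mul_pos_right h hm.le

theorem run_cons' {c : Letter} {w : List Letter} {p q r : ℝ × ℝ} (h : fl S T c p = q)
    (h2 : run S T w q = r) : run S T (c :: w) p = r := by
  rw [← h2, ← h]
  rfl

theorem run_nil' {p : ℝ × ℝ} : run S T [] p = p := rfl

theorem okc_cons' {c : Letter} {w : List Letter} {p q : ℝ × ℝ} (h : cond S T c p)
    (h1 : fl S T c p = q) (h2 : okc S T w q) : okc S T (c :: w) p := by
  refine ⟨h, ?_⟩
  rw [h1]
  exact h2

theorem okc_last' {c : Letter} {p : ℝ × ℝ} (h : cond S T c p) : okc S T [c] p := ⟨h, trivial⟩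

end SympB.Quad
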