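import Pool.Agent.W_93b186_h44.Core

/-!
# Geometry of strictly convex polygons and the billiard step
-/

namespace SympB

variable {n : ℕ} {v : ZMod n → ℝ × ℝ}

theorem Geo_comb (u a b c : ℝ × ℝ) {s t : ℝ} (hst : s + t = 1) :
    cross u (s • a + t • b - c) = s * cross u (a - c) + t * cross u (b - c) := by
  have hs : s = 1 - t := by linarith
  subst hs
  simp only [cross, Prod.fst_add, Prod.snd_add, Prod.fst_sub, Prod.snd_sub, Prod.smul_fst,
    Prod.smul_snd, smul_eq_mul]
  ring

theorem Geo_self (_u a b : ℝ × ℝ) : cross (b - a) (a - a) = 0 ∧ cross (b - a) (b - a) = 0 := by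
  refine ⟨?_, ?_⟩ <;> simp only [cross, Prod.fst_sub, Prod.snd_sub] <;> ring

theorem Geo_two {n : ℕ} (hn : 3 ≤ n) (i : ZMod n) : i + 1 + 1 ≠ i ∧ i + 1 + 1 ≠ i + 1 := by
  have h2 : ((2 : ℕ) : ZMod n) ≠ 0 := by
    intro h
    rw [ZMod.natCast_eq_zero_iff] at h
    have := Nat.le_of_dvd (by norm_num) h
    omega
  have h1 : ((1 : ℕ) : ZMod n) ≠ 0 := by
    intro h
    rw [ZMod.natCast_eq_zero_iff] at h
    have := Nat.le_of_dvd (by norm_num) h
    omega
  refine ⟨fun h => h2 ?_, fun h => h1 ?_⟩
  · have h3 : i + 1 + 1 - i = 0 := sub_eq_zero.2 h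
    have h4 : i + 1 + 1 - i = ((2 : ℕ) : ZMod n) := by push_cast; ring
    rw [← h4, h3]
  · have h3 : i + 1 + 1 - (i + 1) = 0 := sub_eq_zero.2 h
    have h4 : i + 1 + 1 - (i + 1) = ((1 : ℕ) : ZMod n) := by push_cast; ring
    rw [← h4, h3]

theorem Geo_vertex {n : ℕ} {v : ZMod n → ℝ × ℝ} (hv : IsConvexPolygon v) (i j : ZMod n) :
    0 ≤ cross (v (i + 1) - v i) (v j - v i) := by
  by_cases h1 : j = i
  · rw [h1, (Geo_self 0 (v i) (v (i + 1))).1]
  · by_cases h2 : j = i + 1
    · rw [h2, (Geo_self 0 (v i) (v (i + 1))).2]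
    · exact (hv.2 i j h1 h2).le


/-- A point in the relative interior of the side `j` is strictly to the left of every other side.

Proof. The function `f x = cross (v (i+1) - v i) (x - v i)` is affine, nonnegative at all vertices
and zero only at `v i`, `v (i+1)`. Since `j ≠ i`: if `j = i + 1` then `f (v j) = 0` and
`f (v (j+1)) > 0` because `i + 2 ≠ i` (as `n ≥ 3`) and `i + 2 ≠ i + 1`; otherwise `f (v j) > 0` and
`f (v (j+1)) ≥ 0`. -/
theorem open_side_pos (hv : IsConvexPolygon v) {i j : ZMod n} (hij : i ≠ j) {x : ℝ × ℝ}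
    (hx : x ∈ openSegment ℝ (v j) (v (j + 1))) : 0 < cross (v (i + 1) - v i) (x - v i) := by
  obtain ⟨s, t, hs, ht, hst, rfl⟩ := hx
  rw [Geo_comb _ _ _ _ hst]
  by_cases h1 : j = i + 1
  · subst h1
    have h2 := Geo_two hv.1 i
    have h3 := hv.2 i (i + 1 + 1) h2.1 h2.2
    rw [(Geo_self 0 (v i) (v (i + 1))).2]
    have := mul_pos ht h3
    linarith
  · have h3 := hv.2 i j (Ne.symm hij) h1
    have h4 := Geo_vertex hv i (j + 1)
    have := mul_pos hs h3
    have := mul_nonneg ht.le h4
    linarith

/-- Every boundary point is weakly to the left of every side. -/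
theorem bdry_nonneg (hv : IsConvexPolygon v) (i : ZMod n) {x : ℝ × ℝ} (hx : x ∈ bdry v) :
    0 ≤ cross (v (i + 1) - v i) (x - v i) := by
  obtain ⟨j, hj⟩ := Set.mem_iUnion.1 hx
  obtain ⟨s, t, hs, ht, hst, rfl⟩ := hj
  rw [Geo_comb _ _ _ _ hst]
  have h1 := mul_nonneg hs (Geo_vertex hv i j)
  have h2 := mul_nonneg ht (Geo_vertex hv i (j + 1))
  linarith

/-- A point of a side is on its line. -/
theorem segment_zero {i : ZMod n} {x : ℝ × ℝ} (hx : x ∈ segment ℝ (v i) (v (i + 1))) :
    cross (v (i + 1) - v i) (x - v i) = 0 := by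
  obtain ⟨s, t, hs, ht, hst, rfl⟩ := hx
  rw [Geo_comb _ _ _ _ hst, (Geo_self 0 (v i) (v (i + 1))).1, (Geo_self 0 (v i) (v (i + 1))).2]
  ring

/-- Two vectors orthogonal (for `cross`) to the same nonzero vector are proportional. -/
theorem Geo_param {u x z w p : ℝ × ℝ} (hu : 0 < cross u p) (hzx : z ≠ x)
    (hz : cross u (z - x) = 0) (hw : cross u (w - x) = 0) :
    ∃ c : ℝ, w = (1 - c) • x + c • z := by
  simp only [cross, Prod.fst_sub, Prod.snd_sub] at hu hz hw
  have h1 : (z.1 - x.1) * (w.2 - x.2) = (z.2 - x.2) * (w.1 - x.1) := by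
    by_cases h0 : u.1 = 0
    · have h2 : u.2 ≠ 0 := by
        intro h
        rw [h0, h] at hu
        simp at hu
      apply mul_left_cancel₀ h2
      linear_combination (w.2 - x.2) * (-hz) - (z.2 - x.2) * (-hw)
    · apply mul_left_cancel₀ h0
      linear_combination (z.1 - x.1) * hw - (w.1 - x.1) * hz
  by_cases h2 : z.1 - x.1 = 0
  · have h3 : z.2 - x.2 ≠ 0 := by
      intro h
      exact hzx (Prod.ext (by linarith) (by linarith))
    refine ⟨(w.2 - x.2) / (z.2 - x.2), ?_⟩
    have h4 : w.1 - x.1 = 0 := by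
      rw [h2, zero_mul] at h1
      exact (mul_eq_zero.1 h1.symm).resolve_left h3
    ext
    · simp only [Prod.fst_add, Prod.smul_fst, smul_eq_mul]
      have h5 : z.1 = x.1 := by linarith
      rw [h5]
      linarith
    · simp only [Prod.snd_add, Prod.smul_snd, smul_eq_mul]
      field_simp
      ring
  · refine ⟨(w.1 - x.1) / (z.1 - x.1), ?_⟩
    ext
    · simp only [Prod.fst_add, Prod.smul_fst, smul_eq_mul]
      field_simp
      ring
    · simp only [Prod.snd_add, Prod.smul_snd, smul_eq_mul]
      field_simp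
      linarith

/-- The billiard step between points in the relative interiors of sides.

Proof. `x` is not on the closed side `i` by `open_side_pos` and `segment_zero`; `z ≠ x` by
`open_side_pos` (for the side `j`, `x` is on its line and `z` is not). Let `w` be a boundary point
with `cross (v (i+1) - v i) (w - x) = 0`. As `v (i+1) - v i ≠ 0` (it has positive cross product
with something), `w = x + c • (z - x)` for a real `c` (the points `x, z, w` are on one line parallel
to the side `i`, `z ≠ x`). Let `f_l` be the function of the side `l`.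
If `c < 0`: `f_j (w) = c * f_j(z) < 0` (as `f_j x = 0`, `f_j z > 0`), contradiction with
`bdry_nonneg`. If `c > 1`: `f_k (w) = (1 - c) * f_k (x) < 0`, contradiction. If `0 < c < 1`: `w` is
on a closed side `l`, `0 = f_l w = (1-c) f_l x + c f_l z`, hence `f_l x = f_l z = 0`, hence `l = j`
and `l = k` by `open_side_pos`, contradiction. So `c = 0` or `c = 1`. -/
theorem step_of (hv : IsConvexPolygon v) {i j k : ZMod n} (hij : i ≠ j) (hjk : j ≠ k)
    {x y z : ℝ × ℝ} (hx : x ∈ openSegment ℝ (v j) (v (j + 1)))
    (hy : y ∈ openSegment ℝ (v i) (v (i + 1))) (hz : z ∈ openSegment ℝ (v k) (v (k + 1)))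
    (hc : cross (v (i + 1) - v i) (z - x) = 0) : Step v x y z := by
  have hxs : x ∈ segment ℝ (v j) (v (j + 1)) := openSegment_subset_segment _ _ _ hx
  have hzs : z ∈ segment ℝ (v k) (v (k + 1)) := openSegment_subset_segment _ _ _ hz
  have hxb : x ∈ bdry v := Set.mem_iUnion.2 ⟨j, hxs⟩
  have hzb : z ∈ bdry v := Set.mem_iUnion.2 ⟨k, hzs⟩
  have hix := open_side_pos hv hij hx
  have hjz := open_side_pos hv hjk hz
  have hkx := open_side_pos hv (Ne.symm hjk) hx
  have hjx := segment_zero (v := v) hxs
  have hkz := segment_zero (v := v) hzs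
  have hzx : z ≠ x := by
    intro h
    rw [h, hjx] at hjz
    exact lt_irrefl _ hjz
  refine ⟨i, hy, hxb, ?_, hzx, ?_⟩
  · intro h
    rw [segment_zero h] at hix
    exact lt_irrefl _ hix
  · ext w
    constructor
    · rintro ⟨hwb, hw⟩
      obtain ⟨c, hcw⟩ := Geo_param hix hzx hc hw
      have hf : ∀ l : ZMod n, cross (v (l + 1) - v l) (w - v l) =
          (1 - c) * cross (v (l + 1) - v l) (x - v l) +
            c * cross (v (l + 1) - v l) (z - v l) := by
        intro l
        rw [hcw]
        exact Geo_comb _ _ _ _ (by ring)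
      have h1 := bdry_nonneg hv j hwb
      rw [hf, hjx, mul_zero, zero_add] at h1
      have hc0 : 0 ≤ c := nonneg_of_mul_nonneg_left h1 hjz
      have h2 := bdry_nonneg hv k hwb
      rw [hf, hkz, mul_zero, add_zero] at h2
      have hc1 : 0 ≤ 1 - c := nonneg_of_mul_nonneg_left h2 hkx
      rcases hc0.eq_or_lt with h3 | h3
      · left
        rw [hcw, ← h3]
        simp
      rcases hc1.eq_or_lt with h4 | h4
      · right
        have h5 : c = 1 := by linarith
        rw [hcw, h5]
        simp
      exfalso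
      obtain ⟨l, hl⟩ := Set.mem_iUnion.1 hwb
      have h5 := segment_zero hl
      rw [hf] at h5
      have h6 := mul_nonneg h4.le (bdry_nonneg hv l hxb)
      have h7 := mul_nonneg h3.le (bdry_nonneg hv l hzb)
      have h8 : (1 - c) * cross (v (l + 1) - v l) (x - v l) = 0 := by linarith
      have h9 : c * cross (v (l + 1) - v l) (z - v l) = 0 := by linarith
      have h10 : l = j := by
        by_contra hne
        have := mul_pos h4 (open_side_pos hv hne hx)
        linarith
      have h11 : l = k := by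
        by_contra hne
        have := mul_pos h3 (open_side_pos hv hne hz)
        linarith
      exact hjk (h10.symm.trans h11)
    · intro hw
      rcases hw with hw | hw
      · rw [hw]
        refine ⟨hxb, ?_⟩
        simp [cross]
      · have hw' : w = z := hw
        rw [hw']
        exact ⟨hzb, hc⟩

/-- The billiard map is a function. (The side of `y` is unique by `open_side_pos`, and a two element
set determines its second element.) -/
theorem step_det (hv : IsConvexPolygon v) {x y z z' : ℝ × ℝ} (h : Step v x y z)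
    (h' : Step v x y z') : z = z' := by
  obtain ⟨i, hy, hxb, hxs, hzx, hset⟩ := h
  obtain ⟨i', hy', hxb', hxs', hzx', hset'⟩ := h'
  have hii : i = i' := by
    by_contra hne
    have h1 := open_side_pos hv hne hy'
    rw [segment_zero (openSegment_subset_segment _ _ _ hy)] at h1
    exact lt_irrefl _ h1
  subst hii
  have h2 : z ∈ ({x, z'} : Set (ℝ × ℝ)) := by
    rw [← hset', hset]
    exact Or.inr rfl
  rcases h2 with h2 | h2
  · exact absurd h2 hzx
  · exact h2

end SympB
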