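import Pool.Agent.W_93b186_h44.Geo

/-!
# Orbits through chains of billiard steps; periodic orbits visit finitely many pairs
-/

namespace SympB.Quad

open SympB

/-- An orbit inside a set `P` of pairs in which every pair has a successor and a predecessor. -/
theorem OrbitA_exists {α : Type*} (S : α → α → α → Prop) (P : Set (α × α))
    (hf : ∀ q ∈ P, ∃ c, S q.1 q.2 c ∧ (q.2, c) ∈ P)
    (hb : ∀ q ∈ P, ∃ a, S a q.1 q.2 ∧ (a, q.1) ∈ P) (p : α × α) (hp : p ∈ P) :
    ∃ x : ℤ → α, (x 0, x 1) = p ∧ ∀ k, S (x k) (x (k + 1)) (x (k + 2)) := by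
  choose c hc1 hc2 using fun q : P => hf q.1 q.2
  choose a ha1 ha2 using fun q : P => hb q.1 q.2
  let f : P → P := fun q => ⟨(q.1.2, c q), hc2 q⟩
  let g : P → P := fun q => ⟨(a q, q.1.1), ha2 q⟩
  let y : ℤ → P := fun k =>
    match k with
    | Int.ofNat n => f^[n] ⟨p, hp⟩
    | Int.negSucc n => g^[n + 1] ⟨p, hp⟩
  have hy : ∀ k : ℤ, (y k).1.2 = (y (k + 1)).1.1 ∧ S (y k).1.1 (y k).1.2 (y (k + 1)).1.2 := by
    intro k
    match k with
    | Int.ofNat n =>
      have h1 : y (Int.ofNat n + 1) = f (y (Int.ofNat n)) := by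
        change f^[n + 1] ⟨p, hp⟩ = f (f^[n] ⟨p, hp⟩)
        exact Function.iterate_succ_apply' f n _
      rw [h1]
      exact ⟨rfl, hc1 _⟩
    | Int.negSucc 0 =>
      have h1 : y (Int.negSucc 0) = g (y (Int.negSucc 0 + 1)) := rfl
      rw [h1]
      exact ⟨rfl, ha1 _⟩
    | Int.negSucc (n + 1) =>
      have h1 : y (Int.negSucc (n + 1)) = g (y (Int.negSucc (n + 1) + 1)) := by
        have h2 : Int.negSucc (n + 1) + 1 = Int.negSucc n := by
          rw [Int.negSucc_eq, Int.negSucc_eq]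
          push_cast
          ring
        rw [h2]
        change g^[n + 1 + 1] ⟨p, hp⟩ = g (g^[n + 1] ⟨p, hp⟩)
        exact Function.iterate_succ_apply' g (n + 1) _
      rw [h1]
      exact ⟨rfl, ha1 _⟩
  refine ⟨fun k => (y k).1.1, ?_, ?_⟩
  · have h0 := (hy 0).1
    have h1 : (y 0).1 = p := rfl
    rw [h1, zero_add] at h0
    change ((y 0).1.1, (y 1).1.1) = p
    rw [← h0, h1]
  · intro k
    have h0 := (hy k)
    have h1 := (hy (k + 1)).1
    rw [show k + 1 + 1 = k + 2 by ring] at h1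
    change S (y k).1.1 (y (k + 1)).1.1 (y (k + 2)).1.1
    rw [← h1, ← h0.1]
    exact h0.2

/-- General lemma. Let `st : ℤ → (ℝ×ℝ)×(ℝ×ℝ)` be pairs such that for every `k` there is a chain of
`m k > 0` billiard steps from `st k` to `st (k+1)`. Then there is an orbit defined for all times
which starts with `st 0` and passes through all `st k`, `k ≥ 0`.

Proof. Let `P` be the set of all pairs `(x j, x (j+1))`, `0 ≤ j < m`, of these chains
(for all `k`; for each `k` choose a chain). Every pair `(a,b) ∈ P` has a `c` with `Step v a b c` and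
`(b,c) ∈ P` (the next pair of the chain, or `st (k+1)`, which is the first pair of the next chain),
and every `(b,c) ∈ P` has an `a` with `Step v a b c` and `(a,b) ∈ P`. Iterate the two choice
functions on the subtype `P` to obtain the orbit on `ℤ` (`x (n : ℕ) = (f^[n] p).1`,
`x (-(n+1)) = (g^[n+1] p).1`). By `step_det` the forward half of the orbit is determined, so it
passes through all pairs of the chains. -/
theorem exists_orbit {n : ℕ} {v : ZMod n → ℝ × ℝ} (hv : IsConvexPolygon v)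
    (st : ℤ → (ℝ × ℝ) × (ℝ × ℝ))
    (hst : ∀ k : ℤ, ∃ (m : ℕ) (x : ℕ → ℝ × ℝ), 0 < m ∧ (x 0, x 1) = st k ∧
      (x m, x (m + 1)) = st (k + 1) ∧ ∀ j < m, Step v (x j) (x (j + 1)) (x (j + 2))) :
    ∃ x : ℤ → ℝ × ℝ, IsOrbit v x ∧
      ∀ k : ℕ, ∃ m : ℕ, (x m, x (m + 1)) = st k := by
  choose M X hM h0 h1 hstep using hst
  let P : Set ((ℝ × ℝ) × (ℝ × ℝ)) := {q | ∃ k : ℤ, ∃ j < M k, (X k j, X k (j + 1)) = q}
  have hf : ∀ q ∈ P, ∃ c, Step v q.1 q.2 c ∧ (q.2, c) ∈ P := by
    rintro q ⟨k, j, hj, rfl⟩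
    refine ⟨X k (j + 2), hstep k j hj, ?_⟩
    rcases Nat.lt_or_ge (j + 1) (M k) with h | h
    · exact ⟨k, j + 1, h, rfl⟩
    · have h2 : j + 1 = M k := by omega
      refine ⟨k + 1, 0, hM (k + 1), ?_⟩
      rw [zero_add, h0 (k + 1), ← h1 k, ← h2]
  have hb : ∀ q ∈ P, ∃ a, Step v a q.1 q.2 ∧ (a, q.1) ∈ P := by
    rintro q ⟨k, j, hj, rfl⟩
    rcases Nat.eq_zero_or_pos j with h | h
    · subst h
      have h2 := h1 (k - 1)
      have h3 := hM (k - 1)
      obtain ⟨j', hj'⟩ : ∃ j', M (k - 1) = j' + 1 := ⟨M (k - 1) - 1, by omega⟩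
      rw [sub_add_cancel, ← h0 k, hj'] at h2
      have h4 : X (k - 1) (j' + 1) = X k 0 := congrArg Prod.fst h2
      have h5 : X (k - 1) (j' + 2) = X k 1 := congrArg Prod.snd h2
      have h6 : j' < M (k - 1) := by omega
      refine ⟨X (k - 1) j', ?_, k - 1, j', h6, ?_⟩
      · have h7 := hstep (k - 1) j' h6
        rw [h4, h5] at h7
        exact h7
      · rw [h4]
    · obtain ⟨j', rfl⟩ : ∃ j', j = j' + 1 := ⟨j - 1, by omega⟩
      exact ⟨X k j', hstep k j' (by omega), k, j', by omega, rfl⟩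
  obtain ⟨x, hx0, hx⟩ := OrbitA_exists (Step v) P hf hb (st 0) ⟨0, 0, hM 0, h0 0⟩
  refine ⟨x, hx, ?_⟩
  intro k
  induction k with
  | zero => exact ⟨0, by simpa using hx0⟩
  | succ k ih =>
    obtain ⟨m, hm⟩ := ih
    have key : ∀ j : ℕ, j ≤ M k → (x ((m + j : ℕ) : ℤ), x (((m + j : ℕ) : ℤ) + 1)) =
        (X k j, X k (j + 1)) := by
      intro j
      induction j with
      | zero => intro _; rw [add_zero, hm, ← h0 k]
      | succ j ihj =>
        intro hj
        have h2 := ihj (by omega)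
        have h3 : x ((m + j : ℕ) : ℤ) = X k j := congrArg Prod.fst h2
        have h4 : x (((m + j : ℕ) : ℤ) + 1) = X k (j + 1) := congrArg Prod.snd h2
        have h5 := hx ((m + j : ℕ) : ℤ)
        rw [h3, h4] at h5
        have h6 := step_det hv h5 (hstep k j (by omega))
        have h7 : ((m + (j + 1) : ℕ) : ℤ) = ((m + j : ℕ) : ℤ) + 1 := by push_cast; ring
        rw [h7, h4, show ((m + j : ℕ) : ℤ) + 1 + 1 = ((m + j : ℕ) : ℤ) + 2 by ring, h6]
    refine ⟨m + M k, ?_⟩
    rw [key (M k) le_rfl, h1 k]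
    push_cast
    rfl

/-- A periodic orbit visits only finitely many pairs.

Proof. If `x m = x 0`, `x (m+1) = x 1`, `m ≥ 1`, then `x (k + m) = x k` for all `k ≥ 0` by induction
with `step_det`; so all pairs `(x k, x (k+1))`, `k ≥ 0`, are among those with `k < m`. -/
theorem finite_of_periodic {n : ℕ} {v : ZMod n → ℝ × ℝ} (hv : IsConvexPolygon v)
    {x : ℤ → ℝ × ℝ} (hx : IsOrbit v x) {m : ℕ} (hm : 1 ≤ m) (h0 : x m = x 0)
    (h1 : x (m + 1) = x 1) :
    {q : (ℝ × ℝ) × (ℝ × ℝ) | ∃ k : ℕ, (x k, x (k + 1)) = q}.Finite := by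
  have key : ∀ k : ℕ, x ((k : ℤ) + m) = x k ∧ x ((k : ℤ) + m + 1) = x ((k : ℤ) + 1) := by
    intro k
    induction k with
    | zero =>
      refine ⟨?_, ?_⟩
      · rw [Nat.cast_zero, zero_add]; exact h0
      · rw [Nat.cast_zero, zero_add, zero_add]; exact h1
    | succ k ih =>
      obtain ⟨h2, h3⟩ := ih
      have h4 := hx ((k : ℤ) + m)
      rw [h2, h3] at h4
      have h5 := step_det hv h4 (hx k)
      push_cast
      refine ⟨?_, ?_⟩
      · rw [← h3]; congr 1; ring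
      · rw [show (k : ℤ) + 1 + m + 1 = (k : ℤ) + m + 2 by ring, h5,
          show (k : ℤ) + 1 + 1 = (k : ℤ) + 2 by ring]
  refine Set.Finite.subset ((Set.finite_lt_nat m).image (fun k : ℕ => (x k, x (k + 1)))) ?_
  rintro q ⟨k, rfl⟩
  induction k using Nat.strong_induction_on with
  | _ k ih =>
    rcases Nat.lt_or_ge k m with h | h
    · exact ⟨k, h, rfl⟩
    · obtain ⟨k', rfl⟩ : ∃ k', k = k' + m := ⟨k - m, by omega⟩
      have h2 := ih k' (by omega)
      obtain ⟨h3, h4⟩ := key k'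
      push_cast
      rw [h3, h4]
      exact h2

end SympB.Quad
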