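import Pool.Agent.W_93b186_h44.Chain
import Pool.Agent.W_93b186_h44.OrbitA

/-!
# From `HasConn` to the failure of (AP)
-/

namespace SympB.Quad

open SympB

theorem In_of_cell {S T ε : ℝ} {c : Letter} {p : ℝ × ℝ} (h : cell S T ε c p) :
    In ε p.1 ∧ In ε p.2 := by
  cases c <;> exact ⟨h.1, h.2.1⟩

theorem In_of_ok {S T ε : ℝ} {c : Letter} {w : List Letter} {p : ℝ × ℝ}
    (h : ok S T ε (c :: w) p) : In ε p.1 ∧ In ε p.2 :=
  In_of_cell h.1

theorem In_of_ok' {S T ε : ℝ} {w : List Letter} (hw : w ≠ []) {p : ℝ × ℝ}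
    (h : ok S T ε w p) : In ε p.1 ∧ In ε p.2 := by
  rcases w with _ | ⟨c, w⟩
  · exact absurd rfl hw
  · exact In_of_ok h

/-- The words of `HasConn` as chains of billiard steps.

Proof. Induction on the word with `letter_chain`: concatenate chains. The two conditions
`In ε (fl ..).1`, `In ε (fl ..).2` of `letter_chain` hold because the next state satisfies a
`cell` condition (the next letter of the word, or the first letter of the next word — this is
the hypothesis `hend`). -/
theorem word_chain {S T ε : ℝ} (hS : 0 < S) (hT : 0 < T) {n : ℕ} {v : ZMod n → ℝ × ℝ}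
    {idx : Fin 4 → ZMod n} (hv : IsConvexPolygon v) (h : On S T ε v idx) (w : List Letter)
    (hw : w ≠ []) {p : ℝ × ℝ} (hok : ok S T ε w p) (hend : In ε (run S T w p).1 ∧ In ε (run S T w p).2) :
    ∃ (m : ℕ) (x : ℕ → ℝ × ℝ), 0 < m ∧ (x 0, x 1) = pr S T p ∧
      (x m, x (m + 1)) = pr S T (run S T w p) ∧ ∀ j < m, Step v (x j) (x (j + 1)) (x (j + 2)) := by
  induction w generalizing p with
  | nil => exact absurd rfl hw
  | cons c w ih =>
    obtain ⟨hc, hok'⟩ := hok
    rcases w with _ | ⟨c', w'⟩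
    · exact letter_chain hS hT hv h c hc hend.1 hend.2
    · have hin := In_of_ok hok'
      obtain ⟨m1, x1, hm1, h10, h1m, h1s⟩ := letter_chain hS hT hv h c hc hin.1 hin.2
      obtain ⟨m2, x2, hm2, h20, h2m, h2s⟩ := ih (List.cons_ne_nil _ _) hok' hend
      have e := h1m.trans h20.symm
      have e1 : x1 m1 = x2 0 := congrArg Prod.fst e
      have e2 : x1 (m1 + 1) = x2 1 := congrArg Prod.snd e
      refine ⟨m1 + m2, fun j => if j ≤ m1 then x1 j else x2 (j - m1), by omega, ?_, ?_, ?_⟩
      · have a0 : (if (0 : ℕ) ≤ m1 then x1 0 else x2 (0 - m1)) = x1 0 := if_pos (by omega)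
        have a1 : (if (1 : ℕ) ≤ m1 then x1 1 else x2 (1 - m1)) = x1 1 := if_pos (by omega)
        simp only [a0, a1]
        exact h10
      · have a0 : (if m1 + m2 ≤ m1 then x1 (m1 + m2) else x2 (m1 + m2 - m1)) = x2 m2 := by
          rw [if_neg (by omega)]
          congr 1
          omega
        have a1 : (if m1 + m2 + 1 ≤ m1 then x1 (m1 + m2 + 1) else x2 (m1 + m2 + 1 - m1)) =
            x2 (m2 + 1) := by
          rw [if_neg (by omega)]
          congr 1
          omega
        simp only [a0, a1]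
        exact h2m
      · intro j hj
        have key : ∀ i, m1 ≤ i → (if i ≤ m1 then x1 i else x2 (i - m1)) = x2 (i - m1) := by
          intro i hi
          rcases eq_or_lt_of_le hi with h3 | h3
          · subst h3
            rw [if_pos le_rfl, Nat.sub_self]
            exact e1
          · rw [if_neg (by omega)]
        have key1 : ∀ i, i ≤ m1 + 1 → (if i ≤ m1 then x1 i else x2 (i - m1)) = x1 i := by
          intro i hi
          rcases eq_or_lt_of_le hi with h3 | h3
          · subst h3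
            rw [if_neg (by omega), e2]
            congr 1
            omega
          · rw [if_pos (by omega)]
        by_cases hjm : j < m1
        · simp only [key1 j (by omega), key1 (j + 1) (by omega), key1 (j + 2) (by omega)]
          exact h1s j hjm
        · simp only [key j (by omega), key (j + 1) (by omega), key (j + 2) (by omega)]
          have h4 := h2s (j - m1) (by omega)
          have b1 : j - m1 + 1 = j + 1 - m1 := by omega
          have b2 : j - m1 + 2 = j + 2 - m1 := by omega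
          rw [b1, b2] at h4
          exact h4

/-- Proof. Combine `on_of_trimmed`, `word_chain`, `exists_orbit`, `finite_of_periodic`,
`pr_injective`. (`ε < 1/2` because some `In ε x` holds.) -/
theorem not_ap_of_hasConn {S T : ℝ} (hS : 0 < S) (hT : 0 < T) (h : HasConn S T) :
    ∃ ε : ℝ, 0 < ε ∧ ε < 1 / 2 ∧ ∀ (n : ℕ) (v : ZMod n → ℝ × ℝ), IsConvexPolygon v →
      ContainsTrimmedSides (S + 1) (T + 1) ε v → ¬ AP v := by
  obtain ⟨ε, hε, w, p, hp, hinf⟩ := h
  have hin : ∀ k, In ε (p k).1 ∧ In ε (p k).2 := fun k => In_of_ok' (hp k).1 (hp k).2.1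
  have hε2 : ε < 1 / 2 := by
    have h0 := (hin 0).1
    linarith [h0.1, h0.2]
  refine ⟨ε, hε, hε2, ?_⟩
  intro n v hv hcont hAP
  obtain ⟨idx, hon⟩ := on_of_trimmed hS hT hε hε2 hv hcont
  obtain ⟨x, hx, hxst⟩ := exists_orbit hv (fun k => pr S T (p k)) (fun k => by
    have h1 := hp k
    have h2 := hin (k + 1)
    rw [← h1.2.2] at h2
    obtain ⟨m, x, hm, h0, hm1, hs⟩ := word_chain hS hT hv hon (w k) h1.1 h1.2.1 h2
    refine ⟨m, x, hm, h0, ?_, hs⟩
    rw [hm1, h1.2.2])
  obtain ⟨m, hm, h0, h1⟩ := hAP x hx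
  have hfin := finite_of_periodic hv hx hm h0 h1
  apply hinf
  have hsub : (pr S T) '' {x | ∃ k : ℤ, 0 ≤ k ∧ p k = x} ⊆
      {q : (ℝ × ℝ) × (ℝ × ℝ) | ∃ k : ℕ, (x k, x (k + 1)) = q} := by
    rintro q ⟨y, ⟨k, hk, rfl⟩, rfl⟩
    obtain ⟨k, rfl⟩ := Int.eq_ofNat_of_zero_le hk
    obtain ⟨m, hm⟩ := hxst k
    exact ⟨m, hm⟩
  exact Set.Finite.of_finite_image (hfin.subset hsub) (pr_injective hS hT).injOn

end SympB.Quad
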