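import Pool.Agent.W_93b186_h44.NF
import Pool.Agent.W_93b186_h44.Orbit
import Pool.Agent.W_93b186_h44.Conn

/-!
# Assembly
-/

namespace SympB

open SympB.Quad

/-- All parameters outside `K` (proved in `Region.lean` from the eight families). -/
def Covered : Prop := ∀ s t : ℝ, 1 < s → s ≤ t → ¬ InK s t → HasConn (s - 1) (t - 1)

theorem main_polygons (h : Covered) : ∀ s t : ℝ, 1 < s → s ≤ t → ¬ InK s t →
    ∃ ε : ℝ, 0 < ε ∧ ε < 1 / 2 ∧ ∀ (n : ℕ) (v : ZMod n → ℝ × ℝ), IsConvexPolygon v →
      ContainsTrimmedSides s t ε v → ¬ AP v := by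
  intro s t hs hst hK
  have h1 := not_ap_of_hasConn (S := s - 1) (T := t - 1) (by linarith) (by linarith)
    (h s t hs hst hK)
  rw [sub_add_cancel, sub_add_cancel] at h1
  exact h1

theorem main_quadrilaterals (h : Covered) (v : ZMod 4 → ℝ × ℝ) (hv : IsConvexPolygon v)
    (hap : AP v) : IsTrapezoid v ∨ ∃ s t : ℝ, 1 < s ∧ 1 < t ∧ AffinelyEquivalent v (quadV s t) ∧
      InK (min s t) (max s t) := by
  by_cases ht : IsTrapezoid v
  · exact Or.inl ht
  · right
    obtain ⟨s, t, hs, ht1, hΦ⟩ := normal_form v hv ht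
    refine ⟨s, t, hs, ht1, hΦ, ?_⟩
    obtain ⟨Φ, k, hk⟩ := hΦ
    have h1 : AP (quadV s t) := by
      rw [← ap_affine Φ]
      have h2 : AP (fun i => v (i + k)) := (ap_shift v k).2 hap
      have h3 : (fun i => v (i + k)) = fun i => Φ (quadV s t i) := funext hk
      rwa [h3] at h2
    have h2 : AP (quadV (min s t) (max s t)) := by
      rcases le_total s t with hst | hst
      · rw [min_eq_left hst, max_eq_right hst]
        exact h1
      · rw [min_eq_right hst, max_eq_left hst]
        exact (ap_mirror s t).1 h1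
    by_contra hK
    obtain ⟨ε, hε, hε2, h3⟩ := main_polygons h (min s t) (max s t) (lt_min hs ht1)
      min_le_max hK
    exact h3 4 (quadV (min s t) (max s t))
      (quadV_convex (lt_min hs ht1) (lt_of_lt_of_le hs (le_max_left _ _)))
      (quadV_trimmed hε hε2) h2

end SympB
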