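import Pool.Agent.W_93b186_h44.QDefs

/-!
# Normal form of a convex quadrilateral which is not a trapezoid
-/

namespace SympB

/-- the affine map `(x,y) ↦ w + x e + y f` -/
noncomputable def NFB_aff (e f w : ℝ × ℝ) (h : cross e f ≠ 0) : (ℝ × ℝ) ≃ᵃ[ℝ] (ℝ × ℝ) :=
  (({ toFun := fun z => z.1 • e + z.2 • f
      map_add' := fun x y => by
        apply Prod.ext <;> simp <;> ring
      map_smul' := fun c x => by
        apply Prod.ext <;> simp <;> ring
      invFun := fun u => (cross u f / cross e f, cross e u / cross e f)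
      left_inv := fun z => by
        have h' := h
        simp only [cross] at h'
        apply Prod.ext
        · simp only [cross, Prod.fst_add, Prod.smul_fst, Prod.snd_add, Prod.smul_snd, smul_eq_mul]
          rw [div_eq_iff h']
          ring
        · simp only [cross, Prod.fst_add, Prod.smul_fst, Prod.snd_add, Prod.smul_snd, smul_eq_mul]
          rw [div_eq_iff h']
          ring
      right_inv := fun u => by
        have h' := h
        simp only [cross] at h'
        apply Prod.ext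
        · simp only [cross, Prod.fst_add, Prod.smul_fst, smul_eq_mul]
          rw [div_mul_eq_mul_div, div_mul_eq_mul_div, ← add_div, div_eq_iff h']
          ring
        · simp only [cross, Prod.snd_add, Prod.smul_snd, smul_eq_mul]
          rw [div_mul_eq_mul_div, div_mul_eq_mul_div, ← add_div, div_eq_iff h']
          ring } : (ℝ × ℝ) ≃ₗ[ℝ] (ℝ × ℝ)).toAffineEquiv).trans (AffineEquiv.constVAdd ℝ (ℝ × ℝ) w)

theorem NFB_aff_apply (e f w : ℝ × ℝ) (h : cross e f ≠ 0) (z : ℝ × ℝ) :
    NFB_aff e f w h z = w + (z.1 • e + z.2 • f) := rfl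

theorem NFB_zmod4 : ∀ i : ZMod 4, i = 0 ∨ i = 1 ∨ i = 2 ∨ i = 3 := by decide

/-- The affine map `Φ` with `Φ (0,0) = w0`, `Φ (1,0) = w1`, `Φ (0,1) = w3` satisfies
`Φ (s,t) = w2`. -/
theorem NFB_core {w0 w1 w2 w3 : ℝ × ℝ} (h0 : 0 < cross (w1 - w0) (w3 - w0))
    (h1 : cross (w1 - w0) (w3 - w0) < cross (w1 - w0) (w2 - w0))
    (h3 : cross (w1 - w0) (w3 - w0) < cross (w2 - w0) (w3 - w0)) :
    ∃ (s t : ℝ) (Φ : (ℝ × ℝ) ≃ᵃ[ℝ] (ℝ × ℝ)), 1 < s ∧ 1 < t ∧ w0 = Φ (0, 0) ∧ w1 = Φ (1, 0) ∧
      w2 = Φ (s, t) ∧ w3 = Φ (0, 1) := by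
  have h' := ne_of_gt h0
  refine ⟨cross (w2 - w0) (w3 - w0) / cross (w1 - w0) (w3 - w0),
    cross (w1 - w0) (w2 - w0) / cross (w1 - w0) (w3 - w0), NFB_aff (w1 - w0) (w3 - w0) w0 h',
    (one_lt_div h0).2 h3, (one_lt_div h0).2 h1, ?_, ?_, ?_, ?_⟩
  · rw [NFB_aff_apply]; simp
  · rw [NFB_aff_apply]; simp
  · rw [NFB_aff_apply]
    simp only [cross, Prod.fst_sub, Prod.snd_sub] at h'
    apply Prod.ext
    · simp only [cross, Prod.fst_add, Prod.smul_fst, smul_eq_mul, Prod.fst_sub, Prod.snd_sub]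
      rw [div_mul_eq_mul_div, div_mul_eq_mul_div, ← add_div, ← sub_eq_iff_eq_add', eq_div_iff h']
      ring
    · simp only [cross, Prod.snd_add, Prod.smul_snd, smul_eq_mul, Prod.fst_sub, Prod.snd_sub]
      rw [div_mul_eq_mul_div, div_mul_eq_mul_div, ← add_div, ← sub_eq_iff_eq_add', eq_div_iff h']
      ring
  · rw [NFB_aff_apply]; simp

theorem NFB_normal_form (v : ZMod 4 → ℝ × ℝ) (hv : IsConvexPolygon v) (ht : ¬ IsTrapezoid v) :
    ∃ s t : ℝ, 1 < s ∧ 1 < t ∧ AffinelyEquivalent v (quadV s t) := by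
  have h4 : (4 : ZMod 4) = 0 := rfl
  -- twice the area of the triangle `v (k-1), v k, v (k+1)`
  obtain ⟨k, hk⟩ := Finite.exists_min
    (fun k : ZMod 4 => cross (v (k + 1) - v k) (v (k + 3) - v k))
  have hpos : 0 < cross (v (k + 1) - v k) (v (k + 3) - v k) := by
    refine hv.2 k (k + 3) (fun h => ?_) (fun h => ?_)
    · have h5 : (3 : ZMod 4) = 0 := by simpa using h
      exact absurd h5 (by decide)
    · have h5 : (3 : ZMod 4) = 1 := add_left_cancel h
      exact absurd h5 (by decide)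
  -- parallel sides
  have hpar : ∀ i : ZMod 4, cross (v (i + 1) - v i) (v (i + 3) - v (i + 2)) ≠ 0 := by
    have e1 : cross (v 1 - v 0) (v 3 - v 2) ≠ 0 := fun h => ht (Or.inl h)
    have e2 : cross (v 2 - v 1) (v 0 - v 3) ≠ 0 := fun h => ht (Or.inr h)
    intro i h
    rcases NFB_zmod4 i with rfl | rfl | rfl | rfl
    · exact e1 h
    · exact e2 h
    · refine e1 ?_
      have h6 : cross (v 3 - v 2) (v 1 - v 0) = 0 := h
      simp only [cross] at h6 ⊢
      linarith
    · refine e2 ?_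
      have h6 : cross (v 0 - v 3) (v 2 - v 1) = 0 := h
      simp only [cross] at h6 ⊢
      linarith
  have i1 : k + 1 + 1 = k + 2 := by ring
  have i2 : k + 1 + 3 = k := by
    have : k + 1 + 3 = k + 4 := by ring
    rw [this, h4, add_zero]
  have i3 : k + 3 + 1 = k := by
    have : k + 3 + 1 = k + 4 := by ring
    rw [this, h4, add_zero]
  have i4 : k + 3 + 3 = k + 2 := by
    have : k + 3 + 3 = k + 2 + 4 := by ring
    rw [this, h4, add_zero]
  have i5 : k + 3 + 2 = k + 1 := by
    have : k + 3 + 2 = k + 1 + 4 := by ring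
    rw [this, h4, add_zero]
  have a1 := hk (k + 1)
  have a3 := hk (k + 3)
  have p0 := hpar k
  have p3 := hpar (k + 3)
  beta_reduce at a1 a3
  rw [i1, i2] at a1
  rw [i3, i4] at a3
  rw [i3, i4, i5] at p3
  obtain ⟨s, t, Φ, hs, ht1, q0, q1, q2, q3⟩ := NFB_core (w0 := v k) (w1 := v (k + 1))
    (w2 := v (k + 2)) (w3 := v (k + 3)) hpos
    (by
      refine lt_of_le_of_ne ?_ ?_
      · refine a1.trans (le_of_eq ?_)
        simp only [cross, Prod.fst_sub, Prod.snd_sub]
        ring
      · intro h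
        apply p0
        simp only [cross, Prod.fst_sub, Prod.snd_sub] at h ⊢
        linarith)
    (by
      refine lt_of_le_of_ne ?_ ?_
      · refine a3.trans (le_of_eq ?_)
        simp only [cross, Prod.fst_sub, Prod.snd_sub]
        ring
      · intro h
        apply p3
        simp only [cross, Prod.fst_sub, Prod.snd_sub] at h ⊢
        linarith)
  refine ⟨s, t, hs, ht1, Φ, k, fun i => ?_⟩
  rcases NFB_zmod4 i with rfl | rfl | rfl | rfl
  · rw [zero_add]; exact q0
  · rw [add_comm]; exact q1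
  · rw [add_comm]; exact q2
  · rw [add_comm]; exact q3

end SympB
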