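import Pool.Agent.W_93b186_h44.QDefs
import Pool.Agent.W_MP_93b186_an_helper62.Aff
import Pool.Agent.W_93b186_h44.NFB

/-!
# Normal form of quadrilaterals, mirror images
-/

namespace SympB

theorem NF_bdry_reverse {n : ℕ} (v : ZMod n → ℝ × ℝ) : bdry (fun i => v (-i)) = bdry v := by
  ext z
  simp only [bdry, Set.mem_iUnion]
  constructor
  · rintro ⟨i, hi⟩
    refine ⟨-(i + 1), ?_⟩
    rw [segment_symm, show -(i + 1) + 1 = -i by ring]
    exact hi
  · rintro ⟨i, hi⟩
    refine ⟨-(i + 1), ?_⟩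
    rw [neg_neg, show -(-(i + 1) + 1) = i by ring, segment_symm]
    exact hi

theorem NF_cross_neg (a b w : ℝ × ℝ) : cross (a - b) w = 0 ↔ cross (b - a) w = 0 := by
  have h : cross (a - b) w = -cross (b - a) w := by
    simp only [cross, Prod.fst_sub, Prod.snd_sub]
    ring
  rw [h, neg_eq_zero]

theorem NF_step_reverse {n : ℕ} (v : ZMod n → ℝ × ℝ) (x y z : ℝ × ℝ) :
    Step (fun i => v (-i)) x y z ↔ Step v x y z := by
  unfold Step
  rw [NF_bdry_reverse]
  constructor
  · rintro ⟨i, h1, h2, h3, h4, h5⟩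
    refine ⟨-(i + 1), ?_, h2, ?_, h4, ?_⟩
    · rw [openSegment_symm, show -(i + 1) + 1 = -i by ring]
      exact h1
    · rw [segment_symm, show -(i + 1) + 1 = -i by ring]
      exact h3
    · rw [← h5]
      ext w
      simp only [Set.mem_ofPred_eq]
      rw [show -(i + 1) + 1 = -i by ring, NF_cross_neg]
  · rintro ⟨i, h1, h2, h3, h4, h5⟩
    refine ⟨-(i + 1), ?_, h2, ?_, h4, ?_⟩
    · beta_reduce
      rw [neg_neg, show -(-(i + 1) + 1) = i by ring, openSegment_symm]
      exact h1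
    · beta_reduce
      rw [neg_neg, show -(-(i + 1) + 1) = i by ring, segment_symm]
      exact h3
    · rw [← h5]
      ext w
      simp only [Set.mem_ofPred_eq]
      rw [neg_neg, show -(-(i + 1) + 1) = i by ring, NF_cross_neg]

/-- Reversing the order of the vertices does not change (AP). (`bdry` and `Step` are unchanged: the
side `i` of `fun i => v (-i)` is the side `-i-1` of `v`, with the opposite direction.) -/
theorem ap_reverse {n : ℕ} (v : ZMod n → ℝ × ℝ) : AP (fun i => v (-i)) ↔ AP v := by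
  unfold AP IsOrbit
  simp only [NF_step_reverse]

/-- `Q(t,s)` is the image of `Q(s,t)` under `(x,y) ↦ (y,x)`, with reversed order of the vertices;
use `ap_affine` (file `Aff.lean` of helper62) and `ap_reverse`. -/
theorem ap_mirror (s t : ℝ) : AP (quadV s t) ↔ AP (quadV t s) := by
  have h : quadV t s = fun i => (LinearEquiv.prodComm ℝ ℝ ℝ).toAffineEquiv (quadV s t (-i)) := by
    funext i
    have hi : ∀ i : ZMod 4, i = 0 ∨ i = 1 ∨ i = 2 ∨ i = 3 := by decide
    rcases hi i with rfl | rfl | rfl | rfl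
    · rfl
    · rfl
    · rfl
    · rfl
  rw [h]
  rw [ap_affine (LinearEquiv.prodComm ℝ ℝ ℝ).toAffineEquiv (fun i => quadV s t (-i)), ap_reverse]

theorem quadV_convex {s t : ℝ} (hs : 1 < s) (ht : 1 < t) : IsConvexPolygon (quadV s t) := by
  refine ⟨by norm_num, ?_⟩
  have e0 : quadV s t 0 = (0, 0) := rfl
  have e1 : quadV s t 1 = (1, 0) := rfl
  have e2 : quadV s t 2 = (s, t) := rfl
  have e3 : quadV s t 3 = (0, 1) := rfl
  have a0 : (0 : ZMod 4) + 1 = 1 := by decide
  have a1 : (1 : ZMod 4) + 1 = 2 := by decide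
  have a2 : (2 : ZMod 4) + 1 = 3 := by decide
  have a3 : (3 : ZMod 4) + 1 = 0 := by decide
  have hi : ∀ i : ZMod 4, i = 0 ∨ i = 1 ∨ i = 2 ∨ i = 3 := by decide
  intro i j h1 h2
  rcases hi i with rfl | rfl | rfl | rfl
  · rcases hi j with rfl | rfl | rfl | rfl
    · exact absurd rfl h1
    · exact absurd a0.symm h2
    · rw [a0, e0, e1, e2]; simp [cross]; linarith
    · rw [a0, e0, e1, e3]; simp [cross]
  · rcases hi j with rfl | rfl | rfl | rfl
    · rw [a1, e0, e1, e2]; simp [cross]; linarith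
    · exact absurd rfl h1
    · exact absurd a1.symm h2
    · rw [a1, e1, e2, e3]; simp [cross]; linarith
  · rcases hi j with rfl | rfl | rfl | rfl
    · rw [a2, e0, e2, e3]; simp only [cross, Prod.fst_sub, Prod.snd_sub]; nlinarith
    · rw [a2, e1, e2, e3]; simp only [cross, Prod.fst_sub, Prod.snd_sub]; nlinarith
    · exact absurd rfl h1
    · exact absurd a2.symm h2
  · rcases hi j with rfl | rfl | rfl | rfl
    · exact absurd a3.symm h2
    · rw [a3, e0, e1, e3]; simp [cross]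
    · rw [a3, e0, e2, e3]; simp [cross]; linarith
    · exact absurd rfl h1

theorem quadV_trimmed {s t ε : ℝ} (hε : 0 < ε) (hε2 : ε < 1 / 2) :
    ContainsTrimmedSides s t ε (quadV s t) := by
  have e0 : quadV s t 0 = (0, 0) := rfl
  have e1 : quadV s t 1 = (1, 0) := rfl
  have e2 : quadV s t 2 = (s, t) := rfl
  have e3 : quadV s t 3 = (0, 1) := rfl
  have a0 : (0 : ZMod 4) + 1 = 1 := by decide
  have a1 : (1 : ZMod 4) + 1 = 2 := by decide
  have a2 : (2 : ZMod 4) + 1 = 3 := by decide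
  have a3 : (3 : ZMod 4) + 1 = 0 := by decide
  have _ := hε2
  intro j
  fin_cases j
  · refine ⟨0, fun u hu1 hu2 => ?_⟩
    rw [a0, e0, e1]
    refine ⟨1 - u, u, by linarith, by linarith, by ring, ?_⟩
    ext <;> simp [quadL]
  · refine ⟨1, fun u hu1 hu2 => ?_⟩
    rw [a1, e1, e2]
    refine ⟨1 - u, u, by linarith, by linarith, by ring, ?_⟩
    ext
    · simp [quadL]; ring
    · simp [quadL]; ring
  · refine ⟨2, fun u hu1 hu2 => ?_⟩
    rw [a2, e2, e3]
    refine ⟨u, 1 - u, by linarith, by linarith, by ring, ?_⟩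
    ext
    · simp [quadL]; ring
    · simp [quadL]; ring
  · refine ⟨3, fun u hu1 hu2 => ?_⟩
    rw [a3, e3, e0]
    refine ⟨u, 1 - u, by linarith, by linarith, by ring, ?_⟩
    ext <;> simp [quadL]

/-- Proof. Let `A_i = cross (v i - v (i-1)) (v (i+1) - v (i-1)) > 0` be twice the area of the triangle
`v (i-1), v i, v (i+1)`. Then `A_0 + A_2 = A_1 + A_3`. The sides `v0 v1` and `v2 v3` are parallel iff
`A_0 = A_1`, the sides `v1 v2` and `v3 v0` are parallel iff `A_1 = A_2`. So in a non-trapezoid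
`A_i ≠ A_(i+1)` for all `i`; choose `k` with `A_k` minimal, then `A_k < A_(k+1)` and `A_k < A_(k-1)`.
The affine map `Φ` with `Φ (0,0) = v k`, `Φ (1,0) = v (k+1)`, `Φ (0,1) = v (k-1)` satisfies
`Φ (s,t) = v (k+2)` for `s = A_(k-1)/A_k`, `t = A_(k+1)/A_k`, and `s, t > 1`. -/
theorem normal_form (v : ZMod 4 → ℝ × ℝ) (hv : IsConvexPolygon v) (ht : ¬ IsTrapezoid v) :
    ∃ s t : ℝ, 1 < s ∧ 1 < t ∧ AffinelyEquivalent v (quadV s t) :=
  NFB_normal_form v hv ht

end SympB
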