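import Pool.Agent.W_MP_93b186_an_helper62.Defs

/-!
# Convex quadrilaterals: definitions for the statement

Every convex quadrilateral which is not a trapezoid is affinely equivalent to exactly one of the
quadrilaterals `Q(s,t) = (0,0), (1,0), (s,t), (0,1)` with `1 < s`, `1 < t`, up to the exchange of
`s` and `t` (which corresponds to a reflection).
-/

namespace SympB

/-- The quadrilateral `Q(s,t)` with vertices `(0,0), (1,0), (s,t), (0,1)`. -/
def quadV (s t : ℝ) : ZMod 4 → ℝ × ℝ :=
  (![(0, 0), (1, 0), (s, t), (0, 1)] : Fin 4 → ℝ × ℝ)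

/-- The quadrilateral has two parallel opposite sides (a trapezoid or a parallelogram). -/
def IsTrapezoid (v : ZMod 4 → ℝ × ℝ) : Prop :=
  cross (v 1 - v 0) (v 3 - v 2) = 0 ∨ cross (v 2 - v 1) (v 0 - v 3) = 0

/-- The parametrisation of the `j`-th side of `Q(s,t)` by the unit interval: the sides
`(0,0)–(1,0)`, `(1,0)–(s,t)`, `(0,1)–(s,t)`, `(0,0)–(0,1)`. -/
def quadL (s t : ℝ) (j : Fin 4) (u : ℝ) : ℝ × ℝ :=
  (![(u, 0), (1 + (s - 1) * u, t * u), (s * u, 1 + (t - 1) * u), (0, u)] : Fin 4 → ℝ × ℝ) j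

/-- Each of the four sides of `Q(s,t)` is, up to its end pieces of relative length `ε`, contained
in a side of the polygon `v`. (For `v = Q(s,t)` itself this holds for every `ε ≥ 0`; cutting the
corners of `Q(s,t)` by arbitrarily many new sides inside a small neighbourhood of the vertices
gives many other polygons `v`, with any number `n ≥ 4` of sides.) -/
def ContainsTrimmedSides (s t ε : ℝ) {n : ℕ} (v : ZMod n → ℝ × ℝ) : Prop :=
  ∀ j : Fin 4, ∃ i : ZMod n, ∀ u : ℝ, ε ≤ u → u ≤ 1 - ε →
    quadL s t j u ∈ segment ℝ (v i) (v (i + 1))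

/-- The remaining set of parameters `(s,t)`, `1 < s ≤ t`: it is bounded away from the line
`s = 1` by the two inequalities involving `1/(s-1)`. -/
def InK (s t : ℝ) : Prop :=
  s < 5 ∧ 3 ≤ t ∧ 2 + 1 / (s - 1) ≤ t ∧ t < s ^ 2 + 9 / 2 + 1 / (s - 1)

end SympB
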