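import Pool.Agent.W_93b186_h44.Main
import Pool.Agent.W_93b186_h44.FamG1
import Pool.Agent.W_93b186_h44.FamG2
import Pool.Agent.W_93b186_h44.FamG3
import Pool.Agent.W_93b186_h44.FamF1
import Pool.Agent.W_93b186_h44.FamF2
import Pool.Agent.W_93b186_h44.FamF4
import Pool.Agent.W_93b186_h44.FamF5
import Pool.Agent.W_93b186_h44.FamD

/-!
# The eight families cover the complement of `K`
-/

namespace SympB.Quad

theorem cover_G (S T : ℝ) (hS : 0 < S) (h1 : S + 1 ≤ T) (h2 : S * T < S + 1) : HasConn S T := by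
  rcases lt_or_ge 0 (S * (S + 1) * T + (S + 1) ^ 2 - T ^ 2) with h | h
  · exact fam_G2 hS (by linarith) (by linarith) h
  · exact fam_G3 hS (by linarith) (by linarith) (by linarith) (by nlinarith [sq_nonneg (S - 1)])

theorem cover_F4 (S T : ℝ) (hS : 0 < S) (h : S ^ 2 + 2 * S + 9 / 2 + 1 / S ≤ T) : HasConn S T := by
  refine fam_F4 hS ?_
  have h1 : S * (S ^ 2 + 2 * S + 9 / 2 + 1 / S) ≤ S * T := mul_le_mul_of_nonneg_left h hS.le
  have h2 : S * (S ^ 2 + 2 * S + 9 / 2 + 1 / S) = S ^ 3 + 2 * S ^ 2 + 9 / 2 * S + 1 := by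
    field_simp
  linarith

theorem cover_F (S T : ℝ) (h4 : 4 ≤ S) (hST : S ≤ T) : HasConn S T := by
  rcases le_total T (-1/2 + 1/2*S^2) with h1 | h1
  · exact fam_F1 h4 hST h1
  rcases le_total T (S^2) with h2 | h2
  · exact fam_F2 h4 h1 h2
  rcases le_total T (2*S + S^2) with h3 | h3
  · exact fam_F5 h4 h2 h3
  rcases le_total T (19/4 + 2*S + S^2) with h5 | h5
  · exact fam_D h4 h3 h5
  · refine fam_F4 (by linarith) ?_
    nlinarith

theorem covered : ∀ s t : ℝ, 1 < s → s ≤ t → ¬ InK s t → HasConn (s - 1) (t - 1) := by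
  intro s t hs hst hK
  have hS : 0 < s - 1 := by linarith
  rcases lt_or_ge t 3 with h3 | h3
  · rcases lt_or_ge t (s + 1) with h1 | h1
    · exact fam_G1 hS (by linarith) (by linarith) (by linarith)
    · exact cover_G _ _ hS (by linarith) (by nlinarith)
  rcases lt_or_ge t (2 + 1 / (s - 1)) with h2 | h2
  · have e : (s - 1) * (1 / (s - 1)) = 1 := by field_simp
    have h4 : (s - 1) * (t - 2) < 1 := by
      have h5 : t - 2 < 1 / (s - 1) := by linarith
      have h6 := mul_lt_mul_of_pos_left h5 hS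
      rwa [e] at h6
    exact cover_G _ _ hS (by nlinarith) (by nlinarith)
  rcases lt_or_ge s 5 with h5 | h5
  · rcases lt_or_ge t (s ^ 2 + 9 / 2 + 1 / (s - 1)) with h6 | h6
    · exact absurd ⟨h5, h3, h2, h6⟩ hK
    · refine cover_F4 _ _ hS ?_
      nlinarith
  · exact cover_F _ _ (by linarith) (by linarith)

end SympB.Quad
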